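import Pool.Agent.LBL.Targets1

set_option autoImplicit false

/-!
# LBL: the bulk of a regular eigenfunction
-/

open Finset
open scoped Classical

namespace Pool.Agent.LBL

namespace BLK_

lemma hh_pos (d : ℕ) (r : ℝ) (hr : 0 < r) : 0 < hh d r := by
  unfold hh
  exact Real.rpow_pos_of_pos hr _

lemma hh_sq (d : ℕ) (r : ℝ) (hr : 0 < r) : r ^ d * hh d r ^ 2 = 1 := by
  unfold hh
  rw [← Real.rpow_natCast (r ^ (-(d : ℝ) / 2)) 2, ← Real.rpow_mul hr.le, ← Real.rpow_natCast r d,
    ← Real.rpow_add hr]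
  have : (d : ℝ) + -(d : ℝ) / 2 * ((2 : ℕ) : ℝ) = 0 := by
    push_cast
    ring
  rw [this, Real.rpow_zero]

end BLK_

open BLK_ in
theorem p_BLK : T_BLK := by
  intro d C _hd hC
  have hC0 : 0 < C := by linarith
  refine ⟨1 / (2 * C ^ 2), 2, by positivity, by norm_num, ?_⟩
  intro r L _ hr O φ hE
  have hr0 : 0 < r := by linarith
  have hh0 := hh_pos d r hr0
  have hsq := hh_sq d r hr0
  have hrd : 0 < r ^ d := by positivity
  set h : ℝ := hh d r with hh_def
  set c : ℝ := 1 / (2 * C ^ 2) with hc_def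
  have hc0 : 0 < c := by positivity
  have hcC : c * C ≤ 1 / 2 := by
    have e : c * C = 1 / (2 * C) := by
      rw [hc_def]
      field_simp
    rw [e]
    apply one_div_le_one_div_of_le (by norm_num)
    linarith
  have hnm : ∑ x, φ x ^ 2 = 1 := by
    rw [← hE.top.nm]
    symm
    apply Finset.sum_subset (Finset.subset_univ _)
    intro x _ hx
    rw [hE.top.sp x hx]
    norm_num
  have hpt : ∀ x, φ x ^ 2 ≤ (c * h) * φ x + (if c * h ≤ φ x then (C * h) ^ 2 else 0) := by
    intro x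
    have h0 := hE.top.nn x
    have h1 := hE.sup x
    split_ifs with hx
    · have : φ x ^ 2 ≤ (C * h) ^ 2 := pow_le_pow_left₀ h0 h1 2
      have h2 : 0 ≤ (c * h) * φ x := by positivity
      linarith
    · have : φ x * φ x ≤ (c * h) * φ x := mul_le_mul_of_nonneg_right (not_le.mp hx).le h0
      nlinarith
  have hsum : ∑ x, φ x ^ 2 ≤ (c * h) * ∑ x, φ x +
      ((Finset.univ.filter fun x => c * h ≤ φ x).card : ℝ) * (C * h) ^ 2 := by
    calc ∑ x, φ x ^ 2 ≤ ∑ x, ((c * h) * φ x + (if c * h ≤ φ x then (C * h) ^ 2 else 0)) :=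
          Finset.sum_le_sum fun x _ => hpt x
      _ = _ := by
          rw [Finset.sum_add_distrib, ← Finset.mul_sum, ← Finset.sum_filter, Finset.sum_const, nsmul_eq_mul]
  have hl1 : (c * h) * ∑ x, φ x ≤ c * C := by
    have := mul_le_mul_of_nonneg_left hE.l1 (by positivity : 0 ≤ c * h)
    refine this.trans (le_of_eq ?_)
    rw [← hh_def]
    field_simp
  set N : ℝ := ((Finset.univ.filter fun x => c * h ≤ φ x).card : ℝ) with hN
  have hkey : 1 / 2 ≤ N * (C * h) ^ 2 := by
    rw [hnm] at hsum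
    linarith
  have hfin : r ^ d / 2 ≤ N * C ^ 2 := by
    have := mul_le_mul_of_nonneg_left hkey hrd.le
    have e : r ^ d * (N * (C * h) ^ 2) = N * C ^ 2 * (r ^ d * h ^ 2) := by ring
    rw [e, hsq] at this
    linarith
  have e : c * r ^ d = (r ^ d / 2) / C ^ 2 := by
    rw [hc_def]
    field_simp
  rw [e, div_le_iff₀ (by positivity)]
  exact hfin

end Pool.Agent.LBL
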