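import Pool.Agent.LBL.Targets2

set_option autoImplicit false

/-!
# LBL-CLO: cost of closing a site (helper95)
-/

open Finset
open scoped Classical

namespace Pool.Agent.LBL

namespace CLO_

theorem P0_sub {d L : ℕ} (f g : Tor d L → ℝ) (c : ℝ) (x : Tor d L) :
    P0 (fun y => f y - c * g y) x = P0 f x - c * P0 g x := by
  simp only [P0]
  rw [← mul_div_assoc, ← sub_div, Finset.mul_sum, ← Finset.sum_sub_distrib]
  congr 1
  refine Finset.sum_congr rfl fun i _ => ?_
  ring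

theorem P0_nonneg {d L : ℕ} (f : Tor d L → ℝ) (hf : ∀ x, 0 ≤ f x) (x : Tor d L) :
    0 ≤ P0 f x := by
  rw [P0]
  refine div_nonneg (Finset.sum_nonneg fun i _ => add_nonneg (hf _) (hf _)) (by positivity)

end CLO_

theorem p_CLO (h_VAR : T_VAR) : T_CLO := by
  intro d L _ hd _ O z φo hT _
  by_cases hz : z ∈ O
  swap
  · rw [Finset.erase_eq_of_notMem hz]
    nlinarith [sq_nonneg (φo z)]
  obtain ⟨-, hl0, hl1, -, hsym⟩ := h_VAR d (ZMod L) hd O
  obtain ⟨hv, hl0', -, -, -⟩ := h_VAR d (ZMod L) hd (O.erase z)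
  set c : ℝ := φo z with hc
  have hc0 : 0 ≤ c := hT.nn z
  let δ : Tor d L → ℝ := fun x => if x = z then 1 else 0
  let f : Tor d L → ℝ := fun x => φo x - c * δ x
  have hfz : f z = 0 := by simp [f, δ, ← hc]
  have hfx : ∀ x, x ≠ z → f x = φo x := fun x hx => by simp [f, δ, hx]
  have hf0 : ∀ x, 0 ≤ f x := by
    intro x
    by_cases hx : x = z
    · rw [hx, hfz]
    · rw [hfx x hx]
      exact hT.nn x
  have hδ0 : ∀ x, 0 ≤ δ x := by
    intro x
    simp only [δ]
    split_ifs <;> norm_num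
  have hSf : Spp O f := by
    intro x hx
    have hxz : x ≠ z := fun h => hx (h ▸ hz)
    rw [hfx x hxz, hT.sp x hx]
  have hSf' : Spp (O.erase z) f := by
    intro x hx
    by_cases hxz : x = z
    · rw [hxz, hfz]
    · exact hSf x fun h => hx (Finset.mem_erase.2 ⟨hxz, h⟩)
  have hSδ : Spp O δ := by
    intro x hx
    have hxz : x ≠ z := fun h => hx (h ▸ hz)
    simp [δ, hxz]
  have key := hv f hSf'
  -- sums over `O`
  have hsum : ∀ g : Tor d L → ℝ, g z = 0 → ∑ x ∈ O.erase z, g x = ∑ x ∈ O, g x := by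
    intro g hg
    rw [← Finset.add_sum_erase O g hz, hg, zero_add]
  rw [hsum (fun x => f x * P0 f x) (by simp [hfz]), hsum (fun x => f x ^ 2) (by simp [hfz])] at key
  have hsq : ∑ x ∈ O, f x ^ 2 = 1 - c ^ 2 := by
    rw [← hsum (fun x => f x ^ 2) (by simp [hfz]), ← hT.nm,
      ← Finset.add_sum_erase O (fun x => φo x ^ 2) hz, ← hc]
    rw [add_sub_cancel_left]
    refine Finset.sum_congr rfl fun x hx => ?_
    rw [hfx x (Finset.ne_of_mem_erase hx)]
  have h1 : ∑ x ∈ O, f x * P0 φo x = lam O * (1 - c ^ 2) := by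
    rw [← hsq, Finset.mul_sum]
    refine Finset.sum_congr rfl fun x hx => ?_
    rw [hT.eq x hx]
    by_cases hxz : x = z
    · rw [hxz, hfz]
      ring
    · rw [hfx x hxz]
      ring
  have h2 : ∑ x ∈ O, f x * P0 δ x ≤ lam O * c := by
    rw [hsym f δ hSf hSδ]
    have h3 : ∑ x ∈ O, δ x * P0 f x = P0 f z := by
      rw [Finset.sum_eq_single_of_mem z hz]
      · simp [δ]
      · intro b _ hb
        simp [δ, hb]
    rw [h3, CLO_.P0_sub φo δ c z, hT.eq z hz]
    have := mul_nonneg hc0 (CLO_.P0_nonneg δ hδ0 z)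
    linarith
  have h4 : ∑ x ∈ O, f x * P0 f x = ∑ x ∈ O, f x * P0 φo x - c * ∑ x ∈ O, f x * P0 δ x := by
    rw [Finset.mul_sum, ← Finset.sum_sub_distrib]
    refine Finset.sum_congr rfl fun x _ => ?_
    rw [CLO_.P0_sub φo δ c x]
    ring
  rw [h4, h1, hsq] at key
  have h5 : c * ∑ x ∈ O, f x * P0 δ x ≤ c * (lam O * c) := mul_le_mul_of_nonneg_left h2 hc0
  have h6 : 0 ≤ lam (O.erase z) * c ^ 2 := mul_nonneg hl0' (sq_nonneg c)
  have h7 : lam O * c ^ 2 ≤ 1 * c ^ 2 := mul_le_mul_of_nonneg_right hl1 (sq_nonneg c)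
  nlinarith

end Pool.Agent.LBL
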