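import Pool.Agent.LBL.Targets1

set_option autoImplicit false

/-!
# LBL, target CNT: counting sets by their edge boundary
-/

open Finset
open scoped Classical

namespace Pool.Agent.LBL

noncomputable section

/-- a predicate on the torus which is preserved by the unit steps and holds at the origin holds everywhere -/
theorem CNT_ind {d L : ℕ} [NeZero L] (S : Tor d L → Prop) (h0 : S 0)
    (hs : ∀ (x : Tor d L) (i : Fin d), S x → S (x + ev i)) (x : Tor d L) : S x := by
  have hn : ∀ (n : ℕ) (y : Tor d L) (i : Fin d), S y → S (y + n • (ev i : Tor d L)) := by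
    intro n
    induction n with
    | zero => intro y i hy; simpa using hy
    | succ n ih =>
      intro y i hy
      have h1 := hs _ i (ih y i hy)
      rw [succ_nsmul, ← add_assoc]
      exact h1
  have hsum : ∀ s : Finset (Fin d), S (∑ i ∈ s, (x i).val • (ev i : Tor d L)) := by
    intro s
    induction s using Finset.induction_on with
    | empty => simpa using h0
    | insert a s ha ih =>
      rw [Finset.sum_insert ha, add_comm]
      exact hn _ _ _ ih
  have hx : x = ∑ i : Fin d, (x i).val • (ev i : Tor d L) := by
    funext j
    rw [Finset.sum_apply, Finset.sum_eq_single j]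
    · simp [ev]
    · intro b _ hb
      simp [ev, Pi.single_apply, Ne.symm hb]
    · intro h
      exact absurd (Finset.mem_univ j) h
  rw [hx]
  exact hsum _

/-- a set is determined by its edge boundary and the origin -/
theorem CNT_inj {d L : ℕ} [NeZero L] (V V' : Finset (Tor d L)) (hb : bd V = bd V')
    (h0 : (0 : Tor d L) ∈ V ↔ (0 : Tor d L) ∈ V') : V = V' := by
  have key : ∀ x : Tor d L, (x ∈ V ↔ x ∈ V') := by
    intro x
    refine CNT_ind (fun x : Tor d L => (x ∈ V ↔ x ∈ V')) h0 ?_ x
    intro y i hy
    have h1 : (y, i) ∈ bd V ↔ (y, i) ∈ bd V' := by rw [hb]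
    simp only [bd, Finset.mem_filter, Finset.mem_univ, true_and] at h1
    tauto
  ext x
  exact key x

/-- number of small subsets -/
theorem CNT_small (E : Type) [Fintype E] (k : ℕ) :
    (Finset.univ.filter fun T : Finset E => T.card ≤ k).card ≤ (Fintype.card E + 1) ^ k := by
  have hsub : (Finset.univ.filter fun T : Finset E => T.card ≤ k) ⊆
      (Finset.univ : Finset (Fin k → Option E)).image
        (fun g => Finset.univ.filter fun e => ∃ j, g j = some e) := by
    intro T hT
    simp only [Finset.mem_filter, Finset.mem_univ, true_and] at hT
    rw [Finset.mem_image]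
    refine ⟨fun j => T.toList[(j : ℕ)]?, Finset.mem_univ _, ?_⟩
    ext e
    simp only [Finset.mem_filter, Finset.mem_univ, true_and]
    constructor
    · rintro ⟨j, hj⟩
      have := List.mem_of_getElem? hj
      simpa using this
    · intro he
      have he' : e ∈ T.toList := by simpa using he
      obtain ⟨n, hn⟩ := List.mem_iff_getElem?.1 he'
      have hlt : n < T.toList.length := by
        by_contra hcon
        rw [List.getElem?_eq_none (by omega)] at hn
        simp at hn
      rw [Finset.length_toList] at hlt
      exact ⟨⟨n, by omega⟩, hn⟩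
  refine (Finset.card_le_card hsub).trans (Finset.card_image_le.trans ?_)
  rw [Finset.card_univ, Fintype.card_fun, Fintype.card_option, Fintype.card_fin]

theorem p_CNT : T_CNT := by
  intro d L _ k _
  have h1 : (Finset.univ.filter fun V : Finset (Tor d L) => (bd V).card ≤ k).card ≤
      ((Finset.univ : Finset Bool) ×ˢ
        (Finset.univ.filter fun T : Finset (Tor d L × Fin d) => T.card ≤ k)).card := by
    refine Finset.card_le_card_of_injOn (fun V => (decide ((0 : Tor d L) ∈ V), bd V)) ?_ ?_
    · intro V hV
      have hV' := (Finset.mem_filter.1 hV).2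
      simp only [Finset.coe_product, Set.mem_prod, Finset.mem_coe, Finset.mem_univ, true_and,
        Finset.mem_filter]
      exact hV'
    · intro V _ V' _ h
      simp only [Prod.mk.injEq] at h
      exact CNT_inj V V' h.2 (by simpa using h.1)
  refine h1.trans ?_
  rw [Finset.card_product, Finset.card_univ, Fintype.card_bool]
  refine Nat.mul_le_mul_left 2 ((CNT_small (Tor d L × Fin d) k).trans ?_)
  have hc : Fintype.card (Tor d L × Fin d) = d * L ^ d := by
    rw [Fintype.card_prod, Fintype.card_fun, ZMod.card, Fintype.card_fin, Nat.mul_comm]
  rw [hc]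

end

end Pool.Agent.LBL
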