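import Pool.Agent.LBL.Targets1

set_option autoImplicit false

/-!
# LBL-DUP: duplication of a layer
-/

open Finset
open scoped Classical

namespace Pool.Agent.LBL

noncomputable section

/-- sums over `ZMod L` -/
lemma DUP_sum {L : ℕ} [NeZero L] (g : ZMod L) (f : ZMod L → ℝ) :
    ∑ k, f k = ∑ t ∈ Finset.range L, f (g + (t : ZMod L)) := by
  rw [← Equiv.sum_comp (Equiv.addLeft g) f]
  refine Finset.sum_nbij' (fun k => ZMod.val k) (fun t => (t : ZMod L)) ?_ ?_ ?_ ?_ ?_
  · intro k _
    exact Finset.mem_range.2 (ZMod.val_lt k)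
  · intro t _
    exact Finset.mem_univ _
  · intro k _
    exact ZMod.natCast_zmod_val k
  · intro t ht
    exact ZMod.val_natCast_of_lt (Finset.mem_range.1 ht)
  · intro k _
    simp

lemma DUP_shift (A : ℕ → ℝ) (m : ℕ) : ∀ L, m ≤ L →
    ∑ t ∈ Finset.range L, (if t < m then A (t + 1) else A t) =
      ∑ t ∈ Finset.range L, A t - A 0 + A m := by
  intro L hL
  induction L, hL using Nat.le_induction with
  | base =>
    have h1 : ∑ t ∈ Finset.range m, (if t < m then A (t + 1) else A t) =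
        ∑ t ∈ Finset.range m, A (t + 1) := by
      refine Finset.sum_congr rfl fun t ht => ?_
      rw [if_pos (Finset.mem_range.1 ht)]
    rw [h1]
    have h2 := Finset.sum_range_succ' A m
    have h3 := Finset.sum_range_succ A m
    linarith
  | succ n hn ih =>
    rw [Finset.sum_range_succ, ih, Finset.sum_range_succ, if_neg (by omega)]
    ring

/-- the old layer at the new position `k`: the layer `g` is deleted, the layer `g + m` doubled -/
def DUP_c {L : ℕ} (g : ZMod L) (m : ℕ) (k : ZMod L) : ZMod L :=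
  if (k - g).val < m then k + 1 else k

lemma DUP_c_add {L : ℕ} [NeZero L] (g : ZMod L) (m t : ℕ) (ht : t < L) :
    DUP_c g m (g + t) = g + ((if t < m then t + 1 else t : ℕ) : ZMod L) := by
  have h1 : (g + (t : ZMod L) - g).val = t := by
    rw [add_sub_cancel_left]
    exact ZMod.val_natCast_of_lt ht
  unfold DUP_c
  rw [h1]
  split_ifs
  · push_cast
    ring
  · rfl

lemma DUP_csum {L : ℕ} [NeZero L] (g : ZMod L) (m : ℕ) (hm : m ≤ L) (a : ZMod L → ℝ) :
    ∑ k, a (DUP_c g m k) = ∑ k, a k - a g + a (g + m) := by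
  rw [DUP_sum g, DUP_sum g a]
  have h := DUP_shift (fun t => a (g + (t : ZMod L))) m L hm
  simp only [Nat.cast_zero, add_zero] at h
  rw [← h]
  refine Finset.sum_congr rfl fun t ht => ?_
  rw [DUP_c_add g m t (Finset.mem_range.1 ht)]
  split_ifs <;> rfl

lemma DUP_energy {L : ℕ} [NeZero L] (g : ZMod L) (m : ℕ) (hm1 : 1 ≤ m) (hmL : m < L)
    (D : ZMod L → ZMod L → ℝ) (hD0 : ∀ k, D k k = 0)
    (hg : D (g + 1) (g - 1) ≤ D (g + 1) g + D g (g - 1)) :
    ∑ k, D (DUP_c g m (k + 1)) (DUP_c g m k) ≤ ∑ k, D (k + 1) k := by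
  rw [DUP_sum g, DUP_sum g (fun k => D (k + 1) k)]
  set G : ℕ → ℝ := fun t => D (g + (t : ZMod L) + 1) (g + (t : ZMod L)) with hG
  have hsum := DUP_shift G m L hmL.le
  have hcast : ∀ t : ℕ, g + (t : ZMod L) + 1 = g + ((t + 1 : ℕ) : ZMod L) := by
    intro t
    push_cast
    ring
  have hb : ∀ t ∈ Finset.range L,
      D (DUP_c g m (g + (t : ZMod L) + 1)) (DUP_c g m (g + (t : ZMod L))) ≤
        (if t < m then G (t + 1) else G t) + (if t = L - 1 then G 0 else 0) -
          (if t = m - 1 then G m else 0) := by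
    intro t ht
    have htL := Finset.mem_range.1 ht
    rw [DUP_c_add g m t htL]
    by_cases h1 : t + 1 < L
    · rw [hcast t, DUP_c_add g m (t + 1) h1]
      rw [if_neg (show ¬ t = L - 1 by omega)]
      rcases lt_trichotomy (t + 1) m with h2 | h2 | h2
      · rw [if_pos h2, if_pos (show t < m by omega), if_pos (show t < m by omega),
          if_neg (show ¬ t = m - 1 by omega)]
        simp only [hG, hcast]
        linarith
      · rw [if_neg (show ¬ t + 1 < m by omega), if_pos (show t < m by omega),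
          if_pos (show t < m by omega), if_pos (show t = m - 1 by omega), hD0, h2]
        linarith
      · rw [if_neg (show ¬ t + 1 < m by omega), if_neg (show ¬ t < m by omega),
          if_neg (show ¬ t < m by omega), if_neg (show ¬ t = m - 1 by omega)]
        simp only [hG, hcast]
        linarith
    · have h2 : t = L - 1 := by omega
      have h3 : g + (t : ZMod L) + 1 = g := by
        rw [hcast t, show t + 1 = L by omega, ZMod.natCast_self, add_zero]
      have h4 : g + (t : ZMod L) = g - 1 := by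
        rw [eq_sub_iff_add_eq, h3]
      have h5 : DUP_c g m g = g + 1 := by
        have h6 := DUP_c_add g m 0 (by omega)
        rw [if_pos (show 0 < m by omega)] at h6
        simpa using h6
      rw [h3, h5, if_neg (show ¬ t < m by omega), if_neg (show ¬ t < m by omega),
        if_pos h2, if_neg (show ¬ t = m - 1 by omega)]
      have h7 : G t = D g (g - 1) := by
        simp only [hG]
        rw [h3, h4]
      have h8 : G 0 = D (g + 1) g := by
        simp only [hG, Nat.cast_zero, add_zero]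
      rw [h7, h8, h4]
      linarith
  refine (Finset.sum_le_sum hb).trans (le_of_eq ?_)
  rw [Finset.sum_sub_distrib, Finset.sum_add_distrib, hsum]
  have h9 : ∑ t ∈ Finset.range L, (if t = L - 1 then G 0 else 0) = G 0 := by
    rw [Finset.sum_ite_eq' (Finset.range L) (L - 1) (fun _ => G 0),
      if_pos (Finset.mem_range.2 (by omega))]
  have h10 : ∑ t ∈ Finset.range L, (if t = m - 1 then G m else 0) = G m := by
    rw [Finset.sum_ite_eq' (Finset.range L) (m - 1) (fun _ => G m),
      if_pos (Finset.mem_range.2 (by omega))]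
  rw [h9, h10]
  ring

/-! ## Slices -/

/-- the point with `i`-th coordinate `k` and the other coordinates `y` -/
def DUP_J {d L : ℕ} (i : Fin d) (k : ZMod L) (y : {j : Fin d // j ≠ i} → ZMod L) : Tor d L :=
  (Equiv.funSplitAt i (ZMod L)).symm (k, y)

lemma DUP_J_apply {d L : ℕ} (i : Fin d) (k : ZMod L) (y : {j : Fin d // j ≠ i} → ZMod L)
    (j : Fin d) : DUP_J i k y j = if h : j = i then k else y ⟨j, h⟩ := by
  unfold DUP_J
  rw [Equiv.funSplitAt_symm_apply]

lemma DUP_J_self {d L : ℕ} (i : Fin d) (k : ZMod L) (y : {j : Fin d // j ≠ i} → ZMod L) :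
    DUP_J i k y i = k := by
  rw [DUP_J_apply, dif_pos rfl]

lemma DUP_slice {d L : ℕ} [NeZero L] (i : Fin d) (F : Tor d L → ℝ) :
    ∑ x, F x = ∑ k, ∑ y, F (DUP_J i k y) := by
  rw [← Equiv.sum_comp (Equiv.funSplitAt i (ZMod L)).symm F, Fintype.sum_prod_type]
  rfl

lemma DUP_J_ev {d L : ℕ} (i : Fin d) (k : ZMod L) (y : {j : Fin d // j ≠ i} → ZMod L) :
    DUP_J i k y + ev i = DUP_J i (k + 1) y := by
  funext j
  rw [Pi.add_apply, DUP_J_apply, DUP_J_apply]
  unfold ev
  by_cases h : j = i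
  · subst h
    simp
  · rw [dif_neg h, dif_neg h, Pi.single_eq_of_ne h, add_zero]

lemma DUP_J_ev' {d L : ℕ} (i j : Fin d) (hj : j ≠ i) (k : ZMod L)
    (y : {j : Fin d // j ≠ i} → ZMod L) :
    DUP_J i k y + ev j = DUP_J i k (y + Pi.single ⟨j, hj⟩ 1) := by
  funext l
  rw [Pi.add_apply, DUP_J_apply, DUP_J_apply]
  unfold ev
  by_cases h : l = i
  · subst h
    rw [dif_pos rfl, dif_pos rfl, Pi.single_eq_of_ne hj.symm, add_zero]
  · rw [dif_neg h, dif_neg h, Pi.add_apply]
    by_cases h2 : l = j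
    · subst h2
      simp
    · rw [Pi.single_eq_of_ne h2, Pi.single_eq_of_ne (by
        intro h3
        exact h2 (congrArg Subtype.val h3))]

/-- move a point to the old layer -/
def DUP_C {d L : ℕ} (i : Fin d) (g : ZMod L) (m : ℕ) (x : Tor d L) : Tor d L :=
  Function.update x i (DUP_c g m (x i))

lemma DUP_C_J {d L : ℕ} (i : Fin d) (g : ZMod L) (m : ℕ) (k : ZMod L)
    (y : {j : Fin d // j ≠ i} → ZMod L) :
    DUP_C i g m (DUP_J i k y) = DUP_J i (DUP_c g m k) y := by
  funext j
  unfold DUP_C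
  rw [DUP_J_self, DUP_J_apply]
  by_cases h : j = i
  · subst h
    simp
  · rw [Function.update_of_ne h, DUP_J_apply, dif_neg h, dif_neg h]

lemma DUP_shiftsum {d L : ℕ} [NeZero L] (i : Fin d) (F : Tor d L → ℝ) :
    ∑ x, F (x + ev i) = ∑ x, F x :=
  Equiv.sum_comp (Equiv.addRight (ev i)) F

/-- the squared norm of one layer -/
lemma DUP_layer {d L : ℕ} [NeZero L] (i : Fin d) (φ : Tor d L → ℝ) (h1 : ∑ x, φ x ^ 2 = 1)
    (h : ZMod L) :
    ∑ y, φ (DUP_J i h y) ^ 2 ≤ 1 / L + 2 * Real.sqrt (Ed i φ) := by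
  set s : ZMod L → ℝ := fun k => ∑ y, φ (DUP_J i k y) ^ 2 with hs
  have hs1 : ∑ k, s k = 1 := by
    rw [← h1, DUP_slice i (fun x => φ x ^ 2)]
  have hL : (0 : ℝ) < L := Nat.cast_pos.2 (Nat.pos_of_ne_zero (NeZero.ne L))
  obtain ⟨k', -, hk'⟩ : ∃ k' ∈ (Finset.univ : Finset (ZMod L)), s k' ≤ 1 / (L : ℝ) := by
    refine Finset.exists_le_of_sum_le Finset.univ_nonempty ?_
    rw [hs1, Finset.sum_const, Finset.card_univ, ZMod.card, nsmul_eq_mul]
    rw [mul_one_div_cancel hL.ne']
  have h2 : s h - s k' ≤ ∑ k, |s (k + 1) - s k| := by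
    rw [DUP_sum k' (fun k => |s (k + 1) - s k|)]
    have h3 := Finset.sum_range_sub (fun t : ℕ => s (k' + (t : ZMod L))) (h - k').val
    have h4 : k' + (((h - k').val : ℕ) : ZMod L) = h := by
      rw [ZMod.natCast_zmod_val]
      ring
    simp only [Nat.cast_zero, add_zero] at h3
    rw [h4] at h3
    rw [← h3]
    refine (Finset.sum_le_sum fun t _ => le_abs_self _).trans ?_
    refine (Finset.sum_le_sum_of_subset_of_nonneg
      (Finset.range_subset_range.2 (ZMod.val_lt (h - k')).le) fun t _ _ => abs_nonneg _).trans ?_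
    refine le_of_eq (Finset.sum_congr rfl fun t _ => ?_)
    have h5 : k' + ((t + 1 : ℕ) : ZMod L) = k' + (t : ZMod L) + 1 := by
      push_cast
      ring
    rw [h5]
  have h6 : ∑ k, |s (k + 1) - s k| ≤
      ∑ x, |φ (x + ev i) - φ x| * |φ (x + ev i) + φ x| := by
    rw [DUP_slice i (fun x => |φ (x + ev i) - φ x| * |φ (x + ev i) + φ x|)]
    refine Finset.sum_le_sum fun k _ => ?_
    simp only [hs]
    rw [← Finset.sum_sub_distrib]
    refine (Finset.abs_sum_le_sum_abs _ _).trans (le_of_eq ?_)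
    refine Finset.sum_congr rfl fun y _ => ?_
    rw [DUP_J_ev, ← abs_mul]
    congr 1
    ring
  have h7 : ∑ x, |φ (x + ev i) - φ x| * |φ (x + ev i) + φ x| ≤ 2 * Real.sqrt (Ed i φ) := by
    refine (Real.sum_mul_le_sqrt_mul_sqrt _ _ _).trans ?_
    simp only [sq_abs]
    have h8 : ∑ x, (φ (x + ev i) + φ x) ^ 2 ≤ 2 ^ 2 := by
      have h9 : ∑ x, (φ (x + ev i) + φ x) ^ 2 ≤ ∑ x, (2 * φ (x + ev i) ^ 2 + 2 * φ x ^ 2) := by
        refine Finset.sum_le_sum fun x _ => ?_
        nlinarith [sq_nonneg (φ (x + ev i) - φ x)]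
      refine h9.trans (le_of_eq ?_)
      rw [Finset.sum_add_distrib, ← Finset.mul_sum, ← Finset.mul_sum,
        DUP_shiftsum i (fun x => φ x ^ 2), h1]
      norm_num
    have h10 : Real.sqrt (∑ x, (φ (x + ev i) + φ x) ^ 2) ≤ 2 :=
      Real.sqrt_le_iff.2 ⟨by norm_num, h8⟩
    have h11 : Real.sqrt (∑ x, (φ (x + ev i) - φ x) ^ 2) = Real.sqrt (Ed i φ) := rfl
    rw [h11]
    have h12 := Real.sqrt_nonneg (Ed i φ)
    nlinarith
  have h13 : s h ≤ 1 / L + 2 * Real.sqrt (Ed i φ) := by linarith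
  exact h13

theorem DUP_arith (d μ S P N W l q : ℝ) (hd : 0 < d) (hμ : 0 < μ) (hS : 0 ≤ S) (hS1 : S ≤ 1)
    (hN : 0 ≤ N) (hW : 0 < W) (h1 : 2 * μ / W * N ≤ 2 * d * μ * S - P) (h2 : q ≤ l * (1 + S))
    (h3 : 2 * d * (1 + S - q) ≤ 2 * d * μ + P) : μ * N / (2 * d * W) ≤ l - (1 - μ) := by
  set X : ℝ := μ * N / (2 * d * W) with hX
  have hX0 : 0 ≤ X := by positivity
  have h4 : 2 * μ / W * N = 4 * d * X := by
    rw [hX]
    field_simp
    ring
  rw [h4] at h1
  have h5 : 2 * d * q ≤ 2 * d * (l * (1 + S)) := mul_le_mul_of_nonneg_left h2 (by positivity)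
  have h6 : 4 * d * X ≤ 2 * d * ((1 + S) * (l - (1 - μ))) := by
    have h7 : 2 * d * ((1 + S) * (l - (1 - μ))) =
        2 * d * (l * (1 + S)) - 2 * d * (1 + S) + 2 * d * μ + 2 * d * μ * S := by ring
    have h8 : 2 * d * (1 + S - q) = 2 * d * (1 + S) - 2 * d * q := by ring
    rw [h7]
    rw [h8] at h3
    linarith
  have h9 : 4 * d * X = 2 * d * (2 * X) := by ring
  rw [h9] at h6
  have h10 : 2 * X ≤ (1 + S) * (l - (1 - μ)) := le_of_mul_le_mul_left h6 (by positivity)
  by_contra h11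
  push Not at h11
  have h12 : (1 + S) * (l - (1 - μ)) < (1 + S) * X := mul_lt_mul_of_pos_left h11 (by linarith)
  have h13 : (1 + S) * X ≤ 2 * X := mul_le_mul_of_nonneg_right (by linarith) hX0
  linarith

theorem p_DUP (h_TOP : T_TOP) (h_VAR : T_VAR) (h_ENI : T_ENI) (h_FLX : T_FLX) : T_DUP := by
  intro d L _ hd hL3 V hV hVL hlam
  have hd1 : 1 ≤ d := by omega
  have hdR : (0 : ℝ) < d := Nat.cast_pos.2 (by omega)
  obtain ⟨φ, hφ⟩ := h_TOP d (ZMod L) V hd1 hV
  obtain ⟨-, -, -, -, hEn, hip⟩ := h_FLX d L hd1 V φ hφ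
  set μ : ℝ := 1 - lam V with hμ
  have hμ0 : 0 < μ := by linarith
  have hVc : (0 : ℝ) < V.card := Nat.cast_pos.2 hV.card_pos
  have hnm : ∑ x, φ x ^ 2 = 1 := by
    rw [← hip]
    unfold ip
    exact Finset.sum_congr rfl fun x _ => by ring
  -- the direction
  obtain ⟨i, -, hi⟩ : ∃ i ∈ (Finset.univ : Finset (Fin d)), 2 * μ ≤ Ed i φ := by
    have : Nonempty (Fin d) := ⟨⟨0, by omega⟩⟩
    refine Finset.exists_le_of_sum_le Finset.univ_nonempty ?_
    rw [Finset.sum_const, Finset.card_univ, Fintype.card_fin, nsmul_eq_mul]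
    have h1 : ∑ i : Fin d, Ed i φ = 2 * d * μ := hEn
    rw [h1]
    exact le_of_eq (by ring)
  have hEdnn : ∀ j : Fin d, 0 ≤ Ed j φ := fun j => Finset.sum_nonneg fun x _ => sq_nonneg _
  have hsplit : ∀ f : Tor d L → ℝ, En f = Ed i f + ∑ j ∈ Finset.univ.erase i, Ed j f :=
    fun f => (Finset.add_sum_erase Finset.univ (fun j => Ed j f) (Finset.mem_univ i)).symm
  have hEdi : Ed i φ ≤ 2 * d * μ := by
    have h1 := hsplit φ
    have h2 : 0 ≤ ∑ j ∈ Finset.univ.erase i, Ed j φ := Finset.sum_nonneg fun j _ => hEdnn j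
    linarith
  -- the empty layer
  obtain ⟨g, hg⟩ : ∃ g : ZMod L, ∀ x ∈ V, x i ≠ g := by
    by_contra hcon
    push Not at hcon
    have h1 : (Finset.univ : Finset (ZMod L)) ⊆ V.image fun x => x i := by
      intro g _
      obtain ⟨x, hx, hxg⟩ := hcon g
      exact Finset.mem_image.2 ⟨x, hx, hxg⟩
    have h2 := (Finset.card_le_card h1).trans Finset.card_image_le
    rw [Finset.card_univ, ZMod.card] at h2
    omega
  -- slices
  set s : ZMod L → ℝ := fun k => ∑ y, φ (DUP_J i k y) ^ 2 with hs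
  set N : ZMod L → ℝ := fun k => ∑ y, (if DUP_J i k y ∈ V then (1 : ℝ) else 0) with hN
  set E : Fin d → ZMod L → ℝ :=
    fun j k => ∑ y, (φ (DUP_J i k y + ev j) - φ (DUP_J i k y)) ^ 2 with hE
  set P : ZMod L → ℝ := fun k => ∑ j ∈ Finset.univ.erase i, E j k with hP
  have hzero : ∀ k : ZMod L, (∀ y, DUP_J i k y ∉ V) → s k = 0 ∧ P k = 0 ∧ N k = 0 := by
    intro k hk
    have h0 : ∀ y, φ (DUP_J i k y) = 0 := fun y => hφ.sp _ (hk y)
    refine ⟨?_, ?_, ?_⟩
    · simp only [hs, h0]
      simp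
    · simp only [hP, hE]
      refine Finset.sum_eq_zero fun j hj => Finset.sum_eq_zero fun y _ => ?_
      rw [DUP_J_ev' i j (Finset.ne_of_mem_erase hj), h0, h0]
      ring
    · simp only [hN]
      exact Finset.sum_eq_zero fun y _ => if_neg (hk y)
  have hsg := hzero g (fun y hy => hg _ hy (DUP_J_self i g y))
  have hs_nn : ∀ k, 0 ≤ s k := fun k => Finset.sum_nonneg fun y _ => sq_nonneg _
  have hP_nn : ∀ k, 0 ≤ P k := fun k => Finset.sum_nonneg fun j _ =>
    Finset.sum_nonneg fun y _ => sq_nonneg _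
  have hN_nn : ∀ k, 0 ≤ N k := fun k => Finset.sum_nonneg fun y _ => by
    split_ifs
    · exact zero_le_one
    · exact le_refl _
  have hs1 : ∑ k, s k = 1 := by
    rw [← hnm, DUP_slice i (fun x => φ x ^ 2)]
  have hN1 : ∑ k, N k = V.card := by
    rw [← DUP_slice i (fun x => if x ∈ V then (1 : ℝ) else 0)]
    simp
  have hE1 : ∀ j, ∑ k, E j k = Ed j φ := by
    intro j
    exact (DUP_slice i (fun x => (φ (x + ev j) - φ x) ^ 2)).symm
  have hP1 : ∑ k, P k = 2 * d * μ - Ed i φ := by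
    simp only [hP]
    rw [Finset.sum_comm]
    simp only [hE1]
    have h1 := hsplit φ
    linarith
  -- the layer
  obtain ⟨h, hh1, hh2⟩ : ∃ h : ZMod L, 0 < N h ∧ 2 * μ / V.card * N h ≤ 2 * d * μ * s h - P h := by
    by_contra hcon
    push Not at hcon
    have h1 : ∀ k ∈ (Finset.univ : Finset (ZMod L)),
        2 * d * μ * s k - P k ≤ 2 * μ / V.card * N k := by
      intro k _
      by_cases hk : ∀ y, DUP_J i k y ∉ V
      · obtain ⟨h2, h3, h4⟩ := hzero k hk
        rw [h2, h3, h4]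
        simp
      · push Not at hk
        obtain ⟨y, hy⟩ := hk
        refine (hcon k ?_).le
        have h5 : (1 : ℝ) ≤ N k := by
          have h6 := Finset.single_le_sum (f := fun y => if DUP_J i k y ∈ V then (1 : ℝ) else 0)
            (s := Finset.univ) (fun z _ => by
              split_ifs
              · exact zero_le_one
              · exact le_refl _) (Finset.mem_univ y)
          rw [if_pos hy] at h6
          exact h6
        linarith
    obtain ⟨x0, hx0⟩ := hV
    have h7 : DUP_J i (x0 i) (fun j : {j : Fin d // j ≠ i} => x0 j) = x0 := by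
      funext j
      rw [DUP_J_apply]
      by_cases hj : j = i
      · rw [dif_pos hj, hj]
      · rw [dif_neg hj]
    have h8 : 0 < N (x0 i) := by
      have h6 := Finset.single_le_sum
        (f := fun y => if DUP_J i (x0 i) y ∈ V then (1 : ℝ) else 0)
        (s := Finset.univ) (fun z _ => by
          split_ifs
          · exact zero_le_one
          · exact le_refl _) (Finset.mem_univ (fun j : {j : Fin d // j ≠ i} => x0 j))
      rw [h7, if_pos hx0] at h6
      have h9 : (1 : ℝ) ≤ N (x0 i) := h6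
      linarith
    have h10 := Finset.sum_lt_sum h1 ⟨x0 i, Finset.mem_univ _, hcon (x0 i) h8⟩
    rw [Finset.sum_sub_distrib, ← Finset.mul_sum, ← Finset.mul_sum, hs1, hP1, hN1] at h10
    have h11 : 2 * μ / (V.card : ℝ) * V.card = 2 * μ := by field_simp
    rw [h11] at h10
    linarith
  -- the number of new points
  have hhg : h ≠ g := by
    intro h1
    rw [h1, hsg.2.2] at hh1
    exact lt_irrefl _ hh1
  set m : ℕ := (h - g).val with hm
  have hm1 : 1 ≤ m := by
    rw [Nat.one_le_iff_ne_zero, hm, Ne, ZMod.val_eq_zero, sub_eq_zero]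
    exact hhg
  have hmL : m < L := ZMod.val_lt _
  have hgm : g + (m : ZMod L) = h := by
    rw [hm, ZMod.natCast_zmod_val]
    ring
  set V' : Finset (Tor d L) := Finset.univ.filter fun x => DUP_C i g m x ∈ V with hV'
  set n : ℕ := (Finset.univ.filter fun y => DUP_J i h y ∈ V).card with hn
  have hnN : (n : ℝ) = N h := by
    simp only [hn, hN]
    simp
  have hV'c : (V'.card : ℝ) = V.card + n := by
    have h1 : (V'.card : ℝ) = ∑ x, (if DUP_C i g m x ∈ V then (1 : ℝ) else 0) := by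
      simp [hV']
    rw [h1, DUP_slice i (fun x => if DUP_C i g m x ∈ V then (1 : ℝ) else 0)]
    simp only [DUP_C_J]
    have h2 := DUP_csum g m hmL.le N
    rw [hN1, hsg.2.2, hgm] at h2
    rw [hnN]
    simp only [hN] at h2 ⊢
    rw [h2]
    ring
  set ψ : Tor d L → ℝ := fun x => φ (DUP_C i g m x) with hψ
  have hψs : Spp V' ψ := by
    intro x hx
    refine hφ.sp _ fun h1 => hx ?_
    rw [hV']
    exact Finset.mem_filter.2 ⟨Finset.mem_univ _, h1⟩
  have hψJ : ∀ k y, ψ (DUP_J i k y) = φ (DUP_J i (DUP_c g m k) y) := by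
    intro k y
    simp only [hψ, DUP_C_J]
  have hψψ : ip ψ ψ = 1 + s h := by
    unfold ip
    rw [DUP_slice i (fun x => ψ x * ψ x)]
    simp only [hψJ]
    have h2 := DUP_csum g m hmL.le s
    rw [hs1, hsg.1, hgm] at h2
    have h3 : ∑ k, ∑ y, φ (DUP_J i (DUP_c g m k) y) * φ (DUP_J i (DUP_c g m k) y) =
        ∑ k, s (DUP_c g m k) := by
      refine Finset.sum_congr rfl fun k _ => ?_
      simp only [hs]
      exact Finset.sum_congr rfl fun y _ => by ring
    rw [h3, h2]
    ring
  have hψE : En ψ ≤ 2 * d * μ + P h := by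
    rw [hsplit ψ]
    have h1 : Ed i ψ ≤ Ed i φ := by
      set D : ZMod L → ZMod L → ℝ :=
        fun k l => ∑ y, (φ (DUP_J i k y) - φ (DUP_J i l y)) ^ 2 with hD
      have h2 : Ed i ψ = ∑ k, D (DUP_c g m (k + 1)) (DUP_c g m k) := by
        unfold Ed
        rw [DUP_slice i (fun x => (ψ (x + ev i) - ψ x) ^ 2)]
        refine Finset.sum_congr rfl fun k _ => ?_
        simp only [hD]
        refine Finset.sum_congr rfl fun y _ => ?_
        rw [DUP_J_ev, hψJ, hψJ]
      have h3 : Ed i φ = ∑ k, D (k + 1) k := by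
        unfold Ed
        rw [DUP_slice i (fun x => (φ (x + ev i) - φ x) ^ 2)]
        refine Finset.sum_congr rfl fun k _ => ?_
        simp only [hD]
        refine Finset.sum_congr rfl fun y _ => ?_
        rw [DUP_J_ev]
      rw [h2, h3]
      refine DUP_energy g m hm1 hmL D (fun k => ?_) ?_
      · simp only [hD]
        exact Finset.sum_eq_zero fun y _ => by ring
      · have h0 : ∀ y, φ (DUP_J i g y) = 0 :=
          fun y => hφ.sp _ fun hy => hg _ hy (DUP_J_self i g y)
        simp only [hD]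
        rw [← Finset.sum_add_distrib]
        refine Finset.sum_le_sum fun y _ => ?_
        rw [h0]
        have h4 := hφ.nn (DUP_J i (g + 1) y)
        have h5 := hφ.nn (DUP_J i (g - 1) y)
        nlinarith [mul_nonneg h4 h5]
    have h2 : ∑ j ∈ Finset.univ.erase i, Ed j ψ =
        ∑ j ∈ Finset.univ.erase i, Ed j φ + P h := by
      simp only [hP]
      rw [← Finset.sum_add_distrib]
      refine Finset.sum_congr rfl fun j hj => ?_
      have hji := Finset.ne_of_mem_erase hj
      have h3 : Ed j ψ = ∑ k, E j (DUP_c g m k) := by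
        unfold Ed
        rw [DUP_slice i (fun x => (ψ (x + ev j) - ψ x) ^ 2)]
        refine Finset.sum_congr rfl fun k _ => ?_
        simp only [hE]
        refine Finset.sum_congr rfl fun y _ => ?_
        rw [DUP_J_ev' i j hji, hψJ, hψJ, ← DUP_J_ev' i j hji]
      have h4 : E j g = 0 := by
        have h0 : ∀ y, φ (DUP_J i g y) = 0 :=
          fun y => hφ.sp _ fun hy => hg _ hy (DUP_J_self i g y)
        simp only [hE]
        refine Finset.sum_eq_zero fun y _ => ?_
        rw [DUP_J_ev' i j hji, h0, h0]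
        ring
      rw [h3, DUP_csum g m hmL.le (E j), hE1, h4, hgm]
      ring
    rw [h2]
    have h3 := hsplit φ
    linarith
  -- the eigenvalue
  obtain ⟨-, hE2, -⟩ := h_ENI d L hd1 ψ ψ
  obtain ⟨hvar, -⟩ := h_VAR d (ZMod L) hd1 V'
  have hv := hvar ψ hψs
  have hv1 : ∑ x ∈ V', ψ x * P0 ψ x = ip ψ (P0 ψ) := by
    unfold ip
    refine Finset.sum_subset (Finset.subset_univ _) fun x _ hx => ?_
    rw [hψs x hx, zero_mul]
  have hv2 : ∑ x ∈ V', ψ x ^ 2 = ip ψ ψ := by
    unfold ip
    rw [← Finset.sum_subset (Finset.subset_univ V') fun x _ hx => by rw [hψs x hx, zero_mul]]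
    exact Finset.sum_congr rfl fun x _ => by ring
  rw [hv1, hv2, hψψ] at hv
  rw [hE2, hψψ] at hψE
  have hs_le : s h ≤ 1 := by
    rw [← hs1]
    exact Finset.single_le_sum (fun k _ => hs_nn k) (Finset.mem_univ h)
  have hsh := hs_nn h
  have hPh := hP_nn h
  refine ⟨V', n, ?_, ?_, ?_, ?_⟩
  · have h1 : (0 : ℝ) < n := by rw [hnN]; exact hh1
    exact Nat.cast_pos.1 h1
  · have h1 : ((V'.card : ℕ) : ℝ) = ((V.card + n : ℕ) : ℝ) := by
      rw [hV'c]
      push_cast
      ring
    exact Nat.cast_injective h1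
  · have h5 : lam V = 1 - μ := by rw [hμ]; ring
    rw [hnN, h5]
    have hgoal := DUP_arith d μ (s h) (P h) (N h) V.card (lam V') (ip ψ (P0 ψ)) hdR hμ0 hsh hs_le
      hh1.le hVc hh2 hv hψE
    exact hgoal
  · have h1 : (n : ℝ) ≤ d * V.card * s h := by
      rw [hnN]
      have h2 : 2 * μ / V.card * N h ≤ 2 * d * μ * s h := by linarith
      have h3 : 2 * μ / V.card * N h = (2 * μ) * (N h / V.card) := by ring
      have h4 : 2 * d * μ * s h = (2 * μ) * (d * s h) := by ring
      rw [h3, h4] at h2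
      have h5 := le_of_mul_le_mul_left h2 (by linarith)
      rw [div_le_iff₀ hVc] at h5
      linarith
    have h2 := DUP_layer i φ hnm h
    have h3 : Real.sqrt (Ed i φ) ≤ Real.sqrt (2 * d * μ) := Real.sqrt_le_sqrt hEdi
    have h4 : s h ≤ 1 / L + 2 * Real.sqrt (2 * d * μ) := by
      have h5 : s h ≤ 1 / L + 2 * Real.sqrt (Ed i φ) := h2
      linarith
    refine h1.trans ?_
    exact mul_le_mul_of_nonneg_left h4 (by positivity)

end

end Pool.Agent.LBL
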