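import Pool.Agent.LBL.Targets1

set_option autoImplicit false

/-!
# LBL-ENI: Green formulas on the torus
-/

open Finset
open scoped Classical

namespace Pool.Agent.LBL

noncomputable section

namespace ENI_

variable {d L : ℕ} [NeZero L]

theorem shift (f : Tor d L → ℝ) (v : Tor d L) : ∑ x, f (x + v) = ∑ x, f x :=
  Equiv.sum_comp (Equiv.addRight v) f

theorem shift_neg (f : Tor d L → ℝ) (v : Tor d L) : ∑ x, f (x - v) = ∑ x, f x := by
  have := shift f (-v)
  simpa only [sub_eq_add_neg] using this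

/-- correlation in direction `i` -/
def S (i : Fin d) (f g : Tor d L → ℝ) : ℝ := ∑ x, f x * g (x + ev i)

theorem S_neg (i : Fin d) (f g : Tor d L → ℝ) : ∑ x, f x * g (x - ev i) = S i g f := by
  have h := shift (fun x => f x * g (x - ev i)) (ev i)
  simp only [add_sub_cancel_right] at h
  rw [← h]
  unfold S
  exact Finset.sum_congr rfl fun x _ => mul_comm _ _

theorem ip_P0 (f g : Tor d L → ℝ) : ip f (P0 g) = (∑ i : Fin d, (S i f g + S i g f)) / (2 * d) := by
  unfold ip P0
  have h : ∀ x : Tor d L, f x * ((∑ i : Fin d, (g (x + ev i) + g (x - ev i))) / (2 * d)) =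
      (∑ i : Fin d, (f x * g (x + ev i) + f x * g (x - ev i))) / (2 * d) := by
    intro x
    rw [← mul_div_assoc, Finset.mul_sum]
    congr 1
    exact Finset.sum_congr rfl fun i _ => mul_add _ _ _
  rw [Finset.sum_congr rfl fun x _ => h x, ← Finset.sum_div, Finset.sum_comm]
  congr 1
  refine Finset.sum_congr rfl fun i _ => ?_
  rw [Finset.sum_add_distrib, S_neg]
  rfl

theorem ip_comm (f g : Tor d L → ℝ) : ip f g = ip g f :=
  Finset.sum_congr rfl fun _ _ => mul_comm _ _

theorem Ed_eq (i : Fin d) (f : Tor d L → ℝ) : Ed i f = 2 * ip f f - 2 * S i f f := by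
  unfold Ed
  have h : ∀ x : Tor d L, (f (x + ev i) - f x) ^ 2 =
      f (x + ev i) * f (x + ev i) + f x * f x - 2 * (f x * f (x + ev i)) := by
    intro x
    ring
  rw [Finset.sum_congr rfl fun x _ => h x, Finset.sum_sub_distrib, Finset.sum_add_distrib,
    shift (fun x => f x * f x), ← Finset.mul_sum]
  unfold ip S
  ring

end ENI_

theorem p_ENI : T_ENI := by
  intro d L _ hd f g
  have hd0 : (d : ℝ) ≠ 0 := by
    have : d ≠ 0 := by omega
    exact_mod_cast this
  refine ⟨?_, ?_, ?_⟩
  · rw [ENI_.ip_comm (P0 f) g, ENI_.ip_P0, ENI_.ip_P0]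
    congr 1
    exact Finset.sum_congr rfl fun i _ => add_comm _ _
  · unfold En
    rw [Finset.sum_congr rfl fun i _ => ENI_.Ed_eq i f, ENI_.ip_P0, Finset.sum_sub_distrib]
    rw [Finset.sum_congr rfl fun i _ => (two_mul (ENI_.S i f f)).symm, ← Finset.mul_sum,
      Finset.sum_const, Finset.card_univ, Fintype.card_fin, nsmul_eq_mul]
    field_simp
  · unfold P0
    rw [← Finset.sum_div, Finset.sum_comm]
    have h : ∀ i : Fin d, ∑ x : Tor d L, (f (x + ev i) + f (x - ev i)) = 2 * ∑ x, f x := by
      intro i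
      rw [Finset.sum_add_distrib, ENI_.shift, ENI_.shift_neg]
      ring
    rw [Finset.sum_congr rfl fun i _ => h i, Finset.sum_const, Finset.card_univ,
      Fintype.card_fin, nsmul_eq_mul]
    field_simp

end

end Pool.Agent.LBL
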