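import Pool.Agent.LBL.Targets2

set_option autoImplicit false

/-!
# LBL, target ESC: escape probability in dimension two

The function `u (a,b) = log (a^2 + b^2 - 1/2)`, `u (0,0) = - log 126`, is superharmonic on `ℤ^2` outside the origin
(exact identity for the product of the four neighbours), which gives an explicit barrier.
-/

open Finset
open scoped Classical

namespace Pool.Agent.LBL

noncomputable section

section ESC

/-- `4 s^4 - product = 4 (A^2 - B^2)^2`, in terms of logarithms -/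
theorem ESC_log (A B : ℝ) (h1 : 0 < (A + 1) ^ 2 + B ^ 2 - 1 / 2)
    (h2 : 0 < (A - 1) ^ 2 + B ^ 2 - 1 / 2) (h3 : 0 < A ^ 2 + (B + 1) ^ 2 - 1 / 2)
    (h4 : 0 < A ^ 2 + (B - 1) ^ 2 - 1 / 2) :
    Real.log ((A + 1) ^ 2 + B ^ 2 - 1 / 2) + Real.log ((A - 1) ^ 2 + B ^ 2 - 1 / 2) +
      Real.log (A ^ 2 + (B + 1) ^ 2 - 1 / 2) + Real.log (A ^ 2 + (B - 1) ^ 2 - 1 / 2) ≤
      4 * Real.log (A ^ 2 + B ^ 2 - 1 / 2) := by
  rw [← Real.log_mul h1.ne' h2.ne', ← Real.log_mul (mul_pos h1 h2).ne' h3.ne',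
    ← Real.log_mul (mul_pos (mul_pos h1 h2) h3).ne' h4.ne']
  have e : 4 * Real.log (A ^ 2 + B ^ 2 - 1 / 2) = Real.log ((A ^ 2 + B ^ 2 - 1 / 2) ^ 4) := by
    rw [Real.log_pow]; norm_num
  rw [e]
  apply Real.log_le_log (mul_pos (mul_pos (mul_pos h1 h2) h3) h4)
  have key : (A ^ 2 + B ^ 2 - 1 / 2) ^ 4 - ((A + 1) ^ 2 + B ^ 2 - 1 / 2) * ((A - 1) ^ 2 + B ^ 2 - 1 / 2) *
      (A ^ 2 + (B + 1) ^ 2 - 1 / 2) * (A ^ 2 + (B - 1) ^ 2 - 1 / 2) = 4 * (A ^ 2 - B ^ 2) ^ 2 := by
    ring
  have : 0 ≤ 4 * (A ^ 2 - B ^ 2) ^ 2 := by positivity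
  linarith

/-- the barrier -/
def ESC_u (a b : ℤ) : ℝ :=
  if a = 0 ∧ b = 0 then - Real.log 126 else Real.log ((a : ℝ) ^ 2 + (b : ℝ) ^ 2 - 1 / 2)

theorem ESC_pos {a b : ℤ} (h : ¬ (a = 0 ∧ b = 0)) : 0 < (a : ℝ) ^ 2 + (b : ℝ) ^ 2 - 1 / 2 := by
  have h1 : (1 : ℤ) ≤ a ^ 2 + b ^ 2 := by
    by_contra hcon
    push Not at hcon
    apply h
    constructor
    · nlinarith [sq_nonneg a, sq_nonneg b]
    · nlinarith [sq_nonneg a, sq_nonneg b]
  have h2 : (1 : ℝ) ≤ (a : ℝ) ^ 2 + (b : ℝ) ^ 2 := by exact_mod_cast h1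
  linarith

theorem ESC_edge : - Real.log 126 + Real.log (7 / 2) + Real.log (3 / 2) + Real.log (3 / 2) =
    4 * Real.log (1 / 2) := by
  have e1 : - Real.log 126 = Real.log (1 / 126) := by
    rw [one_div, Real.log_inv]
  rw [e1, ← Real.log_mul (by norm_num) (by norm_num), ← Real.log_mul (by norm_num) (by norm_num),
    ← Real.log_mul (by norm_num) (by norm_num)]
  have e2 : 4 * Real.log (1 / 2) = Real.log ((1 / 2) ^ 4) := by
    rw [Real.log_pow]; norm_num
  rw [e2]
  norm_num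

theorem ESC_super (a b : ℤ) (h : ¬ (a = 0 ∧ b = 0)) :
    ESC_u (a + 1) b + ESC_u (a - 1) b + ESC_u a (b + 1) + ESC_u a (b - 1) ≤ 4 * ESC_u a b := by
  by_cases c1 : a + 1 = 0 ∧ b = 0
  · obtain ⟨ha, hb⟩ := c1
    have ha' : a = -1 := by omega
    subst ha' hb
    have := ESC_edge
    unfold ESC_u
    norm_num
    norm_num at this
    linarith
  by_cases c2 : a - 1 = 0 ∧ b = 0
  · obtain ⟨ha, hb⟩ := c2
    have ha' : a = 1 := by omega
    subst ha' hb
    have := ESC_edge
    unfold ESC_u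
    norm_num
    norm_num at this
    linarith
  by_cases c3 : a = 0 ∧ b + 1 = 0
  · obtain ⟨ha, hb⟩ := c3
    have hb' : b = -1 := by omega
    subst ha hb'
    have := ESC_edge
    unfold ESC_u
    norm_num
    norm_num at this
    linarith
  by_cases c4 : a = 0 ∧ b - 1 = 0
  · obtain ⟨ha, hb⟩ := c4
    have hb' : b = 1 := by omega
    subst ha hb'
    have := ESC_edge
    unfold ESC_u
    norm_num
    norm_num at this
    linarith
  have p1 := ESC_pos c1
  have p2 := ESC_pos c2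
  have p3 := ESC_pos c3
  have p4 := ESC_pos c4
  unfold ESC_u
  rw [if_neg h, if_neg c1, if_neg c2, if_neg c3, if_neg c4]
  push_cast at p1 p2 p3 p4 ⊢
  exact ESC_log (a : ℝ) (b : ℝ) p1 p2 p3 p4

/-- minimum principle in a punctured box of `ℤ^2` -/
theorem ESC_min (D : ℤ) (g : ℤ → ℤ → ℝ) (hD : 0 ≤ D) (h0 : 0 ≤ g 0 0)
    (hb : ∀ a b : ℤ, |a| ≤ D + 1 → |b| ≤ D + 1 → (|a| = D + 1 ∨ |b| = D + 1) → 0 ≤ g a b)
    (hs : ∀ a b : ℤ, |a| ≤ D → |b| ≤ D → ¬ (a = 0 ∧ b = 0) →
      g (a + 1) b + g (a - 1) b + g a (b + 1) + g a (b - 1) ≤ 4 * g a b) :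
    ∀ a b : ℤ, |a| ≤ D + 1 → |b| ≤ D + 1 → 0 ≤ g a b := by
  set Q : Finset (ℤ × ℤ) := Finset.Icc (-(D + 1)) (D + 1) ×ˢ Finset.Icc (-(D + 1)) (D + 1) with hQ
  have memQ : ∀ a b : ℤ, (a, b) ∈ Q ↔ |a| ≤ D + 1 ∧ |b| ≤ D + 1 := by
    intro a b
    rw [hQ, Finset.mem_product, Finset.mem_Icc, Finset.mem_Icc, abs_le, abs_le]
  have hne : Q.Nonempty := ⟨(0, 0), by rw [memQ]; simp; omega⟩
  obtain ⟨q, hq, hmin⟩ := Finset.exists_min_image Q (fun z => g z.1 z.2) hne
  intro a b ha hb'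
  by_contra hneg
  push Not at hneg
  have hm : g q.1 q.2 < 0 := lt_of_le_of_lt (hmin (a, b) ((memQ a b).mpr ⟨ha, hb'⟩)) hneg
  -- walk to the right
  have walk : ∀ (n : ℕ) (x y : ℤ), (x, y) ∈ Q → g x y = g q.1 q.2 → D + 1 - x = n → False := by
    intro n
    induction n with
    | zero =>
      intro x y hxy hg hn
      obtain ⟨h1, h2⟩ := (memQ x y).mp hxy
      have hx : x = D + 1 := by push_cast at hn; omega
      have := hb x y h1 h2 (Or.inl (by rw [hx]; exact abs_of_nonneg (by omega)))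
      rw [hg] at this
      linarith
    | succ n ih =>
      intro x y hxy hg hn
      obtain ⟨h1, h2⟩ := (memQ x y).mp hxy
      have hx : x < D + 1 := by push_cast at hn; omega
      have n1 : |x| ≠ D + 1 := by
        intro hh
        have := hb x y h1 h2 (Or.inl hh)
        rw [hg] at this
        linarith
      have n2 : |y| ≠ D + 1 := by
        intro hh
        have := hb x y h1 h2 (Or.inr hh)
        rw [hg] at this
        linarith
      have n3 : ¬ (x = 0 ∧ y = 0) := by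
        rintro ⟨rfl, rfl⟩
        rw [hg] at h0
        linarith
      have k1 : |x| ≤ D := by omega
      have k2 : |y| ≤ D := by omega
      have hsup := hs x y k1 k2 n3
      rw [abs_le] at k1 k2
      have m1 : (x + 1, y) ∈ Q := by rw [memQ, abs_le, abs_le]; omega
      have m2 : (x - 1, y) ∈ Q := by rw [memQ, abs_le, abs_le]; omega
      have m3 : (x, y + 1) ∈ Q := by rw [memQ, abs_le, abs_le]; omega
      have m4 : (x, y - 1) ∈ Q := by rw [memQ, abs_le, abs_le]; omega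
      have g1 := hmin _ m1
      have g2 := hmin _ m2
      have g3 := hmin _ m3
      have g4 := hmin _ m4
      simp only at g1 g2 g3 g4
      apply ih (x + 1) y m1
      · linarith
      · push_cast at hn; omega
  obtain ⟨h1, h2⟩ := (memQ q.1 q.2).mp hq
  obtain ⟨n, hn⟩ := Int.eq_ofNat_of_zero_le (show 0 ≤ D + 1 - q.1 by rw [abs_le] at h1; omega)
  exact walk n q.1 q.2 hq rfl hn

/-- the estimate on `ℤ^2` -/
theorem ESC_main (D : ℕ) (hD : 2 ≤ D) (F : ℤ → ℤ → ℝ) (hF : ∀ a b, 0 ≤ F a b)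
    (hs : ∀ a b : ℤ, |a| ≤ D → |b| ≤ D →
      F (a + 1) b + F (a - 1) b + F a (b + 1) + F a (b - 1) ≤ 4 * F a b) :
    ∀ a b : ℤ, |a| + |b| = 1 → (1 - 3 / Real.log D) * F 0 0 ≤ F a b := by
  have hD' : (2 : ℝ) ≤ D := by exact_mod_cast hD
  have hlog : 0 < Real.log D := Real.log_pos (by linarith)
  have h126 : 0 < Real.log 126 := Real.log_pos (by norm_num)
  set M : ℝ := 2 * Real.log D + Real.log 126 with hM
  have hM0 : 0 < M := by positivity
  have hmin := ESC_min (D : ℤ) (fun a b => F a b - F 0 0 * (1 - (ESC_u a b + Real.log 126) / M))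
    (by positivity) ?_ ?_ ?_
  · intro a b hab
    have hne : ¬ (a = 0 ∧ b = 0) := by
      rintro ⟨rfl, rfl⟩
      simp at hab
    have hsq : a ^ 2 + b ^ 2 = 1 := by
      rw [← sq_abs a, ← sq_abs b]
      have ha := abs_nonneg a
      have hb := abs_nonneg b
      have hc : (|a| = 0 ∧ |b| = 1) ∨ (|a| = 1 ∧ |b| = 0) := by omega
      rcases hc with ⟨h1, h2⟩ | ⟨h1, h2⟩ <;> rw [h1, h2] <;> norm_num
    have hsq' : (a : ℝ) ^ 2 + (b : ℝ) ^ 2 = 1 := by exact_mod_cast hsq
    have ha := abs_nonneg a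
    have hb := abs_nonneg b
    have h1 := hmin a b (by omega) (by omega)
    have hu : ESC_u a b = Real.log (1 / 2) := by
      unfold ESC_u
      rw [if_neg hne, hsq']
      norm_num
    rw [hu] at h1
    have h63 : Real.log (1 / 2) + Real.log 126 = Real.log 63 := by
      rw [← Real.log_mul (by norm_num) (by norm_num)]
      norm_num
    rw [h63] at h1
    have h63' : Real.log 63 ≤ 6 := by
      have e : (63 : ℝ) ≤ Real.exp 6 := by
        have h2 : (2 : ℝ) ≤ Real.exp 1 := by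
          have := Real.add_one_le_exp (1 : ℝ)
          linarith
        calc (63 : ℝ) ≤ 2 ^ 6 := by norm_num
          _ ≤ (Real.exp 1) ^ 6 := pow_le_pow_left₀ (by norm_num) h2 6
          _ = Real.exp 6 := by rw [← Real.exp_nat_mul]; norm_num
      calc Real.log 63 ≤ Real.log (Real.exp 6) := Real.log_le_log (by norm_num) e
        _ = 6 := Real.log_exp 6
    have hfrac : Real.log 63 / M ≤ 3 / Real.log D := by
      rw [div_le_div_iff₀ hM0 hlog]
      have : Real.log 63 * Real.log D ≤ 6 * Real.log D := mul_le_mul_of_nonneg_right h63' hlog.le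
      rw [hM]
      nlinarith
    have h00 := hF 0 0
    have := mul_le_mul_of_nonneg_left hfrac h00
    have h1' : F 0 0 * (1 - Real.log 63 / M) ≤ F a b := by linarith
    calc (1 - 3 / Real.log D) * F 0 0 = F 0 0 - F 0 0 * (3 / Real.log D) := by ring
      _ ≤ F 0 0 - F 0 0 * (Real.log 63 / M) := by linarith
      _ = F 0 0 * (1 - Real.log 63 / M) := by ring
      _ ≤ F a b := h1'
  · have : ESC_u 0 0 = - Real.log 126 := by
      unfold ESC_u
      rw [if_pos ⟨rfl, rfl⟩]
    simp only [this]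
    have : (-Real.log 126 + Real.log 126) / M = 0 := by
      rw [neg_add_cancel, zero_div]
    rw [this]
    linarith
  · intro a b ha hb hab
    have hne : ¬ (a = 0 ∧ b = 0) := by
      rintro ⟨rfl, rfl⟩
      simp at hab
      omega
    have hu : 2 * Real.log D ≤ ESC_u a b := by
      unfold ESC_u
      rw [if_neg hne]
      have e : 2 * Real.log D = Real.log ((D : ℝ) ^ 2) := by
        rw [Real.log_pow]; norm_num
      rw [e]
      apply Real.log_le_log (by positivity)
      have h1 : ((D : ℤ) + 1) ^ 2 ≤ a ^ 2 + b ^ 2 := by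
        rcases hab with h | h
        · have : a ^ 2 = ((D : ℤ) + 1) ^ 2 := by rw [← sq_abs a, h]
          rw [this]
          nlinarith [sq_nonneg b]
        · have : b ^ 2 = ((D : ℤ) + 1) ^ 2 := by rw [← sq_abs b, h]
          rw [this]
          nlinarith [sq_nonneg a]
      have h2 : ((D : ℝ) + 1) ^ 2 ≤ (a : ℝ) ^ 2 + (b : ℝ) ^ 2 := by exact_mod_cast h1
      nlinarith
    have h1 : 1 ≤ (ESC_u a b + Real.log 126) / M := by
      rw [le_div_iff₀ hM0]
      rw [hM]
      linarith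
    have h2 := hF a b
    have h3 := hF 0 0
    have h4 : F 0 0 * (1 - (ESC_u a b + Real.log 126) / M) ≤ 0 :=
      mul_nonpos_of_nonneg_of_nonpos h3 (by linarith)
    linarith
  · intro a b ha hb hne
    have h1 := hs a b ha hb
    have h2 := ESC_super a b hne
    have h3 := hF 0 0
    have h4 : (ESC_u (a + 1) b + ESC_u (a - 1) b + ESC_u a (b + 1) + ESC_u a (b - 1)) / M ≤
        4 * ESC_u a b / M := div_le_div_of_nonneg_right h2 hM0.le
    have h5 := mul_le_mul_of_nonneg_left h4 h3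
    have e1 : F (a + 1) b - F 0 0 * (1 - (ESC_u (a + 1) b + Real.log 126) / M) +
        (F (a - 1) b - F 0 0 * (1 - (ESC_u (a - 1) b + Real.log 126) / M)) +
        (F a (b + 1) - F 0 0 * (1 - (ESC_u a (b + 1) + Real.log 126) / M)) +
        (F a (b - 1) - F 0 0 * (1 - (ESC_u a (b - 1) + Real.log 126) / M)) =
        (F (a + 1) b + F (a - 1) b + F a (b + 1) + F a (b - 1)) - 4 * F 0 0 +
        F 0 0 * ((ESC_u (a + 1) b + ESC_u (a - 1) b + ESC_u a (b + 1) + ESC_u a (b - 1)) / M) +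
        4 * F 0 0 * (Real.log 126 / M) := by
      ring
    have e2 : 4 * (F a b - F 0 0 * (1 - (ESC_u a b + Real.log 126) / M)) =
        4 * F a b - 4 * F 0 0 + F 0 0 * (4 * ESC_u a b / M) + 4 * F 0 0 * (Real.log 126 / M) := by
      ring
    rw [e1, e2]
    linarith

end ESC

theorem ESC_td {L : ℕ} [NeZero L] (a : ℤ) : ((a : ZMod L).valMinAbs.natAbs : ℤ) ≤ |a| := by
  have h := ZMod.natAbs_valMinAbs_le (a : ZMod L)
  by_cases hc : |a| * 2 < L
  · have hL : L ≠ 0 := NeZero.ne L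
    have : (a : ZMod L).valMinAbs = a := by
      rw [ZMod.valMinAbs_spec]
      refine ⟨rfl, ?_⟩
      rw [Set.mem_Ioc]
      have := abs_lt.mp (show |a * 2| < (L : ℤ) by rw [abs_mul]; simpa using hc)
      exact ⟨this.1, this.2.le⟩
    rw [this, Int.natCast_natAbs]
  · push Not at hc
    have h1 : ((a : ZMod L).valMinAbs.natAbs : ℤ) * 2 ≤ L := by
      have : (a : ZMod L).valMinAbs.natAbs * 2 ≤ L := by omega
      exact_mod_cast this
    omega

theorem p_ESC : T_ESC := by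
  refine ⟨3, by norm_num, ?_⟩
  intro L _ D φ v0 hD _ hφ hP
  set F : ℤ → ℤ → ℝ := fun a b => φ (fun k => v0 k + if k = 0 then (a : ZMod L) else (b : ZMod L)) with hF
  have shift0p : ∀ a b : ℤ, (fun k : Fin 2 => v0 k + if k = 0 then ((a : ℤ) : ZMod L) else ((b : ℤ) : ZMod L)) + ev 0 =
      (fun k : Fin 2 => v0 k + if k = 0 then ((a + 1 : ℤ) : ZMod L) else ((b : ℤ) : ZMod L)) := by
    intro a b
    funext k
    fin_cases k <;> simp [ev, add_assoc]
  have shift0m : ∀ a b : ℤ, (fun k : Fin 2 => v0 k + if k = 0 then ((a : ℤ) : ZMod L) else ((b : ℤ) : ZMod L)) - ev 0 =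
      (fun k : Fin 2 => v0 k + if k = 0 then ((a - 1 : ℤ) : ZMod L) else ((b : ℤ) : ZMod L)) := by
    intro a b
    funext k
    fin_cases k <;> simp [ev, add_sub_assoc]
  have shift1p : ∀ a b : ℤ, (fun k : Fin 2 => v0 k + if k = 0 then ((a : ℤ) : ZMod L) else ((b : ℤ) : ZMod L)) + ev 1 =
      (fun k : Fin 2 => v0 k + if k = 0 then ((a : ℤ) : ZMod L) else ((b + 1 : ℤ) : ZMod L)) := by
    intro a b
    funext k
    fin_cases k <;> simp [ev, add_assoc]
  have shift1m : ∀ a b : ℤ, (fun k : Fin 2 => v0 k + if k = 0 then ((a : ℤ) : ZMod L) else ((b : ℤ) : ZMod L)) - ev 1 =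
      (fun k : Fin 2 => v0 k + if k = 0 then ((a : ℤ) : ZMod L) else ((b - 1 : ℤ) : ZMod L)) := by
    intro a b
    funext k
    fin_cases k <;> simp [ev, add_sub_assoc]
  have hs : ∀ a b : ℤ, |a| ≤ D → |b| ≤ D →
      F (a + 1) b + F (a - 1) b + F a (b + 1) + F a (b - 1) ≤ 4 * F a b := by
    intro a b ha hb
    have h1 := hP (fun k : Fin 2 => v0 k + if k = 0 then ((a : ℤ) : ZMod L) else ((b : ℤ) : ZMod L)) ?_
    · unfold P0 at h1
      rw [Fin.sum_univ_two, shift0p, shift0m, shift1p, shift1m] at h1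
      rw [div_le_iff₀ (by norm_num)] at h1
      simp only [hF]
      push_cast at h1 ⊢
      linarith
    · unfold td
      apply Finset.sup_le
      intro i _
      have ha' := ESC_td (L := L) a
      have hb' := ESC_td (L := L) b
      fin_cases i
      · simp only [Fin.zero_eta, if_true, add_sub_cancel_left]
        omega
      · simp only [Fin.mk_one, one_ne_zero, if_false, add_sub_cancel_left]
        omega
  have hmain := ESC_main D hD F (fun a b => hφ _) hs
  have e00 : F 0 0 = φ v0 := by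
    simp only [hF]
    congr 1
    funext k
    fin_cases k <;> simp
  have e0 : (fun k : Fin 2 => v0 k + if k = 0 then ((0 : ℤ) : ZMod L) else ((0 : ℤ) : ZMod L)) = v0 := by
    funext k
    fin_cases k <;> simp
  have a1 := shift0p 0 0
  have a2 := shift0m 0 0
  have a3 := shift1p 0 0
  have a4 := shift1m 0 0
  rw [e0] at a1 a2 a3 a4
  intro i
  fin_cases i
  · have m1 := hmain (0 + 1) 0 (by norm_num)
    have m2 := hmain (0 - 1) 0 (by norm_num)
    simp only [hF] at m1 m2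
    rw [← a1, e0] at m1
    rw [← a2, e0] at m2
    exact ⟨m1, m2⟩
  · have m1 := hmain 0 (0 + 1) (by norm_num)
    have m2 := hmain 0 (0 - 1) (by norm_num)
    simp only [hF] at m1 m2
    rw [← a3, e0] at m1
    rw [← a4, e0] at m2
    exact ⟨m1, m2⟩

end

end Pool.Agent.LBL
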