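import Pool.Agent.LBL.Targets1

set_option autoImplicit false

/-!
# LBL: variational facts for `lam`
-/

open Finset
open scoped Classical

namespace Pool.Agent.LBL

noncomputable section

namespace VAR_

variable {d : ℕ} {R : Type} [CommRing R]

omit [CommRing R] in
lemma sum_fin (O : Finset (Fin d → R)) (h : (Fin d → R) → ℝ) (hh : ∀ x, x ∉ O → h x = 0) :
    ∑ x ∈ O, h x = ∑ᶠ x, h x := by
  refine (finsum_eq_sum_of_support_subset h ?_).symm
  intro x hx
  by_contra hc
  exact hx (hh x hc)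

lemma shift (O : Finset (Fin d → R)) (f g : (Fin d → R) → ℝ) (hf : Spp O f) (hg : Spp O g)
    (e : Fin d → R) : ∑ x ∈ O, f x * g (x + e) = ∑ x ∈ O, g x * f (x - e) := by
  rw [sum_fin O _ fun x hx => by rw [hf x hx, zero_mul],
    sum_fin O _ fun x hx => by rw [hg x hx, zero_mul]]
  rw [← finsum_comp_equiv (Equiv.addRight e) (f := fun x => g x * f (x - e))]
  apply finsum_congr
  intro x
  rw [Equiv.coe_addRight]
  change f x * g (x + e) = g (x + e) * f (x + e - e)
  rw [add_sub_cancel_right, mul_comm]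

lemma sq_shift (O : Finset (Fin d → R)) (f : (Fin d → R) → ℝ) (hf : Spp O f) (e : Fin d → R) :
    ∑ x ∈ O, f (x + e) ^ 2 ≤ ∑ x ∈ O, f x ^ 2 := by
  have h1 : ∑ x ∈ O, f (x + e) ^ 2 = ∑ y ∈ O.image (· + e), f y ^ 2 := by
    rw [Finset.sum_image fun x _ y _ h => add_right_cancel h]
  have h2 : ∑ y ∈ O.image (· + e), f y ^ 2 = ∑ y ∈ (O.image (· + e)).filter (· ∈ O), f y ^ 2 := by
    rw [Finset.sum_filter]
    apply Finset.sum_congr rfl
    intro y _
    split_ifs with h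
    · rfl
    · rw [hf y h]
      norm_num
  rw [h1, h2]
  apply Finset.sum_le_sum_of_subset_of_nonneg
  · intro y hy
    exact (Finset.mem_filter.1 hy).2
  · intro y _ _
    positivity

lemma form_eq (O : Finset (Fin d → R)) (f g : (Fin d → R) → ℝ) :
    ∑ x ∈ O, f x * P0 g x =
      (∑ i : Fin d, (∑ x ∈ O, f x * g (x + ev i) + ∑ x ∈ O, f x * g (x - ev i))) / (2 * d) := by
  unfold P0
  have : ∀ x ∈ O, f x * ((∑ i : Fin d, (g (x + ev i) + g (x - ev i))) / (2 * d)) =
      (∑ i : Fin d, (f x * g (x + ev i) + f x * g (x - ev i))) / (2 * d) := by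
    intro x _
    rw [mul_div_assoc', Finset.mul_sum]
    congr 1
    exact Finset.sum_congr rfl fun i _ => mul_add _ _ _
  rw [Finset.sum_congr rfl this, ← Finset.sum_div, Finset.sum_comm]
  congr 1
  exact Finset.sum_congr rfl fun i _ => Finset.sum_add_distrib

lemma symm (O : Finset (Fin d → R)) (f g : (Fin d → R) → ℝ) (hf : Spp O f) (hg : Spp O g) :
    ∑ x ∈ O, f x * P0 g x = ∑ x ∈ O, g x * P0 f x := by
  rw [form_eq, form_eq]
  congr 1
  apply Finset.sum_congr rfl
  intro i _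
  rw [shift O f g hf hg (ev i), add_comm]
  congr 1
  have := shift O g f hg hf (ev i)
  exact this.symm

lemma form_le (hd : 1 ≤ d) (O : Finset (Fin d → R)) (f : (Fin d → R) → ℝ) (hf : Spp O f) :
    ∑ x ∈ O, f x * P0 f x ≤ ∑ x ∈ O, f x ^ 2 := by
  have hd' : (0 : ℝ) < d := by exact_mod_cast hd
  rw [form_eq, div_le_iff₀ (by positivity)]
  have h1 : ∀ e : Fin d → R, ∑ x ∈ O, f x * f (x + e) ≤ ∑ x ∈ O, f x ^ 2 := by
    intro e
    have h2 : ∑ x ∈ O, f x * f (x + e) ≤ ∑ x ∈ O, (f x ^ 2 / 2 + f (x + e) ^ 2 / 2) := by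
      apply Finset.sum_le_sum
      intro x _
      nlinarith [sq_nonneg (f x - f (x + e))]
    rw [Finset.sum_add_distrib, ← Finset.sum_div, ← Finset.sum_div] at h2
    have h3 := sq_shift O f hf e
    linarith
  calc ∑ i : Fin d, (∑ x ∈ O, f x * f (x + ev i) + ∑ x ∈ O, f x * f (x - ev i))
      ≤ ∑ _i : Fin d, (∑ x ∈ O, f x ^ 2 + ∑ x ∈ O, f x ^ 2) := by
        apply Finset.sum_le_sum
        intro i _
        refine add_le_add (h1 _) ?_
        simpa only [sub_eq_add_neg] using h1 (-ev i)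
    _ = (∑ x ∈ O, f x ^ 2) * (2 * d) := by
        rw [Finset.sum_const, Finset.card_univ, Fintype.card_fin, nsmul_eq_mul]
        ring

lemma bdd (hd : 1 ≤ d) (O : Finset (Fin d → R)) :
    ∀ t ∈ {t : ℝ | ∃ f : (Fin d → R) → ℝ, Spp O f ∧ ∑ x ∈ O, f x ^ 2 = 1 ∧
      t = ∑ x ∈ O, f x * P0 f x}, t ≤ 1 := by
  rintro t ⟨f, hf, h1, rfl⟩
  rw [← h1]
  exact form_le hd O f hf

lemma le_lam (hd : 1 ≤ d) (O : Finset (Fin d → R)) (f : (Fin d → R) → ℝ) (hf : Spp O f)
    (h1 : ∑ x ∈ O, f x ^ 2 = 1) : ∑ x ∈ O, f x * P0 f x ≤ lam O :=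
  le_csSup ⟨1, fun t ht => bdd hd O t ht⟩ ⟨f, hf, h1, rfl⟩

lemma P0_smul (c : ℝ) (f : (Fin d → R) → ℝ) (x : Fin d → R) :
    P0 (fun y => c * f y) x = c * P0 f x := by
  unfold P0
  rw [mul_div_assoc', Finset.mul_sum]
  congr 1
  exact Finset.sum_congr rfl fun i _ => (mul_add _ _ _).symm

lemma gen (hd : 1 ≤ d) (O : Finset (Fin d → R)) (f : (Fin d → R) → ℝ) (hf : Spp O f) :
    ∑ x ∈ O, f x * P0 f x ≤ lam O * ∑ x ∈ O, f x ^ 2 := by
  have h0 : 0 ≤ ∑ x ∈ O, f x ^ 2 := Finset.sum_nonneg fun x _ => sq_nonneg _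
  rcases h0.eq_or_lt with h | h
  · have h2 : ∀ x ∈ O, f x = 0 := by
      intro x hx
      have := (Finset.sum_eq_zero_iff_of_nonneg fun x _ => sq_nonneg (f x)).1 h.symm x hx
      exact pow_eq_zero_iff (two_ne_zero) |>.1 this
    rw [← h, mul_zero]
    exact le_of_eq (Finset.sum_eq_zero fun x hx => by rw [h2 x hx, zero_mul])
  · set S := ∑ x ∈ O, f x ^ 2 with hS
    have hs : 0 < Real.sqrt S := Real.sqrt_pos.2 h
    have hss : Real.sqrt S ^ 2 = S := Real.sq_sqrt h0
    have key := le_lam hd O (fun x => (Real.sqrt S)⁻¹ * f x)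
      (fun x hx => by
        change (Real.sqrt S)⁻¹ * f x = 0
        rw [hf x hx, mul_zero]) (by
        rw [Finset.sum_congr rfl fun x _ => mul_pow (Real.sqrt S)⁻¹ (f x) 2, ← Finset.mul_sum,
          ← hS, inv_pow, hss, inv_mul_cancel₀ h.ne'])
    have h3 : ∑ x ∈ O, (Real.sqrt S)⁻¹ * f x * P0 (fun x => (Real.sqrt S)⁻¹ * f x) x =
        S⁻¹ * ∑ x ∈ O, f x * P0 f x := by
      rw [Finset.mul_sum]
      apply Finset.sum_congr rfl
      intro x _
      rw [P0_smul]
      have : S⁻¹ = (Real.sqrt S)⁻¹ * (Real.sqrt S)⁻¹ := by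
        rw [← mul_inv, ← pow_two, hss]
      rw [this]
      ring
    rw [h3, inv_mul_le_iff₀ h] at key
    linarith

lemma nonneg (hd : 1 ≤ d) (O : Finset (Fin d → R)) : 0 ≤ lam O := by
  rcases O.eq_empty_or_nonempty with h | ⟨x, hx⟩
  · have : {t : ℝ | ∃ f : (Fin d → R) → ℝ, Spp O f ∧ ∑ x ∈ O, f x ^ 2 = 1 ∧
        t = ∑ x ∈ O, f x * P0 f x} = ∅ := by
      rw [Set.eq_empty_iff_forall_notMem]
      rintro t ⟨f, -, h1, -⟩
      rw [h, Finset.sum_empty] at h1
      exact zero_ne_one h1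
    rw [lam, this, Real.sSup_empty]
  · have hd1 : ∀ y, y ∉ O → (if y = x then (1 : ℝ) else 0) = 0 := by
      intro y hy
      rw [if_neg]
      rintro rfl
      exact hy hx
    refine le_trans ?_ (le_lam hd O (fun y => if y = x then (1 : ℝ) else 0) hd1 ?_)
    · apply Finset.sum_nonneg
      intro y _
      apply mul_nonneg
      · split_ifs <;> norm_num
      · unfold P0
        apply div_nonneg
        · apply Finset.sum_nonneg
          intro i _
          apply add_nonneg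
          · change (0 : ℝ) ≤ if y + ev i = x then 1 else 0
            split_ifs <;> norm_num
          · change (0 : ℝ) ≤ if y - ev i = x then 1 else 0
            split_ifs <;> norm_num
        · positivity
    · have : ∀ y ∈ O, (if y = x then (1 : ℝ) else 0) ^ 2 = if y = x then 1 else 0 := by
        intro y _
        split_ifs <;> norm_num
      rw [Finset.sum_congr rfl this, Finset.sum_ite_eq' O x, if_pos hx]

end VAR_

open VAR_ in
theorem p_VAR : T_VAR := by
  intro d R _ hd O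
  refine ⟨gen hd O, nonneg hd O, Real.sSup_le (bdd hd O) zero_le_one, ?_, symm O⟩
  intro O' hO
  refine Real.sSup_le ?_ (nonneg hd O')
  rintro t ⟨f, hf, h1, rfl⟩
  have hf' : Spp O' f := fun x hx => hf x fun h => hx (hO h)
  have e1 : ∑ x ∈ O', f x ^ 2 = ∑ x ∈ O, f x ^ 2 := by
    refine (Finset.sum_subset hO fun x _ hx => ?_).symm
    rw [hf x hx]
    norm_num
  have e2 : ∑ x ∈ O', f x * P0 f x = ∑ x ∈ O, f x * P0 f x := by
    refine (Finset.sum_subset hO fun x _ hx => ?_).symm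
    rw [hf x hx, zero_mul]
  rw [← e2]
  exact le_lam hd O' f hf' (by rw [e1, h1])

end

end Pool.Agent.LBL
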