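import Pool.Agent.LBL.Targets3
import Pool.Agent.LBL.P_VAR

set_option autoImplicit false

/-!
# LBL: T_EXQ, exponential moment of the excess of the top eigenvalue, from T_R1F
-/

open Finset
open scoped Classical

namespace Pool.Agent.LBL

noncomputable section

namespace EXQ_

lemma wt_nonneg {X : Type} [Fintype X] (p : ℝ) (h0 : 0 < p) (h1 : p < 1) (O : Finset X) :
    0 ≤ wt p O := by
  unfold wt
  have : 0 ≤ 1 - p := by linarith
  positivity

lemma TT_nonneg (d L : ℕ) [NeZero L] (p : ℝ) (h0 : 0 < p) (h1 : p < 1) (x : ℝ) :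
    0 ≤ TT d L p x := by
  unfold TT pr
  apply Finset.sum_nonneg
  intro O _
  split_ifs
  · exact wt_nonneg p h0 h1 O
  · exact le_rfl

/-- pointwise bound -/
lemma pt {b w : ℝ} (hb : 0 < b) (hb1 : b ≤ 1) (hw : 0 ≤ w) {k : ℕ} (hk : w ≤ k + 1) :
    (1 + w) * Real.exp (b * w) ≤ 1 / b * Real.exp (2 * b * (k + 1)) := by
  have h1 : 1 + w ≤ 1 / b * Real.exp (b * w) := by
    have e1 : b * w + 1 ≤ Real.exp (b * w) := Real.add_one_le_exp _
    have e2 : 1 + w ≤ 1 / b * (b * w + 1) := by
      have : 1 / b * (b * w + 1) = w + 1 / b := by field_simp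
      rw [this]
      have : 1 ≤ 1 / b := by rw [le_div_iff₀ hb]; linarith
      linarith
    exact e2.trans (mul_le_mul_of_nonneg_left e1 (by positivity))
  calc (1 + w) * Real.exp (b * w) ≤ (1 / b * Real.exp (b * w)) * Real.exp (b * w) :=
        mul_le_mul_of_nonneg_right h1 (Real.exp_nonneg _)
    _ = 1 / b * Real.exp (2 * b * w) := by
        rw [mul_assoc, ← Real.exp_add]
        congr 2
        ring
    _ ≤ 1 / b * Real.exp (2 * b * (k + 1)) := by
        apply mul_le_mul_of_nonneg_left _ (by positivity)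
        apply Real.exp_le_exp.2
        have : 0 ≤ 2 * b := by linarith
        exact mul_le_mul_of_nonneg_left hk this

/-- geometric sum -/
lemma geo {c : ℝ} (hc : 0 < c) (K : ℕ) :
    ∑ k ∈ Finset.range K, Real.exp (-c * k) ≤ 1 / (1 - Real.exp (-c)) := by
  have h0 : 0 ≤ Real.exp (-c) := Real.exp_nonneg _
  have h1 : Real.exp (-c) < 1 := by
    rw [Real.exp_lt_one_iff]; linarith
  have e : ∀ k ∈ Finset.range K, Real.exp (-c * k) = Real.exp (-c) ^ k := by
    intro k _
    rw [← Real.exp_nat_mul]
    congr 1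
    ring
  rw [Finset.sum_congr rfl e, geom_sum_eq (ne_of_lt h1)]
  rw [← neg_sub (1 : ℝ) (Real.exp (-c) ^ K), ← neg_sub (1 : ℝ) (Real.exp (-c)), neg_div_neg_eq]
  apply div_le_div_of_nonneg_right _ (by linarith)
  have : 0 ≤ Real.exp (-c) ^ K := pow_nonneg h0 K
  linarith

end EXQ_

open EXQ_

theorem p_EXQ (h_R1F : T_R1F) : T_EXQ := by
  intro d K0 p a A hd hK0 hp0 hp1 ha haA
  obtain ⟨C, c, r0, hC, hc, hr0, H⟩ := h_R1F d K0 p a A hd hK0 hp0 hp1 ha haA
  set b : ℝ := min (c / 4) 1 with hbdef
  have hb : 0 < b := lt_min (by linarith) one_pos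
  have hb1 : b ≤ 1 := min_le_right _ _
  have hbc : b ≤ c / 4 := min_le_left _ _
  have hc2 : 0 < c / 2 := by linarith
  have hexp1 : Real.exp (-(c / 2)) < 1 := by
    rw [Real.exp_lt_one_iff]; linarith
  refine ⟨b, 1 / b * Real.exp (2 * b) * C * (1 / (1 - Real.exp (-(c / 2)))), r0, hb, ?_, hr0, ?_⟩
  · have : 0 < 1 - Real.exp (-(c / 2)) := by linarith
    positivity
  intro r x L _ hr hRg hW
  have hrpos : 0 < r := by linarith
  have hss : 0 < ss d r := by unfold ss; positivity
  set K : ℕ := ⌊(1 - x) / ss d r⌋₊ + 1 with hKdef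
  have hTx : 0 ≤ TT d L p x := TT_nonneg d L p hp0 hp1 x
  set g : ℕ → ℝ := fun k => 1 / b * Real.exp (2 * b * (k + 1)) with hg
  have hgn : ∀ k, 0 ≤ g k := fun k => by simp only [hg]; positivity
  have key : ∀ O : Finset (Tor d L),
      (if x ≤ lam O then
        (1 + (lam O - x) / ss d r) * Real.exp (b * ((lam O - x) / ss d r)) else 0) ≤
      ∑ k ∈ Finset.range K, (if x + k * ss d r ≤ lam O then g k else 0) := by
    intro O
    by_cases hO : x ≤ lam O
    · rw [if_pos hO]
      set w : ℝ := (lam O - x) / ss d r with hw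
      have hw0 : 0 ≤ w := div_nonneg (by linarith) hss.le
      have hlam : lam O ≤ 1 := (p_VAR d (ZMod L) (by omega) O).2.2.1
      have hwK : w ≤ (1 - x) / ss d r := div_le_div_of_nonneg_right (by linarith) hss.le
      have hkK : ⌊w⌋₊ < K := by
        rw [hKdef]
        exact Nat.lt_succ_of_le (Nat.floor_le_floor hwK)
      have hfl : (⌊w⌋₊ : ℝ) ≤ w := Nat.floor_le hw0
      have hfl2 : w ≤ (⌊w⌋₊ : ℝ) + 1 := (Nat.lt_floor_add_one w).le
      have hmem : x + (⌊w⌋₊ : ℝ) * ss d r ≤ lam O := by
        have : (⌊w⌋₊ : ℝ) * ss d r ≤ w * ss d r := mul_le_mul_of_nonneg_right hfl hss.le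
        have e : w * ss d r = lam O - x := by rw [hw]; field_simp
        linarith
      calc (1 + w) * Real.exp (b * w) ≤ g ⌊w⌋₊ := pt hb hb1 hw0 hfl2
        _ = (if x + (⌊w⌋₊ : ℝ) * ss d r ≤ lam O then g ⌊w⌋₊ else 0) := by rw [if_pos hmem]
        _ ≤ ∑ k ∈ Finset.range K, (if x + k * ss d r ≤ lam O then g k else 0) := by
            apply Finset.single_le_sum
              (f := fun k : ℕ => if x + (k : ℝ) * ss d r ≤ lam O then g k else 0)
            · intro k _
              split_ifs
              · exact hgn k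
              · exact le_rfl
            · exact Finset.mem_range.2 hkK
    · rw [if_neg hO]
      apply Finset.sum_nonneg
      intro k _
      split_ifs
      · exact hgn k
      · exact le_rfl
  calc ∑ O : Finset (Tor d L), wt p O * (if x ≤ lam O then
        (1 + (lam O - x) / ss d r) * Real.exp (b * ((lam O - x) / ss d r)) else 0)
      ≤ ∑ O : Finset (Tor d L), wt p O *
          ∑ k ∈ Finset.range K, (if x + k * ss d r ≤ lam O then g k else 0) := by
        apply Finset.sum_le_sum
        intro O _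
        exact mul_le_mul_of_nonneg_left (key O) (wt_nonneg p hp0 hp1 O)
    _ = ∑ k ∈ Finset.range K, g k * TT d L p (x + k * ss d r) := by
        simp_rw [Finset.mul_sum]
        rw [Finset.sum_comm]
        refine Finset.sum_congr rfl fun k _ => ?_
        unfold TT pr
        rw [Finset.mul_sum]
        refine Finset.sum_congr rfl fun O _ => ?_
        split_ifs <;> ring
    _ ≤ ∑ k ∈ Finset.range K, (1 / b * Real.exp (2 * b) * C * TT d L p x) *
          Real.exp (-(c / 2) * k) := by
        apply Finset.sum_le_sum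
        intro k _
        have h1 := H r x k L hr hRg hW (Nat.cast_nonneg k)
        have h2 : g k * TT d L p (x + k * ss d r) ≤
            g k * (C * Real.exp (-c * k) * TT d L p x) := mul_le_mul_of_nonneg_left h1 (hgn k)
        refine h2.trans ?_
        have h3 : Real.exp (2 * b * (k + 1)) * Real.exp (-c * k) ≤
            Real.exp (2 * b) * Real.exp (-(c / 2) * k) := by
          rw [← Real.exp_add, ← Real.exp_add]
          apply Real.exp_le_exp.2
          have hk0 : (0 : ℝ) ≤ k := Nat.cast_nonneg k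
          nlinarith
        have h4 : 0 ≤ 1 / b * C * TT d L p x := by positivity
        calc g k * (C * Real.exp (-c * k) * TT d L p x)
            = (1 / b * C * TT d L p x) * (Real.exp (2 * b * (k + 1)) * Real.exp (-c * k)) := by
              simp only [hg]; ring
          _ ≤ (1 / b * C * TT d L p x) * (Real.exp (2 * b) * Real.exp (-(c / 2) * k)) :=
              mul_le_mul_of_nonneg_left h3 h4
          _ = _ := by ring
    _ = (1 / b * Real.exp (2 * b) * C * TT d L p x) *
          ∑ k ∈ Finset.range K, Real.exp (-(c / 2) * k) := by rw [Finset.mul_sum]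
    _ ≤ (1 / b * Real.exp (2 * b) * C * TT d L p x) * (1 / (1 - Real.exp (-(c / 2)))) := by
        apply mul_le_mul_of_nonneg_left (geo hc2 K)
        positivity
    _ = 1 / b * Real.exp (2 * b) * C * (1 / (1 - Real.exp (-(c / 2)))) * TT d L p x := by ring

end

end Pool.Agent.LBL
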