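import Pool.Agent.LBL.Targets2
import Pool.Agent.LBL.P_ENI

/-!
# LBL: target RVB (bounds for the resolvent)
-/

set_option autoImplicit false

open Finset
open scoped Classical

namespace Pool.Agent.LBL

noncomputable section

namespace RVB_

variable {d L : ℕ} [NeZero L]

theorem ip_O (O : Finset (Tor d L)) (f g : Tor d L → ℝ) (hg : Spp O g) :
    ip f g = ∑ x ∈ O, f x * g x := by
  unfold ip
  exact (Finset.sum_subset (Finset.subset_univ O) fun x _ hx => by rw [hg x hx, mul_zero]).symm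

theorem ip_comm (f g : Tor d L → ℝ) : ip f g = ip g f :=
  Finset.sum_congr rfl fun _ _ => mul_comm _ _

theorem ip_add_smul (f g h : Tor d L → ℝ) (t : ℝ) :
    ip f (fun x => g x + t * h x) = ip f g + t * ip f h := by
  unfold ip
  rw [Finset.mul_sum, ← Finset.sum_add_distrib]
  exact Finset.sum_congr rfl fun x _ => by ring

/-- pairing of the resolvent with a function of `H` -/
theorem pair (O : Finset (Tor d L)) (φo : Tor d L → ℝ) (l : ℝ)
    (v : Tor d L → Tor d L → ℝ) (hR : Rsv O φo l v) (f : Tor d L → ℝ)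
    (hs : Spp O f) (ho : ip f φo = 0) (z : Tor d L) :
    l * ip (v z) f - ip (P0 (v z)) f = f z := by
  by_cases hz : z ∈ O
  · rw [ip_O O _ _ hs, ip_O O _ _ hs, Finset.mul_sum, ← Finset.sum_sub_distrib]
    have h1 : ∑ x ∈ O, (l * (v z x * f x) - P0 (v z) x * f x) =
        ∑ x ∈ O, ((if x = z then f x else 0) - φo z * (φo x * f x)) := by
      refine Finset.sum_congr rfl fun x hx => ?_
      have h := hR.eq z hz x hx
      have h2 : l * (v z x * f x) - P0 (v z) x * f x = (l * v z x - P0 (v z) x) * f x := by ring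
      rw [h2, h]
      split_ifs <;> ring
    rw [h1, Finset.sum_sub_distrib, ← Finset.mul_sum, Finset.sum_ite_eq' O z f, if_pos hz,
      ← ip_O O _ _ hs, ip_comm φo f, ho]
    ring
  · have h0 : ∀ x, v z x = 0 := by
      intro x
      rw [hR.sym]
      exact hR.sp x z hz
    have h1 : v z = fun _ => 0 := funext h0
    rw [hs z hz, h1]
    unfold ip P0
    simp

/-- positivity of the form on `H` -/
theorem pos (O : Finset (Tor d L)) (φo : Tor d L → ℝ) (y l : ℝ) (hT : Top O φo) (hS : Sec O y)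
    (f : Tor d L → ℝ) (hs : Spp O f) (ho : ip f φo = 0) :
    (l - y) * ip f f ≤ l * ip f f - ip f (P0 f) := by
  have h1 : ∑ x ∈ O, f x * φo x = 0 := by
    rw [← ip_O O _ _ hT.sp]
    exact ho
  have h := hS φo hT f hs h1
  have h2 : ip f f = ∑ x ∈ O, f x ^ 2 := by
    rw [ip_O O _ _ hs]
    exact Finset.sum_congr rfl fun x _ => by ring
  have h3 : ip f (P0 f) = ∑ x ∈ O, f x * P0 f x := by
    rw [ip_comm, ip_O O _ _ hs]
    exact Finset.sum_congr rfl fun x _ => by ring
  rw [h2, h3]
  linarith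

omit [NeZero L] in
theorem P0_add_smul (f g : Tor d L → ℝ) (t : ℝ) :
    P0 (fun x => f x + t * g x) = fun x => P0 f x + t * P0 g x := by
  funext x
  unfold P0
  rw [← mul_div_assoc, ← add_div, Finset.mul_sum, ← Finset.sum_add_distrib]
  congr 1
  exact Finset.sum_congr rfl fun i _ => by ring

/-- expansion of the form -/
theorem form_add (hd : 1 ≤ d) (l : ℝ) (f g : Tor d L → ℝ) (t : ℝ) :
    l * ip (fun x => f x + t * g x) (fun x => f x + t * g x) -
      ip (fun x => f x + t * g x) (P0 (fun x => f x + t * g x)) =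
    (l * ip f f - ip f (P0 f)) + 2 * t * (l * ip f g - ip (P0 f) g) +
      t ^ 2 * (l * ip g g - ip g (P0 g)) := by
  have hs := (p_ENI d L hd g f).1
  rw [P0_add_smul, ip_add_smul, ip_add_smul, ip_comm (fun x => f x + t * g x) f,
    ip_comm (fun x => f x + t * g x) g, ip_comm (fun x => f x + t * g x) (P0 f),
    ip_comm (fun x => f x + t * g x) (P0 g), ip_add_smul, ip_add_smul, ip_add_smul,
    ip_add_smul, ip_comm g f, ip_comm (P0 f) f, ip_comm (P0 g) f, ip_comm (P0 g) g]
  have h3 : ip f (P0 g) = ip (P0 f) g := (p_ENI d L hd f g).1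
  rw [h3]
  ring

end RVB_

theorem p_RVB : T_RVB := by
  intro d L _ hd O φo y l v hT hS hyl hR
  have hform : ∀ z w, l * ip (v z) (v w) - ip (P0 (v z)) (v w) = v w z := fun z w =>
    RVB_.pair O φo l v hR (v w) (hR.sp w) (hR.orth w) z
  have hsym : ∀ z, ip (v z) (P0 (v z)) = ip (P0 (v z)) (v z) := fun z => RVB_.ip_comm _ _
  have hF : ∀ z, l * ip (v z) (v z) - ip (v z) (P0 (v z)) = v z z := by
    intro z
    rw [hsym]
    exact hform z z
  have hP : ∀ z, (l - y) * ip (v z) (v z) ≤ v z z := by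
    intro z
    rw [← hF z]
    exact RVB_.pos O φo y l hT hS (v z) (hR.sp z) (hR.orth z)
  have hip : ∀ f : Tor d L → ℝ, 0 ≤ ip f f := fun f =>
    Finset.sum_nonneg fun x _ => mul_self_nonneg _
  have hly : 0 < l - y := by linarith
  have h0 : ∀ z, 0 ≤ v z z := fun z => (mul_nonneg hly.le (hip _)).trans (hP z)
  -- the form is nonnegative on combinations
  have hcomb : ∀ (f g : Tor d L → ℝ) (t : ℝ), Spp O f → Spp O g → ip f φo = 0 → ip g φo = 0 →
      0 ≤ (l * ip f f - ip f (P0 f)) + 2 * t * (l * ip f g - ip (P0 f) g) +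
        t ^ 2 * (l * ip g g - ip g (P0 g)) := by
    intro f g t hf hg hfo hgo
    rw [← RVB_.form_add hd]
    refine (mul_nonneg hly.le (hip _)).trans (RVB_.pos O φo y l hT hS _ ?_ ?_)
    · intro x hx
      simp only [hf x hx, hg x hx]
      ring
    · rw [RVB_.ip_comm, RVB_.ip_add_smul, RVB_.ip_comm, hfo, RVB_.ip_comm, hgo]
      ring
  refine ⟨h0, ?_, hP, hF, ?_⟩
  · intro z w
    have h1 : ∀ t : ℝ, 0 ≤ v w w * (t * t) + (2 * v z w) * t + v z z := by
      intro t
      have h := hcomb (v z) (v w) t (hR.sp z) (hR.sp w) (hR.orth z) (hR.orth w)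
      rw [hF, hF, hform, hR.sym w z] at h
      nlinarith [h]
    have h2 := discrim_le_zero h1
    unfold discrim at h2
    nlinarith [h2]
  · intro l' v' hll hR' z
    have h := hcomb (v z) (v' z) (-1) (hR.sp z) (hR'.sp z) (hR.orth z) (hR'.orth z)
    have h1 : l * ip (v z) (v' z) - ip (P0 (v z)) (v' z) = v' z z :=
      RVB_.pair O φo l v hR (v' z) (hR'.sp z) (hR'.orth z) z
    have h2 : l' * ip (v' z) (v' z) - ip (P0 (v' z)) (v' z) = v' z z :=
      RVB_.pair O φo l' v' hR' (v' z) (hR'.sp z) (hR'.orth z) z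
    rw [hF, h1, RVB_.ip_comm (v' z) (P0 (v' z))] at h
    have h3 : l * ip (v' z) (v' z) ≤ l' * ip (v' z) (v' z) :=
      mul_le_mul_of_nonneg_right hll (hip _)
    nlinarith [h, h2, h3]

end

end Pool.Agent.LBL
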