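import Pool.Agent.LBL.Targets3
import Pool.Agent.LBL.P_VAR
import Pool.Agent.LBL.P_RVB

/-!
# LBL: target EXT (test function for the exchange)

`ψ = φo - (φo z / v z z) v z` vanishes at `z`; its form is `lam O + β^2 (l |v z|^2 - v z z)`, its squared norm
`1 + β^2 |v z|^2`, with `β = φo z / v z z` and `β^2 |v z|^2 <= 1`.
-/

set_option autoImplicit false

open Finset
open scoped Classical

namespace Pool.Agent.LBL

noncomputable section

namespace EXT_

/-- the final computation -/
theorem arith {l L' N P g A lo : ℝ} (hg : 0 < g) (hN0 : 0 ≤ N) (hN : (P / g) ^ 2 * N ≤ 1)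
    (hgap : P ^ 2 / g ≤ lo - l) (hA : A = 1 + (P / g) ^ 2 * N)
    (hform : l * A - ((l - lo) + (P / g) ^ 2 * g) ≤ L' * A) :
    l + (lo - l - P ^ 2 / g) / 2 ≤ L' := by
  have h1 : (P / g) ^ 2 * g = P ^ 2 / g := by
    field_simp
  rw [h1] at hform
  have hA1 : 1 ≤ A := by
    rw [hA]
    have : 0 ≤ (P / g) ^ 2 * N := by positivity
    linarith
  have hA2 : A ≤ 2 := by
    rw [hA]
    linarith
  set q := lo - l - P ^ 2 / g with hq
  have hq0 : 0 ≤ q := by linarith
  by_contra hcon
  push Not at hcon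
  have h2 : L' * A < (l + q / 2) * A := mul_lt_mul_of_pos_right hcon (by linarith)
  have h3 : q / 2 * A ≤ q / 2 * 2 := mul_le_mul_of_nonneg_left hA2 (by linarith)
  have h4 : (l + q / 2) * A = l * A + q / 2 * A := by ring
  linarith

end EXT_

theorem p_EXT : T_EXT := by
  intro d L _ hd hL O φo y1 l v z hT hS hyl hR hz hg hle hgap
  set g := v z z with hgdef
  set P := φo z with hPdef
  have hly : 0 < l - y1 := by linarith
  -- the test function
  have hψz : φo z + (-(P / g)) * v z z = 0 := by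
    rw [← hgdef, ← hPdef]
    field_simp
    ring
  have hψ : Spp (O.erase z) (fun x => φo x + (-(P / g)) * v z x) := by
    intro x hx
    by_cases hxz : x = z
    · subst hxz
      exact hψz
    · have hxO : x ∉ O := fun h => hx (Finset.mem_erase.2 ⟨hxz, h⟩)
      simp only [hT.sp x hxO, hR.sp z x hxO]
      ring
  have hnorm1 : ip φo φo = 1 := by
    rw [RVB_.ip_O O _ _ hT.sp, ← hT.nm]
    exact Finset.sum_congr rfl fun x _ => by ring
  have hform1 : ip φo (P0 φo) = lam O := by
    rw [RVB_.ip_comm, RVB_.ip_O O _ _ hT.sp]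
    have h1 : ∑ x ∈ O, P0 φo x * φo x = ∑ x ∈ O, lam O * φo x ^ 2 := by
      refine Finset.sum_congr rfl fun x hx => ?_
      rw [hT.eq x hx]
      ring
    rw [h1, ← Finset.mul_sum, hT.nm, mul_one]
  have horth : ip φo (v z) = 0 := by
    rw [RVB_.ip_comm]
    exact hR.orth z
  have hcross : ip (P0 φo) (v z) = 0 := by
    rw [RVB_.ip_O O _ _ (hR.sp z)]
    have h1 : ∑ x ∈ O, P0 φo x * v z x = ∑ x ∈ O, lam O * (φo x * v z x) := by
      refine Finset.sum_congr rfl fun x hx => ?_
      rw [hT.eq x hx]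
      ring
    rw [h1, ← Finset.mul_sum, ← RVB_.ip_O O _ _ (hR.sp z), horth, mul_zero]
  obtain ⟨-, -, hN, hF, -⟩ := p_RVB d L hd O φo y1 l v hT hS hyl hR
  have hN0 : 0 ≤ ip (v z) (v z) := Finset.sum_nonneg fun x _ => mul_self_nonneg _
  have hNz := hN z
  rw [← hgdef] at hNz
  have hFz := hF z
  rw [← hgdef] at hFz
  have hform := RVB_.form_add hd l φo (v z) (-(P / g))
  rw [hnorm1, hform1, horth, hcross, hFz] at hform
  have hnorm : ip (fun x => φo x + (-(P / g)) * v z x) (fun x => φo x + (-(P / g)) * v z x) =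
      1 + (P / g) ^ 2 * ip (v z) (v z) := by
    rw [RVB_.ip_add_smul, RVB_.ip_comm _ φo, RVB_.ip_comm _ (v z), RVB_.ip_add_smul,
      RVB_.ip_add_smul, hnorm1, horth, hR.orth z]
    ring
  have hvar := (p_VAR d (ZMod L) hd (O.erase z)).1 _ hψ
  have e1 : ∑ x ∈ O.erase z, (φo x + (-(P / g)) * v z x) *
      P0 (fun x => φo x + (-(P / g)) * v z x) x =
      ip (fun x => φo x + (-(P / g)) * v z x) (P0 (fun x => φo x + (-(P / g)) * v z x)) := by
    rw [RVB_.ip_comm, RVB_.ip_O (O.erase z) _ _ hψ]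
    exact Finset.sum_congr rfl fun x _ => mul_comm _ _
  have e2 : ∑ x ∈ O.erase z, (φo x + (-(P / g)) * v z x) ^ 2 =
      ip (fun x => φo x + (-(P / g)) * v z x) (fun x => φo x + (-(P / g)) * v z x) := by
    rw [RVB_.ip_O (O.erase z) _ _ hψ]
    exact Finset.sum_congr rfl fun x _ => by ring
  rw [e1, e2] at hvar
  refine EXT_.arith (N := ip (v z) (v z)) hg hN0 ?_ hgap hnorm ?_
  · have h1 : (P / g) ^ 2 * ip (v z) (v z) * (g * (l - y1)) ≤ 1 * (g * (l - y1)) := by
      have h2 : (P / g) ^ 2 * ip (v z) (v z) * (g * (l - y1)) =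
          P ^ 2 * (((l - y1) * ip (v z) (v z)) / g) := by
        field_simp
      have h3 : ((l - y1) * ip (v z) (v z)) / g ≤ 1 := by
        rw [div_le_one hg]
        exact hNz
      rw [h2, one_mul]
      calc P ^ 2 * (((l - y1) * ip (v z) (v z)) / g) ≤ P ^ 2 * 1 :=
            mul_le_mul_of_nonneg_left h3 (sq_nonneg _)
        _ ≤ g * (l - y1) := by rw [mul_one]; exact hle
    exact le_of_mul_le_mul_right h1 (mul_pos hg hly)
  · refine le_trans (le_of_eq ?_) hvar
    linarith [hform]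

end

end Pool.Agent.LBL
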