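import Pool.Agent.LBL.Targets3

set_option autoImplicit false

/-!
# LBL-FID: force identity
-/

open Finset
open scoped Classical

namespace Pool.Agent.LBL

noncomputable section

namespace FID_

variable {d L : ℕ} [NeZero L]

/-- the layer `x i = h` -/
abbrev Ly (i : Fin d) (h : ZMod L) : Finset (Tor d L) :=
  Finset.univ.filter fun x : Tor d L => x i = h

theorem sh (i : Fin d) (h : ZMod L) (v : Tor d L) (f : Tor d L → ℝ) :
    ∑ x ∈ Ly i h, f (x + v) = ∑ x ∈ Ly i (h + v i), f x := by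
  rw [Finset.sum_filter, Finset.sum_filter,
    ← Equiv.sum_comp (Equiv.addRight v) (fun x => if x i = h + v i then f x else 0)]
  refine Finset.sum_congr rfl fun x _ => ?_
  simp only [Equiv.coe_addRight, Pi.add_apply, add_left_inj]

omit [NeZero L] in
theorem ev_self (i : Fin d) : (ev i : Tor d L) i = 1 := by
  simp [ev]

omit [NeZero L] in
theorem ev_ne {i k : Fin d} (h : k ≠ i) : (ev k : Tor d L) i = 0 := by
  simp [ev, h.symm]

theorem sh_i (i : Fin d) (h : ZMod L) (f : Tor d L → ℝ) :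
    ∑ x ∈ Ly i (h + 1), f x = ∑ x ∈ Ly i h, f (x + ev i) := by
  rw [sh, ev_self]

theorem sh_k {i k : Fin d} (hk : k ≠ i) (h : ZMod L) (f : Tor d L → ℝ) :
    ∑ x ∈ Ly i h, f (x + ev k) = ∑ x ∈ Ly i h, f x := by
  rw [sh, ev_ne hk, add_zero]

theorem sh_nk {i k : Fin d} (hk : k ≠ i) (h : ZMod L) (f : Tor d L → ℝ) :
    ∑ x ∈ Ly i h, f (x - ev k) = ∑ x ∈ Ly i h, f x := by
  have h1 := sh i h (-ev k) f
  rw [Pi.neg_apply, ev_ne hk, neg_zero, add_zero] at h1
  rw [← h1]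
  simp only [sub_eq_add_neg]

theorem sum_Ly (i : Fin d) (f : Tor d L → ℝ) : ∑ h : ZMod L, ∑ x ∈ Ly i h, f x = ∑ x, f x := by
  rw [Finset.sum_fiberwise]

/-- the sum over the neighbours in the directions different from `i` -/
def A (i : Fin d) (g : Tor d L → ℝ) (x : Tor d L) : ℝ :=
  ∑ k ∈ Finset.univ.erase i, (g (x + ev k) + g (x - ev k))

omit [NeZero L] in
theorem P0_split (hd : 1 ≤ d) (i : Fin d) (g : Tor d L → ℝ) (x : Tor d L) :
    2 * d * P0 g x = g (x + ev i) + g (x - ev i) + A i g x := by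
  have hd0 : (d : ℝ) ≠ 0 := by
    have : d ≠ 0 := by omega
    exact_mod_cast this
  unfold P0 A
  rw [mul_div_cancel₀ _ (by positivity)]
  exact (Finset.add_sum_erase Finset.univ (fun k => g (x + ev k) + g (x - ev k))
    (Finset.mem_univ i)).symm

theorem sum_mul_A (i : Fin d) (h : ZMod L) (f g : Tor d L → ℝ) :
    ∑ x ∈ Ly i h, f x * A i g x = ∑ k ∈ Finset.univ.erase i,
      (∑ x ∈ Ly i h, f x * g (x + ev k) + ∑ x ∈ Ly i h, f x * g (x - ev k)) := by
  unfold A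
  simp only [Finset.mul_sum, mul_add]
  rw [Finset.sum_comm]
  exact Finset.sum_congr rfl fun k _ => Finset.sum_add_distrib

theorem A_symm (i : Fin d) (h : ZMod L) (f g : Tor d L → ℝ) :
    ∑ x ∈ Ly i h, f x * A i g x = ∑ x ∈ Ly i h, A i f x * g x := by
  have e : ∑ x ∈ Ly i h, A i f x * g x = ∑ x ∈ Ly i h, g x * A i f x :=
    Finset.sum_congr rfl fun x _ => mul_comm _ _
  rw [e, sum_mul_A, sum_mul_A]
  refine Finset.sum_congr rfl fun k hk => ?_
  have hk' : k ≠ i := Finset.ne_of_mem_erase hk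
  have h1 : ∑ x ∈ Ly i h, f x * g (x + ev k) = ∑ x ∈ Ly i h, g x * f (x - ev k) := by
    rw [← sh_k hk' h (fun x => g x * f (x - ev k))]
    refine Finset.sum_congr rfl fun x _ => ?_
    rw [add_sub_cancel_right, mul_comm]
  have h2 : ∑ x ∈ Ly i h, f x * g (x - ev k) = ∑ x ∈ Ly i h, g x * f (x + ev k) := by
    rw [← sh_nk hk' h (fun x => g x * f (x + ev k))]
    refine Finset.sum_congr rfl fun x _ => ?_
    rw [sub_add_cancel, mul_comm]
  rw [h1, h2, add_comm]

omit [NeZero L] in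
theorem A_shift (i : Fin d) (g : Tor d L → ℝ) (x : Tor d L) :
    A i g (x - ev i) = A i (fun z => g (z - ev i)) x := by
  unfold A
  refine Finset.sum_congr rfl fun k _ => ?_
  rw [sub_add_eq_add_sub, sub_right_comm]

/-- `B = 2 d lam - A` -/
def B (i : Fin d) (lm : ℝ) (g : Tor d L → ℝ) (x : Tor d L) : ℝ := 2 * d * lm * g x - A i g x

/-- the invariant -/
def I (i : Fin d) (lm : ℝ) (φ : Tor d L → ℝ) (h : ZMod L) : ℝ :=
  ∑ x ∈ Ly i h, (φ x ^ 2 + φ (x - ev i) ^ 2 - φ x * B i lm φ (x - ev i))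

theorem B_symm (i : Fin d) (lm : ℝ) (φ : Tor d L → ℝ) (h : ZMod L) :
    ∑ x ∈ Ly i h, φ x * B i lm φ (x - ev i) = ∑ x ∈ Ly i h, B i lm φ x * φ (x - ev i) := by
  have h1 := A_symm i h φ (fun z => φ (z - ev i))
  have e1 : ∑ x ∈ Ly i h, φ x * B i lm φ (x - ev i) =
      ∑ x ∈ Ly i h, 2 * d * lm * (φ x * φ (x - ev i)) -
        ∑ x ∈ Ly i h, φ x * A i (fun z => φ (z - ev i)) x := by
    rw [← Finset.sum_sub_distrib]
    refine Finset.sum_congr rfl fun x _ => ?_
    unfold B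
    rw [A_shift]
    ring
  have e2 : ∑ x ∈ Ly i h, B i lm φ x * φ (x - ev i) =
      ∑ x ∈ Ly i h, 2 * d * lm * (φ x * φ (x - ev i)) -
        ∑ x ∈ Ly i h, A i φ x * φ (x - ev i) := by
    rw [← Finset.sum_sub_distrib]
    refine Finset.sum_congr rfl fun x _ => ?_
    unfold B
    ring
  rw [e1, e2, h1]

section eq

variable {i : Fin d} {lm : ℝ} {φ a : Tor d L → ℝ}

/-- the equation in the form used here -/
def EqB (i : Fin d) (lm : ℝ) (φ a : Tor d L → ℝ) : Prop :=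
  ∀ x, φ (x + ev i) + φ (x - ev i) = B i lm φ x + 2 * d * a x

theorem I_step (hE : EqB i lm φ a) (h : ZMod L) :
    I i lm φ (h + 1) - I i lm φ h =
      ∑ x ∈ Ly i h, 2 * d * (a x * (φ (x + ev i) - φ (x - ev i))) := by
  have e1 : I i lm φ (h + 1) =
      ∑ x ∈ Ly i h, (φ (x + ev i) ^ 2 + φ x ^ 2 - φ (x + ev i) * B i lm φ x) := by
    unfold I
    rw [sh_i]
    simp only [add_sub_cancel_right]
  have e2 : I i lm φ h = ∑ x ∈ Ly i h, (φ x ^ 2 + φ (x - ev i) ^ 2) -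
      ∑ x ∈ Ly i h, B i lm φ x * φ (x - ev i) := by
    unfold I
    rw [Finset.sum_sub_distrib, B_symm]
  rw [e1, e2, ← Finset.sum_sub_distrib, ← Finset.sum_sub_distrib]
  refine Finset.sum_congr rfl fun x _ => ?_
  have := hE x
  linear_combination (φ (x + ev i) - φ (x - ev i)) * this

theorem gn_eq (hE : EqB i lm φ a) (h : ZMod L) :
    gn i φ h = I i lm φ h - ∑ x ∈ Ly i h, ((φ (x + ev i) - φ x) * (φ x - φ (x - ev i)) +
      2 * d * (a x * φ (x - ev i))) := by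
  have e2 : I i lm φ h = ∑ x ∈ Ly i h, (φ x ^ 2 + φ (x - ev i) ^ 2) -
      ∑ x ∈ Ly i h, B i lm φ x * φ (x - ev i) := by
    unfold I
    rw [Finset.sum_sub_distrib, B_symm]
  unfold gn
  rw [e2, ← Finset.sum_sub_distrib, ← Finset.sum_sub_distrib]
  refine Finset.sum_congr rfl fun x _ => ?_
  have := hE x
  linear_combination (-φ (x - ev i)) * this

theorem gn_le (hE : EqB i lm φ a) (ha : ∀ x, 0 ≤ a x) (hφ : ∀ x, 0 ≤ φ x) (h : ZMod L) :
    gn i φ h ≤ I i lm φ h +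
      ∑ x ∈ Ly i h, 1 / 2 * (φ (x + ev i) - 2 * φ x + φ (x - ev i)) ^ 2 := by
  rw [gn_eq hE, sub_eq_add_neg, ← Finset.sum_neg_distrib]
  refine add_le_add le_rfl (Finset.sum_le_sum fun x _ => ?_)
  have h1 : 0 ≤ 2 * (d : ℝ) * (a x * φ (x - ev i)) := by
    have := mul_nonneg (ha x) (hφ (x - ev i))
    positivity
  nlinarith [sq_nonneg (φ (x + ev i) - φ x), sq_nonneg (φ x - φ (x - ev i))]

/-- telescoping -/
theorem I_tel (hE : EqB i lm φ a) (ha : ∀ x, 0 ≤ a x) (g : ZMod L) (n : ℕ) :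
    I i lm φ (g + n) ≤ I i lm φ g + 2 * d * ∑ j ∈ Finset.range n,
      ∑ x ∈ Ly i (g + (j : ZMod L)), a x * |φ (x + ev i) - φ (x - ev i)| := by
  induction n with
  | zero => simp
  | succ n ih =>
    have h1 := I_step hE (g + (n : ZMod L))
    have h2 : ∑ x ∈ Ly i (g + (n : ZMod L)), 2 * d * (a x * (φ (x + ev i) - φ (x - ev i))) ≤
        2 * d * ∑ x ∈ Ly i (g + (n : ZMod L)), a x * |φ (x + ev i) - φ (x - ev i)| := by
      rw [Finset.mul_sum]
      refine Finset.sum_le_sum fun x _ => ?_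
      have h3 : a x * (φ (x + ev i) - φ (x - ev i)) ≤ a x * |φ (x + ev i) - φ (x - ev i)| :=
        mul_le_mul_of_nonneg_left (le_abs_self _) (ha x)
      exact mul_le_mul_of_nonneg_left h3 (by positivity)
    rw [Finset.sum_range_succ, Nat.cast_succ, ← add_assoc, mul_add]
    linarith

theorem I_le (hE : EqB i lm φ a) (ha : ∀ x, 0 ≤ a x) (g h : ZMod L) :
    I i lm φ h ≤ I i lm φ g + 2 * d * ∑ x, a x * |φ (x + ev i) - φ (x - ev i)| := by
  have h1 := I_tel hE ha g (h - g).val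
  have h2 : g + ((h - g).val : ZMod L) = h := by
    rw [ZMod.natCast_zmod_val]
    ring
  rw [h2] at h1
  refine h1.trans (add_le_add le_rfl (mul_le_mul_of_nonneg_left ?_ (by positivity)))
  rw [← sum_Ly i]
  have hnn : ∀ h : ZMod L, 0 ≤ ∑ x ∈ Ly i h, a x * |φ (x + ev i) - φ (x - ev i)| := fun h =>
    Finset.sum_nonneg fun x _ => mul_nonneg (ha x) (abs_nonneg _)
  have hinj : Set.InjOn (fun j : ℕ => g + (j : ZMod L)) (Finset.range (h - g).val) := by
    intro j hj k hk hjk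
    have hL : (h - g).val < L := ZMod.val_lt _
    rw [Finset.coe_range, Set.mem_Iio] at hj hk
    have h3 : (j : ZMod L) = (k : ZMod L) := add_left_cancel hjk
    have h4 := congrArg ZMod.val h3
    rwa [ZMod.val_natCast_of_lt (hj.trans hL), ZMod.val_natCast_of_lt (hk.trans hL)] at h4
  rw [← Finset.sum_image (f := fun h : ZMod L =>
    ∑ x ∈ Ly i h, a x * |φ (x + ev i) - φ (x - ev i)|) hinj]
  exact Finset.sum_le_sum_of_subset_of_nonneg (Finset.subset_univ _) fun h _ _ => hnn h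

end eq

theorem I_small {i : Fin d} {lm : ℝ} {φ : Tor d L → ℝ} (hl : 0 ≤ lm) (hφ : ∀ x, 0 ≤ φ x)
    (g : ZMod L) : I i lm φ g ≤ d * ∑ x ∈ Ly i g, (φ x ^ 2 + φ (x - ev i) ^ 2) := by
  have hd : 1 ≤ d := by
    have := i.2
    omega
  have e : I i lm φ g = ∑ x ∈ Ly i g, (φ x ^ 2 + φ (x - ev i) ^ 2) -
      ∑ x ∈ Ly i g, 2 * d * lm * (φ x * φ (x - ev i)) +
        ∑ x ∈ Ly i g, φ x * A i (fun z => φ (z - ev i)) x := by
    unfold I
    rw [← Finset.sum_sub_distrib, ← Finset.sum_add_distrib]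
    refine Finset.sum_congr rfl fun x _ => ?_
    unfold B
    rw [A_shift]
    ring
  have h1 : 0 ≤ ∑ x ∈ Ly i g, 2 * d * lm * (φ x * φ (x - ev i)) := by
    refine Finset.sum_nonneg fun x _ => ?_
    have := mul_nonneg (hφ x) (hφ (x - ev i))
    positivity
  have h2 : ∑ x ∈ Ly i g, φ x * A i (fun z => φ (z - ev i)) x ≤
      ∑ k ∈ Finset.univ.erase i, ∑ x ∈ Ly i g, (φ x ^ 2 + φ (x - ev i) ^ 2) := by
    rw [sum_mul_A]
    refine Finset.sum_le_sum fun k hk => ?_
    have hk' : k ≠ i := Finset.ne_of_mem_erase hk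
    have a1 : ∑ x ∈ Ly i g, φ x * φ (x + ev k - ev i) ≤
        ∑ x ∈ Ly i g, (1 / 2 * φ x ^ 2 + 1 / 2 * φ (x + ev k - ev i) ^ 2) :=
      Finset.sum_le_sum fun x _ => by nlinarith [sq_nonneg (φ x - φ (x + ev k - ev i))]
    have a2 : ∑ x ∈ Ly i g, φ x * φ (x - ev k - ev i) ≤
        ∑ x ∈ Ly i g, (1 / 2 * φ x ^ 2 + 1 / 2 * φ (x - ev k - ev i) ^ 2) :=
      Finset.sum_le_sum fun x _ => by nlinarith [sq_nonneg (φ x - φ (x - ev k - ev i))]
    have b1 := sh_k hk' g (fun x => 1 / 2 * φ (x - ev i) ^ 2)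
    have b2 := sh_nk hk' g (fun x => 1 / 2 * φ (x - ev i) ^ 2)
    rw [Finset.sum_add_distrib] at a1 a2 ⊢
    rw [b1] at a1
    rw [b2] at a2
    rw [← Finset.mul_sum] at a1 a2
    have c1 : ∑ x ∈ Ly i g, 1 / 2 * φ (x - ev i) ^ 2 = 1 / 2 * ∑ x ∈ Ly i g, φ (x - ev i) ^ 2 := by
      rw [Finset.mul_sum]
    rw [c1] at a1 a2
    linarith
  rw [Finset.sum_const, Finset.card_erase_of_mem (Finset.mem_univ i), Finset.card_univ,
    Fintype.card_fin, nsmul_eq_mul, Nat.cast_sub hd, Nat.cast_one] at h2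
  rw [e]
  linarith

end FID_

open FID_ in
theorem p_FID (h_HES : T_HES) : T_FID := by
  intro d L _ hd hL O φ hT i S
  have hd1 : 1 ≤ d := by omega
  have hd0 : (0 : ℝ) < d := by exact_mod_cast (show 0 < d by omega)
  have hL0 : (0 : ℝ) < L := by exact_mod_cast (show 0 < L by omega)
  set a : Tor d L → ℝ := fun x => if x ∈ O then 0 else P0 φ x with hadef
  have hPnn : ∀ x, 0 ≤ P0 φ x := by
    intro x
    unfold P0
    have : 0 ≤ ∑ k : Fin d, (φ (x + ev k) + φ (x - ev k)) :=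
      Finset.sum_nonneg fun k _ => add_nonneg (hT.nn _) (hT.nn _)
    positivity
  have ha : ∀ x, 0 ≤ a x := by
    intro x
    rw [hadef]
    simp only
    split_ifs
    · exact le_rfl
    · exact hPnn x
  have hl : 0 ≤ lam O := by
    by_contra hneg
    push Not at hneg
    have h1 : ∀ x ∈ O, φ x ^ 2 = 0 := by
      intro x hx
      have h2 := hT.eq x hx
      have h3 := hPnn x
      have h4 : φ x = 0 := by
        by_contra hne
        have hpos : 0 < φ x := lt_of_le_of_ne (hT.nn x) (Ne.symm hne)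
        have := mul_neg_of_neg_of_pos hneg hpos
        linarith
      rw [h4]
      norm_num
    have h5 := hT.nm
    rw [Finset.sum_eq_zero h1] at h5
    norm_num at h5
  have hE : EqB i (lam O) φ a := by
    intro x
    have h1 := P0_split hd1 i φ x
    have h2 : P0 φ x = lam O * φ x + a x := by
      rw [hadef]
      simp only
      by_cases hx : x ∈ O
      · rw [if_pos hx, hT.eq x hx, add_zero]
      · rw [if_neg hx, hT.sp x hx, mul_zero, zero_add]
    unfold B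
    rw [h2] at h1
    linarith
  have hsum1 : ∑ x, φ x ^ 2 = 1 := by
    rw [← hT.nm]
    symm
    apply Finset.sum_subset (Finset.subset_univ O)
    intro x _ hx
    rw [hT.sp x hx]
    norm_num
  -- the force
  have hfc : ∑ x, a x * |φ (x + ev i) - φ (x - ev i)| = fc O i φ := by
    unfold fc fo
    have h1 : ∑ x, a x * |φ (x + ev i) - φ (x - ev i)| =
        ∑ x ∈ Oᶜ, a x * |φ (x + ev i) - φ (x - ev i)| := by
      symm
      apply Finset.sum_subset (Finset.subset_univ _)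
      intro x _ hx
      rw [Finset.mem_compl, not_not] at hx
      rw [hadef]
      simp only
      rw [if_pos hx, zero_mul]
    rw [h1]
    refine Finset.sum_congr rfl fun x hx => ?_
    rw [Finset.mem_compl] at hx
    rw [hadef]
    simp only
    rw [if_neg hx]
  -- a layer with small mass
  obtain ⟨g, hg⟩ : ∃ g : ZMod L, ∑ x ∈ Ly i g, (φ x ^ 2 + φ (x - ev i) ^ 2) ≤ 2 / L := by
    have h1 : ∑ g : ZMod L, ∑ x ∈ Ly i g, (φ x ^ 2 + φ (x - ev i) ^ 2) ≤
        ∑ _g : ZMod L, (2 / L : ℝ) := by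
      rw [sum_Ly, Finset.sum_add_distrib, Finset.sum_const, Finset.card_univ, ZMod.card,
        nsmul_eq_mul]
      have h2 : ∑ x : Tor d L, φ (x - ev i) ^ 2 = ∑ x, φ x ^ 2 :=
        Equiv.sum_comp (Equiv.subRight (ev i : Tor d L)) (fun x => φ x ^ 2)
      rw [h2, hsum1, mul_div_cancel₀ _ hL0.ne']
      norm_num
    obtain ⟨g, _, hg⟩ := Finset.exists_le_of_sum_le Finset.univ_nonempty h1
    exact ⟨g, hg⟩
  have hIg : I i (lam O) φ g ≤ 6 * d / L := by
    refine (I_small hl hT.nn g).trans ((mul_le_mul_of_nonneg_left hg hd0.le).trans ?_)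
    rw [← mul_div_assoc]
    apply div_le_div_of_nonneg_right _ hL0.le
    linarith
  have hI : ∀ h, I i (lam O) φ h ≤ 2 * d * fc O i φ + 6 * d / L := by
    intro h
    have := I_le hE ha g h
    rw [hfc] at this
    linarith
  calc ∑ h ∈ S, gn i φ h ≤ ∑ h ∈ S, (I i (lam O) φ h +
        ∑ x ∈ Ly i h, 1 / 2 * (φ (x + ev i) - 2 * φ x + φ (x - ev i)) ^ 2) :=
        Finset.sum_le_sum fun h _ => gn_le hE ha hT.nn h
    _ = ∑ h ∈ S, I i (lam O) φ h + ∑ h ∈ S, ∑ x ∈ Ly i h,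
        1 / 2 * (φ (x + ev i) - 2 * φ x + φ (x - ev i)) ^ 2 := Finset.sum_add_distrib
    _ ≤ S.card * (2 * d * fc O i φ + 6 * d / L) +
        (1 / 2) * ∑ x, (2 * d * (φ x - P0 φ x)) ^ 2 := by
      apply add_le_add
      · have := Finset.sum_le_sum fun h (_ : h ∈ S) => hI h
        rwa [Finset.sum_const, nsmul_eq_mul] at this
      · have h1 : ∑ h ∈ S, ∑ x ∈ Ly i h, 1 / 2 * (φ (x + ev i) - 2 * φ x + φ (x - ev i)) ^ 2 ≤
            ∑ h : ZMod L, ∑ x ∈ Ly i h, 1 / 2 * (φ (x + ev i) - 2 * φ x + φ (x - ev i)) ^ 2 :=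
          Finset.sum_le_sum_of_subset_of_nonneg (Finset.subset_univ _) fun h _ _ =>
            Finset.sum_nonneg fun x _ => by positivity
        rw [sum_Ly, ← Finset.mul_sum] at h1
        have h2 := h_HES d L i φ
        linarith

end

end Pool.Agent.LBL
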