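import Pool.Agent.LBL.Targets1

/-!
# LBL: target FKT, Faber-Krahn inequality on the torus
-/

set_option autoImplicit false

open Finset
open scoped Classical

namespace Pool.Agent.LBL

noncomputable section

namespace FKT_

lemma l1_sq {d L : ℕ} [NeZero L] (V : Finset (Tor d L)) (f : Tor d L → ℝ) (hf : Spp V f) :
    (∑ x, |f x|) ^ 2 ≤ (V.card : ℝ) * ip f f := by
  have h1 : ∑ x, |f x| = ∑ x ∈ V, |f x| := by
    symm
    apply Finset.sum_subset (Finset.subset_univ V)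
    intro x _ hx
    rw [hf x hx, abs_zero]
  have h2 : ip f f = ∑ x ∈ V, |f x| ^ 2 := by
    unfold ip
    rw [← Finset.sum_subset (Finset.subset_univ V) (fun x _ hx => by rw [hf x hx, mul_zero])]
    exact Finset.sum_congr rfl fun x _ => by rw [sq_abs, pow_two]
  rw [h1, h2]
  exact sq_sum_le_card_mul_sum_sq

lemma main {d : ℕ} (hd : 1 ≤ d) {C : ℝ} (hC : 0 < C)
    (hN : ∀ (L : ℕ) [NeZero L] (b : ℕ) (f : Tor d L → ℝ), 1 ≤ b → b ≤ L →
      ip f f ≤ C * b ^ 2 * En f + (∑ x, |f x|) ^ 2 / b ^ d)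
    (L : ℕ) [NeZero L] (V : Finset (Tor d L)) (hV : V.Nonempty) (hVL : 2 * V.card ≤ L ^ d)
    (f : Tor d L → ℝ) (hf : Spp V f) :
    1 / (32 * C) * (V.card : ℝ) ^ (-(2 : ℝ) / d) * ip f f ≤ En f := by
  have hd0 : d ≠ 0 := by omega
  have hdR : (0 : ℝ) < d := by exact_mod_cast (by omega : 0 < d)
  set N : ℝ := (V.card : ℝ) with hNdef
  have hN1 : (1 : ℝ) ≤ N := by
    have : 1 ≤ V.card := Finset.card_pos.2 hV
    rw [hNdef]
    exact_mod_cast this
  have hN0 : (0 : ℝ) < N := lt_of_lt_of_le one_pos hN1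
  set u : ℝ := N ^ ((d : ℝ)⁻¹) with hu
  have hu0 : 0 < u := Real.rpow_pos_of_pos hN0 _
  set s : ℝ := (2 * N) ^ ((d : ℝ)⁻¹) with hs
  have hinv0 : (0 : ℝ) ≤ (d : ℝ)⁻¹ := by positivity
  have hinv1 : (d : ℝ)⁻¹ ≤ 1 := inv_le_one_of_one_le₀ (by exact_mod_cast hd)
  have hs1 : 1 ≤ s := Real.one_le_rpow (by linarith) hinv0
  have hspow : s ^ d = 2 * N := Real.rpow_inv_natCast_pow (by linarith) hd0
  have hs2 : s ≤ 2 * u := by
    rw [hs, Real.mul_rpow (by norm_num) hN0.le, ← hu]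
    apply mul_le_mul_of_nonneg_right _ hu0.le
    calc (2 : ℝ) ^ ((d : ℝ)⁻¹) ≤ (2 : ℝ) ^ (1 : ℝ) :=
          Real.rpow_le_rpow_of_exponent_le (by norm_num) hinv1
      _ = 2 := Real.rpow_one 2
  have hsL : s ≤ (L : ℝ) := by
    have h1 : (2 * N) ≤ (L : ℝ) ^ d := by
      rw [hNdef]
      exact_mod_cast hVL
    calc s ≤ ((L : ℝ) ^ d) ^ ((d : ℝ)⁻¹) := Real.rpow_le_rpow (by linarith) h1 hinv0
      _ = (L : ℝ) := Real.pow_rpow_inv_natCast (Nat.cast_nonneg L) hd0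
  set b : ℕ := ⌈s⌉₊ with hb
  have hb1 : 1 ≤ b := Nat.one_le_iff_ne_zero.2 (by
    rw [hb]
    exact (Nat.ceil_pos.2 (by linarith)).ne')
  have hbL : b ≤ L := Nat.ceil_le.2 hsL
  have hsb : s ≤ (b : ℝ) := Nat.le_ceil s
  have hb2 : (b : ℝ) ≤ 4 * u := by
    have := (Nat.ceil_lt_add_one (by linarith : 0 ≤ s)).le
    rw [← hb] at this
    linarith
  have hbR : (0 : ℝ) < b := by exact_mod_cast hb1
  have h3 := hN L b f hb1 hbL
  have hE : 0 ≤ En f := by
    unfold En Ed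
    positivity
  have hI : 0 ≤ ip f f := Finset.sum_nonneg fun x _ => mul_self_nonneg _
  have h4 : (∑ x, |f x|) ^ 2 / (b : ℝ) ^ d ≤ ip f f / 2 := by
    rw [div_le_iff₀ (by positivity)]
    have h5 := l1_sq V f hf
    have h6 : 2 * N ≤ (b : ℝ) ^ d := by
      rw [← hspow]
      exact pow_le_pow_left₀ (by linarith) hsb d
    calc (∑ x, |f x|) ^ 2 ≤ N * ip f f := h5
      _ = ip f f / 2 * (2 * N) := by ring
      _ ≤ ip f f / 2 * (b : ℝ) ^ d := mul_le_mul_of_nonneg_left h6 (by linarith)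
  have h7 : (b : ℝ) ^ 2 ≤ 16 * u ^ 2 := by nlinarith
  have h8 : C * (b : ℝ) ^ 2 * En f ≤ C * (16 * u ^ 2) * En f :=
    mul_le_mul_of_nonneg_right (mul_le_mul_of_nonneg_left h7 hC.le) hE
  have h9 : ip f f ≤ 32 * C * u ^ 2 * En f := by linarith
  have h10 : N ^ (-(2 : ℝ) / d) = (u ^ 2)⁻¹ := by
    rw [hu, ← Real.rpow_natCast, ← Real.rpow_mul hN0.le, ← Real.rpow_neg hN0.le]
    congr 1
    push_cast
    field_simp
  rw [h10]
  have h11 : 1 / (32 * C) * (u ^ 2)⁻¹ * ip f f ≤ 1 / (32 * C) * (u ^ 2)⁻¹ *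
      (32 * C * u ^ 2 * En f) := mul_le_mul_of_nonneg_left h9 (by positivity)
  have h12 : 1 / (32 * C) * (u ^ 2)⁻¹ * (32 * C * u ^ 2 * En f) = En f := by
    field_simp
  linarith

end FKT_

theorem p_FKT (hNSH : T_NSH) (hENI : T_ENI) (hTOP : T_TOP) : T_FKT := by
  intro d hd
  obtain ⟨C, hC, hN⟩ := hNSH d hd
  have hdR : (1 : ℝ) ≤ d := by exact_mod_cast hd
  refine ⟨1 / (32 * C) / (2 * d), by positivity, ?_⟩
  intro L _ V hV hVL
  have hpos : 0 ≤ (V.card : ℝ) ^ (-(2 : ℝ) / d) := Real.rpow_nonneg (Nat.cast_nonneg _) _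
  constructor
  · intro f hf
    have h1 := FKT_.main hd hC hN L V hV hVL f hf
    have hI : 0 ≤ ip f f := Finset.sum_nonneg fun x _ => mul_self_nonneg _
    have h2 : 1 / (32 * C) / (2 * d) ≤ 1 / (32 * C) :=
      div_le_self (by positivity) (by linarith)
    have h3 : 1 / (32 * C) / (2 * d) * (V.card : ℝ) ^ (-(2 : ℝ) / d) * ip f f ≤
        1 / (32 * C) * (V.card : ℝ) ^ (-(2 : ℝ) / d) * ip f f :=
      mul_le_mul_of_nonneg_right (mul_le_mul_of_nonneg_right h2 hpos) hI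
    linarith
  · obtain ⟨φ, hφ⟩ := hTOP d (ZMod L) V hd hV
    have h1 := FKT_.main hd hC hN L V hV hVL φ hφ.sp
    have h2 := (hENI d L hd φ φ).2.1
    have h3 : ip φ φ = 1 := by
      unfold ip
      rw [← Finset.sum_subset (Finset.subset_univ V)
        (fun x _ hx => by rw [hφ.sp x hx, mul_zero]), ← hφ.nm]
      exact Finset.sum_congr rfl fun x _ => by ring
    have h4 : ip φ (P0 φ) = lam V := by
      unfold ip
      rw [← Finset.sum_subset (Finset.subset_univ V)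
        (fun x _ hx => by rw [hφ.sp x hx, zero_mul])]
      calc ∑ x ∈ V, φ x * P0 φ x = ∑ x ∈ V, lam V * φ x ^ 2 :=
            Finset.sum_congr rfl fun x hx => by rw [hφ.eq x hx]; ring
        _ = lam V := by rw [← Finset.mul_sum, hφ.nm, mul_one]
    rw [h3, mul_one] at h1
    rw [h3, h4] at h2
    rw [h2] at h1
    have h5 : 1 / (32 * C) * (V.card : ℝ) ^ (-(2 : ℝ) / d) / (2 * d) ≤ 1 - lam V := by
      rw [div_le_iff₀ (by positivity)]
      linarith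
    have h6 : 1 / (32 * C) / (2 * d) * (V.card : ℝ) ^ (-(2 : ℝ) / d) =
        1 / (32 * C) * (V.card : ℝ) ^ (-(2 : ℝ) / d) / (2 * d) := by ring
    rw [h6]
    linarith

end

end Pool.Agent.LBL
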