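import Pool.Agent.LBL.Targets1

/-!
# LBL: target FLX (flux identity and Harnack step)
-/

set_option autoImplicit false

open Finset
open scoped Classical

namespace Pool.Agent.LBL

theorem FLX_le {d L : ℕ} (hd : 1 ≤ d) (φ : Tor d L → ℝ) (hφ : ∀ x, 0 ≤ φ x) (x : Tor d L)
    (i : Fin d) : φ (x + ev i) + φ (x - ev i) ≤ 2 * d * P0 φ x := by
  have hd' : (0 : ℝ) < 2 * d := by
    have : (1 : ℝ) ≤ d := by exact_mod_cast hd
    linarith
  unfold P0
  rw [mul_div_cancel₀ _ hd'.ne']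
  exact Finset.single_le_sum (f := fun i : Fin d => φ (x + ev i) + φ (x - ev i))
    (fun j _ => add_nonneg (hφ _) (hφ _)) (Finset.mem_univ i)

theorem p_FLX (h_ENI : T_ENI) (h_VAR : T_VAR) : T_FLX := by
  intro d L _ hd O φ hT
  have hd' : (0 : ℝ) < 2 * d := by
    have : (1 : ℝ) ≤ d := by exact_mod_cast hd
    linarith
  obtain ⟨_, hE2, hE3⟩ := h_ENI d L hd φ φ
  have hlam : lam O ≤ 1 := (h_VAR d (ZMod L) hd O).2.2.1
  have hP : ∀ x, 0 ≤ P0 φ x := by
    intro x
    unfold P0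
    exact div_nonneg (Finset.sum_nonneg fun i _ => add_nonneg (hT.nn _) (hT.nn _)) hd'.le
  have hO : ∀ f : Tor d L → ℝ, (∀ x, x ∉ O → f x = 0) → ∑ x, f x = ∑ x ∈ O, f x := by
    intro f hf
    exact (Finset.sum_subset (Finset.subset_univ O) fun x _ hx => hf x hx).symm
  have hle := fun x i => FLX_le hd φ hT.nn x i
  have h3 : ∀ x i, φ (x + ev i) ≤ 2 * d * P0 φ x ∧ φ (x - ev i) ≤ 2 * d * P0 φ x := by
    intro x i
    have h := hle x i
    have h1 := hT.nn (x + ev i)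
    have h2 := hT.nn (x - ev i)
    exact ⟨by linarith, by linarith⟩
  have hn : ip φ φ = 1 := by
    unfold ip
    rw [hO _ fun x hx => by rw [hT.sp x hx, zero_mul], ← hT.nm]
    exact Finset.sum_congr rfl fun x _ => by ring
  refine ⟨?_, hP, h3, ?_, ?_, hn⟩
  · have h4 : ∑ x ∈ O, P0 φ x = lam O * ∑ x, φ x := by
      rw [hO φ hT.sp, Finset.mul_sum]
      exact Finset.sum_congr rfl fun x hx => hT.eq x hx
    have h5 := Finset.sum_add_sum_compl O (P0 φ)
    rw [hE3, h4] at h5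
    linarith
  · intro x hx i
    have h4 : P0 φ x ≤ φ x := by
      rw [hT.eq x hx]
      nlinarith [hT.nn x]
    have h5 := h3 x i
    have h6 : 2 * d * P0 φ x ≤ 2 * d * φ x := mul_le_mul_of_nonneg_left h4 hd'.le
    exact ⟨h5.1.trans h6, h5.2.trans h6⟩
  · rw [hE2, hn]
    have h4 : ip φ (P0 φ) = lam O := by
      unfold ip
      rw [hO _ fun x hx => by rw [hT.sp x hx, zero_mul]]
      have h5 : ∑ x ∈ O, φ x * P0 φ x = lam O * ∑ x ∈ O, φ x ^ 2 := by
        rw [Finset.mul_sum]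
        exact Finset.sum_congr rfl fun x hx => by rw [hT.eq x hx]; ring
      rw [h5, hT.nm, mul_one]
    rw [h4]

end Pool.Agent.LBL
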