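import Pool.Agent.LBL.Targets2

set_option autoImplicit false

/-!
# LBL, T_FOR: forward sum
-/

open Finset
open scoped Classical

namespace Pool.Agent.LBL.FOR_

open Pool.Agent.LBL

theorem td_tri {d L : ℕ} [NeZero L] (x w y : Tor d L) : td x y ≤ td x w + td w y := by
  unfold td
  apply Finset.sup_le
  intro i _
  have h1 : x i - y i = (x i - w i) + (w i - y i) := by ring
  have h2 : (x i - w i).valMinAbs.natAbs ≤
      Finset.univ.sup fun i : Fin d => (x i - w i).valMinAbs.natAbs :=
    Finset.le_sup (f := fun i : Fin d => (x i - w i).valMinAbs.natAbs) (Finset.mem_univ i)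
  have h3 : (w i - y i).valMinAbs.natAbs ≤
      Finset.univ.sup fun i : Fin d => (w i - y i).valMinAbs.natAbs :=
    Finset.le_sup (f := fun i : Fin d => (w i - y i).valMinAbs.natAbs) (Finset.mem_univ i)
  have h4 := ZMod.natAbs_valMinAbs_add_le (x i - w i) (w i - y i)
  have h5 := Int.natAbs_add_le (x i - w i).valMinAbs (w i - y i).valMinAbs
  rw [h1]
  omega

theorem td_comm {d L : ℕ} [NeZero L] (x y : Tor d L) : td x y = td y x := by
  unfold td
  apply Finset.sup_congr rfl
  intro i _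
  have h1 : x i - y i = -(y i - x i) := by ring
  rw [h1, ZMod.natAbs_valMinAbs_neg]

theorem td_half {d L : ℕ} [NeZero L] (x y : Tor d L) : td x y ≤ L / 2 := by
  unfold td
  apply Finset.sup_le
  intro i _
  exact ZMod.natAbs_valMinAbs_le _

theorem ev_ap {d L : ℕ} [NeZero L] (k : ℕ) (i m : Fin d) :
    (k • (ev i : Tor d L)) m = if m = i then (k : ZMod L) else 0 := by
  unfold ev
  by_cases h : m = i
  · subst h
    simp
  · simp [h]

theorem td_step {d L : ℕ} [NeZero L] (z : Tor d L) (i : Fin d) (k : ℕ) (hk : k ≤ L / 2) :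
    td (z + k • ev i) z ≤ k := by
  unfold td
  apply Finset.sup_le
  intro m _
  have h1 : (z + k • ev i : Tor d L) m - z m = if m = i then (k : ZMod L) else 0 := by
    rw [Pi.add_apply, ev_ap]
    ring
  rw [h1]
  by_cases h : m = i
  · rw [if_pos h, ZMod.valMinAbs_natCast_of_le_half hk]
    simp
  · rw [if_neg h]
    simp

theorem upd {d L : ℕ} [NeZero L] (z : Tor d L) (i : Fin d) (k : ℕ) :
    Function.update (z + k • ev i) i 0 = Function.update z i 0 := by
  funext m
  by_cases h : m = i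
  · subst h
    simp
  · rw [Function.update_of_ne h, Function.update_of_ne h, Pi.add_apply, ev_ap, if_neg h, add_zero]

theorem inj {d L : ℕ} [NeZero L] (z : Tor d L) (i : Fin d) (k k' : ℕ) (hk : k < L) (hk' : k' < L)
    (h : z + k • ev i = z + k' • ev i) : k = k' := by
  have h1 := congrFun (add_left_cancel h) i
  rw [ev_ap, ev_ap, if_pos rfl, if_pos rfl] at h1
  have h2 := congrArg ZMod.val h1
  rwa [ZMod.val_cast_of_lt hk, ZMod.val_cast_of_lt hk'] at h2

theorem assemble {d L : ℕ} [NeZero L] (Z F : Finset (Tor d L)) (w : Tor d L → ℝ) (i : Fin d) (c' : ℝ)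
    (hw : ∀ x ∈ F, 0 ≤ w x)
    (hZ : ∀ z ∈ Z, ∀ z' ∈ Z, Function.update z i 0 = Function.update z' i 0 → z = z')
    (hS : ∀ z ∈ Z, ∃ S : Finset (Tor d L), S ⊆ F ∧
      (∀ x ∈ S, Function.update x i 0 = Function.update z i 0) ∧ c' ≤ ∑ x ∈ S, w x) :
    c' * Z.card ≤ ∑ x ∈ F, w x := by
  choose! S hS1 hS2 hS3 using hS
  have h1 : Z.biUnion S ⊆ F := by
    intro x hx
    obtain ⟨z, hz, hxz⟩ := Finset.mem_biUnion.mp hx
    exact hS1 z hz hxz
  have h2 : ∑ x ∈ Z.biUnion S, w x = ∑ z ∈ Z, ∑ x ∈ S z, w x := by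
    apply Finset.sum_biUnion
    intro z hz z' hz' hne
    rw [Function.onFun, Finset.disjoint_left]
    intro x hx hx'
    apply hne
    apply hZ z hz z' hz'
    rw [← hS2 z hz x hx, ← hS2 z' hz' x hx']
  have h3 : ∑ x ∈ Z.biUnion S, w x ≤ ∑ x ∈ F, w x :=
    Finset.sum_le_sum_of_subset_of_nonneg h1 (fun x hx _ => hw x hx)
  have h4 : ∑ z ∈ Z, c' ≤ ∑ z ∈ Z, ∑ x ∈ S z, w x := Finset.sum_le_sum hS3
  rw [Finset.sum_const, nsmul_eq_mul] at h4
  linarith [mul_comm c' (Z.card : ℝ)]

/-- levels along a line in dimension two -/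
theorem chain {L : ℕ} [NeZero L] (Ce : ℝ) (hCe : 0 < Ce)
    (hE : ∀ (D : ℕ) (φ : Tor 2 L → ℝ) (v0 : Tor 2 L), 2 ≤ D → 2 * D + 3 ≤ L → (∀ x, 0 ≤ φ x) →
      (∀ x, td x v0 ≤ D → P0 φ x ≤ φ x) →
      ∀ i, (1 - Ce / Real.log D) * φ v0 ≤ φ (v0 + ev i) ∧ (1 - Ce / Real.log D) * φ v0 ≤ φ (v0 - ev i))
    (O : Finset (Tor 2 L)) (φ : Tor 2 L → ℝ) (z : Tor 2 L) (i : Fin 2) (D' K : ℕ)
    (h2 : 2 ≤ D') (hL : 2 * D' + 3 ≤ L) (hφ : ∀ x, 0 ≤ φ x) (hP : ∀ x ∈ O, P0 φ x ≤ φ x)
    (hO : ∀ x, td x z ≤ 2 * D' → x ∈ O) (hKD : K ≤ D') (hK : (K : ℝ) * (Ce / Real.log D') ≤ 1 / 2) :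
    ∀ k : ℕ, k ≤ K → (1 - k * (Ce / Real.log D')) * φ z ≤ φ (z + k • ev i) ∧
      (1 - k * (Ce / Real.log D')) * φ (z + k • ev i) ≤ φ z := by
  have hlog : 0 < Real.log D' := Real.log_pos (by exact_mod_cast (by omega : 1 < D'))
  set ε : ℝ := Ce / Real.log D' with hε
  have hε0 : 0 < ε := div_pos hCe hlog
  have step : ∀ k : ℕ, k ≤ D' → (1 - ε) * φ (z + k • ev i) ≤ φ (z + k • ev i + ev i) ∧
      (1 - ε) * φ (z + k • ev i) ≤ φ (z + k • ev i - ev i) := by
    intro k hk
    apply hE D' φ (z + k • ev i) h2 hL hφ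
    intro x hx
    apply hP x
    apply hO
    have h3 := td_tri x (z + k • ev i) z
    have h4 := td_step z i k (by omega)
    omega
  intro k
  induction k with
  | zero =>
    intro _
    simp
  | succ k ih =>
    intro hk
    obtain ⟨i1, i2⟩ := ih (by omega)
    have e1 : z + (k + 1) • ev i = z + k • ev i + ev i := by
      rw [succ_nsmul, add_assoc]
    have s1 := (step k (by omega)).1
    have s2 := (step (k + 1) (by omega)).2
    rw [← e1] at s1
    have e2 : z + (k + 1) • ev i - ev i = z + k • ev i := by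
      rw [e1]
      abel
    rw [e2] at s2
    have hk1 : ((k : ℝ) + 1) * ε ≤ 1 / 2 := by
      have : ((k : ℝ) + 1) ≤ K := by exact_mod_cast hk
      calc ((k : ℝ) + 1) * ε ≤ K * ε := mul_le_mul_of_nonneg_right this hε0.le
        _ ≤ 1 / 2 := hK
    have hk0 : (0 : ℝ) ≤ k := Nat.cast_nonneg k
    have hkε : 0 ≤ (k : ℝ) * ε := mul_nonneg hk0 hε0.le
    have hε1 : ε ≤ 1 / 2 := by nlinarith
    push_cast
    constructor
    · have h5 : (1 - ε) * ((1 - k * ε) * φ z) ≤ (1 - ε) * φ (z + k • ev i) :=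
        mul_le_mul_of_nonneg_left i1 (by linarith)
      have h6 : (1 - ((k : ℝ) + 1) * ε) * φ z ≤ (1 - ε) * ((1 - k * ε) * φ z) := by
        have h7 : 0 ≤ (k * ε * ε) * φ z := mul_nonneg (mul_nonneg hkε hε0.le) (hφ z)
        nlinarith
      linarith
    · have h5 : (1 - k * ε) * ((1 - ε) * φ (z + (k + 1) • ev i)) ≤ (1 - k * ε) * φ (z + k • ev i) :=
        mul_le_mul_of_nonneg_left s2 (by nlinarith)
      have h6 : (1 - ((k : ℝ) + 1) * ε) * φ (z + (k + 1) • ev i) ≤
          (1 - k * ε) * ((1 - ε) * φ (z + (k + 1) • ev i)) := by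
        have h7 : 0 ≤ (k * ε * ε) * φ (z + (k + 1) • ev i) :=
          mul_nonneg (mul_nonneg hkε hε0.le) (hφ _)
        nlinarith
      linarith

theorem kap_le (D' t : ℕ) (h2 : 2 ≤ D') (ht : t ≤ 5 * D' + 3) : kap 2 (t : ℝ) ≤ 6 * Real.log D' := by
  unfold kap
  rw [if_pos rfl]
  have hD : (2 : ℝ) ≤ D' := by exact_mod_cast h2
  have ht' : (t : ℝ) ≤ 5 * D' + 3 := by exact_mod_cast ht
  have h1 : 1 + (t : ℝ) ≤ (D' : ℝ) ^ 4 := by nlinarith [sq_nonneg ((D' : ℝ) - 2), sq_nonneg ((D' : ℝ) ^ 2 - 4)]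
  have h3 : Real.log (1 + t) ≤ 4 * Real.log D' := by
    have h4 := Real.log_le_log (by positivity) h1
    rw [Real.log_pow] at h4
    exact_mod_cast h4
  have h5 : (1 : ℝ) ≤ 2 * Real.log D' := by
    have h6 := Real.log_le_log (by norm_num) hD
    have h7 := Real.log_two_gt_d9
    linarith
  linarith

end Pool.Agent.LBL.FOR_

namespace Pool.Agent.LBL

theorem p_FOR (h_LIN : T_LIN) (h_WLB : T_WLB) (h_ESC : T_ESC) (h_VAR : T_VAR) : T_FOR := by
  intro d C B hd hC hB
  obtain ⟨c1, j0, hc1, hj0, hlin⟩ := h_LIN d C hd hC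
  obtain ⟨cw, hcw, hwlb⟩ := h_WLB d C B hd hC hB
  obtain ⟨Ce0, hCe0, hesc0⟩ := h_ESC
  set Ce : ℝ := max Ce0 1 with hCe
  have hCe1 : 1 ≤ Ce := le_max_right _ _
  have hCe00 : Ce0 ≤ Ce := le_max_left _ _
  have hCep : 0 < Ce := by linarith
  refine ⟨cw / (12 * Ce) * c1, j0, by positivity, hj0, ?_⟩
  intro j hj
  have hjp : 0 < j := by linarith
  obtain ⟨r1, hr1, hlin⟩ := hlin j hj
  obtain ⟨r2, hr2, hwlb⟩ := hwlb j hjp
  refine ⟨max r1 r2, lt_of_lt_of_le hr1 (le_max_left _ _), ?_⟩
  intro r L _ hr hrL O φ y hEF hO hSec hgap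
  have hrr1 : r1 ≤ r := le_trans (le_max_left _ _) hr
  have hrr2 : r2 ≤ r := le_trans (le_max_right _ _) hr
  have hr1' : 1 < r := by linarith
  have hrp : 0 < r := by linarith
  have hrL' : r ≤ L := by
    refine le_trans ?_ hrL
    calc r = r ^ 1 := (pow_one r).symm
      _ ≤ r ^ (d + 4) := pow_le_pow_right₀ hr1'.le (by omega)
  have hsq : 0 < sq d r := by
    unfold sq
    exact Real.rpow_pos_of_pos hrp _
  have hdp : (2 : ℝ) ≤ d := by exact_mod_cast hd
  obtain ⟨i, Z, hZ1, hZ2, hZ3⟩ := hlin r L hrr1 hrL O φ hEF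
  obtain ⟨y00, hy00⟩ : ∃ y0, y0 ∉ O := by
    by_contra hcon
    push Not at hcon
    exact hO (Finset.eq_univ_iff_forall.mpr hcon)
  have hvar := h_VAR d (ZMod L) (by omega)
  set F := O.filter (fun z => j * sq d r / 2 ≤ φ z ∧ φ z ≤ 4 * d * j * sq d r) with hF
  have hW : ∀ z ∈ O, ∀ y0, y0 ∉ O → j * sq d r / 2 ≤ φ z → φ z ≤ 4 * d * j * sq d r →
      cw / kap d (td z y0) ≤ (lam O - lam (O.erase z)) / φ z ^ 2 := by
    intro z hz y0 hy0 h1 h2
    refine hwlb r L hrr2 hrL' O φ y z y0 hEF hSec hgap hz ?_ h2 hy0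
    have : 0 < j * sq d r / 2 := by positivity
    linarith
  have hnn : ∀ x ∈ F, 0 ≤ (lam O - lam (O.erase x)) / φ x ^ 2 := by
    intro x _
    have h1 := (hvar (O.erase x)).2.2.2.1 O (Finset.erase_subset _ _)
    apply div_nonneg (by linarith) (sq_nonneg _)
  have key : cw / (12 * Ce) * Z.card ≤ ∑ z ∈ F, (lam O - lam (O.erase z)) / φ z ^ 2 := by
    apply FOR_.assemble Z F _ i _ hnn hZ2
    intro z hz
    obtain ⟨hzO, hz1, hz2⟩ := hZ1 z hz
    have hjs : 0 < j * sq d r := mul_pos hjp hsq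
    have hz1' : j * sq d r / 2 ≤ φ z := by linarith
    have hdj : 0 < (d : ℝ) * (j * sq d r) := by positivity
    have hz2' : φ z ≤ 4 * d * j * sq d r := by nlinarith
    have hzF : z ∈ F := Finset.mem_filter.mpr ⟨hzO, hz1', hz2'⟩
    -- single point
    have single : ∀ y0, y0 ∉ O → kap d (td z y0) ≤ 12 * Ce → ∃ S : Finset (Tor d L), S ⊆ F ∧
        (∀ x ∈ S, Function.update x i 0 = Function.update z i 0) ∧
        cw / (12 * Ce) ≤ ∑ x ∈ S, (lam O - lam (O.erase x)) / φ x ^ 2 := by
      intro y0 hy0 hk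
      refine ⟨{z}, by simpa using hzF, by simp, ?_⟩
      rw [Finset.sum_singleton]
      refine le_trans ?_ (hW z hzO y0 hy0 hz1' hz2')
      have hkp : 0 < kap d (td z y0) := by
        unfold kap
        split_ifs
        · have : 0 ≤ Real.log (1 + (td z y0 : ℝ)) := Real.log_nonneg (by
            have : (0 : ℝ) ≤ (td z y0 : ℝ) := Nat.cast_nonneg _
            linarith)
          linarith
        · norm_num
      exact div_le_div_of_nonneg_left hcw.le hkp hk
    by_cases hd2 : d = 2
    swap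
    · apply single y00 hy00
      unfold kap
      rw [if_neg hd2]
      linarith
    subst hd2
    -- nearest point of the complement
    obtain ⟨y0, hy0m, hy0min⟩ := Finset.exists_min_image Oᶜ (fun y0 => td z y0)
      ⟨y00, Finset.mem_compl.mpr hy00⟩
    have hy0 : y0 ∉ O := Finset.mem_compl.mp hy0m
    set D := td z y0 with hD
    have hDL : D ≤ L / 2 := FOR_.td_half z y0
    have hball : ∀ x, td x z < D → x ∈ O := by
      intro x hx
      by_contra hxO
      have h1 := hy0min x (Finset.mem_compl.mpr hxO)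
      have h2 := FOR_.td_comm z x
      omega
    by_cases hD8 : D < 8
    · apply single y0 hy0
      rw [← hD]
      unfold kap
      rw [if_pos rfl]
      have h1 : Real.log (1 + (D : ℝ)) ≤ (1 + (D : ℝ)) - 1 := Real.log_le_sub_one_of_pos (by positivity)
      have h2 : (D : ℝ) ≤ 7 := by exact_mod_cast (by omega : D ≤ 7)
      linarith
    push Not at hD8
    set D' := D / 4 with hD'
    have hD'2 : 2 ≤ D' := by omega
    have hD'p : (2 : ℝ) ≤ D' := by exact_mod_cast hD'2
    have hlog : 0 < Real.log D' := Real.log_pos (by linarith)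
    set K := ⌊Real.log D' / (2 * Ce)⌋₊ with hK
    have hKle : (K : ℝ) ≤ Real.log D' / (2 * Ce) := Nat.floor_le (by positivity)
    have hKlt : Real.log D' / (2 * Ce) < K + 1 := Nat.lt_floor_add_one _
    have hKD : K ≤ D' := by
      have h1 : Real.log D' ≤ (D' : ℝ) - 1 := Real.log_le_sub_one_of_pos (by linarith)
      have h2 : Real.log D' / (2 * Ce) ≤ Real.log D' := by
        rw [div_le_iff₀ (by positivity)]
        nlinarith
      have h3 : (K : ℝ) ≤ D' := by linarith
      exact_mod_cast h3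
    have hch := FOR_.chain (L := L) Ce hCep (by
        intro D1 φ1 v0 a1 a2 a3 a4 i1
        have h1 := hesc0 L D1 φ1 v0 a1 a2 a3 a4 i1
        have hl : 0 < Real.log D1 := Real.log_pos (by exact_mod_cast (by omega : 1 < D1))
        have h2 : (1 - Ce / Real.log D1) * φ1 v0 ≤ (1 - Ce0 / Real.log D1) * φ1 v0 := by
          apply mul_le_mul_of_nonneg_right _ (a3 v0)
          have := div_le_div_of_nonneg_right hCe00 hl.le
          linarith
        exact ⟨le_trans h2 h1.1, le_trans h2 h1.2⟩) O φ z i D' K hD'2 (by omega) hEF.top.nn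
      (by
        intro x hx
        rw [hEF.top.eq x hx]
        have h1 := (hvar O).2.2.1
        have h2 := hEF.top.nn x
        nlinarith)
      (by
        intro x hx
        apply hball
        omega)
      hKD
      (by
        have h1 : (K : ℝ) * (Ce / Real.log D') ≤ Real.log D' / (2 * Ce) * (Ce / Real.log D') :=
          mul_le_mul_of_nonneg_right hKle (by positivity)
        have h2 : Real.log D' / (2 * Ce) * (Ce / Real.log D') = 1 / 2 := by
          field_simp
        linarith)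
    have hhalf : ∀ k : ℕ, k ≤ K → φ z / 2 ≤ φ (z + k • ev i) ∧ φ (z + k • ev i) ≤ 2 * φ z := by
      intro k hk
      obtain ⟨h1, h2⟩ := hch k hk
      have h3 : (k : ℝ) * (Ce / Real.log D') ≤ 1 / 2 := by
        have h4 : (k : ℝ) * (Ce / Real.log D') ≤ Real.log D' / (2 * Ce) * (Ce / Real.log D') := by
          apply mul_le_mul_of_nonneg_right _ (by positivity)
          have : (k : ℝ) ≤ K := by exact_mod_cast hk
          linarith
        have h5 : Real.log D' / (2 * Ce) * (Ce / Real.log D') = 1 / 2 := by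
          field_simp
        linarith
      have h6 := hEF.top.nn z
      have h7 := hEF.top.nn (z + k • ev i)
      constructor
      · nlinarith
      · nlinarith
    have hinO : ∀ k : ℕ, k ≤ K → z + k • ev i ∈ O := by
      intro k hk
      apply hball
      have := FOR_.td_step z i k (by omega)
      omega
    refine ⟨(Finset.range (K + 1)).image (fun k => z + k • ev i), ?_, ?_, ?_⟩
    · intro x hx
      obtain ⟨k, hk, rfl⟩ := Finset.mem_image.mp hx
      have hk' : k ≤ K := by
        have := Finset.mem_range.mp hk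
        omega
      obtain ⟨h1, h2⟩ := hhalf k hk'
      refine Finset.mem_filter.mpr ⟨hinO k hk', by linarith, ?_⟩
      push_cast at hz2 ⊢
      linarith
    · intro x hx
      obtain ⟨k, _, rfl⟩ := Finset.mem_image.mp hx
      exact FOR_.upd z i k
    · rw [Finset.sum_image (by
        intro k hk k' hk' h
        have h1 := Finset.mem_range.mp hk
        have h2 := Finset.mem_range.mp hk'
        exact FOR_.inj z i k k' (by omega) (by omega) h)]
      have hterm : ∀ k ∈ Finset.range (K + 1), cw / (6 * Real.log D') ≤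
          (lam O - lam (O.erase (z + k • ev i))) / φ (z + k • ev i) ^ 2 := by
        intro k hk
        have hk' : k ≤ K := by
          have := Finset.mem_range.mp hk
          omega
        obtain ⟨h1, h2⟩ := hhalf k hk'
        refine le_trans ?_ (hW (z + k • ev i) (hinO k hk') y0 hy0 (by linarith) ?_)
        · have h3 : td (z + k • ev i) y0 ≤ 5 * D' + 3 := by
            have h4 := FOR_.td_tri (z + k • ev i) z y0
            have h5 := FOR_.td_step z i k (by omega)
            omega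
          have h6 := FOR_.kap_le D' _ hD'2 h3
          have hkp : 0 < kap 2 (td (z + k • ev i) y0 : ℝ) := by
            unfold kap
            rw [if_pos rfl]
            have : 0 ≤ Real.log (1 + (td (z + k • ev i) y0 : ℝ)) := Real.log_nonneg (by
              have : (0 : ℝ) ≤ (td (z + k • ev i) y0 : ℝ) := Nat.cast_nonneg _
              linarith)
            linarith
          exact div_le_div_of_nonneg_left hcw.le hkp h6
        · push_cast at hz2 ⊢
          linarith
      have hsum := Finset.sum_le_sum hterm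
      rw [Finset.sum_const, Finset.card_range, nsmul_eq_mul] at hsum
      refine le_trans ?_ hsum
      push_cast
      have h1 : Real.log D' / (2 * Ce) * (cw / (6 * Real.log D')) = cw / (12 * Ce) := by
        field_simp
        norm_num
      rw [← h1]
      exact mul_le_mul_of_nonneg_right hKlt.le (by positivity)
  calc cw / (12 * Ce) * c1 * r ^ (d - 1) = cw / (12 * Ce) * (c1 * r ^ (d - 1)) := by ring
    _ ≤ cw / (12 * Ce) * Z.card := mul_le_mul_of_nonneg_left hZ3 (by positivity)
    _ ≤ _ := key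

end Pool.Agent.LBL
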