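import Pool.Agent.LBL.Targets3

set_option autoImplicit false

/-!
# LBL: T_FRC, total force
-/

open Finset
open scoped Classical

namespace Pool.Agent.LBL

noncomputable section

namespace FRC_

/-- the numerical part -/
theorem num (d C a η r μ S f s L : ℝ) (hd : 1 ≤ d) (hC : 1 ≤ C) (ha : 0 < a) (hη : 0 < η)
    (hr1 : 1 ≤ r) (hr2 : 16 * d ^ 2 * C ≤ r) (hr3 : 24 * d * C / (η * a) ≤ r)
    (hμ1 : a ≤ μ * r ^ 2) (hμ2 : μ * r ^ 2 ≤ C) (_ : 0 ≤ S) (hS : S ≤ C * r / η) (hf : 0 ≤ f)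
    (hs : s ≤ a / (16 * d ^ 2) / r ^ 2) (hL : r ^ 4 ≤ L)
    (h : μ ≤ S * (2 * d * f + 6 * d / L) + 2 * d ^ 2 * (μ ^ 2 + s)) :
    a * η / (4 * d * C) / r ^ 3 ≤ f := by
  have hr : 0 < r := by linarith
  have hL0 : 0 < L := lt_of_lt_of_le (by positivity) hL
  have hμ0 : 0 < μ := by
    by_contra hc
    have : μ * r ^ 2 ≤ 0 := mul_nonpos_of_nonpos_of_nonneg (not_lt.1 hc) (by positivity)
    linarith
  have hμa : a / r ^ 2 ≤ μ := by
    rw [div_le_iff₀ (by positivity)]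
    exact hμ1
  have e1 : 2 * d ^ 2 * μ ^ 2 ≤ μ / 8 := by
    have h1 : 16 * d ^ 2 * μ ≤ 1 := by
      have h2 : 16 * d ^ 2 * (μ * r ^ 2) ≤ r := by
        calc 16 * d ^ 2 * (μ * r ^ 2) ≤ 16 * d ^ 2 * C :=
              mul_le_mul_of_nonneg_left hμ2 (by positivity)
          _ ≤ r := hr2
      have h3 : r ≤ r ^ 2 := by nlinarith
      have h4 : (16 * d ^ 2 * μ) * r ^ 2 ≤ 1 * r ^ 2 := by
        calc (16 * d ^ 2 * μ) * r ^ 2 = 16 * d ^ 2 * (μ * r ^ 2) := by ring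
          _ ≤ r := h2
          _ ≤ 1 * r ^ 2 := by linarith
      exact le_of_mul_le_mul_right h4 (by positivity)
    have h5 : (16 * d ^ 2 * μ) * μ ≤ 1 * μ := mul_le_mul_of_nonneg_right h1 hμ0.le
    nlinarith
  have e2 : 2 * d ^ 2 * s ≤ μ / 8 := by
    have h1 : 2 * d ^ 2 * s ≤ 2 * d ^ 2 * (a / (16 * d ^ 2) / r ^ 2) :=
      mul_le_mul_of_nonneg_left hs (by positivity)
    have h2 : 2 * d ^ 2 * (a / (16 * d ^ 2) / r ^ 2) = a / r ^ 2 / 8 := by
      field_simp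
      ring
    rw [h2] at h1
    linarith
  have e3 : S * (6 * d / L) ≤ μ / 4 := by
    have h1 : S * (6 * d / L) ≤ (C * r / η) * (6 * d / r ^ 4) := by
      refine mul_le_mul hS ?_ (by positivity) (by positivity)
      exact div_le_div_of_nonneg_left (by positivity) (by positivity) hL
    have h2 : (C * r / η) * (6 * d / r ^ 4) = (24 * d * C / (η * a)) * (a / r ^ 2 / 4) / r := by
      field_simp
      ring
    have h3 : (24 * d * C / (η * a)) * (a / r ^ 2 / 4) / r ≤ r * (a / r ^ 2 / 4) / r := by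
      refine div_le_div_of_nonneg_right ?_ hr.le
      exact mul_le_mul_of_nonneg_right hr3 (by positivity)
    have h4 : r * (a / r ^ 2 / 4) / r = a / r ^ 2 / 4 := by
      field_simp
    rw [h4] at h3
    rw [h2] at h1
    linarith
  have e4 : μ / 2 ≤ S * (2 * d * f) := by
    have : S * (2 * d * f + 6 * d / L) = S * (2 * d * f) + S * (6 * d / L) := by ring
    rw [this] at h
    have h6 : 2 * d ^ 2 * (μ ^ 2 + s) = 2 * d ^ 2 * μ ^ 2 + 2 * d ^ 2 * s := by ring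
    rw [h6] at h
    linarith
  have e5 : S * (2 * d * f) ≤ (C * r / η) * (2 * d * f) :=
    mul_le_mul_of_nonneg_right hS (by positivity)
  have e6 : a / r ^ 2 / 2 ≤ (C * r / η) * (2 * d * f) := by linarith
  have e7 : a * η / (4 * d * C) / r ^ 3 = (a / r ^ 2 / 2) * (η / (2 * d * C * r)) := by
    field_simp
    ring
  have e8 : (C * r / η) * (2 * d * f) * (η / (2 * d * C * r)) = f := by
    field_simp
  rw [e7, ← e8]
  exact mul_le_mul_of_nonneg_right e6 (by positivity)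

end FRC_

theorem p_FRC (h_GNS : T_GNS) (h_FID : T_FID) (h_THN : T_THN) : T_FRC := by
  intro d C a hd hC ha
  have hdR : (1 : ℝ) ≤ d := by
    have : 1 ≤ d := by omega
    exact_mod_cast this
  have hd0 : (0 : ℝ) < d := by linarith
  obtain ⟨η, r1, hη, hr1, hthn⟩ := h_THN d C (1 / (2 * d)) hd hC (by positivity)
  refine ⟨a * η / (4 * d * C), max r1 (max 3 (max (16 * d ^ 2 * C)
    (max ((16 * d ^ 2 / a) ^ 2) (24 * d * C / (η * a))))), by positivity,
    lt_of_lt_of_le hr1 (le_max_left _ _), ?_⟩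
  intro r L _ hr hL O φ hE hμ1 hsum
  have hra : r1 ≤ r := (le_max_left _ _).trans hr
  have hr' := (le_max_right _ _).trans hr
  have hrb : 3 ≤ r := (le_max_left _ _).trans hr'
  have hr'' := (le_max_right _ _).trans hr'
  have hrc : 16 * (d : ℝ) ^ 2 * C ≤ r := (le_max_left _ _).trans hr''
  have hr''' := (le_max_right _ _).trans hr''
  have hrd : (16 * (d : ℝ) ^ 2 / a) ^ 2 ≤ r := (le_max_left _ _).trans hr'''
  have hre : 24 * d * C / (η * a) ≤ r := (le_max_right _ _).trans hr'''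
  have hrp : 0 < r := by linarith
  have hr1' : 1 ≤ r := by linarith
  have hL4 : r ^ 4 ≤ (L : ℝ) := (pow_le_pow_right₀ hr1' (by omega)).trans hL
  have hL3 : 3 ≤ L := by
    have h1 : (3 : ℝ) ≤ L := by
      calc (3 : ℝ) ≤ r := hrb
        _ = r ^ 1 := (pow_one r).symm
        _ ≤ r ^ 4 := pow_le_pow_right₀ hr1' (by omega)
        _ ≤ L := hL4
    exact_mod_cast h1
  obtain ⟨hg1, hg2, i, hi⟩ := h_GNS d L (by omega) O φ hE.top
  refine ⟨i, ?_⟩
  set μ : ℝ := 1 - lam O with hμ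
  set Th : Finset (ZMod L) := Finset.univ.filter (fun h : ZMod L =>
    ((Finset.univ.filter fun x : Tor d L =>
      x i = h ∧ hh d r * r ^ (-(3 : ℝ) / 2) < φ x).card : ℝ) ≤ η * r ^ (d - 1)) with hTh
  have hthin := hthn r L hra hL O φ hE i
  rw [← hTh] at hthin
  have hμ0 : 0 ≤ μ := by
    by_contra hc
    have : μ * r ^ 2 ≤ 0 := mul_nonpos_of_nonpos_of_nonneg (not_le.1 hc).le (by positivity)
    linarith
  -- thin layers
  have hthin2 : ∑ h ∈ Th, gn i φ h ≤ μ := by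
    calc ∑ h ∈ Th, gn i φ h ≤ ∑ h ∈ Th, 2 * d * μ *
          ∑ x ∈ Finset.univ.filter (fun x : Tor d L => x i = h), φ x ^ 2 :=
            Finset.sum_le_sum fun h _ => hg2 i h
      _ = 2 * d * μ * ∑ h ∈ Th,
          ∑ x ∈ Finset.univ.filter (fun x : Tor d L => x i = h), φ x ^ 2 := by
            rw [Finset.mul_sum]
      _ ≤ 2 * d * μ * (1 / (2 * d)) := mul_le_mul_of_nonneg_left hthin (by positivity)
      _ = μ := by field_simp
  have hSsum : μ ≤ ∑ h ∈ Thᶜ, gn i φ h := by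
    have h1 := Finset.sum_add_sum_compl Th (gn i φ)
    rw [hg1 i] at h1
    linarith
  -- number of layers
  have hcard : ((Thᶜ).card : ℝ) ≤ C * r / η := by
    have h1 : ∀ h ∈ Thᶜ, η * r ^ (d - 1) ≤ ((Finset.univ.filter fun x : Tor d L =>
        x i = h ∧ hh d r * r ^ (-(3 : ℝ) / 2) < φ x).card : ℝ) := by
      intro h hh'
      rw [Finset.mem_compl, hTh, Finset.mem_filter] at hh'
      by_contra hc
      exact hh' ⟨Finset.mem_univ _, (not_le.1 hc).le⟩
    have h2 : ∑ h ∈ Thᶜ, ((Finset.univ.filter fun x : Tor d L =>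
        x i = h ∧ hh d r * r ^ (-(3 : ℝ) / 2) < φ x).card : ℝ) ≤
        ((Finset.univ.filter fun x : Tor d L =>
          hh d r * r ^ (-(3 : ℝ) / 2) < φ x).card : ℝ) := by
      have h3 : (Finset.univ.filter fun x : Tor d L =>
          hh d r * r ^ (-(3 : ℝ) / 2) < φ x).card =
          ∑ h : ZMod L, (Finset.univ.filter fun x : Tor d L =>
            x i = h ∧ hh d r * r ^ (-(3 : ℝ) / 2) < φ x).card := by
        rw [Finset.card_eq_sum_card_fiberwise (f := fun x : Tor d L => x i) (t := Finset.univ)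
          (fun x _ => Finset.mem_coe.2 (Finset.mem_univ _))]
        refine Finset.sum_congr rfl fun h _ => ?_
        congr 1
        ext x
        simp only [Finset.mem_filter, Finset.mem_univ, true_and]
        exact and_comm
      rw [h3, Nat.cast_sum]
      exact Finset.sum_le_sum_of_subset_of_nonneg (Finset.subset_univ _)
        fun h _ _ => Nat.cast_nonneg _
    have h4 : ((Thᶜ).card : ℝ) * (η * r ^ (d - 1)) ≤ C * r ^ d := by
      calc ((Thᶜ).card : ℝ) * (η * r ^ (d - 1)) = ∑ h ∈ Thᶜ, η * r ^ (d - 1) := by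
            rw [Finset.sum_const, nsmul_eq_mul]
        _ ≤ _ := Finset.sum_le_sum h1
        _ ≤ _ := h2
        _ ≤ C * r ^ d := hE.lev
    have h5 : r ^ d = r * r ^ (d - 1) := by
      rw [← pow_succ']
      congr 1
      omega
    have h6 : ((Thᶜ).card : ℝ) * η * r ^ (d - 1) ≤ C * r * r ^ (d - 1) := by
      rw [h5] at h4
      linarith
    rw [le_div_iff₀ hη]
    exact le_of_mul_le_mul_right h6 (by positivity)
  -- force identity
  have hfid := h_FID d L hd hL3 O φ hE.top i Thᶜ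
  have hsq : ∑ x, (2 * d * (φ x - P0 φ x)) ^ 2 =
      4 * d ^ 2 * (μ ^ 2 + ∑ y ∈ Oᶜ, (P0 φ y) ^ 2) := by
    rw [← Finset.sum_add_sum_compl O fun x => (2 * d * (φ x - P0 φ x)) ^ 2]
    have h1 : ∑ x ∈ O, (2 * d * (φ x - P0 φ x)) ^ 2 = 4 * d ^ 2 * μ ^ 2 := by
      have h2 : ∀ x ∈ O, (2 * d * (φ x - P0 φ x)) ^ 2 = 4 * d ^ 2 * μ ^ 2 * φ x ^ 2 := by
        intro x hx
        rw [hE.top.eq x hx, hμ]
        ring
      rw [Finset.sum_congr rfl h2, ← Finset.mul_sum, hE.top.nm, mul_one]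
    have h3 : ∑ x ∈ Oᶜ, (2 * d * (φ x - P0 φ x)) ^ 2 =
        4 * d ^ 2 * ∑ y ∈ Oᶜ, (P0 φ y) ^ 2 := by
      rw [Finset.mul_sum]
      refine Finset.sum_congr rfl fun x hx => ?_
      rw [hE.top.sp x (Finset.mem_compl.1 hx)]
      ring
    rw [h1, h3]
    ring
  have hf0 : 0 ≤ fc O i φ := by
    unfold fc fo
    refine Finset.sum_nonneg fun y _ => mul_nonneg ?_ (abs_nonneg _)
    unfold P0
    exact div_nonneg (Finset.sum_nonneg fun j _ => add_nonneg (hE.top.nn _) (hE.top.nn _))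
      (by positivity)
  have hs : r ^ (-(5 : ℝ) / 2) ≤ a / (16 * d ^ 2) / r ^ 2 := by
    have h1 : r ^ (-(5 : ℝ) / 2) = (Real.sqrt r)⁻¹ / r ^ 2 := by
      rw [show (-(5 : ℝ) / 2) = -(1 / 2) - (2 : ℕ) by norm_num, Real.rpow_sub_natCast hrp.ne',
        Real.rpow_neg hrp.le, ← Real.sqrt_eq_rpow]
    have h2 : 16 * (d : ℝ) ^ 2 / a ≤ Real.sqrt r := by
      rw [← Real.sqrt_sq (by positivity : 0 ≤ 16 * (d : ℝ) ^ 2 / a)]
      exact Real.sqrt_le_sqrt hrd
    have h3 : (Real.sqrt r)⁻¹ ≤ a / (16 * d ^ 2) := by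
      rw [← inv_div]
      exact inv_anti₀ (by positivity) h2
    rw [h1]
    exact div_le_div_of_nonneg_right h3 (by positivity)
  have hmain : μ ≤ ((Thᶜ).card : ℝ) * (2 * d * fc O i φ + 6 * d / L) +
      2 * d ^ 2 * (μ ^ 2 + r ^ (-(5 : ℝ) / 2)) := by
    rw [hsq] at hfid
    have h1 : (1 / 2 : ℝ) * (4 * d ^ 2 * (μ ^ 2 + ∑ y ∈ Oᶜ, (P0 φ y) ^ 2)) ≤
        2 * d ^ 2 * (μ ^ 2 + r ^ (-(5 : ℝ) / 2)) := by
      have h2 : 2 * (d : ℝ) ^ 2 * (μ ^ 2 + ∑ y ∈ Oᶜ, (P0 φ y) ^ 2) ≤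
          2 * d ^ 2 * (μ ^ 2 + r ^ (-(5 : ℝ) / 2)) :=
        mul_le_mul_of_nonneg_left (by linarith) (by positivity)
      linarith
    linarith
  have key := FRC_.num d C a η r μ (Thᶜ).card (fc O i φ) (r ^ (-(5 : ℝ) / 2)) L hdR hC ha hη hr1'
    hrc hre hμ1 hE.mu (Nat.cast_nonneg _) hcard hf0 hs hL4 hmain
  have h3 : r ^ (-(3 : ℝ)) = (r ^ 3)⁻¹ := by
    rw [Real.rpow_neg hrp.le]
    congr 1
    exact Real.rpow_natCast r 3
  rw [h3, ← div_eq_mul_inv]
  exact key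

end

end Pool.Agent.LBL
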