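import Pool.Agent.LBL.Targets1

/-!
# LBL: spectral gap (target `T_GAP`)
-/

set_option autoImplicit false

open Finset
open scoped Classical

namespace Pool.Agent.LBL

noncomputable section

/-- union bound for two events -/
lemma GAP_or (h_PRB : T_PRB) {X : Type} [Fintype X] [DecidableEq X] {p : ℝ} (hp : 0 < p)
    (hp1 : p < 1) (A B C : Finset X → Prop) (h : ∀ O, A O → B O ∨ C O) :
    pr p A ≤ pr p B + pr p C := by
  have h1 := (h_PRB X p hp hp1).2.2.2.1 Bool Finset.univ A (fun b => if b = true then B else C)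
    (by
      intro O hO
      rcases h O hO with h | h
      · exact ⟨true, Finset.mem_univ _, by simpa using h⟩
      · exact ⟨false, Finset.mem_univ _, by simpa using h⟩)
  simpa using h1

/-- counting pairs of disjoint open sets -/
lemma GAP_pairs (h_PRB : T_PRB) (h_CNT : T_CNT) {d L : ℕ} [NeZero L] (hd : 1 ≤ d) {p : ℝ}
    (hp : 0 < p) (hp1 : p < 1) (k vz : ℕ) (A : Finset (Tor d L) → Prop)
    (h : ∀ O, A O → ∃ V1 V2 : Finset (Tor d L), V1 ⊆ O ∧ V2 ⊆ O ∧ Disjoint V1 V2 ∧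
      (bd V1).card ≤ k ∧ (bd V2).card ≤ k ∧ vz ≤ V1.card ∧ vz ≤ V2.card) :
    pr p A ≤ (2 * ((d : ℝ) * (L : ℝ) ^ d + 1) ^ k) ^ 2 * p ^ (2 * vz) := by
  set S : Finset (Finset (Tor d L)) := univ.filter fun V : Finset (Tor d L) => (bd V).card ≤ k
    with hS
  set s : Finset (Finset (Tor d L) × Finset (Tor d L)) :=
    (S ×ˢ S).filter fun q => Disjoint q.1 q.2 ∧ vz ≤ q.1.card ∧ vz ≤ q.2.card with hs
  have h1 := (h_PRB (Tor d L) p hp hp1).2.2.2.1 (Finset (Tor d L) × Finset (Tor d L)) s A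
    (fun q O => q.1 ∪ q.2 ⊆ O) (by
      intro O hO
      obtain ⟨V1, V2, a1, a2, a3, a4, a5, a6, a7⟩ := h O hO
      refine ⟨(V1, V2), ?_, Finset.union_subset a1 a2⟩
      rw [hs, Finset.mem_filter, Finset.mem_product, hS, Finset.mem_filter, Finset.mem_filter]
      exact ⟨⟨⟨Finset.mem_univ _, a4⟩, ⟨Finset.mem_univ _, a5⟩⟩, a3, a6, a7⟩)
  have h2 : ∀ q ∈ s, pr p (fun O : Finset (Tor d L) => q.1 ∪ q.2 ⊆ O) ≤ p ^ (2 * vz) := by
    intro q hq
    rw [(h_PRB (Tor d L) p hp hp1).2.2.2.2]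
    rw [hs, Finset.mem_filter] at hq
    obtain ⟨-, h3, h4, h5⟩ := hq
    rw [Finset.card_union_of_disjoint h3]
    exact pow_le_pow_of_le_one hp.le hp1.le (by omega)
  have h3 : (s.card : ℝ) ≤ (S.card : ℝ) ^ 2 := by
    have : s.card ≤ S.card ^ 2 := by
      calc s.card ≤ (S ×ˢ S).card := Finset.card_filter_le _ _
        _ = S.card ^ 2 := by rw [Finset.card_product]; ring
    exact_mod_cast this
  have h4 : (S.card : ℝ) ≤ 2 * ((d : ℝ) * (L : ℝ) ^ d + 1) ^ k := by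
    have := h_CNT d L k hd
    exact_mod_cast this
  have h5 : (0 : ℝ) ≤ p ^ (2 * vz) := by positivity
  calc pr p A ≤ ∑ q ∈ s, pr p (fun O : Finset (Tor d L) => q.1 ∪ q.2 ⊆ O) := h1
    _ ≤ ∑ _q ∈ s, p ^ (2 * vz) := Finset.sum_le_sum h2
    _ = s.card * p ^ (2 * vz) := by rw [Finset.sum_const, nsmul_eq_mul]
    _ ≤ (S.card : ℝ) ^ 2 * p ^ (2 * vz) := mul_le_mul_of_nonneg_right h3 h5
    _ ≤ (2 * ((d : ℝ) * (L : ℝ) ^ d + 1) ^ k) ^ 2 * p ^ (2 * vz) := by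
        refine mul_le_mul_of_nonneg_right ?_ h5
        exact pow_le_pow_left₀ (Nat.cast_nonneg _) h4 2

/-- the entropy factor -/
lemma GAP_ent {d K0 L : ℕ} {r C1 κ : ℝ} (hr : 1 ≤ r) (hd : 1 ≤ d) (hC1 : 0 < C1) (hκ : 0 < κ)
    (hL : (L : ℝ) ≤ r ^ K0) (h1 : 8 / κ ≤ r)
    (h2 : (8 * C1 * ((d : ℝ) + 8 * (K0 * d)) / κ) ^ 8 ≤ r) :
    (2 * ((d : ℝ) * (L : ℝ) ^ d + 1) ^ ⌊C1 * r ^ ((d : ℝ) - 1 / 4)⌋₊) ^ 2 ≤
      Real.exp (κ / 2 * r ^ d) := by
  have hr0 : 0 < r := by linarith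
  set k := ⌊C1 * r ^ ((d : ℝ) - 1 / 4)⌋₊ with hk
  set D : ℝ := (d : ℝ) + 8 * (K0 * d) with hD
  have hD0 : 0 < D := by
    have : (1 : ℝ) ≤ d := by exact_mod_cast hd
    positivity
  have hkle : (k : ℝ) ≤ C1 * r ^ ((d : ℝ) - 1 / 4) := Nat.floor_le (by positivity)
  have hLd : (L : ℝ) ^ d ≤ r ^ (K0 * d) := by
    rw [pow_mul]
    exact pow_le_pow_left₀ (Nat.cast_nonneg _) hL d
  have hone : (1 : ℝ) ≤ r ^ (K0 * d) := one_le_pow₀ hr
  have hN : (d : ℝ) * (L : ℝ) ^ d + 1 ≤ ((d : ℝ) + 1) * r ^ (K0 * d) := by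
    have : (d : ℝ) * (L : ℝ) ^ d ≤ d * r ^ (K0 * d) :=
      mul_le_mul_of_nonneg_left hLd (Nat.cast_nonneg _)
    linarith
  have hNpos : (0 : ℝ) < (d : ℝ) * (L : ℝ) ^ d + 1 := by positivity
  have hlog : Real.log ((d : ℝ) * (L : ℝ) ^ d + 1) ≤ D * r ^ ((1 : ℝ) / 8) := by
    have e1 : Real.log ((d : ℝ) * (L : ℝ) ^ d + 1) ≤
        Real.log ((d : ℝ) + 1) + (K0 * d : ℕ) * Real.log r := by
      calc Real.log ((d : ℝ) * (L : ℝ) ^ d + 1) ≤ Real.log (((d : ℝ) + 1) * r ^ (K0 * d)) :=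
            Real.log_le_log hNpos hN
        _ = Real.log ((d : ℝ) + 1) + (K0 * d : ℕ) * Real.log r := by
            rw [Real.log_mul (by positivity) (by positivity), Real.log_pow]
    have e2 : Real.log ((d : ℝ) + 1) ≤ d := by
      have := Real.log_le_sub_one_of_pos (show (0 : ℝ) < (d : ℝ) + 1 by positivity)
      linarith
    have e3 : Real.log r ≤ 8 * r ^ ((1 : ℝ) / 8) := by
      have := Real.log_le_rpow_div hr0.le (show (0 : ℝ) < 1 / 8 by norm_num)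
      linarith
    have e4 : (1 : ℝ) ≤ r ^ ((1 : ℝ) / 8) := Real.one_le_rpow hr (by norm_num)
    have e5 : ((K0 * d : ℕ) : ℝ) * Real.log r ≤ (K0 * d) * (8 * r ^ ((1 : ℝ) / 8)) := by
      push_cast
      exact mul_le_mul_of_nonneg_left e3 (by positivity)
    have e6 : (d : ℝ) ≤ d * r ^ ((1 : ℝ) / 8) := le_mul_of_one_le_right (Nat.cast_nonneg _) e4
    calc Real.log ((d : ℝ) * (L : ℝ) ^ d + 1) ≤ d * r ^ ((1 : ℝ) / 8) +
          (K0 * d) * (8 * r ^ ((1 : ℝ) / 8)) := by linarith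
      _ = D * r ^ ((1 : ℝ) / 8) := by rw [hD]; ring
  have hrd : r ≤ r ^ d := by
    calc r = r ^ 1 := (pow_one r).symm
      _ ≤ r ^ d := pow_le_pow_right₀ hr hd
  have hsplit : r ^ ((d : ℝ) - 1 / 4) * r ^ ((1 : ℝ) / 8) * r ^ ((1 : ℝ) / 8) = r ^ d := by
    rw [← Real.rpow_add hr0, ← Real.rpow_add hr0, ← Real.rpow_natCast]
    congr 1
    ring
  have hr8 : 8 * C1 * D / κ ≤ r ^ ((1 : ℝ) / 8) := by
    have e1 : 0 ≤ 8 * C1 * D / κ := by positivity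
    calc 8 * C1 * D / κ = ((8 * C1 * D / κ) ^ 8) ^ ((1 : ℝ) / 8) := by
          rw [← Real.rpow_natCast, ← Real.rpow_mul e1]
          norm_num
      _ ≤ r ^ ((1 : ℝ) / 8) := Real.rpow_le_rpow (by positivity) h2 (by norm_num)
  have hlog2 : Real.log 2 ≤ 1 := by
    have := Real.log_le_sub_one_of_pos (show (0 : ℝ) < 2 by norm_num)
    linarith
  have hmain : 2 * Real.log 2 + 2 * (k * Real.log ((d : ℝ) * (L : ℝ) ^ d + 1)) ≤
      κ / 2 * r ^ d := by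
    have f1 : 2 * Real.log 2 ≤ κ / 4 * r ^ d := by
      have g1 : 8 ≤ κ * r := by
        rw [div_le_iff₀ hκ] at h1
        linarith
      have g2 : κ * r ≤ κ * r ^ d := mul_le_mul_of_nonneg_left hrd hκ.le
      linarith
    have f2 : (k : ℝ) * Real.log ((d : ℝ) * (L : ℝ) ^ d + 1) ≤
        C1 * r ^ ((d : ℝ) - 1 / 4) * (D * r ^ ((1 : ℝ) / 8)) := by
      have g0 : 0 ≤ Real.log ((d : ℝ) * (L : ℝ) ^ d + 1) := Real.log_nonneg (by
        have : (0 : ℝ) ≤ (d : ℝ) * (L : ℝ) ^ d := by positivity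
        linarith)
      exact mul_le_mul hkle hlog g0 (by positivity)
    have f3 : 8 * (C1 * r ^ ((d : ℝ) - 1 / 4) * (D * r ^ ((1 : ℝ) / 8))) ≤ κ * r ^ d := by
      rw [div_le_iff₀ hκ] at hr8
      have g1 : 0 ≤ r ^ ((d : ℝ) - 1 / 4) * r ^ ((1 : ℝ) / 8) := by positivity
      calc 8 * (C1 * r ^ ((d : ℝ) - 1 / 4) * (D * r ^ ((1 : ℝ) / 8))) =
            (r ^ ((d : ℝ) - 1 / 4) * r ^ ((1 : ℝ) / 8)) * (8 * C1 * D) := by ring
        _ ≤ (r ^ ((d : ℝ) - 1 / 4) * r ^ ((1 : ℝ) / 8)) * (r ^ ((1 : ℝ) / 8) * κ) :=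
            mul_le_mul_of_nonneg_left hr8 g1
        _ = κ * (r ^ ((d : ℝ) - 1 / 4) * r ^ ((1 : ℝ) / 8) * r ^ ((1 : ℝ) / 8)) := by ring
        _ = κ * r ^ d := by rw [hsplit]
    linarith
  have hpos : (0 : ℝ) < (2 * ((d : ℝ) * (L : ℝ) ^ d + 1) ^ k) ^ 2 := by positivity
  rw [← Real.log_le_iff_le_exp hpos, Real.log_pow, Real.log_mul (by norm_num) (by positivity),
    Real.log_pow]
  push_cast
  linarith

/-- Spectral gap. -/
theorem p_GAP (h_TOP : T_TOP) (h_NOD : T_NOD) (h_PRB : T_PRB) (h_HMO : T_HMO) (h_GDE : T_GDE)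
    (h_LEV : T_LEV) (h_CNT : T_CNT) (h_VLO : T_VLO) (h_VUP : T_VUP) (h_VCT : T_VCT)
    (h_GOO : T_GOO) (h_LDP : T_LDP) : T_GAP := by
  intro d K0 p a A hd hK0 hp hp1 ha haA
  have hA : 0 < A := lt_of_lt_of_le ha haA
  obtain ⟨C', r1, hC', hr1, hGOO⟩ := h_GOO d K0 p a hd hK0 hp hp1 ha
  obtain ⟨C, r2, hC, hr2, hGDE⟩ := h_GDE d K0 p (A + 1) C' hd hK0 hp hp1 (by linarith) hC'
  obtain ⟨C1, r3, hC1, hr3, hLEV⟩ := h_LEV d C hd hC
  obtain ⟨C2, r4, hC2, hr4, hVCT⟩ := h_VCT d K0 a (A + 2) hd hK0 ha (by linarith)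
  obtain ⟨c0, hc0, hVLO⟩ := h_VLO d hd
  obtain ⟨Cu, hCu, hVUP⟩ := h_VUP d hd
  obtain ⟨Cl, r5, hCl, hr5, hLDP⟩ := h_LDP d K0 p a A 1 hd hK0 hp hp1 ha haA one_pos
  set cv : ℝ := c0 * (A ^ (-(1 : ℝ) / 2)) ^ d with hcv
  have hcv0 : 0 < cv := by positivity
  set κ : ℝ := cv / 2 * (-Real.log p) with hκ
  have hlp : Real.log p < 0 := Real.log_neg hp hp1
  have hκ0 : 0 < κ := mul_pos (by positivity) (by linarith)
  set δ : ℝ := min 1 (cv / (8 * C2)) with hδ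
  have hδ0 : 0 < δ := lt_min one_pos (by positivity)
  have hδ1 : δ ≤ 1 := min_le_left _ _
  have hδ2 : C2 * δ ≤ cv / 8 := by
    have : δ ≤ cv / (8 * C2) := min_le_right _ _
    rw [le_div_iff₀ (by positivity)] at this
    linarith
  set m : ℝ := min (κ / 2) 1 with hm
  have hm0 : 0 < m := lt_min (by positivity) one_pos
  have ev : ∀ᶠ r : ℝ in Filter.atTop, r1 ≤ r ∧ r2 ≤ r ∧ r3 ≤ r ∧ r4 ≤ r ∧ r5 ≤ r ∧ C1 ≤ r ∧
      C2 * (C1 + 1) * 8 / cv ≤ r ∧ A + 1 ≤ r ∧ A ^ (-(1 : ℝ) / 2) ≤ r ∧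
      Cu * (a ^ (-(1 : ℝ) / 2) + 1) ≤ r ∧ 8 / κ ≤ r ∧
      (8 * C1 * ((d : ℝ) + 8 * (K0 * d)) / κ) ^ 8 ≤ r ∧ 2 / m ≤ r := by
    filter_upwards [Filter.eventually_ge_atTop r1, Filter.eventually_ge_atTop r2,
      Filter.eventually_ge_atTop r3, Filter.eventually_ge_atTop r4,
      Filter.eventually_ge_atTop r5, Filter.eventually_ge_atTop C1,
      Filter.eventually_ge_atTop (C2 * (C1 + 1) * 8 / cv), Filter.eventually_ge_atTop (A + 1),
      Filter.eventually_ge_atTop (A ^ (-(1 : ℝ) / 2)),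
      Filter.eventually_ge_atTop (Cu * (a ^ (-(1 : ℝ) / 2) + 1)),
      Filter.eventually_ge_atTop (8 / κ),
      Filter.eventually_ge_atTop ((8 * C1 * ((d : ℝ) + 8 * (K0 * d)) / κ) ^ 8),
      Filter.eventually_ge_atTop (2 / m)] with r g1 g2 g3 g4 g5 g6 g7 g8 g9 g10 g11 g12 g13
    exact ⟨g1, g2, g3, g4, g5, g6, g7, g8, g9, g10, g11, g12, g13⟩
  obtain ⟨R, hR⟩ := Filter.eventually_atTop.1 ev
  refine ⟨δ, m / 2, max R 2, hδ0, by positivity, lt_of_lt_of_le (by norm_num) (le_max_right _ _),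
    ?_⟩
  intro r x L _ hr hRg hW
  obtain ⟨g1, g2, g3, g4, g5, g6, g7, g8, g9, g10, g11, g12, g13⟩ :=
    hR r ((le_max_left _ _).trans hr)
  have hr2' : (2 : ℝ) ≤ r := (le_max_right _ _).trans hr
  have hr1' : (1 : ℝ) ≤ r := by linarith
  have hr0 : (0 : ℝ) < r := by linarith
  have hd1 : 1 ≤ d := by omega
  obtain ⟨hW1, hW2⟩ := hW
  have hrr : 0 < r ^ 2 := by positivity
  have hrle : r ≤ r ^ 2 := by nlinarith
  have hL2 : r ^ 2 ≤ (L : ℝ) := le_trans (pow_le_pow_right₀ hr1' (by omega)) hRg.1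
  have hx1 : x ≤ 1 := by
    by_contra hx
    push Not at hx
    have : (1 - x) * r ^ 2 < 0 := mul_neg_of_neg_of_pos (by linarith) hrr
    linarith
  have hx0 : 0 < x := by
    by_contra hx
    push Not at hx
    have : r ^ 2 ≤ (1 - x) * r ^ 2 := le_mul_of_one_le_left hrr.le (by linarith)
    linarith
  set z : ℝ := x - δ / r ^ 2 - C1 * r ^ (-(7 : ℝ) / 2) with hz
  have hρ : r ^ (-(7 : ℝ) / 2) * r ^ 2 ≤ 1 / r := by
    rw [← Real.rpow_natCast r 2, ← Real.rpow_add hr0, one_div, ← Real.rpow_neg_one]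
    exact Real.rpow_le_rpow_of_exponent_le hr1' (by norm_num)
  have hρ0 : 0 < r ^ (-(7 : ℝ) / 2) := by positivity
  have hδr : δ / r ^ 2 * r ^ 2 = δ := by field_simp
  have hC1r : C1 * (1 / r) ≤ 1 := by
    rw [mul_one_div, div_le_one hr0]
    exact g6
  have hz2 : (1 - z) * r ^ 2 = (1 - x) * r ^ 2 + δ + C1 * (r ^ (-(7 : ℝ) / 2) * r ^ 2) := by
    rw [hz]
    linear_combination hδr
  have hWz : Win a (A + 2) r z := by
    have e1 : 0 ≤ C1 * (r ^ (-(7 : ℝ) / 2) * r ^ 2) := by positivity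
    have e2 : C1 * (r ^ (-(7 : ℝ) / 2) * r ^ 2) ≤ C1 * (1 / r) :=
      mul_le_mul_of_nonneg_left hρ hC1.le
    exact ⟨by rw [hz2]; linarith, by rw [hz2]; linarith⟩
  have hu : 0 ≤ x - z := by
    have : 0 ≤ δ / r ^ 2 := by positivity
    have : 0 ≤ C1 * r ^ (-(7 : ℝ) / 2) := by positivity
    rw [hz]
    linarith
  have hrdpos : 0 < r ^ d := by positivity
  -- volume of an optimal set
  have F1 : cv * r ^ d ≤ (vol d L x : ℝ) := by
    obtain ⟨V, hV, -⟩ := hVUP a r x L ha hW1 hr1' (by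
      have e1 : 0 < a ^ (-(1 : ℝ) / 2) := by positivity
      calc Cu * (r * a ^ (-(1 : ℝ) / 2) + 1) ≤ Cu * (r * a ^ (-(1 : ℝ) / 2) + r) := by
            refine mul_le_mul_of_nonneg_left ?_ hCu.le
            linarith
        _ = Cu * (a ^ (-(1 : ℝ) / 2) + 1) * r := by ring
        _ ≤ r * r := mul_le_mul_of_nonneg_right g10 hr0.le
        _ = r ^ 2 := by ring
        _ ≤ L := hL2)
    have hne : {n : ℕ | ∃ V : Finset (Tor d L), V.card = n ∧ x ≤ lam V}.Nonempty :=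
      ⟨V.card, V, rfl, hV⟩
    obtain ⟨W, hW, hWx⟩ := Nat.sInf_mem hne
    have := hVLO A r x L hr1' (by
      calc r * A ^ (-(1 : ℝ) / 2) ≤ r * r := mul_le_mul_of_nonneg_left g9 hr0.le
        _ = r ^ 2 := by ring
        _ ≤ L := hL2) hA hx0 hW2 W hWx
    rw [hW] at this
    calc cv * r ^ d = c0 * (r * A ^ (-(1 : ℝ) / 2)) ^ d := by rw [hcv, mul_pow]; ring
      _ ≤ (vol d L x : ℝ) := this
  have F2 : (vol d L x : ℝ) ≤ vol d L z + C2 * ((x - z) * r ^ (d + 2) + r ^ (d - 1)) := by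
    have := hVCT r z (x - z) L g4 hRg hWz hu (by
      rw [add_sub_cancel]
      exact ⟨hW1, by linarith⟩)
    rwa [add_sub_cancel] at this
  have F3 : (x - z) * r ^ (d + 2) + r ^ (d - 1) ≤ δ * r ^ d + (C1 + 1) / r * r ^ d := by
    have e1 : (x - z) * r ^ (d + 2) =
        δ * r ^ d + C1 * (r ^ (-(7 : ℝ) / 2) * r ^ 2) * r ^ d := by
      rw [pow_add, hz]
      linear_combination r ^ d * hδr
    have e2 : C1 * (r ^ (-(7 : ℝ) / 2) * r ^ 2) * r ^ d ≤ C1 * (1 / r) * r ^ d :=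
      mul_le_mul_of_nonneg_right (mul_le_mul_of_nonneg_left hρ hC1.le) hrdpos.le
    have e3 : r ^ (d - 1) = 1 / r * r ^ d := by
      obtain ⟨n, rfl⟩ : ∃ n, d = n + 1 := ⟨d - 1, by omega⟩
      rw [Nat.add_sub_cancel, pow_succ]
      field_simp
    have e4 : (C1 + 1) / r * r ^ d = C1 * (1 / r) * r ^ d + 1 / r * r ^ d := by ring
    rw [e1, e3, e4]
    linarith
  have F4 : (vol d L x : ℝ) + cv / 2 * r ^ d ≤ 2 * vol d L z := by
    have e1 : C2 * ((C1 + 1) / r) ≤ cv / 8 := by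
      rw [div_le_iff₀ hcv0] at g7
      rw [← mul_div_assoc, div_le_iff₀ hr0]
      linarith
    have e2 : C2 * ((x - z) * r ^ (d + 2) + r ^ (d - 1)) ≤ cv / 8 * r ^ d + cv / 8 * r ^ d := by
      calc C2 * ((x - z) * r ^ (d + 2) + r ^ (d - 1)) ≤
            C2 * (δ * r ^ d + (C1 + 1) / r * r ^ d) := mul_le_mul_of_nonneg_left F3 hC2.le
        _ = C2 * δ * r ^ d + C2 * ((C1 + 1) / r) * r ^ d := by ring
        _ ≤ cv / 8 * r ^ d + cv / 8 * r ^ d :=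
            add_le_add (mul_le_mul_of_nonneg_right hδ2 hrdpos.le)
              (mul_le_mul_of_nonneg_right e1 hrdpos.le)
    linarith
  have F5 : p ^ (2 * vol d L z) ≤ p ^ vol d L x * Real.exp (-κ * r ^ d) := by
    have e1 : ∀ n : ℕ, p ^ n = Real.exp (n * Real.log p) := by
      intro n
      rw [← Real.log_pow, Real.exp_log (by positivity)]
    rw [e1, e1, ← Real.exp_add]
    apply Real.exp_le_exp.2
    push_cast
    have e2 : (2 * (vol d L z : ℝ)) * Real.log p ≤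
        ((vol d L x : ℝ) + cv / 2 * r ^ d) * Real.log p :=
      mul_le_mul_of_nonpos_right F4 hlp.le
    calc 2 * (vol d L z : ℝ) * Real.log p ≤
          ((vol d L x : ℝ) + cv / 2 * r ^ d) * Real.log p := e2
      _ = (vol d L x : ℝ) * Real.log p + -κ * r ^ d := by rw [hκ]; ring
  have F6 := GAP_ent hr1' hd1 hC1 hκ0 hRg.2 g11 g12
  have F7 := (hLDP r x L g5 hRg ⟨hW1, hW2⟩).1
  -- the good event
  set k := ⌊C1 * r ^ ((d : ℝ) - 1 / 4)⌋₊ with hk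
  have G1 : pr p (fun O : Finset (Tor d L) => ¬ Sec O (x - δ / r ^ 2) ∧
      ((hol (mm d p K0 r) O).card : ℝ) ≤ C' * r ^ d) ≤
      (2 * ((d : ℝ) * (L : ℝ) ^ d + 1) ^ k) ^ 2 * p ^ (2 * vol d L z) := by
    apply GAP_pairs h_PRB h_CNT hd1 hp hp1
    rintro O ⟨hO, hO'⟩
    obtain ⟨U1, U2, u1, u2, u3, u4, u5, u6, u7⟩ := h_NOD d (ZMod L) O _ hd1 hO
    have key : ∀ U : Finset (Tor d L), U ⊆ O → U.Nonempty → x - δ / r ^ 2 ≤ lam U →
        ∃ V : Finset (Tor d L), V ⊆ U ∧ (bd V).card ≤ k ∧ vol d L z ≤ V.card := by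
      intro U hUO hU hlU
      obtain ⟨φ, hφ⟩ := h_TOP d (ZMod L) U hd1 hU
      have v1 : (1 - lam U) * r ^ 2 ≤ A + 1 := by
        have : (1 - lam U) * r ^ 2 ≤ (1 - (x - δ / r ^ 2)) * r ^ 2 :=
          mul_le_mul_of_nonneg_right (by linarith) hrr.le
        have e : (1 - (x - δ / r ^ 2)) * r ^ 2 = (1 - x) * r ^ 2 + δ := by
          linear_combination hδr
        linarith
      have v2 : ((hol (mm d p K0 r) U).card : ℝ) ≤ C' * r ^ d := by
        refine le_trans ?_ hO'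
        exact_mod_cast Finset.card_le_card ((h_HMO d L _ U O hd1).1 hUO)
      have v3 := hGDE r L g2 hRg U φ hφ v1 v2
      obtain ⟨V, w1, w2, w3, w4⟩ := hLEV r L g3 U φ v3
      refine ⟨V, w1, Nat.le_floor w2, ?_⟩
      apply Nat.sInf_le
      exact ⟨V, rfl, by rw [hz]; linarith⟩
    obtain ⟨V1, a1, a2, a3⟩ := key U1 u1 u4 u6
    obtain ⟨V2, b1, b2, b3⟩ := key U2 u2 u5 u7
    exact ⟨V1, V2, a1.trans u1, b1.trans u2,
      Finset.disjoint_of_subset_left a1 (Finset.disjoint_of_subset_right b1 u3), a2, b2, a3, b3⟩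
  have G2 := hGOO r x L g1 hRg hW1 hx1
  have G3 := GAP_or h_PRB hp hp1 (fun O : Finset (Tor d L) => ¬ Sec O (x - δ / r ^ 2))
    (fun O : Finset (Tor d L) => ¬ Sec O (x - δ / r ^ 2) ∧
      ((hol (mm d p K0 r) O).card : ℝ) ≤ C' * r ^ d)
    (fun O : Finset (Tor d L) => C' * r ^ d < ((hol (mm d p K0 r) O).card : ℝ)) (by
      intro O hO
      by_cases h : ((hol (mm d p K0 r) O).card : ℝ) ≤ C' * r ^ d
      · exact Or.inl ⟨hO, h⟩
      · exact Or.inr (not_le.1 h))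
  have hTT : 0 ≤ TT d L p x := ((h_PRB (Tor d L) p hp hp1).2.1 _).1
  have G4 : (2 * ((d : ℝ) * (L : ℝ) ^ d + 1) ^ k) ^ 2 * p ^ (2 * vol d L z) ≤
      Real.exp (-(κ / 2) * r ^ d) * TT d L p x := by
    calc (2 * ((d : ℝ) * (L : ℝ) ^ d + 1) ^ k) ^ 2 * p ^ (2 * vol d L z) ≤
          Real.exp (κ / 2 * r ^ d) * (p ^ vol d L x * Real.exp (-κ * r ^ d)) :=
            mul_le_mul F6 F5 (by positivity) (Real.exp_pos _).le
      _ = Real.exp (κ / 2 * r ^ d) * Real.exp (-κ * r ^ d) * p ^ vol d L x := by ring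
      _ = Real.exp (-(κ / 2) * r ^ d) * p ^ vol d L x := by
            rw [← Real.exp_add]
            congr 2
            ring
      _ ≤ Real.exp (-(κ / 2) * r ^ d) * TT d L p x :=
            mul_le_mul_of_nonneg_left F7 (Real.exp_pos _).le
  have H1 : Real.exp (-(κ / 2) * r ^ d) ≤ Real.exp (-m * r ^ d) := by
    apply Real.exp_le_exp.2
    have : m * r ^ d ≤ κ / 2 * r ^ d := mul_le_mul_of_nonneg_right (min_le_left _ _) hrdpos.le
    linarith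
  have H2 : Real.exp (-r ^ d) ≤ Real.exp (-m * r ^ d) := by
    apply Real.exp_le_exp.2
    have : m * r ^ d ≤ 1 * r ^ d := mul_le_mul_of_nonneg_right (min_le_right _ _) hrdpos.le
    linarith
  have H3 : 2 * Real.exp (-m * r ^ d) ≤ Real.exp (-(m / 2) * r ^ d) := by
    have e0 : Real.log 2 ≤ 1 := by
      have := Real.log_le_sub_one_of_pos (show (0 : ℝ) < 2 by norm_num)
      linarith
    have e1 : 2 ≤ m * r := by
      rw [div_le_iff₀ hm0] at g13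
      linarith
    have e2 : r ≤ r ^ d := by
      calc r = r ^ 1 := (pow_one r).symm
        _ ≤ r ^ d := pow_le_pow_right₀ hr1' hd1
    have e3 : m * r ≤ m * r ^ d := mul_le_mul_of_nonneg_left e2 hm0.le
    calc 2 * Real.exp (-m * r ^ d) = Real.exp (Real.log 2) * Real.exp (-m * r ^ d) := by
          rw [Real.exp_log (by norm_num)]
      _ = Real.exp (Real.log 2 + -m * r ^ d) := (Real.exp_add _ _).symm
      _ ≤ Real.exp (-(m / 2) * r ^ d) := by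
          apply Real.exp_le_exp.2
          linarith
  calc pr p (fun O : Finset (Tor d L) => ¬ Sec O (x - δ / r ^ 2)) ≤
        Real.exp (-(κ / 2) * r ^ d) * TT d L p x + Real.exp (-r ^ d) * TT d L p x := by
          linarith
    _ ≤ Real.exp (-m * r ^ d) * TT d L p x + Real.exp (-m * r ^ d) * TT d L p x :=
        add_le_add (mul_le_mul_of_nonneg_right H1 hTT) (mul_le_mul_of_nonneg_right H2 hTT)
    _ = 2 * Real.exp (-m * r ^ d) * TT d L p x := by ring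
    _ ≤ Real.exp (-(m / 2) * r ^ d) * TT d L p x := mul_le_mul_of_nonneg_right H3 hTT

end

end Pool.Agent.LBL
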