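import Pool.Agent.LBL.Targets1

set_option autoImplicit false

/-!
# LBL, target GDE: regular eigenfunctions
-/

open Finset
open scoped Classical

namespace Pool.Agent.LBL

noncomputable section

theorem GDE_hh_pos (d : ℕ) (r : ℝ) (hr : 0 < r) : 0 < hh d r := by
  unfold hh
  exact Real.rpow_pos_of_pos hr _

theorem GDE_hh_sq (d : ℕ) (r : ℝ) (hr : 0 < r) : hh d r * r ^ d = 1 / hh d r := by
  have h0 := GDE_hh_pos d r hr
  rw [eq_div_iff (ne_of_gt h0)]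
  have h1 : hh d r * hh d r = r ^ (-(d : ℝ)) := by
    unfold hh
    rw [← Real.rpow_add hr]
    ring_nf
  have h2 : r ^ (-(d : ℝ)) * r ^ d = 1 := by
    rw [Real.rpow_neg hr.le, Real.rpow_natCast]
    exact inv_mul_cancel₀ (pow_ne_zero _ (ne_of_gt hr))
  calc hh d r * r ^ d * hh d r = (hh d r * hh d r) * r ^ d := by ring
    _ = 1 := by rw [h1, h2]

/-- the powers of `r` in the level estimate -/
theorem GDE_pow (d : ℕ) (r : ℝ) (hr : 0 < r) :
    r ^ (1 / 2 : ℝ) / (hh d r * r ^ (-(3 : ℝ) / 2)) * (1 / r ^ 2 * (1 / hh d r)) = r ^ d := by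
  have h0 := GDE_hh_pos d r hr
  have h3 : (r ^ (-(3 : ℝ) / 2)) ≠ 0 := ne_of_gt (Real.rpow_pos_of_pos hr _)
  have h4 : r ^ (1 / 2 : ℝ) = r ^ (-(3 : ℝ) / 2) * r ^ 2 := by
    rw [← Real.rpow_natCast r 2, ← Real.rpow_add hr]
    norm_num
  have h5 : r ^ d = 1 / hh d r * (1 / hh d r) := by
    rw [← GDE_hh_sq d r hr]
    have := GDE_hh_sq d r hr
    field_simp
    rw [eq_div_iff (ne_of_gt h0)] at this
    nlinarith [this]
  rw [h4, h5]
  have h6 : r ≠ 0 := ne_of_gt hr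
  field_simp

/-- the sum of the eigenfunction -/
theorem GDE_l1 (d : ℕ) (r C2 C' S N : ℝ) (hr : 1 ≤ r) (hC2 : 0 < C2)
    (h1 : S ≤ C2 * hh d r * (N + 1)) (h2 : N ≤ C' * r ^ d) :
    S ≤ (C2 * (C' + 1)) * (1 / hh d r) := by
  have hr0 : 0 < r := by linarith
  have h0 := GDE_hh_pos d r hr0
  have h3 : (1 : ℝ) ≤ r ^ d := one_le_pow₀ hr
  have h4 : N + 1 ≤ (C' + 1) * r ^ d := by nlinarith
  calc S ≤ C2 * hh d r * (N + 1) := h1
    _ ≤ C2 * hh d r * ((C' + 1) * r ^ d) := by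
        apply mul_le_mul_of_nonneg_left h4
        positivity
    _ = (C2 * (C' + 1)) * (hh d r * r ^ d) := by ring
    _ = _ := by rw [GDE_hh_sq d r hr0]

theorem p_GDE (h_SUP : T_SUP) (h_LON : T_LON) (h_LVN : T_LVN) (h_FLX : T_FLX) (h_MMS : T_MMS) :
    T_GDE := by
  intro d K0 p A C' hd hK hp hp1 hA hC'
  obtain ⟨C1, r1, hC1, hr1, H1⟩ := h_SUP d (by omega) A hA
  obtain ⟨C2, r2, hC2, hr2, H2⟩ := h_LON d K0 p A hd hK hp hp1 hA
  obtain ⟨r3, hr3, H3⟩ := h_MMS d K0 p hd hK hp hp1 (1 / 2) (by norm_num)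
  refine ⟨1 + A + C1 + C2 * (C' + 1) + C' + A * (C2 * (C' + 1)), max r1 (max r2 r3), ?_,
    lt_of_lt_of_le hr1 (le_max_left _ _), ?_⟩
  · have : 0 < C2 * (C' + 1) := by positivity
    nlinarith [mul_pos hA this]
  intro r L _ hr hRg O φ hT hmu hhol
  have hrr1 : r1 ≤ r := le_trans (le_max_left _ _) hr
  have hrr2 : r2 ≤ r := le_trans (le_trans (le_max_left _ _) (le_max_right _ _)) hr
  have hrr3 : r3 ≤ r := le_trans (le_trans (le_max_right _ _) (le_max_right _ _)) hr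
  have hr0 : 1 < r := lt_of_lt_of_le hr1 hrr1
  have hrp : 0 < r := by linarith
  have hrL : r ≤ (L : ℝ) := by
    have h1 : r ≤ r ^ (d + 4) := by
      calc r = r ^ 1 := (pow_one r).symm
        _ ≤ r ^ (d + 4) := pow_le_pow_right₀ hr0.le (by omega)
    exact le_trans h1 hRg.1
  have hh0 := GDE_hh_pos d r hrp
  have hD : 0 < C2 * (C' + 1) := by positivity
  have hAD : 0 < A * (C2 * (C' + 1)) := by positivity
  have hS := GDE_l1 d r C2 C' _ _ hr0.le hC2 (H2 r L hrr2 hRg O φ hT hmu) hhol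
  have hS0 : 0 ≤ ∑ x, φ x := Finset.sum_nonneg fun x _ => hT.nn x
  have hmm := H3 r hrr3
  have hF := (h_FLX d L (by omega) O φ hT).1
  refine ⟨hT, ?_, ?_, ?_, ?_⟩
  · linarith
  · intro x
    have := H1 r L hrr1 hrL O φ hT hmu x
    refine le_trans this (mul_le_mul_of_nonneg_right ?_ hh0.le)
    linarith
  · refine le_trans hS ?_
    rw [mul_one_div]
    apply div_le_div_of_nonneg_right _ hh0.le
    linarith
  · have ht : 0 < hh d r * r ^ (-(3 : ℝ) / 2) := mul_pos hh0 (Real.rpow_pos_of_pos hrp _)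
    have hlv := h_LVN d L O φ (mm d p K0 r) (hh d r * r ^ (-(3 : ℝ) / 2)) (by omega) hT ht
    have hflux : ∑ y ∈ Oᶜ, P0 φ y ≤ A * (C2 * (C' + 1)) * (1 / r ^ 2 * (1 / hh d r)) := by
      rw [hF]
      have h1 : 1 - lam O ≤ A / r ^ 2 := by
        rw [le_div_iff₀ (by positivity)]
        exact hmu
      calc (1 - lam O) * ∑ x, φ x ≤ A / r ^ 2 * ∑ x, φ x := mul_le_mul_of_nonneg_right h1 hS0
        _ ≤ A / r ^ 2 * ((C2 * (C' + 1)) * (1 / hh d r)) := by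
            apply mul_le_mul_of_nonneg_left hS
            positivity
        _ = _ := by ring
    have hpw : (2 * (d : ℝ) + 1) ^ (mm d p K0 r) * (2 * (d : ℝ)) ^ (mm d p K0 r) ≤ r ^ (1 / 2 : ℝ) := by
      refine le_trans ?_ hmm.2.2
      rw [two_mul (mm d p K0 r), pow_add]
      apply mul_le_mul_of_nonneg_left _ (by positivity)
      apply pow_le_pow_left₀ (by positivity)
      linarith
    have hmain : (2 * (d : ℝ) + 1) ^ (mm d p K0 r) * (2 * (d : ℝ)) ^ (mm d p K0 r) /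
        (hh d r * r ^ (-(3 : ℝ) / 2)) * ∑ y ∈ Oᶜ, P0 φ y ≤ A * (C2 * (C' + 1)) * r ^ d := by
      have hq : (2 * (d : ℝ) + 1) ^ (mm d p K0 r) * (2 * (d : ℝ)) ^ (mm d p K0 r) /
        (hh d r * r ^ (-(3 : ℝ) / 2)) ≤ r ^ (1 / 2 : ℝ) / (hh d r * r ^ (-(3 : ℝ) / 2)) :=
        div_le_div_of_nonneg_right hpw ht.le
      have hq0 : 0 ≤ (2 * (d : ℝ) + 1) ^ (mm d p K0 r) * (2 * (d : ℝ)) ^ (mm d p K0 r) /
        (hh d r * r ^ (-(3 : ℝ) / 2)) := by positivity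
      have hq1 : 0 ≤ r ^ (1 / 2 : ℝ) / (hh d r * r ^ (-(3 : ℝ) / 2)) := by positivity
      calc _ ≤ (2 * (d : ℝ) + 1) ^ (mm d p K0 r) * (2 * (d : ℝ)) ^ (mm d p K0 r) /
            (hh d r * r ^ (-(3 : ℝ) / 2)) * (A * (C2 * (C' + 1)) * (1 / r ^ 2 * (1 / hh d r))) :=
            mul_le_mul_of_nonneg_left hflux hq0
        _ ≤ r ^ (1 / 2 : ℝ) / (hh d r * r ^ (-(3 : ℝ) / 2)) *
            (A * (C2 * (C' + 1)) * (1 / r ^ 2 * (1 / hh d r))) := by
            apply mul_le_mul_of_nonneg_right hq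
            positivity
        _ = A * (C2 * (C' + 1)) * (r ^ (1 / 2 : ℝ) / (hh d r * r ^ (-(3 : ℝ) / 2)) *
            (1 / r ^ 2 * (1 / hh d r))) := by ring
        _ = _ := by rw [GDE_pow d r hrp]
    have hrd : 0 < r ^ d := by positivity
    calc _ ≤ _ := hlv
      _ ≤ C' * r ^ d + A * (C2 * (C' + 1)) * r ^ d := add_le_add hhol hmain
      _ = (C' + A * (C2 * (C' + 1))) * r ^ d := by ring
      _ ≤ _ := by
          apply mul_le_mul_of_nonneg_right _ hrd.le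
          linarith

end

end Pool.Agent.LBL
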