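import Pool.Agent.LBL.Targets3

set_option autoImplicit false

/-!
# LBL: gradient of the resolvent near an isolated point (T_GDF)
-/

open Finset
open scoped Classical

namespace Pool.Agent.LBL

noncomputable section

namespace GDF_

set_option linter.unusedSectionVars false

variable {d L : ℕ} [NeZero L]

theorem td_tri (x w y : Tor d L) : td x y ≤ td x w + td w y := by
  unfold td
  apply Finset.sup_le
  intro i _
  have h1 : x i - y i = (x i - w i) + (w i - y i) := by ring
  have h2 : (x i - w i).valMinAbs.natAbs ≤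
      Finset.univ.sup fun i : Fin d => (x i - w i).valMinAbs.natAbs :=
    Finset.le_sup (f := fun i : Fin d => (x i - w i).valMinAbs.natAbs) (Finset.mem_univ i)
  have h3 : (w i - y i).valMinAbs.natAbs ≤
      Finset.univ.sup fun i : Fin d => (w i - y i).valMinAbs.natAbs :=
    Finset.le_sup (f := fun i : Fin d => (w i - y i).valMinAbs.natAbs) (Finset.mem_univ i)
  have h4 := ZMod.natAbs_valMinAbs_add_le (x i - w i) (w i - y i)
  have h5 := Int.natAbs_add_le (x i - w i).valMinAbs (w i - y i).valMinAbs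
  rw [h1]
  omega

theorem td_comm (x y : Tor d L) : td x y = td y x := by
  unfold td
  apply Finset.sup_congr rfl
  intro i _
  have h1 : x i - y i = -(y i - x i) := by ring
  rw [h1, ZMod.natAbs_valMinAbs_neg]

/-- cast -/
def cs (x : Fin d → ℤ) : Tor d L := fun i => (x i : ZMod L)

omit [NeZero L] in
theorem cs_add (x : Fin d → ℤ) (i : Fin d) : (cs (x + ev i) : Tor d L) = cs x + ev i := by
  funext l
  by_cases h : l = i
  · subst h
    simp [cs, ev]
  · simp [cs, ev, Pi.single_eq_of_ne h]

omit [NeZero L] in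
theorem cs_sub (x : Fin d → ℤ) (i : Fin d) : (cs (x - ev i) : Tor d L) = cs x - ev i := by
  funext l
  by_cases h : l = i
  · subst h
    simp [cs, ev]
  · simp [cs, ev, Pi.single_eq_of_ne h]

omit [NeZero L] in
theorem cs_ev (i : Fin d) : (cs (ev i) : Tor d L) = ev i := by
  have h := cs_add (L := L) 0 i
  have h0 : (cs (0 : Fin d → ℤ) : Tor d L) = 0 := by
    funext l
    simp [cs]
  rw [h0, zero_add, zero_add] at h
  exact h

omit [NeZero L] in
theorem cs_nev (i : Fin d) : (cs (-ev i) : Tor d L) = -ev i := by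
  have h := cs_sub (L := L) 0 i
  have h0 : (cs (0 : Fin d → ℤ) : Tor d L) = 0 := by
    funext l
    simp [cs]
  rw [h0, zero_sub, zero_sub] at h
  exact h

theorem td_cs (y : Tor d L) (x : Fin d → ℤ) (D : ℕ) (hx : ∀ i, |x i| ≤ D) : td (y + cs x) y ≤ D := by
  unfold td
  apply Finset.sup_le
  intro i _
  have h1 : (y + (cs x : Tor d L)) i - y i = (x i : ZMod L) := by
    simp [cs]
  rw [h1]
  have h2 := ZMod.natAbs_min_of_le_div_two L ((x i : ZMod L).valMinAbs) (x i) (ZMod.coe_valMinAbs _)
    (ZMod.natAbs_valMinAbs_le _)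
  have h3 := hx i
  have h4 : ((x i).natAbs : ℤ) ≤ D := by
    rw [Int.natCast_natAbs]
    exact h3
  have h5 : (x i).natAbs ≤ D := by exact_mod_cast h4
  exact h2.trans h5

omit [NeZero L] in
theorem cs_zero (y : Tor d L) (x : Fin d → ℤ) (D : ℕ) (hD : D ≤ L) (hx : ∀ i, |x i| ≤ (D : ℤ) - 1) :
    y + cs x = y ↔ x = 0 := by
  constructor
  · intro h
    have h1 : (cs x : Tor d L) = 0 := by simpa using h
    funext i
    have h2 := congrFun h1 i
    have h3 : ((x i : ℤ) : ZMod L) = 0 := h2
    rw [ZMod.intCast_zmod_eq_zero_iff_dvd] at h3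
    refine Int.eq_zero_of_abs_lt_dvd h3 ?_
    have h4 : (D : ℤ) ≤ L := by exact_mod_cast hD
    have h5 := hx i
    omega
  · intro h
    subst h
    funext i
    simp [cs]

theorem kap_one (d : ℕ) {x : ℝ} (hx : 0 ≤ x) : 1 ≤ kap d x := by
  unfold kap
  split_ifs
  · have : 0 ≤ Real.log (1 + x) := Real.log_nonneg (by linarith)
    linarith
  · exact le_rfl

theorem kap_two (d : ℕ) {x x' : ℝ} (hx : 0 ≤ x) (hx' : 0 ≤ x') (h : x ≤ 2 * x') : kap d x ≤ 2 * kap d x' := by
  unfold kap
  split_ifs
  · have h1 : Real.log (1 + x) ≤ Real.log (2 * (1 + x')) := Real.log_le_log (by linarith) (by linarith)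
    rw [Real.log_mul (by norm_num) (by linarith)] at h1
    have h2 : Real.log 2 < 1 := by
      have := Real.log_two_lt_d9
      linarith
    have h3 : 0 ≤ Real.log (1 + x') := Real.log_nonneg (by linarith)
    linarith
  · norm_num

end GDF_

/-- T_GDF -/
theorem p_GDF (h_GRA : T_GRA) (h_RVB : T_RVB) (h_GKB : T_GKB) : T_GDF := by
  intro d C B hd hC hB
  obtain ⟨C1, c1, hC1, hc1, hG⟩ := h_GRA d hd
  obtain ⟨C2, hC2, hK⟩ := h_GKB d hd
  set B' : ℝ := 2 * C * B with hB'
  have hC0 : 0 < C := by linarith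
  have hB'0 : 0 < B' := by positivity
  refine ⟨C1 * (2 * (C2 * (1 + B')) + C ^ 2), min 1 (c1 / (2 * C)), 2, by positivity, ?_, by norm_num, ?_⟩
  · exact lt_min one_pos (by positivity)
  intro r L _ hr hrL O φo y1 l v y y0 D hEF hSec hBl hl1 hl hR hy0 hD hDr hball i k
  have hr0 : 0 < r := by linarith
  have hr1 : (1 : ℝ) ≤ r := by linarith
  have hr2 : 0 < r ^ 2 := by positivity
  have hgap : 0 < l - y1 := by
    have h1 : 0 < (l - y1) * r ^ 2 := lt_of_lt_of_le (by positivity) hBl
    exact pos_of_mul_pos_left h1 hr2.le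
  have hB1 : 1 - l ≤ B' * (l - y1) := by
    have h1 : (1 - l) * r ^ 2 ≤ B' * (l - y1) * r ^ 2 := by
      calc (1 - l) * r ^ 2 ≤ 2 * C := hl
        _ = B' * (1 / B) := by
          rw [hB']
          field_simp
        _ ≤ B' * ((l - y1) * r ^ 2) := mul_le_mul_of_nonneg_left hBl hB'0.le
        _ = _ := by ring
    exact le_of_mul_le_mul_right h1 hr2
  obtain ⟨hv0, hvv, -, -, -⟩ := h_RVB d L (by omega) O φo y1 l v hEF.top hSec (by linarith) hR
  have hDr' : (D : ℝ) ≤ r := by
    refine hDr.trans ?_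
    calc min 1 (c1 / (2 * C)) * r ≤ 1 * r := mul_le_mul_of_nonneg_right (min_le_left _ _) hr0.le
      _ = r := one_mul r
  have hDL : D ≤ L := by
    have : (D : ℝ) ≤ L := hDr'.trans hrL
    exact_mod_cast this
  have hD0 : (0 : ℝ) < D := by
    have : 0 < D := by omega
    exact_mod_cast this
  -- distance of y0
  have hDy0 : D < td y y0 := by
    by_contra hcon
    push Not at hcon
    rw [GDF_.td_comm] at hcon
    exact hy0 (hball y0 hcon)
  set κ : ℝ := kap d (td y y0) with hκ
  have hκ1 : 1 ≤ κ := GDF_.kap_one d (by positivity)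
  set M : ℝ := 2 * (C2 * (1 + B')) * κ with hM
  have hM0 : 0 ≤ M := by positivity
  -- diagonal bound
  have hdiag : ∀ w : Tor d L, td w y ≤ D → v w w ≤ M := by
    intro w hw
    have h1 := hK L O φo y1 l B' v w y0 hEF.top hSec (by linarith) hB'0.le hB1 hR hy0
    refine h1.trans ?_
    have h2 : (td w y0 : ℝ) ≤ 2 * (td y y0 : ℝ) := by
      have h3 := GDF_.td_tri w y y0
      have h4 : td w y0 ≤ 2 * td y y0 := by omega
      exact_mod_cast h4
    have h5 := GDF_.kap_two d (x := (td w y0 : ℝ)) (x' := (td y y0 : ℝ)) (by positivity) (by positivity) h2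
    calc C2 * (1 + B') * kap d (td w y0) ≤ C2 * (1 + B') * (2 * κ) := mul_le_mul_of_nonneg_left h5 (by positivity)
      _ = M := by rw [hM]; ring
  have htyy : td y y = 0 := by
    unfold td
    simp
  have hyO : y ∈ O := hball y (by rw [htyy]; omega)
  have hoff : ∀ w : Tor d L, td w y ≤ D → |v y w| ≤ M := by
    intro w hw
    refine abs_le_of_sq_le_sq ?_ hM0
    calc v y w ^ 2 ≤ v y y * v w w := hvv y w
      _ ≤ M * M := mul_le_mul (hdiag y (by rw [htyy]; omega)) (hdiag w hw) (hv0 w) hM0
      _ = M ^ 2 := by ring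
  -- the lift
  set u : (Fin d → ℤ) → ℝ := fun x => v y (y + GDF_.cs x) with hu
  have hP0 : ∀ x, P0 u x = P0 (v y) (y + GDF_.cs x) := by
    intro x
    unfold P0
    congr 1
    refine sum_congr rfl fun a _ => ?_
    simp only [hu, GDF_.cs_add, GDF_.cs_sub]
    congr 2
    · abel
    · abel
  set S : ℝ := (2 * (C2 * (1 + B')) + C ^ 2) * κ with hS
  have hS0 : 0 ≤ S := by positivity
  have hMS : M ≤ S := by
    rw [hM, hS]
    nlinarith [mul_nonneg (sq_nonneg C) (by linarith : (0 : ℝ) ≤ κ)]
  have hhh : hh d r ≤ 1 / D := by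
    unfold hh
    calc r ^ (-(d : ℝ) / 2) ≤ r ^ (-1 : ℝ) := by
          refine Real.rpow_le_rpow_of_exponent_le hr1 ?_
          have : (2 : ℝ) ≤ d := by exact_mod_cast hd
          linarith
      _ = 1 / r := by rw [Real.rpow_neg_one, one_div]
      _ ≤ 1 / D := one_div_le_one_div_of_le hD0 hDr'
  have hφ : ∀ w, φo w ≤ C / D := by
    intro w
    calc φo w ≤ C * hh d r := hEF.sup w
      _ ≤ C * (1 / D) := mul_le_mul_of_nonneg_left hhh hC0.le
      _ = C / D := by ring
  have hrefl : ∀ x x' : Fin d → ℤ, (∀ a, |x a| ≤ (D : ℤ) - 1) → (∀ a, |x' a| ≤ (D : ℤ) - 1) → (x = 0 ↔ x' = 0) →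
      |((1 - (1 - l)) * u x - P0 u x) - ((1 - (1 - l)) * u x' - P0 u x')| ≤ S / D ^ 2 := by
    intro x x' hx hx' hxx
    have e : ∀ x : Fin d → ℤ, (∀ a, |x a| ≤ (D : ℤ) - 1) → (1 - (1 - l)) * u x - P0 u x =
        (if x = 0 then 1 else 0) - φo y * φo (y + GDF_.cs x) := by
      intro x hx
      have hw : y + GDF_.cs x ∈ O := hball _ (GDF_.td_cs y x D fun a => by
        have := hx a
        omega)
      have h1 := hR.eq y hyO (y + GDF_.cs x) hw
      rw [hP0, sub_sub_cancel]
      simp only [hu]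
      rw [h1]
      simp only [GDF_.cs_zero y x D hDL hx]
    rw [e x hx, e x' hx']
    simp only [hxx]
    have h1 : ((if x' = 0 then (1 : ℝ) else 0) - φo y * φo (y + GDF_.cs x)) -
        ((if x' = 0 then (1 : ℝ) else 0) - φo y * φo (y + GDF_.cs x')) =
        φo y * (φo (y + GDF_.cs x') - φo (y + GDF_.cs x)) := by ring
    rw [h1, abs_mul, abs_of_nonneg (hEF.top.nn y)]
    have h2 : |φo (y + GDF_.cs x') - φo (y + GDF_.cs x)| ≤ C / D := by
      rw [abs_le]
      constructor
      · linarith [hφ (y + GDF_.cs x), hEF.top.nn (y + GDF_.cs x')]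
      · linarith [hφ (y + GDF_.cs x'), hEF.top.nn (y + GDF_.cs x)]
    calc φo y * |φo (y + GDF_.cs x') - φo (y + GDF_.cs x)| ≤ (C / D) * (C / D) :=
          mul_le_mul (hφ y) h2 (abs_nonneg _) (by positivity)
      _ = C ^ 2 / D ^ 2 := by ring
      _ ≤ S / D ^ 2 := by
        refine div_le_div_of_nonneg_right ?_ (by positivity)
        rw [hS]
        have h3 : C ^ 2 * 1 ≤ C ^ 2 * κ := mul_le_mul_of_nonneg_left hκ1 (sq_nonneg C)
        have h4 : 0 ≤ 2 * (C2 * (1 + B')) * κ := by positivity
        linarith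
  have hmain := hG u D (1 - l) S hD (by linarith) ?_ hS0 ?_ ?_ i k
  · have e0 : S / D = 0 + S / D := by ring
    simp only [hu, GDF_.cs_ev, GDF_.cs_nev] at hmain
    have e1 : C1 * S / D = C1 * (2 * (C2 * (1 + B')) + C ^ 2) * kap d (td y y0) / D := by
      rw [hS, hκ]
      ring
    rw [e1] at hmain
    simpa only [← sub_eq_add_neg] using hmain
  · -- smallness of μ
    have h1 : (D : ℝ) ^ 2 ≤ (min 1 (c1 / (2 * C)) * r) ^ 2 := pow_le_pow_left₀ hD0.le hDr 2
    have hm0 : 0 ≤ min 1 (c1 / (2 * C)) := le_min zero_le_one (by positivity)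
    have h2 : (min 1 (c1 / (2 * C))) ^ 2 ≤ c1 / (2 * C) := by
      calc (min 1 (c1 / (2 * C))) ^ 2 = min 1 (c1 / (2 * C)) * min 1 (c1 / (2 * C)) := pow_two _
        _ ≤ 1 * (c1 / (2 * C)) := mul_le_mul (min_le_left _ _) (min_le_right _ _) hm0 zero_le_one
        _ = _ := one_mul _
    calc (1 - l) * (D : ℝ) ^ 2 ≤ (1 - l) * (min 1 (c1 / (2 * C)) * r) ^ 2 :=
          mul_le_mul_of_nonneg_left h1 (by linarith)
      _ = ((1 - l) * r ^ 2) * (min 1 (c1 / (2 * C))) ^ 2 := by ring
      _ ≤ (2 * C) * (c1 / (2 * C)) := mul_le_mul hl h2 (sq_nonneg _) (by positivity)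
      _ = c1 := by field_simp
  · intro x hx
    exact (hoff _ (GDF_.td_cs y x D hx)).trans hMS
  · intro x hx
    refine ⟨fun a => hrefl x (axr a x) hx ?_ ?_, fun a b => hrefl x (swr a b x) hx ?_ ?_⟩
    · intro b
      unfold axr
      by_cases hb : b = a
      · subst hb
        rw [Function.update_self, abs_neg]
        exact hx b
      · rw [Function.update_of_ne hb]
        exact hx b
    · unfold axr
      constructor
      · intro h
        subst h
        funext b
        by_cases hb : b = a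
        · subst hb
          simp
        · simp [Function.update_of_ne hb]
      · intro h
        funext b
        have h1 := congrFun h b
        by_cases hb : b = a
        · subst hb
          rw [Function.update_self] at h1
          simpa using h1
        · rwa [Function.update_of_ne hb] at h1
    · intro c
      exact hx _
    · constructor
      · intro h
        subst h
        rfl
      · intro h
        funext c
        have h1 := congrFun h (Equiv.swap a b c)
        simpa [swr] using h1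

end

end Pool.Agent.LBL
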