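import Pool.Agent.LBL.Targets3

set_option autoImplicit false

/-!
# LBL: variation of the diagonal of the resolvent near an isolated point
-/

open Finset
open scoped Classical

namespace Pool.Agent.LBL

namespace GDG_

variable {d L : ℕ} [NeZero L]

lemma hh_sq (d : ℕ) (r : ℝ) (hr : 0 < r) : r ^ d * hh d r ^ 2 = 1 := by
  unfold hh
  rw [← Real.rpow_natCast (r ^ (-(d : ℝ) / 2)) 2, ← Real.rpow_mul hr.le, ← Real.rpow_natCast r d,
    ← Real.rpow_add hr]
  have : (d : ℝ) + -(d : ℝ) / 2 * ((2 : ℕ) : ℝ) = 0 := by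
    push_cast
    ring
  rw [this, Real.rpow_zero]

lemma td_tri (x w y : Tor d L) : td x y ≤ td x w + td w y := by
  unfold td
  apply Finset.sup_le
  intro i _
  have h1 : x i - y i = (x i - w i) + (w i - y i) := by ring
  have h2 : (x i - w i).valMinAbs.natAbs ≤
      Finset.univ.sup fun i : Fin d => (x i - w i).valMinAbs.natAbs :=
    Finset.le_sup (f := fun i : Fin d => (x i - w i).valMinAbs.natAbs) (Finset.mem_univ i)
  have h3 : (w i - y i).valMinAbs.natAbs ≤
      Finset.univ.sup fun i : Fin d => (w i - y i).valMinAbs.natAbs :=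
    Finset.le_sup (f := fun i : Fin d => (w i - y i).valMinAbs.natAbs) (Finset.mem_univ i)
  have h4 := ZMod.natAbs_valMinAbs_add_le (x i - w i) (w i - y i)
  have h5 := Int.natAbs_add_le (x i - w i).valMinAbs (w i - y i).valMinAbs
  rw [h1]
  omega

lemma vma (a : ℤ) : ((a : ZMod L).valMinAbs.natAbs : ℤ) ≤ |a| := by
  have h := ZMod.natAbs_valMinAbs_le (a : ZMod L)
  by_cases hc : |a| * 2 < L
  · have hL : L ≠ 0 := NeZero.ne L
    have : (a : ZMod L).valMinAbs = a := by
      rw [ZMod.valMinAbs_spec]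
      refine ⟨rfl, ?_⟩
      rw [Set.mem_Ioc]
      have := abs_lt.mp (show |a * 2| < (L : ℤ) by rw [abs_mul]; simpa using hc)
      exact ⟨this.1, this.2.le⟩
    rw [this, Int.natCast_natAbs]
  · push Not at hc
    have h1 : ((a : ZMod L).valMinAbs.natAbs : ℤ) * 2 ≤ L := by
      have : (a : ZMod L).valMinAbs.natAbs * 2 ≤ L := by omega
      exact_mod_cast this
    omega

lemma td_le_one (x y : Tor d L) (h : ∀ m, ∃ a : ℤ, |a| ≤ 1 ∧ x m - y m = (a : ZMod L)) : td x y ≤ 1 := by
  unfold td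
  apply Finset.sup_le
  intro m _
  obtain ⟨a, ha, he⟩ := h m
  have h1 := vma (L := L) a
  rw [he]
  omega

lemma ev_ap (i m : Fin d) : (ev i : Tor d L) m = if m = i then (1 : ZMod L) else 0 := by
  unfold ev
  by_cases h : m = i
  · subst h
    simp
  · simp [h]

lemma td_p (y : Tor d L) (k : Fin d) : td (y + ev k) y ≤ 1 ∧ td y (y + ev k) ≤ 1 := by
  refine ⟨td_le_one _ _ fun m => ?_, td_le_one _ _ fun m => ?_⟩
  · by_cases h : m = k
    · exact ⟨1, by simp, by rw [Pi.add_apply, ev_ap, if_pos h]; push_cast; ring⟩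
    · exact ⟨0, by simp, by rw [Pi.add_apply, ev_ap, if_neg h]; push_cast; ring⟩
  · by_cases h : m = k
    · exact ⟨-1, by simp, by rw [Pi.add_apply, ev_ap, if_pos h]; push_cast; ring⟩
    · exact ⟨0, by simp, by rw [Pi.add_apply, ev_ap, if_neg h]; push_cast; ring⟩

lemma td_m (y : Tor d L) (k : Fin d) : td (y - ev k) y ≤ 1 ∧ td y (y - ev k) ≤ 1 := by
  refine ⟨td_le_one _ _ fun m => ?_, td_le_one _ _ fun m => ?_⟩
  · by_cases h : m = k
    · exact ⟨-1, by simp, by rw [Pi.sub_apply, ev_ap, if_pos h]; push_cast; ring⟩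
    · exact ⟨0, by simp, by rw [Pi.sub_apply, ev_ap, if_neg h]; push_cast; ring⟩
  · by_cases h : m = k
    · exact ⟨1, by simp, by rw [Pi.sub_apply, ev_ap, if_pos h]; push_cast; ring⟩
    · exact ⟨0, by simp, by rw [Pi.sub_apply, ev_ap, if_neg h]; push_cast; ring⟩

lemma kap_one (d : ℕ) (n : ℕ) : 1 ≤ kap d (n : ℝ) := by
  unfold kap
  split_ifs
  · have : 0 ≤ Real.log (1 + (n : ℝ)) := Real.log_nonneg (by
      have : (0 : ℝ) ≤ n := Nat.cast_nonneg n
      linarith)
    linarith
  · exact le_refl _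

lemma kap_succ (d : ℕ) (m n : ℕ) (h : m ≤ n + 1) : kap d (m : ℝ) ≤ 2 * kap d (n : ℝ) := by
  unfold kap
  have hn : (0 : ℝ) ≤ n := Nat.cast_nonneg n
  have hm : (0 : ℝ) ≤ m := Nat.cast_nonneg m
  have hmn : (m : ℝ) ≤ n + 1 := by exact_mod_cast h
  split_ifs
  · have h0 : 0 ≤ Real.log (1 + (n : ℝ)) := Real.log_nonneg (by linarith)
    have h1 : Real.log (1 + (m : ℝ)) ≤ Real.log (2 * (1 + n)) :=
      Real.log_le_log (by linarith) (by linarith)
    have h2 : Real.log (2 * (1 + (n : ℝ))) = Real.log 2 + Real.log (1 + n) :=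
      Real.log_mul (by norm_num) (by linarith)
    have h3 : Real.log 2 ≤ 1 := by
      have := Real.log_two_lt_d9
      linarith
    linarith
  · norm_num

/-- average over the neighbours -/
lemma avg (hd : 1 ≤ d) (f : Tor d L → ℝ) (y : Tor d L) (b ε : ℝ)
    (h : ∀ i : Fin d, |f (y + ev i) - b| ≤ ε ∧ |f (y - ev i) - b| ≤ ε) : |P0 f y - b| ≤ ε := by
  have hd0 : (0 : ℝ) < 2 * d := by
    have : (1 : ℝ) ≤ d := by exact_mod_cast hd
    linarith
  have h1 : P0 f y - b = (∑ i : Fin d, ((f (y + ev i) - b) + (f (y - ev i) - b))) / (2 * d) := by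
    have h2 : ∑ i : Fin d, ((f (y + ev i) - b) + (f (y - ev i) - b)) =
        (∑ i : Fin d, (f (y + ev i) + f (y - ev i))) - 2 * d * b := by
      have : ∀ i : Fin d, (f (y + ev i) - b) + (f (y - ev i) - b) = (f (y + ev i) + f (y - ev i)) - 2 * b :=
        fun i => by ring
      rw [Finset.sum_congr rfl fun i _ => this i, Finset.sum_sub_distrib, Finset.sum_const,
        Finset.card_univ, Fintype.card_fin, nsmul_eq_mul]
      ring
    rw [h2]
    unfold P0
    field_simp
  rw [h1, abs_div, abs_of_pos hd0, div_le_iff₀ hd0]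
  refine (Finset.abs_sum_le_sum_abs _ _).trans ?_
  have h3 : ∀ i ∈ (Finset.univ : Finset (Fin d)), |(f (y + ev i) - b) + (f (y - ev i) - b)| ≤ 2 * ε := fun i _ => by
    refine (abs_add_le _ _).trans ?_
    have := h i
    linarith [this.1, this.2]
  refine (Finset.sum_le_sum h3).trans ?_
  rw [Finset.sum_const, Finset.card_univ, Fintype.card_fin, nsmul_eq_mul]
  linarith

/-- from the gradient bounds to the average -/
lemma avg2 (hd : 1 ≤ d) (f : Tor d L → ℝ) (y w : Tor d L) (ε : ℝ)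
    (h : ∀ i k : Fin d, |f (y + ev i) - f (y - ev i)| ≤ ε ∧ |f (y + ev i) - f (y + ev k)| ≤ ε ∧
      |f (y - ev i) - f (y + ev k)| ≤ ε) (hw : ∃ k : Fin d, w = y + ev k ∨ w = y - ev k) :
    |P0 f y - f w| ≤ 2 * ε := by
  obtain ⟨k, hk⟩ := hw
  have hε : 0 ≤ ε := (abs_nonneg _).trans (h k k).1
  refine avg hd f y (f w) (2 * ε) fun i => ?_
  rcases hk with rfl | rfl
  · exact ⟨(h i k).2.1.trans (by linarith), (h i k).2.2.trans (by linarith)⟩
  · constructor
    · have := (h k i).2.2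
      rw [abs_sub_comm] at this
      exact this.trans (by linarith)
    · have h1 := (h i i).2.2
      have h2 := (h k i).2.2
      have : f (y - ev i) - f (y - ev k) = (f (y - ev i) - f (y + ev i)) - (f (y - ev k) - f (y + ev i)) := by ring
      rw [this]
      refine (abs_sub _ _).trans ?_
      linarith

end GDG_

open GDG_ in
theorem p_GDG (h_GDF : T_GDF) : T_GDG := by
  intro d C B hd hC hB
  obtain ⟨C3, c4, r0, hC3, hc4, hr0, H⟩ := h_GDF d C B hd hC hB
  refine ⟨40 * C3 + 2 * C ^ 2 * c4, c4, max r0 (2 * C), by positivity, hc4, lt_of_lt_of_le hr0 (le_max_left _ _), ?_⟩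
  intro r L _ hr hrL O φo y1 l v y y0 D hE hS hB1 hl1 hl2 hR hy0 hD hDr hball k
  have hrr0 : r0 ≤ r := (le_max_left _ _).trans hr
  have hr2C : 2 * C ≤ r := (le_max_right _ _).trans hr
  have hr1 : 1 < r := lt_of_lt_of_le hr0 hrr0
  have hrpos : 0 < r := by linarith
  have hd1 : 1 ≤ d := by omega
  have hDpos : (0 : ℝ) < D := by
    have : (4 : ℝ) ≤ D := by exact_mod_cast hD
    linarith
  have hD4 : (4 : ℝ) ≤ D := by exact_mod_cast hD
  have hk1 := kap_one d (td y y0)
  set κ := kap d (td y y0) with hκ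
  set ε := C3 * κ / D with hε
  -- the bound for a neighbour
  have key : ∀ w : Tor d L, (∃ k : Fin d, w = y + ev k ∨ w = y - ev k) → (∃ k : Fin d, y = w + ev k ∨ y = w - ev k) →
      td w y ≤ 1 → td y w ≤ 1 → |v y y - v w w| ≤ (40 * C3 + 2 * C ^ 2 * c4) * κ / D := by
    intro w hw hw' ht1 ht2
    have hyO : y ∈ O := hball y (by
      have : td y y = 0 := by
        unfold td
        simp
      omega)
    have hwO : w ∈ O := hball w (by omega)
    have g1 := H r L hrr0 hrL O φo y1 l v y y0 D hE hS hB1 hl1 hl2 hR hy0 (by omega) hDr hball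
    have hball' : ∀ x, td x w ≤ D - 1 → x ∈ O := fun x hx => hball x (by
      have := td_tri x w y
      omega)
    have hD1 : ((D - 1 : ℕ) : ℝ) = (D : ℝ) - 1 := by
      rw [Nat.cast_sub (by omega)]
      norm_num
    have g2 := H r L hrr0 hrL O φo y1 l v w y0 (D - 1) hE hS hB1 hl1 hl2 hR hy0 (by omega)
      (by rw [hD1]; linarith) hball'
    have hkw : kap d (td w y0) ≤ 2 * κ := kap_succ d _ _ (by
      have := td_tri w y y0
      omega)
    have hε2 : C3 * kap d (td w y0) / ((D - 1 : ℕ) : ℝ) ≤ 4 * ε := by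
      rw [hD1, hε, div_le_iff₀ (by linarith)]
      have h1 : C3 * kap d (td w y0) ≤ C3 * (2 * κ) := mul_le_mul_of_nonneg_left hkw hC3.le
      have h2 : 4 * (C3 * κ / D) * ((D : ℝ) - 1) = 4 * (C3 * κ) * (1 - 1 / D) := by
        field_simp
      rw [h2]
      have h3 : 1 / (D : ℝ) ≤ 1 / 4 := one_div_le_one_div_of_le (by norm_num) hD4
      have h4 : 0 ≤ C3 * κ := by positivity
      nlinarith
    have a1 := avg2 hd1 (v y) y w ε g1 hw
    have a2 := avg2 hd1 (v w) w y _ g2 hw'
    have a3 : |P0 (v w) w - v y w| ≤ 8 * ε := by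
      rw [hR.sym w y] at a2
      linarith
    have e1 := hR.eq y hyO y hyO
    have e2 := hR.eq w hwO w hwO
    rw [if_pos rfl] at e1 e2
    -- the squares
    have hrd : 0 < r ^ d := by positivity
    have hsq := hh_sq d r hrpos
    have hsq2 : ∀ x, 0 ≤ φo x * φo x ∧ φo x * φo x ≤ C ^ 2 * c4 * κ / D := by
      intro x
      refine ⟨mul_self_nonneg _, ?_⟩
      have h1 := hE.sup x
      have h2 := hE.top.nn x
      have h3 : φo x * φo x ≤ (C * hh d r) * (C * hh d r) := mul_le_mul h1 h1 h2 (h2.trans h1)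
      have h4 : hh d r ^ 2 ≤ 1 / r := by
        have h5 : hh d r ^ 2 = 1 / r ^ d := by
          field_simp
          linarith
        rw [h5]
        apply one_div_le_one_div_of_le hrpos
        calc r = r ^ 1 := (pow_one r).symm
          _ ≤ r ^ d := pow_le_pow_right₀ hr1.le hd1
      have h6 : 1 / r ≤ c4 * κ / D := by
        rw [div_le_div_iff₀ hrpos hDpos, one_mul]
        nlinarith [mul_pos hc4 hrpos]
      calc φo x * φo x ≤ (C * hh d r) * (C * hh d r) := h3
        _ = C ^ 2 * hh d r ^ 2 := by ring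
        _ ≤ C ^ 2 * (c4 * κ / D) := mul_le_mul_of_nonneg_left (h4.trans h6) (by positivity)
        _ = C ^ 2 * c4 * κ / D := by ring
    have s1 := hsq2 y
    have s2 := hsq2 w
    have hlhalf : 1 / 2 ≤ l := by
      have h1 : 4 * C ≤ r ^ 2 := by nlinarith
      have h2 : (1 - l) * r ^ 2 ≤ (1 / 2) * r ^ 2 := by linarith
      have h3 : 0 < r ^ 2 := by positivity
      have := le_of_mul_le_mul_right h2 h3
      linarith
    have hmain : |l * (v y y - v w w)| ≤ 10 * ε + C ^ 2 * c4 * κ / D := by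
      have h1 : l * (v y y - v w w) = (P0 (v y) y - v y w) - (P0 (v w) w - v y w) + (φo w * φo w - φo y * φo y) := by
        linarith
      rw [h1]
      refine (abs_add_le _ _).trans ?_
      have h2 := abs_sub (P0 (v y) y - v y w) (P0 (v w) w - v y w)
      have h3 : |φo w * φo w - φo y * φo y| ≤ C ^ 2 * c4 * κ / D := by
        rw [abs_le]
        constructor
        · linarith [s1.1, s1.2, s2.1, s2.2]
        · linarith [s1.1, s1.2, s2.1, s2.2]
      linarith
    rw [abs_mul, abs_of_pos (by linarith : (0 : ℝ) < l)] at hmain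
    have h5 : (1 / 2) * |v y y - v w w| ≤ l * |v y y - v w w| := mul_le_mul_of_nonneg_right hlhalf (abs_nonneg _)
    have h6 : (40 * C3 + 2 * C ^ 2 * c4) * κ / D = 40 * ε + 2 * (C ^ 2 * c4 * κ / D) := by
      rw [hε]
      ring
    have h7 : 0 ≤ ε := by positivity
    rw [h6]
    linarith
  constructor
  · refine key (y + ev k) ⟨k, Or.inl rfl⟩ ⟨k, Or.inr (by simp)⟩ (td_p y k).1 (td_p y k).2
  · refine key (y - ev k) ⟨k, Or.inr rfl⟩ ⟨k, Or.inl (by simp)⟩ (td_m y k).1 (td_m y k).2

end Pool.Agent.LBL
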