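import Pool.Agent.LBL.Targets2

/-!
# LBL: target GKB (bound of the diagonal of the resolvent)
-/

set_option autoImplicit false

open Finset
open scoped Classical

namespace Pool.Agent.LBL

theorem GKB_kap (d : ℕ) (n : ℕ) : 0 ≤ kap d (n : ℝ) := by
  unfold kap
  split_ifs
  · have : 0 ≤ Real.log (1 + (n : ℝ)) := Real.log_nonneg (by
      have : (0 : ℝ) ≤ n := Nat.cast_nonneg n
      linarith)
    linarith
  · exact zero_le_one

theorem p_GKB (h_ENI : T_ENI) (h_RVB : T_RVB) (h_POT : T_POT) : T_GKB := by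
  intro d hd
  obtain ⟨C, hC, hP⟩ := h_POT d hd
  refine ⟨2 * d * C, ?_, ?_⟩
  · have : (2 : ℝ) ≤ d := by exact_mod_cast hd
    positivity
  intro L _ O φo y l B v z y0 hT hS hyl hB hlB hR hy0
  obtain ⟨h1, _, h3, h4, _⟩ := h_RVB d L (by omega) O φo y l v hT hS hyl hR
  have hk : 0 ≤ kap d (td z y0 : ℝ) := GKB_kap d _
  have hg := h1 z
  have hip : 0 ≤ ip (v z) (v z) := by
    unfold ip
    exact Finset.sum_nonneg fun x _ => mul_self_nonneg _
  have hE := (h_ENI d L (by omega) (v z) (v z)).2.1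
  have h5 : (1 - l) * ip (v z) (v z) ≤ B * v z z := by
    calc (1 - l) * ip (v z) (v z) ≤ B * (l - y) * ip (v z) (v z) :=
          mul_le_mul_of_nonneg_right hlB hip
      _ = B * ((l - y) * ip (v z) (v z)) := by ring
      _ ≤ B * v z z := mul_le_mul_of_nonneg_left (h3 z) hB
  have h6 : En (v z) ≤ 2 * d * ((1 + B) * v z z) := by
    rw [hE]
    refine mul_le_mul_of_nonneg_left ?_ (by positivity)
    have := h4 z
    linarith
  have h7 := hP L (v z) z y0 (hR.sp z y0 hy0)
  have h8 : v z z ^ 2 ≤ 2 * d * C * (1 + B) * kap d (td z y0 : ℝ) * v z z := by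
    calc v z z ^ 2 ≤ C * kap d (td z y0 : ℝ) * En (v z) := h7
      _ ≤ C * kap d (td z y0 : ℝ) * (2 * d * ((1 + B) * v z z)) :=
          mul_le_mul_of_nonneg_left h6 (mul_nonneg hC.le hk)
      _ = _ := by ring
  have h9 : 0 ≤ 2 * d * C * (1 + B) * kap d (td z y0 : ℝ) := by positivity
  rcases hg.eq_or_lt with h0 | h0
  · rw [← h0]
    exact h9
  · rw [pow_two] at h8
    exact le_of_mul_le_mul_right h8 h0

end Pool.Agent.LBL
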