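import Pool.Agent.LBL.Targets3
import Pool.Agent.LBL.P_ENI

/-!
# LBL: target GNS (gains of layers)
-/

set_option autoImplicit false

open Finset
open scoped Classical

namespace Pool.Agent.LBL

noncomputable section

namespace GNS_

variable {d L : ℕ} [NeZero L]

/-- the layer `x i = h` -/
def ly (i : Fin d) (h : ZMod L) : Finset (Tor d L) := Finset.univ.filter fun x : Tor d L => x i = h

/-- shift inside a layer -/
theorem shift_ly (i k : Fin d) (hik : k ≠ i) (h : ZMod L) (f : Tor d L → ℝ) :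
    ∑ x ∈ ly i h, f (x + ev k) = ∑ x ∈ ly i h, f x := by
  refine Finset.sum_bij' (fun x _ => x + ev k) (fun x _ => x - ev k) ?_ ?_ ?_ ?_ ?_
  · intro x hx
    simp only [ly, Finset.mem_filter, Finset.mem_univ, true_and] at hx ⊢
    simp [ev, Pi.add_apply, Pi.single_eq_of_ne (Ne.symm hik), hx]
  · intro x hx
    simp only [ly, Finset.mem_filter, Finset.mem_univ, true_and] at hx ⊢
    simp [ev, Pi.sub_apply, Pi.single_eq_of_ne (Ne.symm hik), hx]
  · intro x _
    simp
  · intro x _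
    simp
  · intro x _
    rfl

theorem shift_ly' (i k : Fin d) (hik : k ≠ i) (h : ZMod L) (f : Tor d L → ℝ) :
    ∑ x ∈ ly i h, f (x - ev k) = ∑ x ∈ ly i h, f x := by
  have h1 := shift_ly i k hik h (fun x => f (x - ev k))
  simp only [add_sub_cancel_right] at h1
  exact h1.symm

theorem cross (i k : Fin d) (hik : k ≠ i) (h : ZMod L) (f : Tor d L → ℝ) :
    ∑ x ∈ ly i h, f x * (f (x + ev k) + f (x - ev k)) ≤ 2 * ∑ x ∈ ly i h, f x ^ 2 := by
  have h1 : ∑ x ∈ ly i h, f x * (f (x + ev k) + f (x - ev k)) ≤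
      ∑ x ∈ ly i h, (f x ^ 2 + (f (x + ev k) ^ 2 + f (x - ev k) ^ 2) / 2) := by
    refine Finset.sum_le_sum fun x _ => ?_
    nlinarith [sq_nonneg (f x - f (x + ev k)), sq_nonneg (f x - f (x - ev k))]
  rw [Finset.sum_add_distrib, ← Finset.sum_div, Finset.sum_add_distrib,
    shift_ly i k hik h (fun x => f x ^ 2), shift_ly' i k hik h (fun x => f x ^ 2)] at h1
  linarith

end GNS_

theorem p_GNS (h_FLX : T_FLX) : T_GNS := by
  intro d L _ hd O φ hT
  have hd1 : (1 : ℝ) ≤ d := by exact_mod_cast hd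
  obtain ⟨_, _, _, _, hEn, _⟩ := h_FLX d L hd O φ hT
  refine ⟨?_, ?_, ?_⟩
  · intro i
    unfold gn
    rw [Finset.sum_fiberwise (s := (Finset.univ : Finset (Tor d L))) (g := fun x => x i)
      (f := fun x => φ x * (2 * φ x - φ (x + ev i) - φ (x - ev i))), ENI_.Ed_eq]
    have h1 : ∀ x : Tor d L, φ x * (2 * φ x - φ (x + ev i) - φ (x - ev i)) =
        2 * (φ x * φ x) - φ x * φ (x + ev i) - φ x * φ (x - ev i) := by
      intro x
      ring
    rw [Finset.sum_congr rfl fun x _ => h1 x, Finset.sum_sub_distrib, Finset.sum_sub_distrib,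
      ENI_.S_neg, ← Finset.mul_sum]
    unfold ip ENI_.S
    ring
  · intro i h
    have h1 : gn i φ h = ∑ x ∈ GNS_.ly i h, ((2 - 2 * d * lam O) * φ x ^ 2 +
        ∑ k ∈ Finset.univ.erase i, φ x * (φ (x + ev k) + φ (x - ev k))) := by
      unfold gn GNS_.ly
      refine Finset.sum_congr rfl fun x _ => ?_
      by_cases hx : x ∈ O
      · have h2 : ∑ k : Fin d, (φ (x + ev k) + φ (x - ev k)) = 2 * d * (lam O * φ x) := by
          rw [← hT.eq x hx]
          unfold P0
          field_simp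
        rw [← Finset.add_sum_erase _ _ (Finset.mem_univ i)] at h2
        rw [← Finset.mul_sum]
        have h3 : ∑ k ∈ Finset.univ.erase i, (φ (x + ev k) + φ (x - ev k)) =
            2 * d * (lam O * φ x) - (φ (x + ev i) + φ (x - ev i)) := by linarith
        rw [h3]
        ring
      · rw [hT.sp x hx]
        simp
    have h4 : ∑ x ∈ GNS_.ly i h, ∑ k ∈ Finset.univ.erase i, φ x * (φ (x + ev k) + φ (x - ev k)) ≤
        ∑ k ∈ Finset.univ.erase i, 2 * ∑ x ∈ GNS_.ly i h, φ x ^ 2 := by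
      rw [Finset.sum_comm]
      exact Finset.sum_le_sum fun k hk => GNS_.cross i k (Finset.ne_of_mem_erase hk) h φ
    have h5 : ∑ k ∈ (Finset.univ : Finset (Fin d)).erase i, 2 * ∑ x ∈ GNS_.ly i h, φ x ^ 2 =
        ((d : ℝ) - 1) * (2 * ∑ x ∈ GNS_.ly i h, φ x ^ 2) := by
      rw [Finset.sum_const, Finset.card_erase_of_mem (Finset.mem_univ i), Finset.card_univ,
        Fintype.card_fin, nsmul_eq_mul, Nat.cast_sub hd, Nat.cast_one]
    have h6 : ∑ x ∈ Finset.univ.filter (fun x : Tor d L => x i = h), φ x ^ 2 =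
        ∑ x ∈ GNS_.ly i h, φ x ^ 2 := rfl
    rw [h6, h1, Finset.sum_add_distrib, ← Finset.mul_sum]
    rw [h5] at h4
    nlinarith [h4]
  · by_contra hcon
    push Not at hcon
    have hne : (Finset.univ : Finset (Fin d)).Nonempty := ⟨⟨0, by omega⟩, Finset.mem_univ _⟩
    have h1 : ∑ i : Fin d, Ed i φ < ∑ _i : Fin d, 2 * (1 - lam O) :=
      Finset.sum_lt_sum_of_nonempty hne fun i _ => hcon i
    rw [Finset.sum_const, Finset.card_univ, Fintype.card_fin, nsmul_eq_mul] at h1
    unfold En at hEn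
    rw [hEn] at h1
    linarith

end

end Pool.Agent.LBL
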