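import Pool.Agent.LBL.Targets1

set_option autoImplicit false

open Finset
open scoped Classical

namespace Pool.Agent.LBL

theorem p_GOO (h_VAR : T_VAR) (h_PRB : T_PRB) (h_VUP : T_VUP) (h_GPB : T_GPB) : T_GOO := by
  intro d K0 p a hd hK0 hp hp1 ha
  obtain ⟨C, hC, hV⟩ := h_VUP d hd
  obtain ⟨c, r1, hc, hr1, hG⟩ := h_GPB d K0 p hd hK0 hp hp1
  set A0 : ℝ := a ^ (-(1 : ℝ) / 2) + 1 with hA0
  have ha1 : 0 < a ^ (-(1 : ℝ) / 2) := Real.rpow_pos_of_pos ha _
  have hA0p : 0 < A0 := by positivity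
  have hlog : Real.log p < 0 := Real.log_neg hp hp1
  set N : ℝ := C * A0 ^ d with hN
  have hNp : 0 < N := by positivity
  set B : ℝ := 1 + N * (-Real.log p) with hB
  have hBp : 0 < B := by
    have : 0 < N * (-Real.log p) := mul_pos hNp (by linarith)
    linarith
  refine ⟨B / c, max r1 (C * A0), by positivity, lt_of_lt_of_le hr1 (le_max_left _ _), ?_⟩
  intro r x L _ hr hRg hax hx
  have hr1' : r1 ≤ r := le_trans (le_max_left _ _) hr
  have hrC : C * A0 ≤ r := le_trans (le_max_right _ _) hr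
  have hr1r : 1 ≤ r := by linarith
  have hr0 : 0 < r := by linarith
  have hle : r * a ^ (-(1 : ℝ) / 2) + 1 ≤ r * A0 := by
    rw [hA0]; nlinarith
  have hL : C * (r * a ^ (-(1 : ℝ) / 2) + 1) ≤ (L : ℝ) := by
    calc C * (r * a ^ (-(1 : ℝ) / 2) + 1) ≤ C * (r * A0) := by gcongr
      _ = (C * A0) * r := by ring
      _ ≤ r * r := by gcongr
      _ = r ^ 2 := by ring
      _ ≤ r ^ (d + 4) := pow_le_pow_right₀ hr1r (by omega)
      _ ≤ L := hRg.1
  obtain ⟨V, hxV, hVc⟩ := hV a r x L ha hax hr1r hL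
  have hVc' : (V.card : ℝ) ≤ N * r ^ d := by
    refine le_trans hVc ?_
    calc C * (r * a ^ (-(1 : ℝ) / 2) + 1) ^ d ≤ C * (r * A0) ^ d := by
          have : 0 ≤ r * a ^ (-(1 : ℝ) / 2) + 1 := by positivity
          gcongr
      _ = N * r ^ d := by rw [hN, mul_pow]; ring
  have hP := h_PRB (Tor d L) p hp hp1
  have hTT : p ^ V.card ≤ TT d L p x := by
    rw [← hP.2.2.2.2 V]
    unfold TT
    apply hP.2.2.1
    intro O hVO
    exact le_trans hxV ((h_VAR d (ZMod L) (by omega) V).2.2.2.1 O hVO)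
  have hpV : Real.exp (N * r ^ d * Real.log p) ≤ p ^ V.card := by
    have h1 : p ^ V.card = Real.exp (V.card * Real.log p) := by
      rw [← Real.log_pow, Real.exp_log (pow_pos hp _)]
    rw [h1]
    apply Real.exp_le_exp.mpr
    nlinarith
  have hM : 0 ≤ B / c * r ^ d := by positivity
  have hfin := hG r L hr1' hRg (B / c * r ^ d) hM
  refine le_trans hfin ?_
  have he : -c * (B / c * r ^ d) = -r ^ d + N * r ^ d * Real.log p := by
    rw [hB]; field_simp; ring
  rw [he, Real.exp_add]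
  exact mul_le_mul_of_nonneg_left (le_trans hpV hTT) (Real.exp_pos _).le

end Pool.Agent.LBL
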