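import Pool.Agent.LBL.P_PRB

set_option autoImplicit false

/-!
# LBL: few holes, probability (T_GPB)
-/

open Finset
open scoped Classical

namespace Pool.Agent.LBL

noncomputable section

namespace GPB_

set_option linter.unusedSectionVars false

variable {d L : ℕ} [NeZero L]

/-- integer shift -/
def sh (x : Tor d L) (k : Fin d → ℕ) : Tor d L := fun i => x i + (k i : ZMod L)

lemma sh_mem (O : Finset (Tor d L)) (m : ℕ) : ∀ x ∈ hol m O, ∀ k : Fin d → ℕ, ∑ i, k i ≤ m →
    sh x k ∈ O := by
  induction m with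
  | zero =>
    intro x hx k hk
    have h0 : ∀ i, k i = 0 := by
      intro i
      have := Finset.single_le_sum (fun j _ => Nat.zero_le (k j)) (Finset.mem_univ i)
      omega
    have h1 : sh x k = x := by
      funext i
      simp [sh, h0 i]
    rw [h1]
    exact hx
  | succ m ih =>
    intro x hx k hk
    have hx' : x ∈ ero (hol m O) := by
      have : hol (m + 1) O = ero (hol m O) := by
        unfold hol
        rw [Function.iterate_succ_apply']
      rwa [← this]
    unfold ero at hx'
    rw [Finset.mem_filter] at hx'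
    by_cases hs : ∑ i, k i ≤ m
    · exact ih x hx'.1 k hs
    · have h1 : ∃ i, k i ≠ 0 := by
        by_contra hcon
        push Not at hcon
        apply hs
        simp [hcon]
      obtain ⟨i, hi⟩ := h1
      have h2 := ih (x + ev i) (hx'.2 i).1 (Function.update k i (k i - 1)) (by
        have h3 : ∑ j, Function.update k i (k i - 1) j + 1 = ∑ j, k j := by
          rw [← Finset.add_sum_erase Finset.univ _ (Finset.mem_univ i),
            ← Finset.add_sum_erase Finset.univ k (Finset.mem_univ i), Function.update_self]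
          have h4 : ∑ j ∈ Finset.univ.erase i, Function.update k i (k i - 1) j =
              ∑ j ∈ Finset.univ.erase i, k j := by
            refine Finset.sum_congr rfl fun j hj => ?_
            rw [Function.update_of_ne (Finset.ne_of_mem_erase hj)]
          rw [h4]
          omega
        omega)
      have h5 : sh (x + ev i) (Function.update k i (k i - 1)) = sh x k := by
        funext j
        unfold sh ev
        by_cases hj : j = i
        · subst hj
          rw [Function.update_self, Pi.add_apply, Pi.single_eq_same, add_assoc]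
          congr 1
          have : k j = (k j - 1) + 1 := by omega
          conv_rhs => rw [this]
          push_cast
          ring
        · rw [Function.update_of_ne hj, Pi.add_apply, Pi.single_eq_of_ne hj, add_zero]
      rw [← h5]
      exact h2

/-- cube -/
def cu (q : ℕ) (x : Tor d L) : Finset (Tor d L) :=
  (Fintype.piFinset fun _ : Fin d => Finset.range q).image (sh x)

lemma cu_card (q : ℕ) (hq : q ≤ L) (x : Tor d L) : (cu q x).card = q ^ d := by
  unfold cu
  rw [Finset.card_image_of_injOn]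
  · simp
  · intro k hk k' hk' h
    funext i
    have h1 := congrFun h i
    unfold sh at h1
    have h2 := add_left_cancel h1
    rw [Finset.mem_coe, Fintype.mem_piFinset] at hk hk'
    have h3 := Finset.mem_range.1 (hk i)
    have h4 := Finset.mem_range.1 (hk' i)
    rw [ZMod.natCast_eq_natCast_iff'] at h2
    rwa [Nat.mod_eq_of_lt (by omega), Nat.mod_eq_of_lt (by omega)] at h2

lemma cu_sub (q : ℕ) (O : Finset (Tor d L)) (x : Tor d L) (hx : x ∈ hol (d * q) O) :
    cu q x ⊆ O := by
  intro y hy
  unfold cu at hy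
  obtain ⟨k, hk, rfl⟩ := Finset.mem_image.1 hy
  rw [Fintype.mem_piFinset] at hk
  refine sh_mem O (d * q) x hx k ?_
  calc ∑ i, k i ≤ ∑ _i : Fin d, q := Finset.sum_le_sum fun i _ =>
        (Finset.mem_range.1 (hk i)).le
    _ = d * q := by simp

/-- points whose cube meets the cube of `s` -/
def nb (q : ℕ) (s : Tor d L) : Finset (Tor d L) :=
  (Fintype.piFinset fun _ : Fin d => Finset.range (2 * q)).image
    fun j => fun i => s i + ((j i : ZMod L) - (q : ZMod L))

lemma nb_card (q : ℕ) (s : Tor d L) : (nb q s).card ≤ (2 * q) ^ d := by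
  unfold nb
  refine Finset.card_image_le.trans ?_
  simp

lemma mem_nb (q : ℕ) (s h : Tor d L) (hd : ¬ Disjoint (cu q h) (cu q s)) : h ∈ nb q s := by
  rw [Finset.not_disjoint_iff] at hd
  obtain ⟨y, hy1, hy2⟩ := hd
  unfold cu at hy1 hy2
  obtain ⟨k, hk, hk1⟩ := Finset.mem_image.1 hy1
  obtain ⟨k', hk', hk1'⟩ := Finset.mem_image.1 hy2
  rw [Fintype.mem_piFinset] at hk hk'
  unfold nb
  refine Finset.mem_image.2 ⟨fun i => k' i + q - k i, ?_, ?_⟩
  · rw [Fintype.mem_piFinset]
    intro i
    have h3 := Finset.mem_range.1 (hk i)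
    have h4 := Finset.mem_range.1 (hk' i)
    exact Finset.mem_range.2 (by omega)
  · funext i
    have h3 := Finset.mem_range.1 (hk i)
    have h5 : h i + (k i : ZMod L) = s i + (k' i : ZMod L) := by
      have := congrFun (hk1.trans hk1'.symm) i
      exact this
    have h6 : ((k' i + q - k i : ℕ) : ZMod L) = (k' i : ZMod L) + q - k i := by
      rw [Nat.cast_sub (by omega)]
      push_cast
      ring
    show s i + (((k' i + q - k i : ℕ) : ZMod L) - (q : ZMod L)) = h i
    rw [h6]
    have h7 : h i = s i + (k' i : ZMod L) - k i := by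
      rw [← h5]
      ring
    rw [h7]
    ring

/-- pairwise disjoint cubes -/
def Dj (q : ℕ) (S : Finset (Tor d L)) : Prop :=
  ∀ x ∈ S, ∀ y ∈ S, x ≠ y → Disjoint (cu q x) (cu q y)

lemma greedy (q : ℕ) (hq : 1 ≤ q) (H : Finset (Tor d L)) :
    ∃ S ⊆ H, Dj q S ∧ H.card ≤ S.card * (2 * q) ^ d := by
  have hne : (H.powerset.filter fun S => Dj q S).Nonempty :=
    ⟨∅, Finset.mem_filter.2 ⟨Finset.empty_mem_powerset _, fun x hx => absurd hx (by simp)⟩⟩
  obtain ⟨S, hS, hmax⟩ := Finset.exists_max_image _ Finset.card hne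
  rw [Finset.mem_filter, Finset.mem_powerset] at hS
  refine ⟨S, hS.1, hS.2, ?_⟩
  have hcov : H ⊆ S.biUnion (nb q) := by
    intro h hh
    rw [Finset.mem_biUnion]
    by_contra hcon
    push Not at hcon
    have hdis : ∀ s ∈ S, Disjoint (cu q h) (cu q s) := by
      intro s hs
      by_contra hd
      exact hcon s hs (mem_nb q s h hd)
    have hnS : h ∉ S := by
      intro hS'
      have h1 := hdis h hS'
      rw [disjoint_self] at h1
      have h2 : sh h (fun _ => 0) ∈ cu q h := by
        unfold cu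
        refine Finset.mem_image.2 ⟨fun _ => 0, ?_, rfl⟩
        rw [Fintype.mem_piFinset]
        intro i
        exact Finset.mem_range.2 hq
      rw [h1] at h2
      simp at h2
    have h3 := hmax (insert h S) (by
      rw [Finset.mem_filter, Finset.mem_powerset]
      refine ⟨Finset.insert_subset hh hS.1, ?_⟩
      intro x hx y hy hxy
      rcases Finset.mem_insert.1 hx with hx1 | hx1
      · rcases Finset.mem_insert.1 hy with hy1 | hy1
        · exact absurd (hx1.trans hy1.symm) hxy
        · rw [hx1]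
          exact hdis y hy1
      · rcases Finset.mem_insert.1 hy with hy1 | hy1
        · rw [hy1]
          exact (hdis x hx1).symm
        · exact hS.2 x hx1 y hy1 hxy)
    rw [Finset.card_insert_of_notMem hnS] at h3
    omega
  calc H.card ≤ (S.biUnion (nb q)).card := Finset.card_le_card hcov
    _ ≤ ∑ s ∈ S, (nb q s).card := Finset.card_biUnion_le
    _ ≤ ∑ _s ∈ S, (2 * q) ^ d := Finset.sum_le_sum fun s _ => nb_card q s
    _ = S.card * (2 * q) ^ d := by rw [Finset.sum_const, smul_eq_mul]

lemma union (q k : ℕ) (hq : 1 ≤ q) (hqL : q ≤ L) (p M : ℝ) (h0 : 0 < p) (h1 : p < 1)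
    (hk : ∀ n : ℕ, M < ((n * (2 * q) ^ d : ℕ) : ℝ) → k ≤ n) :
    pr p (fun O : Finset (Tor d L) => M < ((hol (d * q) O).card : ℝ)) ≤
      ((L : ℝ) ^ d * p ^ (q ^ d)) ^ k := by
  have hb := PRB_.pr_union h0 h1 (Finset (Tor d L))
    ((Finset.powersetCard k (Finset.univ : Finset (Tor d L))).filter fun S => Dj q S)
    (fun O : Finset (Tor d L) => M < ((hol (d * q) O).card : ℝ))
    (fun S O => S.biUnion (cu q) ⊆ O) (by
      intro O hO
      obtain ⟨S, hS1, hS2, hS3⟩ := greedy q hq (hol (d * q) O)
      have h2 : k ≤ S.card := by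
        refine hk _ (lt_of_lt_of_le hO ?_)
        exact_mod_cast hS3
      obtain ⟨S', hS', hc⟩ := Finset.exists_subset_card_eq h2
      refine ⟨S', ?_, ?_⟩
      · rw [Finset.mem_filter, Finset.mem_powersetCard]
        exact ⟨⟨Finset.subset_univ _, hc⟩,
          fun x hx y hy hxy => hS2 x (hS' hx) y (hS' hy) hxy⟩
      · rw [Finset.biUnion_subset]
        intro x hx
        exact cu_sub q O x (hS1 (hS' hx)))
  refine hb.trans ?_
  have h3 : ∀ S ∈ (Finset.powersetCard k (Finset.univ : Finset (Tor d L))).filter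
      fun S => Dj q S, pr p (fun O => S.biUnion (cu q) ⊆ O) = (p ^ (q ^ d)) ^ k := by
    intro S hS
    rw [Finset.mem_filter, Finset.mem_powersetCard] at hS
    rw [PRB_.pr_subset, Finset.card_biUnion (fun x hx y hy hxy => hS.2 x hx y hy hxy)]
    simp only [cu_card q hqL]
    rw [Finset.sum_const, hS.1.2, smul_eq_mul, ← pow_mul, mul_comm]
  rw [Finset.sum_congr rfl h3, Finset.sum_const, nsmul_eq_mul, mul_pow]
  refine mul_le_mul_of_nonneg_right ?_ (by positivity)
  have h4 : ((Finset.powersetCard k (Finset.univ : Finset (Tor d L))).filter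
      fun S => Dj q S).card ≤ (L ^ d) ^ k := by
    refine (Finset.card_filter_le _ _).trans ?_
    rw [Finset.card_powersetCard, Finset.card_univ]
    have h5 : Fintype.card (Tor d L) = L ^ d := by
      simp [Tor, ZMod.card]
    rw [h5]
    exact Nat.choose_le_pow _ _
  exact_mod_cast h4

end GPB_

open GPB_ in
/-- few holes -/
theorem p_GPB : T_GPB := by
  intro d K0 p hd hK h0 h1
  have hlp : 0 < -Real.log p := by
    have := Real.log_neg h0 h1
    linarith
  have hd0 : (0 : ℝ) < d := by exact_mod_cast (by omega : 0 < d)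
  have hK0 : (0 : ℝ) < K0 := by exact_mod_cast (by omega : 0 < K0)
  set B : ℝ := 4 * K0 * d / (-Real.log p) with hB
  have hBpos : 0 < B := by positivity
  have hpinv : 0 < 1 / p := by positivity
  refine ⟨(-Real.log p) / (2 * 4 ^ d), 2 + B + 1 / p, by positivity, by linarith, ?_⟩
  intro r L _ hr hRg M hM
  have hr2 : 2 ≤ r := by linarith
  have hrB : B ≤ r := by linarith
  have hrp : 1 / p ≤ r := by linarith
  have hr0 : 0 < r := by linarith
  have hlr : -Real.log p ≤ Real.log r := by
    rw [← Real.log_inv]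
    apply Real.log_le_log (by positivity)
    rw [← one_div]
    exact hrp
  have hlr0 : 0 < Real.log r := lt_of_lt_of_le hlp hlr
  set v : ℝ := (2 * K0 * d * Real.log r / (-Real.log p)) ^ ((1 : ℝ) / d) with hv
  set w : ℝ := 2 * K0 * d * Real.log r / (-Real.log p) with hw
  have hw0 : 0 < w := by positivity
  have hKd : (2 : ℝ) ≤ K0 * d := by
    have h2 : (1 : ℝ) ≤ K0 := by exact_mod_cast hK
    have h3 : (2 : ℝ) ≤ d := by exact_mod_cast hd
    nlinarith
  have hw1 : 1 ≤ w := by
    rw [hw, le_div_iff₀ hlp]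
    nlinarith
  have hvd : v ^ d = w := by
    rw [hv, ← Real.rpow_natCast, ← Real.rpow_mul hw0.le, one_div, inv_mul_cancel₀ hd0.ne',
      Real.rpow_one]
  have hv1 : 1 ≤ v := by
    rw [hv]
    exact Real.one_le_rpow hw1 (by positivity)
  have hv0 : 0 < v := by linarith
  set q : ℕ := ⌈v⌉₊ with hq
  have hmm : mm d p K0 r = d * q := rfl
  have hqv : v ≤ q := Nat.le_ceil v
  have hq2 : (q : ℝ) ≤ 2 * v := by
    have := Nat.ceil_lt_add_one hv0.le
    rw [← hq] at this
    linarith
  have hq1 : 1 ≤ q := by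
    have : (1 : ℝ) ≤ q := hv1.trans hqv
    exact_mod_cast this
  have hqL : q ≤ L := by
    have h2 : v ≤ v ^ d := le_self_pow₀ hv1 (by omega)
    have h3 : (q : ℝ) ≤ B * Real.log r := by
      calc (q : ℝ) ≤ 2 * v ^ d := by linarith
        _ = B * Real.log r := by rw [hvd, hw, hB]; ring
    have h4 : Real.log r ≤ r := by
      have := Real.log_le_sub_one_of_pos hr0
      linarith
    have h5 : B * Real.log r ≤ r ^ 2 := by
      calc B * Real.log r ≤ r * r := mul_le_mul hrB h4 hlr0.le hr0.le
        _ = r ^ 2 := by ring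
    have h6 : r ^ 2 ≤ r ^ (d + 4) := pow_le_pow_right₀ (by linarith) (by omega)
    have h7 : (q : ℝ) ≤ L := by linarith [hRg.1]
    exact_mod_cast h7
  have h2q : (0 : ℝ) < (2 * (q : ℝ)) ^ d := by
    have : (0 : ℝ) < q := by exact_mod_cast (by omega : 0 < q)
    positivity
  have hu := union (d := d) (L := L) q ⌈M / (2 * (q : ℝ)) ^ d⌉₊ hq1 hqL p M h0 h1 (by
    intro n hn
    rw [Nat.ceil_le, div_le_iff₀ h2q]
    push_cast at hn
    exact hn.le)
  rw [hmm]
  refine hu.trans ?_
  have hLr : (L : ℝ) ^ d ≤ Real.exp (K0 * d * Real.log r) := by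
    have h2 : (L : ℝ) ^ d ≤ (r ^ K0) ^ d := pow_le_pow_left₀ (by positivity) hRg.2 d
    have h3 : Real.exp (K0 * d * Real.log r) = (r ^ K0) ^ d := by
      rw [← pow_mul, mul_comm ((K0 : ℝ) * d), ← Nat.cast_mul, Real.exp_mul,
        Real.exp_log hr0, Real.rpow_natCast]
    rw [h3]
    exact h2
  have hpq : p ^ (q ^ d) ≤ Real.exp (-(2 * K0 * d * Real.log r)) := by
    have h2 : p ^ (q ^ d) = Real.exp ((q : ℝ) ^ d * Real.log p) := by
      rw [mul_comm, Real.exp_mul, Real.exp_log h0, ← Nat.cast_pow, Real.rpow_natCast]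
    rw [h2, Real.exp_le_exp]
    have h3 : w ≤ (q : ℝ) ^ d := by
      rw [← hvd]
      exact pow_le_pow_left₀ hv0.le hqv d
    have h4 : 2 * K0 * d * Real.log r = w * (-Real.log p) := by
      rw [hw, div_mul_cancel₀ _ hlp.ne']
    rw [h4]
    nlinarith
  have hprod : (L : ℝ) ^ d * p ^ (q ^ d) ≤ Real.exp (-(K0 * d * Real.log r)) := by
    calc (L : ℝ) ^ d * p ^ (q ^ d) ≤ Real.exp (K0 * d * Real.log r) *
          Real.exp (-(2 * K0 * d * Real.log r)) :=
        mul_le_mul hLr hpq (by positivity) (Real.exp_pos _).le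
      _ = Real.exp (-(K0 * d * Real.log r)) := by
        rw [← Real.exp_add]
        congr 1
        ring
  have hk := Nat.le_ceil (M / (2 * (q : ℝ)) ^ d)
  calc ((L : ℝ) ^ d * p ^ (q ^ d)) ^ ⌈M / (2 * (q : ℝ)) ^ d⌉₊
      ≤ Real.exp (-(K0 * d * Real.log r)) ^ ⌈M / (2 * (q : ℝ)) ^ d⌉₊ :=
        pow_le_pow_left₀ (by positivity) hprod _
    _ = Real.exp (⌈M / (2 * (q : ℝ)) ^ d⌉₊ * (-(K0 * d * Real.log r))) := by
        rw [Real.exp_nat_mul]
    _ ≤ Real.exp (-((-Real.log p) / (2 * 4 ^ d)) * M) := by
        rw [Real.exp_le_exp]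
        have h3 : (2 * (q : ℝ)) ^ d ≤ 4 ^ d * w := by
          rw [← hvd, ← mul_pow]
          exact pow_le_pow_left₀ (by positivity) (by linarith) d
        have h4 : M / (4 ^ d * w) ≤ M / (2 * (q : ℝ)) ^ d :=
          div_le_div_of_nonneg_left hM h2q h3
        have h5 : M / (4 ^ d * w) * (K0 * d * Real.log r) = (-Real.log p) / (2 * 4 ^ d) * M := by
          rw [hw]
          field_simp
        have h6 : M / (4 ^ d * w) * (K0 * d * Real.log r) ≤
            ⌈M / (2 * (q : ℝ)) ^ d⌉₊ * (K0 * d * Real.log r) :=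
          mul_le_mul_of_nonneg_right (h4.trans hk) (by positivity)
        linarith

end

end Pool.Agent.LBL
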