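import Pool.Agent.LBL.Targets3

/-!
# LBL: gradient bound by reflection and barrier (T_GRA, helper5)
-/

set_option autoImplicit false

open Finset
open scoped Classical

namespace Pool.Agent.LBL

namespace GRA_

variable {d : ℕ}

/-- square of the euclidean norm -/
noncomputable def N2 (x : Fin d → ℤ) : ℝ := ∑ j, (x j : ℝ) ^ 2

/-- the barrier -/
noncomputable def bar (t : (Fin d → ℤ) →+ ℤ) (S D : ℝ) (x : Fin d → ℤ) : ℝ :=
  2 * S * (N2 x / D ^ 2 + 4 * d * (t x : ℝ) / D - 2 * d * (t x : ℝ) ^ 2 / D ^ 2)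

theorem ev_apply (i j : Fin d) : (ev i : Fin d → ℤ) j = if j = i then 1 else 0 := by
  unfold ev
  rw [Pi.single_apply]

theorem N2_shift (x : Fin d → ℤ) (i : Fin d) :
    N2 (x + ev i) + N2 (x - ev i) = 2 * N2 x + 2 := by
  unfold N2
  have h : ∀ j : Fin d, (((x + ev i : Fin d → ℤ) j : ℤ) : ℝ) ^ 2 +
      (((x - ev i : Fin d → ℤ) j : ℤ) : ℝ) ^ 2 =
      2 * (x j : ℝ) ^ 2 + (if j = i then 2 else 0) := by
    intro j
    rw [Pi.add_apply, Pi.sub_apply, ev_apply]
    by_cases hj : j = i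
    · rw [if_pos hj, if_pos hj]
      push_cast
      ring
    · rw [if_neg hj, if_neg hj]
      push_cast
      ring
  rw [← Finset.sum_add_distrib, Finset.sum_congr rfl fun j _ => h j, Finset.sum_add_distrib,
    ← Finset.mul_sum, Finset.sum_ite_eq' Finset.univ i, if_pos (Finset.mem_univ i)]

theorem t_shift (t : (Fin d → ℤ) →+ ℤ) (x : Fin d → ℤ) (i : Fin d) :
    ((t (x + ev i) : ℤ) : ℝ) + ((t (x - ev i) : ℤ) : ℝ) = 2 * (t x : ℝ) := by
  rw [map_add, map_sub]
  push_cast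
  ring

theorem t_shift2 (t : (Fin d → ℤ) →+ ℤ) (x : Fin d → ℤ) (i : Fin d) :
    ((t (x + ev i) : ℤ) : ℝ) ^ 2 + ((t (x - ev i) : ℤ) : ℝ) ^ 2 =
      2 * (t x : ℝ) ^ 2 + 2 * ((t (ev i) : ℤ) : ℝ) ^ 2 := by
  rw [map_add, map_sub]
  push_cast
  ring

theorem P0_bar (hd : 1 ≤ d) (t : (Fin d → ℤ) →+ ℤ) (S D : ℝ) (x : Fin d → ℤ) :
    bar t S D x - P0 (bar t S D) x =
      2 * S / D ^ 2 * (2 * ∑ i, ((t (ev i) : ℤ) : ℝ) ^ 2 - 1) := by
  have hd0 : (0 : ℝ) < d := by exact_mod_cast hd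
  unfold P0
  have h : ∀ i : Fin d, bar t S D (x + ev i) + bar t S D (x - ev i) =
      2 * bar t S D x + 4 * S / D ^ 2 - 8 * d * S / D ^ 2 * ((t (ev i) : ℤ) : ℝ) ^ 2 := by
    intro i
    have h1 := N2_shift x i
    have h2 := t_shift t x i
    have h3 := t_shift2 t x i
    unfold bar
    have e : ∀ a b c a' b' c' : ℝ, 2 * S * (a / D ^ 2 + 4 * d * b / D - 2 * d * c / D ^ 2) +
        2 * S * (a' / D ^ 2 + 4 * d * b' / D - 2 * d * c' / D ^ 2) =
        2 * S * ((a + a') / D ^ 2 + 4 * d * (b + b') / D - 2 * d * (c + c') / D ^ 2) := by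
      intro a b c a' b' c'
      ring
    rw [e, h1, h2, h3]
    ring
  rw [Finset.sum_congr rfl fun i _ => h i, Finset.sum_sub_distrib, Finset.sum_const,
    ← Finset.mul_sum, Finset.card_univ, Fintype.card_fin, nsmul_eq_mul]
  field_simp
  ring

theorem t_box (t : (Fin d → ℤ) →+ ℤ) (ht : ∀ (D : ℤ) (x : Fin d → ℤ), 0 ≤ D →
    (∀ j, |x j| ≤ D) → |t x| ≤ 2 * D) (D : ℕ) (x : Fin d → ℤ) (hx : ∀ j, |x j| ≤ D) :
    (t x : ℝ) ≤ 2 * D := by
  have h := le_of_abs_le (ht D x (by positivity) hx)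
  exact_mod_cast h

theorem N2_le (D : ℕ) (x : Fin d → ℤ) (hx : ∀ j, |x j| ≤ D) : N2 x ≤ d * (D : ℝ) ^ 2 := by
  unfold N2
  calc ∑ j, (x j : ℝ) ^ 2 ≤ ∑ _j : Fin d, (D : ℝ) ^ 2 := by
        refine Finset.sum_le_sum fun j _ => ?_
        have h : |(x j : ℝ)| ≤ D := by exact_mod_cast hx j
        rw [← sq_abs]
        exact pow_le_pow_left₀ (abs_nonneg _) h 2
    _ = d * (D : ℝ) ^ 2 := by simp

theorem N2_nonneg (x : Fin d → ℤ) : 0 ≤ N2 x := by
  unfold N2
  positivity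

theorem bar_le (t : (Fin d → ℤ) →+ ℤ) (S : ℝ) (hS : 0 ≤ S) (D : ℕ) (hD : 1 ≤ D)
    (x : Fin d → ℤ) (hx : ∀ j, |x j| ≤ D) : bar t S D x ≤ 6 * d * S := by
  have hD0 : (0 : ℝ) < D := by exact_mod_cast hD
  have h1 := N2_le D x hx
  unfold bar
  have h2 : N2 x / (D : ℝ) ^ 2 ≤ d := by
    rw [div_le_iff₀ (by positivity)]
    exact h1
  have h3 : 4 * (d : ℝ) * (t x : ℝ) / D - 2 * d * (t x : ℝ) ^ 2 / (D : ℝ) ^ 2 ≤ 2 * d := by
    have e : 4 * (d : ℝ) * (t x : ℝ) / D - 2 * d * (t x : ℝ) ^ 2 / (D : ℝ) ^ 2 =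
        2 * d * (1 - ((t x : ℝ) / D - 1) ^ 2) := by
      field_simp
      ring
    rw [e]
    have hd0 : (0 : ℝ) ≤ d := Nat.cast_nonneg _
    nlinarith [sq_nonneg ((t x : ℝ) / D - 1)]
  calc 2 * S * (N2 x / (D : ℝ) ^ 2 + 4 * d * (t x : ℝ) / D - 2 * d * (t x : ℝ) ^ 2 / (D : ℝ) ^ 2)
      ≤ 2 * S * (3 * d) := by
        apply mul_le_mul_of_nonneg_left _ (by positivity)
        linarith
    _ = 6 * d * S := by ring

theorem bar_eq (t : (Fin d → ℤ) →+ ℤ) (S : ℝ) (D : ℕ) (hD : 1 ≤ D) (x : Fin d → ℤ) :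
    bar t S D x = 2 * S * (N2 x / (D : ℝ) ^ 2 + 2 * d * ((t x : ℝ) / D) * (2 - (t x : ℝ) / D)) := by
  have hD0 : (0 : ℝ) < D := by exact_mod_cast hD
  unfold bar
  field_simp
  ring

theorem bar_nonneg (t : (Fin d → ℤ) →+ ℤ) (S : ℝ) (hS : 0 ≤ S) (D : ℕ) (hD : 1 ≤ D)
    (x : Fin d → ℤ) (h0 : 0 ≤ t x) (h2 : (t x : ℝ) ≤ 2 * D) : 0 ≤ bar t S D x := by
  have hD0 : (0 : ℝ) < D := by exact_mod_cast hD
  rw [bar_eq t S D hD]
  have h3 : (0 : ℝ) ≤ (t x : ℝ) := by exact_mod_cast h0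
  have h4 : (t x : ℝ) / D ≤ 2 := by
    rw [div_le_iff₀ hD0]
    exact h2
  have h5 := N2_nonneg x
  have h6 : 0 ≤ 2 - (t x : ℝ) / D := by linarith
  positivity

theorem bar_pos (hd : 1 ≤ d) (t : (Fin d → ℤ) →+ ℤ) (S : ℝ) (hS : 0 < S) (D : ℕ) (hD : 1 ≤ D)
    (x : Fin d → ℤ) (h0 : 0 < t x) (h2 : (t x : ℝ) < 2 * D) : 0 < bar t S D x := by
  have hD0 : (0 : ℝ) < D := by exact_mod_cast hD
  have hd0 : (0 : ℝ) < d := by exact_mod_cast hd
  rw [bar_eq t S D hD]
  have h3 : (0 : ℝ) < (t x : ℝ) := by exact_mod_cast h0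
  have h4 : (t x : ℝ) / D < 2 := by
    rw [div_lt_iff₀ hD0]
    exact h2
  have h5 := N2_nonneg x
  have h6 : 0 < 2 - (t x : ℝ) / D := by linarith
  positivity

theorem bar_bd (t : (Fin d → ℤ) →+ ℤ) (S : ℝ) (hS : 0 ≤ S) (D : ℕ) (hD : 1 ≤ D)
    (x : Fin d → ℤ) (h0 : 0 ≤ t x) (h2 : (t x : ℝ) ≤ 2 * D) (j : Fin d) (hj : |x j| = D) :
    2 * S ≤ bar t S D x := by
  have hD0 : (0 : ℝ) < D := by exact_mod_cast hD
  rw [bar_eq t S D hD]
  have h3 : (0 : ℝ) ≤ (t x : ℝ) := by exact_mod_cast h0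
  have h4 : (t x : ℝ) / D ≤ 2 := by
    rw [div_le_iff₀ hD0]
    exact h2
  have h6 : 0 ≤ 2 - (t x : ℝ) / D := by linarith
  have h7 : (D : ℝ) ^ 2 ≤ N2 x := by
    unfold N2
    have h8 : (D : ℝ) ^ 2 = (x j : ℝ) ^ 2 := by
      rw [← sq_abs (x j : ℝ)]
      congr 1
      exact_mod_cast hj.symm
    rw [h8]
    exact Finset.single_le_sum (f := fun j => (x j : ℝ) ^ 2) (fun i _ => sq_nonneg _)
      (Finset.mem_univ j)
  have h8 : 1 ≤ N2 x / (D : ℝ) ^ 2 := by
    rw [le_div_iff₀ (by positivity)]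
    linarith
  have h9 : 0 ≤ 2 * (d : ℝ) * ((t x : ℝ) / D) * (2 - (t x : ℝ) / D) := by positivity
  nlinarith

/-- one sided comparison -/
theorem cmp (hd : 1 ≤ d) (t : (Fin d → ℤ) →+ ℤ)
    (ht : ∀ (D : ℤ) (x : Fin d → ℤ), 0 ≤ D → (∀ j, |x j| ≤ D) → |t x| ≤ 2 * D)
    (hte : ∀ i, |t (ev i)| ≤ 1) (hts : 1 ≤ ∑ i, (t (ev i)) ^ 2)
    (w : (Fin d → ℤ) → ℝ) (D : ℕ) (hD : 2 ≤ D) (μ S : ℝ) (hμ : 0 ≤ μ)
    (hμD : μ * D ^ 2 ≤ 1 / (6 * d)) (hS : 0 < S)
    (h0 : ∀ x, t x = 0 → w x ≤ 0) (h1 : ∀ x : Fin d → ℤ, (∀ i, |x i| ≤ D) → w x ≤ 2 * S)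
    (h2 : ∀ x : Fin d → ℤ, (∀ i, |x i| ≤ D - 1) → (1 - μ) * w x - P0 w x ≤ S / D ^ 2)
    (x : Fin d → ℤ) (hx : ∀ i, |x i| ≤ D) (hxt : 0 ≤ t x) : w x ≤ bar t S D x := by
  have hd0 : (0 : ℝ) < d := by exact_mod_cast hd
  have hD1 : 1 ≤ D := by omega
  have hD0 : (0 : ℝ) < D := by exact_mod_cast hD1
  -- on the boundary
  have hbd : ∀ y : Fin d → ℤ, (∀ i, |y i| ≤ (D : ℤ)) → 0 ≤ t y →
      ¬ ((∀ i, |y i| ≤ (D : ℤ) - 1) ∧ 1 ≤ t y) → w y ≤ bar t S D y := by
    intro y hy hyt hn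
    have hy2 := t_box t ht D y hy
    by_cases h3 : t y = 0
    · exact (h0 y h3).trans (bar_nonneg t S hS.le D hD1 y hyt hy2)
    · have h4 : ¬ ∀ i, |y i| ≤ (D : ℤ) - 1 := fun h => hn ⟨h, by omega⟩
      push Not at h4
      obtain ⟨j, hj⟩ := h4
      have h5 := hy j
      exact (h1 y hy).trans (bar_bd t S hS.le D hD1 y hyt hy2 j (by omega))
  by_contra hlt
  push Not at hlt
  set H : Finset (Fin d → ℤ) := (Fintype.piFinset fun _ : Fin d =>
    Finset.Icc (-((D : ℤ) - 1)) ((D : ℤ) - 1)).filter fun y => 1 ≤ t y with hH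
  have memH : ∀ y, y ∈ H ↔ (∀ i, |y i| ≤ (D : ℤ) - 1) ∧ 1 ≤ t y := by
    intro y
    rw [hH, Finset.mem_filter, Fintype.mem_piFinset]
    simp only [Finset.mem_Icc, abs_le]
  have hxH : x ∈ H := by
    rw [memH]
    by_contra hn
    exact absurd (hbd x hx hxt hn) (not_le.2 hlt)
  have hpos : ∀ y ∈ H, 0 < bar t S D y := by
    intro y hy
    rw [memH] at hy
    apply bar_pos hd t S hS D hD1 y (by omega)
    have h3 := le_of_abs_le (ht (D - 1) y (by omega) hy.1)
    have h4 : t y < 2 * (D : ℤ) := by omega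
    exact_mod_cast h4
  obtain ⟨x0, hx0, hmin⟩ := Finset.exists_min_image H
    (fun y => (bar t S D y - w y) / bar t S D y) ⟨x, hxH⟩
  set κ : ℝ := -((bar t S D x0 - w x0) / bar t S D x0) with hκ
  have hκ0 : 0 < κ := by
    have h3 := hmin x hxH
    have h4 : (bar t S D x - w x) / bar t S D x < 0 :=
      div_neg_of_neg_of_pos (by linarith) (hpos x hxH)
    rw [hκ]
    linarith
  have hv : ∀ y : Fin d → ℤ, (∀ i, |y i| ≤ (D : ℤ)) → 0 ≤ t y →
      0 ≤ (1 + κ) * bar t S D y - w y := by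
    intro y hy hyt
    by_cases hyH : y ∈ H
    · have h3 := hmin y hyH
      have h4 := hpos y hyH
      have h5 : -κ ≤ (bar t S D y - w y) / bar t S D y := by
        rw [hκ, neg_neg]
        exact h3
      rw [le_div_iff₀ h4] at h5
      linarith
    · rw [memH] at hyH
      have h3 := hbd y hy hyt hyH
      have h4 := bar_nonneg t S hS.le D hD1 y hyt (t_box t ht D y hy)
      nlinarith
  have hx0' := (memH x0).1 hx0
  have hx0D : ∀ i, |x0 i| ≤ (D : ℤ) := fun i => by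
    have := hx0'.1 i
    omega
  have h3 : (1 + κ) * bar t S D x0 - w x0 = 0 := by
    have h4 := hpos x0 hx0
    rw [hκ]
    field_simp
    ring
  have hnb : ∀ i : Fin d, (∀ j, |(x0 + ev i : Fin d → ℤ) j| ≤ (D : ℤ)) ∧
      (∀ j, |(x0 - ev i : Fin d → ℤ) j| ≤ (D : ℤ)) ∧
      0 ≤ t (x0 + ev i) ∧ 0 ≤ t (x0 - ev i) := by
    intro i
    have h4 := hte i
    rw [abs_le] at h4
    refine ⟨?_, ?_, ?_, ?_⟩
    · intro j
      have h5 := hx0'.1 j
      rw [Pi.add_apply, ev_apply]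
      rw [abs_le] at h5 ⊢
      split_ifs <;> constructor <;> omega
    · intro j
      have h5 := hx0'.1 j
      rw [Pi.sub_apply, ev_apply]
      rw [abs_le] at h5 ⊢
      split_ifs <;> constructor <;> omega
    · rw [map_add]
      have := hx0'.2
      omega
    · rw [map_sub]
      have := hx0'.2
      omega
  have h4 : 0 ≤ (1 + κ) * P0 (bar t S D) x0 - P0 w x0 := by
    have e : (1 + κ) * P0 (bar t S D) x0 - P0 w x0 =
        (∑ i : Fin d, (((1 + κ) * bar t S D (x0 + ev i) - w (x0 + ev i)) +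
          ((1 + κ) * bar t S D (x0 - ev i) - w (x0 - ev i)))) / (2 * d) := by
      unfold P0
      rw [← mul_div_assoc, ← sub_div, Finset.mul_sum, ← Finset.sum_sub_distrib]
      congr 1
      refine Finset.sum_congr rfl fun i _ => ?_
      ring
    rw [e]
    apply div_nonneg _ (by positivity)
    refine Finset.sum_nonneg fun i _ => ?_
    obtain ⟨a1, a2, a3, a4⟩ := hnb i
    exact add_nonneg (hv _ a1 a3) (hv _ a2 a4)
  have h5 := h2 x0 hx0'.1
  have h6 := P0_bar hd t S D x0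
  have h7 : (1 : ℝ) ≤ ∑ i, ((t (ev i) : ℤ) : ℝ) ^ 2 := by exact_mod_cast hts
  have h8 : 2 * S / (D : ℝ) ^ 2 ≤ bar t S D x0 - P0 (bar t S D) x0 := by
    rw [h6]
    have : 0 ≤ 2 * S / (D : ℝ) ^ 2 := by positivity
    nlinarith
  have h9 : μ * bar t S D x0 ≤ S / (D : ℝ) ^ 2 := by
    have h10 := bar_le t S hS.le D hD1 x0 hx0D
    have h11 : μ ≤ 1 / (6 * d) / (D : ℝ) ^ 2 := by
      rw [le_div_iff₀ (by positivity)]
      exact hμD
    calc μ * bar t S D x0 ≤ μ * (6 * d * S) := mul_le_mul_of_nonneg_left h10 hμ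
      _ ≤ 1 / (6 * d) / (D : ℝ) ^ 2 * (6 * d * S) :=
        mul_le_mul_of_nonneg_right h11 (by positivity)
      _ = S / (D : ℝ) ^ 2 := by
        field_simp
  have h10 : S / (D : ℝ) ^ 2 ≤ (1 - μ) * bar t S D x0 - P0 (bar t S D) x0 := by
    have e : 2 * S / (D : ℝ) ^ 2 = S / (D : ℝ) ^ 2 + S / (D : ℝ) ^ 2 := by ring
    linarith
  have h11 : 0 < S / (D : ℝ) ^ 2 := by positivity
  have h12 : (1 - μ) * ((1 + κ) * bar t S D x0 - w x0) = 0 := by rw [h3, mul_zero]
  nlinarith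

/-- two sided comparison, at a point with small barrier -/
theorem cmp2 (hd : 1 ≤ d) (t : (Fin d → ℤ) →+ ℤ)
    (ht : ∀ (D : ℤ) (x : Fin d → ℤ), 0 ≤ D → (∀ j, |x j| ≤ D) → |t x| ≤ 2 * D)
    (hte : ∀ i, |t (ev i)| ≤ 1) (hts : 1 ≤ ∑ i, (t (ev i)) ^ 2)
    (w : (Fin d → ℤ) → ℝ) (D : ℕ) (hD : 2 ≤ D) (μ S : ℝ) (hμ : 0 ≤ μ)
    (hμD : μ * D ^ 2 ≤ 1 / (6 * d)) (hS : 0 ≤ S)
    (h0 : ∀ x, t x = 0 → w x = 0) (h1 : ∀ x : Fin d → ℤ, (∀ i, |x i| ≤ D) → |w x| ≤ 2 * S)
    (h2 : ∀ x : Fin d → ℤ, (∀ i, |x i| ≤ D - 1) → |(1 - μ) * w x - P0 w x| ≤ S / D ^ 2)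
    (i : Fin d) (hti : t (ev i) = 1) : |w (ev i)| ≤ 2 * (4 * d + 1) * S / D := by
  have hD1 : 1 ≤ D := by omega
  have hD0 : (0 : ℝ) < D := by exact_mod_cast hD1
  have hbox : ∀ j, |(ev i : Fin d → ℤ) j| ≤ D := by
    intro j
    rw [ev_apply]
    split_ifs
    · rw [abs_one]
      exact_mod_cast hD1
    · rw [abs_zero]
      positivity
  rcases hS.eq_or_lt with hS0 | hS0
  · have h3 := h1 (ev i) hbox
    rw [← hS0] at h3 ⊢
    simpa using h3
  have hb : bar t S D (ev i) ≤ 2 * (4 * d + 1) * S / D := by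
    have hN : N2 (ev i : Fin d → ℤ) = 1 := by
      unfold N2
      rw [Finset.sum_eq_single i]
      · rw [ev_apply, if_pos rfl]
        norm_num
      · intro j _ hj
        rw [ev_apply, if_neg hj]
        norm_num
      · intro h
        exact absurd (Finset.mem_univ i) h
    unfold bar
    rw [hN, hti]
    have h4 : (1 : ℝ) / (D : ℝ) ^ 2 ≤ 1 / D := by
      apply one_div_le_one_div_of_le hD0
      have : (1 : ℝ) ≤ D := by exact_mod_cast hD1
      nlinarith
    have h5 : 0 ≤ 2 * (d : ℝ) * ((1 : ℤ) : ℝ) ^ 2 / (D : ℝ) ^ 2 := by positivity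
    calc 2 * S * (1 / (D : ℝ) ^ 2 + 4 * d * ((1 : ℤ) : ℝ) / D -
          2 * d * ((1 : ℤ) : ℝ) ^ 2 / (D : ℝ) ^ 2)
        ≤ 2 * S * (1 / D + 4 * d * ((1 : ℤ) : ℝ) / D) := by
          apply mul_le_mul_of_nonneg_left _ (by positivity)
          linarith
      _ = 2 * (4 * d + 1) * S / D := by
          push_cast
          field_simp
          ring
  have k1 := cmp hd t ht hte hts w D hD μ S hμ hμD hS0 (fun x hx => (h0 x hx).le)
    (fun x hx => (le_abs_self _).trans (h1 x hx)) (fun x hx => (le_abs_self _).trans (h2 x hx))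
    (ev i) hbox (by rw [hti]; norm_num)
  have k2 := cmp hd t ht hte hts (fun x => - w x) D hD μ S hμ hμD hS0
    (fun x hx => by rw [h0 x hx, neg_zero])
    (fun x hx => (neg_le_abs _).trans (h1 x hx)) (fun x hx => by
      refine le_trans (le_of_eq ?_) ((neg_le_abs _).trans (h2 x hx))
      have e : P0 (fun x => - w x) x = - P0 w x := by
        unfold P0
        rw [← neg_div, ← Finset.sum_neg_distrib]
        congr 1
        refine Finset.sum_congr rfl fun j _ => ?_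
        ring
      rw [e]
      ring)
    (ev i) hbox (by rw [hti]; norm_num)
  rw [abs_le]
  constructor <;> linarith

theorem P0_sub_comp (u : (Fin d → ℤ) → ℝ) (R : (Fin d → ℤ) → (Fin d → ℤ))
    (hR : ∀ x, P0 (fun y => u (R y)) x = P0 u (R x)) (x : Fin d → ℤ) :
    P0 (fun y => u y - u (R y)) x = P0 u x - P0 u (R x) := by
  rw [← hR]
  unfold P0
  rw [← sub_div, ← Finset.sum_sub_distrib]
  congr 1
  refine Finset.sum_congr rfl fun j _ => ?_
  ring

theorem axr_apply (i k : Fin d) (x : Fin d → ℤ) :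
    axr i x k = if k = i then -x i else x k := by
  unfold axr
  by_cases hk : k = i
  · rw [if_pos hk, hk, Function.update_self]
  · rw [if_neg hk, Function.update_of_ne hk]

theorem axr_P0 (u : (Fin d → ℤ) → ℝ) (i : Fin d) (x : Fin d → ℤ) :
    P0 (fun y => u (axr i y)) x = P0 u (axr i x) := by
  unfold P0
  congr 1
  refine Finset.sum_congr rfl fun j _ => ?_
  by_cases hj : j = i
  · subst hj
    have e1 : axr j (x + ev j) = axr j x - ev j := by
      funext k
      rw [Pi.sub_apply, axr_apply, axr_apply, Pi.add_apply, Pi.add_apply, ev_apply, ev_apply,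
        if_pos rfl]
      by_cases hk : k = j
      · rw [if_pos hk, if_pos hk, if_pos hk]
        ring
      · rw [if_neg hk, if_neg hk, if_neg hk]
        ring
    have e2 : axr j (x - ev j) = axr j x + ev j := by
      funext k
      rw [Pi.add_apply, axr_apply, axr_apply, Pi.sub_apply, Pi.sub_apply, ev_apply, ev_apply,
        if_pos rfl]
      by_cases hk : k = j
      · rw [if_pos hk, if_pos hk, if_pos hk]
        ring
      · rw [if_neg hk, if_neg hk, if_neg hk]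
        ring
    change u (axr j (x + ev j)) + u (axr j (x - ev j)) = _
    rw [e1, e2, add_comm]
  · have hj' : i ≠ j := fun h => hj h.symm
    have e1 : axr i (x + ev j) = axr i x + ev j := by
      funext k
      rw [Pi.add_apply, axr_apply, axr_apply, Pi.add_apply, Pi.add_apply, ev_apply, ev_apply,
        if_neg hj']
      by_cases hk : k = i
      · have hk2 : k ≠ j := fun h => hj (h ▸ hk)
        rw [if_pos hk, if_pos hk, if_neg hk2]
        ring
      · rw [if_neg hk, if_neg hk]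
    have e2 : axr i (x - ev j) = axr i x - ev j := by
      funext k
      rw [Pi.sub_apply, axr_apply, axr_apply, Pi.sub_apply, Pi.sub_apply, ev_apply, ev_apply,
        if_neg hj']
      by_cases hk : k = i
      · have hk2 : k ≠ j := fun h => hj (h ▸ hk)
        rw [if_pos hk, if_pos hk, if_neg hk2]
        ring
      · rw [if_neg hk, if_neg hk]
    change u (axr i (x + ev j)) + u (axr i (x - ev j)) = _
    rw [e1, e2]

theorem swr_P0 (u : (Fin d → ℤ) → ℝ) (i k : Fin d) (x : Fin d → ℤ) :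
    P0 (fun y => u (swr i k y)) x = P0 u (swr i k x) := by
  unfold P0
  congr 1
  rw [← Equiv.sum_comp (Equiv.swap i k)]
  refine Finset.sum_congr rfl fun j _ => ?_
  have e0 : ∀ l, (ev (Equiv.swap i k j) : Fin d → ℤ) (Equiv.swap i k l) = (ev j : Fin d → ℤ) l := by
    intro l
    rw [ev_apply, ev_apply]
    simp only [EmbeddingLike.apply_eq_iff_eq]
  have e1 : swr i k (x + ev (Equiv.swap i k j)) = swr i k x + ev j := by
    funext l
    unfold swr
    rw [Pi.add_apply, Pi.add_apply, e0]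
  have e2 : swr i k (x - ev (Equiv.swap i k j)) = swr i k x - ev j := by
    funext l
    unfold swr
    rw [Pi.sub_apply, Pi.sub_apply, e0]
  change u (swr i k (x + ev (Equiv.swap i k j))) + u (swr i k (x - ev (Equiv.swap i k j))) = _
  rw [e1, e2]

end GRA_

theorem p_GRA : T_GRA := by
  intro d hd
  have hd1 : 1 ≤ d := by omega
  have hd0 : (0 : ℝ) < d := by exact_mod_cast hd1
  refine ⟨4 * (4 * d + 1), 1 / (6 * d), by positivity, by positivity, ?_⟩
  intro u D μ S hD hμ hμD hS hu hL i k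
  have hD0 : (0 : ℝ) < D := by
    have : 0 < D := by omega
    exact_mod_cast this
  have hCC : 2 * (4 * (d : ℝ) + 1) * S / D ≤ 4 * (4 * d + 1) * S / D := by
    apply div_le_div_of_nonneg_right _ hD0.le
    nlinarith [mul_nonneg hd0.le hS]
  -- the first bound
  have A : ∀ i : Fin d, |u (ev i) - u (-ev i)| ≤ 2 * (4 * d + 1) * S / D := by
    intro i
    have e1 : axr i (ev i) = -ev i := by
      funext j
      unfold axr
      rw [Pi.neg_apply, GRA_.ev_apply]
      by_cases hj : j = i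
      · subst hj
        rw [Function.update_self, GRA_.ev_apply]
      · rw [Function.update_of_ne hj, GRA_.ev_apply, if_neg hj, neg_zero]
    rw [← e1]
    refine GRA_.cmp2 hd1 (Pi.evalAddMonoidHom (fun _ : Fin d => ℤ) i) ?_ ?_ ?_
      (fun x => u x - u (axr i x)) D hD μ S hμ hμD hS ?_ ?_ ?_ i ?_
    · intro E x hE hx
      have := hx i
      change |x i| ≤ 2 * E
      linarith
    · intro j
      change |(ev j : Fin d → ℤ) i| ≤ 1
      rw [GRA_.ev_apply]
      split_ifs <;> simp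
    · simp [GRA_.ev_apply]
    · intro x hx
      have hx' : x i = 0 := hx
      have : axr i x = x := by
        unfold axr
        rw [hx', neg_zero, ← hx', Function.update_eq_self]
      rw [this, sub_self]
    · intro x hx
      have h1 := hu x hx
      have h2 := hu (axr i x) (by
        intro j
        unfold axr
        by_cases hj : j = i
        · subst hj
          rw [Function.update_self, abs_neg]
          exact hx j
        · rw [Function.update_of_ne hj]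
          exact hx j)
      exact (abs_sub _ _).trans (by linarith)
    · intro x hx
      have h1 := (hL x hx).1 i
      rw [GRA_.P0_sub_comp u (axr i) (GRA_.axr_P0 u i)]
      refine le_trans (le_of_eq ?_) h1
      congr 1
      ring
    · change (ev i : Fin d → ℤ) i = 1
      rw [GRA_.ev_apply, if_pos rfl]
  -- the second bound
  have B : |u (ev i) - u (ev k)| ≤ 2 * (4 * d + 1) * S / D := by
    by_cases hik : i = k
    · rw [hik, sub_self, abs_zero]
      positivity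
    have e1 : swr i k (ev i) = ev k := by
      funext j
      unfold swr
      rw [GRA_.ev_apply, GRA_.ev_apply]
      have : Equiv.swap i k j = i ↔ j = k := by
        rw [Equiv.swap_apply_eq_iff, Equiv.swap_apply_left]
      simp only [this]
    rw [← e1]
    refine GRA_.cmp2 hd1 (Pi.evalAddMonoidHom (fun _ : Fin d => ℤ) i -
      Pi.evalAddMonoidHom (fun _ : Fin d => ℤ) k) ?_ ?_ ?_
      (fun x => u x - u (swr i k x)) D hD μ S hμ hμD hS ?_ ?_ ?_ i ?_
    · intro E x hE hx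
      have h1 := hx i
      have h2 := hx k
      change |x i - x k| ≤ 2 * E
      exact (abs_sub _ _).trans (by linarith)
    · intro j
      change |(ev j : Fin d → ℤ) i - (ev j : Fin d → ℤ) k| ≤ 1
      rw [GRA_.ev_apply, GRA_.ev_apply]
      split_ifs <;> simp
    · have h := Finset.single_le_sum
        (f := fun j => ((ev j : Fin d → ℤ) i - (ev j : Fin d → ℤ) k) ^ 2)
        (fun j _ => sq_nonneg _) (Finset.mem_univ i)
      have h2 : ((ev i : Fin d → ℤ) i - (ev i : Fin d → ℤ) k) ^ 2 = 1 := by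
        rw [GRA_.ev_apply, GRA_.ev_apply, if_pos rfl, if_neg (Ne.symm hik)]
        norm_num
      rw [h2] at h
      exact h
    · intro x hx
      have hx' : x i - x k = 0 := hx
      have : swr i k x = x := by
        funext j
        unfold swr
        by_cases h1 : j = i
        · rw [h1, Equiv.swap_apply_left]
          omega
        · by_cases h2 : j = k
          · rw [h2, Equiv.swap_apply_right]
            omega
          · rw [Equiv.swap_apply_of_ne_of_ne h1 h2]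
      rw [this, sub_self]
    · intro x hx
      have h1 := hu x hx
      have h2 := hu (swr i k x) (fun j => hx _)
      exact (abs_sub _ _).trans (by linarith)
    · intro x hx
      have h1 := (hL x hx).2 i k
      rw [GRA_.P0_sub_comp u (swr i k) (GRA_.swr_P0 u i k)]
      refine le_trans (le_of_eq ?_) h1
      congr 1
      ring
    · change (ev i : Fin d → ℤ) i - (ev i : Fin d → ℤ) k = 1
      rw [GRA_.ev_apply, GRA_.ev_apply, if_pos rfl, if_neg (Ne.symm hik), sub_zero]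
  refine ⟨(A i).trans hCC, B.trans hCC, ?_⟩
  have h1 := A i
  have e : u (-ev i) - u (ev k) = -(u (ev i) - u (-ev i)) + (u (ev i) - u (ev k)) := by ring
  rw [e]
  refine (abs_add_le _ _).trans ?_
  rw [abs_neg]
  have e2 : 4 * (4 * (d : ℝ) + 1) * S / D =
      2 * (4 * d + 1) * S / D + 2 * (4 * d + 1) * S / D := by ring
  rw [e2]
  exact add_le_add h1 B

end Pool.Agent.LBL
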