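import Pool.Agent.LBL.Targets3

set_option autoImplicit false

/-!
# LBL, target HES: Hessian bound on the torus
-/

open Finset
open scoped Classical

namespace Pool.Agent.LBL

noncomputable section

section HES

variable {d L : ℕ} [NeZero L]

/-- second difference -/
def HES_L (k : Fin d) (f : Tor d L → ℝ) (x : Tor d L) : ℝ := 2 * f x - f (x + ev k) - f (x - ev k)

/-- first difference -/
def HES_D (k : Fin d) (f : Tor d L → ℝ) (x : Tor d L) : ℝ := f (x + ev k) - f x

theorem HES_shift (F : Tor d L → ℝ) (c : Tor d L) : ∑ x, F (x + c) = ∑ x, F x :=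
  Equiv.sum_comp (Equiv.addRight c) F

/-- summation by parts -/
theorem HES_sbp (k : Fin d) (f g : Tor d L → ℝ) :
    ∑ x, g x * HES_L k f x = ∑ x, HES_D k g x * HES_D k f x := by
  have h1 := HES_shift (fun x : Tor d L => g x * f x) (ev k)
  have h2 := HES_shift (fun x : Tor d L => g x * f (x - ev k)) (ev k)
  simp only [add_sub_cancel_right] at h2
  have e1 : ∑ x, g x * HES_L k f x = 2 * ∑ x, g x * f x - ∑ x, g x * f (x + ev k) - ∑ x, g x * f (x - ev k) := by
    rw [Finset.mul_sum, ← Finset.sum_sub_distrib, ← Finset.sum_sub_distrib]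
    apply Finset.sum_congr rfl
    intro x _
    unfold HES_L
    ring
  have e2 : ∑ x, HES_D k g x * HES_D k f x = ∑ x, g (x + ev k) * f (x + ev k) - ∑ x, g (x + ev k) * f x -
      ∑ x, g x * f (x + ev k) + ∑ x, g x * f x := by
    rw [← Finset.sum_sub_distrib, ← Finset.sum_sub_distrib, ← Finset.sum_add_distrib]
    apply Finset.sum_congr rfl
    intro x _
    unfold HES_D
    ring
  rw [e1, e2, h1, h2]
  ring

omit [NeZero L] in
theorem HES_comm (k l : Fin d) (f : Tor d L → ℝ) : HES_D l (HES_L k f) = HES_L k (HES_D l f) := by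
  funext x
  unfold HES_D HES_L
  have a1 : x + ev l + ev k = x + ev k + ev l := by abel
  have a2 : x + ev l - ev k = x - ev k + ev l := by abel
  rw [a1, a2]
  ring

theorem HES_nn (k l : Fin d) (f : Tor d L → ℝ) : 0 ≤ ∑ x, HES_L k f x * HES_L l f x := by
  rw [HES_sbp l f (HES_L k f), HES_comm]
  have : ∑ x, HES_L k (HES_D l f) x * HES_D l f x = ∑ x, HES_D l f x * HES_L k (HES_D l f) x := by
    apply Finset.sum_congr rfl
    intro x _
    ring
  rw [this, HES_sbp k (HES_D l f) (HES_D l f)]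
  apply Finset.sum_nonneg
  intro x _
  exact mul_self_nonneg _

end HES

theorem p_HES : T_HES := by
  intro d L _ i f
  have hd : (d : ℝ) ≠ 0 := by
    have : 0 < d := Fin.pos i
    positivity
  have e1 : ∀ x : Tor d L, 2 * (d : ℝ) * (f x - P0 f x) = ∑ k : Fin d, HES_L k f x := by
    intro x
    have h1 : ∑ k : Fin d, HES_L k f x = ∑ k : Fin d, (2 * f x) - ∑ k : Fin d, (f (x + ev k) + f (x - ev k)) := by
      rw [← Finset.sum_sub_distrib]
      apply Finset.sum_congr rfl
      intro k _
      unfold HES_L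
      ring
    rw [h1, Finset.sum_const, Finset.card_univ, Fintype.card_fin, nsmul_eq_mul]
    unfold P0
    field_simp
  have e2 : ∑ x : Tor d L, (2 * (d : ℝ) * (f x - P0 f x)) ^ 2 =
      ∑ k : Fin d, ∑ l : Fin d, ∑ x : Tor d L, HES_L k f x * HES_L l f x := by
    calc ∑ x : Tor d L, (2 * (d : ℝ) * (f x - P0 f x)) ^ 2
        = ∑ x : Tor d L, ∑ k : Fin d, ∑ l : Fin d, HES_L k f x * HES_L l f x := by
          apply Finset.sum_congr rfl
          intro x _
          rw [e1 x, pow_two, Finset.sum_mul_sum]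
      _ = ∑ k : Fin d, ∑ x : Tor d L, ∑ l : Fin d, HES_L k f x * HES_L l f x := Finset.sum_comm
      _ = ∑ k : Fin d, ∑ l : Fin d, ∑ x : Tor d L, HES_L k f x * HES_L l f x := by
          apply Finset.sum_congr rfl
          intro k _
          exact Finset.sum_comm
  rw [e2]
  have h1 : ∑ x : Tor d L, (f (x + ev i) - 2 * f x + f (x - ev i)) ^ 2 = ∑ x : Tor d L, HES_L i f x * HES_L i f x := by
    apply Finset.sum_congr rfl
    intro x _
    unfold HES_L
    ring
  rw [h1]
  have h2 : ∑ x : Tor d L, HES_L i f x * HES_L i f x ≤ ∑ l : Fin d, ∑ x : Tor d L, HES_L i f x * HES_L l f x :=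
    Finset.single_le_sum (f := fun l : Fin d => ∑ x : Tor d L, HES_L i f x * HES_L l f x)
      (fun l _ => HES_nn i l f) (Finset.mem_univ i)
  have h3 : ∑ l : Fin d, ∑ x : Tor d L, HES_L i f x * HES_L l f x ≤
      ∑ k : Fin d, ∑ l : Fin d, ∑ x : Tor d L, HES_L k f x * HES_L l f x :=
    Finset.single_le_sum (f := fun k : Fin d => ∑ l : Fin d, ∑ x : Tor d L, HES_L k f x * HES_L l f x)
      (fun k _ => Finset.sum_nonneg fun l _ => HES_nn k l f) (Finset.mem_univ i)
  exact h2.trans h3

end

end Pool.Agent.LBL
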