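import Pool.Agent.LBL.Targets1
import Pool.Agent.LBL.P_ENI

set_option autoImplicit false

/-!
# LBL-HKB: heat kernel bound for the lazy walk
-/

open Finset
open scoped Classical

namespace Pool.Agent.LBL

noncomputable section

namespace HKB_

/-! ## The recursion for real numbers -/

theorem g_anti (d : ℕ) {s s' : ℝ} (h0 : 0 < s) (h : s ≤ s') :
    s' ^ (-(d : ℝ) / 2) ≤ s ^ (-(d : ℝ) / 2) := by
  have hd : -(d : ℝ) / 2 ≤ 0 := by
    have : (0 : ℝ) ≤ d := Nat.cast_nonneg d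
    linarith
  exact Real.rpow_le_rpow_of_nonpos h0 h hd

theorem g_step (d : ℕ) {s : ℝ} (h0 : 0 < s) :
    s ^ (-(d : ℝ) / 2) * (1 - d / (2 * s)) ≤ (s + 1) ^ (-(d : ℝ) / 2) := by
  have h1 : s + 1 = s * (1 + 1 / s) := by field_simp
  have h2 : 0 < 1 + 1 / s := by positivity
  rw [h1, Real.mul_rpow h0.le h2.le]
  refine mul_le_mul_of_nonneg_left ?_ (Real.rpow_nonneg h0.le _)
  have h3 : 1 + 1 / s ≤ Real.exp (1 / s) := by
    have := Real.add_one_le_exp (1 / s)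
    linarith
  have h4 := g_anti d h2 h3
  refine le_trans ?_ h4
  rw [← Real.exp_mul]
  have h5 := Real.add_one_le_exp (1 / s * (-(d : ℝ) / 2))
  have h6 : 1 / s * (-(d : ℝ) / 2) + 1 = 1 - d / (2 * s) := by
    field_simp
    ring
  linarith

theorem sqrt_fact (t M : ℕ) (hM : 1 ≤ M) (h : M ≤ t) :
    ∃ b : ℕ, 1 ≤ b ∧ M * b ^ 2 ≤ t ∧ t ≤ 4 * M * b ^ 2 := by
  refine ⟨Nat.sqrt (t / M), ?_, ?_, ?_⟩
  · have h1 : 1 ≤ t / M := (Nat.one_le_div_iff (by omega)).2 h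
    exact Nat.sqrt_pos.2 h1
  · have h1 := Nat.sqrt_le' (t / M)
    calc M * Nat.sqrt (t / M) ^ 2 ≤ M * (t / M) := Nat.mul_le_mul_left _ h1
      _ ≤ t := Nat.mul_div_le t M
  · have h1 : 1 ≤ Nat.sqrt (t / M) := Nat.sqrt_pos.2 ((Nat.one_le_div_iff (by omega)).2 h)
    have h2 := Nat.lt_succ_sqrt' (t / M)
    obtain ⟨b, hb⟩ : ∃ b, Nat.sqrt (t / M) = b := ⟨_, rfl⟩
    rw [hb] at h1 h2 ⊢
    have h3 : t < M * (t / M) + M := by
      have := Nat.div_add_mod t M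
      have := Nat.mod_lt t (show 0 < M by omega)
      omega
    have h4 : t / M + 1 ≤ (b + 1) ^ 2 := h2
    have h5 : M * (t / M + 1) ≤ M * (b + 1) ^ 2 := Nat.mul_le_mul_left _ h4
    have h6 : (b + 1) ^ 2 ≤ 4 * b ^ 2 := by nlinarith
    have h7 : M * (b + 1) ^ 2 ≤ M * (4 * b ^ 2) := Nat.mul_le_mul_left _ h6
    nlinarith

theorem rec_bound (d : ℕ) (C : ℝ) (hC : 1 ≤ C) : ∃ B : ℝ, 0 < B ∧
    ∀ (L : ℕ) (a : ℕ → ℝ), a 0 ≤ 1 → (∀ t, a (t + 1) ≤ a t) →
    (∀ t b : ℕ, 1 ≤ b → b ≤ L → a (t + 1) ≤ a t - (a t - 1 / (b : ℝ) ^ d) / (C * (b : ℝ) ^ 2)) →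
    ∀ t : ℕ, 1 ≤ t → t ≤ L ^ 2 → a t ≤ B * (t : ℝ) ^ (-(d : ℝ) / 2) := by
  obtain ⟨M, hM1, hM⟩ : ∃ M : ℕ, 1 ≤ M ∧ d * C ≤ M :=
    ⟨⌈d * C⌉₊ + 1, by omega, by
      have := Nat.le_ceil (d * C)
      push_cast
      linarith⟩
  have hMp : (0 : ℝ) < M := by exact_mod_cast hM1
  have h4M : (0 : ℝ) < 4 * M := by positivity
  have hB : 0 < (4 * (M : ℝ)) ^ ((d : ℝ) / 2) := Real.rpow_pos_of_pos h4M _
  refine ⟨2 * (4 * (M : ℝ)) ^ ((d : ℝ) / 2), by positivity, ?_⟩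
  intro L a ha0 ham hst
  obtain ⟨B, hBdef⟩ : ∃ B : ℝ, 2 * (4 * (M : ℝ)) ^ ((d : ℝ) / 2) = B := ⟨_, rfl⟩
  have hBpos : 0 < B := by rw [← hBdef]; positivity
  rw [hBdef]
  have hale : ∀ t, a t ≤ 1 := by
    intro t
    induction t with
    | zero => exact ha0
    | succ t ih => exact (ham t).trans ih
  have hsmall : ∀ t : ℕ, 1 ≤ t → t ≤ M → a t ≤ B * (t : ℝ) ^ (-(d : ℝ) / 2) := by
    intro t h1 h2
    have ht : (0 : ℝ) < t := by exact_mod_cast h1
    have ht2 : (t : ℝ) ≤ 4 * M := by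
      have : (t : ℝ) ≤ M := by exact_mod_cast h2
      linarith
    have h3 := g_anti d ht ht2
    have h4 : (4 * (M : ℝ)) ^ ((d : ℝ) / 2) * (4 * (M : ℝ)) ^ (-(d : ℝ) / 2) = 1 := by
      rw [← Real.rpow_add h4M]
      have : (d : ℝ) / 2 + -(d : ℝ) / 2 = 0 := by ring
      rw [this, Real.rpow_zero]
    have h5 : B * (t : ℝ) ^ (-(d : ℝ) / 2) ≥ B * (4 * (M : ℝ)) ^ (-(d : ℝ) / 2) :=
      mul_le_mul_of_nonneg_left h3 hBpos.le
    have h6 : B * (4 * (M : ℝ)) ^ (-(d : ℝ) / 2) = 2 := by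
      rw [← hBdef, mul_assoc, h4]
      norm_num
    linarith [hale t]
  intro t h1
  induction t, h1 using Nat.le_induction with
  | base => intro _; exact hsmall 1 le_rfl hM1
  | succ t ht ih =>
    intro hL
    rcases Nat.lt_or_ge t M with h | h
    · exact hsmall (t + 1) (by omega) (by omega)
    · have iht := ih (by omega)
      obtain ⟨b, hb1, hb2, hb3⟩ := sqrt_fact t M hM1 h
      have hbL : b ≤ L := by
        have h2 : b ^ 2 ≤ L ^ 2 := by
          calc b ^ 2 ≤ M * b ^ 2 := Nat.le_mul_of_pos_left _ (by omega)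
            _ ≤ t := hb2
            _ ≤ L ^ 2 := by omega
        exact (Nat.pow_le_pow_iff_left (by norm_num)).1 h2
      have hs := hst t b hb1 hbL
      have htp : (0 : ℝ) < t := by exact_mod_cast ht
      have hbp : (0 : ℝ) < b := by exact_mod_cast hb1
      have hb1r : (1 : ℝ) ≤ b := by exact_mod_cast hb1
      have hg := g_step d htp
      obtain ⟨g, hgdef⟩ : ∃ g : ℝ, (t : ℝ) ^ (-(d : ℝ) / 2) = g := ⟨_, rfl⟩
      have hgpos : 0 < g := by rw [← hgdef]; exact Real.rpow_pos_of_pos htp _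
      rw [hgdef] at hg iht
      -- bound for the power of b
      have hbd : 1 / (b : ℝ) ^ d ≤ B / 2 * g := by
        have e1 : 1 / (b : ℝ) ^ d = ((b : ℝ) ^ 2) ^ (-(d : ℝ) / 2) := by
          rw [← Real.rpow_natCast (b : ℝ) 2, ← Real.rpow_mul hbp.le]
          have : ((2 : ℕ) : ℝ) * (-(d : ℝ) / 2) = -(d : ℝ) := by push_cast; ring
          rw [this, Real.rpow_neg hbp.le, Real.rpow_natCast, one_div]
        have e2 : (t : ℝ) / (4 * M) ≤ (b : ℝ) ^ 2 := by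
          rw [div_le_iff₀ h4M]
          have : ((t : ℕ) : ℝ) ≤ ((4 * M * b ^ 2 : ℕ) : ℝ) := by exact_mod_cast hb3
          push_cast at this
          linarith
        have e3 := g_anti d (show 0 < (t : ℝ) / (4 * M) by positivity) e2
        have e4 : ((t : ℝ) / (4 * M)) ^ (-(d : ℝ) / 2) = B / 2 * g := by
          rw [Real.div_rpow htp.le h4M.le, hgdef, ← hBdef]
          have : (-(d : ℝ) / 2) = -((d : ℝ) / 2) := by ring
          rw [this, Real.rpow_neg h4M.le, div_inv_eq_mul]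
          ring
        rw [e1]
        linarith
      -- constants
      have hCb : 1 ≤ C * (b : ℝ) ^ 2 := by
        have : (1 : ℝ) ≤ (b : ℝ) ^ 2 := one_le_pow₀ hb1r
        nlinarith
      have hCbp : 0 < C * (b : ℝ) ^ 2 := by linarith
      obtain ⟨q, hq⟩ : ∃ q : ℝ, 1 / (C * (b : ℝ) ^ 2) = q := ⟨_, rfl⟩
      have hq0 : 0 < q := by rw [← hq]; positivity
      have hq1 : q ≤ 1 := by
        rw [← hq, div_le_one hCbp]
        exact hCb
      have hdq : (d : ℝ) / (2 * t) ≤ q / 2 := by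
        have h7 : (d : ℝ) * (C * (b : ℝ) ^ 2) ≤ t := by
          have h8 : ((M * b ^ 2 : ℕ) : ℝ) ≤ ((t : ℕ) : ℝ) := by exact_mod_cast hb2
          push_cast at h8
          have h9 : (d : ℝ) * C * (b : ℝ) ^ 2 ≤ M * (b : ℝ) ^ 2 :=
            mul_le_mul_of_nonneg_right hM (by positivity)
          linarith
        rw [← hq, div_le_iff₀ (by positivity)]
        have h10 : 1 / (C * (b : ℝ) ^ 2) / 2 * (2 * t) = t / (C * (b : ℝ) ^ 2) := by
          field_simp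
        rw [h10, le_div_iff₀ hCbp]
        exact h7
      have hs2 : a (t + 1) ≤ a t * (1 - q) + 1 / (b : ℝ) ^ d * q := by
        have h11 : (a t - 1 / (b : ℝ) ^ d) / (C * (b : ℝ) ^ 2) = (a t - 1 / (b : ℝ) ^ d) * q := by
          rw [← hq]
          ring
        rw [h11] at hs
        linarith
      have hs3 : a t * (1 - q) ≤ B * g * (1 - q) :=
        mul_le_mul_of_nonneg_right iht (by linarith)
      have hs4 : 1 / (b : ℝ) ^ d * q ≤ B / 2 * g * q := mul_le_mul_of_nonneg_right hbd hq0.le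
      have hs5 : B * (g * (1 - d / (2 * t))) ≤ B * ((t : ℝ) + 1) ^ (-(d : ℝ) / 2) :=
        mul_le_mul_of_nonneg_left hg hBpos.le
      have hs6 : B * g * (d / (2 * t)) ≤ B * g * (q / 2) :=
        mul_le_mul_of_nonneg_left hdq (by positivity)
      push_cast
      nlinarith

/-! ## The walk -/

variable {d L : ℕ} [NeZero L]

theorem ip_Kz_left (f g : Tor d L → ℝ) : ip (Kz f) g = (ip f g + ip (P0 f) g) / 2 := by
  unfold ip Kz
  rw [← Finset.sum_add_distrib, Finset.sum_div]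
  exact Finset.sum_congr rfl fun x _ => by ring

theorem ip_Kz_right (f g : Tor d L → ℝ) : ip f (Kz g) = (ip f g + ip f (P0 g)) / 2 := by
  rw [ENI_.ip_comm, ip_Kz_left, ENI_.ip_comm g f, ENI_.ip_comm (P0 g) f]

theorem ip_Kz (hd : 1 ≤ d) (f g : Tor d L → ℝ) : ip (Kz f) g = ip f (Kz g) := by
  rw [ip_Kz_left, ip_Kz_right, (p_ENI d L hd f g).1]

theorem ip_iter (hd : 1 ≤ d) (t : ℕ) : ∀ f g : Tor d L → ℝ,
    ip (Kz^[t] f) g = ip f (Kz^[t] g) := by
  induction t with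
  | zero => intro f g; rfl
  | succ t ih =>
    intro f g
    rw [Function.iterate_succ_apply, ih, ip_Kz hd, Function.iterate_succ_apply' Kz t g]

/-- point mass -/
def dl (x : Tor d L) : Tor d L → ℝ := fun y => if y = x then 1 else 0

theorem ip_dl (x : Tor d L) (g : Tor d L → ℝ) : ip (dl x) g = g x := by
  unfold ip dl
  simp [ite_mul]

theorem cs (f g : Tor d L → ℝ) : (ip f g) ^ 2 ≤ ip f f * ip g g := by
  have h := Finset.sum_mul_sq_le_sq_mul_sq (Finset.univ : Finset (Tor d L)) f g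
  have h1 : ip f f = ∑ x, f x ^ 2 := Finset.sum_congr rfl fun x _ => by ring
  have h2 : ip g g = ∑ x, g x ^ 2 := Finset.sum_congr rfl fun x _ => by ring
  rw [h1, h2]
  exact h

omit [NeZero L] in
theorem P0_sq (hd : 1 ≤ d) (f : Tor d L → ℝ) (x : Tor d L) :
    (P0 f x) ^ 2 ≤ P0 (fun y => f y ^ 2) x := by
  have hd0 : (0 : ℝ) < d := by exact_mod_cast hd
  unfold P0
  rw [div_pow, div_le_div_iff₀ (by positivity) (by positivity)]
  have h1 := sq_sum_le_card_mul_sum_sq (s := (Finset.univ : Finset (Fin d)))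
    (f := fun i => f (x + ev i) + f (x - ev i))
  rw [Finset.card_univ, Fintype.card_fin] at h1
  have h2 : ∑ i : Fin d, (f (x + ev i) + f (x - ev i)) ^ 2 ≤
      2 * ∑ i : Fin d, (f (x + ev i) ^ 2 + f (x - ev i) ^ 2) := by
    rw [Finset.mul_sum]
    refine Finset.sum_le_sum fun i _ => ?_
    nlinarith [sq_nonneg (f (x + ev i) - f (x - ev i))]
  have h3 : (∑ i : Fin d, (f (x + ev i) + f (x - ev i))) ^ 2 ≤
      2 * d * ∑ i : Fin d, (f (x + ev i) ^ 2 + f (x - ev i) ^ 2) := by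
    calc _ ≤ (d : ℝ) * ∑ i : Fin d, (f (x + ev i) + f (x - ev i)) ^ 2 := h1
      _ ≤ (d : ℝ) * (2 * ∑ i : Fin d, (f (x + ev i) ^ 2 + f (x - ev i) ^ 2)) :=
        mul_le_mul_of_nonneg_left h2 hd0.le
      _ = _ := by ring
  have h4 := mul_le_mul_of_nonneg_right h3 (show (0 : ℝ) ≤ 2 * d by positivity)
  nlinarith

theorem contr (hd : 1 ≤ d) (f : Tor d L → ℝ) : ip (P0 f) (P0 f) ≤ ip f f := by
  calc ip (P0 f) (P0 f) = ∑ x, (P0 f x) ^ 2 := Finset.sum_congr rfl fun x _ => by ring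
    _ ≤ ∑ x, P0 (fun y => f y ^ 2) x := Finset.sum_le_sum fun x _ => P0_sq hd f x
    _ = ∑ x, f x ^ 2 := (p_ENI d L hd (fun y => f y ^ 2) f).2.2
    _ = ip f f := Finset.sum_congr rfl fun x _ => by ring

theorem decay (hd : 1 ≤ d) (u : Tor d L → ℝ) :
    ip (Kz u) (Kz u) ≤ ip u u - En u / (4 * d) := by
  have hd0 : (0 : ℝ) < d := by exact_mod_cast hd
  have h1 := contr hd u
  have h2 := (p_ENI d L hd u u).2.1
  have h3 : En u / (4 * d) = (ip u u - ip u (P0 u)) / 2 := by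
    rw [h2]
    field_simp
    ring
  rw [h3, ip_Kz_left, ip_Kz_right, ip_Kz_right]
  have h4 : ip (P0 u) u = ip u (P0 u) := ENI_.ip_comm _ _
  rw [h4]
  linarith

omit [NeZero L] in
theorem Kz_nonneg (f : Tor d L → ℝ) (h : ∀ x, 0 ≤ f x) (x : Tor d L) : 0 ≤ Kz f x := by
  unfold Kz P0
  have h1 : 0 ≤ ∑ i : Fin d, (f (x + ev i) + f (x - ev i)) :=
    Finset.sum_nonneg fun i _ => add_nonneg (h _) (h _)
  have := h x
  positivity

omit [NeZero L] in
theorem iter_nonneg (f : Tor d L → ℝ) (h : ∀ x, 0 ≤ f x) (t : ℕ) :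
    ∀ x, 0 ≤ Kz^[t] f x := by
  induction t with
  | zero => exact h
  | succ t ih =>
    intro x
    rw [Function.iterate_succ_apply']
    exact Kz_nonneg _ ih x

theorem sum_iter (hd : 1 ≤ d) (f : Tor d L → ℝ) (t : ℕ) : ∑ x, Kz^[t] f x = ∑ x, f x := by
  induction t with
  | zero => rfl
  | succ t ih =>
    rw [Function.iterate_succ_apply']
    have h := (p_ENI d L hd (Kz^[t] f) f).2.2
    have h2 : ∀ x, Kz (Kz^[t] f) x = (Kz^[t] f x + P0 (Kz^[t] f) x) / 2 := fun x => rfl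
    rw [Finset.sum_congr rfl fun x _ => h2 x, ← Finset.sum_div, Finset.sum_add_distrib, h, ih]
    ring

end HKB_

theorem p_HKB (h_NSH : T_NSH) : T_HKB := by
  intro d hd
  have hd0 : (0 : ℝ) < d := by exact_mod_cast hd
  obtain ⟨C, hC, hN⟩ := h_NSH d hd
  obtain ⟨B, hB, hrec⟩ := HKB_.rec_bound d (4 * d * C + 1) (by
    have : 0 < 4 * (d : ℝ) * C := by positivity
    linarith)
  refine ⟨B, hB, ?_⟩
  intro L _ t f x ht1 htL
  have key : ip (Kz^[t] (HKB_.dl x)) (Kz^[t] (HKB_.dl x)) ≤ B * (t : ℝ) ^ (-(d : ℝ) / 2) := by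
    refine hrec L (fun s => ip (Kz^[s] (HKB_.dl x)) (Kz^[s] (HKB_.dl x))) ?_ ?_ ?_ t ht1 htL
    · change ip (HKB_.dl x) (HKB_.dl x) ≤ 1
      rw [HKB_.ip_dl]
      simp [HKB_.dl]
    · intro s
      have h1 := HKB_.decay hd (Kz^[s] (HKB_.dl x))
      have h2 : 0 ≤ En (Kz^[s] (HKB_.dl x)) :=
        Finset.sum_nonneg fun i _ => Finset.sum_nonneg fun y _ => sq_nonneg _
      have h3 : 0 ≤ En (Kz^[s] (HKB_.dl x)) / (4 * d) := by positivity
      simp only [Function.iterate_succ_apply']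
      linarith
    · intro s b hb1 hbL
      have h1 := HKB_.decay hd (Kz^[s] (HKB_.dl x))
      have h2 : 0 ≤ En (Kz^[s] (HKB_.dl x)) :=
        Finset.sum_nonneg fun i _ => Finset.sum_nonneg fun y _ => sq_nonneg _
      have h3 := hN L b (Kz^[s] (HKB_.dl x)) hb1 hbL
      have h4 : ∑ y, |Kz^[s] (HKB_.dl x) y| = 1 := by
        have h5 : ∀ y, |Kz^[s] (HKB_.dl x) y| = Kz^[s] (HKB_.dl x) y := fun y =>
          abs_of_nonneg (HKB_.iter_nonneg _ (fun z => by unfold HKB_.dl; split_ifs <;> norm_num) s y)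
        rw [Finset.sum_congr rfl fun y _ => h5 y, HKB_.sum_iter hd]
        simp [HKB_.dl]
      rw [h4] at h3
      simp only [Function.iterate_succ_apply']
      obtain ⟨e, he⟩ : ∃ e, En (Kz^[s] (HKB_.dl x)) = e := ⟨_, rfl⟩
      obtain ⟨w, hw⟩ : ∃ w, ip (Kz^[s] (HKB_.dl x)) (Kz^[s] (HKB_.dl x)) = w := ⟨_, rfl⟩
      rw [he] at h1 h2 h3
      rw [hw] at h1 h3 ⊢
      have hbp : (0 : ℝ) < b := by exact_mod_cast hb1
      have h6 : (w - 1 / (b : ℝ) ^ d) / ((4 * d * C + 1) * (b : ℝ) ^ 2) ≤ e / (4 * d) := by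
        have h7 : 0 < (4 * (d : ℝ) * C + 1) * (b : ℝ) ^ 2 := by positivity
        rw [div_le_div_iff₀ h7 (by positivity)]
        have h8 : w - 1 / (b : ℝ) ^ d ≤ C * (b : ℝ) ^ 2 * e := by
          have h9 : (1 : ℝ) ^ 2 / (b : ℝ) ^ d = 1 / (b : ℝ) ^ d := by norm_num
          rw [h9] at h3
          linarith
        have h10 := mul_le_mul_of_nonneg_right h8 (show (0 : ℝ) ≤ 4 * d by positivity)
        have h11 : 0 ≤ e * (b : ℝ) ^ 2 := by positivity
        nlinarith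
      linarith
  have h1 : Kz^[t] f x = ip (Kz^[t] (HKB_.dl x)) f := by
    rw [HKB_.ip_iter hd, HKB_.ip_dl]
  rw [h1]
  have h2 := HKB_.cs (Kz^[t] (HKB_.dl x)) f
  have h3 : 0 ≤ ip f f := Finset.sum_nonneg fun y _ => mul_self_nonneg _
  exact h2.trans (mul_le_mul_of_nonneg_right key h3)

end

end Pool.Agent.LBL
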