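import Pool.Agent.LBL.Targets1

set_option autoImplicit false

open Finset
open scoped Classical

namespace Pool.Agent.LBL

noncomputable section

section HMO

variable {d L : ℕ} [NeZero L]

theorem HMO_mem_ero (O : Finset (Tor d L)) (x : Tor d L) :
    x ∈ ero O ↔ x ∈ O ∧ ∀ i : Fin d, x + ev i ∈ O ∧ x - ev i ∈ O := by
  unfold ero
  rw [Finset.mem_filter]

theorem HMO_ero_mono {O O' : Finset (Tor d L)} (h : O ⊆ O') : ero O ⊆ ero O' := by
  intro x hx
  rw [HMO_mem_ero] at hx ⊢
  exact ⟨h hx.1, fun i => ⟨h (hx.2 i).1, h (hx.2 i).2⟩⟩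

theorem HMO_hol_mono (m : ℕ) {O O' : Finset (Tor d L)} (h : O ⊆ O') : hol m O ⊆ hol m O' := by
  unfold hol
  induction m with
  | zero => exact h
  | succ m ih =>
    rw [Function.iterate_succ_apply', Function.iterate_succ_apply']
    exact HMO_ero_mono ih

/-- neighbourhood of a set -/
def HMO_nb (B : Finset (Tor d L)) : Finset (Tor d L) :=
  B ∪ Finset.univ.biUnion fun i : Fin d =>
    (B.image fun x => x + ev i) ∪ (B.image fun x => x - ev i)

theorem HMO_nb_card (B : Finset (Tor d L)) : (HMO_nb B).card ≤ B.card * (2 * d + 1) := by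
  unfold HMO_nb
  refine (Finset.card_union_le _ _).trans ?_
  have h1 : (Finset.univ.biUnion fun i : Fin d =>
      (B.image fun x => x + ev i) ∪ (B.image fun x => x - ev i)).card ≤ d * (2 * B.card) := by
    refine Finset.card_biUnion_le.trans ?_
    have h2 : ∀ i ∈ (Finset.univ : Finset (Fin d)),
        ((B.image fun x => x + ev i) ∪ (B.image fun x => x - ev i)).card ≤ 2 * B.card := by
      intro i _
      refine (Finset.card_union_le _ _).trans ?_
      have h3 : (B.image fun x => x + ev i).card ≤ B.card := Finset.card_image_le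
      have h4 : (B.image fun x => x - ev i).card ≤ B.card := Finset.card_image_le
      omega
    refine (Finset.sum_le_card_nsmul _ _ _ h2).trans ?_
    simp
  calc B.card + _ ≤ B.card + d * (2 * B.card) := Nat.add_le_add_left h1 _
    _ = B.card * (2 * d + 1) := by ring

theorem HMO_step {A C B : Finset (Tor d L)} (h : A ⊆ C ∪ B) : ero A ⊆ ero C ∪ HMO_nb B := by
  intro x hx
  rw [Finset.mem_union]
  by_cases hn : x ∈ HMO_nb B
  · exact Or.inr hn
  left
  rw [HMO_mem_ero] at hx ⊢
  have key : ∀ z, z ∈ A → z ∉ B → z ∈ C := by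
    intro z hz hzB
    rcases Finset.mem_union.1 (h hz) with h1 | h1
    · exact h1
    · exact absurd h1 hzB
  refine ⟨key x hx.1 ?_, fun i => ⟨key _ (hx.2 i).1 ?_, key _ (hx.2 i).2 ?_⟩⟩
  · intro hB
    apply hn
    unfold HMO_nb
    exact Finset.mem_union_left _ hB
  · intro hB
    apply hn
    unfold HMO_nb
    refine Finset.mem_union_right _ (Finset.mem_biUnion.2 ⟨i, Finset.mem_univ _, ?_⟩)
    exact Finset.mem_union_right _ (Finset.mem_image.2 ⟨x + ev i, hB, by abel⟩)
  · intro hB
    apply hn
    unfold HMO_nb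
    refine Finset.mem_union_right _ (Finset.mem_biUnion.2 ⟨i, Finset.mem_univ _, ?_⟩)
    exact Finset.mem_union_left _ (Finset.mem_image.2 ⟨x - ev i, hB, by abel⟩)

theorem HMO_sub (m : ℕ) (O : Finset (Tor d L)) (y : Tor d L) :
    ∃ B : Finset (Tor d L), B.card ≤ (2 * d + 1) ^ m ∧ hol m (insert y O) ⊆ hol m O ∪ B := by
  unfold hol
  induction m with
  | zero =>
    refine ⟨{y}, by simp, ?_⟩
    intro x hx
    rw [Function.iterate_zero, id, Finset.mem_insert] at hx
    rw [Function.iterate_zero, id, Finset.mem_union, Finset.mem_singleton]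
    exact hx.symm
  | succ m ih =>
    obtain ⟨B, hB, hs⟩ := ih
    refine ⟨HMO_nb B, ?_, ?_⟩
    · refine (HMO_nb_card B).trans ?_
      rw [pow_succ]
      exact Nat.mul_le_mul_right _ hB
    · rw [Function.iterate_succ_apply', Function.iterate_succ_apply']
      exact HMO_step hs

end HMO

theorem p_HMO : T_HMO := by
  intro d L _ m O O' _
  refine ⟨HMO_hol_mono m, fun y => ?_⟩
  obtain ⟨B, hB, hs⟩ := HMO_sub m O y
  exact (Finset.card_le_card hs).trans ((Finset.card_union_le _ _).trans (Nat.add_le_add_left hB _))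

end

end Pool.Agent.LBL
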