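import Pool.Agent.LBL.Targets1

set_option autoImplicit false

/-!
# LBL-HOL: survival of the killed walk and holes
-/

open Finset
open scoped Classical

namespace Pool.Agent.LBL

noncomputable section

namespace HOL_

set_option linter.unusedSectionVars false

variable {d L : ℕ} [NeZero L]

lemma P0_mono {f g : Tor d L → ℝ} (h : ∀ x, f x ≤ g x) (x : Tor d L) : P0 f x ≤ P0 g x := by
  unfold P0
  refine div_le_div_of_nonneg_right ?_ (by positivity)
  exact Finset.sum_le_sum fun i _ => add_le_add (h _) (h _)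

lemma Pk_mono (O : Finset (Tor d L)) {f g : Tor d L → ℝ} (h : ∀ x, f x ≤ g x) (x : Tor d L) :
    Pk O f x ≤ Pk O g x := by
  unfold Pk
  split_ifs
  · exact P0_mono h x
  · exact le_refl _

lemma srv_zero (O : Finset (Tor d L)) (x : Tor d L) :
    srv O 0 x = if x ∈ O then 1 else 0 := rfl

lemma srv_succ (O : Finset (Tor d L)) (k : ℕ) : srv O (k + 1) = Pk O (srv O k) := by
  unfold srv
  rw [Function.iterate_succ_apply']

lemma srv_nonneg (O : Finset (Tor d L)) (k : ℕ) : ∀ x, 0 ≤ srv O k x := by
  induction k with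
  | zero =>
    intro x
    rw [srv_zero]
    split_ifs <;> norm_num
  | succ k ih =>
    intro x
    rw [srv_succ]
    unfold Pk
    split_ifs
    · unfold P0
      refine div_nonneg (Finset.sum_nonneg fun i _ => add_nonneg (ih _) (ih _)) (by positivity)
    · exact le_refl _

lemma srv_out (O : Finset (Tor d L)) (k : ℕ) (x : Tor d L) (hx : x ∉ O) : srv O k x = 0 := by
  cases k with
  | zero => rw [srv_zero, if_neg hx]
  | succ k =>
    rw [srv_succ]
    unfold Pk
    rw [if_neg hx]

lemma P0_const (hd : 1 ≤ d) (c : ℝ) (x : Tor d L) : P0 (fun _ => c) x = c := by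
  unfold P0
  have h : (d : ℝ) ≠ 0 := by positivity
  simp only [Finset.sum_const, Finset.card_univ, Fintype.card_fin, nsmul_eq_mul]
  field_simp
  ring

lemma srv_anti_step (hd : 1 ≤ d) (O : Finset (Tor d L)) (k : ℕ) :
    ∀ x, srv O (k + 1) x ≤ srv O k x := by
  induction k with
  | zero =>
    intro x
    rw [srv_succ]
    unfold Pk
    rw [srv_zero]
    split_ifs with hx
    · calc P0 (srv O 0) x ≤ P0 (fun _ => (1 : ℝ)) x := by
            refine P0_mono (fun y => ?_) x
            rw [srv_zero]
            split_ifs <;> norm_num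
        _ = 1 := P0_const hd 1 x
    · exact le_refl _
  | succ k ih =>
    intro x
    rw [srv_succ O (k + 1), srv_succ O k]
    have := Pk_mono O ih x
    rwa [srv_succ O k] at this

lemma srv_anti (hd : 1 ≤ d) (O : Finset (Tor d L)) {k l : ℕ} (h : k ≤ l) (x : Tor d L) :
    srv O l x ≤ srv O k x := by
  induction l, h using Nat.le_induction with
  | base => exact le_refl _
  | succ l _ ih => exact (srv_anti_step hd O l x).trans ih

lemma srv_le_one (hd : 1 ≤ d) (O : Finset (Tor d L)) (k : ℕ) (x : Tor d L) : srv O k x ≤ 1 := by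
  refine (srv_anti hd O (Nat.zero_le k) x).trans ?_
  rw [srv_zero]
  split_ifs <;> norm_num

/-- outside the holes the walk is killed with positive probability -/
lemma srv_hol (hd : 1 ≤ d) (O : Finset (Tor d L)) (m : ℕ) :
    ∀ z, z ∉ hol m O → srv O m z ≤ 1 - 1 / (2 * (d : ℝ)) ^ m := by
  have hd' : (1 : ℝ) ≤ d := by exact_mod_cast hd
  have h2 : (1 : ℝ) ≤ 2 * (d : ℝ) := by linarith
  induction m with
  | zero =>
    intro z hz
    have hz' : z ∉ O := hz
    rw [srv_out O 0 z hz']
    simp
  | succ m ih =>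
    intro z hz
    have hpm : (0 : ℝ) < (2 * (d : ℝ)) ^ m := by positivity
    have hle : 1 / (2 * (d : ℝ)) ^ (m + 1) ≤ 1 / (2 * (d : ℝ)) ^ m := by
      refine one_div_le_one_div_of_le hpm ?_
      exact pow_le_pow_right₀ h2 (Nat.le_succ m)
    by_cases hzm : z ∈ hol m O
    · have hzO : ¬ (∀ i : Fin d, z + ev i ∈ hol m O ∧ z - ev i ∈ hol m O) := by
        intro hall
        apply hz
        unfold hol
        rw [Function.iterate_succ_apply']
        unfold ero
        rw [Finset.mem_filter]
        exact ⟨hzm, hall⟩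
      push Not at hzO
      obtain ⟨i, hi⟩ := hzO
      by_cases hO : z ∈ O
      · rw [srv_succ]
        unfold Pk
        rw [if_pos hO]
        unfold P0
        have hsum : ∑ j : Fin d, (srv O m (z + ev j) + srv O m (z - ev j)) ≤
            ∑ j : Fin d, (2 - if j = i then 1 / (2 * (d : ℝ)) ^ m else 0) := by
          refine Finset.sum_le_sum fun j _ => ?_
          have h1 := srv_le_one hd O m (z + ev j)
          have h2' := srv_le_one hd O m (z - ev j)
          split_ifs with hj
          · subst hj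
            by_cases hp : z + ev j ∈ hol m O
            · have := ih _ (hi hp)
              linarith
            · have := ih _ hp
              linarith
          · linarith
        have hsum2 : ∑ j : Fin d, ((2 : ℝ) - if j = i then 1 / (2 * (d : ℝ)) ^ m else 0) =
            2 * d - 1 / (2 * (d : ℝ)) ^ m := by
          rw [Finset.sum_sub_distrib]
          simp
          ring
        rw [hsum2] at hsum
        rw [div_le_iff₀ (by positivity)]
        refine hsum.trans (le_of_eq ?_)
        rw [pow_succ]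
        field_simp
      · rw [srv_out O (m + 1) z hO]
        rw [sub_nonneg, div_le_one (by positivity)]
        exact one_le_pow₀ h2
    · have := ih z hzm
      have h3 := srv_anti_step hd O m z
      linarith

lemma sum_shift (f : Tor d L → ℝ) (v : Tor d L) : ∑ x, f (x + v) = ∑ x, f x :=
  Equiv.sum_comp (Equiv.addRight v) f

lemma P0_symm (f g : Tor d L → ℝ) : ∑ x, f x * P0 g x = ∑ x, P0 f x * g x := by
  unfold P0
  have key : ∀ (f g : Tor d L → ℝ) (v : Tor d L),
      ∑ x, f x * g (x + v) = ∑ x, f (x - v) * g x := by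
    intro f g v
    rw [← sum_shift (fun x => f (x - v) * g x) v]
    refine Finset.sum_congr rfl fun x _ => ?_
    rw [add_sub_cancel_right]
  have key2 : ∀ (f g : Tor d L → ℝ) (v : Tor d L),
      ∑ x, f x * g (x - v) = ∑ x, f (x + v) * g x := by
    intro f g v
    have := key f g (-v)
    simpa [sub_eq_add_neg] using this
  have h1 : ∑ x, f x * ((∑ i : Fin d, (g (x + ev i) + g (x - ev i))) / (2 * d)) =
      (∑ i : Fin d, (∑ x, f x * g (x + ev i) + ∑ x, f x * g (x - ev i))) / (2 * d) := by
    simp only [← mul_div_assoc, ← Finset.sum_div, Finset.mul_sum, mul_add]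
    rw [Finset.sum_comm]
    simp only [Finset.sum_add_distrib]
  have h2 : ∑ x, ((∑ i : Fin d, (f (x + ev i) + f (x - ev i))) / (2 * d)) * g x =
      (∑ i : Fin d, (∑ x, f (x + ev i) * g x + ∑ x, f (x - ev i) * g x)) / (2 * d) := by
    simp only [div_mul_eq_mul_div, ← Finset.sum_div, Finset.sum_mul, add_mul]
    rw [Finset.sum_comm]
    simp only [Finset.sum_add_distrib]
  rw [h1, h2]
  congr 1
  refine Finset.sum_congr rfl fun i _ => ?_
  rw [key, key2, add_comm]

lemma Pk_symm (O : Finset (Tor d L)) (f g : Tor d L → ℝ) (hf : ∀ x, x ∉ O → f x = 0)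
    (hg : ∀ x, x ∉ O → g x = 0) : ∑ x, f x * Pk O g x = ∑ x, Pk O f x * g x := by
  have h1 : ∑ x, f x * Pk O g x = ∑ x, f x * P0 g x := by
    refine Finset.sum_congr rfl fun x _ => ?_
    unfold Pk
    split_ifs with hx
    · rfl
    · rw [hf x hx]; simp
  have h2 : ∑ x, Pk O f x * g x = ∑ x, P0 f x * g x := by
    refine Finset.sum_congr rfl fun x _ => ?_
    unfold Pk
    split_ifs with hx
    · rfl
    · rw [hg x hx]; simp
  rw [h1, h2, P0_symm]

lemma srv_mul (O : Finset (Tor d L)) (k : ℕ) :
    ∀ l, ∑ x, srv O (k + l) x * srv O 0 x = ∑ x, srv O k x * srv O l x := by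
  induction k with
  | zero =>
    intro l
    rw [Nat.zero_add]
    exact Finset.sum_congr rfl fun x _ => mul_comm _ _
  | succ k ih =>
    intro l
    have h1 : k + 1 + l = k + (l + 1) := by ring
    rw [h1, ih (l + 1), srv_succ O l, srv_succ O k]
    exact Pk_symm O _ _ (srv_out O k) (srv_out O l)

lemma srv_sum (O : Finset (Tor d L)) (k l : ℕ) :
    ∑ x, srv O (k + l) x = ∑ x, srv O k x * srv O l x := by
  rw [← srv_mul]
  refine Finset.sum_congr rfl fun x _ => ?_
  rw [srv_zero]
  split_ifs with hx
  · rw [mul_one]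
  · rw [srv_out O _ x hx, zero_mul]

/-- one block of `m` steps -/
lemma step (hd : 1 ≤ d) (O : Finset (Tor d L)) (k m : ℕ) :
    ∑ x, srv O (k + m) x ≤
      ∑ x, srv O k x - 1 / (2 * (d : ℝ)) ^ m * ∑ x ∈ (hol m O)ᶜ, srv O k x := by
  rw [srv_sum, ← Finset.sum_add_sum_compl (hol m O) fun x => srv O k x * srv O m x,
    ← Finset.sum_add_sum_compl (hol m O) fun x => srv O k x]
  have h1 : ∑ x ∈ hol m O, srv O k x * srv O m x ≤ ∑ x ∈ hol m O, srv O k x := by
    refine Finset.sum_le_sum fun x _ => ?_
    have := srv_le_one hd O m x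
    have h0 := srv_nonneg O k x
    nlinarith
  have h2 : ∑ x ∈ (hol m O)ᶜ, srv O k x * srv O m x ≤
      ∑ x ∈ (hol m O)ᶜ, srv O k x * (1 - 1 / (2 * (d : ℝ)) ^ m) := by
    refine Finset.sum_le_sum fun x hx => ?_
    exact mul_le_mul_of_nonneg_left (srv_hol hd O m x (by simpa using hx)) (srv_nonneg O k x)
  rw [← Finset.sum_mul] at h2
  linarith

lemma block (hd : 1 ≤ d) (O : Finset (Tor d L)) (m t : ℕ) :
    ∀ n, n * m ≤ t → ∑ x, srv O t x ≤ 2 * ((hol m O).card : ℝ) ∨
      ∑ x, srv O (n * m) x ≤ (L : ℝ) ^ d * (1 - (1 / (2 * (d : ℝ)) ^ m) / 2) ^ n := by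
  intro n
  induction n with
  | zero =>
    intro _
    right
    rw [Nat.zero_mul, pow_zero, mul_one]
    have h1 : ∑ x, srv O 0 x ≤ ∑ _x : Tor d L, (1 : ℝ) :=
      Finset.sum_le_sum fun x _ => srv_le_one hd O 0 x
    refine h1.trans (le_of_eq ?_)
    rw [Finset.sum_const, Finset.card_univ, Fintype.card_fun, ZMod.card, Fintype.card_fin]
    simp
  | succ n ih =>
    intro hn
    have hnm : n * m ≤ t := by
      refine le_trans ?_ hn
      exact Nat.mul_le_mul_right m (Nat.le_succ n)
    rcases ih hnm with h | h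
    · left
      exact h
    · have hst := step hd O (n * m) m
      have hc0 : (0 : ℝ) < 1 / (2 * (d : ℝ)) ^ m := by positivity
      have hc1 : 1 / (2 * (d : ℝ)) ^ m ≤ 1 := by
        have hd' : (1 : ℝ) ≤ d := by exact_mod_cast hd
        rw [div_le_one (by positivity)]
        exact one_le_pow₀ (by linarith)
      have hsp := Finset.sum_add_sum_compl (hol m O) fun x => srv O (n * m) x
      by_cases hc : ∑ x, srv O (n * m) x / 2 ≤ ∑ x ∈ (hol m O)ᶜ, srv O (n * m) x
      · right
        rw [← Finset.sum_div] at hc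
        have e : (n + 1) * m = n * m + m := by ring
        rw [e, pow_succ, ← mul_assoc]
        have h3 : ∑ x, srv O (n * m + m) x ≤
            (∑ x, srv O (n * m) x) * (1 - (1 / (2 * (d : ℝ)) ^ m) / 2) := by
          nlinarith
        refine h3.trans ?_
        exact mul_le_mul_of_nonneg_right h (by linarith)
      · left
        rw [← Finset.sum_div] at hc
        push Not at hc
        have h3 : ∑ x ∈ hol m O, srv O (n * m) x ≤ ∑ _x ∈ hol m O, (1 : ℝ) :=
          Finset.sum_le_sum fun x _ => srv_le_one hd O _ x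
        rw [Finset.sum_const, nsmul_eq_mul, mul_one] at h3
        have h4 : ∑ x, srv O t x ≤ ∑ x, srv O (n * m) x :=
          Finset.sum_le_sum fun x _ => srv_anti hd O hnm x
        linarith

end HOL_

open HOL_ in
theorem p_HOL : T_HOL := by
  intro d L _ O m t hd hm h
  rcases block hd O m t (t / m) (Nat.div_mul_le_self t m) with h1 | h1
  · linarith
  · have h4 : ∑ x, srv O t x ≤ ∑ x, srv O (t / m * m) x :=
      Finset.sum_le_sum fun x _ => srv_anti hd O (Nat.div_mul_le_self t m) x
    have h5 : (0 : ℝ) ≤ ((hol m O).card : ℝ) := by positivity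
    linarith

end

end Pool.Agent.LBL
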