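import Pool.Agent.LBL.Targets1

/-!
# LBL: two-sided bound of the tail by the optimal volume (job LBL-LDP, helper66)
-/

set_option autoImplicit false

open Finset
open scoped Classical

namespace Pool.Agent.LBL

noncomputable section

namespace LDP_

/-- eigenvalue of the empty set -/
theorem lam_empty {d : ℕ} {R : Type} [Ring R] : lam (∅ : Finset (Fin d → R)) = 0 := by
  unfold lam
  have h : {t : ℝ | ∃ f : (Fin d → R) → ℝ, Spp (∅ : Finset (Fin d → R)) f ∧
      ∑ x ∈ (∅ : Finset (Fin d → R)), f x ^ 2 = 1 ∧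
      t = ∑ x ∈ (∅ : Finset (Fin d → R)), f x * P0 f x} = ∅ := by
    ext t
    simp
  rw [h, Real.sSup_empty]

/-- the number of sets is subexponential -/
theorem count (d K0 : ℕ) (C1 ε : ℝ) (hd : 2 ≤ d) (hC1 : 0 < C1) (hε : 0 < ε) :
    ∃ r0 : ℝ, 1 < r0 ∧ ∀ (r : ℝ) (L : ℕ), r0 ≤ r → 1 ≤ (L : ℝ) → (L : ℝ) ≤ r ^ K0 →
      4 * ((d : ℝ) * (L : ℝ) ^ d + 1) ^ ⌊C1 * r ^ ((d : ℝ) - 1 / 4)⌋₊ ≤ Real.exp (ε * r ^ d) := by
  set C2 : ℝ := 2 + C1 * (Real.log (d + 1) + 8 * K0 * d) with hC2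
  refine ⟨max 2 ((C2 / ε) ^ 8), lt_of_lt_of_le (by norm_num) (le_max_left _ _), ?_⟩
  intro r L hr hL1 hL2
  have hr2 : 2 ≤ r := le_trans (le_max_left _ _) hr
  have hr8 : (C2 / ε) ^ 8 ≤ r := le_trans (le_max_right _ _) hr
  have hr0 : 0 < r := by linarith
  have hr1 : 1 ≤ r := by linarith
  have hd0 : (0 : ℝ) < d := by exact_mod_cast (by omega : 0 < d)
  have hlogd : 0 ≤ Real.log ((d : ℝ) + 1) := Real.log_nonneg (by linarith)
  have hC2pos : 0 < C2 := by
    rw [hC2]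
    positivity
  -- logarithm of the base
  have hbase : (d : ℝ) * (L : ℝ) ^ d + 1 ≤ (d + 1) * r ^ (K0 * d) := by
    have h1 : (L : ℝ) ^ d ≤ r ^ (K0 * d) := by
      rw [pow_mul]
      exact pow_le_pow_left₀ (by linarith) hL2 d
    have h2 : (1 : ℝ) ≤ r ^ (K0 * d) := one_le_pow₀ hr1
    nlinarith
  have hbase1 : 1 ≤ (d : ℝ) * (L : ℝ) ^ d + 1 := by
    have : 0 ≤ (d : ℝ) * (L : ℝ) ^ d := by positivity
    linarith
  have hlog : Real.log ((d : ℝ) * (L : ℝ) ^ d + 1) ≤ Real.log (d + 1) + K0 * d * Real.log r := by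
    have h1 := Real.log_le_log (by linarith) hbase
    rw [Real.log_mul (by positivity) (by positivity), Real.log_pow] at h1
    push_cast at h1
    exact h1
  have hlogr : Real.log r ≤ 8 * r ^ ((1 : ℝ) / 8) := by
    have h1 := Real.log_le_rpow_div hr0.le (by norm_num : (0 : ℝ) < 1 / 8)
    calc Real.log r ≤ r ^ ((1 : ℝ) / 8) / (1 / 8) := h1
      _ = 8 * r ^ ((1 : ℝ) / 8) := by ring
  have hr18 : 1 ≤ r ^ ((1 : ℝ) / 8) := Real.one_le_rpow hr1 (by norm_num)
  have hlog2 : Real.log ((d : ℝ) * (L : ℝ) ^ d + 1) ≤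
      (Real.log (d + 1) + 8 * K0 * d) * r ^ ((1 : ℝ) / 8) := by
    have hK : (0 : ℝ) ≤ K0 * d := by positivity
    calc Real.log ((d : ℝ) * (L : ℝ) ^ d + 1) ≤ Real.log (d + 1) + K0 * d * Real.log r := hlog
      _ ≤ Real.log (d + 1) * r ^ ((1 : ℝ) / 8) + K0 * d * (8 * r ^ ((1 : ℝ) / 8)) := by
          apply add_le_add
          · exact le_mul_of_one_le_right hlogd hr18
          · exact mul_le_mul_of_nonneg_left hlogr hK
      _ = _ := by ring
  have hkk : ((⌊C1 * r ^ ((d : ℝ) - 1 / 4)⌋₊ : ℕ) : ℝ) ≤ C1 * r ^ ((d : ℝ) - 1 / 4) :=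
    Nat.floor_le (by positivity)
  have hlog0 : 0 ≤ Real.log ((d : ℝ) * (L : ℝ) ^ d + 1) := Real.log_nonneg hbase1
  have hmain : Real.log (4 * ((d : ℝ) * (L : ℝ) ^ d + 1) ^ ⌊C1 * r ^ ((d : ℝ) - 1 / 4)⌋₊) ≤
      ε * r ^ d := by
    rw [Real.log_mul (by norm_num) (by positivity), Real.log_pow]
    have hlog4 : Real.log 4 ≤ 2 := by
      have h1 : (4 : ℝ) = 2 ^ 2 := by norm_num
      have h2 := Real.log_two_lt_d9
      rw [h1, Real.log_pow]
      push_cast
      linarith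
    have hp1 : r ^ ((d : ℝ) - 1 / 4) * r ^ ((1 : ℝ) / 8) = r ^ ((d : ℝ) - 1 / 8) := by
      rw [← Real.rpow_add hr0]
      congr 1
      ring
    have hp2 : r ^ ((d : ℝ) - 1 / 8) * r ^ ((1 : ℝ) / 8) = r ^ d := by
      rw [← Real.rpow_add hr0, ← Real.rpow_natCast]
      congr 1
      ring
    have hp3 : (1 : ℝ) ≤ r ^ ((d : ℝ) - 1 / 8) := by
      apply Real.one_le_rpow hr1
      have : (2 : ℝ) ≤ d := by exact_mod_cast hd
      linarith
    have hr8' : C2 / ε ≤ r ^ ((1 : ℝ) / 8) := by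
      have h1 : 0 ≤ C2 / ε := by positivity
      have h2 := Real.rpow_le_rpow (by positivity) hr8 (by norm_num : (0 : ℝ) ≤ 1 / 8)
      rw [← Real.rpow_natCast, ← Real.rpow_mul h1] at h2
      norm_num at h2
      simpa using h2
    calc Real.log 4 + (⌊C1 * r ^ ((d : ℝ) - 1 / 4)⌋₊ : ℕ) * Real.log ((d : ℝ) * (L : ℝ) ^ d + 1)
        ≤ 2 * r ^ ((d : ℝ) - 1 / 8) + (C1 * r ^ ((d : ℝ) - 1 / 4)) *
          ((Real.log (d + 1) + 8 * K0 * d) * r ^ ((1 : ℝ) / 8)) := by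
          apply add_le_add
          · linarith
          · exact mul_le_mul hkk hlog2 hlog0 (by positivity)
      _ = C2 * r ^ ((d : ℝ) - 1 / 8) := by
          rw [hC2, ← hp1]
          have : C1 * r ^ ((d : ℝ) - 1 / 4) * ((Real.log (d + 1) + 8 * K0 * d) *
              r ^ ((1 : ℝ) / 8)) = C1 * (Real.log (d + 1) + 8 * K0 * d) *
              (r ^ ((d : ℝ) - 1 / 4) * r ^ ((1 : ℝ) / 8)) := by ring
          rw [this]
          ring
      _ ≤ (ε * r ^ ((1 : ℝ) / 8)) * r ^ ((d : ℝ) - 1 / 8) := by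
          apply mul_le_mul_of_nonneg_right _ (by positivity)
          rw [div_le_iff₀ hε] at hr8'
          linarith
      _ = ε * r ^ d := by
          rw [← hp2]
          ring
  have hpos : 0 < 4 * ((d : ℝ) * (L : ℝ) ^ d + 1) ^ ⌊C1 * r ^ ((d : ℝ) - 1 / 4)⌋₊ := by positivity
  rw [← Real.exp_log hpos]
  exact Real.exp_le_exp.2 hmain

end LDP_

open LDP_ in
theorem p_LDP (h_VAR : T_VAR) (h_TOP : T_TOP) (h_PRB : T_PRB) (h_GDE : T_GDE) (h_LEV : T_LEV)
    (h_CNT : T_CNT) (h_VUP : T_VUP) (h_GOO : T_GOO) : T_LDP := by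
  intro d K0 p a A ε hd hK0 hp0 hp1 ha haA hε
  have hA : 0 < A := lt_of_lt_of_le ha haA
  obtain ⟨C', rG, hC', hrG, hGOO⟩ := h_GOO d K0 p a hd hK0 hp0 hp1 ha
  obtain ⟨C, rD, hC, hrD, hGDE⟩ := h_GDE d K0 p A C' hd hK0 hp0 hp1 hA hC'
  obtain ⟨C1, rL, hC1, hrL, hLEV⟩ := h_LEV d C hd hC
  obtain ⟨CV, hCV, hVUP⟩ := h_VUP d hd
  obtain ⟨rN, hrN, hN⟩ := count d K0 C1 ε hd hC1 hε
  set r0 : ℝ := rG + rD + rL + rN + (A + 1) + CV * (a ^ (-(1 : ℝ) / 2) + 1) with hr0
  have haP : 0 ≤ CV * (a ^ (-(1 : ℝ) / 2) + 1) := by positivity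
  refine ⟨C1, r0, hC1, by linarith, ?_⟩
  intro r x L _ hr hRg hWin
  have hr1 : 1 ≤ r := by linarith
  have hrpos : 0 < r := by linarith
  obtain ⟨hRg1, hRg2⟩ := hRg
  obtain ⟨hW1, hW2⟩ := hWin
  have hL1 : 1 ≤ (L : ℝ) := le_trans (one_le_pow₀ hr1) hRg1
  have hx1 : x ≤ 1 := by
    by_contra hx
    push Not at hx
    have h1 : (1 - x) * r ^ 2 ≤ 0 := mul_nonpos_of_nonpos_of_nonneg (by linarith) (by positivity)
    linarith
  have hx0 : 0 < x := by
    have h1 : A < r ^ 2 := by nlinarith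
    by_contra hx
    push Not at hx
    have h2 : r ^ 2 ≤ (1 - x) * r ^ 2 := by
      have : 0 ≤ -x * r ^ 2 := mul_nonneg (by linarith) (by positivity)
      nlinarith
    linarith
  obtain ⟨hP1, hP2, hP3, hP4, hP5⟩ := h_PRB (Tor d L) p hp0 hp1
  have hVAR := h_VAR d (ZMod L) (by omega)
  constructor
  · -- lower bound
    have hne : {n : ℕ | ∃ V : Finset (Tor d L), V.card = n ∧ x ≤ lam V}.Nonempty := by
      obtain ⟨V, hV, -⟩ := hVUP a r x L ha hW1 hr1 (by
        have h1 : CV * (a ^ (-(1 : ℝ) / 2) + 1) ≤ r := by linarith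
        have h2 : r ^ 2 ≤ r ^ (d + 4) := pow_le_pow_right₀ hr1 (by omega)
        have h3 : CV * (r * a ^ (-(1 : ℝ) / 2) + 1) ≤ r * (CV * (a ^ (-(1 : ℝ) / 2) + 1)) := by
          nlinarith
        have h4 : r * (CV * (a ^ (-(1 : ℝ) / 2) + 1)) ≤ r * r :=
          mul_le_mul_of_nonneg_left h1 hrpos.le
        calc CV * (r * a ^ (-(1 : ℝ) / 2) + 1) ≤ r * r := le_trans h3 h4
          _ = r ^ 2 := by ring
          _ ≤ r ^ (d + 4) := h2
          _ ≤ L := hRg1)
      exact ⟨V.card, V, rfl, hV⟩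
    obtain ⟨V, hVc, hVl⟩ := Nat.sInf_mem hne
    have hvol : vol d L x = V.card := hVc.symm
    rw [hvol, ← hP5 V]
    unfold TT
    apply hP3
    intro O hO
    exact le_trans hVl ((hVAR V).2.2.2.1 O hO)
  · -- upper bound
    set k : ℕ := ⌊C1 * r ^ ((d : ℝ) - 1 / 4)⌋₊ with hk
    set y : ℝ := x - C1 * r ^ (-(7 : ℝ) / 2) with hy
    set bad : Finset (Tor d L) → Prop := fun O =>
      C' * r ^ d < ((hol (mm d p K0 r) O).card : ℝ) with hbad
    set S : Finset (Finset (Tor d L)) :=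
      (Finset.univ.filter fun V : Finset (Tor d L) => (bd V).card ≤ k).filter
        fun V => y ≤ lam V with hS
    have hgoo := hGOO r x L (by linarith) ⟨hRg1, hRg2⟩ hW1 hx1
    -- first union bound
    have hu1 : TT d L p x ≤ pr p (fun O : Finset (Tor d L) => x ≤ lam O ∧ ¬ bad O) + pr p bad := by
      have h1 := hP4 Bool Finset.univ (fun O => x ≤ lam O)
        (fun b O => if b then (x ≤ lam O ∧ ¬ bad O) else bad O) (by
          intro O hO
          by_cases hb : bad O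
          · exact ⟨false, Finset.mem_univ _, by simpa using hb⟩
          · exact ⟨true, Finset.mem_univ _, by simpa using ⟨hO, hb⟩⟩)
      rw [Fintype.sum_bool] at h1
      simpa [TT] using h1
    -- second union bound
    have hu2 : pr p (fun O : Finset (Tor d L) => x ≤ lam O ∧ ¬ bad O) ≤
        ∑ V ∈ S, pr p (fun O : Finset (Tor d L) => V ⊆ O) := by
      apply hP4 (Finset (Tor d L)) S _ (fun V O => V ⊆ O)
      rintro O ⟨hO1, hO2⟩
      have hOne : O.Nonempty := by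
        rw [Finset.nonempty_iff_ne_empty]
        rintro rfl
        rw [lam_empty] at hO1
        linarith
      obtain ⟨φ, hφ⟩ := h_TOP d (ZMod L) O (by omega) hOne
      have hmu : (1 - lam O) * r ^ 2 ≤ A := by
        have h1 : (1 - lam O) * r ^ 2 ≤ (1 - x) * r ^ 2 :=
          mul_le_mul_of_nonneg_right (by linarith) (by positivity)
        linarith
      have hEF := hGDE r L (by linarith) ⟨hRg1, hRg2⟩ O φ hφ hmu (not_lt.1 hO2)
      obtain ⟨V, hVO, hVb, -, hVl⟩ := hLEV r L (by linarith) O φ hEF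
      refine ⟨V, ?_, hVO⟩
      rw [hS, Finset.mem_filter, Finset.mem_filter]
      exact ⟨⟨Finset.mem_univ _, Nat.le_floor hVb⟩, by rw [hy]; linarith⟩
    have hu3 : ∑ V ∈ S, pr p (fun O : Finset (Tor d L) => V ⊆ O) ≤
        ∑ V ∈ S, p ^ vol d L y := by
      apply Finset.sum_le_sum
      intro V hV
      rw [hP5 V]
      apply pow_le_pow_of_le_one hp0.le hp1.le
      rw [hS, Finset.mem_filter] at hV
      exact Nat.sInf_le ⟨V, rfl, hV.2⟩
    rw [Finset.sum_const, nsmul_eq_mul] at hu3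
    have hcard : (S.card : ℝ) ≤ 2 * ((d : ℝ) * (L : ℝ) ^ d + 1) ^ k := by
      have h1 : S.card ≤ 2 * (d * L ^ d + 1) ^ k := by
        refine le_trans (Finset.card_filter_le _ _) ?_
        exact h_CNT d L k (by omega)
      exact_mod_cast h1
    have hTT0 : 0 ≤ TT d L p x := (hP2 _).1
    have hexp : Real.exp (-r ^ d) ≤ 1 / 2 := by
      have h1 : (1 : ℝ) ≤ r ^ d := one_le_pow₀ hr1
      have h2 : Real.exp (-r ^ d) ≤ Real.exp (-1) := Real.exp_le_exp.2 (by linarith)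
      have h3 : Real.exp (-1) ≤ 1 / 2 := by
        rw [Real.exp_neg, inv_eq_one_div]
        apply one_div_le_one_div_of_le (by norm_num)
        have := Real.add_one_le_exp (1 : ℝ)
        linarith
      linarith
    have hbadle : pr p bad ≤ TT d L p x / 2 := by
      have h1 : Real.exp (-r ^ d) * TT d L p x ≤ (1 / 2) * TT d L p x :=
        mul_le_mul_of_nonneg_right hexp hTT0
      linarith
    have hpv : 0 ≤ p ^ vol d L y := by positivity
    have hcnt := hN r L (by linarith) hL1 hRg2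
    calc TT d L p x ≤ 2 * ((S.card : ℝ) * p ^ vol d L y) := by linarith
      _ ≤ 2 * ((2 * ((d : ℝ) * (L : ℝ) ^ d + 1) ^ k) * p ^ vol d L y) := by
          apply mul_le_mul_of_nonneg_left _ (by norm_num)
          exact mul_le_mul_of_nonneg_right hcard hpv
      _ = (4 * ((d : ℝ) * (L : ℝ) ^ d + 1) ^ k) * p ^ vol d L y := by ring
      _ ≤ Real.exp (ε * r ^ d) * p ^ vol d L y := mul_le_mul_of_nonneg_right hcnt hpv

end

end Pool.Agent.LBL
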