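import Pool.Agent.LBL.Targets1

set_option autoImplicit false

/-!
# LBL, target LEV: good level set
-/

open Finset
open scoped Classical

namespace Pool.Agent.LBL

noncomputable section

section LEV

open MeasureTheory

/-- measure of the levels separating two values -/
theorem LEV_one (s a b : ℝ) (_hs : 0 < s) :
    (volume (Set.Icc s (2 * s) ∩ Set.Ico (min a b) (max a b))).toReal ≤
      if s < a ∨ s < b then |min a (2 * s) - min b (2 * s)| else 0 := by
  split_ifs with h
  · have hsub : Set.Icc s (2 * s) ∩ Set.Ico (min a b) (max a b) ⊆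
        Set.Icc (min a b) (min (max a b) (2 * s)) := by
      intro t ht
      obtain ⟨⟨h1, h2⟩, h3, h4⟩ := ht
      exact ⟨h3, le_min h4.le h2⟩
    have hempty : 2 * s ≤ min a b → Set.Icc s (2 * s) ∩ Set.Ico (min a b) (max a b) ⊆ {2 * s} := by
      intro h' t ht
      obtain ⟨⟨h1, h2⟩, h3, h4⟩ := ht
      have : t = 2 * s := le_antisymm h2 (h'.trans h3)
      exact this
    rcases le_or_gt (2 * s) (min a b) with hc | hc
    · have h0 : volume (Set.Icc s (2 * s) ∩ Set.Ico (min a b) (max a b)) = 0 := by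
        apply measure_mono_null (hempty hc)
        exact Real.volume_singleton
      rw [h0]
      simp
    · have h1 : volume (Set.Icc s (2 * s) ∩ Set.Ico (min a b) (max a b)) ≤
          ENNReal.ofReal (min (max a b) (2 * s) - min a b) := by
        refine (measure_mono hsub).trans ?_
        rw [Real.volume_Icc]
      have h2 : (volume (Set.Icc s (2 * s) ∩ Set.Ico (min a b) (max a b))).toReal ≤
          min (max a b) (2 * s) - min a b := by
        have h3 : 0 ≤ min (max a b) (2 * s) - min a b := by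
          have : min a b ≤ min (max a b) (2 * s) := le_min (min_le_max) hc.le
          linarith
        have := ENNReal.toReal_mono ENNReal.ofReal_ne_top h1
        rwa [ENNReal.toReal_ofReal h3] at this
      refine h2.trans ?_
      rcases le_total a b with hab | hab
      · rw [min_eq_left hab, max_eq_right hab] at *
        rw [min_eq_left hc.le, abs_sub_comm]
        exact le_abs_self _
      · rw [min_eq_right hab, max_eq_left hab] at *
        rw [min_eq_left hc.le]
        exact le_abs_self _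
  · push Not at h
    have h0 : Set.Icc s (2 * s) ∩ Set.Ico (min a b) (max a b) = ∅ := by
      ext t
      simp only [Set.mem_inter_iff, Set.mem_Icc, Set.mem_Ico, Set.mem_empty_iff_false, iff_false]
      rintro ⟨⟨h1, _⟩, _, h4⟩
      have : max a b ≤ s := max_le h.1 h.2
      linarith
    rw [h0]
    simp

theorem LEV_coarea {E : Type} [Fintype E] (a b : E → ℝ) (s : ℝ) (hs : 0 < s) :
    ∃ t ∈ Set.Icc s (2 * s),
      (((Finset.univ.filter fun e => ¬ (t < a e ↔ t < b e)).card : ℕ) : ℝ) * s ≤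
        ∑ e, if s < a e ∨ s < b e then |min (a e) (2 * s) - min (b e) (2 * s)| else 0 := by
  set f : ℝ → ℝ := fun t => ∑ e, (Set.Ico (min (a e) (b e)) (max (a e) (b e))).indicator (fun _ => (1 : ℝ)) t
    with hf
  have hcard : ∀ t, f t = (((Finset.univ.filter fun e => ¬ (t < a e ↔ t < b e)).card : ℕ) : ℝ) := by
    intro t
    rw [hf, Finset.card_filter]
    push_cast
    apply Finset.sum_congr rfl
    intro e _
    rw [Set.indicator_apply]
    have : t ∈ Set.Ico (min (a e) (b e)) (max (a e) (b e)) ↔ ¬ (t < a e ↔ t < b e) := by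
      rw [Set.mem_Ico, min_le_iff, lt_max_iff]
      constructor
      · rintro ⟨h1, h2⟩ h3
        rcases h1 with h1 | h1 <;> rcases h2 with h2 | h2
        · linarith
        · have := h3.2 h2; linarith
        · have := h3.1 h2; linarith
        · linarith
      · intro h
        by_cases h1 : t < a e
        · have h2 : ¬ t < b e := fun h3 => h ⟨fun _ => h3, fun _ => h1⟩
          exact ⟨Or.inr (not_lt.mp h2), Or.inl h1⟩
        · have h2 : t < b e := by
            by_contra h3
            exact h ⟨fun h4 => absurd h4 h1, fun h4 => absurd h4 h3⟩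
          exact ⟨Or.inl (not_lt.mp h1), Or.inr h2⟩
    by_cases hh : t ∈ Set.Ico (min (a e) (b e)) (max (a e) (b e))
    · rw [if_pos hh, if_pos (this.mp hh)]
    · rw [if_neg hh, if_neg (fun h => hh (this.mpr h))]
  have hmeas : ∀ e, MeasurableSet (Set.Ico (min (a e) (b e)) (max (a e) (b e))) := fun e => measurableSet_Ico
  have hvol : volume (Set.Icc s (2 * s)) = ENNReal.ofReal s := by
    rw [Real.volume_Icc]
    congr 1
    ring
  have hint1 : ∀ e, IntegrableOn ((Set.Ico (min (a e) (b e)) (max (a e) (b e))).indicator (fun _ => (1 : ℝ)))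
      (Set.Icc s (2 * s)) := by
    intro e
    apply IntegrableOn.indicator _ (hmeas e)
    exact integrableOn_const (by rw [hvol]; exact ENNReal.ofReal_ne_top) (by simp)
  have hint : IntegrableOn f (Set.Icc s (2 * s)) := by
    rw [hf]
    exact integrable_finsetSum _ fun e _ => hint1 e
  have hne : volume (Set.Icc s (2 * s)) ≠ 0 := by
    rw [hvol]
    exact (ENNReal.ofReal_pos.mpr hs).ne'
  have hnt : volume (Set.Icc s (2 * s)) ≠ ⊤ := by
    rw [hvol]; exact ENNReal.ofReal_ne_top
  obtain ⟨t, ht, htf⟩ := exists_le_setAverage hne hnt hint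
  refine ⟨t, ht, ?_⟩
  rw [← hcard]
  have havg : (⨍ x in Set.Icc s (2 * s), f x) = s⁻¹ * ∫ x in Set.Icc s (2 * s), f x := by
    rw [setAverage_eq, smul_eq_mul]
    congr 2
    rw [Measure.real, hvol, ENNReal.toReal_ofReal hs.le]
  rw [havg] at htf
  have h1 : f t * s ≤ ∫ x in Set.Icc s (2 * s), f x := by
    have := mul_le_mul_of_nonneg_right htf hs.le
    refine this.trans (le_of_eq ?_)
    field_simp
  refine h1.trans ?_
  have h2 : ∫ x in Set.Icc s (2 * s), f x =
      ∑ e, ∫ x in Set.Icc s (2 * s), (Set.Ico (min (a e) (b e)) (max (a e) (b e))).indicator (fun _ => (1 : ℝ)) x := by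
    rw [hf]
    exact integral_finsetSum _ fun e _ => hint1 e
  rw [h2]
  apply Finset.sum_le_sum
  intro e _
  have h3 : ∫ x in Set.Icc s (2 * s), (Set.Ico (min (a e) (b e)) (max (a e) (b e))).indicator (fun _ => (1 : ℝ)) x
      = (volume (Set.Icc s (2 * s) ∩ Set.Ico (min (a e) (b e)) (max (a e) (b e)))).toReal := by
    rw [setIntegral_indicator (hmeas e), setIntegral_const, smul_eq_mul, mul_one, Measure.real]
  rw [h3]
  exact LEV_one s (a e) (b e) hs

variable {d L : ℕ} [NeZero L]

theorem LEV_cardS (φ : Tor d L → ℝ) (s : ℝ) :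
    (Finset.univ.filter fun e : Tor d L × Fin d => s < φ e.1 ∨ s < φ (e.1 + ev e.2)).card ≤
      2 * d * (Finset.univ.filter fun x => s < φ x).card := by
  set V := (Finset.univ.filter fun x => s < φ x) with hV
  have hsub : (Finset.univ.filter fun e : Tor d L × Fin d => s < φ e.1 ∨ s < φ (e.1 + ev e.2)) ⊆
      (V ×ˢ (Finset.univ : Finset (Fin d))) ∪
        (V ×ˢ (Finset.univ : Finset (Fin d))).image (fun e => (e.1 - ev e.2, e.2)) := by
    intro e he
    rw [Finset.mem_filter] at he
    rw [Finset.mem_union]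
    rcases he.2 with h | h
    · left
      rw [Finset.mem_product]
      exact ⟨by rw [hV, Finset.mem_filter]; exact ⟨Finset.mem_univ _, h⟩, Finset.mem_univ _⟩
    · right
      rw [Finset.mem_image]
      refine ⟨(e.1 + ev e.2, e.2), ?_, ?_⟩
      · rw [Finset.mem_product]
        exact ⟨by rw [hV, Finset.mem_filter]; exact ⟨Finset.mem_univ _, h⟩, Finset.mem_univ _⟩
      · simp
  refine (Finset.card_le_card hsub).trans ?_
  refine (Finset.card_union_le _ _).trans ?_
  have h1 : (V ×ˢ (Finset.univ : Finset (Fin d))).card = V.card * d := by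
    rw [Finset.card_product, Finset.card_univ, Fintype.card_fin]
  have h2 := Finset.card_image_le (s := V ×ˢ (Finset.univ : Finset (Fin d)))
    (f := fun e : Tor d L × Fin d => (e.1 - ev e.2, e.2))
  rw [h1] at h2
  rw [h1]
  nlinarith [h2]

theorem LEV_En (f : Tor d L → ℝ) :
    ∑ e : Tor d L × Fin d, (f e.1 - f (e.1 + ev e.2)) ^ 2 = En f := by
  unfold En Ed
  rw [Fintype.sum_prod_type, Finset.sum_comm]
  apply Finset.sum_congr rfl
  intro i _
  apply Finset.sum_congr rfl
  intro x _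
  ring

theorem LEV_CS (φ : Tor d L → ℝ) (s : ℝ) :
    (∑ e : Tor d L × Fin d, if s < φ e.1 ∨ s < φ (e.1 + ev e.2) then
      |min (φ e.1) (2 * s) - min (φ (e.1 + ev e.2)) (2 * s)| else 0) ^ 2 ≤
      (2 * d * (Finset.univ.filter fun x => s < φ x).card : ℕ) * En (fun x => min (φ x) (2 * s)) := by
  rw [← Finset.sum_filter]
  refine sq_sum_le_card_mul_sum_sq.trans ?_
  have h1 : ((Finset.univ.filter fun e : Tor d L × Fin d => s < φ e.1 ∨ s < φ (e.1 + ev e.2)).card : ℝ) ≤
      (2 * d * (Finset.univ.filter fun x => s < φ x).card : ℕ) := by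
    exact_mod_cast LEV_cardS φ s
  have h2 : ∑ e ∈ (Finset.univ.filter fun e : Tor d L × Fin d => s < φ e.1 ∨ s < φ (e.1 + ev e.2)),
      |min (φ e.1) (2 * s) - min (φ (e.1 + ev e.2)) (2 * s)| ^ 2 ≤ En (fun x => min (φ x) (2 * s)) := by
    rw [← LEV_En]
    refine (Finset.sum_le_sum_of_subset_of_nonneg (Finset.filter_subset _ _) ?_).trans ?_
    · intro e _ _
      positivity
    · apply le_of_eq
      apply Finset.sum_congr rfl
      intro e _
      rw [sq_abs]
  have h3 : 0 ≤ ∑ e ∈ (Finset.univ.filter fun e : Tor d L × Fin d => s < φ e.1 ∨ s < φ (e.1 + ev e.2)),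
      |min (φ e.1) (2 * s) - min (φ (e.1 + ev e.2)) (2 * s)| ^ 2 := by positivity
  exact mul_le_mul h1 h2 h3 (by positivity)

/-- eigenvalue of the level set -/
theorem LEV_lam (h_ENI : T_ENI) (h_TRN : T_TRN) (h_VAR : T_VAR) (hd : 1 ≤ d) (O : Finset (Tor d L))
    (φ : Tor d L → ℝ) (hφ : Top O φ) (t : ℝ) (ht : 0 ≤ t) (hsm : 2 * t * ∑ x, φ x ≤ 1 / 2) :
    lam O - 2 * (1 - lam O) * (t * ∑ x, φ x) ≤ lam (Finset.univ.filter fun x => t < φ x) := by
  set V := (Finset.univ.filter fun x => t < φ x) with hV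
  set ψ : Tor d L → ℝ := fun x => max (φ x - t) 0 with hψ
  have hVm : ∀ x, x ∈ V ↔ t < φ x := fun x => by rw [hV, Finset.mem_filter]; simp
  obtain ⟨hv1, hv2, hv3, _, _⟩ := h_VAR d (ZMod L) hd V
  obtain ⟨_, _, hl1, _, _⟩ := h_VAR d (ZMod L) hd O
  have hψ0 : ∀ x, 0 ≤ ψ x := fun x => le_max_right _ _
  have hspψ : Spp V ψ := by
    intro x hx
    rw [hVm, not_lt] at hx
    exact max_eq_right (by linarith)
  have hform : ∑ x ∈ V, ψ x * P0 ψ x = ip ψ (P0 ψ) := by
    unfold ip
    apply Finset.sum_subset (Finset.subset_univ _)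
    intro x _ hx
    rw [hspψ x hx, zero_mul]
  have hsq : ∑ x ∈ V, ψ x ^ 2 = ip ψ ψ := by
    unfold ip
    have : ∀ x, ψ x ^ 2 = ψ x * ψ x := fun x => by ring
    simp_rw [this]
    apply Finset.sum_subset (Finset.subset_univ _)
    intro x _ hx
    rw [hspψ x hx, zero_mul]
  have hmain := hv1 ψ hspψ
  rw [hform, hsq] at hmain
  obtain ⟨_, hE, _⟩ := h_ENI d L hd ψ ψ
  have hT := (h_TRN d L hd O φ hφ t ht).2
  have hdp : (0 : ℝ) < 2 * d := by
    have : (1 : ℝ) ≤ d := by exact_mod_cast hd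
    linarith
  have hip : ip ψ (P0 ψ) = ip ψ ψ - En ψ / (2 * d) := by
    rw [hE]
    field_simp
    ring
  have hT2 : En ψ / (2 * d) ≤ (1 - lam O) * ∑ x, φ x * ψ x := by
    rw [div_le_iff₀ hdp]
    calc En ψ ≤ 2 * d * (1 - lam O) * ∑ x, φ x * max (φ x - t) 0 := hT
      _ = (1 - lam O) * (∑ x, φ x * ψ x) * (2 * d) := by rw [hψ]; ring
  -- the cross term
  have hcross : ∑ x, φ x * ψ x ≤ ip ψ ψ + t * ∑ x, φ x := by
    unfold ip
    rw [Finset.mul_sum, ← Finset.sum_add_distrib]
    apply Finset.sum_le_sum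
    intro x _
    by_cases hx : t < φ x
    · have h1 : ψ x = φ x - t := max_eq_left (by linarith)
      rw [h1]
      nlinarith
    · have h1 : ψ x = 0 := max_eq_right (by linarith)
      rw [h1]
      have := hφ.nn x
      nlinarith
  have hnorm : ∑ x, φ x ^ 2 = 1 := by
    rw [← hφ.nm]
    symm
    apply Finset.sum_subset (Finset.subset_univ _)
    intro x _ hx
    rw [hφ.sp x hx]
    norm_num
  have hS : 1 / 2 ≤ ip ψ ψ := by
    have h1 : (1 : ℝ) - 2 * t * ∑ x, φ x ≤ ip ψ ψ := by
      rw [← hnorm, Finset.mul_sum, ← Finset.sum_sub_distrib]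
      unfold ip
      apply Finset.sum_le_sum
      intro x _
      by_cases hx : t < φ x
      · have h1 : ψ x = φ x - t := max_eq_left (by linarith)
        rw [h1]
        nlinarith
      · have h1 : ψ x = 0 := max_eq_right (by linarith)
        rw [h1]
        have := hφ.nn x
        nlinarith
    linarith
  have hL1 : 0 ≤ t * ∑ x, φ x := mul_nonneg ht (Finset.sum_nonneg fun x _ => hφ.nn x)
  have hmu : 0 ≤ 1 - lam O := by linarith
  have hS0 : 0 < ip ψ ψ := by linarith
  -- conclusion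
  have h4 : ip ψ ψ - (1 - lam O) * (ip ψ ψ + t * ∑ x, φ x) ≤ lam V * ip ψ ψ := by
    have := mul_le_mul_of_nonneg_left hcross hmu
    linarith
  have h5 : (1 - lam O) * (t * ∑ x, φ x) ≤ 2 * (1 - lam O) * (t * ∑ x, φ x) * ip ψ ψ := by
    have h6 : 0 ≤ (1 - lam O) * (t * ∑ x, φ x) := mul_nonneg hmu hL1
    nlinarith
  have h7 : (lam O - 2 * (1 - lam O) * (t * ∑ x, φ x)) * ip ψ ψ ≤ lam V * ip ψ ψ := by
    nlinarith
  exact le_of_mul_le_mul_right h7 hS0

end LEV

theorem p_LEV (h_ENI : T_ENI) (h_TRN : T_TRN) (h_VAR : T_VAR) : T_LEV := by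
  intro d C hd hC
  have hd1 : 1 ≤ d := by omega
  have hdR : (1 : ℝ) ≤ d := by exact_mod_cast hd1
  refine ⟨4 * d * C ^ 2, 8 * C, by positivity, by linarith, ?_⟩
  intro r L _ hr O φ hEF
  have hr1 : 1 ≤ r := by linarith
  have hr0 : 0 < r := by linarith
  set h := hh d r with hh_def
  have hh0 : 0 < h := by
    rw [hh_def]; unfold hh; positivity
  set q := r ^ (-(3 : ℝ) / 2) with hq_def
  have hq0 : 0 < q := by rw [hq_def]; positivity
  have hs0 : 0 < h * q := mul_pos hh0 hq0
  obtain ⟨t, ⟨ht1, ht2⟩, hco⟩ := LEV_coarea (fun e : Tor d L × Fin d => φ e.1) (fun e => φ (e.1 + ev e.2)) (h * q) hs0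
  have ht0 : 0 ≤ t := hs0.le.trans ht1
  have hφ := hEF.top
  have hφ1 : 0 ≤ ∑ x, φ x := Finset.sum_nonneg fun x _ => hφ.nn x
  obtain ⟨_, _, hl1, _, _⟩ := h_VAR d (ZMod L) hd1 O
  have hmu0 : 0 ≤ 1 - lam O := by linarith
  have hmu : (1 - lam O) * r ^ 2 ≤ C := hEF.mu
  have hL1 : h * ∑ x, φ x ≤ C := by
    have := hEF.l1
    rw [le_div_iff₀ hh0] at this
    linarith
  have hts : t * ∑ x, φ x ≤ 2 * C * q := by
    calc t * ∑ x, φ x ≤ 2 * (h * q) * ∑ x, φ x := mul_le_mul_of_nonneg_right ht2 hφ1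
      _ = 2 * q * (h * ∑ x, φ x) := by ring
      _ ≤ 2 * q * C := mul_le_mul_of_nonneg_left hL1 (by positivity)
      _ = 2 * C * q := by ring
  have hqr : q ≤ 1 / r := by
    rw [hq_def, one_div, ← Real.rpow_neg_one]
    exact Real.rpow_le_rpow_of_exponent_le hr1 (by norm_num)
  have hqs : 8 * C * q ≤ 1 := by
    calc 8 * C * q ≤ r * (1 / r) := mul_le_mul hr hqr hq0.le hr0.le
      _ = 1 := by field_simp
  refine ⟨Finset.univ.filter fun x => t < φ x, ?_, ?_, ?_, ?_⟩
  · intro x hx
    rw [Finset.mem_filter] at hx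
    by_contra hxO
    have := hφ.sp x hxO
    linarith [hx.2]
  · -- edge boundary
    have hbd : (bd (Finset.univ.filter fun x => t < φ x)).card =
        (Finset.univ.filter fun e : Tor d L × Fin d => ¬ (t < φ e.1 ↔ t < φ (e.1 + ev e.2))).card := by
      unfold bd
      congr 1
      ext e
      simp
    rw [hbd]
    have hCS := LEV_CS φ (h * q)
    have hTR := (h_TRN d L hd1 O φ hφ (2 * (h * q)) (by positivity)).1
    have hlev : (((Finset.univ.filter fun x => h * q < φ x).card : ℕ) : ℝ) ≤ C * r ^ d := hEF.lev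
    set N : ℝ := (((Finset.univ.filter fun e : Tor d L × Fin d =>
      ¬ (t < φ e.1 ↔ t < φ (e.1 + ev e.2))).card : ℕ) : ℝ) with hN
    have hN0 : 0 ≤ N := by positivity
    set X : ℝ := (∑ e : Tor d L × Fin d, if h * q < φ e.1 ∨ h * q < φ (e.1 + ev e.2) then
      |min (φ e.1) (2 * (h * q)) - min (φ (e.1 + ev e.2)) (2 * (h * q))| else 0) with hX
    have hNX : N * (h * q) ≤ X := hco
    have hEn : En (fun x => min (φ x) (2 * (h * q))) ≤ 4 * d * C ^ 2 * q / r ^ 2 := by
      refine hTR.trans ?_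
      have h1 : 2 * (h * q) * ∑ x, φ x ≤ 2 * C * q := by
        calc 2 * (h * q) * ∑ x, φ x = 2 * q * (h * ∑ x, φ x) := by ring
          _ ≤ 2 * q * C := mul_le_mul_of_nonneg_left hL1 (by positivity)
          _ = 2 * C * q := by ring
      have h2 : 1 - lam O ≤ C / r ^ 2 := by
        rw [le_div_iff₀ (by positivity)]
        exact hmu
      calc 2 * (d : ℝ) * (1 - lam O) * (2 * (h * q) * ∑ x, φ x)
          ≤ 2 * (d : ℝ) * (C / r ^ 2) * (2 * C * q) := by
            apply mul_le_mul _ h1 (by positivity) (by positivity)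
            exact mul_le_mul_of_nonneg_left h2 (by positivity)
        _ = 4 * d * C ^ 2 * q / r ^ 2 := by ring
    have hEn0 : 0 ≤ En (fun x => min (φ x) (2 * (h * q))) := by
      unfold En Ed; positivity
    have hX2 : X ^ 2 ≤ (2 * d * (C * r ^ d)) * (4 * d * C ^ 2 * q / r ^ 2) := by
      refine hCS.trans ?_
      apply mul_le_mul _ hEn hEn0 (by positivity)
      push_cast
      exact mul_le_mul_of_nonneg_left hlev (by positivity)
    have hpow : (r ^ ((d : ℝ) - 1 / 4) * (h * q)) ^ 2 = r ^ d * q / r ^ 2 := by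
      have e1 : r ^ d = r ^ (d : ℝ) := (Real.rpow_natCast r d).symm
      have e2 : r ^ 2 = r ^ (2 : ℝ) := by
        have := (Real.rpow_natCast r 2).symm
        simpa using this
      have e3 : h = r ^ (-(d : ℝ) / 2) := by rw [hh_def]; rfl
      rw [e1, e2, e3, hq_def, ← Real.rpow_add hr0, ← Real.rpow_add hr0, ← Real.rpow_add hr0,
        ← Real.rpow_sub hr0, pow_two, ← Real.rpow_add hr0]
      congr 1
      ring
    have hfin : (N * (h * q)) ^ 2 ≤ (4 * d * C ^ 2 * r ^ ((d : ℝ) - 1 / 4) * (h * q)) ^ 2 := by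
      calc (N * (h * q)) ^ 2 ≤ X ^ 2 := pow_le_pow_left₀ (by positivity) hNX 2
        _ ≤ (2 * d * (C * r ^ d)) * (4 * d * C ^ 2 * q / r ^ 2) := hX2
        _ = 8 * d ^ 2 * C ^ 3 * (r ^ d * q / r ^ 2) := by ring
        _ ≤ 16 * d ^ 2 * C ^ 4 * (r ^ d * q / r ^ 2) := by
            apply mul_le_mul_of_nonneg_right _ (by positivity)
            have hd2 : (0 : ℝ) ≤ d ^ 2 := by positivity
            have hC3 : (0 : ℝ) ≤ C ^ 3 := by positivity
            have : 8 * (d : ℝ) ^ 2 * C ^ 3 * 1 ≤ 8 * (d : ℝ) ^ 2 * C ^ 3 * (2 * C) :=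
              mul_le_mul_of_nonneg_left (by linarith) (by positivity)
            nlinarith
        _ = (4 * d * C ^ 2) ^ 2 * (r ^ ((d : ℝ) - 1 / 4) * (h * q)) ^ 2 := by rw [hpow]; ring
        _ = (4 * d * C ^ 2 * r ^ ((d : ℝ) - 1 / 4) * (h * q)) ^ 2 := by ring
    have hfin2 : N * (h * q) ≤ 4 * d * C ^ 2 * r ^ ((d : ℝ) - 1 / 4) * (h * q) :=
      le_of_sq_le_sq hfin (by positivity)
    exact le_of_mul_le_mul_right hfin2 hs0
  · -- volume
    have hlev : (((Finset.univ.filter fun x => h * q < φ x).card : ℕ) : ℝ) ≤ C * r ^ d := hEF.lev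
    refine le_trans ?_ hlev
    have : (Finset.univ.filter fun x => t < φ x).card ≤ (Finset.univ.filter fun x => h * q < φ x).card := by
      apply Finset.card_le_card
      intro x hx
      rw [Finset.mem_filter] at hx ⊢
      exact ⟨hx.1, lt_of_le_of_lt ht1 hx.2⟩
    exact_mod_cast this
  · have h1 := LEV_lam h_ENI h_TRN h_VAR hd1 O φ hφ t ht0 (by nlinarith)
    refine le_trans ?_ h1
    have h2 : 2 * (1 - lam O) * (t * ∑ x, φ x) ≤ 4 * d * C ^ 2 * r ^ (-(7 : ℝ) / 2) := by
      have h3 : 1 - lam O ≤ C / r ^ 2 := by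
        rw [le_div_iff₀ (by positivity)]
        exact hmu
      have hpow : q / r ^ 2 = r ^ (-(7 : ℝ) / 2) := by
        have e2 : r ^ 2 = r ^ (2 : ℝ) := by
          have := (Real.rpow_natCast r 2).symm
          simpa using this
        rw [e2, hq_def, ← Real.rpow_sub hr0]
        congr 1
        norm_num
      calc 2 * (1 - lam O) * (t * ∑ x, φ x) ≤ 2 * (C / r ^ 2) * (2 * C * q) := by
            apply mul_le_mul _ hts (mul_nonneg ht0 hφ1) (by positivity)
            linarith
        _ = 4 * C ^ 2 * (q / r ^ 2) := by ring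
        _ ≤ 4 * d * C ^ 2 * (q / r ^ 2) := by
            apply mul_le_mul_of_nonneg_right _ (by positivity)
            have : 4 * C ^ 2 * 1 ≤ 4 * C ^ 2 * (d : ℝ) := mul_le_mul_of_nonneg_left hdR (by positivity)
            nlinarith
        _ = 4 * d * C ^ 2 * r ^ (-(7 : ℝ) / 2) := by rw [hpow]
    linarith

end

end Pool.Agent.LBL
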