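import Pool.Agent.LBL.Targets1

set_option autoImplicit false

/-!
# LBL-LON: the `L^1` bound of the eigenfunction
-/

open Finset
open scoped Classical

namespace Pool.Agent.LBL

noncomputable section

lemma LON_P0_smul {d L : ℕ} [NeZero L] (c : ℝ) (f : Tor d L → ℝ) (x : Tor d L) :
    P0 (fun y => c * f y) x = c * P0 f x := by
  unfold P0
  rw [← mul_div_assoc, Finset.mul_sum]
  congr 1
  exact Finset.sum_congr rfl (fun i _ => by ring)

lemma LON_P0_mono {d L : ℕ} [NeZero L] (f g : Tor d L → ℝ) (h : ∀ x, f x ≤ g x) (x : Tor d L) :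
    P0 f x ≤ P0 g x := by
  unfold P0
  refine div_le_div_of_nonneg_right ?_ (by positivity)
  exact Finset.sum_le_sum (fun i _ => add_le_add (h _) (h _))

lemma LON_eigen {d L : ℕ} [NeZero L] (O : Finset (Tor d L)) (φ : Tor d L → ℝ) (hT : Top O φ) (t : ℕ) :
    ∀ x, (Pk O)^[t] φ x = lam O ^ t * φ x := by
  induction t with
  | zero => intro x; simp
  | succ t ih =>
    intro x
    rw [Function.iterate_succ_apply']
    have h1 : (Pk O)^[t] φ = fun y => lam O ^ t * φ y := funext ih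
    rw [h1]
    unfold Pk
    by_cases hx : x ∈ O
    · rw [if_pos hx, LON_P0_smul, hT.eq x hx]
      ring
    · rw [if_neg hx, hT.sp x hx]
      ring

lemma LON_mono {d L : ℕ} [NeZero L] (O : Finset (Tor d L)) (S : ℝ) (φ g : Tor d L → ℝ)
    (h : ∀ x, φ x ≤ S * g x) (t : ℕ) :
    ∀ x, (Pk O)^[t] φ x ≤ S * (Pk O)^[t] g x := by
  induction t with
  | zero => intro x; simpa using h x
  | succ t ih =>
    intro x
    rw [Function.iterate_succ_apply', Function.iterate_succ_apply']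
    unfold Pk at ih ⊢
    by_cases hx : x ∈ O
    · rw [if_pos hx, if_pos hx, ← LON_P0_smul]
      exact LON_P0_mono _ _ ih x
    · rw [if_neg hx, if_neg hx]
      simp

/-- the pointwise comparison -/
lemma LON_pt {d L : ℕ} [NeZero L] (O : Finset (Tor d L)) (φ : Tor d L → ℝ) (hT : Top O φ) (S : ℝ)
    (hS : ∀ x, φ x ≤ S) (t : ℕ) (x : Tor d L) : lam O ^ t * φ x ≤ S * srv O t x := by
  rw [← LON_eigen O φ hT t x]
  unfold srv
  refine LON_mono O S φ _ (fun y => ?_) t x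
  by_cases hy : y ∈ O
  · rw [if_pos hy, mul_one]; exact hS y
  · rw [if_neg hy, mul_zero, hT.sp y hy]

lemma LON_lam_pow (l A r : ℝ) (t : ℕ) (hl : (1 - l) * r ^ 2 ≤ A) (hl1 : l ≤ 1) (hr : 0 < r)
    (hr2 : 2 * A ≤ r ^ 2) (ht : (t : ℝ) ≤ r ^ 2) : Real.exp (-(2 * A)) ≤ l ^ t := by
  have hr0 : 0 < r ^ 2 := by positivity
  have hu : 1 - l ≤ A / r ^ 2 := by rw [le_div_iff₀ hr0]; exact hl
  have hu2 : A / r ^ 2 ≤ 1 / 2 := by rw [div_le_iff₀ hr0]; linarith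
  have hexp : Real.exp (-(2 * (1 - l))) ≤ l := by
    -- 1 - u ≥ exp (-2u) for 0 ≤ u ≤ 1/2
    have h0 : 0 ≤ 1 - l := by linarith
    have h1 : 1 - l ≤ 1 / 2 := by linarith
    have h2 : 1 + 2 * (1 - l) ≤ Real.exp (2 * (1 - l)) := by
      have := Real.add_one_le_exp (2 * (1 - l)); linarith
    rw [Real.exp_neg]
    have h3 : 0 < 1 + 2 * (1 - l) := by linarith
    have h4 : (Real.exp (2 * (1 - l)))⁻¹ ≤ (1 + 2 * (1 - l))⁻¹ := inv_anti₀ h3 h2
    refine h4.trans ?_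
    rw [inv_le_iff_one_le_mul₀ h3]
    nlinarith
  have h5 : Real.exp (-(2 * A)) ≤ Real.exp (-(2 * (1 - l))) ^ t := by
    rw [← Real.exp_nat_mul]
    apply Real.exp_le_exp.mpr
    have h0 : 0 ≤ 1 - l := by linarith
    have h6 : (t : ℝ) * (1 - l) ≤ r ^ 2 * (1 - l) := mul_le_mul_of_nonneg_right ht h0
    nlinarith
  exact h5.trans (pow_le_pow_left₀ (Real.exp_pos _).le hexp t)

lemma LON_cond (d K0 m L : ℕ) (r : ℝ) (hd : 1 ≤ d) (hr1 : 1 ≤ r) (hm1 : 1 ≤ m)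
    (hmr : (m : ℝ) ≤ Real.sqrt r) (hp : (2 * (d : ℝ) + 1) ^ (2 * m) ≤ Real.sqrt r) (hL : (L : ℝ) ≤ r ^ K0)
    (hs : 4 * ((K0 : ℝ) * d) + 2 ≤ Real.sqrt r) :
    (L : ℝ) ^ d * (1 - (1 / (2 * (d : ℝ)) ^ m) / 2) ^ (⌊r ^ 2⌋₊ / m) ≤ 1 := by
  set s : ℝ := Real.sqrt r with hsdef
  have hss : s ^ 2 = r := Real.sq_sqrt (by linarith)
  have hK : (0 : ℝ) ≤ (K0 : ℝ) * d := by positivity
  have hs2 : 2 ≤ s := by linarith
  have hs0 : 0 < s := by linarith
  have hdr : (1 : ℝ) ≤ d := by exact_mod_cast hd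
  set D : ℝ := (2 * (d : ℝ)) ^ m with hD
  have hD1 : 1 ≤ D := one_le_pow₀ (by linarith)
  have hDs : D ≤ s := by
    refine le_trans ?_ hp
    have h1 : D ≤ (2 * (d : ℝ) + 1) ^ m := pow_le_pow_left₀ (by linarith) (by linarith) m
    have h2 : (2 * (d : ℝ) + 1) ^ m ≤ (2 * (d : ℝ) + 1) ^ (2 * m) :=
      pow_le_pow_right₀ (by linarith) (by omega)
    exact h1.trans h2
  set q : ℝ := 1 / D / 2 with hq
  have hq0 : 0 < q := by positivity
  have hq1 : q ≤ 1 := by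
    rw [hq, div_div, div_le_one (by positivity)]
    linarith
  have hqs : 1 / (2 * s) ≤ q := by
    rw [hq, div_div]
    apply one_div_le_one_div_of_le (by positivity)
    linarith
  set n : ℕ := ⌊r ^ 2⌋₊ / m with hn
  have hn1 : r ^ 2 < ((n : ℝ) + 1) * s := by
    have h1 : r ^ 2 < (⌊r ^ 2⌋₊ : ℝ) + 1 := Nat.lt_floor_add_one _
    have h2 : ⌊r ^ 2⌋₊ < (n + 1) * m := by
      rw [hn]
      have := Nat.lt_mul_of_div_lt (Nat.lt_succ_self (⌊r ^ 2⌋₊ / m)) (by omega : 0 < m)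
      rwa [Nat.succ_eq_add_one] at this
    have h3 : (⌊r ^ 2⌋₊ : ℝ) + 1 ≤ ((n : ℝ) + 1) * m := by exact_mod_cast h2
    have h4 : ((n : ℝ) + 1) * m ≤ ((n : ℝ) + 1) * s := mul_le_mul_of_nonneg_left hmr (by positivity)
    linarith
  have hn2 : s ^ 3 - 1 ≤ n := by
    have h1 : s ^ 4 < ((n : ℝ) + 1) * s := by
      have : r ^ 2 = s ^ 4 := by rw [← hss]; ring
      rw [← this]; exact hn1
    have h2 : s ^ 3 * s < ((n : ℝ) + 1) * s := by nlinarith
    have h3 := lt_of_mul_lt_mul_right h2 hs0.le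
    linarith
  have hqn : (s ^ 2 - 1) / 2 ≤ q * n := by
    have h1 : 1 / (2 * s) * (s ^ 3 - 1) ≤ q * n := by
      apply mul_le_mul hqs hn2 _ hq0.le
      have : 1 ≤ s ^ 3 := one_le_pow₀ (by linarith)
      linarith
    refine le_trans ?_ h1
    rw [div_mul_eq_mul_div, one_mul, div_le_div_iff₀ (by norm_num) (by positivity)]
    nlinarith
  have hpow : (1 - q) ^ n ≤ Real.exp (-(q * n)) := by
    have h1 : 1 - q ≤ Real.exp (-q) := by
      have := Real.add_one_le_exp (-q); linarith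
    have h2 : (1 - q) ^ n ≤ Real.exp (-q) ^ n := pow_le_pow_left₀ (by linarith) h1 n
    refine h2.trans (le_of_eq ?_)
    rw [← Real.exp_nat_mul]
    congr 1
    ring
  have hLp : (L : ℝ) ^ d ≤ Real.exp (2 * ((K0 : ℝ) * d) * s) := by
    have h1 : (L : ℝ) ^ d ≤ (r ^ K0) ^ d := pow_le_pow_left₀ (by positivity) hL d
    have h2 : Real.log r ≤ 2 * s := by
      have h3 : Real.log s ≤ s - 1 := Real.log_le_sub_one_of_pos hs0
      have h4 : Real.log r = 2 * Real.log s := by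
        rw [← hss, Real.log_pow]; norm_num
      rw [h4]; linarith
    have h5 : (r ^ K0) ^ d = Real.exp (((K0 : ℝ) * d) * Real.log r) := by
      rw [← pow_mul]
      have : ((K0 : ℝ) * d) = ((K0 * d : ℕ) : ℝ) := by push_cast; ring
      rw [this, Real.exp_nat_mul, Real.exp_log (by linarith)]
    rw [h5] at h1
    refine h1.trans (Real.exp_le_exp.mpr ?_)
    nlinarith
  have hfin : Real.exp (2 * ((K0 : ℝ) * d) * s) * Real.exp (-(q * n)) ≤ 1 := by
    rw [← Real.exp_add]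
    apply Real.exp_le_one_iff.mpr
    nlinarith
  calc (L : ℝ) ^ d * (1 - q) ^ n ≤ Real.exp (2 * ((K0 : ℝ) * d) * s) * Real.exp (-(q * n)) :=
        mul_le_mul hLp hpow (pow_nonneg (by linarith) n) (Real.exp_pos _).le
    _ ≤ 1 := hfin

theorem p_LON (h_SUP : T_SUP) (h_HOL : T_HOL) (h_MMS : T_MMS) (h_VAR : T_VAR) : T_LON := by
  intro d K0 p A hd hK hp0 hp1 hA
  obtain ⟨C1, r1, hC1, hr1, hsup⟩ := h_SUP d (by omega) A hA
  obtain ⟨r2, hr2, hmms⟩ := h_MMS d K0 p hd hK hp0 hp1 (1 / 2) (by norm_num)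
  refine ⟨2 * Real.exp (2 * A) * C1, max (max r1 r2) (max (2 * A + 1) ((4 * ((K0 : ℝ) * d) + 2) ^ 2)), by positivity,
    lt_of_lt_of_le hr1 ((le_max_left _ _).trans (le_max_left _ _)), ?_⟩
  intro r L _ hr hRg O φ hT hwin
  have hrr1 : r1 ≤ r := ((le_max_left _ _).trans (le_max_left _ _)).trans hr
  have hrr2 : r2 ≤ r := ((le_max_right _ _).trans (le_max_left _ _)).trans hr
  have hrA : 2 * A + 1 ≤ r := ((le_max_left _ _).trans (le_max_right _ _)).trans hr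
  have hrK : (4 * ((K0 : ℝ) * d) + 2) ^ 2 ≤ r := ((le_max_right _ _).trans (le_max_right _ _)).trans hr
  have hr1' : 1 ≤ r := by linarith
  have hr0 : 0 < r := by linarith
  obtain ⟨hm1, hm2, hm3⟩ := hmms r hrr2
  set m : ℕ := mm d p K0 r with hm
  have hsq : r ^ ((1 : ℝ) / 2) = Real.sqrt r := (Real.sqrt_eq_rpow r).symm
  rw [hsq] at hm2 hm3
  have hsK : 4 * ((K0 : ℝ) * d) + 2 ≤ Real.sqrt r := by
    apply Real.le_sqrt_of_sq_le hrK
  have hcond := LON_cond d K0 m L r (by omega) hr1' hm1 hm2 hm3 hRg.2 hsK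
  have hhol := h_HOL d L O m ⌊r ^ 2⌋₊ (by omega) hm1 hcond
  obtain ⟨_, _, hlam1, _, _⟩ := h_VAR d (ZMod L) (by omega) O
  have hrL : r ≤ L := by
    refine le_trans ?_ hRg.1
    calc r = r ^ 1 := (pow_one r).symm
      _ ≤ r ^ (d + 4) := pow_le_pow_right₀ hr1' (by omega)
  have hS := hsup r L hrr1 hrL O φ hT hwin
  have hh0 : 0 < hh d r := by unfold hh; positivity
  have hlp := LON_lam_pow (lam O) A r ⌊r ^ 2⌋₊ hwin hlam1 hr0 (by nlinarith) (Nat.floor_le (by positivity))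
  have hpt := LON_pt O φ hT (C1 * hh d r) hS ⌊r ^ 2⌋₊
  have hsum : lam O ^ ⌊r ^ 2⌋₊ * ∑ x, φ x ≤ C1 * hh d r * ∑ x, srv O ⌊r ^ 2⌋₊ x := by
    rw [Finset.mul_sum, Finset.mul_sum]
    exact Finset.sum_le_sum (fun x _ => hpt x)
  have hφ0 : 0 ≤ ∑ x, φ x := Finset.sum_nonneg (fun x _ => hT.nn x)
  have h1 : Real.exp (-(2 * A)) * ∑ x, φ x ≤ C1 * hh d r * (2 * ((hol m O).card : ℝ) + 1) :=
    (mul_le_mul_of_nonneg_right hlp hφ0).trans (hsum.trans (mul_le_mul_of_nonneg_left hhol (by positivity)))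
  have h2 : ∑ x, φ x = Real.exp (2 * A) * (Real.exp (-(2 * A)) * ∑ x, φ x) := by
    rw [← mul_assoc, ← Real.exp_add, add_neg_cancel, Real.exp_zero, one_mul]
  rw [h2]
  have h3 : Real.exp (2 * A) * (Real.exp (-(2 * A)) * ∑ x, φ x) ≤
      Real.exp (2 * A) * (C1 * hh d r * (2 * ((hol m O).card : ℝ) + 1)) :=
    mul_le_mul_of_nonneg_left h1 (Real.exp_pos _).le
  refine h3.trans ?_
  have h4 : 0 ≤ Real.exp (2 * A) * C1 * hh d r := by positivity
  have h5 : (0 : ℝ) ≤ ((hol m O).card : ℝ) := Nat.cast_nonneg _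
  nlinarith

end

end Pool.Agent.LBL
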