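import Pool.Agent.LBL.Targets1

set_option autoImplicit false

/-!
# LBL, target LVN: few points at high level outside the holes
-/

open Finset
open scoped Classical

namespace Pool.Agent.LBL

noncomputable section

section LVN

variable {d L : ℕ} [NeZero L]

/-- points above the level outside the holes -/
def LVN_S (O : Finset (Tor d L)) (φ : Tor d L → ℝ) (t : ℝ) (m : ℕ) : Finset (Tor d L) :=
  Finset.univ.filter fun x => t < φ x ∧ x ∉ hol m O

/-- closed points with a large flux -/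
def LVN_B (O : Finset (Tor d L)) (φ : Tor d L → ℝ) (s : ℝ) : Finset (Tor d L) :=
  Oᶜ.filter fun y => s ≤ P0 φ y

theorem LVN_Bmono (O : Finset (Tor d L)) (φ : Tor d L → ℝ) {s s' : ℝ} (h : s' ≤ s) :
    ((LVN_B O φ s).card : ℝ) ≤ (LVN_B O φ s').card := by
  have : (LVN_B O φ s).card ≤ (LVN_B O φ s').card := by
    apply Finset.card_le_card
    intro y hy
    unfold LVN_B at hy ⊢
    rw [Finset.mem_filter] at hy ⊢
    exact ⟨hy.1, h.trans hy.2⟩
  exact_mod_cast this

theorem LVN_markov (O : Finset (Tor d L)) (φ : Tor d L → ℝ) (hP : ∀ x, 0 ≤ P0 φ x) {s : ℝ} :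
    s * ((LVN_B O φ s).card : ℝ) ≤ ∑ y ∈ Oᶜ, P0 φ y := by
  calc s * ((LVN_B O φ s).card : ℝ) = ∑ y ∈ LVN_B O φ s, s := by
        rw [Finset.sum_const, nsmul_eq_mul]; ring
    _ ≤ ∑ y ∈ LVN_B O φ s, P0 φ y := by
        apply Finset.sum_le_sum
        intro y hy
        unfold LVN_B at hy
        exact (Finset.mem_filter.mp hy).2
    _ ≤ ∑ y ∈ Oᶜ, P0 φ y := by
        apply Finset.sum_le_sum_of_subset_of_nonneg
        · unfold LVN_B
          exact Finset.filter_subset _ _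
        · intro y _ _
          exact hP y

theorem LVN_step (O : Finset (Tor d L)) (φ : Tor d L → ℝ) (hd : 1 ≤ d)
    (hF : ∀ x (i : Fin d), φ (x + ev i) ≤ 2 * d * P0 φ x ∧ φ (x - ev i) ≤ 2 * d * P0 φ x)
    (hG : ∀ x ∈ O, ∀ i : Fin d, φ (x + ev i) ≤ 2 * d * φ x ∧ φ (x - ev i) ≤ 2 * d * φ x)
    (t : ℝ) (m : ℕ) :
    LVN_S O φ t (m + 1) ⊆ LVN_S O φ t m ∪ (Finset.univ : Finset (Fin d)).biUnion (fun i =>
      (LVN_B O φ (t / (2 * d)) ∪ LVN_S O φ (t / (2 * d)) m).image (fun y => y + ev i) ∪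
      (LVN_B O φ (t / (2 * d)) ∪ LVN_S O φ (t / (2 * d)) m).image (fun y => y - ev i)) := by
  have hd' : (0 : ℝ) < 2 * d := by
    have : (1 : ℝ) ≤ d := by exact_mod_cast hd
    linarith
  -- a neighbour outside the holes is bad
  have key : ∀ (x y : Tor d L), t < φ x → y ∉ hol m O → φ x ≤ 2 * d * P0 φ y →
      (y ∈ O → φ x ≤ 2 * d * φ y) → y ∈ LVN_B O φ (t / (2 * d)) ∪ LVN_S O φ (t / (2 * d)) m := by
    intro x y hx hy h1 h2
    rw [Finset.mem_union]
    by_cases hO : y ∈ O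
    · right
      unfold LVN_S
      rw [Finset.mem_filter]
      refine ⟨Finset.mem_univ _, ?_, hy⟩
      rw [div_lt_iff₀ hd']
      have := h2 hO
      linarith
    · left
      unfold LVN_B
      rw [Finset.mem_filter]
      refine ⟨Finset.mem_compl.mpr hO, ?_⟩
      rw [div_le_iff₀ hd']
      linarith
  intro x hx
  unfold LVN_S at hx
  rw [Finset.mem_filter] at hx
  obtain ⟨-, hx1, hx2⟩ := hx
  rw [Finset.mem_union]
  by_cases hm : x ∈ hol m O
  · right
    have hx3 : ∃ i : Fin d, ¬ (x + ev i ∈ hol m O ∧ x - ev i ∈ hol m O) := by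
      by_contra hcon
      push Not at hcon
      apply hx2
      have : hol (m + 1) O = ero (hol m O) := by
        unfold hol
        rw [Function.iterate_succ_apply']
      rw [this]
      unfold ero
      rw [Finset.mem_filter]
      exact ⟨hm, fun i => hcon i⟩
    obtain ⟨i, hi⟩ := hx3
    rw [Finset.mem_biUnion]
    refine ⟨i, Finset.mem_univ _, ?_⟩
    rw [Finset.mem_union]
    by_cases h1 : x + ev i ∈ hol m O
    · have h2 : x - ev i ∉ hol m O := fun h => hi ⟨h1, h⟩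
      left
      rw [Finset.mem_image]
      refine ⟨x - ev i, ?_, by simp⟩
      apply key x (x - ev i) hx1 h2
      · have := (hF (x - ev i) i).1
        rwa [sub_add_cancel] at this
      · intro h
        have := (hG (x - ev i) h i).1
        rwa [sub_add_cancel] at this
    · right
      rw [Finset.mem_image]
      refine ⟨x + ev i, ?_, by simp⟩
      apply key x (x + ev i) hx1 h1
      · have := (hF (x + ev i) i).2
        rwa [add_sub_cancel_right] at this
      · intro h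
        have := (hG (x + ev i) h i).2
        rwa [add_sub_cancel_right] at this
  · left
    unfold LVN_S
    rw [Finset.mem_filter]
    exact ⟨Finset.mem_univ _, hx1, hm⟩

theorem LVN_stepcard (O : Finset (Tor d L)) (φ : Tor d L → ℝ) (hd : 1 ≤ d)
    (hF : ∀ x (i : Fin d), φ (x + ev i) ≤ 2 * d * P0 φ x ∧ φ (x - ev i) ≤ 2 * d * P0 φ x)
    (hG : ∀ x ∈ O, ∀ i : Fin d, φ (x + ev i) ≤ 2 * d * φ x ∧ φ (x - ev i) ≤ 2 * d * φ x)
    (t : ℝ) (m : ℕ) :
    ((LVN_S O φ t (m + 1)).card : ℝ) ≤ (LVN_S O φ t m).card +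
      2 * d * ((LVN_B O φ (t / (2 * d))).card + (LVN_S O φ (t / (2 * d)) m).card) := by
  have h1 := Finset.card_le_card (LVN_step O φ hd hF hG t m)
  have h2 := h1.trans (Finset.card_union_le _ _)
  have h3 : ((Finset.univ : Finset (Fin d)).biUnion (fun i =>
      (LVN_B O φ (t / (2 * d)) ∪ LVN_S O φ (t / (2 * d)) m).image (fun y => y + ev i) ∪
      (LVN_B O φ (t / (2 * d)) ∪ LVN_S O φ (t / (2 * d)) m).image (fun y => y - ev i))).card ≤
      ∑ i : Fin d, 2 * ((LVN_B O φ (t / (2 * d))).card + (LVN_S O φ (t / (2 * d)) m).card) := by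
    refine Finset.card_biUnion_le.trans ?_
    apply Finset.sum_le_sum
    intro i _
    refine (Finset.card_union_le _ _).trans ?_
    have hc := Finset.card_union_le (LVN_B O φ (t / (2 * d))) (LVN_S O φ (t / (2 * d)) m)
    have ha := Finset.card_image_le (s := LVN_B O φ (t / (2 * d)) ∪ LVN_S O φ (t / (2 * d)) m)
      (f := fun y => y + ev i)
    have hb := Finset.card_image_le (s := LVN_B O φ (t / (2 * d)) ∪ LVN_S O φ (t / (2 * d)) m)
      (f := fun y => y - ev i)
    omega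
  rw [Finset.sum_const, Finset.card_univ, Fintype.card_fin, smul_eq_mul] at h3
  have h4 := h2.trans (Nat.add_le_add_left h3 _)
  have h5 : ((LVN_S O φ t (m + 1)).card : ℝ) ≤ (((LVN_S O φ t m).card +
      d * (2 * ((LVN_B O φ (t / (2 * d))).card + (LVN_S O φ (t / (2 * d)) m).card)) : ℕ) : ℝ) := by
    exact_mod_cast h4
  push_cast at h5
  linarith

theorem LVN_count (O : Finset (Tor d L)) (φ : Tor d L → ℝ) (hd : 1 ≤ d)
    (hsp : Spp O φ)
    (hF : ∀ x (i : Fin d), φ (x + ev i) ≤ 2 * d * P0 φ x ∧ φ (x - ev i) ≤ 2 * d * P0 φ x)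
    (hG : ∀ x ∈ O, ∀ i : Fin d, φ (x + ev i) ≤ 2 * d * φ x ∧ φ (x - ev i) ≤ 2 * d * φ x)
    (m : ℕ) : ∀ t : ℝ, 0 ≤ t →
    ((LVN_S O φ t m).card : ℝ) ≤
      ((2 * (d : ℝ) + 1) ^ m - 1) * (LVN_B O φ (t / (2 * d) ^ m)).card := by
  have hd1 : (1 : ℝ) ≤ d := by exact_mod_cast hd
  have hd' : (1 : ℝ) ≤ 2 * d := by linarith
  have hd0 : (0 : ℝ) < 2 * d := by linarith
  induction m with
  | zero =>
    intro t ht
    have : LVN_S O φ t 0 = ∅ := by
      rw [Finset.eq_empty_iff_forall_notMem]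
      intro x hx
      unfold LVN_S hol at hx
      rw [Finset.mem_filter] at hx
      obtain ⟨-, hx1, hx2⟩ := hx
      have := hsp x hx2
      linarith
    rw [this]
    simp
  | succ m ih =>
    intro t ht
    have h1 := LVN_stepcard O φ hd hF hG t m
    have h2 := ih t ht
    have h3 := ih (t / (2 * d)) (by positivity)
    have e3 : t / (2 * (d : ℝ)) / (2 * d) ^ m = t / (2 * d) ^ (m + 1) := by
      rw [div_div, pow_succ']
    rw [e3] at h3
    have hb1 : ((LVN_B O φ (t / (2 * d) ^ m)).card : ℝ) ≤ (LVN_B O φ (t / (2 * d) ^ (m + 1))).card := by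
      apply LVN_Bmono
      apply div_le_div_of_nonneg_left ht (by positivity)
      exact pow_le_pow_right₀ hd' (Nat.le_succ m)
    have hb2 : ((LVN_B O φ (t / (2 * d))).card : ℝ) ≤ (LVN_B O φ (t / (2 * d) ^ (m + 1))).card := by
      apply LVN_Bmono
      apply div_le_div_of_nonneg_left ht (by positivity)
      calc (2 * (d : ℝ)) = (2 * (d : ℝ)) ^ 1 := (pow_one _).symm
        _ ≤ (2 * (d : ℝ)) ^ (m + 1) := pow_le_pow_right₀ hd' (by omega)
    set B : ℝ := ((LVN_B O φ (t / (2 * d) ^ (m + 1))).card : ℝ) with hB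
    have hq : (0 : ℝ) ≤ (2 * (d : ℝ) + 1) ^ m - 1 := by
      have : (1 : ℝ) ≤ (2 * (d : ℝ) + 1) ^ m := one_le_pow₀ (by linarith)
      linarith
    have h2' : ((LVN_S O φ t m).card : ℝ) ≤ ((2 * (d : ℝ) + 1) ^ m - 1) * B :=
      h2.trans (mul_le_mul_of_nonneg_left hb1 hq)
    calc ((LVN_S O φ t (m + 1)).card : ℝ) ≤ (LVN_S O φ t m).card +
          2 * d * ((LVN_B O φ (t / (2 * d))).card + (LVN_S O φ (t / (2 * d)) m).card) := h1
      _ ≤ ((2 * (d : ℝ) + 1) ^ m - 1) * B + 2 * d * (B + ((2 * (d : ℝ) + 1) ^ m - 1) * B) := by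
          apply add_le_add h2'
          apply mul_le_mul_of_nonneg_left _ hd0.le
          exact add_le_add hb2 h3
      _ = ((2 * (d : ℝ) + 1) ^ (m + 1) - 1) * B := by
          rw [pow_succ]; ring

end LVN

theorem p_LVN (h_FLX : T_FLX) : T_LVN := by
  intro d L _ O φ m t hd hT ht
  obtain ⟨-, hP, hF, hG, -, -⟩ := h_FLX d L hd O φ hT
  have hd1 : (1 : ℝ) ≤ d := by exact_mod_cast hd
  have hd0 : (0 : ℝ) < 2 * d := by linarith
  have h1 := LVN_count O φ hd hT.sp hF hG m t ht.le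
  have h2 := LVN_markov O φ hP (s := t / (2 * d) ^ m)
  have hsum : 0 ≤ ∑ y ∈ Oᶜ, P0 φ y := Finset.sum_nonneg fun y _ => hP y
  set B : ℝ := ((LVN_B O φ (t / (2 * d) ^ m)).card : ℝ) with hB
  have hB0 : 0 ≤ B := by rw [hB]; positivity
  have hpow : (0 : ℝ) < (2 * (d : ℝ)) ^ m := pow_pos hd0 m
  have h3 : B ≤ (2 * (d : ℝ)) ^ m / t * ∑ y ∈ Oᶜ, P0 φ y := by
    rw [div_mul_eq_mul_div, div_le_iff₀ hpow] at h2
    rw [div_mul_eq_mul_div, le_div_iff₀ ht]
    nlinarith [h2]
  have h4 : (Finset.univ.filter fun x => t < φ x) ⊆ hol m O ∪ LVN_S O φ t m := by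
    intro x hx
    rw [Finset.mem_filter] at hx
    rw [Finset.mem_union]
    by_cases hm : x ∈ hol m O
    · exact Or.inl hm
    · right
      unfold LVN_S
      rw [Finset.mem_filter]
      exact ⟨Finset.mem_univ _, hx.2, hm⟩
  have h5 : ((Finset.univ.filter fun x => t < φ x).card : ℝ) ≤ (hol m O).card + (LVN_S O φ t m).card := by
    have := (Finset.card_le_card h4).trans (Finset.card_union_le _ _)
    exact_mod_cast this
  have hq : (0 : ℝ) ≤ (2 * (d : ℝ) + 1) ^ m := by positivity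
  calc ((Finset.univ.filter fun x => t < φ x).card : ℝ) ≤ (hol m O).card + (LVN_S O φ t m).card := h5
    _ ≤ (hol m O).card + ((2 * (d : ℝ) + 1) ^ m - 1) * B := by linarith
    _ ≤ (hol m O).card + (2 * (d : ℝ) + 1) ^ m * B := by nlinarith
    _ ≤ (hol m O).card + (2 * (d : ℝ) + 1) ^ m * ((2 * (d : ℝ)) ^ m / t * ∑ y ∈ Oᶜ, P0 φ y) := by
        have := mul_le_mul_of_nonneg_left h3 hq
        linarith
    _ = (hol m O).card + (2 * (d : ℝ) + 1) ^ m * (2 * (d : ℝ)) ^ m / t * ∑ y ∈ Oᶜ, P0 φ y := by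
        ring

end

end Pool.Agent.LBL
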