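import Pool.Agent.LBL.Targets2

/-!
# LBL: Loomis-Whitney inequality (job LBL-LWI, helper66)
-/

set_option autoImplicit false

open Finset
open scoped Classical

namespace Pool.Agent.LBL

noncomputable section

namespace LWI_

/-- Hoelder inequality for several factors -/
theorem holder {ι τ : Type} (T : Finset ι) (hT : T.Nonempty) (s : Finset τ) (x : τ → ℝ)
    (a : ι → τ → ℝ) (b : ℝ) (hx : ∀ t ∈ s, 0 ≤ x t) (ha : ∀ i ∈ T, ∀ t ∈ s, 0 ≤ a i t)
    (hb : 0 ≤ b) (h : ∀ t ∈ s, x t ^ T.card ≤ b * ∏ i ∈ T, a i t) :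
    (∑ t ∈ s, x t) ^ T.card ≤ b * ∏ i ∈ T, ∑ t ∈ s, a i t := by
  have hn : 0 < T.card := Finset.card_pos.2 hT
  have hnR : (0 : ℝ) < T.card := by exact_mod_cast hn
  have hA0 : ∀ i ∈ T, 0 ≤ ∑ t ∈ s, a i t := fun i hi => Finset.sum_nonneg (ha i hi)
  by_cases h0 : ∃ i ∈ T, ∑ t ∈ s, a i t = 0
  · obtain ⟨i, hi, hi0⟩ := h0
    have h1 : ∀ t ∈ s, a i t = 0 := (Finset.sum_eq_zero_iff_of_nonneg (ha i hi)).1 hi0
    have h2 : ∀ t ∈ s, x t = 0 := by
      intro t ht
      have h3 := h t ht
      rw [Finset.prod_eq_zero hi (h1 t ht), mul_zero] at h3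
      have h4 : 0 ≤ x t ^ T.card := pow_nonneg (hx t ht) _
      exact pow_eq_zero_iff (by omega) |>.1 (le_antisymm h3 h4)
    rw [Finset.sum_eq_zero h2, zero_pow (by omega)]
    exact mul_nonneg hb (Finset.prod_nonneg hA0)
  · push Not at h0
    have hA : ∀ i ∈ T, 0 < ∑ t ∈ s, a i t := fun i hi => lt_of_le_of_ne (hA0 i hi) (h0 i hi).symm
    have hP : 0 ≤ b * ∏ i ∈ T, ∑ t ∈ s, a i t := mul_nonneg hb (Finset.prod_nonneg hA0)
    set B : ℝ := (b * ∏ i ∈ T, ∑ t ∈ s, a i t) ^ ((T.card : ℝ)⁻¹) with hB
    have hB0 : 0 ≤ B := Real.rpow_nonneg hP _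
    have key : ∀ t ∈ s, x t ≤ B * ∑ i ∈ T, (T.card : ℝ)⁻¹ * (a i t / ∑ t ∈ s, a i t) := by
      intro t ht
      have hz : ∀ i ∈ T, 0 ≤ a i t / ∑ t ∈ s, a i t := fun i hi =>
        div_nonneg (ha i hi t ht) (hA0 i hi)
      have h1 : b * ∏ i ∈ T, a i t = (b * ∏ i ∈ T, ∑ t ∈ s, a i t) *
          ∏ i ∈ T, (a i t / ∑ t ∈ s, a i t) := by
        rw [mul_assoc, ← Finset.prod_mul_distrib]
        congr 1
        apply Finset.prod_congr rfl
        intro i hi
        rw [mul_div_cancel₀ _ (h0 i hi)]
      have h2 : x t = (x t ^ T.card) ^ ((T.card : ℝ)⁻¹) :=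
        (Real.pow_rpow_inv_natCast (hx t ht) (by omega)).symm
      have h3 : (x t ^ T.card) ^ ((T.card : ℝ)⁻¹) ≤
          (b * ∏ i ∈ T, a i t) ^ ((T.card : ℝ)⁻¹) :=
        Real.rpow_le_rpow (pow_nonneg (hx t ht) _) (h t ht) (by positivity)
      rw [h2]
      refine le_trans h3 ?_
      rw [h1, Real.mul_rpow hP (Finset.prod_nonneg hz), ← hB]
      apply mul_le_mul_of_nonneg_left _ hB0
      rw [← Real.finsetProd_rpow _ _ hz]
      apply Real.geom_mean_le_arith_mean_weighted T (fun _ => (T.card : ℝ)⁻¹) _ _ _ hz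
      · exact fun i _ => inv_nonneg.2 hnR.le
      · rw [Finset.sum_const, nsmul_eq_mul]
        exact mul_inv_cancel₀ hnR.ne'
    have hsum : ∑ t ∈ s, x t ≤ B := by
      calc ∑ t ∈ s, x t ≤ ∑ t ∈ s, B * ∑ i ∈ T, (T.card : ℝ)⁻¹ * (a i t / ∑ t ∈ s, a i t) :=
            Finset.sum_le_sum key
        _ = B * ∑ i ∈ T, (T.card : ℝ)⁻¹ := by
            rw [← Finset.mul_sum, Finset.sum_comm]
            congr 1
            apply Finset.sum_congr rfl
            intro i hi
            rw [← Finset.mul_sum, ← Finset.sum_div, div_self (h0 i hi), mul_one]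
        _ = B := by
            rw [Finset.sum_const, nsmul_eq_mul, mul_inv_cancel₀ hnR.ne', mul_one]
    calc (∑ t ∈ s, x t) ^ T.card ≤ B ^ T.card :=
          pow_le_pow_left₀ (Finset.sum_nonneg hx) hsum _
      _ = b * ∏ i ∈ T, ∑ t ∈ s, a i t := by
          rw [hB]
          exact Real.rpow_inv_natCast_pow hP (by omega)

/-- projection -/
def pj {d L : ℕ} [NeZero L] (i : Fin d) (S : Finset (Tor d L)) : Finset (Tor d L) :=
  S.image fun x => Function.update x i 0

/-- Loomis-Whitney with active coordinates `T` -/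
theorem lw {d L : ℕ} [NeZero L] (T : Finset (Fin d)) : ∀ S : Finset (Tor d L), S.Nonempty →
    (∀ x ∈ S, ∀ y ∈ S, ∀ i, i ∉ T → x i = y i) →
    S.card ^ T.card ≤ S.card * ∏ i ∈ T, (pj i S).card := by
  induction T using Finset.induction_on with
  | empty =>
    intro S hS _
    rw [Finset.card_empty, pow_zero, Finset.prod_empty, mul_one]
    exact Finset.card_pos.2 hS
  | insert j T hj ih =>
    intro S hS hag
    rw [Finset.card_insert_of_notMem hj, Finset.prod_insert hj, pow_succ, mul_comm]
    apply Nat.mul_le_mul_left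
    rcases T.eq_empty_or_nonempty with hT | hT
    · subst hT
      rw [Finset.card_empty, pow_zero, Finset.prod_empty, mul_one]
      exact Finset.card_pos.2 (hS.image _)
    · have hs1 : S.card = ∑ t ∈ S.image (fun x => x j), (S.filter fun x => x j = t).card :=
        Finset.card_eq_sum_card_fiberwise (fun x hx => Finset.mem_image_of_mem _ hx)
      have hs2 : ∀ i ∈ T, (pj i S).card = ∑ t ∈ S.image (fun x => x j),
          (pj i (S.filter fun x => x j = t)).card := by
        intro i hi
        have hij : j ≠ i := fun h => hj (h ▸ hi)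
        have h1 : (pj i S).card = ∑ t ∈ S.image (fun x => x j),
            ((pj i S).filter fun x => x j = t).card := by
          apply Finset.card_eq_sum_card_fiberwise
          intro y hy
          obtain ⟨x, hx, rfl⟩ := Finset.mem_image.1 hy
          have : (Function.update x i (0 : ZMod L)) j = x j := Function.update_of_ne hij _ _
          simp only [this]
          exact Finset.mem_coe.2 (Finset.mem_image_of_mem (fun x : Tor d L => x j) hx)
        rw [h1]
        apply Finset.sum_congr rfl
        intro t _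
        apply congrArg
        ext y
        simp only [pj, Finset.mem_filter, Finset.mem_image]
        constructor
        · rintro ⟨⟨x, hx, rfl⟩, hy⟩
          refine ⟨x, ⟨hx, ?_⟩, rfl⟩
          rwa [Function.update_of_ne hij] at hy
        · rintro ⟨x, ⟨hx, hxt⟩, rfl⟩
          refine ⟨⟨x, hx, rfl⟩, ?_⟩
          rwa [Function.update_of_ne hij]
      have hs3 : ∀ t ∈ S.image (fun x => x j), (S.filter fun x => x j = t).card ^ T.card ≤
          (pj j S).card * ∏ i ∈ T, (pj i (S.filter fun x => x j = t)).card := by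
        intro t ht
        obtain ⟨x0, hx0, hx0t⟩ := Finset.mem_image.1 ht
        have hne : (S.filter fun x => x j = t).Nonempty :=
          ⟨x0, Finset.mem_filter.2 ⟨hx0, hx0t⟩⟩
        have h1 := ih (S.filter fun x => x j = t) hne (by
          intro x hx y hy k hk
          rw [Finset.mem_filter] at hx hy
          by_cases hkj : k = j
          · rw [hkj, hx.2, hy.2]
          · apply hag x hx.1 y hy.1 k
            rw [Finset.mem_insert, not_or]
            exact ⟨hkj, hk⟩)
        refine le_trans h1 (Nat.mul_le_mul_right _ ?_)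
        have h2 : (pj j (S.filter fun x => x j = t)).card = (S.filter fun x => x j = t).card := by
          apply Finset.card_image_of_injOn
          intro x hx y hy hxy
          rw [Finset.mem_coe, Finset.mem_filter] at hx hy
          funext k
          by_cases hkj : k = j
          · rw [hkj, hx.2, hy.2]
          · have h3 := congrFun hxy k
            simp only [Function.update_of_ne hkj] at h3
            exact h3
        rw [← h2]
        exact Finset.card_le_card (Finset.image_subset_image (Finset.filter_subset _ _))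
      have hH := holder T hT (S.image fun x => x j)
        (fun t => ((S.filter fun x => x j = t).card : ℝ))
        (fun i t => ((pj i (S.filter fun x => x j = t)).card : ℝ)) ((pj j S).card : ℝ)
        (fun t _ => by positivity) (fun i _ t _ => by positivity) (by positivity)
        (fun t ht => by exact_mod_cast hs3 t ht)
      have h4 : (S.card : ℝ) ^ T.card ≤ ((pj j S).card : ℝ) * ∏ i ∈ T, ((pj i S).card : ℝ) := by
        have h5 : (S.card : ℝ) = ∑ t ∈ S.image (fun x => x j),
            ((S.filter fun x => x j = t).card : ℝ) := by exact_mod_cast hs1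
        have h6 : ∏ i ∈ T, ((pj i S).card : ℝ) = ∏ i ∈ T, ∑ t ∈ S.image (fun x => x j),
            ((pj i (S.filter fun x => x j = t)).card : ℝ) := by
          apply Finset.prod_congr rfl
          intro i hi
          exact_mod_cast hs2 i hi
        rw [h5, h6]
        exact hH
      exact_mod_cast h4

end LWI_

open LWI_ in
theorem p_LWI : T_LWI := by
  intro d L _ S hd
  have hd0 : 0 < d := by omega
  rcases S.eq_empty_or_nonempty with hS | hS
  · refine ⟨⟨0, hd0⟩, ?_⟩
    rw [hS, Finset.card_empty, zero_pow (by omega)]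
    exact Nat.zero_le _
  · have : Nonempty (Fin d) := ⟨⟨0, hd0⟩⟩
    obtain ⟨i, -, hi⟩ := Finset.exists_max_image (Finset.univ : Finset (Fin d))
      (fun i => (pj i S).card) Finset.univ_nonempty
    refine ⟨i, ?_⟩
    have h1 := lw (Finset.univ : Finset (Fin d)) S hS
      (fun x _ y _ i hi => absurd (Finset.mem_univ i) hi)
    rw [Finset.card_univ, Fintype.card_fin] at h1
    have h2 : ∏ k : Fin d, (pj k S).card ≤ (pj i S).card ^ d := by
      have h3 := Finset.prod_le_pow_card (Finset.univ : Finset (Fin d))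
        (fun k => (pj k S).card) _ hi
      rwa [Finset.card_univ, Fintype.card_fin] at h3
    have h4 : S.card ^ d = S.card * S.card ^ (d - 1) := by
      rw [← pow_succ']
      congr 1
      omega
    rw [h4] at h1
    exact le_trans (Nat.le_of_mul_le_mul_left h1 (Finset.card_pos.2 hS)) h2

end

end Pool.Agent.LBL
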