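import Pool.Agent.LBL.Targets1

set_option autoImplicit false

open Finset

namespace Pool.Agent.LBL

theorem p_MMS : T_MMS := by
  intro d K0 p hd hK hp hp1 ε hε
  have hlp : 0 < -Real.log p := by
    have := Real.log_neg hp hp1
    linarith
  have hd0 : (0:ℝ) < d := by positivity
  set A : ℝ := 2 * K0 * d / (-Real.log p) with hA
  have hK0 : (1:ℝ) ≤ K0 := by exact_mod_cast hK
  have hA0 : 0 < A := by rw [hA]; positivity
  set q : ℝ := Real.log (2 * (d:ℝ) + 1) with hq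
  have hq0 : 0 < q := Real.log_pos (by linarith)
  set c1 : ℝ := 2 * q * d with hc1
  have hc10 : 0 < c1 := by positivity
  set T0 : ℝ := max (max 1 (1 / A)) ((c1 * (Real.sqrt A + 1) / ε) ^ 2) with hT0
  refine ⟨Real.exp T0, Real.one_lt_exp_iff.mpr (lt_of_lt_of_le one_pos ((le_max_left _ _).trans (le_max_left _ _))), ?_⟩
  intro r hr
  have hr0 : 0 < r := lt_of_lt_of_le (Real.exp_pos _) hr
  set t := Real.log r with ht
  have htT : T0 ≤ t := by rw [ht]; exact (Real.le_log_iff_exp_le hr0).mpr hr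
  have ht1 : 1 ≤ t := ((le_max_left _ _).trans (le_max_left _ _)).trans htT
  have htA : 1 / A ≤ t := ((le_max_right _ _).trans (le_max_left _ _)).trans htT
  have ht2 : (c1 * (Real.sqrt A + 1) / ε) ^ 2 ≤ t := (le_max_right _ _).trans htT
  have ht0 : 0 < t := by linarith
  have hAt : 1 ≤ A * t := by
    have := mul_le_mul_of_nonneg_left htA hA0.le
    rwa [mul_one_div, div_self hA0.ne'] at this
  have hmm : mm d p K0 r = d * ⌈(A * t) ^ ((1:ℝ) / d)⌉₊ := by
    unfold mm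
    congr 3
    rw [hA]; ring
  have hpow1 : (A * t) ^ ((1:ℝ) / d) ≤ Real.sqrt (A * t) := by
    rw [Real.sqrt_eq_rpow]
    apply Real.rpow_le_rpow_of_exponent_le hAt
    have : (2:ℝ) ≤ d := by exact_mod_cast hd
    apply one_div_le_one_div_of_le (by norm_num) this
  have hpos1 : 0 < (A * t) ^ ((1:ℝ) / d) := by positivity
  have hceil1 : 1 ≤ ⌈(A * t) ^ ((1:ℝ) / d)⌉₊ := Nat.one_le_ceil_iff.mpr hpos1
  have hmreal : (mm d p K0 r : ℝ) ≤ d * (Real.sqrt (A * t) + 1) := by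
    rw [hmm]; push_cast
    apply mul_le_mul_of_nonneg_left _ hd0.le
    have := (Nat.ceil_lt_add_one hpos1.le).le
    linarith
  have hst : 1 ≤ Real.sqrt t := by rw [show (1:ℝ) = Real.sqrt 1 by simp]; exact Real.sqrt_le_sqrt ht1
  have hkey : c1 * (Real.sqrt (A * t) + 1) ≤ ε * t := by
    have h1 : Real.sqrt (A * t) + 1 ≤ (Real.sqrt A + 1) * Real.sqrt t := by
      rw [Real.sqrt_mul hA0.le]; nlinarith [Real.sqrt_nonneg A]
    have h2 : c1 * (Real.sqrt A + 1) / ε ≤ Real.sqrt t := Real.le_sqrt_of_sq_le ht2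
    have h3 : c1 * (Real.sqrt A + 1) ≤ ε * Real.sqrt t := by
      rw [div_le_iff₀ hε] at h2; linarith
    calc c1 * (Real.sqrt (A * t) + 1) ≤ c1 * ((Real.sqrt A + 1) * Real.sqrt t) := by gcongr
      _ = (c1 * (Real.sqrt A + 1)) * Real.sqrt t := by ring
      _ ≤ (ε * Real.sqrt t) * Real.sqrt t := by gcongr
      _ = ε * t := by rw [mul_assoc, Real.mul_self_sqrt ht0.le]
  have hbig : ((2 * (d : ℝ) + 1) ^ (2 * mm d p K0 r)) ≤ r ^ ε := by
    have h0 : 0 < (2 * (d:ℝ) + 1) := by positivity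
    rw [← Real.rpow_natCast, Real.rpow_def_of_pos h0, Real.rpow_def_of_pos hr0]
    apply Real.exp_le_exp.mpr
    push_cast
    have : q * (2 * (mm d p K0 r : ℝ)) ≤ c1 * (Real.sqrt (A * t) + 1) := by
      rw [hc1]; nlinarith [mul_le_mul_of_nonneg_left hmreal (by positivity : 0 ≤ 2 * q)]
    calc Real.log (2 * (d:ℝ) + 1) * (2 * (mm d p K0 r : ℝ)) ≤ c1 * (Real.sqrt (A * t) + 1) := this
      _ ≤ ε * t := hkey
      _ = Real.log r * ε := by rw [ht]; ring
  refine ⟨?_, ?_, hbig⟩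
  · rw [hmm]; exact Nat.mul_pos (by omega) hceil1
  · refine le_trans ?_ hbig
    have h1 : (mm d p K0 r : ℝ) ≤ 2 ^ (mm d p K0 r) := by exact_mod_cast (Nat.lt_two_pow_self).le
    have h2 : (2:ℝ) ^ (mm d p K0 r) ≤ (2 * (d:ℝ) + 1) ^ (mm d p K0 r) := by
      apply pow_le_pow_left₀ (by norm_num)
      have : (2:ℝ) ≤ d := by exact_mod_cast hd
      linarith
    have h3 : (2 * (d:ℝ) + 1) ^ (mm d p K0 r) ≤ (2 * (d:ℝ) + 1) ^ (2 * mm d p K0 r) := by
      apply pow_le_pow_right₀ (by linarith) (by omega)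
    linarith

end Pool.Agent.LBL
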