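import Pool.Agent.LBL.Targets1

/-! MTR : mass transport for opening and closing a point. -/

set_option autoImplicit false

open Finset

namespace Pool.Agent.LBL

namespace MTR_

theorem wt_erase {X : Type} [Fintype X] [DecidableEq X] (p : ℝ) (hp1 : p < 1)
    (O : Finset X) (z : X) (hz : z ∈ O) : wt p O = p / (1 - p) * wt p (O.erase z) := by
  have h1 : (1 - p) ≠ 0 := by linarith
  have hc : (O.erase z).card + 1 = O.card := Finset.card_erase_add_one hz
  have hle : O.card ≤ Fintype.card X := Finset.card_le_univ O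
  unfold wt
  obtain ⟨a, ha⟩ : ∃ a, (O.erase z).card = a := ⟨_, rfl⟩
  obtain ⟨b, hb⟩ : ∃ b, Fintype.card X - O.card = b := ⟨_, rfl⟩
  have h2 : O.card = a + 1 := by omega
  have h3 : Fintype.card X - (O.erase z).card = b + 1 := by omega
  rw [h3, hb, h2, ha, pow_succ, pow_succ]
  field_simp

end MTR_

theorem p_MTR : T_MTR := by
  intro X _ _ p hp0 hp1
  refine ⟨fun F => ?_, fun F e => ?_⟩
  · have e1 : ∑ O : Finset X, wt p O * ∑ z ∈ O, F O z =
        ∑ q ∈ (Finset.univ : Finset (Finset X)).sigma (fun O => O), wt p q.1 * F q.1 q.2 := by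
      rw [Finset.sum_sigma]
      exact Finset.sum_congr rfl fun O _ => Finset.mul_sum _ _ _
    have e2 : (p / (1 - p)) * ∑ O : Finset X, wt p O * ∑ y ∈ Oᶜ, F (insert y O) y =
        ∑ q ∈ (Finset.univ : Finset (Finset X)).sigma (fun O => Oᶜ),
          p / (1 - p) * (wt p q.1 * F (insert q.2 q.1) q.2) := by
      rw [Finset.sum_sigma, Finset.mul_sum]
      refine Finset.sum_congr rfl fun O _ => ?_
      rw [Finset.mul_sum, Finset.mul_sum]
    rw [e1, e2]
    refine Finset.sum_bij' (fun q _ => (⟨q.1.erase q.2, q.2⟩ : (_ : Finset X) × X))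
      (fun q _ => (⟨insert q.2 q.1, q.2⟩ : (_ : Finset X) × X)) ?_ ?_ ?_ ?_ ?_
    · rintro ⟨O, z⟩ _
      simp
    · rintro ⟨O, y⟩ _
      simp
    · rintro ⟨O, z⟩ h
      rw [Finset.mem_sigma] at h
      simp only [Finset.insert_erase h.2]
    · rintro ⟨O, y⟩ h
      rw [Finset.mem_sigma, Finset.mem_compl] at h
      simp only [Finset.erase_insert h.2]
    · rintro ⟨O, z⟩ h
      rw [Finset.mem_sigma] at h
      simp only
      rw [Finset.insert_erase h.2, MTR_.wt_erase p hp1 O z h.2]
      ring
  · have h1 : ∀ O : Finset X, wt p O * F (O.map e.toEmbedding) =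
        (fun O : Finset X => wt p O * F O) (e.finsetCongr O) := by
      intro O
      simp only [Equiv.finsetCongr_apply, wt, Finset.card_map]
    rw [Finset.sum_congr rfl fun O _ => h1 O,
      Equiv.sum_comp e.finsetCongr fun O : Finset X => wt p O * F O]

end Pool.Agent.LBL
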