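import Pool.Agent.LBL.Targets3

set_option autoImplicit false

/-! Job LBL-NEG: negligible forces. -/

open Finset
open scoped Classical

namespace Pool.Agent.LBL

namespace NEG_

lemma kap_nonneg (d : ℕ) (D : ℝ) (hD : 0 ≤ D) : 0 ≤ kap d D := by
  unfold kap
  split_ifs
  · have := Real.log_nonneg (by linarith : (1 : ℝ) ≤ 1 + D)
    linarith
  · norm_num

lemma kap_le_log (d : ℕ) (D : ℝ) (hD : 0 ≤ D) : kap d D ≤ 1 + Real.log (1 + D) := by
  unfold kap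
  split_ifs
  · exact le_refl _
  · have := Real.log_nonneg (by linarith : (1 : ℝ) ≤ 1 + D)
    linarith

lemma kap_le_pow (d : ℕ) (D : ℝ) (hD : 1 ≤ D) : kap d D ≤ 9 * D ^ ((1 : ℝ) / 4) := by
  refine (kap_le_log d D (by linarith)).trans ?_
  have h1 : Real.log (1 + D) ≤ (1 + D) ^ ((1 : ℝ) / 4) / ((1 : ℝ) / 4) :=
    Real.log_le_rpow_div (by linarith) (by norm_num)
  have h2 : (1 + D) ^ ((1 : ℝ) / 4) ≤ (16 * D) ^ ((1 : ℝ) / 4) :=
    Real.rpow_le_rpow (by linarith) (by linarith) (by norm_num)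
  have h3 : (16 * D) ^ ((1 : ℝ) / 4) = 2 * D ^ ((1 : ℝ) / 4) := by
    rw [Real.mul_rpow (by norm_num) (by linarith)]
    congr 1
    rw [show (16 : ℝ) = 2 ^ (4 : ℝ) by norm_num, ← Real.rpow_mul (by norm_num)]
    norm_num
  have h4 : (1 : ℝ) ≤ D ^ ((1 : ℝ) / 4) := Real.one_le_rpow hD (by norm_num)
  rw [h3] at h2
  have h5 : Real.log (1 + D) ≤ 8 * D ^ ((1 : ℝ) / 4) := by
    refine h1.trans ?_
    rw [div_le_iff₀ (by norm_num)]
    linarith
  linarith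

lemma td_comm {d L : ℕ} [NeZero L] (x y : Tor d L) : td x y = td y x := by
  unfold td
  refine Finset.sup_congr rfl fun i _ => ?_
  have h : y i - x i = -(x i - y i) := by ring
  rw [h, ZMod.natAbs_valMinAbs_neg]

lemma td_le {d L : ℕ} [NeZero L] (x y : Tor d L) : td x y ≤ L := by
  unfold td
  refine Finset.sup_le fun i _ => ?_
  exact (ZMod.natAbs_valMinAbs_le _).trans (Nat.div_le_self _ _)

/-- the main inequality: `kap * Mj^(3/4) <= 18 D` -/
lemma main (d K0 L δ : ℕ) (m c4 KK Mj r : ℝ) (hm : 1 ≤ m) (hc4 : 0 < c4)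
    (hMj : m ^ 4 ≤ Mj) (hδ : Mj < (δ : ℝ)) (hδL : δ ≤ L) (hL : (L : ℝ) ≤ r ^ K0) (hr1 : 1 < r)
    (hMj2 : Mj ≤ m ^ 4 + KK * Real.log r) (hr2 : 2 ≤ c4 * r)
    (hr3 : (2 + K0 * Real.log r) * (m ^ 4 + KK * Real.log r) ≤ 9 * c4 * r) :
    kap d δ * Mj ^ ((3 : ℝ) / 4) ≤ 18 * ((min (δ - 1) ⌊c4 * r⌋₊ : ℕ) : ℝ) ∧
      0 < min (δ - 1) ⌊c4 * r⌋₊ := by
  have hm4 : (1 : ℝ) ≤ m ^ 4 := one_le_pow₀ hm
  have hMj1 : 1 ≤ Mj := hm4.trans hMj
  have hδ1 : (1 : ℝ) < δ := lt_of_le_of_lt hMj1 hδ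
  have hδ2 : 1 < δ := by exact_mod_cast hδ1
  have hfl : c4 * r / 2 ≤ (⌊c4 * r⌋₊ : ℝ) := by
    have := Nat.lt_floor_add_one (c4 * r)
    linarith
  have hflp : 0 < ⌊c4 * r⌋₊ := by
    have : (0 : ℝ) < (⌊c4 * r⌋₊ : ℝ) := by linarith
    exact_mod_cast this
  refine ⟨?_, lt_min (by omega) hflp⟩
  have hk0 : 0 ≤ kap d δ := kap_nonneg d δ (by linarith)
  rcases le_total (δ - 1) ⌊c4 * r⌋₊ with h | h
  · rw [min_eq_left h]
    have h1 : kap d δ ≤ 9 * (δ : ℝ) ^ ((1 : ℝ) / 4) := kap_le_pow d δ hδ1.le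
    have h2 : Mj ^ ((3 : ℝ) / 4) ≤ (δ : ℝ) ^ ((3 : ℝ) / 4) :=
      Real.rpow_le_rpow (by linarith) hδ.le (by norm_num)
    have h3 : (δ : ℝ) ^ ((1 : ℝ) / 4) * (δ : ℝ) ^ ((3 : ℝ) / 4) = δ := by
      rw [← Real.rpow_add (by linarith)]
      norm_num
    have h4 : kap d δ * Mj ^ ((3 : ℝ) / 4) ≤ 9 * (δ : ℝ) := by
      calc kap d δ * Mj ^ ((3 : ℝ) / 4)
          ≤ (9 * (δ : ℝ) ^ ((1 : ℝ) / 4)) * (δ : ℝ) ^ ((3 : ℝ) / 4) :=
            mul_le_mul h1 h2 (Real.rpow_nonneg (by linarith) _) (hk0.trans h1)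
        _ = 9 * (δ : ℝ) := by rw [mul_assoc, h3]
    have h5 : ((δ - 1 : ℕ) : ℝ) = (δ : ℝ) - 1 := by
      rw [Nat.cast_sub hδ2.le]
      norm_num
    have h6 : (2 : ℝ) ≤ δ := by exact_mod_cast hδ2
    rw [h5]
    linarith
  · rw [min_eq_right h]
    have hlog : 0 < Real.log r := Real.log_pos hr1
    have h1 : kap d δ ≤ 2 + K0 * Real.log r := by
      refine (kap_le_log d δ (by linarith)).trans ?_
      have h2 : (1 : ℝ) + δ ≤ 2 * r ^ K0 := by
        have h3 : (δ : ℝ) ≤ L := by exact_mod_cast hδL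
        have h4 : (1 : ℝ) ≤ r ^ K0 := one_le_pow₀ hr1.le
        linarith
      have h5 : Real.log (1 + δ) ≤ Real.log (2 * r ^ K0) :=
        Real.log_le_log (by linarith) h2
      have h6 : Real.log (2 * r ^ K0) = Real.log 2 + K0 * Real.log r := by
        rw [Real.log_mul (by norm_num) (by positivity), Real.log_pow]
      have h7 : Real.log 2 ≤ 1 := by
        have := Real.log_two_lt_d9
        linarith
      linarith
    have h2 : Mj ^ ((3 : ℝ) / 4) ≤ Mj := by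
      have := Real.rpow_le_rpow_of_exponent_le hMj1 (by norm_num : (3 : ℝ) / 4 ≤ 1)
      rwa [Real.rpow_one] at this
    calc kap d δ * Mj ^ ((3 : ℝ) / 4)
        ≤ (2 + K0 * Real.log r) * (m ^ 4 + KK * Real.log r) :=
          mul_le_mul h1 (h2.trans hMj2) (Real.rpow_nonneg (by linarith) _) (hk0.trans h1)
      _ ≤ 9 * c4 * r := hr3
      _ ≤ 18 * (⌊c4 * r⌋₊ : ℝ) := by linarith

lemma ev_log (K0 m4 KK c4 : ℝ) (hc4 : 0 < c4) (hK0 : 0 ≤ K0) (hm4 : 0 ≤ m4) (hKK : 0 ≤ KK) :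
    ∀ᶠ r : ℝ in Filter.atTop, (2 + K0 * Real.log r) * (m4 + KK * Real.log r) ≤ 9 * c4 * r := by
  have hQ : 0 < (2 + K0) * (m4 + KK) + 1 := by positivity
  have h1 := (Real.isLittleO_pow_log_id_atTop (n := 2)).bound
    (c := 9 * c4 / ((2 + K0) * (m4 + KK) + 1)) (by positivity)
  have h2 : ∀ᶠ r : ℝ in Filter.atTop, 1 ≤ Real.log r :=
    Real.tendsto_log_atTop.eventually_ge_atTop 1
  filter_upwards [h1, h2, Filter.eventually_ge_atTop (1 : ℝ)] with r hr hlog hr1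
  rw [Real.norm_eq_abs, Real.norm_eq_abs, abs_of_nonneg (by positivity),
    abs_of_nonneg (by simpa using (by linarith : (0 : ℝ) ≤ r)), div_mul_eq_mul_div, le_div_iff₀ hQ] at hr
  have hr' : Real.log r ^ 2 * ((2 + K0) * (m4 + KK) + 1) ≤ 9 * c4 * r := hr
  have h3 : 2 + K0 * Real.log r ≤ (2 + K0) * Real.log r := by nlinarith
  have h4 : m4 + KK * Real.log r ≤ (m4 + KK) * Real.log r := by nlinarith
  have h5 : (2 + K0 * Real.log r) * (m4 + KK * Real.log r) ≤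
      ((2 + K0) * Real.log r) * ((m4 + KK) * Real.log r) :=
    mul_le_mul h3 h4 (by positivity) (by positivity)
  nlinarith [sq_nonneg (Real.log r)]

end NEG_

open NEG_ in
theorem p_NEG (h_FLX : T_FLX) : T_NEG := by
  intro d K0 C K c8 c3 C5 D0 c4 hd hK0 hC hK hc8 hc3 hC5 hD0 hc4
  have hd1 : (1 : ℝ) ≤ d := by
    have : 1 ≤ d := by omega
    exact_mod_cast this
  have hs3 : 0 < Real.sqrt c3 := Real.sqrt_pos.mpr hc3
  set m : ℝ := max 1 (max (18 * D0) (72 * C5 * C ^ 2 / (c8 * Real.sqrt c3))) with hmdef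
  have hm1 : 1 ≤ m := le_max_left _ _
  have hm2 : 18 * D0 ≤ m := (le_max_left _ _).trans (le_max_right _ _)
  have hm3 : 72 * C5 * C ^ 2 / (c8 * Real.sqrt c3) ≤ m := (le_max_right _ _).trans (le_max_right _ _)
  set ε : ℝ := min 1 (c8 / (4 * C ^ 2 * (2 * d + 1))) with hεdef
  have hC2 : 0 < C ^ 2 := by positivity
  have hε0 : 0 < ε := lt_min one_pos (by positivity)
  have hε1 : ε ≤ 1 := min_le_left _ _
  have hε2 : (2 * d + 1) * ε * C ^ 2 ≤ c8 / 4 := by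
    have h : ε ≤ c8 / (4 * C ^ 2 * (2 * d + 1)) := min_le_right _ _
    rw [le_div_iff₀ (by positivity)] at h
    linarith
  have hKK : 0 ≤ c3 * (4 * K) := by positivity
  obtain ⟨r1, hr1⟩ := Filter.eventually_atTop.mp
    (ev_log K0 (m ^ 4) (c3 * (4 * K)) c4 hc4 (Nat.cast_nonneg _) (by positivity) hKK)
  refine ⟨ε, m ^ 4, max 2 (max r1 (2 / c4)), hε0, hε1, one_le_pow₀ hm1,
    lt_of_lt_of_le (by norm_num) (le_max_left _ _), ?_⟩
  intro r L _ hr hRg O φ i hEF hyp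
  have hr2 : 2 ≤ r := (le_max_left _ _).trans hr
  have hrr1 : r1 ≤ r := ((le_max_left _ _).trans (le_max_right _ _)).trans hr
  have hrc : 2 ≤ c4 * r := by
    have : 2 / c4 ≤ r := ((le_max_right _ _).trans (le_max_right _ _)).trans hr
    rw [div_le_iff₀ hc4] at this
    linarith
  have hr3 := hr1 r hrr1
  have hr0 : 0 < r := by linarith
  have hlog : 0 < Real.log r := Real.log_pos (by linarith)
  obtain ⟨hf1, hf2, hf3, hf4, hf5, hf6⟩ := h_FLX d L (by omega) O φ hEF.top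
  have hsq : 0 < sq d r := Real.rpow_pos_of_pos hr0 _
  have hss : ss d r = sq d r ^ 2 := by
    unfold ss sq
    rw [← Real.rpow_natCast, ← Real.rpow_mul hr0.le]
    congr 1
    push_cast
    ring
  have hsum : sq d r * ∑ y ∈ Oᶜ, P0 φ y ≤ C ^ 2 * r ^ (-(3 : ℝ)) := by
    rw [hf1]
    have hhp : 0 < hh d r := Real.rpow_pos_of_pos hr0 _
    have hφ0 : 0 ≤ ∑ x, φ x := Finset.sum_nonneg fun x _ => hEF.top.nn x
    have h1 : 1 - lam O ≤ C / r ^ 2 := by
      rw [le_div_iff₀ (by positivity)]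
      exact hEF.mu
    have h2 : (1 - lam O) * ∑ x, φ x ≤ (C / r ^ 2) * (C / hh d r) := by
      have h3 := hEF.l1
      calc (1 - lam O) * ∑ x, φ x ≤ (C / r ^ 2) * ∑ x, φ x := mul_le_mul_of_nonneg_right h1 hφ0
        _ ≤ (C / r ^ 2) * (C / hh d r) := mul_le_mul_of_nonneg_left h3 (by positivity)
    have h3 : sq d r * ((C / r ^ 2) * (C / hh d r)) = C ^ 2 * r ^ (-(3 : ℝ)) := by
      have h4 : sq d r = r ^ (-(3 : ℝ)) * (r ^ 2 * hh d r) := by
        unfold sq hh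
        rw [← Real.rpow_natCast r 2, ← Real.rpow_add hr0, ← Real.rpow_add hr0]
        congr 1
        push_cast
        ring
      rw [h4]
      field_simp
    calc sq d r * ((1 - lam O) * ∑ x, φ x) ≤ sq d r * ((C / r ^ 2) * (C / hh d r)) :=
          mul_le_mul_of_nonneg_left h2 hsq.le
      _ = C ^ 2 * r ^ (-(3 : ℝ)) := h3
  -- pointwise bound
  have hfo : ∀ y, fo i φ y ≤ 2 * d * P0 φ y ^ 2 := by
    intro y
    unfold fo
    have h1 := hf3 y i
    have h2 : |φ (y + ev i) - φ (y - ev i)| ≤ 2 * d * P0 φ y := by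
      rw [abs_le]
      have h3 := hEF.top.nn (y + ev i)
      have h4 := hEF.top.nn (y - ev i)
      constructor
      · linarith [h1.2]
      · linarith [h1.1]
    calc P0 φ y * |φ (y + ev i) - φ (y - ev i)| ≤ P0 φ y * (2 * d * P0 φ y) :=
          mul_le_mul_of_nonneg_left h2 (hf2 y)
      _ = 2 * d * P0 φ y ^ 2 := by ring
  have hfo0 : ∀ y, 0 ≤ fo i φ y := fun y => mul_nonneg (hf2 y) (abs_nonneg _)
  have hpt : ∀ y ∈ Oᶜ.filter (fun y => ¬ (ε * sq d r ≤ P0 φ y ∧ ε ^ 3 * ss d r ≤ fo i φ y ∧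
      (NI (m ^ 4) c3 (ss d r) O (P0 φ y) y ∨ BF r C5 D0 c4 O i φ y))),
      fo i φ y ≤ (2 * d * ε + ε ^ 2 + 18 * C5 / (m * Real.sqrt c3)) * (sq d r * P0 φ y) := by
    intro y hy
    rw [Finset.mem_filter, Finset.mem_compl] at hy
    obtain ⟨hyO, hy⟩ := hy
    have ha := hf2 y
    set a := P0 φ y with hadef
    set f := fo i φ y with hfdef
    have hsa : 0 ≤ sq d r * a := mul_nonneg hsq.le ha
    have hk1 : 0 ≤ 2 * (d : ℝ) * ε := by positivity
    have hk2 : 0 ≤ ε ^ 2 := by positivity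
    have hk3 : 0 ≤ 18 * C5 / (m * Real.sqrt c3) := by positivity
    by_cases h1 : ε * sq d r ≤ a
    swap
    · push Not at h1
      have h2 : f ≤ 2 * d * ε * (sq d r * a) := by
        refine (hfo y).trans ?_
        have : a ^ 2 ≤ ε * sq d r * a := by nlinarith
        have h3 : (0 : ℝ) ≤ 2 * d := by positivity
        calc 2 * (d : ℝ) * a ^ 2 ≤ 2 * d * (ε * sq d r * a) := mul_le_mul_of_nonneg_left this h3
          _ = 2 * d * ε * (sq d r * a) := by ring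
      nlinarith [mul_nonneg hk2 hsa, mul_nonneg hk3 hsa]
    by_cases h2 : ε ^ 3 * ss d r ≤ f
    swap
    · push Not at h2
      have h3 : f ≤ ε ^ 2 * (sq d r * a) := by
        refine h2.le.trans ?_
        rw [hss]
        have : ε ^ 2 * sq d r * (ε * sq d r) ≤ ε ^ 2 * sq d r * a :=
          mul_le_mul_of_nonneg_left h1 (by positivity)
        calc ε ^ 3 * sq d r ^ 2 = ε ^ 2 * sq d r * (ε * sq d r) := by ring
          _ ≤ ε ^ 2 * sq d r * a := this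
          _ = ε ^ 2 * (sq d r * a) := by ring
      nlinarith [mul_nonneg hk1 hsa, mul_nonneg hk3 hsa]
    have h3 : ¬ NI (m ^ 4) c3 (ss d r) O a y ∧ ¬ BF r C5 D0 c4 O i φ y := by
      constructor
      · intro h
        exact hy ⟨h1, h2, Or.inl h⟩
      · intro h
        exact hy ⟨h1, h2, Or.inr h⟩
    obtain ⟨hNI, hBF⟩ := h3
    have ha0 : 0 < a := lt_of_lt_of_le (mul_pos hε0 hsq) h1
    obtain ⟨hne, ha2⟩ := hyp y hyO
    -- the nearest point
    have hex : (Finset.univ.filter fun x : Tor d L => x ∉ insert y O).Nonempty := by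
      obtain ⟨x, hx⟩ : ∃ x, x ∉ insert y O := by
        by_contra hcon
        push Not at hcon
        exact hne (Finset.eq_univ_iff_forall.mpr hcon)
      exact ⟨x, Finset.mem_filter.mpr ⟨Finset.mem_univ _, hx⟩⟩
    obtain ⟨y0, hy0, hmin⟩ := Finset.exists_min_image _ (fun x => td y x) hex
    rw [Finset.mem_filter] at hy0
    have hy0' := hy0.2
    rw [Finset.mem_insert, not_or] at hy0'
    have hMj : max (m ^ 4) (c3 * a ^ 2 / ss d r) < (td y y0 : ℝ) := by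
      by_contra hcon
      push Not at hcon
      exact hNI ⟨y0, hy0'.2, hy0'.1, hcon⟩
    have hssp : 0 < ss d r := Real.rpow_pos_of_pos hr0 _
    have hMj2 : max (m ^ 4) (c3 * a ^ 2 / ss d r) ≤ m ^ 4 + c3 * (4 * K) * Real.log r := by
      have h4 : 0 ≤ c3 * (4 * K) * Real.log r := by positivity
      refine max_le (by linarith) ?_
      rw [div_le_iff₀ hssp]
      have h5 : c3 * a ^ 2 ≤ c3 * (4 * K * ss d r * Real.log r) :=
        mul_le_mul_of_nonneg_left ha2 hc3.le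
      have h6 : 0 ≤ m ^ 4 * ss d r := by positivity
      nlinarith
    obtain ⟨hmain, hD0pos⟩ := main d K0 L (td y y0) m c4 (c3 * (4 * K))
      (max (m ^ 4) (c3 * a ^ 2 / ss d r)) r hm1 hc4 (le_max_left _ _) hMj (td_le y y0) hRg.2
      (by linarith) hMj2 hrc hr3
    set D : ℕ := min (td y y0 - 1) ⌊c4 * r⌋₊ with hDdef
    set Mj : ℝ := max (m ^ 4) (c3 * a ^ 2 / ss d r) with hMjdef
    have hMj0 : 0 < Mj := lt_of_lt_of_le (by positivity) (le_max_left _ _)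
    have hDr : (0 : ℝ) < D := by exact_mod_cast hD0pos
    have hkn : 0 ≤ kap d (td y y0) := kap_nonneg d _ (Nat.cast_nonneg _)
    have hP14 : m ≤ Mj ^ ((1 : ℝ) / 4) := by
      have h4 : (m ^ 4) ^ ((1 : ℝ) / 4) = m := by
        rw [← Real.rpow_natCast m 4, ← Real.rpow_mul (by linarith)]
        norm_num
      rw [← h4]
      exact Real.rpow_le_rpow (by positivity) (le_max_left _ _) (by norm_num)
    have hP12 : Real.sqrt c3 * (a / sq d r) ≤ Mj ^ ((1 : ℝ) / 2) := by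
      rw [← Real.sqrt_eq_rpow]
      refine Real.le_sqrt_of_sq_le ?_
      have h4 : (Real.sqrt c3 * (a / sq d r)) ^ 2 = c3 * a ^ 2 / ss d r := by
        rw [mul_pow, Real.sq_sqrt hc3.le, div_pow, hss]
        ring
      rw [h4]
      exact le_max_right _ _
    have hP34 : Mj ^ ((3 : ℝ) / 4) = Mj ^ ((1 : ℝ) / 4) * Mj ^ ((1 : ℝ) / 2) := by
      rw [← Real.rpow_add hMj0]
      norm_num
    have hPm : m * (Real.sqrt c3 * (a / sq d r)) ≤ Mj ^ ((3 : ℝ) / 4) := by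
      rw [hP34]
      exact mul_le_mul hP14 hP12 (by positivity) (by positivity)
    have hPm' : m ≤ Mj ^ ((3 : ℝ) / 4) := by
      rw [hP34]
      have h4 : (1 : ℝ) ≤ Mj ^ ((1 : ℝ) / 2) :=
        Real.one_le_rpow ((one_le_pow₀ hm1).trans (le_max_left _ _)) (by norm_num)
      nlinarith
    have hDk : D0 * kap d (td y y0) ≤ D := by
      have h4 : 18 * D0 * kap d (td y y0) ≤ kap d (td y y0) * Mj ^ ((3 : ℝ) / 4) := by
        rw [mul_comm (kap d (td y y0))]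
        exact mul_le_mul_of_nonneg_right (hm2.trans hPm') hkn
      linarith
    have hball : ∀ x, td x y ≤ D → x ∈ insert y O := by
      intro x hx
      by_contra hcon
      have h4 := hmin x (Finset.mem_filter.mpr ⟨Finset.mem_univ _, hcon⟩)
      rw [td_comm y x] at h4
      have h5 : D ≤ td y y0 - 1 := min_le_left _ _
      have h6 : 0 < D := hD0pos
      omega
    have hlt : f < C5 * a ^ 2 * kap d (td y y0) / D := by
      by_contra hcon
      push Not at hcon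
      refine hBF ⟨D, y0, hy0'.2, hy0'.1, ?_, hball, hDk, hcon⟩
      have h4 : (D : ℝ) ≤ (⌊c4 * r⌋₊ : ℝ) := by exact_mod_cast min_le_right _ _
      exact h4.trans (Nat.floor_le (by positivity))
    rw [lt_div_iff₀ hDr] at hlt
    have hP0 : 0 < Mj ^ ((3 : ℝ) / 4) := Real.rpow_pos_of_pos hMj0 _
    have hfP : f * Mj ^ ((3 : ℝ) / 4) ≤ 18 * C5 * a ^ 2 := by
      have h4 : f * D * Mj ^ ((3 : ℝ) / 4) ≤ C5 * a ^ 2 * kap d (td y y0) * Mj ^ ((3 : ℝ) / 4) :=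
        mul_le_mul_of_nonneg_right hlt.le hP0.le
      have h5 : C5 * a ^ 2 * kap d (td y y0) * Mj ^ ((3 : ℝ) / 4) ≤ C5 * a ^ 2 * (18 * D) := by
        rw [mul_assoc]
        exact mul_le_mul_of_nonneg_left hmain (by positivity)
      have h6 : (f * Mj ^ ((3 : ℝ) / 4)) * D ≤ (18 * C5 * a ^ 2) * D := by linarith
      exact le_of_mul_le_mul_right h6 hDr
    have hf0 : 0 ≤ f := hfo0 y
    have h7 : f * (m * (Real.sqrt c3 * (a / sq d r))) ≤ 18 * C5 * a ^ 2 :=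
      (mul_le_mul_of_nonneg_left hPm hf0).trans hfP
    have h8 : f ≤ 18 * C5 / (m * Real.sqrt c3) * (sq d r * a) := by
      rw [div_mul_eq_mul_div, le_div_iff₀ (by positivity)]
      have h9 : f * (m * (Real.sqrt c3 * (a / sq d r))) = f * (m * Real.sqrt c3) * a / sq d r := by
        ring
      rw [h9, div_le_iff₀ hsq] at h7
      have h10 : f * (m * Real.sqrt c3) * a ≤ (18 * C5 * (sq d r * a)) * a := by
        refine h7.trans (le_of_eq ?_)
        ring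
      exact le_of_mul_le_mul_right h10 ha0
    nlinarith [mul_nonneg hk1 hsa, mul_nonneg hk2 hsa]
  have hsub : ∑ y ∈ Oᶜ.filter (fun y => ¬ (ε * sq d r ≤ P0 φ y ∧ ε ^ 3 * ss d r ≤ fo i φ y ∧
      (NI (m ^ 4) c3 (ss d r) O (P0 φ y) y ∨ BF r C5 D0 c4 O i φ y))), sq d r * P0 φ y ≤
      sq d r * ∑ y ∈ Oᶜ, P0 φ y := by
    rw [Finset.mul_sum]
    exact Finset.sum_le_sum_of_subset_of_nonneg (Finset.filter_subset _ _)
      fun y _ _ => mul_nonneg hsq.le (hf2 y)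
  have hκ0 : 0 ≤ 2 * d * ε + ε ^ 2 + 18 * C5 / (m * Real.sqrt c3) := by positivity
  have hκ : (2 * d * ε + ε ^ 2 + 18 * C5 / (m * Real.sqrt c3)) * C ^ 2 ≤ c8 / 2 := by
    have h1 : 18 * C5 / (m * Real.sqrt c3) * C ^ 2 ≤ c8 / 4 := by
      rw [div_mul_eq_mul_div, div_le_iff₀ (by positivity)]
      rw [div_le_iff₀ (by positivity)] at hm3
      nlinarith
    have h2 : ε ^ 2 ≤ ε := by nlinarith
    have h3 : ε ^ 2 * C ^ 2 ≤ ε * C ^ 2 := mul_le_mul_of_nonneg_right h2 hC2.le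
    nlinarith
  have hr3' : 0 ≤ r ^ (-(3 : ℝ)) := Real.rpow_nonneg hr0.le _
  calc ∑ y ∈ Oᶜ.filter (fun y => ¬ (ε * sq d r ≤ P0 φ y ∧ ε ^ 3 * ss d r ≤ fo i φ y ∧
      (NI (m ^ 4) c3 (ss d r) O (P0 φ y) y ∨ BF r C5 D0 c4 O i φ y))), fo i φ y
      ≤ ∑ y ∈ Oᶜ.filter (fun y => ¬ (ε * sq d r ≤ P0 φ y ∧ ε ^ 3 * ss d r ≤ fo i φ y ∧
      (NI (m ^ 4) c3 (ss d r) O (P0 φ y) y ∨ BF r C5 D0 c4 O i φ y))),
        (2 * d * ε + ε ^ 2 + 18 * C5 / (m * Real.sqrt c3)) * (sq d r * P0 φ y) :=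
        Finset.sum_le_sum hpt
    _ = (2 * d * ε + ε ^ 2 + 18 * C5 / (m * Real.sqrt c3)) *
        ∑ y ∈ Oᶜ.filter (fun y => ¬ (ε * sq d r ≤ P0 φ y ∧ ε ^ 3 * ss d r ≤ fo i φ y ∧
      (NI (m ^ 4) c3 (ss d r) O (P0 φ y) y ∨ BF r C5 D0 c4 O i φ y))), sq d r * P0 φ y := by
        rw [Finset.mul_sum]
    _ ≤ (2 * d * ε + ε ^ 2 + 18 * C5 / (m * Real.sqrt c3)) * (C ^ 2 * r ^ (-(3 : ℝ))) :=
        mul_le_mul_of_nonneg_left (hsub.trans hsum) hκ0
    _ = ((2 * d * ε + ε ^ 2 + 18 * C5 / (m * Real.sqrt c3)) * C ^ 2) * r ^ (-(3 : ℝ)) := by ring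
    _ ≤ c8 / 2 * r ^ (-(3 : ℝ)) := mul_le_mul_of_nonneg_right hκ hr3'

end Pool.Agent.LBL
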