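import Pool.Agent.LBL.Targets1

/-!
# LBL: target NOD (two disjoint good sets)
-/

set_option autoImplicit false

open Finset
open scoped Classical

namespace Pool.Agent.LBL

section

variable {d : ℕ} {R : Type} [CommRing R]

theorem NOD_P0_add (f g : (Fin d → R) → ℝ) (c : ℝ) (x : Fin d → R) :
    P0 (fun y => f y + c * g y) x = P0 f x + c * P0 g x := by
  unfold P0
  rw [← mul_div_assoc, ← add_div, Finset.mul_sum, ← Finset.sum_add_distrib]
  congr 1
  exact Finset.sum_congr rfl fun i _ => by ring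

theorem NOD_P0_smul (g : (Fin d → R) → ℝ) (c : ℝ) (x : Fin d → R) :
    P0 (fun y => c * g y) x = c * P0 g x := by
  unfold P0
  rw [← mul_div_assoc, Finset.mul_sum]
  congr 1
  exact Finset.sum_congr rfl fun i _ => by ring

theorem NOD_P0_mono {f g : (Fin d → R) → ℝ} (h : ∀ x, f x ≤ g x) (x : Fin d → R) :
    P0 f x ≤ P0 g x := by
  unfold P0
  refine div_le_div_of_nonneg_right (Finset.sum_le_sum fun i _ => add_le_add (h _) (h _)) ?_
  positivity

theorem NOD_P0_cont (x : Fin d → R) : Continuous fun f : (Fin d → R) → ℝ => P0 f x := by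
  unfold P0
  fun_prop

/-- lower bound of the top eigenvalue by a nonnegative subsolution -/
theorem NOD_low (h_VAR : T_VAR) (hd : 1 ≤ d) (U : Finset (Fin d → R)) (g : (Fin d → R) → ℝ)
    (l : ℝ) (hg : Spp U g) (hne : ∃ x, g x ≠ 0) (h : ∀ x ∈ U, l * g x ^ 2 ≤ g x * P0 g x) :
    l ≤ lam U := by
  have h1 := (h_VAR d R hd U).1 g hg
  have h2 : l * ∑ x ∈ U, g x ^ 2 ≤ ∑ x ∈ U, g x * P0 g x := by
    rw [Finset.mul_sum]
    exact Finset.sum_le_sum h
  obtain ⟨x, hx⟩ := hne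
  have hxU : x ∈ U := by
    by_contra hc
    exact hx (hg x hc)
  have h3 : 0 < ∑ x ∈ U, g x ^ 2 :=
    lt_of_lt_of_le (by positivity : 0 < g x ^ 2)
      (Finset.single_le_sum (f := fun x => g x ^ 2) (fun y _ => sq_nonneg _) hxU)
  exact le_of_mul_le_mul_right (h2.trans h1) h3

/-- the positive part of an eigenfunction -/
theorem NOD_pos (h_VAR : T_VAR) (hd : 1 ≤ d) (O : Finset (Fin d → R)) (g : (Fin d → R) → ℝ)
    (l : ℝ) (hg : Spp O g) (he : ∀ x ∈ O, P0 g x = l * g x) (hne : ∃ x, 0 < g x) :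
    l ≤ lam (O.filter fun x => 0 < g x) := by
  refine NOD_low h_VAR hd _ (fun x => max (g x) 0) l ?_ ?_ ?_
  · intro x hx
    apply max_eq_right
    by_contra hc
    push Not at hc
    refine hx (Finset.mem_filter.2 ⟨?_, hc⟩)
    by_contra hO
    rw [hg x hO] at hc
    exact lt_irrefl _ hc
  · obtain ⟨x, hx⟩ := hne
    refine ⟨x, ?_⟩
    rw [max_eq_left hx.le]
    exact hx.ne'
  · intro x hx
    rw [Finset.mem_filter] at hx
    have h1 := NOD_P0_mono (f := g) (g := fun x => max (g x) 0) (fun x => le_max_left _ _) x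
    have h2 : max (g x) 0 = g x := max_eq_left hx.2.le
    change l * max (g x) 0 ^ 2 ≤ max (g x) 0 * P0 (fun x => max (g x) 0) x
    rw [h2]
    have h3 := mul_le_mul_of_nonneg_left h1 hx.2.le
    rw [he x hx.1] at h3
    nlinarith

/-- the second eigenfunction -/
theorem NOD_second (h_VAR : T_VAR) (hd : 1 ≤ d) (O : Finset (Fin d → R))
    (φ f : (Fin d → R) → ℝ) (y : ℝ) (hφ : Top O φ) (hf : Spp O f)
    (hfφ : ∑ x ∈ O, f x * φ x = 0) (hy : y * ∑ x ∈ O, f x ^ 2 < ∑ x ∈ O, f x * P0 f x) :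
    ∃ (ψ : (Fin d → R) → ℝ) (l : ℝ), y < l ∧ Spp O ψ ∧ (∃ x, ψ x ≠ 0) ∧
      ∑ x ∈ O, ψ x * φ x = 0 ∧ ∀ x ∈ O, P0 ψ x = l * ψ x := by
  obtain ⟨_, _, _, _, hsym⟩ := h_VAR d R hd O
  set K : Set ((Fin d → R) → ℝ) := {g | (∀ x, x ∉ O → g x = 0) ∧ ∑ x ∈ O, g x * φ x = 0 ∧
    ∑ x ∈ O, g x ^ 2 = 1} with hK
  have hKc : IsCompact K := by
    have h1 : IsCompact (Set.pi Set.univ fun _ : Fin d → R => Set.Icc (-1 : ℝ) 1) :=
      isCompact_univ_pi fun _ => isCompact_Icc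
    refine h1.of_isClosed_subset ?_ ?_
    · have e : K = (⋂ x, ⋂ _ : x ∉ O, {g : (Fin d → R) → ℝ | g x = 0}) ∩
          ({g | ∑ x ∈ O, g x * φ x = 0} ∩ {g | ∑ x ∈ O, g x ^ 2 = 1}) := by
        ext g
        simp only [hK, Set.mem_ofPred_eq, Set.mem_inter_iff, Set.mem_iInter]
      rw [e]
      refine IsClosed.inter ?_ (IsClosed.inter ?_ ?_)
      · refine isClosed_iInter fun x => isClosed_iInter fun _ => ?_
        exact isClosed_eq (continuous_apply x) continuous_const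
      · exact isClosed_eq (by fun_prop) continuous_const
      · exact isClosed_eq (by fun_prop) continuous_const
    · intro g hg x _
      by_cases hx : x ∈ O
      · have h2 : g x ^ 2 ≤ 1 := by
          rw [← hg.2.2]
          exact Finset.single_le_sum (f := fun x => g x ^ 2) (fun y _ => sq_nonneg _) hx
        exact abs_le.1 ((sq_le_one_iff_abs_le_one _).1 h2)
      · rw [hg.1 x hx]
        simp
  have hQc : Continuous fun g : (Fin d → R) → ℝ => ∑ x ∈ O, g x * P0 g x := by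
    refine continuous_finsetSum _ fun x _ => (continuous_apply x).mul (NOD_P0_cont x)
  -- scaling
  have hsc : ∀ (c : ℝ) (g : (Fin d → R) → ℝ), ∑ x ∈ O, (c * g x) * P0 (fun y => c * g y) x =
      c ^ 2 * ∑ x ∈ O, g x * P0 g x := by
    intro c g
    rw [Finset.mul_sum]
    exact Finset.sum_congr rfl fun x _ => by rw [NOD_P0_smul]; ring
  have hscn : ∀ (c : ℝ) (g : (Fin d → R) → ℝ), ∑ x ∈ O, (c * g x) ^ 2 =
      c ^ 2 * ∑ x ∈ O, g x ^ 2 := by
    intro c g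
    rw [Finset.mul_sum]
    exact Finset.sum_congr rfl fun x _ => by ring
  have hnorm : ∀ g : (Fin d → R) → ℝ, Spp O g → ∑ x ∈ O, g x * φ x = 0 →
      0 < ∑ x ∈ O, g x ^ 2 → (fun x => (Real.sqrt (∑ x ∈ O, g x ^ 2))⁻¹ * g x) ∈ K := by
    intro g hg hgφ hN
    refine ⟨fun x hx => by simp only [hg x hx, mul_zero], ?_, ?_⟩
    · have : ∑ x ∈ O, (Real.sqrt (∑ x ∈ O, g x ^ 2))⁻¹ * g x * φ x =
          (Real.sqrt (∑ x ∈ O, g x ^ 2))⁻¹ * ∑ x ∈ O, g x * φ x := by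
        rw [Finset.mul_sum]
        exact Finset.sum_congr rfl fun x _ => by ring
      rw [this, hgφ, mul_zero]
    · rw [hscn, inv_pow, Real.sq_sqrt hN.le, inv_mul_cancel₀ hN.ne']
  have hzero : ∀ g : (Fin d → R) → ℝ, ¬ 0 < ∑ x ∈ O, g x ^ 2 → ∀ x ∈ O, g x = 0 := by
    intro g hN x hx
    have h1 : ∑ x ∈ O, g x ^ 2 = 0 :=
      le_antisymm (not_lt.1 hN) (Finset.sum_nonneg fun x _ => sq_nonneg _)
    have h2 := (Finset.sum_eq_zero_iff_of_nonneg fun x _ => sq_nonneg (g x)).1 h1 x hx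
    exact pow_eq_zero_iff (two_ne_zero) |>.1 h2
  have hfN : 0 < ∑ x ∈ O, f x ^ 2 := by
    by_contra hc
    have h1 := hzero f hc
    have h2 : ∑ x ∈ O, f x ^ 2 = 0 := Finset.sum_eq_zero fun x hx => by rw [h1 x hx]; ring
    have h3 : ∑ x ∈ O, f x * P0 f x = 0 :=
      Finset.sum_eq_zero fun x hx => by rw [h1 x hx, zero_mul]
    rw [h2, h3, mul_zero] at hy
    exact lt_irrefl _ hy
  obtain ⟨ψ, hψK, hmax⟩ := hKc.exists_isMaxOn ⟨_, hnorm f hf hfφ hfN⟩ hQc.continuousOn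
  set l : ℝ := ∑ x ∈ O, ψ x * P0 ψ x with hl
  have hbound : ∀ g : (Fin d → R) → ℝ, Spp O g → ∑ x ∈ O, g x * φ x = 0 →
      ∑ x ∈ O, g x * P0 g x ≤ l * ∑ x ∈ O, g x ^ 2 := by
    intro g hg hgφ
    by_cases hN : 0 < ∑ x ∈ O, g x ^ 2
    · have h1 := hmax (hnorm g hg hgφ hN)
      simp only [Set.mem_ofPred_eq] at h1
      rw [hsc, inv_pow, Real.sq_sqrt hN.le] at h1
      rw [inv_mul_le_iff₀ hN] at h1
      linarith
    · have h1 := hzero g hN
      have h2 : ∑ x ∈ O, g x ^ 2 = 0 := Finset.sum_eq_zero fun x hx => by rw [h1 x hx]; ring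
      have h3 : ∑ x ∈ O, g x * P0 g x = 0 :=
        Finset.sum_eq_zero fun x hx => by rw [h1 x hx, zero_mul]
      rw [h2, h3, mul_zero]
  have hyl : y < l := by
    have h1 := hbound f hf hfφ
    have h2 : y * ∑ x ∈ O, f x ^ 2 < l * ∑ x ∈ O, f x ^ 2 := lt_of_lt_of_le hy h1
    exact lt_of_mul_lt_mul_right h2 hfN.le
  have hψs : Spp O ψ := hψK.1
  refine ⟨ψ, l, hyl, hψs, ?_, hψK.2.1, ?_⟩
  · by_contra hc
    push Not at hc
    have h1 := hψK.2.2
    rw [Finset.sum_eq_zero fun x _ => by rw [hc x]; ring] at h1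
    exact zero_ne_one h1
  -- Euler-Lagrange
  have hEL : ∀ g : (Fin d → R) → ℝ, Spp O g → ∑ x ∈ O, g x * φ x = 0 →
      ∑ x ∈ O, g x * (P0 ψ x - l * ψ x) = 0 := by
    intro g hg hgφ
    have hq : ∀ c : ℝ, 2 * c * ∑ x ∈ O, g x * (P0 ψ x - l * ψ x) +
        c ^ 2 * (∑ x ∈ O, g x * P0 g x - l * ∑ x ∈ O, g x ^ 2) ≤ 0 := by
      intro c
      have h1 := hbound (fun x => ψ x + c * g x)
        (fun x hx => by simp only [hψs x hx, hg x hx, mul_zero, add_zero]) (by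
          have : ∑ x ∈ O, (ψ x + c * g x) * φ x = ∑ x ∈ O, ψ x * φ x +
              c * ∑ x ∈ O, g x * φ x := by
            rw [Finset.mul_sum, ← Finset.sum_add_distrib]
            exact Finset.sum_congr rfl fun x _ => by ring
          rw [this, hψK.2.1, hgφ]
          ring)
      have h2 : ∑ x ∈ O, (ψ x + c * g x) * P0 (fun x => ψ x + c * g x) x =
          l + c * ∑ x ∈ O, ψ x * P0 g x + c * ∑ x ∈ O, g x * P0 ψ x +
            c ^ 2 * ∑ x ∈ O, g x * P0 g x := by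
        rw [hl, Finset.mul_sum, Finset.mul_sum, Finset.mul_sum, ← Finset.sum_add_distrib,
          ← Finset.sum_add_distrib, ← Finset.sum_add_distrib]
        exact Finset.sum_congr rfl fun x _ => by rw [NOD_P0_add]; ring
      have h3 : ∑ x ∈ O, (ψ x + c * g x) ^ 2 = 1 + 2 * c * ∑ x ∈ O, g x * ψ x +
          c ^ 2 * ∑ x ∈ O, g x ^ 2 := by
        rw [← hψK.2.2, Finset.mul_sum, Finset.mul_sum, ← Finset.sum_add_distrib,
          ← Finset.sum_add_distrib]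
        exact Finset.sum_congr rfl fun x _ => by ring
      have h4 : ∑ x ∈ O, g x * (P0 ψ x - l * ψ x) = ∑ x ∈ O, g x * P0 ψ x -
          l * ∑ x ∈ O, g x * ψ x := by
        rw [Finset.mul_sum, ← Finset.sum_sub_distrib]
        exact Finset.sum_congr rfl fun x _ => by ring
      rw [h2, h3, hsym ψ g hψs hg] at h1
      rw [h4]
      nlinarith
    set a : ℝ := ∑ x ∈ O, g x * (P0 ψ x - l * ψ x) with ha
    set b : ℝ := ∑ x ∈ O, g x * P0 g x - l * ∑ x ∈ O, g x ^ 2 with hb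
    by_contra hne
    have hb' : 0 < 1 + |b| := by positivity
    have h1 := hq (a / (1 + |b|))
    have h2 : 2 * (a / (1 + |b|)) * a + (a / (1 + |b|)) ^ 2 * b =
        a ^ 2 / (1 + |b|) ^ 2 * (2 * (1 + |b|) + b) := by
      field_simp
    rw [h2] at h1
    have h3 : 0 < 2 * (1 + |b|) + b := by
      have := neg_abs_le b
      have := abs_nonneg b
      linarith
    have h4 : 0 < a ^ 2 / (1 + |b|) ^ 2 * (2 * (1 + |b|) + b) := by positivity
    linarith
  set g0 : (Fin d → R) → ℝ := fun x => if x ∈ O then P0 ψ x - l * ψ x else 0 with hg0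
  have hg0s : Spp O g0 := fun x hx => by simp [hg0, hx]
  have hg0φ : ∑ x ∈ O, g0 x * φ x = 0 := by
    have h1 : ∑ x ∈ O, g0 x * φ x = ∑ x ∈ O, φ x * P0 ψ x - l * ∑ x ∈ O, ψ x * φ x := by
      rw [Finset.mul_sum, ← Finset.sum_sub_distrib]
      refine Finset.sum_congr rfl fun x hx => ?_
      simp only [hg0, hx, if_true]
      ring
    rw [h1, hψK.2.1, hsym φ ψ hφ.sp hψs]
    have h2 : ∑ x ∈ O, ψ x * P0 φ x = lam O * ∑ x ∈ O, ψ x * φ x := by
      rw [Finset.mul_sum]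
      exact Finset.sum_congr rfl fun x hx => by rw [hφ.eq x hx]; ring
    rw [h2, hψK.2.1]
    ring
  have h5 := hEL g0 hg0s hg0φ
  have h6 : ∑ x ∈ O, (P0 ψ x - l * ψ x) ^ 2 = 0 := by
    rw [← h5]
    refine Finset.sum_congr rfl fun x hx => ?_
    simp only [hg0, hx, if_true]
    ring
  intro x hx
  have h7 := (Finset.sum_eq_zero_iff_of_nonneg fun x _ => sq_nonneg (P0 ψ x - l * ψ x)).1 h6 x hx
  have h8 := pow_eq_zero_iff (two_ne_zero) |>.1 h7
  linarith

/-- case of a nonnegative second eigenfunction -/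
theorem NOD_same (h_VAR : T_VAR) (hd : 1 ≤ d) (O : Finset (Fin d → R))
    (φ ψ : (Fin d → R) → ℝ) (y l : ℝ) (hφ : Top O φ) (hyl : y < l) (hψ : Spp O ψ)
    (hψφ : ∑ x ∈ O, ψ x * φ x = 0) (he : ∀ x ∈ O, P0 ψ x = l * ψ x) (hnn : ∀ x, 0 ≤ ψ x)
    (hpos : ∃ x, 0 < ψ x) :
    ∃ U₁ U₂ : Finset (Fin d → R), U₁ ⊆ O ∧ U₂ ⊆ O ∧ Disjoint U₁ U₂ ∧ U₁.Nonempty ∧
      U₂.Nonempty ∧ y ≤ lam U₁ ∧ y ≤ lam U₂ := by
  have hl2 : l ≤ lam (O.filter fun x => 0 < ψ x) := NOD_pos h_VAR hd O ψ l hψ he hpos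
  have hφpos : ∃ x, 0 < φ x := by
    by_contra hc
    push Not at hc
    have h1 := hφ.nm
    rw [Finset.sum_eq_zero fun x _ => by
      rw [le_antisymm (hc x) (hφ.nn x)]; ring] at h1
    exact zero_ne_one h1
  have hl1 : lam O ≤ lam (O.filter fun x => 0 < φ x) :=
    NOD_pos h_VAR hd O φ (lam O) hφ.sp hφ.eq hφpos
  have hlO : l ≤ lam O := hl2.trans ((h_VAR d R hd _).2.2.2.1 O (Finset.filter_subset _ _))
  have hO : ∀ (g : (Fin d → R) → ℝ), Spp O g → ∀ x, 0 < g x → x ∈ O := by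
    intro g hg x hx
    by_contra hc
    rw [hg x hc] at hx
    exact lt_irrefl _ hx
  refine ⟨O.filter fun x => 0 < φ x, O.filter fun x => 0 < ψ x, Finset.filter_subset _ _,
    Finset.filter_subset _ _, ?_, ?_, ?_, ?_, ?_⟩
  · rw [Finset.disjoint_left]
    intro x hx hx'
    rw [Finset.mem_filter] at hx hx'
    have h1 := (Finset.sum_eq_zero_iff_of_nonneg
      fun x _ => mul_nonneg (hnn x) (hφ.nn x)).1 hψφ x hx.1
    have h2 : 0 < ψ x * φ x := mul_pos hx'.2 hx.2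
    linarith
  · obtain ⟨x, hx⟩ := hφpos
    exact ⟨x, Finset.mem_filter.2 ⟨hO φ hφ.sp x hx, hx⟩⟩
  · obtain ⟨x, hx⟩ := hpos
    exact ⟨x, Finset.mem_filter.2 ⟨hO ψ hψ x hx, hx⟩⟩
  · linarith
  · linarith

end

theorem p_NOD (h_VAR : T_VAR) : T_NOD := by
  intro d R _ O y hd hS
  unfold Sec at hS
  push Not at hS
  obtain ⟨φ, hφ, f, hf, hfφ, hy⟩ := hS
  obtain ⟨ψ, l, hyl, hψ, hne, hψφ, he⟩ := NOD_second h_VAR hd O φ f y hφ hf hfφ hy
  have hO : ∀ (g : (Fin d → R) → ℝ), Spp O g → ∀ x, 0 < g x → x ∈ O := by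
    intro g hg x hx
    by_contra hc
    rw [hg x hc] at hx
    exact lt_irrefl _ hx
  -- the negative of `ψ`
  have hn : Spp O (fun x => (-1) * ψ x) := fun x hx => by simp only [hψ x hx, mul_zero]
  have hne' : ∀ x ∈ O, P0 (fun x => (-1) * ψ x) x = l * ((-1) * ψ x) := by
    intro x hx
    rw [NOD_P0_smul, he x hx]
    ring
  have hnφ : ∑ x ∈ O, (-1) * ψ x * φ x = 0 := by
    have : ∑ x ∈ O, (-1) * ψ x * φ x = (-1) * ∑ x ∈ O, ψ x * φ x := by
      rw [Finset.mul_sum]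
      exact Finset.sum_congr rfl fun x _ => by ring
    rw [this, hψφ, mul_zero]
  by_cases hp : ∃ x, 0 < ψ x
  · by_cases hm : ∃ x, 0 < (-1) * ψ x
    · refine ⟨O.filter fun x => 0 < ψ x, O.filter fun x => 0 < (-1) * ψ x,
        Finset.filter_subset _ _, Finset.filter_subset _ _, ?_, ?_, ?_, ?_, ?_⟩
      · rw [Finset.disjoint_left]
        intro x hx hx'
        rw [Finset.mem_filter] at hx hx'
        linarith [hx.2, hx'.2]
      · obtain ⟨x, hx⟩ := hp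
        exact ⟨x, Finset.mem_filter.2 ⟨hO ψ hψ x hx, hx⟩⟩
      · obtain ⟨x, hx⟩ := hm
        exact ⟨x, Finset.mem_filter.2 ⟨hO _ hn x hx, hx⟩⟩
      · exact hyl.le.trans (NOD_pos h_VAR hd O ψ l hψ he hp)
      · exact hyl.le.trans (NOD_pos h_VAR hd O _ l hn hne' hm)
    · push Not at hm
      exact NOD_same h_VAR hd O φ ψ y l hφ hyl hψ hψφ he (fun x => by linarith [hm x]) hp
  · push Not at hp
    refine NOD_same h_VAR hd O φ (fun x => (-1) * ψ x) y l hφ hyl hn hnφ hne'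
      (fun x => by linarith [hp x]) ?_
    obtain ⟨x, hx⟩ := hne
    refine ⟨x, ?_⟩
    have h1 : ψ x < 0 := lt_of_le_of_ne (hp x) hx
    linarith

end Pool.Agent.LBL
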