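import Pool.Agent.LBL.Targets1

set_option autoImplicit false

/-!
# LBL: Nash inequality on the torus (job NSH)
-/

open Finset
open scoped Classical

namespace Pool.Agent.LBL

noncomputable section

namespace NSH_

/-- projection of the integer lattice to the torus -/
def cs {d L : ℕ} (y : Fin d → ℤ) : Tor d L := fun i => (y i : ZMod L)

/-- fundamental box -/
def Bx (d L : ℕ) : Finset (Fin d → ℤ) := Fintype.piFinset fun _ => Finset.Ico (0 : ℤ) L

theorem cs_add {d L : ℕ} (y z : Fin d → ℤ) : (cs (y + z) : Tor d L) = cs y + cs z := by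
  funext i; simp [cs]

theorem cs_ev {d L : ℕ} (i : Fin d) : (cs (ev i) : Tor d L) = ev i := by
  funext j
  simp only [cs, ev]
  by_cases h : j = i
  · subst h; simp
  · simp [h]

theorem sum_box {d L : ℕ} [NeZero L] (G : Tor d L → ℝ) : ∑ y ∈ Bx d L, G (cs y) = ∑ x, G x := by
  have hL : (0 : ℤ) < L := by exact_mod_cast Nat.pos_of_ne_zero (NeZero.ne L)
  refine Finset.sum_bij' (fun y _ => cs y) (fun x _ => fun i => ((x i).val : ℤ)) ?_ ?_ ?_ ?_ ?_
  · intro y _; exact Finset.mem_univ _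
  · intro x _
    simp only [Bx, Fintype.mem_piFinset, Finset.mem_Ico]
    intro i
    refine ⟨by positivity, ?_⟩
    exact_mod_cast ZMod.val_lt (x i)
  · intro y hy
    simp only [Bx, Fintype.mem_piFinset, Finset.mem_Ico] at hy
    funext i
    simp only [cs]
    rw [ZMod.val_intCast]
    exact Int.emod_eq_of_lt (hy i).1 (hy i).2
  · intro x _
    funext i
    simp only [cs]
    rw [Int.cast_natCast, ZMod.natCast_zmod_val]
  · intro y _; rfl

/-- cell index -/
def ci (L b : ℕ) (u : ℤ) : ℤ := min (u / b) ((L / b : ℕ) - 1)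

/-- cell length -/
def ln (L b : ℕ) (c : ℤ) : ℤ := if c = (L / b : ℕ) - 1 then L - b * c else b

theorem ln_bd {L b : ℕ} (hb : 1 ≤ b) (c : ℤ) : (b : ℤ) ≤ ln L b c ∧ ln L b c ≤ 2 * b := by
  have h1 : (L : ℤ) = b * (L / b : ℕ) + (L % b : ℕ) := by exact_mod_cast (Nat.div_add_mod L b).symm
  have h2 : ((L % b : ℕ) : ℤ) < b := by exact_mod_cast Nat.mod_lt L (by omega)
  have h3 : (0 : ℤ) ≤ ((L % b : ℕ) : ℤ) := by positivity
  have h4 : (0 : ℤ) ≤ (b : ℤ) := by positivity
  unfold ln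
  split_ifs with h
  · rw [h]
    constructor <;> nlinarith
  · constructor <;> linarith

theorem ci_mem {L b : ℕ} (hb : 1 ≤ b) (hbL : b ≤ L) {u : ℤ} (hu : 0 ≤ u) :
    0 ≤ ci L b u ∧ ci L b u < (L / b : ℕ) := by
  have hk : (1 : ℤ) ≤ ((L / b : ℕ) : ℤ) := by
    exact_mod_cast (Nat.one_le_div_iff (by omega)).2 hbL
  have hb' : (0 : ℤ) < b := by exact_mod_cast hb
  unfold ci
  constructor
  · exact le_min (Int.ediv_nonneg hu hb'.le) (by linarith)
  · exact lt_of_le_of_lt (min_le_right _ _) (by linarith)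

theorem ci_iff {L b : ℕ} (hb : 1 ≤ b) (hbL : b ≤ L) {c : ℤ} (hc : 0 ≤ c) (hc' : c < (L / b : ℕ)) (u : ℤ) :
    ((0 ≤ u ∧ u < L) ∧ ci L b u = c) ↔ (b * c ≤ u ∧ u < b * c + ln L b c) := by
  have h1 : (L : ℤ) = b * (L / b : ℕ) + (L % b : ℕ) := by exact_mod_cast (Nat.div_add_mod L b).symm
  have h2 : ((L % b : ℕ) : ℤ) < b := by exact_mod_cast Nat.mod_lt L (by omega)
  have h3 : (0 : ℤ) ≤ ((L % b : ℕ) : ℤ) := by positivity
  have hb' : (0 : ℤ) < b := by exact_mod_cast hb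
  set k : ℤ := ((L / b : ℕ) : ℤ) with hk
  unfold ci ln
  rw [← hk]
  constructor
  · rintro ⟨⟨hu0, huL⟩, hcu⟩
    by_cases hck : c = k - 1
    · rw [if_pos hck]
      have h5 : c ≤ u / b := by
        rw [← hcu]; exact min_le_left _ _
      have h6 : b * c ≤ u := by
        rw [Int.le_ediv_iff_mul_le hb'] at h5; linarith
      exact ⟨h6, by linarith⟩
    · rw [if_neg hck]
      have h5 : u / b = c := by
        rcases min_choice (u / (b : ℤ)) (k - 1) with h | h
        · rw [← hcu, h]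
        · exact absurd (hcu.symm.trans h) hck
      constructor
      · have : c ≤ u / b := h5.ge
        rw [Int.le_ediv_iff_mul_le hb'] at this; linarith
      · have : u / b < c + 1 := by omega
        rw [Int.ediv_lt_iff_lt_mul hb'] at this; linarith
  · rintro ⟨hl, hr⟩
    have h0 : 0 ≤ (b : ℤ) * c := mul_nonneg hb'.le hc
    have h5 : c ≤ u / b := by
      rw [Int.le_ediv_iff_mul_le hb']; linarith
    by_cases hck : c = k - 1
    · rw [if_pos hck] at hr
      refine ⟨⟨by linarith, by linarith⟩, ?_⟩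
      rw [min_eq_right (by linarith)]; exact hck.symm
    · rw [if_neg hck] at hr
      have h6 : u / b < c + 1 := by
        rw [Int.ediv_lt_iff_lt_mul hb']; linarith
      have h7 : u / b = c := by omega
      have h8 : c + 1 ≤ k - 1 := by omega
      refine ⟨⟨by linarith, ?_⟩, ?_⟩
      · have : (b : ℤ) * (c + 1) ≤ b * (k - 1) := mul_le_mul_of_nonneg_left h8 hb'.le
        nlinarith
      · rw [h7]; exact min_eq_left (by linarith)

/-- cells -/
def Qc (d L b : ℕ) (κ : Fin d → ℤ) : Finset (Fin d → ℤ) :=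
  Fintype.piFinset fun i => Finset.Ico (b * κ i) (b * κ i + ln L b (κ i))

/-- cell indices -/
def Kc (d L b : ℕ) : Finset (Fin d → ℤ) := Fintype.piFinset fun _ => Finset.Ico (0 : ℤ) (L / b : ℕ)

theorem sum_cells {d L b : ℕ} (hb : 1 ≤ b) (hbL : b ≤ L) (G : (Fin d → ℤ) → ℝ) :
    ∑ κ ∈ Kc d L b, ∑ y ∈ Qc d L b κ, G y = ∑ y ∈ Bx d L, G y := by
  rw [← Finset.sum_fiberwise_of_maps_to (s := Bx d L) (t := Kc d L b) (g := fun y i => ci L b (y i))]
  · refine Finset.sum_congr rfl fun κ hκ => ?_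
    simp only [Kc, Fintype.mem_piFinset, Finset.mem_Ico] at hκ
    refine Finset.sum_congr ?_ fun _ _ => rfl
    ext y
    simp only [Qc, Bx, Finset.mem_filter, Fintype.mem_piFinset, Finset.mem_Ico, funext_iff]
    rw [← forall_and]
    exact forall_congr' fun i => (ci_iff hb hbL (hκ i).1 (hκ i).2 (y i)).symm
  · intro y hy
    simp only [Bx, Fintype.mem_piFinset, Finset.mem_Ico] at hy
    simp only [Kc, Fintype.mem_piFinset, Finset.mem_Ico]
    exact fun i => ci_mem hb hbL (hy i).1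

theorem card_Qc {d L b : ℕ} (hb : 1 ≤ b) (κ : Fin d → ℤ) : (b : ℝ) ^ d ≤ (Qc d L b κ).card := by
  have h : b ^ d ≤ (Qc d L b κ).card := by
    unfold Qc
    rw [Fintype.card_piFinset]
    calc b ^ d = ∏ _i : Fin d, b := by simp
      _ ≤ _ := Finset.prod_le_prod' fun i _ => by
          rw [Int.card_Ico]
          have := (ln_bd (L := L) hb (κ i)).1
          omega
  exact_mod_cast h

end NSH_

open NSH_ in
theorem p_NSH (h_POI : T_POI) : T_NSH := by
  intro d hd
  obtain ⟨C, hC, H⟩ := h_POI d hd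
  refine ⟨4 * C, by positivity, ?_⟩
  intro L _ b f hb hbL
  have hb0 : (0 : ℝ) < b := by exact_mod_cast hb
  have hbd : (0 : ℝ) < (b : ℝ) ^ d := by positivity
  have key : ∀ κ ∈ Kc d L b, ∑ y ∈ Qc d L b κ, f (cs y) ^ 2 ≤
      4 * C * (b : ℝ) ^ 2 * (∑ y ∈ Qc d L b κ, ∑ i : Fin d, (f (cs y + ev i) - f (cs y)) ^ 2)
        + (∑ y ∈ Qc d L b κ, |f (cs y)|) ^ 2 / (b : ℝ) ^ d := by
    intro κ _
    have h1 := (H (2 * b) (fun i => b * κ i) (fun i => ln L b (κ i)) (fun y => f (cs y)) (by omega)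
      (fun i => ⟨by have := (ln_bd (L := L) hb (κ i)).1; have : (1 : ℤ) ≤ b := by exact_mod_cast hb
                    linarith, by push_cast; exact (ln_bd hb (κ i)).2⟩)).1
    have hQ : (Fintype.piFinset fun i => Finset.Ico (b * κ i) (b * κ i + ln L b (κ i))) = Qc d L b κ := rfl
    simp only [hQ] at h1
    have h2 : ∑ i : Fin d, ∑ x ∈ (Qc d L b κ).filter (fun x => x + ev i ∈ Qc d L b κ),
        (f (cs (x + ev i)) - f (cs x)) ^ 2 ≤
        ∑ y ∈ Qc d L b κ, ∑ i : Fin d, (f (cs y + ev i) - f (cs y)) ^ 2 := by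
      rw [Finset.sum_comm]
      refine Finset.sum_le_sum fun i _ => ?_
      simp only [cs_add, cs_ev]
      exact Finset.sum_le_sum_of_subset_of_nonneg (Finset.filter_subset _ _) fun _ _ _ => sq_nonneg _
    have h3 : (∑ y ∈ Qc d L b κ, f (cs y)) ^ 2 ≤ (∑ y ∈ Qc d L b κ, |f (cs y)|) ^ 2 := by
      rw [← sq_abs]
      exact pow_le_pow_left₀ (abs_nonneg _) (Finset.abs_sum_le_sum_abs _ _) 2
    have hc := card_Qc (L := L) hb κ
    have h4 : (∑ y ∈ Qc d L b κ, f (cs y)) ^ 2 / (Qc d L b κ).card ≤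
        (∑ y ∈ Qc d L b κ, |f (cs y)|) ^ 2 / (b : ℝ) ^ d :=
      div_le_div₀ (sq_nonneg _) h3 hbd hc
    refine h1.trans (add_le_add ?_ h4)
    push_cast
    have h5 : 0 ≤ C * (2 * (b : ℝ)) ^ 2 := by positivity
    calc _ ≤ C * (2 * (b : ℝ)) ^ 2 * (∑ y ∈ Qc d L b κ, ∑ i : Fin d, (f (cs y + ev i) - f (cs y)) ^ 2) :=
          mul_le_mul_of_nonneg_left h2 h5
      _ = _ := by ring
  have h1 := Finset.sum_le_sum key
  rw [sum_cells hb hbL (fun y => f (cs y) ^ 2), sum_box (fun x => f x ^ 2), Finset.sum_add_distrib,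
    ← Finset.mul_sum, sum_cells hb hbL (fun y => ∑ i : Fin d, (f (cs y + ev i) - f (cs y)) ^ 2),
    sum_box (fun x => ∑ i : Fin d, (f (x + ev i) - f x) ^ 2), Finset.sum_comm, ← Finset.sum_div] at h1
  have h2 : ∑ κ ∈ Kc d L b, (∑ y ∈ Qc d L b κ, |f (cs y)|) ^ 2 ≤ (∑ x, |f x|) ^ 2 := by
    have hS : ∑ κ ∈ Kc d L b, ∑ y ∈ Qc d L b κ, |f (cs y)| = ∑ x, |f x| := by
      rw [sum_cells hb hbL (fun y => |f (cs y)|), sum_box (fun x => |f x|)]
    rw [← hS, pow_two, Finset.sum_mul]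
    refine Finset.sum_le_sum fun κ hκ => ?_
    rw [pow_two]
    refine mul_le_mul_of_nonneg_left ?_ (Finset.sum_nonneg fun _ _ => abs_nonneg _)
    exact Finset.single_le_sum (f := fun κ => ∑ y ∈ Qc d L b κ, |f (cs y)|)
      (fun κ _ => Finset.sum_nonneg fun _ _ => abs_nonneg _) hκ
  have h3 : ip f f = ∑ x, f x ^ 2 := by
    unfold ip; exact Finset.sum_congr rfl fun x _ => by ring
  rw [h3]
  refine h1.trans (add_le_add (le_of_eq ?_) (div_le_div_of_nonneg_right h2 hbd.le))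
  rfl

end

end Pool.Agent.LBL
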