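import Pool.Agent.LBL.Targets2

set_option autoImplicit false
set_option linter.unusedSectionVars false

/-!
# LBL: one closed site, exact identities and inequalities
-/

open Finset
open scoped Classical

namespace Pool.Agent.LBL

namespace ONE_

variable {d L : ℕ} [NeZero L]

lemma P0_add (f g : Tor d L → ℝ) (c : ℝ) (x : Tor d L) :
    P0 (fun y => f y + c * g y) x = P0 f x + c * P0 g x := by
  unfold P0
  rw [← mul_div_assoc, ← add_div]
  congr 1
  rw [Finset.mul_sum, ← Finset.sum_add_distrib]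
  apply Finset.sum_congr rfl
  intro i _
  ring

lemma P0_nonneg (f : Tor d L → ℝ) (hf : ∀ x, 0 ≤ f x) (x : Tor d L) : 0 ≤ P0 f x := by
  unfold P0
  apply div_nonneg
  · exact Finset.sum_nonneg fun i _ => add_nonneg (hf _) (hf _)
  · positivity

/-- delta function -/
noncomputable def dl (z : Tor d L) (x : Tor d L) : ℝ := if x = z then 1 else 0

lemma sum_dl (O : Finset (Tor d L)) (z : Tor d L) (hz : z ∈ O) (g : Tor d L → ℝ) :
    ∑ x ∈ O, dl z x * g x = g z := by
  unfold dl
  rw [Finset.sum_eq_single z]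
  · simp
  · intro b _ hb
    simp [hb]
  · intro h
    exact absurd hz h

lemma dl_sp (O : Finset (Tor d L)) (z : Tor d L) (hz : z ∈ O) : Spp O (dl z) := by
  intro x hx
  unfold dl
  rw [if_neg]
  rintro rfl
  exact hx hz

lemma ip_eq (O : Finset (Tor d L)) (f g : Tor d L → ℝ) (hf : Spp O f) : ip f g = ∑ x ∈ O, f x * g x := by
  unfold ip
  symm
  apply Finset.sum_subset (Finset.subset_univ _)
  intro x _ hx
  rw [hf x hx, zero_mul]

lemma sp_mono {O O' : Finset (Tor d L)} (h : O' ⊆ O) {f : Tor d L → ℝ} (hf : Spp O' f) : Spp O f :=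
  fun x hx => hf x fun h' => hx (h h')

end ONE_

open ONE_ in
theorem p_ONE (h_VAR : T_VAR) : T_ONE := by
  intro d L _ hd _hL O z φo φ hz ho hφ
  obtain ⟨hv1, hv2, hv3, hv4, hv5⟩ := h_VAR d (ZMod L) hd O
  obtain ⟨_, _, hl1, _, _⟩ := h_VAR d (ZMod L) hd (O.erase z)
  obtain ⟨_, _, _, hmono, _⟩ := h_VAR d (ZMod L) hd (O.erase z)
  have hsub : O.erase z ⊆ O := Finset.erase_subset z O
  have hφs : Spp O φ := sp_mono hsub hφ.sp
  have hφz : φ z = 0 := hφ.sp z (by simp)
  have hle : lam (O.erase z) ≤ lam O := hmono O hsub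
  set l : ℝ := lam (O.erase z) with hl
  set lo : ℝ := lam O with hlo
  set a : ℝ := P0 φ z with ha
  set α : ℝ := ip φ φo with hα
  have hαO : ∑ x ∈ O, φ x * φo x = α := (ip_eq O φ φo hφs).symm
  have hαO' : ∑ x ∈ O, φo x * φ x = α := by
    rw [← hαO]
    exact Finset.sum_congr rfl fun x _ => mul_comm _ _
  -- P0 φ on O
  have hP : ∀ x ∈ O, P0 φ x = l * φ x + a * dl z x := by
    intro x hx
    by_cases hxz : x = z
    · subst hxz
      rw [hφz]
      unfold dl
      simp [ha]
    · rw [hφ.eq x (Finset.mem_erase.mpr ⟨hxz, hx⟩)]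
      unfold dl
      simp [hxz, hl]
  -- norms
  have hn : ∑ x ∈ O, φ x * φ x = 1 := by
    rw [← hφ.nm]
    symm
    calc ∑ x ∈ O.erase z, φ x ^ 2 = ∑ x ∈ O.erase z, φ x * φ x :=
          Finset.sum_congr rfl fun x _ => by ring
      _ = ∑ x ∈ O, φ x * φ x := by
          apply Finset.sum_subset hsub
          intro x _ hx
          rw [hφ.sp x hx, zero_mul]
  have hno : ∑ x ∈ O, φo x * φo x = 1 := by
    rw [← ho.nm]
    exact Finset.sum_congr rfl fun x _ => by ring
  -- forms
  have hF1 : ∀ g : Tor d L → ℝ, ∑ x ∈ O, g x * P0 φ x = l * ∑ x ∈ O, g x * φ x + a * g z := by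
    intro g
    have : ∑ x ∈ O, g x * P0 φ x = ∑ x ∈ O, (l * (g x * φ x) + a * (dl z x * g x)) := by
      apply Finset.sum_congr rfl
      intro x hx
      rw [hP x hx]
      ring
    rw [this, Finset.sum_add_distrib, ← Finset.mul_sum, ← Finset.mul_sum, sum_dl O z hz g]
  have hF2 : ∀ g : Tor d L → ℝ, ∑ x ∈ O, g x * P0 φo x = lo * ∑ x ∈ O, g x * φo x := by
    intro g
    rw [Finset.mul_sum]
    apply Finset.sum_congr rfl
    intro x hx
    rw [ho.eq x hx]
    ring
  have hα0 : 0 ≤ α := by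
    rw [← hαO]
    exact Finset.sum_nonneg fun x _ => mul_nonneg (hφ.nn x) (ho.nn x)
  have hα1 : α ≤ 1 := by
    have : ∑ x ∈ O, φ x * φo x ≤ ∑ x ∈ O, ((1 / 2) * (φ x * φ x) + (1 / 2) * (φo x * φo x)) := by
      apply Finset.sum_le_sum
      intro x _
      nlinarith [sq_nonneg (φ x - φo x)]
    rw [Finset.sum_add_distrib, ← Finset.mul_sum, ← Finset.mul_sum, hn, hno, hαO] at this
    linarith
  -- identity
  have hid : (lo - l) * α = a * φo z := by
    have h1 := hF1 φo
    have h2 := hF2 φ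
    have h3 := hv5 φo φ ho.sp hφs
    rw [h1, h2, hαO, hαO'] at h3
    linarith
  refine ⟨hα0, hα1, hle, hid, ?_, ?_⟩
  · -- test function φ + a δ_z
    set f : Tor d L → ℝ := fun x => φ x + a * dl z x with hf
    have hfs : Spp O f := by
      intro x hx
      simp only [hf]
      rw [hφs x hx, dl_sp O z hz x hx]
      ring
    have h1 := hv1 f hfs
    have hdd : dl z z = 1 := by simp [dl]
    have hsq : ∑ x ∈ O, f x ^ 2 = 1 + a ^ 2 := by
      have : ∑ x ∈ O, f x ^ 2 = ∑ x ∈ O, (φ x * φ x + (2 * a) * (dl z x * φ x) + a ^ 2 * (dl z x * dl z x)) := by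
        apply Finset.sum_congr rfl
        intro x _
        simp only [hf]
        ring
      rw [this, Finset.sum_add_distrib, Finset.sum_add_distrib, ← Finset.mul_sum, ← Finset.mul_sum,
        sum_dl O z hz φ, sum_dl O z hz (dl z), hn, hφz, hdd]
      ring
    have hfm : l + 2 * a ^ 2 ≤ ∑ x ∈ O, f x * P0 f x := by
      have e1 : ∑ x ∈ O, f x * P0 f x =
          ∑ x ∈ O, (φ x * P0 φ x + a * (φ x * P0 (dl z) x) + a * (dl z x * P0 φ x) +
            a ^ 2 * (dl z x * P0 (dl z) x)) := by
        apply Finset.sum_congr rfl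
        intro x _
        have : P0 f x = P0 φ x + a * P0 (dl z) x := P0_add φ (dl z) a x
        rw [this]
        simp only [hf]
        ring
      rw [e1, Finset.sum_add_distrib, Finset.sum_add_distrib, Finset.sum_add_distrib, ← Finset.mul_sum,
        ← Finset.mul_sum, ← Finset.mul_sum, sum_dl O z hz (P0 φ), sum_dl O z hz (P0 (dl z)),
        hv5 φ (dl z) hφs (dl_sp O z hz), sum_dl O z hz (P0 φ), hF1 φ, hn, hφz]
      have h0 : 0 ≤ P0 (dl z) z := by
        apply P0_nonneg
        intro x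
        unfold dl
        split_ifs <;> norm_num
      have h2 : 0 ≤ a ^ 2 * P0 (dl z) z := by positivity
      rw [← ha]
      nlinarith
    rw [hsq] at h1
    have h3 : l + 2 * a ^ 2 ≤ lo * (1 + a ^ 2) := hfm.trans h1
    nlinarith [sq_nonneg a]
  · intro y hy
    set f : Tor d L → ℝ := fun x => φ x + (-α) * φo x with hf
    have hfs : Spp O f := by
      intro x hx
      simp only [hf]
      rw [hφs x hx, ho.sp x hx]
      ring
    have horth : ∑ x ∈ O, f x * φo x = 0 := by
      have : ∑ x ∈ O, f x * φo x = ∑ x ∈ O, (φ x * φo x + (-α) * (φo x * φo x)) := by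
        apply Finset.sum_congr rfl
        intro x _
        simp only [hf]
        ring
      rw [this, Finset.sum_add_distrib, ← Finset.mul_sum, hαO, hno]
      ring
    have h1 := hy φo ho f hfs horth
    have hsq : ∑ x ∈ O, f x ^ 2 = 1 - α ^ 2 := by
      have : ∑ x ∈ O, f x ^ 2 = ∑ x ∈ O, (φ x * φ x + (-2 * α) * (φ x * φo x) + α ^ 2 * (φo x * φo x)) := by
        apply Finset.sum_congr rfl
        intro x _
        simp only [hf]
        ring
      rw [this, Finset.sum_add_distrib, Finset.sum_add_distrib, ← Finset.mul_sum, ← Finset.mul_sum, hn,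
        hno, hαO]
      ring
    have hfm : ∑ x ∈ O, f x * P0 f x = l - α ^ 2 * lo := by
      have e1 : ∑ x ∈ O, f x * P0 f x =
          ∑ x ∈ O, (φ x * P0 φ x + (-α) * (φ x * P0 φo x) + (-α) * (φo x * P0 φ x) +
            α ^ 2 * (φo x * P0 φo x)) := by
        apply Finset.sum_congr rfl
        intro x _
        have : P0 f x = P0 φ x + (-α) * P0 φo x := P0_add φ φo (-α) x
        rw [this]
        simp only [hf]
        ring
      rw [e1, Finset.sum_add_distrib, Finset.sum_add_distrib, Finset.sum_add_distrib, ← Finset.mul_sum,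
        ← Finset.mul_sum, ← Finset.mul_sum, hv5 φo φ ho.sp hφs, hF2 φ, hF2 φo, hF1 φ, hn, hno, hαO, hφz]
      ring
    rw [hsq, hfm] at h1
    nlinarith

end Pool.Agent.LBL
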