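import Pool.Agent.LBL.Targets1

set_option autoImplicit false

open Finset
open scoped Classical

namespace Pool.Agent.LBL

theorem OPN_wt_nonneg {X : Type} [Fintype X] (p : ℝ) (h0 : 0 < p) (h1 : p < 1) (O : Finset X) :
    0 ≤ wt p O := by
  unfold wt
  have : 0 ≤ 1 - p := by linarith
  positivity

/-- opening any point, from the mass transport identity -/
theorem p_OPN (h_MTR : T_MTR) : T_OPN := by
  intro X _ _ p h0 h1 A
  have hq : 0 < 1 - p := by linarith
  have hm := (h_MTR X p h0 h1).1 (fun O _ => if A O then (1 : ℝ) else 0)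
  have hL : pr p (fun O => ∃ y, y ∉ O ∧ A (insert y O)) ≤
      ∑ O : Finset X, wt p O * ∑ y ∈ Oᶜ, (if A (insert y O) then (1 : ℝ) else 0) := by
    unfold pr
    refine Finset.sum_le_sum fun O _ => ?_
    have hw := OPN_wt_nonneg p h0 h1 O
    have hs0 : 0 ≤ ∑ y ∈ Oᶜ, (if A (insert y O) then (1 : ℝ) else 0) :=
      Finset.sum_nonneg fun y _ => by split_ifs <;> norm_num
    by_cases h : ∃ y, y ∉ O ∧ A (insert y O)
    · rw [if_pos h]
      obtain ⟨y, hy, hA⟩ := h
      have h2 : (1 : ℝ) ≤ ∑ y ∈ Oᶜ, (if A (insert y O) then (1 : ℝ) else 0) := by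
        have h3 := Finset.single_le_sum (f := fun y => if A (insert y O) then (1 : ℝ) else 0)
          (s := Oᶜ) (fun y _ => by split_ifs <;> norm_num) (Finset.mem_compl.mpr hy)
        simp only [if_pos hA] at h3
        exact h3
      calc wt p O = wt p O * 1 := (mul_one _).symm
        _ ≤ _ := mul_le_mul_of_nonneg_left h2 hw
    · rw [if_neg h]
      exact mul_nonneg hw hs0
  have hR : ∑ O : Finset X, wt p O * ∑ z ∈ O, (if A O then (1 : ℝ) else 0) ≤
      Fintype.card X * pr p A := by
    unfold pr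
    rw [Finset.mul_sum]
    refine Finset.sum_le_sum fun O _ => ?_
    have hw := OPN_wt_nonneg p h0 h1 O
    by_cases h : A O
    · simp only [if_pos h, Finset.sum_const, nsmul_eq_mul, mul_one]
      rw [mul_comm]
      refine mul_le_mul_of_nonneg_right ?_ hw
      exact_mod_cast Finset.card_le_univ O
    · simp [if_neg h]
  have hc : (0 : ℝ) < p / (1 - p) := div_pos h0 hq
  calc pr p (fun O => ∃ y, y ∉ O ∧ A (insert y O))
      ≤ ∑ O : Finset X, wt p O * ∑ y ∈ Oᶜ, (if A (insert y O) then (1 : ℝ) else 0) := hL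
    _ = ((1 - p) / p) * ((p / (1 - p)) *
        ∑ O : Finset X, wt p O * ∑ y ∈ Oᶜ, (if A (insert y O) then (1 : ℝ) else 0)) := by
        rw [← mul_assoc]
        have : (1 - p) / p * (p / (1 - p)) = 1 := by field_simp
        rw [this, one_mul]
    _ = ((1 - p) / p) * ∑ O : Finset X, wt p O * ∑ z ∈ O, (if A O then (1 : ℝ) else 0) := by
        rw [← hm]
    _ ≤ ((1 - p) / p) * (Fintype.card X * pr p A) :=
        mul_le_mul_of_nonneg_left hR (div_pos hq h0).le
    _ = Fintype.card X * ((1 - p) / p) * pr p A := by ring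

end Pool.Agent.LBL
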