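import Pool.Agent.LBL.Targets1

set_option autoImplicit false

/-!
# LBL, proof of T_POI: Poincare inequality in boxes

Hybrid points `POI_z k x y` (coordinates below `k` from `y`, the others from `x`) join `x` to `y`;
the map `(x, y) ↦ (POI_z k x y, POI_z k y x)` is an involution of `Q × Q`.
-/

open Finset
open scoped Classical

namespace Pool.Agent.LBL

noncomputable section

/-- telescoping sum over an integer interval -/
theorem POI_tel (g : ℤ → ℝ) (s t : ℤ) (h : s ≤ t) :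
    ∑ u ∈ Finset.Ico s t, (g (u + 1) - g u) = g t - g s := by
  obtain ⟨n, rfl⟩ : ∃ n : ℕ, t = s + (n : ℤ) := ⟨(t - s).toNat, by omega⟩
  clear h
  induction n with
  | zero => simp
  | succ n ih =>
    have h1 : Finset.Ico s (s + ((n + 1 : ℕ) : ℤ)) =
        insert (s + (n : ℤ)) (Finset.Ico s (s + (n : ℤ))) := by
      ext u
      simp only [Finset.mem_Ico, Finset.mem_insert]
      push_cast
      omega
    rw [h1, Finset.sum_insert (by simp), ih]
    push_cast
    rw [← add_assoc]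
    ring

/-- one-dimensional bound, ordered case -/
theorem POI_line0 (g : ℤ → ℝ) (A l s t : ℤ) (hs : s ∈ Finset.Ico A (A + l))
    (ht : t ∈ Finset.Ico A (A + l)) (h : s ≤ t) :
    (g s - g t) ^ 2 ≤ l * ∑ u ∈ Finset.Ico A (A + l - 1), (g (u + 1) - g u) ^ 2 := by
  rw [Finset.mem_Ico] at hs ht
  have h1 := POI_tel g s t h
  have h2 : (∑ u ∈ Finset.Ico s t, (g (u + 1) - g u)) ^ 2 ≤
      ((Finset.Ico s t).card : ℝ) * ∑ u ∈ Finset.Ico s t, (g (u + 1) - g u) ^ 2 :=
    sq_sum_le_card_mul_sum_sq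
  have h3 : ((Finset.Ico s t).card : ℝ) ≤ l := by
    rw [Int.card_Ico]
    have h4 : (((t - s).toNat : ℕ) : ℤ) ≤ l := by omega
    exact_mod_cast h4
  have h5 : ∑ u ∈ Finset.Ico s t, (g (u + 1) - g u) ^ 2 ≤
      ∑ u ∈ Finset.Ico A (A + l - 1), (g (u + 1) - g u) ^ 2 := by
    refine Finset.sum_le_sum_of_subset_of_nonneg ?_ (fun u _ _ => sq_nonneg _)
    intro u hu
    rw [Finset.mem_Ico] at hu ⊢
    omega
  have h6 : (0 : ℝ) ≤ ∑ u ∈ Finset.Ico s t, (g (u + 1) - g u) ^ 2 :=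
    Finset.sum_nonneg (fun u _ => sq_nonneg _)
  have h7 : (0 : ℝ) ≤ (l : ℝ) := le_trans (by positivity) h3
  calc (g s - g t) ^ 2 = (∑ u ∈ Finset.Ico s t, (g (u + 1) - g u)) ^ 2 := by rw [h1]; ring
    _ ≤ ((Finset.Ico s t).card : ℝ) * ∑ u ∈ Finset.Ico s t, (g (u + 1) - g u) ^ 2 := h2
    _ ≤ l * ∑ u ∈ Finset.Ico s t, (g (u + 1) - g u) ^ 2 := mul_le_mul_of_nonneg_right h3 h6
    _ ≤ l * ∑ u ∈ Finset.Ico A (A + l - 1), (g (u + 1) - g u) ^ 2 :=
        mul_le_mul_of_nonneg_left h5 h7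

/-- one-dimensional bound -/
theorem POI_line (g : ℤ → ℝ) (A l s t : ℤ) (hs : s ∈ Finset.Ico A (A + l))
    (ht : t ∈ Finset.Ico A (A + l)) :
    (g s - g t) ^ 2 ≤ l * ∑ u ∈ Finset.Ico A (A + l - 1), (g (u + 1) - g u) ^ 2 := by
  rcases le_total s t with h | h
  · exact POI_line0 g A l s t hs ht h
  · have h1 := POI_line0 g A l t s ht hs h
    have h2 : (g s - g t) ^ 2 = (g t - g s) ^ 2 := by ring
    rw [h2]
    exact h1

/-- hybrid point -/
def POI_z {d : ℕ} (k : ℕ) (x y : Fin d → ℤ) : Fin d → ℤ := fun i => if (i : ℕ) < k then y i else x i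

theorem POI_z_zero {d : ℕ} (x y : Fin d → ℤ) : POI_z 0 x y = x := by
  funext i
  simp [POI_z]

theorem POI_z_last {d : ℕ} (x y : Fin d → ℤ) : POI_z d x y = y := by
  funext i
  simp [POI_z]

theorem POI_z_succ {d : ℕ} (k : Fin d) (x y : Fin d → ℤ) :
    POI_z ((k : ℕ) + 1) x y = Function.update (POI_z (k : ℕ) x y) k (y k) := by
  funext i
  by_cases h : i = k
  · subst h
    simp [POI_z]
  · rw [Function.update_of_ne h]
    have h1 : (i : ℕ) ≠ (k : ℕ) := fun h' => h (Fin.ext h')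
    unfold POI_z
    by_cases h2 : (i : ℕ) < (k : ℕ)
    · rw [if_pos (by omega), if_pos h2]
    · rw [if_neg (by omega), if_neg h2]

theorem POI_z_inv {d : ℕ} (k : ℕ) (x y : Fin d → ℤ) :
    POI_z k (POI_z k x y) (POI_z k y x) = x := by
  funext i
  unfold POI_z
  by_cases h : (i : ℕ) < k
  · simp [h]
  · simp [h]

theorem POI_z_mem {d : ℕ} (a l : Fin d → ℤ) (k : ℕ) (x y : Fin d → ℤ)
    (hx : x ∈ Fintype.piFinset fun i => Finset.Ico (a i) (a i + l i))
    (hy : y ∈ Fintype.piFinset fun i => Finset.Ico (a i) (a i + l i)) :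
    POI_z k x y ∈ Fintype.piFinset fun i => Finset.Ico (a i) (a i + l i) := by
  rw [Fintype.mem_piFinset] at hx hy ⊢
  intro i
  unfold POI_z
  by_cases h : (i : ℕ) < k
  · rw [if_pos h]; exact hy i
  · rw [if_neg h]; exact hx i

theorem POI_upd_mem {d : ℕ} (a l : Fin d → ℤ) (k : Fin d) (x : Fin d → ℤ) (t : ℤ)
    (hx : x ∈ Fintype.piFinset fun i => Finset.Ico (a i) (a i + l i))
    (ht : t ∈ Finset.Ico (a k) (a k + l k)) :
    Function.update x k t ∈ Fintype.piFinset fun i => Finset.Ico (a i) (a i + l i) := by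
  rw [Fintype.mem_piFinset] at hx ⊢
  intro i
  by_cases h : i = k
  · subst h
    rw [Function.update_self]
    exact ht
  · rw [Function.update_of_ne h]
    exact hx i

theorem POI_upd_ev {d : ℕ} (k : Fin d) (x : Fin d → ℤ) (t : ℤ) :
    Function.update x k t + ev k = Function.update x k (t + 1) := by
  funext i
  by_cases h : i = k
  · subst h
    simp [ev]
  · simp [ev, h]

/-- energy of the line through `z` in direction `k` -/
def POI_S {d : ℕ} (a l : Fin d → ℤ) (f : (Fin d → ℤ) → ℝ) (k : Fin d) (z : Fin d → ℤ) : ℝ :=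
  ∑ u ∈ Finset.Ico (a k) (a k + l k - 1),
    (f (Function.update z k u + ev k) - f (Function.update z k u)) ^ 2

/-- energy in direction `k` -/
def POI_E {d : ℕ} (Q : Finset (Fin d → ℤ)) (f : (Fin d → ℤ) → ℝ) (k : Fin d) : ℝ :=
  ∑ x ∈ Q.filter (fun x => x + ev k ∈ Q), (f (x + ev k) - f x) ^ 2

theorem POI_step {d : ℕ} (a l : Fin d → ℤ) (f : (Fin d → ℤ) → ℝ) (k : Fin d) (z : Fin d → ℤ)
    (t : ℤ) (hz : z ∈ Fintype.piFinset fun i => Finset.Ico (a i) (a i + l i))
    (ht : t ∈ Finset.Ico (a k) (a k + l k)) :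
    (f z - f (Function.update z k t)) ^ 2 ≤ l k * POI_S a l f k z := by
  have h1 := POI_line (fun u => f (Function.update z k u)) (a k) (l k) (z k) t
    (by rw [Fintype.mem_piFinset] at hz; exact hz k) ht
  simp only [Function.update_eq_self] at h1
  unfold POI_S
  simp only [POI_upd_ev]
  exact h1

theorem POI_S_le {d : ℕ} (a l : Fin d → ℤ) (f : (Fin d → ℤ) → ℝ) (k : Fin d) (z : Fin d → ℤ)
    (hz : z ∈ Fintype.piFinset fun i => Finset.Ico (a i) (a i + l i)) :
    POI_S a l f k z ≤ POI_E (Fintype.piFinset fun i => Finset.Ico (a i) (a i + l i)) f k := by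
  unfold POI_S POI_E
  have h1 : ∑ u ∈ Finset.Ico (a k) (a k + l k - 1),
      (f (Function.update z k u + ev k) - f (Function.update z k u)) ^ 2 =
      ∑ x ∈ (Finset.Ico (a k) (a k + l k - 1)).image (fun u => Function.update z k u),
        (f (x + ev k) - f x) ^ 2 := by
    rw [Finset.sum_image]
    intro u _ v _ huv
    exact Function.update_injective z k huv
  rw [h1]
  refine Finset.sum_le_sum_of_subset_of_nonneg ?_ (fun x _ _ => sq_nonneg _)
  intro x hx
  rw [Finset.mem_image] at hx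
  obtain ⟨u, hu, rfl⟩ := hx
  rw [Finset.mem_Ico] at hu
  rw [Finset.mem_filter, POI_upd_ev]
  exact ⟨POI_upd_mem a l k z u hz (by rw [Finset.mem_Ico]; omega),
    POI_upd_mem a l k z (u + 1) hz (by rw [Finset.mem_Ico]; omega)⟩

theorem POI_S_sum {d : ℕ} (a l : Fin d → ℤ) (f : (Fin d → ℤ) → ℝ) (k : Fin d) (hl : 1 ≤ l k) :
    ∑ z ∈ Fintype.piFinset fun i => Finset.Ico (a i) (a i + l i), POI_S a l f k z =
    l k * POI_E (Fintype.piFinset fun i => Finset.Ico (a i) (a i + l i)) f k := by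
  have h0 : (l k : ℝ) = ∑ v ∈ Finset.Ico (a k) (a k + l k), (1 : ℝ) := by
    rw [Finset.sum_const, Int.card_Ico, nsmul_eq_mul, mul_one]
    have h4 : l k = (((a k + l k - a k).toNat : ℕ) : ℤ) := by omega
    exact_mod_cast h4
  unfold POI_S POI_E
  rw [h0, Finset.sum_mul_sum, ← Finset.sum_product', ← Finset.sum_product']
  refine Finset.sum_nbij' (fun q => (q.1 k, Function.update q.1 k q.2))
    (fun q => (Function.update q.2 k q.1, q.2 k)) ?_ ?_ ?_ ?_ ?_
  · rintro ⟨z, u⟩ hq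
    rw [Finset.mem_product] at hq
    obtain ⟨hz, hu⟩ := hq
    dsimp only at hz hu ⊢
    have hz' := hz
    rw [Fintype.mem_piFinset] at hz'
    rw [Finset.mem_Ico] at hu
    rw [Finset.mem_product]
    refine ⟨hz' k, ?_⟩
    dsimp only
    rw [Finset.mem_filter, POI_upd_ev]
    exact ⟨POI_upd_mem a l k z u hz (by rw [Finset.mem_Ico]; omega),
      POI_upd_mem a l k z (u + 1) hz (by rw [Finset.mem_Ico]; omega)⟩
  · rintro ⟨v, x⟩ hq
    rw [Finset.mem_product] at hq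
    obtain ⟨hv, hx⟩ := hq
    dsimp only at hv hx ⊢
    rw [Finset.mem_filter] at hx
    obtain ⟨hx1, hx2⟩ := hx
    rw [Finset.mem_product]
    refine ⟨POI_upd_mem a l k x v hx1 hv, ?_⟩
    dsimp only
    rw [Fintype.mem_piFinset] at hx1 hx2
    have h1 := hx1 k
    have h2 := hx2 k
    simp only [ev, Pi.add_apply, Pi.single_eq_same, Finset.mem_Ico] at h1 h2 ⊢
    omega
  · rintro ⟨z, u⟩ _
    simp
  · rintro ⟨v, x⟩ _
    simp
  · rintro ⟨z, u⟩ _
    simp

theorem POI_tele {d : ℕ} (f : (Fin d → ℤ) → ℝ) (x y : Fin d → ℤ) :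
    (f x - f y) ^ 2 ≤ d * ∑ k : Fin d,
      (f (POI_z (k : ℕ) x y) - f (Function.update (POI_z (k : ℕ) x y) k (y k))) ^ 2 := by
  have h1 : f x - f y = ∑ k : Fin d,
      (f (POI_z (k : ℕ) x y) - f (Function.update (POI_z (k : ℕ) x y) k (y k))) := by
    have h2 : ∑ k ∈ Finset.range d, (f (POI_z k x y) - f (POI_z (k + 1) x y)) = f x - f y := by
      rw [Finset.sum_range_sub' (fun k => f (POI_z k x y)) d, POI_z_zero, POI_z_last]
    rw [← h2, Finset.sum_range]
    refine Finset.sum_congr rfl (fun k _ => ?_)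
    rw [POI_z_succ]
  rw [h1]
  have h3 := sq_sum_le_card_mul_sum_sq (s := (Finset.univ : Finset (Fin d)))
    (f := fun k => f (POI_z (k : ℕ) x y) - f (Function.update (POI_z (k : ℕ) x y) k (y k)))
  simpa using h3

/-- double sum of one step of the path -/
theorem POI_dbl {d : ℕ} (b : ℕ) (a l : Fin d → ℤ) (f : (Fin d → ℤ) → ℝ) (k : Fin d)
    (hl : 1 ≤ l k ∧ l k ≤ b) :
    ∑ x ∈ Fintype.piFinset fun i => Finset.Ico (a i) (a i + l i),
      ∑ y ∈ Fintype.piFinset fun i => Finset.Ico (a i) (a i + l i),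
      (f (POI_z (k : ℕ) x y) - f (Function.update (POI_z (k : ℕ) x y) k (y k))) ^ 2 ≤
    ((Fintype.piFinset fun i => Finset.Ico (a i) (a i + l i)).card : ℝ) * ((b : ℝ) ^ 2 *
      POI_E (Fintype.piFinset fun i => Finset.Ico (a i) (a i + l i)) f k) := by
  set Q : Finset (Fin d → ℤ) := Fintype.piFinset fun i => Finset.Ico (a i) (a i + l i) with hQ
  have h1 : ∑ x ∈ Q, ∑ y ∈ Q,
      (f (POI_z (k : ℕ) x y) - f (Function.update (POI_z (k : ℕ) x y) k (y k))) ^ 2 =
      ∑ x ∈ Q, ∑ y ∈ Q, (f x - f (Function.update x k (y k))) ^ 2 := by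
    rw [← Finset.sum_product', ← Finset.sum_product']
    refine Finset.sum_nbij' (fun q => (POI_z (k : ℕ) q.1 q.2, POI_z (k : ℕ) q.2 q.1))
      (fun q => (POI_z (k : ℕ) q.1 q.2, POI_z (k : ℕ) q.2 q.1)) ?_ ?_ ?_ ?_ ?_
    · rintro ⟨x, y⟩ hq
      rw [Finset.mem_product] at hq ⊢
      exact ⟨POI_z_mem a l k x y hq.1 hq.2, POI_z_mem a l k y x hq.2 hq.1⟩
    · rintro ⟨x, y⟩ hq
      rw [Finset.mem_product] at hq ⊢
      exact ⟨POI_z_mem a l k x y hq.1 hq.2, POI_z_mem a l k y x hq.2 hq.1⟩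
    · rintro ⟨x, y⟩ _
      simp only [POI_z_inv]
    · rintro ⟨x, y⟩ _
      simp only [POI_z_inv]
    · rintro ⟨x, y⟩ _
      have h2 : POI_z (k : ℕ) y x k = y k := by simp [POI_z]
      simp only [h2]
  rw [h1]
  have hlr : (l k : ℝ) ≤ (b : ℝ) := by exact_mod_cast hl.2
  have hl0 : (0 : ℝ) ≤ (l k : ℝ) := by exact_mod_cast (by omega : (0 : ℤ) ≤ l k)
  have hE0 : 0 ≤ POI_E Q f k := Finset.sum_nonneg (fun x _ => sq_nonneg _)
  calc ∑ x ∈ Q, ∑ y ∈ Q, (f x - f (Function.update x k (y k))) ^ 2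
      ≤ ∑ x ∈ Q, ∑ y ∈ Q, (l k : ℝ) * POI_S a l f k x := by
        refine Finset.sum_le_sum (fun x hx => Finset.sum_le_sum (fun y hy => ?_))
        refine POI_step a l f k x (y k) hx ?_
        rw [hQ, Fintype.mem_piFinset] at hy
        exact hy k
    _ = (Q.card : ℝ) * ((l k : ℝ) * ∑ x ∈ Q, POI_S a l f k x) := by
        simp only [Finset.sum_const, nsmul_eq_mul]
        rw [Finset.mul_sum, Finset.mul_sum]
    _ = (Q.card : ℝ) * ((l k : ℝ) * ((l k : ℝ) * POI_E Q f k)) := by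
        rw [hQ, POI_S_sum a l f k hl.1]
    _ ≤ (Q.card : ℝ) * ((b : ℝ) ^ 2 * POI_E Q f k) := by
        refine mul_le_mul_of_nonneg_left ?_ (by positivity)
        have h3 : (l k : ℝ) * (l k : ℝ) ≤ (b : ℝ) ^ 2 := by nlinarith
        calc (l k : ℝ) * ((l k : ℝ) * POI_E Q f k) = ((l k : ℝ) * (l k : ℝ)) * POI_E Q f k := by
              ring
          _ ≤ (b : ℝ) ^ 2 * POI_E Q f k := mul_le_mul_of_nonneg_right h3 hE0

theorem POI_card_le {d : ℕ} (b : ℕ) (a l : Fin d → ℤ) (hl : ∀ i, 1 ≤ l i ∧ l i ≤ b) :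
    ((Fintype.piFinset fun i => Finset.Ico (a i) (a i + l i)).card : ℝ) ≤ (b : ℝ) ^ d := by
  have h1 : (Fintype.piFinset fun i => Finset.Ico (a i) (a i + l i)).card ≤ b ^ d := by
    rw [Fintype.card_piFinset]
    calc ∏ i : Fin d, (Finset.Ico (a i) (a i + l i)).card ≤ ∏ _i : Fin d, b := by
          refine Finset.prod_le_prod' (fun i _ => ?_)
          rw [Int.card_Ico]
          have := hl i
          omega
      _ = b ^ d := by simp
  exact_mod_cast h1

/-- Poincare inequality in boxes. -/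
theorem p_POI : T_POI := by
  intro d hd
  refine ⟨d, by exact_mod_cast (by omega : 0 < d), ?_⟩
  intro b a l f hb hl Q E
  have hEE : E = ∑ k : Fin d, POI_E Q f k := rfl
  have hE0 : 0 ≤ E := by
    rw [hEE]
    exact Finset.sum_nonneg (fun k _ => Finset.sum_nonneg (fun x _ => sq_nonneg _))
  have hd0 : (0 : ℝ) ≤ (d : ℝ) := by positivity
  have hb1 : (1 : ℝ) ≤ (b : ℝ) := by exact_mod_cast hb
  have hQne : Q.Nonempty := by
    refine ⟨a, ?_⟩
    rw [Fintype.mem_piFinset]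
    intro i
    rw [Finset.mem_Ico]
    have := hl i
    omega
  have hQ0 : (0 : ℝ) < (Q.card : ℝ) := by exact_mod_cast hQne.card_pos
  constructor
  · -- double sum
    have h1 : ∑ x ∈ Q, ∑ y ∈ Q, (f x - f y) ^ 2 ≤ (Q.card : ℝ) * (d * ((b : ℝ) ^ 2 * E)) := by
      calc ∑ x ∈ Q, ∑ y ∈ Q, (f x - f y) ^ 2
          ≤ ∑ x ∈ Q, ∑ y ∈ Q, (d : ℝ) * ∑ k : Fin d,
            (f (POI_z (k : ℕ) x y) - f (Function.update (POI_z (k : ℕ) x y) k (y k))) ^ 2 :=
            Finset.sum_le_sum (fun x _ => Finset.sum_le_sum (fun y _ => POI_tele f x y))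
        _ = (d : ℝ) * ∑ k : Fin d, ∑ x ∈ Q, ∑ y ∈ Q,
            (f (POI_z (k : ℕ) x y) - f (Function.update (POI_z (k : ℕ) x y) k (y k))) ^ 2 := by
            simp only [← Finset.mul_sum]
            congr 1
            rw [Finset.sum_comm]
            rw [show (∑ k : Fin d, ∑ x ∈ Q, ∑ y ∈ Q,
              (f (POI_z (k : ℕ) x y) - f (Function.update (POI_z (k : ℕ) x y) k (y k))) ^ 2) =
              ∑ x ∈ Q, ∑ k : Fin d, ∑ y ∈ Q,
              (f (POI_z (k : ℕ) x y) - f (Function.update (POI_z (k : ℕ) x y) k (y k))) ^ 2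
              from Finset.sum_comm]
            rw [Finset.sum_comm]
            refine Finset.sum_congr rfl (fun x _ => ?_)
            exact Finset.sum_comm
        _ ≤ (d : ℝ) * ∑ k : Fin d, (Q.card : ℝ) * ((b : ℝ) ^ 2 * POI_E Q f k) := by
            refine mul_le_mul_of_nonneg_left ?_ hd0
            exact Finset.sum_le_sum (fun k _ => POI_dbl b a l f k (hl k))
        _ = (Q.card : ℝ) * (d * ((b : ℝ) ^ 2 * E)) := by
            rw [hEE]
            simp only [← Finset.mul_sum]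
            ring
    have h2 : ∑ x ∈ Q, ∑ y ∈ Q, (f x - f y) ^ 2 =
        2 * (Q.card : ℝ) * ∑ x ∈ Q, f x ^ 2 - 2 * (∑ x ∈ Q, f x) ^ 2 := by
      have h3 : ∀ x ∈ Q, ∑ y ∈ Q, (f x - f y) ^ 2 =
          (Q.card : ℝ) * f x ^ 2 - 2 * f x * ∑ y ∈ Q, f y + ∑ y ∈ Q, f y ^ 2 := by
        intro x _
        have h4 : ∀ y ∈ Q, (f x - f y) ^ 2 = f x ^ 2 - 2 * f x * f y + f y ^ 2 := by
          intro y _
          ring
        rw [Finset.sum_congr rfl h4, Finset.sum_add_distrib, Finset.sum_sub_distrib,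
          Finset.sum_const, nsmul_eq_mul, ← Finset.mul_sum]
      rw [Finset.sum_congr rfl h3, Finset.sum_add_distrib, Finset.sum_sub_distrib,
        ← Finset.mul_sum, Finset.sum_const, nsmul_eq_mul, ← Finset.sum_mul, ← Finset.mul_sum]
      ring
    rw [h2] at h1
    have h5 : (Q.card : ℝ) * ∑ x ∈ Q, f x ^ 2 ≤
        (Q.card : ℝ) * (d * (b : ℝ) ^ 2 * E) + (∑ x ∈ Q, f x) ^ 2 := by
      have h6 : 0 ≤ (Q.card : ℝ) * (d * ((b : ℝ) ^ 2 * E)) := by positivity
      nlinarith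
    have h7 : (Q.card : ℝ) * (d * (b : ℝ) ^ 2 * E + (∑ x ∈ Q, f x) ^ 2 / (Q.card : ℝ)) =
        (Q.card : ℝ) * (d * (b : ℝ) ^ 2 * E) + (∑ x ∈ Q, f x) ^ 2 := by
      field_simp
    rw [← h7] at h5
    exact le_of_mul_le_mul_left h5 hQ0
  · rintro ⟨x0, hx0, hf0⟩
    have h1 : ∀ x ∈ Q, f x ^ 2 ≤ d * (b * E) := by
      intro x hx
      have h2 := POI_tele f x x0
      rw [hf0, sub_zero] at h2
      refine h2.trans (mul_le_mul_of_nonneg_left ?_ hd0)
      rw [hEE, Finset.mul_sum]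
      refine Finset.sum_le_sum (fun k _ => ?_)
      have hx0k : x0 k ∈ Finset.Ico (a k) (a k + l k) := by
        have := hx0
        rw [Fintype.mem_piFinset] at this
        exact this k
      have hm := POI_z_mem a l (k : ℕ) x x0 hx hx0
      have h3 := POI_step a l f k (POI_z (k : ℕ) x x0) (x0 k) hm hx0k
      have h4 := POI_S_le a l f k (POI_z (k : ℕ) x x0) hm
      have h5 : (l k : ℝ) ≤ (b : ℝ) := by exact_mod_cast (hl k).2
      have h6 : (0 : ℝ) ≤ POI_S a l f k (POI_z (k : ℕ) x x0) :=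
        Finset.sum_nonneg (fun u _ => sq_nonneg _)
      calc _ ≤ (l k : ℝ) * POI_S a l f k (POI_z (k : ℕ) x x0) := h3
        _ ≤ (b : ℝ) * POI_S a l f k (POI_z (k : ℕ) x x0) := mul_le_mul_of_nonneg_right h5 h6
        _ ≤ (b : ℝ) * POI_E Q f k := mul_le_mul_of_nonneg_left h4 (by positivity)
    have h8 := POI_card_le b a l hl
    calc ∑ x ∈ Q, f x ^ 2 ≤ ∑ _x ∈ Q, d * (b * E) := Finset.sum_le_sum h1
      _ = (Q.card : ℝ) * (d * (b * E)) := by rw [Finset.sum_const, nsmul_eq_mul]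
      _ ≤ (b : ℝ) ^ d * (d * (b * E)) := mul_le_mul_of_nonneg_right h8 (by positivity)
      _ = d * (b : ℝ) ^ (d + 1) * E := by ring

end

end Pool.Agent.LBL
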