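import Pool.Agent.LBL.Targets2

set_option autoImplicit false

/-!
# LBL: pointwise bound by the energy (T_POT)

For a point `z`, a direction `i` and directions `j` (and `k`), let `A r` be the average of `v` over the cross-section
`z + r e_i + s e_j (+ t e_k)`, `0 <= s (, t) <= r`. The squares of the increments of `A` are at most
`C (r+1)^{-1}` (resp. `C (r+1)^{-2}`) times the energy of the edges of the layer, and these edges are disjoint.
Moving the cross-section by `n` in direction `i` costs at most the energy.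
-/

open Finset
open scoped Classical

namespace Pool.Agent.LBL

noncomputable section

namespace POT_

/-- summation by parts -/
theorem parts (h : ℕ → ℝ) (n : ℕ) :
    ∑ s ∈ range n, ((s : ℝ) + 1) * (h (s + 1) - h s) = n * h n - ∑ s ∈ range n, h s := by
  induction n with
  | zero => simp
  | succ n ih =>
    rw [sum_range_succ, sum_range_succ, ih]
    push_cast
    ring

/-- average squared -/
theorem jensen (f : ℕ → ℝ) (n : ℕ) :
    ((∑ s ∈ range (n + 1), f s) / ((n : ℝ) + 1)) ^ 2 ≤ 1 / ((n : ℝ) + 1) * ∑ s ∈ range (n + 1), f s ^ 2 := by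
  have h := sq_sum_le_card_mul_sum_sq (s := range (n + 1)) (f := f)
  rw [card_range] at h
  push_cast at h
  have hn : (0 : ℝ) < (n : ℝ) + 1 := by positivity
  rw [div_pow, div_le_iff₀ (by positivity)]
  calc (∑ s ∈ range (n + 1), f s) ^ 2 ≤ ((n : ℝ) + 1) * ∑ s ∈ range (n + 1), f s ^ 2 := h
    _ = 1 / ((n : ℝ) + 1) * (∑ s ∈ range (n + 1), f s ^ 2) * ((n : ℝ) + 1) ^ 2 := by
      field_simp

/-- spreading an average -/
theorem spread (h : ℕ → ℝ) (n : ℕ) :
    ((∑ s ∈ range (n + 2), h s) / ((n : ℝ) + 2) - (∑ s ∈ range (n + 1), h s) / ((n : ℝ) + 1)) ^ 2 ≤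
      1 / ((n : ℝ) + 1) * ∑ s ∈ range (n + 1), (h (s + 1) - h s) ^ 2 := by
  have hn : (0 : ℝ) < (n : ℝ) + 1 := by positivity
  have hn2 : (0 : ℝ) < (n : ℝ) + 2 := by positivity
  have e : (∑ s ∈ range (n + 2), h s) / ((n : ℝ) + 2) - (∑ s ∈ range (n + 1), h s) / ((n : ℝ) + 1) =
      ∑ s ∈ range (n + 1), (((s : ℝ) + 1) / (((n : ℝ) + 1) * ((n : ℝ) + 2))) * (h (s + 1) - h s) := by
    have h1 : ∑ s ∈ range (n + 1), (((s : ℝ) + 1) / (((n : ℝ) + 1) * ((n : ℝ) + 2))) * (h (s + 1) - h s) =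
        (∑ s ∈ range (n + 1), ((s : ℝ) + 1) * (h (s + 1) - h s)) / (((n : ℝ) + 1) * ((n : ℝ) + 2)) := by
      rw [sum_div]
      refine sum_congr rfl fun s _ => ?_
      ring
    rw [h1, parts, sum_range_succ _ (n + 1)]
    push_cast
    field_simp
    ring
  rw [e]
  refine (sum_mul_sq_le_sq_mul_sq _ _ _).trans ?_
  refine mul_le_mul_of_nonneg_right ?_ (sum_nonneg fun _ _ => sq_nonneg _)
  calc ∑ s ∈ range (n + 1), (((s : ℝ) + 1) / (((n : ℝ) + 1) * ((n : ℝ) + 2))) ^ 2
      ≤ ∑ _s ∈ range (n + 1), (1 / ((n : ℝ) + 1)) ^ 2 := by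
        refine sum_le_sum fun s hs => ?_
        refine pow_le_pow_left₀ (by positivity) ?_ 2
        have hs' : (s : ℝ) + 1 ≤ (n : ℝ) + 1 := by
          have := mem_range.1 hs
          exact_mod_cast this
        rw [div_le_div_iff₀ (by positivity) hn]
        nlinarith
    _ = 1 / ((n : ℝ) + 1) := by
        rw [sum_const, card_range, nsmul_eq_mul]
        push_cast
        field_simp

/-- Cauchy-Schwarz with weights -/
theorem cs (D c E : ℕ → ℝ) (n : ℕ) (hc : ∀ r, 0 ≤ c r) (hE : ∀ r, 0 ≤ E r) (h : ∀ r, D r ^ 2 ≤ c r * E r) :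
    (∑ r ∈ range n, D r) ^ 2 ≤ (∑ r ∈ range n, c r) * ∑ r ∈ range n, E r := by
  exact sum_sq_le_sum_mul_sum_of_sq_le_mul _ (fun r _ => hc r) (fun r _ => hE r) (fun r _ => h r)

/-- telescoping -/
theorem tele (A c E : ℕ → ℝ) (n : ℕ) (hc : ∀ r, 0 ≤ c r) (hE : ∀ r, 0 ≤ E r)
    (h : ∀ r, (A (r + 1) - A r) ^ 2 ≤ c r * E r) :
    (A n - A 0) ^ 2 ≤ (∑ r ∈ range n, c r) * ∑ r ∈ range n, E r := by
  rw [← sum_range_sub]
  exact cs _ c E n hc hE h

/-- two-dimensional cone -/
theorem cone2 (g : ℕ → ℕ → ℝ) (n : ℕ) :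
    ((∑ t ∈ range (n + 1), g n t) / ((n : ℝ) + 1) - g 0 0) ^ 2 ≤
      (∑ r ∈ range n, 2 / ((r : ℝ) + 1)) *
        ∑ r ∈ range n, (∑ t ∈ range (r + 1), (g (r + 1) t - g r t) ^ 2 +
          ∑ t ∈ range (r + 1), (g (r + 1) (t + 1) - g (r + 1) t) ^ 2) := by
  have h := tele (fun r => (∑ t ∈ range (r + 1), g r t) / ((r : ℝ) + 1)) (fun r => 2 / ((r : ℝ) + 1))
    (fun r => ∑ t ∈ range (r + 1), (g (r + 1) t - g r t) ^ 2 +
          ∑ t ∈ range (r + 1), (g (r + 1) (t + 1) - g (r + 1) t) ^ 2) n (fun r => by positivity)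
    (fun r => by positivity) ?_
  · simpa using h
  · intro r
    have h1 := jensen (fun t => g (r + 1) t - g r t) r
    have h2 := spread (g (r + 1)) r
    have e : (∑ t ∈ range (r + 1 + 1), g (r + 1) t) / (((r + 1 : ℕ) : ℝ) + 1) -
        (∑ t ∈ range (r + 1), g r t) / ((r : ℝ) + 1) =
        ((∑ s ∈ range (r + 2), g (r + 1) s) / ((r : ℝ) + 2) - (∑ s ∈ range (r + 1), g (r + 1) s) / ((r : ℝ) + 1)) +
          (∑ t ∈ range (r + 1), (g (r + 1) t - g r t)) / ((r : ℝ) + 1) := by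
      rw [sum_sub_distrib]
      push_cast
      have : (r : ℝ) + 1 + 1 = r + 2 := by ring
      rw [this]
      ring
    show ((∑ t ∈ range (r + 1 + 1), g (r + 1) t) / (((r + 1 : ℕ) : ℝ) + 1) -
        (∑ t ∈ range (r + 1), g r t) / ((r : ℝ) + 1)) ^ 2 ≤ _
    rw [e]
    set a := (∑ s ∈ range (r + 2), g (r + 1) s) / ((r : ℝ) + 2) - (∑ s ∈ range (r + 1), g (r + 1) s) / ((r : ℝ) + 1)
    set b := (∑ t ∈ range (r + 1), (g (r + 1) t - g r t)) / ((r : ℝ) + 1)
    have h3 : (a + b) ^ 2 ≤ 2 * (a ^ 2 + b ^ 2) := by nlinarith [sq_nonneg (a - b)]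
    refine h3.trans ?_
    calc 2 * (a ^ 2 + b ^ 2) ≤ 2 * (1 / ((r : ℝ) + 1) * ∑ s ∈ range (r + 1), (g (r + 1) (s + 1) - g (r + 1) s) ^ 2 +
          1 / ((r : ℝ) + 1) * ∑ s ∈ range (r + 1), (g (r + 1) s - g r s) ^ 2) := by linarith
      _ = _ := by ring

/-- three-dimensional cone -/
theorem cone3 (g : ℕ → ℕ → ℕ → ℝ) (n : ℕ) :
    ((∑ s ∈ range (n + 1), ∑ t ∈ range (n + 1), g n s t) / ((n : ℝ) + 1) ^ 2 - g 0 0 0) ^ 2 ≤
      (∑ r ∈ range n, 3 / ((r : ℝ) + 1) ^ 2) *
        ∑ r ∈ range n, (∑ s ∈ range (r + 1), ∑ t ∈ range (r + 1), (g (r + 1) s t - g r s t) ^ 2 +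
          ∑ t ∈ range (r + 1), ∑ s ∈ range (r + 1), (g (r + 1) (s + 1) t - g (r + 1) s t) ^ 2 +
          ∑ s ∈ range (r + 2), ∑ t ∈ range (r + 1), (g (r + 1) s (t + 1) - g (r + 1) s t) ^ 2) := by
  have h := tele (fun r => (∑ s ∈ range (r + 1), ∑ t ∈ range (r + 1), g r s t) / ((r : ℝ) + 1) ^ 2)
    (fun r => 3 / ((r : ℝ) + 1) ^ 2)
    (fun r => ∑ s ∈ range (r + 1), ∑ t ∈ range (r + 1), (g (r + 1) s t - g r s t) ^ 2 +
          ∑ t ∈ range (r + 1), ∑ s ∈ range (r + 1), (g (r + 1) (s + 1) t - g (r + 1) s t) ^ 2 +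
          ∑ s ∈ range (r + 2), ∑ t ∈ range (r + 1), (g (r + 1) s (t + 1) - g (r + 1) s t) ^ 2) n
    (fun r => by positivity) (fun r => by positivity) ?_
  · simpa using h
  · intro r
    have hr : (0 : ℝ) < (r : ℝ) + 1 := by positivity
    have hr2 : (0 : ℝ) < (r : ℝ) + 2 := by positivity
    -- first increment
    have h1 : ((∑ s ∈ range (r + 1), (∑ t ∈ range (r + 1), (g (r + 1) s t - g r s t)) / ((r : ℝ) + 1)) /
        ((r : ℝ) + 1)) ^ 2 ≤ 1 / ((r : ℝ) + 1) ^ 2 *
          ∑ s ∈ range (r + 1), ∑ t ∈ range (r + 1), (g (r + 1) s t - g r s t) ^ 2 := by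
      refine (jensen _ r).trans ?_
      calc 1 / ((r : ℝ) + 1) * ∑ s ∈ range (r + 1), ((∑ t ∈ range (r + 1), (g (r + 1) s t - g r s t)) / ((r : ℝ) + 1)) ^ 2
          ≤ 1 / ((r : ℝ) + 1) * ∑ s ∈ range (r + 1), (1 / ((r : ℝ) + 1) *
            ∑ t ∈ range (r + 1), (g (r + 1) s t - g r s t) ^ 2) := by
            refine mul_le_mul_of_nonneg_left (sum_le_sum fun s _ => ?_) (by positivity)
            exact jensen (fun t => g (r + 1) s t - g r s t) r
        _ = _ := by
            rw [← mul_sum, ← mul_assoc]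
            congr 1
            field_simp
    have h2 : ((∑ t ∈ range (r + 1), ((∑ s ∈ range (r + 2), g (r + 1) s t) / ((r : ℝ) + 2) -
        (∑ s ∈ range (r + 1), g (r + 1) s t) / ((r : ℝ) + 1))) /
        ((r : ℝ) + 1)) ^ 2 ≤ 1 / ((r : ℝ) + 1) ^ 2 *
          ∑ t ∈ range (r + 1), ∑ s ∈ range (r + 1), (g (r + 1) (s + 1) t - g (r + 1) s t) ^ 2 := by
      refine (jensen _ r).trans ?_
      calc 1 / ((r : ℝ) + 1) * ∑ t ∈ range (r + 1), ((∑ s ∈ range (r + 2), g (r + 1) s t) / ((r : ℝ) + 2) -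
        (∑ s ∈ range (r + 1), g (r + 1) s t) / ((r : ℝ) + 1)) ^ 2
          ≤ 1 / ((r : ℝ) + 1) * ∑ t ∈ range (r + 1), (1 / ((r : ℝ) + 1) *
            ∑ s ∈ range (r + 1), (g (r + 1) (s + 1) t - g (r + 1) s t) ^ 2) := by
            refine mul_le_mul_of_nonneg_left (sum_le_sum fun t _ => ?_) (by positivity)
            exact spread (fun s => g (r + 1) s t) r
        _ = _ := by
            rw [← mul_sum, ← mul_assoc]
            congr 1
            field_simp
    have h3 : ((∑ s ∈ range (r + 2), ((∑ t ∈ range (r + 2), g (r + 1) s t) / ((r : ℝ) + 2) -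
        (∑ t ∈ range (r + 1), g (r + 1) s t) / ((r : ℝ) + 1))) /
        ((r : ℝ) + 2)) ^ 2 ≤ 1 / ((r : ℝ) + 1) ^ 2 *
          ∑ s ∈ range (r + 2), ∑ t ∈ range (r + 1), (g (r + 1) s (t + 1) - g (r + 1) s t) ^ 2 := by
      have hj := jensen (fun s => (∑ t ∈ range (r + 2), g (r + 1) s t) / ((r : ℝ) + 2) -
        (∑ t ∈ range (r + 1), g (r + 1) s t) / ((r : ℝ) + 1)) (r + 1)
      have e1 : ((r + 1 : ℕ) : ℝ) + 1 = (r : ℝ) + 2 := by push_cast; ring
      rw [e1] at hj
      refine hj.trans ?_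
      calc 1 / ((r : ℝ) + 2) * ∑ s ∈ range (r + 1 + 1), ((∑ t ∈ range (r + 2), g (r + 1) s t) / ((r : ℝ) + 2) -
        (∑ t ∈ range (r + 1), g (r + 1) s t) / ((r : ℝ) + 1)) ^ 2
          ≤ 1 / ((r : ℝ) + 1) * ∑ s ∈ range (r + 2), (1 / ((r : ℝ) + 1) *
            ∑ t ∈ range (r + 1), (g (r + 1) s (t + 1) - g (r + 1) s t) ^ 2) := by
            refine mul_le_mul ?_ (sum_le_sum fun s _ => ?_) (by positivity) (by positivity)
            · exact one_div_le_one_div_of_le hr (by linarith)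
            · exact spread (fun t => g (r + 1) s t) r
        _ = _ := by
            rw [← mul_sum, ← mul_assoc]
            congr 1
            field_simp
    have e : (∑ s ∈ range (r + 1 + 1), ∑ t ∈ range (r + 1 + 1), g (r + 1) s t) / (((r + 1 : ℕ) : ℝ) + 1) ^ 2 -
        (∑ s ∈ range (r + 1), ∑ t ∈ range (r + 1), g r s t) / ((r : ℝ) + 1) ^ 2 =
        ((∑ s ∈ range (r + 1), (∑ t ∈ range (r + 1), (g (r + 1) s t - g r s t)) / ((r : ℝ) + 1)) /
        ((r : ℝ) + 1)) + ((∑ t ∈ range (r + 1), ((∑ s ∈ range (r + 2), g (r + 1) s t) / ((r : ℝ) + 2) -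
        (∑ s ∈ range (r + 1), g (r + 1) s t) / ((r : ℝ) + 1))) /
        ((r : ℝ) + 1)) + ((∑ s ∈ range (r + 2), ((∑ t ∈ range (r + 2), g (r + 1) s t) / ((r : ℝ) + 2) -
        (∑ t ∈ range (r + 1), g (r + 1) s t) / ((r : ℝ) + 1))) /
        ((r : ℝ) + 2)) := by
      have e1 : ((r + 1 : ℕ) : ℝ) + 1 = (r : ℝ) + 2 := by push_cast; ring
      rw [e1]
      simp only [sum_sub_distrib, ← sum_div]
      rw [sum_comm (s := range (r + 1)) (t := range (r + 2)) (f := fun t s => g (r + 1) s t),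
        sum_comm (s := range (r + 1)) (t := range (r + 1)) (f := fun t s => g (r + 1) s t)]
      field_simp
      ring
    show ((∑ s ∈ range (r + 1 + 1), ∑ t ∈ range (r + 1 + 1), g (r + 1) s t) / (((r + 1 : ℕ) : ℝ) + 1) ^ 2 -
        (∑ s ∈ range (r + 1), ∑ t ∈ range (r + 1), g r s t) / ((r : ℝ) + 1) ^ 2) ^ 2 ≤ _
    rw [e]
    generalize ((∑ s ∈ range (r + 1), (∑ t ∈ range (r + 1), (g (r + 1) s t - g r s t)) / ((r : ℝ) + 1)) /
        ((r : ℝ) + 1)) = a at h1 ⊢
    generalize ((∑ t ∈ range (r + 1), ((∑ s ∈ range (r + 2), g (r + 1) s t) / ((r : ℝ) + 2) -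
        (∑ s ∈ range (r + 1), g (r + 1) s t) / ((r : ℝ) + 1))) /
        ((r : ℝ) + 1)) = b at h2 ⊢
    generalize ((∑ s ∈ range (r + 2), ((∑ t ∈ range (r + 2), g (r + 1) s t) / ((r : ℝ) + 2) -
        (∑ t ∈ range (r + 1), g (r + 1) s t) / ((r : ℝ) + 1))) /
        ((r : ℝ) + 2)) = c at h3 ⊢
    have h4 : (a + b + c) ^ 2 ≤ 3 * (a ^ 2 + b ^ 2 + c ^ 2) := by
      nlinarith [sq_nonneg (a - b), sq_nonneg (b - c), sq_nonneg (a - c)]
    refine h4.trans ?_
    have h5 := mul_le_mul_of_nonneg_left (add_le_add (add_le_add h1 h2) h3) (by norm_num : (0 : ℝ) ≤ 3)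
    refine h5.trans (le_of_eq ?_)
    ring

/-! ### The torus -/

set_option linter.unusedSectionVars false

variable {d L : ℕ} [NeZero L]

omit [NeZero L] in
theorem cast_inj {n r r' : ℕ} (hn : n ≤ L) (hr : r < n) (hr' : r' < n) (h : (r : ZMod L) = (r' : ZMod L)) : r = r' := by
  have h1 := (ZMod.natCast_eq_natCast_iff' r r' L).1 h
  rwa [Nat.mod_eq_of_lt (by omega), Nat.mod_eq_of_lt (by omega)] at h1

theorem sum_inj {ι : Type} (F : Tor d L → ℝ) (hF : ∀ x, 0 ≤ F x) (S : Finset ι) (f : ι → Tor d L)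
    (hf : Set.InjOn f (S : Set ι)) : ∑ a ∈ S, F (f a) ≤ ∑ x, F x := by
  rw [← sum_image (f := F) (g := f) (fun a ha b hb h => hf ha hb h)]
  exact sum_le_univ_sum_of_nonneg hF

/-- a point of the cone -/
def pt (i : Fin d) (z : Tor d L) (r : ℕ) : Tor d L := z + Pi.single i (r : ZMod L)

theorem pt_succ (i : Fin d) (z : Tor d L) (r : ℕ) : pt i z (r + 1) = pt i z r + ev i := by
  unfold pt ev
  push_cast
  rw [Pi.single_add, add_assoc]

theorem pt_zero (i : Fin d) (z : Tor d L) : pt i z 0 = z := by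
  unfold pt
  simp

theorem pt_comm (i j : Fin d) (z : Tor d L) (r s : ℕ) : pt i (pt j z s) r = pt j (pt i z r) s := by
  unfold pt
  abel

theorem pt_addv (i : Fin d) (z w : Tor d L) (r : ℕ) : pt i (z + w) r = pt i z r + w := by
  unfold pt
  abel

theorem pt_same (i : Fin d) (z : Tor d L) (r : ℕ) : pt i z r i = z i + r := by
  simp [pt]

theorem pt_ne {i j : Fin d} (hij : j ≠ i) (z : Tor d L) (r : ℕ) : pt j z r i = z i := by
  simp [pt, Pi.single_eq_of_ne hij.symm]

theorem sum2 (F : Tor d L → ℝ) (hF : ∀ x, 0 ≤ F x) {i j : Fin d} (hij : j ≠ i) (z : Tor d L) {n : ℕ} (hn : n ≤ L) :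
    ∑ r ∈ range n, ∑ s ∈ range n, F (pt j (pt i z r) s) ≤ ∑ x, F x := by
  rw [← sum_product']
  refine sum_inj F hF (range n ×ˢ range n) (fun p => pt j (pt i z p.1) p.2) ?_
  rintro ⟨r, s⟩ hp ⟨r', s'⟩ hp' h
  simp only [coe_product, Set.mem_prod, SetLike.mem_coe, mem_range] at hp hp'
  have h1 := congrFun h i
  have h2 := congrFun h j
  simp only [pt_ne hij, pt_same, pt_ne hij.symm] at h1 h2
  have h3 := cast_inj hn hp.1 hp'.1 (add_left_cancel h1)
  have h4 := cast_inj hn hp.2 hp'.2 (add_left_cancel h2)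
  rw [h3, h4]

theorem sum3 (F : Tor d L → ℝ) (hF : ∀ x, 0 ≤ F x) {i j k : Fin d} (hij : j ≠ i) (hik : k ≠ i) (hjk : k ≠ j)
    (z : Tor d L) {n : ℕ} (hn : n ≤ L) :
    ∑ r ∈ range n, ∑ s ∈ range n, ∑ t ∈ range n, F (pt k (pt j (pt i z r) s) t) ≤ ∑ x, F x := by
  have e : ∑ r ∈ range n, ∑ s ∈ range n, ∑ t ∈ range n, F (pt k (pt j (pt i z r) s) t) =
      ∑ p ∈ range n ×ˢ (range n ×ˢ range n), F (pt k (pt j (pt i z p.1) p.2.1) p.2.2) := by
    rw [sum_product]
    refine sum_congr rfl fun r _ => ?_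
    rw [sum_product]
  rw [e]
  refine sum_inj F hF (range n ×ˢ (range n ×ˢ range n)) (fun p => pt k (pt j (pt i z p.1) p.2.1) p.2.2) ?_
  rintro ⟨r, s, t⟩ hp ⟨r', s', t'⟩ hp' h
  simp only [coe_product, Set.mem_prod, SetLike.mem_coe, mem_range] at hp hp'
  have h1 := congrFun h i
  have h2 := congrFun h j
  have h3 := congrFun h k
  simp only [pt_ne hij, pt_same, pt_ne hij.symm, pt_ne hik, pt_ne hik.symm, pt_ne hjk, pt_ne hjk.symm] at h1 h2 h3
  have h4 := cast_inj hn hp.1 hp'.1 (add_left_cancel h1)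
  have h5 := cast_inj hn hp.2.1 hp'.2.1 (add_left_cancel h2)
  have h6 := cast_inj hn hp.2.2 hp'.2.2 (add_left_cancel h3)
  rw [h4, h5, h6]

theorem Ed_nonneg (i : Fin d) (v : Tor d L → ℝ) : 0 ≤ Ed i v := sum_nonneg fun _ _ => sq_nonneg _

theorem Ed2 {i j : Fin d} (hij : j ≠ i) (v : Tor d L → ℝ) : Ed i v + Ed j v ≤ En v := by
  have h : ∑ a ∈ ({i, j} : Finset (Fin d)), Ed a v ≤ En v :=
    sum_le_univ_sum_of_nonneg fun a => Ed_nonneg a v
  rwa [sum_pair hij.symm] at h

theorem Ed3 {i j k : Fin d} (hij : j ≠ i) (hik : k ≠ i) (hjk : k ≠ j) (v : Tor d L → ℝ) :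
    Ed i v + Ed j v + Ed k v ≤ En v := by
  have h : ∑ a ∈ ({i, j, k} : Finset (Fin d)), Ed a v ≤ En v :=
    sum_le_univ_sum_of_nonneg fun a => Ed_nonneg a v
  rw [sum_insert (by simp [hij.symm, hik.symm]), sum_pair hjk.symm] at h
  linarith

theorem Ed_le (i : Fin d) (v : Tor d L → ℝ) : Ed i v ≤ En v :=
  single_le_sum (f := fun a => Ed a v) (fun a _ => Ed_nonneg a v) (mem_univ i)

/-- cross-section average, one direction -/
def av2 (i j : Fin d) (v : Tor d L → ℝ) (n : ℕ) (z : Tor d L) : ℝ :=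
  (∑ t ∈ range (n + 1), v (pt j (pt i z n) t)) / ((n : ℝ) + 1)

/-- cross-section average, two directions -/
def av3 (i j k : Fin d) (v : Tor d L → ℝ) (n : ℕ) (z : Tor d L) : ℝ :=
  (∑ s ∈ range (n + 1), ∑ t ∈ range (n + 1), v (pt k (pt j (pt i z n) s) t)) / ((n : ℝ) + 1) ^ 2

theorem H2 {n : ℕ} : ∑ r ∈ range n, 2 / ((r : ℝ) + 1) ≤ 2 * (1 + Real.log n) := by
  have h := harmonic_le_one_add_log n
  have e : ∑ r ∈ range n, 2 / ((r : ℝ) + 1) = 2 * ((harmonic n : ℚ) : ℝ) := by
    unfold harmonic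
    push_cast
    rw [mul_sum]
    refine sum_congr rfl fun r _ => ?_
    ring
  rw [e]
  linarith

theorem H3 (n : ℕ) : ∑ r ∈ range n, 3 / ((r : ℝ) + 1) ^ 2 ≤ 6 := by
  have h : ∀ n : ℕ, ∑ r ∈ range (n + 1), 3 / ((r : ℝ) + 1) ^ 2 ≤ 6 - 3 / ((n : ℝ) + 1) := by
    intro n
    induction n with
    | zero => norm_num
    | succ n ih =>
      rw [sum_range_succ]
      have hn : (0 : ℝ) < (n : ℝ) + 1 := by positivity
      have h1 : 3 / ((n : ℝ) + 1 + 1) ^ 2 ≤ 3 / ((n : ℝ) + 1) - 3 / ((n : ℝ) + 1 + 1) := by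
        rw [div_sub_div _ _ hn.ne' (by positivity), div_le_div_iff₀ (by positivity) (by positivity)]
        nlinarith
      push_cast
      linarith
  rcases n with _ | n
  · norm_num
  · have := h n
    have h2 : 0 ≤ 3 / ((n : ℝ) + 1) := by positivity
    linarith

theorem near2 {i j : Fin d} (hij : j ≠ i) (v : Tor d L → ℝ) (z : Tor d L) {n : ℕ} (hn : n ≤ L) :
    (av2 i j v n z - v z) ^ 2 ≤ 2 * (1 + Real.log n) * En v := by
  have h := cone2 (fun r t => v (pt j (pt i z r) t)) n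
  simp only [pt_zero] at h
  refine h.trans ?_
  have hE : ∑ r ∈ range n, (∑ t ∈ range (r + 1), (v (pt j (pt i z (r + 1)) t) - v (pt j (pt i z r) t)) ^ 2 +
          ∑ t ∈ range (r + 1), (v (pt j (pt i z (r + 1)) (t + 1)) - v (pt j (pt i z (r + 1)) t)) ^ 2) ≤ En v := by
    rw [sum_add_distrib]
    refine le_trans (add_le_add ?_ ?_) (Ed2 hij v)
    · refine le_trans ?_ (sum2 (fun x => (v (x + ev i) - v x) ^ 2) (fun _ => sq_nonneg _) hij z hn)
      refine sum_le_sum fun r hr => ?_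
      have hr' := mem_range.1 hr
      calc ∑ t ∈ range (r + 1), (v (pt j (pt i z (r + 1)) t) - v (pt j (pt i z r) t)) ^ 2
          ≤ ∑ t ∈ range n, (v (pt j (pt i z (r + 1)) t) - v (pt j (pt i z r) t)) ^ 2 :=
            sum_le_sum_of_subset_of_nonneg (range_subset_range.2 (by omega)) fun _ _ _ => sq_nonneg _
        _ = _ := by
            refine sum_congr rfl fun t _ => ?_
            rw [pt_succ, pt_addv]
    · refine le_trans ?_ (sum2 (fun x => (v (x + ev j) - v x) ^ 2) (fun _ => sq_nonneg _) hij (z + ev i) hn)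
      refine sum_le_sum fun r hr => ?_
      have hr' := mem_range.1 hr
      calc ∑ t ∈ range (r + 1), (v (pt j (pt i z (r + 1)) (t + 1)) - v (pt j (pt i z (r + 1)) t)) ^ 2
          ≤ ∑ t ∈ range n, (v (pt j (pt i z (r + 1)) (t + 1)) - v (pt j (pt i z (r + 1)) t)) ^ 2 :=
            sum_le_sum_of_subset_of_nonneg (range_subset_range.2 (by omega)) fun _ _ _ => sq_nonneg _
        _ = _ := by
            refine sum_congr rfl fun t _ => ?_
            rw [pt_succ j, pt_succ i, pt_addv i z]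
  exact mul_le_mul H2 hE (by positivity) (le_trans (by positivity) H2)

theorem near3 {i j k : Fin d} (hij : j ≠ i) (hik : k ≠ i) (hjk : k ≠ j) (v : Tor d L → ℝ) (z : Tor d L)
    {n : ℕ} (hn : n + 1 ≤ L) : (av3 i j k v n z - v z) ^ 2 ≤ 6 * En v := by
  have h := cone3 (fun r s t => v (pt k (pt j (pt i z r) s) t)) n
  simp only [pt_zero] at h
  refine h.trans ?_
  have hE : ∑ r ∈ range n, (∑ s ∈ range (r + 1), ∑ t ∈ range (r + 1),
          (v (pt k (pt j (pt i z (r + 1)) s) t) - v (pt k (pt j (pt i z r) s) t)) ^ 2 +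
          ∑ t ∈ range (r + 1), ∑ s ∈ range (r + 1),
            (v (pt k (pt j (pt i z (r + 1)) (s + 1)) t) - v (pt k (pt j (pt i z (r + 1)) s) t)) ^ 2 +
          ∑ s ∈ range (r + 2), ∑ t ∈ range (r + 1),
            (v (pt k (pt j (pt i z (r + 1)) s) (t + 1)) - v (pt k (pt j (pt i z (r + 1)) s) t)) ^ 2) ≤ En v := by
    rw [sum_add_distrib, sum_add_distrib]
    have key : ∀ (F : Tor d L → ℝ) (z' : Tor d L), (∀ x, 0 ≤ F x) →
        ∑ r ∈ range n, ∑ s ∈ range (n + 1), ∑ t ∈ range (n + 1), F (pt k (pt j (pt i z' r) s) t) ≤ ∑ x, F x := by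
      intro F z' hF
      refine le_trans ?_ (sum3 F hF hij hik hjk z' hn)
      exact sum_le_sum_of_subset_of_nonneg (range_subset_range.2 (by omega))
        fun _ _ _ => sum_nonneg fun _ _ => sum_nonneg fun _ _ => hF _
    refine le_trans (add_le_add (add_le_add ?_ ?_) ?_) (Ed3 hij hik hjk v)
    · refine le_trans ?_ (key (fun x => (v (x + ev i) - v x) ^ 2) z fun _ => sq_nonneg _)
      refine sum_le_sum fun r hr => ?_
      have hr' := mem_range.1 hr
      calc ∑ s ∈ range (r + 1), ∑ t ∈ range (r + 1),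
            (v (pt k (pt j (pt i z (r + 1)) s) t) - v (pt k (pt j (pt i z r) s) t)) ^ 2
          ≤ ∑ s ∈ range (n + 1), ∑ t ∈ range (n + 1),
            (v (pt k (pt j (pt i z (r + 1)) s) t) - v (pt k (pt j (pt i z r) s) t)) ^ 2 := by
            refine le_trans (sum_le_sum fun s _ => sum_le_sum_of_subset_of_nonneg (t := range (n + 1))
              (range_subset_range.2 (by omega)) fun _ _ _ => sq_nonneg _) ?_
            exact sum_le_sum_of_subset_of_nonneg (range_subset_range.2 (by omega))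
              fun _ _ _ => sum_nonneg fun _ _ => sq_nonneg _
        _ = _ := by
            refine sum_congr rfl fun s _ => sum_congr rfl fun t _ => ?_
            rw [pt_succ, pt_addv, pt_addv]
    · refine le_trans ?_ (key (fun x => (v (x + ev j) - v x) ^ 2) (z + ev i) fun _ => sq_nonneg _)
      refine sum_le_sum fun r hr => ?_
      have hr' := mem_range.1 hr
      rw [sum_comm]
      calc ∑ s ∈ range (r + 1), ∑ t ∈ range (r + 1),
            (v (pt k (pt j (pt i z (r + 1)) (s + 1)) t) - v (pt k (pt j (pt i z (r + 1)) s) t)) ^ 2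
          ≤ ∑ s ∈ range (n + 1), ∑ t ∈ range (n + 1),
            (v (pt k (pt j (pt i z (r + 1)) (s + 1)) t) - v (pt k (pt j (pt i z (r + 1)) s) t)) ^ 2 := by
            refine le_trans (sum_le_sum fun s _ => sum_le_sum_of_subset_of_nonneg (t := range (n + 1))
              (range_subset_range.2 (by omega)) fun _ _ _ => sq_nonneg _) ?_
            exact sum_le_sum_of_subset_of_nonneg (range_subset_range.2 (by omega))
              fun _ _ _ => sum_nonneg fun _ _ => sq_nonneg _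
        _ = _ := by
            refine sum_congr rfl fun s _ => sum_congr rfl fun t _ => ?_
            rw [pt_succ j, pt_succ i, pt_addv i z, pt_addv k]
    · refine le_trans ?_ (key (fun x => (v (x + ev k) - v x) ^ 2) (z + ev i) fun _ => sq_nonneg _)
      refine sum_le_sum fun r hr => ?_
      have hr' := mem_range.1 hr
      calc ∑ s ∈ range (r + 2), ∑ t ∈ range (r + 1),
            (v (pt k (pt j (pt i z (r + 1)) s) (t + 1)) - v (pt k (pt j (pt i z (r + 1)) s) t)) ^ 2
          ≤ ∑ s ∈ range (n + 1), ∑ t ∈ range (n + 1),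
            (v (pt k (pt j (pt i z (r + 1)) s) (t + 1)) - v (pt k (pt j (pt i z (r + 1)) s) t)) ^ 2 := by
            refine le_trans (sum_le_sum fun s _ => sum_le_sum_of_subset_of_nonneg (t := range (n + 1))
              (range_subset_range.2 (by omega)) fun _ _ _ => sq_nonneg _) ?_
            exact sum_le_sum_of_subset_of_nonneg (range_subset_range.2 (by omega))
              fun _ _ _ => sum_nonneg fun _ _ => sq_nonneg _
        _ = _ := by
            refine sum_congr rfl fun s _ => sum_congr rfl fun t _ => ?_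
            rw [pt_succ k, pt_succ i, pt_addv i z]
  exact mul_le_mul (H3 n) hE (by positivity) (by norm_num)

/-- moving by `n` steps -/
theorem move (v : Tor d L → ℝ) (i : Fin d) (x : Tor d L) (n : ℕ) :
    (v (pt i x n) - v x) ^ 2 ≤ n * ∑ r ∈ range n, (v (pt i x r + ev i) - v (pt i x r)) ^ 2 := by
  have h := sq_sum_le_card_mul_sum_sq (s := range n) (f := fun r => v (pt i x (r + 1)) - v (pt i x r))
  rw [sum_range_sub (fun r => v (pt i x r)), card_range, pt_zero] at h
  refine h.trans (le_of_eq ?_)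
  congr 1
  refine sum_congr rfl fun r _ => ?_
  rw [pt_succ]

theorem far2 {i j : Fin d} (hij : j ≠ i) (v : Tor d L → ℝ) (z : Tor d L) {n : ℕ} (hn : n + 1 ≤ L) :
    (av2 i j v n (pt i z n) - av2 i j v n z) ^ 2 ≤ En v := by
  have hp : (0 : ℝ) < (n : ℝ) + 1 := by positivity
  have e : av2 i j v n (pt i z n) - av2 i j v n z =
      (∑ t ∈ range (n + 1), (v (pt i (pt j (pt i z n) t) n) - v (pt j (pt i z n) t))) / ((n : ℝ) + 1) := by
    unfold av2
    rw [← sub_div, ← sum_sub_distrib]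
    congr 1
    refine sum_congr rfl fun t _ => ?_
    rw [pt_comm i j]
  rw [e]
  refine (jensen _ n).trans ?_
  calc 1 / ((n : ℝ) + 1) * ∑ t ∈ range (n + 1), (v (pt i (pt j (pt i z n) t) n) - v (pt j (pt i z n) t)) ^ 2
      ≤ 1 / ((n : ℝ) + 1) * ∑ t ∈ range (n + 1), (((n : ℝ) + 1) * ∑ r ∈ range (n + 1),
          (v (pt i (pt j (pt i z n) t) r + ev i) - v (pt i (pt j (pt i z n) t) r)) ^ 2) := by
        refine mul_le_mul_of_nonneg_left (sum_le_sum fun t _ => ?_) (by positivity)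
        refine (move v i _ n).trans ?_
        refine mul_le_mul (by linarith) ?_ (by positivity) hp.le
        exact sum_le_sum_of_subset_of_nonneg (range_subset_range.2 (by omega)) fun _ _ _ => sq_nonneg _
    _ = ∑ r ∈ range (n + 1), ∑ t ∈ range (n + 1),
          (v (pt j (pt i (pt i z n) r) t + ev i) - v (pt j (pt i (pt i z n) r) t)) ^ 2 := by
        rw [← mul_sum, ← mul_assoc, one_div_mul_cancel hp.ne', one_mul, sum_comm]
        refine sum_congr rfl fun r _ => sum_congr rfl fun t _ => ?_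
        rw [pt_comm i j]
    _ ≤ Ed i v := sum2 (fun x => (v (x + ev i) - v x) ^ 2) (fun _ => sq_nonneg _) hij (pt i z n) hn
    _ ≤ En v := Ed_le i v

theorem far3 {i j k : Fin d} (hij : j ≠ i) (hik : k ≠ i) (hjk : k ≠ j) (v : Tor d L → ℝ) (z : Tor d L)
    {n : ℕ} (hn : n + 1 ≤ L) : (av3 i j k v n (pt i z n) - av3 i j k v n z) ^ 2 ≤ En v := by
  have hp : (0 : ℝ) < (n : ℝ) + 1 := by positivity
  have e : av3 i j k v n (pt i z n) - av3 i j k v n z =
      (∑ s ∈ range (n + 1), ((∑ t ∈ range (n + 1), (v (pt i (pt k (pt j (pt i z n) s) t) n) -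
        v (pt k (pt j (pt i z n) s) t))) / ((n : ℝ) + 1))) / ((n : ℝ) + 1) := by
    unfold av3
    rw [← sub_div, ← sum_sub_distrib, ← sum_div, div_div, ← pow_two]
    congr 1
    refine sum_congr rfl fun s _ => ?_
    rw [← sum_sub_distrib]
    refine sum_congr rfl fun t _ => ?_
    rw [pt_comm i k, pt_comm i j]
  rw [e]
  refine (jensen _ n).trans ?_
  calc 1 / ((n : ℝ) + 1) * ∑ s ∈ range (n + 1), ((∑ t ∈ range (n + 1), (v (pt i (pt k (pt j (pt i z n) s) t) n) -
        v (pt k (pt j (pt i z n) s) t))) / ((n : ℝ) + 1)) ^ 2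
      ≤ 1 / ((n : ℝ) + 1) * ∑ s ∈ range (n + 1), ∑ t ∈ range (n + 1), (((n : ℝ) + 1) * ∑ r ∈ range (n + 1),
          (v (pt i (pt k (pt j (pt i z n) s) t) r + ev i) - v (pt i (pt k (pt j (pt i z n) s) t) r)) ^ 2) := by
        refine mul_le_mul_of_nonneg_left (sum_le_sum fun s _ => ?_) (by positivity)
        refine (jensen _ n).trans ?_
        calc 1 / ((n : ℝ) + 1) * ∑ t ∈ range (n + 1), (v (pt i (pt k (pt j (pt i z n) s) t) n) -
              v (pt k (pt j (pt i z n) s) t)) ^ 2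
            ≤ 1 * ∑ t ∈ range (n + 1), (v (pt i (pt k (pt j (pt i z n) s) t) n) -
              v (pt k (pt j (pt i z n) s) t)) ^ 2 := by
              refine mul_le_mul_of_nonneg_right ?_ (by positivity)
              rw [div_le_one hp]
              linarith [(Nat.cast_nonneg n : (0 : ℝ) ≤ n)]
          _ = ∑ t ∈ range (n + 1), (v (pt i (pt k (pt j (pt i z n) s) t) n) -
              v (pt k (pt j (pt i z n) s) t)) ^ 2 := one_mul _
          _ ≤ _ := by
              refine sum_le_sum fun t _ => ?_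
              refine (move v i _ n).trans ?_
              refine mul_le_mul (by linarith) ?_ (by positivity) hp.le
              exact sum_le_sum_of_subset_of_nonneg (range_subset_range.2 (by omega)) fun _ _ _ => sq_nonneg _
    _ = ∑ r ∈ range (n + 1), ∑ s ∈ range (n + 1), ∑ t ∈ range (n + 1),
          (v (pt k (pt j (pt i (pt i z n) r) s) t + ev i) - v (pt k (pt j (pt i (pt i z n) r) s) t)) ^ 2 := by
        simp only [← mul_sum]
        rw [← mul_assoc, one_div_mul_cancel hp.ne', one_mul]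
        rw [sum_congr rfl fun s _ => sum_comm, sum_comm]
        refine sum_congr rfl fun r _ => sum_congr rfl fun s _ => sum_congr rfl fun t _ => ?_
        rw [pt_comm i k, pt_comm i j]
    _ ≤ Ed i v := sum3 (fun x => (v (x + ev i) - v x) ^ 2) (fun _ => sq_nonneg _) hij hik hjk (pt i z n) hn
    _ ≤ En v := Ed_le i v

theorem En_nonneg (v : Tor d L → ℝ) : 0 ≤ En v := sum_nonneg fun i _ => Ed_nonneg i v

theorem three (a b c d e : ℝ) (E K : ℝ) (h1 : (a - b) ^ 2 ≤ K * E) (h2 : (c - a) ^ 2 ≤ E) (h3 : (c - e) ^ 2 ≤ K * E)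
    (hd : d = e) : (d - b) ^ 2 ≤ (6 * K + 3) * E := by
  subst hd
  have : (d - b) ^ 2 ≤ 3 * ((a - b) ^ 2 + (c - a) ^ 2 + (c - d) ^ 2) := by
    nlinarith [sq_nonneg ((a - b) - (c - a)), sq_nonneg ((a - b) + (c - d)), sq_nonneg ((c - a) + (c - d))]
  linarith

/-- one direction -/
theorem line (hd : 2 ≤ d) (v : Tor d L → ℝ) (i : Fin d) (z : Tor d L) {n D : ℕ} (hn : n + 1 ≤ L) (hD : n ≤ D) :
    (v (pt i z n) - v z) ^ 2 ≤ 39 * kap d D * En v := by
  have hE := En_nonneg v
  by_cases h2 : d = 2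
  · subst h2
    obtain ⟨j, hj⟩ : ∃ j : Fin 2, j ≠ i := exists_ne i
    have h := three (av2 i j v n z) (v z) (av2 i j v n (pt i z n)) (v (pt i z n)) (v (pt i z n)) (En v)
      (2 * (1 + Real.log n)) (near2 hj v z (by omega)) (far2 hj v z hn) (near2 hj v (pt i z n) (by omega)) rfl
    refine h.trans (mul_le_mul_of_nonneg_right ?_ hE)
    have hk : kap 2 D = 1 + Real.log (1 + D) := by simp [kap]
    rw [hk]
    have hl : Real.log n ≤ Real.log (1 + D) := by
      rcases Nat.eq_zero_or_pos n with h0 | h0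
      · subst h0
        simp only [Nat.cast_zero, Real.log_zero]
        exact Real.log_nonneg (by linarith [(Nat.cast_nonneg D : (0 : ℝ) ≤ D)])
      · refine Real.log_le_log (by exact_mod_cast h0) ?_
        have : (n : ℝ) ≤ D := by exact_mod_cast hD
        linarith
    have hl2 : 0 ≤ Real.log (1 + D) := Real.log_nonneg (by linarith [(Nat.cast_nonneg D : (0 : ℝ) ≤ D)])
    linarith
  · have hc : 1 < (univ.erase i : Finset (Fin d)).card := by
      rw [card_erase_of_mem (mem_univ i), card_univ, Fintype.card_fin]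
      omega
    obtain ⟨j, hj, k, hk, hjk⟩ := one_lt_card.1 hc
    have hj' := (mem_erase.1 hj).1
    have hk' := (mem_erase.1 hk).1
    have h := three (av3 i j k v n z) (v z) (av3 i j k v n (pt i z n)) (v (pt i z n)) (v (pt i z n)) (En v)
      6 (near3 hj' hk' hjk.symm v z hn) (far3 hj' hk' hjk.symm v z hn) (near3 hj' hk' hjk.symm v (pt i z n) hn) rfl
    refine h.trans (mul_le_mul_of_nonneg_right ?_ hE)
    have hk : kap d D = 1 := by simp [kap, h2]
    rw [hk]
    norm_num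

/-- two points differing in one coordinate -/
theorem coord (hd : 2 ≤ d) (v : Tor d L → ℝ) (i : Fin d) (z : Tor d L) (a : ZMod L) {D : ℕ}
    (hD : (z i - a).valMinAbs.natAbs ≤ D) :
    (v (Function.update z i a) - v z) ^ 2 ≤ 39 * kap d D * En v := by
  set w : ℤ := (z i - a).valMinAbs with hw
  have hwc : ((w : ℤ) : ZMod L) = z i - a := ZMod.coe_valMinAbs _
  have hwl : w.natAbs ≤ L / 2 := ZMod.natAbs_valMinAbs_le _
  have hkap : 0 ≤ kap d D := by
    unfold kap
    split_ifs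
    · have : 0 ≤ Real.log (1 + D) := Real.log_nonneg (by linarith [(Nat.cast_nonneg D : (0 : ℝ) ≤ D)])
      linarith
    · norm_num
  by_cases h0 : w = 0
  · have : a = z i := by
      rw [h0] at hwc
      simp only [Int.cast_zero] at hwc
      exact (sub_eq_zero.1 hwc.symm).symm
    rw [this, Function.update_eq_self]
    have h1 : 0 ≤ 39 * kap d D * En v := mul_nonneg (mul_nonneg (by norm_num) hkap) (En_nonneg v)
    simpa using h1
  have hn1 : w.natAbs + 1 ≤ L := by omega
  rcases le_total 0 w with h | h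
  · -- z = pt (update z i a) |w|
    have e : pt i (Function.update z i a) w.natAbs = z := by
      funext l
      by_cases hl : l = i
      · subst hl
        rw [pt_same, Function.update_self]
        have : ((w.natAbs : ℕ) : ZMod L) = ((w : ℤ) : ZMod L) := by
          rw [← Int.cast_natCast, Int.natAbs_of_nonneg h]
        rw [this, hwc]
        ring
      · rw [pt_ne (Ne.symm hl), Function.update_of_ne hl]
    have hh := line hd v i (Function.update z i a) hn1 hD
    rw [e] at hh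
    rw [← neg_sub, neg_sq]
    exact hh
  · have e : pt i z w.natAbs = Function.update z i a := by
      funext l
      by_cases hl : l = i
      · subst hl
        rw [pt_same, Function.update_self]
        have : ((w.natAbs : ℕ) : ZMod L) = -((w : ℤ) : ZMod L) := by
          rw [← Int.cast_natCast, Int.ofNat_natAbs_of_nonpos h, Int.cast_neg]
        rw [this, hwc]
        ring
      · rw [pt_ne (Ne.symm hl), Function.update_of_ne hl]
    have hh := line hd v i z hn1 hD
    rw [e] at hh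
    exact hh

theorem multi (hd : 2 ≤ d) (v : Tor d L → ℝ) (z y : Tor d L) (s : Finset (Fin d)) :
    |v (s.piecewise y z) - v z| ≤ s.card * Real.sqrt (39 * kap d (td z y) * En v) := by
  induction s using Finset.induction_on with
  | empty => simp
  | insert i s hi ih =>
    rw [piecewise_insert, card_insert_of_notMem hi]
    have hD : ((s.piecewise y z) i - y i).valMinAbs.natAbs ≤ td z y := by
      rw [piecewise_eq_of_notMem _ _ _ hi]
      exact le_sup (f := fun i : Fin d => (z i - y i).valMinAbs.natAbs) (mem_univ i)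
    have h := Real.abs_le_sqrt (coord hd v i (s.piecewise y z) (y i) hD)
    calc |v (Function.update (s.piecewise y z) i (y i)) - v z|
        ≤ |v (Function.update (s.piecewise y z) i (y i)) - v (s.piecewise y z)| + |v (s.piecewise y z) - v z| :=
          abs_sub_le _ _ _
      _ ≤ Real.sqrt (39 * kap d (td z y) * En v) + s.card * Real.sqrt (39 * kap d (td z y) * En v) := add_le_add h ih
      _ = _ := by
        push_cast
        ring

end POT_

/-- T_POT -/
theorem p_POT : T_POT := by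
  intro d hd
  refine ⟨d ^ 2 * 39, by positivity, ?_⟩
  intro L _ v z y0 hv
  have h := POT_.multi hd v z y0 univ
  rw [piecewise_univ, hv, card_univ, Fintype.card_fin, zero_sub, abs_neg] at h
  have hkap : 0 ≤ kap d (td z y0) := by
    unfold kap
    split_ifs
    · have : 0 ≤ Real.log (1 + (td z y0 : ℝ)) :=
        Real.log_nonneg (by linarith [(Nat.cast_nonneg (td z y0) : (0 : ℝ) ≤ (td z y0 : ℝ))])
      linarith
    · norm_num
  calc v z ^ 2 = |v z| ^ 2 := (sq_abs _).symm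
    _ ≤ (d * Real.sqrt (39 * kap d (td z y0) * En v)) ^ 2 := pow_le_pow_left₀ (abs_nonneg _) h 2
    _ = d ^ 2 * 39 * kap d (td z y0) * En v := by
      rw [mul_pow, Real.sq_sqrt (mul_nonneg (mul_nonneg (by norm_num) hkap) (POT_.En_nonneg v))]
      ring

end

end Pool.Agent.LBL
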