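import Pool.Agent.LBL.Targets1

/-!
# LBL: elementary facts on `pr` (T_PRB, helper5)
-/

set_option autoImplicit false

open Finset
open scoped Classical

namespace Pool.Agent.LBL

namespace PRB_

variable {X : Type} [Fintype X]

theorem wt_nonneg {p : ℝ} (h0 : 0 < p) (h1 : p < 1) (O : Finset X) : 0 ≤ wt p O := by
  unfold wt
  have : (0 : ℝ) ≤ 1 - p := by linarith
  positivity

theorem pr_true (p : ℝ) : pr (X := X) p (fun _ => True) = 1 := by
  unfold pr wt
  simp only [if_true]
  rw [Fintype.sum_pow_mul_eq_add_pow]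
  simp

theorem pr_mono {p : ℝ} (h0 : 0 < p) (h1 : p < 1) {A B : Finset X → Prop}
    (h : ∀ O, A O → B O) : pr p A ≤ pr p B := by
  unfold pr
  refine Finset.sum_le_sum fun O _ => ?_
  by_cases hA : A O
  · rw [if_pos hA, if_pos (h O hA)]
  · rw [if_neg hA]
    split_ifs
    · exact wt_nonneg h0 h1 O
    · exact le_rfl

theorem pr_nonneg {p : ℝ} (h0 : 0 < p) (h1 : p < 1) (A : Finset X → Prop) : 0 ≤ pr p A := by
  unfold pr
  refine Finset.sum_nonneg fun O _ => ?_
  split_ifs
  · exact wt_nonneg h0 h1 O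
  · exact le_rfl

theorem pr_union {p : ℝ} (h0 : 0 < p) (h1 : p < 1) (I : Type) (s : Finset I)
    (A : Finset X → Prop) (B : I → Finset X → Prop) (h : ∀ O, A O → ∃ i ∈ s, B i O) :
    pr p A ≤ ∑ i ∈ s, pr p (B i) := by
  unfold pr
  rw [Finset.sum_comm]
  refine Finset.sum_le_sum fun O _ => ?_
  have h3 : ∀ i ∈ s, (0 : ℝ) ≤ if B i O then wt p O else 0 := by
    intro i _
    split_ifs
    · exact wt_nonneg h0 h1 O
    · exact le_rfl
  by_cases hA : A O
  · obtain ⟨i, hi, hB⟩ := h O hA
    rw [if_pos hA]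
    have h2 := Finset.single_le_sum h3 hi
    rw [if_pos hB] at h2
    exact h2
  · rw [if_neg hA]
    exact Finset.sum_nonneg h3

theorem pr_subset (p : ℝ) (V : Finset X) : pr p (fun O => V ⊆ O) = p ^ V.card := by
  have h0 : pr p (fun O => V ⊆ O) = ∑ O ∈ (Finset.univ.filter fun O : Finset X => V ⊆ O),
      p ^ O.card * (1 - p) ^ (Fintype.card X - O.card) := by
    unfold pr wt
    rw [Finset.sum_filter]
    refine Finset.sum_congr rfl fun O _ => ?_
    by_cases h : V ⊆ O
    · rw [if_pos h, if_pos h]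
    · rw [if_neg h, if_neg h]
  rw [h0]
  have h1 : ∑ O ∈ (Finset.univ.filter fun O : Finset X => V ⊆ O),
      p ^ O.card * (1 - p) ^ (Fintype.card X - O.card) =
      ∑ W ∈ (Vᶜ).powerset, p ^ V.card * (p ^ W.card * (1 - p) ^ (Vᶜ.card - W.card)) := by
    refine Finset.sum_nbij' (fun O => O \ V) (fun W => W ∪ V) ?_ ?_ ?_ ?_ ?_
    · intro O _
      rw [Finset.mem_powerset]
      intro x hx
      rw [Finset.mem_sdiff] at hx
      rw [Finset.mem_compl]
      exact hx.2
    · intro W _
      rw [Finset.mem_filter]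
      exact ⟨Finset.mem_univ _, Finset.subset_union_right⟩
    · intro O hO
      rw [Finset.mem_filter] at hO
      exact Finset.sdiff_union_of_subset hO.2
    · intro W hW
      rw [Finset.mem_powerset] at hW
      have hd : Disjoint W V := by
        rw [Finset.disjoint_left]
        intro x hx hxV
        have := hW hx
        rw [Finset.mem_compl] at this
        exact this hxV
      exact Finset.union_sdiff_cancel_right hd
    · intro O hO
      rw [Finset.mem_filter] at hO
      have hc : (O \ V).card + V.card = O.card := Finset.card_sdiff_add_card_eq_card hO.2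
      have hV : Vᶜ.card = Fintype.card X - V.card := Finset.card_compl V
      have e1 : Vᶜ.card - (O \ V).card = Fintype.card X - O.card := by omega
      rw [e1, ← mul_assoc, ← pow_add]
      congr 2
      omega
  rw [h1, ← Finset.mul_sum, Finset.sum_pow_mul_eq_add_pow]
  simp

end PRB_

theorem p_PRB : T_PRB := by
  intro X _ _ p h0 h1
  refine ⟨PRB_.pr_true p, ?_, ?_, ?_, ?_⟩
  · intro A
    refine ⟨PRB_.pr_nonneg h0 h1 A, ?_⟩
    rw [← PRB_.pr_true (X := X) p]
    exact PRB_.pr_mono h0 h1 fun _ _ => trivial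
  · intro A B h
    exact PRB_.pr_mono h0 h1 h
  · intro I s A B h
    exact PRB_.pr_union h0 h1 I s A B h
  · intro V
    exact PRB_.pr_subset p V

end Pool.Agent.LBL
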