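import Pool.Agent.LBL.Targets2
import Pool.Agent.LBL.P_VAR

set_option autoImplicit false

/-!
# LBL: R1, iteration
-/

open Finset
open scoped Classical

namespace Pool.Agent.LBL

noncomputable section

namespace R1F_

lemma wt_nonneg {X : Type} [Fintype X] (p : ℝ) (h0 : 0 < p) (h1 : p < 1) (O : Finset X) :
    0 ≤ wt p O := by
  unfold wt
  have : 0 ≤ 1 - p := by linarith
  positivity

lemma TT_anti (d L : ℕ) [NeZero L] (p : ℝ) (h0 : 0 < p) (h1 : p < 1) (x x' : ℝ) (h : x ≤ x') :
    TT d L p x' ≤ TT d L p x := by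
  unfold TT pr
  apply Finset.sum_le_sum
  intro O _
  by_cases h2 : x' ≤ lam O
  · rw [if_pos h2, if_pos (h.trans h2)]
  · rw [if_neg h2]
    split_ifs
    · exact wt_nonneg p h0 h1 O
    · exact le_rfl

lemma TT_nonneg (d L : ℕ) [NeZero L] (p : ℝ) (h0 : 0 < p) (h1 : p < 1) (x : ℝ) :
    0 ≤ TT d L p x := by
  unfold TT pr
  apply Finset.sum_nonneg
  intro O _
  split_ifs
  · exact wt_nonneg p h0 h1 O
  · exact le_rfl

lemma TT_zero (d L : ℕ) [NeZero L] (hd : 1 ≤ d) (p x : ℝ) (h : 1 < x) : TT d L p x = 0 := by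
  unfold TT pr
  apply Finset.sum_eq_zero
  intro O _
  have : lam O ≤ 1 := (p_VAR d (ZMod L) hd O).2.2.1
  rw [if_neg]
  linarith

lemma iter (T : ℝ → ℝ) (s : ℝ) (n : ℕ) (x : ℝ) (h : ∀ k : ℕ, k < n →
    T (x + k * s + s) ≤ T (x + k * s) / 2) : T (x + n * s) ≤ (1 / 2) ^ n * T x := by
  induction n with
  | zero => simp
  | succ n ih =>
    have h1 := ih fun k hk => h k (by omega)
    have h2 := h n (by omega)
    have e : x + ((n + 1 : ℕ) : ℝ) * s = x + n * s + s := by
      push_cast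
      ring
    rw [e]
    calc T (x + n * s + s) ≤ T (x + n * s) / 2 := h2
      _ ≤ ((1 / 2) ^ n * T x) / 2 := by linarith
      _ = (1 / 2) ^ (n + 1) * T x := by
        rw [pow_succ]
        ring

end R1F_

open R1F_ in
theorem p_R1F (h_R1H : T_R1H) : T_R1F := by
  intro d K0 p a A hd hK hp0 hp1 ha haA
  obtain ⟨J0, r0, hJ0, hr0, H⟩ := h_R1H d K0 p (a / 2) A hd hK hp0 hp1 (by positivity)
    (by linarith)
  have hA : 0 < A := lt_of_lt_of_le ha haA
  refine ⟨2, a / (2 * A * J0) * Real.log 2, r0, by norm_num, ?_, hr0, ?_⟩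
  · have := Real.log_pos (show (1 : ℝ) < 2 by norm_num)
    positivity
  intro r x J L _ hr hRg hW hJ
  have hr' : 0 < r := by linarith
  have hs : 0 < ss d r := Real.rpow_pos_of_pos hr' _
  have hT0 := TT_nonneg d L p hp0 hp1 x
  by_cases hx : 1 < x + J * ss d r
  · rw [TT_zero d L (by omega) p _ hx]
    positivity
  push Not at hx
  obtain ⟨hW1, hW2⟩ := hW
  set s := ss d r with hsdef
  have hq : J * s * r ^ 2 ≤ A := by
    have h1 : J * s ≤ 1 - x := by linarith
    have h2 : J * s * r ^ 2 ≤ (1 - x) * r ^ 2 := mul_le_mul_of_nonneg_right h1 (by positivity)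
    linarith
  set y : ℝ := a * J / (2 * A * J0) with hy
  have hy0 : 0 ≤ y := by positivity
  set n : ℕ := ⌊y⌋₊ with hn
  have hny : (n : ℝ) ≤ y := Nat.floor_le hy0
  have hny' : y - 1 < n := by
    have := Nat.lt_floor_add_one y
    linarith
  have hyJ : y * J0 = a * J / (2 * A) := by
    rw [hy]
    field_simp
  have hnJ : (n : ℝ) * J0 ≤ a * J / (2 * A) := by
    rw [← hyJ]
    exact mul_le_mul_of_nonneg_right hny hJ0.le
  have hstep : ∀ k : ℕ, k < n →
      TT d L p (x + k * (J0 * s) + J0 * s) ≤ TT d L p (x + k * (J0 * s)) / 2 := by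
    intro k hk
    apply H r (x + k * (J0 * s)) L hr hRg
    have hk' : (k : ℝ) ≤ n := by exact_mod_cast hk.le
    have h1 : (k : ℝ) * J0 * (s * r ^ 2) ≤ a / 2 := by
      have h2 : (k : ℝ) * J0 ≤ a * J / (2 * A) :=
        le_trans (mul_le_mul_of_nonneg_right hk' hJ0.le) hnJ
      have h3 : (k : ℝ) * J0 * (s * r ^ 2) ≤ a * J / (2 * A) * (s * r ^ 2) :=
        mul_le_mul_of_nonneg_right h2 (by positivity)
      have h4 : a * J / (2 * A) * (s * r ^ 2) = a / (2 * A) * (J * s * r ^ 2) := by ring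
      have h5 : a / (2 * A) * (J * s * r ^ 2) ≤ a / (2 * A) * A :=
        mul_le_mul_of_nonneg_left hq (by positivity)
      have h6 : a / (2 * A) * A = a / 2 := by
        field_simp
      linarith
    have h7 : (1 - (x + k * (J0 * s))) * r ^ 2 = (1 - x) * r ^ 2 - k * J0 * (s * r ^ 2) := by ring
    have h8 : 0 ≤ (k : ℝ) * J0 * (s * r ^ 2) := by positivity
    constructor
    · rw [h7]
      linarith
    · rw [h7]
      linarith
  have hiter := iter (TT d L p) (J0 * s) n x hstep
  have hmono : TT d L p (x + J * s) ≤ TT d L p (x + n * (J0 * s)) := by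
    apply TT_anti d L p hp0 hp1
    have h1 : (n : ℝ) * J0 ≤ J := by
      have h2 : a * J / (2 * A) ≤ J := by
        rw [div_le_iff₀ (by positivity)]
        nlinarith [mul_le_mul_of_nonneg_right haA hJ, mul_nonneg hA.le hJ]
      linarith
    have h3 := mul_le_mul_of_nonneg_right h1 hs.le
    linarith
  have hpow : (1 / 2 : ℝ) ^ n ≤ 2 * Real.exp (-(a / (2 * A * J0) * Real.log 2) * J) := by
    have e1 : (1 / 2 : ℝ) ^ n = Real.exp (-(n * Real.log 2)) := by
      rw [Real.exp_neg, mul_comm, Real.exp_mul, Real.exp_log (by norm_num), Real.rpow_natCast]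
      rw [one_div, inv_pow]
    have e2 : 2 * Real.exp (-(a / (2 * A * J0) * Real.log 2) * J) =
        Real.exp (-((y - 1) * Real.log 2)) := by
      have : -((y - 1) * Real.log 2) = Real.log 2 + -(a / (2 * A * J0) * Real.log 2) * J := by
        rw [hy]
        ring
      rw [this, Real.exp_add, Real.exp_log (by norm_num)]
    rw [e1, e2, Real.exp_le_exp]
    have := Real.log_pos (show (1 : ℝ) < 2 by norm_num)
    have h1 := mul_le_mul_of_nonneg_right hny'.le this.le
    linarith
  calc TT d L p (x + J * s) ≤ (1 / 2) ^ n * TT d L p x := hmono.trans hiter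
    _ ≤ 2 * Real.exp (-(a / (2 * A * J0) * Real.log 2) * J) * TT d L p x :=
      mul_le_mul_of_nonneg_right hpow hT0

end

end Pool.Agent.LBL
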