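import Pool.Agent.LBL.Targets2

set_option autoImplicit false

/-!
# LBL: one step of the upper regularity (R1)
-/

open Finset
open scoped Classical

namespace Pool.Agent.LBL

noncomputable section

namespace R1H_

theorem ph_top (h_TOP : T_TOP) {d L : ℕ} [NeZero L] (hd : 1 ≤ d) (O : Finset (Tor d L))
    (hO : O.Nonempty) : Top O (ph O) := by
  have h := h_TOP d (ZMod L) O hd hO
  unfold ph
  rw [dif_pos h]
  exact Classical.choose_spec h

theorem lam_empty {d L : ℕ} [NeZero L] : lam (∅ : Finset (Tor d L)) = 0 := by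
  unfold lam
  have : {t : ℝ | ∃ f : (Fin d → ZMod L) → ℝ, Spp (∅ : Finset (Fin d → ZMod L)) f ∧
      ∑ x ∈ (∅ : Finset (Fin d → ZMod L)), f x ^ 2 = 1 ∧
      t = ∑ x ∈ (∅ : Finset (Fin d → ZMod L)), f x * P0 f x} = ∅ := by
    ext t
    simp
  rw [this, Real.sSup_empty]

theorem nonempty_of_lam {d L : ℕ} [NeZero L] (O : Finset (Tor d L)) (h : 0 < lam O) :
    O.Nonempty := by
  rw [Finset.nonempty_iff_ne_empty]
  rintro rfl
  rw [lam_empty] at h
  exact lt_irrefl _ h

theorem hol_univ {d L : ℕ} [NeZero L] (m : ℕ) :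
    hol m (Finset.univ : Finset (Tor d L)) = Finset.univ := by
  unfold hol
  apply Function.iterate_fixed
  unfold ero
  ext x
  simp

theorem sq_sq {d : ℕ} {r : ℝ} (hr : 0 < r) : sq d r ^ 2 = ss d r := by
  unfold sq ss
  rw [← Real.rpow_natCast, ← Real.rpow_mul hr.le]
  congr 1
  push_cast
  ring

theorem sq_pos {d : ℕ} {r : ℝ} (hr : 0 < r) : 0 < sq d r := Real.rpow_pos_of_pos hr _

theorem ss_pos {d : ℕ} {r : ℝ} (hr : 0 < r) : 0 < ss d r := Real.rpow_pos_of_pos hr _

theorem ss_le {d : ℕ} {r : ℝ} (hr : 1 ≤ r) : ss d r * r ≤ 1 := by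
  have hr0 : 0 < r := by linarith
  unfold ss
  have h1 : r ^ (-(d : ℝ) - 2) * r = r ^ (-(d : ℝ) - 1) := by
    have := Real.rpow_add hr0 (-(d : ℝ) - 2) 1
    rw [Real.rpow_one] at this
    rw [← this]
    congr 1
    ring
  rw [h1]
  apply Real.rpow_le_one_of_one_le_of_nonpos hr
  have : (0 : ℝ) ≤ d := Nat.cast_nonneg d
  linarith

theorem ss_sq_le {d : ℕ} (hd : 1 ≤ d) {r : ℝ} (hr : 1 ≤ r) : ss d r * r ^ 2 * r ≤ 1 := by
  have hr0 : 0 < r := by linarith
  unfold ss
  have h1 : r ^ (-(d : ℝ) - 2) * r ^ 2 * r = r ^ (-(d : ℝ) + 1) := by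
    have h2 : r ^ 2 * r = r ^ (3 : ℝ) := by
      rw [show (3 : ℝ) = ((3 : ℕ) : ℝ) by norm_num, Real.rpow_natCast]
      ring
    rw [mul_assoc, h2, ← Real.rpow_add hr0]
    congr 1
    ring
  rw [h1]
  apply Real.rpow_le_one_of_one_le_of_nonpos hr
  have : (1 : ℝ) ≤ d := by exact_mod_cast hd
  linarith

theorem wt_nonneg {X : Type} [Fintype X] {p : ℝ} (h0 : 0 < p) (h1 : p < 1) (O : Finset X) :
    0 ≤ wt p O := by
  unfold wt
  have : 0 ≤ 1 - p := by linarith
  positivity

theorem exp_small {t : ℝ} (ht : 7 ≤ t) : Real.exp (-t) ≤ 1 / 8 := by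
  have h1 : t + 1 ≤ Real.exp t := Real.add_one_le_exp t
  rw [Real.exp_neg, inv_eq_one_div]
  apply one_div_le_one_div_of_le (by norm_num)
  linarith

theorem pr_union3 {X : Type} [Fintype X] {p : ℝ} (h0 : 0 < p) (h1 : p < 1)
    (A B1 B2 B3 : Finset X → Prop) (h : ∀ O, A O → B1 O ∨ B2 O ∨ B3 O) :
    pr p A ≤ pr p B1 + pr p B2 + pr p B3 := by
  unfold pr
  rw [← Finset.sum_add_distrib, ← Finset.sum_add_distrib]
  apply Finset.sum_le_sum
  intro O _
  have hw := wt_nonneg h0 h1 O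
  have h4 : 0 ≤ (if B1 O then wt p O else 0) := by split_ifs <;> simp [hw]
  have h5 : 0 ≤ (if B2 O then wt p O else 0) := by split_ifs <;> simp [hw]
  have h6 : 0 ≤ (if B3 O then wt p O else 0) := by split_ifs <;> simp [hw]
  by_cases hA : A O
  · rw [if_pos hA]
    rcases h O hA with hB | hB | hB
    · rw [if_pos hB] at h4 ⊢
      linarith
    · rw [if_pos hB] at h5 ⊢
      linarith
    · rw [if_pos hB] at h6 ⊢
      linarith
  · rw [if_neg hA]
    linarith

end R1H_

open R1H_ in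
theorem p_R1H (h_GAP : T_GAP) (h_GOO : T_GOO) (h_GDE : T_GDE) (h_FOR : T_FOR) (h_REV : T_REV)
    (h_MTR : T_MTR) (h_CLO : T_CLO) (h_HMO : T_HMO) (h_TOP : T_TOP) (h_VAR : T_VAR) : T_R1H := by
  intro d K0 p a A hd hK hp0 hp1 ha haA
  have hA : 0 < A := lt_of_lt_of_le ha haA
  have hd1 : 1 ≤ d := by omega
  obtain ⟨δ, cg, r1, hδ, hcg, hr1, HGAP⟩ := h_GAP d K0 p a A hd hK hp0 hp1 ha haA
  obtain ⟨C', r2, hC', hr2, HGOO⟩ := h_GOO d K0 p a hd hK hp0 hp1 ha
  obtain ⟨C, r3, hC, hr3, HGDE⟩ := h_GDE d K0 p A C' hd hK hp0 hp1 hA hC'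
  have hB : 0 < 1 / δ := by positivity
  obtain ⟨c, j0, hc, hj0, HFOR⟩ := h_FOR d C (1 / δ) hd hC hB
  obtain ⟨C2, hC2, HREV⟩ := h_REV d C (1 / δ) hd hC hB
  have hq : 0 < 1 - p := by linarith
  obtain ⟨j, hjdef⟩ : ∃ j : ℝ, j = j0 + 4 * p * C2 / ((1 - p) * c) := ⟨_, rfl⟩
  have hjx : 0 < 4 * p * C2 / ((1 - p) * c) := by positivity
  have hjj0 : j0 ≤ j := by rw [hjdef]; linarith
  have hj : 0 < j := by linarith
  have hjC : (p / (1 - p)) * (C2 / j) ≤ c / 4 := by
    have h1 : 4 * p * C2 / ((1 - p) * c) ≤ j := by rw [hjdef]; linarith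
    rw [div_le_iff₀ (by positivity)] at h1
    rw [div_mul_div_comm, div_le_div_iff₀ (by positivity) (by norm_num)]
    nlinarith
  obtain ⟨r4, hr4, HFOR⟩ := HFOR j hjj0
  have hdr : (0 : ℝ) < d := by
    have : (1 : ℝ) ≤ d := by exact_mod_cast hd1
    linarith
  obtain ⟨J0, hJ0def⟩ : ∃ J0 : ℝ, J0 = 32 * d ^ 2 * j ^ 2 := ⟨_, rfl⟩
  have hJ0 : 0 < J0 := by rw [hJ0def]; positivity
  have hx1 : 0 < 2 * J0 * (1 / δ) := by positivity
  have hx2 : 0 < 7 / cg := by positivity
  refine ⟨J0, r1 + r2 + r3 + r4 + A + C' + J0 + 2 * J0 * (1 / δ) + 7 / cg + 8, hJ0, by linarith, ?_⟩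
  intro r x L _ hr hRg hWin
  have hr_1 : r1 ≤ r := by linarith
  have hr_2 : r2 ≤ r := by linarith
  have hr_3 : r3 ≤ r := by linarith
  have hr_4 : r4 ≤ r := by linarith
  have hr_A : A < r := by linarith
  have hr_C : C' < r := by linarith
  have hr_J : J0 ≤ r := by linarith
  have hr_B : 2 * J0 * (1 / δ) ≤ r := by linarith
  have hr_g : 7 / cg ≤ r := by linarith
  have hr_8 : 8 ≤ r := by linarith
  have hrp : 0 < r := by linarith
  have hr1' : 1 ≤ r := by linarith
  -- basic facts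
  have hrd : r ≤ r ^ d := by
    calc r = r ^ 1 := (pow_one r).symm
      _ ≤ r ^ d := pow_le_pow_right₀ hr1' hd1
  have hL3 : 3 ≤ L := by
    have h1 : r ^ (d + 4) ≤ (L : ℝ) := hRg.1
    have h2 : r ≤ r ^ (d + 4) := by
      calc r = r ^ 1 := (pow_one r).symm
        _ ≤ r ^ (d + 4) := pow_le_pow_right₀ hr1' (by omega)
    have h3 : (3 : ℝ) ≤ (L : ℝ) := by linarith
    exact_mod_cast h3
  have hxpos : 0 < x := by
    have h1 := hWin.2
    have h2 : r ≤ r ^ 2 := by nlinarith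
    by_contra hx
    push Not at hx
    nlinarith
  have hxle : x ≤ 1 := by
    by_contra hx
    push Not at hx
    have h1 := hWin.1
    nlinarith [sq_nonneg r, mul_pos (sub_pos.2 hx) (pow_pos hrp 2)]
  obtain ⟨y1, hy1⟩ : ∃ y1 : ℝ, y1 = x - δ / r ^ 2 := ⟨_, rfl⟩
  have hgap : ∀ l : ℝ, x ≤ l → 1 / (1 / δ) ≤ (l - y1) * r ^ 2 := by
    intro l hl
    rw [one_div_one_div, hy1]
    have h1 : δ = δ / r ^ 2 * r ^ 2 := by field_simp
    have h2 : 0 < r ^ 2 := by positivity
    nlinarith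
  have hsspos : 0 < ss d r := ss_pos hrp
  have hsqpos : 0 < sq d r := sq_pos hrp
  have hsqss : sq d r ^ 2 = ss d r := sq_sq hrp
  have hss1 : J0 * ss d r ≤ 1 := by
    have h1 := ss_le (d := d) hr1'
    nlinarith
  have hss2 : J0 * ss d r * (1 / δ * r ^ 2) ≤ 3 / 4 := by
    have h1 := ss_sq_le hd1 hr1'
    have h2 : 0 < ss d r * r ^ 2 := by positivity
    have h3 : 2 * (J0 * (1 / δ)) * (ss d r * r ^ 2) ≤ r * (ss d r * r ^ 2) :=
      mul_le_mul_of_nonneg_right (by linarith) h2.le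
    nlinarith
  -- the event
  obtain ⟨Ev, hEv⟩ : ∃ Ev : Finset (Tor d L) → Prop, Ev = fun O => x + J0 * ss d r ≤ lam O ∧ Sec O y1 ∧
      ((hol (mm d p K0 r) O).card : ℝ) ≤ C' * r ^ d := ⟨_, rfl⟩
  obtain ⟨Rn, hRn⟩ : ∃ Rn : Finset (Tor d L) → Tor d L → Prop, Rn = fun O z =>
      j * sq d r / 2 ≤ ph O z ∧ ph O z ≤ 4 * d * j * sq d r := ⟨_, rfl⟩
  have hgood : ∀ O : Finset (Tor d L), x ≤ lam O →
      ((hol (mm d p K0 r) O).card : ℝ) ≤ C' * r ^ d → O.Nonempty ∧ EF r C O (ph O) := by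
    intro O h1 h2
    have hne : O.Nonempty := nonempty_of_lam O (by linarith)
    refine ⟨hne, HGDE r L hr_3 hRg O (ph O) (ph_top h_TOP hd1 O hne) ?_ h2⟩
    have h3 := hWin.2
    have h4 : 0 < r ^ 2 := by positivity
    nlinarith
  -- lower bound of the left side
  have hlow : ∀ O : Finset (Tor d L), Ev O →
      c * r ^ (d - 1) ≤ ∑ z ∈ O, if Ev O ∧ Rn O z then Wt O z else 0 := by
    intro O hO
    have hO' := hO
    rw [hEv] at hO'
    obtain ⟨h1, h2, h3⟩ := hO'
    have hxl : x ≤ lam O := by nlinarith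
    obtain ⟨hne, hEF⟩ := hgood O hxl h3
    have huniv : O ≠ Finset.univ := by
      rintro rfl
      rw [hol_univ, Finset.card_univ, Fintype.card_fun, ZMod.card, Fintype.card_fin] at h3
      push_cast at h3
      have h4 : r ^ (d + 4) ≤ (L : ℝ) := hRg.1
      have hL1 : (1 : ℝ) ≤ (L : ℝ) := by exact_mod_cast (by omega : 1 ≤ L)
      have h5 : (L : ℝ) ≤ (L : ℝ) ^ d := by
        calc (L : ℝ) = (L : ℝ) ^ 1 := (pow_one _).symm
          _ ≤ (L : ℝ) ^ d := pow_le_pow_right₀ hL1 hd1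
      have h6 : r ^ (d + 4) = r ^ d * r ^ 4 := pow_add r d 4
      have h7 : r ≤ r ^ 4 := by
        calc r = r ^ 1 := (pow_one r).symm
          _ ≤ r ^ 4 := pow_le_pow_right₀ hr1' (by omega)
      have h8 : 0 < r ^ d := by positivity
      have h9 : C' * r ^ d < r ^ d * r ^ 4 := by
        rw [mul_comm (r ^ d)]
        exact mul_lt_mul_of_pos_right (by linarith) h8
      have h10 : r ^ d * r ^ 4 ≤ (L : ℝ) ^ d := by
        rw [← h6]
        exact h4.trans h5
      exact absurd (h9.trans_le h10) (not_lt.2 h3)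
    have h10 := HFOR r L hr_4 hRg.1 O (ph O) y1 hEF huniv h2 (hgap _ hxl)
    refine h10.trans (le_of_eq ?_)
    rw [Finset.sum_filter]
    apply Finset.sum_congr rfl
    intro z _
    by_cases hz : Rn O z
    · have hz' : j * sq d r / 2 ≤ ph O z ∧ ph O z ≤ 4 * d * j * sq d r := by
        rw [hRn] at hz; exact hz
      rw [if_pos hz', if_pos ⟨hO, hz⟩]
      rfl
    · have hz' : ¬ (j * sq d r / 2 ≤ ph O z ∧ ph O z ≤ 4 * d * j * sq d r) := by
        rw [hRn] at hz; exact hz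
      rw [if_neg hz', if_neg (fun h => hz h.2)]
  -- upper bound of the right side
  have hWt : ∀ (O : Finset (Tor d L)) (y : Tor d L), 0 ≤ Wt (insert y O) y := by
    intro O y
    unfold Wt
    apply div_nonneg _ (by positivity)
    have := (h_VAR d (ZMod L) hd1 ((insert y O).erase y)).2.2.2.1 (insert y O) (Finset.erase_subset _ _)
    linarith
  have hup : ∀ O : Finset (Tor d L),
      (∑ y ∈ Oᶜ, if Ev (insert y O) ∧ Rn (insert y O) y then Wt (insert y O) y else 0) ≤
        if x ≤ lam O then C2 * r ^ (d - 1) / j else 0 := by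
    intro O
    by_cases hex : ∃ y ∈ Oᶜ, Ev (insert y O) ∧ Rn (insert y O) y
    · -- key facts for each such point
      have hkey : ∀ y ∈ Oᶜ, Ev (insert y O) ∧ Rn (insert y O) y →
          x ≤ lam O ∧ ((hol (mm d p K0 r) O).card : ℝ) ≤ C' * r ^ d ∧
          ∃ (φo : Tor d L → ℝ) (y1 : ℝ), Top (insert y O) φo ∧ j * sq d r / 2 ≤ φo y ∧
            Sec (insert y O) y1 ∧ 1 / (1 / δ) ≤ (lam (insert y O) - y1) * r ^ 2 ∧
            (lam (insert y O) - lam O) * (1 / δ * r ^ 2) ≤ 3 / 4 := by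
        intro y hy hE
        obtain ⟨hE1, hE2⟩ := hE
        rw [hEv] at hE1
        rw [hRn] at hE2
        obtain ⟨h1, h2, h3⟩ := hE1
        obtain ⟨h4, h5⟩ := hE2
        have hxl : x ≤ lam (insert y O) := by nlinarith
        obtain ⟨hne, hEF⟩ := hgood _ hxl h3
        have hyO : y ∉ O := Finset.mem_compl.1 hy
        have herase : (insert y O).erase y = O := Finset.erase_insert hyO
        have hph0 : 0 ≤ ph (insert y O) y := hEF.top.nn y
        have hsqb : ph (insert y O) y ^ 2 ≤ J0 / 2 * ss d r := by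
          have h6 : ph (insert y O) y ^ 2 ≤ (4 * d * j * sq d r) ^ 2 :=
            pow_le_pow_left₀ hph0 h5 2
          have h7 : (4 * d * j * sq d r) ^ 2 = J0 / 2 * ss d r := by
            rw [hJ0def, ← hsqss]; ring
          linarith
        have h8 : ph (insert y O) y ^ 2 ≤ 1 / 2 := by linarith
        have h9 := h_CLO d L hd1 hL3 (insert y O) y (ph (insert y O)) hEF.top h8
        rw [herase] at h9
        have h10 : x ≤ lam O := by linarith
        have h11 : lam (insert y O) - lam O ≤ J0 * ss d r := by linarith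
        refine ⟨h10, ?_, ph (insert y O), y1, hEF.top, h4, h2, hgap _ hxl, ?_⟩
        · have h12 := (h_HMO d L (mm d p K0 r) O (insert y O) hd1).1 (Finset.subset_insert _ _)
          have h13 : ((hol (mm d p K0 r) O).card : ℝ) ≤ ((hol (mm d p K0 r) (insert y O)).card : ℝ) := by
            exact_mod_cast Finset.card_le_card h12
          linarith
        · have h14 : 0 < 1 / δ * r ^ 2 := by positivity
          calc (lam (insert y O) - lam O) * (1 / δ * r ^ 2) ≤ J0 * ss d r * (1 / δ * r ^ 2) :=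
                mul_le_mul_of_nonneg_right h11 h14.le
            _ ≤ 3 / 4 := hss2
      obtain ⟨y, hy, hE⟩ := hex
      obtain ⟨hx, hh, -⟩ := hkey y hy hE
      rw [if_pos hx]
      obtain ⟨hne, hEF⟩ := hgood O hx hh
      refine le_trans ?_ (HREV r j L (by linarith) hj hL3 O (ph O) hEF)
      rw [Finset.sum_filter]
      apply Finset.sum_le_sum
      intro z hz
      by_cases hzE : Ev (insert z O) ∧ Rn (insert z O) z
      · rw [if_pos hzE, if_pos (hkey z hz hzE).2.2]
      · rw [if_neg hzE]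
        split_ifs
        · exact hWt O z
        · exact le_refl _
    · push Not at hex
      rw [Finset.sum_eq_zero]
      · split_ifs
        · positivity
        · exact le_refl _
      · intro y hy
        rw [if_neg]
        rintro ⟨h1, h2⟩
        exact hex y hy h1 h2
  -- mass transport
  have hM := (h_MTR (Tor d L) p hp0 hp1).1 (fun O z => if Ev O ∧ Rn O z then Wt O z else 0)
  have hL : pr p Ev * (c * r ^ (d - 1)) ≤
      ∑ O : Finset (Tor d L), wt p O * ∑ z ∈ O, (if Ev O ∧ Rn O z then Wt O z else 0) := by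
    unfold pr
    rw [Finset.sum_mul]
    apply Finset.sum_le_sum
    intro O _
    by_cases hO : Ev O
    · rw [if_pos hO]
      exact mul_le_mul_of_nonneg_left (hlow O hO) (wt_nonneg hp0 hp1 O)
    · rw [if_neg hO, zero_mul, Finset.sum_eq_zero, mul_zero]
      intro z _
      rw [if_neg (fun h => hO h.1)]
  have hR : ∑ O : Finset (Tor d L), wt p O *
      ∑ y ∈ Oᶜ, (if Ev (insert y O) ∧ Rn (insert y O) y then Wt (insert y O) y else 0) ≤
      TT d L p x * (C2 * r ^ (d - 1) / j) := by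
    unfold TT pr
    rw [Finset.sum_mul]
    apply Finset.sum_le_sum
    intro O _
    refine (mul_le_mul_of_nonneg_left (hup O) (wt_nonneg hp0 hp1 O)).trans (le_of_eq ?_)
    split_ifs <;> ring
  have hTT0 : 0 ≤ TT d L p x := by
    unfold TT pr
    apply Finset.sum_nonneg
    intro O _
    split_ifs
    · exact wt_nonneg hp0 hp1 O
    · exact le_refl _
  have hrd1 : 0 < r ^ (d - 1) := by positivity
  have hA4 : pr p Ev ≤ TT d L p x / 4 := by
    have h1 : pr p Ev * (c * r ^ (d - 1)) ≤ (p / (1 - p)) * (TT d L p x * (C2 * r ^ (d - 1) / j)) := by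
      refine hL.trans ?_
      have h2 := mul_le_mul_of_nonneg_left hR (show 0 ≤ p / (1 - p) by positivity)
      refine le_trans (le_of_eq ?_) h2
      exact hM
    have h3 : (p / (1 - p)) * (TT d L p x * (C2 * r ^ (d - 1) / j)) =
        (TT d L p x * r ^ (d - 1)) * ((p / (1 - p)) * (C2 / j)) := by ring
    rw [h3] at h1
    have h4 : (TT d L p x * r ^ (d - 1)) * ((p / (1 - p)) * (C2 / j)) ≤
        (TT d L p x * r ^ (d - 1)) * (c / 4) :=
      mul_le_mul_of_nonneg_left hjC (by positivity)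
    have h5 : pr p Ev * (c * r ^ (d - 1)) ≤ (TT d L p x / 4) * (c * r ^ (d - 1)) := by
      refine h1.trans (h4.trans (le_of_eq ?_))
      ring
    exact le_of_mul_le_mul_right h5 (by positivity)
  -- union bound
  have hU : TT d L p (x + J0 * ss d r) ≤ pr p Ev + pr p (fun O : Finset (Tor d L) => ¬ Sec O y1) +
      pr p (fun O : Finset (Tor d L) => C' * r ^ d < ((hol (mm d p K0 r) O).card : ℝ)) := by
    unfold TT
    apply pr_union3 hp0 hp1
    intro O h1
    by_cases h2 : Sec O y1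
    · by_cases h3 : C' * r ^ d < ((hol (mm d p K0 r) O).card : ℝ)
      · exact Or.inr (Or.inr h3)
      · left
        rw [hEv]
        exact ⟨h1, h2, not_lt.1 h3⟩
    · exact Or.inr (Or.inl h2)
  have hG1 := HGAP r x L hr_1 hRg hWin
  rw [← hy1] at hG1
  have hG2 := HGOO r x L hr_2 hRg hWin.1 hxle
  have he1 : Real.exp (-cg * r ^ d) ≤ 1 / 8 := by
    have h1 : 7 ≤ cg * r ^ d := by
      rw [div_le_iff₀ hcg] at hr_g
      nlinarith
    rw [neg_mul]
    exact exp_small h1
  have he2 : Real.exp (-r ^ d) ≤ 1 / 8 := exp_small (by linarith)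
  have h1 := mul_le_mul_of_nonneg_right he1 hTT0
  have h2 := mul_le_mul_of_nonneg_right he2 hTT0
  linarith

end

end Pool.Agent.LBL
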