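import Pool.Agent.LBL.Targets2

set_option autoImplicit false

/-!
# LBL: reverse sum (T_REV)
-/

open Finset
open scoped Classical

namespace Pool.Agent.LBL

noncomputable section

/-- bound of one summand of the reverse sum -/
theorem REV_one (h_FLX : T_FLX) (h_UNQ : T_UNQ) (h_ONE : T_ONE) (d L : ℕ) [NeZero L] (hd : 2 ≤ d) (hL : 3 ≤ L)
    (B r j : ℝ) (hB : 0 < B) (hr : 1 < r) (hj : 0 < j) (O : Finset (Tor d L)) (φ : Tor d L → ℝ)
    (hφ : Top O φ) (y : Tor d L) (hy : y ∉ O) (φo : Tor d L → ℝ) (y1 : ℝ) (hφo : Top (insert y O) φo)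
    (hlow : j * sq d r / 2 ≤ φo y) (hsec : Sec (insert y O) y1)
    (hgap : 1 / B ≤ (lam (insert y O) - y1) * r ^ 2)
    (hsmall : (lam (insert y O) - lam O) * (B * r ^ 2) ≤ 3 / 4) :
    Wt (insert y O) y ≤ 4 / (j * sq d r) * P0 φ y := by
  have hd1 : 1 ≤ d := by omega
  have hsq : 0 < sq d r := by
    unfold sq
    exact Real.rpow_pos_of_pos (by linarith) _
  have hr2 : (0 : ℝ) < r ^ 2 := by positivity
  have hjs : 0 < j * sq d r := mul_pos hj hsq
  have hφy : 0 < φo y := by linarith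
  have hinvB : (0 : ℝ) < 1 / B := by positivity
  have hgpos : 0 < lam (insert y O) - y1 := by
    by_contra hcon
    push Not at hcon
    have : (lam (insert y O) - y1) * r ^ 2 ≤ 0 := mul_nonpos_of_nonpos_of_nonneg hcon hr2.le
    linarith
  have hph : ph (insert y O) = φo := (h_UNQ d (ZMod L) (insert y O) y1 φo φo hd1 hsec (by linarith) hφo hφo).2
  have herase : (insert y O).erase y = O := Finset.erase_insert hy
  have hone := h_ONE d L hd1 hL (insert y O) y φo φ (Finset.mem_insert_self y O) hφo (by rw [herase]; exact hφ)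
  rw [herase] at hone
  obtain ⟨hα0, hα1, hmono, hid, -, hsecb⟩ := hone
  set α := ip φ φo with hα
  set Δ := lam (insert y O) - lam O with hΔ
  have hs := hsecb y1 hsec
  have hP0 : 0 ≤ P0 φ y := (h_FLX d L hd1 O φ hφ).2.1 y
  -- α ≥ 1/2
  have hα2 : 1 - α ^ 2 ≤ 3 / 4 := by
    by_contra hcon
    push Not at hcon
    have h1 : (1 - α ^ 2) * (1 / B) ≤ (1 - α ^ 2) * ((lam (insert y O) - y1) * r ^ 2) :=
      mul_le_mul_of_nonneg_left hgap (by linarith)
    have h2 : (1 - α ^ 2) * (lam (insert y O) - y1) * r ^ 2 ≤ Δ * r ^ 2 :=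
      mul_le_mul_of_nonneg_right hs hr2.le
    have h3 : (1 - α ^ 2) * (1 / B) ≤ Δ * r ^ 2 := by linarith
    have h4 : (1 - α ^ 2) * (1 / B) * B ≤ Δ * r ^ 2 * B := mul_le_mul_of_nonneg_right h3 hB.le
    have h5 : (1 - α ^ 2) * (1 / B) * B = 1 - α ^ 2 := by
      field_simp
    have h6 : Δ * r ^ 2 * B = Δ * (B * r ^ 2) := by ring
    linarith
  have hαh : 1 / 2 ≤ α := by
    by_contra hcon
    push Not at hcon
    have : α ^ 2 < 1 / 4 := by nlinarith
    linarith
  -- the identity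
  unfold Wt
  rw [hph, herase, ← hΔ]
  have hΔe : Δ = P0 φ y * φo y / α := by
    rw [eq_div_iff (by linarith)]
    exact hid
  have hW : Δ / φo y ^ 2 = P0 φ y / (α * φo y) := by
    rw [hΔe]
    field_simp
  rw [hW]
  have hden : j * sq d r / 4 ≤ α * φo y := by
    have : (1 / 2) * (j * sq d r / 2) ≤ α * φo y := mul_le_mul hαh hlow (by positivity) (by linarith)
    linarith
  rw [div_le_iff₀ (by positivity)]
  have hfin : P0 φ y = 4 / (j * sq d r) * P0 φ y * (j * sq d r / 4) := by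
    field_simp
  calc P0 φ y = 4 / (j * sq d r) * P0 φ y * (j * sq d r / 4) := hfin
    _ ≤ 4 / (j * sq d r) * P0 φ y * (α * φo y) := by
        apply mul_le_mul_of_nonneg_left hden
        positivity

theorem p_REV (h_FLX : T_FLX) (h_UNQ : T_UNQ) (h_ONE : T_ONE) (h_FXM : T_FXM) : T_REV := by
  intro d C B hd hC hB
  obtain ⟨C1, hC1, hF⟩ := h_FXM d C hd hC
  refine ⟨4 * C1, by positivity, ?_⟩
  intro r j L _ hr hj hL O φ hEF
  have hd1 : 1 ≤ d := by omega
  have hsq : 0 < sq d r := by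
    unfold sq
    exact Real.rpow_pos_of_pos (by linarith) _
  have hP0 : ∀ x, 0 ≤ P0 φ x := (h_FLX d L hd1 O φ hEF.top).2.1
  have hFX := (hF r L hr O φ hEF).1
  have hc : 0 ≤ 4 / (j * sq d r) := by positivity
  calc ∑ y ∈ Oᶜ.filter (fun y => ∃ (φo : Tor d L → ℝ) (y1 : ℝ), Top (insert y O) φo ∧ j * sq d r / 2 ≤ φo y ∧
        Sec (insert y O) y1 ∧ 1 / B ≤ (lam (insert y O) - y1) * r ^ 2 ∧
        (lam (insert y O) - lam O) * (B * r ^ 2) ≤ 3 / 4), Wt (insert y O) y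
      ≤ ∑ y ∈ Oᶜ.filter (fun y => ∃ (φo : Tor d L → ℝ) (y1 : ℝ), Top (insert y O) φo ∧ j * sq d r / 2 ≤ φo y ∧
        Sec (insert y O) y1 ∧ 1 / B ≤ (lam (insert y O) - y1) * r ^ 2 ∧
        (lam (insert y O) - lam O) * (B * r ^ 2) ≤ 3 / 4), 4 / (j * sq d r) * P0 φ y := by
        apply Finset.sum_le_sum
        intro y hy
        rw [Finset.mem_filter, Finset.mem_compl] at hy
        obtain ⟨hyO, φo, y1, h1, h2, h3, h4, h5⟩ := hy
        exact REV_one h_FLX h_UNQ h_ONE d L hd hL B r j hB hr hj O φ hEF.top y hyO φo y1 h1 h2 h3 h4 h5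
    _ ≤ ∑ y ∈ Oᶜ, 4 / (j * sq d r) * P0 φ y := by
        apply Finset.sum_le_sum_of_subset_of_nonneg (Finset.filter_subset _ _)
        intro y _ _
        exact mul_nonneg hc (hP0 y)
    _ = 4 / (j * sq d r) * ∑ y ∈ Oᶜ, P0 φ y := by rw [Finset.mul_sum]
    _ ≤ 4 / (j * sq d r) * (C1 * r ^ (d - 1) * sq d r) := mul_le_mul_of_nonneg_left hFX hc
    _ = 4 * C1 * r ^ (d - 1) / j := by
        field_simp

end

end Pool.Agent.LBL
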