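import Pool.Agent.LBL.Targets2

set_option autoImplicit false

open Finset
open scoped Classical

namespace Pool.Agent.LBL

namespace RVE_

variable {d L : ℕ} [NeZero L]

lemma P0_add (f g : Tor d L → ℝ) (x : Tor d L) : P0 (f + g) x = P0 f x + P0 g x := by
  unfold P0
  rw [← add_div, ← Finset.sum_add_distrib]
  congr 1
  refine Finset.sum_congr rfl fun i _ => ?_
  simp only [Pi.add_apply]
  ring

lemma P0_smul (c : ℝ) (f : Tor d L → ℝ) (x : Tor d L) : P0 (c • f) x = c * P0 f x := by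
  unfold P0
  rw [← mul_div_assoc, Finset.mul_sum]
  congr 1
  refine Finset.sum_congr rfl fun i _ => ?_
  simp only [Pi.smul_apply, smul_eq_mul]
  ring

lemma ip_add (f g h : Tor d L → ℝ) : ip (f + g) h = ip f h + ip g h := by
  unfold ip
  rw [← Finset.sum_add_distrib]
  refine Finset.sum_congr rfl fun i _ => ?_
  simp only [Pi.add_apply]
  ring

lemma ip_smul (c : ℝ) (f h : Tor d L → ℝ) : ip (c • f) h = c * ip f h := by
  unfold ip
  rw [Finset.mul_sum]
  refine Finset.sum_congr rfl fun i _ => ?_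
  simp only [Pi.smul_apply, smul_eq_mul]
  ring

lemma ip_comm (f h : Tor d L → ℝ) : ip f h = ip h f := by
  unfold ip
  exact Finset.sum_congr rfl fun i _ => mul_comm _ _

lemma ipO {O : Finset (Tor d L)} {φ : Tor d L → ℝ} (h : Spp O φ) (u : Tor d L → ℝ) :
    ip u φ = ∑ x ∈ O, u x * φ x := by
  unfold ip
  symm
  apply Finset.sum_subset (Finset.subset_univ O)
  intro x _ hx
  rw [h x hx, mul_zero]

lemma ipO' {O : Finset (Tor d L)} {φ : Tor d L → ℝ} (h : Spp O φ) (u : Tor d L → ℝ) :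
    ip φ u = ∑ x ∈ O, φ x * u x := by
  rw [ip_comm, ipO h]
  exact Finset.sum_congr rfl fun i _ => mul_comm _ _

/-- the invertible operator -/
noncomputable def Bm (O : Finset (Tor d L)) (φ : Tor d L → ℝ) (l c : ℝ) :
    (Tor d L → ℝ) →ₗ[ℝ] (Tor d L → ℝ) where
  toFun f := fun x => if x ∈ O then l * f x - P0 f x + c * ip f φ * φ x else f x
  map_add' f g := by
    funext x
    simp only [Pi.add_apply, P0_add, ip_add]
    split_ifs <;> ring
  map_smul' t f := by
    funext x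
    simp only [Pi.smul_apply, P0_smul, ip_smul, smul_eq_mul, RingHom.id_apply]
    split_ifs <;> ring

lemma orth_of (h_ENI : T_ENI) (hd : 1 ≤ d) {O : Finset (Tor d L)} {φ : Tor d L → ℝ}
    (hT : Top O φ) (l : ℝ) (f g : Tor d L → ℝ) (hf : Spp O f)
    (hg : ∑ x ∈ O, g x * φ x = 0)
    (he : ∀ x ∈ O, l * f x - P0 f x + (lam O - l + 1) * ip f φ * φ x = g x) : ip f φ = 0 := by
  have h1 : ip (P0 f) φ = ip f (P0 φ) := ((h_ENI d L hd f φ).1).symm
  have h2 : ip f (P0 φ) = lam O * ip f φ := by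
    rw [ipO' hf, ipO' hf, Finset.mul_sum]
    refine Finset.sum_congr rfl fun x hx => ?_
    rw [hT.eq x hx]; ring
  have h3 : ip (P0 f) φ = ∑ x ∈ O, P0 f x * φ x := ipO hT.sp _
  have h4 : ip f φ = ∑ x ∈ O, f x * φ x := ipO hT.sp _
  have h5 : ∑ x ∈ O, φ x ^ 2 = 1 := hT.nm
  have h6 : ∑ x ∈ O, g x * φ x = l * ∑ x ∈ O, f x * φ x - ∑ x ∈ O, P0 f x * φ x +
      (lam O - l + 1) * ip f φ * ∑ x ∈ O, φ x ^ 2 := by
    rw [Finset.mul_sum, Finset.mul_sum, ← Finset.sum_sub_distrib, ← Finset.sum_add_distrib]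
    refine Finset.sum_congr rfl fun x hx => ?_
    rw [← he x hx]; ring
  rw [hg, h5, ← h4, ← h3, h1, h2] at h6
  linarith

lemma surj (h_ENI : T_ENI) (hd : 1 ≤ d) {O : Finset (Tor d L)} {φ : Tor d L → ℝ} {y l : ℝ}
    (hT : Top O φ) (hS : Sec O y) (hl : y < l) :
    Function.Surjective (Bm O φ l (lam O - l + 1)) := by
  rw [← LinearMap.injective_iff_surjective, ← LinearMap.ker_eq_bot, LinearMap.ker_eq_bot']
  intro f hf
  have h0 : ∀ x, (if x ∈ O then l * f x - P0 f x + (lam O - l + 1) * ip f φ * φ x else f x) = 0 :=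
    fun x => congrFun hf x
  have hsp : Spp O f := fun x hx => by simpa [hx] using h0 x
  have heq : ∀ x ∈ O, l * f x - P0 f x + (lam O - l + 1) * ip f φ * φ x = (0 : Tor d L → ℝ) x :=
    fun x hx => by simpa [hx] using h0 x
  have hor : ip f φ = 0 := orth_of h_ENI hd hT l f 0 hsp (by simp) heq
  have hor' : ∑ x ∈ O, f x * φ x = 0 := by rw [← ipO hT.sp]; exact hor
  have hle := hS φ hT f hsp hor'
  have hP : ∑ x ∈ O, f x * P0 f x = l * ∑ x ∈ O, f x ^ 2 := by
    rw [Finset.mul_sum]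
    refine Finset.sum_congr rfl fun x hx => ?_
    have := heq x hx
    rw [hor] at this
    simp only [mul_zero, zero_mul, add_zero, Pi.zero_apply] at this
    have h7 : P0 f x = l * f x := by linarith
    rw [h7]; ring
  rw [hP] at hle
  have hnn : 0 ≤ ∑ x ∈ O, f x ^ 2 := Finset.sum_nonneg fun x _ => sq_nonneg _
  have hz : ∑ x ∈ O, f x ^ 2 = 0 := by nlinarith
  rw [Finset.sum_eq_zero_iff_of_nonneg (fun x _ => sq_nonneg _)] at hz
  funext x
  by_cases hx : x ∈ O
  · exact pow_eq_zero_iff (two_ne_zero) |>.mp (hz x hx)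
  · exact hsp x hx

end RVE_

open RVE_ in
theorem p_RVE (h_ENI : T_ENI) : T_RVE := by
  intro d L _ hd O φ y l hT hS hl
  have key : ∀ g : Tor d L → ℝ, Spp O g → ∑ x ∈ O, g x * φ x = 0 →
      ∃ f : Tor d L → ℝ, Spp O f ∧ ip f φ = 0 ∧ ∀ x ∈ O, l * f x - P0 f x = g x := by
    intro g hg hgo
    obtain ⟨f, hf⟩ := surj h_ENI hd hT hS hl g
    have h0 : ∀ x, (if x ∈ O then l * f x - P0 f x + (lam O - l + 1) * ip f φ * φ x else f x)
        = g x := fun x => congrFun hf x
    have hsp : Spp O f := fun x hx => by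
      have := h0 x
      rw [if_neg hx, hg x hx] at this
      exact this
    have heq : ∀ x ∈ O, l * f x - P0 f x + (lam O - l + 1) * ip f φ * φ x = g x :=
      fun x hx => by simpa [hx] using h0 x
    have hor : ip f φ = 0 := orth_of h_ENI hd hT l f g hsp hgo heq
    refine ⟨f, hsp, hor, fun x hx => ?_⟩
    have := heq x hx
    rw [hor] at this
    simpa using this
  -- right hand sides
  have hδ : ∀ z ∈ O, Spp O (fun w => (if w = z then (1 : ℝ) else 0) - φ z * φ w) := by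
    intro z hz w hw
    have hne : w ≠ z := fun h => hw (h ▸ hz)
    simp [hne, hT.sp w hw]
  have hδo : ∀ z ∈ O, ∑ x ∈ O, ((if x = z then (1 : ℝ) else 0) - φ z * φ x) * φ x = 0 := by
    intro z hz
    have h1 : ∑ x ∈ O, ((if x = z then (1 : ℝ) else 0) - φ z * φ x) * φ x =
        ∑ x ∈ O, (if x = z then φ x else 0) - φ z * ∑ x ∈ O, φ x ^ 2 := by
      rw [Finset.mul_sum, ← Finset.sum_sub_distrib]
      refine Finset.sum_congr rfl fun x _ => ?_
      split_ifs <;> ring
    rw [h1, hT.nm, Finset.sum_ite_eq' O z φ, if_pos hz]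
    ring
  choose! F hF using fun z (hz : z ∈ O) => key _ (hδ z hz) (hδo z hz)
  let v : Tor d L → Tor d L → ℝ := fun z => if z ∈ O then F z else 0
  have hv : ∀ z ∈ O, v z = F z := fun z hz => if_pos hz
  have hv0 : ∀ z, z ∉ O → v z = 0 := fun z hz => if_neg hz
  have hsp : ∀ z, Spp O (v z) := by
    intro z
    by_cases hz : z ∈ O
    · rw [hv z hz]; exact (hF z hz).1
    · rw [hv0 z hz]; intro x _; rfl
  have hor : ∀ z, ip (v z) φ = 0 := by
    intro z
    by_cases hz : z ∈ O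
    · rw [hv z hz]; exact (hF z hz).2.1
    · rw [hv0 z hz]; simp [ip]
  have heq : ∀ z ∈ O, ∀ w ∈ O,
      l * v z w - P0 (v z) w = (if w = z then 1 else 0) - φ z * φ w := by
    intro z hz w hw
    rw [hv z hz]; exact (hF z hz).2.2 w hw
  have hval : ∀ z w, w ∈ O → v z w = l * ip (v z) (v w) - ip (v z) (P0 (v w)) := by
    intro z w hw
    have h1 : l * ip (v z) (v w) - ip (v z) (P0 (v w)) =
        ∑ x ∈ O, v z x * (l * v w x - P0 (v w) x) := by
      rw [ipO' (hsp z), ipO' (hsp z), Finset.mul_sum, ← Finset.sum_sub_distrib]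
      refine Finset.sum_congr rfl fun x _ => ?_
      ring
    have h2 : ∑ x ∈ O, v z x * (l * v w x - P0 (v w) x) =
        ∑ x ∈ O, (if x = w then v z x else 0) - φ w * ∑ x ∈ O, v z x * φ x := by
      rw [Finset.mul_sum, ← Finset.sum_sub_distrib]
      refine Finset.sum_congr rfl fun x hx => ?_
      rw [heq w hw x hx]
      split_ifs <;> ring
    rw [h1, h2, ← ipO' (hsp z), hor z, Finset.sum_ite_eq' O w (v z), if_pos hw]
    ring
  refine ⟨v, ⟨?_, hsp, hor, heq⟩⟩
  intro z w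
  by_cases hz : z ∈ O
  · by_cases hw : w ∈ O
    · rw [hval z w hw, hval w z hz, ip_comm (v z) (v w), (h_ENI d L hd (v z) (v w)).1,
        ip_comm (P0 (v z)) (v w)]
    · rw [hsp z w hw, hv0 w hw]; rfl
  · rw [hv0 z hz, hsp w z hz]; rfl

end Pool.Agent.LBL
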