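import Pool.Agent.LBL.Targets2

set_option autoImplicit false

/-!
# LBL-RVO: one closed site in terms of the resolvent

With `l = lam (O.erase z)`, `a = P0 φ z`, `α = ip φ φo` the function `g = φ - α φo + a v z` is supported in `O`, orthogonal to `φo`, and
`P0 g = l g + c φo` on `O` with `c = α l - α lam O + a φo z`. Hence the form of `g` equals `l |g|^2`, and `Sec O y` with `y < l` gives `g = 0`.
Then also `c = 0`. No other target is used.
-/

open Finset
open scoped Classical

namespace Pool.Agent.LBL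

noncomputable section

namespace RVO_

variable {d L : ℕ} [NeZero L]

omit [NeZero L] in
theorem P0_lin (f g h : Tor d L → ℝ) (α a : ℝ) (x : Tor d L) :
    P0 (fun w => f w - α * g w + a * h w) x = P0 f x - α * P0 g x + a * P0 h x := by
  unfold P0
  rw [← mul_div_assoc, ← mul_div_assoc, ← sub_div, ← add_div, Finset.mul_sum, Finset.mul_sum,
    ← Finset.sum_sub_distrib, ← Finset.sum_add_distrib]
  congr 1
  exact Finset.sum_congr rfl fun i _ => by ring

theorem ip_lin (f g h k : Tor d L → ℝ) (α a : ℝ) :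
    ip (fun w => f w - α * g w + a * h w) k = ip f k - α * ip g k + a * ip h k := by
  unfold ip
  rw [Finset.mul_sum, Finset.mul_sum, ← Finset.sum_sub_distrib, ← Finset.sum_add_distrib]
  exact Finset.sum_congr rfl fun i _ => by ring

theorem ip_spp (O : Finset (Tor d L)) (f g : Tor d L → ℝ) (hf : Spp O f) :
    ip f g = ∑ x ∈ O, f x * g x := by
  unfold ip
  symm
  refine Finset.sum_subset (Finset.subset_univ O) fun x _ hx => ?_
  rw [hf x hx, zero_mul]

theorem key (O : Finset (Tor d L)) (z : Tor d L) (φo φ : Tor d L → ℝ) (y : ℝ) (v : Tor d L → Tor d L → ℝ)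
    (hz : z ∈ O) (ho : Top O φo) (hs : Sec O y) (ht : Top (O.erase z) φ) (hy : y < lam (O.erase z))
    (hv : Rsv O φo (lam (O.erase z)) v) :
    (∀ w, φ w - ip φ φo * φo w + P0 φ z * v z w = 0) ∧
    ip φ φo * lam (O.erase z) - ip φ φo * lam O + P0 φ z * φo z = 0 := by
  set l := lam (O.erase z) with hl
  set α := ip φ φo with hα
  set a := P0 φ z with ha
  have hφz : φ z = 0 := ht.sp z (Finset.notMem_erase z O)
  have hnm : ip φo φo = 1 := by
    rw [ip_spp O φo φo ho.sp, ← ho.nm]
    exact Finset.sum_congr rfl fun x _ => by ring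
  have hsp : Spp O (fun w => φ w - α * φo w + a * v z w) := by
    intro x hx
    have h1 : φ x = 0 := ht.sp x fun h => hx (Finset.mem_of_mem_erase h)
    simp only [h1, ho.sp x hx, hv.sp z x hx]
    ring
  have hor : ip (fun w => φ w - α * φo w + a * v z w) φo = 0 := by
    rw [ip_lin, hnm, hv.orth z, ← hα]
    ring
  have hP : ∀ w ∈ O, P0 (fun w => φ w - α * φo w + a * v z w) w =
      l * (φ w - α * φo w + a * v z w) + (α * l - α * lam O + a * φo z) * φo w := by
    intro w hw
    rw [P0_lin, ho.eq w hw]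
    have h2 := hv.eq z hz w hw
    by_cases hwz : w = z
    · subst hwz
      rw [if_pos rfl] at h2
      rw [← ha, hφz]
      linear_combination (-a) * h2
    · rw [if_neg hwz] at h2
      have h3 := ht.eq w (Finset.mem_erase.2 ⟨hwz, hw⟩)
      rw [← hl] at h3
      rw [h3]
      linear_combination (-a) * h2
  have hor' : ∑ x ∈ O, (φ x - α * φo x + a * v z x) * φo x = 0 := by
    rw [← hor, ip_spp O _ _ hsp]
  have h4 := hs φo ho (fun w => φ w - α * φo w + a * v z w) hsp hor'
  have h5 : ∑ x ∈ O, (φ x - α * φo x + a * v z x) * P0 (fun w => φ w - α * φo w + a * v z w) x =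
      l * ∑ x ∈ O, (φ x - α * φo x + a * v z x) ^ 2 := by
    have h6 : ∀ x ∈ O, (φ x - α * φo x + a * v z x) * P0 (fun w => φ w - α * φo w + a * v z w) x =
        l * (φ x - α * φo x + a * v z x) ^ 2 +
          (α * l - α * lam O + a * φo z) * ((φ x - α * φo x + a * v z x) * φo x) := by
      intro x hx
      rw [hP x hx]
      ring
    rw [Finset.sum_congr rfl h6, Finset.sum_add_distrib, ← Finset.mul_sum, ← Finset.mul_sum, hor', mul_zero, add_zero]
  rw [h5] at h4
  have h7 : 0 ≤ ∑ x ∈ O, (φ x - α * φo x + a * v z x) ^ 2 := Finset.sum_nonneg fun x _ => sq_nonneg _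
  have h8 : ∑ x ∈ O, (φ x - α * φo x + a * v z x) ^ 2 = 0 := by
    by_contra hne
    have h9 : 0 < ∑ x ∈ O, (φ x - α * φo x + a * v z x) ^ 2 := lt_of_le_of_ne h7 (Ne.symm hne)
    have h10 := mul_lt_mul_of_pos_right hy h9
    linarith
  have h11 : ∀ w, φ w - α * φo w + a * v z w = 0 := by
    intro w
    by_cases hw : w ∈ O
    · have h12 := (Finset.sum_eq_zero_iff_of_nonneg fun x _ => sq_nonneg (φ x - α * φo x + a * v z x)).1 h8 w hw
      exact pow_eq_zero_iff (two_ne_zero) |>.1 h12
    · exact hsp w hw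
  refine ⟨h11, ?_⟩
  have hg : (fun w => φ w - α * φo w + a * v z w) = fun _ => (0 : ℝ) := funext h11
  obtain ⟨w, hw, hw0⟩ : ∃ w ∈ O, φo w ≠ 0 := by
    by_contra hcon
    push Not at hcon
    have h13 : ∑ x ∈ O, φo x ^ 2 = 0 := Finset.sum_eq_zero fun x hx => by rw [hcon x hx]; ring
    rw [ho.nm] at h13
    exact one_ne_zero h13
  have h14 := hP w hw
  rw [hg, h11 w] at h14
  have h15 : P0 (fun _ : Tor d L => (0 : ℝ)) w = 0 := by
    unfold P0
    simp
  rw [h15, mul_zero, zero_add] at h14
  rcases mul_eq_zero.1 h14.symm with h | h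
  · exact h
  · exact absurd h hw0

end RVO_

theorem p_RVO : T_RVO := by
  intro d L _ hd hL O z φo φ y v hz ho hs ht hy hv
  obtain ⟨h1, h2⟩ := RVO_.key O z φo φ y v hz ho hs ht hy hv
  have hφz : φ z = 0 := ht.sp z (Finset.notMem_erase z O)
  have h3 : P0 φ z * v z z = ip φ φo * φo z := by
    have := h1 z
    rw [hφz] at this
    linarith
  refine ⟨fun w => by linarith [h1 w], h3, fun hα => ?_⟩
  have h4 : ip φ φo * ((lam O - lam (O.erase z)) * v z z) = ip φ φo * φo z ^ 2 := by
    linear_combination (-(v z z)) * h2 + φo z * h3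
  exact mul_left_cancel₀ (ne_of_gt hα) h4

end

end Pool.Agent.LBL
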