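import Pool.Agent.LBL.Targets3

set_option autoImplicit false

/-!
# LBL, T_SHF: exchange of an isolated obstacle with a neighbour
-/

open Finset
open scoped Classical

namespace Pool.Agent.LBL.SHF_

open Pool.Agent.LBL

theorem kap_one (d : ℕ) (D : ℕ) : 1 ≤ kap d (D : ℝ) := by
  unfold kap
  split_ifs
  · have : 0 ≤ Real.log (1 + (D : ℝ)) := Real.log_nonneg (by
      have : (0 : ℝ) ≤ (D : ℝ) := Nat.cast_nonneg _
      linarith)
    linarith
  · exact le_refl _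

theorem num0 (a α P P2 g g2 F' f' e C' : ℝ) (ha : 0 < a) (hα1 : α ≤ 1) (hα2 : 1 / 2 ≤ α ^ 2)
    (hP : 0 ≤ P) (h1 : a * g = α * P) (hg : 1 / 2 ≤ g) (hg2 : |g - g2| ≤ C' * e)
    (hCe : C' * e ≤ 1 / 4) (hF0 : 0 ≤ F') (hP2 : P2 + F' ≤ P) (hP20 : 0 ≤ P2) (hf0 : 0 ≤ f')
    (hF : 3 * f' + 9 * (C' * e * a ^ 2) ≤ a * F') : P2 ^ 2 / g2 + f' ≤ P ^ 2 / g := by
  have hgp : 0 < g := by linarith
  obtain ⟨hab1, hab2⟩ := abs_le.mp hg2
  have hg2p : 0 < g2 := by linarith
  have hCe0 : 0 ≤ C' * e := le_trans (abs_nonneg _) hg2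
  set T := C' * e * a ^ 2 with hT
  have hT0 : 0 ≤ T := mul_nonneg hCe0 (sq_nonneg a)
  have hag : a * g ≤ P := by
    rw [h1]
    nlinarith
  have hPsq : P ^ 2 ≤ 2 * (a * g) ^ 2 := by
    have : (a * g) ^ 2 = α ^ 2 * P ^ 2 := by rw [h1]; ring
    nlinarith [sq_nonneg P]
  have hx : P2 ^ 2 ≤ P ^ 2 - P * F' := by
    have h2 : P2 ^ 2 ≤ (P - F') ^ 2 := by
      apply pow_le_pow_left₀ hP20
      linarith
    have h3 : (P - F') ^ 2 ≤ (P - F') * P := by
      have h4 : 0 ≤ P - F' := by linarith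
      nlinarith
    nlinarith
  have hmain : P ^ 2 * (g - g2) + f' * g * g2 ≤ P * F' * g := by
    have e1 : P ^ 2 * (g - g2) ≤ 2 * g ^ 2 * T := by
      have h5 : P ^ 2 * (g - g2) ≤ P ^ 2 * (C' * e) :=
        mul_le_mul_of_nonneg_left hab2 (sq_nonneg P)
      have h6 : P ^ 2 * (C' * e) ≤ 2 * (a * g) ^ 2 * (C' * e) :=
        mul_le_mul_of_nonneg_right hPsq hCe0
      have h7 : 2 * (a * g) ^ 2 * (C' * e) = 2 * g ^ 2 * T := by rw [hT]; ring
      linarith
    have e2 : f' * g * g2 ≤ 3 / 2 * g ^ 2 * f' := by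
      have h8 : g2 ≤ 3 / 2 * g := by linarith
      have h9 : f' * g * g2 ≤ f' * g * (3 / 2 * g) :=
        mul_le_mul_of_nonneg_left h8 (mul_nonneg hf0 hgp.le)
      nlinarith
    have e3 : 3 / 2 * g ^ 2 * f' ≤ 1 / 2 * g ^ 2 * (a * F') - 9 / 2 * g ^ 2 * T := by
      have h10 : g ^ 2 * (3 * f' + 9 * T) ≤ g ^ 2 * (a * F') :=
        mul_le_mul_of_nonneg_left hF (sq_nonneg g)
      nlinarith
    have e4 : g ^ 2 * (a * F') ≤ P * F' * g := by
      have h11 : (a * g) * (F' * g) ≤ P * (F' * g) :=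
        mul_le_mul_of_nonneg_right hag (mul_nonneg hF0 hgp.le)
      nlinarith
    have e5 : 0 ≤ g ^ 2 * T := mul_nonneg (sq_nonneg g) hT0
    have e6 : 0 ≤ g ^ 2 * (a * F') := mul_nonneg (sq_nonneg g) (mul_nonneg ha.le hF0)
    linarith
  have hQ : P ^ 2 / g * g = P ^ 2 := div_mul_cancel₀ _ hgp.ne'
  have hfin : P ^ 2 - P * F' ≤ (P ^ 2 / g - f') * g2 := by
    have h12 : g * (P ^ 2 - P * F') ≤ g * ((P ^ 2 / g - f') * g2) := by
      have h13 : g * ((P ^ 2 / g - f') * g2) = (P ^ 2 / g * g) * g2 - f' * g * g2 := by ring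
      rw [h13, hQ]
      nlinarith
    exact le_of_mul_le_mul_left h12 hgp
  have h14 : P2 ^ 2 / g2 ≤ P ^ 2 / g - f' := by
    rw [div_le_iff₀ hg2p]
    linarith
  linarith

theorem num (d a α P P2 g g2 F f e C3 C' : ℝ) (hd : 2 ≤ d) (ha : 0 < a) (hα1 : α ≤ 1)
    (hα2 : 1 / 2 ≤ α ^ 2)
    (hP : 0 ≤ P) (h1 : a * g = α * P) (hg : 1 / 2 ≤ g) (hg2 : |g - g2| ≤ C' * e)
    (hCe : C' * e ≤ 1 / 4) (hF0 : 0 ≤ F) (hP2 : P2 + F / (2 * d) ≤ P) (hP20 : 0 ≤ P2) (hf0 : 0 ≤ f)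
    (hF : f ≤ a * F + a ^ 2 * (C3 * e)) (hC5 : (2 * C3 + 36 * d * C') * a ^ 2 * e ≤ f) :
    P2 ^ 2 / g2 + f / (12 * d) ≤ P ^ 2 / g := by
  have hdp : 0 < d := by linarith
  apply num0 a α P P2 g g2 (F / (2 * d)) (f / (12 * d)) e C' ha hα1 hα2 hP h1 hg hg2 hCe
    (by positivity) hP2 hP20 (by positivity)
  have h2 : f / 2 + 18 * d * (C' * e * a ^ 2) ≤ a * F := by nlinarith
  have h3 : 3 * (f / (12 * d)) + 9 * (C' * e * a ^ 2) = (f / 2 + 18 * d * (C' * e * a ^ 2)) / (2 * d) := by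
    field_simp
    ring
  have h4 : a * (F / (2 * d)) = a * F / (2 * d) := by ring
  rw [h3, h4]
  exact div_le_div_of_nonneg_right h2 (by linarith)

theorem num2 (d a α P P2 g g2 α2 b w : ℝ) (hd : 2 ≤ d) (ha : 0 < a) (hα1 : α ≤ 1) (hP : 0 ≤ P)
    (w2 : a * g = α * P) (hg : 1 / 2 ≤ g) (hg3 : g2 ≤ 3 / 2 * g) (hPP : P ≤ 2 * d * P2)
    (hα2 : 99 / 100 ≤ α2 ^ 2) (hα20 : 0 ≤ α2) (q2 : b * w = α2 * P2) (hw : w ≤ g2) (hb : 0 ≤ b)
    (hP2 : 0 ≤ P2) : a / (16 * d) ≤ b := by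
  have hgp : 0 < g := by linarith
  have hα2h : 1 / 2 ≤ α2 := by
    by_contra hcon
    push Not at hcon
    nlinarith
  have h1 : α2 * P2 ≤ b * g2 := by
    rw [← q2]
    exact mul_le_mul_of_nonneg_left hw hb
  have h3 : 1 / 2 * P2 ≤ α2 * P2 := mul_le_mul_of_nonneg_right hα2h hP2
  have h4 : b * g2 ≤ b * (3 / 2 * g) := mul_le_mul_of_nonneg_left hg3 hb
  have h2 : P2 ≤ b * (3 * g) := by linarith
  have h5 : a * g ≤ P := by
    rw [w2]
    nlinarith
  have h8 : 2 * d * P2 ≤ 2 * d * (b * (3 * g)) := mul_le_mul_of_nonneg_left h2 (by linarith)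
  have h7 : a * g ≤ (b * (6 * d)) * g := by linarith
  have h9 : a ≤ b * (6 * d) := le_of_mul_le_mul_right h7 hgp
  rw [div_le_iff₀ (by linarith)]
  have h10 : 0 ≤ b * d := mul_nonneg hb (by linarith)
  linarith

theorem num3 (P P2 g g2 Δ ly B c4 r2 : ℝ) (hP20 : 0 ≤ P2) (hP2P : P2 ≤ P) (w3 : Δ * g = P ^ 2)
    (hgg : g ≤ 2 * g2) (hg2 : 0 < g2) (hΔ0 : 0 ≤ Δ) (hr2 : 0 < r2) (hΔr : Δ * r2 ≤ c4) (hB : 0 < B) (hc : c4 * B ≤ 1 / 100)
    (hl : 1 / B ≤ ly * r2) : P2 ^ 2 ≤ g2 * ly := by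
  have h1 : P2 ^ 2 ≤ P ^ 2 := pow_le_pow_left₀ hP20 hP2P 2
  have h2 : P ^ 2 ≤ g2 * (2 * Δ) := by
    rw [← w3]
    have := mul_le_mul_of_nonneg_left hgg hΔ0
    linarith
  have h5 : 2 * c4 ≤ 1 / B := by
    rw [le_div_iff₀ hB]
    linarith
  have h6 : 2 * Δ * r2 ≤ ly * r2 := by linarith
  have h3 : 2 * Δ ≤ ly := le_of_mul_le_mul_right h6 hr2
  have h7 : g2 * (2 * Δ) ≤ g2 * ly := mul_le_mul_of_nonneg_left h3 hg2.le
  linarith

theorem num4 (l o l2 q f d : ℝ) (hd : 2 ≤ d) (hf : 0 ≤ f) (hkey : q + f / (12 * d) ≤ o - l)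
    (hext : l + (o - l - q) / 2 ≤ l2) : l + f / (64 * d) ≤ l2 := by
  have h1 : f / (64 * d) ≤ f / (12 * d) / 2 := by
    have h2 : f / (12 * d) / 2 = f / (24 * d) := by
      rw [div_div]
      ring_nf
    rw [h2]
    exact div_le_div_of_nonneg_left hf (by linarith) (by linarith)
  linarith

theorem num5 (β X Δ c4 B r2 l y1 o : ℝ) (hX : X = o - y1) (hΔ : Δ = o - l) (hlo : l ≤ o) (hr2 : 0 < r2) (hB : 0 < B)
    (hc : c4 * B ≤ 1 / 100) (hΔr : Δ * r2 ≤ c4) (hl : 1 / B ≤ (l - y1) * r2)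
    (h : (1 - β ^ 2) * X ≤ Δ) : 99 / 100 ≤ β ^ 2 := by
  by_contra hcon
  push Not at hcon
  have h1 : (1 / 100 : ℝ) < 1 - β ^ 2 := by linarith
  have h2 : 1 / B ≤ X * r2 := by
    have : (l - y1) * r2 ≤ X * r2 := mul_le_mul_of_nonneg_right (by linarith) hr2.le
    linarith
  have h3 : (1 - β ^ 2) * (X * r2) ≤ c4 := by
    have h4 : (1 - β ^ 2) * X * r2 ≤ Δ * r2 := mul_le_mul_of_nonneg_right h hr2.le
    linarith
  have hBp : 0 < 1 / B := by positivity
  have h5 : (1 / 100) * (1 / B) < (1 - β ^ 2) * (X * r2) := by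
    have h51 : (1 / 100) * (1 / B) < (1 - β ^ 2) * (1 / B) := mul_lt_mul_of_pos_right h1 hBp
    have h52 : (1 - β ^ 2) * (1 / B) ≤ (1 - β ^ 2) * (X * r2) := mul_le_mul_of_nonneg_left h2 (by linarith)
    linarith
  have h6 : (1 / 100) * (1 / B) < c4 := lt_of_lt_of_le h5 h3
  have h7 : (1 / 100) * (1 / B) * B < c4 * B := mul_lt_mul_of_pos_right h6 hB
  have h8 : (1 / 100) * (1 / B) * B = 1 / 100 := by field_simp
  linarith

theorem core (h_ONE : T_ONE) (h_CLO : T_CLO) (h_RVE : T_RVE) (h_RVB : T_RVB) (h_RVO : T_RVO)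
    (h_FLX : T_FLX) (h_VAR : T_VAR) (h_GDF : T_GDF) (h_GDG : T_GDG) (h_EXT : T_EXT) :
    ∀ (d : ℕ) (C B : ℝ), 2 ≤ d → 1 ≤ C → 0 < B → ∃ C5 D0 c4 r0 : ℝ, 0 < C5 ∧ 4 ≤ D0 ∧ 0 < c4 ∧ 1 < r0 ∧
  ∀ (r : ℝ) (L : ℕ) [NeZero L], r0 ≤ r → r ≤ L → ∀ (O : Finset (Tor d L)) (φ φo : Tor d L → ℝ) (y y0 : Tor d L) (y1 : ℝ) (D : ℕ) (i : Fin d),
  y ∈ O → Top (O.erase y) φ → EF r C O φo → Sec O y1 → 1 / B ≤ (lam (O.erase y) - y1) * r ^ 2 → (1 - lam (O.erase y)) * r ^ 2 ≤ 2 * C →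
  (lam O - lam (O.erase y)) * r ^ 2 * kap d (td y y0) ≤ c4 → y0 ∉ O → D0 * kap d (td y y0) ≤ D → (D : ℝ) ≤ c4 * r →
  (∀ x, td x y ≤ D → x ∈ O) → C5 * (P0 φ y) ^ 2 * kap d (td y y0) / D ≤ fo i φ y → 0 < P0 φ y →
  ∃ (k : Fin d) (y'' : Tor d L), (y'' = y + ev k ∨ y'' = y - ev k) ∧ y'' ∈ O ∧ y'' ≠ y ∧
    lam (O.erase y) + fo i φ y / (64 * d) ≤ lam (O.erase y'') ∧
    ∀ φ'', Top (O.erase y'') φ'' → P0 φ y / (16 * d) ≤ P0 φ'' y'' := by
  intro d C B hd hC hB
  obtain ⟨C3, c41, r1, hC3, hc41, hr1, hgdf⟩ := h_GDF d C B hd hC hB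
  obtain ⟨C3', c42, r2, hC3', hc42, hr2, hgdg⟩ := h_GDG d C B hd hC hB
  have hdR : (2 : ℝ) ≤ d := by exact_mod_cast hd
  set c4 : ℝ := min (min c41 c42) (1 / (100 * B)) with hc4
  have hc4p : 0 < c4 := lt_min (lt_min hc41 hc42) (by positivity)
  have hc4a : c4 ≤ c41 := le_trans (min_le_left _ _) (min_le_left _ _)
  have hc4b : c4 ≤ c42 := le_trans (min_le_left _ _) (min_le_right _ _)
  have hc4c : c4 * B ≤ 1 / 100 := by
    have h1 : c4 ≤ 1 / (100 * B) := min_le_right _ _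
    have h2 : 1 / (100 * B) * B = 1 / 100 := by field_simp
    calc c4 * B ≤ 1 / (100 * B) * B := mul_le_mul_of_nonneg_right h1 hB.le
      _ = 1 / 100 := h2
  refine ⟨2 * C3 + 36 * d * C3', max 4 (4 * C3'), c4, max (max r1 r2) (max 3 (2 * C)), by positivity,
    le_max_left _ _, hc4p, ?_, ?_⟩
  · exact lt_of_lt_of_le hr1 (le_trans (le_max_left _ _) (le_max_left _ _))
  intro r L _ hr hrL O φ φo y y0 y1 D i hyO hφ hEF hSec hB1 hlC hΔ hy0 hD0 hDr hball hf ha
  have hrr1 : r1 ≤ r := le_trans (le_trans (le_max_left _ _) (le_max_left _ _)) hr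
  have hrr2 : r2 ≤ r := le_trans (le_trans (le_max_right _ _) (le_max_left _ _)) hr
  have hr3 : 3 ≤ r := le_trans (le_trans (le_max_left _ _) (le_max_right _ _)) hr
  have hr2C : 2 * C ≤ r := le_trans (le_trans (le_max_right _ _) (le_max_right _ _)) hr
  have hrp : 0 < r := by linarith
  have hr2p : 0 < r ^ 2 := by positivity
  have hL3 : 3 ≤ L := by
    have : (3 : ℝ) ≤ L := by linarith
    exact_mod_cast this
  have hTop := hEF.top
  have hvar := h_VAR d (ZMod L) (by omega)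
  set κ : ℝ := kap d (td y y0) with hκ
  have hκ1 : 1 ≤ κ := kap_one d _
  have hκp : 0 < κ := by linarith
  have hD4κ : 4 * κ ≤ D := le_trans (mul_le_mul_of_nonneg_right (le_max_left _ _) hκp.le) hD0
  have hD4 : 4 ≤ D := by
    have : (4 : ℝ) ≤ D := by linarith
    exact_mod_cast this
  have hDp : (0 : ℝ) < D := by
    have : (4 : ℝ) ≤ D := by exact_mod_cast hD4
    linarith
  have hC'e : C3' * (κ / D) ≤ 1 / 4 := by
    have h1 : 4 * C3' * κ ≤ D := le_trans (mul_le_mul_of_nonneg_right (le_max_right _ _) hκp.le) hD0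
    have h2 : C3' * (κ / D) = C3' * κ / D := by ring
    rw [h2, div_le_iff₀ hDp]
    linarith
  set l : ℝ := lam (O.erase y) with hl
  set a : ℝ := P0 φ y with haa
  set P : ℝ := φo y with hP
  set α : ℝ := ip φ φo with hα
  obtain ⟨o1, o2, o3, o4, o5, o6⟩ := h_ONE d L (by omega) hL3 O y φo φ hyO hTop hφ
  have o6' := o6 y1 hSec
  rw [← hα] at o1 o2 o4 o6'
  rw [← hl] at o3 o4 o5 o6'
  rw [← haa] at o4 o5
  rw [← hP] at o4
  have hly1 : 0 < l - y1 := by
    by_contra hcon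
    push Not at hcon
    have h1 : (l - y1) * r ^ 2 ≤ 0 := mul_nonpos_of_nonpos_of_nonneg hcon hr2p.le
    have h2 : 0 < 1 / B := by positivity
    linarith
  have hΔr : (lam O - l) * r ^ 2 ≤ c4 := by
    have h1 : 0 ≤ (lam O - l) * r ^ 2 := mul_nonneg (by linarith) hr2p.le
    nlinarith
  -- general bound for the overlap
  have halpha : ∀ β : ℝ, (1 - β ^ 2) * (lam O - y1) ≤ lam O - l → 99 / 100 ≤ β ^ 2 := by
    intro β hβ
    exact num5 β (lam O - y1) (lam O - l) c4 B (r ^ 2) l y1 (lam O) rfl rfl o3 hr2p hB hc4c hΔr hB1 hβ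
  have hα2 : 99 / 100 ≤ α ^ 2 := halpha α o6'
  have hαp : 0 < α := by
    rcases lt_or_eq_of_le o1 with h | h
    · exact h
    · exfalso
      rw [← h] at hα2
      norm_num at hα2
  obtain ⟨v, hv⟩ := h_RVE d L (by omega) O φo y1 l hTop hSec (by linarith)
  obtain ⟨w1, w2, w3⟩ := h_RVO d L (by omega) hL3 O y φo φ y1 v hyO hTop hSec hφ (by linarith) hv
  have w3' := w3 hαp
  rw [← hα] at w1 w2
  rw [← haa] at w1 w2
  rw [← hP] at w2 w3'
  rw [← hl] at w3'
  set g : ℝ := v y y with hg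
  have hΔp : 0 < lam O - l := by
    by_contra hcon
    push Not at hcon
    have h1 : lam O - l = 0 := by linarith
    rw [h1] at o5
    have : 0 < a ^ 2 := by positivity
    linarith
  have hP0 : 0 ≤ P := hTop.nn y
  have hPs : P ^ 2 ≤ 1 / 2 := by
    have h1 : P ≤ C * hh d r := hEF.sup y
    have h2 : hh d r ≤ 1 / r := by
      unfold hh
      rw [one_div, ← Real.rpow_neg_one]
      apply Real.rpow_le_rpow_of_exponent_le (by linarith)
      linarith
    have h3 : P ≤ 1 / 2 := by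
      have h4 : C * hh d r ≤ C * (1 / r) := mul_le_mul_of_nonneg_left h2 (by linarith)
      have h5 : C * (1 / r) ≤ 1 / 2 := by
        rw [mul_one_div, div_le_iff₀ hrp]
        linarith
      linarith
    nlinarith
  have hghalf : 1 / 2 ≤ g := by
    have h1 := h_CLO d L (by omega) hL3 O y φo hTop hPs
    rw [← hl, ← hP] at h1
    have h2 : lam O - l ≤ 2 * ((lam O - l) * g) := by
      rw [w3']
      linarith
    by_contra hcon
    push Not at hcon
    nlinarith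
  -- the force on the open configuration
  set F : ℝ := |φo (y + ev i) - φo (y - ev i)| with hF
  have hF0 : 0 ≤ F := abs_nonneg _
  have hg1 := hgdf r L hrr1 hrL O φo y1 l v y y0 D hEF hSec hB1
    ((hvar (O.erase y)).2.2.1) hlC hv hy0 (by omega)
    (le_trans hDr (mul_le_mul_of_nonneg_right hc4a hrp.le)) hball i i
  have hfle : fo i φ y ≤ a * F + a ^ 2 * (C3 * (κ / D)) := by
    unfold fo
    rw [← haa]
    have h1 : φ (y + ev i) - φ (y - ev i) = α * (φo (y + ev i) - φo (y - ev i)) -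
        a * (v y (y + ev i) - v y (y - ev i)) := by
      rw [w1 (y + ev i), w1 (y - ev i)]
      ring
    have h2 : |φ (y + ev i) - φ (y - ev i)| ≤ F + a * (C3 * κ / D) := by
      rw [h1]
      have h3 := abs_sub (α * (φo (y + ev i) - φo (y - ev i))) (a * (v y (y + ev i) - v y (y - ev i)))
      rw [abs_mul, abs_mul, abs_of_pos hαp, abs_of_pos ha, ← hF] at h3
      have h4 : α * F ≤ F := by nlinarith
      have h5 : a * |v y (y + ev i) - v y (y - ev i)| ≤ a * (C3 * κ / D) :=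
        mul_le_mul_of_nonneg_left hg1.1 ha.le
      linarith
    have h6 : a * |φ (y + ev i) - φ (y - ev i)| ≤ a * (F + a * (C3 * κ / D)) :=
      mul_le_mul_of_nonneg_left h2 ha.le
    have h7 : a * (F + a * (C3 * κ / D)) = a * F + a ^ 2 * (C3 * (κ / D)) := by ring
    linarith
  have hf0 : 0 ≤ fo i φ y := by
    unfold fo
    exact mul_nonneg ha.le (abs_nonneg _)
  -- the neighbour with the smallest value
  obtain ⟨⟨k, b⟩, _, hmin⟩ := Finset.exists_min_image (Finset.univ : Finset (Fin d × Bool))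
    (fun q => φo (if q.2 then y + ev q.1 else y - ev q.1)) ⟨(i, true), Finset.mem_univ _⟩
  set y'' : Tor d L := if b then y + ev k else y - ev k with hy''
  have hy''c : y'' = y + ev k ∨ y'' = y - ev k := by
    cases b
    · right
      simp [hy'']
    · left
      simp [hy'']
  have hmin1 : ∀ m : Fin d, φo y'' ≤ φo (y + ev m) := by
    intro m
    have := hmin (m, true) (Finset.mem_univ _)
    simpa using this
  have hmin2 : ∀ m : Fin d, φo y'' ≤ φo (y - ev m) := by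
    intro m
    have := hmin (m, false) (Finset.mem_univ _)
    simpa using this
  set P2 : ℝ := φo y'' with hP2
  have hP20 : 0 ≤ P2 := hTop.nn y''
  have hmean : P2 + F / (2 * d) ≤ P := by
    have h1 : P0 φo y ≤ P := by
      rw [hTop.eq y hyO]
      have := (hvar O).2.2.1
      nlinarith
    have h2 : ∑ m : Fin d, (2 * P2 + if m = i then F else 0) ≤ ∑ m : Fin d, (φo (y + ev m) + φo (y - ev m)) := by
      apply Finset.sum_le_sum
      intro m _
      have h3 := hmin1 m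
      have h4 := hmin2 m
      by_cases hm : m = i
      · subst hm
        rw [if_pos rfl, hF]
        rcases abs_cases (φo (y + ev m) - φo (y - ev m)) with ⟨h5, _⟩ | ⟨h5, _⟩
        · rw [h5]
          linarith
        · rw [h5]
          linarith
      · rw [if_neg hm]
        linarith
    rw [Finset.sum_add_distrib, Finset.sum_ite_eq' Finset.univ i (fun _ => F), if_pos (Finset.mem_univ _),
      Finset.sum_const, Finset.card_univ, Fintype.card_fin, nsmul_eq_mul] at h2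
    have h6 : P0 φo y = (∑ m : Fin d, (φo (y + ev m) + φo (y - ev m))) / (2 * d) := rfl
    have h7 : (d * (2 * P2) + F) / (2 * d) ≤ P0 φo y := by
      rw [h6]
      exact div_le_div_of_nonneg_right h2 (by linarith)
    have h8 : (d * (2 * P2) + F) / (2 * d) = P2 + F / (2 * d) := by
      field_simp
    linarith
  have hev : ∀ m : Fin d, (ev m : Tor d L) ≠ 0 := by
    intro m h
    have h1 := congrFun h m
    unfold ev at h1
    rw [Pi.single_eq_same, Pi.zero_apply] at h1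
    haveI : Fact (1 < L) := ⟨by omega⟩
    exact one_ne_zero h1
  have hy''ne : y'' ≠ y := by
    rcases hy''c with h | h
    · rw [h]
      intro h1
      exact hev k (by simpa using h1)
    · rw [h]
      intro h1
      exact hev k (by simpa using h1)
  have htd : td y'' y ≤ 1 := by
    unfold td
    apply Finset.sup_le
    intro m _
    have hone : (1 : ZMod L).valMinAbs.natAbs ≤ 1 := by
      have h1 := ZMod.valMinAbs_natCast_of_le_half (n := L) (a := 1) (by omega)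
      rw [Nat.cast_one] at h1
      rw [h1]
      simp
    rcases hy''c with h | h
    · rw [h]
      have h1 : (y + ev k : Tor d L) m - y m = (ev k : Tor d L) m := by
        rw [Pi.add_apply]
        ring
      rw [h1]
      unfold ev
      by_cases hm : m = k
      · subst hm
        rw [Pi.single_eq_same]
        exact hone
      · rw [Pi.single_eq_of_ne hm]
        simp
    · rw [h]
      have h1 : (y - ev k : Tor d L) m - y m = -((ev k : Tor d L) m) := by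
        rw [Pi.sub_apply]
        ring
      rw [h1, ZMod.natAbs_valMinAbs_neg]
      unfold ev
      by_cases hm : m = k
      · subst hm
        rw [Pi.single_eq_same]
        exact hone
      · rw [Pi.single_eq_of_ne hm]
        simp
  have hy''O : y'' ∈ O := hball y'' (by omega)
  have hg2 := hgdg r L hrr2 hrL O φo y1 l v y y0 D hEF hSec hB1
    ((hvar (O.erase y)).2.2.1) hlC hv hy0 hD4
    (le_trans hDr (mul_le_mul_of_nonneg_right hc4b hrp.le)) hball k
  set g2 : ℝ := v y'' y'' with hg2d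
  have hgg : |g - g2| ≤ C3' * (κ / D) := by
    have h1 : C3' * (κ / D) = C3' * κ / D := by ring
    rw [h1]
    rcases hy''c with h | h
    · have := hg2.1
      rw [hg2d, h]
      exact this
    · have := hg2.2
      rw [hg2d, h]
      exact this
  have hkey := num d a α P P2 g g2 F (fo i φ y) (κ / D) C3 C3' hdR ha o2 (by linarith) hP0 w2 hghalf hgg
    hC'e hF0 hmean hP20 hf0 hfle (by
      have h1 : (2 * C3 + 36 * d * C3') * a ^ 2 * (κ / D) = (2 * C3 + 36 * d * C3') * a ^ 2 * κ / D := by ring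
      rw [h1]
      exact hf)
  obtain ⟨ab1, ab2⟩ := abs_le.mp hgg
  have hg2q : 1 / 4 ≤ g2 := by linarith
  have hg2p : 0 < g2 := by linarith
  have hgp : 0 < g := by linarith
  have hgg2 : g ≤ 2 * g2 := by linarith
  have hgg3 : g2 ≤ 3 / 2 * g := by linarith
  have hPg : P ^ 2 / g = lam O - l := by
    rw [← w3']
    field_simp
  have hP2P : P2 ≤ P := by
    have : 0 ≤ F / (2 * d) := by positivity
    linarith
  have hfd : 0 ≤ fo i φ y / (12 * d) := by positivity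
  have hext := h_EXT d L (by omega) hL3 O φo y1 l v y'' hTop hSec (by linarith) hv hy''O hg2p
    (num3 P P2 g g2 (lam O - l) (l - y1) B c4 (r ^ 2) hP20 hP2P w3' hgg2 hg2p hΔp.le hr2p hΔr hB hc4c hB1) (by
      change P2 ^ 2 / g2 ≤ lam O - l
      rw [← hPg]
      linarith)
  change l + (lam O - l - P2 ^ 2 / g2) / 2 ≤ lam (O.erase y'') at hext
  have hgain : l + fo i φ y / (64 * d) ≤ lam (O.erase y'') := by
    rw [hPg] at hkey
    exact num4 l (lam O) _ _ _ d hdR hf0 hkey hext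
  refine ⟨k, y'', hy''c, hy''O, hy''ne, hgain, ?_⟩
  intro φ'' hφ''
  have hl'' : l ≤ lam (O.erase y'') := by
    have : 0 ≤ fo i φ y / (64 * d) := by positivity
    linarith
  set l2 : ℝ := lam (O.erase y'') with hl2
  obtain ⟨v2, hv2⟩ := h_RVE d L (by omega) O φo y1 l2 hTop hSec (by linarith)
  obtain ⟨q1, q2, q3⟩ := h_RVO d L (by omega) hL3 O y'' φo φ'' y1 v2 hy''O hTop hSec hφ'' (by linarith) hv2
  obtain ⟨s1, s2, s3, s4, s5, s6⟩ := h_ONE d L (by omega) hL3 O y'' φo φ'' hy''O hTop hφ''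
  have hα'' : 99 / 100 ≤ (ip φ'' φo) ^ 2 := by
    apply halpha
    have := s6 y1 hSec
    linarith
  obtain ⟨t1, t2, t3, t4, t5⟩ := h_RVB d L (by omega) O φo y1 l v hTop hSec (by linarith) hv
  have hmono : v2 y'' y'' ≤ g2 := t5 l2 v2 hl'' hv2 y''
  obtain ⟨u1, u2, u3, u4, u5, u6⟩ := h_FLX d L (by omega) (O.erase y'') φ'' hφ''
  have ha'' : 0 ≤ P0 φ'' y'' := u2 y''
  have hPP2 : P ≤ 2 * d * P2 := by
    obtain ⟨m1, m2, m3, m4, m5, m6⟩ := h_FLX d L (by omega) O φo hTop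
    have := m4 y'' hy''O k
    rcases hy''c with h | h
    · have h1 := this.2
      have h2 : y'' - ev k = y := by rw [h]; simp
      rw [h2] at h1
      exact h1
    · have h1 := this.1
      have h2 : y'' + ev k = y := by rw [h]; simp
      rw [h2] at h1
      exact h1
  set α2 : ℝ := ip φ'' φo with hα2'
  exact num2 d a α P P2 g g2 α2 (P0 φ'' y'') (v2 y'' y'') hdR ha o2 hP0 w2 hghalf hgg3 hPP2 hα'' s1 q2
    hmono ha'' hP20

end Pool.Agent.LBL.SHF_

namespace Pool.Agent.LBL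

theorem p_SHF (h_ONE : T_ONE) (h_CLO : T_CLO) (h_RVE : T_RVE) (h_RVB : T_RVB) (h_RVO : T_RVO)
    (h_FLX : T_FLX) (h_VAR : T_VAR) (h_GDF : T_GDF) (h_GDG : T_GDG) (h_EXT : T_EXT) : T_SHF := by
  intro d C B hd hC hB
  obtain ⟨C5, D0, c4, r0, hC5, hD0, hc4, hr0, h⟩ :=
    SHF_.core h_ONE h_CLO h_RVE h_RVB h_RVO h_FLX h_VAR h_GDF h_GDG h_EXT d C B hd hC hB
  refine ⟨C5, D0, c4, r0, hC5, hD0, hc4, hr0, ?_⟩
  intro r L _ hr hrL O' φ φo y y0 y1 D i hy hφ hEF hSec hB1 hlC hΔ hy0 hD hDr hball hf ha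
  have hO : (insert y O').erase y = O' := Finset.erase_insert hy
  obtain ⟨k, y'', hc, hO'', hne, h1, h2⟩ := h r L hr hrL (insert y O') φ φo y y0 y1 D i
    (Finset.mem_insert_self _ _) (by rw [hO]; exact hφ) hEF hSec (by rw [hO]; exact hB1)
    (by rw [hO]; exact hlC) (by rw [hO]; exact hΔ) hy0 hD hDr hball hf ha
  have hE : (insert y O').erase y'' = insert y (O'.erase y'') :=
    Finset.erase_insert_of_ne (fun h => hne h.symm)
  rw [hO] at h1
  rw [hE] at h1 h2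
  refine ⟨k, y'', hc, ?_, h1, h2⟩
  rcases Finset.mem_insert.mp hO'' with h3 | h3
  · exact absurd h3 hne
  · exact h3

end Pool.Agent.LBL
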