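import Pool.Agent.LBL.Targets1

set_option autoImplicit false

open Finset
open scoped Classical

namespace Pool.Agent.LBL

noncomputable section

lemma SIZ_pow (p : ℝ) (hp : 0 < p) (n : ℕ) : p ^ n = Real.exp (Real.log p * n) := by
  rw [← Real.rpow_natCast, Real.rpow_def_of_pos hp]

lemma SIZ_half (x : ℝ) (hx : 0 < x) (d : ℕ) : (x ^ (-(1 : ℝ) / 2)) ^ d = x ^ (-(d : ℝ) / 2) := by
  rw [← Real.rpow_natCast, ← Real.rpow_mul hx.le]
  congr 1
  ring

theorem p_SIZ (h_LDP : T_LDP) (h_VLO : T_VLO) (h_VUP : T_VUP) : T_SIZ := by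
  intro d K0 p hd hK hp hp1
  obtain ⟨cV, hcV, hlo⟩ := h_VLO d hd
  obtain ⟨CV, hCV, hup⟩ := h_VUP d hd
  have hlog : Real.log p < 0 := Real.log_neg hp hp1
  set l : ℝ := -Real.log p with hl
  have hl0 : 0 < l := by rw [hl]; linarith
  have h2d : (0 : ℝ) < (2 : ℝ) ^ (-(d : ℝ) / 2) := Real.rpow_pos_of_pos (by norm_num) _
  set c : ℝ := l * cV * (2 : ℝ) ^ (-(d : ℝ) / 2) / 2 with hc
  have hc0 : 0 < c := by rw [hc]; positivity
  refine ⟨c, l * CV, hc0, mul_pos hl0 hCV, ?_⟩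
  intro a ha
  have had : (0 : ℝ) < a ^ (-(d : ℝ) / 2) := Real.rpow_pos_of_pos ha _
  have hah : (0 : ℝ) < a ^ (-(1 : ℝ) / 2) := Real.rpow_pos_of_pos ha _
  have h2a : (0 : ℝ) < 2 * a := by linarith
  have h2ah : (0 : ℝ) < (2 * a) ^ (-(1 : ℝ) / 2) := Real.rpow_pos_of_pos h2a _
  obtain ⟨C, r0, hC, hr0, hL⟩ := h_LDP d K0 p a a (c * a ^ (-(d : ℝ) / 2)) hd hK hp hp1 ha le_rfl (mul_pos hc0 had)
  refine ⟨r0 + C / a + (2 * a + 1) + (2 * a) ^ (-(1 : ℝ) / 2) + CV * (a ^ (-(1 : ℝ) / 2) + 1), ?_, ?_⟩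
  · have : 0 < C / a := div_pos hC ha
    have : 0 < CV * (a ^ (-(1 : ℝ) / 2) + 1) := by positivity
    linarith
  intro r L _ hr hRg
  have q1 : 0 < C / a := div_pos hC ha
  have q2 : 0 < CV * (a ^ (-(1 : ℝ) / 2) + 1) := by positivity
  have hr0' : r0 ≤ r := by linarith
  have hrC : C / a ≤ r := by linarith
  have hra : 2 * a + 1 ≤ r := by linarith
  have hrh : (2 * a) ^ (-(1 : ℝ) / 2) ≤ r := by linarith
  have hrV : CV * (a ^ (-(1 : ℝ) / 2) + 1) ≤ r := by linarith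
  have hr1 : 1 ≤ r := by linarith
  have hrp : 0 < r := by linarith
  have hL2 : r ^ 2 ≤ (L : ℝ) := le_trans (pow_le_pow_right₀ hr1 (by omega)) hRg.1
  set x : ℝ := 1 - a / r ^ 2 with hx
  have hxr : (1 - x) * r ^ 2 = a := by rw [hx]; field_simp; ring
  have hw : Win a a r x := ⟨hxr.ge, hxr.le⟩
  obtain ⟨h1, h2⟩ := hL r x L hr0' hRg hw
  obtain ⟨V, hV1, hV2⟩ := hup a r x L ha hxr.ge hr1 (by
    calc CV * (r * a ^ (-(1 : ℝ) / 2) + 1) ≤ CV * (r * a ^ (-(1 : ℝ) / 2) + r) := by gcongr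
      _ = r * (CV * (a ^ (-(1 : ℝ) / 2) + 1)) := by ring
      _ ≤ r * r := by gcongr
      _ = r ^ 2 := by ring
      _ ≤ L := hL2)
  constructor
  · -- upper bound
    set x' : ℝ := x - C * r ^ (-(7 : ℝ) / 2) with hx'
    have hpow : r ^ (-(7 : ℝ) / 2) = r ^ (-(3 : ℝ) / 2) / r ^ 2 := by
      rw [eq_div_iff (by positivity), ← Real.rpow_natCast r 2, ← Real.rpow_add hrp]
      congr 1
      norm_num
    have h32 : C * r ^ (-(3 : ℝ) / 2) ≤ a := by
      have : r ^ (-(3 : ℝ) / 2) ≤ r ^ (-(1 : ℝ)) := Real.rpow_le_rpow_of_exponent_le hr1 (by norm_num)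
      rw [Real.rpow_neg_one] at this
      calc C * r ^ (-(3 : ℝ) / 2) ≤ C * r⁻¹ := by gcongr
        _ = C / r := by ring
        _ ≤ a := by
          rw [div_le_iff₀ hrp]
          rw [div_le_iff₀ ha] at hrC
          linarith
    have hx'r : (1 - x') * r ^ 2 ≤ 2 * a := by
      have : (1 - x') * r ^ 2 = (1 - x) * r ^ 2 + C * r ^ (-(3 : ℝ) / 2) := by
        rw [hx', hpow]
        field_simp
        ring
      rw [this, hxr]
      linarith
    have hr2 : 2 * a < r ^ 2 := by nlinarith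
    have hx'0 : 0 < x' := by
      by_contra hcon
      push Not at hcon
      nlinarith [sq_nonneg r]
    have hx'x : x' ≤ x := by
      have : 0 < r ^ (-(7 : ℝ) / 2) := Real.rpow_pos_of_pos hrp _
      rw [hx']
      nlinarith
    have hne : {n : ℕ | ∃ V : Finset (Tor d L), V.card = n ∧ x' ≤ lam V}.Nonempty := ⟨V.card, V, rfl, hx'x.trans hV1⟩
    obtain ⟨W, hW1, hW2⟩ := Nat.sInf_mem hne
    have hvol : cV * (r * (2 * a) ^ (-(1 : ℝ) / 2)) ^ d ≤ (vol d L x' : ℝ) := by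
      have := hlo (2 * a) r x' L hr1 (by
        calc r * (2 * a) ^ (-(1 : ℝ) / 2) ≤ r * r := by gcongr
          _ = r ^ 2 := by ring
          _ ≤ L := hL2) h2a hx'0 hx'r W hW2
      rw [hW1] at this
      exact this
    have hval : cV * (r * (2 * a) ^ (-(1 : ℝ) / 2)) ^ d = cV * (2 : ℝ) ^ (-(d : ℝ) / 2) * a ^ (-(d : ℝ) / 2) * r ^ d := by
      rw [mul_pow, SIZ_half _ h2a, Real.mul_rpow (by norm_num) ha.le]
      ring
    rw [hval] at hvol
    refine h2.trans ?_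
    rw [SIZ_pow p hp, ← Real.exp_add]
    apply Real.exp_le_exp.2
    have : Real.log p = -l := by rw [hl]; ring
    rw [this]
    have hm := mul_le_mul_of_nonneg_left hvol hl0.le
    have e : l * (cV * (2 : ℝ) ^ (-(d : ℝ) / 2) * a ^ (-(d : ℝ) / 2) * r ^ d) = 2 * c * a ^ (-(d : ℝ) / 2) * r ^ d := by
      rw [hc]; ring
    rw [e] at hm
    nlinarith
  · -- lower bound
    refine le_trans ?_ h1
    rw [SIZ_pow p hp]
    apply Real.exp_le_exp.2
    have hle : (vol d L x : ℝ) ≤ V.card := by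
      exact_mod_cast Nat.sInf_le (⟨V, rfl, hV1⟩ : V.card ∈ {n : ℕ | ∃ V : Finset (Tor d L), V.card = n ∧ x ≤ lam V})
    have e : CV * (r * a ^ (-(1 : ℝ) / 2) + 1) ^ d = CV * (a ^ (-(1 : ℝ) / 2) + 1 / r) ^ d * r ^ d := by
      rw [mul_assoc, ← mul_pow]
      congr 2
      field_simp
    have h3 := hle.trans hV2
    rw [e] at h3
    have : Real.log p = -l := by rw [hl]; ring
    rw [this]
    have hm := mul_le_mul_of_nonneg_left h3 hl0.le
    nlinarith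

end

end Pool.Agent.LBL
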