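import Pool.Agent.LBL.Targets1

set_option autoImplicit false

/-!
# LBL: T_SUP, sup bound of the top eigenfunction
-/

open Finset
open scoped Classical

namespace Pool.Agent.LBL

/-- the transition operator preserves the pointwise order -/
theorem SUP_P0_mono {d L : ℕ} [NeZero L] {f g : Tor d L → ℝ} (h : ∀ x, f x ≤ g x) (x : Tor d L) :
    P0 f x ≤ P0 g x := by
  unfold P0
  apply div_le_div_of_nonneg_right _ (by positivity)
  apply Finset.sum_le_sum
  intro i _
  exact add_le_add (h _) (h _)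

theorem SUP_P0_smul {d L : ℕ} [NeZero L] (c : ℝ) (f : Tor d L → ℝ) (x : Tor d L) :
    P0 (fun y => c * f y) x = c * P0 f x := by
  unfold P0
  rw [← mul_div_assoc, Finset.mul_sum]
  congr 1
  apply Finset.sum_congr rfl
  intro i _
  ring

theorem SUP_Kz_mono {d L : ℕ} [NeZero L] {f g : Tor d L → ℝ} (h : ∀ x, f x ≤ g x) (x : Tor d L) :
    Kz f x ≤ Kz g x := by
  unfold Kz
  have h1 := SUP_P0_mono h x
  have h2 := h x
  linarith

theorem SUP_Kz_smul {d L : ℕ} [NeZero L] (c : ℝ) (f : Tor d L → ℝ) (x : Tor d L) :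
    Kz (fun y => c * f y) x = c * Kz f x := by
  unfold Kz
  rw [SUP_P0_smul]
  ring

/-- iterates of the lazy kernel on a subsolution -/
theorem SUP_iter {d L : ℕ} [NeZero L] (f : Tor d L → ℝ) (c : ℝ) (hc : 0 ≤ c) (h : ∀ x, c * f x ≤ Kz f x) (t : ℕ) :
    ∀ x, c ^ t * f x ≤ Kz^[t] f x := by
  induction t with
  | zero => intro x; simp
  | succ n ih =>
    intro x
    rw [Function.iterate_succ_apply']
    calc c ^ (n + 1) * f x = c ^ n * (c * f x) := by ring
      _ ≤ c ^ n * Kz f x := mul_le_mul_of_nonneg_left (h x) (pow_nonneg hc n)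
      _ = Kz (fun y => c ^ n * f y) x := (SUP_Kz_smul _ _ _).symm
      _ ≤ Kz (Kz^[n] f) x := SUP_Kz_mono ih x

theorem SUP_sub {d L : ℕ} [NeZero L] {O : Finset (Tor d L)} {φ : Tor d L → ℝ} (h : Top O φ) (x : Tor d L) :
    (1 + lam O) / 2 * φ x ≤ Kz φ x := by
  unfold Kz
  by_cases hx : x ∈ O
  · rw [h.eq x hx]
    apply le_of_eq
    ring
  · rw [h.sp x hx]
    have h0 : 0 ≤ P0 φ x := by
      unfold P0
      apply div_nonneg _ (by positivity)
      apply Finset.sum_nonneg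
      intro i _
      exact add_nonneg (h.nn _) (h.nn _)
    linarith

theorem SUP_ip {d L : ℕ} [NeZero L] {O : Finset (Tor d L)} {φ : Tor d L → ℝ} (h : Top O φ) : ip φ φ = 1 := by
  unfold ip
  rw [← h.nm]
  symm
  rw [← Finset.sum_subset (Finset.subset_univ O)]
  · apply Finset.sum_congr rfl
    intro x _
    ring
  · intro x _ hx
    rw [h.sp x hx]
    ring

theorem SUP_exp (u : ℝ) (h0 : 0 ≤ u) (h1 : u ≤ 1 / 2) : Real.exp (-(2 * u)) ≤ 1 - u := by
  have h2 : 1 + 2 * u ≤ Real.exp (2 * u) := by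
    have := Real.add_one_le_exp (2 * u)
    linarith
  have h3 : 1 ≤ (1 - u) * (1 + 2 * u) := by nlinarith
  have h4 : (1 - u) * (1 + 2 * u) ≤ (1 - u) * Real.exp (2 * u) :=
    mul_le_mul_of_nonneg_left h2 (by linarith)
  have h5 : 0 < Real.exp (-(2 * u)) := Real.exp_pos _
  have h6 : Real.exp (2 * u) * Real.exp (-(2 * u)) = 1 := by
    rw [← Real.exp_add]; simp
  nlinarith

theorem p_SUP (h_HKB : T_HKB) : T_SUP := by
  intro d hd A hA
  obtain ⟨C, hC, H⟩ := h_HKB d hd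
  refine ⟨Real.exp A * Real.sqrt (C * 2 ^ ((d : ℝ) / 2)), 2 + A, by positivity, by linarith, ?_⟩
  intro r L _ hr hrL O φ hT hlam x
  have hr2 : 2 ≤ r := by linarith
  have hr0 : 0 < r := by linarith
  have hrA : A ≤ r ^ 2 := by nlinarith
  set t : ℕ := ⌊r ^ 2⌋₊ with ht
  have ht1 : 1 ≤ t := by
    rw [ht, Nat.one_le_floor_iff]
    nlinarith
  have htle : (t : ℝ) ≤ r ^ 2 := Nat.floor_le (by positivity)
  have htL : t ≤ L ^ 2 := by
    have : (t : ℝ) ≤ ((L ^ 2 : ℕ) : ℝ) := by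
      push_cast
      exact htle.trans (pow_le_pow_left₀ hr0.le hrL 2)
    exact_mod_cast this
  have htge : r ^ 2 / 2 ≤ t := by
    have := Nat.lt_floor_add_one (r ^ 2)
    rw [← ht] at this
    nlinarith
  have hK := H L t φ x ht1 htL
  rw [SUP_ip hT, mul_one] at hK
  -- lower bound of the eigenvalue
  have hl1 : 1 - lam O ≤ A / r ^ 2 := by
    rw [le_div_iff₀ (by positivity)]
    exact hlam
  set u : ℝ := A / r ^ 2 / 2 with hu
  have hu0 : 0 ≤ u := by positivity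
  have hu1 : u ≤ 1 / 2 := by
    have : A / r ^ 2 ≤ 1 := by
      rw [div_le_one (by positivity)]
      exact hrA
    linarith
  have hmu : 1 - u ≤ (1 + lam O) / 2 := by
    rw [hu]; linarith
  have hmu0 : 0 ≤ (1 + lam O) / 2 := by linarith
  have hit := SUP_iter φ ((1 + lam O) / 2) hmu0 (SUP_sub hT) t x
  have hexp : Real.exp (-A) ≤ ((1 + lam O) / 2) ^ t := by
    calc Real.exp (-A) ≤ Real.exp ((t : ℝ) * (-(2 * u))) := by
          apply Real.exp_le_exp.mpr
          have h1 : (t : ℝ) * (2 * u) ≤ r ^ 2 * (2 * u) := mul_le_mul_of_nonneg_right htle (by linarith)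
          have h2 : r ^ 2 * (2 * u) = A := by
            rw [hu]; field_simp
          linarith
      _ = Real.exp (-(2 * u)) ^ t := by rw [← Real.exp_nat_mul]
      _ ≤ (1 - u) ^ t := pow_le_pow_left₀ (Real.exp_pos _).le (SUP_exp u hu0 hu1) t
      _ ≤ ((1 + lam O) / 2) ^ t := pow_le_pow_left₀ (by linarith) hmu t
  have hb : Kz^[t] φ x ≤ Real.sqrt (C * 2 ^ ((d : ℝ) / 2)) * hh d r := by
    have h1 : (t : ℝ) ^ (-(d : ℝ) / 2) ≤ (r ^ 2 / 2) ^ (-(d : ℝ) / 2) := by
      apply Real.rpow_le_rpow_of_nonpos (by positivity) htge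
      have : (0 : ℝ) ≤ d := Nat.cast_nonneg d
      linarith
    have h2 : (r ^ 2 / 2) ^ (-(d : ℝ) / 2) = 2 ^ ((d : ℝ) / 2) * hh d r ^ 2 := by
      unfold hh
      rw [Real.div_rpow (by positivity) (by norm_num), ← Real.rpow_natCast (r ^ (-(d : ℝ) / 2)) 2,
        ← Real.rpow_mul hr0.le, ← Real.rpow_natCast r 2, ← Real.rpow_mul hr0.le]
      rw [show -(d : ℝ) / 2 = -((d : ℝ) / 2) by ring, Real.rpow_neg (by norm_num : (0 : ℝ) ≤ 2)]
      rw [div_inv_eq_mul, mul_comm]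
      congr 1
      congr 1
      ring
    have hh0 : 0 ≤ hh d r := by unfold hh; positivity
    have h3 : (Kz^[t] φ x) ^ 2 ≤ (Real.sqrt (C * 2 ^ ((d : ℝ) / 2)) * hh d r) ^ 2 := by
      rw [mul_pow, Real.sq_sqrt (by positivity)]
      calc (Kz^[t] φ x) ^ 2 ≤ C * (t : ℝ) ^ (-(d : ℝ) / 2) := hK
        _ ≤ C * (r ^ 2 / 2) ^ (-(d : ℝ) / 2) := mul_le_mul_of_nonneg_left h1 hC.le
        _ = C * 2 ^ ((d : ℝ) / 2) * hh d r ^ 2 := by rw [h2]; ring
    exact (abs_le_of_sq_le_sq' h3 (by positivity)).2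
  have hphi := hT.nn x
  calc φ x = Real.exp A * (Real.exp (-A) * φ x) := by
        rw [← mul_assoc, ← Real.exp_add]; simp
    _ ≤ Real.exp A * (((1 + lam O) / 2) ^ t * φ x) :=
        mul_le_mul_of_nonneg_left (mul_le_mul_of_nonneg_right hexp hphi) (Real.exp_pos _).le
    _ ≤ Real.exp A * Kz^[t] φ x := mul_le_mul_of_nonneg_left hit (Real.exp_pos _).le
    _ ≤ Real.exp A * (Real.sqrt (C * 2 ^ ((d : ℝ) / 2)) * hh d r) :=
        mul_le_mul_of_nonneg_left hb (Real.exp_pos _).le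
    _ = Real.exp A * Real.sqrt (C * 2 ^ ((d : ℝ) / 2)) * hh d r := by ring

end Pool.Agent.LBL
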