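import Pool.Agent.LBL.Targets3

set_option autoImplicit false

/-!
# LBL-THN: thin layers carry little mass (helper51)
-/

open Finset
open scoped Classical

namespace Pool.Agent.LBL

noncomputable section

namespace THN_

variable {e L : ℕ} [NeZero L]

theorem sum_ins (i : Fin (e + 1)) (F : Tor (e + 1) L → ℝ) :
    ∑ x, F x = ∑ h : ZMod L, ∑ w : Tor e L, F (i.insertNth h w) := by
  rw [← (Fin.insertNthEquiv (fun _ => ZMod L) i).sum_comp, Fintype.sum_prod_type]
  rfl

theorem sum_layer (i : Fin (e + 1)) (F : Tor (e + 1) L → ℝ) (h : ZMod L) :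
    ∑ x ∈ Finset.univ.filter (fun x : Tor (e + 1) L => x i = h), F x =
      ∑ w : Tor e L, F (i.insertNth h w) := by
  rw [Finset.sum_filter, sum_ins i, Finset.sum_eq_single h]
  · simp
  · intro h' _ hh'
    apply Finset.sum_eq_zero
    intro w _
    rw [Fin.insertNth_apply_same, if_neg hh']
  · intro hh
    exact absurd (Finset.mem_univ _) hh

theorem card_layer (i : Fin (e + 1)) (p : Tor (e + 1) L → Prop) (h : ZMod L) :
    ((Finset.univ.filter fun x : Tor (e + 1) L => x i = h ∧ p x).card : ℝ) =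
      ((Finset.univ.filter fun w : Tor e L => p (i.insertNth h w)).card : ℝ) := by
  have h1 := sum_layer i (fun x => if p x then (1 : ℝ) else 0) h
  rw [Finset.sum_boole, Finset.filter_filter] at h1
  rw [h1, Finset.sum_boole]

theorem ins_add (i : Fin (e + 1)) (h : ZMod L) (w : Tor e L) (k : Fin e) :
    (i.insertNth h (w + ev k) : Tor (e + 1) L) =
      (i.insertNth h w : Tor (e + 1) L) + ev (i.succAbove k) := by
  funext j
  refine Fin.succAboveCases i ?_ ?_ j
  · simp only [Fin.insertNth_apply_same, Pi.add_apply, ev]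
    rw [Pi.single_eq_of_ne (Fin.succAbove_ne i k).symm, add_zero]
  · intro l
    simp only [Fin.insertNth_apply_succAbove, Pi.add_apply, ev]
    congr 1
    by_cases hl : l = k
    · subst hl
      simp
    · rw [Pi.single_eq_of_ne hl, Pi.single_eq_of_ne]
      intro h1
      exact hl (Fin.succAbove_right_injective h1)

theorem lip (a b t : ℝ) : (max (a - t) 0 - max (b - t) 0) ^ 2 ≤ (a - b) ^ 2 := by
  apply sq_le_sq.2
  have h := abs_max_sub_max_le_abs (a - t) (b - t) 0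
  have e1 : a - t - (b - t) = a - b := by ring
  rwa [e1] at h

theorem split (a t : ℝ) (ha : 0 ≤ a) (ht : 0 ≤ t) :
    a ^ 2 ≤ 2 * max (a - t) 0 ^ 2 + 2 * (t * a) := by
  rcases le_total a t with h | h
  · rw [max_eq_right (by linarith)]
    nlinarith
  · rw [max_eq_left (by linarith)]
    nlinarith [sq_nonneg (a - t)]

/-- the truncated layer -/
def ly (i : Fin (e + 1)) (φ : Tor (e + 1) L → ℝ) (t : ℝ) (h : ZMod L) : Tor e L → ℝ :=
  fun w => max (φ (i.insertNth h w) - t) 0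

theorem sum_En (i : Fin (e + 1)) (φ : Tor (e + 1) L → ℝ) (t : ℝ) :
    ∑ h : ZMod L, En (ly i φ t h) ≤ En φ := by
  have h1 : En φ = Ed i φ + ∑ k : Fin e, Ed (i.succAbove k) φ := by
    unfold En
    rw [Fin.sum_univ_succAbove _ i]
  have h2 : 0 ≤ Ed i φ := Finset.sum_nonneg fun _ _ => sq_nonneg _
  have h3 : ∑ h : ZMod L, En (ly i φ t h) ≤ ∑ k : Fin e, Ed (i.succAbove k) φ := by
    unfold En
    rw [Finset.sum_comm]
    apply Finset.sum_le_sum
    intro k _
    unfold Ed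
    rw [sum_ins i (fun x => (φ (x + ev (i.succAbove k)) - φ x) ^ 2)]
    apply Finset.sum_le_sum
    intro h _
    apply Finset.sum_le_sum
    intro w _
    unfold ly
    rw [ins_add]
    exact lip _ _ _
  linarith

theorem layer_le (i : Fin (e + 1)) (φ : Tor (e + 1) L → ℝ) (t : ℝ) (h : ZMod L)
    (hφ : ∀ x, 0 ≤ φ x) (ht : 0 ≤ t) :
    ∑ x ∈ Finset.univ.filter (fun x : Tor (e + 1) L => x i = h), φ x ^ 2 ≤
      2 * ip (ly i φ t h) (ly i φ t h) +
        2 * t * ∑ x ∈ Finset.univ.filter (fun x : Tor (e + 1) L => x i = h), φ x := by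
  rw [sum_layer i (fun x => φ x ^ 2), sum_layer i φ, ip, Finset.mul_sum, Finset.mul_sum,
    ← Finset.sum_add_distrib]
  apply Finset.sum_le_sum
  intro w _
  have := split (φ (i.insertNth h w)) t (hφ _) ht
  unfold ly
  linarith

theorem sum_fiber (i : Fin (e + 1)) (F : Tor (e + 1) L → ℝ) :
    ∑ h : ZMod L, ∑ x ∈ Finset.univ.filter (fun x : Tor (e + 1) L => x i = h), F x = ∑ x, F x := by
  rw [sum_ins i F]
  exact Finset.sum_congr rfl fun h _ => sum_layer i F h

theorem thin (he : 1 ≤ e) {c : ℝ} (hc : 0 < c)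
    (hF : ∀ V : Finset (Tor e L), V.Nonempty → 2 * V.card ≤ L ^ e →
      ∀ f : Tor e L → ℝ, Spp V f → c * (V.card : ℝ) ^ (-(2 : ℝ) / e) * ip f f ≤ En f)
    {N : ℝ} (hN : 0 < N) (hNL : 2 * N ≤ (L : ℝ) ^ e) (i : Fin (e + 1)) (φ : Tor (e + 1) L → ℝ)
    (t : ℝ) (h : ZMod L)
    (hth : ((Finset.univ.filter fun x : Tor (e + 1) L => x i = h ∧ t < φ x).card : ℝ) ≤ N) :
    ip (ly i φ t h) (ly i φ t h) ≤ c⁻¹ * N ^ ((2 : ℝ) / e) * En (ly i φ t h) := by
  have hEn : 0 ≤ En (ly i φ t h) :=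
    Finset.sum_nonneg fun _ _ => Finset.sum_nonneg fun _ _ => sq_nonneg _
  rw [card_layer i (fun x => t < φ x) h] at hth
  set V : Finset (Tor e L) := Finset.univ.filter fun w : Tor e L => t < φ (i.insertNth h w)
    with hV
  have hs : Spp V (ly i φ t h) := by
    intro w hw
    have : ¬ t < φ (i.insertNth h w) := by
      intro h1
      exact hw (by rw [hV, Finset.mem_filter]; exact ⟨Finset.mem_univ _, h1⟩)
    unfold ly
    exact max_eq_right (by linarith [not_lt.1 this])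
  rcases V.eq_empty_or_nonempty with h0 | h0
  · have h1 : ly i φ t h = 0 := by
      funext w
      exact hs w (by rw [h0]; exact Finset.notMem_empty _)
    have h2 : ip (ly i φ t h) (ly i φ t h) = 0 := by
      rw [h1]
      unfold ip
      simp
    rw [h2]
    positivity
  · have hcard : (0 : ℝ) < (V.card : ℝ) := by exact_mod_cast h0.card_pos
    have h2L : 2 * V.card ≤ L ^ e := by
      have : (2 : ℝ) * (V.card : ℝ) ≤ (L : ℝ) ^ e := by linarith
      exact_mod_cast this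
    have h1 := hF V h0 h2L _ hs
    have he0 : (0 : ℝ) < (e : ℝ) := by exact_mod_cast he
    have h3 : (V.card : ℝ) ^ (-(2 : ℝ) / e) = ((V.card : ℝ) ^ ((2 : ℝ) / e))⁻¹ := by
      rw [neg_div, Real.rpow_neg hcard.le]
    have h4 : 0 < (V.card : ℝ) ^ ((2 : ℝ) / e) := Real.rpow_pos_of_pos hcard _
    rw [h3] at h1
    have h5 : ip (ly i φ t h) (ly i φ t h) ≤
        c⁻¹ * (V.card : ℝ) ^ ((2 : ℝ) / e) * En (ly i φ t h) := by
      have h6 := mul_le_mul_of_nonneg_left h1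
        (show (0 : ℝ) ≤ c⁻¹ * (V.card : ℝ) ^ ((2 : ℝ) / e) by positivity)
      have h7 : c⁻¹ * (V.card : ℝ) ^ ((2 : ℝ) / e) *
          (c * ((V.card : ℝ) ^ ((2 : ℝ) / e))⁻¹ * ip (ly i φ t h) (ly i φ t h)) =
          ip (ly i φ t h) (ly i φ t h) := by
        field_simp
      rwa [h7] at h6
    refine h5.trans ?_
    have h8 : (V.card : ℝ) ^ ((2 : ℝ) / e) ≤ N ^ ((2 : ℝ) / e) :=
      Real.rpow_le_rpow hcard.le hth (by positivity)
    gcongr

end THN_

theorem p_THN (h_FKT : T_FKT) (h_FLX : T_FLX) : T_THN := by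
  intro d C ε hd hC hε
  obtain ⟨e, rfl⟩ : ∃ e, d = e + 1 := ⟨d - 1, by omega⟩
  have he : 1 ≤ e := by omega
  obtain ⟨c, hc, hF⟩ := h_FKT e he
  have he0 : (0 : ℝ) < (e : ℝ) := by exact_mod_cast he
  set a : ℝ := ε * c / (8 * ((e + 1 : ℕ) : ℝ) * C) with ha
  have ha0 : 0 < a := by positivity
  refine ⟨min (1 / 2) (a ^ ((e : ℝ) / 2)), max 2 (4 * C / ε), by positivity,
    lt_of_lt_of_le (by norm_num) (le_max_left _ _), ?_⟩
  intro r L _ hr hL O φ hEF i
  set η : ℝ := min (1 / 2) (a ^ ((e : ℝ) / 2)) with hη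
  have hη0 : 0 < η := by positivity
  have hr2 : 2 ≤ r := (le_max_left _ _).trans hr
  have hr0 : 0 < r := by linarith
  have hrε : 4 * C / ε ≤ r := (le_max_right _ _).trans hr
  set t : ℝ := hh (e + 1) r * r ^ (-(3 : ℝ) / 2) with ht
  have hh0 : 0 < hh (e + 1) r := Real.rpow_pos_of_pos hr0 _
  have ht0 : 0 < t := mul_pos hh0 (Real.rpow_pos_of_pos hr0 _)
  have hφ := hEF.top.nn
  have hsub : e + 1 - 1 = e := by omega
  rw [hsub]
  -- the number of points of a thin layer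
  have hN : 0 < η * r ^ e := by positivity
  have hNL : 2 * (η * r ^ e) ≤ (L : ℝ) ^ e := by
    have h1 : η ≤ 1 / 2 := min_le_left _ _
    have h2 : r ≤ (L : ℝ) := by
      calc r = r ^ 1 := (pow_one r).symm
        _ ≤ r ^ (e + 1 + 4) := pow_le_pow_right₀ (by linarith) (by omega)
        _ ≤ L := hL
    have h3 : r ^ e ≤ (L : ℝ) ^ e := pow_le_pow_left₀ hr0.le h2 e
    have h4 : 2 * (η * r ^ e) ≤ r ^ e := by
      nlinarith [pow_pos hr0 e]
    linarith
  have hkey : (η * r ^ e) ^ ((2 : ℝ) / e) ≤ a * r ^ 2 := by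
    rw [Real.mul_rpow hη0.le (by positivity)]
    have h1 : η ^ ((2 : ℝ) / e) ≤ a := by
      calc η ^ ((2 : ℝ) / e) ≤ (a ^ ((e : ℝ) / 2)) ^ ((2 : ℝ) / e) :=
            Real.rpow_le_rpow hη0.le (min_le_right _ _) (by positivity)
        _ = a := by
            rw [← Real.rpow_mul ha0.le]
            have : (e : ℝ) / 2 * ((2 : ℝ) / e) = 1 := by field_simp
            rw [this, Real.rpow_one]
    have h2 : (r ^ e) ^ ((2 : ℝ) / e) = r ^ 2 := by
      rw [← Real.rpow_natCast r e, ← Real.rpow_mul hr0.le]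
      have : (e : ℝ) * ((2 : ℝ) / e) = ((2 : ℕ) : ℝ) := by
        push_cast
        field_simp
      rw [this, Real.rpow_natCast]
    rw [h2]
    exact mul_le_mul_of_nonneg_right h1 (by positivity)
  have hEn : ∀ h : ZMod L, 0 ≤ En (THN_.ly i φ t h) := fun h =>
    Finset.sum_nonneg fun _ _ => Finset.sum_nonneg fun _ _ => sq_nonneg _
  have hl0 : ∀ h : ZMod L,
      0 ≤ ∑ x ∈ Finset.univ.filter (fun x : Tor (e + 1) L => x i = h), φ x := fun h =>
    Finset.sum_nonneg fun x _ => hφ x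
  have hstep : ∀ h ∈ Finset.univ.filter (fun h : ZMod L =>
      ((Finset.univ.filter fun x : Tor (e + 1) L => x i = h ∧ t < φ x).card : ℝ) ≤ η * r ^ e),
      ∑ x ∈ Finset.univ.filter (fun x : Tor (e + 1) L => x i = h), φ x ^ 2 ≤
        2 * (c⁻¹ * (a * r ^ 2)) * En (THN_.ly i φ t h) +
          2 * t * ∑ x ∈ Finset.univ.filter (fun x : Tor (e + 1) L => x i = h), φ x := by
    intro h hh'
    rw [Finset.mem_filter] at hh'
    have h1 := THN_.layer_le i φ t h hφ ht0.le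
    have h2 := THN_.thin he hc (fun V hV hV2 => (hF L V hV hV2).1) hN hNL i φ t h hh'.2
    have h3 : c⁻¹ * (η * r ^ e) ^ ((2 : ℝ) / e) * En (THN_.ly i φ t h) ≤
        c⁻¹ * (a * r ^ 2) * En (THN_.ly i φ t h) := by
      have := hEn h
      gcongr
    linarith
  refine (Finset.sum_le_sum hstep).trans ?_
  have hall : ∑ h ∈ Finset.univ.filter (fun h : ZMod L =>
      ((Finset.univ.filter fun x : Tor (e + 1) L => x i = h ∧ t < φ x).card : ℝ) ≤ η * r ^ e),
      (2 * (c⁻¹ * (a * r ^ 2)) * En (THN_.ly i φ t h) +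
          2 * t * ∑ x ∈ Finset.univ.filter (fun x : Tor (e + 1) L => x i = h), φ x) ≤
      ∑ h : ZMod L, (2 * (c⁻¹ * (a * r ^ 2)) * En (THN_.ly i φ t h) +
          2 * t * ∑ x ∈ Finset.univ.filter (fun x : Tor (e + 1) L => x i = h), φ x) := by
    apply Finset.sum_le_sum_of_subset_of_nonneg (Finset.filter_subset _ _)
    intro h _ _
    have h1 := hEn h
    have h2 := hl0 h
    positivity
  refine hall.trans ?_
  rw [Finset.sum_add_distrib, ← Finset.mul_sum, ← Finset.mul_sum, THN_.sum_fiber i φ]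
  have hE := THN_.sum_En i φ t
  have hEφ : En φ = 2 * ((e + 1 : ℕ) : ℝ) * (1 - lam O) :=
    (h_FLX (e + 1) L (by omega) O φ hEF.top).2.2.2.2.1
  have hmu := hEF.mu
  have hl1 := hEF.l1
  have hA : 2 * (c⁻¹ * (a * r ^ 2)) * ∑ h : ZMod L, En (THN_.ly i φ t h) ≤ ε / 2 := by
    have h1 : 2 * (c⁻¹ * (a * r ^ 2)) * ∑ h : ZMod L, En (THN_.ly i φ t h) ≤
        2 * (c⁻¹ * (a * r ^ 2)) * (2 * ((e + 1 : ℕ) : ℝ) * (1 - lam O)) := by
      rw [← hEφ]
      exact mul_le_mul_of_nonneg_left hE (by positivity)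
    have h2 : 2 * (c⁻¹ * (a * r ^ 2)) * (2 * ((e + 1 : ℕ) : ℝ) * (1 - lam O)) =
        4 * c⁻¹ * a * ((e + 1 : ℕ) : ℝ) * ((1 - lam O) * r ^ 2) := by ring
    have h3 : 4 * c⁻¹ * a * ((e + 1 : ℕ) : ℝ) * ((1 - lam O) * r ^ 2) ≤
        4 * c⁻¹ * a * ((e + 1 : ℕ) : ℝ) * C :=
      mul_le_mul_of_nonneg_left hmu (by positivity)
    have h4 : 4 * c⁻¹ * a * ((e + 1 : ℕ) : ℝ) * C = ε / 2 := by
      rw [ha]
      have hC0 : C ≠ 0 := by linarith
      field_simp
      ring
    linarith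
  have hB : 2 * t * ∑ x, φ x ≤ ε / 2 := by
    have h1 : 2 * t * ∑ x, φ x ≤ 2 * t * (C / hh (e + 1) r) :=
      mul_le_mul_of_nonneg_left hl1 (by positivity)
    have h2 : 2 * t * (C / hh (e + 1) r) = 2 * C * r ^ (-(3 : ℝ) / 2) := by
      rw [ht]
      field_simp
    have h3 : r ^ (-(3 : ℝ) / 2) ≤ r⁻¹ := by
      rw [← Real.rpow_neg_one]
      exact Real.rpow_le_rpow_of_exponent_le (by linarith) (by norm_num)
    have h4 : 2 * C * r ^ (-(3 : ℝ) / 2) ≤ 2 * C * r⁻¹ :=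
      mul_le_mul_of_nonneg_left h3 (by linarith)
    have h5 : 2 * C * r⁻¹ ≤ ε / 2 := by
      rw [div_le_iff₀ hε] at hrε
      rw [← div_eq_mul_inv, div_le_iff₀ hr0]
      linarith
    linarith
  linarith

end

end Pool.Agent.LBL
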