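import Pool.Agent.LBL.Targets1

set_option autoImplicit false

/-!
# LBL: T_TOP, existence of the top eigenfunction
-/

open Finset
open scoped Classical

namespace Pool.Agent.LBL

noncomputable section

namespace TOP_

variable {d : ℕ} {R : Type} [CommRing R]

/-- extension by zero -/
def ext (O : Finset (Fin d → R)) (g : O → ℝ) (x : Fin d → R) : ℝ :=
  if h : x ∈ O then g ⟨x, h⟩ else 0

theorem ext_spp (O : Finset (Fin d → R)) (g : O → ℝ) : Spp O (ext O g) := by
  intro x hx
  unfold ext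
  rw [dif_neg hx]

theorem ext_mem (O : Finset (Fin d → R)) (g : O → ℝ) (x : O) : ext O g x = g x := by
  unfold ext
  rw [dif_pos x.2]

theorem ext_cont (O : Finset (Fin d → R)) (x : Fin d → R) :
    Continuous fun g : O → ℝ => ext O g x := by
  unfold ext
  by_cases h : x ∈ O
  · simp only [dif_pos h]
    exact continuous_apply _
  · simp only [dif_neg h]
    exact continuous_const

theorem ext_res (O : Finset (Fin d → R)) (f : (Fin d → R) → ℝ) (hf : Spp O f) :
    ext O (fun x : O => f x) = f := by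
  funext x
  by_cases h : x ∈ O
  · exact ext_mem O _ ⟨x, h⟩
  · rw [hf x h, ext_spp O _ x h]

/-- the quadratic form -/
def Q (O : Finset (Fin d → R)) (g : O → ℝ) : ℝ := ∑ x ∈ O, ext O g x * P0 (ext O g) x

theorem Q_cont (O : Finset (Fin d → R)) : Continuous (Q O) := by
  unfold Q P0
  refine continuous_finsetSum _ fun x _ => ?_
  refine (ext_cont O x).mul ?_
  refine Continuous.div_const ?_ _
  refine continuous_finsetSum _ fun i _ => ?_
  exact (ext_cont O _).add (ext_cont O _)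

theorem sq_sum (O : Finset (Fin d → R)) (g : O → ℝ) :
    ∑ x ∈ O, ext O g x ^ 2 = ∑ x : O, g x ^ 2 := by
  rw [← Finset.sum_coe_sort O (fun x => ext O g x ^ 2)]
  exact Finset.sum_congr rfl fun x _ => by rw [ext_mem]

theorem sphere_compact (O : Finset (Fin d → R)) :
    IsCompact {g : O → ℝ | ∑ x : O, g x ^ 2 = 1} := by
  refine Metric.isCompact_of_isClosed_isBounded ?_ ?_
  · refine isClosed_eq ?_ continuous_const
    exact continuous_finsetSum _ fun x _ => (continuous_apply x).pow 2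
  · refine (Metric.isBounded_closedBall (x := (0 : O → ℝ)) (r := 1)).subset ?_
    intro g hg
    rw [mem_closedBall_zero_iff, pi_norm_le_iff_of_nonneg zero_le_one]
    intro x
    have h1 : g x ^ 2 ≤ 1 := by
      have h2 : ∑ x : O, g x ^ 2 = 1 := hg
      rw [← h2]
      exact Finset.single_le_sum (f := fun x : O => g x ^ 2) (fun y _ => sq_nonneg _)
        (Finset.mem_univ x)
    rw [Real.norm_eq_abs]
    exact abs_le_one_iff_mul_self_le_one.2 (by nlinarith)

theorem P0_abs (f : (Fin d → R) → ℝ) (x : Fin d → R) : |P0 f x| ≤ P0 (fun y => |f y|) x := by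
  unfold P0
  have h2 : (0 : ℝ) ≤ 2 * d := by positivity
  rw [abs_div, abs_of_nonneg h2]
  refine div_le_div_of_nonneg_right ?_ h2
  refine (Finset.abs_sum_le_sum_abs _ _).trans ?_
  exact Finset.sum_le_sum fun i _ => abs_add_le _ _

theorem ext_abs (O : Finset (Fin d → R)) (g : O → ℝ) :
    ext O (fun x => |g x|) = fun x => |ext O g x| := by
  funext x
  by_cases h : x ∈ O
  · rw [ext_mem O _ ⟨x, h⟩, ext_mem O _ ⟨x, h⟩]
  · rw [ext_spp O _ x h, ext_spp O _ x h, abs_zero]

theorem Q_abs (O : Finset (Fin d → R)) (g : O → ℝ) : Q O g ≤ Q O fun x => |g x| := by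
  unfold Q
  rw [ext_abs]
  refine Finset.sum_le_sum fun x _ => ?_
  calc ext O g x * P0 (ext O g) x ≤ |ext O g x * P0 (ext O g) x| := le_abs_self _
    _ = |ext O g x| * |P0 (ext O g) x| := abs_mul _ _
    _ ≤ |ext O g x| * P0 (fun y => |ext O g y|) x :=
      mul_le_mul_of_nonneg_left (P0_abs _ _) (abs_nonneg _)

theorem P0_lin (f h : (Fin d → R) → ℝ) (t : ℝ) (x : Fin d → R) :
    P0 (fun z => f z + t * h z) x = P0 f x + t * P0 h x := by
  unfold P0
  have e : ∑ i : Fin d, ((f (x + ev i) + t * h (x + ev i)) + (f (x - ev i) + t * h (x - ev i))) =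
      (∑ i : Fin d, (f (x + ev i) + f (x - ev i))) +
        t * ∑ i : Fin d, (h (x + ev i) + h (x - ev i)) := by
    rw [Finset.mul_sum, ← Finset.sum_add_distrib]
    exact Finset.sum_congr rfl fun i _ => by ring
  rw [e, add_div, mul_div_assoc]

theorem lin_zero (a b : ℝ) (h : ∀ t : ℝ, 2 * t * a + t ^ 2 * b ≤ 0) : a = 0 := by
  by_contra ha
  have hb : 0 < |b| + 1 := by positivity
  have h1 := h (a / (|b| + 1))
  have h2 : 2 * (a / (|b| + 1)) * a + (a / (|b| + 1)) ^ 2 * b =
      a ^ 2 * (2 * (|b| + 1) + b) / (|b| + 1) ^ 2 := by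
    field_simp
  rw [h2] at h1
  have h3 : 0 < a ^ 2 * (2 * (|b| + 1) + b) / (|b| + 1) ^ 2 := by
    have h4 : 0 < a ^ 2 := by positivity
    have h5 : 0 < 2 * (|b| + 1) + b := by
      have := neg_abs_le b
      have := abs_nonneg b
      linarith
    positivity
  linarith

end TOP_

open TOP_ in
theorem p_TOP (h_VAR : T_VAR) : T_TOP := by
  intro d R _ O hd hne
  obtain ⟨hform, -, -, -, hsym⟩ := h_VAR d R hd O
  have hSn : {g : O → ℝ | ∑ x : O, g x ^ 2 = 1}.Nonempty := by
    obtain ⟨x0, hx0⟩ := hne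
    refine ⟨fun x => if x = ⟨x0, hx0⟩ then 1 else 0, ?_⟩
    simp
  obtain ⟨g, hgS, hgmax⟩ := (sphere_compact O).exists_isMaxOn hSn (Q_cont O).continuousOn
  have hgS' : ∑ x : O, g x ^ 2 = 1 := hgS
  set φ : (Fin d → R) → ℝ := ext O fun x => |g x| with hφ
  have hnn : ∀ x, 0 ≤ φ x := by
    intro x
    rw [hφ, ext_abs]
    exact abs_nonneg _
  have hsp : Spp O φ := ext_spp O _
  have hnm : ∑ x ∈ O, φ x ^ 2 = 1 := by
    rw [hφ, sq_sum, ← hgS']
    exact Finset.sum_congr rfl fun x _ => sq_abs _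
  have hmax : ∀ f : (Fin d → R) → ℝ, Spp O f → ∑ x ∈ O, f x ^ 2 = 1 →
      ∑ x ∈ O, f x * P0 f x ≤ ∑ x ∈ O, φ x * P0 φ x := by
    intro f hf h1
    have h2 : Q O (fun x : O => f x) = ∑ x ∈ O, f x * P0 f x := by
      unfold Q
      rw [ext_res O f hf]
    have h3 : (fun x : O => f x) ∈ {g : O → ℝ | ∑ x : O, g x ^ 2 = 1} := by
      show ∑ x : O, f x ^ 2 = 1
      rw [← h1, ← Finset.sum_coe_sort O (fun x => f x ^ 2)]
    have h4 : Q O (fun x : O => f x) ≤ Q O g := hgmax h3
    have h5 : Q O g ≤ Q O fun x => |g x| := Q_abs O g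
    rw [← h2]
    exact h4.trans h5
  have hlam : ∑ x ∈ O, φ x * P0 φ x = lam O := by
    apply le_antisymm
    · have h := hform φ hsp
      rw [hnm, mul_one] at h
      exact h
    · unfold lam
      refine csSup_le ⟨_, φ, hsp, hnm, rfl⟩ ?_
      rintro t ⟨f, hf, h1, rfl⟩
      exact hmax f hf h1
  refine ⟨φ, hnn, hsp, hnm, ?_⟩
  intro x hx
  set h : (Fin d → R) → ℝ := fun y => if y = x then 1 else 0 with hh
  have hhs : Spp O h := by
    intro y hy
    have : y ≠ x := fun e => hy (e ▸ hx)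
    simp only [hh, if_neg this]
  have e1 : ∑ y ∈ O, h y * P0 φ y = P0 φ x := by
    simp only [hh, ite_mul, one_mul, zero_mul]
    rw [Finset.sum_ite_eq' O x, if_pos hx]
  have e2 : ∑ y ∈ O, φ y * h y = φ x := by
    simp only [hh, mul_ite, mul_one, mul_zero]
    rw [Finset.sum_ite_eq' O x, if_pos hx]
  have e3 : ∑ y ∈ O, φ y * P0 h y = P0 φ x := by
    rw [← e1]
    exact hsym φ h hsp hhs
  have key : ∀ t : ℝ, 2 * t * (P0 φ x - lam O * φ x) +
      t ^ 2 * (∑ y ∈ O, h y * P0 h y - lam O * ∑ y ∈ O, h y ^ 2) ≤ 0 := by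
    intro t
    have hs : Spp O (fun z => φ z + t * h z) := by
      intro y hy
      show φ y + t * h y = 0
      rw [hsp y hy, hhs y hy, mul_zero, add_zero]
    have h1 := hform _ hs
    have h2 : ∑ y ∈ O, (φ y + t * h y) * P0 (fun z => φ z + t * h z) y =
        ∑ y ∈ O, φ y * P0 φ y + t * ∑ y ∈ O, φ y * P0 h y + t * ∑ y ∈ O, h y * P0 φ y +
          t ^ 2 * ∑ y ∈ O, h y * P0 h y := by
      rw [Finset.mul_sum, Finset.mul_sum, Finset.mul_sum, ← Finset.sum_add_distrib,
        ← Finset.sum_add_distrib, ← Finset.sum_add_distrib]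
      refine Finset.sum_congr rfl fun y _ => ?_
      rw [P0_lin]
      ring
    have h3 : ∑ y ∈ O, (φ y + t * h y) ^ 2 =
        ∑ y ∈ O, φ y ^ 2 + 2 * t * ∑ y ∈ O, φ y * h y + t ^ 2 * ∑ y ∈ O, h y ^ 2 := by
      rw [Finset.mul_sum, Finset.mul_sum, ← Finset.sum_add_distrib, ← Finset.sum_add_distrib]
      exact Finset.sum_congr rfl fun y _ => by ring
    rw [h2, h3, hlam, hnm, e1, e2, e3] at h1
    linarith
  have := lin_zero _ _ key
  linarith

end

end Pool.Agent.LBL
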