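import Pool.Agent.LBL.Targets3

set_option autoImplicit false

/-!
# LBL, target TPF: facts for typical configurations
-/

open Finset
open scoped Classical

namespace Pool.Agent.LBL

noncomputable section

theorem TPF_log {r B : ℝ} (hr : 1 ≤ r) (hB : 0 ≤ B) (h : (2 * B) ^ 2 ≤ r) : B * Real.log r ≤ r := by
  have hr0 : 0 ≤ r := by linarith
  have hs : 0 < Real.sqrt r := Real.sqrt_pos.mpr (by linarith)
  have h1 : Real.log r ≤ 2 * Real.sqrt r := by
    have e : r = Real.sqrt r * Real.sqrt r := (Real.mul_self_sqrt hr0).symm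
    have e2 : Real.log r = Real.log (Real.sqrt r) + Real.log (Real.sqrt r) := by
      conv_lhs => rw [e]
      exact Real.log_mul hs.ne' hs.ne'
    have e3 : Real.log (Real.sqrt r) ≤ Real.sqrt r := by
      have := Real.log_le_sub_one_of_pos hs
      linarith
    linarith
  have h2 : 2 * B ≤ Real.sqrt r := Real.le_sqrt_of_sq_le h
  calc B * Real.log r ≤ B * (2 * Real.sqrt r) := mul_le_mul_of_nonneg_left h1 hB
    _ = (2 * B) * Real.sqrt r := by ring
    _ ≤ Real.sqrt r * Real.sqrt r := mul_le_mul_of_nonneg_right h2 hs.le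
    _ = r := Real.mul_self_sqrt hr0

theorem TPF_alg {Δ α b φ : ℝ} (hα0 : 0 ≤ α) (hα2 : 1 - α ^ 2 ≤ 2 / 3) (hb0 : 0 ≤ b) (hφ0 : 0 ≤ φ)
    (hΔ0 : 0 ≤ Δ) (hΔh : Δ ≤ 1 / 2) (heq : Δ * α = b * φ) (ha2 : b ^ 2 ≤ Δ * (1 + b ^ 2)) :
    1 / 2 ≤ α ∧ b ^ 2 ≤ 2 * Δ ∧ b / 4 ≤ φ := by
  have hα : 1 / 2 ≤ α := by
    by_contra hc
    push Not at hc
    have : α * α ≤ 1 / 2 * (1 / 2) := mul_le_mul hc.le hc.le hα0 (by norm_num)
    nlinarith
  have hb2 : b ^ 2 ≤ 2 * Δ := by
    have : Δ * b ^ 2 ≤ 1 / 2 * b ^ 2 := mul_le_mul_of_nonneg_right hΔh (by positivity)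
    linarith
  refine ⟨hα, hb2, ?_⟩
  rcases eq_or_lt_of_le hb0 with hb | hb
  · rw [← hb]
    linarith
  · have h1 : b * (b / 4) ≤ b * φ := by
      rw [← heq]
      have h2 : Δ * (1 / 2) ≤ Δ * α := mul_le_mul_of_nonneg_left hα hΔ0
      have h3 : b * (b / 4) = b ^ 2 / 4 := by ring
      rw [h3]
      linarith
    exact le_of_mul_le_mul_left h1 hb

theorem p_TPF (h_VAR : T_VAR) (h_ONE : T_ONE) (h_FXM : T_FXM) (h_FLX : T_FLX) : T_TPF := by
  intro d K0 a A δ C K hd hK0 ha haA hδ hC hK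
  have hd1 : 1 ≤ d := by omega
  obtain ⟨C1, hC1, hFX⟩ := h_FXM d C hd hC
  refine ⟨3 + 2 / δ + 6 * K / δ + 4 * K + (2 * (4 * C1 ^ 2 * K)) ^ 2, ?_, ?_⟩
  · have h1 : 0 < 2 / δ := by positivity
    have h2 : 0 < 6 * K / δ := by positivity
    have h3 : 0 ≤ (2 * (4 * C1 ^ 2 * K)) ^ 2 := by positivity
    linarith
  intro r x L _ hr hRg hW O hT hx
  have q1 : 0 < 2 / δ := by positivity
  have q2 : 0 < 6 * K / δ := by positivity
  have q3 : 0 ≤ (2 * (4 * C1 ^ 2 * K)) ^ 2 := by positivity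
  have hr3 : 3 ≤ r := by linarith
  have hr1 : 1 ≤ r := by linarith
  have hr0 : 0 < r := by linarith
  have hr2δ : 2 / δ ≤ r := by linarith
  have hr6 : 6 * K / δ ≤ r := by linarith
  have hr4 : 4 * K ≤ r := by linarith
  have hrC : (2 * (4 * C1 ^ 2 * K)) ^ 2 ≤ r := by linarith
  have hlog1 : 1 ≤ Real.log r := by
    rw [Real.le_log_iff_exp_le hr0]
    have := Real.exp_one_lt_d9
    linarith
  have hlogr : Real.log r ≤ r := by
    have := Real.log_le_sub_one_of_pos hr0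
    linarith
  -- powers
  have hs0 : 0 < ss d r := by unfold ss; positivity
  have hs4 : ss d r * r ^ 4 ≤ 1 := by
    have e : r ^ 4 = r ^ (4 : ℝ) := by
      rw [show (4 : ℝ) = ((4 : ℕ) : ℝ) by norm_num, Real.rpow_natCast]
    unfold ss
    rw [e, ← Real.rpow_add hr0]
    apply Real.rpow_le_one_of_one_le_of_nonpos hr1
    have : (2 : ℝ) ≤ d := by exact_mod_cast hd
    linarith
  have hsq0 : 0 < sq d r := by unfold sq; positivity
  have hsqs : sq d r * sq d r = ss d r := by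
    unfold sq ss
    rw [← Real.rpow_add hr0]
    congr 1
    ring
  have hs3 : r ^ (d - 1) * ss d r = r ^ (-(3 : ℝ)) := by
    unfold ss
    rw [← Real.rpow_natCast r (d - 1), ← Real.rpow_add hr0]
    congr 1
    rw [Nat.cast_sub hd1]
    push_cast
    ring
  have hL3 : 3 ≤ L := by
    have h1 : r ^ (d + 4) ≤ (L : ℝ) := hRg.1
    have h2 : r ^ 1 ≤ r ^ (d + 4) := pow_le_pow_right₀ hr1 (by omega)
    have h3 : (3 : ℝ) ≤ L := by
      rw [pow_one] at h2
      linarith
    exact_mod_cast h3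
  have hssr : ss d r * r ^ 2 ≤ 1 := by
    have h1 : ss d r * r ^ 2 ≤ ss d r * r ^ 4 := by
      apply mul_le_mul_of_nonneg_left _ hs0.le
      exact pow_le_pow_right₀ hr1 (by norm_num)
    linarith
  have hss2 : ss d r * r ^ 3 ≤ 1 / r := by
    rw [le_div_iff₀ hr0]
    calc ss d r * r ^ 3 * r = ss d r * r ^ 4 := by ring
      _ ≤ 1 := hs4
  obtain ⟨hOu, hSO, hTy⟩ := hT
  obtain ⟨y0, hy0⟩ : ∃ y0, y0 ∉ O := by
    by_contra hc
    push Not at hc
    exact hOu (Finset.eq_univ_iff_forall.mpr hc)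
  have hmuO : (1 - lam O) * r ^ 2 ≤ A + 1 := by
    have h1 := hW.2
    have h2 : (1 - lam O) ≤ (1 - x) + ss d r := by linarith
    calc (1 - lam O) * r ^ 2 ≤ ((1 - x) + ss d r) * r ^ 2 := mul_le_mul_of_nonneg_right h2 (by positivity)
      _ = (1 - x) * r ^ 2 + ss d r * r ^ 2 := by ring
      _ ≤ A + 1 := by linarith
  have hEO : EF r C O (ph O) := (hTy y0 hy0).2.2.2 O (Finset.subset_insert _ _) hmuO
  -- one closed point
  have hall : ∀ y, y ∉ O → EF r C (insert y O) (ph (insert y O)) ∧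
      lam (insert y O) - lam O ≤ 2 * K * ss d r * Real.log r ∧ 1 / 2 ≤ ip (ph O) (ph (insert y O)) ∧
      (P0 (ph O) y) ^ 2 ≤ 2 * (lam (insert y O) - lam O) ∧ P0 (ph O) y / 4 ≤ ph (insert y O) y := by
    intro y hy
    obtain ⟨_, hSy, hly, hUy⟩ := hTy y hy
    have hmon : lam O ≤ lam (insert y O) :=
      (h_VAR d (ZMod L) hd1 O).2.2.2.1 (insert y O) (Finset.subset_insert _ _)
    have hmuy : (1 - lam (insert y O)) * r ^ 2 ≤ A + 1 := by
      refine le_trans ?_ hmuO
      exact mul_le_mul_of_nonneg_right (by linarith) (by positivity)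
    have hEy : EF r C (insert y O) (ph (insert y O)) := hUy _ (Finset.Subset.refl _) hmuy
    have hΔ : lam (insert y O) - lam O ≤ 2 * K * ss d r * Real.log r := by
      have h1 : lam (insert y O) - lam O ≤ K * ss d r * Real.log r + ss d r := by linarith
      have h2 : ss d r * 1 ≤ K * ss d r * Real.log r := by
        calc ss d r * 1 ≤ ss d r * (K * Real.log r) := by
              apply mul_le_mul_of_nonneg_left _ hs0.le
              exact one_le_mul_of_one_le_of_one_le hK hlog1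
          _ = K * ss d r * Real.log r := by ring
      linarith
    have hΔ0 : 0 ≤ lam (insert y O) - lam O := by linarith
    have herase : (insert y O).erase y = O := Finset.erase_insert hy
    have hone := h_ONE d L hd1 hL3 (insert y O) y (ph (insert y O)) (ph O) (Finset.mem_insert_self _ _)
      hEy.top (by rw [herase]; exact hEO.top)
    rw [herase] at hone
    obtain ⟨hα0, hα1, _, heq, ha2, hsec⟩ := hone
    have hsy := hsec _ hSy
    set Δ := lam (insert y O) - lam O with hΔdef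
    set α := ip (ph O) (ph (insert y O)) with hαdef
    set b := P0 (ph O) y with hbdef
    have hb0 : 0 ≤ b := (h_FLX d L hd1 O (ph O) hEO.top).2.1 y
    have hφ0 : 0 ≤ ph (insert y O) y := hEy.top.nn y
    -- Δ r^2 small
    have hΔr : Δ * r ^ 2 ≤ 2 * K / r := by
      calc Δ * r ^ 2 ≤ (2 * K * ss d r * Real.log r) * r ^ 2 := mul_le_mul_of_nonneg_right hΔ (by positivity)
        _ ≤ (2 * K * ss d r * r) * r ^ 2 := by
            apply mul_le_mul_of_nonneg_right _ (by positivity)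
            exact mul_le_mul_of_nonneg_left hlogr (by positivity)
        _ = 2 * K * (ss d r * r ^ 3) := by ring
        _ ≤ 2 * K * (1 / r) := mul_le_mul_of_nonneg_left hss2 (by positivity)
        _ = 2 * K / r := by ring
    have hΔh : Δ ≤ 1 / 2 := by
      have h1 : Δ * 1 ≤ Δ * r ^ 2 := mul_le_mul_of_nonneg_left (one_le_pow₀ hr1) hΔ0
      have h2 : 2 * K / r ≤ 1 / 2 := by
        rw [div_le_iff₀ hr0]
        linarith
      linarith
    have hgap : δ / 2 ≤ (lam (insert y O) - (x - δ / r ^ 2)) * r ^ 2 := by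
      have h1 : lam (insert y O) - (x - δ / r ^ 2) ≥ δ / r ^ 2 - ss d r := by linarith
      have h2 : (δ / r ^ 2 - ss d r) * r ^ 2 ≤ (lam (insert y O) - (x - δ / r ^ 2)) * r ^ 2 :=
        mul_le_mul_of_nonneg_right h1 (by positivity)
      have h3 : (δ / r ^ 2 - ss d r) * r ^ 2 = δ - ss d r * r ^ 2 := by
        field_simp
      have h4 : ss d r * r ^ 2 ≤ 1 / r := by
        refine le_trans ?_ hss2
        apply mul_le_mul_of_nonneg_left _ hs0.le
        exact pow_le_pow_right₀ hr1 (by norm_num)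
      have h5 : 1 / r ≤ δ / 2 := by
        rw [div_le_iff₀ hr0]
        rw [div_le_iff₀ hδ] at hr2δ
        linarith
      linarith
    have hαs : (1 - α ^ 2) * (δ / 2) ≤ 2 * K / r := by
      have h1 : 0 ≤ 1 - α ^ 2 := by
        have : α ^ 2 ≤ 1 := pow_le_one₀ hα0 hα1
        linarith
      calc (1 - α ^ 2) * (δ / 2) ≤ (1 - α ^ 2) * ((lam (insert y O) - (x - δ / r ^ 2)) * r ^ 2) :=
            mul_le_mul_of_nonneg_left hgap h1
        _ = ((1 - α ^ 2) * (lam (insert y O) - (x - δ / r ^ 2))) * r ^ 2 := by ring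
        _ ≤ Δ * r ^ 2 := mul_le_mul_of_nonneg_right hsy (by positivity)
        _ ≤ 2 * K / r := hΔr
    have hα2 : 1 - α ^ 2 ≤ 2 / 3 := by
      have h1 : 2 * K / r ≤ δ / 3 := by
        rw [div_le_iff₀ hr0]
        rw [div_le_iff₀ hδ] at hr6
        linarith
      have h3 : (1 - α ^ 2) * (δ / 2) ≤ (2 / 3) * (δ / 2) := by linarith
      exact le_of_mul_le_mul_right h3 (by positivity)
    obtain ⟨r1, r2, r3⟩ := TPF_alg hα0 hα2 hb0 hφ0 hΔ0 hΔh heq ha2
    exact ⟨hEy, hΔ, r1, r2, r3⟩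
  refine ⟨hEO, ?_, hall⟩
  -- the sum of squares
  have hFL := h_FLX d L hd1 O (ph O) hEO.top
  have hFx := (hFX r L (by linarith) O (ph O) hEO).1
  set S : ℝ := 2 * Real.sqrt (K * Real.log r) * sq d r with hS
  have hKl : 0 ≤ K * Real.log r := by positivity
  have hS0 : 0 ≤ S := by positivity
  have hbS : ∀ y ∈ Oᶜ, P0 (ph O) y ≤ S := by
    intro y hy
    rw [Finset.mem_compl] at hy
    obtain ⟨_, h1, _, h2, _⟩ := hall y hy
    apply le_of_sq_le_sq _ hS0
    have h3 : S ^ 2 = 4 * (K * Real.log r) * ss d r := by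
      rw [hS, mul_pow, mul_pow, Real.sq_sqrt hKl, pow_two (sq d r), hsqs]
      ring
    rw [h3]
    linarith
  have hlogC : 4 * C1 ^ 2 * K * Real.log r ≤ r := TPF_log hr1 (by positivity) hrC
  calc ∑ y ∈ Oᶜ, (P0 (ph O) y) ^ 2 ≤ ∑ y ∈ Oᶜ, S * P0 (ph O) y := by
        apply Finset.sum_le_sum
        intro y hy
        rw [pow_two]
        exact mul_le_mul_of_nonneg_right (hbS y hy) (hFL.2.1 y)
    _ = S * ∑ y ∈ Oᶜ, P0 (ph O) y := by rw [Finset.mul_sum]
    _ ≤ S * (C1 * r ^ (d - 1) * sq d r) := mul_le_mul_of_nonneg_left hFx hS0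
    _ = 2 * C1 * Real.sqrt (K * Real.log r) * (r ^ (d - 1) * (sq d r * sq d r)) := by rw [hS]; ring
    _ = 2 * C1 * Real.sqrt (K * Real.log r) * r ^ (-(3 : ℝ)) := by rw [hsqs, hs3]
    _ ≤ Real.sqrt r * r ^ (-(3 : ℝ)) := by
        apply mul_le_mul_of_nonneg_right _ (by positivity)
        apply Real.le_sqrt_of_sq_le
        rw [mul_pow, Real.sq_sqrt hKl]
        calc (2 * C1) ^ 2 * (K * Real.log r) = 4 * C1 ^ 2 * K * Real.log r := by ring
          _ ≤ r := hlogC
    _ = r ^ (-(5 : ℝ) / 2) := by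
        rw [Real.sqrt_eq_rpow, ← Real.rpow_add hr0]
        congr 1
        norm_num

end

end Pool.Agent.LBL
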