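import Pool.Agent.LBL.P_ENI

/-!
# LBL: target TRN (truncation energies)
-/

set_option autoImplicit false

open Finset
open scoped Classical

namespace Pool.Agent.LBL

noncomputable section

namespace TRN_

variable {d L : ℕ} [NeZero L]

/-- polarized Green formula -/
theorem polar (hd : 1 ≤ d) (u f : Tor d L → ℝ) :
    ∑ i : Fin d, ∑ x, (u (x + ev i) - u x) * (f (x + ev i) - f x) =
      2 * d * (ip u f - ip u (P0 f)) := by
  have hd0 : (d : ℝ) ≠ 0 := by
    have : d ≠ 0 := by omega
    exact_mod_cast this
  have h1 : ∀ i : Fin d, ∑ x, (u (x + ev i) - u x) * (f (x + ev i) - f x) =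
      2 * ip u f - (ENI_.S i u f + ENI_.S i f u) := by
    intro i
    have h : ∀ x : Tor d L, (u (x + ev i) - u x) * (f (x + ev i) - f x) =
        u (x + ev i) * f (x + ev i) + u x * f x - (u x * f (x + ev i) + f x * u (x + ev i)) := by
      intro x
      ring
    rw [Finset.sum_congr rfl fun x _ => h x, Finset.sum_sub_distrib, Finset.sum_add_distrib,
      Finset.sum_add_distrib, ENI_.shift (fun x => u x * f x)]
    unfold ip ENI_.S
    ring
  rw [Finset.sum_congr rfl fun i _ => h1 i, Finset.sum_sub_distrib, Finset.sum_const,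
    Finset.card_univ, Fintype.card_fin, nsmul_eq_mul, ENI_.ip_P0]
  field_simp

/-- energy of a truncation -/
theorem key (hd : 1 ≤ d) (O : Finset (Tor d L)) (φ u : Tor d L → ℝ) (hT : Top O φ)
    (hu : ∀ x, x ∉ O → u x = 0)
    (h : ∀ x y : Tor d L, (u x - u y) ^ 2 ≤ (u x - u y) * (φ x - φ y)) :
    En u ≤ 2 * d * (1 - lam O) * ∑ x, u x * φ x := by
  have h1 : En u ≤ ∑ i : Fin d, ∑ x, (u (x + ev i) - u x) * (φ (x + ev i) - φ x) := by
    unfold En Ed
    exact Finset.sum_le_sum fun i _ => Finset.sum_le_sum fun x _ => h _ _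
  have h2 : ip u (P0 φ) = lam O * ip u φ := by
    unfold ip
    rw [Finset.mul_sum]
    refine Finset.sum_congr rfl fun x _ => ?_
    by_cases hx : x ∈ O
    · rw [hT.eq x hx]
      ring
    · rw [hu x hx]
      ring
  rw [polar hd, h2] at h1
  refine h1.trans (le_of_eq ?_)
  unfold ip
  ring

end TRN_

theorem p_TRN (h_VAR : T_VAR) : T_TRN := by
  intro d L _ hd O φ hT t ht
  have hlam : lam O ≤ 1 := (h_VAR d (ZMod L) hd O).2.2.1
  have hd' : (0 : ℝ) ≤ 2 * d * (1 - lam O) := by
    have h1 : (0 : ℝ) ≤ d := Nat.cast_nonneg d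
    have h2 : 0 ≤ 1 - lam O := by linarith
    positivity
  constructor
  · refine (TRN_.key hd O φ (fun x => min (φ x) t) hT ?_ ?_).trans ?_
    · intro x hx
      simp only [hT.sp x hx]
      exact min_eq_left ht
    · intro x y
      rcases le_total (φ x) t with hx | hx <;> rcases le_total (φ y) t with hy | hy
      · rw [min_eq_left hx, min_eq_left hy]
        nlinarith
      · rw [min_eq_left hx, min_eq_right hy]
        nlinarith
      · rw [min_eq_right hx, min_eq_left hy]
        nlinarith
      · rw [min_eq_right hx, min_eq_right hy]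
        nlinarith
    · refine mul_le_mul_of_nonneg_left ?_ hd'
      rw [Finset.mul_sum]
      exact Finset.sum_le_sum fun x _ => mul_le_mul_of_nonneg_right (min_le_right _ _) (hT.nn x)
  · refine (TRN_.key hd O φ (fun x => max (φ x - t) 0) hT ?_ ?_).trans (le_of_eq ?_)
    · intro x hx
      simp only [hT.sp x hx]
      exact max_eq_right (by linarith)
    · intro x y
      rcases le_total (φ x - t) 0 with hx | hx <;> rcases le_total (φ y - t) 0 with hy | hy
      · rw [max_eq_right hx, max_eq_right hy]
        nlinarith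
      · rw [max_eq_right hx, max_eq_left hy]
        nlinarith
      · rw [max_eq_left hx, max_eq_right hy]
        nlinarith
      · rw [max_eq_left hx, max_eq_left hy]
        nlinarith
    · congr 1
      exact Finset.sum_congr rfl fun x _ => mul_comm _ _

end

end Pool.Agent.LBL
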