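import Pool.Agent.LBL.Targets3
import Pool.Agent.LBL.P_LVN

/-!
# LBL, target TYA: the sum over the points of type A
-/

set_option autoImplicit false
set_option linter.unusedSectionVars false

open Finset
open scoped Classical

namespace Pool.Agent.LBL

noncomputable section

section TYA_sec

variable {d L : ℕ} [NeZero L]


theorem TYA_hol_succ (m : ℕ) (O : Finset (Tor d L)) : hol (m + 1) O = ero (hol m O) := by
  unfold hol
  rw [Function.iterate_succ_apply']

theorem TYA_hol_anti (m n : ℕ) (O : Finset (Tor d L)) : hol (m + n) O ⊆ hol m O := by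
  induction n with
  | zero => exact Finset.Subset.refl _
  | succ n ih =>
    rw [← Nat.add_assoc, TYA_hol_succ]
    exact (Finset.filter_subset _ _).trans ih

theorem TYA_step (m : ℕ) (O : Finset (Tor d L)) (z : Tor d L) (hz : z ∈ hol (m + 1) O) (i : Fin d) :
    z + ev i ∈ hol m O ∧ z - ev i ∈ hol m O := by
  rw [TYA_hol_succ] at hz
  unfold ero at hz
  rw [Finset.mem_filter] at hz
  exact hz.2 i

theorem TYA_line (m : ℕ) (O : Finset (Tor d L)) (i : Fin d) (n : ℕ) :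
    ∀ (z : Tor d L) (k : ℤ), k.natAbs ≤ n → z ∈ hol (m + n) O →
      z + Pi.single i ((k : ℤ) : ZMod L) ∈ hol m O := by
  induction n with
  | zero =>
    intro z k hk hz
    have : k = 0 := by omega
    subst this
    simpa using hz
  | succ n ih =>
    intro z k hk hz
    rcases lt_trichotomy k 0 with h | h | h
    · have h1 := (TYA_step (m + n) O z hz i).2
      have h2 := ih (z - ev i) (k + 1) (by omega) h1
      have h3 : z - ev i + Pi.single i (((k + 1 : ℤ)) : ZMod L) = z + Pi.single i ((k : ℤ) : ZMod L) := by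
        push_cast
        rw [Pi.single_add]
        unfold ev
        abel
      rwa [h3] at h2
    · subst h
      have h1 := TYA_hol_anti m (n + 1) O hz
      simpa using h1
    · have h1 := (TYA_step (m + n) O z hz i).1
      have h2 := ih (z + ev i) (k - 1) (by omega) h1
      have h3 : z + ev i + Pi.single i (((k - 1 : ℤ)) : ZMod L) = z + Pi.single i ((k : ℤ) : ZMod L) := by
        push_cast
        rw [Pi.single_sub]
        unfold ev
        abel
      rwa [h3] at h2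

theorem TYA_all (O : Finset (Tor d L)) (n : ℕ) (κ : Fin d → ℤ) (hκ : ∀ i, (κ i).natAbs ≤ n)
    (s : Finset (Fin d)) : ∀ (m : ℕ) (z : Tor d L), z ∈ hol (m + s.card * n) O →
      z + ∑ i ∈ s, Pi.single i ((κ i : ℤ) : ZMod L) ∈ hol m O := by
  induction s using Finset.induction_on with
  | empty =>
    intro m z hz
    simpa using hz
  | insert j s hj ih =>
    intro m z hz
    rw [Finset.card_insert_of_notMem hj] at hz
    have e : m + (s.card + 1) * n = (m + n) + s.card * n := by ring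
    rw [e] at hz
    have h1 := ih (m + n) z hz
    have h2 := TYA_line m O j n _ (κ j) (hκ j) h1
    rw [Finset.sum_insert hj]
    have h3 : z + (Pi.single j ((κ j : ℤ) : ZMod L) + ∑ i ∈ s, Pi.single i ((κ i : ℤ) : ZMod L)) =
        z + ∑ i ∈ s, Pi.single i ((κ i : ℤ) : ZMod L) + Pi.single j ((κ j : ℤ) : ZMod L) := by
      abel
    rw [h3]
    exact h2

theorem TYA_far (O : Finset (Tor d L)) (n : ℕ) (z y : Tor d L) (h : td z y ≤ n) (hy : y ∉ O) :
    z ∉ hol (d * n) O := by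
  intro hz
  apply hy
  have hκ : ∀ i : Fin d, (-(z i - y i).valMinAbs).natAbs ≤ n := by
    intro i
    rw [Int.natAbs_neg]
    refine le_trans ?_ h
    unfold td
    exact Finset.le_sup (f := fun i : Fin d => (z i - y i).valMinAbs.natAbs) (Finset.mem_univ i)
  have h1 := TYA_all O n (fun i => -(z i - y i).valMinAbs) hκ Finset.univ 0 z (by simpa using hz)
  have h2 : z + ∑ i : Fin d, Pi.single i ((-(z i - y i).valMinAbs : ℤ) : ZMod L) = y := by
    rw [Finset.univ_sum_single]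
    funext i
    simp only [Pi.add_apply]
    push_cast
    ring
  rw [h2] at h1
  exact h1

theorem TYA_fo (hd : 1 ≤ d) (h_FLX : T_FLX) (O : Finset (Tor d L)) (φ : Tor d L → ℝ) (hT : Top O φ)
    (i : Fin d) (z : Tor d L) : 0 ≤ fo i φ z ∧ fo i φ z ≤ 2 * d * (P0 φ z) ^ 2 := by
  obtain ⟨-, hP, hF, -, -, -⟩ := h_FLX d L hd O φ hT
  have h1 := hF z i
  have h2 := hT.nn (z + ev i)
  have h3 := hT.nn (z - ev i)
  have h4 := hP z
  unfold fo
  refine ⟨mul_nonneg h4 (abs_nonneg _), ?_⟩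
  have h5 : |φ (z + ev i) - φ (z - ev i)| ≤ 2 * d * P0 φ z := by
    rw [abs_le]
    constructor <;> linarith [h1.1, h1.2]
  calc P0 φ z * |φ (z + ev i) - φ (z - ev i)| ≤ P0 φ z * (2 * d * P0 φ z) :=
        mul_le_mul_of_nonneg_left h5 h4
    _ = 2 * d * (P0 φ z) ^ 2 := by ring

/-- the number of points near the complement at level `t` -/
theorem TYA_num (hd : 2 ≤ d) (h_FLX : T_FLX) {r C1 : ℝ} (hr : 1 < r)
    (U : Finset (Tor d L)) (φ : Tor d L → ℝ) (hT : Top U φ)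
    (hC1 : ∀ j : ℝ, 0 < j → ((Uᶜ.filter fun y => j * sq d r ≤ P0 φ y).card : ℝ) ≤ C1 * r ^ (d - 1) / j)
    (hC10 : 0 < C1) {ε Ms : ℝ} (hε : 0 < ε) (hMs : 0 ≤ Ms) :
    ((LVN_S U φ (ε / 8 * sq d r) (d * ⌊Ms⌋₊)).card : ℝ) ≤
      Real.exp (2 * d * Real.log (2 * d + 1) * Ms) * (8 * C1 / ε * r ^ (d - 1)) := by
  have hd1 : 1 ≤ d := by omega
  have hdr : (2 : ℝ) ≤ d := by exact_mod_cast hd
  obtain ⟨-, hP, hF, hG, -, -⟩ := h_FLX d L hd1 U φ hT
  have hsq : 0 < sq d r := by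
    unfold sq
    exact Real.rpow_pos_of_pos (by linarith) _
  set m : ℕ := d * ⌊Ms⌋₊ with hm
  have h1 := LVN_count U φ hd1 hT.sp hF hG m (ε / 8 * sq d r) (by positivity)
  have h2 := hC1 (ε / 8 / (2 * (d : ℝ)) ^ m) (by positivity)
  have h3 : ((LVN_B U φ (ε / 8 * sq d r / (2 * (d : ℝ)) ^ m)).card : ℝ) ≤
      C1 * r ^ (d - 1) / (ε / 8 / (2 * (d : ℝ)) ^ m) := by
    refine le_trans ?_ h2
    unfold LVN_B
    apply le_of_eq
    congr 2
    apply Finset.filter_congr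
    intro y _
    have : ε / 8 * sq d r / (2 * (d : ℝ)) ^ m = ε / 8 / (2 * (d : ℝ)) ^ m * sq d r := by ring
    rw [this]
  have hmr : (m : ℝ) ≤ d * Ms := by
    rw [hm]
    push_cast
    exact mul_le_mul_of_nonneg_left (Nat.floor_le hMs) (by linarith)
  have hlog : 0 < Real.log (2 * d + 1) := Real.log_pos (by linarith)
  have h4 : (2 * (d : ℝ) + 1) ^ m ≤ Real.exp (d * Real.log (2 * d + 1) * Ms) := by
    have : (2 * (d : ℝ) + 1) ^ m = Real.exp (m * Real.log (2 * d + 1)) := by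
      rw [Real.exp_nat_mul, Real.exp_log (by linarith)]
    rw [this]
    apply Real.exp_le_exp.2
    nlinarith
  have h5 : (2 * (d : ℝ)) ^ m ≤ (2 * (d : ℝ) + 1) ^ m :=
    pow_le_pow_left₀ (by linarith) (by linarith) m
  have hp0 : (0 : ℝ) < (2 * (d : ℝ)) ^ m := by positivity
  have hr1 : 0 ≤ C1 * r ^ (d - 1) := by positivity
  calc ((LVN_S U φ (ε / 8 * sq d r) m).card : ℝ) ≤ ((2 * (d : ℝ) + 1) ^ m - 1) *
        (LVN_B U φ (ε / 8 * sq d r / (2 * (d : ℝ)) ^ m)).card := h1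
    _ ≤ (2 * (d : ℝ) + 1) ^ m * (C1 * r ^ (d - 1) / (ε / 8 / (2 * (d : ℝ)) ^ m)) := by
        apply mul_le_mul _ h3 (Nat.cast_nonneg _) (by positivity)
        linarith
    _ = (2 * (d : ℝ) + 1) ^ m * (2 * (d : ℝ)) ^ m * (8 * C1 / ε * r ^ (d - 1)) := by
        field_simp
    _ ≤ (Real.exp (d * Real.log (2 * d + 1) * Ms) * Real.exp (d * Real.log (2 * d + 1) * Ms)) *
        (8 * C1 / ε * r ^ (d - 1)) := by
        apply mul_le_mul_of_nonneg_right _ (by positivity)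
        exact mul_le_mul h4 (h5.trans h4) hp0.le (Real.exp_pos _).le
    _ = Real.exp (2 * d * Real.log (2 * d + 1) * Ms) * (8 * C1 / ε * r ^ (d - 1)) := by
        rw [← Real.exp_add]
        congr 2
        ring

end TYA_sec

theorem TYA_sqss (d : ℕ) (r : ℝ) (hr : 0 < r) : sq d r ^ 2 = ss d r := by
  unfold sq ss
  rw [← Real.rpow_natCast, ← Real.rpow_mul hr.le]
  congr 1
  push_cast
  ring

theorem TYA_ssr (d : ℕ) (r : ℝ) (hr : 0 < r) (hd : 2 ≤ d) : ss d r * r ^ (d - 1) = r ^ (-(3 : ℝ)) := by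
  unfold ss
  rw [← Real.rpow_natCast r (d - 1), ← Real.rpow_add hr]
  congr 1
  rw [Nat.cast_sub (by omega)]
  push_cast
  ring

/-- the conditions on `z` -/
def TYA_Q {d L : ℕ} [NeZero L] (Ok : Finset (Tor d L) → Prop) (r ε M c3 : ℝ) (U : Finset (Tor d L))
    (z : Tor d L) : Prop :=
  Ok (U.erase z) ∧ (ε * sq d r ≤ P0 (ph (U.erase z)) z ∧
    NI M c3 (ss d r) (U.erase z) (P0 (ph (U.erase z)) z) z)

theorem TYA_key {d L : ℕ} [NeZero L] (hd : 2 ≤ d) (h_FLX : T_FLX) {r x s' C ε M c3 : ℝ}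
    (Ok : Finset (Tor d L) → Prop) (hr0 : 0 < r) (hε : 0 < ε) (hc3p : 0 < c3)
    (hs'' : s' ≤ ε ^ 2 * ss d r / 4) (hOk : ∀ O, Ok O → x - s' ≤ lam O)
    (hOk2 : ∀ O, Ok O → Top O (ph O) ∧ ∀ y, y ∉ O → EF r C (insert y O) (ph (insert y O)) ∧
      (P0 (ph O) y) ^ 2 ≤ 2 * (lam (insert y O) - lam O) ∧ P0 (ph O) y / 4 ≤ ph (insert y O) y)
    (i : Fin d) (U : Finset (Tor d L)) (z : Tor d L) (hz : z ∈ U) (hQ : TYA_Q Ok r ε M c3 U z) :
    EF r C U (ph U) ∧ x ≤ lam U ∧ fo i (ph (U.erase z)) z ≤ 8 * d * (lam U - x) ∧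
      z ∈ LVN_S U (ph U) (ε / 8 * sq d r) (d * ⌊max M (4 * c3 * ((lam U - x) / ss d r))⌋₊) := by
  obtain ⟨hO, hz2, y', hy'1, hy'2, hy'3⟩ := hQ
  have hO1 := hOk _ hO
  obtain ⟨hE1, hy⟩ := hOk2 _ hO
  have hssp : 0 < ss d r := by
    unfold ss
    exact Real.rpow_pos_of_pos hr0 _
  have hsqp : 0 < sq d r := by
    unfold sq
    exact Real.rpow_pos_of_pos hr0 _
  have hsqss := TYA_sqss d r hr0
  have hzO : z ∉ U.erase z := Finset.notMem_erase z U
  have hins : insert z (U.erase z) = U := Finset.insert_erase hz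
  obtain ⟨hE2, hy3, hy4⟩ := hy z hzO
  rw [hins] at hE2 hy3 hy4
  generalize hα : P0 (ph (U.erase z)) z = α at *
  have hα2 : ε ^ 2 * ss d r ≤ α ^ 2 := by
    rw [← hsqss, ← mul_pow]
    exact pow_le_pow_left₀ (by positivity) hz2 2
  have hlam : x + α ^ 2 / 4 ≤ lam U := by linarith
  have hw4 : α ^ 2 ≤ 4 * (lam U - x) := by linarith
  have hαw : α ^ 2 / ss d r ≤ 4 * ((lam U - x) / ss d r) := by
    rw [div_le_iff₀ hssp]
    field_simp
    linarith
  refine ⟨hE2, by nlinarith [sq_nonneg α], ?_, ?_⟩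
  · have h2 := (TYA_fo (by omega : 1 ≤ d) h_FLX (U.erase z) (ph (U.erase z)) hE1 i z).2
    rw [hα] at h2
    calc fo i (ph (U.erase z)) z ≤ 2 * d * α ^ 2 := h2
      _ ≤ 2 * d * (4 * (lam U - x)) := by
          apply mul_le_mul_of_nonneg_left hw4 (by positivity)
      _ = 8 * d * (lam U - x) := by ring
  · unfold LVN_S
    rw [Finset.mem_filter]
    refine ⟨Finset.mem_univ _, ?_, ?_⟩
    · have : ε * sq d r / 4 ≤ ph U z := by linarith
      have h8 : 0 < ε * sq d r := by positivity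
      linarith
    · have hy'U : y' ∉ U := by
        intro h
        exact hy'1 (Finset.mem_erase.2 ⟨hy'2, h⟩)
      apply TYA_far U _ z y' _ hy'U
      apply Nat.le_floor
      refine hy'3.trans ?_
      apply max_le_max le_rfl
      have : c3 * α ^ 2 / ss d r = c3 * (α ^ 2 / ss d r) := by ring
      rw [this]
      calc c3 * (α ^ 2 / ss d r) ≤ c3 * (4 * ((lam U - x) / ss d r)) :=
            mul_le_mul_of_nonneg_left hαw hc3p.le
        _ = 4 * c3 * ((lam U - x) / ss d r) := by ring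

theorem TYA_arith {C6 M c3 w b N C1 ε R s T D : ℝ} (hC6 : 0 < C6) (hcb : C6 * (4 * c3) = b)
    (hc3 : 0 < c3) (hw : 0 ≤ w) (hM : 0 ≤ M) (hC1 : 0 < C1) (hε : 0 < ε) (hR : 0 < R) (hs : 0 < s)
    (hD : 0 < D) (hT : s * R = T)
    (hN : N ≤ Real.exp (C6 * max M (4 * c3 * w)) * (8 * C1 / ε * R)) :
    N * (8 * D * (s * w)) ≤ Real.exp (C6 * M) * (8 * C1 / ε) * (8 * D) * T *
      ((1 + w) * Real.exp (b * w)) := by
  have hexp : Real.exp (C6 * max M (4 * c3 * w)) ≤ Real.exp (C6 * M) * Real.exp (b * w) := by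
    rw [← Real.exp_add]
    apply Real.exp_le_exp.2
    have h9 : max M (4 * c3 * w) ≤ M + 4 * c3 * w := by
      apply max_le
      · have : 0 ≤ 4 * c3 * w := by positivity
        linarith
      · linarith
    calc C6 * max M (4 * c3 * w) ≤ C6 * (M + 4 * c3 * w) := mul_le_mul_of_nonneg_left h9 hC6.le
      _ = C6 * M + b * w := by rw [← hcb]; ring
  have h1 : N ≤ (Real.exp (C6 * M) * Real.exp (b * w)) * (8 * C1 / ε * R) :=
    hN.trans (mul_le_mul_of_nonneg_right hexp (by positivity))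
  have h2 : 8 * D * (s * w) ≤ 8 * D * (s * (1 + w)) := by
    apply mul_le_mul_of_nonneg_left _ (by positivity)
    exact mul_le_mul_of_nonneg_left (by linarith) hs.le
  have h3 : 0 ≤ 8 * D * (s * w) := by positivity
  have h4 : 0 ≤ (Real.exp (C6 * M) * Real.exp (b * w)) * (8 * C1 / ε * R) := by positivity
  calc N * (8 * D * (s * w)) ≤ ((Real.exp (C6 * M) * Real.exp (b * w)) * (8 * C1 / ε * R)) *
        (8 * D * (s * w)) := mul_le_mul_of_nonneg_right h1 h3
    _ ≤ ((Real.exp (C6 * M) * Real.exp (b * w)) * (8 * C1 / ε * R)) * (8 * D * (s * (1 + w))) :=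
        mul_le_mul_of_nonneg_left h2 h4
    _ = Real.exp (C6 * M) * (8 * C1 / ε) * (8 * D) * T * ((1 + w) * Real.exp (b * w)) := by
        rw [← hT]
        ring

theorem TYA_sumU {d L : ℕ} [NeZero L] (hd : 2 ≤ d) (h_FLX : T_FLX) {r x s' C ε M c3 C1 b : ℝ}
    (Ok : Finset (Tor d L) → Prop) (hr1 : 1 < r) (hε : 0 < ε) (hc3p : 0 < c3)
    (hs'' : s' ≤ ε ^ 2 * ss d r / 4) (hOk : ∀ O, Ok O → x - s' ≤ lam O)
    (hOk2 : ∀ O, Ok O → Top O (ph O) ∧ ∀ y, y ∉ O → EF r C (insert y O) (ph (insert y O)) ∧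
      (P0 (ph O) y) ^ 2 ≤ 2 * (lam (insert y O) - lam O) ∧ P0 (ph O) y / 4 ≤ ph (insert y O) y)
    (hM : 1 ≤ M) (hC1 : 0 < C1) (i : Fin d)
    (h1 : ∀ (O : Finset (Tor d L)) (φ : Tor d L → ℝ), EF r C O φ →
      ∀ j : ℝ, 0 < j → ((Oᶜ.filter fun y => j * sq d r ≤ P0 φ y).card : ℝ) ≤ C1 * r ^ (d - 1) / j)
    (hcb : 2 * d * Real.log (2 * d + 1) * (4 * c3) = b) (U : Finset (Tor d L)) :
    ∑ z ∈ U, (if TYA_Q Ok r ε M c3 U z then fo i (ph (U.erase z)) z else 0) ≤
      Real.exp (2 * d * Real.log (2 * d + 1) * M) * (8 * C1 / ε) * (8 * d) * r ^ (-(3 : ℝ)) *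
      (if x ≤ lam U then (1 + (lam U - x) / ss d r) * Real.exp (b * ((lam U - x) / ss d r)) else 0) := by
  have hdr : (2 : ℝ) ≤ d := by exact_mod_cast hd
  have hr0 : 0 < r := by linarith
  have hssp : 0 < ss d r := by
    unfold ss
    exact Real.rpow_pos_of_pos hr0 _
  have hlog : 0 < Real.log (2 * (d : ℝ) + 1) := Real.log_pos (by linarith)
  have hC6p : 0 < 2 * (d : ℝ) * Real.log (2 * d + 1) := by positivity
  rw [← Finset.sum_filter]
  by_cases hne : (U.filter fun z => TYA_Q Ok r ε M c3 U z).Nonempty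
  · obtain ⟨z0, hz0⟩ := hne
    rw [Finset.mem_filter] at hz0
    obtain ⟨hE, hxU, -, -⟩ := TYA_key hd h_FLX Ok hr0 hε hc3p hs'' hOk hOk2 i U z0 hz0.1 hz0.2
    have hw0 : 0 ≤ (lam U - x) / ss d r := div_nonneg (by linarith) hssp.le
    rw [if_pos hxU]
    have hMs : 0 ≤ max M (4 * c3 * ((lam U - x) / ss d r)) := le_max_of_le_left (by linarith)
    have hnum := TYA_num hd h_FLX hr1 U (ph U) hE.top (h1 U (ph U) hE) hC1 hε hMs
    have hcard : ((U.filter fun z => TYA_Q Ok r ε M c3 U z).card : ℝ) ≤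
        Real.exp (2 * d * Real.log (2 * d + 1) * max M (4 * c3 * ((lam U - x) / ss d r))) *
          (8 * C1 / ε * r ^ (d - 1)) := by
      refine le_trans ?_ hnum
      have : (U.filter fun z => TYA_Q Ok r ε M c3 U z) ⊆
          LVN_S U (ph U) (ε / 8 * sq d r) (d * ⌊max M (4 * c3 * ((lam U - x) / ss d r))⌋₊) := by
        intro z hz
        rw [Finset.mem_filter] at hz
        exact (TYA_key hd h_FLX Ok hr0 hε hc3p hs'' hOk hOk2 i U z hz.1 hz.2).2.2.2
      exact_mod_cast Finset.card_le_card this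
    have hsw : ss d r * ((lam U - x) / ss d r) = lam U - x := by
      field_simp
    calc ∑ z ∈ U.filter fun z => TYA_Q Ok r ε M c3 U z, fo i (ph (U.erase z)) z
        ≤ ∑ z ∈ U.filter fun z => TYA_Q Ok r ε M c3 U z,
          8 * (d : ℝ) * (ss d r * ((lam U - x) / ss d r)) := by
          apply Finset.sum_le_sum
          intro z hz
          rw [Finset.mem_filter] at hz
          rw [hsw]
          exact (TYA_key hd h_FLX Ok hr0 hε hc3p hs'' hOk hOk2 i U z hz.1 hz.2).2.2.1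
      _ = ((U.filter fun z => TYA_Q Ok r ε M c3 U z).card : ℝ) *
          (8 * (d : ℝ) * (ss d r * ((lam U - x) / ss d r))) := by
          rw [Finset.sum_const, nsmul_eq_mul]
      _ ≤ _ := TYA_arith hC6p hcb hc3p hw0 (by linarith) hC1 hε (by positivity) hssp
          (by linarith) (TYA_ssr d r hr0 hd) hcard
  · rw [Finset.not_nonempty_iff_eq_empty] at hne
    rw [hne, Finset.sum_empty]
    have h3 := Real.rpow_pos_of_pos hr0 (-(3 : ℝ))
    apply mul_nonneg
    · positivity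
    · by_cases hx : x ≤ lam U
      · rw [if_pos hx]
        have hw0 : 0 ≤ (lam U - x) / ss d r := div_nonneg (by linarith) hssp.le
        positivity
      · rw [if_neg hx]

theorem p_TYA (h_MTR : T_MTR) (h_EXQ : T_EXQ) (h_TPF : T_TPF) (h_FXM : T_FXM) (h_FLX : T_FLX) :
    T_TYA := by
  intro d K0 p a A δ C K hd hK0 hp0 hp1 ha haA hδ hC hK
  have hdr : (2 : ℝ) ≤ d := by exact_mod_cast hd
  obtain ⟨b, Cq, r0q, hb, hCq, hr0q, hq⟩ := h_EXQ d K0 p a A hd hK0 hp0 hp1 ha haA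
  obtain ⟨r0t, hr0t, ht⟩ := h_TPF d K0 a A δ C K hd hK0 ha haA hδ hC hK
  obtain ⟨C1, hC1, h1⟩ := h_FXM d C hd hC
  have hlog : 0 < Real.log (2 * (d : ℝ) + 1) := Real.log_pos (by linarith)
  have hC6p : 0 < 2 * (d : ℝ) * Real.log (2 * d + 1) := by positivity
  refine ⟨b / (4 * (2 * d * Real.log (2 * d + 1))), by positivity, ?_⟩
  intro M ε hM hε hε1
  obtain ⟨c3, hc3⟩ : ∃ c3 : ℝ, c3 = b / (4 * (2 * d * Real.log (2 * d + 1))) := ⟨_, rfl⟩
  rw [← hc3]
  have hc3p : 0 < c3 := by rw [hc3]; positivity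
  have hcb : 2 * d * Real.log (2 * d + 1) * (4 * c3) = b := by
    rw [hc3]
    field_simp
  obtain ⟨G, hG⟩ : ∃ G : ℝ, G = Real.exp (2 * d * Real.log (2 * d + 1) * M) * (8 * C1 / ε) * (8 * d) :=
    ⟨_, rfl⟩
  have hGp : 0 < G := by rw [hG]; positivity
  have hpp : 0 < (1 - p) / p := div_pos (by linarith) hp0
  refine ⟨(1 - p) / p * (G * Cq), max r0q r0t, by positivity,
    lt_of_lt_of_le hr0q (le_max_left _ _), ?_⟩
  intro r x s' L _ i hr hRg hWin hs' hs''
  have hrq : r0q ≤ r := (le_max_left _ _).trans hr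
  have hrt : r0t ≤ r := (le_max_right _ _).trans hr
  have hr1 : 1 < r := lt_of_lt_of_le hr0q hrq
  have hr0 : 0 < r := by linarith
  have hssp : 0 < ss d r := by
    unfold ss
    exact Real.rpow_pos_of_pos hr0 _
  have hQ := hq r x L hrq hRg hWin
  have hss1 : ε ^ 2 * ss d r / 4 ≤ ss d r := by
    have : ε ^ 2 ≤ 1 := by nlinarith
    nlinarith
  let Ok : Finset (Tor d L) → Prop := fun O => x - s' ≤ lam O ∧ Typ r x δ (A + 1) C K O
  have hOk2 : ∀ O, Ok O → Top O (ph O) ∧ ∀ y, y ∉ O → EF r C (insert y O) (ph (insert y O)) ∧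
      (P0 (ph O) y) ^ 2 ≤ 2 * (lam (insert y O) - lam O) ∧ P0 (ph O) y / 4 ≤ ph (insert y O) y := by
    intro O hO
    obtain ⟨hE1, -, hy⟩ := ht r x L hrt hRg hWin O hO.2 (by linarith [hO.1])
    refine ⟨hE1.top, fun y hyO => ?_⟩
    obtain ⟨hE2, -, -, hy3, hy4⟩ := hy y hyO
    exact ⟨hE2, hy3, hy4⟩
  have hU : ∀ U : Finset (Tor d L),
      ∑ z ∈ U, (if TYA_Q Ok r ε M c3 U z then fo i (ph (U.erase z)) z else 0) ≤ G * r ^ (-(3 : ℝ)) *
      (if x ≤ lam U then (1 + (lam U - x) / ss d r) * Real.exp (b * ((lam U - x) / ss d r)) else 0) := by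
    intro U
    rw [hG]
    exact TYA_sumU hd h_FLX Ok hr1 hε hc3p hs'' (fun O hO => hO.1) hOk2 hM hC1 i
      (fun O φ hE => (h1 r L hr1 O φ hE).2) hcb U
  have hmt := (h_MTR (Tor d L) p hp0 hp1).1
    fun U z => if TYA_Q Ok r ε M c3 U z then fo i (ph (U.erase z)) z else 0
  have hL : ∀ O : Finset (Tor d L), (if x - s' ≤ lam O ∧ Typ r x δ (A + 1) C K O then
      ∑ y ∈ Oᶜ.filter (fun y => ε * sq d r ≤ P0 (ph O) y ∧ NI M c3 (ss d r) O (P0 (ph O) y) y),
        fo i (ph O) y else 0) = ∑ y ∈ Oᶜ, (if TYA_Q Ok r ε M c3 (insert y O) y then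
          fo i (ph ((insert y O).erase y)) y else 0) := by
    intro O
    have hy : ∀ y ∈ Oᶜ, (if TYA_Q Ok r ε M c3 (insert y O) y then
          fo i (ph ((insert y O).erase y)) y else 0) = if Ok O ∧
        (ε * sq d r ≤ P0 (ph O) y ∧ NI M c3 (ss d r) O (P0 (ph O) y) y) then fo i (ph O) y else 0 := by
      intro y hy
      unfold TYA_Q
      rw [Finset.erase_insert (Finset.mem_compl.1 hy)]
      split_ifs <;> rfl
    rw [Finset.sum_congr rfl hy]
    by_cases hc : x - s' ≤ lam O ∧ Typ r x δ (A + 1) C K O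
    · rw [if_pos hc, Finset.sum_filter]
      refine Finset.sum_congr rfl fun y _ => ?_
      by_cases h2 : ε * sq d r ≤ P0 (ph O) y ∧ NI M c3 (ss d r) O (P0 (ph O) y) y
      · rw [if_pos h2, if_pos ⟨hc, h2⟩]
      · rw [if_neg h2, if_neg fun h => h2 h.2]
    · rw [if_neg hc]
      symm
      apply Finset.sum_eq_zero
      intro y _
      rw [if_neg fun h => hc h.1]
  have hwt : ∀ U : Finset (Tor d L), 0 ≤ wt p U := by
    intro U
    unfold wt
    have : 0 ≤ 1 - p := by linarith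
    positivity
  have hr3 : 0 ≤ G * r ^ (-(3 : ℝ)) := by
    have := Real.rpow_pos_of_pos hr0 (-(3 : ℝ))
    positivity
  have hp' : 0 < 1 - p := by linarith
  rw [Finset.sum_congr rfl fun O _ => by rw [hL O]]
  have e1 : ∑ O : Finset (Tor d L), wt p O * ∑ y ∈ Oᶜ, (if TYA_Q Ok r ε M c3 (insert y O) y then
          fo i (ph ((insert y O).erase y)) y else 0) =
      (1 - p) / p * ∑ U : Finset (Tor d L), wt p U * ∑ z ∈ U,
        (if TYA_Q Ok r ε M c3 U z then fo i (ph (U.erase z)) z else 0) := by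
    rw [hmt]
    field_simp
  rw [e1]
  have e2 : ∑ U : Finset (Tor d L), wt p U * ∑ z ∈ U,
        (if TYA_Q Ok r ε M c3 U z then fo i (ph (U.erase z)) z else 0) ≤
      G * r ^ (-(3 : ℝ)) * (Cq * TT d L p x) := by
    calc ∑ U : Finset (Tor d L), wt p U * ∑ z ∈ U,
        (if TYA_Q Ok r ε M c3 U z then fo i (ph (U.erase z)) z else 0)
        ≤ ∑ U : Finset (Tor d L), wt p U * (G * r ^ (-(3 : ℝ)) *
        (if x ≤ lam U then (1 + (lam U - x) / ss d r) * Real.exp (b * ((lam U - x) / ss d r)) else 0)) :=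
          Finset.sum_le_sum fun U _ => mul_le_mul_of_nonneg_left (hU U) (hwt U)
      _ = G * r ^ (-(3 : ℝ)) * ∑ U : Finset (Tor d L), wt p U *
        (if x ≤ lam U then (1 + (lam U - x) / ss d r) * Real.exp (b * ((lam U - x) / ss d r)) else 0) := by
          rw [Finset.mul_sum]
          exact Finset.sum_congr rfl fun U _ => by ring
      _ ≤ G * r ^ (-(3 : ℝ)) * (Cq * TT d L p x) := mul_le_mul_of_nonneg_left hQ hr3
  calc (1 - p) / p * ∑ U : Finset (Tor d L), wt p U * ∑ z ∈ U,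
        (if TYA_Q Ok r ε M c3 U z then fo i (ph (U.erase z)) z else 0)
      ≤ (1 - p) / p * (G * r ^ (-(3 : ℝ)) * (Cq * TT d L p x)) :=
        mul_le_mul_of_nonneg_left e2 hpp.le
    _ = (1 - p) / p * (G * Cq) * r ^ (-(3 : ℝ)) * TT d L p x := by ring

end

end Pool.Agent.LBL
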