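import Pool.Agent.LBL.Targets3

set_option autoImplicit false

/-!
# LBL: T_TYB, sum over the points of type B
-/

open Finset
open scoped Classical

namespace Pool.Agent.LBL

/-- exchange of a closed and an open point -/
theorem TYB_map_swap {d L : ℕ} (O : Finset (Tor d L)) (y z : Tor d L) (hy : y ∉ O) (hz : z ∈ O) :
    O.map (Equiv.swap y z).toEmbedding = insert y (O.erase z) := by
  have hzy : z ≠ y := fun h => hy (h ▸ hz)
  ext w
  rw [Finset.mem_map_equiv, Equiv.symm_swap, Finset.mem_insert, Finset.mem_erase]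
  by_cases h1 : w = y
  · subst h1
    simp [hz]
  · by_cases h2 : w = z
    · subst h2
      simp [hy, hzy]
    · rw [Equiv.swap_apply_of_ne_of_ne h1 h2]
      simp [h1, h2]

theorem TYB_td_le {d L : ℕ} [NeZero L] (y z : Tor d L) : td y z ≤ L := by
  unfold td
  apply Finset.sup_le
  intro i _
  exact (ZMod.natAbs_valMinAbs_le _).trans (Nat.div_le_self _ _)

theorem TYB_kap_nonneg (d : ℕ) (D : ℝ) (hD : 0 ≤ D) : 0 ≤ kap d D := by
  unfold kap
  split_ifs
  · have := Real.log_nonneg (by linarith : (1 : ℝ) ≤ 1 + D)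
    linarith
  · norm_num

theorem TYB_kap_le (d L K0 : ℕ) [NeZero L] (r : ℝ) (hr : 1 ≤ r) (hL : (L : ℝ) ≤ r ^ K0) (y z : Tor d L) :
    kap d (td y z) ≤ 2 + K0 * Real.log r := by
  have hlog : 0 ≤ Real.log r := Real.log_nonneg hr
  have hK : (0 : ℝ) ≤ K0 := Nat.cast_nonneg _
  have h0 : (0 : ℝ) ≤ K0 * Real.log r := mul_nonneg hK hlog
  unfold kap
  split_ifs
  · have h1 : (td y z : ℝ) ≤ L := by exact_mod_cast TYB_td_le y z
    have h2 : (1 : ℝ) ≤ r ^ K0 := one_le_pow₀ hr
    have h3 : Real.log (1 + (td y z : ℝ)) ≤ Real.log (2 * r ^ K0) := by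
      apply Real.log_le_log
      · have : (0 : ℝ) ≤ (td y z : ℝ) := Nat.cast_nonneg _
        linarith
      · linarith
    rw [Real.log_mul (by norm_num) (by positivity), Real.log_pow] at h3
    have h4 : Real.log 2 ≤ 1 := by
      have := Real.log_two_lt_d9
      linarith
    linarith
  · linarith

theorem TYB_wt_nonneg {X : Type} [Fintype X] (p : ℝ) (hp : 0 < p) (hp1 : p < 1) (O : Finset X) : 0 ≤ wt p O := by
  unfold wt
  have : 0 < 1 - p := by linarith
  positivity

theorem TYB_EF_mono {d L : ℕ} [NeZero L] {r C C' : ℝ} (hr : 0 < r) (hC : C ≤ C') {O : Finset (Tor d L)}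
    {φ : Tor d L → ℝ} (h : EF r C O φ) : EF r C' O φ := by
  have hh0 : 0 < hh d r := by unfold hh; positivity
  refine ⟨h.top, h.mu.trans hC, fun x => (h.sup x).trans (mul_le_mul_of_nonneg_right hC hh0.le), ?_, ?_⟩
  · exact h.l1.trans (div_le_div_of_nonneg_right hC hh0.le)
  · exact h.lev.trans (mul_le_mul_of_nonneg_right hC (by positivity))

theorem TYB_log_sqrt (r : ℝ) (hr : 1 ≤ r) : Real.log r ≤ 2 * Real.sqrt r := by
  have h0 : 0 < Real.sqrt r := Real.sqrt_pos.mpr (by linarith)
  have h1 : Real.log (Real.sqrt r) ≤ Real.sqrt r - 1 := Real.log_le_sub_one_of_pos h0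
  rw [Real.log_sqrt (by linarith)] at h1
  linarith

theorem TYB_ss_r2 (d : ℕ) (r : ℝ) (hr : 0 < r) : ss d r * r ^ 2 = r ^ (-(d : ℝ)) := by
  unfold ss
  rw [← Real.rpow_natCast r 2, ← Real.rpow_add hr]
  congr 1
  push_cast
  ring

theorem TYB_rneg (d : ℕ) (hd : 2 ≤ d) (r : ℝ) (hr : 1 ≤ r) : r ^ (-(d : ℝ)) ≤ 1 / r ^ 2 := by
  have h1 : r ^ (-(d : ℝ)) ≤ r ^ (-(2 : ℝ)) := by
    apply Real.rpow_le_rpow_of_exponent_le hr
    have : (2 : ℝ) ≤ d := by exact_mod_cast hd
    linarith
  rw [Real.rpow_neg (by linarith)] at h1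
  have h2 : r ^ (2 : ℝ) = r ^ 2 := by
    rw [← Real.rpow_natCast]; norm_num
  rw [Real.rpow_neg (by linarith), h2] at h1
  rw [Real.rpow_neg (by linarith), one_div]
  exact h1

/-- the exchange term -/
noncomputable def TYB_H {d L : ℕ} [NeZero L] (r C x j : ℝ) (U : Finset (Tor d L)) (z : Tor d L) : ℝ :=
  if z ∉ U ∧ x ≤ lam U ∧ EF r C U (ph U) ∧ j * sq d r ≤ P0 (ph U) z then 128 * d * (lam U - x) else 0

theorem TYB_H_nonneg {d L : ℕ} [NeZero L] (r C x j : ℝ) (U : Finset (Tor d L)) (z : Tor d L) :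
    0 ≤ TYB_H r C x j U z := by
  unfold TYB_H
  split_ifs with h
  · have : 0 ≤ lam U - x := by linarith [h.2.1]
    positivity
  · exact le_rfl

/-- the shift vectors -/
def TYB_v {d L : ℕ} (k : Fin d × Bool) : Tor d L := if k.2 then ev k.1 else - ev k.1

/-- the sum of the exchange terms for a fixed configuration -/
theorem TYB_sumH {d L : ℕ} [NeZero L] {r C x j C1 : ℝ} (hr : 1 < r) (hj : 0 < j)
    (HF : ∀ (O : Finset (Tor d L)) (φ : Tor d L → ℝ), EF r C O φ →
      ∑ y ∈ Oᶜ, P0 φ y ≤ C1 * r ^ (d - 1) * sq d r ∧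
      ∀ j : ℝ, 0 < j → ((Oᶜ.filter fun y => j * sq d r ≤ P0 φ y).card : ℝ) ≤ C1 * r ^ (d - 1) / j)
    (b : ℝ) (hb : 0 < b) (hC1 : 0 < C1) (U : Finset (Tor d L)) :
    ∑ z, TYB_H r C x j U z ≤ (128 * d * C1 * r ^ (d - 1) / j * ss d r) *
      (if x ≤ lam U then (1 + (lam U - x) / ss d r) * Real.exp (b * ((lam U - x) / ss d r)) else 0) := by
  have hss : 0 < ss d r := by unfold ss; positivity
  by_cases hx : x ≤ lam U
  · rw [if_pos hx]
    have h0 : 0 ≤ lam U - x := by linarith
    have hw : 0 ≤ (lam U - x) / ss d r := div_nonneg h0 hss.le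
    have he : 1 ≤ Real.exp (b * ((lam U - x) / ss d r)) := Real.one_le_exp (mul_nonneg hb.le hw)
    have h1 : lam U - x ≤ ss d r * ((1 + (lam U - x) / ss d r) * Real.exp (b * ((lam U - x) / ss d r))) := by
      have h2 : lam U - x = ss d r * ((lam U - x) / ss d r) := by field_simp
      calc lam U - x = ss d r * ((lam U - x) / ss d r) := h2
        _ ≤ ss d r * ((1 + (lam U - x) / ss d r) * Real.exp (b * ((lam U - x) / ss d r))) := by
            apply mul_le_mul_of_nonneg_left _ hss.le
            nlinarith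
    by_cases hE : EF r C U (ph U)
    · have hcard := (HF U (ph U) hE).2 j hj
      have h3 : ∑ z, TYB_H r C x j U z =
          ((Uᶜ.filter fun y => j * sq d r ≤ P0 (ph U) y).card : ℝ) * (128 * d * (lam U - x)) := by
        have h4 : ∀ z, TYB_H r C x j U z = if z ∈ (Uᶜ.filter fun y => j * sq d r ≤ P0 (ph U) y) then
            128 * d * (lam U - x) else 0 := by
          intro z
          unfold TYB_H
          by_cases hz : z ∈ (Uᶜ.filter fun y => j * sq d r ≤ P0 (ph U) y)
          · rw [if_pos hz, if_pos]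
            rw [Finset.mem_filter, Finset.mem_compl] at hz
            exact ⟨hz.1, hx, hE, hz.2⟩
          · rw [if_neg hz, if_neg]
            intro h
            apply hz
            rw [Finset.mem_filter, Finset.mem_compl]
            exact ⟨h.1, h.2.2.2⟩
        rw [Finset.sum_congr rfl (fun z _ => h4 z), Finset.sum_ite_mem, Finset.univ_inter, Finset.sum_const,
          nsmul_eq_mul]
      rw [h3]
      calc ((Uᶜ.filter fun y => j * sq d r ≤ P0 (ph U) y).card : ℝ) * (128 * d * (lam U - x))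
          ≤ (C1 * r ^ (d - 1) / j) * (128 * d * (lam U - x)) :=
            mul_le_mul_of_nonneg_right hcard (by positivity)
        _ ≤ (C1 * r ^ (d - 1) / j) * (128 * d * (ss d r * ((1 + (lam U - x) / ss d r) * Real.exp (b * ((lam U - x) / ss d r))))) := by
            have : 0 < r := by linarith
            gcongr
        _ = _ := by ring
    · have h5 : ∀ z, TYB_H r C x j U z = 0 := by
        intro z
        unfold TYB_H
        rw [if_neg]
        intro h
        exact hE h.2.2.1
      rw [Finset.sum_eq_zero (fun z _ => h5 z)]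
      have : 0 < r := by linarith
      positivity
  · rw [if_neg hx, mul_zero]
    apply le_of_eq
    apply Finset.sum_eq_zero
    intro z _
    unfold TYB_H
    rw [if_neg]
    intro h
    exact hx h.2.1

/-- mass transport for all the exchanges -/
theorem TYB_transport {d L : ℕ} [NeZero L] (h_MTR : T_MTR) (p : ℝ) (hp : 0 < p) (hp1 : p < 1)
    (H : Finset (Tor d L) → Tor d L → ℝ) :
    ∑ O : Finset (Tor d L), wt p O * ∑ y, ∑ k : Fin d × Bool,
        H (O.map (Equiv.swap y (y + TYB_v k)).toEmbedding) (y + TYB_v k) =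
      2 * d * ∑ O : Finset (Tor d L), wt p O * ∑ z, H O z := by
  have h1 : ∀ (y : Tor d L) (k : Fin d × Bool), ∑ O : Finset (Tor d L), wt p O *
      H (O.map (Equiv.swap y (y + TYB_v k)).toEmbedding) (y + TYB_v k) =
      ∑ O : Finset (Tor d L), wt p O * H O (y + TYB_v k) := by
    intro y k
    exact ((h_MTR (Tor d L) p hp hp1).2 (fun U => H U (y + TYB_v k)) (Equiv.swap y (y + TYB_v k))).symm
  calc ∑ O : Finset (Tor d L), wt p O * ∑ y, ∑ k : Fin d × Bool,
        H (O.map (Equiv.swap y (y + TYB_v k)).toEmbedding) (y + TYB_v k)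
      = ∑ O : Finset (Tor d L), ∑ y, ∑ k : Fin d × Bool,
        wt p O * H (O.map (Equiv.swap y (y + TYB_v k)).toEmbedding) (y + TYB_v k) := by
        apply Finset.sum_congr rfl
        intro O _
        rw [Finset.mul_sum]
        apply Finset.sum_congr rfl
        intro y _
        rw [Finset.mul_sum]
    _ = ∑ y, ∑ k : Fin d × Bool, ∑ O : Finset (Tor d L),
        wt p O * H (O.map (Equiv.swap y (y + TYB_v k)).toEmbedding) (y + TYB_v k) := by
        rw [Finset.sum_comm]
        apply Finset.sum_congr rfl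
        intro y _
        rw [Finset.sum_comm]
    _ = ∑ y, ∑ k : Fin d × Bool, ∑ O : Finset (Tor d L), wt p O * H O (y + TYB_v k) := by
        apply Finset.sum_congr rfl
        intro y _
        apply Finset.sum_congr rfl
        intro k _
        exact h1 y k
    _ = ∑ k : Fin d × Bool, ∑ O : Finset (Tor d L), wt p O * ∑ y, H O (y + TYB_v k) := by
        rw [Finset.sum_comm]
        apply Finset.sum_congr rfl
        intro k _
        rw [Finset.sum_comm]
        apply Finset.sum_congr rfl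
        intro O _
        rw [Finset.mul_sum]
    _ = ∑ _k : Fin d × Bool, ∑ O : Finset (Tor d L), wt p O * ∑ z, H O z := by
        apply Finset.sum_congr rfl
        intro k _
        apply Finset.sum_congr rfl
        intro O _
        congr 1
        exact Equiv.sum_comp (Equiv.addRight (TYB_v k)) (fun z => H O z)
    _ = _ := by
        rw [Finset.sum_const, nsmul_eq_mul]
        congr 1
        simp [mul_comm]

theorem p_TYB (h_SHF : T_SHF) (h_TPF : T_TPF) (h_MTR : T_MTR) (h_FXM : T_FXM) (h_EXQ : T_EXQ) : T_TYB := by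
  intro d K0 p a A δ C K hd hK0 hp hp1 ha haA hδ hC hK
  have hA : 0 < A := lt_of_lt_of_le ha haA
  have hd0 : (0 : ℝ) < d := by
    have : (2 : ℝ) ≤ d := by exact_mod_cast hd
    linarith
  have hd2 : (2 : ℝ) ≤ d := by exact_mod_cast hd
  have hCC : C ≤ C + A + 1 := by linarith
  obtain ⟨C5, D0, c4, r1, hC5, hD0, hc4, hr1, HS⟩ :=
    h_SHF d (C + A + 1) (2 / δ) hd (by linarith) (by positivity)
  obtain ⟨r2, hr2, HT⟩ := h_TPF d K0 a A δ C K hd hK0 ha haA hδ hC hK
  obtain ⟨C1, hC1, HF⟩ := h_FXM d C hd hC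
  obtain ⟨b, CE, r3, hb, hCE, hr3, HE⟩ := h_EXQ d K0 p a A hd hK0 hp hp1 ha haA
  refine ⟨C5, D0, c4, hC5, by linarith, hc4, ?_⟩
  intro ε hε hε1
  have hK0' : (0 : ℝ) ≤ K0 := Nat.cast_nonneg _
  set r4 : ℝ := 2 * K * (4 + 4 * K0) / c4 with hr4
  have hr4p : 0 < r4 := by positivity
  have hδp : 0 < 2 / δ := by positivity
  set j : ℝ := ε / (16 * d) with hj
  have hjp : 0 < j := by positivity
  refine ⟨2 * d * (128 * d * C1 / j * CE), r1 + r2 + r3 + r4 + 2 / δ, by positivity, by linarith, ?_⟩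
  intro r x s' L _ i hr hRg hWin hs0 hs1
  have hr_1 : 1 < r := by linarith
  have hr0 : 0 < r := by linarith
  have hss : 0 < ss d r := by unfold ss; positivity
  have hsq : 0 < sq d r := by unfold sq; positivity
  have hssr := TYB_ss_r2 d r hr0
  have hrn := TYB_rneg d hd r hr_1.le
  have hssr2 : ss d r * r ^ 2 ≤ 1 / r ^ 2 := by rw [hssr]; exact hrn
  have hinv : 1 / r ^ 2 ≤ 1 / r := by
    apply one_div_le_one_div_of_le hr0
    nlinarith
  have hinv1 : 1 / r ≤ 1 := by
    rw [div_le_one hr0]; exact hr_1.le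
  have hinvδ : 1 / r ≤ δ / 2 := by
    rw [div_le_div_iff₀ hr0 (by norm_num)]
    have h1 : 2 / δ ≤ r := by linarith
    rw [div_le_iff₀ hδ] at h1
    linarith
  have hs2 : s' ≤ ss d r := by
    refine hs1.trans ?_
    rw [div_le_iff₀ (by positivity)]
    have he3 : ε ^ 3 ≤ 1 := pow_le_one₀ hε.le hε1
    calc ε ^ 3 * ss d r ≤ 1 * ss d r := mul_le_mul_of_nonneg_right he3 hss.le
      _ = ss d r * 1 := by ring
      _ ≤ ss d r * (128 * d) := mul_le_mul_of_nonneg_left (by linarith) hss.le
  have hs3 : s' * r ^ 2 ≤ δ / 2 := by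
    calc s' * r ^ 2 ≤ ss d r * r ^ 2 := mul_le_mul_of_nonneg_right hs2 (by positivity)
      _ ≤ δ / 2 := by linarith
  have hs4 : s' * r ^ 2 ≤ 1 := by
    calc s' * r ^ 2 ≤ ss d r * r ^ 2 := mul_le_mul_of_nonneg_right hs2 (by positivity)
      _ ≤ 1 := by linarith
  have hrL : r ≤ L := by
    refine le_trans ?_ hRg.1
    calc r = r ^ 1 := (pow_one r).symm
      _ ≤ r ^ (d + 4) := pow_le_pow_right₀ hr_1.le (by omega)
  have hsqrt : Real.sqrt r * Real.sqrt r = r := Real.mul_self_sqrt hr0.le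
  have hlog := TYB_log_sqrt r hr_1.le
  have hlog0 : 0 ≤ Real.log r := Real.log_nonneg hr_1.le
  have hsqrt1 : 1 ≤ Real.sqrt r := by
    rw [Real.one_le_sqrt]; exact hr_1.le
  -- the bound for the product
  have hprod : 2 * K * ss d r * Real.log r * r ^ 2 * (2 + K0 * Real.log r) ≤ c4 := by
    have h1 : Real.log r * (2 + K0 * Real.log r) ≤ (4 + 4 * K0) * r := by
      have h2 : 2 + K0 * Real.log r ≤ (2 + 2 * K0) * Real.sqrt r := by
        have h3 : K0 * Real.log r ≤ K0 * (2 * Real.sqrt r) := mul_le_mul_of_nonneg_left hlog hK0'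
        linarith
      calc Real.log r * (2 + K0 * Real.log r) ≤ (2 * Real.sqrt r) * ((2 + 2 * K0) * Real.sqrt r) := by
            apply mul_le_mul hlog h2 _ (by positivity)
            have := mul_nonneg hK0' hlog0
            linarith
        _ = (4 + 4 * K0) * (Real.sqrt r * Real.sqrt r) := by ring
        _ = (4 + 4 * K0) * r := by rw [hsqrt]
    calc 2 * K * ss d r * Real.log r * r ^ 2 * (2 + K0 * Real.log r)
        = 2 * K * (ss d r * r ^ 2) * (Real.log r * (2 + K0 * Real.log r)) := by ring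
      _ ≤ 2 * K * (1 / r ^ 2) * ((4 + 4 * K0) * r) := by
          apply mul_le_mul _ h1 _ (by positivity)
          · exact mul_le_mul_of_nonneg_left hssr2 (by positivity)
          · have := mul_nonneg hK0' hlog0
            exact mul_nonneg hlog0 (by linarith)
      _ = (2 * K * (4 + 4 * K0)) / r := by field_simp
      _ ≤ c4 := by
          rw [div_le_iff₀ hr0]
          have h1 : r4 ≤ r := by linarith
          rw [hr4, div_le_iff₀ hc4] at h1
          linarith
  -- pointwise claim
  have hclaim : ∀ O : Finset (Tor d L), x - s' ≤ lam O → Typ r x δ (A + 1) C K O →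
      ∀ y ∈ Oᶜ.filter (fun y => ε * sq d r ≤ P0 (ph O) y ∧ ε ^ 3 * ss d r ≤ fo i (ph O) y ∧
        BF r C5 D0 c4 O i (ph O) y),
      fo i (ph O) y ≤ ∑ k : Fin d × Bool,
        TYB_H r C x j (O.map (Equiv.swap y (y + TYB_v k)).toEmbedding) (y + TYB_v k) := by
    intro O hO hTyp y hy
    rw [Finset.mem_filter, Finset.mem_compl] at hy
    obtain ⟨hyO, hy1, hy2, D, y0, hy0, hy0y, hD1, hball, hD2, hfo⟩ := hy
    obtain ⟨hEF, _, hTPy⟩ := HT r x L (by linarith) hRg hWin O hTyp (by linarith)
    obtain ⟨hEFo, hΔ, _, _, _⟩ := hTPy y hyO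
    obtain ⟨_, _, hTyp2⟩ := hTyp
    obtain ⟨_, hSec, _, hU⟩ := hTyp2 y hyO
    have hP : 0 < P0 (ph O) y := lt_of_lt_of_le (by positivity) hy1
    have hkap0 : 0 ≤ kap d (td y y0) := TYB_kap_nonneg _ _ (Nat.cast_nonneg _)
    have hkap1 : kap d (td y y0) ≤ 2 + K0 * Real.log r := TYB_kap_le d L K0 r hr_1.le hRg.2 y y0
    have hg1 : 1 / (2 / δ) ≤ (lam O - (x - δ / r ^ 2)) * r ^ 2 := by
      have h1 : (lam O - (x - δ / r ^ 2)) * r ^ 2 = (lam O - x) * r ^ 2 + δ := by
        field_simp
        ring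
      rw [h1, one_div_div]
      have h2 : -(s' * r ^ 2) ≤ (lam O - x) * r ^ 2 := by
        have : (-s') * r ^ 2 ≤ (lam O - x) * r ^ 2 :=
          mul_le_mul_of_nonneg_right (by linarith) (by positivity)
        linarith
      linarith
    have hg2 : (1 - lam O) * r ^ 2 ≤ 2 * (C + A + 1) := by
      have h1 : (1 - lam O) * r ^ 2 ≤ (1 - x + s') * r ^ 2 :=
        mul_le_mul_of_nonneg_right (by linarith) (by positivity)
      have h2 := hWin.2
      nlinarith
    have hg3 : (lam (insert y O) - lam O) * r ^ 2 * kap d (td y y0) ≤ c4 := by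
      refine le_trans ?_ hprod
      have h1 : (lam (insert y O) - lam O) * r ^ 2 ≤ (2 * K * ss d r * Real.log r) * r ^ 2 :=
        mul_le_mul_of_nonneg_right hΔ (by positivity)
      calc (lam (insert y O) - lam O) * r ^ 2 * kap d (td y y0)
          ≤ (2 * K * ss d r * Real.log r) * r ^ 2 * kap d (td y y0) :=
            mul_le_mul_of_nonneg_right h1 hkap0
        _ ≤ (2 * K * ss d r * Real.log r) * r ^ 2 * (2 + K0 * Real.log r) :=
            mul_le_mul_of_nonneg_left hkap1 (by positivity)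
    have hy0' : y0 ∉ insert y O := by
      rw [Finset.mem_insert]
      push Not
      exact ⟨hy0y, hy0⟩
    obtain ⟨k, y'', hy'', hy''O, hlam, hTop⟩ := HS r L (by linarith) hrL O (ph O) (ph (insert y O)) y y0
      (x - δ / r ^ 2) D i hyO hEF.top (TYB_EF_mono hr0 hCC hEFo) hSec hg1 hg2 hg3 hy0' hD2 hD1 hball hfo hP
    have hne : y'' ≠ y := fun h => hyO (h ▸ hy''O)
    have hs5 : s' ≤ fo i (ph O) y / (128 * d) :=
      hs1.trans (div_le_div_of_nonneg_right hy2 (by positivity))
    have h64 : fo i (ph O) y / (64 * d) = 2 * (fo i (ph O) y / (128 * d)) := by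
      ring
    have hx'' : x + fo i (ph O) y / (128 * d) ≤ lam (insert y (O.erase y'')) := by
      rw [h64] at hlam
      linarith
    have hfo0 : 0 ≤ fo i (ph O) y := by
      have : 0 ≤ ε ^ 3 * ss d r := by positivity
      linarith
    have hxl : x ≤ lam (insert y (O.erase y'')) := by
      have : 0 ≤ fo i (ph O) y / (128 * d) := by positivity
      linarith
    have hsub : insert y (O.erase y'') ⊆ insert y O := Finset.insert_subset_insert _ (Finset.erase_subset _ _)
    have hEF'' : EF r C (insert y (O.erase y'')) (ph (insert y (O.erase y''))) := by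
      apply hU _ hsub
      have h1 : (1 - lam (insert y (O.erase y''))) * r ^ 2 ≤ (1 - x) * r ^ 2 :=
        mul_le_mul_of_nonneg_right (by linarith) (by positivity)
      have h2 := hWin.2
      linarith
    have hP'' := hTop _ hEF''.top
    have hval : TYB_H r C x j (insert y (O.erase y'')) y'' = 128 * d * (lam (insert y (O.erase y'')) - x) := by
      unfold TYB_H
      rw [if_pos]
      refine ⟨?_, hxl, hEF'', ?_⟩
      · rw [Finset.mem_insert]
        push Not
        exact ⟨hne, Finset.notMem_erase _ _⟩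
      · refine le_trans ?_ hP''
        rw [hj, div_mul_eq_mul_div]
        exact div_le_div_of_nonneg_right hy1 (by positivity)
    have hfin : fo i (ph O) y ≤ TYB_H r C x j (insert y (O.erase y'')) y'' := by
      rw [hval]
      have h1 : fo i (ph O) y / (128 * d) ≤ lam (insert y (O.erase y'')) - x := by linarith
      rw [div_le_iff₀ (by positivity)] at h1
      linarith
    have hex : ∃ κ : Fin d × Bool, y'' = y + TYB_v κ := by
      rcases hy'' with h | h
      · exact ⟨(k, true), by simp [TYB_v, h]⟩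
      · exact ⟨(k, false), by simp [TYB_v, h, sub_eq_add_neg]⟩
    obtain ⟨κ, hκ⟩ := hex
    refine hfin.trans ?_
    rw [← TYB_map_swap O y y'' hyO hy''O, hκ]
    exact Finset.single_le_sum (f := fun k : Fin d × Bool =>
      TYB_H r C x j (O.map (Equiv.swap y (y + TYB_v k)).toEmbedding) (y + TYB_v k))
      (fun k _ => TYB_H_nonneg _ _ _ _ _ _) (Finset.mem_univ κ)
  have hpt : ∀ O : Finset (Tor d L), (if x - s' ≤ lam O ∧ Typ r x δ (A + 1) C K O then
      ∑ y ∈ Oᶜ.filter (fun y => ε * sq d r ≤ P0 (ph O) y ∧ ε ^ 3 * ss d r ≤ fo i (ph O) y ∧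
        BF r C5 D0 c4 O i (ph O) y), fo i (ph O) y else 0) ≤
      ∑ y, ∑ k : Fin d × Bool,
        TYB_H r C x j (O.map (Equiv.swap y (y + TYB_v k)).toEmbedding) (y + TYB_v k) := by
    intro O
    split_ifs with h
    · refine (Finset.sum_le_sum (hclaim O h.1 h.2)).trans ?_
      apply Finset.sum_le_sum_of_subset_of_nonneg (Finset.subset_univ _)
      intro y _ _
      exact Finset.sum_nonneg (fun k _ => TYB_H_nonneg _ _ _ _ _ _)
    · exact Finset.sum_nonneg (fun y _ => Finset.sum_nonneg (fun k _ => TYB_H_nonneg _ _ _ _ _ _))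
  have hHF : ∀ (O : Finset (Tor d L)) (φ : Tor d L → ℝ), EF r C O φ →
      ∑ y ∈ Oᶜ, P0 φ y ≤ C1 * r ^ (d - 1) * sq d r ∧
      ∀ j : ℝ, 0 < j → ((Oᶜ.filter fun y => j * sq d r ≤ P0 φ y).card : ℝ) ≤ C1 * r ^ (d - 1) / j :=
    fun O φ h => HF r L hr_1 O φ h
  have hexp : ss d r * r ^ (d - 1) = r ^ (-(3 : ℝ)) := by
    unfold ss
    rw [← Real.rpow_natCast r (d - 1), ← Real.rpow_add hr0]
    congr 1
    rw [Nat.cast_sub (by omega)]
    push_cast
    ring
  calc _ ≤ ∑ O : Finset (Tor d L), wt p O * ∑ y, ∑ k : Fin d × Bool,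
        TYB_H r C x j (O.map (Equiv.swap y (y + TYB_v k)).toEmbedding) (y + TYB_v k) := by
        apply Finset.sum_le_sum
        intro O _
        exact mul_le_mul_of_nonneg_left (hpt O) (TYB_wt_nonneg p hp hp1 O)
    _ = 2 * d * ∑ O : Finset (Tor d L), wt p O * ∑ z, TYB_H r C x j O z :=
        TYB_transport h_MTR p hp hp1 _
    _ ≤ 2 * d * ∑ O : Finset (Tor d L), wt p O * ((128 * d * C1 * r ^ (d - 1) / j * ss d r) *
      (if x ≤ lam O then (1 + (lam O - x) / ss d r) * Real.exp (b * ((lam O - x) / ss d r)) else 0)) := by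
        apply mul_le_mul_of_nonneg_left _ (by positivity)
        apply Finset.sum_le_sum
        intro O _
        exact mul_le_mul_of_nonneg_left (TYB_sumH hr_1 hjp hHF b hb hC1 O) (TYB_wt_nonneg p hp hp1 O)
    _ = 2 * d * ((128 * d * C1 * r ^ (d - 1) / j * ss d r) * ∑ O : Finset (Tor d L), wt p O *
      (if x ≤ lam O then (1 + (lam O - x) / ss d r) * Real.exp (b * ((lam O - x) / ss d r)) else 0)) := by
        congr 1
        rw [Finset.mul_sum]
        apply Finset.sum_congr rfl
        intro O _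
        ring
    _ ≤ 2 * d * ((128 * d * C1 * r ^ (d - 1) / j * ss d r) * (CE * TT d L p x)) := by
        apply mul_le_mul_of_nonneg_left _ (by positivity)
        apply mul_le_mul_of_nonneg_left _ (by positivity)
        exact HE r x L (by linarith) hRg hWin
    _ = 2 * d * (128 * d * C1 / j * CE) * (ss d r * r ^ (d - 1)) * TT d L p x := by ring
    _ = _ := by rw [hexp]

end Pool.Agent.LBL
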