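import Pool.Agent.LBL.Targets3

/-!
# LBL: typical configurations (job LBL-TYP, helper66)
-/

set_option autoImplicit false

open Finset
open scoped Classical

namespace Pool.Agent.LBL

noncomputable section

namespace TYP_

/-- union bound for two events -/
theorem pr_or (h : T_PRB) {X : Type} [Fintype X] [DecidableEq X] {p : ℝ} (hp0 : 0 < p)
    (hp1 : p < 1) (A B : Finset X → Prop) :
    pr p (fun O => A O ∨ B O) ≤ pr p A + pr p B := by
  obtain ⟨-, -, -, h4, -⟩ := h X p hp0 hp1
  have h1 := h4 Bool Finset.univ (fun O => A O ∨ B O) (fun b O => if b then A O else B O) (by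
    rintro O (hO | hO)
    · exact ⟨true, Finset.mem_univ _, by simpa using hO⟩
    · exact ⟨false, Finset.mem_univ _, by simpa using hO⟩)
  rw [Fintype.sum_bool] at h1
  simpa using h1

/-- the whole torus is its own set of holes -/
theorem hol_univ {d L : ℕ} [NeZero L] (m : ℕ) : hol m (Finset.univ : Finset (Tor d L)) =
    Finset.univ := by
  unfold hol
  apply Function.iterate_fixed
  ext x
  simp [ero]

theorem card_tor {d L : ℕ} [NeZero L] : Fintype.card (Tor d L) = L ^ d := by
  rw [Fintype.card_fun, ZMod.card, Fintype.card_fin]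

/-- eigenvalue of the empty set -/
theorem lam_empty {d : ℕ} {R : Type} [Ring R] : lam (∅ : Finset (Fin d → R)) = 0 := by
  unfold lam
  have h : {t : ℝ | ∃ f : (Fin d → R) → ℝ, Spp (∅ : Finset (Fin d → R)) f ∧
      ∑ x ∈ (∅ : Finset (Fin d → R)), f x ^ 2 = 1 ∧
      t = ∑ x ∈ (∅ : Finset (Fin d → R)), f x * P0 f x} = ∅ := by
    ext t
    simp
  rw [h, Real.sSup_empty]

/-- the chosen function is a top function -/
theorem top_ph (h_TOP : T_TOP) {d L : ℕ} (hd : 1 ≤ d) (U : Finset (Tor d L)) (hU : U.Nonempty) :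
    Top U (ph U) := by
  have h : ∃ φ : Tor d L → ℝ, Top U φ := h_TOP d (ZMod L) U hd hU
  unfold ph
  rw [dif_pos h]
  exact Classical.choose_spec h

end TYP_

open TYP_ in
theorem p_TYP (h_PRB : T_PRB) (h_OPN : T_OPN) (h_TOP : T_TOP) (h_HMO : T_HMO) (h_MMS : T_MMS)
    (h_GDE : T_GDE) (h_GOO : T_GOO) (h_GAP : T_GAP) (h_R1F : T_R1F) : T_TYP := by
  intro d K0 p a A hd hK0 hp0 hp1 ha haA
  have hA : 0 < A := lt_of_lt_of_le ha haA
  obtain ⟨C', rG, hC', hrG, hGOO⟩ := h_GOO d K0 p a hd hK0 hp0 hp1 ha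
  obtain ⟨C, rD, hC, hrD, hGDE⟩ := h_GDE d K0 p (A + 1) (2 * C') hd hK0 hp0 hp1 (by linarith)
    (by linarith)
  obtain ⟨rM, hrM, hMMS⟩ := h_MMS d K0 p hd hK0 hp0 hp1 1 one_pos
  obtain ⟨δ, c, rA, hδ, hc, hrA, hGAP⟩ := h_GAP d K0 p a A hd hK0 hp0 hp1 ha haA
  obtain ⟨C1, c1, rF, hC1, hc1, hrF, hR1⟩ := h_R1F d K0 p a A hd hK0 hp0 hp1 ha haA
  -- large r for the polynomial against the exponential
  have hlit := (isLittleO_pow_exp_pos_mul_atTop (K0 * d) hc).bound (c := p / 8) (by positivity)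
  obtain ⟨rE, hrE⟩ := Filter.eventually_atTop.1 hlit
  set K : ℝ := max 1 (((K0 * d : ℕ) + 1) / c1) with hK
  have hK1 : 1 ≤ K := le_max_left _ _
  have hKc : ((K0 * d : ℕ) : ℝ) + 1 ≤ c1 * K := by
    have h1 : (((K0 * d : ℕ) : ℝ) + 1) / c1 ≤ K := le_max_right _ _
    rw [div_le_iff₀ hc1] at h1
    linarith
  set r0 : ℝ := rG + rD + rM + rA + rF + |rE| + (A + 1) + 3 / c + 3 + 1 / C' + (2 * C' + 1) +
    8 * C1 / p with hr0
  have e1 : 0 ≤ |rE| := abs_nonneg _
  have e2 : 0 < 3 / c := by positivity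
  have e3 : 0 < 1 / C' := by positivity
  have e4 : 0 < 8 * C1 / p := by positivity
  refine ⟨δ, C, K, r0, hδ, hC, hK1, by linarith, ?_⟩
  intro r x s' L _ hr hRg hWin hs0 _
  have hr3 : 3 ≤ r := by linarith
  have hrpos : 0 < r := by linarith
  have hr1 : 1 ≤ r := by linarith
  have hrC : r * C' ≥ 1 := by
    have h1 : 1 / C' ≤ r := by linarith
    rw [div_le_iff₀ hC'] at h1
    exact h1
  have hRg1 := hRg.1
  have hRg2 := hRg.2
  have hW1 := hWin.1
  have hW2 := hWin.2
  have hx1 : x ≤ 1 := by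
    by_contra hx
    push Not at hx
    have h1 : (1 - x) * r ^ 2 ≤ 0 := mul_nonpos_of_nonpos_of_nonneg (by linarith) (by positivity)
    linarith
  obtain ⟨hP1, hP2, hP3, hP4, hP5⟩ := h_PRB (Tor d L) p hp0 hp1
  set m : ℕ := mm d p K0 r with hm
  -- the bad events
  set E1 : Finset (Tor d L) → Prop := fun O => C' * r ^ d < ((hol m O).card : ℝ) with hE1
  set E2 : Finset (Tor d L) → Prop := fun O => ¬ Sec O (x - δ / r ^ 2) with hE2
  set E3 : Finset (Tor d L) → Prop := fun O => ∃ y, y ∉ O ∧ E2 (insert y O) with hE3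
  set F4 : Finset (Tor d L) → Prop := fun O => x + (K * Real.log r) * ss d r ≤ lam O with hF4
  set E4 : Finset (Tor d L) → Prop := fun O => ∃ y, y ∉ O ∧ F4 (insert y O) with hE4
  have hTT0 : 0 ≤ TT d L p x := (hP2 _).1
  have hrd : r ≤ r ^ d := by
    calc r = r ^ 1 := (pow_one r).symm
      _ ≤ r ^ d := pow_le_pow_right₀ hr1 (by omega)
  have hexp3 : Real.exp (-3) ≤ 1 / 8 := by
    rw [Real.exp_neg, inv_eq_one_div]
    apply one_div_le_one_div_of_le (by norm_num)
    have h1 := Real.exp_one_gt_d9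
    have h2 : Real.exp 3 = Real.exp 1 ^ 3 := by
      rw [← Real.exp_nat_mul]
      norm_num
    rw [h2]
    have h3 : (2 : ℝ) ≤ Real.exp 1 := by linarith
    calc (8 : ℝ) = 2 ^ 3 := by norm_num
      _ ≤ Real.exp 1 ^ 3 := pow_le_pow_left₀ (by norm_num) h3 3
  -- card of the torus
  have hLd : (L : ℝ) ^ d ≤ r ^ (K0 * d) := by
    rw [pow_mul]
    exact pow_le_pow_left₀ (by positivity) hRg2 d
  have hcardX : (Fintype.card (Tor d L) : ℝ) * ((1 - p) / p) ≤ r ^ (K0 * d) / p := by
    rw [card_tor, Nat.cast_pow]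
    calc (L : ℝ) ^ d * ((1 - p) / p) ≤ r ^ (K0 * d) * (1 / p) := by
          apply mul_le_mul hLd _ _ (by positivity)
          · exact div_le_div_of_nonneg_right (by linarith) hp0.le
          · exact div_nonneg (by linarith) hp0.le
      _ = r ^ (K0 * d) / p := by ring
  have b1 : pr p E1 ≤ 1 / 8 * TT d L p x := by
    refine le_trans (hGOO r x L (by linarith) hRg hW1 hx1) ?_
    apply mul_le_mul_of_nonneg_right _ hTT0
    refine le_trans (Real.exp_le_exp.2 ?_) hexp3
    linarith
  have hexpc : Real.exp (-c * r ^ d) ≤ Real.exp (-(c * r)) := by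
    apply Real.exp_le_exp.2
    have : c * r ≤ c * r ^ d := mul_le_mul_of_nonneg_left hrd hc.le
    linarith
  have b2 : pr p E2 ≤ 1 / 8 * TT d L p x := by
    refine le_trans (hGAP r x L (by linarith) hRg hWin) ?_
    apply mul_le_mul_of_nonneg_right _ hTT0
    refine le_trans hexpc (le_trans (Real.exp_le_exp.2 ?_) hexp3)
    have h1 : 3 / c ≤ r := by linarith
    rw [div_le_iff₀ hc] at h1
    linarith
  have b3 : pr p E3 ≤ 1 / 8 * TT d L p x := by
    have h1 := h_OPN (Tor d L) p hp0 hp1 E2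
    refine le_trans h1 ?_
    have h2 := hGAP r x L (by linarith) hRg hWin
    have h3 : 0 ≤ pr p E2 := (hP2 _).1
    have h4 := hrE r (by
      have := le_abs_self rE
      linarith)
    have h5 : r ^ (K0 * d) ≤ p / 8 * Real.exp (c * r) := by
      rw [Real.norm_of_nonneg (by positivity), Real.norm_of_nonneg (Real.exp_pos _).le] at h4
      exact h4
    calc (Fintype.card (Tor d L) : ℝ) * ((1 - p) / p) * pr p E2
        ≤ r ^ (K0 * d) / p * (Real.exp (-c * r ^ d) * TT d L p x) :=
          mul_le_mul hcardX h2 h3 (by positivity)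
      _ = (r ^ (K0 * d) * Real.exp (-c * r ^ d)) / p * TT d L p x := by ring
      _ ≤ 1 / 8 * TT d L p x := by
          apply mul_le_mul_of_nonneg_right _ hTT0
          rw [div_le_iff₀ hp0]
          calc r ^ (K0 * d) * Real.exp (-c * r ^ d)
              ≤ (p / 8 * Real.exp (c * r)) * Real.exp (-(c * r)) :=
                mul_le_mul h5 hexpc (Real.exp_pos _).le (by positivity)
            _ = p / 8 * (Real.exp (c * r) * Real.exp (-(c * r))) := by ring
            _ = 1 / 8 * p := by
                rw [← Real.exp_add, add_neg_cancel, Real.exp_zero]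
                ring
  have hlogr : 0 ≤ Real.log r := Real.log_nonneg hr1
  have b4 : pr p E4 ≤ 1 / 8 * TT d L p x := by
    have h1 := h_OPN (Tor d L) p hp0 hp1 F4
    refine le_trans h1 ?_
    have h2 : pr p F4 ≤ C1 * Real.exp (-c1 * (K * Real.log r)) * TT d L p x :=
      hR1 r x (K * Real.log r) L (by linarith) hRg hWin (mul_nonneg (by linarith) hlogr)
    have h3 : 0 ≤ pr p F4 := (hP2 _).1
    have h4 : Real.exp (-c1 * (K * Real.log r)) ≤ 1 / (r ^ (K0 * d) * r) := by
      have h5 : Real.exp (-c1 * (K * Real.log r)) ≤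
          Real.exp (-((((K0 * d : ℕ) : ℝ) + 1) * Real.log r)) := by
        apply Real.exp_le_exp.2
        have := mul_le_mul_of_nonneg_right hKc hlogr
        nlinarith
      refine le_trans h5 (le_of_eq ?_)
      rw [Real.exp_neg, ← pow_succ, inv_eq_one_div]
      congr 1
      have h6 : (((K0 * d : ℕ) : ℝ) + 1) * Real.log r = Real.log (r ^ (K0 * d + 1)) := by
        rw [Real.log_pow]
        push_cast
        ring
      rw [h6, Real.exp_log (by positivity)]
    have h7 : 8 * C1 / p ≤ r := by linarith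
    rw [div_le_iff₀ hp0] at h7
    calc (Fintype.card (Tor d L) : ℝ) * ((1 - p) / p) * pr p F4
        ≤ r ^ (K0 * d) / p * (C1 * (1 / (r ^ (K0 * d) * r)) * TT d L p x) := by
          apply mul_le_mul hcardX _ h3 (by positivity)
          refine le_trans h2 ?_
          apply mul_le_mul_of_nonneg_right _ hTT0
          exact mul_le_mul_of_nonneg_left h4 hC1.le
      _ = (C1 / (p * r)) * TT d L p x := by
          field_simp
      _ ≤ 1 / 8 * TT d L p x := by
          apply mul_le_mul_of_nonneg_right _ hTT0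
          rw [div_le_iff₀ (by positivity)]
          linarith
  -- number of holes of `insert y O`
  have hholins : ∀ (O : Finset (Tor d L)) (y : Tor d L), ¬ E1 O →
      ((hol m (insert y O)).card : ℝ) ≤ 2 * C' * r ^ d := by
    intro O y hO
    have h1 : ((hol m O).card : ℝ) ≤ C' * r ^ d := not_lt.1 hO
    have h2 := (h_HMO d L m O O (by omega)).2 y
    have h3 : ((hol m (insert y O)).card : ℝ) ≤ (hol m O).card + (2 * (d : ℝ) + 1) ^ m := by
      exact_mod_cast h2
    have h4 : (2 * (d : ℝ) + 1) ^ m ≤ r := by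
      have h5 := (hMMS r (by linarith)).2.2
      rw [Real.rpow_one, ← hm] at h5
      refine le_trans (pow_le_pow_right₀ (by
        have : (0 : ℝ) ≤ d := by positivity
        linarith) (by omega)) h5
    have h6 : r ≤ C' * r ^ d := by
      have h7 : r ^ 2 ≤ r ^ d := pow_le_pow_right₀ hr1 hd
      have h8 : C' * r ^ 2 ≤ C' * r ^ d := mul_le_mul_of_nonneg_left h7 hC'.le
      nlinarith
    linarith
  have hbig : 2 * C' * r ^ d < (L : ℝ) ^ d := by
    have h1 : r ^ (d + 1) ≤ (L : ℝ) := le_trans (pow_le_pow_right₀ hr1 (by omega)) hRg1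
    have hL1 : (1 : ℝ) ≤ L := le_trans (one_le_pow₀ hr1) h1
    have h2 : (L : ℝ) ≤ (L : ℝ) ^ d := by
      calc (L : ℝ) = (L : ℝ) ^ 1 := (pow_one _).symm
        _ ≤ (L : ℝ) ^ d := pow_le_pow_right₀ hL1 (by omega)
    have h3 : 2 * C' < r := by linarith
    calc 2 * C' * r ^ d < r * r ^ d := mul_lt_mul_of_pos_right h3 (by positivity)
      _ = r ^ (d + 1) := by ring
      _ ≤ (L : ℝ) ^ d := le_trans h1 h2
  have hne_univ : ∀ U : Finset (Tor d L), ((hol m U).card : ℝ) ≤ 2 * C' * r ^ d →
      U ≠ Finset.univ := by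
    rintro U hU rfl
    rw [hol_univ, Finset.card_univ, card_tor, Nat.cast_pow] at hU
    linarith
  -- inclusion
  have hincl : ∀ O : Finset (Tor d L), (x - s' ≤ lam O ∧ ¬ Typ r x δ (A + 1) C K O) →
      (E1 O ∨ E2 O) ∨ (E3 O ∨ E4 O) := by
    rintro O ⟨-, hT⟩
    by_contra hcon
    push Not at hcon
    obtain ⟨⟨hn1, hn2⟩, hn3, hn4⟩ := hcon
    apply hT
    refine ⟨?_, not_not.1 hn2, ?_⟩
    · apply hne_univ
      have h1 : ((hol m O).card : ℝ) ≤ C' * r ^ d := not_lt.1 hn1
      have h2 : 0 ≤ C' * r ^ d := by positivity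
      linarith
    · intro y hy
      refine ⟨hne_univ _ (hholins O y hn1), ?_, ?_, ?_⟩
      · by_contra hS
        exact hn3 ⟨y, hy, hS⟩
      · by_contra hl
        push Not at hl
        apply hn4
        refine ⟨y, hy, ?_⟩
        have h1 : K * ss d r * Real.log r = (K * Real.log r) * ss d r := by ring
        rw [h1] at hl
        exact hl.le
      · intro U hU hlam
        have hUne : U.Nonempty := by
          rw [Finset.nonempty_iff_ne_empty]
          rintro rfl
          rw [lam_empty] at hlam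
          have h1 : A + 1 < r ^ 2 := by
            have h2 : A + 1 < r := by linarith
            exact lt_of_lt_of_le h2 (le_self_pow₀ hr1 (by norm_num))
          linarith
        apply hGDE r L (by linarith) hRg U (ph U) (top_ph h_TOP (by omega) U hUne) hlam
        have h1 : (hol m U).card ≤ (hol m (insert y O)).card :=
          Finset.card_le_card ((h_HMO d L m U (insert y O) (by omega)).1 hU)
        have h2 : ((hol m U).card : ℝ) ≤ (hol m (insert y O)).card := by exact_mod_cast h1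
        exact le_trans h2 (hholins O y hn1)
  calc pr p (fun O : Finset (Tor d L) => x - s' ≤ lam O ∧ ¬ Typ r x δ (A + 1) C K O)
      ≤ pr p (fun O => (E1 O ∨ E2 O) ∨ (E3 O ∨ E4 O)) := hP3 _ _ hincl
    _ ≤ pr p (fun O => E1 O ∨ E2 O) + pr p (fun O => E3 O ∨ E4 O) :=
        pr_or h_PRB hp0 hp1 _ _
    _ ≤ (pr p E1 + pr p E2) + (pr p E3 + pr p E4) :=
        add_le_add (pr_or h_PRB hp0 hp1 _ _) (pr_or h_PRB hp0 hp1 _ _)
    _ ≤ TT d L p x / 2 := by linarith
    _ ≤ TT d L p (x - s') / 2 := by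
        have h1 : TT d L p x ≤ TT d L p (x - s') := by
          unfold TT
          apply hP3
          intro O hO
          linarith
        linarith

end

end Pool.Agent.LBL
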