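import Pool.Agent.LBL.Targets1

set_option autoImplicit false

/-!
# LBL: T_UNQ, uniqueness of the top eigenfunction below a spectral gap
-/

open Finset
open scoped Classical

namespace Pool.Agent.LBL

noncomputable section

/-- linearity of the transition operator -/
theorem UNQ_lin {d : ℕ} {R : Type} [Ring R] (f g : (Fin d → R) → ℝ) (a : ℝ) (x : Fin d → R) :
    P0 (fun z => f z - a * g z) x = P0 f x - a * P0 g x := by
  unfold P0
  have h : ∑ i : Fin d, ((f (x + ev i) - a * g (x + ev i)) + (f (x - ev i) - a * g (x - ev i))) =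
      (∑ i : Fin d, (f (x + ev i) + f (x - ev i))) -
        a * ∑ i : Fin d, (g (x + ev i) + g (x - ev i)) := by
    rw [Finset.mul_sum, ← Finset.sum_sub_distrib]
    exact Finset.sum_congr rfl fun i _ => by ring
  rw [h, sub_div, mul_div_assoc]

/-- two top functions agree -/
theorem UNQ_eq {d : ℕ} {R : Type} [Ring R] (O : Finset (Fin d → R)) (y : ℝ)
    (φ ψ : (Fin d → R) → ℝ) (hS : Sec O y) (hy : y < lam O) (h1 : Top O φ) (h2 : Top O ψ) :
    ψ = φ := by
  set a : ℝ := ∑ x ∈ O, ψ x * φ x with ha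
  have ha0 : 0 ≤ a := Finset.sum_nonneg fun x _ => mul_nonneg (h2.nn x) (h1.nn x)
  set f : (Fin d → R) → ℝ := fun z => ψ z - a * φ z with hf
  have hsp : Spp O f := by
    intro x hx
    simp only [hf, h2.sp x hx, h1.sp x hx, mul_zero, sub_zero]
  have horth : ∑ x ∈ O, f x * φ x = 0 := by
    have : ∑ x ∈ O, f x * φ x = ∑ x ∈ O, ψ x * φ x - a * ∑ x ∈ O, φ x ^ 2 := by
      rw [Finset.mul_sum, ← Finset.sum_sub_distrib]
      refine Finset.sum_congr rfl fun x _ => ?_
      simp only [hf]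
      ring
    rw [this, h1.nm, ← ha]
    ring
  have hform : ∑ x ∈ O, f x * P0 f x = lam O * ∑ x ∈ O, f x ^ 2 := by
    rw [Finset.mul_sum]
    refine Finset.sum_congr rfl fun x hx => ?_
    have e : P0 f x = lam O * f x := by
      rw [hf, UNQ_lin, h2.eq x hx, h1.eq x hx]
      ring
    rw [e]
    ring
  have hsec := hS φ h1 f hsp horth
  rw [hform] at hsec
  have hnn : 0 ≤ ∑ x ∈ O, f x ^ 2 := Finset.sum_nonneg fun x _ => sq_nonneg _
  have hz : ∑ x ∈ O, f x ^ 2 = 0 := by
    by_contra hne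
    have hpos : 0 < ∑ x ∈ O, f x ^ 2 := lt_of_le_of_ne hnn (Ne.symm hne)
    have := mul_lt_mul_of_pos_right hy hpos
    linarith
  have hf0 : ∀ x ∈ O, ψ x = a * φ x := by
    intro x hx
    have h := (Finset.sum_eq_zero_iff_of_nonneg (fun x _ => sq_nonneg (f x))).1 hz x hx
    have h' : f x = 0 := by
      exact pow_eq_zero_iff (two_ne_zero) |>.1 h
    simp only [hf] at h'
    linarith
  have ha1 : a ^ 2 = 1 := by
    have h : ∑ x ∈ O, ψ x ^ 2 = a ^ 2 * ∑ x ∈ O, φ x ^ 2 := by
      rw [Finset.mul_sum]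
      refine Finset.sum_congr rfl fun x hx => ?_
      rw [hf0 x hx]
      ring
    rw [h2.nm, h1.nm] at h
    linarith
  have ha2 : a = 1 := by nlinarith
  funext x
  by_cases hx : x ∈ O
  · rw [hf0 x hx, ha2, one_mul]
  · rw [h1.sp x hx, h2.sp x hx]

/-- uniqueness of the top function -/
theorem p_UNQ : T_UNQ := by
  intro d R _ O y φ ψ _ hS hy h1 h2
  refine ⟨UNQ_eq O y φ ψ hS hy h1 h2, ?_⟩
  have hex : ∃ φ : (Fin d → R) → ℝ, Top O φ := ⟨φ, h1⟩
  have hp : Top O (ph O) := by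
    unfold ph
    rw [dif_pos hex]
    exact Classical.choose_spec hex
  exact UNQ_eq O y φ (ph O) hS hy h1 hp

end

end Pool.Agent.LBL
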