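import Pool.Agent.LBL.Targets1

set_option autoImplicit false

/-!
# LBL: continuity of the optimal volume (T_VCT), from the targets T_VUP and T_DUP
-/

open Finset
open scoped Classical

namespace Pool.Agent.LBL

noncomputable section

namespace VCT_

lemma lam_empty {d : ℕ} {R : Type} [Ring R] : lam (∅ : Finset (Fin d → R)) = 0 := by
  unfold lam
  have : {t : ℝ | ∃ f : (Fin d → R) → ℝ, Spp (∅ : Finset (Fin d → R)) f ∧
      ∑ x ∈ (∅ : Finset (Fin d → R)), f x ^ 2 = 1 ∧
      t = ∑ x ∈ (∅ : Finset (Fin d → R)), f x * P0 f x} = ∅ := by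
    ext t
    simp
  rw [this, Real.sSup_empty]

lemma nonempty_of_pos {d L : ℕ} (V : Finset (Tor d L)) {x : ℝ} (hx : 0 < x) (h : x ≤ lam V) :
    V.Nonempty := by
  by_contra hV
  rw [Finset.not_nonempty_iff_eq_empty] at hV
  subst hV
  rw [lam_empty] at h
  linarith

/-- One step of the process. -/
lemma step (hD : T_DUP) {d L : ℕ} [NeZero L] (hd : 2 ≤ d) (hL : 3 ≤ L)
    {q B x y N0 M2 : ℝ} (hq : 0 < q) (hx : 0 < x) (hy : y ≤ 1 - q) (hxB : 1 - x ≤ B)
    (hN0 : 0 ≤ N0) (hM2 : N0 * Real.exp (2 * d / q * (y - x)) ≤ M2) (hM2L : M2 < L)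
    (V : Finset (Tor d L)) (hV1 : x ≤ lam V)
    (hV2 : (V.card : ℝ) ≤ N0 * Real.exp (2 * d / q * (lam V - x)))
    (hV3 : (V.card : ℝ) ≤ N0 + 2 * d * M2 / q * (lam V - x))
    (hV4 : lam V < y) :
    ∃ V' : Finset (Tor d L), V.card < V'.card ∧ x ≤ lam V' ∧
      (V'.card : ℝ) ≤ N0 * Real.exp (2 * d / q * (lam V' - x)) ∧
      (V'.card : ℝ) ≤ N0 + 2 * d * M2 / q * (lam V' - x) ∧
      (V'.card : ℝ) ≤ N0 + 2 * d * M2 / q * (y - x) + d * M2 * (1 / L + 2 * Real.sqrt (2 * d * B)) := by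
  have hd0 : (0 : ℝ) < d := by
    have : (2 : ℝ) ≤ d := by exact_mod_cast hd
    linarith
  have hVne := nonempty_of_pos V hx hV1
  have hc0 : (0 : ℝ) < V.card := by
    have := Finset.card_pos.mpr hVne
    exact_mod_cast this
  have hexp : N0 * Real.exp (2 * d / q * (lam V - x)) ≤ N0 * Real.exp (2 * d / q * (y - x)) := by
    apply mul_le_mul_of_nonneg_left _ hN0
    apply Real.exp_le_exp.mpr
    apply mul_le_mul_of_nonneg_left _ (by positivity)
    linarith
  have hcM : (V.card : ℝ) ≤ M2 := le_trans hV2 (le_trans hexp hM2)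
  have hM0 : 0 < M2 := lt_of_lt_of_le hc0 hcM
  have hcL : V.card < L := by
    have : (V.card : ℝ) < L := lt_of_le_of_lt hcM hM2L
    exact_mod_cast this
  have hl1 : lam V < 1 := by linarith
  obtain ⟨V', n, hn1, hn2, hn3, hn4⟩ := hD d L hd hL V hVne hcL hl1
  have hq1 : q ≤ 1 - lam V := by linarith
  have hn0 : (0 : ℝ) ≤ n := Nat.cast_nonneg n
  have hgain : q * n / (2 * d * V.card) ≤ lam V' - lam V := by
    refine le_trans ?_ hn3
    apply div_le_div_of_nonneg_right _ (by positivity)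
    exact mul_le_mul_of_nonneg_right hq1 hn0
  have hgain1 : (n : ℝ) / V.card ≤ 2 * d / q * (lam V' - lam V) := by
    have h1 : (n : ℝ) / V.card = 2 * d / q * (q * n / (2 * d * V.card)) := by
      field_simp
    rw [h1]
    exact mul_le_mul_of_nonneg_left hgain (by positivity)
  have hgain0 : 0 ≤ lam V' - lam V := le_trans (by positivity) hgain
  have hgain2 : (n : ℝ) ≤ 2 * d * M2 / q * (lam V' - lam V) := by
    have h1 : (n : ℝ) = V.card * ((n : ℝ) / V.card) := by field_simp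
    calc (n : ℝ) = V.card * ((n : ℝ) / V.card) := h1
      _ ≤ V.card * (2 * d / q * (lam V' - lam V)) :=
          mul_le_mul_of_nonneg_left hgain1 hc0.le
      _ ≤ M2 * (2 * d / q * (lam V' - lam V)) :=
          mul_le_mul_of_nonneg_right hcM (by positivity)
      _ = 2 * d * M2 / q * (lam V' - lam V) := by ring
  have hcard : (V'.card : ℝ) = V.card + n := by rw [hn2]; push_cast; ring
  have hlast : (n : ℝ) ≤ d * M2 * (1 / L + 2 * Real.sqrt (2 * d * B)) := by
    refine le_trans hn4 ?_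
    have hs : Real.sqrt (2 * d * (1 - lam V)) ≤ Real.sqrt (2 * d * B) := by
      apply Real.sqrt_le_sqrt
      apply mul_le_mul_of_nonneg_left _ (by positivity)
      linarith
    have hL0 : (0 : ℝ) ≤ 1 / L := by positivity
    apply mul_le_mul
    · exact mul_le_mul_of_nonneg_left hcM hd0.le
    · linarith
    · have := Real.sqrt_nonneg (2 * d * (1 - lam V))
      positivity
    · positivity
  refine ⟨V', ?_, ?_, ?_, ?_, ?_⟩
  · rw [hn2]; omega
  · linarith
  · have h1 : (V'.card : ℝ) ≤ V.card * Real.exp ((n : ℝ) / V.card) := by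
      have h2 := Real.add_one_le_exp ((n : ℝ) / V.card)
      have h3 : (V'.card : ℝ) = V.card * ((n : ℝ) / V.card + 1) := by
        rw [hcard]; field_simp; ring
      rw [h3]
      exact mul_le_mul_of_nonneg_left h2 hc0.le
    calc (V'.card : ℝ) ≤ V.card * Real.exp ((n : ℝ) / V.card) := h1
      _ ≤ (N0 * Real.exp (2 * d / q * (lam V - x))) * Real.exp (2 * d / q * (lam V' - lam V)) := by
          apply mul_le_mul hV2 (Real.exp_le_exp.mpr hgain1) (Real.exp_pos _).le
          positivity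
      _ = N0 * Real.exp (2 * d / q * (lam V' - x)) := by
          rw [mul_assoc, ← Real.exp_add]
          congr 2
          ring
  · rw [hcard]
    calc (V.card : ℝ) + n ≤ (N0 + 2 * d * M2 / q * (lam V - x)) + 2 * d * M2 / q * (lam V' - lam V) :=
          add_le_add hV3 hgain2
      _ = N0 + 2 * d * M2 / q * (lam V' - x) := by ring
  · rw [hcard]
    have h5 : 2 * d * M2 / q * (lam V - x) ≤ 2 * d * M2 / q * (y - x) := by
      apply mul_le_mul_of_nonneg_left _ (by positivity)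
      linarith
    linarith

/-- The whole process. -/
lemma process (hD : T_DUP) {d L : ℕ} [NeZero L] (hd : 2 ≤ d) (hL : 3 ≤ L)
    {q B x y N0 M2 : ℝ} (hq : 0 < q) (hx : 0 < x) (hy : y ≤ 1 - q) (hxy : x ≤ y) (hxB : 1 - x ≤ B)
    (hM2 : N0 * Real.exp (2 * d / q * (y - x)) ≤ M2) (hM2L : M2 < L)
    (V0 : Finset (Tor d L)) (hV0 : x ≤ lam V0) (hN : (V0.card : ℝ) = N0) :
    (vol d L y : ℝ) ≤ N0 + 2 * d * M2 / q * (y - x) + d * M2 * (1 / L + 2 * Real.sqrt (2 * d * B)) := by
  have hd0 : (0 : ℝ) < d := by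
    have : (2 : ℝ) ≤ d := by exact_mod_cast hd
    linarith
  have hN0 : 0 ≤ N0 := by rw [← hN]; positivity
  have hM0 : 0 ≤ M2 := le_trans (by positivity) hM2
  have hvol : ∀ V : Finset (Tor d L), y ≤ lam V → (vol d L y : ℝ) ≤ V.card := by
    intro V hV
    have : vol d L y ≤ V.card := Nat.sInf_le ⟨V, rfl, hV⟩
    exact_mod_cast this
  by_cases h0 : y ≤ lam V0
  · have h1 := hvol V0 h0
    have h2 : 0 ≤ 2 * d * M2 / q * (y - x) := mul_nonneg (by positivity) (by linarith)
    have h3 : 0 ≤ d * M2 * (1 / L + 2 * Real.sqrt (2 * d * B)) := by positivity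
    linarith
  · push Not at h0
    let S : Finset (Finset (Tor d L)) := Finset.univ.filter fun V =>
      x ≤ lam V ∧ (V.card : ℝ) ≤ N0 * Real.exp (2 * d / q * (lam V - x)) ∧
      (V.card : ℝ) ≤ N0 + 2 * d * M2 / q * (lam V - x) ∧ lam V < y
    have hV0S : V0 ∈ S := by
      simp only [S, Finset.mem_filter, Finset.mem_univ, true_and]
      refine ⟨hV0, ?_, ?_, h0⟩
      · rw [hN]
        have h1 : 1 ≤ Real.exp (2 * d / q * (lam V0 - x)) := by
          apply Real.one_le_exp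
          exact mul_nonneg (by positivity) (by linarith)
        nlinarith
      · rw [hN]
        have h1 : 0 ≤ 2 * d * M2 / q * (lam V0 - x) := mul_nonneg (by positivity) (by linarith)
        linarith
    obtain ⟨V, hVS, hVmax⟩ := Finset.exists_max_image S (fun V => V.card) ⟨V0, hV0S⟩
    simp only [S, Finset.mem_filter, Finset.mem_univ, true_and] at hVS
    obtain ⟨h1, h2, h3, h4⟩ := hVS
    obtain ⟨V', g1, g2, g3, g4, g5⟩ := step hD hd hL hq hx hy hxB hN0 hM2 hM2L V h1 h2 h3 h4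
    have hy' : y ≤ lam V' := by
      by_contra hcon
      push Not at hcon
      have hmem : V' ∈ S := by
        simp only [S, Finset.mem_filter, Finset.mem_univ, true_and]
        exact ⟨g2, g3, g4, hcon⟩
      have := hVmax V' hmem
      omega
    exact le_trans (hvol V' hy') g5

end VCT_

open VCT_ in
theorem p_VCT (hU : T_VUP) (hD : T_DUP) : T_VCT := by
  intro d K0 a A hd hK0 ha haA
  obtain ⟨CV, hCV, hU'⟩ := hU d hd
  have hA : 0 < A := lt_of_lt_of_le ha haA
  have hd2 : (2 : ℝ) ≤ d := by exact_mod_cast hd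
  have hd0 : (0 : ℝ) < d := by linarith
  set b : ℝ := a ^ (-(1 : ℝ) / 2) + 1 with hb
  have hb1 : 1 ≤ b := by
    have := Real.rpow_nonneg ha.le (-(1 : ℝ) / 2)
    linarith
  set C1 : ℝ := CV * b ^ d with hC1
  have hC1p : 0 < C1 := by positivity
  set C2 : ℝ := C1 * Real.exp (2 * d * A / a) with hC2
  have hC2p : 0 < C2 := by positivity
  set C : ℝ := 2 * d * C2 / a + d * C2 * (1 + 2 * Real.sqrt (2 * d * A)) with hC
  have hCp : 0 < C := by positivity
  refine ⟨C, 3 + CV * b + C2 + A, hCp, by nlinarith [mul_pos hCV (lt_of_lt_of_le one_pos hb1)], ?_⟩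
  intro r x u L hLne hr hRg hWx hu hWu
  have hCb : 0 < CV * b := by positivity
  have hr3 : 3 ≤ r := by linarith
  have hr1 : 1 ≤ r := by linarith
  have hr0 : 0 < r := by linarith
  have hrA : A < r ^ 2 := by nlinarith
  have hrC2 : C2 < r := by linarith
  obtain ⟨hRg1, -⟩ := hRg
  obtain ⟨hx1, hx2⟩ := hWx
  obtain ⟨hy1, hy2⟩ := hWu
  have hr2 : 0 < r ^ 2 := by positivity
  -- x positive
  have hx0 : 0 < x := by
    by_contra hcon
    push Not at hcon
    nlinarith
  have hrd4 : r ^ 2 ≤ r ^ (d + 4) := pow_le_pow_right₀ hr1 (by omega)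
  have hL9 : (9 : ℝ) ≤ L := by
    have : (9 : ℝ) ≤ r ^ 2 := by nlinarith
    linarith
  have hL3 : 3 ≤ L := by
    have : (3 : ℝ) ≤ L := by linarith
    exact_mod_cast this
  have hrL : r ≤ L := by nlinarith
  have hcond : CV * (r * a ^ (-(1 : ℝ) / 2) + 1) ≤ L := by
    have h1 : r * a ^ (-(1 : ℝ) / 2) + 1 ≤ r * b := by
      rw [hb]; nlinarith
    have h2 : CV * (r * a ^ (-(1 : ℝ) / 2) + 1) ≤ CV * (r * b) :=
      mul_le_mul_of_nonneg_left h1 hCV.le
    have h3 : CV * (r * b) = CV * b * r := by ring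
    have h4 : CV * b * r ≤ r * r := mul_le_mul_of_nonneg_right (by linarith) hr0.le
    nlinarith
  obtain ⟨W, hW1, hW2⟩ := hU' a r x L ha hx1 hr1 hcond
  have hne : {n : ℕ | ∃ V : Finset (Tor d L), V.card = n ∧ x ≤ lam V}.Nonempty := ⟨W.card, W, rfl, hW1⟩
  obtain ⟨V0, hV0c, hV0l⟩ := Nat.sInf_mem hne
  have hV0c' : V0.card = vol d L x := hV0c
  have hvolW : vol d L x ≤ W.card := Nat.sInf_le ⟨W, rfl, hW1⟩
  have hvolx : (vol d L x : ℝ) ≤ C1 * r ^ d := by
    have h0 : (vol d L x : ℝ) ≤ W.card := by exact_mod_cast hvolW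
    have h1 : r * a ^ (-(1 : ℝ) / 2) + 1 ≤ r * b := by
      rw [hb]; nlinarith
    have h1' : 0 ≤ r * a ^ (-(1 : ℝ) / 2) + 1 := by
      have := Real.rpow_nonneg ha.le (-(1 : ℝ) / 2)
      positivity
    have h2 : (r * a ^ (-(1 : ℝ) / 2) + 1) ^ d ≤ (r * b) ^ d := pow_le_pow_left₀ h1' h1 d
    calc (vol d L x : ℝ) ≤ W.card := h0
      _ ≤ CV * (r * a ^ (-(1 : ℝ) / 2) + 1) ^ d := hW2
      _ ≤ CV * (r * b) ^ d := mul_le_mul_of_nonneg_left h2 hCV.le
      _ = C1 * r ^ d := by rw [hC1, mul_pow]; ring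
  have hq : 0 < a / r ^ 2 := by positivity
  have hyq : x + u ≤ 1 - a / r ^ 2 := by
    have : a / r ^ 2 ≤ 1 - (x + u) := by
      rw [div_le_iff₀ hr2]; exact hy1
    linarith
  have hxB : 1 - x ≤ A / r ^ 2 := by
    rw [le_div_iff₀ hr2]; exact hx2
  have hur : u * r ^ 2 ≤ A := by nlinarith
  have hM2 : (vol d L x : ℝ) * Real.exp (2 * d / (a / r ^ 2) * (x + u - x)) ≤ C2 * r ^ d := by
    have h1 : 2 * d / (a / r ^ 2) * (x + u - x) = 2 * d * (u * r ^ 2) / a := by
      field_simp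
      ring
    have h2 : Real.exp (2 * d / (a / r ^ 2) * (x + u - x)) ≤ Real.exp (2 * d * A / a) := by
      apply Real.exp_le_exp.mpr
      rw [h1]
      apply div_le_div_of_nonneg_right _ ha.le
      exact mul_le_mul_of_nonneg_left hur (by positivity)
    calc (vol d L x : ℝ) * Real.exp (2 * d / (a / r ^ 2) * (x + u - x))
        ≤ (C1 * r ^ d) * Real.exp (2 * d * A / a) :=
          mul_le_mul hvolx h2 (Real.exp_pos _).le (by positivity)
      _ = C2 * r ^ d := by rw [hC2]; ring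
  have hM2L : C2 * r ^ d < L := by
    have h1 : C2 * r ^ d < r * r ^ d := mul_lt_mul_of_pos_right hrC2 (by positivity)
    have h2 : r * r ^ d = r ^ (d + 1) := by ring
    have h3 : r ^ (d + 1) ≤ r ^ (d + 4) := pow_le_pow_right₀ hr1 (by omega)
    linarith
  have hmain := process hD hd hL3 hq hx0 hyq (by linarith) hxB hM2 hM2L V0 hV0l (by rw [hV0c'])
  refine le_trans hmain ?_
  have hd1 : r ^ d = r ^ (d - 1) * r := by
    rw [← pow_succ]
    congr 1
    omega
  have e1 : 2 * d * (C2 * r ^ d) / (a / r ^ 2) * (x + u - x) = (2 * d * C2 / a) * (u * r ^ (d + 2)) := by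
    field_simp
    ring
  have hsq : Real.sqrt (2 * d * (A / r ^ 2)) = Real.sqrt (2 * d * A) / r := by
    have : 2 * d * (A / r ^ 2) = (2 * d * A) / r ^ 2 := by ring
    rw [this, Real.sqrt_div (by positivity), Real.sqrt_sq hr0.le]
  have h1L : (1 : ℝ) / L ≤ 1 / r := one_div_le_one_div_of_le hr0 hrL
  have e2 : d * (C2 * r ^ d) * (1 / L + 2 * Real.sqrt (2 * d * (A / r ^ 2))) ≤
      d * C2 * (1 + 2 * Real.sqrt (2 * d * A)) * r ^ (d - 1) := by
    rw [hsq]
    calc d * (C2 * r ^ d) * (1 / L + 2 * (Real.sqrt (2 * d * A) / r))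
        ≤ d * (C2 * r ^ d) * (1 / r + 2 * (Real.sqrt (2 * d * A) / r)) := by
          apply mul_le_mul_of_nonneg_left _ (by positivity)
          linarith
      _ = d * C2 * (1 + 2 * Real.sqrt (2 * d * A)) * r ^ (d - 1) := by
          rw [hd1]; field_simp
  have hX : 0 ≤ u * r ^ (d + 2) := by positivity
  have hY : 0 ≤ r ^ (d - 1) := by positivity
  rw [e1]
  have p1 : 0 ≤ 2 * d * C2 / a := by positivity
  have p2 : 0 ≤ d * C2 * (1 + 2 * Real.sqrt (2 * d * A)) := by positivity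
  have p3 : (2 * d * C2 / a) * (u * r ^ (d + 2)) ≤ C * (u * r ^ (d + 2)) :=
    mul_le_mul_of_nonneg_right (by rw [hC]; linarith) hX
  have p4 : d * C2 * (1 + 2 * Real.sqrt (2 * d * A)) * r ^ (d - 1) ≤ C * r ^ (d - 1) :=
    mul_le_mul_of_nonneg_right (by rw [hC]; linarith) hY
  have : C * (u * r ^ (d + 2) + r ^ (d - 1)) = C * (u * r ^ (d + 2)) + C * r ^ (d - 1) := by ring
  rw [this]
  linarith

end

end Pool.Agent.LBL
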