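import Pool.Agent.LBL.Targets1

set_option autoImplicit false

/-! Job LBL-VLO: lower bound of the optimal volume. -/

open Finset
open scoped Classical

namespace Pool.Agent.LBL

namespace VLO_

lemma lam_empty {d : ℕ} {R : Type} [Ring R] : lam (∅ : Finset (Fin d → R)) = 0 := by
  unfold lam
  have h : {t : ℝ | ∃ f : (Fin d → R) → ℝ, Spp (∅ : Finset (Fin d → R)) f ∧
      ∑ x ∈ (∅ : Finset (Fin d → R)), f x ^ 2 = 1 ∧
      t = ∑ x ∈ (∅ : Finset (Fin d → R)), f x * P0 f x} = ∅ := by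
    ext t
    simp
  rw [h, Real.sSup_empty]

lemma pow_bound (c N y : ℝ) (d : ℕ) (hd : 2 ≤ d) (hc : 0 < c) (hN : 0 < N) (hy : 0 < y)
    (h : c * N ^ (-(2 : ℝ) / d) ≤ (y ^ 2)⁻¹) : c ^ ((d : ℝ) / 2) * y ^ d ≤ N := by
  have hd0 : (0 : ℝ) < d := by exact_mod_cast (by omega : 0 < d)
  have h1 : N ^ (-(2 : ℝ) / d) = (N ^ ((2 : ℝ) / d))⁻¹ := by
    rw [neg_div, Real.rpow_neg hN.le]
  rw [h1] at h
  have hNp : 0 < N ^ ((2 : ℝ) / d) := Real.rpow_pos_of_pos hN _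
  have hy2 : 0 < y ^ 2 := by positivity
  have h2 : c * y ^ 2 ≤ N ^ ((2 : ℝ) / d) := by
    have h3 := mul_le_mul_of_nonneg_right h (mul_pos hNp hy2).le
    have h4 : c * (N ^ ((2 : ℝ) / d))⁻¹ * (N ^ ((2 : ℝ) / d) * y ^ 2) = c * y ^ 2 := by
      field_simp
    have h5 : (y ^ 2)⁻¹ * (N ^ ((2 : ℝ) / d) * y ^ 2) = N ^ ((2 : ℝ) / d) := by
      field_simp
    rw [h4, h5] at h3
    exact h3
  have h6 : (c * y ^ 2) ^ ((d : ℝ) / 2) ≤ (N ^ ((2 : ℝ) / d)) ^ ((d : ℝ) / 2) :=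
    Real.rpow_le_rpow (by positivity) h2 (by positivity)
  have h7 : (N ^ ((2 : ℝ) / d)) ^ ((d : ℝ) / 2) = N := by
    rw [← Real.rpow_mul hN.le]
    have : (2 : ℝ) / d * ((d : ℝ) / 2) = 1 := by field_simp
    rw [this, Real.rpow_one]
  have h8 : (c * y ^ 2) ^ ((d : ℝ) / 2) = c ^ ((d : ℝ) / 2) * y ^ d := by
    rw [Real.mul_rpow hc.le hy2.le, ← Real.rpow_natCast y 2, ← Real.rpow_mul hy.le]
    have : ((2 : ℕ) : ℝ) * ((d : ℝ) / 2) = d := by push_cast; ring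
    rw [this, Real.rpow_natCast]
  rw [h7, h8] at h6
  exact h6

end VLO_

open VLO_ in
theorem p_VLO (h_FKT : T_FKT) : T_VLO := by
  intro d hd
  obtain ⟨c0, hc0, hF⟩ := h_FKT d (by omega)
  refine ⟨min (1 / 2) (c0 ^ ((d : ℝ) / 2)), lt_min (by norm_num) (Real.rpow_pos_of_pos hc0 _), ?_⟩
  intro A r x L _ hr hL hA hx hxA V hV
  have hA' : 0 < A ^ (-(1 : ℝ) / 2) := Real.rpow_pos_of_pos hA _
  have hr0 : 0 < r := by linarith
  set y := r * A ^ (-(1 : ℝ) / 2) with hy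
  have hy0 : 0 < y := mul_pos hr0 hA'
  have hyd : 0 ≤ y ^ d := by positivity
  by_cases h2 : 2 * V.card ≤ L ^ d
  · have hVn : V.Nonempty := by
      rw [Finset.nonempty_iff_ne_empty]
      rintro rfl
      rw [lam_empty] at hV
      linarith
    have h3 := (hF L V hVn h2).2
    have hN : (0 : ℝ) < V.card := by exact_mod_cast Finset.card_pos.mpr hVn
    have hy2 : (y ^ 2)⁻¹ = A / r ^ 2 := by
      rw [hy, mul_pow]
      have h4 : (A ^ (-(1 : ℝ) / 2)) ^ 2 = A⁻¹ := by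
        rw [← Real.rpow_natCast (A ^ (-(1 : ℝ) / 2)) 2, ← Real.rpow_mul hA.le]
        have : -(1 : ℝ) / 2 * ((2 : ℕ) : ℝ) = -1 := by push_cast; ring
        rw [this, Real.rpow_neg_one]
      rw [h4]
      field_simp
    have h5 : c0 * (V.card : ℝ) ^ (-(2 : ℝ) / d) ≤ (y ^ 2)⁻¹ := by
      rw [hy2, le_div_iff₀ (by positivity)]
      have h6 : c0 * (V.card : ℝ) ^ (-(2 : ℝ) / d) ≤ 1 - x := by linarith
      exact (mul_le_mul_of_nonneg_right h6 (by positivity)).trans hxA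
    have h7 := pow_bound c0 V.card y d hd hc0 hN hy0 h5
    exact (mul_le_mul_of_nonneg_right (min_le_right _ _) hyd).trans h7
  · have h3 : (L : ℝ) ^ d < 2 * V.card := by
      have h4 : L ^ d < 2 * V.card := by omega
      exact_mod_cast h4
    have h5 : y ^ d ≤ (L : ℝ) ^ d := pow_le_pow_left₀ hy0.le hL d
    have h6 : min (1 / 2) (c0 ^ ((d : ℝ) / 2)) * y ^ d ≤ 1 / 2 * y ^ d :=
      mul_le_mul_of_nonneg_right (min_le_left _ _) hyd
    linarith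

end Pool.Agent.LBL
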