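import Pool.Agent.LBL.Targets1

set_option autoImplicit false

/-!
# LBL-VUP: upper bound of the optimal volume by a cube and the product of sines (helper95)
-/

open Finset
open scoped Classical

namespace Pool.Agent.LBL

namespace VUP_

/-- the one dimensional function -/
noncomputable def g (L R : ℕ) (u : ZMod L) : ℝ :=
  if u.val ≤ R then Real.sin ((u.val : ℝ) * (Real.pi / (R + 1))) else 0

/-- the interval -/
def itv (L R : ℕ) [NeZero L] : Finset (ZMod L) :=
  Finset.univ.filter fun u : ZMod L => 1 ≤ u.val ∧ u.val ≤ R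

theorem itv_card (L R : ℕ) [NeZero L] : (itv L R).card ≤ R := by
  have h : (itv L R).card ≤ (Finset.Icc 1 R).card := by
    refine Finset.card_le_card_of_injOn (fun u : ZMod L => u.val) ?_ ?_
    · intro u hu
      have := (Finset.mem_filter.1 hu).2
      exact Finset.mem_coe.2 (Finset.mem_Icc.2 this)
    · intro u _ v _ h
      exact ZMod.val_injective L h
  simpa using h

theorem sin_top (R : ℕ) : Real.sin (((R : ℝ) + 1) * (Real.pi / (R + 1))) = 0 := by
  have hR : ((R : ℝ) + 1) ≠ 0 := by positivity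
  rw [mul_div_cancel₀ _ hR, Real.sin_pi]

theorem g_add (L R : ℕ) [NeZero L] (hL : R + 1 ≤ L) (u : ZMod L) (hu : u ∈ itv L R) :
    g L R (u + 1) = Real.sin (((u.val : ℝ) + 1) * (Real.pi / (R + 1))) := by
  obtain ⟨h1, h2⟩ := (Finset.mem_filter.1 hu).2
  haveI : Fact (1 < L) := ⟨by omega⟩
  have hone : (1 : ZMod L).val = 1 := ZMod.val_one L
  rcases Nat.lt_or_ge (u.val + 1) L with h | h
  · have hv : (u + 1).val = u.val + 1 := by
      rw [ZMod.val_add_of_lt (by rw [hone]; exact h), hone]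
    rcases Nat.lt_or_ge R (u.val + 1) with h3 | h3
    · have hR : u.val = R := by omega
      rw [g, if_neg (by rw [hv]; omega), hR, sin_top]
    · rw [g, if_pos (by rw [hv]; exact h3), hv]
      push_cast
      ring_nf
  · have hR : u.val = R := by omega
    have hLR : L = R + 1 := by omega
    have h0 : u + 1 = 0 := by
      have : ((u.val + 1 : ℕ) : ZMod L) = 0 := by
        rw [hR, ← hLR]
        exact ZMod.natCast_self L
      rw [Nat.cast_add, ZMod.natCast_zmod_val, Nat.cast_one] at this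
      exact this
    rw [h0, hR, sin_top, g]
    simp

theorem g_sub (L R : ℕ) [NeZero L] (hL : R + 1 ≤ L) (u : ZMod L) (hu : u ∈ itv L R) :
    g L R (u - 1) = Real.sin (((u.val : ℝ) - 1) * (Real.pi / (R + 1))) := by
  obtain ⟨h1, h2⟩ := (Finset.mem_filter.1 hu).2
  haveI : Fact (1 < L) := ⟨by omega⟩
  have hone : (1 : ZMod L).val = 1 := ZMod.val_one L
  have hv : (u - 1).val = u.val - 1 := by
    rw [ZMod.val_sub (by rw [hone]; exact h1), hone]
  rw [g, if_pos (by rw [hv]; omega), hv, Nat.cast_sub h1]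
  push_cast
  rfl

theorem g_eq (L R : ℕ) [NeZero L] (hL : R + 1 ≤ L) (u : ZMod L) (hu : u ∈ itv L R) :
    g L R (u + 1) + g L R (u - 1) = 2 * Real.cos (Real.pi / (R + 1)) * g L R u := by
  obtain ⟨h1, h2⟩ := (Finset.mem_filter.1 hu).2
  rw [g_add L R hL u hu, g_sub L R hL u hu, g, if_pos h2, add_mul, sub_mul, one_mul,
    Real.sin_add, Real.sin_sub]
  ring

/-- the product function -/
noncomputable def F (d L R : ℕ) (x : Tor d L) : ℝ := ∏ i, g L R (x i)

/-- the cube -/
noncomputable def Q (d L R : ℕ) [NeZero L] : Finset (Tor d L) := Fintype.piFinset fun _ => itv L R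

theorem F_step (d L R : ℕ) (x : Tor d L) (i : Fin d) (e : ZMod L) (y : Tor d L)
    (hy : y i = e) (hy' : ∀ j, j ≠ i → y j = x j) :
    F d L R y = g L R e * ∏ j ∈ Finset.univ.erase i, g L R (x j) := by
  rw [F, ← Finset.mul_prod_erase _ _ (Finset.mem_univ i), hy]
  congr 1
  refine Finset.prod_congr rfl fun j hj => ?_
  rw [hy' j (Finset.ne_of_mem_erase hj)]

theorem F_pair (d L R : ℕ) [NeZero L] (hL : R + 1 ≤ L) (x : Tor d L) (hx : x ∈ Q d L R)
    (i : Fin d) :
    F d L R (x + ev i) + F d L R (x - ev i) = 2 * Real.cos (Real.pi / (R + 1)) * F d L R x := by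
  have hu : x i ∈ itv L R := Fintype.mem_piFinset.1 hx i
  rw [F_step d L R x i (x i + 1) (x + ev i) (by simp [ev])
      (fun j hj => by simp [ev, Pi.single_eq_of_ne hj]),
    F_step d L R x i (x i - 1) (x - ev i) (by simp [ev])
      (fun j hj => by simp [ev, Pi.single_eq_of_ne hj]),
    F_step d L R x i (x i) x rfl (fun j _ => rfl), ← add_mul, g_eq L R hL _ hu]
  ring

theorem F_P0 (d L R : ℕ) [NeZero L] (hd : 1 ≤ d) (hL : R + 1 ≤ L) (x : Tor d L)
    (hx : x ∈ Q d L R) : P0 (F d L R) x = Real.cos (Real.pi / (R + 1)) * F d L R x := by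
  have hd' : (d : ℝ) ≠ 0 := by
    have : (1 : ℝ) ≤ d := by exact_mod_cast hd
    positivity
  rw [P0, Finset.sum_congr rfl fun i _ => F_pair d L R hL x hx i, Finset.sum_const,
    Finset.card_univ, Fintype.card_fin, nsmul_eq_mul]
  field_simp

theorem F_supp (d L R : ℕ) [NeZero L] : Spp (Q d L R) (F d L R) := by
  intro x hx
  rw [Q, Fintype.mem_piFinset, not_forall] at hx
  obtain ⟨i, hi⟩ := hx
  refine Finset.prod_eq_zero (Finset.mem_univ i) ?_
  rw [itv, Finset.mem_filter, not_and_or, not_and_or] at hi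
  rcases hi with h | h | h
  · exact absurd (Finset.mem_univ _) h
  · have h0 : (x i).val = 0 := by omega
    rw [g, h0]
    simp
  · rw [g, if_neg h]

theorem F_pos (d L R : ℕ) [NeZero L] (hR : 1 ≤ R) (hL : R + 1 ≤ L) :
    0 < ∑ x ∈ Q d L R, F d L R x ^ 2 := by
  haveI : Fact (1 < L) := ⟨by omega⟩
  have hone : (1 : ZMod L).val = 1 := ZMod.val_one L
  refine Finset.sum_pos' (fun x _ => sq_nonneg _) ⟨fun _ => 1, ?_, ?_⟩
  · rw [Q, Fintype.mem_piFinset]
    intro i
    rw [itv, Finset.mem_filter]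
    exact ⟨Finset.mem_univ _, by rw [hone], by rw [hone]; exact hR⟩
  · refine pow_pos (Finset.prod_pos fun i _ => ?_) 2
    rw [g, if_pos (by rw [hone]; exact hR), hone, Nat.cast_one, one_mul]
    have hR' : (1 : ℝ) ≤ R := by exact_mod_cast hR
    apply Real.sin_pos_of_pos_of_lt_pi
    · have := Real.pi_pos
      positivity
    · rw [div_lt_iff₀ (by positivity)]
      nlinarith [Real.pi_pos]

theorem lam_cube (h_VAR : T_VAR) (d L R : ℕ) [NeZero L] (hd : 1 ≤ d) (hR : 1 ≤ R)
    (hL : R + 1 ≤ L) : Real.cos (Real.pi / (R + 1)) ≤ lam (Q d L R) := by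
  have h := (h_VAR d (ZMod L) hd (Q d L R)).1 (F d L R) (F_supp d L R)
  have h2 : ∑ x ∈ Q d L R, F d L R x * P0 (F d L R) x =
      Real.cos (Real.pi / (R + 1)) * ∑ x ∈ Q d L R, F d L R x ^ 2 := by
    rw [Finset.mul_sum]
    refine Finset.sum_congr rfl fun x hx => ?_
    rw [F_P0 d L R hd hL x hx]
    ring
  rw [h2] at h
  exact le_of_mul_le_mul_right h (F_pos d L R hR hL)

theorem Q_card (d L R : ℕ) [NeZero L] : (Q d L R).card ≤ R ^ d := by
  rw [Q, Fintype.card_piFinset]
  calc ∏ _i : Fin d, (itv L R).card ≤ ∏ _i : Fin d, R :=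
        Finset.prod_le_prod' fun i _ => itv_card L R
    _ = R ^ d := by simp

end VUP_

theorem p_VUP (h_VAR : T_VAR) : T_VUP := by
  intro d hd
  refine ⟨3 ^ d, by positivity, ?_⟩
  intro a r x L _ ha hx hr hL
  set s : ℝ := r * a ^ (-(1 : ℝ) / 2) with hs
  have hs0 : 0 < s := mul_pos (by linarith) (Real.rpow_pos_of_pos ha _)
  have hs2 : s ^ 2 = r ^ 2 / a := by
    rw [hs, mul_pow, ← Real.rpow_natCast (a ^ (-(1 : ℝ) / 2)) 2, ← Real.rpow_mul ha.le]
    norm_num
    rw [Real.rpow_neg_one]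
    rfl
  have h3 : (3 : ℝ) ≤ 3 ^ d := by
    calc (3 : ℝ) = 3 ^ 1 := by norm_num
      _ ≤ 3 ^ d := pow_le_pow_right₀ (by norm_num) (by omega)
  set R : ℕ := ⌈3 * s⌉₊ with hRdef
  have hR1 : 3 * s ≤ R := Nat.le_ceil _
  have hR2 : (R : ℝ) < 3 * s + 1 := Nat.ceil_lt_add_one (by positivity)
  have hR : 1 ≤ R := Nat.one_le_iff_ne_zero.2 (by
    intro h
    rw [h] at hR1
    simp at hR1
    linarith)
  have hRL : R + 1 ≤ L := by
    have : ((R + 1 : ℕ) : ℝ) < (L : ℝ) + 1 := by
      push_cast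
      nlinarith
    have h4 : R + 1 < L + 1 := by exact_mod_cast this
    omega
  refine ⟨VUP_.Q d L R, ?_, ?_⟩
  · refine le_trans ?_ (VUP_.lam_cube h_VAR d L R (by omega) hR hRL)
    have hr0 : 0 < r ^ 2 := by positivity
    have hx' : x ≤ 1 - a / r ^ 2 := by
      have : a / r ^ 2 ≤ 1 - x := by rwa [div_le_iff₀ hr0]
      linarith
    have hs3 : a / r ^ 2 = 1 / s ^ 2 := by
      rw [hs2]
      field_simp
    refine hx'.trans (le_trans ?_ (Real.one_sub_sq_div_two_le_cos))
    have key : (Real.pi / (R + 1)) ^ 2 / 2 ≤ a / r ^ 2 := by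
      rw [hs3, div_pow, div_div, div_le_div_iff₀ (by positivity) (by positivity)]
      have hpi : Real.pi ^ 2 ≤ 16 := by
        have := Real.pi_le_four
        nlinarith [Real.pi_pos]
      have h5 : 9 * s ^ 2 ≤ ((R : ℝ) + 1) ^ 2 := by nlinarith
      nlinarith [sq_nonneg s]
    linarith
  · calc ((VUP_.Q d L R).card : ℝ) ≤ ((R ^ d : ℕ) : ℝ) := by exact_mod_cast VUP_.Q_card d L R
      _ = (R : ℝ) ^ d := by push_cast; rfl
      _ ≤ (3 * (s + 1)) ^ d := by
        apply pow_le_pow_left₀ (by positivity)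
        linarith
      _ = 3 ^ d * (s + 1) ^ d := by rw [mul_pow]

end Pool.Agent.LBL
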