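import Pool.Agent.LBL.Targets2

set_option autoImplicit false

/-! Job LBL-WLB: lower bound of the weight. -/

open Finset
open scoped Classical

namespace Pool.Agent.LBL

namespace WLB_

lemma lam_empty {d : ℕ} {R : Type} [Ring R] : lam (∅ : Finset (Fin d → R)) = 0 := by
  unfold lam
  have h : {t : ℝ | ∃ f : (Fin d → R) → ℝ, Spp (∅ : Finset (Fin d → R)) f ∧
      ∑ x ∈ (∅ : Finset (Fin d → R)), f x ^ 2 = 1 ∧
      t = ∑ x ∈ (∅ : Finset (Fin d → R)), f x * P0 f x} = ∅ := by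
    ext t
    simp
  rw [h, Real.sSup_empty]

lemma sq_le (d : ℕ) (r : ℝ) (hd : 2 ≤ d) (hr : 1 ≤ r) : sq d r ≤ (r ^ 2)⁻¹ := by
  have hd2 : (2 : ℝ) ≤ d := by exact_mod_cast hd
  have hr0 : 0 < r := by linarith
  have h1 : sq d r ≤ r ^ (-2 : ℝ) := by
    unfold sq
    exact Real.rpow_le_rpow_of_exponent_le hr (by linarith)
  have h2 : r ^ (-2 : ℝ) = (r ^ 2)⁻¹ := by
    rw [Real.rpow_neg hr0.le]
    congr 1
    exact_mod_cast Real.rpow_natCast r 2
  rw [h2] at h1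
  exact h1

lemma kap_pos (d : ℕ) (D : ℝ) (hD : 0 ≤ D) : 0 < kap d D := by
  unfold kap
  split_ifs
  · have := Real.log_nonneg (by linarith : (1 : ℝ) ≤ 1 + D)
    linarith
  · exact one_pos

lemma ratio_step {B C s l y : ℝ} (hB : 0 < B) (hC : 0 < C) (hs : 0 < s)
    (hly : 1 / (2 * B) ≤ (l - y) * s) (h1l : (1 - l) * s ≤ C + 1 / (2 * B)) :
    1 - l ≤ (2 * B * C + 1) * (l - y) := by
  have h1 : (1 - l) * s ≤ ((2 * B * C + 1) * (l - y)) * s := by
    have h2 : 2 * B * C * (1 / (2 * B)) = C := by field_simp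
    have h3 : 2 * B * C * (1 / (2 * B)) ≤ 2 * B * C * ((l - y) * s) :=
      mul_le_mul_of_nonneg_left hly (by positivity)
    have h4 : ((2 * B * C + 1) * (l - y)) * s = 2 * B * C * ((l - y) * s) + (l - y) * s := by
      ring
    rw [h4]
    linarith
  exact le_of_mul_le_mul_right h1 hs

end WLB_

open WLB_ in
theorem p_WLB (h_TOP : T_TOP) (h_ONE : T_ONE) (h_CLO : T_CLO) (h_RVE : T_RVE) (h_RVB : T_RVB)
    (h_RVO : T_RVO) (h_GKB : T_GKB) : T_WLB := by
  intro d C B hd hC hB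
  obtain ⟨Cg, hCg, hG⟩ := h_GKB d hd
  have hC0 : 0 < C := by linarith
  refine ⟨1 / (Cg * (1 + (2 * B * C + 1))), by positivity, ?_⟩
  intro j hj
  have hK1 : 0 < 1 / B := by positivity
  have hK2 : 0 < B * ((d : ℝ) * j) ^ 2 := by
    have : (0 : ℝ) < d := by exact_mod_cast (by omega : 0 < d)
    positivity
  have hK3 : 0 < ((d : ℝ) * j) ^ 2 := by
    have : (0 : ℝ) < d := by exact_mod_cast (by omega : 0 < d)
    positivity
  refine ⟨C + 1 / B + 64 * (B * ((d : ℝ) * j) ^ 2) + 32 * ((d : ℝ) * j) ^ 2 + 3,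
    by linarith, ?_⟩
  intro r L _ hr hrL O φ y z y0 hE hSec hgap hz hφ0 hφ hy0
  have hr3 : 3 ≤ r := by linarith
  have hr0 : 0 < r := by linarith
  have hr1 : 1 ≤ r := by linarith
  have hL3 : 3 ≤ L := by
    have : (3 : ℝ) ≤ L := hr3.trans hrL
    exact_mod_cast this
  have hrsq : r ≤ r ^ 2 := le_self_pow₀ hr1 (by norm_num)
  have hr2p : 0 < r ^ 2 := by positivity
  have ha : 64 * (B * ((d : ℝ) * j) ^ 2) ≤ r ^ 2 := by linarith
  have hb : 32 * ((d : ℝ) * j) ^ 2 ≤ r ^ 2 := by linarith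
  have hc : C + 1 / B + 3 ≤ r ^ 2 := by linarith
  -- size of `φ z`
  have hφ2 : φ z ≤ 4 * (d * j) / r ^ 2 := by
    have h1 := sq_le d r hd hr1
    have hd0 : (0 : ℝ) < d := by exact_mod_cast (by omega : 0 < d)
    calc φ z ≤ 4 * d * j * sq d r := hφ
      _ ≤ 4 * d * j * (r ^ 2)⁻¹ := mul_le_mul_of_nonneg_left h1 (by positivity)
      _ = _ := by rw [div_eq_mul_inv]; ring
  have hφsq : φ z ^ 2 * r ^ 2 ≤ 16 * ((d : ℝ) * j) ^ 2 / r ^ 2 := by
    have h1 : φ z ^ 2 ≤ (4 * (d * j) / r ^ 2) ^ 2 := pow_le_pow_left₀ hφ0.le hφ2 2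
    have h2 : (4 * ((d : ℝ) * j) / r ^ 2) ^ 2 * r ^ 2 = 16 * ((d : ℝ) * j) ^ 2 / r ^ 2 := by
      field_simp
      ring
    rw [← h2]
    exact mul_le_mul_of_nonneg_right h1 hr2p.le
  have hq1 : 16 * ((d : ℝ) * j) ^ 2 / r ^ 2 ≤ 1 / 2 := by
    rw [div_le_iff₀ hr2p]
    linarith
  have hφhalf : φ z ^ 2 ≤ 1 / 2 := by
    have h1 : (1 : ℝ) ≤ r ^ 2 := by linarith
    nlinarith [sq_nonneg (φ z)]
  have hq2 : 2 * φ z ^ 2 * r ^ 2 ≤ 1 / (2 * B) := by
    have h1 : 16 * ((d : ℝ) * j) ^ 2 / r ^ 2 ≤ 1 / (4 * B) := by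
      rw [div_le_div_iff₀ hr2p (by positivity)]
      linarith
    have h2 : 1 / (2 * B) = 2 * (1 / (4 * B)) := by field_simp; norm_num
    rw [h2]
    linarith
  have hclo := h_CLO d L (by omega) hL3 O z φ hE.top hφhalf
  set l := lam (O.erase z) with hl
  have hbb : 1 / B = 2 * (1 / (2 * B)) := by field_simp
  have hb0 : 0 < 1 / (2 * B) := by positivity
  -- `(l - y) r^2 >= 1/(2B)`
  have hly : 1 / (2 * B) ≤ (l - y) * r ^ 2 := by
    have h1 : (lam O - 2 * φ z ^ 2 - y) * r ^ 2 ≤ (l - y) * r ^ 2 :=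
      mul_le_mul_of_nonneg_right (by linarith) hr2p.le
    nlinarith
  have hyl : y < l := by
    by_contra hcon
    push Not at hcon
    have : (l - y) * r ^ 2 ≤ 0 := mul_nonpos_of_nonpos_of_nonneg (by linarith) hr2p.le
    linarith
  -- `(1 - l) r^2 <= C + 1/(2B)`
  have h1l : (1 - l) * r ^ 2 ≤ C + 1 / (2 * B) := by
    have h1 : (1 - l) * r ^ 2 ≤ (1 - (lam O - 2 * φ z ^ 2)) * r ^ 2 :=
      mul_le_mul_of_nonneg_right (by linarith) hr2p.le
    have h2 := hE.mu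
    nlinarith
  have hl0 : 0 < l := by
    by_contra hcon
    push Not at hcon
    have h1 : r ^ 2 ≤ (1 - l) * r ^ 2 := by nlinarith
    linarith
  have hne : (O.erase z).Nonempty := by
    rw [Finset.nonempty_iff_ne_empty]
    intro h0
    have h1 : l = 0 := by rw [hl, h0]; exact lam_empty
    linarith
  obtain ⟨φ', hφ'⟩ := h_TOP d (ZMod L) (O.erase z) (by omega) hne
  obtain ⟨hα0, hα1, hll, -, -, hα⟩ := h_ONE d L (by omega) hL3 O z φ φ' hz hE.top hφ'
  have hα2 := hα y hSec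
  have hαpos : 0 < ip φ' φ := by
    rcases lt_or_eq_of_le hα0 with h | h
    · exact h
    · exfalso
      rw [← h] at hα2
      have h1 : (lam O - y) * r ^ 2 ≤ (lam O - l) * r ^ 2 :=
        mul_le_mul_of_nonneg_right (by linarith) hr2p.le
      have h2 : (lam O - l) * r ^ 2 ≤ 2 * φ z ^ 2 * r ^ 2 :=
        mul_le_mul_of_nonneg_right (by linarith) hr2p.le
      linarith
  obtain ⟨v, hv⟩ := h_RVE d L (by omega) O φ y l hE.top hSec hyl
  have hrvo := (h_RVO d L (by omega) hL3 O z φ φ' y v hz hE.top hSec hφ' hyl hv).2.2 hαpos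
  have hv0 : 0 ≤ v z z := (h_RVB d L (by omega) O φ y l v hE.top hSec hyl hv).1 z
  have hD := ratio_step hB hC0 hr2p hly h1l
  have hgkb := hG L O φ y l (2 * B * C + 1) v z y0 hE.top hSec hyl (by positivity) hD hv hy0
  have hkap : 0 < kap d (td z y0) := kap_pos d _ (Nat.cast_nonneg _)
  have hφz2 : 0 < φ z ^ 2 := by positivity
  have hvpos : 0 < v z z := by
    rcases lt_or_eq_of_le hv0 with h | h
    · exact h
    · exfalso
      rw [← h, mul_zero] at hrvo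
      linarith
  have hfin : (lam O - lam (O.erase z)) / φ z ^ 2 = 1 / v z z := by
    rw [div_eq_div_iff hφz2.ne' hvpos.ne', one_mul]
    exact hrvo
  rw [hfin, div_div]
  exact one_div_le_one_div_of_le hvpos hgkb

end Pool.Agent.LBL
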