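import Pool.Agent.LBL.Wlk2

/-!
# LBL: target YAC (an island is accessible)
-/

set_option autoImplicit false

open Finset MeasureTheory Filter Topology
open scoped Classical

namespace Pool.Agent.LBL

noncomputable section

namespace YAC_

variable {d : ℕ}

theorem nrm_le {x : Fin d → ℤ} {N : ℕ} : nrm x ≤ N ↔ ∀ i, (x i).natAbs ≤ N := by
  unfold nrm
  simp [Finset.sup_le_iff]

theorem mem_cub {x : Fin d → ℤ} {N : ℕ} : x ∈ cub d N ↔ nrm x ≤ N := by
  rw [nrm_le]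
  unfold cub
  rw [Fintype.mem_piFinset]
  refine forall_congr' fun i => ?_
  rw [Finset.mem_Icc]
  omega

theorem card_cub (N : ℕ) : (cub d N).card = (2 * N + 1) ^ d := by
  unfold cub
  rw [Fintype.card_piFinset]
  simp only [Int.card_Icc, Finset.prod_const, Finset.card_univ, Fintype.card_fin]
  congr 1
  omega

theorem card_boxF (a : Fin d → ℤ) (k : ℕ) : (boxF a k).card = k ^ d := by
  unfold boxF
  rw [Fintype.card_piFinset]
  simp

theorem mem_boxF {a x : Fin d → ℤ} {k : ℕ} : x ∈ boxF a k ↔ ∀ i, a i ≤ x i ∧ x i < a i + k := by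
  unfold boxF
  rw [Fintype.mem_piFinset]
  simp only [Finset.mem_Ico]

theorem nb_coord {x y : Fin d → ℤ} (h : Nb x y) (i : Fin d) : |x i - y i| ≤ 1 := by
  unfold Nb at h
  rw [← h]
  exact Finset.single_le_sum (f := fun i => |x i - y i|) (fun j _ => abs_nonneg _)
    (Finset.mem_univ i)

theorem nb_nrm {x y : Fin d → ℤ} (h : Nb x y) : nrm y ≤ nrm x + 1 := by
  rw [nrm_le]
  intro i
  have h1 := nb_coord h i
  have h2 : (x i).natAbs ≤ nrm x := nrm_le.1 le_rfl i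
  rw [abs_le] at h1
  omega

theorem path_nrm {u : ℕ → Fin d → ℤ} {k : ℕ} (h0 : u 0 = 0)
    (hN : ∀ j < k, Nb (u j) (u (j + 1))) : ∀ j ≤ k, nrm (u j) ≤ j := by
  intro j
  induction j with
  | zero =>
    intro _
    rw [h0, nrm_le]
    intro i
    simp
  | succ j ih =>
    intro hj
    exact (nb_nrm (hN j (by omega))).trans (by have := ih (by omega); omega)

theorem pth_congr {ω ω' : Env d} {k N : ℕ} (hk : k ≤ N) {y : Fin d → ℤ}
    (h : ∀ x ∈ cub d N, ω x = true → ω' x = true) (hp : Pth ω k 0 y) : Pth ω' k 0 y := by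
  obtain ⟨u, h0, hu, ho, hN⟩ := hp
  refine ⟨u, h0, hu, fun j hj => h _ ?_ (ho j hj), hN⟩
  rw [mem_cub]
  exact (path_nrm h0 hN j hj).trans (hj.trans hk)

theorem pth_trans {ω : Env d} {k j : ℕ} {x y z : Fin d → ℤ} (h1 : Pth ω k x y)
    (h2 : Pth ω j y z) : Pth ω (k + j) x z := by
  obtain ⟨u, hu0, huk, huo, huN⟩ := h1
  obtain ⟨v, hv0, hvj, hvo, hvN⟩ := h2
  refine ⟨fun m => if m ≤ k then u m else v (m - k), ?_, ?_, ?_, ?_⟩
  · simp [hu0]
  · by_cases hj : j = 0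
    · subst hj
      simp only [add_zero, le_refl, if_true]
      rw [huk, ← hv0, hvj]
    · have h3 : ¬ k + j ≤ k := by omega
      simp only [if_neg h3, Nat.add_sub_cancel_left]
      exact hvj
  · intro m hm
    by_cases hk : m ≤ k
    · simp only [if_pos hk]
      exact huo m hk
    · simp only [if_neg hk]
      exact hvo _ (by omega)
  · intro m hm
    by_cases hk : m + 1 ≤ k
    · simp only [if_pos hk, if_pos (show m ≤ k by omega)]
      exact huN m (by omega)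
    · by_cases hk' : m ≤ k
      · obtain rfl : m = k := by omega
        simp only [le_refl, if_true, if_neg hk]
        rw [huk, ← hv0, Nat.add_sub_cancel_left]
        exact hvN 0 (by omega)
      · simp only [if_neg hk, if_neg hk']
        have h3 : m + 1 - k = (m - k) + 1 := by omega
        rw [h3]
        exact hvN _ (by omega)

theorem pth_cons {ω : Env d} {k : ℕ} {y y' z : Fin d → ℤ} (hy : ω y = true) (hn : Nb y y')
    (h : Pth ω k y' z) : Pth ω (k + 1) y z := by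
  rw [add_comm]
  refine pth_trans ⟨fun m => if m = 0 then y else y', by simp, by simp, ?_, ?_⟩ h
  · intro j hj
    by_cases h0 : j = 0
    · simp only [if_pos h0]
      exact hy
    · simp only [if_neg h0]
      obtain ⟨u, hu0, -, huo, -⟩ := h
      rw [← hu0]
      exact huo 0 (Nat.zero_le _)
  · intro j hj
    obtain rfl : j = 0 := by omega
    simpa using hn

/-- paths inside an open cube -/
theorem join {ω : Env d} (x : Fin d → ℤ) (ρ : ℕ) (hω : ∀ z, nrm (z - x) ≤ ρ → ω z = true) :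
    ∀ (N : ℕ) (y : Fin d → ℤ), nrm (y - x) ≤ ρ → ∑ i, (y i - x i).natAbs = N → Pth ω N y x := by
  intro N
  induction N with
  | zero =>
    intro y hy hs
    have h1 : y = x := by
      funext i
      have h2 := (Finset.sum_eq_zero_iff.1 hs) i (Finset.mem_univ i)
      omega
    subst h1
    exact ⟨fun _ => y, rfl, rfl, fun j _ => hω y hy, fun j hj => absurd hj (by omega)⟩
  | succ N ih =>
    intro y hy hs
    obtain ⟨i, hi⟩ : ∃ i, y i ≠ x i := by
      by_contra hcon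
      push Not at hcon
      have h2 : ∑ i, (y i - x i).natAbs = 0 := Finset.sum_eq_zero fun i _ => by
        rw [hcon i]
        simp
      omega
    set s : ℤ := if y i < x i then 1 else -1 with hsd
    set y' : Fin d → ℤ := Function.update y i (y i + s) with hy'
    have hyi : y' i = y i + s := by
      rw [hy', Function.update_self]
    have hyj : ∀ j, j ≠ i → y' j = y j := fun j hj => by
      rw [hy', Function.update_of_ne hj]
    have hdec : (y' i - x i).natAbs + 1 = (y i - x i).natAbs := by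
      rw [hyi, hsd]
      split_ifs <;> omega
    have hrest : ∑ j ∈ Finset.univ.erase i, (y' j - x j).natAbs =
        ∑ j ∈ Finset.univ.erase i, (y j - x j).natAbs :=
      Finset.sum_congr rfl fun j hj => by rw [hyj j (Finset.ne_of_mem_erase hj)]
    have hsum : ∑ j, (y' j - x j).natAbs = N := by
      rw [← Finset.add_sum_erase _ _ (Finset.mem_univ i), hrest]
      rw [← Finset.add_sum_erase _ _ (Finset.mem_univ i)] at hs
      omega
    have hnrm : nrm (y' - x) ≤ ρ := by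
      rw [nrm_le] at hy ⊢
      intro j
      have h3 := hy j
      rw [Pi.sub_apply] at h3 ⊢
      by_cases hj : j = i
      · subst hj
        omega
      · rw [hyj j hj]
        exact h3
    have hNb : Nb y y' := by
      unfold Nb
      rw [← Finset.add_sum_erase _ _ (Finset.mem_univ i)]
      have h4 : ∑ j ∈ Finset.univ.erase i, |y j - y' j| = 0 := Finset.sum_eq_zero fun j hj => by
        rw [hyj j (Finset.ne_of_mem_erase hj), sub_self, abs_zero]
      rw [h4, hyi, hsd]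
      split_ifs <;> simp
    exact pth_cons (hω y hy) hNb (ih y' hnrm hsum)

theorem join' {ω : Env d} (x y : Fin d → ℤ) (ρ : ℕ) (hω : ∀ z, nrm (z - x) ≤ ρ → ω z = true)
    (hy : nrm (y - x) ≤ ρ) : ∃ j ≤ d * ρ, Pth ω j y x := by
  refine ⟨_, ?_, join x ρ hω _ y hy rfl⟩
  calc ∑ i, (y i - x i).natAbs ≤ ∑ _i : Fin d, ρ := Finset.sum_le_sum fun i _ => nrm_le.1 hy i
    _ = d * ρ := by simp

/-- Markov inequality for the number of events -/
theorem markov {Ω X : Type} [MeasurableSpace Ω] (μ : Measure Ω) [IsProbabilityMeasure μ]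
    (F : Finset X) (A : X → Set Ω) (hA : ∀ x ∈ F, MeasurableSet (A x)) (t : ℝ) :
    t * μ.real {ω | t ≤ ((F.filter fun x => ω ∈ A x).card : ℝ)} ≤ ∑ x ∈ F, μ.real (A x) := by
  have h1 : ∀ ω, ((F.filter fun x => ω ∈ A x).card : ℝ) =
      ∑ x ∈ F, (A x).indicator (1 : Ω → ℝ) ω := by
    intro ω
    rw [Finset.card_filter]
    push_cast
    refine Finset.sum_congr rfl fun x _ => ?_
    rw [Set.indicator_apply]
    rfl
  have hint : ∀ x ∈ F, Integrable ((A x).indicator (1 : Ω → ℝ)) μ := fun x hx =>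
    (integrable_const (1 : ℝ)).indicator (hA x hx)
  have h2 := mul_meas_ge_le_integral_of_nonneg (μ := μ)
    (f := fun ω => ∑ x ∈ F, (A x).indicator (1 : Ω → ℝ) ω)
    (ae_of_all _ fun ω => Finset.sum_nonneg fun x _ => Set.indicator_nonneg (fun _ _ => zero_le_one) _)
    (integrable_finsetSum _ hint) t
  rw [integral_finsetSum _ hint] at h2
  have h3 : ∑ x ∈ F, ∫ ω, (A x).indicator (1 : Ω → ℝ) ω ∂μ = ∑ x ∈ F, μ.real (A x) :=
    Finset.sum_congr rfl fun x hx => integral_indicator_one (hA x hx)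
  rw [h3] at h2
  simp only [h1]
  exact h2

/-- covering of a cube by boxes -/
theorem cover_sum (ℓ R : ℕ) (hℓ : 0 < ℓ) (g : (Fin d → ℤ) → ℝ) (hg : ∀ x, 0 ≤ g x) (B : ℝ)
    (hB : ∀ a, ∑ x ∈ boxF a (2 * ℓ), g x ≤ B) :
    ∑ x ∈ cub d R, g x ≤ ((2 * (R / (2 * ℓ) + 1) + 1 : ℕ) : ℝ) ^ d * B := by
  set κ : (Fin d → ℤ) → (Fin d → ℤ) := fun x i => x i / (2 * ℓ : ℤ) with hκ
  have hmaps : ∀ x ∈ cub d R, κ x ∈ cub d (R / (2 * ℓ) + 1) := by
    intro x hx
    rw [mem_cub, nrm_le] at hx ⊢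
    intro i
    have h1 := hx i
    rw [hκ]
    simp only
    have h2 : (0 : ℤ) < 2 * ℓ := by omega
    have h3 : x i / (2 * ℓ : ℤ) ≤ (R / (2 * ℓ) : ℕ) := by
      have : x i / (2 * ℓ : ℤ) ≤ (R : ℤ) / (2 * ℓ : ℤ) := Int.ediv_le_ediv h2 (by omega)
      push_cast
      exact this
    have h4 : -((R / (2 * ℓ) : ℕ) : ℤ) - 1 ≤ x i / (2 * ℓ : ℤ) := by
      rw [Int.le_ediv_iff_mul_le h2]
      have h5 : (R : ℤ) < (2 * ℓ : ℤ) * ((R : ℤ) / (2 * ℓ : ℤ) + 1) := by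
        have := Int.lt_mul_ediv_self_add (x := (R : ℤ)) h2
        linarith
      push_cast
      nlinarith [h1, h5, (by omega : -(R : ℤ) ≤ x i)]
    omega
  rw [← Finset.sum_fiberwise_of_maps_to hmaps]
  have h6 : ∀ k ∈ cub d (R / (2 * ℓ) + 1), ∑ x ∈ cub d R with κ x = k, g x ≤ B := by
    intro k _
    refine le_trans (Finset.sum_le_sum_of_subset_of_nonneg ?_ fun x _ _ => hg x)
      (hB fun i => (2 * ℓ : ℤ) * k i)
    intro x hx
    rw [Finset.mem_filter] at hx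
    rw [mem_boxF]
    intro i
    have h7 : k i = x i / (2 * ℓ : ℤ) := by rw [← hx.2]
    rw [h7]
    have h2 : (0 : ℤ) < 2 * ℓ := by omega
    constructor
    · exact Int.mul_ediv_self_le (by omega)
    · have := Int.lt_mul_ediv_self_add (x := x i) h2
      push_cast
      exact this
  calc ∑ k ∈ cub d (R / (2 * ℓ) + 1), ∑ x ∈ cub d R with κ x = k, g x
      ≤ ∑ _k ∈ cub d (R / (2 * ℓ) + 1), B := Finset.sum_le_sum h6
    _ = _ := by
      rw [Finset.sum_const, card_cub, nsmul_eq_mul]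
      push_cast
      ring

/-- no short open path to the neighbourhood of `x` -/
def DD (d : ℕ) (ρ CL : ℕ) (x : Fin d → ℤ) : Set (Env d) :=
  {ω | ¬ ∃ (y : Fin d → ℤ) (k : ℕ), nrm (y - x) ≤ ρ ∧ k ≤ CL * (nrm x + 1) ∧ Pth ω k 0 y}

theorem DD_dep (ρ CL : ℕ) (x : Fin d → ℤ) : DepOn (cub d (CL * (nrm x + 1))) (DD d ρ CL x) := by
  intro ω ω' h hω hcon
  obtain ⟨y, k, h1, h2, h3⟩ := hcon
  exact hω ⟨y, k, h1, h2, pth_congr h2 (fun z hz hz' => by rw [h z hz]; exact hz') h3⟩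

theorem DD_dec (ρ CL : ℕ) (x : Fin d → ℤ) (ω ω' : Env d)
    (h : ∀ z, ω z = true → ω' z = true) (hω : ω' ∈ DD d ρ CL x) : ω ∈ DD d ρ CL x := by
  intro hcon
  obtain ⟨y, k, h1, h2, h3⟩ := hcon
  exact hω ⟨y, k, h1, h2, pth_congr h2 (fun z _ => h z) h3⟩

theorem disj (M ℓ : ℕ) (x : Fin d → ℤ) (h : M + 2 * ℓ < nrm x) :
    Disjoint (cub d M) (QQ ℓ x) := by
  rw [Finset.disjoint_left]
  intro z hz hz'
  have h1 : nrm x ≤ M + 2 * ℓ := by
    rw [nrm_le]
    intro i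
    have h2 := nrm_le.1 (mem_cub.1 hz) i
    unfold QQ at hz'
    have h3 := mem_boxF.1 hz' i
    push_cast at h3
    omega
  omega

/-- the number of boxes -/
theorem count {K1 f : ℝ} {ℓ : ℕ} (hK1 : 1 ≤ K1) (hℓ : 0 < ℓ) (hf : (ℓ : ℝ) ≤ f) :
    ((2 * (⌊K1 * f⌋₊ / (2 * ℓ) + 1) + 1 : ℕ) : ℝ) ^ d * (2 * (ℓ : ℝ) / f) ^ d ≤
      (2 * (K1 + 3)) ^ d := by
  have hℓ' : (0 : ℝ) < ℓ := by exact_mod_cast hℓ
  have hf0 : 0 < f := hℓ'.trans_le hf
  rw [← mul_pow]
  refine pow_le_pow_left₀ (by positivity) ?_ d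
  have h1 : ((⌊K1 * f⌋₊ / (2 * ℓ) : ℕ) : ℝ) ≤ K1 * f / (2 * ℓ) := by
    refine (Nat.cast_div_le).trans ?_
    push_cast
    exact div_le_div_of_nonneg_right (Nat.floor_le (by positivity)) (by positivity)
  have h2 : ((2 * (⌊K1 * f⌋₊ / (2 * ℓ) + 1) + 1 : ℕ) : ℝ) ≤ K1 * f / ℓ + 3 := by
    push_cast at h1 ⊢
    have h3 : K1 * f / ℓ = 2 * (K1 * f / (2 * ℓ)) := by field_simp
    rw [h3]
    linarith
  calc ((2 * (⌊K1 * f⌋₊ / (2 * ℓ) + 1) + 1 : ℕ) : ℝ) * (2 * (ℓ : ℝ) / f)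
      ≤ (K1 * f / ℓ + 3) * (2 * (ℓ : ℝ) / f) := mul_le_mul_of_nonneg_right h2 (by positivity)
    _ = 2 * K1 + 6 * (ℓ / f) := by
      field_simp
      ring
    _ ≤ 2 * K1 + 6 * 1 := by
      have : (ℓ : ℝ) / f ≤ 1 := (div_le_one hf0).2 hf
      linarith
    _ = 2 * (K1 + 3) := by ring

end YAC_

open YAC_ in
theorem p_YAC (h_YGG : T_YGG) (h_YGB : T_YGB) (h_YEA : T_YEA) (h_YRM : T_YRM) (h_YFK : T_YFK)
    (h_YAI : T_YAI) (h_YMS : T_YMS) (h_YSC : T_YSC) : T_YAC := by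
  intro d p hd hp0 hp1 hLIN ε hε
  have hd1 : 1 ≤ d := by omega
  have := PP_prob d hp0.le hp1.le
  obtain ⟨C', hC', hGG⟩ := h_YGG d p hd hp0 hp1
  obtain ⟨K1, hK1, hgood⟩ := hGG (ε / 3) (by positivity)
  obtain ⟨c, c6, hc, hc6, hGB⟩ := h_YGB d p C' hd hp0 hp1 hC'
  obtain ⟨CE, hCE, hEA⟩ := h_YEA d p c6 hd hp0 hp1 hc6
  set C9 : ℝ := (2 * (K1 + 3)) ^ d * CE with hC9
  have hC9p : 0 < C9 := by positivity
  set ε1 : ℝ := ε * c / (6 * C9) with hε1d
  have hε1 : 0 < ε1 := by positivity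
  obtain ⟨ρ, CL, hL⟩ := hLIN ε1 hε1
  obtain ⟨hI1, hI2, hI3, hI4⟩ := h_YRM d p hd1 hp0.le hp1.le
  obtain ⟨M, hM⟩ : ∃ M, (PP d p).real (RM d M \ Inf d) ≤ ε1 :=
    (hI4.eventually (ge_mem_nhds hε1)).exists
  obtain ⟨hMS, -⟩ := h_YMS d p hp0.le hp1.le
  obtain ⟨hS1, hS2, hS3, -, hS5⟩ := h_YSC d hd
  refine ⟨CL * (K1 + 1) + d * ρ + 1, by positivity, ?_⟩
  filter_upwards [hgood, hGB ρ, hEA ρ, hS1 (max 1 (ρ : ℝ)), hS2, hS5 (M + 3) (d + 5),
    eventually_ge_atTop 2] with n hg hgb hea hr1 hr2 hf1 hn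
  obtain ⟨-, hlog, hr0, hf0⟩ := hS3 n hn
  set r := rr d n with hrd
  set f := fn d n with hfd
  set ℓ := ll d n with hℓd
  have hr1' : 1 ≤ r := (le_max_left _ _).trans hr1
  have hrρ : (ρ : ℝ) ≤ r := (le_max_right _ _).trans hr1
  have hℓ1 : 1 ≤ ℓ := by
    rw [hℓd]
    unfold ll
    omega
  have hℓr : r ≤ ℓ := by
    have h1 : r ^ (d + 4) ≤ (⌈r ^ (d + 4)⌉₊ : ℝ) := Nat.le_ceil _
    have h2 : r ≤ r ^ (d + 4) := le_self_pow₀ hr1' (by omega)
    have h3 : (ℓ : ℝ) = (⌈r ^ (d + 4)⌉₊ : ℝ) + 1 := by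
      rw [hℓd, hrd]
      unfold ll
      push_cast
      rfl
    linarith
  have hρℓ : ρ ≤ 2 * ℓ := by
    have h1 : (ρ : ℝ) ≤ ℓ := hrρ.trans hℓr
    have h2 : ρ ≤ ℓ := by exact_mod_cast h1
    omega
  -- `f` is large
  have hfℓ : ((M : ℝ) + 3) * ℓ ≤ f := by
    have h1 : (1 : ℝ) ≤ Real.sqrt n := by
      rw [Real.one_le_sqrt]
      exact_mod_cast (by omega : 1 ≤ n)
    have h2 : (ℓ : ℝ) ≤ r ^ (d + 5) := hr2.2.2
    calc ((M : ℝ) + 3) * ℓ ≤ ((M : ℝ) + 3) * r ^ (d + 5) :=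
          mul_le_mul_of_nonneg_left h2 (by positivity)
      _ = ((M : ℝ) + 3) * 1 * r ^ (d + 5) := by ring
      _ ≤ ((M : ℝ) + 3) * Real.sqrt n * r ^ (d + 5) := by gcongr
      _ ≤ f := hf1.1
  have hℓ1' : (1 : ℝ) ≤ ℓ := by exact_mod_cast hℓ1
  have hfM : (M : ℝ) + 2 * ℓ + 1 ≤ f := by
    have h1 : (M : ℝ) * 1 ≤ M * ℓ := mul_le_mul_of_nonneg_left hℓ1' (Nat.cast_nonneg _)
    linarith
  have hf1' : 1 ≤ f := by
    have : (0 : ℝ) ≤ M := Nat.cast_nonneg _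
    linarith
  have hfℓ' : (ℓ : ℝ) ≤ f := by
    have : (0 : ℝ) ≤ M := Nat.cast_nonneg _
    linarith
  -- the events
  set A : (Fin d → ℤ) → Set (Env d) := fun x => RM d M ∩ Is d p n c6 ρ x ∩ DD d ρ CL x with hA
  set F : Finset (Fin d → ℤ) := (cub d ⌊K1 * f⌋₊).filter fun x => f ≤ nrm x with hF
  have hIsdep : ∀ x, DepOn (QQ ℓ x) (Is d p n c6 ρ x) := fun x =>
    (h_YAI d p n c6 ρ x hd1).2 hρℓ
  have hAm : ∀ x ∈ F, MeasurableSet (A x) := fun x _ =>
    ((hMS _ _ (hI2 M)).inter (hMS _ _ (hIsdep x))).inter (hMS _ _ (DD_dep ρ CL x))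
  have hAp : ∀ x ∈ F, (PP d p).real (A x) ≤ 2 * ε1 * (PP d p).real (Is d p n c6 ρ x) := by
    intro x hx
    rw [hF, Finset.mem_filter] at hx
    have hdis : M + 2 * ℓ < nrm x := by
      have h1 : (M : ℝ) + 2 * ℓ < nrm x := by linarith [hx.2]
      exact_mod_cast h1
    have h1 := h_YFK d p (cub d M) (QQ ℓ x) (cub d (CL * (nrm x + 1))) (RM d M)
      (Is d p n c6 ρ x) (DD d ρ CL x) hp0.le hp1.le (hI2 M) (hIsdep x) (DD_dep ρ CL x)
      (disj M ℓ x hdis) (h_YAI d p n c6 ρ x hd1).1 (DD_dec ρ CL x)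
    have h2 : (PP d p).real (RM d M ∩ DD d ρ CL x) ≤ 2 * ε1 := by
      have h3 : RM d M ∩ DD d ρ CL x ⊆
          {ω | ω ∈ Inf d ∧ ω ∈ DD d ρ CL x} ∪ (RM d M \ Inf d) := by
        rintro ω ⟨h4, h5⟩
        by_cases h6 : ω ∈ Inf d
        · exact Or.inl ⟨h6, h5⟩
        · exact Or.inr ⟨h4, h6⟩
      have h7 : (PP d p).real {ω | ω ∈ Inf d ∧ ω ∈ DD d ρ CL x} ≤ ε1 := hL x
      calc (PP d p).real (RM d M ∩ DD d ρ CL x)
          ≤ (PP d p).real ({ω | ω ∈ Inf d ∧ ω ∈ DD d ρ CL x} ∪ (RM d M \ Inf d)) :=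
            measureReal_mono h3
        _ ≤ (PP d p).real {ω | ω ∈ Inf d ∧ ω ∈ DD d ρ CL x} + (PP d p).real (RM d M \ Inf d) :=
            measureReal_union_le _ _
        _ ≤ 2 * ε1 := by linarith
    calc (PP d p).real (A x) ≤ (PP d p).real (Is d p n c6 ρ x) *
          (PP d p).real (RM d M ∩ DD d ρ CL x) := h1
      _ ≤ (PP d p).real (Is d p n c6 ρ x) * (2 * ε1) :=
          mul_le_mul_of_nonneg_left h2 measureReal_nonneg
      _ = _ := by ring
  -- the expected number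
  have hrd0 : 0 < r ^ d := by positivity
  have hsum : ∑ x ∈ F, (PP d p).real (A x) ≤ 2 * ε1 * (C9 * r ^ d) := by
    calc ∑ x ∈ F, (PP d p).real (A x)
        ≤ ∑ x ∈ F, 2 * ε1 * (PP d p).real (Is d p n c6 ρ x) := Finset.sum_le_sum hAp
      _ = 2 * ε1 * ∑ x ∈ F, (PP d p).real (Is d p n c6 ρ x) := by rw [Finset.mul_sum]
      _ ≤ 2 * ε1 * ∑ x ∈ cub d ⌊K1 * f⌋₊, (PP d p).real (Is d p n c6 ρ x) := by
          refine mul_le_mul_of_nonneg_left ?_ (by positivity)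
          exact Finset.sum_le_sum_of_subset_of_nonneg (Finset.filter_subset _ _)
            fun x _ _ => measureReal_nonneg
      _ ≤ 2 * ε1 * (((2 * (⌊K1 * f⌋₊ / (2 * ℓ) + 1) + 1 : ℕ) : ℝ) ^ d *
            (CE * r ^ d * th d n)) := by
          refine mul_le_mul_of_nonneg_left ?_ (by positivity)
          exact cover_sum ℓ _ (by omega) _ (fun x => measureReal_nonneg) _ hea
      _ = 2 * ε1 * ((((2 * (⌊K1 * f⌋₊ / (2 * ℓ) + 1) + 1 : ℕ) : ℝ) ^ d *
            (2 * (ℓ : ℝ) / f) ^ d) * (CE * r ^ d)) := by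
          unfold th
          ring
      _ ≤ 2 * ε1 * ((2 * (K1 + 3)) ^ d * (CE * r ^ d)) := by
          have := count (d := d) hK1 (by omega : 0 < ℓ) hfℓ'
          gcongr
      _ = 2 * ε1 * (C9 * r ^ d) := by
          rw [hC9]
          ring
  have hmark := markov (PP d p) F A hAm (c * r ^ d)
  have hS2b : (PP d p).real {ω | c * r ^ d ≤ ((F.filter fun x => ω ∈ A x).card : ℝ)} ≤ ε / 3 := by
    have h1 := hmark.trans hsum
    have h2 : 2 * ε1 * (C9 * r ^ d) = c * r ^ d * (ε / 3) := by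
      rw [hε1d]
      field_simp
      ring
    rw [h2] at h1
    have h3 := le_of_mul_le_mul_left h1 (by positivity)
    convert h3
    rfl
  -- inclusion
  have hsub : {ω : Env d | ω ∈ Inf d ∧ ¬ ∃ (x : Fin d → ℤ) (k : ℕ) (V : Finset (Fin d → ℤ)),
      (k : ℝ) ≤ (CL * (K1 + 1) + d * ρ + 1) * f ∧ Pth ω k 0 x ∧ x ∈ V ∧ Con V ∧
      (∀ v ∈ V, ω v = true) ∧ V.card ≤ (4 * ℓ + 1) ^ d ∧ xs d p n - sn d n ≤ lam V} ⊆
      {ω : Env d | ¬ ∃ a : Fin d → ℤ,
        (∀ x ∈ boxF a (2 * ℓ), f ≤ nrm x ∧ (nrm x : ℝ) ≤ K1 * f) ∧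
        xs d p n - sn d n ≤ lam (opn ω (boxF a (2 * ℓ))) ∧
        nh p n ω a (2 * ℓ) ≤ C' * r ^ d} ∪
      {ω | c * r ^ d ≤ ((F.filter fun x => ω ∈ A x).card : ℝ)} := by
    rintro ω ⟨hω, hno⟩
    by_cases hgo : ∃ a : Fin d → ℤ,
        (∀ x ∈ boxF a (2 * ℓ), f ≤ nrm x ∧ (nrm x : ℝ) ≤ K1 * f) ∧
        xs d p n - sn d n ≤ lam (opn ω (boxF a (2 * ℓ))) ∧
        nh p n ω a (2 * ℓ) ≤ C' * r ^ d
    · refine Or.inr ?_
      obtain ⟨a, ha1, ha2, ha3⟩ := hgo
      have h1 := hgb a ω ha2 ha3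
      refine h1.trans ?_
      have h2 : (boxF a (2 * ℓ)).filter (fun x => ω ∈ Is d p n c6 ρ x) ⊆
          F.filter fun x => ω ∈ A x := by
        intro x hx
        rw [Finset.mem_filter] at hx
        obtain ⟨hx1, hx2⟩ := hx
        obtain ⟨hx3, hx4⟩ := ha1 x hx1
        have hxF : x ∈ F := by
          rw [hF, Finset.mem_filter, mem_cub]
          exact ⟨Nat.le_floor hx4, hx3⟩
        rw [Finset.mem_filter]
        refine ⟨hxF, ⟨hI1 M hω, hx2⟩, ?_⟩
        rintro ⟨y, k, hy1, hy2, hy3⟩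
        obtain ⟨hop, ⟨V, hV1, hV2, hV3, hV4⟩, -⟩ := hx2
        obtain ⟨j, hj, hpj⟩ := join' x y ρ hop hy1
        refine hno ⟨x, k + j, V, ?_, pth_trans hy3 hpj, hV2, hV1, ?_, ?_, hV4⟩
        · have h3 : (k : ℝ) ≤ CL * (nrm x + 1) := by exact_mod_cast hy2
          have h4 : (j : ℝ) ≤ d * ρ := by exact_mod_cast hj
          have h5 : (CL : ℝ) * (nrm x + 1) ≤ CL * (K1 * f + f) :=
            mul_le_mul_of_nonneg_left (by linarith) (Nat.cast_nonneg _)
          have h6 : (d : ℝ) * ρ * 1 ≤ d * ρ * f :=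
            mul_le_mul_of_nonneg_left hf1' (by positivity)
          push_cast
          nlinarith
        · intro v hv
          exact (Finset.mem_filter.1 (hV3 hv)).2
        · calc V.card ≤ (QQ ℓ x).card :=
                Finset.card_le_card (hV3.trans (Finset.filter_subset _ _))
            _ = (4 * ℓ + 1) ^ d := by
                unfold QQ
                rw [card_boxF]
      exact_mod_cast Finset.card_le_card h2
    · exact Or.inl hgo
  calc _ ≤ (PP d p).real _ := measureReal_mono hsub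
    _ ≤ _ := measureReal_union_le _ _
    _ ≤ ε / 3 + ε / 3 := add_le_add hg hS2b
    _ ≤ ε := by linarith

end

end Pool.Agent.LBL
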