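import Pool.Agent.LBL.Wlk2

set_option autoImplicit false

open Finset MeasureTheory Filter Topology
open scoped Classical

namespace Pool.Agent.LBL

noncomputable section

lemma YAI_opn {d : ℕ} {ω ω' : Env d} (h : ∀ x, ω x = true → ω' x = true) (F : Finset (Fin d → ℤ)) :
    opn ω F ⊆ opn ω' F := by
  intro x hx
  unfold opn at hx ⊢
  rw [Finset.mem_filter] at hx ⊢
  exact ⟨hx.1, h x hx.2⟩

lemma YAI_opn_eq {d : ℕ} {ω ω' : Env d} (F : Finset (Fin d → ℤ)) (h : ∀ x ∈ F, ω x = ω' x) :
    opn ω F = opn ω' F := by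
  unfold opn
  refine Finset.filter_congr fun x hx => ?_
  rw [h x hx]

theorem p_YAI (h_YSM : T_YSM) : T_YAI := by
  intro d p n c6 ρ x hd
  constructor
  · rintro ω ω' h ⟨h1, ⟨V, hV1, hV2, hV3, hV4⟩, h3⟩
    refine ⟨fun z hz => h z (h1 z hz), ⟨V, hV1, hV2, hV3.trans (YAI_opn h _), hV4⟩, h3.trans ?_⟩
    exact (h_YSM d _ _ _ x hd (YAI_opn h _)).2.1
  · rintro hρ ω ω' h ⟨h1, h2, h3⟩
    have he : opn ω (QQ (ll d n) x) = opn ω' (QQ (ll d n) x) := YAI_opn_eq _ h
    refine ⟨fun z hz => ?_, ?_, ?_⟩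
    · have hzQ : z ∈ QQ (ll d n) x := by
        unfold QQ boxF
        rw [Fintype.mem_piFinset]
        intro i
        rw [Finset.mem_Ico]
        have hi : ((z - x) i).natAbs ≤ ρ := by
          refine le_trans ?_ hz
          unfold nrm
          exact Finset.le_sup (f := fun i => ((z - x) i).natAbs) (Finset.mem_univ i)
        rw [Pi.sub_apply] at hi
        push_cast
        omega
      rw [← h z hzQ]
      exact h1 z hz
    · rw [← he]
      exact h2
    · rw [← he]
      exact h3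

end

end Pool.Agent.LBL
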