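import Pool.Agent.LBL.Wlk3

set_option autoImplicit false

/-! # LBL, job YBL: diameter of a discrete ball -/

open Finset MeasureTheory Filter Topology
open scoped Classical

namespace Pool.Agent.LBL

noncomputable section

namespace YBL_

theorem nrm_le {d : ℕ} (x : Fin d → ℤ) (M : ℝ) (hM : 0 ≤ M) (h : ∀ i, |(x i : ℝ)| ≤ M) : (nrm x : ℝ) ≤ M := by
  unfold nrm
  have h1 : (Finset.univ.sup fun i => (x i).natAbs) ≤ ⌊M⌋₊ := by
    apply Finset.sup_le
    intro i _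
    apply Nat.le_floor
    have := h i
    have h2 : (((x i).natAbs : ℕ) : ℝ) = |(x i : ℝ)| := by
      rw [Nat.cast_natAbs]
      simp
    rw [h2]
    exact this
  calc ((Finset.univ.sup fun i => (x i).natAbs : ℕ) : ℝ) ≤ (⌊M⌋₊ : ℝ) := by exact_mod_cast h1
    _ ≤ M := Nat.floor_le hM

theorem card_ge (c ρ : ℝ) (hρ : 1 ≤ ρ) : ρ ≤ ((Finset.Icc ⌈c - ρ⌉ ⌊c + ρ⌋).card : ℝ) := by
  rw [Int.card_Icc]
  have h1 : (⌈c - ρ⌉ : ℝ) < c - ρ + 1 := Int.ceil_lt_add_one _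
  have h2 : c + ρ - 1 < (⌊c + ρ⌋ : ℝ) := Int.sub_one_lt_floor _
  have h3 : ((⌊c + ρ⌋ + 1 - ⌈c - ρ⌉ : ℤ) : ℝ) ≤ (((⌊c + ρ⌋ + 1 - ⌈c - ρ⌉).toNat : ℤ) : ℝ) := by
    exact_mod_cast Int.self_le_toNat _
  push_cast at h3
  have h4 : (((⌊c + ρ⌋ + 1 - ⌈c - ρ⌉).toNat : ℤ) : ℝ) = ((⌊c + ρ⌋ + 1 - ⌈c - ρ⌉).toNat : ℝ) := by
    norm_cast
  rw [← h4]
  push_cast
  linarith

end YBL_

open YBL_ in
theorem p_YBL : T_YBL := by
  intro d hd
  have hd0 : (0 : ℝ) < d := by exact_mod_cast hd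
  have hsd : 0 < Real.sqrt d := Real.sqrt_pos.mpr hd0
  refine ⟨2 * Real.sqrt d, by positivity, ?_⟩
  rintro B ⟨c, R, hB⟩ x hx y hy
  have hcoord : ∀ z ∈ B, ∀ i, |(z i : ℝ) - c i| ≤ |R| := by
    intro z hz i
    have h1 := (hB z).1 hz
    have h2 : ((z i : ℝ) - c i) ^ 2 ≤ ∑ i, ((z i : ℝ) - c i) ^ 2 :=
      Finset.single_le_sum (f := fun i => ((z i : ℝ) - c i) ^ 2) (fun j _ => sq_nonneg _) (Finset.mem_univ i)
    exact sq_le_sq.mp (h2.trans h1)
  have hnrm : (nrm (x - y) : ℝ) ≤ 2 * |R| := by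
    apply nrm_le _ _ (by positivity)
    intro i
    have h1 := abs_le.mp (hcoord x hx i)
    have h2 := abs_le.mp (hcoord y hy i)
    rw [Pi.sub_apply]
    push_cast
    rw [abs_le]
    constructor <;> linarith [h1.1, h1.2, h2.1, h2.2]
  set ρ : ℝ := |R| / Real.sqrt d with hρdef
  have hRρ : |R| = ρ * Real.sqrt d := by
    rw [hρdef]
    field_simp
  have hcardnn : (0 : ℝ) ≤ (B.card : ℝ) ^ ((1 : ℝ) / d) := Real.rpow_nonneg (Nat.cast_nonneg _) _
  have key : ρ ≤ (B.card : ℝ) ^ ((1 : ℝ) / d) + 1 := by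
    by_cases h1 : ρ < 1
    · linarith
    · push Not at h1
      have hρ0 : 0 ≤ ρ := by linarith
      have hsub : (Fintype.piFinset fun i => Finset.Icc ⌈c i - ρ⌉ ⌊c i + ρ⌋) ⊆ B := by
        intro z hz
        rw [Fintype.mem_piFinset] at hz
        rw [hB]
        have h2 : ∀ i ∈ (Finset.univ : Finset (Fin d)), ((z i : ℝ) - c i) ^ 2 ≤ ρ ^ 2 := by
          intro i _
          have h3 := Finset.mem_Icc.1 (hz i)
          have h4 := Int.ceil_le.1 h3.1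
          have h5 := Int.le_floor.1 h3.2
          apply sq_le_sq'
          · linarith
          · linarith
        calc ∑ i, ((z i : ℝ) - c i) ^ 2 ≤ ∑ _i : Fin d, ρ ^ 2 := Finset.sum_le_sum h2
          _ = d * ρ ^ 2 := by simp
          _ = |R| ^ 2 := by
              rw [hRρ, mul_pow, Real.sq_sqrt hd0.le]
              ring
          _ = R ^ 2 := sq_abs R
      have hcard : ρ ^ d ≤ (B.card : ℝ) := by
        have h3 : ((Fintype.piFinset fun i => Finset.Icc ⌈c i - ρ⌉ ⌊c i + ρ⌋).card : ℝ) ≤ (B.card : ℝ) := by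
          exact_mod_cast Finset.card_le_card hsub
        refine le_trans ?_ h3
        rw [Fintype.card_piFinset]
        push_cast
        calc ρ ^ d = ∏ _i : Fin d, ρ := by simp
          _ ≤ ∏ i : Fin d, ((Finset.Icc ⌈c i - ρ⌉ ⌊c i + ρ⌋).card : ℝ) :=
              Finset.prod_le_prod (fun i _ => hρ0) (fun i _ => card_ge (c i) ρ h1)
      have h5 : ρ ≤ (B.card : ℝ) ^ ((1 : ℝ) / d) := by
        calc ρ = (ρ ^ d) ^ ((1 : ℝ) / d) := by
              rw [← Real.rpow_natCast ρ d, ← Real.rpow_mul hρ0]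
              rw [mul_one_div_cancel hd0.ne', Real.rpow_one]
          _ ≤ (B.card : ℝ) ^ ((1 : ℝ) / d) := Real.rpow_le_rpow (pow_nonneg hρ0 _) hcard (by positivity)
      linarith
  calc (nrm (x - y) : ℝ) ≤ 2 * |R| := hnrm
    _ = 2 * Real.sqrt d * ρ := by rw [hRρ]; ring
    _ ≤ 2 * Real.sqrt d * ((B.card : ℝ) ^ ((1 : ℝ) / d) + 1) := by
        apply mul_le_mul_of_nonneg_left key (by positivity)

end

end Pool.Agent.LBL
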