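import Pool.Agent.LBL.Defs

set_option autoImplicit false

/-!
# LBL, part REG, targets 1: eigenvalues, functional inequalities, holes, level sets, slope and gap
-/

open Finset
open scoped Classical

namespace Pool.Agent.LBL

noncomputable section

/-! ## Algebra -/

/-- Green formulas on the torus. `∑ x f (x + ev i) = ∑ x f x` (shift bijection). `En f = 2 d (<f,f> - <f,P0 f>)`: expand the square. -/
def T_ENI : Prop := ∀ (d L : ℕ) [NeZero L], 1 ≤ d → ∀ f g : Tor d L → ℝ,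
  ip f (P0 g) = ip (P0 f) g ∧ En f = 2 * d * (ip f f - ip f (P0 f)) ∧ ∑ x, P0 f x = ∑ x, f x

/-- Existence of the top eigenfunction: maximize `∑ f P0 f` on the compact unit sphere of the functions supported in `O`;
replacing `f` by `|f|` does not decrease the form (`P0` has nonnegative coefficients); the maximizer satisfies the Euler-Lagrange
equation `P0 f = lam f` on `O` (the form is symmetric: `∑_{x∈O} f x P0 g x = ∑_{x∈O} g x P0 f x` for `f, g` supported in `O`). -/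
def T_TOP : Prop := ∀ (d : ℕ) (R : Type) [CommRing R] (O : Finset (Fin d → R)), 1 ≤ d → O.Nonempty →
  ∃ φ : (Fin d → R) → ℝ, Top O φ

/-- Variational facts. `<f,P0 f> <= lam <f,f>` for `f` supported in `O` (scaling and boundedness of the set in `lam`:
`|∑_{x∈O} f P0 f| <= ∑_{x∈O} f^2` by `2|ab| <= a^2+b^2`). `0 <= lam <= 1` (for `O` nonempty test... if `f = δ_x` the value is
`P0 δ_x x >= 0`; `sSup ∅ = 0`). Monotone in `O`. A nonzero nonnegative subsolution gives a lower bound. -/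
def T_VAR : Prop := ∀ (d : ℕ) (R : Type) [CommRing R], 1 ≤ d → ∀ (O : Finset (Fin d → R)),
  (∀ f : (Fin d → R) → ℝ, Spp O f → ∑ x ∈ O, f x * P0 f x ≤ lam O * ∑ x ∈ O, f x ^ 2) ∧
  0 ≤ lam O ∧ lam O ≤ 1 ∧ (∀ O' : Finset (Fin d → R), O ⊆ O' → lam O ≤ lam O') ∧
  (∀ f g : (Fin d → R) → ℝ, Spp O f → Spp O g → ∑ x ∈ O, f x * P0 g x = ∑ x ∈ O, g x * P0 f x)

/-- Flux identity: sum `P0 φ = lam φ` on `O` and use `∑ P0 φ = ∑ φ` (T_ENI). Also `P0 φ >= 0`, `φ(x ± ev i) <= 2 d P0 φ(x)` (all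
terms of the average are nonnegative) and `φ (x ± ev i) <= 2 d φ x` for `x ∈ O` (`lam <= 1`, T_VAR), `En φ = 2d (1 - lam)`, `ip φ φ = 1`. -/
def T_FLX : Prop := ∀ (d L : ℕ) [NeZero L], 1 ≤ d → ∀ (O : Finset (Tor d L)) (φ : Tor d L → ℝ), Top O φ →
  ∑ y ∈ Oᶜ, P0 φ y = (1 - lam O) * ∑ x, φ x ∧ (∀ x, 0 ≤ P0 φ x) ∧
  (∀ x i, φ (x + ev i) ≤ 2 * d * P0 φ x ∧ φ (x - ev i) ≤ 2 * d * P0 φ x) ∧
  (∀ x ∈ O, ∀ i, φ (x + ev i) ≤ 2 * d * φ x ∧ φ (x - ev i) ≤ 2 * d * φ x) ∧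
  En φ = 2 * d * (1 - lam O) ∧ ip φ φ = 1

/-- Truncation at level `t`. For all reals `(a∧t - b∧t)^2 <= (a∧t - b∧t)(a - b)` and `((a-t)_+ - (b-t)_+)^2 <= ((a-t)_+ - (b-t)_+)(a-b)`; sum over
edges: `En (φ∧t) <= 2 d <φ∧t, (1-P0) φ> <= 2 d (1-lam) <φ∧t, φ>` because `φ∧t` vanishes outside `O` (`t >= 0`), same for `(φ-t)_+`.
The identity `∑ edges df dg = 2 d <f, (1-P0) g>` is the polarized form of T_ENI. -/
def T_TRN : Prop := ∀ (d L : ℕ) [NeZero L], 1 ≤ d → ∀ (O : Finset (Tor d L)) (φ : Tor d L → ℝ), Top O φ → ∀ t : ℝ, 0 ≤ t →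
  En (fun x => min (φ x) t) ≤ 2 * d * (1 - lam O) * (t * ∑ x, φ x) ∧
  En (fun x => max (φ x - t) 0) ≤ 2 * d * (1 - lam O) * ∑ x, φ x * max (φ x - t) 0

/-- Two disjoint good sets. Let `φ` be the top function, `f ⟂ φ` with form `> y`. Maximize the form on the unit sphere of
`{f supported in O, f ⟂ φ}` (invariant under the symmetric operator `1_O P0`): eigenfunction `ψ` with eigenvalue `λ₂ > y`. If `ψ` takes both
signs: `g₁ = ψ⁺`, `g₂ = ψ⁻`, `<ψ⁺,P0 ψ⁺> = <ψ⁺,P0 ψ> + <ψ⁺,P0 ψ⁻> >= λ₂ <ψ⁺,ψ⁺>`, same for `ψ⁻`; otherwise (replace `ψ` by `-ψ`) `ψ >= 0` and `∑ φ ψ = 0`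
force disjoint supports: `g₁ = φ`, `g₂ = ψ`. `U_i` = supports. -/
def T_NOD : Prop := ∀ (d : ℕ) (R : Type) [CommRing R] (O : Finset (Fin d → R)) (y : ℝ), 1 ≤ d → ¬ Sec O y →
  ∃ U₁ U₂ : Finset (Fin d → R), U₁ ⊆ O ∧ U₂ ⊆ O ∧ Disjoint U₁ U₂ ∧ U₁.Nonempty ∧ U₂.Nonempty ∧ y ≤ lam U₁ ∧ y ≤ lam U₂

/-- Interlacing. If `f ⟂ φ'`, supported in `O' = O \ z`, has `<f,P0 f> > y <f,f>` where `φ'` is a top function of `O'`, then
the form is `> y |h|^2` for every nonzero `h` in `span(f, φ')` (cross terms `<f,P0 φ'> = lam <f,φ'> = 0`, and `lam O' >= <f,P0 f>/<f,f> > y`);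
some nonzero `h` in this span is orthogonal to a top function of `O` (T_TOP): contradiction with `Sec O y`. -/
def T_ITL : Prop := ∀ (d L : ℕ) [NeZero L], 1 ≤ d → ∀ (O : Finset (Tor d L)) (y : ℝ) (z : Tor d L),
  Sec O y → Sec (O.erase z) y

/-- Uniqueness of the top function when the second eigenvalue is smaller: `φ' = α φ + f`, `f ⟂ φ`, `f` is an eigenfunction with
eigenvalue `lam O > y`, so `f = 0`. In particular `ph O = φ`. -/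
def T_UNQ : Prop := ∀ (d : ℕ) (R : Type) [CommRing R] (O : Finset (Fin d → R)) (y : ℝ) (φ φ' : (Fin d → R) → ℝ),
  1 ≤ d → Sec O y → y < lam O → Top O φ → Top O φ' → φ' = φ ∧ ph O = φ

/-! ## Probability -/

/-- Elementary facts on `pr`: total mass one (binomial theorem, or `Finset.prod_add`), nonnegative, monotone, union bound,
`pr (V ⊆ O) = p^|V|`. -/
def T_PRB : Prop := ∀ (X : Type) [Fintype X] [DecidableEq X] (p : ℝ), 0 < p → p < 1 →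
  pr (X := X) p (fun _ => True) = 1 ∧ (∀ A : Finset X → Prop, 0 ≤ pr p A ∧ pr p A ≤ 1) ∧
  (∀ A B : Finset X → Prop, (∀ O, A O → B O) → pr p A ≤ pr p B) ∧
  (∀ (I : Type) (s : Finset I) (A : Finset X → Prop) (B : I → Finset X → Prop), (∀ O, A O → ∃ i ∈ s, B i O) →
    pr p A ≤ ∑ i ∈ s, pr p (B i)) ∧
  (∀ V : Finset X, pr p (fun O => V ⊆ O) = p ^ V.card)

/-- Mass transport for opening and closing a point, and exchange of two points. First: the bijection `(O,z) ↦ (O \ z, z)` between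
`{z ∈ O}` and `{y ∉ O}`, `wt O = (p/(1-p)) wt (O \ z)`. Second: a permutation of the points preserves the weight. -/
def T_MTR : Prop := ∀ (X : Type) [Fintype X] [DecidableEq X] (p : ℝ), 0 < p → p < 1 →
  (∀ F : Finset X → X → ℝ, ∑ O : Finset X, wt p O * ∑ z ∈ O, F O z =
    (p / (1 - p)) * ∑ O : Finset X, wt p O * ∑ y ∈ Oᶜ, F (insert y O) y) ∧
  (∀ (F : Finset X → ℝ) (e : X ≃ X), ∑ O : Finset X, wt p O * F O = ∑ O : Finset X, wt p O * F (O.map e.toEmbedding))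

/-- Opening any point: `pr (∃ y ∉ O, A (insert y O)) <= |X| ((1-p)/p) pr A`, from T_MTR with `F O z = 1_{A O}`. -/
def T_OPN : Prop := ∀ (X : Type) [Fintype X] [DecidableEq X] (p : ℝ), 0 < p → p < 1 → ∀ A : Finset X → Prop,
  pr p (fun O => ∃ y, y ∉ O ∧ A (insert y O)) ≤ Fintype.card X * ((1 - p) / p) * pr p A

/-! ## Functional inequalities -/

/-- Poincare inequality in a box `a + Π [0, l_i)`, `1 <= l_i <= b`, and path bound when `f` has a zero.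
First: induction on the number of coordinates / variance decomposition: one-dimensional `∑_{u<l} (f u)^2 - (∑ f)^2/l <= l^2 ∑ (f(u+1)-f u)^2`.
Simplest: `∑_{x,y∈Q} (f x - f y)^2 = 2 |Q| ∑ f^2 - 2 (∑ f)^2`; go from `x` to `y` changing one coordinate at a time,
`(f x - f y)^2 <= d ∑_i (difference in coordinate i)^2 <= d b ∑_i ∑ (edges on the segment)`, and each edge is used at most `b |Q|` times.
Second: `f x ^2 <= (number of edges) * (energy of the path to the zero)`. -/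
def T_POI : Prop := ∀ d : ℕ, 1 ≤ d → ∃ C : ℝ, 0 < C ∧ ∀ (b : ℕ) (a l : Fin d → ℤ) (f : (Fin d → ℤ) → ℝ), 1 ≤ b →
  (∀ i, 1 ≤ l i ∧ l i ≤ b) →
  let Q : Finset (Fin d → ℤ) := Fintype.piFinset fun i => Finset.Ico (a i) (a i + l i)
  let E : ℝ := ∑ i : Fin d, ∑ x ∈ Q.filter (fun x => x + ev i ∈ Q), (f (x + ev i) - f x) ^ 2
  ∑ x ∈ Q, f x ^ 2 ≤ C * b ^ 2 * E + (∑ x ∈ Q, f x) ^ 2 / Q.card ∧
  ((∃ x ∈ Q, f x = 0) → ∑ x ∈ Q, f x ^ 2 ≤ C * b ^ (d + 1) * E)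

/-- Nash inequality on the torus: cut `[0,L)` into intervals of length in `[b, 2b)`, the product boxes have at least `b^d` points; apply
T_POI (with `2b`) in each box to the periodic function `x ↦ f (x mod L)` and sum; inner edges of boxes are distinct torus edges;
`∑_Q (∑_Q |f|)^2 <= (∑ |f|)^2`. -/
def T_NSH : Prop := ∀ d : ℕ, 1 ≤ d → ∃ C : ℝ, 0 < C ∧ ∀ (L : ℕ) [NeZero L] (b : ℕ) (f : Tor d L → ℝ), 1 ≤ b → b ≤ L →
  ip f f ≤ C * b ^ 2 * En f + (∑ x, |f x|) ^ 2 / b ^ d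

/-- Faber-Krahn: T_NSH with `b = ceil((2|V|)^{1/d})`, `(∑|f|)^2 <= |V| ∑ f^2`; if `b > L` then ... `2|V| <= L^d` gives `b <= L`. -/
def T_FKT : Prop := ∀ d : ℕ, 1 ≤ d → ∃ c : ℝ, 0 < c ∧ ∀ (L : ℕ) [NeZero L] (V : Finset (Tor d L)), V.Nonempty → 2 * V.card ≤ L ^ d →
  (∀ f : Tor d L → ℝ, Spp V f → c * (V.card : ℝ) ^ (-(2 : ℝ) / d) * ip f f ≤ En f) ∧
  lam V ≤ 1 - c * (V.card : ℝ) ^ (-(2 : ℝ) / d)

/-- Heat kernel bound for the lazy walk: `a_t = ip (Kz^t δ_x) (Kz^t δ_x)`, `a_t - a_{t+1} >= c En(Kz^t δ_x)` (eigenvalues of `Kz` in `[0,1]`: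
`u^2 - (Ku)^2 >= <u,(1-K)u>` since `1-k^2 >= 1-k`), `∑ |Kz^t δ_x| = 1`, T_NSH with `b^d ~ 2/a_t` gives `a_t - a_{t+1} >= c a_t^{1+2/d}` as long as
`a_t >= C L^{-d}`, hence `a_t <= C t^{-d/2}` for `t <= L^2`. Finally `Kz^t f x = ip (Kz^t δ_x) f`. -/
def T_HKB : Prop := ∀ d : ℕ, 1 ≤ d → ∃ C : ℝ, 0 < C ∧ ∀ (L : ℕ) [NeZero L] (t : ℕ) (f : Tor d L → ℝ) (x : Tor d L), 1 ≤ t → t ≤ L ^ 2 →
  (Kz^[t] f x) ^ 2 ≤ C * (t : ℝ) ^ (-(d : ℝ) / 2) * ip f f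

/-- Sup bound: `Kz^t φ >= ((1+lam)/2)^t φ` pointwise (`P0 φ = lam φ` on `O`, `P0 φ >= 0 = φ` outside), T_HKB with `t = ⌊r^2⌋`. -/
def T_SUP : Prop := ∀ d : ℕ, 1 ≤ d → ∀ A : ℝ, 0 < A → ∃ C r0 : ℝ, 0 < C ∧ 1 < r0 ∧ ∀ (r : ℝ) (L : ℕ) [NeZero L], r0 ≤ r → r ≤ L →
  ∀ (O : Finset (Tor d L)) (φ : Tor d L → ℝ), Top O φ → (1 - lam O) * r ^ 2 ≤ A → ∀ x, φ x ≤ C * hh d r

/-! ## Holes -/

/-- Survival. `w_k = srv O k` is nonincreasing in `k`, values in `[0,1]`; by induction on `m`, `z ∉ hol m O → w_m z <= 1 - (2d)^{-m}`.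
`S_k = ∑ w_k`; symmetry of `Pk O` gives `S_{k+m} = ∑ w_k w_m <= S_k - (2d)^{-m} ∑_{z ∉ hol} w_k z`. Along `k = 0, m, 2m, ... <= t`: either always
`∑_{z∉hol} w_k >= S_k/2` and `S_t <= L^d (1 - (2d)^{-m}/2)^{⌊t/m⌋} <= 1`, or for some `k <= t`: `S_t <= S_k <= 2 ∑_{hol} w_k <= 2 |hol|`. -/
def T_HOL : Prop := ∀ (d L : ℕ) [NeZero L] (O : Finset (Tor d L)) (m t : ℕ), 1 ≤ d → 1 ≤ m →
  (L : ℝ) ^ d * (1 - (1 / (2 * (d : ℝ)) ^ m) / 2) ^ (t / m) ≤ 1 → ∑ x, srv O t x ≤ 2 * ((hol m O).card : ℝ) + 1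

/-- `mm` is subpolynomial and positive. (`(log r)^{1/d}` with `d >= 2`.) -/
def T_MMS : Prop := ∀ (d K0 : ℕ) (p : ℝ), 2 ≤ d → 1 ≤ K0 → 0 < p → p < 1 → ∀ ε : ℝ, 0 < ε → ∃ r0 : ℝ, 1 < r0 ∧ ∀ r : ℝ, r0 ≤ r →
  1 ≤ mm d p K0 r ∧ (mm d p K0 r : ℝ) ≤ r ^ ε ∧ ((2 * (d : ℝ) + 1) ^ (2 * mm d p K0 r)) ≤ r ^ ε

/-- `L^1` bound: `φ = lam^{-t} (Pk O)^t φ <= lam^{-t} (sup φ) srv O t` with `t = ⌊r^2⌋` (`lam^{-t} <= e^{2A}` for `r` large), T_SUP, T_HOL (with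
`m = mm d p K0 r`, T_MMS, `L <= r^K0`). -/
def T_LON : Prop := ∀ (d K0 : ℕ) (p A : ℝ), 2 ≤ d → 1 ≤ K0 → 0 < p → p < 1 → 0 < A → ∃ C r0 : ℝ, 0 < C ∧ 1 < r0 ∧
  ∀ (r : ℝ) (L : ℕ) [NeZero L], r0 ≤ r → Rg d K0 r L → ∀ (O : Finset (Tor d L)) (φ : Tor d L → ℝ), Top O φ → (1 - lam O) * r ^ 2 ≤ A →
  ∑ x, φ x ≤ C * hh d r * (((hol (mm d p K0 r) O).card : ℝ) + 1)

/-- Few points at level `> t` outside the holes: if `x ∉ hol m O`, `φ x > t >= 0`, a shortest path from `x` to the complement of `O` has length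
`k <= m` and its points before the last are in `O`; by T_FLX `φ` drops at most by a factor `2d` at each step, so the last point `y ∉ O` has
`P0 φ y >= t (2d)^{-m}`; each `y` serves at most `(2d+1)^m` points `x`; Markov. -/
def T_LVN : Prop := ∀ (d L : ℕ) [NeZero L] (O : Finset (Tor d L)) (φ : Tor d L → ℝ) (m : ℕ) (t : ℝ), 1 ≤ d → Top O φ → 0 < t →
  ((Finset.univ.filter fun x => t < φ x).card : ℝ) ≤
    (hol m O).card + (2 * (d : ℝ) + 1) ^ m * (2 * (d : ℝ)) ^ m / t * ∑ y ∈ Oᶜ, P0 φ y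

/-- Few holes: if `|hol m O| > M` choose at least `M/(4m+1)^d` points of it with disjoint balls of radius `m` (greedy; a ball of radius `2m` has at
most `(4m+1)^d` points; `2m < L/2`), each ball has at least `n = (2 m/d + 1)^d >= 2 K0 d log r/(-log p)` points and is contained in `O`; union
bound `∑_k L^{dk} p^{nk} <= p^{nk/2}` because `L^d <= r^{K0 d} <= p^{-n/2}`. -/
def T_GPB : Prop := ∀ (d K0 : ℕ) (p : ℝ), 2 ≤ d → 1 ≤ K0 → 0 < p → p < 1 → ∃ c r0 : ℝ, 0 < c ∧ 1 < r0 ∧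
  ∀ (r : ℝ) (L : ℕ) [NeZero L], r0 ≤ r → Rg d K0 r L → ∀ M : ℝ, 0 ≤ M →
  pr p (fun O : Finset (Tor d L) => M < ((hol (mm d p K0 r) O).card : ℝ)) ≤ Real.exp (-c * M)

/-- Monotonicity of the holes and stability under opening one point: a point of `hol m (insert y O) \ hol m O` is within distance `m` of `y`, at most
`(2d+1)^m` points. -/
def T_HMO : Prop := ∀ (d L : ℕ) [NeZero L] (m : ℕ) (O O' : Finset (Tor d L)), 1 ≤ d →
  (O ⊆ O' → hol m O ⊆ hol m O') ∧ (∀ y, (hol m (insert y O)).card ≤ (hol m O).card + (2 * d + 1) ^ m)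

/-- Regular eigenfunctions: T_SUP, T_LON, T_LVN with `t = hh r^{-3/2}`, T_FLX and T_MMS. -/
def T_GDE : Prop := ∀ (d K0 : ℕ) (p A C' : ℝ), 2 ≤ d → 1 ≤ K0 → 0 < p → p < 1 → 0 < A → 0 < C' → ∃ C r0 : ℝ, 1 ≤ C ∧ 1 < r0 ∧
  ∀ (r : ℝ) (L : ℕ) [NeZero L], r0 ≤ r → Rg d K0 r L → ∀ (O : Finset (Tor d L)) (φ : Tor d L → ℝ), Top O φ → (1 - lam O) * r ^ 2 ≤ A →
  ((hol (mm d p K0 r) O).card : ℝ) ≤ C' * r ^ d → EF r C O φ

/-- The bulk: `1 = ∑ φ^2 <= c hh ∑ φ + (C hh)^2 #{φ >= c hh}`. -/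
def T_BLK : Prop := ∀ (d : ℕ) (C : ℝ), 2 ≤ d → 1 ≤ C → ∃ c r0 : ℝ, 0 < c ∧ 1 < r0 ∧
  ∀ (r : ℝ) (L : ℕ) [NeZero L], r0 ≤ r → ∀ (O : Finset (Tor d L)) (φ : Tor d L → ℝ), EF r C O φ →
  c * r ^ d ≤ ((Finset.univ.filter fun x => c * hh d r ≤ φ x).card : ℝ)

/-- Number of closed points with large `P0 φ`: T_FLX and Markov (`sq = hh / r`). -/
def T_FXM : Prop := ∀ (d : ℕ) (C : ℝ), 2 ≤ d → 1 ≤ C → ∃ C1 : ℝ, 0 < C1 ∧
  ∀ (r : ℝ) (L : ℕ) [NeZero L], 1 < r → ∀ (O : Finset (Tor d L)) (φ : Tor d L → ℝ), EF r C O φ →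
  ∑ y ∈ Oᶜ, P0 φ y ≤ C1 * r ^ (d - 1) * sq d r ∧
  ∀ j : ℝ, 0 < j → ((Oᶜ.filter fun y => j * sq d r ≤ P0 φ y).card : ℝ) ≤ C1 * r ^ (d - 1) / j

/-! ## Level sets -/

/-- Good level set. Put `t0 = hh r^{-3/2}`. Coarea: `∫_{t0}^{2 t0} |bd {φ > t}| dt = ∑ edges |φ∧2t0 ∨ t0 - ...| <= (2 d #{φ > t0})^{1/2} En(φ∧2t0)^{1/2}`
(only edges with an endpoint in `{φ > t0}`), T_TRN: `En(φ∧2t0) <= C r^{-2} t0 r^{d/2}`; some `t` has `|bd| <= C r^{d-1/4}`. For `ψ = (φ-t)_+`: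
`En ψ <= 2d(1-lam) ∑ φψ = 2d(1-lam)(∑ψ^2 + t ∑ψ)`, `∑ψ^2 >= 1/2` (`∑ (φ∧t)^2 <= t ∑ φ` is small), so `1 - lam V <= (1-lam)(1 + 2 t ∑φ)`, `V = {φ>t}`. -/
def T_LEV : Prop := ∀ (d : ℕ) (C : ℝ), 2 ≤ d → 1 ≤ C → ∃ C1 r0 : ℝ, 0 < C1 ∧ 1 < r0 ∧
  ∀ (r : ℝ) (L : ℕ) [NeZero L], r0 ≤ r → ∀ (O : Finset (Tor d L)) (φ : Tor d L → ℝ), EF r C O φ →
  ∃ V : Finset (Tor d L), V ⊆ O ∧ ((bd V).card : ℝ) ≤ C1 * r ^ ((d : ℝ) - 1 / 4) ∧ (V.card : ℝ) ≤ C * r ^ d ∧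
    lam O - C1 * r ^ (-(7 : ℝ) / 2) ≤ lam V

/-- Counting sets by their edge boundary: the torus graph is connected, so `V` is determined by `bd V` and by whether `0 ∈ V`; the number of subsets of
size at most `k` of a set with `N = d L^d` elements is at most `(N+1)^k`. -/
def T_CNT : Prop := ∀ (d L : ℕ) [NeZero L] (k : ℕ), 1 ≤ d →
  (Finset.univ.filter fun V : Finset (Tor d L) => (bd V).card ≤ k).card ≤ 2 * (d * L ^ d + 1) ^ k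

/-! ## Optimal volumes -/

/-- Lower bound of the optimal volume from T_FKT (if `2|V| > L^d` the volume is even larger since `L >= r`). -/
def T_VLO : Prop := ∀ d : ℕ, 2 ≤ d → ∃ c : ℝ, 0 < c ∧ ∀ (A r x : ℝ) (L : ℕ) [NeZero L], 1 ≤ r → r * A ^ (-(1 : ℝ) / 2) ≤ L → 0 < A → 0 < x → (1 - x) * r ^ 2 ≤ A →
  ∀ V : Finset (Tor d L), x ≤ lam V → c * (r * A ^ (-(1 : ℝ) / 2)) ^ d ≤ V.card

/-- Upper bound: the cube `[0,R)^d`, `R < L`, test function `Π min(x_i+1, R-x_i)` (or a tent function), `1 - lam <= C/R^2`. The set in the definition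
of `vol` is nonempty. -/
def T_VUP : Prop := ∀ d : ℕ, 2 ≤ d → ∃ C : ℝ, 0 < C ∧ ∀ (a r x : ℝ) (L : ℕ) [NeZero L], 0 < a → a ≤ (1 - x) * r ^ 2 → 1 ≤ r → C * (r * a ^ (-(1 : ℝ) / 2) + 1) ≤ L →
  ∃ V : Finset (Tor d L), x ≤ lam V ∧ (V.card : ℝ) ≤ C * (r * a ^ (-(1 : ℝ) / 2) + 1) ^ d

/-- Duplication of a layer. `φ` top function of `V`, `μ = 1 - lam V`, `i` a direction with `Ed i φ >= 2 μ` (`∑_i Ed i φ = 2 d μ`). `u_h` = restriction of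
`φ` to `{x_i = h}`, `V_h` = layer of `V`, `gain_h = 2 d μ |u_h|^2 - E_perp(u_h)`, `∑_h gain_h = Ed i φ >= 2μ`, so some `h` with `V_h` nonempty has
`gain_h >= (2μ/|V|) |V_h|`. As `|V| < L` some layer `g` of `V` is empty. New set: delete layer `g`, double layer `h` (cyclic order); new function:
same layers, `u_h` twice. Energy: `+E_perp(u_h)` (and it does not increase when the empty layer is deleted, `φ >= 0`), squared norm `1 + |u_h|^2`. So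
`lam V' - lam V >= gain_h/(2d(1+|u_h|^2)) >= gain_h/(4d)`. Also `gain_h <= 2 d μ |u_h|^2` and `|u_h|^2 <= 1/L + 2 (Ed i φ)^{1/2} <= 1/L + 2 (2dμ)^{1/2}`
(one-dimensional: some `h'` has `|u_{h'}|^2 <= 1/L`; telescope `| |u_{k+1}|^2 - |u_k|^2 | <= |u_{k+1}-u_k| (|u_{k+1}|+|u_k|)`, Cauchy-Schwarz), whence the bound
on `n = |V_h|`. -/
def T_DUP : Prop := ∀ (d L : ℕ) [NeZero L], 2 ≤ d → 3 ≤ L → ∀ V : Finset (Tor d L), V.Nonempty → V.card < L → lam V < 1 →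
  ∃ (V' : Finset (Tor d L)) (n : ℕ), 1 ≤ n ∧ V'.card = V.card + n ∧
    (1 - lam V) * n / (2 * d * V.card) ≤ lam V' - lam V ∧
    (n : ℝ) ≤ d * V.card * (1 / L + 2 * Real.sqrt (2 * d * (1 - lam V)))

/-- Continuity of the optimal volume. Start with an optimal set `V_0` for `x` (volume `<= C r^d`, T_VUP) and iterate T_DUP until the eigenvalue is at
least `x+u`. During the process `a r^-2 <= 1 - lam V_k <= A r^-2`, so `gain_k >= (a r^-2/2d) n_k/|V_k|`, `∑ n_k/|V_k| <= 2 d A/a` before the last step, and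
`|V_{k+1}|/|V_k| <= exp(n_k/|V_k|)` keeps `|V_k| <= C' r^d < L`. Hence `n_k <= C'' r^(d-1)` (T_DUP, `L >= r`) and the gain per added point is at least `c r^{-d-2}`: total added volume
at most `u r^{d+2}/c` plus the last step `C'' r^{d-1}`. (The process stops: every step gains at least `c r^{-d-2}`.) -/
def T_VCT : Prop := ∀ (d K0 : ℕ) (a A : ℝ), 2 ≤ d → 1 ≤ K0 → 0 < a → a ≤ A → ∃ C r0 : ℝ, 0 < C ∧ 1 < r0 ∧
  ∀ (r x u : ℝ) (L : ℕ) [NeZero L], r0 ≤ r → Rg d K0 r L → Win a A r x → 0 ≤ u → Win a A r (x + u) →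
  (vol d L (x + u) : ℝ) ≤ vol d L x + C * (u * r ^ (d + 2) + r ^ (d - 1))

/-! ## Slope and gap -/

/-- The bad event is negligible: `TT x >= p^{vol x} >= p^{C r^d}` (T_VUP), T_GPB with `C'` large. -/
def T_GOO : Prop := ∀ (d K0 : ℕ) (p a : ℝ), 2 ≤ d → 1 ≤ K0 → 0 < p → p < 1 → 0 < a → ∃ C' r0 : ℝ, 0 < C' ∧ 1 < r0 ∧
  ∀ (r x : ℝ) (L : ℕ) [NeZero L], r0 ≤ r → Rg d K0 r L → a ≤ (1 - x) * r ^ 2 → x ≤ 1 →
  pr p (fun O : Finset (Tor d L) => C' * r ^ d < ((hol (mm d p K0 r) O).card : ℝ)) ≤ Real.exp (-r ^ d) * TT d L p x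

/-- Two-sided bound by the optimal volume. Lower bound: an optimal set is open. Upper bound: `O` good (T_GOO) with `lam O >= x`: T_GDE, T_LEV give an
open set `V` with small edge boundary and `lam V >= x - C r^{-7/2}`, T_CNT (`L <= r^K0`: the number of sets is `exp(o(r^d))`) and `pr (V ⊆ O) = p^|V|`. -/
def T_LDP : Prop := ∀ (d K0 : ℕ) (p a A ε : ℝ), 2 ≤ d → 1 ≤ K0 → 0 < p → p < 1 → 0 < a → a ≤ A → 0 < ε → ∃ C r0 : ℝ, 0 < C ∧ 1 < r0 ∧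
  ∀ (r x : ℝ) (L : ℕ) [NeZero L], r0 ≤ r → Rg d K0 r L → Win a A r x →
  p ^ vol d L x ≤ TT d L p x ∧ TT d L p x ≤ Real.exp (ε * r ^ d) * p ^ vol d L (x - C * r ^ (-(7 : ℝ) / 2))

/-- Slope (S): T_LDP and T_VCT. -/
def T_SLP : Prop := ∀ (d K0 : ℕ) (p a A : ℝ), 2 ≤ d → 1 ≤ K0 → 0 < p → p < 1 → 0 < a → a ≤ A → ∃ C : ℝ, 0 < C ∧ ∀ ε : ℝ, 0 < ε → ∃ r0 : ℝ, 1 < r0 ∧
  ∀ (r x u : ℝ) (L : ℕ) [NeZero L], r0 ≤ r → Rg d K0 r L → Win a A r x → 0 ≤ u → Win a A r (x - u) →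
  TT d L p (x - u) ≤ Real.exp (C * u * r ^ (d + 2) + ε * r ^ d) * TT d L p x

/-- Size of the tail (constants `c, C` independent of the window): T_LDP, T_VLO, T_VUP. -/
def T_SIZ : Prop := ∀ (d K0 : ℕ) (p : ℝ), 2 ≤ d → 1 ≤ K0 → 0 < p → p < 1 → ∃ c C : ℝ, 0 < c ∧ 0 < C ∧ ∀ a : ℝ, 0 < a → ∃ r0 : ℝ, 1 < r0 ∧
  ∀ (r : ℝ) (L : ℕ) [NeZero L], r0 ≤ r → Rg d K0 r L →
  TT d L p (1 - a / r ^ 2) ≤ Real.exp (-c * a ^ (-(d : ℝ) / 2) * r ^ d) ∧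
  Real.exp (-C * (a ^ (-(1 : ℝ) / 2) + 1 / r) ^ d * r ^ d) ≤ TT d L p (1 - a / r ^ 2)

/-- Gap: if not `Sec O (x - δ/r^2)` and `O` is good, T_NOD gives disjoint sets `U₁, U₂ ⊆ O` with eigenvalues `>= x - δ/r^2`; T_TOP, T_GDE (holes are
monotone, T_HMO) and T_LEV for both give disjoint open sets with small boundary and volumes `>= vol(x - δ/r^2 - C r^{-7/2}) >= vol x - C δ r^d - o(r^d)`
(T_VCT): probability at most `exp(o(r^d)) p^{2 vol x - 2 C δ r^d}`, and `vol x >= c r^d` (T_VLO), `TT x >= p^{vol x}`; `δ` small. Plus T_GOO. -/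
def T_GAP : Prop := ∀ (d K0 : ℕ) (p a A : ℝ), 2 ≤ d → 1 ≤ K0 → 0 < p → p < 1 → 0 < a → a ≤ A → ∃ δ c r0 : ℝ, 0 < δ ∧ 0 < c ∧ 1 < r0 ∧
  ∀ (r x : ℝ) (L : ℕ) [NeZero L], r0 ≤ r → Rg d K0 r L → Win a A r x →
  pr p (fun O : Finset (Tor d L) => ¬ Sec O (x - δ / r ^ 2)) ≤ Real.exp (-c * r ^ d) * TT d L p x

end

end Pool.Agent.LBL
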