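import Pool.Agent.LBL.Wlk1
import Pool.Agent.LBL.Targets1

set_option autoImplicit false

/-!
# LBL, part WLK: lower bounds for the survival probability
-/

open Finset
open scoped Classical

namespace Pool.Agent.LBL

noncomputable section

namespace YPL_

/-- neighbours differ by a unit step -/
theorem nb_stp {d : ℕ} {x y : Fin d → ℤ} (h : Nb x y) : ∃ e : Fin d × Bool, y = x + stp e := by
  unfold Nb at h
  have h1 : ∃ i, x i - y i ≠ 0 := by
    by_contra hc
    push Not at hc
    rw [Finset.sum_eq_zero fun i _ => by rw [hc i, abs_zero]] at h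
    exact zero_ne_one h
  obtain ⟨i, hi⟩ := h1
  rw [← Finset.add_sum_erase _ _ (Finset.mem_univ i)] at h
  have h2 : 0 < |x i - y i| := abs_pos.mpr hi
  have h3 : 0 ≤ ∑ j ∈ Finset.univ.erase i, |x j - y j| := Finset.sum_nonneg fun j _ => abs_nonneg _
  have h4 : |x i - y i| = 1 := by omega
  have h5 : ∑ j ∈ Finset.univ.erase i, |x j - y j| = 0 := by omega
  have h6 : ∀ j, j ≠ i → x j = y j := by
    intro j hj
    have h7 := (Finset.sum_eq_zero_iff_of_nonneg fun j _ => abs_nonneg _).mp h5 j
      (Finset.mem_erase.mpr ⟨hj, Finset.mem_univ j⟩)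
    exact sub_eq_zero.mp (abs_eq_zero.mp h7)
  rcases abs_eq (zero_le_one) |>.mp h4 with h7 | h7
  · refine ⟨(i, false), ?_⟩
    funext j
    by_cases hj : j = i
    · subst hj
      simp [stp, ev]
      omega
    · simp [stp, ev, Pi.single_eq_of_ne hj, h6 j hj]
  · refine ⟨(i, true), ?_⟩
    funext j
    by_cases hj : j = i
    · subst hj
      simp [stp, ev]
      omega
    · simp [stp, ev, Pi.single_eq_of_ne hj, h6 j hj]

theorem rec_alv (h : T_YRC) {d : ℕ} (hd : 1 ≤ d) (ω : Env d) (n : ℕ) (x : Fin d → ℤ)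
    (hx : ω x = true) :
    wk x (n + 1) (alv ω (n + 1)) = (∑ e : Fin d × Bool, wk (x + stp e) n (alv ω n)) / (2 * d) := by
  rw [(h d hd x (n + 1)).1, (h d hd x n).2.1]
  congr 1
  refine Finset.sum_congr rfl fun e _ => ?_
  rw [(h d hd (x + stp e) n).1]
  congr 1
  funext u
  have h1 : alv ω (n + 1) (fun k => if k = 0 then x else u (k - 1)) ↔ alv ω n u := by
    constructor
    · intro h2 k hk
      have h3 := h2 (k + 1) (by omega)
      simpa using h3
    · intro h2 k hk
      rcases k with _ | k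
      · simpa using hx
      · simpa using h2 k (by omega)
  by_cases h2 : alv ω n u
  · rw [if_pos h2, if_pos (h1.mpr h2)]
  · rw [if_neg h2, if_neg (fun h3 => h2 (h1.mp h3))]

theorem mono_alv (h : T_YRC) {d : ℕ} (hd : 1 ≤ d) (ω : Env d) (n : ℕ) (x : Fin d → ℤ) :
    wk x (n + 1) (alv ω (n + 1)) ≤ wk x n (alv ω n) := by
  rw [← (h d hd x n).2.2.2.2.2.2.2.1 (alv ω n) (n + 1) (by omega) (by
    intro u u' huu hu k hk
    rw [← huu k hk]
    exact hu k hk)]
  refine (h d hd x (n + 1)).2.2.2.2.1 _ _ ?_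
  intro u _ _ hu k hk
  exact hu k (by omega)

theorem step (h : T_YRC) {d : ℕ} (hd : 1 ≤ d) (ω : Env d) (n : ℕ) (x y : Fin d → ℤ)
    (hx : ω x = true) (hxy : Nb x y) :
    wk y n (alv ω n) / (2 * d) ≤ wk x n (alv ω n) := by
  refine le_trans ?_ (mono_alv h hd ω n x)
  rw [rec_alv h hd ω n x hx]
  obtain ⟨e, he⟩ := nb_stp hxy
  have hd' : (0 : ℝ) < 2 * d := by
    have : (0 : ℝ) < d := by exact_mod_cast hd
    positivity
  refine div_le_div_of_nonneg_right ?_ hd'.le
  rw [he]
  exact Finset.single_le_sum (f := fun e : Fin d × Bool => wk (x + stp e) n (alv ω n))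
    (fun e _ => (h d hd (x + stp e) n).2.2.2.2.2.2.1 _) (Finset.mem_univ e)

end YPL_

open YPL_

theorem p_YPL (h_YRC : T_YRC) (h_TOP : T_TOP) : T_YPL := by
  intro d ω hd
  have hd' : (0 : ℝ) < 2 * d := by
    have : (0 : ℝ) < d := by exact_mod_cast hd
    positivity
  constructor
  · intro k n x z hP
    induction k generalizing x with
    | zero =>
      obtain ⟨u, h0, h1, _, _⟩ := hP
      rw [pow_zero, div_one, ← h0, ← h1]
    | succ k ih =>
      obtain ⟨u, h0, h1, h2, h3⟩ := hP
      have h4 : Pth ω k (u 1) z := by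
        refine ⟨fun j => u (j + 1), rfl, h1, fun j hj => h2 (j + 1) (by omega), fun j hj => ?_⟩
        exact h3 (j + 1) (by omega)
      have h5 := ih (u 1) h4
      have h6 : wk (u 1) n (alv ω n) / (2 * d) ≤ wk x n (alv ω n) := by
        refine step h_YRC hd ω n x (u 1) ?_ ?_
        · rw [← h0]; exact h2 0 (by omega)
        · have := h3 0 (by omega)
          rwa [h0] at this
      refine le_trans ?_ h6
      rw [pow_succ, ← div_div]
      exact div_le_div_of_nonneg_right h5 hd'.le
  · intro V hV hω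
    obtain ⟨φ, hφ⟩ := h_TOP d ℤ V hd hV
    obtain ⟨z, hz, hmax⟩ := Finset.exists_max_image V φ hV
    have hpos : 0 < φ z := by
      by_contra hc
      have h0 : ∀ x ∈ V, φ x = 0 := fun x hx =>
        le_antisymm ((hmax x hx).trans (not_lt.mp hc)) (hφ.nn x)
      have h1 := hφ.nm
      rw [Finset.sum_eq_zero fun x hx => by rw [h0 x hx]; norm_num] at h1
      exact zero_ne_one h1
    have key : ∀ n : ℕ, ∀ x ∈ V, lam V ^ n * φ x ≤ φ z * wk x n (alv ω n) := by
      intro n
      induction n with
      | zero =>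
        intro x hx
        have h1 : wk x 0 (fun _ => True) ≤ wk x 0 (alv ω 0) := by
          refine (h_YRC d hd x 0).2.2.2.2.1 _ _ ?_
          intro u hu _ _ k hk
          have hk0 : k = 0 := by omega
          rw [hk0, hu]
          exact hω x hx
        rw [(h_YRC d hd x 0).2.2.2.2.2.1] at h1
        rw [pow_zero, one_mul]
        calc φ x ≤ φ z := hmax x hx
          _ = φ z * 1 := (mul_one _).symm
          _ ≤ φ z * wk x 0 (alv ω 0) := mul_le_mul_of_nonneg_left h1 hpos.le
      | succ n ih =>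
        intro x hx
        rw [rec_alv h_YRC hd ω n x (hω x hx)]
        have h1 : ∀ e : Fin d × Bool,
            lam V ^ n * φ (x + stp e) ≤ φ z * wk (x + stp e) n (alv ω n) := by
          intro e
          by_cases he : x + stp e ∈ V
          · exact ih _ he
          · rw [hφ.sp _ he, mul_zero]
            exact mul_nonneg hpos.le ((h_YRC d hd (x + stp e) n).2.2.2.2.2.2.1 _)
        have h2 : lam V ^ n * (2 * d * P0 φ x) ≤
            φ z * ∑ e : Fin d × Bool, wk (x + stp e) n (alv ω n) := by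
          rw [← (h_YRC d hd x n).2.2.1 φ, Finset.mul_sum, Finset.mul_sum]
          exact Finset.sum_le_sum fun e _ => h1 e
        rw [hφ.eq x hx] at h2
        rw [mul_div_assoc', le_div_iff₀ hd']
        calc lam V ^ (n + 1) * φ x * (2 * d) = lam V ^ n * (2 * d * (lam V * φ x)) := by ring
          _ ≤ _ := h2
    refine ⟨z, hz, fun n => ?_⟩
    have h1 := key n z hz
    rw [mul_comm] at h1
    exact le_of_mul_le_mul_left h1 hpos

end

end Pool.Agent.LBL
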