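import Pool.Agent.LBL.Wlk1
import Pool.Agent.LBL.Targets1

set_option autoImplicit false

/-!
# LBL-YRC: elementary facts on walk sums
-/

open Finset
open scoped Classical

namespace Pool.Agent.LBL

noncomputable section

namespace YRC_

variable {d : ℕ}

theorem trj_zero {n : ℕ} (x : Fin d → ℤ) (s : Fin n → Fin d × Bool) : trj x s 0 = x := by
  unfold trj
  simp

theorem trj_cons {n : ℕ} (x : Fin d → ℤ) (e : Fin d × Bool) (s : Fin n → Fin d × Bool) :
    trj x (Fin.cons e s : Fin (n + 1) → Fin d × Bool) =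
      fun k => if k = 0 then x else trj (x + stp e) s (k - 1) := by
  funext k
  by_cases hk : k = 0
  · rw [if_pos hk, hk, trj_zero]
  · rw [if_neg hk]
    unfold trj
    rw [Fin.sum_univ_succ]
    simp only [Fin.val_zero, Fin.cons_zero, Fin.val_succ, Fin.cons_succ]
    rw [if_pos (Nat.pos_of_ne_zero hk), add_assoc]
    congr 2
    refine Finset.sum_congr rfl fun j _ => ?_
    have h : ((j : ℕ) + 1 < k) ↔ ((j : ℕ) < k - 1) := by omega
    simp only [h]

theorem trj_step {n : ℕ} (x : Fin d → ℤ) (s : Fin n → Fin d × Bool) (j : ℕ) (hj : j < n) :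
    trj x s (j + 1) = trj x s j + stp (s ⟨j, hj⟩) := by
  unfold trj
  rw [add_assoc]
  congr 1
  have h : ∀ i : Fin n, (if (i : ℕ) < j + 1 then stp (s i) else 0) =
      (if (i : ℕ) < j then stp (s i) else 0) + (if i = ⟨j, hj⟩ then stp (s i) else 0) := by
    intro i
    rcases lt_trichotomy (i : ℕ) j with h | h | h
    · have h1 : i ≠ ⟨j, hj⟩ := fun h' => by
        rw [h'] at h
        exact absurd h (lt_irrefl _)
      rw [if_pos (by omega), if_pos h, if_neg h1, add_zero]
    · have h1 : i = ⟨j, hj⟩ := Fin.ext h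
      rw [if_pos (by omega), if_neg (by omega), if_pos h1, zero_add]
    · have h1 : i ≠ ⟨j, hj⟩ := fun h' => by
        rw [h'] at h
        exact absurd h (lt_irrefl _)
      rw [if_neg (by omega), if_neg (by omega), if_neg h1, add_zero]
  rw [Finset.sum_congr rfl fun i _ => h i, Finset.sum_add_distrib, Finset.sum_ite_eq']
  simp

theorem nb_stp (x : Fin d → ℤ) (e : Fin d × Bool) : Nb x (x + stp e) := by
  obtain ⟨i, b⟩ := e
  unfold Nb
  have h : ∀ k, |x k - (x + stp (i, b)) k| = if k = i then 1 else 0 := by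
    intro k
    rw [Pi.add_apply, sub_add_cancel_left, abs_neg]
    cases b
    · simp only [stp, Bool.false_eq_true, if_false, Pi.neg_apply, abs_neg, ev]
      by_cases hk : k = i
      · subst hk
        simp
      · simp [hk]
    · simp only [stp, if_true, ev]
      by_cases hk : k = i
      · subst hk
        simp
      · simp [hk]
  rw [Finset.sum_congr rfl fun k _ => h k]
  simp

theorem trj_ok {n : ℕ} (x : Fin d → ℤ) (s : Fin n → Fin d × Bool) :
    trj x s 0 = x ∧ ∀ j < n, Nb (trj x s j) (trj x s (j + 1)) := by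
  refine ⟨trj_zero x s, fun j hj => ?_⟩
  rw [trj_step x s j hj]
  exact nb_stp _ _

theorem wk_eq (x : Fin d → ℤ) (n : ℕ) (E : (ℕ → Fin d → ℤ) → Prop) :
    wk x n E = wx x n (fun u => if E u then 1 else 0) := by
  unfold wk wx
  rw [Finset.sum_boole]

theorem wx_succ (x : Fin d → ℤ) (n : ℕ) (G : (ℕ → Fin d → ℤ) → ℝ) :
    wx x (n + 1) G = (∑ e : Fin d × Bool,
      wx (x + stp e) n (fun u => G (fun k => if k = 0 then x else u (k - 1)))) / (2 * d) := by
  unfold wx
  rw [← Finset.sum_div, div_div, ← pow_succ]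
  congr 1
  rw [← Fintype.sum_prod_type']
  symm
  refine Fintype.sum_equiv (Fin.consEquiv fun _ => Fin d × Bool) _ _ fun p => ?_
  obtain ⟨e, s⟩ := p
  change _ = G (trj x (Fin.cons e s : Fin (n + 1) → Fin d × Bool))
  rw [trj_cons]

theorem wx_mono {x : Fin d → ℤ} {n : ℕ} {G G' : (ℕ → Fin d → ℤ) → ℝ}
    (h : ∀ u : ℕ → Fin d → ℤ, u 0 = x → (∀ j < n, Nb (u j) (u (j + 1))) → G u ≤ G' u) :
    wx x n G ≤ wx x n G' := by
  unfold wx
  refine div_le_div_of_nonneg_right (Finset.sum_le_sum fun s _ => ?_) (by positivity)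
  exact h _ (trj_ok x s).1 (trj_ok x s).2

theorem wx_const (hd : 1 ≤ d) (x : Fin d → ℤ) (n : ℕ) (c : ℝ) : wx x n (fun _ => c) = c := by
  have hd0 : (0 : ℝ) < d := by exact_mod_cast (show 0 < d by omega)
  unfold wx
  rw [Finset.sum_const, Finset.card_univ, Fintype.card_fun, Fintype.card_prod, Fintype.card_fin,
    Fintype.card_bool, Fintype.card_fin, nsmul_eq_mul]
  push_cast
  rw [mul_comm (d : ℝ) 2]
  field_simp

theorem wx_stab (hd : 1 ≤ d) (n : ℕ) : ∀ (x : Fin d → ℤ) (m : ℕ) (G : (ℕ → Fin d → ℤ) → ℝ), n ≤ m →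
    (∀ u u' : ℕ → Fin d → ℤ, (∀ k ≤ n, u k = u' k) → G u = G u') → wx x m G = wx x n G := by
  induction n with
  | zero =>
    intro x m G _ hG
    have h : ∀ n : ℕ, wx x n G = G fun _ => x := by
      intro n
      rw [← wx_const hd x n (G fun _ => x)]
      unfold wx
      congr 1
      refine Finset.sum_congr rfl fun s _ => hG _ _ fun k hk => ?_
      obtain rfl : k = 0 := by omega
      exact trj_zero x s
    rw [h, h]
  | succ n ih =>
    intro x m G hm hG
    obtain ⟨m, rfl⟩ : ∃ m', m = m' + 1 := ⟨m - 1, by omega⟩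
    rw [wx_succ, wx_succ]
    congr 1
    refine Finset.sum_congr rfl fun e _ => ih _ _ _ (by omega) fun u u' h => hG _ _ fun k hk => ?_
    by_cases hk0 : k = 0
    · simp only [hk0, if_true]
    · simp only [hk0, if_false]
      exact h (k - 1) (by omega)

end YRC_

open YRC_ in
theorem p_YRC : T_YRC := by
  intro d hd x n
  have hd0 : (0 : ℝ) < d := by exact_mod_cast (show 0 < d by omega)
  refine ⟨fun E => wk_eq x n E, fun G => wx_succ x n G, ?_, fun G G' h => wx_mono h, ?_, ?_, ?_, ?_, ?_⟩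
  · intro F
    rw [Fintype.sum_prod_type]
    unfold P0
    rw [mul_div_cancel₀ _ (by positivity)]
    refine Finset.sum_congr rfl fun i _ => ?_
    rw [Fintype.sum_bool]
    simp only [stp, if_true, Bool.false_eq_true, if_false]
    rw [sub_eq_add_neg]
  · intro E E' h
    rw [wk_eq, wk_eq]
    refine wx_mono fun u h0 h1 => ?_
    by_cases hE : E u
    · rw [if_pos hE, if_pos (h u h0 h1 hE)]
    · rw [if_neg hE]
      split_ifs <;> norm_num
  · rw [wk_eq]
    simp only [if_true]
    exact wx_const hd x n 1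
  · intro E
    unfold wk
    positivity
  · intro E m hm h
    rw [wk_eq, wk_eq]
    refine wx_stab hd n x m _ hm fun u u' huu => ?_
    have h1 : E u ↔ E u' := ⟨h u u' huu, h u' u fun k hk => (huu k hk).symm⟩
    simp only [h1]
  · intro I s E E' h
    rw [wk_eq]
    have h1 : ∑ i ∈ s, wk x n (E' i) = wx x n (fun u => ∑ i ∈ s, if E' i u then (1 : ℝ) else 0) := by
      rw [Finset.sum_congr rfl fun i _ => wk_eq x n (E' i)]
      unfold wx
      rw [← Finset.sum_div, Finset.sum_comm]
    rw [h1]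
    refine wx_mono fun u h0 h2 => ?_
    have hnn : ∀ i ∈ s, (0 : ℝ) ≤ if E' i u then 1 else 0 := by
      intro i _
      split_ifs <;> norm_num
    by_cases hE : E u
    · rw [if_pos hE]
      obtain ⟨i, hi, hi'⟩ := h u h0 h2 hE
      have := Finset.single_le_sum hnn hi
      rwa [if_pos hi'] at this
    · rw [if_neg hE]
      exact Finset.sum_nonneg hnn

end

end Pool.Agent.LBL
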