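import Pool.Agent.LBL.Wlk2
import Pool.Agent.LBL.P_PRB
import Pool.Agent.LBL.P_YPL
import Pool.Agent.LBL.P_YRC

set_option autoImplicit false

/-!
# LBL, part WLK: probability of bad block paths (T_YBP)
-/

open Finset MeasureTheory Filter Topology
open scoped Classical

namespace Pool.Agent.LBL

noncomputable section

namespace YBP_

/-- the sites of a block -/
def bs {d : ℕ} (l : ℕ) (b : Fin d → ℤ) : Finset (Fin d → ℤ) := boxF (fun i => (l : ℤ) * b i) l

lemma mem_bs {d l : ℕ} (hl : 1 ≤ l) (b y : Fin d → ℤ) : y ∈ bs l b ↔ blk l y = b := by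
  have hl' : (0 : ℤ) < l := by exact_mod_cast hl
  unfold bs boxF blk
  rw [Fintype.mem_piFinset]
  constructor
  · intro h
    funext i
    have h1 := Finset.mem_Ico.1 (h i)
    have h2 : b i ≤ y i / (l : ℤ) := by
      rw [Int.le_ediv_iff_mul_le hl']
      linarith [h1.1]
    have h3 : y i / (l : ℤ) < b i + 1 := by
      rw [Int.ediv_lt_iff_lt_mul hl']
      linarith [h1.2]
    omega
  · intro h i
    have h1 : y i / (l : ℤ) = b i := congrFun h i
    have h2 : b i ≤ y i / (l : ℤ) := h1.ge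
    have h3 : y i / (l : ℤ) < b i + 1 := by omega
    rw [Int.le_ediv_iff_mul_le hl'] at h2
    rw [Int.ediv_lt_iff_lt_mul hl'] at h3
    rw [Finset.mem_Ico]
    constructor
    · linarith
    · linarith

lemma card_bs {d : ℕ} (l : ℕ) (b : Fin d → ℤ) : (bs l b).card = l ^ d := by
  unfold bs boxF
  simp

lemma card_cub (d R : ℕ) : (cub d R).card = (2 * R + 1) ^ d := by
  unfold cub
  have h : ((R : ℤ) + 1 + (R : ℤ)).toNat = 2 * R + 1 := by omega
  simp [h]

lemma mem_cub {d : ℕ} (R : ℕ) (x : Fin d → ℤ) (h : nrm x ≤ R) : x ∈ cub d R := by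
  unfold cub
  rw [Fintype.mem_piFinset]
  intro i
  have h1 : (x i).natAbs ≤ R :=
    (Finset.le_sup (f := fun i => (x i).natAbs) (Finset.mem_univ i)).trans h
  rw [Finset.mem_Icc]
  omega

lemma path {d k : ℕ} (hd : 1 ≤ d) (γ : ℕ → Fin d → ℤ)
    (h : ∀ i, i + 1 < k → Nb (γ i) (γ (i + 1))) :
    ∃ s : Fin k → Fin d × Bool, ∀ i < k, trj (γ 0) s i = γ i := by
  have h1 : ∀ i : Fin k, ∃ e : Fin d × Bool, (i : ℕ) + 1 < k → γ (i + 1) = γ i + stp e := by
    intro i
    by_cases hi : (i : ℕ) + 1 < k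
    · obtain ⟨e, he⟩ := YPL_.nb_stp (h i hi)
      exact ⟨e, fun _ => he⟩
    · exact ⟨(⟨0, hd⟩, true), fun h' => absurd h' hi⟩
  choose s hs using h1
  refine ⟨s, fun i => ?_⟩
  induction i with
  | zero =>
    intro _
    exact YRC_.trj_zero _ _
  | succ i ih =>
    intro hi
    rw [YRC_.trj_step _ _ i (by omega), ih (by omega)]
    exact (hs ⟨i, by omega⟩ hi).symm

/-- all sites of a finite set are open -/
lemma open_pr (h_YBR : T_YBR) {d : ℕ} {p : ℝ} (h0 : 0 < p) (h1 : p < 1)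
    (V : Finset (Fin d → ℤ)) :
    (PP d p).real {ω : Env d | ∀ y ∈ V, ω y = true} = p ^ V.card := by
  have h := h_YBR V d p (fun x => (x : Fin d → ℤ)) (fun O => Finset.univ ⊆ O) h0.le h1.le
    Subtype.val_injective
  rw [PRB_.pr_subset] at h
  have h2 : {ω : Env d | ∀ y ∈ V, ω y = true} =
      {ω : Env d | Finset.univ ⊆ Finset.univ.filter fun x : V => ω (x : Fin d → ℤ) = true} := by
    ext ω
    simp only [Set.mem_ofPred_eq]
    constructor
    · intro hω x _
      rw [Finset.mem_filter]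
      exact ⟨Finset.mem_univ _, hω x x.2⟩
    · intro hω y hy
      exact (Finset.mem_filter.1 (hω (Finset.mem_univ (⟨y, hy⟩ : V)))).2
  rw [h2, h, Finset.card_univ, Fintype.card_coe]

end YBP_

open YBP_ in
/-- bad block paths -/
theorem p_YBP (h_YBR : T_YBR) : T_YBP := by
  intro d p l k R hd h0 h1 hl
  have hPP := PP_prob d h0.le h1.le
  set V : (Fin d → ℤ) × (Fin k → Fin d × Bool) × Finset ℕ → Finset (Fin d → ℤ) :=
    fun t => t.2.2.biUnion fun i => bs l (trj t.1 t.2.1 i) with hV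
  set T : Finset ((Fin d → ℤ) × (Fin k → Fin d × Bool) × Finset ℕ) :=
    ((cub d R) ×ˢ ((Finset.univ : Finset (Fin k → Fin d × Bool)) ×ˢ
      (Finset.range k).powerset)).filter fun t =>
      (k : ℝ) / 2 ≤ (t.2.2.card : ℝ) ∧
      ∀ i ∈ t.2.2, ∀ j ∈ t.2.2, trj t.1 t.2.1 i = trj t.1 t.2.1 j → i = j with hT
  have hcov : {ω : Env d | ¬ BK ω l k R} ⊆ ⋃ t ∈ T, {ω : Env d | ∀ y ∈ V t, ω y = true} := by
    intro ω hω
    rw [Set.mem_ofPred_eq] at hω
    unfold BK at hω
    push Not at hω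
    obtain ⟨γ, hg1, hg2, hg3, hg4⟩ := hω
    obtain ⟨s, hs⟩ := path hd γ hg3
    set B : Finset ℕ := (Finset.range k).filter fun i => ¬ kil ω l (γ i) with hB
    have hBk : ∀ i ∈ B, i < k := fun i hi =>
      Finset.mem_range.1 (Finset.mem_of_mem_filter i hi)
    have hcard : (B.card : ℝ) + (((Finset.range k).filter fun i => kil ω l (γ i)).card : ℝ) =
        k := by
      have := Finset.card_filter_add_card_filter_not (s := Finset.range k)
        (fun i => kil ω l (γ i))
      rw [Finset.card_range] at this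
      rw [hB]
      exact_mod_cast (by omega)
    rw [Set.mem_iUnion₂]
    refine ⟨(γ 0, s, B), ?_, ?_⟩
    · rw [hT, Finset.mem_filter, Finset.mem_product, Finset.mem_product, Finset.mem_powerset]
      refine ⟨⟨mem_cub R _ hg1, Finset.mem_univ _, Finset.filter_subset _ _⟩, by linarith, ?_⟩
      intro i hi j hj hij
      rw [hs i (hBk i hi), hs j (hBk j hj)] at hij
      exact hg2 i (hBk i hi) j (hBk j hj) hij
    · rw [Set.mem_ofPred_eq]
      intro y hy
      rw [hV] at hy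
      obtain ⟨i, hi, hyi⟩ := Finset.mem_biUnion.1 hy
      have hi' : i ∈ B := hi
      rw [mem_bs hl, hs i (hBk i hi')] at hyi
      have hk := (Finset.mem_filter.1 hi').2
      by_contra hc
      exact hk ⟨y, hyi, by simpa using hc⟩
  have hbound : ∀ t ∈ T, (PP d p).real {ω : Env d | ∀ y ∈ V t, ω y = true} ≤
      (p ^ ((l : ℝ) ^ d / 2)) ^ k := by
    intro t ht
    rw [hT, Finset.mem_filter] at ht
    obtain ⟨-, ht1, ht2⟩ := ht
    rw [open_pr h_YBR h0 h1]
    have hc : (V t).card = t.2.2.card * l ^ d := by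
      rw [hV]
      show (t.2.2.biUnion fun i => bs l (trj t.1 t.2.1 i)).card = _
      rw [Finset.card_biUnion]
      · simp only [card_bs, Finset.sum_const, smul_eq_mul]
      · intro i hi j hj hij
        show Disjoint (bs l (trj t.1 t.2.1 i)) (bs l (trj t.1 t.2.1 j))
        rw [Finset.disjoint_left]
        intro y hy1 hy2
        rw [mem_bs hl] at hy1 hy2
        exact hij (ht2 i hi j hj (hy1.symm.trans hy2))
    rw [hc, ← Real.rpow_mul_natCast h0.le, ← Real.rpow_natCast]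
    apply Real.rpow_le_rpow_of_exponent_ge h0 h1.le
    have hld : (0 : ℝ) ≤ (l : ℝ) ^ d := by positivity
    push_cast
    nlinarith
  have hTc : (T.card : ℝ) ≤ (2 * R + 1) ^ d * (4 * d) ^ k := by
    have h2 : T.card ≤ (2 * R + 1) ^ d * ((d * 2) ^ k * 2 ^ k) := by
      rw [hT]
      refine (Finset.card_filter_le _ _).trans ?_
      rw [Finset.card_product, Finset.card_product, card_cub, Finset.card_univ,
        Finset.card_powerset, Finset.card_range]
      simp
    have h3 : ((d * 2) ^ k * 2 ^ k : ℝ) = (4 * d) ^ k := by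
      rw [← mul_pow]
      congr 1
      ring
    rw [← h3]
    exact_mod_cast h2
  have hP0 : (0 : ℝ) ≤ (p ^ ((l : ℝ) ^ d / 2)) ^ k := by positivity
  calc (PP d p).real {ω : Env d | ¬ BK ω l k R}
      ≤ (PP d p).real (⋃ t ∈ T, {ω : Env d | ∀ y ∈ V t, ω y = true}) :=
        measureReal_mono hcov (measure_ne_top _ _)
    _ ≤ ∑ t ∈ T, (PP d p).real {ω : Env d | ∀ y ∈ V t, ω y = true} :=
        measureReal_biUnion_finset_le _ _
    _ ≤ ∑ _t ∈ T, (p ^ ((l : ℝ) ^ d / 2)) ^ k := Finset.sum_le_sum hbound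
    _ = T.card * (p ^ ((l : ℝ) ^ d / 2)) ^ k := by rw [Finset.sum_const, nsmul_eq_mul]
    _ ≤ ((2 * R + 1) ^ d * (4 * d) ^ k) * (p ^ ((l : ℝ) ^ d / 2)) ^ k :=
        mul_le_mul_of_nonneg_right hTc hP0
    _ = (2 * R + 1) ^ d * (4 * d * p ^ ((l : ℝ) ^ d / 2)) ^ k := by
        rw [mul_assoc, ← mul_pow]

end

end Pool.Agent.LBL
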