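import Pool.Agent.LBL.Wlk2

set_option autoImplicit false

/-!
# LBL-YBR: bridge between the infinite product measure and `pr`
-/

open Finset MeasureTheory Filter Topology
open scoped Classical

namespace Pool.Agent.LBL

noncomputable section

namespace YBR_

theorem bern_true (p : ℝ) : bern p {true} = ENNReal.ofReal p := by
  simp [bern]

theorem bern_false (p : ℝ) : bern p {false} = ENNReal.ofReal (1 - p) := by
  simp [bern]

/-- the values prescribed by `O` -/
def val {X : Type} {d : ℕ} (e : X → Fin d → ℤ) (O : Finset X) (z : Fin d → ℤ) : Set Bool :=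
  if ∃ x ∈ O, e x = z then {true} else {false}

/-- the cylinder of `O` -/
def cyl {X : Type} [Fintype X] {d : ℕ} (e : X → Fin d → ℤ) (O : Finset X) : Set (Env d) :=
  Set.pi ((Finset.univ.image e : Finset (Fin d → ℤ)) : Set (Fin d → ℤ)) (val e O)

theorem val_e {X : Type} {d : ℕ} {e : X → Fin d → ℤ} (he : Function.Injective e) (O : Finset X)
    (x : X) : val e O (e x) = if x ∈ O then {true} else {false} := by
  unfold val
  have h : (∃ y ∈ O, e y = e x) ↔ x ∈ O := by
    constructor
    · rintro ⟨y, hy, h⟩
      rw [← he h]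
      exact hy
    · intro h
      exact ⟨x, h, rfl⟩
  simp only [h]

theorem mem_cyl {X : Type} [Fintype X] {d : ℕ} {e : X → Fin d → ℤ} (he : Function.Injective e)
    (O : Finset X) (ω : Env d) :
    ω ∈ cyl e O ↔ (Finset.univ.filter fun x => ω (e x) = true) = O := by
  unfold cyl
  rw [Set.mem_pi]
  constructor
  · intro h
    ext x
    rw [Finset.mem_filter]
    have h1 := h (e x) (by
      rw [Finset.mem_coe, Finset.mem_image]
      exact ⟨x, Finset.mem_univ _, rfl⟩)
    rw [val_e he] at h1
    by_cases hx : x ∈ O
    · rw [if_pos hx, Set.mem_singleton_iff] at h1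
      simp [h1, hx]
    · rw [if_neg hx, Set.mem_singleton_iff] at h1
      simp [h1, hx]
  · intro h z hz
    rw [Finset.mem_coe, Finset.mem_image] at hz
    obtain ⟨x, _, rfl⟩ := hz
    rw [val_e he]
    have h1 : x ∈ O ↔ ω (e x) = true := by
      rw [← h]
      simp
    by_cases hx : x ∈ O
    · rw [if_pos hx, Set.mem_singleton_iff]
      exact h1.1 hx
    · rw [if_neg hx, Set.mem_singleton_iff]
      have h2 : ¬ ω (e x) = true := fun h3 => hx (h1.2 h3)
      simpa using h2

theorem meas_cyl {X : Type} [Fintype X] {d : ℕ} (e : X → Fin d → ℤ) (O : Finset X) :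
    MeasurableSet (cyl e O) :=
  MeasurableSet.pi (Finset.countable_toSet _) fun _ _ => MeasurableSet.of_discrete

theorem PP_cyl {X : Type} [Fintype X] {d : ℕ} {p : ℝ} (h0 : 0 ≤ p) (h1 : p ≤ 1)
    {e : X → Fin d → ℤ} (he : Function.Injective e) (O : Finset X) :
    (PP d p).real (cyl e O) = wt p O := by
  have hb := bern_prob h0 h1
  have h2 : PP d p (cyl e O) = ∏ x : X, bern p (val e O (e x)) := by
    unfold PP cyl
    rw [Measure.infinitePi_pi]
    · rw [Finset.prod_image fun x _ y _ h => he h]
    · intro _ _
      exact MeasurableSet.of_discrete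
  rw [measureReal_def, h2]
  have h3 : ∀ x : X, bern p (val e O (e x)) = ENNReal.ofReal (if x ∈ O then p else 1 - p) := by
    intro x
    rw [val_e he]
    split_ifs
    · exact bern_true p
    · exact bern_false p
  rw [Finset.prod_congr rfl fun x _ => h3 x, ENNReal.toReal_prod]
  have h4 : ∀ x : X, (ENNReal.ofReal (if x ∈ O then p else 1 - p)).toReal =
      if x ∈ O then p else 1 - p := by
    intro x
    apply ENNReal.toReal_ofReal
    split_ifs
    · exact h0
    · linarith
  rw [Finset.prod_congr rfl fun x _ => h4 x, Finset.prod_ite, Finset.prod_const, Finset.prod_const]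
  unfold wt
  have h5 : (Finset.univ.filter fun x : X => x ∈ O) = O := by
    ext x
    simp
  have h6 : (Finset.univ.filter fun x : X => x ∉ O) = Oᶜ := by
    ext x
    simp
  rw [h5, h6, Finset.card_compl]

end YBR_

theorem p_YBR : T_YBR := by
  intro X _ d p e A h0 h1 he
  have hPP := PP_prob d h0 h1
  have hset : {ω : Env d | A (Finset.univ.filter fun x => ω (e x) = true)} =
      ⋃ O ∈ Finset.univ.filter (fun O : Finset X => A O), YBR_.cyl e O := by
    ext ω
    simp only [Set.mem_ofPred_eq, Set.mem_iUnion, Finset.mem_filter, Finset.mem_univ, true_and,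
      exists_prop, YBR_.mem_cyl he]
    constructor
    · intro h
      exact ⟨_, h, rfl⟩
    · rintro ⟨O, hO, rfl⟩
      exact hO
  rw [hset, measureReal_biUnion_finset]
  · unfold pr
    rw [Finset.sum_filter]
    refine Finset.sum_congr rfl fun O _ => ?_
    rw [YBR_.PP_cyl h0 h1 he]
  · intro O _ O' _ hne
    rw [Function.onFun, Set.disjoint_left]
    intro ω h h'
    rw [YBR_.mem_cyl he] at h h'
    exact hne (h.symm.trans h')
  · intro O _
    exact YBR_.meas_cyl e O

end

end Pool.Agent.LBL
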