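import Pool.Agent.LBL.Wlk1
import Pool.Agent.LBL.Targets1
import Pool.Agent.LBL.P_LVN

set_option autoImplicit false
set_option linter.unusedSectionVars false

/-!
# LBL-YBU: bulk points with an open neighbourhood
-/

open Finset
open scoped Classical

namespace Pool.Agent.LBL

noncomputable section

namespace YBU_

variable {d L : ℕ} [NeZero L]


theorem mem_succ {O : Finset (Tor d L)} {m : ℕ} {x : Tor d L} (h : x ∈ hol (m + 1) O) :
    x ∈ hol m O ∧ ∀ i : Fin d, x + ev i ∈ hol m O ∧ x - ev i ∈ hol m O := by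
  unfold hol at h
  rw [Function.iterate_succ_apply'] at h
  unfold ero at h
  rw [Finset.mem_filter] at h
  exact h

theorem anti {O : Finset (Tor d L)} {k : ℕ} {x : Tor d L} (m : ℕ) (h : x ∈ hol (m + k) O) :
    x ∈ hol k O := by
  induction m with
  | zero => rwa [Nat.zero_add] at h
  | succ m ih =>
    apply ih
    have : m + 1 + k = (m + k) + 1 := by omega
    rw [this] at h
    exact (mem_succ h).1

theorem line_nat {O : Finset (Tor d L)} (i : Fin d) (m : ℕ) : ∀ (k c : ℕ) (x : Tor d L), c ≤ m →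
    x ∈ hol (m + k) O → x + c • ev i ∈ hol k O ∧ x - c • ev i ∈ hol k O := by
  induction m with
  | zero =>
    intro k c x hc h
    obtain rfl : c = 0 := by omega
    rw [Nat.zero_add] at h
    simpa using h
  | succ m ih =>
    intro k c x hc h
    have e : m + 1 + k = (m + k) + 1 := by omega
    rw [e] at h
    rcases Nat.eq_zero_or_pos c with h0 | h0
    · subst h0
      have := anti m (mem_succ h).1
      simpa using this
    · obtain ⟨c', rfl⟩ : ∃ c', c = c' + 1 := ⟨c - 1, by omega⟩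
      have h1 := (ih k c' (x + ev i) (by omega) ((mem_succ h).2 i).1).1
      have h2 := (ih k c' (x - ev i) (by omega) ((mem_succ h).2 i).2).2
      refine ⟨?_, ?_⟩
      · have : x + (c' + 1) • ev i = x + ev i + c' • ev i := by rw [succ_nsmul]; abel
        rw [this]
        exact h1
      · have : x - (c' + 1) • ev i = x - ev i - c' • ev i := by rw [succ_nsmul]; abel
        rw [this]
        exact h2

theorem line_int {O : Finset (Tor d L)} (i : Fin d) (m k : ℕ) (c : ℤ) (x : Tor d L)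
    (hc : c.natAbs ≤ m) (h : x ∈ hol (m + k) O) : x + c • ev i ∈ hol k O := by
  have h1 := line_nat i m k c.natAbs x hc h
  rcases Int.natAbs_eq c with h2 | h2
  · rw [h2, natCast_zsmul]
    exact h1.1
  · rw [h2, neg_zsmul, natCast_zsmul, ← sub_eq_add_neg]
    exact h1.2

theorem sum_int {O : Finset (Tor d L)} (ρ : ℕ) (c : Fin d → ℤ) (hc : ∀ i, (c i).natAbs ≤ ρ)
    (x : Tor d L) (s : Finset (Fin d)) : ∀ k : ℕ, x ∈ hol (s.card * ρ + k) O →
    x + ∑ i ∈ s, c i • ev i ∈ hol k O := by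
  induction s using Finset.induction_on with
  | empty =>
    intro k h
    simpa using h
  | insert a s ha ih =>
    intro k h
    rw [Finset.card_insert_of_notMem ha] at h
    have e : (s.card + 1) * ρ + k = s.card * ρ + (ρ + k) := by ring
    rw [e] at h
    have h1 := line_int a ρ k (c a) _ (hc a) (ih (ρ + k) h)
    rw [Finset.sum_insert ha]
    have e2 : x + (c a • ev a + ∑ i ∈ s, c i • ev i) = x + ∑ i ∈ s, c i • ev i + c a • ev a := by
      abel
    rw [e2]
    exact h1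


theorem decomp (x y : Tor d L) :
    y = x + ∑ i : Fin d, ((y i - x i).valMinAbs : ℤ) • (ev i : Tor d L) := by
  ext j
  rw [Pi.add_apply, Finset.sum_apply, Finset.sum_eq_single j]
  · simp [ev]
  · intro i _ hij
    have : (ev i : Tor d L) j = 0 := by
      unfold ev
      exact Pi.single_eq_of_ne (fun h => hij h.symm) _
    simp [this]
  · intro h
    exact absurd (Finset.mem_univ j) h

theorem nbhd {O : Finset (Tor d L)} (ρ : ℕ) (x y : Tor d L) (h : x ∈ hol (d * ρ) O)
    (hy : td y x ≤ ρ) : y ∈ O := by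
  have h1 : ∀ i, ((y i - x i).valMinAbs).natAbs ≤ ρ := by
    intro i
    refine le_trans ?_ hy
    unfold td
    exact Finset.le_sup (f := fun i : Fin d => (y i - x i).valMinAbs.natAbs) (Finset.mem_univ i)
  have h2 := sum_int (O := O) ρ (fun i => (y i - x i).valMinAbs) h1 x Finset.univ 0 (by
    rw [Finset.card_univ, Fintype.card_fin, Nat.add_zero]
    exact h)
  rw [← decomp x y] at h2
  exact h2

end YBU_

theorem p_YBU (h_BLK : T_BLK) (h_FXM : T_FXM) (h_FLX : T_FLX) : T_YBU := by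
  intro d C hd hC
  obtain ⟨c0, r0, hc0, hr0, hB⟩ := h_BLK d C hd hC
  obtain ⟨C1, hC1, hF⟩ := h_FXM d C hd hC
  have hd1 : (1 : ℝ) ≤ d := by
    have : 1 ≤ d := by omega
    exact_mod_cast this
  have hd0 : (0 : ℝ) < 2 * d := by linarith
  refine ⟨c0 / 2, by positivity, ?_⟩
  intro ρ
  obtain ⟨K, hK⟩ : ∃ K : ℝ, (2 * (d : ℝ) + 1) ^ (d * ρ) * (2 * (d : ℝ)) ^ (d * ρ) * (2 * C1 / c0) = K :=
    ⟨_, rfl⟩
  have hK0 : 0 < K := by rw [← hK]; positivity
  refine ⟨max r0 (2 * K / c0 + 2), lt_of_lt_of_le hr0 (le_max_left _ _), ?_⟩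
  intro r L _ hr _ O φ hE
  have hr1 : r0 ≤ r := le_trans (le_max_left _ _) hr
  have hr2 : 2 * K / c0 + 2 ≤ r := le_trans (le_max_right _ _) hr
  have hKc : 0 < 2 * K / c0 := by positivity
  have hrp : 0 < r := by linarith
  have h1r : 1 < r := by linarith
  have h1 := hB r L hr1 O φ hE
  have h2 := (hF r L h1r O φ hE).1
  obtain ⟨-, hP, hFx, hG, -, -⟩ := h_FLX d L (by omega) O φ hE.top
  have hhp : 0 < hh d r := Real.rpow_pos_of_pos hrp _
  have hsq : sq d r = hh d r / r := by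
    unfold sq hh
    rw [Real.rpow_sub_one hrp.ne']
  obtain ⟨t, ht⟩ : ∃ t : ℝ, c0 / 2 * hh d r = t := ⟨_, rfl⟩
  have htp : 0 < t := by rw [← ht]; positivity
  have h3 := LVN_count O φ (by omega) hE.top.sp hFx hG (d * ρ) t htp.le
  have h4 := LVN_markov O φ hP (s := t / (2 * d) ^ (d * ρ))
  obtain ⟨B, hBd⟩ : ∃ B : ℝ, ((LVN_B O φ (t / (2 * d) ^ (d * ρ))).card : ℝ) = B := ⟨_, rfl⟩
  rw [hBd] at h3 h4
  have hB0 : 0 ≤ B := by rw [← hBd]; positivity
  have hpow : (0 : ℝ) < (2 * (d : ℝ)) ^ (d * ρ) := pow_pos hd0 _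
  have h5 : B ≤ (2 * (d : ℝ)) ^ (d * ρ) / t * (C1 * r ^ (d - 1) * sq d r) := by
    rw [div_mul_eq_mul_div, div_le_iff₀ hpow] at h4
    rw [div_mul_eq_mul_div, le_div_iff₀ htp]
    nlinarith [h4, mul_le_mul_of_nonneg_right h2 hpow.le]
  have h6 : ((LVN_S O φ t (d * ρ)).card : ℝ) ≤ K * (r ^ (d - 1) / r) := by
    have hq : (0 : ℝ) ≤ (2 * (d : ℝ) + 1) ^ (d * ρ) := by positivity
    calc ((LVN_S O φ t (d * ρ)).card : ℝ) ≤ ((2 * (d : ℝ) + 1) ^ (d * ρ) - 1) * B := h3
      _ ≤ (2 * (d : ℝ) + 1) ^ (d * ρ) * B := by nlinarith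
      _ ≤ (2 * (d : ℝ) + 1) ^ (d * ρ) *
          ((2 * (d : ℝ)) ^ (d * ρ) / t * (C1 * r ^ (d - 1) * sq d r)) :=
        mul_le_mul_of_nonneg_left h5 hq
      _ = K * (r ^ (d - 1) / r) := by
        rw [hsq, ← ht, ← hK]
        field_simp
  have h7 : r ^ (d - 1) / r ≤ r ^ d / r := by
    apply div_le_div_of_nonneg_right _ hrp.le
    exact pow_le_pow_right₀ h1r.le (by omega)
  have h7' : r ^ (d - 1) / r * r ^ 2 = r ^ d := by
    have e : d = (d - 1) + 1 := by omega
    have e2 : r ^ d = r ^ (d - 1) * r := by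
      conv_lhs => rw [e]
      rw [pow_succ]
    rw [e2]
    field_simp
  have h8 : K * (r ^ (d - 1) / r) ≤ c0 / 2 * r ^ d := by
    have h9 : 2 * K / c0 ≤ r ^ 2 := by nlinarith
    rw [div_le_iff₀ hc0] at h9
    have h10 : 0 ≤ r ^ (d - 1) / r := by positivity
    rw [← h7']
    nlinarith [mul_le_mul_of_nonneg_right h9 h10]
  -- covering
  have h11 : (Finset.univ.filter fun x => c0 * hh d r ≤ φ x) ⊆
      (Finset.univ.filter fun x => c0 / 2 * hh d r ≤ φ x ∧ ∀ y, td y x ≤ ρ → y ∈ O) ∪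
        LVN_S O φ t (d * ρ) := by
    intro x hx
    rw [Finset.mem_filter] at hx
    have hx1 : t < φ x := by
      rw [← ht]
      nlinarith [hx.2, mul_pos hc0 hhp]
    rw [Finset.mem_union]
    by_cases hm : x ∈ hol (d * ρ) O
    · left
      rw [Finset.mem_filter]
      refine ⟨Finset.mem_univ _, ?_, fun y hy => YBU_.nbhd ρ x y hm hy⟩
      rw [ht]
      exact hx1.le
    · right
      unfold LVN_S
      rw [Finset.mem_filter]
      exact ⟨Finset.mem_univ _, hx1, hm⟩
  have h12 := (Finset.card_le_card h11).trans (Finset.card_union_le _ _)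
  have h13 : ((Finset.univ.filter fun x => c0 * hh d r ≤ φ x).card : ℝ) ≤
      ((Finset.univ.filter fun x => c0 / 2 * hh d r ≤ φ x ∧ ∀ y, td y x ≤ ρ → y ∈ O).card : ℝ) +
        ((LVN_S O φ t (d * ρ)).card : ℝ) := by
    exact_mod_cast h12
  linarith

end

end Pool.Agent.LBL
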