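import Pool.Agent.LBL.Wlk2
import Pool.Agent.LBL.Targets1

set_option autoImplicit false

/-!
# LBL, T_YBX: box and torus (tails of the top eigenvalue)
-/

open Finset MeasureTheory
open scoped Classical

namespace Pool.Agent.LBL

noncomputable section

namespace YBX_

/-- the box representative lies in the box -/
theorem rep_mem {d L : ℕ} [NeZero L] (b : Fin d → ℤ) (x : Tor d L) : rep b x ∈ boxF b L := by
  unfold boxF rep
  rw [Fintype.mem_piFinset]
  intro i
  rw [Finset.mem_Ico]
  have h1 := ZMod.val_lt (x i - (b i : ZMod L))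
  constructor
  · have : (0 : ℤ) ≤ ((x i - (b i : ZMod L)).val : ℤ) := Int.natCast_nonneg _
    linarith
  · have : (((x i - (b i : ZMod L)).val : ℕ) : ℤ) < (L : ℤ) := by exact_mod_cast h1
    linarith

/-- reduction of the representative -/
theorem red_rep {d L : ℕ} [NeZero L] (b : Fin d → ℤ) (x : Tor d L) : red L (rep b x) = x := by
  funext i
  unfold red rep
  push_cast
  rw [ZMod.natCast_zmod_val]
  ring

/-- representative of the reduction -/
theorem rep_red {d L : ℕ} [NeZero L] (b z : Fin d → ℤ) (hz : z ∈ boxF b L) : rep b (red L z) = z := by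
  unfold boxF at hz
  rw [Fintype.mem_piFinset] at hz
  funext i
  have hi := hz i
  rw [Finset.mem_Ico] at hi
  unfold red rep
  have h1 : ((z i : ZMod L) - (b i : ZMod L)) = (((z i - b i).toNat : ℕ) : ZMod L) := by
    have h2 : (((z i - b i).toNat : ℕ) : ZMod L) = (((z i - b i).toNat : ℤ) : ZMod L) := by
      push_cast; rfl
    rw [h2, Int.toNat_of_nonneg (by linarith)]
    push_cast; rfl
  rw [h1, ZMod.val_natCast, Nat.mod_eq_of_lt]
  · rw [Int.toNat_of_nonneg (by linarith)]
    ring
  · have : ((z i - b i).toNat : ℤ) < (L : ℤ) := by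
      rw [Int.toNat_of_nonneg (by linarith)]
      linarith
    exact_mod_cast this

theorem rep_inj {d L : ℕ} [NeZero L] (b : Fin d → ℤ) : Function.Injective (rep b : Tor d L → Fin d → ℤ) := by
  intro x y h
  rw [← red_rep b x, ← red_rep b y, h]

/-- the image of the open sites of the box on the torus -/
theorem image_red {d L : ℕ} [NeZero L] (a : Fin d → ℤ) (ω : Env d) :
    (opn ω (boxF a L)).image (red L) = Finset.univ.filter fun x : Tor d L => ω (rep a x) = true := by
  ext x
  simp only [Finset.mem_image, Finset.mem_filter, Finset.mem_univ, true_and, opn]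
  constructor
  · rintro ⟨z, ⟨hz, ho⟩, rfl⟩
    rw [rep_red a z hz]
    exact ho
  · intro h
    exact ⟨rep a x, ⟨rep_mem a x, h⟩, red_rep a x⟩

/-- the open sites of the box as an image of torus points -/
theorem image_rep {d L : ℕ} [NeZero L] (a s : Fin d → ℤ) (ω : Env d) :
    ((Finset.univ.filter fun x : Tor d L => ω (rep s x + (a - s)) = true).image (rep s)).image (fun z => z + (a - s)) =
      opn ω (boxF a L) := by
  ext z
  simp only [Finset.mem_image, Finset.mem_filter, Finset.mem_univ, true_and, opn]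
  constructor
  · rintro ⟨w, ⟨x, hx, rfl⟩, rfl⟩
    refine ⟨?_, hx⟩
    have h1 := rep_mem s x
    unfold boxF at h1 ⊢
    rw [Fintype.mem_piFinset] at h1 ⊢
    intro i
    have h2 := h1 i
    rw [Finset.mem_Ico] at h2 ⊢
    simp only [Pi.add_apply, Pi.sub_apply]
    constructor <;> linarith [h2.1, h2.2]
  · rintro ⟨hz, ho⟩
    have hz' : z - (a - s) ∈ boxF s L := by
      unfold boxF at hz ⊢
      rw [Fintype.mem_piFinset] at hz ⊢
      intro i
      have h2 := hz i
      rw [Finset.mem_Ico] at h2 ⊢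
      simp only [Pi.sub_apply]
      constructor <;> linarith [h2.1, h2.2]
    refine ⟨z - (a - s), ⟨red L (z - (a - s)), ?_, rep_red s _ hz'⟩, by abel⟩
    rw [rep_red s _ hz']
    rw [sub_add_cancel]
    exact ho

theorem P0_shift {d : ℕ} (f : (Fin d → ℤ) → ℝ) (b x : Fin d → ℤ) :
    P0 (fun y => f (y + b)) x = P0 f (x + b) := by
  unfold P0
  congr 1
  apply Finset.sum_congr rfl
  intro i _
  have h1 : x + ev i + b = x + b + ev i := by abel
  have h2 : x - ev i + b = x + b - ev i := by abel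
  simp only [h1, h2]

theorem lam_set {d : ℕ} (O : Finset (Fin d → ℤ)) (b : Fin d → ℤ) (t : ℝ)
    (h : ∃ f : (Fin d → ℤ) → ℝ, Spp O f ∧ ∑ x ∈ O, f x ^ 2 = 1 ∧ t = ∑ x ∈ O, f x * P0 f x) :
    ∃ f : (Fin d → ℤ) → ℝ, Spp (O.image fun z => z + b) f ∧ ∑ x ∈ (O.image fun z => z + b), f x ^ 2 = 1 ∧
      t = ∑ x ∈ (O.image fun z => z + b), f x * P0 f x := by
  obtain ⟨f, hs, hn, ht⟩ := h
  have hinj : Set.InjOn (fun z : Fin d → ℤ => z + b) (O : Set (Fin d → ℤ)) := fun x _ y _ hxy => add_right_cancel hxy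
  refine ⟨fun y => f (y + -b), ?_, ?_, ?_⟩
  · intro x hx
    apply hs
    intro hx'
    apply hx
    rw [Finset.mem_image]
    exact ⟨x + -b, hx', by abel⟩
  · rw [Finset.sum_image hinj]
    rw [← hn]
    apply Finset.sum_congr rfl
    intro x _
    show f (x + b + -b) ^ 2 = f x ^ 2
    rw [add_neg_cancel_right]
  · rw [Finset.sum_image hinj, ht]
    apply Finset.sum_congr rfl
    intro x _
    show f x * P0 f x = f (x + b + -b) * P0 (fun y => f (y + -b)) (x + b)
    rw [P0_shift, add_neg_cancel_right]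

theorem lam_shift {d : ℕ} (O : Finset (Fin d → ℤ)) (b : Fin d → ℤ) :
    lam (O.image fun z => z + b) = lam O := by
  unfold lam
  congr 1
  ext t
  constructor
  · intro h
    have h1 := lam_set (O.image fun z => z + b) (-b) t h
    have h2 : ((O.image fun z => z + b).image fun z => z + -b) = O := by
      ext z
      simp only [Finset.mem_image]
      constructor
      · rintro ⟨w, ⟨v, hv, rfl⟩, rfl⟩
        rw [add_neg_cancel_right]
        exact hv
      · intro hz
        exact ⟨z + b, ⟨z, hz, rfl⟩, add_neg_cancel_right z b⟩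
    rw [h2] at h1
    exact h1
  · intro h
    exact lam_set O b t h

theorem card_shifts (d : ℕ) (l : ℤ) :
    ((Fintype.piFinset fun _ : Fin d => ({0, l} : Finset ℤ)).card : ℝ) ≤ 2 ^ d := by
  rw [Fintype.card_piFinset]
  simp only [Finset.prod_const, Finset.card_univ, Fintype.card_fin]
  have h : (({0, l} : Finset ℤ).card) ≤ 2 := Finset.card_le_two
  exact_mod_cast Nat.pow_le_pow_left h d

end YBX_

open YBX_ in
theorem p_YBX (h_YZT : T_YZT) (h_YIT : T_YIT) (h_YTB : T_YTB) (h_YBR : T_YBR) (h_PRB : T_PRB) (h_VAR : T_VAR) : T_YBX := by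
  intro d hd
  obtain ⟨C, hC, hIT⟩ := h_YIT d hd
  refine ⟨C, hC, ?_⟩
  intro p ℓ hL a x hp0 hp1
  have hprob : IsProbabilityMeasure (PP d p) := PP_prob d hp0.le hp1.le
  have hℓ : 1 ≤ ℓ := by
    have := hL.out
    omega
  constructor
  · have h1 := h_YBR (Tor d (2 * ℓ)) d p (rep a) (fun O => x ≤ lam O) hp0.le hp1.le (rep_inj a)
    have h2 : TT d (2 * ℓ) p x = pr p (fun O : Finset (Tor d (2 * ℓ)) => x ≤ lam O) := rfl
    rw [h2, ← h1]
    apply measureReal_mono _ (measure_ne_top _ _)
    intro ω hω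
    simp only [Set.mem_ofPred_eq] at hω ⊢
    have h3 := h_YZT d (2 * ℓ) a (opn ω (boxF a (2 * ℓ))) hd (Finset.filter_subset _ _)
    rw [image_red] at h3
    exact hω.trans h3
  · obtain ⟨_, _, _, hun, _⟩ := h_PRB (Tor d (2 * ℓ)) p hp0 hp1
    set S : Finset (Fin d → ℤ) := Fintype.piFinset fun _ : Fin d => ({0, (ℓ : ℤ)} : Finset ℤ) with hS
    have h1 : TT d (2 * ℓ) p x ≤ ∑ s ∈ S, pr p (fun O : Finset (Tor d (2 * ℓ)) => x - C / ℓ ^ 2 ≤ lam (O.image (rep s))) := by
      apply hun
      intro O hO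
      obtain ⟨b, hb⟩ := hIT (2 * ℓ) ℓ O hℓ (by omega)
      obtain ⟨s, hs, hlam⟩ := h_YTB d ℓ b (O ∩ tbx b ℓ) hd Finset.inter_subset_right
      refine ⟨s, ?_, ?_⟩
      · rw [hS, Fintype.mem_piFinset]
        intro i
        rw [Finset.mem_insert, Finset.mem_singleton]
        exact hs i
      · have h3 : lam ((O ∩ tbx b ℓ).image (rep s)) ≤ lam (O.image (rep s)) :=
          (h_VAR d ℤ hd ((O ∩ tbx b ℓ).image (rep s))).2.2.2.1 _ (Finset.image_subset_image Finset.inter_subset_left)
        linarith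
    have h2 : ∀ s ∈ S, pr p (fun O : Finset (Tor d (2 * ℓ)) => x - C / ℓ ^ 2 ≤ lam (O.image (rep s))) =
        (PP d p).real {ω | x - C / ℓ ^ 2 ≤ lam (opn ω (boxF a (2 * ℓ)))} := by
      intro s _
      have h4 := h_YBR (Tor d (2 * ℓ)) d p (fun x => rep s x + (a - s))
        (fun O => x - C / ℓ ^ 2 ≤ lam (O.image (rep s))) hp0.le hp1.le
        (fun x y hxy => rep_inj s (add_right_cancel hxy))
      rw [← h4]
      congr 1
      ext ω
      simp only [Set.mem_ofPred_eq]
      rw [← image_rep a s ω, lam_shift]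
    rw [Finset.sum_congr rfl h2, Finset.sum_const, nsmul_eq_mul] at h1
    refine h1.trans ?_
    apply mul_le_mul_of_nonneg_right _ measureReal_nonneg
    exact card_shifts d ℓ

end

end Pool.Agent.LBL
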