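import Pool.Agent.LBL.Wlk3

set_option autoImplicit false

/-!
# LBL, part WLK: the conditional law
-/

open Finset MeasureTheory Filter Topology
open scoped Classical

namespace Pool.Agent.LBL

noncomputable section

namespace YCD_

theorem pc_nonneg (d : ℕ) : 0 ≤ pc d := by
  unfold pc
  exact Real.sSup_nonneg fun x hx => hx.1

theorem theta_pos {d : ℕ} {p : ℝ} (h : pc d < p) (h1 : p ≤ 1) : 0 < theta d p := by
  have h0 : 0 ≤ theta d p := measureReal_nonneg
  refine lt_of_le_of_ne h0 fun h2 => ?_
  have h3 : p ≤ pc d := by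
    unfold pc
    refine le_csSup ⟨1, fun x hx => hx.2.1⟩ ?_
    exact ⟨(pc_nonneg d).trans h.le, h1, h2.symm⟩
  linarith

end YCD_

open YCD_

theorem p_YCD (h_YRM : T_YRM) : T_YCD := by
  intro d p hd hpc hp1
  have hpc0 := pc_nonneg d
  have hp0 : 0 < p := lt_of_le_of_lt hpc0 hpc
  have hth : 0 < theta d p := theta_pos hpc hp1.le
  have hprob := PP_prob d hp0.le hp1.le
  have hmeas : MeasurableSet (Inf d) := (h_YRM d p (by omega) hp0.le hp1.le).2.2.1
  refine ⟨hp0, hth, ⟨(pc d + p) / 2, by linarith, by linarith, ?_⟩, ?_, ?_⟩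
  · exact theta_pos (by linarith) (by linarith)
  · refine ProbabilityTheory.cond_isProbabilityMeasure ?_
    intro h
    unfold theta at hth
    rw [measureReal_def, h] at hth
    simp at hth
  · intro S
    unfold theta
    rw [measureReal_def, ProbabilityTheory.cond_apply hmeas, ENNReal.toReal_mul,
      ENNReal.toReal_inv, div_eq_inv_mul]
    exact le_refl _

end

end Pool.Agent.LBL
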