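import Pool.Agent.LBL.Wlk1
import Pool.Agent.LBL.Targets1

set_option autoImplicit false

/-!
# LBL, target YCH: Chebyshev bound for the number of visited rewarded sites
-/

open Finset
open scoped Classical

namespace Pool.Agent.LBL

noncomputable section

theorem YCH_card {d : ℕ} (V : Finset (Fin d → ℤ)) (n : ℕ) (u : ℕ → Fin d → ℤ) :
    (V.filter fun v => ∃ k ≤ n, u k = v).card ≤ ((Finset.range n).filter fun k => u k ∈ V).card + 1 := by
  have h1 : (V.filter fun v => ∃ k ≤ n, u k = v) ⊆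
      (((Finset.range (n + 1)).filter fun k => u k ∈ V)).image u := by
    intro v hv
    rw [Finset.mem_filter] at hv
    obtain ⟨hvV, k, hk, rfl⟩ := hv
    rw [Finset.mem_image]
    refine ⟨k, ?_, rfl⟩
    rw [Finset.mem_filter, Finset.mem_range]
    exact ⟨by omega, hvV⟩
  have h2 : ((Finset.range (n + 1)).filter fun k => u k ∈ V) ⊆
      insert n ((Finset.range n).filter fun k => u k ∈ V) := by
    intro k hk
    rw [Finset.mem_filter, Finset.mem_range] at hk
    rw [Finset.mem_insert, Finset.mem_filter, Finset.mem_range]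
    by_cases hkn : k = n
    · exact Or.inl hkn
    · exact Or.inr ⟨by omega, hk.2⟩
  calc _ ≤ _ := Finset.card_le_card h1
    _ ≤ _ := Finset.card_image_le
    _ ≤ _ := Finset.card_le_card h2
    _ ≤ _ := Finset.card_insert_le _ _

theorem YCH_prod {d : ℕ} (κ : ℝ) (V : Finset (Fin d → ℤ)) (n : ℕ) (u : ℕ → Fin d → ℤ) :
    ∏ k ∈ Finset.range n, (mw κ V (u k))⁻¹ =
      ((1 - κ)⁻¹) ^ ((Finset.range n).filter fun k => u k ∈ V).card := by
  have h : ∀ k ∈ Finset.range n, (mw κ V (u k))⁻¹ = if u k ∈ V then (1 - κ)⁻¹ else 1 := by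
    intro k _
    unfold mw
    by_cases hk : u k ∈ V
    · simp [hk]
    · simp [hk]
  rw [Finset.prod_congr rfl h, Finset.prod_ite, Finset.prod_const_one, mul_one, Finset.prod_const]

theorem YCH_one (κ : ℝ) (N M : ℕ) (hk : 0 < κ) (hk2 : κ ≤ 1 / 2) (h : N ≤ M + 1) :
    (1 : ℝ) ≤ 2 * (1 - κ) ^ N * ((1 - κ)⁻¹) ^ M := by
  have h0 : 0 < 1 - κ := by linarith
  have h1 : (1 - κ) ^ (M + 1) ≤ (1 - κ) ^ N := pow_le_pow_of_le_one h0.le (by linarith) h
  have h2 : 0 < ((1 - κ)⁻¹) ^ M := by positivity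
  have h3 : (1 - κ) ^ (M + 1) * ((1 - κ)⁻¹) ^ M = 1 - κ := by
    rw [pow_succ, inv_pow]
    field_simp
  have h4 : 1 - κ ≤ (1 - κ) ^ N * ((1 - κ)⁻¹) ^ M := by
    have h5 := mul_le_mul_of_nonneg_right h1 h2.le
    linarith
  nlinarith

theorem p_YCH (h_YOP : T_YOP) : T_YCH := by
  intro d n N U V κ Λ x hd hκ hκ2 hΛ hx hform
  have hm1 : ∀ z, 1 / 2 ≤ mw κ V z ∧ mw κ V z ≤ 1 := by
    intro z
    unfold mw
    split_ifs
    · constructor <;> linarith
    · constructor <;> norm_num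
  have hm : ∀ z, 0 < mw κ V z := fun z => by have := (hm1 z).1; linarith
  have h1 := h_YOP d n U (mw κ V) Λ x hd hm hΛ hx hform
  have h0 : 0 < 1 - κ := by linarith
  have hpt : ∀ u : ℕ → Fin d → ℤ,
      (if ((∀ k ≤ n, u k ∈ U) ∧ N ≤ (V.filter fun v => ∃ k ≤ n, u k = v).card) then (1 : ℝ) else 0) ≤
      2 * (1 - κ) ^ N * (if ∀ k ≤ n, u k ∈ U then ∏ k ∈ Finset.range n, (mw κ V (u k))⁻¹ else 0) := by
    intro u
    by_cases hE : (∀ k ≤ n, u k ∈ U) ∧ N ≤ (V.filter fun v => ∃ k ≤ n, u k = v).card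
    · rw [if_pos hE, if_pos hE.1, YCH_prod]
      exact YCH_one κ N _ hκ hκ2 (le_trans hE.2 (YCH_card V n u))
    · rw [if_neg hE]
      apply mul_nonneg (by positivity)
      split_ifs
      · exact Finset.prod_nonneg fun k _ => (inv_pos.mpr (hm _)).le
      · exact le_refl _
  have hpow : (0 : ℝ) < (2 * (d : ℝ)) ^ n := by
    have : (0 : ℝ) < d := by exact_mod_cast hd
    positivity
  have h2 : wk x n (fun u => (∀ k ≤ n, u k ∈ U) ∧ N ≤ (V.filter fun v => ∃ k ≤ n, u k = v).card) ≤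
      2 * (1 - κ) ^ N * wx x n (fun u => if ∀ k ≤ n, u k ∈ U then ∏ k ∈ Finset.range n, (mw κ V (u k))⁻¹ else 0) := by
    unfold wk wx
    rw [← mul_div_assoc, Finset.mul_sum]
    apply div_le_div_of_nonneg_right _ hpow.le
    rw [Finset.card_filter]
    push_cast
    apply Finset.sum_le_sum
    intro s _
    have := hpt (trj x s)
    simpa using this
  have hs1 : Real.sqrt (∑ z ∈ U, mw κ V z) ≤ Real.sqrt U.card := by
    apply Real.sqrt_le_sqrt
    calc ∑ z ∈ U, mw κ V z ≤ ∑ z ∈ U, (1 : ℝ) := Finset.sum_le_sum fun z _ => (hm1 z).2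
      _ = U.card := by simp
  have hs2 : (1 / 2 : ℝ) ≤ Real.sqrt (mw κ V x) := by
    apply Real.le_sqrt_of_sq_le
    have := (hm1 x).1
    nlinarith
  have h3 : Λ ^ n * Real.sqrt (∑ z ∈ U, mw κ V z) / Real.sqrt (mw κ V x) ≤ 2 * (Λ ^ n * Real.sqrt U.card) := by
    rw [div_le_iff₀ (by linarith)]
    have hA : 0 ≤ Λ ^ n * Real.sqrt U.card := by positivity
    have hB : Λ ^ n * Real.sqrt (∑ z ∈ U, mw κ V z) ≤ Λ ^ n * Real.sqrt U.card :=
      mul_le_mul_of_nonneg_left hs1 (by positivity)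
    nlinarith
  calc _ ≤ _ := h2
    _ ≤ 2 * (1 - κ) ^ N * (2 * (Λ ^ n * Real.sqrt U.card)) := by
        apply mul_le_mul_of_nonneg_left (le_trans h1 h3)
        positivity
    _ = _ := by ring

end

end Pool.Agent.LBL
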