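import Pool.Agent.LBL.Wlk1
import Pool.Agent.LBL.Targets1

set_option autoImplicit false

/-!
# LBL-YCN: connected component with the same eigenvalue
-/

open Finset
open scoped Classical

namespace Pool.Agent.LBL

noncomputable section

namespace YCN_

/-- the graph of `O` -/
def Gr {d : ℕ} (O : Finset (Fin d → ℤ)) : SimpleGraph (Fin d → ℤ) where
  Adj x y := x ∈ O ∧ y ∈ O ∧ Nb x y
  symm := ⟨by
    rintro x y ⟨h1, h2, h3⟩
    refine ⟨h2, h1, ?_⟩
    unfold Nb at h3 ⊢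
    rw [← h3]
    exact Finset.sum_congr rfl fun i _ => abs_sub_comm _ _⟩
  loopless := ⟨by
    rintro x ⟨_, _, h⟩
    unfold Nb at h
    simp at h⟩

lemma mem_of_walk {d : ℕ} (O : Finset (Fin d → ℤ)) {x y : Fin d → ℤ} (p : (Gr O).Walk x y) (hx : x ∈ O) :
    y ∈ O := by
  induction p with
  | nil => exact hx
  | cons h p ih => exact ih h.2.1

lemma nb_add {d : ℕ} (x : Fin d → ℤ) (i : Fin d) : Nb x (x + ev i) := by
  unfold Nb ev
  rw [Finset.sum_eq_single i]
  · simp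
  · intro j _ hj
    simp [Pi.single_eq_of_ne hj]
  · intro h
    exact absurd (Finset.mem_univ _) h

lemma nb_sub {d : ℕ} (x : Fin d → ℤ) (i : Fin d) : Nb x (x - ev i) := by
  unfold Nb ev
  rw [Finset.sum_eq_single i]
  · simp
  · intro j _ hj
    simp [Pi.single_eq_of_ne hj]
  · intro h
    exact absurd (Finset.mem_univ _) h

/-- the component of `x0` -/
def Cp {d : ℕ} (O : Finset (Fin d → ℤ)) (x0 : Fin d → ℤ) : Finset (Fin d → ℤ) :=
  O.filter fun y => (Gr O).Reachable x0 y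

lemma cp_con {d : ℕ} (O : Finset (Fin d → ℤ)) (x0 : Fin d → ℤ) : Con (Cp O x0) := by
  intro x hx y hy
  have hx1 := Finset.mem_filter.1 hx
  have hy1 := Finset.mem_filter.1 hy
  have hr : (Gr O).Reachable x y := hx1.2.symm.trans hy1.2
  obtain ⟨q⟩ := hr
  obtain ⟨p, hp⟩ := q.toPath
  have hmem : ∀ z ∈ p.support, z ∈ Cp O x0 := by
    intro z hz
    have hw := p.takeUntil z hz
    exact Finset.mem_filter.2 ⟨mem_of_walk O hw hx1.1, hx1.2.trans ⟨hw⟩⟩
  refine ⟨p.length, p.getVert, p.getVert_zero, p.getVert_length, ?_, ?_, ?_⟩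
  · have h1 : p.support.toFinset.card = p.length + 1 := by
      rw [List.toFinset_card_of_nodup hp.support_nodup, SimpleGraph.Walk.length_support]
    have h2 : p.support.toFinset ⊆ Cp O x0 := by
      intro z hz
      exact hmem z (List.mem_toFinset.1 hz)
    have h3 := Finset.card_le_card h2
    omega
  · intro j _
    exact hmem _ (p.getVert_mem_support j)
  · intro j hj
    exact (p.adj_getVert_succ hj).2.2

lemma cp_nb {d : ℕ} (O : Finset (Fin d → ℤ)) (x0 x y : Fin d → ℤ) (hx : x ∈ Cp O x0) (hy : y ∈ O)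
    (h : Nb x y) : y ∈ Cp O x0 := by
  have hx1 := Finset.mem_filter.1 hx
  refine Finset.mem_filter.2 ⟨hy, hx1.2.trans ?_⟩
  exact SimpleGraph.Adj.reachable ⟨hx1.1, hy, h⟩

end YCN_

open YCN_ in
theorem p_YCN (h_TOP : T_TOP) (h_VAR : T_VAR) : T_YCN := by
  intro d O hd hO
  obtain ⟨φ, hφ⟩ := h_TOP d ℤ O hd hO
  have hex : ∃ x0 ∈ O, φ x0 ≠ 0 := by
    by_contra hc
    push Not at hc
    have h1 := hφ.nm
    rw [Finset.sum_eq_zero (fun x hx => by rw [hc x hx]; norm_num)] at h1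
    norm_num at h1
  obtain ⟨x0, hx0, hp0⟩ := hex
  have hV0 : x0 ∈ Cp O x0 := Finset.mem_filter.2 ⟨hx0, SimpleGraph.Reachable.refl _⟩
  have hsub : Cp O x0 ⊆ O := Finset.filter_subset _ _
  refine ⟨Cp O x0, hsub, ⟨x0, hV0⟩, cp_con O x0, le_antisymm ((h_VAR d ℤ hd (Cp O x0)).2.2.2.1 O hsub) ?_⟩
  let f : (Fin d → ℤ) → ℝ := fun x => if x ∈ Cp O x0 then φ x else 0
  have hfV : ∀ x ∈ Cp O x0, f x = φ x := fun x hx => if_pos hx
  have hsp : Spp (Cp O x0) f := fun x hx => if_neg hx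
  have hnb : ∀ x ∈ Cp O x0, ∀ y, Nb x y → f y = φ y := by
    intro x hx y hxy
    by_cases hy : y ∈ Cp O x0
    · exact hfV y hy
    · rw [hsp y hy, hφ.sp y]
      intro hyO
      exact hy (cp_nb O x0 x y hx hyO hxy)
  have hP : ∀ x ∈ Cp O x0, P0 f x = lam O * φ x := by
    intro x hx
    rw [← hφ.eq x (hsub hx)]
    unfold P0
    rw [Finset.sum_congr rfl fun i _ => by
      rw [hnb x hx _ (nb_add x i), hnb x hx _ (nb_sub x i)]]
  have h1 := (h_VAR d ℤ hd (Cp O x0)).1 f hsp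
  have h2 : ∑ x ∈ Cp O x0, f x * P0 f x = lam O * ∑ x ∈ Cp O x0, f x ^ 2 := by
    rw [Finset.mul_sum]
    refine Finset.sum_congr rfl fun x hx => ?_
    rw [hP x hx, hfV x hx]
    ring
  have h3 : 0 < ∑ x ∈ Cp O x0, f x ^ 2 := by
    refine Finset.sum_pos' (fun x _ => sq_nonneg _) ⟨x0, hV0, ?_⟩
    rw [hfV x0 hV0]
    exact pow_pos (lt_of_le_of_ne (hφ.nn x0) (Ne.symm hp0)) 2
  rw [h2] at h1
  exact le_of_mul_le_mul_right h1 h3

end

end Pool.Agent.LBL
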