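import Pool.Agent.LBL.Env

set_option autoImplicit false

/-!
# LBL, part WLK, targets 1: deterministic estimates on `ℤ^d` and walk sums

IMS localization, rewards, Combes-Thomas bound, operator bound for weighted path sums, block paths, transport between
`ℤ^d` and the torus, islands. `P0, lam, Top` etc. of `Defs.lean` are used with `R = ℤ`.
-/

open Finset
open scoped Classical

namespace Pool.Agent.LBL

noncomputable section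

/-! ## Definitions -/

/-- killed operator on `ℤ^d` -/
def Pz {d : ℕ} (O : Finset (Fin d → ℤ)) (f : (Fin d → ℤ) → ℝ) (x : Fin d → ℤ) : ℝ := if x ∈ O then P0 f x else 0

/-- probability to stay in `O` for `t` steps -/
def sv {d : ℕ} (O : Finset (Fin d → ℤ)) (t : ℕ) : (Fin d → ℤ) → ℝ := (Pz O)^[t] (fun x => if x ∈ O then 1 else 0)

/-- weight `1 - κ` on `V`, `1` elsewhere -/
def mw {d : ℕ} (κ : ℝ) (V : Finset (Fin d → ℤ)) (x : Fin d → ℤ) : ℝ := if x ∈ V then 1 - κ else 1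

/-- `l`-block containing `x` -/
def blk {d : ℕ} (l : ℕ) (x : Fin d → ℤ) : Fin d → ℤ := fun i => x i / (l : ℤ)

/-- killing block: it contains an obstacle -/
def kil {d : ℕ} (ω : Env d) (l : ℕ) (b : Fin d → ℤ) : Prop := ∃ y : Fin d → ℤ, blk l y = b ∧ ω y = false

/-- every simple block path of `k` blocks starting in the cube of radius `R` has at least `k/2` killing blocks -/
def BK {d : ℕ} (ω : Env d) (l k R : ℕ) : Prop := ∀ γ : ℕ → Fin d → ℤ, nrm (γ 0) ≤ R →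
  (∀ i < k, ∀ j < k, γ i = γ j → i = j) → (∀ i, i + 1 < k → Nb (γ i) (γ (i + 1))) →
  (k : ℝ) / 2 ≤ (((Finset.range k).filter fun i => kil ω l (γ i)).card : ℝ)

/-- reduction to the torus -/
def red {d : ℕ} (L : ℕ) (x : Fin d → ℤ) : Tor d L := fun i => (x i : ZMod L)

/-- representative in the box `b + [0,L)^d` -/
def rep {d L : ℕ} (b : Fin d → ℤ) (x : Tor d L) : Fin d → ℤ := fun i => b i + ((x i - (b i : ZMod L)).val : ℤ)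

/-- push forward to the torus of a function supported in `O` -/
def psh {d : ℕ} (L : ℕ) (O : Finset (Fin d → ℤ)) (f : (Fin d → ℤ) → ℝ) (y : Tor d L) : ℝ :=
  ∑ x ∈ O.filter (fun x => red L x = y), f x

/-- cube `a + [0,ℓ)^d` of the torus -/
def tbx {d L : ℕ} [NeZero L] (a : Tor d L) (ℓ : ℕ) : Finset (Tor d L) := Finset.univ.filter fun x => ∀ i, (x i - a i).val < ℓ

/-- connected set of sites -/
def Con {d : ℕ} (V : Finset (Fin d → ℤ)) : Prop := ∀ x ∈ V, ∀ y ∈ V, ∃ (k : ℕ) (u : ℕ → Fin d → ℤ), u 0 = x ∧ u k = y ∧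
  k ≤ V.card ∧ (∀ j ≤ k, u j ∈ V) ∧ ∀ j < k, Nb (u j) (u (j + 1))

/-- `l r`-scale: `r = (log n)^(1/d)` -/
def rr (d n : ℕ) : ℝ := Real.log n ^ ((1 : ℝ) / d)

/-- half of the side of the boxes -/
def ll (d n : ℕ) : ℕ := ⌈rr d n ^ (d + 4)⌉₊ + 1

instance instNeZeroTwo (d n : ℕ) : NeZero (2 * ll d n) := ⟨by unfold ll; omega⟩
instance instNeZeroEight (d n : ℕ) : NeZero (8 * ll d n) := ⟨by unfold ll; omega⟩

/-- indices of the grid boxes `ℓ k + [0,2ℓ)^d` with top eigenvalue at least `y` -/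
def isl {d : ℕ} (ω : Env d) (ℓ R : ℕ) (y : ℝ) : Finset (Fin d → ℤ) :=
  (cub d R).filter fun k => y ≤ lam (opn ω (boxF (fun i => (ℓ : ℤ) * k i) (2 * ℓ)))

/-- the walk estimate at distance `D` -/
def W1 {d : ℕ} (n : ℕ) (c1 : ℝ) (D : ℕ) (ω : Env d) : Prop := ∀ x : Fin d → ℤ, 2 * nrm x ≤ D → ∀ m : ℕ, m ≤ n →
  wk x m (fun u => alv ω m u ∧ (∃ j ≤ m, D ≤ nrm (u j)) ∧ ∀ j ≤ m, nrm (u j) < 2 * D) ≤
    Real.exp (-c1 * D) * lam (opn ω (cub d (2 * D))) ^ m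

/-! ## Energy, localization, rewards -/

/-- Energy on `ℤ^d`. `2d (∑ f^2 - ∑ f P0 f) = ∑_{(x,i)} (f (x + ev i) - f x)^2` (sum over all edges meeting `O`), all terms are nonnegative, so every finite
set `W` of edges gives at most this. Last: `|∑ f P0 g| <= ` Cauchy-Schwarz from `2|ab| <= s a^2 + b^2 / s`; symmetric form. -/
def T_YEN : Prop := ∀ (d : ℕ) (O : Finset (Fin d → ℤ)) (f : (Fin d → ℤ) → ℝ), 1 ≤ d → Spp O f →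
  (∀ W : Finset ((Fin d → ℤ) × Fin d), ∑ e ∈ W, (f (e.1 + ev e.2) - f e.1) ^ 2 ≤ 2 * d * (∑ x ∈ O, f x ^ 2 - ∑ x ∈ O, f x * P0 f x)) ∧
  (∃ W : Finset ((Fin d → ℤ) × Fin d), ∑ e ∈ W, (f (e.1 + ev e.2) - f e.1) ^ 2 = 2 * d * (∑ x ∈ O, f x ^ 2 - ∑ x ∈ O, f x * P0 f x)) ∧
  |∑ x ∈ O, f x * P0 f x| ≤ ∑ x ∈ O, f x ^ 2

/-- IMS localization with ALL translates of one tent function. `τ u = min (u+1) (ℓ-u)` for `0 <= u < ℓ`, `0` otherwise; `χ z = ∏ τ (z i)`, `χ_a x = χ (x - a)`, supported in `boxF a ℓ`. With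
`N = ∑_z χ z ^2`: `∑_a χ_a x ^2 = N`, `S_e = ∑_a (χ_a x - χ_a (x+e))^2 = ∑_z (χ z - χ (z+e))^2 <= C1 N / ℓ^2` (one-dimensional: numerator `<= ℓ+1`, denominator `>= ℓ^3/24`). `∑_a χ_a x χ_a y = N - (1/2) ∑_a (χ_a x - χ_a y)^2`.
Sum the hypothesis for `χ_a f` over all `a` (finitely many are nonzero): `N <f,P0 f> - (C1 N/(2ℓ^2)) ∑ f^2 <= ∑_a <χ_a f, P0 χ_a f> <= y N ∑ m f^2`, and `∑ f^2 <= 2 ∑ m f^2`. -/
def T_YIM : Prop := ∀ d : ℕ, 1 ≤ d → ∃ C : ℝ, 0 < C ∧ ∀ (ℓ : ℕ) (U : Finset (Fin d → ℤ)) (m : (Fin d → ℤ) → ℝ) (y : ℝ), 1 ≤ ℓ →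
  (∀ x, 1 / 2 ≤ m x ∧ m x ≤ 1) →
  (∀ (a : Fin d → ℤ) (f : (Fin d → ℤ) → ℝ), Spp (U ∩ boxF a ℓ) f → ∑ x ∈ U, f x * P0 f x ≤ y * ∑ x ∈ U, m x * f x ^ 2) →
  ∀ f : (Fin d → ℤ) → ℝ, Spp U f → ∑ x ∈ U, f x * P0 f x ≤ (y + C / ℓ ^ 2) * ∑ x ∈ U, m x * f x ^ 2

/-- Corollary of T_YIM with `m = 1` and T_VAR: `lam U <= max_a lam (U ∩ boxF a ℓ) + C/ℓ^2`; the box `boxF a ℓ` is contained in the grid box `ℓ k + [0,2ℓ)^d`, `k i = a i / ℓ`. If `U` is empty, `y <= C/ℓ^2`: any `k`. -/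
def T_YIG : Prop := ∀ d : ℕ, 1 ≤ d → ∃ C : ℝ, 0 < C ∧ ∀ (ℓ : ℕ) (U : Finset (Fin d → ℤ)) (y : ℝ), 1 ≤ ℓ → U.Nonempty → y ≤ lam U →
  (∃ a : Fin d → ℤ, y - C / ℓ ^ 2 ≤ lam (U ∩ boxF a ℓ) ∧ (U ∩ boxF a ℓ).Nonempty) ∧
  (∃ k : Fin d → ℤ, y - C / ℓ ^ 2 ≤ lam (U ∩ boxF (fun i => (ℓ : ℤ) * k i) (2 * ℓ)) ∧ (U ∩ boxF (fun i => (ℓ : ℤ) * k i) (2 * ℓ)).Nonempty)

/-- IMS localization on the torus (same proof, `χ_a x = ∏ τ ((x i - a i).val)`, sum over all `a` in the torus; T_TOP, T_VAR). -/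
def T_YIT : Prop := ∀ d : ℕ, 1 ≤ d → ∃ C : ℝ, 0 < C ∧ ∀ (L ℓ : ℕ) [NeZero L] (O : Finset (Tor d L)), 1 ≤ ℓ → ℓ ≤ L →
  ∃ a : Tor d L, lam O ≤ lam (O ∩ tbx a ℓ) + C / ℓ ^ 2

/-- Poincare inequality with zeros: from `v ∈ V` walk to the site `y ∉ O` of the same block changing one coordinate at a time (the path stays in the block): `f v ^2 <= d l * (energy of the path)`; every edge is used by
at most `l^d` points `v`. Then T_YEN. -/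
def T_YRD : Prop := ∀ d l : ℕ, 1 ≤ d → 1 ≤ l → ∃ C : ℝ, 0 < C ∧ ∀ (O V : Finset (Fin d → ℤ)) (f : (Fin d → ℤ) → ℝ),
  (∀ v ∈ V, ∃ y, blk l y = blk l v ∧ y ∉ O) → Spp O f →
  ∑ v ∈ V, f v ^ 2 ≤ C * (∑ x ∈ O, f x ^ 2 - ∑ x ∈ O, f x * P0 f x)

/-- Outside the islands the rewards do not matter. `C1` of T_YRD, `C2` of T_YIM, `κ = min (1/2, 1/(C1+1), η/(2 (C1+1)(A+2η)))`. Let `x' = x0 - 2η/r^2 >= 0`. For `f` supported in `(U \ N) ∩ boxF a ℓ`: if `boxF a ℓ ⊆ N`, `f = 0`.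
Otherwise put `D = ∑ f^2 - <f,P0 f> >= (1-x') ∑ f^2` (T_VAR with `lam (U ∩ boxF a ℓ) <= x'`), `∑_V f^2 <= C1 D`. Then `(1 - (1 - C1 κ)(1-x')) (∑ f^2 - κ ∑_V f^2) >= ∑ f^2 - C1 κ D - (1 - C1 κ) D = <f,P0 f>` because
`(1-x')(∑ f^2 - C1 κ D) <= D`. And `1 - (1 - C1 κ)(1-x') <= x' + C1 κ (A+2η)/r^2 <= x0 - (3/2) η/r^2`. T_YIM for the set `U \ N` with `m = mw κ V` adds `C2/ℓ^2 <= η/(2 r^2)` for `r` large. -/
def T_YNI : Prop := ∀ (d l : ℕ) (A η : ℝ), 1 ≤ d → 1 ≤ l → 0 < A → 0 < η → ∃ κ r1 : ℝ, 0 < κ ∧ κ ≤ 1 / 2 ∧ 1 < r1 ∧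
  ∀ (r x0 : ℝ) (ℓ : ℕ) (U N V : Finset (Fin d → ℤ)), r1 ≤ r → r ^ (d + 4) ≤ 2 * ℓ → 0 ≤ (1 - x0) * r ^ 2 → (1 - x0) * r ^ 2 ≤ A →
  (∀ v ∈ V, ∃ y, blk l y = blk l v ∧ y ∉ U) → (∀ a, boxF a ℓ ⊆ N ∨ lam (U ∩ boxF a ℓ) ≤ x0 - 2 * η / r ^ 2) →
  ∀ f : (Fin d → ℤ) → ℝ, Spp (U \ N) f → ∑ x ∈ U, f x * P0 f x ≤ (x0 - η / r ^ 2) * ∑ x ∈ U, mw κ V x * f x ^ 2

/-- Weighted top function: maximize `∑ f P0 f` on the compact set `{f supported in U, ∑ m f^2 = 1}`; `|f|` is as good (`P0` is positive); Euler-Lagrange equation (symmetric form). -/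
def T_YTP : Prop := ∀ (d : ℕ) (U : Finset (Fin d → ℤ)) (m : (Fin d → ℤ) → ℝ), 1 ≤ d → U.Nonempty → (∀ x, 0 < m x) →
  ∃ (Λ : ℝ) (g : (Fin d → ℤ) → ℝ), (∀ x, 0 ≤ g x) ∧ Spp U g ∧ ∑ x ∈ U, m x * g x ^ 2 = 1 ∧ (∀ x ∈ U, P0 g x = Λ * (m x * g x)) ∧
    ∀ f : (Fin d → ℤ) → ℝ, Spp U f → ∑ x ∈ U, f x * P0 f x ≤ Λ * ∑ x ∈ U, m x * f x ^ 2

/-- Decay away from the islands (Combes-Thomas, one step). `U` nonempty w.l.o.g.; `m = mw κ V`; `Λ, g` from T_YTP; if `Λ <= lam U` done; so `Λ > lam U >= y + γ` (hence `N` is nonempty: otherwise `lam U <= max y 0`). `ρ x` = sup distance to `N`,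
`α = √γ/4`, `G = ∑ g^2`. For every `χ`: `Λ ∑ m χ^2 g^2 - <χ g, P0 χ g> = (1/2) ∑_{x,y} p(x,y) g x g y (χ x - χ y)^2` (`p` = kernel of `P0`). (1) `χ = exp(α ρ) - 1` vanishes on `N`; `(χ x - χ y)^2 <= (exp α - 1)^2 exp(α ρ x) exp(α ρ y)` for
neighbours; so `(γ/2) S <= γ ∑ m χ^2 g^2 <= (1/2)(exp α - 1)^2 ∑ exp(2αρ) g^2 <= (γ/4)(S + G)`, `S = ∑ χ^2 g^2`; hence `S <= G`, `∑ exp(2αρ) g^2 <= 4 G`. (2) `χ = 1_{ρ <= w}` (there `m = 1`): `(Λ - lam U) ∑ χ^2 g^2 <= (1/2) ∑_{ρ >= w} g^2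
<= 2 exp(-2αw) G`, and `∑ χ^2 g^2 >= G - 4 exp(-2αw) G >= G/2` as `2αw = √γ w/2 >= 5/2`. So `Λ <= lam U + 4 exp(-√γ w/2)`. -/
def T_YCT : Prop := ∀ (d w : ℕ) (U N V : Finset (Fin d → ℤ)) (κ y γ : ℝ), 1 ≤ d → 0 ≤ κ → κ ≤ 1 / 2 → 0 < γ → γ ≤ 1 → 5 ≤ Real.sqrt γ * w →
  (∀ v ∈ V, ∀ z ∈ N, w < nrm (v - z)) →
  (∀ f : (Fin d → ℤ) → ℝ, Spp (U \ N) f → ∑ x ∈ U, f x * P0 f x ≤ y * ∑ x ∈ U, mw κ V x * f x ^ 2) → y + γ ≤ lam U →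
  ∀ f : (Fin d → ℤ) → ℝ, Spp U f → ∑ x ∈ U, f x * P0 f x ≤ (lam U + 8 * Real.exp (-Real.sqrt γ * w / 2)) * ∑ x ∈ U, mw κ V x * f x ^ 2

/-! ## Walk sums -/

/-- Elementary facts on `wx`, `wk`. `trj x (Fin.cons e s) k = if k = 0 then x else trj (x + stp e) s (k-1)` and `Fin.consEquiv` give the recursion. Neighbouring positions satisfy `Nb`. `∑_e F (x + stp e) = 2 d * P0 F x`. -/
def T_YRC : Prop := ∀ (d : ℕ), 1 ≤ d → ∀ (x : Fin d → ℤ) (n : ℕ),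
  (∀ E : (ℕ → Fin d → ℤ) → Prop, wk x n E = wx x n (fun u => if E u then 1 else 0)) ∧
  (∀ G : (ℕ → Fin d → ℤ) → ℝ, wx x (n + 1) G =
    (∑ e : Fin d × Bool, wx (x + stp e) n (fun u => G (fun k => if k = 0 then x else u (k - 1)))) / (2 * d)) ∧
  (∀ F : (Fin d → ℤ) → ℝ, ∑ e : Fin d × Bool, F (x + stp e) = 2 * d * P0 F x) ∧
  (∀ G G' : (ℕ → Fin d → ℤ) → ℝ, (∀ u : ℕ → Fin d → ℤ, u 0 = x → (∀ j < n, Nb (u j) (u (j + 1))) → G u ≤ G' u) → wx x n G ≤ wx x n G') ∧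
  (∀ E E' : (ℕ → Fin d → ℤ) → Prop, (∀ u : ℕ → Fin d → ℤ, u 0 = x → (∀ j < n, Nb (u j) (u (j + 1))) → E u → E' u) → wk x n E ≤ wk x n E') ∧
  wk x n (fun _ => True) = 1 ∧ (∀ E : (ℕ → Fin d → ℤ) → Prop, 0 ≤ wk x n E) ∧
  (∀ (E : (ℕ → Fin d → ℤ) → Prop) (m : ℕ), n ≤ m → (∀ u u' : ℕ → Fin d → ℤ, (∀ k ≤ n, u k = u' k) → E u → E u') → wk x m E = wk x n E) ∧
  (∀ (I : Type) (s : Finset I) (E : (ℕ → Fin d → ℤ) → Prop) (E' : I → (ℕ → Fin d → ℤ) → Prop),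
    (∀ u : ℕ → Fin d → ℤ, u 0 = x → (∀ j < n, Nb (u j) (u (j + 1))) → E u → ∃ i ∈ s, E' i u) → wk x n E ≤ ∑ i ∈ s, wk x n (E' i))

/-- Markov property. Split `Fin (t+m)` into `Fin t` and `Fin m` (`Fin.appendEquiv`): `trj x (Fin.append s s') (t+k) = trj (trj x s t) s' k`, and `trj x (Fin.append s s') k = trj x s k` for `k <= t`. Upper and lower form. -/
def T_YMK : Prop := ∀ (d t m : ℕ) (x : Fin d → ℤ) (E1 E2 : (ℕ → Fin d → ℤ) → Prop) (B : Set (Fin d → ℤ)) (q : ℝ), 1 ≤ d →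
  (∀ u u' : ℕ → Fin d → ℤ, (∀ k ≤ t, u k = u' k) → E1 u → E1 u') →
  ((∀ y ∈ B, wk y m E2 ≤ q) → wk x (t + m) (fun u => (E1 u ∧ u t ∈ B) ∧ E2 (fun k => u (t + k))) ≤ wk x t (fun u => E1 u ∧ u t ∈ B) * q) ∧
  ((∀ y ∈ B, q ≤ wk y m E2) → wk x t (fun u => E1 u ∧ u t ∈ B) * q ≤ wk x (t + m) (fun u => (E1 u ∧ u t ∈ B) ∧ E2 (fun k => u (t + k))))

/-- Operator bound. `A f = 1_U m^{-1} P0 (1_U f)`; by T_YRC the left side is `A^n 1_U x`. `A` is symmetric for `<f,g>_m = ∑_U m f g`, and `|<f, A g>_m| = |∑ f P0 g| <= Λ |f|_m |g|_m` (polarization with `|f|, |g|`: `4 ∑ f P0 g =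
Q(f+g) - Q(f-g)`, `-Q(h) <= Q(|h|)`), so `m x * A^n 1 x = <δ_x, A^n 1>_m <= (m x)^{1/2} Λ^n (∑_U m)^{1/2}`. -/
def T_YOP : Prop := ∀ (d n : ℕ) (U : Finset (Fin d → ℤ)) (m : (Fin d → ℤ) → ℝ) (Λ : ℝ) (x : Fin d → ℤ), 1 ≤ d → (∀ z, 0 < m z) → 0 ≤ Λ → x ∈ U →
  (∀ f : (Fin d → ℤ) → ℝ, Spp U f → ∑ z ∈ U, f z * P0 f z ≤ Λ * ∑ z ∈ U, m z * f z ^ 2) →
  wx x n (fun u => if ∀ k ≤ n, u k ∈ U then ∏ k ∈ Finset.range n, (m (u k))⁻¹ else 0) ≤ Λ ^ n * Real.sqrt (∑ z ∈ U, m z) / Real.sqrt (m x)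

/-- Chebyshev: on the event at most one of the `N` sites is met only at time `n`, so the product in T_YOP (with `m = mw κ V`) is at least `(1-κ)^{-(N-1)}`. `∑ m <= |U|`, `m x >= 1/2`. -/
def T_YCH : Prop := ∀ (d n N : ℕ) (U V : Finset (Fin d → ℤ)) (κ Λ : ℝ) (x : Fin d → ℤ), 1 ≤ d → 0 < κ → κ ≤ 1 / 2 → 0 ≤ Λ → x ∈ U →
  (∀ f : (Fin d → ℤ) → ℝ, Spp U f → ∑ z ∈ U, f z * P0 f z ≤ Λ * ∑ z ∈ U, mw κ V z * f z ^ 2) →
  wk x n (fun u => (∀ k ≤ n, u k ∈ U) ∧ N ≤ (V.filter fun v => ∃ k ≤ n, u k = v).card) ≤ 4 * (1 - κ) ^ N * Real.sqrt U.card * Λ ^ n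

/-- Lower bounds. (1) follow the open path (probability `(2d)^{-k}`) and use T_YMK; surviving `k+n` steps implies surviving `n` steps. (2) `φ = ` top function of `V` (T_TOP), `z` = argmax: `wk x n (stay in V) = sv V n x >= lam^n φ x / φ z`
by induction (`P0 φ = lam φ` on `V`). -/
def T_YPL : Prop := ∀ (d : ℕ) (ω : Env d), 1 ≤ d →
  (∀ (k n : ℕ) (x z : Fin d → ℤ), Pth ω k x z → wk z n (alv ω n) / (2 * d) ^ k ≤ wk x n (alv ω n)) ∧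
  (∀ V : Finset (Fin d → ℤ), V.Nonempty → (∀ v ∈ V, ω v = true) → ∃ z ∈ V, ∀ n : ℕ, lam V ^ n ≤ wk z n (alv ω n))

/-- Staying in a finite set: `wk x n (∀ k <= n, u k ∈ U) <= |U|^{1/2} (lam U)^n` (T_YOP with `m = 1` and T_VAR; `0` if `x ∉ U`). -/
def T_YST : Prop := ∀ (d n : ℕ) (U : Finset (Fin d → ℤ)) (x : Fin d → ℤ), 1 ≤ d →
  wk x n (fun u => ∀ k ≤ n, u k ∈ U) ≤ Real.sqrt U.card * lam U ^ n

/-! ## Block paths -/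

/-- A trajectory which goes from norm `<= D/2` to norm `>= D` visits `k` blocks forming a simple path, if `2 l k <= D`. The visited blocks form a nearest neighbour sequence (with repetitions); the block coordinate changes by at least `D/(2l) - 1 >= k - 1`
in one direction; erase loops (or: a shortest path inside the set of visited blocks from the first block to the farthest one). -/
def T_YGE : Prop := ∀ (d l k D m : ℕ) (u : ℕ → Fin d → ℤ), 1 ≤ l → 1 ≤ k → 2 * l * k ≤ D → (∀ j < m, Nb (u j) (u (j + 1))) →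
  2 * nrm (u 0) ≤ D → (∃ j ≤ m, D ≤ nrm (u j)) →
  ∃ γ : ℕ → Fin d → ℤ, γ 0 = blk l (u 0) ∧ (∀ i < k, ∀ j < k, γ i = γ j → i = j) ∧ (∀ i, i + 1 < k → Nb (γ i) (γ (i + 1))) ∧
    ∀ i < k, ∃ j ≤ m, blk l (u j) = γ i

/-- Visited sites in killing blocks far from `N`. T_YGE and `BK`: at least `k/2` of the blocks `γ i` are killing; each contains a visited site `u j` (open, since the trajectory is alive); all of them are in `V` except those within distance `w` of `N`, at most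
`|N| (2w+1)^d`. -/
def T_YVS : Prop := ∀ (d l k D m w : ℕ) (ω : Env d) (u : ℕ → Fin d → ℤ) (U N V : Finset (Fin d → ℤ)), 1 ≤ l → 1 ≤ k → 2 * l * k ≤ D → (∀ j < m, Nb (u j) (u (j + 1))) →
  2 * nrm (u 0) ≤ D → (∃ j ≤ m, D ≤ nrm (u j)) → (∀ j ≤ m, u j ∈ U) → BK ω l k D →
  (∀ v ∈ U, kil ω l (blk l v) → (∀ z ∈ N, w < nrm (v - z)) → v ∈ V) →
  (k : ℝ) / 2 - N.card * (2 * w + 1) ^ d ≤ ((V.filter fun v => ∃ j ≤ m, u j = v).card : ℝ)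

/-- Scales: `rr → ∞`, admissible sides, `fn = n ss`, sizes. (`log n = rr^d`.) -/
def T_YSC : Prop := ∀ d : ℕ, 2 ≤ d →
  (∀ M : ℝ, ∀ᶠ n : ℕ in Filter.atTop, M ≤ rr d n) ∧
  (∀ᶠ n : ℕ in Filter.atTop, Rg d (d + 6) (rr d n) (2 * ll d n) ∧ Rg d (d + 6) (rr d n) (8 * ll d n) ∧ (ll d n : ℝ) ≤ rr d n ^ (d + 5)) ∧
  (∀ n : ℕ, 2 ≤ n → fn d n = n * ss d (rr d n) ∧ rr d n ^ d = Real.log n ∧ 0 < rr d n ∧ 0 < fn d n) ∧
  (∀ C : ℝ, ∀ᶠ n : ℕ in Filter.atTop, C / (ll d n : ℝ) ^ 2 ≤ ss d (rr d n)) ∧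
  (∀ (C : ℝ) (K : ℕ), ∀ᶠ n : ℕ in Filter.atTop, C * Real.sqrt n * rr d n ^ K ≤ fn d n ∧ fn d n * C ≤ n)

/-- The walk estimate (deterministic). `κ` from T_YNI (`l, A, η`), `c1 = κ/(64 l)`. Given `ω, D`: `r = rr d n`, `ℓ = ll d n`, `U = opn ω (cub d (2D))`, `N` = union of the boxes of `isl`, `|N| <= √n (2ℓ)^d`, `w = ⌈C r^{d+1}⌉` with `√γ w/2 >= 4 log n`, `γ = η/(2 r^2)`,
`V = {v ∈ U : kil ω l (blk l v), ∀ z ∈ N, w < nrm (v-z)}` (a killing block contains a closed site, which is not in `U`). Every `boxF a ℓ` is in the grid box of index `a i / ℓ`; if this is not in `isl` then `lam (U ∩ boxF a ℓ) <= x0 - 2η/r^2` (T_VAR monotone; if the index is outside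
`cub d (4n)` then `U ∩ boxF a ℓ` is empty, `lam = 0`). T_YNI with `y = x0 - η/r^2`, T_YCT: form on `U` at most `Λ = lam U + 8 n^{-4}`, `Λ^m <= 2 (lam U)^m` (`lam U >= 1/2`). T_YVS with `k = D/(8l)`: at least `D/(32 l)` sites of `V` are visited (`D >= δ fn >= √n r^K C`).
T_YCH and `|U| <= (9n)^d`. -/
def T_YWD : Prop := ∀ (d l : ℕ) (A η : ℝ), 2 ≤ d → 1 ≤ l → 0 < A → 0 < η → ∃ c1 : ℝ, 0 < c1 ∧ ∀ δ : ℝ, 0 < δ → ∀ᶠ n : ℕ in Filter.atTop,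
  ∀ (x0 : ℝ) (ω : Env d) (D : ℕ), 0 ≤ (1 - x0) * rr d n ^ 2 → (1 - x0) * rr d n ^ 2 ≤ A → δ * fn d n ≤ D → D ≤ 2 * n →
  BK ω l (D / (8 * l)) D → ((isl ω (ll d n) (4 * n) (x0 - 2 * η / rr d n ^ 2)).card : ℝ) ≤ Real.sqrt n →
  x0 - η / (2 * rr d n ^ 2) ≤ lam (opn ω (cub d (2 * D))) → W1 n c1 D ω

/-! ## Transport between `ℤ^d` and the torus -/

/-- `lam` does not decrease when a subset of a fundamental box is mapped to the torus: take `|f|`; the torus form has more (nonnegative) terms. -/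
def T_YZT : Prop := ∀ (d L : ℕ) [NeZero L] (a : Fin d → ℤ) (O : Finset (Fin d → ℤ)), 1 ≤ d → O ⊆ boxF a L → lam O ≤ lam (O.image (red L))

/-- A subset of a cube of side `ℓ` of the torus of side `2ℓ` is, for one of the `2^d` fundamental boxes `σ + [0,2ℓ)^d`, `σ i ∈ {0, ℓ}`, represented without wrapping: if `(a i).val <= ℓ` take `σ i = 0`, otherwise `σ i = ℓ`. Two points of the cube are neighbours in the torus iff
their representatives are neighbours in `ℤ^d` (for `ℓ = 1` the cube is one point). -/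
def T_YTB : Prop := ∀ (d ℓ : ℕ) [NeZero (2 * ℓ)] (a : Tor d (2 * ℓ)) (O : Finset (Tor d (2 * ℓ))), 1 ≤ d → O ⊆ tbx a ℓ →
  ∃ σ : Fin d → ℤ, (∀ i, σ i = 0 ∨ σ i = ℓ) ∧ lam O ≤ lam (O.image (rep σ))

/-- Transport without wrapping: `red` is injective on the box enlarged by one and respects neighbours. `psh L O φ (red x) = φ x` for `x ∈ O`. Forms, `Top`, survival probabilities are the same. -/
def T_YTR : Prop := ∀ (d k L : ℕ) [NeZero L] (a : Fin d → ℤ) (O : Finset (Fin d → ℤ)), 1 ≤ d → k + 4 ≤ L → O ⊆ boxF a k →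
  lam (O.image (red L)) = lam O ∧ (∀ φ : (Fin d → ℤ) → ℝ, Top O φ → Top (O.image (red L)) (psh L O φ)) ∧
  (∀ (φ : (Fin d → ℤ) → ℝ), ∀ x ∈ O, psh L O φ (red L x) = φ x) ∧
  (∀ (t : ℕ), ∀ x ∈ O, sv O t x = srv (O.image (red L)) t (red L x))

/-! ## Islands -/

/-- Component with the same eigenvalue: `φ` top function of `O`, `V` the connected component (inside `O`) of a point with `φ > 0`; `φ 1_V` satisfies `P0 (φ 1_V) = lam O * φ` on `V`. A path inside `V` can be taken simple, so its length is at most `|V|`. -/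
def T_YCN : Prop := ∀ (d : ℕ) (O : Finset (Fin d → ℤ)), 1 ≤ d → O.Nonempty → ∃ V : Finset (Fin d → ℤ), V ⊆ O ∧ V.Nonempty ∧ Con V ∧ lam V = lam O

/-- Bulk points with an open neighbourhood (torus). If `φ x >= c hh` and some `y` with `td y x <= ρ` is not in `O`, walk from `x` to `y` (at most `d ρ` steps): the first point `y'` outside `O` has `P0 φ y' >= (2d)^{-dρ-1} c hh` (T_FLX); by T_FXM there are at most `C r^{d-2}` such `y'`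
(constant depending on `ρ`), and each serves at most `(2 d ρ+1)^d` points `x`. T_BLK. The constant `c` does not depend on `ρ`. -/
def T_YBU : Prop := ∀ (d : ℕ) (C : ℝ), 2 ≤ d → 1 ≤ C → ∃ c : ℝ, 0 < c ∧ ∀ ρ : ℕ, ∃ r1 : ℝ, 1 < r1 ∧
  ∀ (r : ℝ) (L : ℕ) [NeZero L], r1 ≤ r → r ≤ L → ∀ (O : Finset (Tor d L)) (φ : Tor d L → ℝ), EF r C O φ →
  c * r ^ d ≤ ((Finset.univ.filter fun x => c * hh d r ≤ φ x ∧ ∀ y, td y x ≤ ρ → y ∈ O).card : ℝ)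

/-- Survival from a bulk point: by induction `srv O t x * sup φ >= lam^t φ x`, and `lam^t >= exp(-2C)` for `t <= r^2`, `r` large. -/
def T_YSB : Prop := ∀ (d : ℕ) (C c : ℝ), 2 ≤ d → 1 ≤ C → 0 < c → ∃ c6 r1 : ℝ, 0 < c6 ∧ 1 < r1 ∧
  ∀ (r : ℝ) (L : ℕ) [NeZero L], r1 ≤ r → ∀ (O : Finset (Tor d L)) (φ : Tor d L → ℝ), EF r C O φ →
  ∀ x, c * hh d r ≤ φ x → c6 ≤ srv O ⌊r ^ 2⌋₊ x

/-- Good points of an island. T_YCN: `V ⊆ O`; torus of side `8ℓ`, `V' = V.image red`; T_YTR: `lam V' = lam V = lam O`, `Top V' φ'`; `hol` is monotone (T_HMO), so T_GDE (with `K0`) gives `EF r C V' φ'`; T_YBU, T_YSB. A point `x'` of T_YBU is `red x` with `x ∈ V`, and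
`z` with `nrm (z - x) <= ρ` is in `V` because `red` is injective on the box enlarged by `ρ`. `sv V t x = srv V' t x'` (T_YTR). -/
def T_YIS : Prop := ∀ (d K0 : ℕ) (p A C' : ℝ), 2 ≤ d → 1 ≤ K0 → 0 < p → p < 1 → 0 < A → 0 < C' → ∃ c c6 : ℝ, 0 < c ∧ 0 < c6 ∧ ∀ ρ : ℕ, ∃ r1 : ℝ, 1 < r1 ∧
  ∀ (r : ℝ) (ℓ : ℕ) [NeZero (8 * ℓ)], r1 ≤ r → Rg d K0 r (8 * ℓ) → ∀ (a : Fin d → ℤ) (O : Finset (Fin d → ℤ)), O ⊆ boxF a (2 * ℓ) → O.Nonempty → (1 - lam O) * r ^ 2 ≤ A →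
  ((hol (mm d p K0 r) (O.image (red (8 * ℓ)) : Finset (Tor d (8 * ℓ)))).card : ℝ) ≤ C' * r ^ d →
  ∃ V : Finset (Fin d → ℤ), V ⊆ O ∧ Con V ∧ lam V = lam O ∧
    c * r ^ d ≤ ((V.filter fun x => (∀ z, nrm (z - x) ≤ ρ → z ∈ V) ∧ c6 ≤ sv V ⌊r ^ 2⌋₊ x).card : ℝ)

/-- Few points with large survival probability: T_YTR (`6ℓ + 4 <= 8ℓ`), T_HOL with `m = mm d p K0 r`, `t = ⌊r^2⌋` (the numerical condition follows from T_MMS and `8ℓ <= r^K0`), Markov. -/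
def T_YCU : Prop := ∀ (d K0 : ℕ) (p C' c6 : ℝ), 2 ≤ d → 1 ≤ K0 → 0 < p → p < 1 → 0 < C' → 0 < c6 → ∃ C r1 : ℝ, 0 < C ∧ 1 < r1 ∧
  ∀ (r : ℝ) (ℓ : ℕ) [NeZero (8 * ℓ)], r1 ≤ r → Rg d K0 r (8 * ℓ) → ∀ (a : Fin d → ℤ) (O : Finset (Fin d → ℤ)), O ⊆ boxF a (6 * ℓ) →
  ((hol (mm d p K0 r) (O.image (red (8 * ℓ)) : Finset (Tor d (8 * ℓ)))).card : ℝ) ≤ C' * r ^ d →
  ((O.filter fun x => c6 ≤ sv O ⌊r ^ 2⌋₊ x).card : ℝ) ≤ C * r ^ d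

/-- The survival probability is nondecreasing in the set, and in `[0,1]`. Induction on `t`. -/
def T_YSM : Prop := ∀ (d : ℕ) (O O' : Finset (Fin d → ℤ)) (t : ℕ) (x : Fin d → ℤ), 1 ≤ d → O ⊆ O' → 0 ≤ sv O t x ∧ sv O t x ≤ sv O' t x ∧ sv O' t x ≤ 1

end

end Pool.Agent.LBL
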