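import Pool.Agent.LBL.Targets1
import Pool.Agent.LBL.Wlk1

set_option autoImplicit false

/-!
# LBL: Combes-Thomas decay (T_YCT)
-/

open Finset
open scoped Classical

namespace Pool.Agent.LBL

noncomputable section

theorem YCT_nrm_add {d : ℕ} (x y : Fin d → ℤ) : nrm (x + y) ≤ nrm x + nrm y := by
  unfold nrm
  apply Finset.sup_le
  intro i _
  have h1 : (x i).natAbs ≤ Finset.univ.sup fun i => (x i).natAbs :=
    Finset.le_sup (f := fun i => (x i).natAbs) (Finset.mem_univ i)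
  have h2 : (y i).natAbs ≤ Finset.univ.sup fun i => (y i).natAbs :=
    Finset.le_sup (f := fun i => (y i).natAbs) (Finset.mem_univ i)
  have h3 : ((x + y) i).natAbs ≤ (x i).natAbs + (y i).natAbs := by
    rw [Pi.add_apply]
    exact Int.natAbs_add_le _ _
  omega

theorem YCT_nrm_neg {d : ℕ} (x : Fin d → ℤ) : nrm (-x) = nrm x := by
  unfold nrm
  simp

theorem YCT_nrm_ev {d : ℕ} (i : Fin d) : nrm (ev i : Fin d → ℤ) ≤ 1 := by
  unfold nrm ev
  apply Finset.sup_le
  intro j _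
  by_cases h : j = i
  · subst h; simp
  · simp [h]

theorem YCT_step {d : ℕ} (x z : Fin d → ℤ) (i : Fin d) :
    nrm (x + ev i - z) ≤ nrm (x - z) + 1 ∧ nrm (x - ev i - z) ≤ nrm (x - z) + 1 := by
  constructor
  · have h : x + ev i - z = (x - z) + ev i := by abel
    rw [h]
    exact (YCT_nrm_add _ _).trans (by have := YCT_nrm_ev i; omega)
  · have h : x - ev i - z = (x - z) + (- ev i) := by abel
    rw [h]
    refine (YCT_nrm_add _ _).trans ?_
    rw [YCT_nrm_neg]
    have := YCT_nrm_ev i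
    omega

/-- sup distance to `N` -/
def YCT_rho {d : ℕ} (N : Finset (Fin d → ℤ)) (x : Fin d → ℤ) : ℕ :=
  if h : N.Nonempty then N.inf' h (fun z => nrm (x - z)) else 0

theorem YCT_rho_le {d : ℕ} (N : Finset (Fin d → ℤ)) (x y : Fin d → ℤ)
    (h : ∀ z, nrm (x - z) ≤ nrm (y - z) + 1) : YCT_rho N x ≤ YCT_rho N y + 1 := by
  unfold YCT_rho
  by_cases hN : N.Nonempty
  · rw [dif_pos hN, dif_pos hN]
    obtain ⟨z, hz, hz2⟩ := Finset.exists_mem_eq_inf' hN (fun z => nrm (y - z))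
    rw [hz2]
    exact (Finset.inf'_le _ hz).trans (h z)
  · rw [dif_neg hN, dif_neg hN]
    omega

theorem YCT_rho_nb {d : ℕ} (N : Finset (Fin d → ℤ)) (x : Fin d → ℤ) (i : Fin d) :
    (YCT_rho N (x + ev i) ≤ YCT_rho N x + 1 ∧ YCT_rho N x ≤ YCT_rho N (x + ev i) + 1) ∧
    (YCT_rho N (x - ev i) ≤ YCT_rho N x + 1 ∧ YCT_rho N x ≤ YCT_rho N (x - ev i) + 1) := by
  refine ⟨⟨?_, ?_⟩, ?_, ?_⟩
  · exact YCT_rho_le N _ _ fun z => (YCT_step x z i).1
  · apply YCT_rho_le N
    intro z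
    have := (YCT_step (x + ev i) z i).2
    rw [add_sub_cancel_right] at this
    exact this
  · exact YCT_rho_le N _ _ fun z => (YCT_step x z i).2
  · apply YCT_rho_le N
    intro z
    have := (YCT_step (x - ev i) z i).1
    rw [sub_add_cancel] at this
    exact this

theorem YCT_rho_mem {d : ℕ} (N : Finset (Fin d → ℤ)) (x : Fin d → ℤ) (hx : x ∈ N) : YCT_rho N x = 0 := by
  unfold YCT_rho
  rw [dif_pos ⟨x, hx⟩]
  have h : N.inf' ⟨x, hx⟩ (fun z => nrm (x - z)) ≤ nrm (x - x) := Finset.inf'_le _ hx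
  have h0 : nrm (x - x) = 0 := by
    rw [sub_self]
    unfold nrm
    simp
  omega

theorem YCT_rho_far {d : ℕ} (N : Finset (Fin d → ℤ)) (hN : N.Nonempty) (w : ℕ) (v : Fin d → ℤ)
    (h : ∀ z ∈ N, w < nrm (v - z)) : w < YCT_rho N v := by
  unfold YCT_rho
  rw [dif_pos hN, Finset.lt_inf'_iff]
  exact h

theorem YCT_key {d : ℕ} (χ g : (Fin d → ℤ) → ℝ) (x : Fin d → ℤ) :
    P0 (fun y => (χ x - χ y) ^ 2 * g y) x =
      χ x ^ 2 * P0 g x + P0 (fun y => χ y ^ 2 * g y) x - 2 * χ x * P0 (fun y => χ y * g y) x := by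
  unfold P0
  rw [← mul_div_assoc, ← mul_div_assoc, ← add_div, ← sub_div]
  congr 1
  rw [Finset.mul_sum, Finset.mul_sum, ← Finset.sum_add_distrib, ← Finset.sum_sub_distrib]
  apply Finset.sum_congr rfl
  intro i _
  ring

theorem YCT_mono {d : ℕ} (f g : (Fin d → ℤ) → ℝ) (x : Fin d → ℤ)
    (h : ∀ i, f (x + ev i) ≤ g (x + ev i) ∧ f (x - ev i) ≤ g (x - ev i)) : P0 f x ≤ P0 g x := by
  unfold P0
  apply div_le_div_of_nonneg_right _ (by positivity)
  apply Finset.sum_le_sum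
  intro i _
  exact add_le_add (h i).1 (h i).2

theorem YCT_smul {d : ℕ} (c : ℝ) (f : (Fin d → ℤ) → ℝ) (x : Fin d → ℤ) :
    P0 (fun y => c * f y) x = c * P0 f x := by
  unfold P0
  rw [← mul_div_assoc, Finset.mul_sum]
  congr 1
  apply Finset.sum_congr rfl
  intro i _
  ring

/-- commutator bound -/
theorem YCT_comm (h_VAR : T_VAR) {d : ℕ} (hd : 1 ≤ d) (U : Finset (Fin d → ℤ)) (m : (Fin d → ℤ) → ℝ) (Λ : ℝ)
    (g : (Fin d → ℤ) → ℝ) (hg : ∀ x, 0 ≤ g x) (hgs : Spp U g) (heq : ∀ x ∈ U, P0 g x = Λ * (m x * g x))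
    (χ A : (Fin d → ℤ) → ℝ) (c : ℝ) (hc : 0 ≤ c) (hA : ∀ x, 0 ≤ A x)
    (hχ : ∀ x i, (χ x - χ (x + ev i)) ^ 2 ≤ c * (A x * A (x + ev i)) ∧
      (χ x - χ (x - ev i)) ^ 2 ≤ c * (A x * A (x - ev i))) :
    Λ * ∑ x ∈ U, m x * (χ x ^ 2 * g x ^ 2) - ∑ x ∈ U, (χ x * g x) * P0 (fun y => χ y * g y) x ≤
      c / 2 * ∑ x ∈ U, A x ^ 2 * g x ^ 2 := by
  obtain ⟨hv1, hv2, hv3, -, hv5⟩ := h_VAR d ℤ hd U
  have hs1 : Spp U (fun y => χ y ^ 2 * g y) := fun x hx => by
    show χ x ^ 2 * g x = 0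
    rw [hgs x hx, mul_zero]
  have hs2 : Spp U (fun y => A y * g y) := fun x hx => by
    show A x * g x = 0
    rw [hgs x hx, mul_zero]
  have hsym := hv5 (fun y => χ y ^ 2 * g y) g hs1 hgs
  have e1 : Λ * ∑ x ∈ U, m x * (χ x ^ 2 * g x ^ 2) = ∑ x ∈ U, (χ x ^ 2 * g x) * P0 g x := by
    rw [Finset.mul_sum]
    apply Finset.sum_congr rfl
    intro x hx
    rw [heq x hx]
    ring
  have e2 : ∑ x ∈ U, g x * P0 (fun y => (χ x - χ y) ^ 2 * g y) x =
      2 * (Λ * ∑ x ∈ U, m x * (χ x ^ 2 * g x ^ 2) - ∑ x ∈ U, (χ x * g x) * P0 (fun y => χ y * g y) x) := by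
    have h3 : ∑ x ∈ U, g x * P0 (fun y => (χ x - χ y) ^ 2 * g y) x =
        ∑ x ∈ U, (χ x ^ 2 * g x) * P0 g x + ∑ x ∈ U, g x * P0 (fun y => χ y ^ 2 * g y) x -
          2 * ∑ x ∈ U, (χ x * g x) * P0 (fun y => χ y * g y) x := by
      rw [Finset.mul_sum, ← Finset.sum_add_distrib, ← Finset.sum_sub_distrib]
      apply Finset.sum_congr rfl
      intro x _
      rw [YCT_key]
      ring
    rw [h3, ← hsym, e1]
    ring
  have e3 : ∑ x ∈ U, g x * P0 (fun y => (χ x - χ y) ^ 2 * g y) x ≤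
      c * ∑ x ∈ U, (A x * g x) * P0 (fun y => A y * g y) x := by
    rw [Finset.mul_sum]
    apply Finset.sum_le_sum
    intro x _
    have h4 : P0 (fun y => (χ x - χ y) ^ 2 * g y) x ≤ P0 (fun y => (c * A x) * (A y * g y)) x := by
      apply YCT_mono
      intro i
      constructor
      · have := mul_le_mul_of_nonneg_right (hχ x i).1 (hg (x + ev i))
        calc (χ x - χ (x + ev i)) ^ 2 * g (x + ev i) ≤ c * (A x * A (x + ev i)) * g (x + ev i) := this
          _ = (c * A x) * (A (x + ev i) * g (x + ev i)) := by ring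
      · have := mul_le_mul_of_nonneg_right (hχ x i).2 (hg (x - ev i))
        calc (χ x - χ (x - ev i)) ^ 2 * g (x - ev i) ≤ c * (A x * A (x - ev i)) * g (x - ev i) := this
          _ = (c * A x) * (A (x - ev i) * g (x - ev i)) := by ring
    rw [YCT_smul] at h4
    calc g x * P0 (fun y => (χ x - χ y) ^ 2 * g y) x ≤ g x * (c * A x * P0 (fun y => A y * g y) x) :=
          mul_le_mul_of_nonneg_left h4 (hg x)
      _ = c * ((A x * g x) * P0 (fun y => A y * g y) x) := by ring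
  have e4 : ∑ x ∈ U, (A x * g x) * P0 (fun y => A y * g y) x ≤ ∑ x ∈ U, A x ^ 2 * g x ^ 2 := by
    have h5 := hv1 _ hs2
    have h6 : ∑ x ∈ U, (A x * g x) ^ 2 = ∑ x ∈ U, A x ^ 2 * g x ^ 2 := by
      apply Finset.sum_congr rfl
      intro x _
      ring
    have h7 : 0 ≤ ∑ x ∈ U, (A x * g x) ^ 2 := Finset.sum_nonneg fun x _ => sq_nonneg _
    have h8 : lam U * ∑ x ∈ U, (A x * g x) ^ 2 ≤ 1 * ∑ x ∈ U, (A x * g x) ^ 2 :=
      mul_le_mul_of_nonneg_right hv3 h7
    rw [one_mul, h6] at h8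
    rw [h6] at h5
    exact h5.trans h8
  have e5 := mul_le_mul_of_nonneg_left e4 hc
  linarith

/-- weights of the exponential -/
theorem YCT_exp (α : ℝ) (hα : 0 ≤ α) (m n : ℕ) (h1 : m ≤ n + 1) (h2 : n ≤ m + 1) :
    ((Real.exp (α * m) - 1) - (Real.exp (α * n) - 1)) ^ 2 ≤
      (Real.exp α - 1) ^ 2 * (Real.exp (α * m) * Real.exp (α * n)) := by
  have hE : 1 ≤ Real.exp α := Real.one_le_exp hα
  have main : ∀ k : ℕ, ((Real.exp (α * k) - 1) - (Real.exp (α * ((k + 1 : ℕ) : ℝ)) - 1)) ^ 2 ≤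
      (Real.exp α - 1) ^ 2 * (Real.exp (α * k) * Real.exp (α * ((k + 1 : ℕ) : ℝ))) := by
    intro k
    have h3 : Real.exp (α * ((k + 1 : ℕ) : ℝ)) = Real.exp (α * k) * Real.exp α := by
      rw [← Real.exp_add]
      congr 1
      push_cast
      ring
    rw [h3]
    set a := Real.exp (α * k) with ha
    have ha0 : 0 < a := Real.exp_pos _
    have h4 : (a - 1 - (a * Real.exp α - 1)) ^ 2 = (Real.exp α - 1) ^ 2 * (a * a) := by ring
    rw [h4]
    apply mul_le_mul_of_nonneg_left _ (sq_nonneg _)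
    apply mul_le_mul_of_nonneg_left _ ha0.le
    nlinarith
  rcases Nat.lt_trichotomy m n with h | h | h
  · have : n = m + 1 := by omega
    subst this
    exact main m
  · subst h
    rw [sub_self]
    have : 0 ≤ (Real.exp α - 1) ^ 2 * (Real.exp (α * m) * Real.exp (α * m)) := by positivity
    simpa using this
  · have : m = n + 1 := by omega
    subst this
    have := main n
    calc ((Real.exp (α * ((n + 1 : ℕ) : ℝ)) - 1) - (Real.exp (α * n) - 1)) ^ 2
        = ((Real.exp (α * n) - 1) - (Real.exp (α * ((n + 1 : ℕ) : ℝ)) - 1)) ^ 2 := by ring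
      _ ≤ _ := this
      _ = _ := by ring

theorem YCT_small (γ : ℝ) (h0 : 0 < γ) (h1 : γ ≤ 1) : (Real.exp (Real.sqrt γ / 4) - 1) ^ 2 ≤ γ / 8 := by
  have hs : 0 < Real.sqrt γ := Real.sqrt_pos.mpr h0
  have hs1 : Real.sqrt γ ≤ 1 := by
    have := Real.sqrt_le_sqrt h1
    rwa [Real.sqrt_one] at this
  have hsq : Real.sqrt γ ^ 2 = γ := Real.sq_sqrt h0.le
  set a := Real.sqrt γ / 4 with ha
  have ha0 : 0 < a := by positivity
  have ha1 : a ≤ 1 / 4 := by
    rw [ha]; linarith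
  have hb : |Real.exp a - 1 - a| ≤ a ^ 2 := Real.abs_exp_sub_one_sub_id_le (by rw [abs_of_pos ha0]; linarith)
  have hb2 : Real.exp a - 1 ≤ a + a ^ 2 := by
    have := (abs_le.mp hb).2
    linarith
  have hb3 : 0 ≤ Real.exp a - 1 := by
    have := Real.add_one_le_exp a
    linarith
  have hb4 : Real.exp a - 1 ≤ a * (5 / 4) := by nlinarith
  have hb5 : (Real.exp a - 1) ^ 2 ≤ (a * (5 / 4)) ^ 2 := pow_le_pow_left₀ hb3 hb4 2
  have hb6 : (a * (5 / 4)) ^ 2 = γ * (25 / 256) := by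
    rw [ha]
    have : (Real.sqrt γ / 4 * (5 / 4)) ^ 2 = Real.sqrt γ ^ 2 * (25 / 256) := by ring
    rw [this, hsq]
  linarith

theorem p_YCT (h_VAR : T_VAR) (h_YTP : T_YTP) : T_YCT := by
  intro d w U N V κ y γ hd hκ0 hκ1 hγ0 hγ1 hw hVN hform hlam f hf
  rcases U.eq_empty_or_nonempty with hU | hU
  · subst hU
    simp
  set m := mw κ V with hm
  have hm1 : ∀ x, m x ≤ 1 := by
    intro x
    rw [hm]
    unfold mw
    split_ifs <;> linarith
  have hm2 : ∀ x, 1 / 2 ≤ m x := by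
    intro x
    rw [hm]
    unfold mw
    split_ifs <;> linarith
  have hm0 : ∀ x, 0 < m x := fun x => by linarith [hm2 x]
  obtain ⟨Λ, g, hg, hgs, hgn, heq, hΛ⟩ := h_YTP d U m hd hU hm0
  have hmf : 0 ≤ ∑ x ∈ U, m x * f x ^ 2 := Finset.sum_nonneg fun x _ => mul_nonneg (hm0 x).le (sq_nonneg _)
  refine (hΛ f hf).trans (mul_le_mul_of_nonneg_right ?_ hmf)
  by_cases hcase : Λ ≤ lam U
  · have := Real.exp_pos (-Real.sqrt γ * w / 2)
    linarith
  push Not at hcase
  -- N is nonempty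
  have hN : N.Nonempty := by
    by_contra hcon
    rw [Finset.not_nonempty_iff_eq_empty] at hcon
    subst hcon
    have h1 := hform g (by rw [Finset.sdiff_empty]; exact hgs)
    rw [hgn] at h1
    have h2 : ∑ x ∈ U, g x * P0 g x = Λ := by
      have : ∑ x ∈ U, g x * P0 g x = Λ * ∑ x ∈ U, m x * g x ^ 2 := by
        rw [Finset.mul_sum]
        apply Finset.sum_congr rfl
        intro x hx
        rw [heq x hx]
        ring
      rw [this, hgn, mul_one]
    linarith
  set ρ := YCT_rho N with hρ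
  set α := Real.sqrt γ / 4 with hα
  have hs : 0 < Real.sqrt γ := Real.sqrt_pos.mpr hγ0
  have hα0 : 0 < α := by positivity
  set G := ∑ x ∈ U, g x ^ 2 with hG
  have hG1 : 1 ≤ G := by
    rw [← hgn, hG]
    apply Finset.sum_le_sum
    intro x _
    have := mul_le_mul_of_nonneg_right (hm1 x) (sq_nonneg (g x))
    linarith
  -- first function
  set χ : (Fin d → ℤ) → ℝ := fun x => Real.exp (α * ρ x) - 1 with hχ
  set A : (Fin d → ℤ) → ℝ := fun x => Real.exp (α * ρ x) with hA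
  set S := ∑ x ∈ U, χ x ^ 2 * g x ^ 2 with hS
  have hc1 := YCT_comm h_VAR hd U m Λ g hg hgs heq χ A ((Real.exp α - 1) ^ 2) (sq_nonneg _)
    (fun x => (Real.exp_pos _).le) (by
      intro x i
      obtain ⟨⟨a1, a2⟩, a3, a4⟩ := YCT_rho_nb N x i
      exact ⟨YCT_exp α hα0.le _ _ a2 a1, YCT_exp α hα0.le _ _ a4 a3⟩)
  have hχs : Spp (U \ N) (fun y => χ y * g y) := by
    intro x hx
    show χ x * g x = 0
    rw [Finset.mem_sdiff, not_and_or, not_not] at hx
    rcases hx with hx | hx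
    · rw [hgs x hx, mul_zero]
    · have : χ x = 0 := by
        rw [hχ]
        show Real.exp (α * (ρ x : ℝ)) - 1 = 0
        rw [hρ, YCT_rho_mem N x hx]
        simp
      rw [this, zero_mul]
  have hf1 := hform _ hχs
  have hmS : ∑ x ∈ U, m x * (χ x * g x) ^ 2 = ∑ x ∈ U, m x * (χ x ^ 2 * g x ^ 2) := by
    apply Finset.sum_congr rfl
    intro x _
    ring
  rw [hmS] at hf1
  set MS := ∑ x ∈ U, m x * (χ x ^ 2 * g x ^ 2) with hMS
  have hMS1 : S / 2 ≤ MS := by
    rw [hS, hMS, Finset.sum_div]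
    apply Finset.sum_le_sum
    intro x _
    have h0 : 0 ≤ χ x ^ 2 * g x ^ 2 := by positivity
    have := mul_le_mul_of_nonneg_right (hm2 x) h0
    linarith
  have hS0 : 0 ≤ S := Finset.sum_nonneg fun x _ => by positivity
  have hAS : ∑ x ∈ U, A x ^ 2 * g x ^ 2 ≤ 2 * (S + G) := by
    rw [hS, hG, ← Finset.sum_add_distrib, Finset.mul_sum]
    apply Finset.sum_le_sum
    intro x _
    have h1 : A x = χ x + 1 := by
      simp only [hA, hχ]
      ring
    rw [h1]
    have h2 : 0 ≤ (χ x - 1) ^ 2 * g x ^ 2 := by positivity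
    nlinarith
  have hsm := YCT_small γ hγ0 hγ1
  rw [← hα] at hsm
  have hS3 : S ≤ G := by
    have hA0 : 0 ≤ ∑ x ∈ U, A x ^ 2 * g x ^ 2 := Finset.sum_nonneg fun x _ => by positivity
    have h1 : (Λ - y) * MS ≤ (Real.exp α - 1) ^ 2 / 2 * ∑ x ∈ U, A x ^ 2 * g x ^ 2 := by
      have : (Λ - y) * MS = Λ * MS - y * MS := by ring
      rw [this]
      linarith
    have h2 : (Real.exp α - 1) ^ 2 / 2 * ∑ x ∈ U, A x ^ 2 * g x ^ 2 ≤ γ / 16 * (2 * (S + G)) := by
      apply mul_le_mul _ hAS hA0 (by positivity)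
      linarith
    have h3 : γ * (S / 2) ≤ (Λ - y) * MS := by
      apply mul_le_mul _ hMS1 (by positivity) (by linarith)
      linarith
    have h4 : γ * (S / 2) ≤ γ * ((S + G) / 8) := by linarith
    have h5 : S / 2 ≤ (S + G) / 8 := le_of_mul_le_mul_left h4 hγ0
    linarith
  have hA4 : ∑ x ∈ U, A x ^ 2 * g x ^ 2 ≤ 4 * G := by linarith
  -- second function
  set χ2 : (Fin d → ℤ) → ℝ := fun x => if ρ x ≤ w then 1 else 0 with hχ2
  set B : (Fin d → ℤ) → ℝ := fun x => if w ≤ ρ x then 1 else 0 with hB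
  have hstep : ∀ a b : ℕ, a ≤ b + 1 → b ≤ a + 1 →
      ((if a ≤ w then (1 : ℝ) else 0) - (if b ≤ w then (1 : ℝ) else 0)) ^ 2 ≤
        1 * ((if w ≤ a then (1 : ℝ) else 0) * (if w ≤ b then (1 : ℝ) else 0)) := by
    intro a b h1 h2
    by_cases ha : a ≤ w <;> by_cases hb : b ≤ w
    · rw [if_pos ha, if_pos hb, sub_self]
      split_ifs <;> norm_num
    · rw [if_pos ha, if_neg hb, if_pos (by omega), if_pos (by omega)]
      norm_num
    · rw [if_neg ha, if_pos hb, if_pos (by omega), if_pos (by omega)]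
      norm_num
    · rw [if_neg ha, if_neg hb, sub_self]
      split_ifs <;> norm_num
  have hc2 := YCT_comm h_VAR hd U m Λ g hg hgs heq χ2 B 1 zero_le_one
    (fun x => by simp only [hB]; split_ifs <;> norm_num) (by
      intro x i
      obtain ⟨⟨a1, a2⟩, a3, a4⟩ := YCT_rho_nb N x i
      exact ⟨hstep _ _ a2 a1, hstep _ _ a4 a3⟩)
  have hχ2m : ∑ x ∈ U, m x * (χ2 x ^ 2 * g x ^ 2) = ∑ x ∈ U, χ2 x ^ 2 * g x ^ 2 := by
    apply Finset.sum_congr rfl
    intro x _
    by_cases hx : ρ x ≤ w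
    · have hxV : x ∉ V := by
        intro hxV
        have h9 : w < ρ x := YCT_rho_far N hN w x (hVN x hxV)
        omega
      have : m x = 1 := by
        rw [hm]
        unfold mw
        rw [if_neg hxV]
      rw [this, one_mul]
    · have : χ2 x = 0 := by
        simp only [hχ2]
        rw [if_neg hx]
      rw [this]
      ring
  rw [hχ2m] at hc2
  have hχ2s : Spp U (fun y => χ2 y * g y) := by
    intro x hx
    show χ2 x * g x = 0
    rw [hgs x hx, mul_zero]
  have hf2 := (h_VAR d ℤ hd U).1 _ hχ2s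
  have hS2e : ∑ x ∈ U, (χ2 x * g x) ^ 2 = ∑ x ∈ U, χ2 x ^ 2 * g x ^ 2 := by
    apply Finset.sum_congr rfl
    intro x _
    ring
  rw [hS2e] at hf2
  set S2 := ∑ x ∈ U, χ2 x ^ 2 * g x ^ 2 with hS2
  set BB := ∑ x ∈ U, B x ^ 2 * g x ^ 2 with hBB
  set E := Real.exp (-Real.sqrt γ * w / 2) with hE
  have hE0 : 0 < E := Real.exp_pos _
  have hEe : E * Real.exp (2 * (α * w)) = 1 := by
    rw [hE, ← Real.exp_add, hα]
    have : -Real.sqrt γ * w / 2 + 2 * (Real.sqrt γ / 4 * w) = 0 := by ring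
    rw [this, Real.exp_zero]
  have hBB1 : BB ≤ E * (4 * G) := by
    have h1 : BB ≤ E * ∑ x ∈ U, A x ^ 2 * g x ^ 2 := by
      rw [hBB, Finset.mul_sum]
      apply Finset.sum_le_sum
      intro x _
      have h2 : B x ^ 2 ≤ E * A x ^ 2 := by
        simp only [hB, hA]
        split_ifs with hx
        · have h3 : Real.exp (2 * (α * w)) ≤ Real.exp (α * (ρ x : ℝ)) ^ 2 := by
            rw [← Real.exp_nat_mul]
            apply Real.exp_le_exp.mpr
            have : (w : ℝ) ≤ ρ x := by exact_mod_cast hx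
            have := mul_le_mul_of_nonneg_left this hα0.le
            push_cast
            linarith
          have h4 := mul_le_mul_of_nonneg_left h3 hE0.le
          rw [hEe] at h4
          norm_num
          linarith
        · have : 0 ≤ E * Real.exp (α * (ρ x : ℝ)) ^ 2 := by positivity
          simpa using this
      have := mul_le_mul_of_nonneg_right h2 (sq_nonneg (g x))
      linarith
    exact h1.trans (mul_le_mul_of_nonneg_left hA4 hE0.le)
  have hEs : E ≤ 1 / 8 := by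
    have h1 : E ≤ Real.exp (-(5 / 2)) := by
      rw [hE]
      apply Real.exp_le_exp.mpr
      have : -Real.sqrt γ * w = -(Real.sqrt γ * w) := by ring
      rw [this]
      linarith
    have h2 : Real.exp (-(5 / 2)) ≤ 1 / 8 := by
      have h3 : (2.7182818283 : ℝ) < Real.exp 1 := Real.exp_one_gt_d9
      have h4 : Real.exp (5 / 2) ^ 2 = Real.exp 1 ^ 5 := by
        rw [← Real.exp_nat_mul, ← Real.exp_nat_mul]
        norm_num
      have h5 : (8 : ℝ) ^ 2 ≤ Real.exp (5 / 2) ^ 2 := by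
        rw [h4]
        have : (2.7 : ℝ) ^ 5 ≤ Real.exp 1 ^ 5 := pow_le_pow_left₀ (by norm_num) (by linarith) 5
        norm_num at this ⊢
        linarith
      have h6 : (8 : ℝ) ≤ Real.exp (5 / 2) := by
        apply le_of_sq_le_sq h5 (Real.exp_pos _).le
      rw [Real.exp_neg, inv_eq_one_div]
      apply one_div_le_one_div_of_le (by norm_num) h6
    exact h1.trans h2
  have hS2G : G / 2 ≤ S2 := by
    have h1 : G ≤ S2 + BB := by
      rw [hG, hS2, hBB, ← Finset.sum_add_distrib]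
      apply Finset.sum_le_sum
      intro x _
      have h2 : (1 : ℝ) ≤ χ2 x ^ 2 + B x ^ 2 := by
        simp only [hχ2, hB]
        by_cases hx : ρ x ≤ w
        · rw [if_pos hx]
          split_ifs <;> norm_num
        · rw [if_neg hx, if_pos (by omega)]
          norm_num
      have := mul_le_mul_of_nonneg_right h2 (sq_nonneg (g x))
      linarith
    have h2 : E * (4 * G) ≤ 1 / 8 * (4 * G) := mul_le_mul_of_nonneg_right hEs (by linarith)
    linarith
  have hfin : (Λ - lam U) * (G / 2) ≤ 2 * E * G := by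
    have h1 : (Λ - lam U) * (G / 2) ≤ (Λ - lam U) * S2 := mul_le_mul_of_nonneg_left hS2G (by linarith)
    have h2 : (Λ - lam U) * S2 ≤ 1 / 2 * BB := by
      have : (Λ - lam U) * S2 = Λ * S2 - lam U * S2 := by ring
      rw [this]
      linarith
    linarith
  have hfin2 : (Λ - lam U) * G ≤ 4 * E * G := by linarith
  have hfin3 : Λ - lam U ≤ 4 * E := le_of_mul_le_mul_right hfin2 (by linarith)
  linarith

end

end Pool.Agent.LBL
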