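import Pool.Agent.LBL.Wlk3

set_option autoImplicit false

/-!
# LBL, target YDS: dyadic split by the maximal norm of the trajectory
-/

open Finset
open scoped Classical

namespace Pool.Agent.LBL

noncomputable section

theorem YDS_nrm_le {d : ℕ} (x : Fin d → ℤ) (m : ℕ) : nrm x ≤ m ↔ ∀ i, (x i).natAbs ≤ m := by
  unfold nrm
  rw [Finset.sup_le_iff]
  simp

theorem YDS_step {d : ℕ} (x y : Fin d → ℤ) (h : Nb x y) : nrm y ≤ nrm x + 1 := by
  rw [YDS_nrm_le]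
  intro i
  have h1 : |x i - y i| ≤ 1 := by
    unfold Nb at h
    rw [← h]
    exact Finset.single_le_sum (f := fun i => |x i - y i|) (fun j _ => abs_nonneg _)
      (Finset.mem_univ i)
  have h2 : (x i).natAbs ≤ nrm x := (YDS_nrm_le x (nrm x)).1 le_rfl i
  rw [abs_le] at h1
  omega

theorem YDS_dist {d : ℕ} (t : ℕ) (u : ℕ → Fin d → ℤ) (h : ∀ j < t, Nb (u j) (u (j + 1))) :
    ∀ k ≤ t, nrm (u k) ≤ nrm (u 0) + k := by
  intro k
  induction k with
  | zero => intro _; exact le_rfl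
  | succ k ih =>
    intro hk
    have h1 := ih (by omega)
    have h2 := YDS_step _ _ (h k (by omega))
    omega

theorem YDS_mem_cub {d k : ℕ} (x : Fin d → ℤ) : x ∈ cub d k ↔ nrm x ≤ k := by
  rw [YDS_nrm_le]
  unfold cub
  rw [Fintype.mem_piFinset]
  constructor
  · intro h i
    have := h i
    rw [Finset.mem_Icc] at this
    omega
  · intro h i
    have := h i
    rw [Finset.mem_Icc]
    omega

/-- the dyadic scale of the maximal norm -/
theorem YDS_scale {d : ℕ} (n t D0 : ℕ) (u : ℕ → Fin d → ℤ) (hD : 1 ≤ D0) (ht : t ≤ n)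
    (hy : 2 * nrm (u 0) ≤ D0) (hN : ∀ j < t, Nb (u j) (u (j + 1)))
    (hM : ∃ k ≤ t, D0 ≤ nrm (u k)) :
    ∃ j : ℕ, j < n + 2 ∧ 2 ^ j * D0 ≤ 2 * n ∧ (∃ i ≤ t, 2 ^ j * D0 ≤ nrm (u i)) ∧
      ∀ i ≤ t, nrm (u i) < 2 * (2 ^ j * D0) := by
  have hne : (Finset.range (t + 1)).Nonempty := ⟨0, by simp⟩
  obtain ⟨m, hm, hmax⟩ := Finset.exists_max_image (Finset.range (t + 1)) (fun k => nrm (u k)) hne
  rw [Finset.mem_range] at hm
  obtain ⟨k, hk, hkD⟩ := hM
  have h1 : D0 ≤ nrm (u m) := le_trans hkD (hmax k (by rw [Finset.mem_range]; omega))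
  have h2 : 1 ≤ nrm (u m) / D0 := by
    rw [Nat.le_div_iff_mul_le (by omega)]
    omega
  have h3 : 2 ^ Nat.log 2 (nrm (u m) / D0) ≤ nrm (u m) / D0 :=
    Nat.pow_log_le_self 2 (by omega)
  have h4 : nrm (u m) / D0 < 2 ^ (Nat.log 2 (nrm (u m) / D0) + 1) :=
    Nat.lt_pow_succ_log_self (by norm_num) _
  rw [Nat.le_div_iff_mul_le (by omega)] at h3
  rw [Nat.div_lt_iff_lt_mul (by omega)] at h4
  have h5 := YDS_dist t u hN m (by omega)
  generalize Nat.log 2 (nrm (u m) / D0) = j at h3 h4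
  have h6 : 2 ^ j * D0 ≤ 2 * n := by
    rcases Nat.eq_zero_or_pos j with hj | hj
    · subst hj
      simp only [pow_zero, one_mul] at h3 ⊢
      omega
    · obtain ⟨i, rfl⟩ : ∃ i, j = i + 1 := ⟨j - 1, by omega⟩
      have h7 : 1 * D0 ≤ 2 ^ i * D0 := Nat.mul_le_mul_right D0 Nat.one_le_two_pow
      rw [pow_succ] at h3 ⊢
      have h8 : 2 ^ i * 2 * D0 = 2 * (2 ^ i * D0) := by ring
      rw [h8] at h3 ⊢
      omega
  refine ⟨j, ?_, h6, ⟨m, by omega, h3⟩, ?_⟩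
  · by_contra hc
    push Not at hc
    have h7 : 2 ^ (n + 2) ≤ 2 ^ j := Nat.pow_le_pow_right (by norm_num) hc
    have h8 : 2 ^ j * 1 ≤ 2 ^ j * D0 := Nat.mul_le_mul_left _ hD
    have h9 : n < 2 ^ n := Nat.lt_two_pow_self
    have h10 : 2 ^ (n + 2) = 4 * 2 ^ n := by ring
    omega
  · intro i hi
    have h7 := hmax i (by rw [Finset.mem_range]; omega)
    have h8 : 2 ^ (j + 1) * D0 = 2 * (2 ^ j * D0) := by ring
    have h9 : nrm (u i) ≤ nrm (u m) := h7
    omega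

theorem YDS_W1 {d : ℕ} (n t D0 j : ℕ) (c1 : ℝ) (ω : Env d) (y : Fin d → ℤ) (ht : t ≤ n)
    (hy : 2 * nrm y ≤ D0)
    (hW : ∀ D : ℕ, D0 ≤ D → D ≤ 2 * n → W1 n c1 D ω) (hj : 2 ^ j * D0 ≤ 2 * n) :
    wk y t (fun u => alv ω t u ∧ (∃ i ≤ t, 2 ^ j * D0 ≤ nrm (u i)) ∧
      ∀ i ≤ t, nrm (u i) < 2 * (2 ^ j * D0)) ≤
    Real.exp (-c1 * (2 ^ j * D0)) * lam (opn ω (cub d (2 * (2 ^ j * D0)))) ^ t := by
  have h1 : D0 ≤ 2 ^ j * D0 := Nat.le_mul_of_pos_left D0 (by positivity)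
  have h2 := hW (2 ^ j * D0) h1 hj y (by omega) t ht
  push_cast at h2
  exact h2

theorem p_YDS (h_YRC : T_YRC) : T_YDS := by
  intro d n t D0 c1 ω y D' hd hD ht hy hW
  obtain ⟨-, -, -, -, -, -, -, -, hU⟩ := h_YRC d hd y t
  constructor
  · have h1 := hU (Option ℕ)
      (Finset.insertNone ((Finset.range (n + 2)).filter (fun j => 2 ^ j * D0 ≤ 2 * n)))
      (alv ω t)
      (fun o u => match o with
        | none => ∀ k ≤ t, u k ∈ opn ω (cub d D0)
        | some j => alv ω t u ∧ (∃ i ≤ t, 2 ^ j * D0 ≤ nrm (u i)) ∧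
            ∀ i ≤ t, nrm (u i) < 2 * (2 ^ j * D0)) (by
        intro u hu0 hN hA
        by_cases hc : ∃ k ≤ t, D0 ≤ nrm (u k)
        · obtain ⟨j, hj1, hj2, hj3, hj4⟩ := YDS_scale n t D0 u hD ht (by rw [hu0]; exact hy) hN hc
          refine ⟨some j, ?_, hA, hj3, hj4⟩
          rw [Finset.some_mem_insertNone, Finset.mem_filter, Finset.mem_range]
          exact ⟨hj1, hj2⟩
        · push Not at hc
          refine ⟨none, Finset.none_mem_insertNone, ?_⟩
          intro k hk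
          unfold opn
          rw [Finset.mem_filter, YDS_mem_cub]
          exact ⟨(hc k hk).le, hA k hk⟩)
    rw [Finset.sum_insertNone] at h1
    refine le_trans h1 (add_le_add le_rfl ?_)
    apply Finset.sum_le_sum
    intro j hj
    rw [Finset.mem_filter] at hj
    exact YDS_W1 n t D0 j c1 ω y ht hy hW hj.2
  · intro hD'
    have h1 := hU ℕ
      ((Finset.range (n + 2)).filter (fun j => 2 ^ j * D0 ≤ 2 * n ∧ D' < 2 * (2 ^ j * D0)))
      (fun u => alv ω t u ∧ D' ≤ nrm (u t))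
      (fun j u => alv ω t u ∧ (∃ i ≤ t, 2 ^ j * D0 ≤ nrm (u i)) ∧
            ∀ i ≤ t, nrm (u i) < 2 * (2 ^ j * D0)) (by
        intro u hu0 hN hA
        have hc : D0 ≤ nrm (u t) := by
          have : (D0 : ℝ) ≤ nrm (u t) := le_trans hD' hA.2
          exact_mod_cast this
        obtain ⟨j, hj1, hj2, hj3, hj4⟩ := YDS_scale n t D0 u hD ht (by rw [hu0]; exact hy) hN
          ⟨t, le_rfl, hc⟩
        refine ⟨j, ?_, hA.1, hj3, hj4⟩
        rw [Finset.mem_filter, Finset.mem_range]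
        refine ⟨hj1, hj2, ?_⟩
        have h5 := hj4 t le_rfl
        have h6 : (nrm (u t) : ℝ) < 2 * (2 ^ j * D0) := by exact_mod_cast h5
        exact lt_of_le_of_lt hA.2 h6)
    refine le_trans h1 ?_
    apply Finset.sum_le_sum
    intro j hj
    rw [Finset.mem_filter] at hj
    exact YDS_W1 n t D0 j c1 ω y ht hy hW hj.2.1

end

end Pool.Agent.LBL
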