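import Pool.Agent.LBL.Wlk1

set_option autoImplicit false

/-!
# LBL, part WLK, targets 2: probability, islands, accessibility

`xs d p n` is `x*`, `th d n = θ = (2ℓ/f)^d`, `sn d n = s`. Boxes have side `2ℓ`, `ℓ = ll d n`, `r = rr d n`, `f = fn d n`.
-/

open Finset MeasureTheory Filter Topology
open scoped Classical

namespace Pool.Agent.LBL

noncomputable section

/-- threshold probability `(2ℓ/f)^d` -/
def th (d n : ℕ) : ℝ := (2 * (ll d n : ℝ) / fn d n) ^ d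

/-- spectral scale -/
def sn (d n : ℕ) : ℝ := ss d (rr d n)

/-- `x*`: largest `x` with `TT x >= θ` -/
def xs (d : ℕ) (p : ℝ) (n : ℕ) : ℝ := sSup {x : ℝ | x ≤ 1 ∧ th d n ≤ TT d (2 * ll d n) p x}

/-- the number of holes of the open sites of the box `boxF a k` (on the torus of side `8ℓ`) -/
def nh {d : ℕ} (p : ℝ) (n : ℕ) (ω : Env d) (a : Fin d → ℤ) (k : ℕ) : ℝ :=
  ((hol (mm d p (d + 6) (rr d n)) ((opn ω (boxF a k)).image (red (8 * ll d n)) : Finset (Tor d (8 * ll d n)))).card : ℝ)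

/-- the box `x + [-2ℓ,2ℓ]^d` -/
def QQ {d : ℕ} (ℓ : ℕ) (x : Fin d → ℤ) : Finset (Fin d → ℤ) := boxF (fun i => x i - 2 * (ℓ : ℤ)) (4 * ℓ + 1)

/-- `x` is a good point of an island (an increasing local event) -/
def Is (d : ℕ) (p : ℝ) (n : ℕ) (c6 : ℝ) (ρ : ℕ) (x : Fin d → ℤ) : Set (Env d) :=
  {ω | (∀ z, nrm (z - x) ≤ ρ → ω z = true) ∧
    (∃ V : Finset (Fin d → ℤ), Con V ∧ x ∈ V ∧ V ⊆ opn ω (QQ (ll d n) x) ∧ xs d p n - sn d n ≤ lam V) ∧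
    c6 ≤ sv (opn ω (QQ (ll d n) x)) ⌊rr d n ^ 2⌋₊ x}

/-- the origin is joined to distance `M` inside the cube of radius `M` -/
def RM (d M : ℕ) : Set (Env d) := {ω | ∃ (k : ℕ) (u : ℕ → Fin d → ℤ), u 0 = 0 ∧ M ≤ nrm (u k) ∧
  (∀ j ≤ k, u j ∈ cub d M ∧ ω (u j) = true) ∧ ∀ j < k, Nb (u j) (u (j + 1))}

/-! ## General probability -/

/-- Bridge to `pr`: the law of finitely many coordinates. `{ω | A (...)}` is the disjoint union over `O` with `A O` of the cylinders `{ω (e x) = true iff x ∈ O}`, each of probability `p^|O| (1-p)^(n-|O|)` (`Measure.infinitePi_cylinder` or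
`infinitePi_pi`). -/
def T_YBR : Prop := ∀ (X : Type) [Fintype X] (d : ℕ) (p : ℝ) (e : X → Fin d → ℤ) (A : Finset X → Prop), 0 ≤ p → p ≤ 1 →
  Function.Injective e → (PP d p).real {ω | A (Finset.univ.filter fun x => ω (e x) = true)} = pr p A

/-- Measurability and translations. (a) A set depending on finitely many coordinates is the preimage of a subset of a finite product under a measurable map. (b) the product measure with equal factors is invariant under a permutation of the coordinates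
(`measurePreserving`, or uniqueness `Measure.eq_infinitePi`). -/
def T_YMS : Prop := ∀ (d : ℕ) (p : ℝ), 0 ≤ p → p ≤ 1 →
  (∀ (F : Finset (Fin d → ℤ)) (A : Set (Env d)), DepOn F A → MeasurableSet A) ∧
  (∀ (a : Fin d → ℤ) (A : Set (Env d)), MeasurableSet A → (PP d p).real {ω | (fun x => ω (x + a)) ∈ A} = (PP d p).real A)

/-- Independence of local events with disjoint supports (`iIndepFun_infinitePi`, or T_YBR and a product formula for `pr`). -/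
def T_YID : Prop := ∀ (d : ℕ) (p : ℝ) (I : Type) (s : Finset I) (F : I → Finset (Fin d → ℤ)) (A : I → Set (Env d)), 0 ≤ p → p ≤ 1 →
  (∀ i ∈ s, ∀ j ∈ s, i ≠ j → Disjoint (F i) (F j)) → (∀ i ∈ s, DepOn (F i) (A i)) →
  (PP d p).real {ω | ∀ i ∈ s, ω ∈ A i} = ∏ i ∈ s, (PP d p).real (A i)

/-- FKG with a conditioned part. Everything depends on the finite set `S ∪ F1 ∪ F2` (T_YBR). Given the configuration in `S`: `A` is increasing and independent of it, the section of `D` is decreasing, so (Harris, `fkg` or `four_functions_theorem` in Mathlib, product weight)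
`P(A D | S) <= P(A) P(D | S)`; sum over the configurations of `S` in `E`. -/
def T_YFK : Prop := ∀ (d : ℕ) (p : ℝ) (S F1 F2 : Finset (Fin d → ℤ)) (E A D : Set (Env d)), 0 ≤ p → p ≤ 1 →
  DepOn S E → DepOn F1 A → DepOn F2 D → Disjoint S F1 → Incr A →
  (∀ ω ω' : Env d, (∀ x, ω x = true → ω' x = true) → ω' ∈ D → ω ∈ D) →
  (PP d p).real (E ∩ A ∩ D) ≤ (PP d p).real A * (PP d p).real (E ∩ D)

/-- The event `RM M`: (1) an infinite cluster reaches every distance (cut the path at the first exit from the cube of radius `M-1`); (2) local; (3) `RM M` decreases to `Inf` (a cluster with sites of arbitrarily large norm is infinite; RM (M+1) ⊆ RM M), continuity of the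
measure; (4) measurability of `Inf = ⋂ RM M`. -/
def T_YRM : Prop := ∀ (d : ℕ) (p : ℝ), 1 ≤ d → 0 ≤ p → p ≤ 1 →
  (∀ M, Inf d ⊆ RM d M) ∧ (∀ M, DepOn (cub d M) (RM d M)) ∧ MeasurableSet (Inf d) ∧
  Tendsto (fun M : ℕ => (PP d p).real (RM d M \ Inf d)) atTop (𝓝 0)

/-! ## Tails of boxes -/

/-- Box and torus. (i) T_YZT and T_YBR with `e = rep a` (the image of the open sites of `boxF a (2ℓ)` under `red` is the set of torus points `x` with `rep a x` open). (ii) T_YIT with side `ℓ`: a cube `tbx b ℓ` with `lam (O ∩ tbx b ℓ) >= lam O - C/ℓ^2`; T_YTB: for some `σ`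
`lam (O.image (rep σ)) >= lam O - C/ℓ^2` (T_VAR monotone); union bound over the `2^d` shifts (T_PRB), T_YBR with `e = rep σ` and translation invariance T_YMS. -/
def T_YBX : Prop := ∀ d : ℕ, 1 ≤ d → ∃ C : ℝ, 0 < C ∧ ∀ (p : ℝ) (ℓ : ℕ) [NeZero (2 * ℓ)] (a : Fin d → ℤ) (x : ℝ), 0 < p → p < 1 →
  (PP d p).real {ω | x ≤ lam (opn ω (boxF a (2 * ℓ)))} ≤ TT d (2 * ℓ) p x ∧
  TT d (2 * ℓ) p x ≤ 2 ^ d * (PP d p).real {ω | x - C / ℓ ^ 2 ≤ lam (opn ω (boxF a (2 * ℓ)))}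

/-- Larger boxes: T_YIG (some grid box of index `k` meeting `boxF a k` has eigenvalue `>= x - C/ℓ^2`; there are at most `(k/ℓ+3)^d` of them), union bound, T_YBX (i), `lam` monotone. If `opn` is empty and `x <= lam = 0` the right side is at least `1`. -/
def T_YUN : Prop := ∀ d : ℕ, 1 ≤ d → ∃ C : ℝ, 0 < C ∧ ∀ (p : ℝ) (ℓ k : ℕ) [NeZero (2 * ℓ)] (a : Fin d → ℤ) (x : ℝ), 0 < p → p < 1 →
  (PP d p).real {ω | x ≤ lam (opn ω (boxF a k))} ≤ ((k : ℝ) / ℓ + 3) ^ d * TT d (2 * ℓ) p (x - C / ℓ ^ 2)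

/-- Few holes: the image of the open sites of `boxF a k` is contained in the torus configuration of the box `boxF a (8ℓ)`, which has law `pr` (T_YBR with `e = rep a`); T_HMO, T_GPB with `M = C' r^d`, `C' = B/c`. T_YSC for `Rg`. -/
def T_YHP : Prop := ∀ (d : ℕ) (p B : ℝ), 2 ≤ d → 0 < p → p < 1 → 0 < B → ∃ C' : ℝ, 0 < C' ∧ ∀ᶠ n : ℕ in atTop,
  ∀ (a : Fin d → ℤ) (k : ℕ), k ≤ 8 * ll d n → (PP d p).real {ω | C' * rr d n ^ d < nh p n ω a k} ≤ Real.exp (-B * rr d n ^ d)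

/-! ## The level `x*` -/

/-- No cliff (R2), the form used here; equals the final target of part REG. -/
def R2Y : Prop := ∀ (d K0 : ℕ) (p a A : ℝ), 2 ≤ d → 1 ≤ K0 → 0 < p → p < 1 → 0 < a → a ≤ A → ∃ C c r0 : ℝ, 0 < C ∧ 0 < c ∧ 1 < r0 ∧
  ∀ (r x : ℝ) (L : ℕ) [NeZero L], r0 ≤ r → Rg d K0 r L → Win a A r x → TT d L p (x - c * ss d r) ≤ C * TT d L p x

/-- `TT` is nonincreasing and left continuous (finitely many values of `lam`), `TT x = 1` for `x <= 0`; so the supremum is attained: `TT xs >= θ` and `TT x < θ` for `x > xs`. `θ = (2ℓ)^d r^{d(d+2)} exp(-d r^d)` (T_YSC). T_SIZ (`K0 = d+6`): `TT (1 - a/r^2) <= exp(-c a^{-d/2} r^d) < θ` for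
`a` small, and `TT (1 - A/r^2) >= exp(-C (A^{-1/2} + 1/r)^d r^d) >= θ` for `A` large. R2Y at the point `xs + c s` (in the window `[a/2, A]`): `TT xs <= C TT (xs + c s) <= C θ`. -/
def T_YXS : Prop := ∀ (d : ℕ) (p : ℝ), 2 ≤ d → 0 < p → p < 1 → ∃ a A C : ℝ, 0 < a ∧ a ≤ A ∧ 0 < C ∧ ∀ᶠ n : ℕ in atTop,
  Win a A (rr d n) (xs d p n) ∧ th d n ≤ TT d (2 * ll d n) p (xs d p n) ∧ TT d (2 * ll d n) p (xs d p n) ≤ C * th d n ∧
  1 / 2 ≤ xs d p n ∧ xs d p n < 1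

/-- The tail around `x*`: (1) T_R1F at `xs`; (2) iterate R2Y at the points `xs - i c s` (window `[a, A+1]`, as `J s r^2 <= 1`); (3) T_R1F at `xs - J s`. -/
def T_YTL : Prop := ∀ (d : ℕ) (p : ℝ), 2 ≤ d → 0 < p → p < 1 → ∃ C c : ℝ, 1 ≤ C ∧ 0 < c ∧ ∀ᶠ n : ℕ in atTop, ∀ J : ℝ, 0 ≤ J →
  TT d (2 * ll d n) p (xs d p n + J * sn d n) ≤ C * Real.exp (-c * J) * th d n ∧
  (J ≤ rr d n ^ d → TT d (2 * ll d n) p (xs d p n - J * sn d n) ≤ C * Real.exp (C * J) * th d n) ∧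
  (J ≤ rr d n ^ d → Real.exp (c * J) * th d n ≤ C * TT d (2 * ll d n) p (xs d p n - J * sn d n))

/-- Number of islands: Markov, `E |isl| <= (8n+1)^d TT (xs - 2η/r^2) <= (9n)^d C exp(2Cη r^d) θ <= n^{2Cη} r^K` (T_YBX (i), T_YTL (2) with `J = 2η r^d`, T_YSC, `exp(r^d) = n`), and `2Cη <= 1/4`. -/
def T_YLS : Prop := ∀ (d : ℕ) (p : ℝ), 2 ≤ d → 0 < p → p < 1 → ∃ η0 : ℝ, 0 < η0 ∧ ∀ η : ℝ, 0 < η → η ≤ η0 →
  Tendsto (fun n : ℕ => (PP d p).real {ω : Env d | Real.sqrt n < ((isl ω (ll d n) (4 * n) (xs d p n - 2 * η / rr d n ^ 2)).card : ℝ)}) atTop (𝓝 0)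

/-- A cube of radius `δ f` contains a good eigenvalue: `N >= (δ f/(2ℓ))^d` disjoint boxes of side `2ℓ` (T_YID), each has eigenvalue `>= xs - η/(2r^2)` with probability `q >= 2^{-d} TT (xs - η/(2r^2) + C/ℓ^2) >= 2^{-d} TT (xs - (η/4) r^d s) >= c exp(c η r^d/4) θ` (T_YBX (ii), T_YTL (3)),
so `N q → ∞` and `(1-q)^N <= exp(-N q)`. -/
def T_YLB : Prop := ∀ (d : ℕ) (p δ η : ℝ), 2 ≤ d → 0 < p → p < 1 → 0 < δ → 0 < η →
  Tendsto (fun n : ℕ => (PP d p).real {ω : Env d | lam (opn ω (cub d ⌊δ * fn d n⌋₊)) < xs d p n - η / (2 * rr d n ^ 2)}) atTop (𝓝 0)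

/-- Block paths: if `BK` fails there are a start in the cube (`(2R+1)^d` choices), a simple path (at most `(2d)^{k-1}` choices) and a set of more than `k/2` of its blocks (at most `2^k` choices) which are completely open: probability `(p^{l^d})^{#} <= p^{l^d k/2}`. The event depends on
`γ` only through `γ 0, ..., γ (k-1)`. (T_YBR or T_YID for the probability that all sites of a finite set are open.) -/
def T_YBP : Prop := ∀ (d : ℕ) (p : ℝ) (l k R : ℕ), 1 ≤ d → 0 < p → p < 1 → 1 ≤ l →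
  (PP d p).real {ω : Env d | ¬ BK ω l k R} ≤ (2 * R + 1) ^ d * (4 * d * p ^ ((l : ℝ) ^ d / 2)) ^ k

/-- The walk estimate holds with high probability. `l` with `4 d p^{l^d/2} <= exp(-1)`, `A` of T_YXS, `η` of T_YLS, `c1` of T_YWD. Union bound: T_YLS, T_YLB, and `∑_{δ f <= D <= 2n} P(¬ BK ω l (D/(8l)) D) <= ∑ (2D+1)^d exp(-(D/(8l) - 1)) → 0` (T_YBP). `cub ⌊δ f⌋ ⊆ cub (2D)`. -/
def T_YWP : Prop := ∀ (d : ℕ) (p : ℝ), 2 ≤ d → 0 < p → p < 1 → ∃ c1 : ℝ, 0 < c1 ∧ ∀ δ : ℝ, 0 < δ →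
  Tendsto (fun n : ℕ => (PP d p).real {ω : Env d | ¬ ∀ D : ℕ, δ * fn d n ≤ D → D ≤ 2 * n → W1 n c1 D ω}) atTop (𝓝 0)

/-- Upper bound of the eigenvalue of large cubes. `D_j = 2^j ⌈f⌉`; for `D_{j-1} < D <= D_j` use `lam` monotone; `P(lam (cub D_j) > xs + J (1 + (j-1)^+ log 2) s) <= (C D_j/ℓ)^d TT (xs + (J (1 + (j-1)^+ log 2) - 1) s) <= C 2^{jd} exp(-c J (1 + (j-1)^+ log 2) + c)` (T_YUN with
`cub d D = boxF (-D) (2D+1)`, `C/ℓ^2 <= s`, T_YTL (1), `θ = (2ℓ/f)^d`); the sum over `j` is small for `J` large. -/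
def T_YUB : Prop := ∀ (d : ℕ) (p ε : ℝ), 2 ≤ d → 0 < p → p < 1 → 0 < ε → ∃ J : ℝ, 0 < J ∧ ∀ᶠ n : ℕ in atTop,
  (PP d p).real {ω : Env d | ∃ D : ℕ, D ≤ 4 * n ∧ xs d p n + J * (1 + Real.log (1 + D / fn d n)) * sn d n < lam (opn ω (cub d D))} ≤ ε

/-- Upper bound of the eigenvalue of a small cube: `(C √c f/ℓ)^d TT (xs - (c7 log(1/c) + 1) s) <= C' c^{d/2} exp(C c7 log(1/c))` (T_YUN, T_YTL (2)), `c7 = d/(4C)`. -/
def T_YSH : Prop := ∀ (d : ℕ) (p : ℝ), 2 ≤ d → 0 < p → p < 1 → ∃ c7 : ℝ, 0 < c7 ∧ ∀ ε : ℝ, 0 < ε → ∃ c0 : ℝ, 0 < c0 ∧ ∀ c : ℝ, 0 < c → c ≤ c0 → ∀ᶠ n : ℕ in atTop,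
  (PP d p).real {ω : Env d | xs d p n - c7 * Real.log (1 / c) * sn d n < lam (opn ω (cub d ⌈Real.sqrt c * fn d n⌉₊))} ≤ ε

/-! ## Accessible islands -/

/-- `Is` is increasing (T_YSM, `opn` monotone, T_YSM) and local. -/
def T_YAI : Prop := ∀ (d : ℕ) (p : ℝ) (n : ℕ) (c6 : ℝ) (ρ : ℕ) (x : Fin d → ℤ), 1 ≤ d → Incr (Is d p n c6 ρ x) ∧
  (ρ ≤ 2 * ll d n → DepOn (QQ (ll d n) x) (Is d p n c6 ρ x))

/-- Many good points in a good box: T_YIS (`K0 = d+6`, `A` from T_YXS plus one) for `O = opn ω (boxF a (2ℓ))`; every `x` in the box has `boxF a (2ℓ) ⊆ QQ ℓ x`, `V ⊆ O`, and `sv V <= sv (opn ω (QQ ℓ x))` (T_YSM). `c, c6` do not depend on `ρ`. -/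
def T_YGB : Prop := ∀ (d : ℕ) (p C' : ℝ), 2 ≤ d → 0 < p → p < 1 → 0 < C' → ∃ c c6 : ℝ, 0 < c ∧ 0 < c6 ∧ ∀ ρ : ℕ, ∀ᶠ n : ℕ in atTop,
  ∀ (a : Fin d → ℤ) (ω : Env d), xs d p n - sn d n ≤ lam (opn ω (boxF a (2 * ll d n))) → nh p n ω a (2 * ll d n) ≤ C' * rr d n ^ d →
  c * rr d n ^ d ≤ (((boxF a (2 * ll d n)).filter fun x => ω ∈ Is d p n c6 ρ x).card : ℝ)

/-- Expected number of good points in a box. `a' = a - 2ℓ`; for `x ∈ boxF a (2ℓ)`: `QQ ℓ x ⊆ boxF a' (6ℓ) =: Q3`. If `nh p n ω a' (6ℓ) <= C' r^d` then (T_YCU with `O = opn ω Q3`, T_YSM) at most `C r^d` points `x` have `ω ∈ Is x`, and none if `lam (opn ω Q3) < xs - s`. So the sum of the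
probabilities is at most `(2ℓ)^d exp(-B r^d) + C r^d P(lam (opn ω Q3) >= xs - s)`, `C'` from T_YHP with `B = d+1`, `(2ℓ)^d exp(-(d+1) r^d) <= θ`, and T_YUN, T_YTL (2) (`J = 2`). -/
def T_YEA : Prop := ∀ (d : ℕ) (p c6 : ℝ), 2 ≤ d → 0 < p → p < 1 → 0 < c6 → ∃ C : ℝ, 0 < C ∧ ∀ ρ : ℕ, ∀ᶠ n : ℕ in atTop,
  ∀ a : Fin d → ℤ, ∑ x ∈ boxF a (2 * ll d n), (PP d p).real (Is d p n c6 ρ x) ≤ C * rr d n ^ d * th d n

/-- Good boxes exist. `C'` from T_YHP with `B = d+1`. The boxes `a = (⌈f⌉ + 2ℓ j_i)_i` in `[f, K f)^d` are disjoint, `N >= ((K-2) f/(2ℓ))^d`; each is good with probability `q >= 2^{-d} TT (xs) - exp(-(d+1) r^d) >= 2^{-d-1} θ` (T_YBX (ii) with `C/ℓ^2 <= s`, T_YXS); T_YID: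
`P(no good box) <= exp(-q N) <= exp(-2^{-d-1} (K-2)^d)`. -/
def T_YGG : Prop := ∀ (d : ℕ) (p : ℝ), 2 ≤ d → 0 < p → p < 1 → ∃ C' : ℝ, 0 < C' ∧ ∀ ε : ℝ, 0 < ε → ∃ K : ℝ, 1 ≤ K ∧ ∀ᶠ n : ℕ in atTop,
  (PP d p).real {ω : Env d | ¬ ∃ a : Fin d → ℤ, (∀ x ∈ boxF a (2 * ll d n), fn d n ≤ nrm x ∧ (nrm x : ℝ) ≤ K * fn d n) ∧
    xs d p n - sn d n ≤ lam (opn ω (boxF a (2 * ll d n))) ∧ nh p n ω a (2 * ll d n) ≤ C' * rr d n ^ d} ≤ ε

/-- An island is accessible. Order of constants: `C'` (T_YGG), `c, c6` (T_YGB), `C_E` (T_YEA), `K` (T_YGG with `ε/3`), `C9 = (4K+3)^d C_E 2^d`, `ε1 = ε c/(6 C9)`, `ρ, C_L` (LIN with `ε1`), `M` (T_YRM: `P(RM M \ Inf) <= ε1`). `D_x` = no open path of length `<= C_L (nrm x + 1)` from `0` to the cube of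
radius `ρ` around `x` (decreasing, local). For `f <= nrm x`: `P(RM M, Is x, D_x) <= P(Is x) P(RM M, D_x) <= 2 ε1 P(Is x)` (T_YFK, T_YAI; `QQ ℓ x` is disjoint from `cub M`). If `ω ∈ Inf`, a good box exists and every `x` with `f <= nrm x <= K f`, `ω ∈ Is x`, is in `D_x`, then (T_YGB) at least `c r^d` points
`x` have `ω ∈ RM M ∩ Is x ∩ D_x`; Markov and T_YEA (cover the cube of radius `K f` by `(K f/ℓ + 3)^d` boxes): probability `<= 2 ε1 C9/c`. Otherwise take `x ∈ Is` not in `D_x`: join the path to `x` inside the open cube of radius `ρ` (at most `d ρ` more steps). -/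
def T_YAC : Prop := ∀ (d : ℕ) (p : ℝ), 2 ≤ d → 0 < p → p < 1 → LIN d p → ∀ ε : ℝ, 0 < ε → ∃ K : ℝ, 0 < K ∧ ∀ᶠ n : ℕ in atTop,
  (PP d p).real {ω : Env d | ω ∈ Inf d ∧ ¬ ∃ (x : Fin d → ℤ) (k : ℕ) (V : Finset (Fin d → ℤ)), (k : ℝ) ≤ K * fn d n ∧ Pth ω k 0 x ∧ x ∈ V ∧ Con V ∧
    (∀ v ∈ V, ω v = true) ∧ V.card ≤ (4 * ll d n + 1) ^ d ∧ xs d p n - sn d n ≤ lam V} ≤ ε

/-- Lower bound of the survival probability: T_YAC, T_YPL: `z` = argmax in `V`, joined to `x` inside `V` by at most `|V|` steps (`Con`), so by an open path of length `k' <= K f + (4ℓ+1)^d <= (K+1) f` to the origin; `wk 0 n >= (2d)^{-k'} (lam V)^n >= (2d)^{-(K+1) f} (xs - s)^n`, and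
`(1 - s/xs)^n >= exp(-4 n s) = exp(-4 f)` (`xs >= 1/2`, `n s = f`, T_YSC). -/
def T_YSR : Prop := ∀ (d : ℕ) (p : ℝ), 2 ≤ d → 0 < p → p < 1 → LIN d p → ∀ ε : ℝ, 0 < ε → ∃ C0 : ℝ, 0 < C0 ∧ ∀ᶠ n : ℕ in atTop,
  (PP d p).real {ω : Env d | ω ∈ Inf d ∧ wk 0 n (alv ω n) < xs d p n ^ n * Real.exp (-C0 * fn d n)} ≤ ε

end

end Pool.Agent.LBL
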