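import Pool.Agent.LBL.Targets1
import Pool.Agent.LBL.Wlk2

set_option autoImplicit false

/-!
# LBL, target YEA: expected number of good points in a box
-/

open Finset MeasureTheory Filter Topology
open scoped Classical

namespace Pool.Agent.LBL

noncomputable section

/-- integration of a pointwise bound of a counting function -/
theorem YEA_int {Ω I : Type} [MeasurableSpace Ω] (μ : Measure Ω) [IsProbabilityMeasure μ] (s : Finset I)
    (A : I → Set Ω) (H G : Set Ω) (N K : ℝ) (hA : ∀ i ∈ s, MeasurableSet (A i)) (hH : MeasurableSet H)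
    (hG : MeasurableSet G)
    (hle : ∀ ω, ((s.filter fun i => ω ∈ A i).card : ℝ) ≤
      N * (if ω ∈ H then 1 else 0) + K * (if ω ∈ G then 1 else 0)) :
    ∑ i ∈ s, μ.real (A i) ≤ N * μ.real H + K * μ.real G := by
  have h1 : ∀ (S : Set Ω), MeasurableSet S → ∫ ω, S.indicator (fun _ => (1 : ℝ)) ω ∂μ = μ.real S := by
    intro S hS
    rw [integral_indicator_const _ hS]
    simp
  have hi : ∀ (S : Set Ω), MeasurableSet S → Integrable (S.indicator (fun _ => (1 : ℝ))) μ := by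
    intro S hS
    exact (integrable_const (1 : ℝ)).indicator hS
  have hsum : ∑ i ∈ s, μ.real (A i) = ∫ ω, ∑ i ∈ s, (A i).indicator (fun _ => (1 : ℝ)) ω ∂μ := by
    rw [integral_finsetSum _ fun i hi' => hi _ (hA i hi')]
    apply Finset.sum_congr rfl
    intro i hi'
    rw [h1 _ (hA i hi')]
  have hright : N * μ.real H + K * μ.real G =
      ∫ ω, (N * H.indicator (fun _ => (1 : ℝ)) ω + K * G.indicator (fun _ => (1 : ℝ)) ω) ∂μ := by
    rw [integral_add ((hi H hH).const_mul N) ((hi G hG).const_mul K), integral_const_mul,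
      integral_const_mul, h1 H hH, h1 G hG]
  rw [hsum, hright]
  apply integral_mono
  · exact integrable_finsetSum _ fun i hi' => hi _ (hA i hi')
  · exact ((hi H hH).const_mul N).add ((hi G hG).const_mul K)
  · intro ω
    have h2 := hle ω
    have h3 : (∑ i ∈ s, (A i).indicator (fun _ => (1 : ℝ)) ω) = ((s.filter fun i => ω ∈ A i).card : ℝ) := by
      rw [Finset.card_filter]
      push_cast
      apply Finset.sum_congr rfl
      intro i _
      rw [Set.indicator_apply]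
    have h4 : H.indicator (fun _ => (1 : ℝ)) ω = if ω ∈ H then 1 else 0 := Set.indicator_apply _ _ _
    have h5 : G.indicator (fun _ => (1 : ℝ)) ω = if ω ∈ G then 1 else 0 := Set.indicator_apply _ _ _
    show (∑ i ∈ s, (A i).indicator (fun _ => (1 : ℝ)) ω) ≤
      N * H.indicator (fun _ => (1 : ℝ)) ω + K * G.indicator (fun _ => (1 : ℝ)) ω
    rw [h3, h4, h5]
    exact h2

theorem YEA_opn {d : ℕ} {ω ω' : Env d} {F : Finset (Fin d → ℤ)} (h : ∀ x ∈ F, ω x = ω' x) :
    opn ω F = opn ω' F := by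
  unfold opn
  apply Finset.filter_congr
  intro x hx
  rw [h x hx]

theorem YEA_card {d : ℕ} (a : Fin d → ℤ) (k : ℕ) : ((boxF a k).card : ℝ) = (k : ℝ) ^ d := by
  unfold boxF
  rw [Fintype.card_piFinset]
  simp

theorem YEA_mem {d : ℕ} (a : Fin d → ℤ) (k : ℕ) (x : Fin d → ℤ) :
    x ∈ boxF a k ↔ ∀ i, a i ≤ x i ∧ x i < a i + k := by
  unfold boxF
  rw [Fintype.mem_piFinset]
  simp [Finset.mem_Ico]

theorem YEA_sub {d : ℕ} (a : Fin d → ℤ) (ℓ : ℕ) (x : Fin d → ℤ) (hx : x ∈ boxF a (2 * ℓ)) :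
    QQ ℓ x ⊆ boxF (fun i => a i - 2 * (ℓ : ℤ)) (6 * ℓ) ∧ x ∈ boxF (fun i => a i - 2 * (ℓ : ℤ)) (6 * ℓ) := by
  rw [YEA_mem] at hx
  constructor
  · intro y hy
    unfold QQ at hy
    rw [YEA_mem] at hy ⊢
    intro i
    have h1 := hx i
    have h2 := hy i
    push_cast at h1 h2 ⊢
    constructor <;> omega
  · rw [YEA_mem]
    intro i
    have h1 := hx i
    push_cast at h1 ⊢
    constructor <;> omega

theorem p_YEA (h_YCU : T_YCU) (h_YSM : T_YSM) (h_YHP : T_YHP) (h_YUN : T_YUN) (h_YTL : T_YTL)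
    (h_YSC : T_YSC) (h_YAI : T_YAI) (h_YMS : T_YMS) (h_VAR : T_VAR) (h_PRB : T_PRB) : T_YEA := by
  intro d p c6 hd hp0 hp1 hc6
  have hd1 : 1 ≤ d := by omega
  have hd0 : (0 : ℝ) < d := by exact_mod_cast (by omega : 0 < d)
  obtain ⟨C', hC', hHP⟩ := h_YHP d p d hd hp0 hp1 hd0
  obtain ⟨Cc, r1, hCc, hr1, hCU⟩ := h_YCU d (d + 6) p C' c6 hd (by omega) hp0 hp1 hC' hc6
  obtain ⟨Cu, hCu, hUN⟩ := h_YUN d hd1
  obtain ⟨CT, cT, hCT, _, hTL⟩ := h_YTL d p hd hp0 hp1
  obtain ⟨hS1, hS2, hS3, hS4, _⟩ := h_YSC d hd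
  have hprob : IsProbabilityMeasure (PP d p) := PP_prob d hp0.le hp1.le
  refine ⟨1 + Cc * (9 ^ d * (CT * Real.exp (CT * 2))), by positivity, ?_⟩
  intro ρ
  filter_upwards [hHP, hTL, hS1 r1, hS1 2, hS1 ρ, hS2, hS4 Cu, eventually_ge_atTop 2] with n hHPn hTLn hnr1 hn2 hnρ hRg hCun hn
  intro a
  obtain ⟨hfn, hrd, hr0, hf0⟩ := hS3 n hn
  obtain ⟨_, hRg8, _⟩ := hRg
  set r := rr d n with hr_def
  set ℓ := ll d n with hℓ_def
  have hr1' : 1 ≤ r := by linarith
  have hℓr : r ≤ ℓ := by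
    have h1 : r ^ (d + 4) ≤ (ℓ : ℝ) := by
      rw [hℓ_def]
      unfold ll
      push_cast
      have := Nat.le_ceil (rr d n ^ (d + 4))
      linarith
    have h2 : r ^ 1 ≤ r ^ (d + 4) := pow_le_pow_right₀ hr1' (by omega)
    rw [pow_one] at h2
    linarith
  have hℓρ : ρ ≤ 2 * ℓ := by
    have h1 : (ρ : ℝ) ≤ (ℓ : ℝ) := by linarith
    have h2 : ρ ≤ ℓ := by exact_mod_cast h1
    omega
  have hℓ0 : (0 : ℝ) < ℓ := by linarith
  set a' : Fin d → ℤ := fun i => a i - 2 * (ℓ : ℤ) with ha'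
  set Q3 := boxF a' (6 * ℓ) with hQ3
  set H : Set (Env d) := {ω | C' * r ^ d < nh p n ω a' (6 * ℓ)} with hH
  set G : Set (Env d) := {ω | xs d p n - sn d n ≤ lam (opn ω Q3)} with hG
  obtain ⟨hmeas, _⟩ := h_YMS d p hp0.le hp1.le
  have hHm : MeasurableSet H := by
    apply hmeas Q3
    intro ω ω' hω h
    rw [hH, Set.mem_setOf_eq] at h ⊢
    have e : nh p n ω' a' (6 * ℓ) = nh p n ω a' (6 * ℓ) := by
      unfold nh
      rw [YEA_opn hω]
    rw [e]
    exact h
  have hGm : MeasurableSet G := by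
    apply hmeas Q3
    intro ω ω' hω h
    rw [hG, Set.mem_setOf_eq] at h ⊢
    rw [← YEA_opn hω]
    exact h
  have hAm : ∀ x ∈ boxF a (2 * ℓ), MeasurableSet (Is d p n c6 ρ x) := by
    intro x _
    exact hmeas _ _ ((h_YAI d p n c6 ρ x hd1).2 hℓρ)
  have hcount : ∀ ω : Env d, (((boxF a (2 * ℓ)).filter fun x => ω ∈ Is d p n c6 ρ x).card : ℝ) ≤
      (2 * ℓ : ℝ) ^ d * (if ω ∈ H then 1 else 0) + Cc * r ^ d * (if ω ∈ G then 1 else 0) := by
    intro ω
    by_cases hωH : ω ∈ H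
    · rw [if_pos hωH]
      have h1 : (((boxF a (2 * ℓ)).filter fun x => ω ∈ Is d p n c6 ρ x).card : ℝ) ≤ ((boxF a (2 * ℓ)).card : ℝ) := by
        exact_mod_cast Finset.card_filter_le _ _
      rw [YEA_card] at h1
      have h2 : (0 : ℝ) ≤ Cc * r ^ d * (if ω ∈ G then 1 else 0) := by
        split_ifs
        · positivity
        · simp
      push_cast at h1
      linarith
    · rw [if_neg hωH, mul_zero, zero_add]
      by_cases hωG : ω ∈ G
      · rw [if_pos hωG, mul_one]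
        have hnh : nh p n ω a' (6 * ℓ) ≤ C' * r ^ d := by
          rw [hH, Set.mem_setOf_eq, not_lt] at hωH
          exact hωH
        have h1 := hCU r ℓ hnr1 hRg8 a' (opn ω Q3) (Finset.filter_subset _ _) hnh
        refine le_trans ?_ h1
        have h2 : ((boxF a (2 * ℓ)).filter fun x => ω ∈ Is d p n c6 ρ x).card ≤
            ((opn ω Q3).filter fun x => c6 ≤ sv (opn ω Q3) ⌊r ^ 2⌋₊ x).card := by
          apply Finset.card_le_card
          intro x hx
          rw [Finset.mem_filter] at hx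
          obtain ⟨hx1, hx2, _, hx4⟩ := hx
          obtain ⟨hsub, hmem⟩ := YEA_sub a ℓ x hx1
          have hopn : opn ω (QQ ℓ x) ⊆ opn ω Q3 := Finset.filter_subset_filter _ hsub
          rw [Finset.mem_filter]
          constructor
          · unfold opn
            rw [Finset.mem_filter]
            refine ⟨hmem, hx2 x ?_⟩
            have : nrm (x - x) = 0 := by
              unfold nrm
              simp
            omega
          · exact hx4.trans (h_YSM d _ _ _ x hd1 hopn).2.1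
        exact_mod_cast h2
      · rw [if_neg hωG, mul_zero]
        have h2 : ((boxF a (2 * ℓ)).filter fun x => ω ∈ Is d p n c6 ρ x) = ∅ := by
          rw [Finset.filter_eq_empty_iff]
          intro x hx1 hx
          obtain ⟨_, ⟨V, _, _, hV, hlam⟩, _⟩ := hx
          obtain ⟨hsub, _⟩ := YEA_sub a ℓ x hx1
          have hopn : opn ω (QQ ℓ x) ⊆ opn ω Q3 := Finset.filter_subset_filter _ hsub
          apply hωG
          rw [hG, Set.mem_setOf_eq]
          exact hlam.trans ((h_VAR d ℤ hd1 V).2.2.2.1 (opn ω Q3) (hV.trans hopn))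
        rw [h2]
        simp
  have hmain := YEA_int (PP d p) (boxF a (2 * ℓ)) (fun x => Is d p n c6 ρ x) H G ((2 * ℓ : ℝ) ^ d) (Cc * r ^ d)
    hAm hHm hGm hcount
  -- probabilities
  have hPH : (PP d p).real H ≤ Real.exp (-(d : ℝ) * r ^ d) := hHPn a' (6 * ℓ) (by omega)
  have hPG : (PP d p).real G ≤ 9 ^ d * (CT * Real.exp (CT * 2) * th d n) := by
    have h1 := hUN p ℓ (6 * ℓ) a' (xs d p n - sn d n) hp0 hp1
    refine h1.trans ?_
    have h2 : (((6 * ℓ : ℕ) : ℝ) / ℓ + 3) = 9 := by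
      push_cast
      field_simp
      norm_num
    rw [h2]
    apply mul_le_mul_of_nonneg_left _ (by positivity)
    have h3 : TT d (2 * ℓ) p (xs d p n - sn d n - Cu / (ℓ : ℝ) ^ 2) ≤ TT d (2 * ℓ) p (xs d p n - 2 * sn d n) := by
      unfold TT
      apply (h_PRB (Tor d (2 * ℓ)) p hp0 hp1).2.2.1
      intro O hO
      refine le_trans ?_ hO
      have : Cu / (ℓ : ℝ) ^ 2 ≤ sn d n := hCun
      linarith
    refine h3.trans ?_
    refine ((hTLn 2 (by norm_num)).2.1 ?_).trans (le_of_eq (by ring))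
    have h4 : r ^ 1 ≤ r ^ d := pow_le_pow_right₀ hr1' hd1
    rw [pow_one] at h4
    linarith
  -- the first term
  have hθ : th d n = (2 * (ℓ : ℝ)) ^ d / fn d n ^ d := by
    unfold th
    rw [div_pow]
  have hrd1 : 1 ≤ r ^ d := one_le_pow₀ hr1'
  have hfn1 : fn d n ^ d ≤ Real.exp ((d : ℝ) * r ^ d) := by
    have h1 : fn d n ≤ n := by
      rw [hfn]
      have h2 : ss d r ≤ 1 := by
        unfold ss
        apply Real.rpow_le_one_of_one_le_of_nonpos hr1'
        linarith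
      have h3 : (0 : ℝ) ≤ n := by positivity
      calc (n : ℝ) * ss d r ≤ n * 1 := mul_le_mul_of_nonneg_left h2 h3
        _ = n := mul_one _
    have hn0 : (0 : ℝ) < n := by exact_mod_cast (by omega : 0 < n)
    have h4 : Real.exp ((d : ℝ) * r ^ d) = (n : ℝ) ^ d := by
      rw [hrd, Real.exp_nat_mul, Real.exp_log hn0]
    rw [h4]
    exact pow_le_pow_left₀ hf0.le h1 d
  have hfirst : (2 * (ℓ : ℝ)) ^ d * Real.exp (-(d : ℝ) * r ^ d) ≤ r ^ d * th d n := by
    have hfd : 0 < fn d n ^ d := pow_pos hf0 d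
    have h1 : Real.exp (-(d : ℝ) * r ^ d) ≤ 1 / fn d n ^ d := by
      rw [le_div_iff₀ hfd]
      calc Real.exp (-(d : ℝ) * r ^ d) * fn d n ^ d ≤ Real.exp (-(d : ℝ) * r ^ d) * Real.exp ((d : ℝ) * r ^ d) :=
            mul_le_mul_of_nonneg_left hfn1 (Real.exp_pos _).le
        _ = 1 := by rw [← Real.exp_add]; simp
    calc (2 * (ℓ : ℝ)) ^ d * Real.exp (-(d : ℝ) * r ^ d) ≤ (2 * (ℓ : ℝ)) ^ d * (1 / fn d n ^ d) :=
          mul_le_mul_of_nonneg_left h1 (by positivity)
      _ = 1 * th d n := by rw [hθ]; ring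
      _ ≤ r ^ d * th d n := by
          apply mul_le_mul_of_nonneg_right hrd1
          rw [hθ]
          positivity
  calc ∑ x ∈ boxF a (2 * ℓ), (PP d p).real (Is d p n c6 ρ x)
      ≤ (2 * (ℓ : ℝ)) ^ d * (PP d p).real H + Cc * r ^ d * (PP d p).real G := hmain
    _ ≤ (2 * (ℓ : ℝ)) ^ d * Real.exp (-(d : ℝ) * r ^ d) + Cc * r ^ d * (9 ^ d * (CT * Real.exp (CT * 2) * th d n)) := by
        apply add_le_add
        · exact mul_le_mul_of_nonneg_left hPH (by positivity)
        · exact mul_le_mul_of_nonneg_left hPG (by positivity)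
    _ ≤ r ^ d * th d n + Cc * r ^ d * (9 ^ d * (CT * Real.exp (CT * 2) * th d n)) := by
        linarith
    _ = (1 + Cc * (9 ^ d * (CT * Real.exp (CT * 2)))) * r ^ d * th d n := by ring

end

end Pool.Agent.LBL
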