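import Pool.Agent.LBL.Wlk1
import Pool.Agent.LBL.Targets1

set_option autoImplicit false

/-!
# LBL-YEN: energy on `ℤ^d`
-/

open Finset
open scoped Classical

namespace Pool.Agent.LBL

noncomputable section

namespace YEN_

variable {d : ℕ}

theorem fs {O : Finset (Fin d → ℤ)} {F : (Fin d → ℤ) → ℝ} (h : ∀ x, x ∉ O → F x = 0) :
    ∑ x ∈ O, F x = ∑ᶠ x, F x := by
  symm
  apply finsum_eq_sum_of_support_subset
  intro x hx
  by_contra hx'
  exact hx (h x hx')

theorem fshift (F : (Fin d → ℤ) → ℝ) (v : Fin d → ℤ) : ∑ᶠ x, F (x + v) = ∑ᶠ x, F x :=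
  finsum_comp_equiv (Equiv.addRight v)

/-- correlation -/
def S (f : (Fin d → ℤ) → ℝ) (i : Fin d) : ℝ := ∑ᶠ x, f x * f (x + ev i)

/-- the base points of the edges meeting `O` -/
def Q (O : Finset (Fin d → ℤ)) : Finset (Fin d → ℤ) :=
  O ∪ Finset.univ.biUnion fun i : Fin d => O.image fun x => x - ev i

theorem mem_Q {O : Finset (Fin d → ℤ)} {x : Fin d → ℤ} (h : x ∉ Q O) :
    x ∉ O ∧ ∀ i, x + ev i ∉ O := by
  unfold Q at h
  rw [Finset.mem_union, not_or] at h
  refine ⟨h.1, fun i hi => h.2 ?_⟩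
  rw [Finset.mem_biUnion]
  exact ⟨i, Finset.mem_univ _, Finset.mem_image.2 ⟨x + ev i, hi, add_sub_cancel_right _ _⟩⟩

theorem form {O : Finset (Fin d → ℤ)} {f : (Fin d → ℤ) → ℝ} (hd : 1 ≤ d) (hf : Spp O f) :
    2 * d * ∑ x ∈ O, f x * P0 f x = 2 * ∑ i, S f i := by
  have hd0 : (d : ℝ) ≠ 0 := by
    have : d ≠ 0 := by omega
    exact_mod_cast this
  have h1 : 2 * d * ∑ x ∈ O, f x * P0 f x =
      ∑ i, (∑ x ∈ O, f x * f (x + ev i) + ∑ x ∈ O, f x * f (x - ev i)) := by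
    simp only [← Finset.sum_add_distrib]
    rw [Finset.sum_comm, Finset.mul_sum]
    refine Finset.sum_congr rfl fun x _ => ?_
    unfold P0
    rw [← Finset.sum_congr rfl fun i _ => mul_add (f x) (f (x + ev i)) (f (x - ev i)),
      ← Finset.mul_sum]
    field_simp
  rw [h1, Finset.mul_sum]
  refine Finset.sum_congr rfl fun i _ => ?_
  have h2 : ∑ x ∈ O, f x * f (x + ev i) = S f i := fs fun x hx => by rw [hf x hx, zero_mul]
  have h3 : ∑ x ∈ O, f x * f (x - ev i) = S f i := by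
    rw [fs (O := O) (F := fun x => f x * f (x - ev i)) fun x hx => by rw [hf x hx, zero_mul],
      ← fshift (fun x => f x * f (x - ev i)) (ev i)]
    unfold S
    refine finsum_congr fun x => ?_
    rw [add_sub_cancel_right, mul_comm]
  rw [h2, h3]
  ring

theorem energy {O : Finset (Fin d → ℤ)} {f : (Fin d → ℤ) → ℝ} (hd : 1 ≤ d) (hf : Spp O f) (s : ℝ)
    (hs : s ^ 2 = 1) : ∑ e ∈ Q O ×ˢ (Finset.univ : Finset (Fin d)), (f (e.1 + ev e.2) + s * f e.1) ^ 2 =
      2 * d * (∑ x ∈ O, f x ^ 2 + s * ∑ x ∈ O, f x * P0 f x) := by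
  rw [Finset.sum_product_right]
  have h1 : ∀ i : Fin d, ∑ x ∈ Q O, (f (x + ev i) + s * f x) ^ 2 =
      2 * ∑ x ∈ O, f x ^ 2 + 2 * s * S f i := by
    intro i
    have a1 : ∑ x ∈ Q O, f (x + ev i) ^ 2 = ∑ x ∈ O, f x ^ 2 := by
      rw [fs (O := Q O) (F := fun x => f (x + ev i) ^ 2) fun x hx => by
        rw [hf _ ((mem_Q hx).2 i)]; norm_num, fshift (fun x => f x ^ 2) (ev i)]
      symm
      exact fs fun x hx => by rw [hf x hx]; norm_num
    have a2 : ∑ x ∈ Q O, f x ^ 2 = ∑ x ∈ O, f x ^ 2 := by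
      rw [fs (O := Q O) (F := fun x => f x ^ 2) fun x hx => by
        rw [hf _ (mem_Q hx).1]; norm_num]
      symm
      exact fs fun x hx => by rw [hf x hx]; norm_num
    have a3 : ∑ x ∈ Q O, f x * f (x + ev i) = S f i :=
      fs fun x hx => by rw [hf _ (mem_Q hx).1, zero_mul]
    have e : ∀ x, (f (x + ev i) + s * f x) ^ 2 =
        f (x + ev i) ^ 2 + f x ^ 2 + 2 * s * (f x * f (x + ev i)) := by
      intro x
      linear_combination (f x ^ 2) * hs
    rw [Finset.sum_congr rfl fun x _ => e x, Finset.sum_add_distrib, Finset.sum_add_distrib,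
      ← Finset.mul_sum, a1, a2, a3]
    ring
  simp only
  rw [Finset.sum_congr rfl fun i _ => h1 i, Finset.sum_add_distrib, Finset.sum_const,
    Finset.card_univ, Fintype.card_fin, nsmul_eq_mul, ← Finset.mul_sum]
  have := form hd hf
  linear_combination (-s) * this

end YEN_

theorem p_YEN : T_YEN := by
  intro d O f hd hf
  have hd0 : (0 : ℝ) < d := by exact_mod_cast (show 0 < d by omega)
  have hE := YEN_.energy hd hf (-1) (by norm_num)
  have hE' := YEN_.energy hd hf 1 (by norm_num)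
  have hE2 : ∑ e ∈ YEN_.Q O ×ˢ (Finset.univ : Finset (Fin d)), (f (e.1 + ev e.2) - f e.1) ^ 2 =
      2 * d * (∑ x ∈ O, f x ^ 2 - ∑ x ∈ O, f x * P0 f x) := by
    have e : ∀ e : (Fin d → ℤ) × Fin d, (f (e.1 + ev e.2) - f e.1) ^ 2 =
        (f (e.1 + ev e.2) + (-1) * f e.1) ^ 2 := by
      intro e
      ring
    rw [Finset.sum_congr rfl fun x _ => e x, hE]
    ring
  refine ⟨fun W => ?_, ⟨_, hE2⟩, ?_⟩
  · rw [← hE2]
    have h1 : ∑ e ∈ W, (f (e.1 + ev e.2) - f e.1) ^ 2 ≤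
        ∑ e ∈ W ∪ YEN_.Q O ×ˢ (Finset.univ : Finset (Fin d)), (f (e.1 + ev e.2) - f e.1) ^ 2 :=
      Finset.sum_le_sum_of_subset_of_nonneg Finset.subset_union_left fun _ _ _ => sq_nonneg _
    refine h1.trans (le_of_eq ?_)
    symm
    apply Finset.sum_subset Finset.subset_union_right
    intro e _ he
    have h2 : e.1 ∉ YEN_.Q O := by
      intro h
      exact he (Finset.mem_product.2 ⟨h, Finset.mem_univ _⟩)
    have h3 := YEN_.mem_Q h2
    rw [hf _ h3.1, hf _ (h3.2 e.2)]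
    norm_num
  · have a1 : 0 ≤ 2 * (d : ℝ) * (∑ x ∈ O, f x ^ 2 - ∑ x ∈ O, f x * P0 f x) := by
      rw [← hE2]
      exact Finset.sum_nonneg fun _ _ => sq_nonneg _
    have a2 : 0 ≤ 2 * (d : ℝ) * (∑ x ∈ O, f x ^ 2 + 1 * ∑ x ∈ O, f x * P0 f x) := by
      rw [← hE']
      exact Finset.sum_nonneg fun _ _ => sq_nonneg _
    have b1 := nonneg_of_mul_nonneg_right a1 (by positivity)
    have b2 := nonneg_of_mul_nonneg_right a2 (by positivity)
    rw [abs_le]
    constructor <;> linarith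

end

end Pool.Agent.LBL
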