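import Pool.Agent.LBL.Wlk2

set_option autoImplicit false

open Finset MeasureTheory Filter Topology
open scoped Classical

namespace Pool.Agent.LBL

section fin

variable {X : Type} [Fintype X] [DecidableEq X]

lemma YFK_wt_nonneg {p : ℝ} (h0 : 0 ≤ p) (h1 : p ≤ 1) (O : Finset X) : 0 ≤ wt p O := by
  unfold wt
  have : 0 ≤ 1 - p := by linarith
  positivity

lemma YFK_wt_mul (p : ℝ) (O O' : Finset X) : wt p O * wt p O' = wt p (O ∩ O') * wt p (O ∪ O') := by
  have h1 : (O ∩ O').card + (O ∪ O').card = O.card + O'.card := Finset.card_inter_add_card_union O O'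
  have hO := Finset.card_le_univ O
  have hO' := Finset.card_le_univ O'
  have hi := Finset.card_le_univ (O ∩ O')
  have hu := Finset.card_le_univ (O ∪ O')
  have h2 : (Fintype.card X - O.card) + (Fintype.card X - O'.card) =
      (Fintype.card X - (O ∩ O').card) + (Fintype.card X - (O ∪ O').card) := by omega
  unfold wt
  rw [mul_mul_mul_comm, ← pow_add, ← pow_add, h2, ← h1, pow_add, pow_add, mul_mul_mul_comm]

/-- four functions, for events on a cylinder -/
lemma YFK_four {p : ℝ} (h0 : 0 ≤ p) (h1 : p ≤ 1) (Q A D : Finset X → Prop)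
    (hQ : ∀ O O', Q O → Q O' → Q (O ∩ O') ∧ Q (O ∪ O'))
    (hA : ∀ O O', O ⊆ O' → A O → A O') (hD : ∀ O O', O ⊆ O' → D O' → D O) :
    pr p (fun O => Q O ∧ A O ∧ D O) * pr p Q ≤ pr p (fun O => Q O ∧ D O) * pr p (fun O => Q O ∧ A O) := by
  unfold pr
  have hw := fun O : Finset X => YFK_wt_nonneg h0 h1 O
  refine four_functions_theorem_univ _ _ _ _ ?_ ?_ ?_ ?_ ?_
  · intro O; dsimp only; split_ifs; exacts [hw O, le_rfl]
  · intro O; dsimp only; split_ifs; exacts [hw O, le_rfl]
  · intro O; dsimp only; split_ifs; exacts [hw O, le_rfl]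
  · intro O; dsimp only; split_ifs; exacts [hw O, le_rfl]
  · intro O O'
    dsimp only
    by_cases hO : Q O ∧ A O ∧ D O
    · by_cases hO' : Q O'
      · obtain ⟨hi, hu⟩ := hQ O O' hO.1 hO'
        have e3 : Q (O ⊓ O') ∧ D (O ⊓ O') := ⟨hi, hD _ _ (Finset.inter_subset_left) hO.2.2⟩
        have e4 : Q (O ⊔ O') ∧ A (O ⊔ O') := ⟨hu, hA _ _ (Finset.subset_union_left) hO.2.1⟩
        rw [if_pos hO, if_pos hO', if_pos e3, if_pos e4]
        exact le_of_eq (YFK_wt_mul p O O')
      · rw [if_neg hO', mul_zero]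
        refine mul_nonneg ?_ ?_
        · split_ifs; exacts [hw _, le_rfl]
        · split_ifs; exacts [hw _, le_rfl]
    · rw [if_neg hO, zero_mul]
      refine mul_nonneg ?_ ?_
      · split_ifs; exacts [hw _, le_rfl]
      · split_ifs; exacts [hw _, le_rfl]

end fin

/-- environment of a configuration in `T` -/
def YFK_env {d : ℕ} (T : Finset (Fin d → ℤ)) (O : Finset {x // x ∈ T}) : Env d :=
  fun x => decide (∃ h : x ∈ T, (⟨x, h⟩ : {x // x ∈ T}) ∈ O)

lemma YFK_env_apply {d : ℕ} (T : Finset (Fin d → ℤ)) (O : Finset {x // x ∈ T}) (x : Fin d → ℤ) (h : x ∈ T) :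
    YFK_env T O x = true ↔ (⟨x, h⟩ : {x // x ∈ T}) ∈ O := by
  unfold YFK_env
  rw [decide_eq_true_iff]
  exact ⟨fun ⟨_, h'⟩ => h', fun h' => ⟨h, h'⟩⟩

lemma YFK_env_off {d : ℕ} (T : Finset (Fin d → ℤ)) (O : Finset {x // x ∈ T}) (x : Fin d → ℤ) (h : x ∉ T) :
    YFK_env T O x = false := by
  unfold YFK_env
  rw [decide_eq_false_iff_not]
  rintro ⟨h', _⟩
  exact h h'

lemma YFK_mono {d : ℕ} (T : Finset (Fin d → ℤ)) {O O' : Finset {x // x ∈ T}} (h : O ⊆ O') (x : Fin d → ℤ) :
    YFK_env T O x = true → YFK_env T O' x = true := by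
  unfold YFK_env
  rw [decide_eq_true_iff, decide_eq_true_iff]
  rintro ⟨h1, h2⟩
  exact ⟨h1, h h2⟩

lemma YFK_bridge (h_YBR : T_YBR) {d : ℕ} {p : ℝ} (h0 : 0 ≤ p) (h1 : p ≤ 1) (T : Finset (Fin d → ℤ))
    (B : Set (Env d)) (hB : DepOn T B) : (PP d p).real B = pr p (fun O => YFK_env T O ∈ B) := by
  rw [← h_YBR {x // x ∈ T} d p Subtype.val (fun O => YFK_env T O ∈ B) h0 h1 Subtype.val_injective]
  congr 1
  ext ω
  have hag : ∀ x ∈ T, YFK_env T (Finset.univ.filter fun x : {x // x ∈ T} => ω x.1 = true) x = ω x := by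
    intro x hx
    have h2 := YFK_env_apply T (Finset.univ.filter fun x : {x // x ∈ T} => ω x.1 = true) x hx
    rw [Finset.mem_filter] at h2
    cases hω : ω x
    · cases hc : YFK_env T (Finset.univ.filter fun x : {x // x ∈ T} => ω x.1 = true) x
      · rfl
      · have := (h2.1 hc).2
        dsimp only at this
        rw [hω] at this
        exact absurd this (by decide)
    · exact h2.2 ⟨Finset.mem_univ _, hω⟩
  constructor
  · intro h
    exact hB ω _ (fun x hx => (hag x hx).symm) h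
  · intro h
    exact hB _ ω hag h

lemma YFK_dep_mono {d : ℕ} {F T : Finset (Fin d → ℤ)} {B : Set (Env d)} (h : F ⊆ T) (hB : DepOn F B) : DepOn T B :=
  fun ω ω' hω h' => hB ω ω' (fun x hx => hω x (h hx)) h'

lemma YFK_dep_inter {d : ℕ} {T : Finset (Fin d → ℤ)} {B C : Set (Env d)} (hB : DepOn T B) (hC : DepOn T C) :
    DepOn T (B ∩ C) := fun ω ω' hω h' => ⟨hB ω ω' hω h'.1, hC ω ω' hω h'.2⟩

/-- cylinder -/
def YFK_cyl {d : ℕ} (S : Finset (Fin d → ℤ)) (s : {x // x ∈ S} → Bool) : Set (Env d) :=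
  {ω | ∀ x : {x // x ∈ S}, ω x.1 = s x}

lemma YFK_cyl_dep {d : ℕ} (S : Finset (Fin d → ℤ)) (s : {x // x ∈ S} → Bool) : DepOn S (YFK_cyl S s) := by
  intro ω ω' h hω x
  rw [← h x.1 x.2]
  exact hω x

theorem YFK_cyl_ineq (h_YBR : T_YBR) (h_YID : T_YID) {d : ℕ} {p : ℝ} (h0 : 0 ≤ p) (h1 : p ≤ 1)
    (S F1 F2 : Finset (Fin d → ℤ)) (A D : Set (Env d)) (hA : DepOn F1 A) (hD : DepOn F2 D) (hS : Disjoint S F1)
    (hAi : Incr A) (hDd : ∀ ω ω' : Env d, (∀ x, ω x = true → ω' x = true) → ω' ∈ D → ω ∈ D)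
    (s : {x // x ∈ S} → Bool) :
    (PP d p).real (YFK_cyl S s ∩ (A ∩ D)) ≤ (PP d p).real A * (PP d p).real (YFK_cyl S s ∩ D) := by
  have hprob := PP_prob d h0 h1
  set T : Finset (Fin d → ℤ) := S ∪ F1 ∪ F2 with hT
  have hST : S ⊆ T := fun x hx => by simp [hT, hx]
  have h1T : F1 ⊆ T := fun x hx => by simp [hT, hx]
  have h2T : F2 ⊆ T := fun x hx => by simp [hT, hx]
  have hQ' : DepOn T (YFK_cyl S s) := YFK_dep_mono hST (YFK_cyl_dep S s)
  have hA' : DepOn T A := YFK_dep_mono h1T hA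
  have hD' : DepOn T D := YFK_dep_mono h2T hD
  have key := YFK_four (X := {x // x ∈ T}) h0 h1 (fun O => YFK_env T O ∈ YFK_cyl S s) (fun O => YFK_env T O ∈ A)
    (fun O => YFK_env T O ∈ D) ?_ ?_ ?_
  · have e1 := YFK_bridge h_YBR h0 h1 T _ (YFK_dep_inter hQ' (YFK_dep_inter hA' hD'))
    have e2 := YFK_bridge h_YBR h0 h1 T _ hQ'
    have e3 := YFK_bridge h_YBR h0 h1 T _ (YFK_dep_inter hQ' hD')
    have e4 := YFK_bridge h_YBR h0 h1 T _ (YFK_dep_inter hQ' hA')
    have e1' : (PP d p).real (YFK_cyl S s ∩ (A ∩ D)) =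
      pr p (fun O => YFK_env T O ∈ YFK_cyl S s ∧ YFK_env T O ∈ A ∧ YFK_env T O ∈ D) := e1
    have e3' : (PP d p).real (YFK_cyl S s ∩ D) =
      pr p (fun O => YFK_env T O ∈ YFK_cyl S s ∧ YFK_env T O ∈ D) := e3
    have e4' : (PP d p).real (YFK_cyl S s ∩ A) =
      pr p (fun O => YFK_env T O ∈ YFK_cyl S s ∧ YFK_env T O ∈ A) := e4
    rw [← e1', ← e2, ← e3', ← e4'] at key
    have hind : (PP d p).real (YFK_cyl S s ∩ A) = (PP d p).real (YFK_cyl S s) * (PP d p).real A := by
      have h := h_YID d p Bool Finset.univ (fun b => if b then S else F1)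
        (fun b => if b then YFK_cyl S s else A) h0 h1 ?_ ?_
      · rw [Fintype.prod_bool] at h
        simp only [if_true, Bool.false_eq_true, if_false] at h
        rw [← h]
        congr 1
        ext ω
        simp only [Set.mem_inter_iff, Set.mem_ofPred_eq]
        constructor
        · rintro ⟨ha, hb⟩ i _
          cases i
          · simpa using hb
          · simpa using ha
        · intro hh
          refine ⟨?_, ?_⟩
          · simpa using hh true (Finset.mem_univ _)
          · simpa using hh false (Finset.mem_univ _)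
      · intro i _ j _ hij
        cases i <;> cases j
        · exact absurd rfl hij
        · simpa using hS.symm
        · simpa using hS
        · exact absurd rfl hij
      · intro i _
        cases i
        · simpa using hA
        · simpa using YFK_cyl_dep S s
    rw [hind] at key
    rcases eq_or_lt_of_le (measureReal_nonneg (μ := PP d p) (s := YFK_cyl S s)) with hz | hpos
    · have h3 : (PP d p).real (YFK_cyl S s ∩ (A ∩ D)) ≤ 0 := by
        rw [hz]
        exact measureReal_mono Set.inter_subset_left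
      refine le_trans h3 ?_
      exact mul_nonneg measureReal_nonneg measureReal_nonneg
    · refine le_of_mul_le_mul_right ?_ hpos
      calc _ ≤ _ := key
        _ = _ := by ring
  · intro O O' hO hO'
    refine ⟨fun x => ?_, fun x => ?_⟩
    · have a := YFK_env_apply T (O ∩ O') x.1 (hST x.2)
      have b := YFK_env_apply T O x.1 (hST x.2)
      have c := YFK_env_apply T O' x.1 (hST x.2)
      have hb := hO x
      have hc := hO' x
      rw [Finset.mem_inter, ← b, ← c, hb, hc, and_self] at a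
      cases hs : s x
      · cases hq : YFK_env T (O ∩ O') x.1
        · rfl
        · rw [hs] at a
          exact absurd (a.1 hq) (by decide)
      · exact a.2 hs
    · have a := YFK_env_apply T (O ∪ O') x.1 (hST x.2)
      have b := YFK_env_apply T O x.1 (hST x.2)
      have c := YFK_env_apply T O' x.1 (hST x.2)
      have hb := hO x
      have hc := hO' x
      rw [Finset.mem_union, ← b, ← c, hb, hc, or_self] at a
      cases hs : s x
      · cases hq : YFK_env T (O ∪ O') x.1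
        · rfl
        · rw [hs] at a
          exact absurd (a.1 hq) (by decide)
      · exact a.2 hs
  · intro O O' hO
    exact hAi _ _ fun x => YFK_mono T hO x
  · intro O O' hO
    exact hDd _ _ fun x => YFK_mono T hO x

theorem p_YFK (h_YBR : T_YBR) (h_YMS : T_YMS) (h_YID : T_YID) : T_YFK := by
  intro d p S F1 F2 E A D h0 h1 hE hA hD hS hAi hDd
  have hprob := PP_prob d h0 h1
  set T : Finset (Fin d → ℤ) := S ∪ F1 ∪ F2 with hT
  have hST : S ⊆ T := fun x hx => by simp [hT, hx]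
  have h1T : F1 ⊆ T := fun x hx => by simp [hT, hx]
  have h2T : F2 ⊆ T := fun x hx => by simp [hT, hx]
  have hm : ∀ B : Set (Env d), DepOn T B → MeasurableSet B := fun B hB => (h_YMS d p h0 h1).1 T B hB
  have hE' : DepOn T E := YFK_dep_mono hST hE
  have hA' : DepOn T A := YFK_dep_mono h1T hA
  have hD' : DepOn T D := YFK_dep_mono h2T hD
  have hsplit : ∀ B : Set (Env d), MeasurableSet B →
      (PP d p).real B = ∑ s : {x // x ∈ S} → Bool, (PP d p).real (YFK_cyl S s ∩ B) := by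
    intro B hB
    rw [← measureReal_biUnion_finset]
    · congr 1
      ext ω
      simp only [Set.mem_iUnion, Finset.mem_univ, exists_prop, true_and, Set.mem_inter_iff]
      exact ⟨fun h => ⟨fun x => ω x.1, fun x => rfl, h⟩, fun ⟨_, _, h⟩ => h⟩
    · intro s _ s' _ hss
      rw [Function.onFun, Set.disjoint_left]
      rintro ω ⟨ha, _⟩ ⟨hb, _⟩
      exact hss (funext fun x => (ha x).symm.trans (hb x))
    · intro s _
      exact (hm _ (YFK_dep_mono hST (YFK_cyl_dep S s))).inter hB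
  have mEAD : MeasurableSet (E ∩ A ∩ D) := ((hm E hE').inter (hm A hA')).inter (hm D hD')
  have mED : MeasurableSet (E ∩ D) := (hm E hE').inter (hm D hD')
  rw [hsplit _ mEAD, hsplit _ mED, Finset.mul_sum]
  refine Finset.sum_le_sum fun s _ => ?_
  by_cases hs : ∃ ω ∈ YFK_cyl S s, ω ∈ E
  · obtain ⟨ω0, hω0, hE0⟩ := hs
    have hsub : YFK_cyl S s ⊆ E := by
      intro ω hω
      refine hE ω0 ω (fun x hx => ?_) hE0
      rw [hω0 ⟨x, hx⟩, hω ⟨x, hx⟩]
    have e1 : YFK_cyl S s ∩ (E ∩ A ∩ D) = YFK_cyl S s ∩ (A ∩ D) := by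
      ext ω
      simp only [Set.mem_inter_iff]
      exact ⟨fun h => ⟨h.1, h.2.1.2, h.2.2⟩, fun h => ⟨h.1, ⟨hsub h.1, h.2.1⟩, h.2.2⟩⟩
    have e2 : YFK_cyl S s ∩ (E ∩ D) = YFK_cyl S s ∩ D := by
      ext ω
      simp only [Set.mem_inter_iff]
      exact ⟨fun h => ⟨h.1, h.2.2⟩, fun h => ⟨h.1, hsub h.1, h.2⟩⟩
    rw [e1, e2]
    exact YFK_cyl_ineq h_YBR h_YID h0 h1 S F1 F2 A D hA hD hS hAi hDd s
  · have e1 : YFK_cyl S s ∩ (E ∩ A ∩ D) = ∅ := by
      refine Set.eq_empty_of_forall_notMem fun ω hω => hs ⟨ω, hω.1, hω.2.1.1⟩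
    rw [e1, measureReal_empty]
    exact mul_nonneg measureReal_nonneg measureReal_nonneg

end Pool.Agent.LBL
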