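import Pool.Agent.LBL.Wlk3

set_option autoImplicit false

/-!
# LBL, job YFN: final assembly
-/

open Finset MeasureTheory Filter Topology
open scoped Classical

namespace Pool.Agent.LBL

noncomputable section

namespace YFN_

/-- bounds of `dst` -/
theorem dst_bounds {d : ℕ} (B : Finset (Fin d → ℤ)) (a b : ℝ)
    (h1 : ∃ x ∈ B, Real.sqrt (∑ i, (x i : ℝ) ^ 2) ≤ b)
    (h2 : ∀ x ∈ B, a ≤ Real.sqrt (∑ i, (x i : ℝ) ^ 2)) : a ≤ dst B ∧ dst B ≤ b := by
  obtain ⟨x, hx, hxb⟩ := h1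
  unfold dst
  constructor
  · apply le_csInf
    · exact ⟨_, x, hx, rfl⟩
    · rintro z ⟨y, hy, rfl⟩
      exact h2 y hy
  · refine le_trans (csInf_le ⟨0, ?_⟩ ⟨x, hx, rfl⟩) hxb
    rintro z ⟨y, _, rfl⟩
    exact Real.sqrt_nonneg _

/-- the times are at least `n/2` -/
theorem times (n K i : ℕ) (hi : i < K) :
    (n : ℝ) / 2 ≤ ((n - i * (n / (2 * K)) : ℕ) : ℝ) := by
  have h1 : i * (n / (2 * K)) * 2 ≤ n := by
    have h2 : (2 * K) * (n / (2 * K)) ≤ n := Nat.mul_div_le n (2 * K)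
    have h3 : i * (n / (2 * K)) * 2 ≤ (2 * K) * (n / (2 * K)) := by
      have : i * (n / (2 * K)) ≤ K * (n / (2 * K)) := Nat.mul_le_mul_right _ hi.le
      nlinarith
    exact h3.trans h2
  have h4 : i * (n / (2 * K)) ≤ n := by omega
  rw [Nat.cast_sub h4]
  have h5 : ((i * (n / (2 * K)) : ℕ) : ℝ) * 2 ≤ n := by exact_mod_cast h1
  linarith

theorem tlog : Tendsto (fun n : ℕ => Real.log n) atTop atTop :=
  Real.tendsto_log_atTop.comp tendsto_natCast_atTop_atTop

theorem tend (d : ℕ) (hd : 2 ≤ d) (C : ℝ) :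
    ∀ᶠ n : ℕ in atTop, C * n * Real.log n ^ (-(2 : ℝ) / d) ≤ (n : ℝ) / 2 := by
  have hd' : (0 : ℝ) < (2 : ℝ) / d := by
    have : (0 : ℝ) < d := by exact_mod_cast (by omega : 0 < d)
    positivity
  have h1 : Tendsto (fun n : ℕ => C * Real.log n ^ (-((2 : ℝ) / d))) atTop (𝓝 (C * 0)) :=
    ((tendsto_rpow_neg_atTop hd').comp tlog).const_mul C
  rw [mul_zero] at h1
  have h2 := h1.eventually (gt_mem_nhds (show (0 : ℝ) < 1 / 2 by norm_num))
  filter_upwards [h2] with n hn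
  have hn0 : (0 : ℝ) ≤ n := Nat.cast_nonneg n
  have e : -(2 : ℝ) / d = -((2 : ℝ) / d) := by ring
  rw [e]
  nlinarith

/-- the volume bound in terms of `rr` -/
theorem crd (d : ℕ) (p : ℝ) (hd : 2 ≤ d) (hp0 : 0 < p) (hp1 : p < 1) (e : ℕ → ℝ)
    (he : Tendsto e atTop (𝓝 0)) : ∃ A : ℝ, 0 < A ∧ ∀ᶠ n : ℕ in atTop, ∀ k : ℕ,
    (k : ℝ) ≤ (1 + e n) * (d * (Real.log n / Real.log (1 / p))) →
    (k : ℝ) ^ ((1 : ℝ) / d) ≤ A * rr d n := by
  have hdp : (0 : ℝ) < d := by exact_mod_cast (by omega : 0 < d)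
  have hl : 0 < Real.log (1 / p) := by
    apply Real.log_pos
    rw [lt_div_iff₀ hp0]; linarith
  refine ⟨(2 * d / Real.log (1 / p)) ^ ((1 : ℝ) / d), by positivity, ?_⟩
  have h1 : ∀ᶠ n : ℕ in atTop, e n < 1 := he.eventually (gt_mem_nhds (by norm_num))
  have h2 : ∀ᶠ n : ℕ in atTop, (0 : ℝ) ≤ Real.log n := tlog.eventually_ge_atTop 0
  filter_upwards [h1, h2] with n hn1 hn2 k hk
  have h3 : (k : ℝ) ≤ (2 * d / Real.log (1 / p)) * Real.log n := by
    refine hk.trans ?_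
    have h4 : 0 ≤ (d : ℝ) * (Real.log n / Real.log (1 / p)) := by positivity
    have h5 : (1 + e n) * (d * (Real.log n / Real.log (1 / p))) ≤
        2 * (d * (Real.log n / Real.log (1 / p))) :=
      mul_le_mul_of_nonneg_right (by linarith) h4
    refine h5.trans (le_of_eq ?_)
    ring
  unfold rr
  rw [← Real.mul_rpow (by positivity) hn2]
  exact Real.rpow_le_rpow (Nat.cast_nonneg k) h3 (by positivity)

end YFN_

theorem p_YFN (h_YCD : T_YCD) (h_YSR : T_YSR) (h_YUB : T_YUB) (h_YWP : T_YWP) (h_YSH : T_YSH)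
    (h_YBL : T_YBL) (h_YUP : T_YUP) (h_YLO : T_YLO) : T_YFN := by
  intro hLDI d p hd hpc hp1 B hB ε hε
  obtain ⟨hp0, hth, ⟨p1, hp10, hp1p, hth1⟩, hprob, hcond⟩ := h_YCD d p hd hpc hp1
  have hlin : LIN d p := hLDI d p p1 hd hp10 hp1p hp1 hth1
  have hPP : IsProbabilityMeasure (PP d p) := PP_prob d hp0.le hp1.le
  set μ := ProbabilityTheory.cond (PP d p) (Inf d) with hμ
  set ε' : ℝ := ε * theta d p / 10 with hε'
  have hε'0 : 0 < ε' := by positivity
  obtain ⟨C0, hC0, e1⟩ := h_YSR d p hd hp0 hp1 hlin ε' hε'0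
  obtain ⟨J, hJ, e2⟩ := h_YUB d p ε' hd hp0 hp1 hε'0
  obtain ⟨c1, hc1, hW⟩ := h_YWP d p hd hp0 hp1
  obtain ⟨c7, hc7, hS⟩ := h_YSH d p hd hp0 hp1
  obtain ⟨c0', hc0', hS2⟩ := hS ε' hε'0
  obtain ⟨CB, hCB, hBL⟩ := h_YBL d (by omega)
  obtain ⟨e, he, hcard⟩ := hB.card
  obtain ⟨A, hA, e3⟩ := YFN_.crd d p hd hp0 hp1 e he
  obtain ⟨C3, hC3, e4⟩ := h_YUP d p C0 J c1 hd hp0 hp1 hC0 hJ hc1
  obtain ⟨c0, hc0, hc0', hLO⟩ := h_YLO d p C0 J c1 c7 (CB * (A + 1)) hd hp0 hp1 hC0 hJ hc1 hc7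
    (by positivity)
  set c : ℝ := min (min c0 c0') (C3 / 2) with hc
  have hcpos : 0 < c := by
    rw [hc]; exact lt_min (lt_min hc0 (by assumption)) (by positivity)
  have hcc0 : c ≤ c0 := (min_le_left _ _).trans (min_le_left _ _)
  have hcc0' : c ≤ c0' := (min_le_left _ _).trans (min_le_right _ _)
  have hcC : c < C3 := lt_of_le_of_lt (min_le_right _ _) (by linarith)
  obtain ⟨K, hK, e5⟩ := hLO c hcpos hcc0
  have e6 := hS2 c hcpos hcc0'
  have e7 := (hW 1 one_pos).eventually (gt_mem_nhds hε'0)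
  have e8 := (hW (Real.sqrt c) (Real.sqrt_pos.mpr hcpos)).eventually (gt_mem_nhds hε'0)
  -- localization
  obtain ⟨CL, hloc⟩ := hB.loc
  have hKr : (1 : ℝ) ≤ K := by exact_mod_cast hK
  have hδ : (0 : ℝ) < 1 / (2 * (K : ℝ)) := by positivity
  have hη : (0 : ℝ) < ε / (10 * K) := by positivity
  have e9 : ∀ i ∈ Finset.range K, ∀ᶠ n : ℕ in atTop,
      μ.real {ω | qc ω n (n - i * (n / (2 * K))) (B n ω) < 1 - 1 / (2 * (K : ℝ))} < ε / (10 * K) := by
    intro i hi
    have hi' := Finset.mem_range.mp hi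
    have ht := hloc (fun n => n - i * (n / (2 * K))) (by
      filter_upwards [YFN_.tend d hd CL] with n hn
      refine ⟨hn.trans (YFN_.times n K i hi'), ?_⟩
      exact_mod_cast Nat.sub_le _ _) _ hδ
    exact ht.eventually (gt_mem_nhds hη)
  have e10 : ∀ᶠ n : ℕ in atTop, ∀ i ∈ Finset.range K,
      μ.real {ω | qc ω n (n - i * (n / (2 * K))) (B n ω) < 1 - 1 / (2 * (K : ℝ))} < ε / (10 * K) :=
    (Filter.eventually_all_finset (Finset.range K)).mpr e9
  refine ⟨c, C3, hcpos, hcC, ?_⟩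
  -- from the law to the conditional law
  have hcd : ∀ S : Set (Env d), (PP d p).real (Inf d ∩ S) ≤ ε' → μ.real S ≤ ε / 10 := by
    intro S hS
    refine (hcond S).trans ?_
    rw [div_le_iff₀ hth]
    refine hS.trans (le_of_eq ?_)
    rw [hε']; ring
  have hcd2 : ∀ S : Set (Env d), (PP d p).real S ≤ ε' → μ.real S ≤ ε / 10 := by
    intro S hS
    exact hcd S ((measureReal_mono Set.inter_subset_right).trans hS)
  filter_upwards [e1, e2, e3, e4, e5, e6, e7, e8, e10, hB.ball, hcard] with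
    n h1 h2 h3 h4 h5 h6 h7 h8 h10 hball hcrd
  -- bad events
  set S1 : Set (Env d) := {ω | wk 0 n (alv ω n) < xs d p n ^ n * Real.exp (-C0 * fn d n)} with hS1
  set S2 : Set (Env d) := {ω | ¬ UB d p n J ω} with hS2'
  set S3 : Set (Env d) := {ω | ¬ WW n c1 1 ω} with hS3
  set S4 : Set (Env d) := {ω | ¬ WW n c1 (Real.sqrt c) ω} with hS4
  set S5 : Set (Env d) := {ω | xs d p n - c7 * Real.log (1 / c) * sn d n <
    lam (opn ω (cub d ⌈Real.sqrt c * fn d n⌉₊))} with hS5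
  set S6 : Set (Env d) := ⋃ i ∈ Finset.range K,
    {ω | qc ω n (n - i * (n / (2 * K))) (B n ω) < 1 - 1 / (2 * (K : ℝ))} with hS6
  set S7 : Set (Env d) := {ω | ¬ IsBall (B n ω)} with hS7
  set S8 : Set (Env d) := {ω | ¬ ((B n ω).card : ℝ) ≤
    (1 + e n) * (d * (Real.log n / Real.log (1 / p)))} with hS8
  set G : Set (Env d) := {ω | c * fn d n ≤ dst (B n ω) ∧ dst (B n ω) ≤ C3 * fn d n} with hG
  have b1 : μ.real S1 ≤ ε / 10 := hcd S1 h1
  have b2 : μ.real S2 ≤ ε / 10 := by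
    apply hcd2
    refine le_trans (measureReal_mono ?_) h2
    intro ω hω
    simp only [hS2', UB, Set.mem_setOf_eq, not_forall, not_le] at hω
    obtain ⟨D, hD, hD2⟩ := hω
    exact ⟨D, hD, hD2⟩
  have b3 : μ.real S3 ≤ ε / 10 := hcd2 S3 h7.le
  have b4 : μ.real S4 ≤ ε / 10 := hcd2 S4 h8.le
  have b5 : μ.real S5 ≤ ε / 10 := hcd2 S5 h6
  have b6 : μ.real S6 ≤ ε / 10 := by
    have hs : μ.real S6 ≤ ∑ i ∈ Finset.range K,
        μ.real {ω | qc ω n (n - i * (n / (2 * K))) (B n ω) < 1 - 1 / (2 * (K : ℝ))} :=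
      measureReal_biUnion_finset_le _ _
    refine hs.trans ?_
    have : ∑ i ∈ Finset.range K,
        μ.real {ω | qc ω n (n - i * (n / (2 * K))) (B n ω) < 1 - 1 / (2 * (K : ℝ))} ≤
        ∑ _i ∈ Finset.range K, ε / (10 * K) :=
      Finset.sum_le_sum fun i hi => (h10 i hi).le
    refine this.trans (le_of_eq ?_)
    rw [Finset.sum_const, Finset.card_range, nsmul_eq_mul]
    have : (K : ℝ) ≠ 0 := by positivity
    field_simp
  have b7 : μ.real S7 = 0 := by
    have : μ S7 = 0 := hball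
    simp [Measure.real, this]
  have b8 : μ.real S8 = 0 := by
    have : μ S8 = 0 := hcrd
    simp [Measure.real, this]
  -- outside of the bad events
  have hcov : (Set.univ : Set (Env d)) ⊆
      G ∪ (S1 ∪ (S2 ∪ (S3 ∪ (S4 ∪ (S5 ∪ (S6 ∪ (S7 ∪ S8))))))) := by
    intro ω _
    by_contra hω
    simp only [Set.mem_union, not_or] at hω
    obtain ⟨hg, g1, g2, g3, g4, g5, g6, g7, g8⟩ := hω
    apply hg
    have g1' : xs d p n ^ n * Real.exp (-C0 * fn d n) ≤ wk 0 n (alv ω n) := not_lt.mp g1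
    have g2' : UB d p n J ω := not_not.mp g2
    have g3' : WW n c1 1 ω := not_not.mp g3
    have g4' : WW n c1 (Real.sqrt c) ω := not_not.mp g4
    have g5' : lam (opn ω (cub d ⌈Real.sqrt c * fn d n⌉₊)) ≤
      xs d p n - c7 * Real.log (1 / c) * sn d n := not_lt.mp g5
    have g7' : IsBall (B n ω) := not_not.mp g7
    have g8' : ((B n ω).card : ℝ) ≤
      (1 + e n) * (d * (Real.log n / Real.log (1 / p))) := not_not.mp g8
    have g6' : ∀ i < K, 1 - 1 / (2 * (K : ℝ)) ≤ qc ω n (n - i * (n / (2 * K))) (B n ω) := by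
      intro i hi
      by_contra hlt
      apply g6
      rw [hS6]
      simp only [Set.mem_iUnion]
      exact ⟨i, Finset.mem_range.mpr hi, not_le.mp hlt⟩
    have hq : 1 / 2 ≤ qc ω n n (B n ω) := by
      have h0 := g6' 0 (by omega)
      simp only [zero_mul, Nat.sub_zero] at h0
      refine le_trans ?_ h0
      have : 1 / (2 * (K : ℝ)) ≤ 1 / 2 := by
        apply one_div_le_one_div_of_le (by norm_num)
        linarith
      linarith
    have hdiam : ∀ x ∈ B n ω, ∀ y ∈ B n ω,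
        (nrm (x - y) : ℝ) ≤ CB * (A + 1) * (rr d n + 1) := by
      intro x hx y hy
      refine (hBL (B n ω) g7' x hx y hy).trans ?_
      have h9 := h3 (B n ω).card g8'
      have hr : 0 ≤ rr d n := by
        by_contra hneg
        have : A * rr d n < 0 := mul_neg_of_pos_of_neg hA (not_le.mp hneg)
        have h0 : (0 : ℝ) ≤ ((B n ω).card : ℝ) ^ ((1 : ℝ) / d) := by positivity
        linarith
      have : CB * (((B n ω).card : ℝ) ^ ((1 : ℝ) / d) + 1) ≤ CB * (A * rr d n + 1) := by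
        gcongr
      refine this.trans ?_
      rw [mul_assoc]
      apply mul_le_mul_of_nonneg_left _ hCB.le
      nlinarith
    exact YFN_.dst_bounds _ _ _ (h4 ω (B n ω) g1' g3' g2' hq)
      (h5 ω (B n ω) hdiam g1' g3' g4' g2' g5' g6')
  have hone : (1 : ℝ) = μ.real Set.univ := by simp
  have hle : μ.real Set.univ ≤ μ.real G + (μ.real S1 + (μ.real S2 + (μ.real S3 + (μ.real S4 +
      (μ.real S5 + (μ.real S6 + (μ.real S7 + μ.real S8))))))) := by
    refine (measureReal_mono hcov).trans ?_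
    refine (measureReal_union_le _ _).trans (add_le_add le_rfl ?_)
    refine (measureReal_union_le _ _).trans (add_le_add le_rfl ?_)
    refine (measureReal_union_le _ _).trans (add_le_add le_rfl ?_)
    refine (measureReal_union_le _ _).trans (add_le_add le_rfl ?_)
    refine (measureReal_union_le _ _).trans (add_le_add le_rfl ?_)
    refine (measureReal_union_le _ _).trans (add_le_add le_rfl ?_)
    refine (measureReal_union_le _ _).trans (add_le_add le_rfl ?_)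
    exact measureReal_union_le _ _
  linarith

end

end Pool.Agent.LBL
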