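import Pool.Agent.LBL.Wlk2

set_option autoImplicit false

/-!
# LBL, target YGB: many good points in a good box
-/

open Finset MeasureTheory Filter Topology
open scoped Classical

namespace Pool.Agent.LBL

noncomputable section

namespace YGB_

theorem lam_empty {d : ℕ} : lam (∅ : Finset (Fin d → ℤ)) = 0 := by
  unfold lam
  have h : {t : ℝ | ∃ f : (Fin d → ℤ) → ℝ, Spp (∅ : Finset (Fin d → ℤ)) f ∧
      ∑ x ∈ (∅ : Finset (Fin d → ℤ)), f x ^ 2 = 1 ∧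
      t = ∑ x ∈ (∅ : Finset (Fin d → ℤ)), f x * P0 f x} = ∅ := by
    ext t
    simp
  rw [h, Real.sSup_empty]

theorem ss_facts (d : ℕ) {r : ℝ} (hr : 2 ≤ r) :
    0 < ss d r ∧ ss d r * r ^ 2 ≤ 1 ∧ ss d r < 1 / 2 := by
  have hr0 : 0 < r := by linarith
  have h1 : 0 < ss d r := Real.rpow_pos_of_pos hr0 _
  have h2 : ss d r * r ^ 2 ≤ 1 := by
    have h3 : ss d r * r ^ 2 = r ^ (-(d : ℝ)) := by
      unfold ss
      rw [← Real.rpow_natCast r 2, ← Real.rpow_add hr0]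
      congr 1
      push_cast
      ring
    rw [h3]
    apply Real.rpow_le_one_of_one_le_of_nonpos (by linarith)
    have : (0 : ℝ) ≤ d := Nat.cast_nonneg d
    linarith
  refine ⟨h1, h2, ?_⟩
  have h4 : (4 : ℝ) ≤ r ^ 2 := by nlinarith
  nlinarith

theorem sub_QQ {d : ℕ} {ℓ : ℕ} {a x y : Fin d → ℤ} (hx : x ∈ boxF a (2 * ℓ))
    (hy : y ∈ boxF a (2 * ℓ)) : y ∈ QQ ℓ x := by
  unfold QQ
  unfold boxF at hx hy ⊢
  rw [Fintype.mem_piFinset] at hx hy ⊢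
  intro i
  have h1 := Finset.mem_Ico.1 (hx i)
  have h2 := Finset.mem_Ico.1 (hy i)
  rw [Finset.mem_Ico]
  push_cast at h1 h2 ⊢
  constructor
  · linarith [h1.2, h2.1]
  · linarith [h1.1, h2.2]

end YGB_

theorem p_YGB (h_YIS : T_YIS) (h_YXS : T_YXS) (h_YSM : T_YSM) (h_YSC : T_YSC) : T_YGB := by
  intro d p C' hd hp0 hp1 hC'
  obtain ⟨a0, A, C1, ha0, haA, hC1, hx⟩ := h_YXS d p hd hp0 hp1
  obtain ⟨c, c6, hc, hc6, H⟩ :=
    h_YIS d (d + 6) p (A + 1) C' hd (by omega) hp0 hp1 (by linarith) hC'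
  refine ⟨c, c6, hc, hc6, fun ρ => ?_⟩
  obtain ⟨r1, hr1, H1⟩ := H ρ
  obtain ⟨hS1, hS2, -⟩ := h_YSC d hd
  filter_upwards [hx, hS1 (max r1 2), hS2] with n hxn hrn hRg a ω hlam hnh
  obtain ⟨⟨hw1, hw2⟩, -, -, hxs, hxs1⟩ := hxn
  have hr2 : 2 ≤ rr d n := le_trans (le_max_right _ _) hrn
  have hr1' : r1 ≤ rr d n := le_trans (le_max_left _ _) hrn
  obtain ⟨hs0, hs1, hs2⟩ := YGB_.ss_facts d hr2
  have hsn : sn d n = ss d (rr d n) := rfl
  have hOne : (opn ω (boxF a (2 * ll d n))).Nonempty := by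
    rw [Finset.nonempty_iff_ne_empty]
    intro h0
    rw [h0, YGB_.lam_empty] at hlam
    linarith
  have hOsub : opn ω (boxF a (2 * ll d n)) ⊆ boxF a (2 * ll d n) := Finset.filter_subset _ _
  have hA : (1 - lam (opn ω (boxF a (2 * ll d n)))) * rr d n ^ 2 ≤ A + 1 := by
    have h1 : (1 - lam (opn ω (boxF a (2 * ll d n)))) * rr d n ^ 2
        ≤ (1 - xs d p n + ss d (rr d n)) * rr d n ^ 2 := by
      apply mul_le_mul_of_nonneg_right _ (sq_nonneg _)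
      linarith
    calc (1 - lam (opn ω (boxF a (2 * ll d n)))) * rr d n ^ 2
        ≤ (1 - xs d p n + ss d (rr d n)) * rr d n ^ 2 := h1
      _ = (1 - xs d p n) * rr d n ^ 2 + ss d (rr d n) * rr d n ^ 2 := by ring
      _ ≤ A + 1 := by linarith
  obtain ⟨V, hVO, hVC, hVl, hVc⟩ :=
    H1 (rr d n) (ll d n) hr1' hRg.2.1 a (opn ω (boxF a (2 * ll d n))) hOsub hOne hA hnh
  refine le_trans hVc ?_
  rw [Nat.cast_le]
  apply Finset.card_le_card
  intro x hx'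
  rw [Finset.mem_filter] at hx'
  obtain ⟨hxV, hxρ, hxs6⟩ := hx'
  have hxO := hVO hxV
  have hxB := hOsub hxO
  have hVQ : V ⊆ opn ω (QQ (ll d n) x) := by
    intro y hy
    have hyO := hVO hy
    have hyB := hOsub hyO
    unfold opn at hyO ⊢
    rw [Finset.mem_filter] at hyO ⊢
    exact ⟨YGB_.sub_QQ hxB hyB, hyO.2⟩
  rw [Finset.mem_filter]
  refine ⟨hxB, ?_, ⟨V, hVC, hxV, hVQ, ?_⟩, ?_⟩
  · intro z hz
    have h1 := hVO (hxρ z hz)
    unfold opn at h1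
    exact (Finset.mem_filter.1 h1).2
  · rw [hVl]
    exact hlam
  · exact le_trans hxs6 (h_YSM d V (opn ω (QQ (ll d n) x)) ⌊rr d n ^ 2⌋₊ x (by omega) hVQ).2.1

end

end Pool.Agent.LBL
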