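import Pool.Agent.LBL.Wlk1
import Pool.Agent.LBL.Targets1

set_option autoImplicit false

open Finset
open scoped Classical

namespace Pool.Agent.LBL

noncomputable section

namespace YGE_

theorem nb_symm {d : ℕ} {x y : Fin d → ℤ} (h : Nb x y) : Nb y x := by
  unfold Nb at *
  rw [← h]
  exact Finset.sum_congr rfl fun i _ => abs_sub_comm _ _

theorem nb_ne {d : ℕ} {x y : Fin d → ℤ} (h : Nb x y) : x ≠ y := by
  rintro rfl
  unfold Nb at h
  simp at h

theorem nb_coord {d : ℕ} {x y : Fin d → ℤ} (h : Nb x y) :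
    ∃ c, |x c - y c| = 1 ∧ ∀ i, i ≠ c → x i = y i := by
  have h' : ∑ i, |x i - y i| = 1 := h
  have h1 : ∃ c, x c ≠ y c := by
    by_contra hc
    push Not at hc
    have : ∑ i, |x i - y i| = 0 := Finset.sum_eq_zero fun i _ => by rw [hc i]; simp
    omega
  obtain ⟨c, hc⟩ := h1
  have h2 : 1 ≤ |x c - y c| := Int.one_le_abs (sub_ne_zero.mpr hc)
  have h3 : ∑ i ∈ univ.erase c, |x i - y i| + |x c - y c| = 1 := by
    rw [Finset.sum_erase_add _ _ (Finset.mem_univ c)]; exact h'
  have h4 : 0 ≤ ∑ i ∈ univ.erase c, |x i - y i| := Finset.sum_nonneg fun i _ => abs_nonneg _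
  have h5 : ∑ i ∈ univ.erase c, |x i - y i| = 0 := by omega
  refine ⟨c, by omega, fun i hi => ?_⟩
  have h6 := (Finset.sum_eq_zero_iff_of_nonneg (fun i _ => abs_nonneg _)).mp h5 i
    (Finset.mem_erase.mpr ⟨hi, Finset.mem_univ i⟩)
  exact sub_eq_zero.mp (abs_eq_zero.mp h6)

theorem div_close (l : ℕ) (hl : 1 ≤ l) (a b : ℤ) (h : |a - b| ≤ 1) : |a / (l : ℤ) - b / (l : ℤ)| ≤ 1 := by
  have hl' : (1 : ℤ) ≤ l := by exact_mod_cast hl
  have e1 := Int.emod_add_mul_ediv a (l : ℤ)
  have e2 := Int.emod_add_mul_ediv b (l : ℤ)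
  have f1 := Int.emod_nonneg a (show (l : ℤ) ≠ 0 by omega)
  have f2 := Int.emod_nonneg b (show (l : ℤ) ≠ 0 by omega)
  have g1 := Int.emod_lt_of_pos a (show (0 : ℤ) < l by omega)
  have g2 := Int.emod_lt_of_pos b (show (0 : ℤ) < l by omega)
  rw [abs_le] at h ⊢
  constructor
  · by_contra hc
    push Not at hc
    have : (l : ℤ) * (a / l - b / l) ≤ (l : ℤ) * (-2) := mul_le_mul_of_nonneg_left (by omega) (by omega)
    have e3 : (l : ℤ) * (a / l - b / l) = l * (a / l) - l * (b / l) := by ring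
    rw [e3] at this
    omega
  · by_contra hc
    push Not at hc
    have : (l : ℤ) * 2 ≤ (l : ℤ) * (a / l - b / l) := mul_le_mul_of_nonneg_left (by omega) (by omega)
    have e3 : (l : ℤ) * (a / l - b / l) = l * (a / l) - l * (b / l) := by ring
    rw [e3] at this
    omega

theorem blk_step {d : ℕ} (l : ℕ) (hl : 1 ≤ l) {x y : Fin d → ℤ} (h : Nb x y) :
    blk l x = blk l y ∨ Nb (blk l x) (blk l y) := by
  obtain ⟨c, hc, ho⟩ := nb_coord h
  have h1 := div_close l hl (x c) (y c) hc.le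
  have hz : ∀ i, i ≠ c → blk l x i = blk l y i := fun i hi => by unfold blk; rw [ho i hi]
  by_cases h0 : blk l x c = blk l y c
  · left
    funext i
    by_cases hi : i = c
    · rw [hi, h0]
    · exact hz i hi
  · right
    unfold Nb
    rw [Finset.sum_eq_single c (fun i _ hi => by rw [hz i hi]; simp) (fun hc => absurd (Finset.mem_univ c) hc)]
    have h2 : 1 ≤ |blk l x c - blk l y c| := Int.one_le_abs (sub_ne_zero.mpr h0)
    have h3 : |blk l x c - blk l y c| ≤ 1 := h1
    omega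

theorem nb_le {d : ℕ} {x y : Fin d → ℤ} (h : Nb x y) (i : Fin d) : |x i - y i| ≤ 1 := by
  obtain ⟨c, hc, ho⟩ := nb_coord h
  by_cases hi : i = c
  · rw [hi, hc]
  · rw [ho i hi]; simp

/-- graph of the visited blocks -/
def gr {d : ℕ} (S : Set (Fin d → ℤ)) : SimpleGraph (Fin d → ℤ) where
  Adj x y := Nb x y ∧ x ∈ S ∧ y ∈ S
  symm := ⟨fun _ _ h => ⟨nb_symm h.1, h.2.2, h.2.1⟩⟩
  loopless := ⟨fun _ h => nb_ne h.1 rfl⟩

theorem far (l k D : ℕ) (hl : 1 ≤ l) (hD : 2 * l * k ≤ D) (a b : ℤ) (ha : D ≤ a.natAbs) (hb : 2 * b.natAbs ≤ D) :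
    (k : ℤ) ≤ |a / (l : ℤ) - b / (l : ℤ)| := by
  have hl' : (1 : ℤ) ≤ l := by exact_mod_cast hl
  have e1 := Int.emod_add_mul_ediv a (l : ℤ)
  have e2 := Int.emod_add_mul_ediv b (l : ℤ)
  have f1 := Int.emod_nonneg a (show (l : ℤ) ≠ 0 by omega)
  have f2 := Int.emod_nonneg b (show (l : ℤ) ≠ 0 by omega)
  have g1 := Int.emod_lt_of_pos a (show (0 : ℤ) < l by omega)
  have g2 := Int.emod_lt_of_pos b (show (0 : ℤ) < l by omega)
  have hD' : 2 * ((l : ℤ) * k) ≤ D := by
    have : ((2 * l * k : ℕ) : ℤ) ≤ D := by exact_mod_cast hD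
    push_cast at this
    linarith
  have e3 : (l : ℤ) * (a / l - b / l) = l * (a / l) - l * (b / l) := by ring
  rw [le_abs]
  rcases le_total 0 a with h0 | h0
  · left
    by_contra hc
    push Not at hc
    have h1 : (l : ℤ) * (a / l - b / l) ≤ (l : ℤ) * (k - 1) := mul_le_mul_of_nonneg_left (by omega) (by omega)
    have e4 : (l : ℤ) * (k - 1) = l * k - l := by ring
    rw [e3, e4] at h1
    omega
  · right
    by_contra hc
    push Not at hc
    have h1 : (l : ℤ) * (-(a / l - b / l)) ≤ (l : ℤ) * (k - 1) := mul_le_mul_of_nonneg_left (by omega) (by omega)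
    have e4 : (l : ℤ) * (k - 1) = l * k - l := by ring
    have e5 : (l : ℤ) * (-(a / l - b / l)) = l * (b / l) - l * (a / l) := by ring
    rw [e5, e4] at h1
    omega

end YGE_

open YGE_ in
theorem p_YGE : T_YGE := by
  intro d l k D m u hl hk hD hu h0 hJ
  obtain ⟨J, hJm, hJD⟩ := hJ
  have hD1 : 1 ≤ D := by
    have : 1 * 1 ≤ l * k := Nat.mul_le_mul hl hk
    have e : 2 * l * k = 2 * (l * k) := by ring
    omega
  obtain ⟨c, hc⟩ : ∃ c, D ≤ (u J c).natAbs := by
    have h := (Finset.le_sup_iff (show (⊥ : ℕ) < D from hD1)).mp hJD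
    obtain ⟨c, _, hc⟩ := h
    exact ⟨c, hc⟩
  have hc0 : 2 * (u 0 c).natAbs ≤ D := by
    have : (u 0 c).natAbs ≤ nrm (u 0) := Finset.le_sup (f := fun i => (u 0 i).natAbs) (Finset.mem_univ c)
    omega
  set S : Set (Fin d → ℤ) := {b | ∃ j ≤ m, blk l (u j) = b} with hS
  have hreach : ∀ j, j ≤ m → (gr S).Reachable (blk l (u 0)) (blk l (u j)) := by
    intro j
    induction j with
    | zero => intro _; exact SimpleGraph.Reachable.refl _
    | succ j ih =>
      intro hj
      have h1 := ih (by omega)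
      rcases blk_step l hl (hu j (by omega)) with h2 | h2
      · rw [← h2]; exact h1
      · exact h1.trans (SimpleGraph.Adj.reachable (G := gr S) ⟨h2, ⟨j, by omega, rfl⟩, ⟨j + 1, hj, rfl⟩⟩)
  obtain ⟨w⟩ := hreach J hJm
  set p : (gr S).Walk (blk l (u 0)) (blk l (u J)) := w.bypass with hp
  have hpp : p.IsPath := w.bypass_isPath
  have hstep : ∀ i, i < p.length → (gr S).Adj (p.getVert i) (p.getVert (i + 1)) := fun i hi =>
    p.adj_getVert_succ hi
  have hdist : ∀ i, i ≤ p.length → |p.getVert i c - blk l (u 0) c| ≤ i := by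
    intro i
    induction i with
    | zero => intro _; simp
    | succ i ih =>
      intro hi
      have h1 := ih (by omega)
      have h2 := nb_le (hstep i (by omega)).1 c
      push_cast
      rw [abs_le] at *
      constructor <;> omega
  have hlen : k ≤ p.length := by
    have h1 := hdist p.length le_rfl
    rw [SimpleGraph.Walk.getVert_length] at h1
    have h2 := far l k D hl hD (u J c) (u 0 c) hc hc0
    have h3 : |blk l (u J) c - blk l (u 0) c| = |u J c / (l : ℤ) - u 0 c / (l : ℤ)| := rfl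
    rw [h3] at h1
    exact_mod_cast h2.trans h1
  refine ⟨p.getVert, p.getVert_zero, ?_, ?_, ?_⟩
  · intro i hi j hj hij
    exact hpp.getVert_injOn (show i ≤ p.length by omega) (show j ≤ p.length by omega) hij
  · intro i hi
    exact (hstep i (by omega)).1
  · intro i hi
    exact (hstep i (by omega)).2.1

end

end Pool.Agent.LBL
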