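import Pool.Agent.LBL.Wlk2

set_option autoImplicit false

open Finset MeasureTheory Filter Topology
open scoped Classical

namespace Pool.Agent.LBL

namespace YGG_

/-- the good event of a box -/
def Gd (d : ℕ) (p : ℝ) (n : ℕ) (C' : ℝ) (a : Fin d → ℤ) : Set (Env d) :=
  {ω | xs d p n - sn d n ≤ lam (opn ω (boxF a (2 * ll d n))) ∧ nh p n ω a (2 * ll d n) ≤ C' * rr d n ^ d}

theorem opn_congr {d : ℕ} (ω ω' : Env d) (F : Finset (Fin d → ℤ)) (h : ∀ x ∈ F, ω x = ω' x) :
    opn ω F = opn ω' F := by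
  unfold opn
  apply Finset.filter_congr
  intro x hx
  rw [h x hx]

theorem Gd_dep (d : ℕ) (p : ℝ) (n : ℕ) (C' : ℝ) (a : Fin d → ℤ) :
    DepOn (boxF a (2 * ll d n)) (Gd d p n C' a) := by
  intro ω ω' h hω
  have e := opn_congr ω ω' _ h
  unfold Gd at hω ⊢
  simp only [Set.mem_ofPred_eq] at hω ⊢
  unfold nh at hω ⊢
  rw [e] at hω
  exact hω

theorem compl_dep {d : ℕ} (F : Finset (Fin d → ℤ)) (A : Set (Env d)) (h : DepOn F A) :
    DepOn F Aᶜ := by
  intro ω ω' hh hω hω'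
  exact hω (h ω' ω (fun x hx => (hh x hx).symm) hω')

/-- the corner of the box with index `j` -/
noncomputable def crn (d n : ℕ) (j : Fin d → ℕ) : Fin d → ℤ := fun i => ⌈fn d n⌉ + 2 * (ll d n : ℤ) * j i

theorem mem_boxF {d : ℕ} (a : Fin d → ℤ) (k : ℕ) (x : Fin d → ℤ) :
    x ∈ boxF a k ↔ ∀ i, a i ≤ x i ∧ x i < a i + k := by
  unfold boxF
  simp [Fintype.mem_piFinset]

theorem crn_disj (d n : ℕ) (j j' : Fin d → ℕ) (h : j ≠ j') :
    Disjoint (boxF (crn d n j) (2 * ll d n)) (boxF (crn d n j') (2 * ll d n)) := by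
  rw [Finset.disjoint_left]
  intro x hx hx'
  rw [mem_boxF] at hx hx'
  apply h
  funext i
  obtain ⟨h1, h2⟩ := hx i
  obtain ⟨h3, h4⟩ := hx' i
  unfold crn at h1 h2 h3 h4
  push_cast at h2 h4
  have hl : (0 : ℤ) < 2 * (ll d n : ℤ) := by
    have : 0 < ll d n := by unfold ll; omega
    positivity
  rcases lt_trichotomy (j i) (j' i) with hlt | heq | hgt
  · exfalso
    have : (j i : ℤ) + 1 ≤ j' i := by exact_mod_cast hlt
    nlinarith
  · exact heq
  · exfalso
    have : (j' i : ℤ) + 1 ≤ j i := by exact_mod_cast hgt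
    nlinarith

theorem crn_norm (d n N : ℕ) (K : ℝ) (hd : 1 ≤ d) (hf : 0 < fn d n) (hN : 2 * (ll d n : ℝ) * N ≤ (K - 1) * fn d n)
    (j : Fin d → ℕ) (hj : ∀ i, j i < N) : ∀ x ∈ boxF (crn d n j) (2 * ll d n), fn d n ≤ nrm x ∧ (nrm x : ℝ) ≤ K * fn d n := by
  intro x hx
  rw [mem_boxF] at hx
  have hl : (0 : ℝ) < (ll d n : ℝ) := by
    have : 0 < ll d n := by unfold ll; omega
    exact_mod_cast this
  have hpos : ∀ i, fn d n ≤ ((x i : ℤ) : ℝ) := by
    intro i
    obtain ⟨h1, h2⟩ := hx i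
    unfold crn at h1
    have h3 : fn d n ≤ (⌈fn d n⌉ : ℝ) := Int.le_ceil _
    have h4 : ((⌈fn d n⌉ : ℤ) : ℝ) + 2 * (ll d n : ℝ) * (j i : ℝ) ≤ (x i : ℝ) := by exact_mod_cast h1
    have h5 : 0 ≤ 2 * (ll d n : ℝ) * (j i : ℝ) := by positivity
    linarith
  have hup : ∀ i, ((x i : ℤ) : ℝ) ≤ K * fn d n := by
    intro i
    obtain ⟨h1, h2⟩ := hx i
    unfold crn at h2
    have h6 : x i + 1 ≤ ⌈fn d n⌉ + 2 * (ll d n : ℤ) * j i + (2 * (ll d n : ℤ)) := by
      push_cast at h2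
      omega
    have h7 : ((x i : ℤ) : ℝ) + 1 ≤ (⌈fn d n⌉ : ℝ) + 2 * (ll d n : ℝ) * (j i : ℝ) + (2 * (ll d n : ℝ)) := by
      exact_mod_cast h6
    have h8 : (⌈fn d n⌉ : ℝ) < fn d n + 1 := Int.ceil_lt_add_one _
    have h9 : ((j i : ℝ)) + 1 ≤ N := by exact_mod_cast hj i
    have h10 : 2 * (ll d n : ℝ) * ((j i : ℝ) + 1) ≤ 2 * (ll d n : ℝ) * N := by
      apply mul_le_mul_of_nonneg_left h9; positivity
    nlinarith
  have hnat : ∀ i, (((x i).natAbs : ℕ) : ℝ) = ((x i : ℤ) : ℝ) := by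
    intro i
    have : (0 : ℝ) ≤ ((x i : ℤ) : ℝ) := le_trans hf.le (hpos i)
    rw [Nat.cast_natAbs, Int.cast_abs, abs_of_nonneg this]
  constructor
  · have i0 : Fin d := ⟨0, hd⟩
    have : (x i0).natAbs ≤ nrm x := Finset.le_sup (f := fun i => (x i).natAbs) (Finset.mem_univ i0)
    have h11 : (((x i0).natAbs : ℕ) : ℝ) ≤ (nrm x : ℝ) := by exact_mod_cast this
    rw [hnat i0] at h11
    exact le_trans (hpos i0) h11
  · have hK : 0 ≤ K * fn d n := by
      have := hup ⟨0, hd⟩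
      have := hpos ⟨0, hd⟩
      linarith
    have : nrm x ≤ ⌊K * fn d n⌋₊ := by
      unfold nrm
      apply Finset.sup_le
      intro i _
      apply Nat.le_floor
      rw [hnat i]
      exact hup i
    calc (nrm x : ℝ) ≤ (⌊K * fn d n⌋₊ : ℝ) := by exact_mod_cast this
      _ ≤ K * fn d n := Nat.floor_le hK

end YGG_

open YGG_

theorem p_YGG (h_YHP : T_YHP) (h_YBX : T_YBX) (h_YXS : T_YXS) (h_YID : T_YID) (h_YSC : T_YSC) (h_YMS : T_YMS) :
    T_YGG := by
  intro d p hd hp0 hp1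
  obtain ⟨C', hC', hHP⟩ := h_YHP d p (d + 1) hd hp0 hp1 (by positivity)
  obtain ⟨C, hC, hBX⟩ := h_YBX d (by omega)
  obtain ⟨a0, A0, C0, _, _, _, hXS⟩ := h_YXS d p hd hp0 hp1
  obtain ⟨hS1, hS2, hS3, hS4, hS5⟩ := h_YSC d hd
  have := PP_prob d hp0.le hp1.le
  refine ⟨C', hC', ?_⟩
  intro ε hε
  set K : ℝ := 3 + 2 ^ (d + 1) * |Real.log ε| with hK
  have hK3 : 3 ≤ K := by
    have : 0 ≤ 2 ^ (d + 1) * |Real.log ε| := by positivity
    linarith
  refine ⟨K, by linarith, ?_⟩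
  filter_upwards [hHP, hXS, hS1 1, hS2, hS4 C, hS5 2 (d + 5), eventually_ge_atTop 2] with n h1 h2 h3 h4 h5 h6 hn
  obtain ⟨hfn, hrd, hr0, hf0⟩ := hS3 n hn
  obtain ⟨_, hTT, _, _, _⟩ := h2
  have hn0 : (0 : ℝ) < n := by
    have : 0 < n := by omega
    exact_mod_cast this
  have hn2 : (2 : ℝ) ≤ n := by exact_mod_cast hn
  have hl1 : (1 : ℝ) ≤ (ll d n : ℝ) := by
    have : 1 ≤ ll d n := by unfold ll; omega
    exact_mod_cast this
  have hl0 : (0 : ℝ) < (ll d n : ℝ) := by linarith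
  -- `2ℓ ≤ f`
  have h2l : 2 * (ll d n : ℝ) ≤ fn d n := by
    have e1 : (1 : ℝ) ≤ Real.sqrt n := by
      rw [Real.one_le_sqrt]; linarith
    have e2 : 0 < rr d n ^ (d + 5) := by positivity
    have e3 : 2 * rr d n ^ (d + 5) ≤ 2 * Real.sqrt n * rr d n ^ (d + 5) := by nlinarith
    have e4 := h4.2.2
    linarith [h6.1]
  -- `f ≤ n`
  have hfn' : fn d n ≤ n := by
    have := h6.2
    linarith
  -- bound of θ
  have hth : (2 / (n : ℝ)) ^ d ≤ th d n := by
    unfold th
    apply pow_le_pow_left₀ (by positivity)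
    rw [div_le_div_iff₀ hn0 hf0]
    nlinarith
  have hexp : Real.exp (-((d : ℝ) + 1) * rr d n ^ d) = ((n : ℝ) ^ (d + 1))⁻¹ := by
    rw [hrd]
    rw [show -((d : ℝ) + 1) * Real.log n = -(((d + 1 : ℕ) : ℝ) * Real.log n) by push_cast; ring]
    rw [Real.exp_neg, Real.exp_nat_mul, Real.exp_log hn0]
  have hexple : Real.exp (-((d : ℝ) + 1) * rr d n ^ d) ≤ th d n / 2 ^ (d + 1) := by
    rw [hexp]
    have : ((n : ℝ) ^ (d + 1))⁻¹ ≤ (2 / (n : ℝ)) ^ d / 2 ^ (d + 1) := by
      rw [div_pow, pow_succ, pow_succ, inv_eq_one_div, div_div, div_le_div_iff₀ (by positivity) (by positivity)]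
      have : 0 < (n : ℝ) ^ d := by positivity
      have h2d : 0 < (2 : ℝ) ^ d := by positivity
      have : 1 * ((n : ℝ) ^ d * (2 ^ d * 2)) = ((n : ℝ) ^ d * 2 ^ d) * 2 := by ring
      rw [this]
      have : (2 : ℝ) ^ d * ((n : ℝ) ^ d * n) = ((n : ℝ) ^ d * 2 ^ d) * n := by ring
      rw [this]
      apply mul_le_mul_of_nonneg_left hn2; positivity
    refine le_trans this ?_
    apply div_le_div_of_nonneg_right hth; positivity
  -- probability of a good box
  have hgood : ∀ a : Fin d → ℤ, th d n / 2 ^ (d + 1) ≤ (PP d p).real (Gd d p n C' a) := by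
    intro a
    have hb := (hBX p (ll d n) a (xs d p n) hp0 hp1).2
    have hh := h1 a (2 * ll d n) (by omega)
    have hsub : {ω : Env d | xs d p n - C / (ll d n : ℝ) ^ 2 ≤ lam (opn ω (boxF a (2 * ll d n)))} ⊆
        Gd d p n C' a ∪ {ω : Env d | C' * rr d n ^ d < nh p n ω a (2 * ll d n)} := by
      intro ω hω
      simp only [Set.mem_ofPred_eq] at hω
      by_cases hc : C' * rr d n ^ d < nh p n ω a (2 * ll d n)
      · right; exact hc
      · left
        refine ⟨?_, not_lt.mp hc⟩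
        have : C / (ll d n : ℝ) ^ 2 ≤ sn d n := h5
        linarith
    have hle : (PP d p).real {ω : Env d | xs d p n - C / (ll d n : ℝ) ^ 2 ≤ lam (opn ω (boxF a (2 * ll d n)))} ≤
        (PP d p).real (Gd d p n C' a) + (PP d p).real {ω : Env d | C' * rr d n ^ d < nh p n ω a (2 * ll d n)} :=
      le_trans (measureReal_mono hsub) (measureReal_union_le _ _)
    have h2d : (0 : ℝ) < 2 ^ d := by positivity
    have hge : th d n / 2 ^ d ≤ (PP d p).real {ω : Env d | xs d p n - C / (ll d n : ℝ) ^ 2 ≤ lam (opn ω (boxF a (2 * ll d n)))} := by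
      rw [div_le_iff₀ h2d]
      calc th d n ≤ _ := hTT
        _ ≤ _ := hb
        _ = _ := by ring
    have hlast : (PP d p).real {ω : Env d | C' * rr d n ^ d < nh p n ω a (2 * ll d n)} ≤ th d n / 2 ^ (d + 1) :=
      le_trans hh hexple
    have : th d n / 2 ^ d = th d n / 2 ^ (d + 1) + th d n / 2 ^ (d + 1) := by
      rw [pow_succ]; field_simp; ring
    linarith
  -- number of boxes
  set N : ℕ := ⌊(K - 1) * fn d n / (2 * ll d n)⌋₊ with hNdef
  have hNup : 2 * (ll d n : ℝ) * N ≤ (K - 1) * fn d n := by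
    have : (N : ℝ) ≤ (K - 1) * fn d n / (2 * ll d n) := Nat.floor_le (by
      apply div_nonneg (mul_nonneg (by linarith) hf0.le) (by positivity))
    rw [le_div_iff₀ (by positivity)] at this
    linarith
  have hNlo : (K - 2) * fn d n / (2 * ll d n) ≤ N := by
    have h7 : (K - 1) * fn d n / (2 * ll d n) < N + 1 := Nat.lt_floor_add_one _
    have h8 : 1 ≤ fn d n / (2 * ll d n) := by
      rw [le_div_iff₀ (by positivity)]; linarith
    have h9 : (K - 1) * fn d n / (2 * ll d n) = (K - 2) * fn d n / (2 * ll d n) + fn d n / (2 * ll d n) := by ring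
    linarith
  set S : Finset (Fin d → ℕ) := Fintype.piFinset fun _ => Finset.range N with hS
  have hind := h_YID d p (Fin d → ℕ) S (fun j => boxF (crn d n j) (2 * ll d n)) (fun j => (Gd d p n C' (crn d n j))ᶜ)
    hp0.le hp1.le (fun i _ j _ hij => crn_disj d n i j hij) (fun j _ => compl_dep _ _ (Gd_dep d p n C' _))
  have hsub2 : {ω : Env d | ¬ ∃ a : Fin d → ℤ, (∀ x ∈ boxF a (2 * ll d n), fn d n ≤ nrm x ∧ (nrm x : ℝ) ≤ K * fn d n) ∧
      xs d p n - sn d n ≤ lam (opn ω (boxF a (2 * ll d n))) ∧ nh p n ω a (2 * ll d n) ≤ C' * rr d n ^ d} ⊆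
      {ω | ∀ j ∈ S, ω ∈ (Gd d p n C' (crn d n j))ᶜ} := by
    intro ω hω j hj hg
    apply hω
    rw [hS, Fintype.mem_piFinset] at hj
    exact ⟨crn d n j, crn_norm d n N K (by omega) hf0 hNup j (fun i => Finset.mem_range.mp (hj i)), hg⟩
  refine le_trans (measureReal_mono hsub2) ?_
  rw [hind]
  set q : ℝ := th d n / 2 ^ (d + 1) with hq
  have hcompl : ∀ j ∈ S, (PP d p).real ((Gd d p n C' (crn d n j))ᶜ) ≤ Real.exp (-q) := by
    intro j _
    have hm : MeasurableSet (Gd d p n C' (crn d n j)) := (h_YMS d p hp0.le hp1.le).1 _ _ (Gd_dep d p n C' _)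
    rw [probReal_compl_eq_one_sub hm]
    have := hgood (crn d n j)
    have h10 := Real.add_one_le_exp (-q)
    linarith
  calc ∏ j ∈ S, (PP d p).real ((Gd d p n C' (crn d n j))ᶜ)
      ≤ ∏ j ∈ S, Real.exp (-q) := Finset.prod_le_prod (fun j _ => measureReal_nonneg) hcompl
    _ = Real.exp (-(q * N ^ d)) := by
        rw [Finset.prod_const, hS, Fintype.card_piFinset]
        simp only [Finset.card_range, Finset.prod_const, Finset.card_univ, Fintype.card_fin]
        rw [← Real.exp_nat_mul]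
        congr 1
        push_cast
        ring
    _ ≤ ε := by
        have h11 : (K - 2) ≤ 2 ^ (d + 1) * (q * N ^ d) := by
          have e1 : 2 ^ (d + 1) * (q * N ^ d) = (2 * (ll d n : ℝ) / fn d n * N) ^ d := by
            rw [hq, mul_pow]
            unfold th
            field_simp
          rw [e1]
          have e2 : K - 2 ≤ 2 * (ll d n : ℝ) / fn d n * N := by
            rw [div_mul_eq_mul_div, le_div_iff₀ hf0]
            rw [div_le_iff₀ (by positivity)] at hNlo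
            linarith
          have e3 : (1 : ℝ) ≤ 2 * (ll d n : ℝ) / fn d n * N := by linarith
          calc K - 2 ≤ (2 * (ll d n : ℝ) / fn d n * N) ^ 1 := by rw [pow_one]; exact e2
            _ ≤ (2 * (ll d n : ℝ) / fn d n * N) ^ d := pow_le_pow_right₀ e3 (by omega)
        have h12 : |Real.log ε| ≤ q * N ^ d := by
          have h2d : (0 : ℝ) < 2 ^ (d + 1) := by positivity
          have : 2 ^ (d + 1) * |Real.log ε| ≤ 2 ^ (d + 1) * (q * N ^ d) := by linarith
          exact le_of_mul_le_mul_left this h2d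
        have h13 : -(q * N ^ d) ≤ Real.log ε := by
          have := neg_abs_le (Real.log ε)
          linarith
        calc Real.exp (-(q * N ^ d)) ≤ Real.exp (Real.log ε) := Real.exp_le_exp.mpr h13
          _ = ε := Real.exp_log hε

end Pool.Agent.LBL
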