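import Pool.Agent.LBL.Wlk2
import Pool.Agent.LBL.Targets1

set_option autoImplicit false

/-!
# LBL, T_YHP: few holes in boxes
-/

open Finset MeasureTheory Filter Topology
open scoped Classical

namespace Pool.Agent.LBL

noncomputable section

/-- representatives in a box are unique -/
theorem YHP_rep_inj {d L : ℕ} [NeZero L] (b : Fin d → ℤ) :
    Function.Injective (rep b : Tor d L → Fin d → ℤ) := by
  intro x y h
  funext i
  have h1 : rep b x i = rep b y i := congrFun h i
  unfold rep at h1
  have h2 : (x i - (b i : ZMod L)).val = (y i - (b i : ZMod L)).val := by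
    have := add_left_cancel h1
    exact_mod_cast this
  have h3 := ZMod.val_injective L h2
  exact sub_left_injective h3

/-- the representative of the reduction -/
theorem YHP_rep_red {d L : ℕ} [NeZero L] (b z : Fin d → ℤ) (k : ℕ) (hk : k ≤ L) (hz : z ∈ boxF b k) :
    rep b (red L z) = z := by
  funext i
  unfold boxF at hz
  have hz1 := (Fintype.mem_piFinset.1 hz) i
  rw [Finset.mem_Ico] at hz1
  unfold rep red
  have h1 : ((z i : ZMod L) - (b i : ZMod L)) = (((z i - b i : ℤ)) : ZMod L) := by push_cast; ring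
  have h2 : ((((z i - b i : ℤ)) : ZMod L).val : ℤ) = (z i - b i) % L := ZMod.val_intCast _
  have hk' : (k : ℤ) ≤ L := by exact_mod_cast hk
  have h3 : (z i - b i) % (L : ℤ) = z i - b i := Int.emod_eq_of_lt (by linarith [hz1.1]) (by linarith [hz1.2])
  show b i + (((z i : ZMod L) - (b i : ZMod L)).val : ℤ) = z i
  rw [h1, h2, h3]
  ring

/-- T_YHP -/
theorem p_YHP (h_YBR : T_YBR) (h_HMO : T_HMO) (h_GPB : T_GPB) (h_YSC : T_YSC) : T_YHP := by
  intro d p B hd hp hp1 hB
  obtain ⟨c, r0, hc, hr0, hG⟩ := h_GPB d (d + 6) p hd (by omega) hp hp1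
  refine ⟨B / c, by positivity, ?_⟩
  have hS := h_YSC d hd
  filter_upwards [hS.1 r0, hS.2.1] with n hn1 hn2
  intro a k hk
  have hr : 0 < rr d n := lt_of_lt_of_le (by linarith) hn1
  have hM : 0 ≤ B / c * rr d n ^ d := by positivity
  have := PP_prob d hp.le hp1.le
  have h1 : {ω : Env d | B / c * rr d n ^ d < nh p n ω a k} ⊆
      {ω : Env d | (fun O : Finset (Tor d (8 * ll d n)) =>
        B / c * rr d n ^ d < ((hol (mm d p (d + 6) (rr d n)) O).card : ℝ))
        (Finset.univ.filter fun x => ω (rep a x) = true)} := by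
    intro ω hω
    change B / c * rr d n ^ d < nh p n ω a k at hω
    refine lt_of_lt_of_le hω ?_
    unfold nh
    have hsub : (opn ω (boxF a k)).image (red (8 * ll d n)) ⊆
        (Finset.univ.filter fun x : Tor d (8 * ll d n) => ω (rep a x) = true) := by
      intro x hx
      rw [Finset.mem_image] at hx
      obtain ⟨z, hz, rfl⟩ := hx
      unfold opn at hz
      rw [Finset.mem_filter] at hz
      rw [Finset.mem_filter]
      refine ⟨Finset.mem_univ _, ?_⟩
      rw [YHP_rep_red a z k hk hz.1]
      exact hz.2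
    have h2 := (h_HMO d (8 * ll d n) (mm d p (d + 6) (rr d n)) _ _ (by omega)).1 hsub
    exact_mod_cast Finset.card_le_card h2
  refine (measureReal_mono h1 (measure_ne_top _ _)).trans ?_
  have h4 := h_YBR (Tor d (8 * ll d n)) d p (rep a) (fun O : Finset (Tor d (8 * ll d n)) =>
        B / c * rr d n ^ d < ((hol (mm d p (d + 6) (rr d n)) O).card : ℝ)) hp.le hp1.le (YHP_rep_inj a)
  refine h4.le.trans ?_
  have h3 := hG (rr d n) (8 * ll d n) hn1 hn2.2.1 (B / c * rr d n ^ d) hM
  refine h3.trans (le_of_eq ?_)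
  congr 1
  field_simp

end

end Pool.Agent.LBL
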