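import Pool.Agent.LBL.Wlk2

set_option autoImplicit false

/-!
# LBL-YID: independence of local events with disjoint supports
-/

open Finset MeasureTheory Filter Topology
open scoped Classical

namespace Pool.Agent.LBL

noncomputable section

namespace YID_

theorem rep {d : ℕ} {F : Finset (Fin d → ℤ)} {A : Set (Env d)} (hA : DepOn F A) :
    ∃ B : Set (F → Bool), A = (fun (ω : Env d) (i : F) => ω i) ⁻¹' B := by
  refine ⟨(fun (ω : Env d) (i : F) => ω i) '' A, ?_⟩
  ext ω
  constructor
  · intro h
    exact ⟨ω, h, rfl⟩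
  · rintro ⟨ω', h', he⟩
    exact hA ω' ω (fun x hx => congrFun he ⟨x, hx⟩) h'

theorem two {d : ℕ} {p : ℝ} (h0 : 0 ≤ p) (h1 : p ≤ 1) {F1 F2 : Finset (Fin d → ℤ)}
    {A1 A2 : Set (Env d)} (hF : Disjoint F1 F2) (h1A : DepOn F1 A1) (h2A : DepOn F2 A2) :
    (PP d p).real (A1 ∩ A2) = (PP d p).real A1 * (PP d p).real A2 := by
  obtain ⟨B1, rfl⟩ := rep h1A
  obtain ⟨B2, rfl⟩ := rep h2A
  have := bern_prob h0 h1
  have hI : ProbabilityTheory.iIndepFun (fun (i : Fin d → ℤ) (ω : Env d) => ω i) (PP d p) := by
    unfold PP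
    exact ProbabilityTheory.iIndepFun_infinitePi (X := fun _ b => b) (by fun_prop)
  have h2 := hI.indepFun_finset F1 F2 hF (fun i => by fun_prop)
  have h3 := h2.measure_inter_preimage_eq_mul B1 B2 (Set.toFinite B1).measurableSet
    (Set.toFinite B2).measurableSet
  unfold Measure.real
  rw [h3, ENNReal.toReal_mul]

end YID_

theorem p_YID : T_YID := by
  intro d p I s F A h0 h1
  have := PP_prob d h0 h1
  induction s using Finset.induction_on with
  | empty =>
    intro _ _
    simp
  | insert i s hi ih =>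
    intro hF hA
    have ih' := ih (fun j hj k hk => hF j (Finset.mem_insert_of_mem hj) k (Finset.mem_insert_of_mem hk))
      (fun j hj => hA j (Finset.mem_insert_of_mem hj))
    rw [Finset.prod_insert hi, ← ih']
    have hD : Disjoint (F i) (s.biUnion F) := by
      rw [Finset.disjoint_biUnion_right]
      intro j hj
      refine hF i (Finset.mem_insert_self _ _) j (Finset.mem_insert_of_mem hj) ?_
      rintro rfl
      exact hi hj
    have hB : DepOn (s.biUnion F) {ω | ∀ j ∈ s, ω ∈ A j} := by
      intro ω ω' h hω j hj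
      exact hA j (Finset.mem_insert_of_mem hj) ω ω'
        (fun x hx => h x (Finset.mem_biUnion.2 ⟨j, hj, hx⟩)) (hω j hj)
    rw [← YID_.two h0 h1 hD (hA i (Finset.mem_insert_self _ _)) hB]
    congr 1
    ext ω
    simp only [Finset.mem_insert, forall_eq_or_imp, Set.mem_ofPred_eq, Set.mem_inter_iff]

end

end Pool.Agent.LBL
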