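import Pool.Agent.LBL.Wlk1
import Pool.Agent.LBL.Targets1

set_option autoImplicit false

/-!
# LBL-YIG: IMS corollary, boxes and grid boxes

From T_YIM (with `m = 1`), T_VAR and T_TOP.
-/

open Finset
open scoped Classical

namespace Pool.Agent.LBL

noncomputable section

/-- the box of side `ℓ` at `a` is contained in the grid box -/
theorem YIG_.box_sub {d : ℕ} (ℓ : ℕ) (hl : 1 ≤ ℓ) (a : Fin d → ℤ) :
    boxF a ℓ ⊆ boxF (fun i => (ℓ : ℤ) * (a i / (ℓ : ℤ))) (2 * ℓ) := by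
  intro x hx
  unfold boxF at hx ⊢
  rw [Fintype.mem_piFinset] at hx ⊢
  intro i
  have h1 := hx i
  rw [Finset.mem_Ico] at h1 ⊢
  have hlz : (0 : ℤ) < (ℓ : ℤ) := by exact_mod_cast hl
  have h2 := Int.mul_ediv_add_emod (a i) (ℓ : ℤ)
  have h3 := Int.emod_nonneg (a i) hlz.ne'
  have h4 := Int.emod_lt_of_pos (a i) hlz
  push_cast
  constructor
  · linarith [h1.1]
  · linarith [h1.2]

theorem p_YIG (h_YIM : T_YIM) (h_VAR : T_VAR) (h_TOP : T_TOP) : T_YIG := by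
  intro d hd
  obtain ⟨C, hC, hI⟩ := h_YIM d hd
  refine ⟨C + 1, by linarith, ?_⟩
  intro ℓ U y hl hU hy
  have hlr : (0 : ℝ) < (ℓ : ℝ) := by exact_mod_cast hl
  have hl2 : (0 : ℝ) < (ℓ : ℝ) ^ 2 := by positivity
  obtain ⟨φ, hφ⟩ := h_TOP d ℤ U hd hU
  have key : ∃ a : Fin d → ℤ, y - (C + 1) / ℓ ^ 2 ≤ lam (U ∩ boxF a ℓ) ∧ (U ∩ boxF a ℓ).Nonempty := by
    by_contra hcon
    push Not at hcon
    have hsum : ∑ x ∈ U, φ x * P0 φ x = lam U := by
      have : ∑ x ∈ U, φ x * P0 φ x = ∑ x ∈ U, lam U * φ x ^ 2 := by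
        apply Finset.sum_congr rfl
        intro x hx
        rw [hφ.eq x hx]; ring
      rw [this, ← Finset.mul_sum, hφ.nm, mul_one]
    have h1 := hI ℓ U (fun _ => 1) (y - (C + 1) / ℓ ^ 2) hl (fun x => by norm_num) ?_ φ hφ.sp
    · rw [hsum] at h1
      simp only [one_mul] at h1
      rw [hφ.nm, mul_one] at h1
      have h2 : (C + 1) / (ℓ : ℝ) ^ 2 = C / (ℓ : ℝ) ^ 2 + 1 / (ℓ : ℝ) ^ 2 := by rw [add_div]
      have h3 : 0 < 1 / (ℓ : ℝ) ^ 2 := by positivity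
      linarith
    · intro a f hf
      have hz : ∀ x ∈ U, x ∉ U ∩ boxF a ℓ → f x = 0 := fun x _ hx => hf x hx
      have e1 : ∑ x ∈ U, f x * P0 f x = ∑ x ∈ U ∩ boxF a ℓ, f x * P0 f x := by
        symm
        apply Finset.sum_subset Finset.inter_subset_left
        intro x hx hx'
        rw [hf x hx', zero_mul]
      have e2 : ∑ x ∈ U, (1 : ℝ) * f x ^ 2 = ∑ x ∈ U ∩ boxF a ℓ, f x ^ 2 := by
        simp only [one_mul]
        symm
        apply Finset.sum_subset Finset.inter_subset_left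
        intro x hx hx'
        rw [hf x hx']; ring
      rw [e1, e2]
      by_cases hne : (U ∩ boxF a ℓ).Nonempty
      · have hlt : lam (U ∩ boxF a ℓ) < y - (C + 1) / ℓ ^ 2 := by
          by_contra hge
          push Not at hge
          have := hcon a hge
          exact hne.ne_empty this
        have h4 := (h_VAR d ℤ hd (U ∩ boxF a ℓ)).1 f hf
        have h5 : 0 ≤ ∑ x ∈ U ∩ boxF a ℓ, f x ^ 2 := Finset.sum_nonneg fun x _ => sq_nonneg _
        calc _ ≤ lam (U ∩ boxF a ℓ) * ∑ x ∈ U ∩ boxF a ℓ, f x ^ 2 := h4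
          _ ≤ _ := mul_le_mul_of_nonneg_right hlt.le h5
      · rw [Finset.not_nonempty_iff_eq_empty] at hne
        rw [hne]; simp
  refine ⟨key, ?_⟩
  obtain ⟨a, ha, hne⟩ := key
  refine ⟨fun i => a i / (ℓ : ℤ), ?_, ?_⟩
  · have hsub : U ∩ boxF a ℓ ⊆ U ∩ boxF (fun i => (ℓ : ℤ) * (a i / (ℓ : ℤ))) (2 * ℓ) :=
      Finset.inter_subset_inter_left (YIG_.box_sub ℓ hl a)
    exact ha.trans ((h_VAR d ℤ hd (U ∩ boxF a ℓ)).2.2.2.1 _ hsub)
  · obtain ⟨x, hx⟩ := hne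
    refine ⟨x, ?_⟩
    rw [Finset.mem_inter] at hx ⊢
    exact ⟨hx.1, YIG_.box_sub ℓ hl a hx.2⟩

end

end Pool.Agent.LBL
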