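import Pool.Agent.LBL.Wlk1

set_option autoImplicit false

open Finset
open scoped Classical

namespace Pool.Agent.LBL

noncomputable section

namespace YIM_

/-- one-dimensional profile -/
def tau (l : ℕ) (u : ℤ) : ℝ := if 0 ≤ u ∧ u < l then ((u : ℝ) + 1) * ((l : ℝ) - u) else 0

/-- product profile -/
def chi {d : ℕ} (l : ℕ) (z : Fin d → ℤ) : ℝ := ∏ i, tau l (z i)

/-- the box carrying all sums -/
def Q (d l : ℕ) : Finset (Fin d → ℤ) := Fintype.piFinset fun _ => Finset.Icc (-1 : ℤ) l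

/-- one-dimensional mass -/
def n1 (l : ℕ) : ℝ := ∑ u ∈ Finset.Icc (-1 : ℤ) l, tau l u ^ 2

/-- one-dimensional energy -/
def s1 (l : ℕ) : ℝ := ∑ u ∈ Finset.Icc (-1 : ℤ) l, (tau l u - tau l (u + 1)) ^ 2

lemma tau_out {l : ℕ} {u : ℤ} (h : u ∉ Finset.Icc (-1 : ℤ) l) : tau l u = 0 ∧ tau l (u + 1) = 0 := by
  rw [Finset.mem_Icc] at h
  constructor
  · unfold tau
    rw [if_neg]
    rintro ⟨h1, h2⟩
    exact h ⟨by omega, by omega⟩
  · unfold tau
    rw [if_neg]
    rintro ⟨h1, h2⟩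
    exact h ⟨by omega, by omega⟩

lemma tau_diff (l : ℕ) (u : ℤ) : (tau l u - tau l (u + 1)) ^ 2 ≤ (l : ℝ) ^ 2 := by
  have hl : (0 : ℝ) ≤ (l : ℝ) := Nat.cast_nonneg l
  apply sq_le_sq'
  all_goals
    unfold tau
    by_cases h1 : 0 ≤ u ∧ u < l
    · by_cases h2 : 0 ≤ u + 1 ∧ u + 1 < l
      · rw [if_pos h1, if_pos h2]
        have a1 : (0 : ℝ) ≤ (u : ℝ) := by exact_mod_cast h1.1
        have a2 : (u : ℝ) + 1 ≤ (l : ℝ) := by exact_mod_cast h2.2.le
        push_cast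
        nlinarith
      · rw [if_pos h1, if_neg h2]
        have h3 : (l : ℤ) = u + 1 := by omega
        have a1 : (0 : ℝ) ≤ (u : ℝ) := by exact_mod_cast h1.1
        have a2 : (l : ℝ) = (u : ℝ) + 1 := by exact_mod_cast h3
        rw [a2]
        nlinarith
    · by_cases h2 : 0 ≤ u + 1 ∧ u + 1 < l
      · rw [if_neg h1, if_pos h2]
        have h3 : u = -1 := by omega
        rw [h3]
        push_cast
        linarith
      · rw [if_neg h1, if_neg h2]
        linarith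

lemma s1_le (l : ℕ) : s1 l ≤ ((l : ℝ) + 2) * (l : ℝ) ^ 2 := by
  unfold s1
  have h := Finset.sum_le_card_nsmul (Finset.Icc (-1 : ℤ) l) (fun u => (tau l u - tau l (u + 1)) ^ 2)
    ((l : ℝ) ^ 2) (fun u _ => tau_diff l u)
  rw [Int.card_Icc, nsmul_eq_mul] at h
  have h2 : (((l : ℤ) + 1 - -1).toNat : ℝ) = (l : ℝ) + 2 := by
    have : ((l : ℤ) + 1 - -1).toNat = l + 2 := by omega
    rw [this]
    push_cast
    ring
  rwa [h2] at h

lemma sum_par (l : ℝ) (k : ℕ) : ∑ u ∈ Finset.range k, ((u : ℝ) + 1) * (l - u) =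
    l * (k * (k + 1) / 2) - ((k : ℝ) - 1) * k * (k + 1) / 3 := by
  induction k with
  | zero => simp
  | succ k ih =>
    rw [Finset.sum_range_succ, ih]
    push_cast
    ring

lemma n1_ge (l : ℕ) (hl : 1 ≤ l) :
    (l : ℝ) * ((l : ℝ) + 1) ^ 2 * ((l : ℝ) + 2) ^ 2 / 36 ≤ n1 l := by
  have hl' : (1 : ℝ) ≤ (l : ℝ) := by exact_mod_cast hl
  have h1 : ∑ k ∈ Finset.range l, (((k : ℝ) + 1) * ((l : ℝ) - k)) ^ 2 ≤ n1 l := by
    have hinj : Set.InjOn (fun k : ℕ => (k : ℤ)) (Finset.range l : Set ℕ) :=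
      fun a _ b _ h => by simpa using h
    have h2 : ∑ k ∈ Finset.range l, (((k : ℝ) + 1) * ((l : ℝ) - k)) ^ 2 =
        ∑ u ∈ (Finset.range l).image (fun k : ℕ => (k : ℤ)), tau l u ^ 2 := by
      rw [Finset.sum_image hinj]
      refine Finset.sum_congr rfl fun k hk => ?_
      rw [Finset.mem_range] at hk
      unfold tau
      rw [if_pos ⟨by omega, by exact_mod_cast hk⟩]
      push_cast
      rfl
    rw [h2]
    unfold n1
    apply Finset.sum_le_sum_of_subset_of_nonneg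
    · intro u hu
      rw [Finset.mem_image] at hu
      obtain ⟨k, hk, rfl⟩ := hu
      rw [Finset.mem_range] at hk
      rw [Finset.mem_Icc]
      constructor
      · omega
      · omega
    · intro u _ _
      positivity
  have h3 : (∑ k ∈ Finset.range l, (((k : ℝ) + 1) * ((l : ℝ) - k))) ^ 2 ≤
      (l : ℝ) * ∑ k ∈ Finset.range l, (((k : ℝ) + 1) * ((l : ℝ) - k)) ^ 2 := by
    have := sq_sum_le_card_mul_sum_sq (s := Finset.range l)
      (f := fun k : ℕ => (((k : ℝ) + 1) * ((l : ℝ) - k)))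
    rwa [Finset.card_range] at this
  rw [sum_par] at h3
  have h4 : (l : ℝ) * (((l : ℝ) * ((l : ℝ) + 1) ^ 2 * ((l : ℝ) + 2) ^ 2) / 36) ≤ (l : ℝ) * n1 l := by
    calc (l : ℝ) * (((l : ℝ) * ((l : ℝ) + 1) ^ 2 * ((l : ℝ) + 2) ^ 2) / 36)
        = ((l : ℝ) * (l * (l + 1) / 2) - ((l : ℝ) - 1) * l * (l + 1) / 3) ^ 2 := by ring
      _ ≤ _ := h3
      _ ≤ _ := mul_le_mul_of_nonneg_left h1 (by linarith)
  exact le_of_mul_le_mul_left h4 (by linarith)

lemma n1_pos (l : ℕ) (hl : 1 ≤ l) : 0 < n1 l := by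
  have hl' : (1 : ℝ) ≤ (l : ℝ) := by exact_mod_cast hl
  exact lt_of_lt_of_le (by positivity) (n1_ge l hl)

lemma s1_nonneg (l : ℕ) : 0 ≤ s1 l := Finset.sum_nonneg fun _ _ => sq_nonneg _

lemma s1_le_n1 (l : ℕ) (hl : 1 ≤ l) : s1 l ≤ 36 / (l : ℝ) ^ 2 * n1 l := by
  have hl' : (1 : ℝ) ≤ (l : ℝ) := by exact_mod_cast hl
  refine (s1_le l).trans ?_
  have h1 := n1_ge l hl
  have h2 : 36 / (l : ℝ) ^ 2 * ((l : ℝ) * ((l : ℝ) + 1) ^ 2 * ((l : ℝ) + 2) ^ 2 / 36) ≤
      36 / (l : ℝ) ^ 2 * n1 l := mul_le_mul_of_nonneg_left h1 (by positivity)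
  refine le_trans ?_ h2
  have h3 : 36 / (l : ℝ) ^ 2 * ((l : ℝ) * ((l : ℝ) + 1) ^ 2 * ((l : ℝ) + 2) ^ 2 / 36) =
      ((l : ℝ) + 1) ^ 2 * ((l : ℝ) + 2) ^ 2 / (l : ℝ) := by
    field_simp
  rw [h3, le_div_iff₀ (by linarith)]
  have h4 : (l : ℝ) ^ 3 ≤ ((l : ℝ) + 1) ^ 2 * ((l : ℝ) + 2) := by
    nlinarith [sq_nonneg ((l : ℝ))]
  nlinarith [mul_le_mul_of_nonneg_left h4 (by linarith : (0 : ℝ) ≤ (l : ℝ) + 2)]

variable {d : ℕ}

lemma ev_same (i : Fin d) : (ev i : Fin d → ℤ) i = 1 := by simp [ev]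

lemma ev_ne {i j : Fin d} (h : j ≠ i) : (ev i : Fin d → ℤ) j = 0 := by simp [ev, h]

lemma chi_out {l : ℕ} {z : Fin d → ℤ} (h : z ∉ Q d l) : chi l z = 0 := by
  unfold Q at h
  rw [Fintype.mem_piFinset] at h
  push Not at h
  obtain ⟨j, hj⟩ := h
  exact Finset.prod_eq_zero (Finset.mem_univ j) (tau_out hj).1

lemma chi_out' {l : ℕ} {z : Fin d → ℤ} (h : z ∉ Q d l) (i : Fin d) : chi l (z + ev i) = 0 := by
  unfold Q at h
  rw [Fintype.mem_piFinset] at h
  push Not at h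
  obtain ⟨j, hj⟩ := h
  apply Finset.prod_eq_zero (Finset.mem_univ j)
  by_cases hji : j = i
  · subst hji
    rw [Pi.add_apply, ev_same]
    exact (tau_out hj).2
  · rw [Pi.add_apply, ev_ne hji, add_zero]
    exact (tau_out hj).1

lemma sum_chi (d l : ℕ) : ∑ z ∈ Q d l, chi l z ^ 2 = n1 l ^ d := by
  have h : ∀ z : Fin d → ℤ, chi l z ^ 2 = ∏ i, tau l (z i) ^ 2 := by
    intro z
    unfold chi
    rw [Finset.prod_pow]
  simp_rw [h]
  unfold Q
  rw [← Finset.prod_univ_sum (fun _ : Fin d => Finset.Icc (-1 : ℤ) l) (fun _ u => tau l u ^ 2)]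
  rw [Finset.prod_const, Finset.card_univ, Fintype.card_fin]
  rfl

lemma chi_diff (l : ℕ) (z : Fin d → ℤ) (i : Fin d) : (chi l z - chi l (z + ev i)) ^ 2 =
    ∏ j, (if j = i then (tau l (z j) - tau l (z j + 1)) ^ 2 else tau l (z j) ^ 2) := by
  have e1 : chi l z = tau l (z i) * ∏ j ∈ Finset.univ.erase i, tau l (z j) :=
    (Finset.mul_prod_erase Finset.univ (fun j => tau l (z j)) (Finset.mem_univ i)).symm
  have e2 : chi l (z + ev i) = tau l (z i + 1) * ∏ j ∈ Finset.univ.erase i, tau l (z j) := by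
    have h := (Finset.mul_prod_erase Finset.univ (fun j => tau l ((z + (ev i : Fin d → ℤ)) j))
      (Finset.mem_univ i)).symm
    have h1 : ∏ x ∈ Finset.univ.erase i, tau l ((z + (ev i : Fin d → ℤ)) x) =
        ∏ x ∈ Finset.univ.erase i, tau l (z x) := by
      refine Finset.prod_congr rfl fun j hj => ?_
      rw [Pi.add_apply, ev_ne (Finset.ne_of_mem_erase hj), add_zero]
    rw [h1, Pi.add_apply, ev_same] at h
    exact h
  have e3 : ∏ j, (if j = i then (tau l (z j) - tau l (z j + 1)) ^ 2 else tau l (z j) ^ 2) =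
      (tau l (z i) - tau l (z i + 1)) ^ 2 * (∏ x ∈ Finset.univ.erase i, tau l (z x)) ^ 2 := by
    have h := (Finset.mul_prod_erase Finset.univ (fun j : Fin d => if j = i then
      (tau l (z j) - tau l (z j + 1)) ^ 2 else tau l (z j) ^ 2) (Finset.mem_univ i)).symm
    rw [h, if_pos rfl]
    congr 1
    rw [← Finset.prod_pow]
    refine Finset.prod_congr rfl fun j hj => ?_
    rw [if_neg (Finset.ne_of_mem_erase hj)]
  rw [e1, e2, e3]
  ring

lemma sum_chi_diff (d l : ℕ) (i : Fin d) :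
    ∑ z ∈ Q d l, (chi l z - chi l (z + ev i)) ^ 2 = s1 l * n1 l ^ (d - 1) := by
  simp_rw [chi_diff]
  unfold Q
  rw [← Finset.prod_univ_sum (fun _ : Fin d => Finset.Icc (-1 : ℤ) l)
    (fun j u => if j = i then (tau l u - tau l (u + 1)) ^ 2 else tau l u ^ 2)]
  rw [← Finset.mul_prod_erase Finset.univ _ (Finset.mem_univ i)]
  congr 1
  · unfold s1
    refine Finset.sum_congr rfl fun u _ => ?_
    rw [if_pos rfl]
  · have : ∀ j ∈ Finset.univ.erase i, (∑ u ∈ Finset.Icc (-1 : ℤ) l,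
        (if j = i then (tau l u - tau l (u + 1)) ^ 2 else tau l u ^ 2)) = n1 l := by
      intro j hj
      unfold n1
      refine Finset.sum_congr rfl fun u _ => ?_
      rw [if_neg (Finset.ne_of_mem_erase hj)]
    rw [Finset.prod_congr rfl this, Finset.prod_const, Finset.card_erase_of_mem (Finset.mem_univ i),
      Finset.card_univ, Fintype.card_fin]

/-- the translates used -/
def AA (l : ℕ) (U : Finset (Fin d → ℤ)) : Finset (Fin d → ℤ) :=
  (U ×ˢ Q d l).image fun p => p.1 - p.2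

lemma sum_AA (l : ℕ) (U : Finset (Fin d → ℤ)) (x : Fin d → ℤ) (hx : x ∈ U)
    (F : (Fin d → ℤ) → ℝ) (hF : ∀ z, z ∉ Q d l → F z = 0) :
    ∑ a ∈ AA l U, F (x - a) = ∑ z ∈ Q d l, F z := by
  have hsub : (Q d l).image (fun z => x - z) ⊆ AA l U := by
    intro a ha
    rw [Finset.mem_image] at ha
    obtain ⟨z, hz, rfl⟩ := ha
    unfold AA
    rw [Finset.mem_image]
    exact ⟨(x, z), Finset.mem_product.2 ⟨hx, hz⟩, rfl⟩
  rw [← Finset.sum_subset hsub]
  · rw [Finset.sum_image]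
    · refine Finset.sum_congr rfl fun z _ => ?_
      rw [sub_sub_cancel]
    · intro a _ b _ h
      simpa using h
  · intro a _ ha
    apply hF
    intro hz
    apply ha
    rw [Finset.mem_image]
    exact ⟨x - a, hz, sub_sub_cancel x a⟩

lemma sum_sq (l : ℕ) (U : Finset (Fin d → ℤ)) (x : Fin d → ℤ) (hx : x ∈ U) :
    ∑ a ∈ AA l U, chi l (x - a) ^ 2 = n1 l ^ d := by
  rw [sum_AA l U x hx (fun z => chi l z ^ 2) (fun z hz => by rw [chi_out hz]; ring), sum_chi]

lemma cross (l : ℕ) (U : Finset (Fin d → ℤ)) (x : Fin d → ℤ) (i : Fin d) (hx : x ∈ U)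
    (hx' : x + ev i ∈ U) :
    ∑ a ∈ AA l U, chi l (x - a) * chi l (x + ev i - a) =
      n1 l ^ d - s1 l * n1 l ^ (d - 1) / 2 := by
  have h1 := sum_sq l U x hx
  have h2 := sum_sq l U (x + ev i) hx'
  have h3 := sum_AA l U x hx (fun z => (chi l z - chi l (z + ev i)) ^ 2)
    (fun z hz => by rw [chi_out hz, chi_out' hz]; ring)
  rw [sum_chi_diff] at h3
  have h4 : ∀ a, chi l (x - a) * chi l (x + ev i - a) =
      (chi l (x - a) ^ 2 + chi l (x + ev i - a) ^ 2 -
        (chi l (x - a) - chi l (x - a + ev i)) ^ 2) / 2 := by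
    intro a
    have : x - a + ev i = x + ev i - a := by abel
    rw [this]
    ring
  simp_rw [h4]
  rw [← Finset.sum_div, Finset.sum_sub_distrib, Finset.sum_add_distrib, h1, h2, h3]
  ring

lemma lhs (l : ℕ) (U : Finset (Fin d → ℤ)) (f : (Fin d → ℤ) → ℝ) (hf : Spp U f) :
    ∑ a ∈ AA l U, ∑ x ∈ U, (chi l (x - a) * f x) * P0 (fun z => chi l (z - a) * f z) x =
      (n1 l ^ d - s1 l * n1 l ^ (d - 1) / 2) * ∑ x ∈ U, f x * P0 f x := by
  rw [Finset.sum_comm, Finset.mul_sum]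
  refine Finset.sum_congr rfl fun x hx => ?_
  set c : ℝ := n1 l ^ d - s1 l * n1 l ^ (d - 1) / 2 with hc
  have h1 : ∀ i : Fin d, ∑ a ∈ AA l U, chi l (x - a) * (chi l (x + ev i - a) * f (x + ev i)) =
      c * f (x + ev i) := by
    intro i
    by_cases h : x + ev i ∈ U
    · rw [hc, ← cross l U x i hx h, Finset.sum_mul]
      refine Finset.sum_congr rfl fun a _ => ?_
      ring
    · rw [hf _ h]
      simp
  have h2 : ∀ i : Fin d, ∑ a ∈ AA l U, chi l (x - a) * (chi l (x - ev i - a) * f (x - ev i)) =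
      c * f (x - ev i) := by
    intro i
    by_cases h : x - ev i ∈ U
    · have h3 := cross l U (x - ev i) i h (by rw [sub_add_cancel]; exact hx)
      rw [sub_add_cancel] at h3
      rw [hc, ← h3, Finset.sum_mul]
      refine Finset.sum_congr rfl fun a _ => ?_
      ring
    · rw [hf _ h]
      simp
  unfold P0
  have h5 : ∀ a, chi l (x - a) * f x * ((∑ i : Fin d, (chi l (x + ev i - a) * f (x + ev i) +
      chi l (x - ev i - a) * f (x - ev i))) / (2 * d)) =
      f x / (2 * d) * ∑ i : Fin d, (chi l (x - a) * (chi l (x + ev i - a) * f (x + ev i)) +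
        chi l (x - a) * (chi l (x - ev i - a) * f (x - ev i))) := by
    intro a
    simp_rw [← mul_add]
    rw [← Finset.mul_sum]
    ring
  simp_rw [h5]
  rw [← Finset.mul_sum, Finset.sum_comm]
  simp_rw [Finset.sum_add_distrib, h1, h2]
  rw [← Finset.mul_sum, ← Finset.mul_sum]
  ring

end YIM_

open YIM_ in
theorem p_YIM (h_YEN : T_YEN) : T_YIM := by
  intro d hd
  refine ⟨36, by norm_num, ?_⟩
  intro l U m y hl hm hyp f hf
  have hl' : (1 : ℝ) ≤ (l : ℝ) := by exact_mod_cast hl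
  set E := ∑ x ∈ U, f x * P0 f x with hE
  set G := ∑ x ∈ U, m x * f x ^ 2 with hG
  have hn := n1_pos l hl
  have hN : 0 < n1 l ^ d := pow_pos hn d
  have hG0 : 0 ≤ G := Finset.sum_nonneg fun x _ => mul_nonneg (by linarith [(hm x).1]) (sq_nonneg _)
  have hEG : E ≤ 2 * G := by
    have h1 := (h_YEN d U f hd hf).2.2
    have h2 : ∑ x ∈ U, f x ^ 2 ≤ 2 * G := by
      rw [hG, Finset.mul_sum]
      refine Finset.sum_le_sum fun x _ => ?_
      nlinarith [(hm x).1, sq_nonneg (f x)]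
    exact (le_abs_self _).trans (h1.trans h2)
  have key : (n1 l ^ d - s1 l * n1 l ^ (d - 1) / 2) * E ≤ y * (n1 l ^ d * G) := by
    rw [hE, ← lhs l U f hf]
    have h1 : ∀ a ∈ AA l U, ∑ x ∈ U, (chi l (x - a) * f x) * P0 (fun z => chi l (z - a) * f z) x ≤
        y * ∑ x ∈ U, m x * (chi l (x - a) * f x) ^ 2 := by
      intro a _
      apply hyp a (fun z => chi l (z - a) * f z)
      intro x hx
      rw [Finset.mem_inter, not_and_or] at hx
      rcases hx with hx | hx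
      · change chi l (x - a) * f x = 0
        rw [hf x hx, mul_zero]
      · unfold boxF at hx
        rw [Fintype.mem_piFinset] at hx
        push Not at hx
        obtain ⟨j, hj⟩ := hx
        have : chi l (x - a) = 0 := by
          unfold chi
          apply Finset.prod_eq_zero (Finset.mem_univ j)
          unfold tau
          rw [if_neg]
          rintro ⟨h1, h2⟩
          apply hj
          rw [Finset.mem_Ico]
          rw [Pi.sub_apply] at h1 h2
          constructor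
          · omega
          · omega
        change chi l (x - a) * f x = 0
        rw [this, zero_mul]
    refine (Finset.sum_le_sum h1).trans (le_of_eq ?_)
    rw [← Finset.mul_sum]
    congr 1
    rw [Finset.sum_comm, hG, Finset.mul_sum]
    refine Finset.sum_congr rfl fun x hx => ?_
    rw [← sum_sq l U x hx, Finset.sum_mul]
    refine Finset.sum_congr rfl fun a _ => ?_
    ring
  have hS : s1 l * n1 l ^ (d - 1) ≤ 36 / (l : ℝ) ^ 2 * n1 l ^ d := by
    have h1 : n1 l ^ d = n1 l * n1 l ^ (d - 1) := by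
      rw [← pow_succ']
      congr 1
      omega
    rw [h1, ← mul_assoc]
    exact mul_le_mul_of_nonneg_right (s1_le_n1 l hl) (pow_nonneg hn.le _)
  have hS0 : 0 ≤ s1 l * n1 l ^ (d - 1) := mul_nonneg (s1_nonneg l) (pow_nonneg hn.le _)
  have h6 : s1 l * n1 l ^ (d - 1) / 2 * E ≤ 36 / (l : ℝ) ^ 2 * n1 l ^ d * G := by
    calc s1 l * n1 l ^ (d - 1) / 2 * E ≤ s1 l * n1 l ^ (d - 1) / 2 * (2 * G) :=
          mul_le_mul_of_nonneg_left hEG (by linarith)
      _ = s1 l * n1 l ^ (d - 1) * G := by ring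
      _ ≤ _ := mul_le_mul_of_nonneg_right hS hG0
  have h7 : n1 l ^ d * E ≤ n1 l ^ d * ((y + 36 / (l : ℝ) ^ 2) * G) := by nlinarith
  exact le_of_mul_le_mul_left h7 hN

end

end Pool.Agent.LBL
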