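import Pool.Agent.LBL.Wlk1
import Pool.Agent.LBL.Targets1

set_option autoImplicit false

/-!
# LBL: good points of an island (`T_YIS`)
-/

open Finset
open scoped Classical

namespace Pool.Agent.LBL

noncomputable section

theorem YIS_td_red {d : ℕ} (L : ℕ) [NeZero L] (z x : Fin d → ℤ) : td (red L z) (red L x) ≤ nrm (z - x) := by
  unfold td nrm
  apply Finset.sup_le
  intro i _
  refine le_trans ?_ (Finset.le_sup (f := fun i => ((z - x) i).natAbs) (Finset.mem_univ i))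
  have h : red L z i - red L x i = ((((z - x) i : ℤ)) : ZMod L) := by
    simp [red]
  show (red L z i - red L x i).valMinAbs.natAbs ≤ ((z - x) i).natAbs
  rw [h]
  exact ZMod.natAbs_min_of_le_div_two L _ _ (ZMod.coe_valMinAbs _) (ZMod.natAbs_valMinAbs_le _)

theorem YIS_td_self {d L : ℕ} [NeZero L] (x : Tor d L) (ρ : ℕ) : td x x ≤ ρ := by
  unfold td
  apply Finset.sup_le
  intro i _
  simp

theorem YIS_red_inj {d L : ℕ} (v z : Fin d → ℤ) (h : red L v = red L z)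
    (hb : ∀ i, |v i - z i| < (L : ℤ)) : v = z := by
  funext i
  have h1 : ((v i : ℤ) : ZMod L) = ((z i : ℤ) : ZMod L) := congrFun h i
  have h2 : (((v i - z i : ℤ)) : ZMod L) = 0 := by
    push_cast
    rw [h1]; ring
  rw [ZMod.intCast_zmod_eq_zero_iff_dvd] at h2
  have h3 := Int.eq_zero_of_abs_lt_dvd h2 (hb i)
  linarith

theorem p_YIS (h_TOP : T_TOP) (h_YCN : T_YCN) (h_YTR : T_YTR) (h_HMO : T_HMO) (h_GDE : T_GDE) (h_YBU : T_YBU)
    (h_YSB : T_YSB) : T_YIS := by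
  intro d K0 p A C' hd hK hp hp1 hA hC'
  obtain ⟨C, r0, hC, hr0, hG⟩ := h_GDE d K0 p A C' hd hK hp hp1 hA hC'
  obtain ⟨c, hc, hB⟩ := h_YBU d C hd hC
  obtain ⟨c6, r2, hc6, hr2, hS⟩ := h_YSB d C c hd hC hc
  refine ⟨c, c6, hc, hc6, fun ρ => ?_⟩
  obtain ⟨r3, hr3, hB3⟩ := hB ρ
  refine ⟨max (max r0 r2) (max r3 (2 * ρ + 2)), ?_, ?_⟩
  · exact lt_of_lt_of_le hr0 (le_trans (le_max_left _ _) (le_max_left _ _))
  intro r ℓ _ hr hRg a O hO hOn hlam hhol
  have hr0' : r0 ≤ r := le_trans (le_trans (le_max_left _ _) (le_max_left _ _)) hr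
  have hr2' : r2 ≤ r := le_trans (le_trans (le_max_right _ _) (le_max_left _ _)) hr
  have hr3' : r3 ≤ r := le_trans (le_trans (le_max_left _ _) (le_max_right _ _)) hr
  have hrρ : (2 * ρ + 2 : ℝ) ≤ r := le_trans (le_trans (le_max_right _ _) (le_max_right _ _)) hr
  have hr1 : (1 : ℝ) ≤ r := le_trans hr0.le hr0'
  have hrL : r ≤ ((8 * ℓ : ℕ) : ℝ) := by
    refine le_trans ?_ hRg.1
    exact le_self_pow₀ hr1 (by omega)
  have hℓ : ρ < 6 * ℓ := by
    have h1 : (2 * ρ + 2 : ℝ) ≤ ((8 * ℓ : ℕ) : ℝ) := le_trans hrρ hrL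
    have h2 : 2 * ρ + 2 ≤ 8 * ℓ := by exact_mod_cast h1
    omega
  have hℓ1 : 1 ≤ ℓ := by omega
  obtain ⟨V, hVO, hVn, hCon, hlV⟩ := h_YCN d O (by omega) hOn
  have hVb : V ⊆ boxF a (2 * ℓ) := hVO.trans hO
  obtain ⟨φ, hφ⟩ := h_TOP d ℤ V (by omega) hVn
  obtain ⟨t1, t2, t3, t4⟩ := h_YTR d (2 * ℓ) (8 * ℓ) a V (by omega) (by omega) hVb
  have hTop := t2 φ hφ
  have hEF : EF r C (V.image (red (8 * ℓ))) (psh (8 * ℓ) V φ) := by
    refine hG r (8 * ℓ) hr0' hRg _ _ hTop ?_ ?_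
    · rw [t1, hlV]; exact hlam
    · refine le_trans ?_ hhol
      have := (h_HMO d (8 * ℓ) (mm d p K0 r) (V.image (red (8 * ℓ))) (O.image (red (8 * ℓ))) (by omega)).1
        (Finset.image_subset_image hVO)
      exact_mod_cast Finset.card_le_card this
  have hcard := hB3 r (8 * ℓ) hr3' hrL _ _ hEF
  refine ⟨V, hVO, hCon, hlV, le_trans hcard ?_⟩
  have hsub : (Finset.univ.filter fun x => c * hh d r ≤ psh (8 * ℓ) V φ x ∧
      ∀ y, td y x ≤ ρ → y ∈ V.image (red (8 * ℓ))) ⊆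
      (V.filter fun x => (∀ z, nrm (z - x) ≤ ρ → z ∈ V) ∧ c6 ≤ sv V ⌊r ^ 2⌋₊ x).image (red (8 * ℓ)) := by
    intro x' hx'
    rw [Finset.mem_filter] at hx'
    obtain ⟨_, hx1, hx2⟩ := hx'
    have hxV := hx2 x' (YIS_td_self x' ρ)
    rw [Finset.mem_image] at hxV
    obtain ⟨x, hx, rfl⟩ := hxV
    rw [Finset.mem_image]
    refine ⟨x, ?_, rfl⟩
    rw [Finset.mem_filter]
    refine ⟨hx, ?_, ?_⟩
    · intro z hz
      have h1 := hx2 (red (8 * ℓ) z) (le_trans (YIS_td_red _ z x) hz)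
      rw [Finset.mem_image] at h1
      obtain ⟨v, hv, hvz⟩ := h1
      have : v = z := by
        refine YIS_red_inj v z hvz (fun i => ?_)
        have hvb := hVb hv
        have hxb := hVb hx
        unfold boxF at hvb hxb
        rw [Fintype.mem_piFinset] at hvb hxb
        have a1 := Finset.mem_Ico.1 (hvb i)
        have a2 := Finset.mem_Ico.1 (hxb i)
        have a3 : ((z - x) i).natAbs ≤ ρ :=
          le_trans (Finset.le_sup (f := fun i => ((z - x) i).natAbs) (Finset.mem_univ i)) hz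
        rw [Pi.sub_apply] at a3
        rw [abs_lt]
        push_cast at a1 a2 ⊢
        constructor <;> omega
      rw [← this]; exact hv
    · rw [t4 _ x hx]
      exact hS r (8 * ℓ) hr2' _ _ hEF _ hx1
  exact_mod_cast le_trans (Finset.card_le_card hsub) Finset.card_image_le

end

end Pool.Agent.LBL
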