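import Pool.Agent.LBL.Wlk1
import Pool.Agent.LBL.Targets1

set_option autoImplicit false

open Finset
open scoped Classical

namespace Pool.Agent.LBL

namespace YIT_

/-- the profile -/
noncomputable def tt (ℓ : ℕ) {L : ℕ} (u : ZMod L) : ℝ :=
  if u.val < ℓ then ((u.val : ℝ) + 1) * ((ℓ : ℝ) - u.val) else 0

lemma sum_val {L : ℕ} [NeZero L] (g : ℕ → ℝ) :
    ∑ u : ZMod L, g u.val = ∑ v ∈ Finset.range L, g v := by
  refine Finset.sum_nbij' (fun u => u.val) (fun v => (v : ZMod L)) ?_ ?_ ?_ ?_ ?_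
  · intro u _
    exact Finset.mem_range.mpr (ZMod.val_lt u)
  · intro v _
    exact Finset.mem_univ _
  · intro u _
    exact ZMod.natCast_zmod_val u
  · intro v hv
    exact ZMod.val_natCast_of_lt (Finset.mem_range.mp hv)
  · intro u _
    rfl

lemma sum_val_lt {L ℓ : ℕ} [NeZero L] (h : ℓ ≤ L) (g : ℕ → ℝ) :
    ∑ u : ZMod L, (if u.val < ℓ then g u.val else 0) = ∑ v ∈ Finset.range ℓ, g v := by
  rw [sum_val (L := L) (fun v => if v < ℓ then g v else 0)]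
  rw [← Finset.sum_subset (Finset.range_subset_range.mpr h)]
  · refine Finset.sum_congr rfl fun v hv => ?_
    rw [if_pos (Finset.mem_range.mp hv)]
  · intro v _ hv
    rw [if_neg (fun h' => hv (Finset.mem_range.mpr h'))]

lemma sum_par (ℓ : ℝ) (n : ℕ) : ∑ v ∈ Finset.range n, ((v : ℝ) + 1) * (ℓ - v) =
    ℓ * n * (n + 1) / 2 - (n - 1) * n * (n + 1) / 3 := by
  induction n with
  | zero => simp
  | succ n ih =>
    rw [Finset.sum_range_succ, ih]
    push_cast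
    ring

lemma N1_ge {L ℓ : ℕ} [NeZero L] (h1 : 1 ≤ ℓ) (h : ℓ ≤ L) :
    (ℓ : ℝ) ^ 5 / 36 ≤ ∑ u : ZMod L, tt ℓ u ^ 2 := by
  have e1 : ∑ u : ZMod L, tt ℓ u ^ 2 =
      ∑ v ∈ Finset.range ℓ, (((v : ℝ) + 1) * ((ℓ : ℝ) - v)) ^ 2 := by
    rw [← sum_val_lt h]
    refine Finset.sum_congr rfl fun u _ => ?_
    unfold tt
    split_ifs
    · rfl
    · simp
  rw [e1]
  have cs := sq_sum_le_card_mul_sum_sq (s := Finset.range ℓ)
    (f := fun v : ℕ => ((v : ℝ) + 1) * ((ℓ : ℝ) - v))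
  rw [sum_par, Finset.card_range] at cs
  have hl : (1 : ℝ) ≤ ℓ := by exact_mod_cast h1
  have e2 : (ℓ : ℝ) * ℓ * (ℓ + 1) / 2 - (ℓ - 1) * ℓ * (ℓ + 1) / 3 =
      ℓ * (ℓ + 1) * (ℓ + 2) / 6 := by ring
  rw [e2] at cs
  have h3 : ((ℓ : ℝ) ^ 3 / 6) ^ 2 ≤ ((ℓ : ℝ) * (ℓ + 1) * (ℓ + 2) / 6) ^ 2 := by
    apply pow_le_pow_left₀ (by positivity)
    have : (ℓ : ℝ) ^ 3 ≤ ℓ * (ℓ + 1) * (ℓ + 2) := by nlinarith [sq_nonneg (ℓ : ℝ)]
    linarith
  have h4 : (ℓ : ℝ) * ((ℓ : ℝ) ^ 5 / 36) ≤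
      ℓ * ∑ v ∈ Finset.range ℓ, (((v : ℝ) + 1) * ((ℓ : ℝ) - v)) ^ 2 := by
    calc (ℓ : ℝ) * ((ℓ : ℝ) ^ 5 / 36) = ((ℓ : ℝ) ^ 3 / 6) ^ 2 := by ring
      _ ≤ _ := h3.trans cs
  exact le_of_mul_le_mul_left h4 (by linarith)

lemma diff_le {L ℓ : ℕ} [NeZero L] (h1 : 1 ≤ ℓ) (h : ℓ ≤ L) (u : ZMod L) :
    (tt ℓ (u + 1) - tt ℓ u) ^ 2 ≤
      (ℓ : ℝ) ^ 2 * ((if (u + 1).val < ℓ then 1 else 0) + (if u.val < ℓ then 1 else 0)) := by
  have hl : (1 : ℝ) ≤ ℓ := by exact_mod_cast h1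
  have hv := ZMod.val_lt u
  have key : (tt ℓ (u + 1) - tt ℓ u) ^ 2 ≤ (ℓ : ℝ) ^ 2 ∨
      (¬ (u + 1).val < ℓ ∧ ¬ u.val < ℓ) := by
    by_cases hlt : u.val + 1 < L
    · have hs : (u + 1).val = u.val + 1 := by
        have h2 : (1 : ZMod L).val ≤ 1 := by
          rcases Nat.lt_or_ge 1 L with hL | hL
          · haveI : Fact (1 < L) := ⟨hL⟩
            rw [ZMod.val_one]
          · omega
        have h3 : (1 : ZMod L).val = 1 := by
          haveI : Fact (1 < L) := ⟨by omega⟩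
          exact ZMod.val_one L
        rw [ZMod.val_add_of_lt (by rw [h3]; exact hlt), h3]
      by_cases ha : u.val < ℓ
      · left
        unfold tt
        rw [hs, if_pos ha]
        by_cases hb : u.val + 1 < ℓ
        · rw [if_pos hb]
          have hb' : (u.val : ℝ) + 2 ≤ ℓ := by exact_mod_cast hb
          have h0 : (0 : ℝ) ≤ u.val := by positivity
          push_cast
          apply sq_le_sq'
          · nlinarith
          · nlinarith
        · rw [if_neg hb]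
          have hb' : (ℓ : ℝ) = u.val + 1 := by
            have : ℓ = u.val + 1 := by omega
            exact_mod_cast this
          rw [hb']
          ring_nf
          rfl
      · right
        exact ⟨by omega, ha⟩
    · have hv1 : u.val = L - 1 := by omega
      have hs : u + 1 = 0 := by
        have : u = ((L - 1 : ℕ) : ZMod L) := by
          rw [← hv1, ZMod.natCast_zmod_val]
        rw [this]
        have h4 : ((L - 1 : ℕ) : ZMod L) + 1 = ((L - 1 + 1 : ℕ) : ZMod L) := by push_cast; rfl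
        rw [h4, Nat.sub_add_cancel (Nat.one_le_iff_ne_zero.mpr (NeZero.ne L)),
          ZMod.natCast_self]
      left
      unfold tt
      rw [hs, ZMod.val_zero, if_pos (by omega : 0 < ℓ)]
      by_cases ha : u.val < ℓ
      · rw [if_pos ha]
        have : (ℓ : ℝ) = u.val + 1 := by
          have : ℓ = u.val + 1 := by omega
          exact_mod_cast this
        rw [this]
        push_cast
        have h5 : (0 : ℝ) ≤ ((u.val : ℝ) + 1) ^ 2 := by positivity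
        ring_nf
        ring_nf at h5
        exact h5
      · rw [if_neg ha]
        push_cast
        ring_nf
        rfl
  rcases key with hk | hk
  · by_cases ha : (u + 1).val < ℓ
    · rw [if_pos ha]
      split_ifs
      · nlinarith [sq_nonneg (ℓ : ℝ)]
      · linarith
    · by_cases hb : u.val < ℓ
      · rw [if_neg ha, if_pos hb]; linarith
      · have : tt ℓ (u + 1) - tt ℓ u = 0 := by
          unfold tt
          rw [if_neg ha, if_neg hb, sub_zero]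
        rw [this, if_neg ha, if_neg hb]
        simp
  · have : tt ℓ (u + 1) - tt ℓ u = 0 := by
      unfold tt
      rw [if_neg hk.1, if_neg hk.2, sub_zero]
    rw [this, if_neg hk.1, if_neg hk.2]
    simp

lemma shift {L : ℕ} [NeZero L] (g : ZMod L → ℝ) : ∑ u : ZMod L, g (u + 1) = ∑ u, g u :=
  Equiv.sum_comp (Equiv.addRight (1 : ZMod L)) g

lemma S1_le {L ℓ : ℕ} [NeZero L] (h1 : 1 ≤ ℓ) (h : ℓ ≤ L) :
    ∑ u : ZMod L, (tt ℓ (u + 1) - tt ℓ u) ^ 2 ≤ 2 * (ℓ : ℝ) ^ 3 := by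
  have hc : ∑ u : ZMod L, (if u.val < ℓ then (1 : ℝ) else 0) = ℓ := by
    rw [sum_val_lt h (fun _ => 1)]
    simp
  have hc' : ∑ u : ZMod L, (if (u + 1).val < ℓ then (1 : ℝ) else 0) = ℓ := by
    rw [shift (fun u => if u.val < ℓ then (1 : ℝ) else 0)]
    exact hc
  refine (Finset.sum_le_sum fun u _ => diff_le h1 h u).trans ?_
  rw [← Finset.mul_sum, Finset.sum_add_distrib, hc, hc']
  apply le_of_eq
  ring

lemma rho_ge {L ℓ : ℕ} [NeZero L] (h1 : 1 ≤ ℓ) (h : ℓ ≤ L) :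
    (1 - 36 / (ℓ : ℝ) ^ 2) * ∑ u : ZMod L, tt ℓ u ^ 2 ≤
      ∑ u : ZMod L, tt ℓ u * tt ℓ (u + 1) := by
  have hl : (1 : ℝ) ≤ ℓ := by exact_mod_cast h1
  have e : ∑ u : ZMod L, (tt ℓ (u + 1) - tt ℓ u) ^ 2 =
      2 * ∑ u : ZMod L, tt ℓ u ^ 2 - 2 * ∑ u : ZMod L, tt ℓ u * tt ℓ (u + 1) := by
    have : ∑ u : ZMod L, tt ℓ (u + 1) ^ 2 = ∑ u : ZMod L, tt ℓ u ^ 2 :=
      shift (fun u => tt ℓ u ^ 2)
    rw [two_mul (∑ u : ZMod L, tt ℓ u ^ 2)]
    nth_rw 1 [← this]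
    rw [Finset.mul_sum, ← Finset.sum_add_distrib, ← Finset.sum_sub_distrib]
    refine Finset.sum_congr rfl fun u _ => ?_
    ring
  have hS := S1_le h1 h
  have hN := N1_ge h1 h
  have hq : (ℓ : ℝ) ^ 3 ≤ 36 / (ℓ : ℝ) ^ 2 * ∑ u : ZMod L, tt ℓ u ^ 2 := by
    have h2 : (ℓ : ℝ) ^ 3 = 36 / (ℓ : ℝ) ^ 2 * ((ℓ : ℝ) ^ 5 / 36) := by
      field_simp
    calc (ℓ : ℝ) ^ 3 = 36 / (ℓ : ℝ) ^ 2 * ((ℓ : ℝ) ^ 5 / 36) := h2
      _ ≤ _ := by gcongr
  rw [e] at hS
  nlinarith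

variable {d L : ℕ} [NeZero L]

/-- the cutoff -/
noncomputable def ch (ℓ : ℕ) (z : Tor d L) : ℝ := ∏ i, tt ℓ (z i)

lemma tt_nonneg (ℓ : ℕ) (u : ZMod L) : 0 ≤ tt ℓ u := by
  unfold tt
  split_ifs with h
  · have : (u.val : ℝ) ≤ ℓ := by exact_mod_cast h.le
    have h0 : (0 : ℝ) ≤ u.val := by positivity
    nlinarith
  · exact le_rfl

lemma ch_sq (ℓ : ℕ) : ∑ z : Tor d L, ch ℓ z ^ 2 = ∏ _i : Fin d, ∑ u : ZMod L, tt ℓ u ^ 2 := by
  rw [Finset.prod_univ_sum, Fintype.piFinset_univ]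
  refine Finset.sum_congr rfl fun z _ => ?_
  unfold ch
  rw [Finset.prod_pow]

lemma ch_mul (ℓ : ℕ) (i : Fin d) : ∑ z : Tor d L, ch ℓ z * ch ℓ (z + ev i) =
    ∏ j : Fin d, ∑ u : ZMod L, tt ℓ u * tt ℓ (u + (ev i : Tor d L) j) := by
  rw [Finset.prod_univ_sum, Fintype.piFinset_univ]
  refine Finset.sum_congr rfl fun z _ => ?_
  unfold ch
  rw [← Finset.prod_mul_distrib]
  rfl

lemma R_ge {ℓ : ℕ} (h1 : 1 ≤ ℓ) (h : ℓ ≤ L) (i : Fin d) :
    (1 - 36 / (ℓ : ℝ) ^ 2) * ∑ z : Tor d L, ch ℓ z ^ 2 ≤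
      ∑ z : Tor d L, ch ℓ z * ch ℓ (z + ev i) := by
  rw [ch_sq, ch_mul]
  rw [← Finset.mul_prod_erase Finset.univ _ (Finset.mem_univ i),
    ← Finset.mul_prod_erase Finset.univ (fun j : Fin d => ∑ u : ZMod L, tt ℓ u *
      tt ℓ (u + (ev i : Tor d L) j)) (Finset.mem_univ i)]
  have e1 : ∏ j ∈ Finset.univ.erase i, ∑ u : ZMod L, tt ℓ u * tt ℓ (u + (ev i : Tor d L) j) =
      ∏ _j ∈ Finset.univ.erase i, ∑ u : ZMod L, tt ℓ u ^ 2 := by
    refine Finset.prod_congr rfl fun j hj => ?_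
    have hj' : j ≠ i := (Finset.mem_erase.mp hj).1
    refine Finset.sum_congr rfl fun u _ => ?_
    have : (ev i : Tor d L) j = 0 := by
      unfold ev
      rw [Pi.single_eq_of_ne hj']
    rw [this, add_zero]
    ring
  have e2 : (ev i : Tor d L) i = 1 := by
    unfold ev
    rw [Pi.single_eq_same]
  rw [e1, e2, ← mul_assoc]
  apply mul_le_mul_of_nonneg_right (rho_ge h1 h)
  exact Finset.prod_nonneg fun j _ => Finset.sum_nonneg fun u _ => sq_nonneg _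

end YIT_

open YIT_ in
theorem p_YIT (h_TOP : T_TOP) (h_VAR : T_VAR) : T_YIT := by
  intro d hd
  refine ⟨37, by norm_num, ?_⟩
  intro L ℓ _ O h1 hL
  have hl : (1 : ℝ) ≤ ℓ := by exact_mod_cast h1
  by_cases hO : O.Nonempty
  swap
  · rw [Finset.not_nonempty_iff_eq_empty] at hO
    subst hO
    refine ⟨0, ?_⟩
    rw [Finset.empty_inter]
    have : (0 : ℝ) ≤ 37 / (ℓ : ℝ) ^ 2 := by positivity
    linarith
  obtain ⟨φ, hφ⟩ := h_TOP d (ZMod L) O hd hO
  by_contra hcon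
  push Not at hcon
  obtain ⟨-, hl0, hl1, -, -⟩ := h_VAR d (ZMod L) hd O
  set N : ℝ := ∑ z : Tor d L, ch ℓ z ^ 2 with hN
  have hNpos : 0 < N := by
    rw [hN, ch_sq]
    apply Finset.prod_pos
    intro _ _
    have := N1_ge h1 hL
    have h5 : (0 : ℝ) < (ℓ : ℝ) ^ 5 / 36 := by positivity
    linarith
  -- the localized functions
  let f : Tor d L → Tor d L → ℝ := fun a x => ch ℓ (x - a) * φ x
  have hsp : ∀ a, Spp (O ∩ tbx a ℓ) (f a) := by
    intro a x hx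
    by_cases hxO : x ∈ O
    · have hx2 : x ∉ tbx a ℓ := fun h => hx (Finset.mem_inter.mpr ⟨hxO, h⟩)
      have : ∃ i, ¬ (x i - a i).val < ℓ := by
        by_contra hno
        push Not at hno
        apply hx2
        unfold tbx
        exact Finset.mem_filter.mpr ⟨Finset.mem_univ _, hno⟩
      obtain ⟨i, hi⟩ := this
      have hz : ch ℓ (x - a) = 0 := by
        unfold ch
        apply Finset.prod_eq_zero (Finset.mem_univ i)
        unfold tt
        rw [if_neg]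
        exact hi
      show ch ℓ (x - a) * φ x = 0
      rw [hz, zero_mul]
    · show ch ℓ (x - a) * φ x = 0
      rw [hφ.sp x hxO, mul_zero]
  have hvar : ∀ a, ∑ x, f a x * P0 (f a) x ≤ (lam O - 37 / (ℓ : ℝ) ^ 2) * ∑ x, f a x ^ 2 := by
    intro a
    have h2 := (h_VAR d (ZMod L) hd (O ∩ tbx a ℓ)).1 (f a) (hsp a)
    have e1 : ∑ x ∈ O ∩ tbx a ℓ, f a x * P0 (f a) x = ∑ x, f a x * P0 (f a) x :=
      Finset.sum_subset (Finset.subset_univ _) fun x _ hx => by rw [hsp a x hx, zero_mul]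
    have e2 : ∑ x ∈ O ∩ tbx a ℓ, f a x ^ 2 = ∑ x, f a x ^ 2 :=
      Finset.sum_subset (Finset.subset_univ _) fun x _ hx => by
        rw [hsp a x hx]; norm_num
    rw [e1, e2] at h2
    refine h2.trans ?_
    apply mul_le_mul_of_nonneg_right _ (Finset.sum_nonneg fun x _ => sq_nonneg _)
    have := hcon a
    linarith
  have hsum : ∑ a, ∑ x, f a x * P0 (f a) x ≤ (lam O - 37 / (ℓ : ℝ) ^ 2) * ∑ a, ∑ x, f a x ^ 2 := by
    rw [Finset.mul_sum]
    exact Finset.sum_le_sum fun a _ => hvar a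
  -- the squares
  have hsub : ∀ (x : Tor d L) (g : Tor d L → ℝ), ∑ a, g (x - a) = ∑ z, g z := fun x g =>
    Equiv.sum_comp (Equiv.subLeft x) g
  have hφ1 : ∑ x, φ x ^ 2 = 1 := by
    rw [← hφ.nm]
    symm
    exact Finset.sum_subset (Finset.subset_univ _) fun x _ hx => by
      rw [hφ.sp x hx]; norm_num
  have hsq : ∑ a, ∑ x, f a x ^ 2 = N := by
    rw [Finset.sum_comm]
    have : ∀ x, ∑ a, f a x ^ 2 = N * φ x ^ 2 := by
      intro x
      rw [hN, Finset.sum_mul, ← hsub x (fun z => ch ℓ z ^ 2 * φ x ^ 2)]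
      refine Finset.sum_congr rfl fun a _ => ?_
      show (ch ℓ (x - a) * φ x) ^ 2 = _
      ring
    rw [Finset.sum_congr rfl fun x _ => this x, ← Finset.mul_sum, hφ1, mul_one]
  -- the cross terms
  set R : Fin d → ℝ := fun i => ∑ z : Tor d L, ch ℓ z * ch ℓ (z + ev i) with hR
  have hplus : ∀ (x : Tor d L) (i : Fin d), ∑ a, ch ℓ (x - a) * ch ℓ (x + ev i - a) = R i := by
    intro x i
    rw [hR]
    simp only
    rw [← hsub x (fun z => ch ℓ z * ch ℓ (z + ev i))]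
    refine Finset.sum_congr rfl fun a _ => ?_
    have : x + ev i - a = x - a + ev i := by abel
    rw [this]
  have hminus : ∀ (x : Tor d L) (i : Fin d), ∑ a, ch ℓ (x - a) * ch ℓ (x - ev i - a) = R i := by
    intro x i
    rw [← hplus (x - ev i) i]
    refine Finset.sum_congr rfl fun a _ => ?_
    have : x - ev i + ev i - a = x - a := by abel
    rw [this, mul_comm]
  have hcross : ∀ x, ∑ a, f a x * P0 (f a) x =
      φ x * (∑ i : Fin d, R i * (φ (x + ev i) + φ (x - ev i))) / (2 * d) := by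
    intro x
    have e1 : ∀ a, f a x * P0 (f a) x = (∑ i : Fin d, (ch ℓ (x - a) * ch ℓ (x + ev i - a) *
        (φ x * φ (x + ev i)) + ch ℓ (x - a) * ch ℓ (x - ev i - a) *
        (φ x * φ (x - ev i)))) / (2 * d) := by
      intro a
      unfold P0
      rw [← mul_div_assoc, Finset.mul_sum]
      congr 1
      refine Finset.sum_congr rfl fun i _ => ?_
      show ch ℓ (x - a) * φ x * (ch ℓ (x + ev i - a) * φ (x + ev i) +
        ch ℓ (x - ev i - a) * φ (x - ev i)) = _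
      ring
    rw [Finset.sum_congr rfl fun a _ => e1 a, ← Finset.sum_div]
    congr 1
    rw [Finset.sum_comm, Finset.mul_sum]
    refine Finset.sum_congr rfl fun i _ => ?_
    rw [Finset.sum_add_distrib, ← Finset.sum_mul, ← Finset.sum_mul, hplus, hminus]
    ring
  have hlow : ∀ x, (1 - 36 / (ℓ : ℝ) ^ 2) * N * (φ x * P0 φ x) ≤ ∑ a, f a x * P0 (f a) x := by
    intro x
    rw [hcross x]
    have e2 : (1 - 36 / (ℓ : ℝ) ^ 2) * N * (φ x * P0 φ x) =
        φ x * (∑ i : Fin d, (1 - 36 / (ℓ : ℝ) ^ 2) * N * (φ (x + ev i) + φ (x - ev i))) /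
          (2 * d) := by
      rw [← Finset.mul_sum]
      unfold P0
      ring
    rw [e2]
    apply div_le_div_of_nonneg_right _ (by positivity)
    apply mul_le_mul_of_nonneg_left _ (hφ.nn x)
    apply Finset.sum_le_sum
    intro i _
    apply mul_le_mul_of_nonneg_right (R_ge h1 hL i)
    exact add_nonneg (hφ.nn _) (hφ.nn _)
  have hφP : ∑ x, φ x * P0 φ x = lam O := by
    have e3 : ∑ x, φ x * P0 φ x = ∑ x ∈ O, φ x * P0 φ x := by
      symm
      exact Finset.sum_subset (Finset.subset_univ _) fun x _ hx => by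
        rw [hφ.sp x hx, zero_mul]
    rw [e3]
    have : ∀ x ∈ O, φ x * P0 φ x = lam O * φ x ^ 2 := by
      intro x hx
      rw [hφ.eq x hx]; ring
    rw [Finset.sum_congr rfl this, ← Finset.mul_sum, hφ.nm, mul_one]
  have hlow2 : (1 - 36 / (ℓ : ℝ) ^ 2) * N * lam O ≤ ∑ a, ∑ x, f a x * P0 (f a) x := by
    rw [Finset.sum_comm, ← hφP, Finset.mul_sum]
    exact Finset.sum_le_sum fun x _ => hlow x
  rw [hsq] at hsum
  have hfin := hlow2.trans hsum
  have hq : (0 : ℝ) < 1 / (ℓ : ℝ) ^ 2 := by positivity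
  have e5 : (37 : ℝ) / (ℓ : ℝ) ^ 2 = 37 * (1 / (ℓ : ℝ) ^ 2) := by ring
  have e6 : (36 : ℝ) / (ℓ : ℝ) ^ 2 = 36 * (1 / (ℓ : ℝ) ^ 2) := by ring
  rw [e5, e6] at hfin
  have h7 : 0 < N * (1 / (ℓ : ℝ) ^ 2) := mul_pos hNpos hq
  have h8 : N * (1 / (ℓ : ℝ) ^ 2) * lam O ≤ N * (1 / (ℓ : ℝ) ^ 2) * 1 :=
    mul_le_mul_of_nonneg_left hl1 h7.le
  nlinarith

end Pool.Agent.LBL
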