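import Pool.Agent.LBL.Wlk2
import Pool.Agent.LBL.Targets1

set_option autoImplicit false

open Finset MeasureTheory Filter Topology
open scoped Classical

namespace Pool.Agent.LBL

noncomputable section

namespace YLB_

theorem pr_mono {X : Type} [Fintype X] {p : ℝ} (h0 : 0 ≤ p) (h1 : p ≤ 1) {A B : Finset X → Prop}
    (h : ∀ O, A O → B O) : pr p A ≤ pr p B := by
  unfold pr
  apply Finset.sum_le_sum
  intro O _
  have hw : 0 ≤ wt p O := by
    unfold wt
    have : 0 ≤ 1 - p := by linarith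
    positivity
  by_cases hA : A O
  · simp [hA, h O hA]
  · by_cases hB : B O <;> simp [hA, hB, hw]

theorem TT_anti (d L : ℕ) [NeZero L] {p x y : ℝ} (h0 : 0 ≤ p) (h1 : p ≤ 1) (h : x ≤ y) :
    TT d L p y ≤ TT d L p x := pr_mono h0 h1 fun _ hO => h.trans hO

theorem dep {d : ℕ} (F : Finset (Fin d → ℤ)) (x : ℝ) : DepOn F {ω : Env d | lam (opn ω F) < x} := by
  intro ω ω' h hω
  have e : opn ω F = opn ω' F := by
    unfold opn
    apply Finset.filter_congr
    intro y hy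
    rw [h y hy]
  simpa [e] using hω

/-- the boxes -/
def bx (d ℓ : ℕ) (k : Fin d → ℤ) : Finset (Fin d → ℤ) := boxF (fun i => 2 * (ℓ : ℤ) * k i) (2 * ℓ)

theorem mem_bx {d ℓ : ℕ} {k x : Fin d → ℤ} :
    x ∈ bx d ℓ k ↔ ∀ i, 2 * (ℓ : ℤ) * k i ≤ x i ∧ x i < 2 * (ℓ : ℤ) * k i + 2 * ℓ := by
  unfold bx boxF
  rw [Fintype.mem_piFinset]
  simp only [Finset.mem_Ico]
  push_cast
  rfl

theorem bx_disj {d ℓ : ℕ} (hl : 1 ≤ ℓ) {k k' : Fin d → ℤ} (h : k ≠ k') : Disjoint (bx d ℓ k) (bx d ℓ k') := by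
  rw [Finset.disjoint_left]
  intro x hx hx'
  apply h
  funext i
  obtain ⟨a1, a2⟩ := mem_bx.mp hx i
  obtain ⟨b1, b2⟩ := mem_bx.mp hx' i
  have hl' : (0 : ℤ) < 2 * ℓ := by positivity
  by_contra hne
  rcases lt_or_gt_of_ne hne with h1 | h1
  · have : k i + 1 ≤ k' i := h1
    nlinarith
  · have : k' i + 1 ≤ k i := h1
    nlinarith

/-- index set -/
def ix (d K : ℕ) : Finset (Fin d → ℤ) := Fintype.piFinset fun _ => Finset.Ico (0 : ℤ) K

theorem card_ix (d K : ℕ) : (ix d K).card = K ^ d := by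
  unfold ix
  rw [Fintype.card_piFinset]
  simp

theorem bx_sub {d ℓ K R : ℕ} (hR : K * (2 * ℓ) ≤ R) {k : Fin d → ℤ} (hk : k ∈ ix d K) :
    bx d ℓ k ⊆ cub d R := by
  intro x hx
  unfold ix at hk
  rw [Fintype.mem_piFinset] at hk
  unfold cub
  rw [Fintype.mem_piFinset]
  intro i
  obtain ⟨a1, a2⟩ := mem_bx.mp hx i
  obtain ⟨b1, b2⟩ := Finset.mem_Ico.mp (hk i)
  have hR' : (K : ℤ) * (2 * ℓ) ≤ R := by exact_mod_cast hR
  have h0 : (0 : ℤ) ≤ 2 * (ℓ : ℤ) * k i := by positivity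
  have h1 : k i + 1 ≤ K := b2
  have h2 : 2 * (ℓ : ℤ) * (k i + 1) ≤ 2 * (ℓ : ℤ) * K := mul_le_mul_of_nonneg_left h1 (by positivity)
  rw [Finset.mem_Icc]
  constructor
  · have : (0 : ℤ) ≤ R := by positivity
    linarith
  · nlinarith

/-- many boxes -/
theorem many (hYID : T_YID) (hVAR : T_VAR) (hYMS : T_YMS) (d : ℕ) (hd : 1 ≤ d) (p : ℝ) (h0 : 0 < p) (h1 : p < 1)
    (ℓ K R : ℕ) (hl : 1 ≤ ℓ) (hR : K * (2 * ℓ) ≤ R) (x0 q : ℝ)
    (hq : ∀ a : Fin d → ℤ, q ≤ (PP d p).real {ω | x0 ≤ lam (opn ω (boxF a (2 * ℓ)))}) :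
    (PP d p).real {ω : Env d | lam (opn ω (cub d R)) < x0} ≤ Real.exp (-(((K : ℝ) ^ d) * q)) := by
  have : IsProbabilityMeasure (PP d p) := PP_prob d h0.le h1.le
  set A : (Fin d → ℤ) → Set (Env d) := fun k => {ω | lam (opn ω (bx d ℓ k)) < x0} with hA
  have hsub : {ω : Env d | lam (opn ω (cub d R)) < x0} ⊆ {ω | ∀ k ∈ ix d K, ω ∈ A k} := by
    intro ω hω k hk
    show lam (opn ω (bx d ℓ k)) < x0
    have hle : lam (opn ω (bx d ℓ k)) ≤ lam (opn ω (cub d R)) := by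
      apply (hVAR d ℤ hd _).2.2.2.1
      exact Finset.filter_subset_filter _ (bx_sub hR hk)
    exact lt_of_le_of_lt hle hω
  have hid := hYID d p (Fin d → ℤ) (ix d K) (bx d ℓ) A h0.le h1.le
    (fun i _ j _ hij => bx_disj hl hij) (fun i _ => dep _ _)
  have hone : ∀ k, (PP d p).real (A k) ≤ Real.exp (-q) := by
    intro k
    have hm : MeasurableSet (A k) := (hYMS d p h0.le h1.le).1 _ _ (dep (bx d ℓ k) x0)
    have hc := probReal_compl_eq_one_sub (μ := PP d p) hm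
    have he : (A k)ᶜ = {ω | x0 ≤ lam (opn ω (boxF (fun i => 2 * (ℓ : ℤ) * k i) (2 * ℓ)))} := by
      ext ω
      show ¬ (lam (opn ω (bx d ℓ k)) < x0) ↔ _
      rw [not_lt]
      rfl
    have hq' := hq (fun i => 2 * (ℓ : ℤ) * k i)
    rw [← he, hc] at hq'
    have := Real.one_sub_le_exp_neg q
    linarith
  calc (PP d p).real {ω : Env d | lam (opn ω (cub d R)) < x0}
      ≤ (PP d p).real {ω | ∀ k ∈ ix d K, ω ∈ A k} := measureReal_mono hsub
    _ = ∏ k ∈ ix d K, (PP d p).real (A k) := hid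
    _ ≤ ∏ _k ∈ ix d K, Real.exp (-q) :=
        Finset.prod_le_prod (fun _ _ => measureReal_nonneg) (fun k _ => hone k)
    _ = Real.exp (-(((K : ℝ) ^ d) * q)) := by
        rw [Finset.prod_const, card_ix, ← Real.exp_nat_mul]
        congr 1
        push_cast
        ring

end YLB_

open YLB_ in
theorem p_YLB (hYID : T_YID) (hYBX : T_YBX) (hYTL : T_YTL) (hYSC : T_YSC) (hVAR : T_VAR) (hYMS : T_YMS) : T_YLB := by
  intro d p δ η hd h0 h1 hδ hη
  have hd1 : 1 ≤ d := by omega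
  obtain ⟨Cb, hCb, hB⟩ := hYBX d hd1
  obtain ⟨C1, c, hC1, hc, hT⟩ := hYTL d p hd h0 h1
  obtain ⟨s1, s2, s3, s4, s5⟩ := hYSC d hd
  have hη' : 0 < min (η / 4) 1 := lt_min (by positivity) one_pos
  have hC1' : 0 < C1 := by linarith
  -- the final bound
  have key : ∀ᶠ n : ℕ in atTop,
      (PP d p).real {ω : Env d | lam (opn ω (cub d ⌊δ * fn d n⌋₊)) < xs d p n - η / (2 * rr d n ^ 2)} ≤
        Real.exp (-(((δ / 4) ^ d / C1 * (c * min (η / 4) 1)) * Real.log n)) := by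
    filter_upwards [hT, s1 1, s2, s4 (4 * Cb / η), s5 (16 / δ) (d + 5), eventually_ge_atTop 2] with n hTn hr hs2 hs4 hs5 hn
    obtain ⟨-, hrd, hrpos, hfpos⟩ := s3 n hn
    set r := rr d n with hrdef
    set ℓ := ll d n with hℓdef
    set f := fn d n with hfdef
    have hl1 : 1 ≤ ℓ := by rw [hℓdef]; unfold ll; omega
    have hlR : (1 : ℝ) ≤ ℓ := by exact_mod_cast hl1
    have hlr : (ℓ : ℝ) ≤ r ^ (d + 5) := hs2.2.2
    -- f is large
    have hsq : 1 ≤ Real.sqrt n := by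
      rw [Real.one_le_sqrt]
      exact_mod_cast (by omega : 1 ≤ n)
    have hf : 16 * (ℓ : ℝ) ≤ δ * f := by
      have e1 : 16 / δ * (ℓ : ℝ) ≤ f := by
        calc 16 / δ * (ℓ : ℝ) ≤ 16 / δ * r ^ (d + 5) := by
              apply mul_le_mul_of_nonneg_left hlr; positivity
          _ ≤ 16 / δ * Real.sqrt n * r ^ (d + 5) := by
              apply mul_le_mul_of_nonneg_right _ (by positivity)
              have : 0 < 16 / δ := by positivity
              nlinarith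
          _ ≤ f := hs5.1
      calc 16 * (ℓ : ℝ) = δ * (16 / δ * (ℓ : ℝ)) := by field_simp
        _ ≤ δ * f := mul_le_mul_of_nonneg_left e1 hδ.le
    -- number of boxes
    set R := ⌊δ * f⌋₊ with hRdef
    set K := R / (2 * ℓ) with hKdef
    have hKR : K * (2 * ℓ) ≤ R := Nat.div_mul_le_self _ _
    have hRf : δ * f < R + 1 := Nat.lt_floor_add_one _
    have hKl : (R : ℝ) < K * (2 * ℓ) + 2 * ℓ := by
      have : R < 2 * ℓ * (R / (2 * ℓ) + 1) := Nat.lt_mul_div_succ R (by omega)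
      have h2 : R < K * (2 * ℓ) + 2 * ℓ := by
        calc R < 2 * ℓ * (R / (2 * ℓ) + 1) := this
          _ = K * (2 * ℓ) + 2 * ℓ := by rw [hKdef]; ring
      exact_mod_cast h2
    have hK : δ * f / 2 ≤ K * (2 * ℓ) := by nlinarith
    -- probability of one box
    set J := min (η / 4) 1 * r ^ d with hJdef
    have hrd0 : 0 < r ^ d := by positivity
    have hJ0 : 0 ≤ J := by positivity
    have hJr : J ≤ r ^ d := by
      calc J ≤ 1 * r ^ d := mul_le_mul_of_nonneg_right (min_le_right _ _) hrd0.le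
        _ = r ^ d := one_mul _
    have hTJ := (hTn J hJ0).2.2 hJr
    have hsn : sn d n = (r ^ (d + 2))⁻¹ := by
      unfold sn ss
      rw [← hrdef, show (-(d : ℝ) - 2) = -((d + 2 : ℕ) : ℝ) by push_cast; ring, Real.rpow_neg hrpos.le,
        Real.rpow_natCast]
    have hr2 : 0 < r ^ 2 := by positivity
    have hJs : J * sn d n ≤ η / (4 * r ^ 2) := by
      rw [hsn, hJdef]
      have e : min (η / 4) 1 * r ^ d * (r ^ (d + 2))⁻¹ = min (η / 4) 1 * (r ^ 2)⁻¹ := by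
        rw [pow_add]; field_simp
      rw [e]
      calc min (η / 4) 1 * (r ^ 2)⁻¹ ≤ η / 4 * (r ^ 2)⁻¹ :=
            mul_le_mul_of_nonneg_right (min_le_left _ _) (by positivity)
        _ = η / (4 * r ^ 2) := by field_simp
    have hss : ss d r ≤ (r ^ 2)⁻¹ := by
      have e : ss d r = (r ^ (d + 2))⁻¹ := hsn
      rw [e]
      apply inv_anti₀ hr2
      exact pow_le_pow_right₀ hr (by omega)
    have hCl : Cb / (ℓ : ℝ) ^ 2 ≤ η / (4 * r ^ 2) := by
      have h5 : 4 * Cb / η / (ℓ : ℝ) ^ 2 ≤ (r ^ 2)⁻¹ := hs4.trans hss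
      have e : Cb / (ℓ : ℝ) ^ 2 = η / 4 * (4 * Cb / η / (ℓ : ℝ) ^ 2) := by field_simp
      rw [e]
      calc η / 4 * (4 * Cb / η / (ℓ : ℝ) ^ 2) ≤ η / 4 * (r ^ 2)⁻¹ :=
            mul_le_mul_of_nonneg_left h5 (by positivity)
        _ = η / (4 * r ^ 2) := by field_simp
    set x0 := xs d p n - η / (2 * r ^ 2) with hx0
    have hxx : x0 + Cb / (ℓ : ℝ) ^ 2 ≤ xs d p n - J * sn d n := by
      have e : η / (2 * r ^ 2) = η / (4 * r ^ 2) + η / (4 * r ^ 2) := by field_simp; norm_num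
      rw [hx0, e]
      linarith
    set q := Real.exp (c * J) * th d n / (C1 * 2 ^ d) with hqdef
    have hq : ∀ a : Fin d → ℤ, q ≤ (PP d p).real {ω | x0 ≤ lam (opn ω (boxF a (2 * ℓ)))} := by
      intro a
      have b := (hB p ℓ a (x0 + Cb / (ℓ : ℝ) ^ 2) h0 h1).2
      rw [add_sub_cancel_right] at b
      have b2 : TT d (2 * ℓ) p (xs d p n - J * sn d n) ≤ TT d (2 * ℓ) p (x0 + Cb / (ℓ : ℝ) ^ 2) :=
        TT_anti d (2 * ℓ) h0.le h1.le hxx
      have b3 : Real.exp (c * J) * th d n ≤ C1 * (2 ^ d * (PP d p).real {ω | x0 ≤ lam (opn ω (boxF a (2 * ℓ)))}) :=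
        hTJ.trans (mul_le_mul_of_nonneg_left (b2.trans b) hC1'.le)
      rw [hqdef, div_le_iff₀ (by positivity)]
      calc Real.exp (c * J) * th d n ≤ C1 * (2 ^ d * (PP d p).real {ω | x0 ≤ lam (opn ω (boxF a (2 * ℓ)))}) := b3
        _ = _ := by ring
    refine (many hYID hVAR hYMS d hd1 p h0 h1 ℓ K R hl1 hKR x0 q hq).trans ?_
    apply Real.exp_le_exp.mpr
    apply neg_le_neg
    -- size of K^d q
    have hKq : (K : ℝ) ^ d * q = (K * (2 * ℓ) / f) ^ d / 2 ^ d * Real.exp (c * J) / C1 := by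
      rw [hqdef]
      unfold th
      rw [← hℓdef, ← hfdef, div_pow, div_pow, mul_pow (K : ℝ)]
      field_simp
    rw [hKq]
    have h7 : δ / 2 ≤ K * (2 * ℓ) / f := by
      rw [le_div_iff₀ hfpos]
      linarith
    have h8 : (δ / 4) ^ d ≤ (K * (2 * ℓ) / f) ^ d / 2 ^ d := by
      rw [← div_pow]
      apply pow_le_pow_left₀ (by positivity)
      linarith
    have h9 : c * min (η / 4) 1 * Real.log n ≤ Real.exp (c * J) := by
      have : c * min (η / 4) 1 * Real.log n = c * J := by rw [hJdef, hrd]; ring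
      rw [this]
      have := Real.add_one_le_exp (c * J)
      linarith
    have hlog : 0 ≤ Real.log n := by rw [← hrd]; positivity
    calc (δ / 4) ^ d / C1 * (c * min (η / 4) 1) * Real.log n
        = (δ / 4) ^ d * (c * min (η / 4) 1 * Real.log n) / C1 := by ring
      _ ≤ (K * (2 * ℓ) / f) ^ d / 2 ^ d * Real.exp (c * J) / C1 := by
          apply div_le_div_of_nonneg_right _ hC1'.le
          exact mul_le_mul h8 h9 (by positivity) (by positivity)
  have hc2 : 0 < (δ / 4) ^ d / C1 * (c * min (η / 4) 1) := by positivity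
  have hlim : Tendsto (fun n : ℕ => Real.exp (-(((δ / 4) ^ d / C1 * (c * min (η / 4) 1)) * Real.log n))) atTop (𝓝 0) := by
    apply Real.tendsto_exp_neg_atTop_nhds_zero.comp
    exact (Real.tendsto_log_atTop.comp tendsto_natCast_atTop_atTop).const_mul_atTop hc2
  exact tendsto_of_tendsto_of_tendsto_of_le_of_le' tendsto_const_nhds hlim
    (Eventually.of_forall fun _ => measureReal_nonneg) key

end

end Pool.Agent.LBL
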