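import Pool.Agent.LBL.Wlk2

/-!
# LBL: few islands (T_YLS, helper5)
-/

set_option autoImplicit false

open Finset MeasureTheory Filter Topology
open scoped Classical

namespace Pool.Agent.LBL

namespace YLS_

/-- Markov for counting -/
theorem markov {Ω I : Type} [MeasurableSpace Ω] (μ : Measure Ω) [IsProbabilityMeasure μ]
    (s : Finset I) (E : I → Set Ω) (hE : ∀ i, MeasurableSet (E i)) (q N : ℝ)
    (hq : ∀ i ∈ s, μ.real (E i) ≤ q) (hN : 0 < N) :
    μ.real {ω | N < ((s.filter fun i => ω ∈ E i).card : ℝ)} ≤ s.card * q / N := by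
  have h1 : ∀ ω, ((s.filter fun i => ω ∈ E i).card : ℝ) =
      ∑ i ∈ s, (E i).indicator (fun _ => (1 : ℝ)) ω := by
    intro ω
    rw [Finset.card_filter]
    push_cast
    refine Finset.sum_congr rfl fun i _ => ?_
    by_cases h : ω ∈ E i
    · rw [Set.indicator_of_mem h, if_pos h]
    · rw [Set.indicator_of_notMem h, if_neg h]
  have hint : ∀ i ∈ s, Integrable ((E i).indicator fun _ => (1 : ℝ)) μ := fun i _ =>
    (integrable_const 1).indicator (hE i)
  have h2 := mul_meas_ge_le_integral_of_nonneg (μ := μ)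
    (f := fun ω => ∑ i ∈ s, (E i).indicator (fun _ => (1 : ℝ)) ω)
    (Filter.Eventually.of_forall fun ω => Finset.sum_nonneg fun i _ =>
      Set.indicator_nonneg (fun _ _ => zero_le_one) ω)
    (integrable_finsetSum s hint) N
  rw [integral_finsetSum s hint] at h2
  have h3 : ∑ i ∈ s, ∫ ω, (E i).indicator (fun _ => (1 : ℝ)) ω ∂μ ≤ s.card * q := by
    rw [← nsmul_eq_mul, ← Finset.sum_const]
    refine Finset.sum_le_sum fun i hi => ?_
    rw [integral_indicator_const _ (hE i)]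
    simpa using hq i hi
  rw [le_div_iff₀ hN, mul_comm]
  refine le_trans ?_ (h2.trans h3)
  apply mul_le_mul_of_nonneg_left _ hN.le
  apply measureReal_mono
  · intro ω hω
    have hω' : N < ((s.filter fun i => ω ∈ E i).card : ℝ) := hω
    rw [h1] at hω'
    exact hω'.le
  · exact measure_ne_top _ _

theorem ss_eq (d : ℕ) (r : ℝ) (hr : 0 < r) : ss d r = (r ^ (d + 2))⁻¹ := by
  unfold ss
  rw [show (-(d : ℝ) - 2) = -((d + 2 : ℕ) : ℝ) by push_cast; ring, Real.rpow_neg hr.le,
    Real.rpow_natCast]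

theorem card_cub (d k : ℕ) : (cub d k).card = (2 * k + 1) ^ d := by
  unfold cub
  rw [Fintype.card_piFinset_const, Int.card_Icc]
  congr 1
  omega

/-- powers of the logarithm -/
theorem lim (d K : ℕ) (hd : 1 ≤ d) (C : ℝ) :
    Tendsto (fun n : ℕ => C * (rr d n ^ K * (n : ℝ) ^ (-(1 : ℝ) / 4))) atTop (𝓝 0) := by
  have h1 : Tendsto (fun x : ℝ => Real.log x ^ ((K : ℝ) / d) / x ^ ((1 : ℝ) / 4)) atTop (𝓝 0) :=
    (isLittleO_log_rpow_rpow_atTop ((K : ℝ) / d)
      (by norm_num : (0 : ℝ) < 1 / 4)).tendsto_div_nhds_zero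
  have h2 := (h1.comp tendsto_natCast_atTop_atTop).const_mul C
  rw [mul_zero] at h2
  refine h2.congr' ?_
  filter_upwards [Filter.eventually_ge_atTop 2] with n hn
  have hn1 : (1 : ℝ) < n := by exact_mod_cast hn
  have hlog : 0 ≤ Real.log n := Real.log_nonneg hn1.le
  simp only [Function.comp_apply]
  congr 1
  have e1 : rr d n ^ K = Real.log n ^ ((K : ℝ) / d) := by
    unfold rr
    rw [← Real.rpow_natCast, ← Real.rpow_mul hlog]
    congr 1
    field_simp
  rw [e1, neg_div, Real.rpow_neg (by linarith)]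
  rfl

end YLS_

theorem p_YLS (hBX : T_YBX) (hTL : T_YTL) (hSC : T_YSC) (hMS : T_YMS) : T_YLS := by
  intro d p hd hp0 hp1
  obtain ⟨C, c, hC1, hc, hev⟩ := hTL d p hd hp0 hp1
  obtain ⟨CB, hCB, hBX'⟩ := hBX d (by omega)
  obtain ⟨hS1, hS2, hS3, hS4, hS5⟩ := hSC d hd
  have := PP_prob d hp0.le hp1.le
  refine ⟨1 / (8 * C), by positivity, ?_⟩
  intro η hη hη0
  have hηC : 2 * C * η ≤ 1 / 4 := by
    have h := mul_le_mul_of_nonneg_left hη0 (by positivity : (0 : ℝ) ≤ 2 * C)
    have e : 2 * C * (1 / (8 * C)) = 1 / 4 := by field_simp; norm_num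
    linarith
  have hη1 : 2 * η ≤ 1 := by nlinarith
  have hlim := YLS_.lim d ((2 * d + 7) * d) (by omega) (C * 18 ^ d)
  refine squeeze_zero' (Filter.Eventually.of_forall fun n => measureReal_nonneg) ?_ hlim
  filter_upwards [hev, hS2, Filter.eventually_ge_atTop 2] with n hn hn2 hn3
  obtain ⟨hf, hlog, hr0, hf0⟩ := hS3 n hn3
  have hn1 : (0 : ℝ) < n := by
    have : 0 < n := by omega
    exact_mod_cast this
  set r := rr d n with hr
  have hdp : 0 < r ^ d := by positivity
  obtain ⟨_, h2, _⟩ := hn (2 * η * r ^ d) (by positivity)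
  have h3 := h2 (by nlinarith)
  have e1 : 2 * η * r ^ d * sn d n = 2 * η / r ^ 2 := by
    unfold sn
    rw [YLS_.ss_eq d _ hr0]
    field_simp
    ring
  rw [e1] at h3
  set y := xs d p n - 2 * η / r ^ 2 with hy
  -- the events
  let E : (Fin d → ℤ) → Set (Env d) := fun k =>
    {ω | y ≤ lam (opn ω (boxF (fun i => (ll d n : ℤ) * k i) (2 * ll d n)))}
  have hEm : ∀ k, MeasurableSet (E k) := by
    intro k
    apply (hMS d p hp0.le hp1.le).1 (boxF (fun i => (ll d n : ℤ) * k i) (2 * ll d n))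
    intro ω ω' h hω
    have e2 : opn ω' (boxF (fun i => (ll d n : ℤ) * k i) (2 * ll d n)) =
        opn ω (boxF (fun i => (ll d n : ℤ) * k i) (2 * ll d n)) := by
      unfold opn
      apply Finset.filter_congr
      intro x hx
      rw [h x hx]
    change y ≤ lam (opn ω' _)
    rw [e2]
    exact hω
  have hEq : ∀ k ∈ cub d (4 * n), (PP d p).real (E k) ≤ TT d (2 * ll d n) p y := by
    intro k _
    exact (hBX' p (ll d n) _ y hp0 hp1).1
  have h4 := YLS_.markov (PP d p) (cub d (4 * n)) E hEm _ (Real.sqrt n) hEq (Real.sqrt_pos.2 hn1)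
  have h5 : {ω : Env d | Real.sqrt n < ((isl ω (ll d n) (4 * n) y).card : ℝ)} =
      {ω | Real.sqrt n < (((cub d (4 * n)).filter fun i => ω ∈ E i).card : ℝ)} := by
    rfl
  rw [h5]
  refine h4.trans ?_
  rw [YLS_.card_cub]
  have h6 : Real.exp (C * (2 * η * r ^ d)) ≤ (n : ℝ) ^ ((1 : ℝ) / 4) := by
    rw [hlog, Real.rpow_def_of_pos hn1]
    apply Real.exp_le_exp.2
    have hl0 : 0 ≤ Real.log n := by rw [← hlog]; positivity
    nlinarith
  have h7 : th d n ≤ (2 * r ^ (2 * d + 7) / n) ^ d := by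
    unfold th
    apply pow_le_pow_left₀ (by positivity)
    rw [hf, YLS_.ss_eq d _ hr0, div_le_div_iff₀ (by positivity) hn1]
    have h8 := hn2.2.2
    have e3 : 2 * r ^ (2 * d + 7) * (n * (r ^ (d + 2))⁻¹) = 2 * r ^ (d + 5) * n := by
      have e4 : r ^ (2 * d + 7) = r ^ (d + 5) * r ^ (d + 2) := by
        rw [← pow_add]
        congr 1
        ring
      rw [e4]
      field_simp
    rw [e3]
    gcongr
  have hth0 : 0 ≤ th d n := by
    unfold th
    positivity
  have h9 : TT d (2 * ll d n) p y ≤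
      C * (n : ℝ) ^ ((1 : ℝ) / 4) * (2 * r ^ (2 * d + 7) / n) ^ d := by
    refine h3.trans ?_
    have hC0 : 0 ≤ C := by linarith
    gcongr
  have h10 : (((2 * (4 * n) + 1) ^ d : ℕ) : ℝ) ≤ (9 * (n : ℝ)) ^ d := by
    push_cast
    apply pow_le_pow_left₀ (by positivity)
    have : (1 : ℝ) ≤ n := by
      have : 1 ≤ n := by omega
      exact_mod_cast this
    linarith
  calc (((2 * (4 * n) + 1) ^ d : ℕ) : ℝ) * TT d (2 * ll d n) p y / Real.sqrt n
      ≤ (9 * (n : ℝ)) ^ d * (C * (n : ℝ) ^ ((1 : ℝ) / 4) * (2 * r ^ (2 * d + 7) / n) ^ d) /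
        Real.sqrt n := by
        apply div_le_div_of_nonneg_right _ (Real.sqrt_nonneg _)
        have hC0 : 0 ≤ C := by linarith
        exact mul_le_mul h10 h9 (by
          unfold TT
          unfold pr
          refine Finset.sum_nonneg fun O _ => ?_
          split_ifs
          · unfold wt
            have : 0 ≤ 1 - p := by linarith
            positivity
          · exact le_rfl) (by positivity)
    _ = C * 18 ^ d * (r ^ ((2 * d + 7) * d) * (n : ℝ) ^ (-(1 : ℝ) / 4)) := by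
        have e5 : Real.sqrt n = (n : ℝ) ^ ((1 : ℝ) / 4) * (n : ℝ) ^ ((1 : ℝ) / 4) := by
          rw [← Real.rpow_add hn1, Real.sqrt_eq_rpow]
          norm_num
        have e6 : (n : ℝ) ^ (-(1 : ℝ) / 4) = ((n : ℝ) ^ ((1 : ℝ) / 4))⁻¹ := by
          rw [neg_div, Real.rpow_neg hn1.le]
        have e7 : (0 : ℝ) < (n : ℝ) ^ ((1 : ℝ) / 4) := Real.rpow_pos_of_pos hn1 _
        rw [e5, e6, div_pow, mul_pow, mul_pow, ← pow_mul]
        have e8 : (18 : ℝ) ^ d = 9 ^ d * 2 ^ d := by
          rw [← mul_pow]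
          norm_num
        rw [e8]
        field_simp

end Pool.Agent.LBL
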