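import Pool.Agent.LBL.Wlk3

set_option autoImplicit false

/-!
# LBL: iterated Markov property (T_YMI), from T_YMK, T_YRC
-/

open Finset MeasureTheory Filter Topology
open scoped Classical

namespace Pool.Agent.LBL

noncomputable section

theorem p_YMI (hMK : T_YMK) (hRC : T_YRC) : T_YMI := by
  intro d t m K ω x B q hd hq hB
  have hmono : ∀ (n : ℕ) (E E' : (ℕ → Fin d → ℤ) → Prop), (∀ u, E u → E' u) → wk x n E ≤ wk x n E' := by
    intro n E E' h
    exact (hRC d hd x n).2.2.2.2.1 E E' (fun u _ _ hu => h u hu)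
  induction K with
  | zero =>
    rw [pow_zero, mul_one]
    have e : t + 0 * m = t := by simp
    rw [e]
    exact hmono t _ _ (fun u hu => hu.1)
  | succ K ih =>
    have e : t + (K + 1) * m = (t + K * m) + m := by ring
    have hle : ∀ i ≤ K, t + i * m ≤ t + K * m := fun i hi =>
      Nat.add_le_add_left (Nat.mul_le_mul_right m hi) t
    have h1 := (hMK d (t + K * m) m x
      (fun u => alv ω (t + K * m) u ∧ ∀ i ≤ K, u (t + i * m) ∈ B) (alv ω m) (↑B) q hd (by
        rintro u u' huu ⟨ha, hb⟩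
        refine ⟨fun k hk => ?_, fun i hi => ?_⟩
        · rw [← huu k hk]; exact ha k hk
        · rw [← huu _ (hle i hi)]; exact hb i hi)).1 (fun y hy => hB y (by simpa using hy))
    have h2 : wk x (t + (K + 1) * m) (fun u => alv ω (t + (K + 1) * m) u ∧ ∀ i ≤ K + 1, u (t + i * m) ∈ B) ≤
        wk x (t + K * m + m) (fun u => ((alv ω (t + K * m) u ∧ ∀ i ≤ K, u (t + i * m) ∈ B) ∧
          u (t + K * m) ∈ (↑B : Set (Fin d → ℤ))) ∧ alv ω m (fun k => u (t + K * m + k))) := by
      rw [e]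
      apply hmono
      rintro u ⟨ha, hb⟩
      refine ⟨⟨⟨fun k hk => ha k (by omega), fun i hi => hb i (by omega)⟩, ?_⟩, fun k hk => ha _ (by omega)⟩
      have := hb K (by omega)
      simpa using this
    have h3 : wk x (t + K * m) (fun u => (alv ω (t + K * m) u ∧ ∀ i ≤ K, u (t + i * m) ∈ B) ∧
          u (t + K * m) ∈ (↑B : Set (Fin d → ℤ))) ≤
        wk x (t + K * m) (fun u => alv ω (t + K * m) u ∧ ∀ i ≤ K, u (t + i * m) ∈ B) :=
      hmono _ _ _ (fun u hu => hu.1)
    calc wk x (t + (K + 1) * m) (fun u => alv ω (t + (K + 1) * m) u ∧ ∀ i ≤ K + 1, u (t + i * m) ∈ B)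
        ≤ _ := h2
      _ ≤ _ := h1
      _ ≤ wk x (t + K * m) (fun u => alv ω (t + K * m) u ∧ ∀ i ≤ K, u (t + i * m) ∈ B) * q :=
          mul_le_mul_of_nonneg_right h3 hq
      _ ≤ (wk x t (alv ω t) * q ^ K) * q := mul_le_mul_of_nonneg_right ih hq
      _ = wk x t (alv ω t) * q ^ (K + 1) := by ring

end

end Pool.Agent.LBL
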