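import Pool.Agent.LBL.Wlk1
import Pool.Agent.LBL.Targets1

set_option autoImplicit false

/-! Job LBL-YMK: Markov property. -/

open Finset
open scoped Classical

namespace Pool.Agent.LBL

namespace YMK_

lemma trj_append_le {d t m : ℕ} (x : Fin d → ℤ) (s1 : Fin t → Fin d × Bool) (s2 : Fin m → Fin d × Bool)
    (k : ℕ) (hk : k ≤ t) : trj x (Fin.append s1 s2) k = trj x s1 k := by
  unfold trj
  rw [Fin.sum_univ_add]
  have h2 : ∑ i : Fin m, (if ((Fin.natAdd t i : Fin (t + m)) : ℕ) < k then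
      stp (Fin.append s1 s2 (Fin.natAdd t i)) else 0) = 0 := by
    refine Finset.sum_eq_zero fun i _ => ?_
    rw [if_neg]
    simp only [Fin.val_natAdd]
    omega
  rw [h2, add_zero]
  congr 1
  refine Finset.sum_congr rfl fun i _ => ?_
  rw [Fin.append_left]
  simp only [Fin.val_castAdd]

lemma trj_append_add {d t m : ℕ} (x : Fin d → ℤ) (s1 : Fin t → Fin d × Bool)
    (s2 : Fin m → Fin d × Bool) (k : ℕ) :
    trj x (Fin.append s1 s2) (t + k) = trj (trj x s1 t) s2 k := by
  unfold trj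
  rw [Fin.sum_univ_add, add_assoc]
  congr 1
  congr 1
  · refine Finset.sum_congr rfl fun i _ => ?_
    rw [Fin.append_left]
    have h1 : ((Fin.castAdd m i : Fin (t + m)) : ℕ) < t + k := by
      simp only [Fin.val_castAdd]
      omega
    rw [if_pos h1, if_pos i.isLt]
  · refine Finset.sum_congr rfl fun i _ => ?_
    rw [Fin.append_right]
    have h1 : ((Fin.natAdd t i : Fin (t + m)) : ℕ) < t + k ↔ (i : ℕ) < k := by
      simp only [Fin.val_natAdd]
      omega
    simp only [h1]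

/-- indicator -/
noncomputable def ind (p : Prop) : ℝ := @ite ℝ p (Classical.propDecidable p) 1 0

lemma ind_true {p : Prop} (h : p) : ind p = 1 := by
  unfold ind
  rw [if_pos h]

lemma ind_false {p : Prop} (h : ¬ p) : ind p = 0 := by
  unfold ind
  rw [if_neg h]

lemma wk_eq {d : ℕ} (x : Fin d → ℤ) (n : ℕ) (E : (ℕ → Fin d → ℤ) → Prop) :
    wk x n E = (∑ s : Fin n → Fin d × Bool, ind (E (trj x s))) / (2 * d) ^ n := by
  unfold wk ind
  rw [Finset.sum_boole]

lemma wk_split {d : ℕ} (t m : ℕ) (x : Fin d → ℤ) (E1 E2 : (ℕ → Fin d → ℤ) → Prop)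
    (B : Set (Fin d → ℤ)) (hd : 1 ≤ d)
    (h1 : ∀ u u' : ℕ → Fin d → ℤ, (∀ k ≤ t, u k = u' k) → E1 u → E1 u') :
    wk x (t + m) (fun u => (E1 u ∧ u t ∈ B) ∧ E2 (fun k => u (t + k))) =
      (∑ s : Fin t → Fin d × Bool, ind (E1 (trj x s) ∧ trj x s t ∈ B) * wk (trj x s t) m E2) /
        (2 * d) ^ t := by
  have hd0 : (0 : ℝ) < 2 * d := by
    have : (1 : ℝ) ≤ d := by exact_mod_cast hd
    linarith
  rw [wk_eq, ← (Fin.appendEquiv t m).sum_comp, Fintype.sum_prod_type, pow_add, div_mul_eq_div_div_swap]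
  congr 1
  rw [Finset.sum_div]
  refine Finset.sum_congr rfl fun s1 _ => ?_
  have hE : ∀ s2 : Fin m → Fin d × Bool,
      ((E1 (trj x ((Fin.appendEquiv t m) (s1, s2))) ∧ trj x ((Fin.appendEquiv t m) (s1, s2)) t ∈ B) ∧
        E2 (fun k => trj x ((Fin.appendEquiv t m) (s1, s2)) (t + k))) =
      ((E1 (trj x s1) ∧ trj x s1 t ∈ B) ∧ E2 (trj (trj x s1 t) s2)) := by
    intro s2
    have e0 : (Fin.appendEquiv t m) (s1, s2) = Fin.append s1 s2 := rfl
    rw [e0]
    have e1 : E1 (trj x (Fin.append s1 s2)) ↔ E1 (trj x s1) :=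
      ⟨h1 _ _ fun k hk => trj_append_le x s1 s2 k hk,
        h1 _ _ fun k hk => (trj_append_le x s1 s2 k hk).symm⟩
    have e2 : (fun k => trj x (Fin.append s1 s2) (t + k)) = trj (trj x s1 t) s2 := by
      funext k
      exact trj_append_add x s1 s2 k
    rw [propext e1, e2, trj_append_le x s1 s2 t le_rfl]
  simp only [hE]
  by_cases hc : E1 (trj x s1) ∧ trj x s1 t ∈ B
  · rw [ind_true hc, one_mul, wk_eq]
    congr 1
    refine Finset.sum_congr rfl fun s2 _ => ?_
    simp only [hc, true_and, and_self]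
  · rw [ind_false hc, zero_mul]
    have : ∀ s2 : Fin m → Fin d × Bool,
        ind ((E1 (trj x s1) ∧ trj x s1 t ∈ B) ∧ E2 (trj (trj x s1 t) s2)) = 0 :=
      fun s2 => ind_false fun h => hc h.1
    rw [Finset.sum_congr rfl fun s2 _ => this s2, Finset.sum_const_zero, zero_div]

end YMK_

open YMK_ in
theorem p_YMK : T_YMK := by
  intro d t m x E1 E2 B q hd h1
  have hd0 : (0 : ℝ) < 2 * d := by
    have : (1 : ℝ) ≤ d := by exact_mod_cast hd
    linarith
  have hR : wk x t (fun u => E1 u ∧ u t ∈ B) * q =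
      (∑ s : Fin t → Fin d × Bool, ind (E1 (trj x s) ∧ trj x s t ∈ B) * q) / (2 * d) ^ t := by
    rw [wk_eq, div_mul_eq_mul_div, Finset.sum_mul]
  refine ⟨fun h => ?_, fun h => ?_⟩
  · rw [wk_split t m x E1 E2 B hd h1, hR]
    refine div_le_div_of_nonneg_right (Finset.sum_le_sum fun s _ => ?_) (by positivity)
    by_cases hc : E1 (trj x s) ∧ trj x s t ∈ B
    · rw [ind_true hc, one_mul, one_mul]
      exact h _ hc.2
    · rw [ind_false hc, zero_mul, zero_mul]
  · rw [wk_split t m x E1 E2 B hd h1, hR]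
    refine div_le_div_of_nonneg_right (Finset.sum_le_sum fun s _ => ?_) (by positivity)
    by_cases hc : E1 (trj x s) ∧ trj x s t ∈ B
    · rw [ind_true hc, one_mul, one_mul]
      exact h _ hc.2
    · rw [ind_false hc, zero_mul, zero_mul]

end Pool.Agent.LBL
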