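import Pool.Agent.LBL.Wlk3

/-!
# LBL, target YML: localization at several times
-/

set_option autoImplicit false

open Finset MeasureTheory Filter Topology
open scoped Classical

namespace Pool.Agent.LBL

noncomputable section

theorem YML_count {X : Type} [DecidableEq X] (A : Finset X) (P : ℕ → X → Prop) (T : Finset ℕ)
    (h' : ∀ t ∈ T, (A.card : ℝ) * (2 * T.card) - A.card ≤
      ((A.filter fun s => P t s).card : ℝ) * (2 * T.card)) :
    (A.card : ℝ) ≤ 2 * ((A.filter fun s => ∀ t ∈ T, P t s).card : ℝ) := by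
  have h : ∀ t ∈ T, ((A.filter fun s => ¬ P t s).card : ℝ) * (2 * T.card) ≤ A.card := by
    intro t ht
    have h1 := h' t ht
    have hsplit : ((A.filter fun s => P t s).card : ℝ) +
        ((A.filter fun s => ¬ P t s).card : ℝ) = A.card := by
      exact_mod_cast Finset.card_filter_add_card_filter_not (s := A) (fun s => P t s)
    have h2 : ((A.filter fun s => P t s).card : ℝ) * (2 * T.card) +
        ((A.filter fun s => ¬ P t s).card : ℝ) * (2 * T.card) = A.card * (2 * T.card) := by
      rw [← add_mul, hsplit]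
    linarith
  have h1 : A ⊆ (A.filter fun s => ∀ t ∈ T, P t s) ∪ T.biUnion fun t => A.filter fun s => ¬ P t s := by
    intro s hs
    rw [Finset.mem_union]
    by_cases hc : ∀ t ∈ T, P t s
    · exact Or.inl (Finset.mem_filter.2 ⟨hs, hc⟩)
    · right
      push Not at hc
      obtain ⟨t, ht, hn⟩ := hc
      exact Finset.mem_biUnion.2 ⟨t, ht, Finset.mem_filter.2 ⟨hs, hn⟩⟩
  have h2 : A.card ≤ (A.filter fun s => ∀ t ∈ T, P t s).card +
      ∑ t ∈ T, (A.filter fun s => ¬ P t s).card :=
    (Finset.card_le_card h1).trans ((Finset.card_union_le _ _).trans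
      (Nat.add_le_add_left Finset.card_biUnion_le _))
  have h3 : (A.card : ℝ) ≤ ((A.filter fun s => ∀ t ∈ T, P t s).card : ℝ) +
      ∑ t ∈ T, ((A.filter fun s => ¬ P t s).card : ℝ) := by
    exact_mod_cast h2
  have h4 : (∑ t ∈ T, ((A.filter fun s => ¬ P t s).card : ℝ)) * 2 ≤ A.card := by
    by_cases hT : T.card = 0
    · rw [Finset.card_eq_zero] at hT
      subst hT
      simp
    · have hT' : (0 : ℝ) < T.card := by
        have : 0 < T.card := Nat.pos_of_ne_zero hT
        exact_mod_cast this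
      have h5 : (∑ t ∈ T, ((A.filter fun s => ¬ P t s).card : ℝ)) * (2 * T.card) ≤ T.card * A.card := by
        rw [Finset.sum_mul]
        refine (Finset.sum_le_sum h).trans ?_
        rw [Finset.sum_const, nsmul_eq_mul]
      nlinarith
  linarith

theorem p_YML : T_YML := by
  intro d n ω B T hd h
  have hd0 : (0 : ℝ) < (2 * (d : ℝ)) ^ n := by
    have : (1 : ℝ) ≤ d := by exact_mod_cast hd
    positivity
  obtain ⟨A, hA⟩ : ∃ A : Finset (Fin n → Fin d × Bool),
      A = Finset.univ.filter fun s : Fin n → Fin d × Bool => alv ω n (trj (0 : Fin d → ℤ) s) := ⟨_, rfl⟩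
  have hq : ∀ t, (Finset.univ.filter fun s : Fin n → Fin d × Bool =>
      alv ω n (trj (0 : Fin d → ℤ) s) ∧ trj (0 : Fin d → ℤ) s t ∈ B) =
      A.filter fun s => trj (0 : Fin d → ℤ) s t ∈ B := by
    intro t
    rw [hA, Finset.filter_filter]
  have hT : (Finset.univ.filter fun s : Fin n → Fin d × Bool =>
      alv ω n (trj (0 : Fin d → ℤ) s) ∧ ∀ t ∈ T, trj (0 : Fin d → ℤ) s t ∈ B) =
      A.filter fun s => ∀ t ∈ T, trj (0 : Fin d → ℤ) s t ∈ B := by
    rw [hA, Finset.filter_filter]
  have e1 : wk (0 : Fin d → ℤ) n (alv ω n) = (A.card : ℝ) / (2 * d) ^ n := by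
    rw [hA]
    rfl
  have e2 : wk (0 : Fin d → ℤ) n (fun u => alv ω n u ∧ ∀ t ∈ T, u t ∈ B) =
      ((A.filter fun s => ∀ t ∈ T, trj (0 : Fin d → ℤ) s t ∈ B).card : ℝ) / (2 * d) ^ n := by
    rw [← hT]
    unfold wk
    congr 2
    refine congrArg Finset.card ?_
    ext s
    simp only [Finset.mem_filter]
  have e3 : ∀ t, wk (0 : Fin d → ℤ) n (fun u => alv ω n u ∧ u t ∈ B) =
      ((A.filter fun s => trj (0 : Fin d → ℤ) s t ∈ B).card : ℝ) / (2 * d) ^ n := by
    intro t
    rw [← hq t]
    unfold wk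
    congr 2
    refine congrArg Finset.card ?_
    ext s
    simp only [Finset.mem_filter]
  rw [e1, e2, ← mul_div_assoc]
  apply div_le_div_of_nonneg_right _ hd0.le
  refine le_trans (YML_count A (fun t s => trj (0 : Fin d → ℤ) s t ∈ B) T ?_) (le_of_eq ?_)
  swap
  · congr 2
    refine congrArg Finset.card ?_
    ext s
    simp only [Finset.mem_filter]
  intro t ht
  have h1 := h t ht
  rw [qc, e3 t, e1] at h1
  have hTc : (0 : ℝ) < T.card := by
    have : 0 < T.card := Finset.card_pos.2 ⟨t, ht⟩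
    exact_mod_cast this
  suffices h5 : (A.card : ℝ) * (2 * T.card) - A.card ≤
      ((A.filter fun s => trj (0 : Fin d → ℤ) s t ∈ B).card : ℝ) * (2 * T.card) by
    refine h5.trans (le_of_eq ?_)
    congr 3
    ext s
    simp only [Finset.mem_filter]
  by_cases hA0 : A.card = 0
  · rw [hA0]
    push_cast
    have : (0 : ℝ) ≤ ((A.filter fun s => trj (0 : Fin d → ℤ) s t ∈ B).card : ℝ) * (2 * T.card) := by
      positivity
    linarith
  · have hA1 : (0 : ℝ) < A.card := by
      have : 0 < A.card := Nat.pos_of_ne_zero hA0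
      exact_mod_cast this
    rw [div_div_div_cancel_right₀ hd0.ne', le_div_iff₀ hA1] at h1
    have h2 : (1 - 1 / (2 * (T.card : ℝ))) * A.card * (2 * T.card) =
        A.card * (2 * T.card) - A.card := by
      field_simp
    rw [← h2]
    exact mul_le_mul_of_nonneg_right h1 (by positivity : (0 : ℝ) ≤ 2 * T.card)

end

end Pool.Agent.LBL
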