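import Pool.Agent.LBL.Wlk2

set_option autoImplicit false

/-!
# LBL-YMS: measurability of local events, translations
-/

open Finset MeasureTheory Filter Topology
open scoped Classical

namespace Pool.Agent.LBL

noncomputable section

/-- local events are measurable -/
theorem YMS_.meas {d : ℕ} (F : Finset (Fin d → ℤ)) (A : Set (Env d)) (h : DepOn F A) : MeasurableSet A := by
  have hr : Measurable (fun (ω : Env d) (x : F) => ω x.1) := by
    apply measurable_pi_lambda
    intro x
    exact measurable_pi_apply _
  have hA : A = (fun (ω : Env d) (x : F) => ω x.1) ⁻¹' ((fun (ω : Env d) (x : F) => ω x.1) '' A) := by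
    ext ω
    constructor
    · intro hω
      exact ⟨ω, hω, rfl⟩
    · rintro ⟨ω', hω', he⟩
      refine h ω' ω ?_ hω'
      intro x hx
      exact congrFun he ⟨x, hx⟩
  rw [hA]
  exact hr (Set.toFinite _).measurableSet

theorem p_YMS : T_YMS := by
  intro d p h0 h1
  refine ⟨fun F A h => YMS_.meas F A h, ?_⟩
  intro a A hA
  have hb := bern_prob h0 h1
  have hm : Measurable (fun (ω : Env d) (x : Fin d → ℤ) => ω (x + a)) := by
    apply measurable_pi_lambda
    intro x
    exact measurable_pi_apply _
  have hmap : (PP d p).map (fun (ω : Env d) (x : Fin d → ℤ) => ω (x + a)) = PP d p := by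
    unfold PP
    apply Measure.eq_infinitePi
    intro s t0 ht0
    obtain ⟨t, rfl⟩ : ∃ t : (Fin d → ℤ) → Set Bool, t = t0 := ⟨t0, rfl⟩
    have ht : ∀ i, MeasurableSet (t i) := ht0
    rw [Measure.map_apply hm (MeasurableSet.pi s.countable_toSet (fun i _ => ht i))]
    have hset : (fun (ω : Env d) (x : Fin d → ℤ) => ω (x + a)) ⁻¹' (Set.pi (s : Set (Fin d → ℤ)) t) =
        Set.pi ((s.image (fun x => x + a) : Finset (Fin d → ℤ)) : Set (Fin d → ℤ)) (fun x => t (x - a)) := by
      ext ω
      simp only [Set.mem_preimage, Set.mem_pi, Finset.coe_image, Set.mem_image, Finset.mem_coe]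
      constructor
      · rintro h x ⟨y, hy, rfl⟩
        rw [add_sub_cancel_right]
        exact h y hy
      · intro h x hx
        have h2 := h (x + a) ⟨x, hx, rfl⟩
        rw [add_sub_cancel_right] at h2
        exact h2
    rw [hset, Measure.infinitePi_pi]
    · rw [Finset.prod_image]
      · apply Finset.prod_congr rfl
        intro x _
        rw [add_sub_cancel_right]
      · intro x _ y _ hxy
        exact add_right_cancel hxy
    · intro x _
      exact ht _
  have := congrArg (fun μ : Measure (Env d) => μ.real A) hmap
  rw [← this]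
  unfold Measure.real
  rw [Measure.map_apply hm hA]
  rfl

end

end Pool.Agent.LBL
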