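import Pool.Agent.LBL.Wlk1
import Pool.Agent.LBL.Targets1

set_option autoImplicit false

/-!
# LBL: outside the islands the rewards do not matter
-/

open Finset
open scoped Classical

namespace Pool.Agent.LBL

noncomputable section

namespace YNI_

/-- the scalar inequality behind the estimate in one box -/
lemma scal (S Q T M κ C1 x' y : ℝ) (hκ : 0 < κ) (hC1 : 0 < C1) (hx0 : 0 ≤ x') (hx1 : x' ≤ 1)
    (hb : C1 * κ ≤ 1) (hM : M = S - κ * T) (hM0 : 0 ≤ M) (hS0 : 0 ≤ S) (hQ : Q ≤ x' * S)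
    (hT : T ≤ C1 * (S - Q)) (hy : x' + C1 * κ * (1 - x') ≤ y) : Q ≤ y * M := by
  have hD : (1 - x') * S ≤ S - Q := by nlinarith
  have hD0 : 0 ≤ S - Q := le_trans (mul_nonneg (by linarith) hS0) hD
  set b := C1 * κ with hbdef
  have hb0 : 0 < b := mul_pos hC1 hκ
  have h1 : κ * T ≤ b * (S - Q) := by
    have := mul_le_mul_of_nonneg_left hT hκ.le
    rw [hbdef]
    linarith
  have h2 : (1 - x') * (S - b * (S - Q)) ≤ S - Q := by
    have : 0 ≤ (1 - x') * (b * (S - Q)) :=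
      mul_nonneg (by linarith) (mul_nonneg hb0.le hD0)
    nlinarith
  have h3 : (1 - b) * ((1 - x') * (S - b * (S - Q))) ≤ (1 - b) * (S - Q) :=
    mul_le_mul_of_nonneg_left h2 (by linarith)
  have hz0 : 0 ≤ x' + b * (1 - x') := add_nonneg hx0 (mul_nonneg hb0.le (by linarith))
  have h4 : (x' + b * (1 - x')) * (S - b * (S - Q)) ≤ (x' + b * (1 - x')) * M := by
    apply mul_le_mul_of_nonneg_left _ hz0
    rw [hM]
    linarith
  have h5 : Q ≤ (x' + b * (1 - x')) * (S - b * (S - Q)) := by nlinarith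
  calc Q ≤ (x' + b * (1 - x')) * (S - b * (S - Q)) := h5
    _ ≤ (x' + b * (1 - x')) * M := h4
    _ ≤ y * M := mul_le_mul_of_nonneg_right hy hM0

lemma mw_bd {d : ℕ} {κ : ℝ} (h0 : 0 < κ) (h1 : κ ≤ 1 / 2) (V : Finset (Fin d → ℤ))
    (x : Fin d → ℤ) : 1 / 2 ≤ mw κ V x ∧ mw κ V x ≤ 1 := by
  unfold mw
  split_ifs
  · constructor <;> linarith
  · constructor <;> norm_num

/-- the weighted norm -/
lemma sum_mw {d : ℕ} (κ : ℝ) (U V : Finset (Fin d → ℤ)) (f : (Fin d → ℤ) → ℝ) (hf : Spp U f) :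
    ∑ x ∈ U, mw κ V x * f x ^ 2 = ∑ x ∈ U, f x ^ 2 - κ * ∑ x ∈ V, f x ^ 2 := by
  have h1 : ∀ x ∈ U, mw κ V x * f x ^ 2 = f x ^ 2 - κ * (if x ∈ V then f x ^ 2 else 0) := by
    intro x _
    unfold mw
    split_ifs <;> ring
  rw [Finset.sum_congr rfl h1, Finset.sum_sub_distrib, ← Finset.mul_sum, ← Finset.sum_filter]
  congr 2
  have h2 : U.filter (fun x => x ∈ V) ⊆ V := fun x hx => (Finset.mem_filter.1 hx).2
  refine Finset.sum_subset h2 ?_
  intro x hx hx'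
  have : x ∉ U := fun h => hx' (Finset.mem_filter.2 ⟨h, hx⟩)
  rw [hf x this]
  norm_num

/-- change of the set of summation -/
lemma sum_sub {d : ℕ} {O U : Finset (Fin d → ℤ)} (hO : O ⊆ U) (f g : (Fin d → ℤ) → ℝ)
    (hf : Spp O f) : ∑ x ∈ O, f x * g x = ∑ x ∈ U, f x * g x := by
  refine Finset.sum_subset hO ?_
  intro x _ hx
  rw [hf x hx, zero_mul]

lemma sum_sub2 {d : ℕ} {O U : Finset (Fin d → ℤ)} (hO : O ⊆ U) (f g : (Fin d → ℤ) → ℝ)
    (hf : Spp O f) : ∑ x ∈ O, g x * f x ^ 2 = ∑ x ∈ U, g x * f x ^ 2 := by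
  refine Finset.sum_subset hO ?_
  intro x _ hx
  rw [hf x hx]
  norm_num

lemma sum_sub3 {d : ℕ} {O U : Finset (Fin d → ℤ)} (hO : O ⊆ U) (f : (Fin d → ℤ) → ℝ)
    (hf : Spp O f) : ∑ x ∈ O, f x ^ 2 = ∑ x ∈ U, f x ^ 2 := by
  refine Finset.sum_subset hO ?_
  intro x _ hx
  rw [hf x hx]
  norm_num

end YNI_

open YNI_ in
theorem p_YNI (h_YIM : T_YIM) (h_YRD : T_YRD) (h_VAR : T_VAR) : T_YNI := by
  intro d l A η hd hl hA hη
  obtain ⟨C1, hC1, hRD⟩ := h_YRD d l hd hl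
  obtain ⟨C2, hC2, hIM⟩ := h_YIM d hd
  have hκ1 : 0 < 1 / (C1 + 1) := by positivity
  have hκ2 : 0 < η / (2 * (C1 + 1) * (A + 2 * η)) := by positivity
  refine ⟨min (1 / 2) (min (1 / (C1 + 1)) (η / (2 * (C1 + 1) * (A + 2 * η)))),
    max 2 (max (A + 2 * η) (8 * C2 / η)), lt_min (by norm_num) (lt_min hκ1 hκ2), min_le_left _ _,
    lt_of_lt_of_le (by norm_num) (le_max_left _ _), ?_⟩
  set κ : ℝ := min (1 / 2) (min (1 / (C1 + 1)) (η / (2 * (C1 + 1) * (A + 2 * η)))) with hκdef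
  have hκ0 : 0 < κ := lt_min (by norm_num) (lt_min hκ1 hκ2)
  have hκh : κ ≤ 1 / 2 := min_le_left _ _
  have hκa : κ ≤ 1 / (C1 + 1) := (min_le_right _ _).trans (min_le_left _ _)
  have hκb : κ ≤ η / (2 * (C1 + 1) * (A + 2 * η)) := (min_le_right _ _).trans (min_le_right _ _)
  intro r x0 ℓ U N V hr hℓ hx0 hxA hV hN f hf
  have hr2 : 2 ≤ r := (le_max_left _ _).trans hr
  have hrA : A + 2 * η ≤ r := (le_max_left _ _).trans ((le_max_right _ _).trans hr)
  have hrC : 8 * C2 / η ≤ r := (le_max_right _ _).trans ((le_max_right _ _).trans hr)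
  have hr0 : 0 < r := by linarith
  have hrr : 0 < r ^ 2 := by positivity
  have hr2' : r ≤ r ^ 2 := by nlinarith
  -- the box is large
  have hp : r ^ 4 ≤ r ^ (d + 4) := pow_le_pow_right₀ (by linarith) (by omega)
  have hℓr : r ^ 4 / 2 ≤ (ℓ : ℝ) := by linarith
  have hr4 : 16 ≤ r ^ 4 := by
    have := pow_le_pow_left₀ (by norm_num) hr2 4
    norm_num at this
    exact this
  have hℓ0 : (0 : ℝ) < ℓ := by linarith
  have hℓ1 : 1 ≤ ℓ := by exact_mod_cast hℓ0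
  have hCℓ : C2 / (ℓ : ℝ) ^ 2 ≤ η / 2 / r ^ 2 := by
    rw [div_le_div_iff₀ (by positivity) hrr]
    have h1 : (r ^ 4 / 2) ^ 2 ≤ (ℓ : ℝ) ^ 2 := pow_le_pow_left₀ (by positivity) hℓr 2
    have h2 : 8 * C2 ≤ r * η := by
      rw [div_le_iff₀ hη] at hrC
      exact hrC
    have h3 : C2 * r ^ 2 ≤ r * η / 8 * r ^ 2 := mul_le_mul_of_nonneg_right (by linarith) hrr.le
    have h4 : r * η / 8 * r ^ 2 ≤ η / 2 * (r ^ 4 / 2) ^ 2 := by
      have h5 : r ^ 3 ≤ r ^ 8 := pow_le_pow_right₀ (by linarith) (by norm_num)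
      have h6 : η * r ^ 3 ≤ η * r ^ 8 := mul_le_mul_of_nonneg_left h5 hη.le
      nlinarith
    have h7 : η / 2 * (r ^ 4 / 2) ^ 2 ≤ η / 2 * (ℓ : ℝ) ^ 2 :=
      mul_le_mul_of_nonneg_left h1 (by positivity)
    linarith
  -- the level
  have hx01 : x0 ≤ 1 := by
    by_contra hc
    push Not at hc
    have : (1 - x0) * r ^ 2 < 0 := mul_neg_of_neg_of_pos (by linarith) hrr
    linarith
  have hx0A : 1 - x0 ≤ A / r ^ 2 := by rwa [le_div_iff₀ hrr]
  have hηr : 0 < η / r ^ 2 := by positivity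
  have e1 : 2 * η / r ^ 2 = 2 * (η / r ^ 2) := by ring
  have e2 : η / 2 / r ^ 2 = (η / r ^ 2) / 2 := by ring
  have hx'1 : x0 - 2 * η / r ^ 2 ≤ 1 := by rw [e1]; linarith
  have hx'd : 1 - (x0 - 2 * η / r ^ 2) ≤ (A + 2 * η) / r ^ 2 := by
    rw [add_div]
    linarith
  have hx'0 : 0 ≤ x0 - 2 * η / r ^ 2 := by
    have : (A + 2 * η) / r ^ 2 ≤ 1 := by
      rw [div_le_one hrr]
      linarith
    linarith
  have hb : C1 * κ ≤ 1 := by
    have h1 : C1 * κ ≤ C1 * (1 / (C1 + 1)) := mul_le_mul_of_nonneg_left hκa hC1.le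
    have h2 : C1 * (1 / (C1 + 1)) ≤ 1 := by
      rw [mul_one_div, div_le_one (by positivity)]
      linarith
    exact h1.trans h2
  have hbb : C1 * κ * (A + 2 * η) ≤ η / 2 := by
    have hAη : 0 < A + 2 * η := by positivity
    rw [le_div_iff₀ (by positivity)] at hκb
    have h1 : C1 * κ * (A + 2 * η) ≤ (C1 + 1) * κ * (A + 2 * η) := by
      apply mul_le_mul_of_nonneg_right _ hAη.le
      nlinarith
    linarith
  have hy : x0 - 2 * η / r ^ 2 + C1 * κ * (1 - (x0 - 2 * η / r ^ 2)) ≤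
      x0 - 3 / 2 * (η / r ^ 2) := by
    have h1 : C1 * κ * (1 - (x0 - 2 * η / r ^ 2)) ≤ C1 * κ * ((A + 2 * η) / r ^ 2) :=
      mul_le_mul_of_nonneg_left hx'd (by positivity)
    have h2 : C1 * κ * ((A + 2 * η) / r ^ 2) ≤ η / 2 / r ^ 2 := by
      rw [← mul_div_assoc]
      exact div_le_div_of_nonneg_right hbb hrr.le
    rw [e1] at *
    rw [e2] at h2
    linarith
  -- one box
  have hbox : ∀ (a : Fin d → ℤ) (g : (Fin d → ℤ) → ℝ), Spp ((U \ N) ∩ boxF a ℓ) g →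
      ∑ x ∈ U \ N, g x * P0 g x ≤
        (x0 - 3 / 2 * (η / r ^ 2)) * ∑ x ∈ U \ N, mw κ V x * g x ^ 2 := by
    intro a g hg
    rcases hN a with h | h
    · have hg0 : ∀ x, g x = 0 := by
        intro x
        apply hg
        intro hx
        have hx1 := (Finset.mem_inter.1 hx)
        exact (Finset.mem_sdiff.1 hx1.1).2 (h hx1.2)
      rw [Finset.sum_eq_zero fun x _ => by rw [hg0 x, zero_mul],
        Finset.sum_eq_zero fun x _ => by rw [hg0 x]; norm_num, mul_zero]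
    · have hsub : (U \ N) ∩ boxF a ℓ ⊆ U ∩ boxF a ℓ := by
        intro x hx
        have hx1 := Finset.mem_inter.1 hx
        exact Finset.mem_inter.2 ⟨(Finset.mem_sdiff.1 hx1.1).1, hx1.2⟩
      have hgB : Spp (U ∩ boxF a ℓ) g := fun x hx => hg x fun hc => hx (hsub hc)
      have hgN : Spp (U \ N) g := fun x hx => hg x fun hc => hx (Finset.mem_inter.1 hc).1
      have hgU : Spp U g := fun x hx => hgB x fun hc => hx (Finset.mem_inter.1 hc).1
      have hvar := (h_VAR d ℤ hd (U ∩ boxF a ℓ)).1 g hgB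
      rw [sum_sub Finset.inter_subset_left g (P0 g) hgB,
        sum_sub3 Finset.inter_subset_left g hgB] at hvar
      rw [sum_sub Finset.sdiff_subset g (P0 g) hgN,
        sum_sub2 Finset.sdiff_subset g (mw κ V) hgN]
      have hS0 : 0 ≤ ∑ x ∈ U, g x ^ 2 := Finset.sum_nonneg fun x _ => sq_nonneg _
      have hM0 : 0 ≤ ∑ x ∈ U, mw κ V x * g x ^ 2 :=
        Finset.sum_nonneg fun x _ => mul_nonneg (by linarith [(mw_bd hκ0 hκh V x).1]) (sq_nonneg _)
      exact scal _ _ _ _ κ C1 (x0 - 2 * η / r ^ 2) _ hκ0 hC1 hx'0 hx'1 hb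
        (sum_mw κ U V g hgU) hM0 hS0 (hvar.trans (mul_le_mul_of_nonneg_right h hS0))
        (hRD U V g hV hgU) hy
  have hmain := hIM ℓ (U \ N) (mw κ V) (x0 - 3 / 2 * (η / r ^ 2)) hℓ1
    (fun x => mw_bd hκ0 hκh V x) hbox f hf
  rw [sum_sub Finset.sdiff_subset f (P0 f) hf,
    sum_sub2 Finset.sdiff_subset f (mw κ V) hf] at hmain
  refine hmain.trans (mul_le_mul_of_nonneg_right ?_ ?_)
  · rw [e2] at hCℓ
    linarith
  · exact Finset.sum_nonneg fun x _ =>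
      mul_nonneg (by linarith [(mw_bd hκ0 hκh V x).1]) (sq_nonneg _)

end

end Pool.Agent.LBL
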