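import Pool.Agent.LBL.Wlk1
import Pool.Agent.LBL.Targets1

set_option autoImplicit false

/-!
# LBL, part WLK: YOP, operator bound for weighted path sums (helper14)
-/

open Finset
open scoped Classical

namespace Pool.Agent.LBL

noncomputable section

namespace YOP_

variable {d : ℕ}

lemma P0_lin (a b : ℝ) (f g : (Fin d → ℤ) → ℝ) (x : Fin d → ℤ) :
    P0 (fun w => a * f w + b * g w) x = a * P0 f x + b * P0 g x := by
  unfold P0
  rw [← mul_div_assoc, ← mul_div_assoc, ← add_div]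
  congr 1
  rw [Finset.mul_sum, Finset.mul_sum, ← Finset.sum_add_distrib]
  refine Finset.sum_congr rfl fun i _ => ?_
  ring

lemma P0_abs (f : (Fin d → ℤ) → ℝ) (x : Fin d → ℤ) : |P0 f x| ≤ P0 (fun w => |f w|) x := by
  unfold P0
  rw [abs_div]
  have h1 : |(2 * (d : ℝ))| = 2 * d := abs_of_nonneg (by positivity)
  rw [h1]
  refine div_le_div_of_nonneg_right ?_ (by positivity)
  refine (Finset.abs_sum_le_sum_abs _ _).trans (Finset.sum_le_sum fun i _ => ?_)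
  exact abs_add_le _ _

/-- the operator -/
def opA (U : Finset (Fin d → ℤ)) (m : (Fin d → ℤ) → ℝ) (g : (Fin d → ℤ) → ℝ) :
    (Fin d → ℤ) → ℝ := fun z => if z ∈ U then (m z)⁻¹ * P0 g z else 0

lemma opA_sp (U : Finset (Fin d → ℤ)) (m g : (Fin d → ℤ) → ℝ) : Spp U (opA U m g) :=
  fun _ hz => if_neg hz

lemma low (U : Finset (Fin d → ℤ)) (m : (Fin d → ℤ) → ℝ) (Λ : ℝ)
    (hQ : ∀ f : (Fin d → ℤ) → ℝ, Spp U f → ∑ z ∈ U, f z * P0 f z ≤ Λ * ∑ z ∈ U, m z * f z ^ 2)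
    (f : (Fin d → ℤ) → ℝ) (hf : Spp U f) :
    -(Λ * ∑ z ∈ U, m z * f z ^ 2) ≤ ∑ z ∈ U, f z * P0 f z := by
  have h1 := hQ (fun z => |f z|) fun z hz => by simp [hf z hz]
  have h2 : ∑ z ∈ U, m z * |f z| ^ 2 = ∑ z ∈ U, m z * f z ^ 2 :=
    Finset.sum_congr rfl fun z _ => by rw [sq_abs]
  rw [h2] at h1
  have h3 : -(∑ z ∈ U, |f z| * P0 (fun w => |f w|) z) ≤ ∑ z ∈ U, f z * P0 f z := by
    rw [← Finset.sum_neg_distrib]
    refine Finset.sum_le_sum fun z _ => ?_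
    have h4 : |f z * P0 f z| ≤ |f z| * P0 (fun w => |f w|) z := by
      rw [abs_mul]
      exact mul_le_mul_of_nonneg_left (P0_abs f z) (abs_nonneg _)
    have h5 := neg_abs_le (f z * P0 f z)
    linarith
  linarith

lemma step (h_VAR : T_VAR) (hd : 1 ≤ d) (U : Finset (Fin d → ℤ)) (m : (Fin d → ℤ) → ℝ) (Λ : ℝ)
    (hm : ∀ z, 0 < m z) (hΛ : 0 ≤ Λ)
    (hQ : ∀ f : (Fin d → ℤ) → ℝ, Spp U f → ∑ z ∈ U, f z * P0 f z ≤ Λ * ∑ z ∈ U, m z * f z ^ 2)
    (g : (Fin d → ℤ) → ℝ) (hg : Spp U g) :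
    ∑ z ∈ U, m z * opA U m g z ^ 2 ≤ Λ ^ 2 * ∑ z ∈ U, m z * g z ^ 2 := by
  obtain ⟨h, hh⟩ : ∃ h, h = opA U m g := ⟨_, rfl⟩
  rw [← hh]
  have hsp : Spp U h := hh ▸ opA_sp U m g
  obtain ⟨H, hH⟩ : ∃ H : ℝ, H = ∑ z ∈ U, m z * h z ^ 2 := ⟨_, rfl⟩
  obtain ⟨G, hG⟩ : ∃ G : ℝ, G = ∑ z ∈ U, m z * g z ^ 2 := ⟨_, rfl⟩
  rw [← hH, ← hG]
  have hH0 : 0 ≤ H := by
    rw [hH]
    exact Finset.sum_nonneg fun z _ => mul_nonneg (hm z).le (sq_nonneg _)
  have hG0 : 0 ≤ G := by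
    rw [hG]
    exact Finset.sum_nonneg fun z _ => mul_nonneg (hm z).le (sq_nonneg _)
  have hcross : ∑ z ∈ U, h z * P0 g z = H := by
    rw [hH]
    refine Finset.sum_congr rfl fun z hz => ?_
    have h1 : h z = (m z)⁻¹ * P0 g z := by
      rw [hh]
      exact if_pos hz
    have h2 : P0 g z = m z * h z := by
      rw [h1, mul_inv_cancel_left₀ (hm z).ne']
    rw [h2]
    ring
  have hcross' : ∑ z ∈ U, g z * P0 h z = H := by
    rw [← (h_VAR d ℤ hd U).2.2.2.2 h g hsp hg]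
    exact hcross
  have key : ∀ s : ℝ, 4 * s * H ≤ 2 * Λ * (s ^ 2 * H + G) := by
    intro s
    have h1 := hQ (fun w => s * h w + 1 * g w) fun z hz => by simp [hsp z hz, hg z hz]
    have h2 := low U m Λ hQ (fun w => s * h w + (-1) * g w)
      fun z hz => by simp [hsp z hz, hg z hz]
    have e1 : ∑ z ∈ U, (s * h z + 1 * g z) * P0 (fun w => s * h w + 1 * g w) z -
        ∑ z ∈ U, (s * h z + (-1) * g z) * P0 (fun w => s * h w + (-1) * g w) z =
        2 * s * (∑ z ∈ U, h z * P0 g z) + 2 * s * ∑ z ∈ U, g z * P0 h z := by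
      rw [Finset.mul_sum, Finset.mul_sum, ← Finset.sum_sub_distrib, ← Finset.sum_add_distrib]
      refine Finset.sum_congr rfl fun z _ => ?_
      rw [P0_lin, P0_lin]
      ring
    have e2 : (∑ z ∈ U, m z * (s * h z + 1 * g z) ^ 2) +
        ∑ z ∈ U, m z * (s * h z + (-1) * g z) ^ 2 =
        2 * s ^ 2 * (∑ z ∈ U, m z * h z ^ 2) + 2 * ∑ z ∈ U, m z * g z ^ 2 := by
      rw [Finset.mul_sum, Finset.mul_sum, ← Finset.sum_add_distrib, ← Finset.sum_add_distrib]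
      refine Finset.sum_congr rfl fun z _ => ?_
      ring
    rw [hcross, hcross'] at e1
    rw [← hH, ← hG] at e2
    have e3 : Λ * (∑ z ∈ U, m z * (s * h z + 1 * g z) ^ 2) +
        Λ * ∑ z ∈ U, m z * (s * h z + (-1) * g z) ^ 2 =
        Λ * (2 * s ^ 2 * H + 2 * G) := by
      rw [← mul_add, e2]
    linarith
  rcases hΛ.lt_or_eq with hpos | h0
  · have h1 := key Λ⁻¹
    have h2 : 4 * Λ⁻¹ * H * Λ ≤ 2 * Λ * (Λ⁻¹ ^ 2 * H + G) * Λ :=
      mul_le_mul_of_nonneg_right h1 hΛ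
    have h3 : 4 * Λ⁻¹ * H * Λ = 4 * H := by field_simp
    have h4 : 2 * Λ * (Λ⁻¹ ^ 2 * H + G) * Λ = 2 * H + 2 * Λ ^ 2 * G := by field_simp
    rw [h3, h4] at h2
    linarith
  · have h1 := key 1
    rw [← h0] at h1 ⊢
    have h2 : (0 : ℝ) ^ 2 * G = 0 := by ring
    rw [h2]
    linarith

lemma wx_smul (x : Fin d → ℤ) (n : ℕ) (c : ℝ) (G : (ℕ → Fin d → ℤ) → ℝ) :
    wx x n (fun u => c * G u) = c * wx x n G := by
  unfold wx
  rw [← Finset.mul_sum, mul_div_assoc]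

/-- the weight of a path -/
def wgt (U : Finset (Fin d → ℤ)) (m : (Fin d → ℤ) → ℝ) (n : ℕ) (u : ℕ → Fin d → ℤ) : ℝ :=
  if ∀ k ≤ n, u k ∈ U then ∏ k ∈ Finset.range n, (m (u k))⁻¹ else 0

lemma wgt_succ (U : Finset (Fin d → ℤ)) (m : (Fin d → ℤ) → ℝ) (n : ℕ) (x : Fin d → ℤ)
    (u : ℕ → Fin d → ℤ) :
    wgt U m (n + 1) (fun k => if k = 0 then x else u (k - 1)) =
      (if x ∈ U then (m x)⁻¹ else 0) * wgt U m n u := by
  unfold wgt
  have hiff : (∀ k ≤ n + 1, (if k = 0 then x else u (k - 1)) ∈ U) ↔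
      x ∈ U ∧ ∀ k ≤ n, u k ∈ U := by
    constructor
    · intro h
      refine ⟨?_, fun k hk => ?_⟩
      · have := h 0 (Nat.zero_le _)
        simpa using this
      · have := h (k + 1) (by omega)
        simpa using this
    · rintro ⟨h0, h1⟩ k hk
      cases k with
      | zero => simpa using h0
      | succ k => simpa using h1 k (by omega)
  by_cases hx : x ∈ U
  · by_cases hu : ∀ k ≤ n, u k ∈ U
    · rw [if_pos (hiff.2 ⟨hx, hu⟩), if_pos hx, if_pos hu, Finset.prod_range_succ']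
      simp [mul_comm]
    · rw [if_neg fun h => hu (hiff.1 h).2, if_neg hu, mul_zero]
  · rw [if_neg fun h => hx (hiff.1 h).1, if_neg hx, zero_mul]

lemma wx_zero (U : Finset (Fin d → ℤ)) (m : (Fin d → ℤ) → ℝ) (x : Fin d → ℤ) :
    wx x 0 (wgt U m 0) = if x ∈ U then 1 else 0 := by
  unfold wx wgt
  simp [trj]

lemma wx_succ (h_YRC : T_YRC) (hd : 1 ≤ d) (U : Finset (Fin d → ℤ)) (m : (Fin d → ℤ) → ℝ)
    (n : ℕ) (x : Fin d → ℤ) :
    wx x (n + 1) (wgt U m (n + 1)) = opA U m (fun z => wx z n (wgt U m n)) x := by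
  have h1 := (h_YRC d hd x n).2.1 (wgt U m (n + 1))
  have h2 := (h_YRC d hd x n).2.2.1 (fun z => wx z n (wgt U m n))
  have h3 : ∀ e : Fin d × Bool, wx (x + stp e) n
      (fun u => wgt U m (n + 1) (fun k => if k = 0 then x else u (k - 1))) =
      (if x ∈ U then (m x)⁻¹ else 0) * wx (x + stp e) n (wgt U m n) := by
    intro e
    rw [← wx_smul]
    congr 1
    funext u
    exact wgt_succ U m n x u
  rw [h1, Finset.sum_congr rfl fun e _ => h3 e, ← Finset.mul_sum, h2]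
  unfold opA
  have hd' : (2 * (d : ℝ)) ≠ 0 := by
    have : (1 : ℝ) ≤ d := by exact_mod_cast hd
    positivity
  by_cases hx : x ∈ U
  · rw [if_pos hx, if_pos hx]
    field_simp
  · rw [if_neg hx, if_neg hx]
    simp

end YOP_

/-- YOP -/
theorem p_YOP (h_YRC : T_YRC) (h_VAR : T_VAR) : T_YOP := by
  intro d n U m Λ x hd hm hΛ hx hQ
  have hmain : ∀ n : ℕ, Spp U (fun z => wx z n (YOP_.wgt U m n)) ∧
      ∑ z ∈ U, m z * wx z n (YOP_.wgt U m n) ^ 2 ≤ (Λ ^ n) ^ 2 * ∑ z ∈ U, m z := by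
    intro n
    induction n with
    | zero =>
      refine ⟨fun z hz => ?_, ?_⟩
      · change wx z 0 (YOP_.wgt U m 0) = 0
        rw [YOP_.wx_zero, if_neg hz]
      · have h1 : ∑ z ∈ U, m z * wx z 0 (YOP_.wgt U m 0) ^ 2 = ∑ z ∈ U, m z :=
          Finset.sum_congr rfl fun z hz => by rw [YOP_.wx_zero, if_pos hz]; ring
        rw [h1]
        simp
    | succ n ih =>
      refine ⟨fun z hz => ?_, ?_⟩
      · change wx z (n + 1) (YOP_.wgt U m (n + 1)) = 0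
        rw [YOP_.wx_succ h_YRC hd]
        exact YOP_.opA_sp U m _ z hz
      · have h1 := YOP_.step h_VAR hd U m Λ hm hΛ hQ (fun z => wx z n (YOP_.wgt U m n)) ih.1
        have h2 : ∑ z ∈ U, m z * wx z (n + 1) (YOP_.wgt U m (n + 1)) ^ 2 =
            ∑ z ∈ U, m z * YOP_.opA U m (fun z => wx z n (YOP_.wgt U m n)) z ^ 2 :=
          Finset.sum_congr rfl fun z _ => by rw [YOP_.wx_succ h_YRC hd]
        rw [h2]
        refine h1.trans ?_
        have h3 := mul_le_mul_of_nonneg_left ih.2 (sq_nonneg Λ)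
        have h4 : Λ ^ 2 * ((Λ ^ n) ^ 2 * ∑ z ∈ U, m z) = (Λ ^ (n + 1)) ^ 2 * ∑ z ∈ U, m z := by
          ring
        rw [← h4]
        exact h3
  have h1 := (hmain n).2
  have h2 : m x * wx x n (YOP_.wgt U m n) ^ 2 ≤ ∑ z ∈ U, m z * wx z n (YOP_.wgt U m n) ^ 2 :=
    Finset.single_le_sum (f := fun z => m z * wx z n (YOP_.wgt U m n) ^ 2)
      (fun z _ => mul_nonneg (hm z).le (sq_nonneg _)) hx
  change wx x n (YOP_.wgt U m n) ≤ Λ ^ n * Real.sqrt (∑ z ∈ U, m z) / Real.sqrt (m x)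
  have hsm : 0 < Real.sqrt (m x) := Real.sqrt_pos.2 (hm x)
  rw [le_div_iff₀ hsm]
  have hS : 0 ≤ ∑ z ∈ U, m z := Finset.sum_nonneg fun z _ => (hm z).le
  have h3 : (wx x n (YOP_.wgt U m n) * Real.sqrt (m x)) ^ 2 ≤
      (Λ ^ n * Real.sqrt (∑ z ∈ U, m z)) ^ 2 := by
    rw [mul_pow, mul_pow, Real.sq_sqrt (hm x).le, Real.sq_sqrt hS]
    linarith
  exact le_of_sq_le_sq h3 (by positivity)

end

end Pool.Agent.LBL
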