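import Pool.Agent.LBL.Wlk3
import Pool.Agent.LBL.Targets1

set_option autoImplicit false

/-!
# LBL: upper bound of the survival probability until time `t`
-/

open Finset MeasureTheory Filter Topology
open scoped Classical

namespace Pool.Agent.LBL

noncomputable section

namespace YQ1_

/-- bound of a power -/
lemma pow_bd {L x a s f : ℝ} {t n : ℕ} (hL0 : 0 ≤ L) (hx : 1 / 2 ≤ x) (ha : 0 ≤ a) (hs : 0 ≤ s)
    (hL : L ≤ x + a * s) (hf : (n : ℝ) * s = f) (ht : t ≤ n) :
    L ^ t ≤ x ^ t * Real.exp (2 * a * f) := by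
  have h1 : L ≤ x * Real.exp (2 * a * s) := by
    have h2 : 2 * a * s + 1 ≤ Real.exp (2 * a * s) := Real.add_one_le_exp _
    have h3 : x * (2 * a * s + 1) ≤ x * Real.exp (2 * a * s) :=
      mul_le_mul_of_nonneg_left h2 (by linarith)
    have h4 : 0 ≤ (2 * x - 1) * (a * s) := mul_nonneg (by linarith) (mul_nonneg ha hs)
    nlinarith
  have h5 : (t : ℝ) * (2 * a * s) ≤ 2 * a * f := by
    have h6 : (t : ℝ) ≤ n := by exact_mod_cast ht
    have h7 : (t : ℝ) * (2 * a * s) ≤ n * (2 * a * s) :=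
      mul_le_mul_of_nonneg_right h6 (by positivity)
    rw [← hf]
    linarith
  calc L ^ t ≤ (x * Real.exp (2 * a * s)) ^ t := pow_le_pow_left₀ hL0 h1 t
    _ = x ^ t * Real.exp ((t : ℝ) * (2 * a * s)) := by
        rw [mul_pow, ← Real.exp_nat_mul]
    _ ≤ x ^ t * Real.exp (2 * a * f) :=
        mul_le_mul_of_nonneg_left (Real.exp_le_exp.2 h5) (pow_nonneg (by linarith) t)

/-- a tangent bound for the logarithm -/
lemma log_bd {a y : ℝ} (ha : 0 < a) (hy : 0 < y) : Real.log y ≤ a * y - 1 - Real.log a := by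
  have h := Real.log_le_sub_one_of_pos (mul_pos ha hy)
  rw [Real.log_mul ha.ne' hy.ne'] at h
  linarith

/-- the exponent of the far terms -/
lemma expo {c1 J f D : ℝ} (hc : 0 < c1) (hJ : 0 < J) (hf : 0 < f) (hD : 0 ≤ D) :
    -c1 * D + 2 * (J * (1 + Real.log (1 + 2 * D / f))) * f ≤
      (c1 / 2 - 2 * J * Real.log (c1 / (4 * J))) * f := by
  have hy : 0 < 1 + 2 * D / f := by positivity
  have h := log_bd (a := c1 / (4 * J)) (by positivity) hy
  have h2 : 2 * J * f * Real.log (1 + 2 * D / f) ≤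
      2 * J * f * (c1 / (4 * J) * (1 + 2 * D / f) - 1 - Real.log (c1 / (4 * J))) :=
    mul_le_mul_of_nonneg_left h (by positivity)
  have h3 : 2 * J * f * (c1 / (4 * J) * (1 + 2 * D / f) - 1 - Real.log (c1 / (4 * J))) =
      c1 / 2 * f + c1 * D - 2 * J * f - 2 * J * f * Real.log (c1 / (4 * J)) := by
    field_simp
    ring
  rw [h3] at h2
  linarith

lemma card_cub (d D : ℕ) (ω : Env d) : (opn ω (cub d D)).card ≤ (2 * D + 1) ^ d := by
  have h1 : (cub d D).card = (2 * D + 1) ^ d := by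
    unfold cub
    rw [Fintype.card_piFinset, Finset.prod_const, Finset.card_univ, Fintype.card_fin,
      Int.card_Icc]
    congr 1
    omega
  rw [← h1]
  exact Finset.card_filter_le _ _

lemma nrm_zero (d : ℕ) : nrm (0 : Fin d → ℤ) = 0 := by
  unfold nrm
  apply Nat.le_zero.1
  apply Finset.sup_le
  intro i _
  simp

end YQ1_

open YQ1_ in
theorem p_YQ1 (h_YDS : T_YDS) (h_YST : T_YST) (h_YXS : T_YXS) (h_YSC : T_YSC) (h_VAR : T_VAR) :
    T_YQ1 := by
  intro d p J c1 hd hp hp1 hJ hc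
  set C' : ℝ := c1 / 2 - 2 * J * Real.log (c1 / (4 * J)) with hC'
  refine ⟨3 + 6 * J + |C'|, by positivity, ?_⟩
  obtain ⟨-, -, hsc3, -, hsc5⟩ := h_YSC d hd
  obtain ⟨a, A, C, -, -, -, hxs⟩ := h_YXS d p hd hp hp1
  filter_upwards [hxs, hsc5 (2 * d) d, hsc5 1 0, eventually_ge_atTop 5] with n hx hf1 hf2 hn5
  obtain ⟨-, -, -, hx2, hx1⟩ := hx
  have hf1 := hf1.1
  have hf2 := hf2.2
  obtain ⟨hfn, hrr, hr0, hf0⟩ := hsc3 n (by omega)
  intro ω t ht hWW hUB
  set f := fn d n with hfdef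
  set x := xs d p n with hxdef
  have hs0 : 0 ≤ sn d n := by
    unfold sn ss
    exact Real.rpow_nonneg hr0.le _
  have hfs : (n : ℝ) * sn d n = f := by rw [hfn]; rfl
  have hnR : (5 : ℝ) ≤ n := by exact_mod_cast hn5
  have hn0 : (0 : ℝ) < n := by linarith
  -- `n ^ (2 d) ≤ exp f`
  have hlog : 2 * (d : ℝ) * Real.log n ≤ f := by
    rw [hrr] at hf1
    have h1 : (1 : ℝ) ≤ Real.sqrt n := by
      rw [Real.one_le_sqrt]
      linarith
    have h2 : 0 ≤ Real.log n := Real.log_nonneg (by linarith)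
    have h3 : 2 * (d : ℝ) * Real.log n * 1 ≤ 2 * (d : ℝ) * Real.log n * Real.sqrt n :=
      mul_le_mul_of_nonneg_left h1 (by positivity)
    linarith
  have hexp : ((n : ℝ) ^ (2 * d)) ≤ Real.exp f := by
    calc ((n : ℝ) ^ (2 * d)) = Real.exp (Real.log ((n : ℝ) ^ (2 * d))) := by
          rw [Real.exp_log (by positivity)]
      _ ≤ Real.exp f := by
          apply Real.exp_le_exp.2
          rw [Real.log_pow]
          push_cast
          exact hlog
  have hfone : 1 ≤ f := by
    have h1 : (1 : ℝ) ≤ Real.log n := by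
      rw [Real.le_log_iff_exp_le hn0]
      linarith [Real.exp_one_lt_d9]
    have h2 : (2 : ℝ) ≤ d := by exact_mod_cast hd
    nlinarith
  have hfn' : f ≤ n := by linarith
  -- the first radius
  set D0 := ⌈f⌉₊ with hD0
  have hD0f : f ≤ (D0 : ℝ) := Nat.le_ceil f
  have hD0f' : (D0 : ℝ) < f + 1 := Nat.ceil_lt_add_one (by linarith)
  have hD01 : 1 ≤ D0 := by
    have : (0 : ℝ) < D0 := by linarith
    exact_mod_cast this
  have hD0n : D0 ≤ 2 * n := by
    have : (D0 : ℝ) ≤ 2 * n := by linarith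
    exact_mod_cast this
  have key := (h_YDS d n t D0 c1 ω 0 D0 (by omega) hD01 ht (by rw [nrm_zero]; omega)
    (fun D h1 h2 => hWW D (by
      rw [one_mul]
      exact hD0f.trans (by exact_mod_cast h1)) h2)).1
  refine key.trans ?_
  have hxt : 0 ≤ x ^ t := pow_nonneg (by linarith) t
  -- the first term
  have hA : wk 0 t (fun u => ∀ k ≤ t, u k ∈ opn ω (cub d D0)) ≤
      x ^ t * Real.exp ((2 + 6 * J + |C'|) * f) := by
    refine (h_YST d t (opn ω (cub d D0)) 0 (by omega)).trans ?_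
    have h1 : Real.sqrt ((opn ω (cub d D0)).card : ℝ) ≤ Real.exp f := by
      have h2 : ((opn ω (cub d D0)).card : ℝ) ≤ (n : ℝ) ^ (2 * d) := by
        have h3 : ((opn ω (cub d D0)).card : ℝ) ≤ ((2 * D0 + 1 : ℕ) : ℝ) ^ d := by
          exact_mod_cast card_cub d D0 ω
        refine h3.trans ?_
        rw [pow_mul]
        apply pow_le_pow_left₀ (by positivity)
        push_cast
        nlinarith
      have h4 : (1 : ℝ) ≤ (n : ℝ) ^ (2 * d) := one_le_pow₀ (by linarith)
      refine (Real.sqrt_le_sqrt h2).trans (le_trans ?_ hexp)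
      rw [Real.sqrt_le_left (by positivity)]
      nlinarith
    have h5 : lam (opn ω (cub d D0)) ^ t ≤
        x ^ t * Real.exp (2 * (J * (1 + Real.log (1 + D0 / f))) * f) := by
      have hl : 0 ≤ Real.log (1 + D0 / f) := Real.log_nonneg (by
        have : 0 ≤ (D0 : ℝ) / f := by positivity
        linarith)
      exact pow_bd (h_VAR d ℤ (by omega) _).2.1 hx2 (by positivity) hs0
        (hUB D0 (by omega)) hfs ht
    have h6 : Real.exp (2 * (J * (1 + Real.log (1 + D0 / f))) * f) ≤ Real.exp (6 * J * f) := by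
      apply Real.exp_le_exp.2
      have h7 : Real.log (1 + D0 / f) ≤ 2 := by
        have h8 : Real.log (1 + D0 / f) ≤ (1 + D0 / f) - 1 :=
          Real.log_le_sub_one_of_pos (by positivity)
        have h9 : (D0 : ℝ) / f ≤ 2 := by
          rw [div_le_iff₀ hf0]
          linarith
        linarith
      have h10 : J * (1 + Real.log (1 + D0 / f)) ≤ J * 3 :=
        mul_le_mul_of_nonneg_left (by linarith) hJ.le
      nlinarith
    have h11 : lam (opn ω (cub d D0)) ^ t ≤ x ^ t * Real.exp (6 * J * f) :=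
      h5.trans (mul_le_mul_of_nonneg_left h6 hxt)
    calc Real.sqrt ((opn ω (cub d D0)).card : ℝ) * lam (opn ω (cub d D0)) ^ t
        ≤ Real.exp f * (x ^ t * Real.exp (6 * J * f)) :=
          mul_le_mul h1 h11 (pow_nonneg (h_VAR d ℤ (by omega) _).2.1 t) (Real.exp_pos _).le
      _ = x ^ t * Real.exp (f + 6 * J * f) := by
          rw [Real.exp_add]
          ring
      _ ≤ x ^ t * Real.exp ((2 + 6 * J + |C'|) * f) := by
          apply mul_le_mul_of_nonneg_left _ hxt
          apply Real.exp_le_exp.2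
          have : 0 ≤ |C'| * f := by positivity
          nlinarith
  -- the other terms
  have hB : ∑ j ∈ (Finset.range (n + 2)).filter (fun j => 2 ^ j * D0 ≤ 2 * n),
      Real.exp (-c1 * (2 ^ j * D0)) * lam (opn ω (cub d (2 * (2 ^ j * D0)))) ^ t ≤
      x ^ t * Real.exp ((2 + 6 * J + |C'|) * f) := by
    have h1 : ∀ j ∈ (Finset.range (n + 2)).filter (fun j => 2 ^ j * D0 ≤ 2 * n),
        Real.exp (-c1 * (2 ^ j * D0)) * lam (opn ω (cub d (2 * (2 ^ j * D0)))) ^ t ≤
        x ^ t * Real.exp (C' * f) := by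
      intro j hj
      have hj2 := (Finset.mem_filter.1 hj).2
      have h2 := hUB (2 * (2 ^ j * D0)) (by omega)
      have hl : 0 ≤ Real.log (1 + ((2 * (2 ^ j * D0) : ℕ) : ℝ) / f) := Real.log_nonneg (by
        have : 0 ≤ ((2 * (2 ^ j * D0) : ℕ) : ℝ) / f := by positivity
        linarith)
      have h3 := pow_bd (t := t) (n := n) (h_VAR d ℤ (by omega) _).2.1 hx2
        (mul_nonneg hJ.le (by linarith)) hs0 h2 hfs ht
      have h4 : Real.exp (-c1 * (2 ^ j * D0)) *
          Real.exp (2 * (J * (1 + Real.log (1 + ((2 * (2 ^ j * D0) : ℕ) : ℝ) / f))) * f) ≤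
          Real.exp (C' * f) := by
        rw [← Real.exp_add]
        apply Real.exp_le_exp.2
        have h5 := expo (D := 2 ^ j * D0) hc hJ hf0 (by positivity)
        push_cast
        exact h5
      calc Real.exp (-c1 * (2 ^ j * D0)) * lam (opn ω (cub d (2 * (2 ^ j * D0)))) ^ t
          ≤ Real.exp (-c1 * (2 ^ j * D0)) * (x ^ t *
            Real.exp (2 * (J * (1 + Real.log (1 + ((2 * (2 ^ j * D0) : ℕ) : ℝ) / f))) * f)) :=
            mul_le_mul_of_nonneg_left h3 (Real.exp_pos _).le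
        _ = x ^ t * (Real.exp (-c1 * (2 ^ j * D0)) *
            Real.exp (2 * (J * (1 + Real.log (1 + ((2 * (2 ^ j * D0) : ℕ) : ℝ) / f))) * f)) := by
            ring
        _ ≤ x ^ t * Real.exp (C' * f) := mul_le_mul_of_nonneg_left h4 hxt
    refine (Finset.sum_le_card_nsmul _ _ _ h1).trans ?_
    rw [nsmul_eq_mul]
    have h2 : (((Finset.range (n + 2)).filter (fun j => 2 ^ j * D0 ≤ 2 * n)).card : ℝ) ≤
        Real.exp f := by
      have h3 : ((Finset.range (n + 2)).filter (fun j => 2 ^ j * D0 ≤ 2 * n)).card ≤ n + 2 := by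
        simpa using Finset.card_filter_le (Finset.range (n + 2)) (fun j => 2 ^ j * D0 ≤ 2 * n)
      have h4 : (((Finset.range (n + 2)).filter (fun j => 2 ^ j * D0 ≤ 2 * n)).card : ℝ) ≤
          (n : ℝ) + 2 := by exact_mod_cast h3
      refine h4.trans (le_trans ?_ hexp)
      calc (n : ℝ) + 2 ≤ (n : ℝ) ^ 2 := by nlinarith
        _ ≤ (n : ℝ) ^ (2 * d) := pow_le_pow_right₀ (by linarith) (by omega)
    calc (((Finset.range (n + 2)).filter (fun j => 2 ^ j * D0 ≤ 2 * n)).card : ℝ) *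
          (x ^ t * Real.exp (C' * f)) ≤ Real.exp f * (x ^ t * Real.exp (C' * f)) :=
          mul_le_mul_of_nonneg_right h2 (mul_nonneg hxt (Real.exp_pos _).le)
      _ = x ^ t * Real.exp (f + C' * f) := by
          rw [Real.exp_add]
          ring
      _ ≤ x ^ t * Real.exp ((2 + 6 * J + |C'|) * f) := by
          apply mul_le_mul_of_nonneg_left _ hxt
          apply Real.exp_le_exp.2
          have h5 : C' * f ≤ |C'| * f := mul_le_mul_of_nonneg_right (le_abs_self _) hf0.le
          have h6 : 0 ≤ J * f := by positivity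
          nlinarith
  have h2e : (2 : ℝ) ≤ Real.exp f := by
    have := Real.add_one_le_exp f
    linarith
  calc wk 0 t (fun u => ∀ k ≤ t, u k ∈ opn ω (cub d D0)) +
        ∑ j ∈ (Finset.range (n + 2)).filter (fun j => 2 ^ j * D0 ≤ 2 * n),
          Real.exp (-c1 * (2 ^ j * D0)) * lam (opn ω (cub d (2 * (2 ^ j * D0)))) ^ t
      ≤ 2 * (x ^ t * Real.exp ((2 + 6 * J + |C'|) * f)) := by linarith
    _ ≤ Real.exp f * (x ^ t * Real.exp ((2 + 6 * J + |C'|) * f)) :=
        mul_le_mul_of_nonneg_right h2e (mul_nonneg hxt (Real.exp_pos _).le)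
    _ = x ^ t * Real.exp ((3 + 6 * J + |C'|) * f) := by
        rw [show (3 + 6 * J + |C'|) * f = f + (2 + 6 * J + |C'|) * f by ring, Real.exp_add]
        ring

end

end Pool.Agent.LBL
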