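import Pool.Agent.LBL.Wlk2

set_option autoImplicit false

/-!
# LBL, part FIN: conclusion

Deterministic consequences of the good events, and the final assembly `T_MAIN`.
-/

open Finset MeasureTheory Filter Topology
open scoped Classical

namespace Pool.Agent.LBL

noncomputable section

/-- the good event of T_YUB -/
def UB (d : ℕ) (p : ℝ) (n : ℕ) (J : ℝ) (ω : Env d) : Prop := ∀ D : ℕ, D ≤ 4 * n →
  lam (opn ω (cub d D)) ≤ xs d p n + J * (1 + Real.log (1 + D / fn d n)) * sn d n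

/-- the good event of T_YWP -/
def WW {d : ℕ} (n : ℕ) (c1 δ : ℝ) (ω : Env d) : Prop := ∀ D : ℕ, δ * fn d n ≤ D → D ≤ 2 * n → W1 n c1 D ω

/-- Diameter of a discrete ball: `x, y` in the ball of radius `R >= 0` around `c`: `nrm (x-y) <= 2R`. If `R >= √d` the ball contains all lattice points with `|z i - c i| <= R/√d`, at least `(2R/√d - 1)^d >= (R/√d)^d` points. `C = 2√d`. -/
def T_YBL : Prop := ∀ d : ℕ, 1 ≤ d → ∃ C : ℝ, 0 < C ∧ ∀ B : Finset (Fin d → ℤ), IsBall B → ∀ x ∈ B, ∀ y ∈ B,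
  (nrm (x - y) : ℝ) ≤ C * ((B.card : ℝ) ^ ((1 : ℝ) / d) + 1)

/-- Localization at several times: union bound, `wk 0 n (alv ∧ u t ∉ B) = (1 - qc) wk 0 n alv <= wk 0 n alv/(2|T|)`. (If `wk 0 n (alv ω n) = 0` both sides vanish.) -/
def T_YML : Prop := ∀ (d n : ℕ) (ω : Env d) (B : Finset (Fin d → ℤ)) (T : Finset ℕ), 1 ≤ d →
  (∀ t ∈ T, 1 - 1 / (2 * (T.card : ℝ)) ≤ qc ω n t B) →
  wk 0 n (alv ω n) ≤ 2 * wk 0 n (fun u => alv ω n u ∧ ∀ t ∈ T, u t ∈ B)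

/-- Iterated Markov property: T_YMK (upper form) and induction on `K`. -/
def T_YMI : Prop := ∀ (d t m K : ℕ) (ω : Env d) (x : Fin d → ℤ) (B : Finset (Fin d → ℤ)) (q : ℝ), 1 ≤ d → 0 ≤ q →
  (∀ y ∈ B, wk y m (alv ω m) ≤ q) →
  wk x (t + K * m) (fun u => alv ω (t + K * m) u ∧ ∀ i ≤ K, u (t + i * m) ∈ B) ≤ wk x t (alv ω t) * q ^ K

/-- Dyadic split by the maximal norm of the trajectory: if it is `>= D0` it is in some `[2^j D0, 2^{j+1} D0)`, and `2^j D0 <= D0/2 + n` gives `2^j D0 <= 2n`, `j <= n+1`. T_YRC (union bound), `W1` at `2^j D0`. The extra property `E` is carried along: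
terms with no trajectory in `E` may be dropped. -/
def T_YDS : Prop := ∀ (d n t D0 : ℕ) (c1 : ℝ) (ω : Env d) (y : Fin d → ℤ) (D' : ℝ), 1 ≤ d → 1 ≤ D0 → t ≤ n → 2 * nrm y ≤ D0 →
  (∀ D : ℕ, D0 ≤ D → D ≤ 2 * n → W1 n c1 D ω) →
  wk y t (alv ω t) ≤ wk y t (fun u => ∀ k ≤ t, u k ∈ opn ω (cub d D0)) +
    ∑ j ∈ (Finset.range (n + 2)).filter (fun j => 2 ^ j * D0 ≤ 2 * n), Real.exp (-c1 * (2 ^ j * D0)) * lam (opn ω (cub d (2 * (2 ^ j * D0)))) ^ t ∧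
  ((D0 : ℝ) ≤ D' → wk y t (fun u => alv ω t u ∧ D' ≤ nrm (u t)) ≤
    ∑ j ∈ (Finset.range (n + 2)).filter (fun j => 2 ^ j * D0 ≤ 2 * n ∧ D' < 2 * (2 ^ j * D0)), Real.exp (-c1 * (2 ^ j * D0)) * lam (opn ω (cub d (2 * (2 ^ j * D0)))) ^ t)

/-- UPPER BOUND. Suppose every `x ∈ B` has Euclidean norm `> C3 f`, so `nrm x >= C3 f/√d =: D'`. T_YML with `T = {n}`: `wk 0 n alv <= 2 wk 0 n (alv, D' <= nrm (u n))`; T_YDS (second part, `D0 = ⌈f⌉`): with `D = 2^j D0 > D'/2` and `UB`, `n s = f`, `xs >= 1/2`: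
`exp(-c1 D) (xs + J (1 + log(1+2D/f)) s)^n <= xs^n exp(-c1 D + 2 J f (1 + log(1+2D/f))) <= xs^n exp(-c1 D/2)` for `C3` large; so `wk 0 n alv <= 2 (n+2) xs^n exp(-c1 C3 f/(4√d)) < xs^n exp(-C0 f)` for `C3` large and `n` large: contradiction. (`B` nonempty is part of the claim.) -/
def T_YUP : Prop := ∀ (d : ℕ) (p C0 J c1 : ℝ), 2 ≤ d → 0 < p → p < 1 → 0 < C0 → 0 < J → 0 < c1 → ∃ C3 : ℝ, 0 < C3 ∧ ∀ᶠ n : ℕ in atTop,
  ∀ (ω : Env d) (B : Finset (Fin d → ℤ)), xs d p n ^ n * Real.exp (-C0 * fn d n) ≤ wk 0 n (alv ω n) → WW n c1 1 ω → UB d p n J ω → 1 / 2 ≤ qc ω n n B →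
  ∃ x ∈ B, Real.sqrt (∑ i, (x i : ℝ) ^ 2) ≤ C3 * fn d n

/-- Upper bound of the survival probability until `t <= n`. T_YDS (first part) with `y = 0`, `D0 = ⌈f⌉`: first term (T_YST) `<= (9n)^{d/2} (xs + 3 J s)^t <= xs^t exp(C f)`; the other terms `xs^t exp(-c1 D + 2 J f (1 + log(1+2D/f)))` are at most `xs^t exp(C' f)` (the exponent is
bounded by `C' f` for all `D >= f`), and there are at most `n+2` of them. -/
def T_YQ1 : Prop := ∀ (d : ℕ) (p J c1 : ℝ), 2 ≤ d → 0 < p → p < 1 → 0 < J → 0 < c1 → ∃ C6 : ℝ, 0 < C6 ∧ ∀ᶠ n : ℕ in atTop,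
  ∀ (ω : Env d) (t : ℕ), t ≤ n → WW n c1 1 ω → UB d p n J ω → wk 0 t (alv ω t) ≤ xs d p n ^ t * Real.exp (C6 * fn d n)

/-- One factor. `D0 = ⌈√c f⌉`, `K = ⌈C2/√c⌉`, `m = n/(2K)` (floor), `f/(4K) <= m s <= f/(2K)` for `n` large. T_YDS (first part). Staying in `cub D0`: T_YST: `(9n)^{d/2} (xs - c7 log(1/c) s)^m <= (9n)^{d/2} xs^m exp(-c7 log(1/c) s m) <= xs^m exp(-c7 log(1/c) f/(8K))` for `n` large. Terms with `D = 2^j D0`: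
`xs^m exp(-c1 D + 2 J (1 + log(1+2D/f)) s m)` and `2 J (1 + log(1+2D/f)) s m <= (J/C2) √c f (1 + 2D/f) <= 3 J D/C2 <= c1 D/2` if `C2 >= 6J/c1` (as `log(1+z) <= z`, `√c f <= D`, `√c <= 1`); the sum over `j` of `exp(-c1 D/2)` is at most `exp(-c1 √c f/4)` for `n` large, and
`c1 √c/4 >= C2 c1/(8K)`. -/
def T_YQ2 : Prop := ∀ (d : ℕ) (p J c1 c7 : ℝ), 2 ≤ d → 0 < p → p < 1 → 0 < J → 0 < c1 → 0 < c7 → ∃ C20 : ℝ, 1 ≤ C20 ∧ ∀ C2 : ℝ, C20 ≤ C2 →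
  ∀ c : ℝ, 0 < c → c ≤ 1 / 16 → ∀ᶠ n : ℕ in atTop, ∀ ω : Env d, WW n c1 (Real.sqrt c) ω → UB d p n J ω →
  lam (opn ω (cub d ⌈Real.sqrt c * fn d n⌉₊)) ≤ xs d p n - c7 * Real.log (1 / c) * sn d n →
  ∀ y : Fin d → ℤ, 2 * (nrm y : ℝ) ≤ Real.sqrt c * fn d n →
  wk y (n / (2 * ⌈C2 / Real.sqrt c⌉₊)) (alv ω (n / (2 * ⌈C2 / Real.sqrt c⌉₊))) ≤
    2 * xs d p n ^ (n / (2 * ⌈C2 / Real.sqrt c⌉₊)) *
      Real.exp (-(min (c7 * Real.log (1 / c) / 8) (C2 * c1 / 8) / ⌈C2 / Real.sqrt c⌉₊) * fn d n)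

/-- LOWER BOUND. `C6` from T_YQ1, `C2 >= C20` (T_YQ2) with `C2 c1/16 > C6 + C0 + 1`, `c0 <= 1/16` with `c7 log(1/c0)/16 > C6 + C0 + 1`, `K = ⌈C2/√c⌉ >= 2`, `m = n/(2K)`, `t1 = n - (K-1) m`. Suppose `x ∈ B` has Euclidean norm `< c f`; then every `y ∈ B` has `nrm y <= c f + A0 (r+1) <= √c f/2`
(`c <= √c/4`, `n` large). The times `n - i m`, `i < K`, are distinct (`m >= 1`): T_YML, T_YMI (`K-1` steps from `t1`), T_YQ1, T_YQ2: `wk 0 n alv <= 2 xs^{t1} exp(C6 f) (2 xs^m exp(-g f/K))^{K-1} <= 2^K xs^n exp((C6 - g/2) f)`, `g = min (c7 log(1/c)/8) (C2 c1/8)`, `g/2 > C6 + C0 + 1`: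
smaller than `xs^n exp(-C0 f)` for `n` large. -/
def T_YLO : Prop := ∀ (d : ℕ) (p C0 J c1 c7 A0 : ℝ), 2 ≤ d → 0 < p → p < 1 → 0 < C0 → 0 < J → 0 < c1 → 0 < c7 → 0 < A0 →
  ∃ c0 : ℝ, 0 < c0 ∧ c0 ≤ 1 / 16 ∧ ∀ c : ℝ, 0 < c → c ≤ c0 → ∃ K : ℕ, 1 ≤ K ∧ ∀ᶠ n : ℕ in atTop,
  ∀ (ω : Env d) (B : Finset (Fin d → ℤ)), (∀ x ∈ B, ∀ y ∈ B, (nrm (x - y) : ℝ) ≤ A0 * (rr d n + 1)) →
  xs d p n ^ n * Real.exp (-C0 * fn d n) ≤ wk 0 n (alv ω n) → WW n c1 1 ω → WW n c1 (Real.sqrt c) ω → UB d p n J ω →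
  lam (opn ω (cub d ⌈Real.sqrt c * fn d n⌉₊)) ≤ xs d p n - c7 * Real.log (1 / c) * sn d n →
  (∀ i < K, 1 - 1 / (2 * (K : ℝ)) ≤ qc ω n (n - i * (n / (2 * K))) B) → ∀ x ∈ B, c * fn d n ≤ Real.sqrt (∑ i, (x i : ℝ) ^ 2)

/-- Conditional law. `pc d < p < 1`: `theta d p > 0` (`p` is not in the set of `pc`, `le_csSup`), `p1 = (pc d + p)/2 ∈ (0, p)` has `theta d p1 > 0` (`pc d >= 0`: `Real.sSup_nonneg`). `cond` of a set: `μ(Inf ∩ S)/μ(Inf)`. -/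
def T_YCD : Prop := ∀ (d : ℕ) (p : ℝ), 2 ≤ d → pc d < p → p < 1 → 0 < p ∧ 0 < theta d p ∧ (∃ p1 : ℝ, 0 < p1 ∧ p1 < p ∧ 0 < theta d p1) ∧
  IsProbabilityMeasure (ProbabilityTheory.cond (PP d p) (Inf d)) ∧
  (∀ S : Set (Env d), (ProbabilityTheory.cond (PP d p) (Inf d)).real S ≤ (PP d p).real (Inf d ∩ S) / theta d p)

/-- Final assembly. `ε' = ε theta/10`. Constants: `C0` (T_YSR, `LIN` from T_LDI), `J` (T_YUB), `c1` (T_YWP), `c7` (T_YSH), `A0` from T_YBL and the volume bound (`|B| <= 2 d r^d/log(1/p)`), `C3` (T_YUP), `c0` (T_YLO), `c <= c0` also small for T_YSH, `K` (T_YLO). For `n` large, outside events of total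
conditional probability `<= ε` all hypotheses of T_YUP and T_YLO hold: T_YWP for `δ = 1` and `δ = √c`; localization at the times `n - i (n/(2K)) >= n/2 >= C n (log n)^{-2/d}`, `i < K`, with `δ = 1/(2K)`. Then `c f <= dst (B n ω) <= C3 f` (the infimum over the nonempty finite set). -/
def T_YFN : Prop := T_LDI → T_MAIN

end

end Pool.Agent.LBL
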