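import Pool.Agent.LBL.Targets1
import Pool.Agent.LBL.Wlk3

set_option autoImplicit false

/-!
# LBL, target YQ2: one factor
-/

open Finset MeasureTheory Filter Topology
open scoped Classical

namespace Pool.Agent.LBL

noncomputable section

theorem YQ2_A {L x0 b : ℝ} (m : ℕ) (hL : 0 ≤ L) (h : L ≤ x0 - b) (hx1 : x0 ≤ 1) (hx0 : 0 ≤ x0) (hb : 0 ≤ b) :
    L ^ m ≤ x0 ^ m * Real.exp (-(b * m)) := by
  have h1 : 1 - b ≤ Real.exp (-b) := by
    have := Real.add_one_le_exp (-b)
    linarith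
  have h2 : L ≤ x0 * Real.exp (-b) := by
    have h3 : x0 * b ≤ 1 * b := mul_le_mul_of_nonneg_right hx1 hb
    have h4 : x0 * (1 - b) ≤ x0 * Real.exp (-b) := mul_le_mul_of_nonneg_left h1 hx0
    linarith
  calc L ^ m ≤ (x0 * Real.exp (-b)) ^ m := pow_le_pow_left₀ hL h2 m
    _ = x0 ^ m * Real.exp (-(b * m)) := by
        rw [mul_pow, ← Real.exp_nat_mul]
        congr 2
        ring

theorem YQ2_B {L x0 b : ℝ} (m : ℕ) (hL : 0 ≤ L) (h : L ≤ x0 + b) (hx0 : 1 / 2 ≤ x0) (hb : 0 ≤ b) :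
    L ^ m ≤ x0 ^ m * Real.exp (2 * b * m) := by
  have h1 : 1 + 2 * b ≤ Real.exp (2 * b) := by
    have := Real.add_one_le_exp (2 * b)
    linarith
  have hx : 0 ≤ x0 := by linarith
  have h2 : L ≤ x0 * Real.exp (2 * b) := by
    have h3 : 1 / 2 * (2 * b) ≤ x0 * (2 * b) := mul_le_mul_of_nonneg_right hx0 (by linarith)
    have h4 : x0 * (1 + 2 * b) ≤ x0 * Real.exp (2 * b) := mul_le_mul_of_nonneg_left h1 hx
    linarith
  calc L ^ m ≤ (x0 * Real.exp (2 * b)) ^ m := pow_le_pow_left₀ hL h2 m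
    _ = x0 ^ m * Real.exp (2 * b * m) := by
        rw [mul_pow, ← Real.exp_nat_mul]
        congr 2
        ring

theorem YQ2_ev {f : ℕ → ℝ} (hf : Tendsto f atTop atTop) (k : ℕ) {C a : ℝ} (hC : 0 < C) (ha : 0 < a) :
    ∀ᶠ n in atTop, C * f n ^ k ≤ Real.exp (a * f n) := by
  have h1 : Tendsto (fun n => a * f n) atTop atTop := hf.const_mul_atTop ha
  have h2 := (Real.tendsto_pow_mul_exp_neg_atTop_nhds_zero k).comp h1
  have h3 : (0 : ℝ) < a ^ k / C := by positivity
  filter_upwards [h2.eventually (gt_mem_nhds h3)] with n hn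
  simp only [Function.comp] at hn
  have h4 : (a * f n) ^ k * Real.exp (-(a * f n)) < a ^ k / C := hn
  rw [lt_div_iff₀ hC] at h4
  have h5 : Real.exp (-(a * f n)) * Real.exp (a * f n) = 1 := by
    rw [← Real.exp_add]; simp
  have hak : 0 < a ^ k := by positivity
  have h6 : a ^ k * (C * f n ^ k) ≤ a ^ k * Real.exp (a * f n) := by
    calc a ^ k * (C * f n ^ k) = ((a * f n) ^ k * C) * (Real.exp (-(a * f n)) * Real.exp (a * f n)) := by
          rw [h5, mul_pow]; ring
      _ = ((a * f n) ^ k * Real.exp (-(a * f n)) * C) * Real.exp (a * f n) := by ring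
      _ ≤ a ^ k * Real.exp (a * f n) := mul_le_mul_of_nonneg_right h4.le (Real.exp_pos _).le
  exact le_of_mul_le_mul_left h6 hak

theorem YQ2_card (d D : ℕ) : ((cub d D).card : ℝ) = (2 * (D : ℝ) + 1) ^ d := by
  unfold cub
  rw [Fintype.card_piFinset]
  have h1 : ((D : ℤ) + 1 + D).toNat = 2 * D + 1 := by omega
  have h2 : ((D : ℤ) + 1 - -(D : ℤ)).toNat = 2 * D + 1 := by omega
  simp only [Int.card_Icc, Finset.prod_const, Finset.card_univ, Fintype.card_fin, h2]
  push_cast
  ring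

/-- one term of the dyadic sum -/
theorem YQ2_T {L x0 J f s c1 C2 K sc D : ℝ} (m : ℕ) (hL : 0 ≤ L) (hx0 : 1 / 2 ≤ x0) (hJ : 0 < J) (hf : 0 < f) (hs : 0 < s)
    (hc1 : 0 < c1) (_hC2 : 0 < C2) (hC2J : 6 * J ≤ c1 * C2) (hK : 0 < K) (hKC : C2 ≤ K * sc) (hsc0 : 0 < sc) (hsc1 : sc ≤ 1)
    (hD : sc * f ≤ D) (hms : s * m ≤ f / (2 * K)) (h : L ≤ x0 + J * (1 + Real.log (1 + 2 * D / f)) * s) :
    Real.exp (-c1 * D) * L ^ m ≤ x0 ^ m * Real.exp (-(c1 * D / 2)) := by
  have hD0 : 0 < D := lt_of_lt_of_le (mul_pos hsc0 hf) hD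
  have hlog : Real.log (1 + 2 * D / f) ≤ 2 * D / f := by
    have h1 : 0 < 1 + 2 * D / f := by positivity
    have := Real.log_le_sub_one_of_pos h1
    linarith
  have hlog0 : 0 ≤ Real.log (1 + 2 * D / f) := by
    apply Real.log_nonneg
    have : 0 ≤ 2 * D / f := by positivity
    linarith
  have hb : 0 ≤ J * (1 + Real.log (1 + 2 * D / f)) * s := by positivity
  have h1 := YQ2_B m hL h hx0 hb
  have h2 : 2 * (J * (1 + Real.log (1 + 2 * D / f)) * s) * m ≤ c1 * D / 2 := by
    have hm0 : (0 : ℝ) ≤ m := by positivity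
    have h3 : 2 * (J * (1 + Real.log (1 + 2 * D / f)) * s) * m ≤ 2 * J * (1 + 2 * D / f) * (f / (2 * K)) := by
      calc 2 * (J * (1 + Real.log (1 + 2 * D / f)) * s) * m = 2 * J * (1 + Real.log (1 + 2 * D / f)) * (s * m) := by ring
        _ ≤ 2 * J * (1 + 2 * D / f) * (f / (2 * K)) := by
            apply mul_le_mul _ hms (by positivity) (by positivity)
            apply mul_le_mul_of_nonneg_left _ (by positivity)
            linarith
    have h4 : 2 * J * (1 + 2 * D / f) * (f / (2 * K)) = J * (f + 2 * D) / K := by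
      field_simp
    have h5 : J * (f + 2 * D) / K ≤ c1 * D / 2 := by
      rw [div_le_iff₀ hK]
      have h6 : sc * (f + 2 * D) ≤ 3 * D := by
        have : sc * (2 * D) ≤ 1 * (2 * D) := mul_le_mul_of_nonneg_right hsc1 (by positivity)
        linarith
      -- multiply by sc
      have h7 : sc * (J * (f + 2 * D)) ≤ sc * (c1 * D / 2 * K) := by
        calc sc * (J * (f + 2 * D)) = J * (sc * (f + 2 * D)) := by ring
          _ ≤ J * (3 * D) := mul_le_mul_of_nonneg_left h6 hJ.le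
          _ = (6 * J) * (D / 2) := by ring
          _ ≤ (c1 * C2) * (D / 2) := mul_le_mul_of_nonneg_right hC2J (by positivity)
          _ = C2 * (c1 * D / 2) := by ring
          _ ≤ (K * sc) * (c1 * D / 2) := mul_le_mul_of_nonneg_right hKC (by positivity)
          _ = sc * (c1 * D / 2 * K) := by ring
      exact le_of_mul_le_mul_left h7 hsc0
    rw [h4] at h3
    linarith
  calc Real.exp (-c1 * D) * L ^ m ≤ Real.exp (-c1 * D) * (x0 ^ m * Real.exp (c1 * D / 2)) := by
        apply mul_le_mul_of_nonneg_left _ (Real.exp_pos _).le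
        refine h1.trans ?_
        apply mul_le_mul_of_nonneg_left _ (by positivity)
        exact Real.exp_le_exp.mpr h2
    _ = x0 ^ m * (Real.exp (-c1 * D) * Real.exp (c1 * D / 2)) := by ring
    _ = x0 ^ m * Real.exp (-(c1 * D / 2)) := by
        rw [← Real.exp_add]
        congr 2
        ring

theorem p_YQ2 (h_YDS : T_YDS) (h_YST : T_YST) (h_YXS : T_YXS) (h_YSC : T_YSC) (h_VAR : T_VAR) : T_YQ2 := by
  intro d p J c1 c7 hd hp0 hp1 hJ hc1 hc7
  have hd1 : 1 ≤ d := by omega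
  refine ⟨max 1 (6 * J / c1), le_max_left _ _, ?_⟩
  intro C2 hC2 c hc0 hc16
  have hC21 : 1 ≤ C2 := (le_max_left _ _).trans hC2
  have hC2J : 6 * J ≤ c1 * C2 := by
    have := (le_max_right _ _).trans hC2
    rw [div_le_iff₀ hc1] at this
    linarith
  set sc := Real.sqrt c with hsc
  have hsc0 : 0 < sc := Real.sqrt_pos.mpr hc0
  have hsc1 : sc ≤ 1 := by
    rw [hsc, Real.sqrt_le_one]
    linarith
  set K := ⌈C2 / sc⌉₊ with hKdef
  have hKge : C2 / sc ≤ (K : ℝ) := Nat.le_ceil _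
  have hKpos : (0 : ℝ) < K := lt_of_lt_of_le (by positivity) hKge
  have hK1 : 0 < K := by exact_mod_cast hKpos
  have hKC : C2 ≤ K * sc := by
    rwa [div_le_iff₀ hsc0] at hKge
  set β := c7 * Real.log (1 / c) with hβ
  have hlogc : 0 < Real.log (1 / c) := by
    apply Real.log_pos
    rw [lt_div_iff₀ hc0]
    linarith
  have hβ0 : 0 < β := mul_pos hc7 hlogc
  obtain ⟨hS1, _, hS3, _, hS5⟩ := h_YSC d hd
  obtain ⟨a, A, C, _, _, _, hXS⟩ := h_YXS d p hd hp0 hp1
  have hsq : ∀ᶠ n : ℕ in atTop, Real.sqrt n ≤ fn d n := by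
    filter_upwards [hS5 1 0] with n hn
    simpa using hn.1
  have hfT : Tendsto (fun n : ℕ => fn d n) atTop atTop := by
    apply tendsto_atTop_mono' atTop hsq
    exact Real.tendsto_sqrt_atTop.comp tendsto_natCast_atTop_atTop
  have hE1 := YQ2_ev hfT d (C := 5 ^ d) (a := β / (8 * K)) (by positivity) (by positivity)
  have hE2 := YQ2_ev hfT 2 (C := 3) (a := c1 * sc / 4) (by positivity) (by positivity)
  filter_upwards [hXS, hsq, hE1, hE2, eventually_ge_atTop (4 * K + 2), hfT.eventually_ge_atTop 1] with n hXn hsqn hE1n hE2n hnK hf1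
  intro ω hWW hUB hlam y hy
  obtain ⟨_, _, _, hx12, hx1⟩ := hXn
  have hn2 : 2 ≤ n := by omega
  obtain ⟨hfn, _, hr0, hf0⟩ := hS3 n hn2
  set f := fn d n with hf_def
  set x0 := xs d p n with hx0_def
  set m := n / (2 * K) with hm
  have hs0 : 0 < sn d n := by
    unfold sn ss
    positivity
  set s := sn d n with hs_def
  have hfns : f = n * s := hfn
  have hmK : m * (2 * K) ≤ n := Nat.div_mul_le_self n (2 * K)
  have hmK2 : n < (m + 1) * (2 * K) := by
    have h := Nat.lt_mul_div_succ n (show 0 < 2 * K by omega)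
    rw [mul_comm]
    exact h
  have hmn : m ≤ n := Nat.div_le_self _ _
  have hms : s * m ≤ f / (2 * K) := by
    rw [le_div_iff₀ (by positivity), hfns]
    have h1 : (m : ℝ) * (2 * K) ≤ n := by exact_mod_cast hmK
    have h2 := mul_le_mul_of_nonneg_left h1 hs0.le
    linarith
  have hms2 : f / (4 * K) ≤ s * m := by
    rw [div_le_iff₀ (by positivity), hfns]
    have h1 : (n : ℝ) ≤ (m + 1) * (2 * K) := by exact_mod_cast hmK2.le
    have h2 : (4 * K : ℝ) ≤ n := by
      have : 4 * K ≤ n := by omega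
      exact_mod_cast this
    have h3 : (n : ℝ) ≤ m * (4 * K) := by linarith
    have h4 := mul_le_mul_of_nonneg_left h3 hs0.le
    linarith
  set D0 := ⌈sc * f⌉₊ with hD0
  have hD0ge : sc * f ≤ (D0 : ℝ) := Nat.le_ceil _
  have hD0pos : (0 : ℝ) < D0 := lt_of_lt_of_le (by positivity) hD0ge
  have hD01 : 1 ≤ D0 := by exact_mod_cast hD0pos
  have hD0le : (D0 : ℝ) ≤ f + 1 := by
    have h1 : (D0 : ℝ) < sc * f + 1 := Nat.ceil_lt_add_one (by positivity)
    have h2 : sc * f ≤ 1 * f := mul_le_mul_of_nonneg_right hsc1 hf0.le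
    linarith
  have hy2 : 2 * nrm y ≤ D0 := by
    have : ((2 * nrm y : ℕ) : ℝ) ≤ D0 := by
      push_cast
      linarith
    exact_mod_cast this
  have hW : ∀ D : ℕ, D0 ≤ D → D ≤ 2 * n → W1 n c1 D ω := by
    intro D h1 h2
    apply hWW D _ h2
    have : (D0 : ℝ) ≤ D := by exact_mod_cast h1
    linarith
  have hDS := (h_YDS d n m D0 c1 ω y 0 hd1 hD01 hmn hy2 hW).1
  -- first term
  have hfirst : wk y m (fun u => ∀ k ≤ m, u k ∈ opn ω (cub d D0)) ≤ x0 ^ m * Real.exp (-(β / (8 * K) * f)) := by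
    refine (h_YST d m (opn ω (cub d D0)) y hd1).trans ?_
    have hl0 : 0 ≤ lam (opn ω (cub d D0)) := (h_VAR d ℤ hd1 _).2.1
    have h1 : lam (opn ω (cub d D0)) ^ m ≤ x0 ^ m * Real.exp (-(β * s * m)) :=
      YQ2_A m hl0 hlam hx1.le (by linarith) (by positivity)
    have h2 : Real.sqrt (opn ω (cub d D0)).card ≤ Real.exp (β / (8 * K) * f) := by
      have h3 : ((opn ω (cub d D0)).card : ℝ) ≤ (2 * (D0 : ℝ) + 1) ^ d := by
        rw [← YQ2_card]
        exact_mod_cast Finset.card_filter_le _ _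
      have h4 : (2 * (D0 : ℝ) + 1) ^ d ≤ (5 * f) ^ d := by
        apply pow_le_pow_left₀ (by positivity)
        linarith
      have h5 : (1 : ℝ) ≤ (5 * f) ^ d := one_le_pow₀ (by linarith)
      have h6 : Real.sqrt (opn ω (cub d D0)).card ≤ (5 * f) ^ d := by
        rw [Real.sqrt_le_left (by positivity)]
        calc ((opn ω (cub d D0)).card : ℝ) ≤ (5 * f) ^ d := h3.trans h4
          _ = (5 * f) ^ d * 1 := by ring
          _ ≤ (5 * f) ^ d * (5 * f) ^ d := mul_le_mul_of_nonneg_left h5 (by positivity)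
          _ = ((5 * f) ^ d) ^ 2 := by ring
      refine h6.trans ?_
      rw [mul_pow]
      exact hE1n
    calc Real.sqrt (opn ω (cub d D0)).card * lam (opn ω (cub d D0)) ^ m
        ≤ Real.exp (β / (8 * K) * f) * (x0 ^ m * Real.exp (-(β * s * m))) :=
          mul_le_mul h2 h1 (pow_nonneg hl0 m) (Real.exp_pos _).le
      _ = x0 ^ m * Real.exp (β / (8 * K) * f + -(β * s * m)) := by rw [Real.exp_add]; ring
      _ ≤ x0 ^ m * Real.exp (-(β / (8 * K) * f)) := by
          apply mul_le_mul_of_nonneg_left _ (by positivity)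
          apply Real.exp_le_exp.mpr
          have h7 : β * (f / (4 * K)) ≤ β * (s * m) := mul_le_mul_of_nonneg_left hms2 hβ0.le
          have h8 : β * (f / (4 * K)) = 2 * (β / (8 * K) * f) := by
            field_simp
            ring
          linarith
  -- the other terms
  have hother : ∑ j ∈ (Finset.range (n + 2)).filter (fun j => 2 ^ j * D0 ≤ 2 * n),
      Real.exp (-c1 * (2 ^ j * D0)) * lam (opn ω (cub d (2 * (2 ^ j * D0)))) ^ m ≤
      x0 ^ m * Real.exp (-(c1 * sc / 4 * f)) := by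
    have hterm : ∀ j ∈ (Finset.range (n + 2)).filter (fun j => 2 ^ j * D0 ≤ 2 * n),
        Real.exp (-c1 * (2 ^ j * D0)) * lam (opn ω (cub d (2 * (2 ^ j * D0)))) ^ m ≤
        x0 ^ m * Real.exp (-(c1 * sc / 2 * f)) := by
      intro j hj
      rw [Finset.mem_filter] at hj
      have hjD : (D0 : ℝ) ≤ 2 ^ j * D0 := by
        have : (1 : ℝ) ≤ 2 ^ j := one_le_pow₀ (by norm_num)
        exact le_mul_of_one_le_left hD0pos.le this
      have hu := hUB (2 * (2 ^ j * D0)) (by omega)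
      have e : ((2 * (2 ^ j * D0) : ℕ) : ℝ) = 2 * ((2 : ℝ) ^ j * D0) := by push_cast; ring
      rw [e] at hu
      have h1 := YQ2_T (L := lam (opn ω (cub d (2 * (2 ^ j * D0))))) (D := (2 : ℝ) ^ j * D0) (C2 := C2) (K := K) (sc := sc)
        m (h_VAR d ℤ hd1 _).2.1 hx12 hJ hf0 hs0 hc1 (by linarith) hC2J hKpos hKC hsc0 hsc1 (hD0ge.trans hjD) hms hu
      refine h1.trans ?_
      apply mul_le_mul_of_nonneg_left _ (by positivity)
      apply Real.exp_le_exp.mpr
      have h2 : c1 * (sc * f) ≤ c1 * ((2 : ℝ) ^ j * D0) := mul_le_mul_of_nonneg_left (hD0ge.trans hjD) hc1.le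
      linarith
    refine (Finset.sum_le_sum hterm).trans ?_
    rw [Finset.sum_const, nsmul_eq_mul]
    have hcard : ((((Finset.range (n + 2)).filter (fun j => 2 ^ j * D0 ≤ 2 * n)).card : ℕ) : ℝ) ≤ Real.exp (c1 * sc / 4 * f) := by
      have h1 : ((((Finset.range (n + 2)).filter (fun j => 2 ^ j * D0 ≤ 2 * n)).card : ℕ) : ℝ) ≤ ((n + 2 : ℕ) : ℝ) := by
        have := Finset.card_filter_le (Finset.range (n + 2)) (fun j => 2 ^ j * D0 ≤ 2 * n)
        rw [Finset.card_range] at this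
        exact_mod_cast this
      have h2 : ((n + 2 : ℕ) : ℝ) ≤ 3 * f ^ 2 := by
        push_cast
        have h3 : (n : ℝ) = Real.sqrt n ^ 2 := (Real.sq_sqrt (by positivity)).symm
        have h4 : Real.sqrt n ^ 2 ≤ f ^ 2 := pow_le_pow_left₀ (Real.sqrt_nonneg _) hsqn 2
        have h5 : 1 ≤ f ^ 2 := one_le_pow₀ hf1
        linarith
      exact h1.trans (h2.trans hE2n)
    calc ((((Finset.range (n + 2)).filter (fun j => 2 ^ j * D0 ≤ 2 * n)).card : ℕ) : ℝ) * (x0 ^ m * Real.exp (-(c1 * sc / 2 * f)))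
        ≤ Real.exp (c1 * sc / 4 * f) * (x0 ^ m * Real.exp (-(c1 * sc / 2 * f))) :=
          mul_le_mul_of_nonneg_right hcard (by positivity)
      _ = x0 ^ m * (Real.exp (c1 * sc / 4 * f) * Real.exp (-(c1 * sc / 2 * f))) := by ring
      _ = x0 ^ m * Real.exp (-(c1 * sc / 4 * f)) := by
          rw [← Real.exp_add]
          congr 2
          ring
  -- conclusion
  set g := min (β / 8) (C2 * c1 / 8) / (K : ℝ) with hg
  have hg1 : g * f ≤ β / (8 * K) * f := by
    apply mul_le_mul_of_nonneg_right _ hf0.le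
    rw [hg]
    calc min (β / 8) (C2 * c1 / 8) / (K : ℝ) ≤ (β / 8) / K :=
          div_le_div_of_nonneg_right (min_le_left _ _) hKpos.le
      _ = β / (8 * K) := by rw [div_div]
  have hg2 : g * f ≤ c1 * sc / 4 * f := by
    apply mul_le_mul_of_nonneg_right _ hf0.le
    rw [hg]
    calc min (β / 8) (C2 * c1 / 8) / (K : ℝ) ≤ (C2 * c1 / 8) / K :=
          div_le_div_of_nonneg_right (min_le_right _ _) hKpos.le
      _ ≤ c1 * sc / 4 := by
          rw [div_le_iff₀ hKpos]
          have h1 : C2 * c1 ≤ (K * sc) * c1 := mul_le_mul_of_nonneg_right hKC hc1.le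
          have h2 : 0 ≤ (K * sc) * c1 := by positivity
          linarith
  have hx0p : 0 ≤ x0 ^ m := by positivity
  calc wk y m (alv ω m) ≤ _ := hDS
    _ ≤ x0 ^ m * Real.exp (-(β / (8 * K) * f)) + x0 ^ m * Real.exp (-(c1 * sc / 4 * f)) := add_le_add hfirst hother
    _ ≤ x0 ^ m * Real.exp (-(g * f)) + x0 ^ m * Real.exp (-(g * f)) := by
        apply add_le_add
        · exact mul_le_mul_of_nonneg_left (Real.exp_le_exp.mpr (by linarith)) hx0p
        · exact mul_le_mul_of_nonneg_left (Real.exp_le_exp.mpr (by linarith)) hx0p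
    _ = 2 * x0 ^ m * Real.exp (-g * f) := by
        rw [neg_mul]
        ring

end

end Pool.Agent.LBL
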