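import Pool.Agent.LBL.Wlk1
import Pool.Agent.LBL.Targets1

set_option autoImplicit false

/-!
# LBL, T_YRD: Poincare inequality in blocks with zeros
-/

open Finset
open scoped Classical

namespace Pool.Agent.LBL

noncomputable section

/-- membership in a block -/
theorem YRD_mem_box {d l : ℕ} (hl : 1 ≤ l) (b x : Fin d → ℤ) :
    x ∈ boxF (fun i => (l : ℤ) * b i) l ↔ blk l x = b := by
  have hl' : (0 : ℤ) < l := by exact_mod_cast hl
  unfold boxF blk
  rw [Fintype.mem_piFinset, funext_iff]
  refine forall_congr' fun i => ?_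
  rw [Finset.mem_Ico]
  constructor
  · rintro ⟨h1, h2⟩
    apply le_antisymm
    · have : x i / (l : ℤ) < b i + 1 := by
        rw [Int.ediv_lt_iff_lt_mul hl']
        nlinarith
      omega
    · rw [Int.le_ediv_iff_mul_le hl']
      nlinarith
  · intro h
    have h1 := Int.mul_ediv_add_emod (x i) l
    have h2 := Int.emod_nonneg (x i) hl'.ne'
    have h3 := Int.emod_lt_of_pos (x i) hl'
    rw [h] at h1
    constructor <;> linarith

/-- number of points of a block -/
theorem YRD_card {d l : ℕ} (hl : 1 ≤ l) (b : Fin d → ℤ) (V : Finset (Fin d → ℤ)) :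
    (V.filter fun v => blk l v = b).card ≤ l ^ d := by
  have h1 : (V.filter fun v => blk l v = b) ⊆ boxF (fun i => (l : ℤ) * b i) l := by
    intro v hv
    rw [Finset.mem_filter] at hv
    exact (YRD_mem_box hl b v).2 hv.2
  refine (Finset.card_le_card h1).trans ?_
  unfold boxF
  rw [Fintype.card_piFinset]
  simp

/-- the intermediate coordinate stays in the block -/
theorem YRD_mid {l : ℕ} (hl : 1 ≤ l) {a b c t : ℤ} (h1 : a ≤ t) (h2 : t ≤ b) (ha : a / (l : ℤ) = c)
    (hb : b / (l : ℤ) = c) : t / (l : ℤ) = c := by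
  have hl' : (0 : ℤ) < l := by exact_mod_cast hl
  have h3 := Int.ediv_le_ediv hl' h1
  have h4 := Int.ediv_le_ediv hl' h2
  omega

/-- two points of a block are joined by a path inside the block -/
theorem YRD_path {d l : ℕ} (hl : 1 ≤ l) (f : (Fin d → ℤ) → ℝ) (b : Fin d → ℤ) (M : ℝ)
    (hM : ∀ (x : Fin d → ℤ) (i : Fin d), blk l x = b → |f (x + ev i) - f x| ≤ M) :
    ∀ (n : ℕ) (x y : Fin d → ℤ), blk l x = b → blk l y = b → ∑ i, (x i - y i).natAbs = n →
      |f x - f y| ≤ n * M := by
  intro n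
  induction n with
  | zero =>
    intro x y _ _ h
    have : x = y := by
      funext i
      have h1 := (Finset.sum_eq_zero_iff.1 h) i (Finset.mem_univ i)
      omega
    rw [this]; simp
  | succ n ih =>
    intro x y hx hy h
    obtain ⟨i, hi⟩ : ∃ i, x i ≠ y i := by
      by_contra hcon
      push Not at hcon
      have : ∑ i, (x i - y i).natAbs = 0 := by
        apply Finset.sum_eq_zero
        intro i _
        rw [hcon i]; simp
      omega
    rcases lt_or_gt_of_ne hi with hlt | hgt
    · have hx' : blk l (x + ev i) = b := by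
        funext j
        by_cases hj : j = i
        · subst hj
          refine YRD_mid hl (a := x j) (b := y j) ?_ ?_ (congrFun hx j) (congrFun hy j)
          · simp [ev]
          · simp [ev]; omega
        · have : (x + ev i : Fin d → ℤ) j = x j := by simp [ev, hj]
          have h2 := congrFun hx j
          unfold blk at h2 ⊢
          rw [this, h2]
      have hs : ∑ j, ((x + ev i : Fin d → ℤ) j - y j).natAbs = n := by
        have h1 : ∑ j, (x j - y j).natAbs = ∑ j, (((x + ev i : Fin d → ℤ) j - y j).natAbs + if j = i then 1 else 0) := by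
          apply Finset.sum_congr rfl
          intro j _
          by_cases hj : j = i
          · subst hj
            simp [ev]; omega
          · simp [ev, hj]
        rw [Finset.sum_add_distrib, Finset.sum_ite_eq' Finset.univ i, if_pos (Finset.mem_univ i)] at h1
        omega
      have h1 := ih (x + ev i) y hx' hy hs
      have h2 := hM x i hx
      have h3 : |f x - f y| ≤ |f (x + ev i) - f x| + |f (x + ev i) - f y| := by
        rw [abs_sub_comm (f (x + ev i)) (f x)]
        exact abs_sub_le _ _ _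
      push_cast
      linarith
    · have hx' : blk l (x - ev i) = b := by
        funext j
        by_cases hj : j = i
        · subst hj
          refine YRD_mid hl (a := y j) (b := x j) ?_ ?_ (congrFun hy j) (congrFun hx j)
          · simp [ev]; omega
          · simp [ev]
        · have : (x - ev i : Fin d → ℤ) j = x j := by simp [ev, hj]
          have h2 := congrFun hx j
          unfold blk at h2 ⊢
          rw [this, h2]
      have hs : ∑ j, ((x - ev i : Fin d → ℤ) j - y j).natAbs = n := by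
        have h1 : ∑ j, (x j - y j).natAbs = ∑ j, (((x - ev i : Fin d → ℤ) j - y j).natAbs + if j = i then 1 else 0) := by
          apply Finset.sum_congr rfl
          intro j _
          by_cases hj : j = i
          · subst hj
            simp [ev]; omega
          · simp [ev, hj]
        rw [Finset.sum_add_distrib, Finset.sum_ite_eq' Finset.univ i, if_pos (Finset.mem_univ i)] at h1
        omega
      have h1 := ih (x - ev i) y hx' hy hs
      have h2 := hM (x - ev i) i hx'
      rw [sub_add_cancel] at h2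
      have h3 : |f x - f y| ≤ |f x - f (x - ev i)| + |f (x - ev i) - f y| := abs_sub_le _ _ _
      push_cast
      linarith

/-- distance inside a block -/
theorem YRD_dist {d l : ℕ} (hl : 1 ≤ l) (x y : Fin d → ℤ) (h : blk l x = blk l y) :
    ∑ i, (x i - y i).natAbs ≤ d * l := by
  have hl' : (0 : ℤ) < l := by exact_mod_cast hl
  have : ∀ i ∈ (Finset.univ : Finset (Fin d)), (x i - y i).natAbs ≤ l := by
    intro i _
    have h0 : x i / (l : ℤ) = y i / (l : ℤ) := congrFun h i
    have h1 := Int.mul_ediv_add_emod (x i) l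
    have h2 := Int.emod_nonneg (x i) hl'.ne'
    have h3 := Int.emod_lt_of_pos (x i) hl'
    have h4 := Int.mul_ediv_add_emod (y i) l
    have h5 := Int.emod_nonneg (y i) hl'.ne'
    have h6 := Int.emod_lt_of_pos (y i) hl'
    rw [h0] at h1
    have h7 : x i - y i ≤ l := by linarith
    have h8 : -(l : ℤ) ≤ x i - y i := by linarith
    omega
  have h2 := Finset.sum_le_card_nsmul _ _ _ this
  simpa using h2

/-- the edges starting in a block -/
def YRD_E {d : ℕ} (l : ℕ) (b : Fin d → ℤ) : Finset ((Fin d → ℤ) × Fin d) :=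
  (boxF (fun i => (l : ℤ) * b i) l) ×ˢ (Finset.univ : Finset (Fin d))

theorem YRD_mem_E {d l : ℕ} (hl : 1 ≤ l) (b : Fin d → ℤ) (e : (Fin d → ℤ) × Fin d) :
    e ∈ YRD_E l b ↔ blk l e.1 = b := by
  unfold YRD_E
  rw [Finset.mem_product, YRD_mem_box hl]
  simp

/-- the bound at one point -/
theorem YRD_one {d l : ℕ} (hl : 1 ≤ l) (f : (Fin d → ℤ) → ℝ) (v y : Fin d → ℤ) (hy : blk l y = blk l v)
    (hf : f y = 0) :
    f v ^ 2 ≤ ((d : ℝ) * l) ^ 2 * ∑ e ∈ YRD_E l (blk l v), (f (e.1 + ev e.2) - f e.1) ^ 2 := by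
  set S : ℝ := ∑ e ∈ YRD_E l (blk l v), (f (e.1 + ev e.2) - f e.1) ^ 2 with hS
  have hS0 : 0 ≤ S := Finset.sum_nonneg fun e _ => sq_nonneg _
  have hM : ∀ (x : Fin d → ℤ) (i : Fin d), blk l x = blk l v → |f (x + ev i) - f x| ≤ Real.sqrt S := by
    intro x i hx
    apply Real.abs_le_sqrt
    rw [hS]
    exact Finset.single_le_sum (f := fun e : (Fin d → ℤ) × Fin d => (f (e.1 + ev e.2) - f e.1) ^ 2)
      (fun e _ => sq_nonneg _) ((YRD_mem_E hl (blk l v) (x, i)).2 hx)
  have h1 := YRD_path hl f (blk l v) (Real.sqrt S) hM _ v y rfl hy rfl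
  rw [hf, sub_zero] at h1
  have h2 : ((∑ i, (v i - y i).natAbs : ℕ) : ℝ) ≤ (d : ℝ) * l := by
    exact_mod_cast YRD_dist hl v y hy.symm
  have h3 : |f v| ≤ (d : ℝ) * l * Real.sqrt S := h1.trans (mul_le_mul_of_nonneg_right h2 (Real.sqrt_nonneg S))
  have h4 : |f v| ^ 2 ≤ ((d : ℝ) * l * Real.sqrt S) ^ 2 := pow_le_pow_left₀ (abs_nonneg _) h3 2
  rw [sq_abs, mul_pow, Real.sq_sqrt hS0] at h4
  exact h4

/-- T_YRD -/
theorem p_YRD (h_YEN : T_YEN) : T_YRD := by
  intro d l hd hl
  have hd' : (0 : ℝ) < d := by exact_mod_cast hd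
  have hl' : (0 : ℝ) < l := by exact_mod_cast hl
  refine ⟨((d : ℝ) * l) ^ 2 * ((l : ℝ) ^ d * (2 * d)), by positivity, ?_⟩
  intro O V f hV hf
  have hEN := (h_YEN d O f hd hf).1
  set W : Finset ((Fin d → ℤ) × Fin d) := V.biUnion fun v => YRD_E l (blk l v) with hW
  set g : (Fin d → ℤ) × Fin d → ℝ := fun e => (f (e.1 + ev e.2) - f e.1) ^ 2 with hg
  have hg0 : ∀ e, 0 ≤ g e := fun e => sq_nonneg _
  have h1 : ∀ v ∈ V, f v ^ 2 ≤ ((d : ℝ) * l) ^ 2 * ∑ e ∈ W, if blk l e.1 = blk l v then g e else 0 := by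
    intro v hv
    obtain ⟨y, hy1, hy2⟩ := hV v hv
    refine (YRD_one hl f v y hy1 (hf y hy2)).trans ?_
    apply mul_le_mul_of_nonneg_left _ (by positivity)
    rw [← Finset.sum_filter]
    apply Finset.sum_le_sum_of_subset_of_nonneg
    · intro e he
      rw [Finset.mem_filter]
      exact ⟨Finset.mem_biUnion.2 ⟨v, hv, he⟩, (YRD_mem_E hl _ e).1 he⟩
    · intro e _ _
      exact hg0 e
  calc ∑ v ∈ V, f v ^ 2 ≤ ∑ v ∈ V, ((d : ℝ) * l) ^ 2 * ∑ e ∈ W, (if blk l e.1 = blk l v then g e else 0) :=
        Finset.sum_le_sum h1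
    _ = ((d : ℝ) * l) ^ 2 * ∑ e ∈ W, ∑ v ∈ V, (if blk l e.1 = blk l v then g e else 0) := by
        rw [← Finset.mul_sum, Finset.sum_comm]
    _ ≤ ((d : ℝ) * l) ^ 2 * ∑ e ∈ W, (l : ℝ) ^ d * g e := by
        apply mul_le_mul_of_nonneg_left _ (by positivity)
        apply Finset.sum_le_sum
        intro e _
        rw [← Finset.sum_filter, Finset.sum_const, nsmul_eq_mul]
        apply mul_le_mul_of_nonneg_right _ (hg0 e)
        have h2 := YRD_card hl (blk l e.1) V
        have h3 : (V.filter fun v => blk l e.1 = blk l v) = V.filter fun v => blk l v = blk l e.1 := by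
          apply Finset.filter_congr
          intro v _
          exact eq_comm
        rw [h3]
        exact_mod_cast h2
    _ = ((d : ℝ) * l) ^ 2 * ((l : ℝ) ^ d * ∑ e ∈ W, g e) := by rw [← Finset.mul_sum]
    _ ≤ ((d : ℝ) * l) ^ 2 * ((l : ℝ) ^ d * (2 * d * (∑ x ∈ O, f x ^ 2 - ∑ x ∈ O, f x * P0 f x))) := by
        apply mul_le_mul_of_nonneg_left _ (by positivity)
        apply mul_le_mul_of_nonneg_left _ (by positivity)
        exact hEN W
    _ = ((d : ℝ) * l) ^ 2 * ((l : ℝ) ^ d * (2 * d)) * (∑ x ∈ O, f x ^ 2 - ∑ x ∈ O, f x * P0 f x) := by ring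

end

end Pool.Agent.LBL
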