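import Pool.Agent.LBL.Wlk2

set_option autoImplicit false

open Finset MeasureTheory Filter Topology
open scoped Classical

namespace Pool.Agent.LBL

lemma YRM_nrm_lt_mem {d M : ℕ} {x : Fin d → ℤ} (h : nrm x ≤ M) : x ∈ cub d M := by
  unfold cub
  rw [Fintype.mem_piFinset]
  intro i
  have h1 : (x i).natAbs ≤ nrm x := Finset.le_sup (f := fun i => (x i).natAbs) (Finset.mem_univ i)
  rw [Finset.mem_Icc]
  omega

lemma YRM_nrm_step {d : ℕ} {x y : Fin d → ℤ} (h : Nb x y) : nrm y ≤ nrm x + 1 := by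
  unfold nrm
  refine Finset.sup_le fun i _ => ?_
  have h1 : (x i).natAbs ≤ Finset.univ.sup fun i : Fin d => (x i).natAbs :=
    Finset.le_sup (f := fun i => (x i).natAbs) (Finset.mem_univ i)
  have h2 : |x i - y i| ≤ 1 := by
    unfold Nb at h
    rw [← h]
    exact Finset.single_le_sum (f := fun i => |x i - y i|) (fun j _ => abs_nonneg _) (Finset.mem_univ i)
  rw [abs_le] at h2
  omega

lemma YRM_nrm_zero {d : ℕ} : nrm (0 : Fin d → ℤ) = 0 := by
  unfold nrm
  refine Nat.le_zero.1 (Finset.sup_le fun i _ => ?_)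
  simp

/-- an open path from the origin to a far point gives the event -/
lemma YRM_of_path {d M k : ℕ} {ω : Env d} {y : Fin d → ℤ} (h : Pth ω k 0 y) (hy : M ≤ nrm y) : ω ∈ RM d M := by
  obtain ⟨u, h0, hk, ho, hn⟩ := h
  have hex : ∃ j, M ≤ nrm (u j) := ⟨k, by rw [hk]; exact hy⟩
  have hj := Nat.find_spec hex
  have hmin : ∀ i < Nat.find hex, ¬ M ≤ nrm (u i) := fun i hi => Nat.find_min hex hi
  have hle : Nat.find hex ≤ k := Nat.find_min' hex (by rw [hk]; exact hy)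
  refine ⟨Nat.find hex, u, h0, hj, ?_, fun j hj' => hn j (lt_of_lt_of_le hj' hle)⟩
  intro j hj'
  refine ⟨YRM_nrm_lt_mem ?_, ho j (le_trans hj' hle)⟩
  rcases Nat.lt_or_ge j (Nat.find hex) with h1 | h1
  · have := hmin j h1
    omega
  · have h2 : j = Nat.find hex := le_antisymm hj' h1
    rcases Nat.eq_zero_or_pos j with h3 | h3
    · rw [h3, h0, YRM_nrm_zero]
      exact Nat.zero_le _
    · obtain ⟨i, rfl⟩ : ∃ i, j = i + 1 := ⟨j - 1, by omega⟩
      have h4 := hmin i (by omega)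
      have h5 := YRM_nrm_step (hn i (by omega))
      omega

lemma YRM_anti {d : ℕ} : Antitone (RM d) := by
  intro M M' hM ω hω
  obtain ⟨k, u, h0, hk, ho, hn⟩ := hω
  exact YRM_of_path (k := k) (y := u k) ⟨u, h0, rfl, fun j hj => (ho j hj).2, hn⟩ (le_trans hM hk)

lemma YRM_sub {d : ℕ} (M : ℕ) : Inf d ⊆ RM d M := by
  intro ω hω
  have hfin : {y : Fin d → ℤ | nrm y < M}.Finite := by
    refine (cub d M).finite_toSet.subset fun y hy => ?_
    exact YRM_nrm_lt_mem (le_of_lt hy)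
  obtain ⟨y, ⟨k, hk⟩, hy⟩ := (hω.sdiff hfin).nonempty
  exact YRM_of_path hk (by simpa using hy)

lemma YRM_dep {d : ℕ} (M : ℕ) : DepOn (cub d M) (RM d M) := by
  intro ω ω' h hω
  obtain ⟨k, u, h0, hk, ho, hn⟩ := hω
  refine ⟨k, u, h0, hk, fun j hj => ⟨(ho j hj).1, ?_⟩, hn⟩
  rw [← h _ (ho j hj).1]
  exact (ho j hj).2

lemma YRM_inter {d : ℕ} : Inf d = ⋂ M, RM d M := by
  refine Set.Subset.antisymm (Set.subset_iInter fun M => YRM_sub M) ?_
  intro ω hω
  rw [Set.mem_iInter] at hω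
  show {y : Fin d → ℤ | ∃ k, Pth ω k 0 y}.Infinite
  intro hfin
  obtain ⟨B, hB⟩ : ∃ B : ℕ, ∀ y ∈ {y : Fin d → ℤ | ∃ k, Pth ω k 0 y}, nrm y ≤ B := by
    refine ⟨hfin.toFinset.sup nrm, fun y hy => ?_⟩
    exact Finset.le_sup (f := nrm) (hfin.mem_toFinset.2 hy)
  obtain ⟨k, u, h0, hk, ho, hn⟩ := hω (B + 1)
  have := hB (u k) ⟨k, u, h0, rfl, fun j hj => (ho j hj).2, hn⟩
  omega

theorem p_YRM (h_YMS : T_YMS) : T_YRM := by
  intro d p hd h0 h1
  have hprob := PP_prob d h0 h1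
  have hmR : ∀ M, MeasurableSet (RM d M) := fun M => (h_YMS d p h0 h1).1 _ _ (YRM_dep M)
  have hmI : MeasurableSet (Inf d) := by
    rw [YRM_inter]
    exact MeasurableSet.iInter hmR
  refine ⟨YRM_sub, YRM_dep, hmI, ?_⟩
  have hE : (⋂ M, (RM d M \ Inf d)) = ∅ := by
    refine Set.eq_empty_of_forall_notMem fun ω hω => ?_
    rw [Set.mem_iInter] at hω
    refine (hω 0).2 ?_
    rw [YRM_inter, Set.mem_iInter]
    exact fun M => (hω M).1
  have hT := tendsto_measure_iInter_atTop (μ := PP d p) (s := fun M => RM d M \ Inf d)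
    (fun M => ((hmR M).diff hmI).nullMeasurableSet)
    (fun M M' hM => Set.sdiff_subset_sdiff_left (YRM_anti hM)) ⟨0, measure_ne_top _ _⟩
  rw [hE, measure_empty] at hT
  have := (ENNReal.tendsto_toReal ENNReal.zero_ne_top).comp hT
  simpa [Measure.real, Function.comp_def] using this

end Pool.Agent.LBL
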