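import Pool.Agent.LBL.Wlk1
import Pool.Agent.LBL.Targets1

set_option autoImplicit false

/-!
# LBL-YSB: survival from a bulk point
-/

open Finset
open scoped Classical

namespace Pool.Agent.LBL

noncomputable section

namespace YSB_

variable {d L : ℕ} [NeZero L]

omit [NeZero L] in
theorem P0_mono {f g : Tor d L → ℝ} (h : ∀ x, f x ≤ g x) (x : Tor d L) : P0 f x ≤ P0 g x := by
  unfold P0
  exact div_le_div_of_nonneg_right
    (Finset.sum_le_sum fun i _ => add_le_add (h _) (h _)) (by positivity)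

omit [NeZero L] in
theorem P0_mul (s : ℝ) (f : Tor d L → ℝ) (x : Tor d L) : P0 (fun z => s * f z) x = s * P0 f x := by
  unfold P0
  rw [← mul_div_assoc, Finset.mul_sum]
  congr 1
  exact Finset.sum_congr rfl fun i _ => (mul_add _ _ _).symm

theorem srv_ge {O : Finset (Tor d L)} {φ : Tor d L → ℝ} (hT : Top O φ) {M : ℝ}
    (hM : ∀ x, φ x ≤ M) (t : ℕ) : ∀ x, lam O ^ t * φ x ≤ M * srv O t x := by
  induction t with
  | zero =>
    intro x
    have e : srv O 0 x = if x ∈ O then 1 else 0 := rfl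
    rw [e, pow_zero, one_mul]
    split_ifs with h
    · rw [mul_one]
      exact hM x
    · rw [hT.sp x h, mul_zero]
  | succ t ih =>
    intro x
    have e : srv O (t + 1) x = if x ∈ O then P0 (srv O t) x else 0 := by
      unfold srv
      rw [Function.iterate_succ_apply']
      rfl
    rw [e]
    split_ifs with h
    · have h1 := P0_mono ih x
      rw [P0_mul, P0_mul, hT.eq x h] at h1
      calc lam O ^ (t + 1) * φ x = lam O ^ t * (lam O * φ x) := by ring
        _ ≤ M * P0 (srv O t) x := h1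
    · rw [hT.sp x h, mul_zero, mul_zero]

theorem exp_le {u : ℝ} (h0 : 0 ≤ u) (h1 : u ≤ 1 / 2) : Real.exp (-(2 * u)) ≤ 1 - u := by
  have h2 := Real.add_one_le_exp (2 * u)
  have h3 : 0 < Real.exp (2 * u) := Real.exp_pos _
  rw [Real.exp_neg, inv_le_comm₀ h3 (by linarith), inv_le_iff_one_le_mul₀ (by linarith)]
  nlinarith

end YSB_

theorem p_YSB : T_YSB := by
  intro d C c _ hC hc
  refine ⟨c / C * Real.exp (-(2 * C)), 2 * C + 2, by positivity, by linarith, ?_⟩
  intro r L _ hr O φ hEF x hx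
  have hr0 : 0 < r := by linarith
  have hr2 : 0 < r ^ 2 := by positivity
  have hhh : 0 < hh d r := Real.rpow_pos_of_pos hr0 _
  have hu1 : C / r ^ 2 ≤ 1 / 2 := by
    rw [div_le_iff₀ hr2]
    nlinarith
  have hlam : Real.exp (-(2 * (C / r ^ 2))) ≤ lam O := by
    refine (YSB_.exp_le (by positivity) hu1).trans ?_
    have h1 := hEF.mu
    have h2 : 1 - lam O ≤ C / r ^ 2 := by
      rw [le_div_iff₀ hr2]
      exact h1
    linarith
  have ht : ((⌊r ^ 2⌋₊ : ℕ) : ℝ) ≤ r ^ 2 := Nat.floor_le hr2.le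
  have hpow : Real.exp (-(2 * C)) ≤ lam O ^ ⌊r ^ 2⌋₊ := by
    refine le_trans ?_ (pow_le_pow_left₀ (Real.exp_pos _).le hlam _)
    rw [← Real.exp_nat_mul]
    apply Real.exp_le_exp.2
    have h1 : ((⌊r ^ 2⌋₊ : ℕ) : ℝ) * (C / r ^ 2) ≤ C := by
      calc ((⌊r ^ 2⌋₊ : ℕ) : ℝ) * (C / r ^ 2) ≤ r ^ 2 * (C / r ^ 2) :=
            mul_le_mul_of_nonneg_right ht (by positivity)
        _ = C := by field_simp
    linarith
  have h1 := YSB_.srv_ge hEF.top hEF.sup ⌊r ^ 2⌋₊ x
  have h2 : Real.exp (-(2 * C)) * (c * hh d r) ≤ C * hh d r * srv O ⌊r ^ 2⌋₊ x := by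
    refine le_trans ?_ h1
    exact mul_le_mul hpow hx (by positivity) ((Real.exp_pos _).le.trans hpow)
  have h3 : C * hh d r * (c / C * Real.exp (-(2 * C))) ≤ C * hh d r * srv O ⌊r ^ 2⌋₊ x := by
    refine le_trans (le_of_eq ?_) h2
    field_simp
  exact le_of_mul_le_mul_left h3 (by positivity)

end

end Pool.Agent.LBL
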