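import Pool.Agent.LBL.Wlk1

set_option autoImplicit false

/-!
# LBL-YSC: scales
-/

open Finset Filter Topology
open scoped Classical

namespace Pool.Agent.LBL

noncomputable section

namespace YSC_

theorem rr_tendsto (d : ℕ) (hd : 2 ≤ d) : Tendsto (fun n : ℕ => rr d n) atTop atTop := by
  unfold rr
  have hd0 : (0 : ℝ) < 1 / d := by
    have : (0 : ℝ) < d := by exact_mod_cast (by omega : 0 < d)
    positivity
  exact (tendsto_rpow_atTop hd0).comp (Real.tendsto_log_atTop.comp tendsto_natCast_atTop_atTop)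

theorem ss_eq (d : ℕ) (r : ℝ) (hr : 0 < r) : ss d r = (r ^ (d + 2))⁻¹ := by
  unfold ss
  have h : -(d : ℝ) - 2 = -((d + 2 : ℕ) : ℝ) := by
    push_cast
    ring
  rw [h, Real.rpow_neg hr.le, Real.rpow_natCast]

theorem log_pos {n : ℕ} (hn : 2 ≤ n) : 0 < Real.log n := by
  apply Real.log_pos
  exact_mod_cast (by omega : 1 < n)

theorem rr_pos (d : ℕ) {n : ℕ} (hn : 2 ≤ n) : 0 < rr d n := Real.rpow_pos_of_pos (log_pos hn) _

theorem rr_pow (d : ℕ) (hd : 2 ≤ d) {n : ℕ} (hn : 2 ≤ n) : rr d n ^ d = Real.log n := by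
  unfold rr
  have hd0 : (d : ℝ) ≠ 0 := by exact_mod_cast (by omega : d ≠ 0)
  rw [← Real.rpow_natCast, ← Real.rpow_mul (log_pos hn).le, one_div, inv_mul_cancel₀ hd0, Real.rpow_one]

theorem fn_eq (d : ℕ) (hd : 2 ≤ d) {n : ℕ} (hn : 2 ≤ n) : fn d n = n * ss d (rr d n) := by
  unfold fn ss rr
  have hd0 : (d : ℝ) ≠ 0 := by exact_mod_cast (by omega : d ≠ 0)
  rw [← Real.rpow_mul (log_pos hn).le]
  congr 2
  field_simp

theorem ll_lo (d n : ℕ) : rr d n ^ (d + 4) ≤ (ll d n : ℝ) := by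
  unfold ll
  push_cast
  have h := Nat.le_ceil (rr d n ^ (d + 4))
  linarith

theorem ll_up (d n : ℕ) (h1 : 1 ≤ rr d n) : (ll d n : ℝ) ≤ 3 * rr d n ^ (d + 4) := by
  unfold ll
  push_cast
  have h2 : (1 : ℝ) ≤ rr d n ^ (d + 4) := one_le_pow₀ h1
  have h := Nat.ceil_lt_add_one (a := rr d n ^ (d + 4)) (by linarith)
  linarith

theorem rr_le_log (d : ℕ) (hd : 2 ≤ d) {n : ℕ} (h : 1 ≤ Real.log n) : rr d n ≤ Real.log n := by
  unfold rr
  have hd1 : (1 : ℝ) ≤ d := by exact_mod_cast (by omega : 1 ≤ d)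
  have h2 : (1 : ℝ) / d ≤ 1 := by
    rw [div_le_one (by linarith)]
    exact hd1
  calc Real.log n ^ ((1 : ℝ) / d) ≤ Real.log n ^ (1 : ℝ) := Real.rpow_le_rpow_of_exponent_le h h2
    _ = Real.log n := Real.rpow_one _

/-- powers of `rr` are small with respect to the square root -/
theorem pow_le_sqrt (d : ℕ) (hd : 2 ≤ d) (C : ℝ) (m : ℕ) :
    ∀ᶠ n : ℕ in atTop, C * rr d n ^ m ≤ Real.sqrt n := by
  have h1 : ∀ᶠ x : ℝ in atTop, (C ^ 2 + 1) * Real.log x ^ (2 * m) ≤ x := by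
    have h2 := (Real.isLittleO_pow_log_id_atTop (n := 2 * m)).bound (c := (C ^ 2 + 1)⁻¹) (by positivity)
    filter_upwards [h2, eventually_ge_atTop (1 : ℝ)] with x hx hx1
    have h3 : 0 ≤ Real.log x := Real.log_nonneg hx1
    rw [Real.norm_of_nonneg (pow_nonneg h3 _)] at hx
    simp only [id] at hx
    rw [Real.norm_of_nonneg (by linarith : (0 : ℝ) ≤ x)] at hx
    have h4 : (0 : ℝ) < C ^ 2 + 1 := by positivity
    calc (C ^ 2 + 1) * Real.log x ^ (2 * m) ≤ (C ^ 2 + 1) * ((C ^ 2 + 1)⁻¹ * x) := by gcongr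
      _ = x := by field_simp
  have h5 := tendsto_natCast_atTop_atTop.eventually h1
  have h6 : ∀ᶠ n : ℕ in atTop, 1 ≤ Real.log n :=
    (Real.tendsto_log_atTop.comp tendsto_natCast_atTop_atTop).eventually_ge_atTop 1
  filter_upwards [h5, h6] with n hn hn1
  apply Real.le_sqrt_of_sq_le
  have h7 : 0 ≤ rr d n := Real.rpow_nonneg (by linarith) _
  have h8 : rr d n ^ (2 * m) ≤ Real.log n ^ (2 * m) := pow_le_pow_left₀ h7 (rr_le_log d hd hn1) _
  have h9 : 0 ≤ rr d n ^ (2 * m) := pow_nonneg h7 _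
  calc (C * rr d n ^ m) ^ 2 = C ^ 2 * rr d n ^ (2 * m) := by
        rw [mul_pow, ← pow_mul, mul_comm m 2]
    _ ≤ (C ^ 2 + 1) * Real.log n ^ (2 * m) := by
        have h10 : (0 : ℝ) ≤ C ^ 2 + 1 := by positivity
        have h11 : C ^ 2 * rr d n ^ (2 * m) ≤ (C ^ 2 + 1) * rr d n ^ (2 * m) := by
          apply mul_le_mul_of_nonneg_right _ h9
          linarith
        exact h11.trans (mul_le_mul_of_nonneg_left h8 h10)
    _ ≤ n := hn

end YSC_

open YSC_ in
theorem p_YSC : T_YSC := by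
  intro d hd
  have hT := rr_tendsto d hd
  refine ⟨fun M => hT.eventually_ge_atTop M, ?_, ?_, ?_, ?_⟩
  · filter_upwards [hT.eventually_ge_atTop 5] with n hn
    have h1 : 1 ≤ rr d n := by linarith
    have h0 : 0 ≤ rr d n ^ (d + 4) := pow_nonneg (by linarith) _
    have hlo := ll_lo d n
    have hup := ll_up d n h1
    have h6 : rr d n ^ (d + 6) = rr d n ^ (d + 4) * rr d n ^ 2 := by ring
    have h5 : rr d n ^ (d + 5) = rr d n ^ (d + 4) * rr d n := by ring
    have hsq : 25 ≤ rr d n ^ 2 := by nlinarith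
    have h24 : 24 * rr d n ^ (d + 4) ≤ rr d n ^ (d + 6) := by
      rw [h6]
      nlinarith
    refine ⟨⟨?_, ?_⟩, ⟨?_, ?_⟩, ?_⟩
    · push_cast
      linarith
    · push_cast
      linarith
    · push_cast
      linarith
    · push_cast
      linarith
    · rw [h5]
      nlinarith
  · intro n hn
    refine ⟨fn_eq d hd hn, rr_pow d hd hn, rr_pos d hn, ?_⟩
    unfold fn
    have h1 : (0 : ℝ) < n := by exact_mod_cast (by omega : 0 < n)
    exact mul_pos h1 (Real.rpow_pos_of_pos (log_pos hn) _)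
  · intro C
    filter_upwards [hT.eventually_ge_atTop 1, hT.eventually_ge_atTop C] with n h1 hC
    have hr : 0 < rr d n := by linarith
    rw [ss_eq d _ hr]
    have hlo := ll_lo d n
    have hp : 0 < rr d n ^ (d + 4) := pow_pos hr _
    have hl : 0 < (ll d n : ℝ) := lt_of_lt_of_le hp hlo
    rw [div_le_iff₀ (by positivity), inv_mul_eq_div, le_div_iff₀ (pow_pos hr _)]
    have h2 : (rr d n ^ (d + 4)) ^ 2 ≤ (ll d n : ℝ) ^ 2 := pow_le_pow_left₀ hp.le hlo 2
    have h3 : rr d n * rr d n ^ (d + 2) ≤ (rr d n ^ (d + 4)) ^ 2 := by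
      rw [← pow_succ', ← pow_mul]
      exact pow_le_pow_right₀ h1 (by omega)
    have h4 : C * rr d n ^ (d + 2) ≤ rr d n * rr d n ^ (d + 2) :=
      mul_le_mul_of_nonneg_right hC (pow_nonneg hr.le _)
    linarith
  · intro C K
    filter_upwards [pow_le_sqrt d hd C (K + (d + 2)), hT.eventually_ge_atTop 1, hT.eventually_ge_atTop C,
      eventually_ge_atTop 2] with n hn h1 hC h2
    have hr : 0 < rr d n := by linarith
    rw [fn_eq d hd h2, ss_eq d _ hr]
    have hp : 0 < rr d n ^ (d + 2) := pow_pos hr _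
    have hn0 : (0 : ℝ) ≤ n := Nat.cast_nonneg n
    have hs : 0 ≤ Real.sqrt n := Real.sqrt_nonneg _
    have hss : Real.sqrt n * Real.sqrt n = n := Real.mul_self_sqrt hn0
    constructor
    · rw [← div_eq_mul_inv, le_div_iff₀ hp]
      calc C * Real.sqrt n * rr d n ^ K * rr d n ^ (d + 2)
          = Real.sqrt n * (C * rr d n ^ (K + (d + 2))) := by
            rw [pow_add]
            ring
        _ ≤ Real.sqrt n * Real.sqrt n := mul_le_mul_of_nonneg_left hn hs
        _ = n := hss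
    · rw [mul_assoc]
      have h3 : (rr d n ^ (d + 2))⁻¹ * C ≤ 1 := by
        rw [inv_mul_eq_div, div_le_one hp]
        refine hC.trans ?_
        calc rr d n = rr d n ^ 1 := (pow_one _).symm
          _ ≤ rr d n ^ (d + 2) := pow_le_pow_right₀ h1 (by omega)
      calc (n : ℝ) * ((rr d n ^ (d + 2))⁻¹ * C) ≤ n * 1 := mul_le_mul_of_nonneg_left h3 hn0
        _ = n := mul_one _

end

end Pool.Agent.LBL
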