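import Pool.Agent.LBL.Wlk1
import Pool.Agent.LBL.Targets1

set_option autoImplicit false

open Finset MeasureTheory Filter Topology
open scoped Classical

namespace Pool.Agent.LBL

noncomputable section

namespace YSM_

theorem P0_mono {d : ℕ} {f g : (Fin d → ℤ) → ℝ} (h : ∀ x, f x ≤ g x) (x : Fin d → ℤ) : P0 f x ≤ P0 g x := by
  unfold P0
  apply div_le_div_of_nonneg_right _ (by positivity)
  apply Finset.sum_le_sum
  intro i _
  exact add_le_add (h _) (h _)

theorem P0_zero {d : ℕ} (x : Fin d → ℤ) : P0 (fun _ : Fin d → ℤ => (0 : ℝ)) x = 0 := by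
  simp [P0]

theorem P0_one {d : ℕ} (hd : 1 ≤ d) (x : Fin d → ℤ) : P0 (fun _ : Fin d → ℤ => (1 : ℝ)) x = 1 := by
  unfold P0
  have hd' : (d : ℝ) ≠ 0 := by
    have : (1 : ℝ) ≤ d := by exact_mod_cast hd
    linarith
  simp only [Finset.sum_const, Finset.card_univ, Fintype.card_fin, nsmul_eq_mul]
  field_simp
  norm_num

theorem all {d : ℕ} (hd : 1 ≤ d) (O O' : Finset (Fin d → ℤ)) (hO : O ⊆ O') (t : ℕ) :
    ∀ x, 0 ≤ sv O t x ∧ sv O t x ≤ sv O' t x ∧ sv O' t x ≤ 1 := by
  induction t with
  | zero =>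
    intro x
    simp only [sv, Function.iterate_zero, id_eq]
    by_cases h : x ∈ O
    · have h' := hO h
      simp [h, h']
    · by_cases h' : x ∈ O' <;> simp [h, h']
  | succ t ih =>
    intro x
    have e1 : sv O (t + 1) x = if x ∈ O then P0 (sv O t) x else 0 := by
      simp only [sv, Function.iterate_succ_apply']
      rfl
    have e2 : sv O' (t + 1) x = if x ∈ O' then P0 (sv O' t) x else 0 := by
      simp only [sv, Function.iterate_succ_apply']
      rfl
    have a0 : 0 ≤ P0 (sv O t) x := by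
      have := P0_mono (f := fun _ => (0 : ℝ)) (g := sv O t) (fun y => (ih y).1) x
      rwa [P0_zero] at this
    have a1 : P0 (sv O t) x ≤ P0 (sv O' t) x := P0_mono (fun y => (ih y).2.1) x
    have a2 : P0 (sv O' t) x ≤ 1 := by
      have := P0_mono (f := sv O' t) (g := fun _ => (1 : ℝ)) (fun y => (ih y).2.2) x
      rwa [P0_one hd] at this
    rw [e1, e2]
    by_cases h : x ∈ O
    · have h' := hO h
      simp only [h, h', if_true]
      exact ⟨a0, a1, a2⟩
    · by_cases h' : x ∈ O'
      · simp only [h, h', if_true, if_false]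
        exact ⟨le_refl _, a0.trans a1, a2⟩
      · simp only [h, h', if_false]
        norm_num

end YSM_

theorem p_YSM : T_YSM := by
  intro d O O' t x hd hO
  exact YSM_.all hd O O' hO t x

end

end Pool.Agent.LBL
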