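import Pool.Agent.LBL.Wlk2

set_option autoImplicit false

/-!
# LBL: lower bound of the survival probability (T_YSR), from T_YAC, T_YPL, T_YXS, T_YSC
-/

open Finset MeasureTheory Filter Topology
open scoped Classical

namespace Pool.Agent.LBL

noncomputable section

namespace YSR_

lemma pth_trans {d : ℕ} {ω : Env d} {k k1 : ℕ} {x y z : Fin d → ℤ} (h1 : Pth ω k x y)
    (h2 : Pth ω k1 y z) : Pth ω (k + k1) x z := by
  obtain ⟨u, hu0, huk, huo, hun⟩ := h1
  obtain ⟨v, hv0, hvk, hvo, hvn⟩ := h2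
  refine ⟨fun j => if j ≤ k then u j else v (j - k), ?_, ?_, ?_, ?_⟩
  · simp [hu0]
  · by_cases h : k1 = 0
    · subst h
      simp only [Nat.add_zero, le_refl, if_true]
      rw [huk, ← hv0, hvk]
    · have : ¬ (k + k1 ≤ k) := by omega
      simp only [this, if_false]
      rw [Nat.add_sub_cancel_left, hvk]
  · intro j hj
    by_cases h : j ≤ k
    · simp only [h, if_true]; exact huo j h
    · simp only [h, if_false]; exact hvo _ (by omega)
  · intro j hj
    by_cases h : j + 1 ≤ k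
    · have h' : j ≤ k := by omega
      simp only [h, h', if_true]
      exact hun j (by omega)
    · by_cases h' : j ≤ k
      · have hjk : j = k := by omega
        subst hjk
        simp only [le_refl, if_true, h, if_false]
        have e : j + 1 - j = 0 + 1 := by omega
        rw [e, huk, ← hv0]
        exact hvn 0 (by omega)
      · simp only [h', h, if_false]
        have e : j + 1 - k = (j - k) + 1 := by omega
        rw [e]
        exact hvn _ (by omega)

lemma con_pth {d : ℕ} {ω : Env d} {V : Finset (Fin d → ℤ)} (hC : Con V) (ho : ∀ v ∈ V, ω v = true)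
    {x z : Fin d → ℤ} (hx : x ∈ V) (hz : z ∈ V) : ∃ k1 : ℕ, k1 ≤ V.card ∧ Pth ω k1 x z := by
  obtain ⟨k, u, h0, hk, hle, hV, hN⟩ := hC x hx z hz
  exact ⟨k, hle, u, h0, hk, fun j hj => ho _ (hV j hj), hN⟩

lemma one_sub_ge {t : ℝ} (h0 : 0 ≤ t) (h1 : t ≤ 1 / 2) : Real.exp (-(2 * t)) ≤ 1 - t := by
  have h2 : 0 < 1 - t := by linarith
  rw [← Real.le_log_iff_exp_le h2]
  have h3 := Real.one_sub_inv_le_log_of_pos h2
  have h4 : -(2 * t) ≤ 1 - (1 - t)⁻¹ := by
    rw [show (1 - (1 - t)⁻¹) = -(t / (1 - t)) by field_simp; ring]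
    have : t / (1 - t) ≤ 2 * t := by
      rw [div_le_iff₀ h2]
      nlinarith
    linarith
  linarith

end YSR_

open YSR_ in
theorem p_YSR (hAC : T_YAC) (hPL : T_YPL) (hXS : T_YXS) (hSC : T_YSC) : T_YSR := by
  intro d p hd hp0 hp1 hL ε hε
  obtain ⟨K, hK, hev⟩ := hAC d p hd hp0 hp1 hL ε hε
  obtain ⟨a, A, C, ha, haA, hC, hxs⟩ := hXS d p hd hp0 hp1
  obtain ⟨s1, s2, s3, s4, s5⟩ := hSC d hd
  have hd2 : (2 : ℝ) ≤ d := by exact_mod_cast hd
  have h2d : (1 : ℝ) < 2 * d := by linarith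
  have hlog : 0 < Real.log (2 * d) := Real.log_pos h2d
  refine ⟨(K + 1) * Real.log (2 * d) + 4, by positivity, ?_⟩
  have hbig := s5 (5 ^ d) ((d + 5) * d)
  filter_upwards [hev, hxs, s1 4, s2, hbig, eventually_ge_atTop 2] with n h1 h2 h3 h4 h5 h6
  obtain ⟨hWin, hth1, hth2, hx12, hx1⟩ := h2
  obtain ⟨hRg1, hRg2, hll⟩ := h4
  obtain ⟨h51, h52⟩ := h5
  obtain ⟨hfn, hrr, hrr0, hfn0⟩ := s3 n h6
  have := PP_prob d hp0.le hp1.le
  refine le_trans (measureReal_mono ?_) h1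
  intro ω hω
  obtain ⟨hInf, hlt⟩ := hω
  refine ⟨hInf, ?_⟩
  rintro ⟨x, k, V, hk, hpth, hxV, hCon, hopen, hcard, hlam⟩
  obtain ⟨hP1, hP2⟩ := hPL d ω (by omega)
  obtain ⟨z, hzV, hz⟩ := hP2 V ⟨x, hxV⟩ hopen
  obtain ⟨k1, hk1, hpth1⟩ := con_pth hCon hopen hxV hzV
  have hw := hP1 (k + k1) n 0 z (pth_trans hpth hpth1)
  apply absurd hlt
  push Not
  set r := rr d n with hr
  set ℓ := ll d n with hℓ
  -- length
  have hℓ1 : (1 : ℝ) ≤ ℓ := by
    have : 1 ≤ ℓ := by rw [hℓ]; unfold ll; omega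
    exact_mod_cast this
  have hsqn : (1 : ℝ) ≤ Real.sqrt n := by
    rw [Real.one_le_sqrt]
    have : 1 ≤ n := by omega
    exact_mod_cast this
  have hlen : ((k + k1 : ℕ) : ℝ) ≤ (K + 1) * fn d n := by
    have e1 : (k1 : ℝ) ≤ (4 * (ℓ : ℝ) + 1) ^ d := by
      have : k1 ≤ (4 * ℓ + 1) ^ d := le_trans hk1 hcard
      exact_mod_cast this
    have e2 : (4 * (ℓ : ℝ) + 1) ^ d ≤ (5 * r ^ (d + 5)) ^ d := by
      apply pow_le_pow_left₀ (by positivity)
      linarith
    have e3 : (5 * r ^ (d + 5)) ^ d = 5 ^ d * r ^ ((d + 5) * d) := by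
      rw [mul_pow, ← pow_mul]
    have e4 : (5 : ℝ) ^ d * r ^ ((d + 5) * d) ≤ 5 ^ d * Real.sqrt n * r ^ ((d + 5) * d) := by
      have : 0 ≤ (5 : ℝ) ^ d * r ^ ((d + 5) * d) := by positivity
      nlinarith
    push_cast
    linarith
  -- eigenvalue
  have hs0 : 0 ≤ sn d n := by
    unfold sn ss
    exact Real.rpow_nonneg hrr0.le _
  have hs4 : sn d n ≤ 1 / 4 := by
    unfold sn ss
    have e1 : r ^ (-(d : ℝ) - 2) ≤ r ^ (-1 : ℝ) := by
      apply Real.rpow_le_rpow_of_exponent_le (by linarith)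
      linarith
    have e2 : r ^ (-1 : ℝ) = r⁻¹ := Real.rpow_neg_one r
    have e3 : r⁻¹ ≤ (4 : ℝ)⁻¹ := inv_anti₀ (by norm_num) h3
    rw [← hr]
    rw [e2] at e1
    norm_num at e3 ⊢
    linarith
  have hxpos : 0 < xs d p n := by linarith
  have hlamV : xs d p n * Real.exp (-(4 * sn d n)) ≤ lam V := by
    have e1 := one_sub_ge (t := 2 * sn d n) (by positivity) (by linarith)
    have e2 : xs d p n * Real.exp (-(4 * sn d n)) ≤ xs d p n * (1 - 2 * sn d n) := by
      apply mul_le_mul_of_nonneg_left _ hxpos.le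
      have : -(4 * sn d n) = -(2 * (2 * sn d n)) := by ring
      rw [this]
      exact e1
    nlinarith
  have hlamn : xs d p n ^ n * Real.exp (-(4 * fn d n)) ≤ lam V ^ n := by
    have e1 : (xs d p n * Real.exp (-(4 * sn d n))) ^ n ≤ lam V ^ n :=
      pow_le_pow_left₀ (by positivity) hlamV n
    have e2 : (xs d p n * Real.exp (-(4 * sn d n))) ^ n = xs d p n ^ n * Real.exp (-(4 * fn d n)) := by
      rw [mul_pow, ← Real.exp_nat_mul]
      congr 2
      rw [hfn]
      unfold sn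
      ring
    rw [← e2]
    exact e1
  have hpow : Real.exp (-((K + 1) * fn d n * Real.log (2 * d))) ≤ 1 / (2 * (d : ℝ)) ^ (k + k1) := by
    have e1 : (2 * (d : ℝ)) ^ (k + k1) = Real.exp (((k + k1 : ℕ) : ℝ) * Real.log (2 * d)) := by
      rw [Real.exp_nat_mul, Real.exp_log (by linarith)]
    rw [e1, one_div, ← Real.exp_neg]
    apply Real.exp_le_exp.mpr
    have := mul_le_mul_of_nonneg_right hlen hlog.le
    linarith
  calc xs d p n ^ n * Real.exp (-((K + 1) * Real.log (2 * d) + 4) * fn d n)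
      = (xs d p n ^ n * Real.exp (-(4 * fn d n))) * Real.exp (-((K + 1) * fn d n * Real.log (2 * d))) := by
        rw [mul_assoc, ← Real.exp_add]
        congr 2
        ring
    _ ≤ lam V ^ n * (1 / (2 * (d : ℝ)) ^ (k + k1)) :=
        mul_le_mul hlamn hpow (Real.exp_pos _).le (le_trans (by positivity) hlamn)
    _ ≤ wk z n (alv ω n) * (1 / (2 * (d : ℝ)) ^ (k + k1)) :=
        mul_le_mul_of_nonneg_right (hz n) (by positivity)
    _ = wk z n (alv ω n) / (2 * (d : ℝ)) ^ (k + k1) := by ring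
    _ ≤ wk 0 n (alv ω n) := hw

end

end Pool.Agent.LBL
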