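import Pool.Agent.LBL.Wlk1
import Pool.Agent.LBL.Targets1

set_option autoImplicit false

open Finset
open scoped Classical

namespace Pool.Agent.LBL

noncomputable section

theorem p_YST (h_YOP : T_YOP) (h_YRC : T_YRC) (h_VAR : T_VAR) : T_YST := by
  intro d n U x hd
  obtain ⟨hV1, hV2, hV3, hV4, hV5⟩ := h_VAR d ℤ hd U
  obtain ⟨h1, h2, h3, h4, h5, h6, h7, h8, h9⟩ := h_YRC d hd x n
  by_cases hx : x ∈ U
  · have h := h_YOP d n U (fun _ => 1) (lam U) x hd (fun _ => one_pos) hV2 hx (by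
      intro f hf
      have := hV1 f hf
      simpa using this)
    rw [h1]
    have e1 : (fun u : ℕ → Fin d → ℤ => if ∀ k ≤ n, u k ∈ U then (1 : ℝ) else 0) =
        fun u : ℕ → Fin d → ℤ => if ∀ k ≤ n, u k ∈ U then
          ∏ k ∈ Finset.range n, ((fun _ : Fin d → ℤ => (1 : ℝ)) (u k))⁻¹ else 0 := by
      funext u
      by_cases hu : ∀ k ≤ n, u k ∈ U
      · rw [if_pos hu, if_pos hu]
        simp
      · rw [if_neg hu, if_neg hu]
    have e2 : (∑ z ∈ U, (fun _ : Fin d → ℤ => (1 : ℝ)) z) = (U.card : ℝ) := by simp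
    rw [e2] at h
    have e3 : lam U ^ n * Real.sqrt (U.card : ℝ) / Real.sqrt ((fun _ : Fin d → ℤ => (1 : ℝ)) x) =
        Real.sqrt (U.card : ℝ) * lam U ^ n := by
      simp [mul_comm]
    rw [e3] at h
    refine le_trans (le_of_eq ?_) h
    congr 1
    funext u
    by_cases hu : ∀ k ≤ n, u k ∈ U
    · rw [if_pos hu, if_pos hu]
      simp
    · rw [if_neg hu, if_neg hu]
  · have h := h5 (fun u => ∀ k ≤ n, u k ∈ U) (fun _ => False) (by
      intro u hu _ hE
      have := hE 0 (Nat.zero_le n)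
      rw [hu] at this
      exact hx this)
    have h0 : wk x n (fun _ => False) = 0 := by
      unfold wk
      simp
    rw [h0] at h
    exact h.trans (mul_nonneg (Real.sqrt_nonneg _) (pow_nonneg hV2 n))

end

end Pool.Agent.LBL
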