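import Pool.Agent.LBL.Wlk1
import Pool.Agent.LBL.Targets1

set_option autoImplicit false

/-!
# LBL-YTB: a subset of a cube of half the side of the torus is represented in `ℤ^d` without wrapping
-/

open Finset
open scoped Classical

namespace Pool.Agent.LBL

noncomputable section

namespace YTB_

/-- the choice of the fundamental interval in one coordinate -/
theorem coord (ℓ : ℕ) (hℓ : 1 ≤ ℓ) (a : ZMod (2 * ℓ)) (s : ℤ) (hs : s = if a.val ≤ ℓ then 0 else (ℓ : ℤ))
    (x : ZMod (2 * ℓ)) (h1 : (x - a).val < ℓ) (h2 : (x + 1 - a).val < ℓ) :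
    (x + 1 - (s : ZMod (2 * ℓ))).val = (x - (s : ZMod (2 * ℓ))).val + 1 := by
  have hnz : NeZero (2 * ℓ) := ⟨by omega⟩
  have hone : (1 : ZMod (2 * ℓ)).val = 1 := ZMod.val_one'' (by omega)
  have hone0 : (1 : ZMod (2 * ℓ)) ≠ 0 := by
    intro h
    rw [h, ZMod.val_zero] at hone
    omega
  have hlt : (x - (s : ZMod (2 * ℓ))).val < 2 * ℓ := ZMod.val_lt _
  by_cases hw : (x - (s : ZMod (2 * ℓ))).val + 1 < 2 * ℓ
  · have h3 : x + 1 - (s : ZMod (2 * ℓ)) = (x - (s : ZMod (2 * ℓ))) + 1 := by ring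
    rw [h3, ZMod.val_add_of_lt (by rw [hone]; exact hw), hone]
  · exfalso
    have h4 : (x - (s : ZMod (2 * ℓ))).val + 1 = 2 * ℓ := by omega
    have h5 : x - (s : ZMod (2 * ℓ)) + 1 = 0 := by
      have h6 : (((x - (s : ZMod (2 * ℓ))).val + 1 : ℕ) : ZMod (2 * ℓ)) = ((2 * ℓ : ℕ) : ZMod (2 * ℓ)) := by
        rw [h4]
      rw [Nat.cast_add, ZMod.natCast_zmod_val, ZMod.natCast_self, Nat.cast_one] at h6
      exact h6
    have h7 : x + 1 = (s : ZMod (2 * ℓ)) := by linear_combination h5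
    by_cases ha : a.val ≤ ℓ
    · rw [if_pos ha] at hs
      subst hs
      rw [h7, Int.cast_zero, zero_sub, ZMod.neg_val] at h2
      by_cases ha0 : a = 0
      · subst ha0
        have h8 : x = -1 := by
          rw [Int.cast_zero] at h7
          linear_combination h7
        rw [h8, sub_zero, ZMod.neg_val, if_neg hone0, hone] at h1
        omega
      · rw [if_neg ha0] at h2
        omega
    · rw [if_neg ha] at hs
      subst hs
      have hav : a.val < 2 * ℓ := ZMod.val_lt a
      have hl : ((ℓ : ℕ) : ZMod (2 * ℓ)).val = ℓ := ZMod.val_cast_of_lt (by omega)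
      have h9 : (a - ((ℓ : ℕ) : ZMod (2 * ℓ))).val = a.val - ℓ := by
        rw [ZMod.val_sub (by rw [hl]; omega), hl]
      rw [h7, Int.cast_natCast] at h2
      have h10 : ((ℓ : ℕ) : ZMod (2 * ℓ)) - a = -(a - ((ℓ : ℕ) : ZMod (2 * ℓ))) := by ring
      rw [h10, ZMod.neg_val] at h2
      have h11 : a - ((ℓ : ℕ) : ZMod (2 * ℓ)) ≠ 0 := by
        intro h
        rw [h, ZMod.val_zero] at h9
        omega
      rw [if_neg h11, h9] at h2
      omega

variable {d L : ℕ} [NeZero L]

theorem red_rep (σ : Fin d → ℤ) (x : Tor d L) : red L (rep σ x) = x := by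
  funext i
  unfold red rep
  push_cast
  rw [ZMod.natCast_zmod_val]
  ring

omit [NeZero L] in
theorem red_add (u v : Fin d → ℤ) : (red L (u + v) : Tor d L) = red L u + red L v := by
  funext i
  simp [red]

omit [NeZero L] in
theorem red_sub (u v : Fin d → ℤ) : (red L (u - v) : Tor d L) = red L u - red L v := by
  funext i
  simp [red]

omit [NeZero L] in
theorem red_ev (i : Fin d) : (red L (ev i) : Tor d L) = ev i := by
  funext j
  unfold red ev
  by_cases h : j = i
  · subst h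
    simp
  · simp [h]

/-- the function on `ℤ^d` -/
def lift (O : Finset (Tor d L)) (σ : Fin d → ℤ) (f : Tor d L → ℝ) (z : Fin d → ℤ) : ℝ :=
  if z ∈ O.image (rep σ) then f (red L z) else 0

theorem lift_of (O : Finset (Tor d L)) (σ : Fin d → ℤ) (f : Tor d L → ℝ) (hf : Spp O f) (x : Tor d L)
    (z : Fin d → ℤ) (hz : red L z = x) (h : x ∈ O → z = rep σ x) : lift O σ f z = f x := by
  unfold lift
  by_cases hx : x ∈ O
  · rw [if_pos (Finset.mem_image.2 ⟨x, hx, (h hx).symm⟩), hz]
  · rw [if_neg, hf x hx]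
    intro h1
    obtain ⟨y, hy, hyz⟩ := Finset.mem_image.1 h1
    rw [← hz, ← hyz, red_rep] at hx
    exact hx hy

end YTB_

open YTB_ in
theorem p_YTB (h_VAR : T_VAR) (h_TOP : T_TOP) : T_YTB := by
  intro d ℓ _ a O hd hO
  have hℓ : 1 ≤ ℓ := by
    have := NeZero.ne (2 * ℓ)
    omega
  refine ⟨fun i => if (a i).val ≤ ℓ then 0 else (ℓ : ℤ), fun i => ?_, ?_⟩
  · by_cases h : (a i).val ≤ ℓ
    · left
      simp only [h, if_true]
    · right
      simp only [h, if_false]
  set σ : Fin d → ℤ := fun i => if (a i).val ≤ ℓ then 0 else (ℓ : ℤ) with hσ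
  have hO' : ∀ x ∈ O, ∀ i, (x i - a i).val < ℓ := fun x hx => by
    have h := hO hx
    unfold tbx at h
    exact (Finset.mem_filter.1 h).2
  have hstep : ∀ (x : Tor d (2 * ℓ)) (i : Fin d), x ∈ O → x + ev i ∈ O → rep σ (x + ev i) = rep σ x + ev i := by
    intro x i hx hx'
    funext j
    have h1 := hO' x hx j
    have h2 := hO' (x + ev i) hx' j
    by_cases hj : j = i
    · subst hj
      have h3 : (x + ev j : Tor d (2 * ℓ)) j = x j + 1 := by simp [ev]
      rw [h3] at h2
      have h4 := coord ℓ hℓ (a j) (σ j) rfl (x j) h1 h2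
      simp only [rep, Pi.add_apply, h3]
      have h5 : (ev j : Fin d → ℤ) j = 1 := by simp [ev]
      rw [h4, h5]
      push_cast
      ring
    · have h3 : (ev i : Tor d (2 * ℓ)) j = 0 := by simp [ev, hj]
      have h5 : (ev i : Fin d → ℤ) j = 0 := by simp [ev, hj]
      simp only [rep, Pi.add_apply, h3, h5, add_zero]
  by_cases hne : O.Nonempty
  · obtain ⟨φ, hφ⟩ := h_TOP d (ZMod (2 * ℓ)) O hd hne
    obtain ⟨hv, -⟩ := h_VAR d ℤ hd (O.image (rep σ))
    have hsp : Spp (O.image (rep σ)) (lift O σ φ) := by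
      intro z hz
      unfold lift
      rw [if_neg hz]
    have hinj : Set.InjOn (rep σ : Tor d (2 * ℓ) → Fin d → ℤ) O := by
      intro x _ y _ hxy
      have h := congrArg (red (2 * ℓ)) hxy
      rwa [red_rep, red_rep] at h
    have hval : ∀ x ∈ O, lift O σ φ (rep σ x) = φ x := fun x _ =>
      lift_of O σ φ hφ.sp x _ (red_rep σ x) fun _ => rfl
    have hP : ∀ x ∈ O, P0 (lift O σ φ) (rep σ x) = P0 φ x := by
      intro x hx
      unfold P0
      congr 1
      refine Finset.sum_congr rfl fun i _ => ?_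
      congr 1
      · refine lift_of O σ φ hφ.sp (x + ev i) _ ?_ fun h => (hstep x i hx h).symm
        rw [red_add, red_rep, red_ev]
      · refine lift_of O σ φ hφ.sp (x - ev i) _ ?_ fun h => ?_
        · rw [red_sub, red_rep, red_ev]
        · have h7 := hstep (x - ev i) i h (by rwa [sub_add_cancel])
          rw [sub_add_cancel] at h7
          rw [h7, add_sub_cancel_right]
    have h8 := hv (lift O σ φ) hsp
    rw [Finset.sum_image hinj, Finset.sum_image hinj] at h8
    have h9 : ∑ x ∈ O, lift O σ φ (rep σ x) * P0 (lift O σ φ) (rep σ x) = lam O := by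
      have h10 : ∀ x ∈ O, lift O σ φ (rep σ x) * P0 (lift O σ φ) (rep σ x) = lam O * φ x ^ 2 := by
        intro x hx
        rw [hval x hx, hP x hx, hφ.eq x hx]
        ring
      rw [Finset.sum_congr rfl h10, ← Finset.mul_sum, hφ.nm, mul_one]
    have h11 : ∑ x ∈ O, lift O σ φ (rep σ x) ^ 2 = 1 := by
      rw [← hφ.nm]
      exact Finset.sum_congr rfl fun x hx => by rw [hval x hx]
    rw [h9, h11, mul_one] at h8
    exact h8
  · rw [Finset.not_nonempty_iff_eq_empty] at hne
    subst hne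
    obtain ⟨-, h0, -⟩ := h_VAR d ℤ hd ((∅ : Finset (Tor d (2 * ℓ))).image (rep σ))
    refine le_trans (le_of_eq ?_) h0
    unfold lam
    have h12 : {t : ℝ | ∃ f : Tor d (2 * ℓ) → ℝ, Spp (∅ : Finset (Tor d (2 * ℓ))) f ∧
        ∑ x ∈ (∅ : Finset (Tor d (2 * ℓ))), f x ^ 2 = 1 ∧ t = ∑ x ∈ (∅ : Finset (Tor d (2 * ℓ))), f x * P0 f x} = ∅ := by
      ext t
      simp
    rw [h12, Real.sSup_empty]

end

end Pool.Agent.LBL
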