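import Pool.Agent.LBL.Wlk2
import Pool.Agent.LBL.P_R1F

set_option autoImplicit false

/-!
# LBL: the tail around `x*`
-/

open Finset MeasureTheory Filter Topology
open scoped Classical

namespace Pool.Agent.LBL

noncomputable section

namespace YTL_

lemma ss_mul (d : ℕ) (r : ℝ) (hr : 0 < r) : ss d r * r ^ 2 * r ^ d = 1 := by
  unfold ss
  have h1 : (r : ℝ) ^ 2 = r ^ (2 : ℝ) := by
    rw [← Real.rpow_natCast]; norm_num
  have h2 : (r : ℝ) ^ d = r ^ (d : ℝ) := by
    rw [← Real.rpow_natCast]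
  rw [h1, h2, ← Real.rpow_add hr, ← Real.rpow_add hr]
  have : -(d : ℝ) - 2 + 2 + d = 0 := by ring
  rw [this, Real.rpow_zero]

lemma ss_pos (d : ℕ) (r : ℝ) (hr : 0 < r) : 0 < ss d r := Real.rpow_pos_of_pos hr _

lemma shift_le (d : ℕ) (r J : ℝ) (hr : 0 < r) (hJ : J ≤ r ^ d) : J * ss d r * r ^ 2 ≤ 1 := by
  have h := ss_mul d r hr
  have hs : 0 < ss d r * r ^ 2 := mul_pos (ss_pos d r hr) (by positivity)
  calc J * ss d r * r ^ 2 = (ss d r * r ^ 2) * J := by ring
    _ ≤ (ss d r * r ^ 2) * r ^ d := mul_le_mul_of_nonneg_left hJ hs.le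
    _ = 1 := h

lemma win_shift (d : ℕ) (r a A x J : ℝ) (hr : 0 < r) (hJ0 : 0 ≤ J) (hJ : J ≤ r ^ d)
    (h : Win a A r x) : Win a (A + 1) r (x - J * ss d r) := by
  have h1 := shift_le d r J hr hJ
  have h2 : 0 ≤ J * ss d r * r ^ 2 :=
    mul_nonneg (mul_nonneg hJ0 (ss_pos d r hr).le) (by positivity)
  obtain ⟨ha, hA⟩ := h
  refine ⟨?_, ?_⟩
  · calc a ≤ (1 - x) * r ^ 2 := ha
      _ ≤ (1 - (x - J * ss d r)) * r ^ 2 := by nlinarith
  · calc (1 - (x - J * ss d r)) * r ^ 2 = (1 - x) * r ^ 2 + J * ss d r * r ^ 2 := by ring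
      _ ≤ A + 1 := add_le_add hA h1

lemma iter (T : ℝ → ℝ) (s x C : ℝ) (hC : 1 ≤ C) (m : ℕ)
    (h : ∀ i : ℕ, i < m → T (x - i * s - s) ≤ C * T (x - i * s)) :
    T (x - m * s) ≤ C ^ m * T x := by
  induction m with
  | zero => simp
  | succ m ih =>
    have h1 := ih fun i hi => h i (by omega)
    have h2 := h m (by omega)
    have e : x - ((m + 1 : ℕ) : ℝ) * s = x - m * s - s := by push_cast; ring
    rw [e]
    calc T (x - m * s - s) ≤ C * T (x - m * s) := h2
      _ ≤ C * (C ^ m * T x) := mul_le_mul_of_nonneg_left h1 (by linarith)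
      _ = C ^ (m + 1) * T x := by ring

lemma th_nonneg (d n : ℕ) (h : 0 < fn d n) : 0 ≤ th d n := by
  unfold th
  positivity

end YTL_

open YTL_ in
theorem p_YTL (h_YXS : T_YXS) (h_R1F : T_R1F) (h_R2Y : R2Y) (h_YSC : T_YSC) : T_YTL := by
  intro d p hd hp hp1
  obtain ⟨a, A, Cx, ha, haA, hCx, hx⟩ := h_YXS d p hd hp hp1
  obtain ⟨C1, c1, r1, hC1, hc1, hr1, h1⟩ := h_R1F d (d + 6) p a (A + 1) hd (by omega) hp hp1 ha
    (by linarith)
  obtain ⟨C2, c2, r2, hC2, hc2, hr2, h2⟩ := h_R2Y d (d + 6) p a (A + 1) hd (by omega) hp hp1 ha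
    (by linarith)
  obtain ⟨hs1, hs2, hs3, -, -⟩ := h_YSC d hd
  set D2 : ℝ := max C2 1 with hD2
  have hD21 : 1 ≤ D2 := le_max_right _ _
  have hD20 : 0 < D2 := by linarith
  have hlog : 0 ≤ Real.log D2 := Real.log_nonneg hD21
  set C : ℝ := max 1 (max (C1 * Cx) (max C1 (max (D2 * Cx) (Real.log D2 / c2)))) with hC
  have hCa : 1 ≤ C := le_max_left _ _
  have hCb : C1 * Cx ≤ C := le_trans (le_max_left _ _) (le_max_right _ _)
  have hCc : C1 ≤ C := le_trans (le_max_left _ _) (le_trans (le_max_right _ _) (le_max_right _ _))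
  have hCd : D2 * Cx ≤ C := le_trans (le_max_left _ _) (le_trans (le_max_right _ _)
    (le_trans (le_max_right _ _) (le_max_right _ _)))
  have hCe : Real.log D2 / c2 ≤ C := le_trans (le_max_right _ _) (le_trans (le_max_right _ _)
    (le_trans (le_max_right _ _) (le_max_right _ _)))
  refine ⟨C, c1, hCa, hc1, ?_⟩
  filter_upwards [hx, hs1 (max r1 r2), hs2, Filter.eventually_ge_atTop 2] with n hxn hrn hRg hn2 J hJ0
  obtain ⟨hw, hth1, hth2, -, -⟩ := hxn
  obtain ⟨-, -, hr0, hf0⟩ := hs3 n hn2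
  have hrr1 : r1 ≤ rr d n := le_trans (le_max_left _ _) hrn
  have hrr2 : r2 ≤ rr d n := le_trans (le_max_right _ _) hrn
  have hth0 := th_nonneg d n hf0
  have hwA : Win a (A + 1) (rr d n) (xs d p n) := ⟨hw.1, by linarith [hw.2]⟩
  have hanti := R1F_.TT_anti d (2 * ll d n) p hp hp1
  have hnn := R1F_.TT_nonneg d (2 * ll d n) p hp hp1
  refine ⟨?_, ?_, ?_⟩
  · have h := h1 (rr d n) (xs d p n) J (2 * ll d n) hrr1 hRg.1 hwA hJ0
    have he : 0 < Real.exp (-c1 * J) := Real.exp_pos _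
    calc TT d (2 * ll d n) p (xs d p n + J * sn d n)
        ≤ C1 * Real.exp (-c1 * J) * TT d (2 * ll d n) p (xs d p n) := h
      _ ≤ C1 * Real.exp (-c1 * J) * (Cx * th d n) :=
          mul_le_mul_of_nonneg_left hth2 (mul_pos hC1 he).le
      _ = (C1 * Cx) * (Real.exp (-c1 * J) * th d n) := by ring
      _ ≤ C * (Real.exp (-c1 * J) * th d n) :=
          mul_le_mul_of_nonneg_right hCb (mul_nonneg he.le hth0)
      _ = C * Real.exp (-c1 * J) * th d n := by ring
  · intro hJ
    set m : ℕ := ⌈J / c2⌉₊ with hm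
    have hm1 : J / c2 ≤ m := Nat.le_ceil _
    have hm2 : (m : ℝ) < J / c2 + 1 := Nat.ceil_lt_add_one (div_nonneg hJ0 hc2.le)
    have hstep : ∀ i : ℕ, i < m →
        TT d (2 * ll d n) p (xs d p n - i * (c2 * sn d n) - c2 * sn d n) ≤
          D2 * TT d (2 * ll d n) p (xs d p n - i * (c2 * sn d n)) := by
      intro i hi
      have hi1 : (i : ℝ) + 1 ≤ m := by exact_mod_cast hi
      have hi2 : (i : ℝ) * c2 ≤ J := by
        have : (i : ℝ) ≤ J / c2 := by linarith
        rwa [le_div_iff₀ hc2] at this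
      have hwi := win_shift d (rr d n) a A (xs d p n) ((i : ℝ) * c2) hr0 (by positivity)
        (hi2.trans hJ) hw
      have h := h2 (rr d n) _ (2 * ll d n) hrr2 hRg.1 hwi
      have e1 : xs d p n - (i : ℝ) * c2 * ss d (rr d n) = xs d p n - i * (c2 * sn d n) := by
        unfold sn; ring
      rw [e1] at h
      calc TT d (2 * ll d n) p (xs d p n - i * (c2 * sn d n) - c2 * sn d n)
          ≤ C2 * TT d (2 * ll d n) p (xs d p n - i * (c2 * sn d n)) := h
        _ ≤ D2 * TT d (2 * ll d n) p (xs d p n - i * (c2 * sn d n)) :=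
            mul_le_mul_of_nonneg_right (le_max_left _ _) (hnn _)
    have hit := iter (fun y => TT d (2 * ll d n) p y) (c2 * sn d n) (xs d p n) D2 hD21 m hstep
    have hs0 : 0 < sn d n := ss_pos d _ hr0
    have hle : xs d p n - m * (c2 * sn d n) ≤ xs d p n - J * sn d n := by
      have : J ≤ m * c2 := by rwa [div_le_iff₀ hc2] at hm1
      nlinarith
    have hpow : D2 ^ m ≤ D2 * Real.exp (C * J) := by
      have e1 : D2 ^ m = Real.exp (Real.log D2 * m) := by
        rw [mul_comm, Real.exp_nat_mul, Real.exp_log hD20]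
      have e2 : D2 * Real.exp (C * J) = Real.exp (Real.log D2 + C * J) := by
        rw [Real.exp_add, Real.exp_log hD20]
      rw [e1, e2]
      apply Real.exp_le_exp.2
      calc Real.log D2 * m ≤ Real.log D2 * (J / c2 + 1) :=
            mul_le_mul_of_nonneg_left hm2.le hlog
        _ = Real.log D2 + (Real.log D2 / c2) * J := by ring
        _ ≤ Real.log D2 + C * J := by
            have := mul_le_mul_of_nonneg_right hCe hJ0
            linarith
    calc TT d (2 * ll d n) p (xs d p n - J * sn d n)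
        ≤ TT d (2 * ll d n) p (xs d p n - m * (c2 * sn d n)) := hanti _ _ hle
      _ ≤ D2 ^ m * TT d (2 * ll d n) p (xs d p n) := hit
      _ ≤ (D2 * Real.exp (C * J)) * (Cx * th d n) :=
          mul_le_mul hpow hth2 (hnn _) (by positivity)
      _ = (D2 * Cx) * (Real.exp (C * J) * th d n) := by ring
      _ ≤ C * (Real.exp (C * J) * th d n) :=
          mul_le_mul_of_nonneg_right hCd (mul_nonneg (Real.exp_pos _).le hth0)
      _ = C * Real.exp (C * J) * th d n := by ring
  · intro hJ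
    have hwi := win_shift d (rr d n) a A (xs d p n) J hr0 hJ0 hJ hw
    have h := h1 (rr d n) _ J (2 * ll d n) hrr1 hRg.1 hwi hJ0
    have e1 : xs d p n - J * ss d (rr d n) + J * ss d (rr d n) = xs d p n := by ring
    rw [e1] at h
    have he : Real.exp (c1 * J) * Real.exp (-c1 * J) = 1 := by
      rw [← Real.exp_add]; simp
    have hT := hnn (xs d p n - J * sn d n)
    calc Real.exp (c1 * J) * th d n
        ≤ Real.exp (c1 * J) * TT d (2 * ll d n) p (xs d p n) :=
          mul_le_mul_of_nonneg_left hth1 (Real.exp_pos _).le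
      _ ≤ Real.exp (c1 * J) * (C1 * Real.exp (-c1 * J) *
            TT d (2 * ll d n) p (xs d p n - J * sn d n)) :=
          mul_le_mul_of_nonneg_left h (Real.exp_pos _).le
      _ = (Real.exp (c1 * J) * Real.exp (-c1 * J)) *
            (C1 * TT d (2 * ll d n) p (xs d p n - J * sn d n)) := by ring
      _ = C1 * TT d (2 * ll d n) p (xs d p n - J * sn d n) := by rw [he, one_mul]
      _ ≤ C * TT d (2 * ll d n) p (xs d p n - J * sn d n) :=
          mul_le_mul_of_nonneg_right hCc hT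

end

end Pool.Agent.LBL
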