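import Pool.Agent.LBL.Wlk1
import Pool.Agent.LBL.P_TOP

set_option autoImplicit false

/-!
# LBL: T_YTP, weighted top function
-/

open Finset
open scoped Classical

namespace Pool.Agent.LBL

noncomputable section

namespace YTP_

variable {d : ℕ}

theorem sum_m (O : Finset (Fin d → ℤ)) (m : (Fin d → ℤ) → ℝ) (g : O → ℝ) :
    ∑ x ∈ O, m x * TOP_.ext O g x ^ 2 = ∑ x : O, m x * g x ^ 2 := by
  rw [← Finset.sum_coe_sort O (fun x => m x * TOP_.ext O g x ^ 2)]
  exact Finset.sum_congr rfl fun x _ => by rw [TOP_.ext_mem]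

theorem ell_compact (O : Finset (Fin d → ℤ)) (hO : O.Nonempty) (m : (Fin d → ℤ) → ℝ)
    (hm : ∀ x, 0 < m x) : IsCompact {g : O → ℝ | ∑ x : O, m x * g x ^ 2 = 1} := by
  obtain ⟨z, hz, hzmin⟩ := O.exists_min_image m hO
  refine Metric.isCompact_of_isClosed_isBounded ?_ ?_
  · refine isClosed_eq ?_ continuous_const
    exact continuous_finsetSum _ fun x _ => continuous_const.mul ((continuous_apply x).pow 2)
  · refine (Metric.isBounded_closedBall (x := (0 : O → ℝ)) (r := Real.sqrt (1 / m z))).subset ?_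
    intro g hg
    rw [mem_closedBall_zero_iff, pi_norm_le_iff_of_nonneg (Real.sqrt_nonneg _)]
    intro x
    have h1 : m x * g x ^ 2 ≤ 1 := by
      have h2 : ∑ x : O, m x * g x ^ 2 = 1 := hg
      rw [← h2]
      exact Finset.single_le_sum (f := fun x : O => m x * g x ^ 2)
        (fun y _ => mul_nonneg (hm _).le (sq_nonneg _)) (Finset.mem_univ x)
    have h3 : m z * g x ^ 2 ≤ 1 :=
      (mul_le_mul_of_nonneg_right (hzmin x x.2) (sq_nonneg _)).trans h1
    rw [Real.norm_eq_abs]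
    refine Real.abs_le_sqrt ?_
    rw [le_div_iff₀ (hm z), mul_comm]
    exact h3

theorem P0_smul (f : (Fin d → ℤ) → ℝ) (c : ℝ) (x : Fin d → ℤ) :
    P0 (fun z => c * f z) x = c * P0 f x := by
  unfold P0
  rw [← mul_div_assoc, Finset.mul_sum]
  congr 1
  exact Finset.sum_congr rfl fun i _ => by ring

end YTP_

open YTP_ in
theorem p_YTP (h_VAR : T_VAR) : T_YTP := by
  intro d U m hd hne hm
  obtain ⟨-, -, -, -, hsym⟩ := h_VAR d ℤ hd U
  have hSn : {g : U → ℝ | ∑ x : U, m x * g x ^ 2 = 1}.Nonempty := by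
    obtain ⟨x0, hx0⟩ := hne
    refine ⟨fun x => if x = ⟨x0, hx0⟩ then Real.sqrt (1 / m x0) else 0, ?_⟩
    show ∑ x : U, m x * (if x = ⟨x0, hx0⟩ then Real.sqrt (1 / m x0) else 0) ^ 2 = 1
    rw [Finset.sum_eq_single (⟨x0, hx0⟩ : U)]
    · rw [if_pos rfl, Real.sq_sqrt (by have := hm x0; positivity)]
      have := (hm x0).ne'
      field_simp
    · intro b _ hb
      rw [if_neg hb]
      ring
    · intro h
      exact absurd (Finset.mem_univ _) h
  obtain ⟨g, hgS, hgmax⟩ :=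
    (ell_compact U hne m hm).exists_isMaxOn hSn (TOP_.Q_cont U).continuousOn
  have hgS' : ∑ x : U, m x * g x ^ 2 = 1 := hgS
  set φ : (Fin d → ℤ) → ℝ := TOP_.ext U fun x => |g x| with hφ
  have hnn : ∀ x, 0 ≤ φ x := by
    intro x
    rw [hφ, TOP_.ext_abs]
    exact abs_nonneg _
  have hsp : Spp U φ := TOP_.ext_spp U _
  have hnm : ∑ x ∈ U, m x * φ x ^ 2 = 1 := by
    rw [hφ, sum_m, ← hgS']
    exact Finset.sum_congr rfl fun x _ => by rw [sq_abs]
  have hmax : ∀ f : (Fin d → ℤ) → ℝ, Spp U f → ∑ x ∈ U, m x * f x ^ 2 = 1 →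
      ∑ x ∈ U, f x * P0 f x ≤ ∑ x ∈ U, φ x * P0 φ x := by
    intro f hf h1
    have h2 : TOP_.Q U (fun x : U => f x) = ∑ x ∈ U, f x * P0 f x := by
      unfold TOP_.Q
      rw [TOP_.ext_res U f hf]
    have h3 : (fun x : U => f x) ∈ {g : U → ℝ | ∑ x : U, m x * g x ^ 2 = 1} := by
      show ∑ x : U, m x * f x ^ 2 = 1
      rw [← h1, ← Finset.sum_coe_sort U (fun x => m x * f x ^ 2)]
    have h4 : TOP_.Q U (fun x : U => f x) ≤ TOP_.Q U g := hgmax h3
    have h5 : TOP_.Q U g ≤ TOP_.Q U fun x => |g x| := TOP_.Q_abs U g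
    rw [← h2]
    exact h4.trans h5
  set Λ : ℝ := ∑ x ∈ U, φ x * P0 φ x with hΛ
  have hform : ∀ f : (Fin d → ℤ) → ℝ, Spp U f →
      ∑ x ∈ U, f x * P0 f x ≤ Λ * ∑ x ∈ U, m x * f x ^ 2 := by
    intro f hf
    set N : ℝ := ∑ x ∈ U, m x * f x ^ 2 with hN
    have hN0 : 0 ≤ N := Finset.sum_nonneg fun x _ => mul_nonneg (hm x).le (sq_nonneg _)
    rcases hN0.eq_or_lt with h0 | h0
    · have hz : ∀ x ∈ U, f x = 0 := by
        intro x hx
        have h1 := (Finset.sum_eq_zero_iff_of_nonneg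
          (fun y _ => mul_nonneg (hm y).le (sq_nonneg (f y)))).1 h0.symm x hx
        rcases mul_eq_zero.1 h1 with h2 | h2
        · exact absurd h2 (hm x).ne'
        · exact pow_eq_zero_iff (two_ne_zero) |>.1 h2
      rw [← h0, mul_zero]
      refine (Finset.sum_eq_zero fun x hx => ?_).le
      rw [hz x hx, zero_mul]
    · have hs0 : 0 < Real.sqrt N := Real.sqrt_pos.2 h0
      have hc2 : (1 / Real.sqrt N) ^ 2 = 1 / N := by
        rw [div_pow, one_pow, Real.sq_sqrt hN0]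
      have h1 := hmax (fun z => 1 / Real.sqrt N * f z) (by
        intro x hx
        show 1 / Real.sqrt N * f x = 0
        rw [hf x hx, mul_zero]) (by
        have : ∑ x ∈ U, m x * (1 / Real.sqrt N * f x) ^ 2 = (1 / Real.sqrt N) ^ 2 * N := by
          rw [hN, Finset.mul_sum]
          exact Finset.sum_congr rfl fun x _ => by ring
        rw [this, hc2]
        field_simp)
      have h2 : ∑ x ∈ U, (1 / Real.sqrt N * f x) * P0 (fun z => 1 / Real.sqrt N * f z) x =
          (1 / Real.sqrt N) ^ 2 * ∑ x ∈ U, f x * P0 f x := by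
        rw [Finset.mul_sum]
        refine Finset.sum_congr rfl fun x _ => ?_
        rw [P0_smul]
        ring
      rw [h2, hc2, one_div, inv_mul_le_iff₀ h0] at h1
      linarith
  refine ⟨Λ, φ, hnn, hsp, hnm, ?_, hform⟩
  intro x hx
  set h : (Fin d → ℤ) → ℝ := fun y => if y = x then 1 else 0 with hh
  have hhs : Spp U h := by
    intro y hy
    have : y ≠ x := fun e => hy (e ▸ hx)
    simp only [hh, if_neg this]
  have e1 : ∑ y ∈ U, h y * P0 φ y = P0 φ x := by
    simp only [hh, ite_mul, one_mul, zero_mul]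
    rw [Finset.sum_ite_eq' U x, if_pos hx]
  have e2 : ∑ y ∈ U, m y * (φ y * h y) = m x * φ x := by
    simp only [hh, mul_ite, mul_one, mul_zero]
    rw [Finset.sum_ite_eq' U x, if_pos hx]
  have e3 : ∑ y ∈ U, φ y * P0 h y = P0 φ x := by
    rw [← e1]
    exact hsym φ h hsp hhs
  have key : ∀ t : ℝ, 2 * t * (P0 φ x - Λ * (m x * φ x)) +
      t ^ 2 * (∑ y ∈ U, h y * P0 h y - Λ * ∑ y ∈ U, m y * h y ^ 2) ≤ 0 := by
    intro t
    have hs : Spp U (fun z => φ z + t * h z) := by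
      intro y hy
      show φ y + t * h y = 0
      rw [hsp y hy, hhs y hy, mul_zero, add_zero]
    have h1 := hform _ hs
    have h2 : ∑ y ∈ U, (φ y + t * h y) * P0 (fun z => φ z + t * h z) y =
        ∑ y ∈ U, φ y * P0 φ y + t * ∑ y ∈ U, φ y * P0 h y + t * ∑ y ∈ U, h y * P0 φ y +
          t ^ 2 * ∑ y ∈ U, h y * P0 h y := by
      rw [Finset.mul_sum, Finset.mul_sum, Finset.mul_sum, ← Finset.sum_add_distrib,
        ← Finset.sum_add_distrib, ← Finset.sum_add_distrib]
      refine Finset.sum_congr rfl fun y _ => ?_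
      rw [TOP_.P0_lin]
      ring
    have h3 : ∑ y ∈ U, m y * (φ y + t * h y) ^ 2 =
        ∑ y ∈ U, m y * φ y ^ 2 + 2 * t * ∑ y ∈ U, m y * (φ y * h y) +
          t ^ 2 * ∑ y ∈ U, m y * h y ^ 2 := by
      rw [Finset.mul_sum, Finset.mul_sum, ← Finset.sum_add_distrib, ← Finset.sum_add_distrib]
      exact Finset.sum_congr rfl fun y _ => by ring
    rw [h2, h3, ← hΛ, hnm, e1, e2, e3] at h1
    linarith
  have := TOP_.lin_zero _ _ key
  linarith

end

end Pool.Agent.LBL
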