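import Pool.Agent.LBL.Wlk1
import Pool.Agent.LBL.Targets1

set_option autoImplicit false

/-!
# LBL: transport between `ℤ^d` and the torus without wrapping
-/

open Finset
open scoped Classical

namespace Pool.Agent.LBL

noncomputable section

namespace YTR_

variable {d k L : ℕ} [NeZero L] {a : Fin d → ℤ} {O : Finset (Fin d → ℤ)}

/-- the box enlarged by one -/
def Big (a : Fin d → ℤ) (k : ℕ) (x : Fin d → ℤ) : Prop := ∀ i, a i - 1 ≤ x i ∧ x i ≤ a i + k

omit [NeZero L] in
lemma red_inj (hL : k + 4 ≤ L) {x y : Fin d → ℤ} (hx : Big a k x) (hy : Big a k y)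
    (h : red L x = red L y) : x = y := by
  funext i
  have h1 : ((x i : ℤ) : ZMod L) = ((y i : ℤ) : ZMod L) := congrFun h i
  rw [← sub_eq_zero, ← Int.cast_sub, ZMod.intCast_zmod_eq_zero_iff_dvd] at h1
  have h2 := hx i
  have h3 := hy i
  have h4 : x i - y i = 0 := by
    apply Int.eq_zero_of_abs_lt_dvd h1
    rw [abs_lt]
    constructor <;> omega
  omega

lemma box_big (hO : O ⊆ boxF a k) {x : Fin d → ℤ} (hx : x ∈ O) : Big a k x := by
  intro i
  have h := hO hx
  unfold boxF at h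
  rw [Fintype.mem_piFinset] at h
  have h1 := Finset.mem_Ico.mp (h i)
  omega

lemma box_add (hO : O ⊆ boxF a k) {x : Fin d → ℤ} (hx : x ∈ O) (i : Fin d) : Big a k (x + ev i) := by
  intro j
  have h := hO hx
  unfold boxF at h
  rw [Fintype.mem_piFinset] at h
  have h1 := Finset.mem_Ico.mp (h j)
  have h2 : (x + ev i : Fin d → ℤ) j = x j + if j = i then 1 else 0 := by
    simp [ev, Pi.single_apply]
  rw [h2]
  split_ifs <;> omega

lemma box_sub (hO : O ⊆ boxF a k) {x : Fin d → ℤ} (hx : x ∈ O) (i : Fin d) : Big a k (x - ev i) := by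
  intro j
  have h := hO hx
  unfold boxF at h
  rw [Fintype.mem_piFinset] at h
  have h1 := Finset.mem_Ico.mp (h j)
  have h2 : (x - ev i : Fin d → ℤ) j = x j - if j = i then 1 else 0 := by
    simp [ev, Pi.single_apply]
  rw [h2]
  split_ifs <;> omega

omit [NeZero L] in
lemma red_add (x : Fin d → ℤ) (i : Fin d) : (red L (x + ev i) : Tor d L) = red L x + ev i := by
  funext j
  simp only [red, ev, Pi.add_apply, Pi.single_apply]
  split_ifs <;> push_cast <;> rfl

omit [NeZero L] in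
lemma red_sub (x : Fin d → ℤ) (i : Fin d) : (red L (x - ev i) : Tor d L) = red L x - ev i := by
  funext j
  simp only [red, ev, Pi.sub_apply, Pi.single_apply]
  split_ifs <;> push_cast <;> rfl

omit [NeZero L] in
lemma psh_mem (hL : k + 4 ≤ L) (hO : O ⊆ boxF a k) (f : (Fin d → ℤ) → ℝ) {x : Fin d → ℤ} (hx : x ∈ O) :
    psh L O f (red L x) = f x := by
  unfold psh
  rw [Finset.sum_eq_single x]
  · intro y hy hyx
    rw [Finset.mem_filter] at hy
    exact absurd (red_inj hL (box_big hO hy.1) (box_big hO hx) hy.2) hyx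
  · intro h
    exact (h (Finset.mem_filter.mpr ⟨hx, rfl⟩)).elim

lemma psh_big (hL : k + 4 ≤ L) (hO : O ⊆ boxF a k) {f : (Fin d → ℤ) → ℝ} (hf : Spp O f) {x : Fin d → ℤ}
    (hx : Big a k x) : psh L O f (red L x) = f x := by
  by_cases h : x ∈ O
  · exact psh_mem hL hO f h
  · rw [hf x h]
    unfold psh
    apply Finset.sum_eq_zero
    intro y hy
    rw [Finset.mem_filter] at hy
    exact absurd ((red_inj hL (box_big hO hy.1) hx hy.2) ▸ hy.1) h

omit [NeZero L] in
lemma psh_spp (f : (Fin d → ℤ) → ℝ) : Spp (O.image (red L)) (psh L O f) := by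
  intro y hy
  unfold psh
  apply Finset.sum_eq_zero
  intro x hx
  rw [Finset.mem_filter] at hx
  exact absurd (Finset.mem_image.mpr ⟨x, hx.1, hx.2⟩) hy

lemma P0_psh (hL : k + 4 ≤ L) (hO : O ⊆ boxF a k) {f : (Fin d → ℤ) → ℝ} (hf : Spp O f) {x : Fin d → ℤ}
    (hx : x ∈ O) : P0 (psh L O f) (red L x) = P0 f x := by
  unfold P0
  congr 1
  apply Finset.sum_congr rfl
  intro i _
  rw [← red_add, ← red_sub, psh_big hL hO hf (box_add hO hx i), psh_big hL hO hf (box_sub hO hx i)]

omit [NeZero L] in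
lemma sum_im (hL : k + 4 ≤ L) (hO : O ⊆ boxF a k) (F : Tor d L → ℝ) :
    ∑ y ∈ O.image (red L), F y = ∑ x ∈ O, F (red L x) := by
  apply Finset.sum_image
  intro x hx y hy h
  exact red_inj hL (box_big hO hx) (box_big hO hy) h

/-- pull back -/
def pul (L : ℕ) (O : Finset (Fin d → ℤ)) (f : Tor d L → ℝ) (x : Fin d → ℤ) : ℝ :=
  if x ∈ O then f (red L x) else 0

omit [NeZero L] in
lemma pul_spp (f : Tor d L → ℝ) : Spp O (pul L O f) := by
  intro x hx
  unfold pul
  rw [if_neg hx]

lemma psh_pul (hL : k + 4 ≤ L) (hO : O ⊆ boxF a k) {f : Tor d L → ℝ} (hf : Spp (O.image (red L)) f) :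
    psh L O (pul L O f) = f := by
  funext y
  by_cases hy : y ∈ O.image (red L)
  · obtain ⟨x, hx, rfl⟩ := Finset.mem_image.mp hy
    rw [psh_mem hL hO _ hx]
    unfold pul
    rw [if_pos hx]
  · rw [hf y hy, psh_spp _ y hy]

lemma nrm_psh (hL : k + 4 ≤ L) (hO : O ⊆ boxF a k) (f : (Fin d → ℤ) → ℝ) :
    ∑ y ∈ O.image (red L), psh L O f y ^ 2 = ∑ x ∈ O, f x ^ 2 := by
  rw [sum_im hL hO]
  apply Finset.sum_congr rfl
  intro x hx
  rw [psh_mem hL hO f hx]

lemma form_psh (hL : k + 4 ≤ L) (hO : O ⊆ boxF a k) {f : (Fin d → ℤ) → ℝ} (hf : Spp O f) :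
    ∑ y ∈ O.image (red L), psh L O f y * P0 (psh L O f) y = ∑ x ∈ O, f x * P0 f x := by
  rw [sum_im hL hO]
  apply Finset.sum_congr rfl
  intro x hx
  rw [psh_mem hL hO f hx, P0_psh hL hO hf hx]

lemma lam_eq (hL : k + 4 ≤ L) (hO : O ⊆ boxF a k) : lam (O.image (red L)) = lam O := by
  unfold lam
  congr 1
  ext t
  constructor
  · rintro ⟨f, hf, hn, ht⟩
    refine ⟨pul L O f, pul_spp f, ?_, ?_⟩
    · rw [← nrm_psh hL hO, psh_pul hL hO hf]
      exact hn
    · rw [← form_psh hL hO (pul_spp f), psh_pul hL hO hf]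
      exact ht
  · rintro ⟨f, hf, hn, ht⟩
    refine ⟨psh L O f, psh_spp f, ?_, ?_⟩
    · rw [nrm_psh hL hO]
      exact hn
    · rw [form_psh hL hO hf]
      exact ht

omit [NeZero L] in
lemma sv_spp (t : ℕ) : Spp O (sv O t) := by
  intro x hx
  cases t with
  | zero =>
    change (if x ∈ O then (1 : ℝ) else 0) = 0
    rw [if_neg hx]
  | succ t =>
    unfold sv
    rw [Function.iterate_succ_apply']
    unfold Pz
    rw [if_neg hx]

omit [NeZero L] in
lemma srv_spp (V : Finset (Tor d L)) (t : ℕ) : Spp V (srv V t) := by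
  intro x hx
  cases t with
  | zero =>
    change (if x ∈ V then (1 : ℝ) else 0) = 0
    rw [if_neg hx]
  | succ t =>
    unfold srv
    rw [Function.iterate_succ_apply']
    unfold Pk
    rw [if_neg hx]

lemma psh_sv (hL : k + 4 ≤ L) (hO : O ⊆ boxF a k) (t : ℕ) :
    psh L O (sv O t) = srv (O.image (red L)) t := by
  induction t with
  | zero =>
    funext y
    by_cases hy : y ∈ O.image (red L)
    · obtain ⟨x, hx, rfl⟩ := Finset.mem_image.mp hy
      rw [psh_mem hL hO _ hx]
      change (if x ∈ O then (1 : ℝ) else 0) = (if red L x ∈ O.image (red L) then (1 : ℝ) else 0)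
      rw [if_pos hx, if_pos hy]
    · rw [psh_spp _ y hy, srv_spp _ _ y hy]
  | succ t ih =>
    funext y
    by_cases hy : y ∈ O.image (red L)
    · obtain ⟨x, hx, rfl⟩ := Finset.mem_image.mp hy
      rw [psh_mem hL hO _ hx]
      have h1 : sv O (t + 1) x = P0 (sv O t) x := by
        unfold sv
        rw [Function.iterate_succ_apply']
        unfold Pz
        rw [if_pos hx]
      have h2 : srv (O.image (red L)) (t + 1) (red L x) = P0 (srv (O.image (red L)) t) (red L x) := by
        unfold srv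
        rw [Function.iterate_succ_apply']
        unfold Pk
        rw [if_pos hy]
      rw [h1, h2, ← ih, P0_psh hL hO (sv_spp t) hx]
    · rw [psh_spp _ y hy, srv_spp _ _ y hy]

end YTR_

open YTR_ in
theorem p_YTR : T_YTR := by
  intro d k L _ a O _ hL hO
  refine ⟨lam_eq hL hO, ?_, fun φ x hx => psh_mem hL hO φ hx, ?_⟩
  · intro φ hφ
    refine ⟨?_, psh_spp φ, ?_, ?_⟩
    · intro y
      unfold psh
      exact Finset.sum_nonneg fun x _ => hφ.nn x
    · rw [nrm_psh hL hO]
      exact hφ.nm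
    · intro y hy
      obtain ⟨x, hx, rfl⟩ := Finset.mem_image.mp hy
      rw [P0_psh hL hO hφ.sp hx, psh_mem hL hO φ hx, lam_eq hL hO]
      exact hφ.eq x hx
  · intro t x hx
    rw [← psh_sv hL hO t, psh_mem hL hO _ hx]

end

end Pool.Agent.LBL
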