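import Pool.Agent.LBL.Targets1
import Pool.Agent.LBL.Wlk2

set_option autoImplicit false

/-!
# LBL: upper bound of the eigenvalue of large cubes (T_YUB)
-/

open Finset MeasureTheory Filter Topology
open scoped Classical

namespace Pool.Agent.LBL

noncomputable section

theorem YUB_cub (d D : ℕ) : cub d D = boxF (fun _ => -(D : ℤ)) (2 * D + 1) := by
  unfold cub boxF
  ext x
  simp only [Fintype.mem_piFinset, Finset.mem_Icc, Finset.mem_Ico]
  constructor
  · intro h i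
    have := h i
    constructor
    · exact this.1
    · push_cast
      omega
  · intro h i
    have := h i
    push_cast at this
    constructor
    · exact this.1
    · omega

theorem YUB_mono (d : ℕ) (ω : Env d) (D D' : ℕ) (h : D ≤ D') : opn ω (cub d D) ⊆ opn ω (cub d D') := by
  unfold opn
  apply Finset.filter_subset_filter
  unfold cub
  intro x hx
  rw [Fintype.mem_piFinset] at hx ⊢
  intro i
  have := hx i
  rw [Finset.mem_Icc] at this ⊢
  have h' : (D : ℤ) ≤ D' := by exact_mod_cast h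
  omega

theorem YUB_geo (q : ℝ) (h0 : 0 ≤ q) (h1 : q ≤ 1 / 2) (m : ℕ) : ∑ j ∈ Finset.range m, q ^ j ≤ 2 := by
  have h : ∑ j ∈ Finset.range m, q ^ j ≤ ∑ j ∈ Finset.range m, (1 / 2 : ℝ) ^ j :=
    Finset.sum_le_sum fun j _ => pow_le_pow_left₀ h0 h1 j
  refine h.trans ?_
  rw [geom_sum_eq (by norm_num)]
  have h2 : (0 : ℝ) ≤ (1 / 2) ^ m := by positivity
  have h3 : ((1 / 2 : ℝ) ^ m - 1) / (1 / 2 - 1) = 2 - 2 * (1 / 2) ^ m := by ring
  rw [h3]
  linarith

/-- the dyadic index -/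
theorem YUB_idx (f : ℝ) (hf : 1 ≤ f) (n D : ℕ) (hD : D ≤ 4 * n) :
    ∃ j ∈ Finset.range (4 * n + 1), D ≤ 2 ^ j * ⌈f⌉₊ ∧ ((j : ℝ) + 1) / 2 ≤ 1 + Real.log (1 + D / f) := by
  have hc1 : 1 ≤ ⌈f⌉₊ := Nat.one_le_ceil_iff.mpr (by linarith)
  have hex : ∃ j, D ≤ 2 ^ j * ⌈f⌉₊ := by
    refine ⟨4 * n, hD.trans ?_⟩
    have h1 : 4 * n < 2 ^ (4 * n) := Nat.lt_two_pow_self
    calc 4 * n ≤ 2 ^ (4 * n) := h1.le
      _ = 2 ^ (4 * n) * 1 := by ring
      _ ≤ 2 ^ (4 * n) * ⌈f⌉₊ := Nat.mul_le_mul_left _ hc1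
  have hspec := Nat.find_spec hex
  have hmin := fun m (hm : m < Nat.find hex) => Nat.find_min hex hm
  set j := Nat.find hex with hj
  have hjle : j ≤ 4 * n := by
    apply Nat.find_min' hex
    have h1 : 4 * n < 2 ^ (4 * n) := Nat.lt_two_pow_self
    calc D ≤ 4 * n := hD
      _ ≤ 2 ^ (4 * n) := h1.le
      _ = 2 ^ (4 * n) * 1 := by ring
      _ ≤ 2 ^ (4 * n) * ⌈f⌉₊ := Nat.mul_le_mul_left _ hc1
  refine ⟨j, Finset.mem_range.mpr (by omega), hspec, ?_⟩
  have hDf : 0 ≤ (D : ℝ) / f := by positivity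
  have hlog0 : 0 ≤ Real.log (1 + D / f) := Real.log_nonneg (by linarith)
  rcases Nat.eq_zero_or_pos j with h0 | h0
  · rw [h0]
    push_cast
    linarith
  · obtain ⟨i, hi⟩ : ∃ i, j = i + 1 := ⟨j - 1, by omega⟩
    have h1 := hmin i (by omega)
    push Not at h1
    have h2 : (2 : ℝ) ^ i * f ≤ D := by
      have h3 : ((2 ^ i * ⌈f⌉₊ : ℕ) : ℝ) ≤ D := by exact_mod_cast h1.le
      push_cast at h3
      have h4 : (2 : ℝ) ^ i * f ≤ 2 ^ i * ⌈f⌉₊ := mul_le_mul_of_nonneg_left (Nat.le_ceil f) (by positivity)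
      linarith
    have h5 : (2 : ℝ) ^ i ≤ 1 + D / f := by
      have h6 : (2 : ℝ) ^ i ≤ D / f := by
        rw [le_div_iff₀ (by linarith)]
        exact h2
      linarith
    have h7 : (i : ℝ) * Real.log 2 ≤ Real.log (1 + D / f) := by
      rw [← Real.log_pow]
      exact Real.log_le_log (by positivity) h5
    have h8 : (1 / 2 : ℝ) ≤ Real.log 2 := by
      have := Real.log_two_gt_d9
      linarith
    have h9 : (i : ℝ) * (1 / 2) ≤ i * Real.log 2 := mul_le_mul_of_nonneg_left h8 (by positivity)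
    rw [hi]
    push_cast
    linarith

theorem p_YUB (h_VAR : T_VAR) (h_PRB : T_PRB) (h_YUN : T_YUN) (h_YTL : T_YTL) (h_YSC : T_YSC) : T_YUB := by
  intro d p ε hd hp0 hp1 hε
  obtain ⟨C1, hC1, hU⟩ := h_YUN d (by omega)
  obtain ⟨C, c, hC, hc, hT⟩ := h_YTL d p hd hp0 hp1
  obtain ⟨-, hsc2, hsc3, hsc4, hsc5⟩ := h_YSC d hd
  set M : ℝ := 2 ^ (d + 1) + 2 * 16 ^ d * C * Real.exp c / ε with hM
  have hM0 : 0 < M := by positivity
  set J : ℝ := 2 + 2 * M / c with hJ
  have hJ2 : 2 ≤ J := by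
    have : 0 ≤ 2 * M / c := by positivity
    linarith
  refine ⟨J, by linarith, ?_⟩
  set E0 := Real.exp (-(c * J / 2)) with hE0
  have hE00 : 0 < E0 := Real.exp_pos _
  have hE0M : E0 * M ≤ 1 := by
    have h1 : M ≤ Real.exp (c * J / 2) := by
      have h2 : c * J / 2 + 1 ≤ Real.exp (c * J / 2) := Real.add_one_le_exp _
      have h3 : c * J / 2 = c + M := by
        rw [hJ]
        field_simp
      linarith
    have h4 := mul_le_mul_of_nonneg_left h1 hE00.le
    have h5 : E0 * Real.exp (c * J / 2) = 1 := by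
      rw [hE0, ← Real.exp_add]
      simp
    linarith
  have hE1 : 2 ^ d * E0 ≤ 1 / 2 := by
    have h1 : 0 ≤ E0 * (2 * 16 ^ d * C * Real.exp c / ε) := by positivity
    have h2 : E0 * M = 2 * (2 ^ d * E0) + E0 * (2 * 16 ^ d * C * Real.exp c / ε) := by
      rw [hM]
      ring
    linarith
  have hE2 : 2 * (16 ^ d * C * Real.exp c * E0) ≤ ε := by
    have h1 : 0 ≤ E0 * 2 ^ (d + 1) := by positivity
    have h2 : E0 * M = E0 * 2 ^ (d + 1) + 2 * (16 ^ d * C * Real.exp c * E0) / ε := by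
      rw [hM]
      ring
    have h3 : 2 * (16 ^ d * C * Real.exp c * E0) / ε ≤ 1 := by linarith
    rw [div_le_one hε] at h3
    exact h3
  filter_upwards [hT, hsc2, hsc4 C1, hsc5 1 0, hsc5 1 (d + 5), Filter.eventually_ge_atTop 2] with n hTn h2n h4n h50 h5d hn2
  haveI := PP_prob d hp0.le hp1.le
  obtain ⟨hfe, hre, hr0, hf0⟩ := hsc3 n hn2
  set f := fn d n with hf
  have hsqrt : 1 ≤ Real.sqrt n := by
    rw [Real.one_le_sqrt]
    exact_mod_cast (by omega : 1 ≤ n)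
  have hf1 : 1 ≤ f := by
    have := h50.1
    simp only [pow_zero, mul_one, one_mul] at this
    linarith
  have hℓ0 : (0 : ℝ) < ll d n := by
    have : 0 < ll d n := by unfold ll; omega
    exact_mod_cast this
  have hℓf : (ll d n : ℝ) ≤ f := by
    have h1 := h2n.2.2
    have h2 := h5d.1
    have h3 : rr d n ^ (d + 5) ≤ 1 * Real.sqrt n * rr d n ^ (d + 5) := by
      have : 0 ≤ rr d n ^ (d + 5) := by positivity
      nlinarith
    linarith
  set s := sn d n with hs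
  have hs0 : 0 < s := by
    rw [hs]
    unfold sn ss
    exact Real.rpow_pos_of_pos hr0 _
  -- the events
  set F : ℕ → Set (Env d) := fun j => {ω : Env d | xs d p n + J * (((j : ℝ) + 1) / 2) * s ≤ lam (opn ω (cub d (2 ^ j * ⌈f⌉₊)))} with hF
  have hsub : {ω : Env d | ∃ D : ℕ, D ≤ 4 * n ∧ xs d p n + J * (1 + Real.log (1 + D / f)) * s < lam (opn ω (cub d D))} ⊆
      ⋃ j ∈ Finset.range (4 * n + 1), F j := by
    rintro ω ⟨D, hD, hlt⟩
    obtain ⟨j, hj, hDj, hlog⟩ := YUB_idx f hf1 n D hD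
    rw [Set.mem_iUnion₂]
    refine ⟨j, hj, ?_⟩
    show xs d p n + J * (((j : ℝ) + 1) / 2) * s ≤ lam (opn ω (cub d (2 ^ j * ⌈f⌉₊)))
    have h1 : lam (opn ω (cub d D)) ≤ lam (opn ω (cub d (2 ^ j * ⌈f⌉₊))) :=
      (h_VAR d ℤ (by omega) (opn ω (cub d D))).2.2.2.1 _ (YUB_mono d ω _ _ hDj)
    have h2 : J * (((j : ℝ) + 1) / 2) * s ≤ J * (1 + Real.log (1 + D / f)) * s :=
      mul_le_mul_of_nonneg_right (mul_le_mul_of_nonneg_left hlog (by linarith)) hs0.le
    linarith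
  have hEj : ∀ j : ℕ, (PP d p).real (F j) ≤ (16 ^ d * C * Real.exp c * E0) * (2 ^ d * E0) ^ j := by
    intro j
    set Dj := 2 ^ j * ⌈f⌉₊ with hDj
    set x := xs d p n + J * (((j : ℝ) + 1) / 2) * s with hx
    have h1 := hU p (ll d n) (2 * Dj + 1) (fun _ => -(Dj : ℤ)) x hp0 hp1
    have h2 : (PP d p).real (F j) ≤ ((((2 * Dj + 1 : ℕ) : ℝ)) / (ll d n : ℝ) + 3) ^ d * TT d (2 * ll d n) p (x - C1 / (ll d n : ℝ) ^ 2) := by
      rw [← YUB_cub] at h1
      exact h1
    set J' := J * (((j : ℝ) + 1) / 2) - 1 with hJ'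
    have hJ'0 : 0 ≤ J' := by
      have hj0 : (0 : ℝ) ≤ j := by positivity
      have : 2 * (1 / 2) ≤ J * (((j : ℝ) + 1) / 2) := by
        apply mul_le_mul hJ2 (by linarith) (by norm_num) (by linarith)
      linarith
    have hss : C1 / (ll d n : ℝ) ^ 2 ≤ s := h4n
    have h3 : TT d (2 * ll d n) p (x - C1 / (ll d n : ℝ) ^ 2) ≤ TT d (2 * ll d n) p (xs d p n + J' * s) := by
      unfold TT
      apply (h_PRB (Tor d (2 * ll d n)) p hp0 hp1).2.2.1
      intro O hO
      have h4 : xs d p n + J' * s = x - s := by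
        rw [hx, hJ']
        ring
      linarith
    have h4 := (hTn J' hJ'0).1
    have hTT : TT d (2 * ll d n) p (x - C1 / (ll d n : ℝ) ^ 2) ≤ C * Real.exp (-c * J') * th d n := h3.trans h4
    have hDr : (Dj : ℝ) ≤ 2 ^ j * (2 * f) := by
      have h5 : (⌈f⌉₊ : ℝ) ≤ f + 1 := (Nat.ceil_lt_add_one (by linarith)).le
      rw [hDj]
      push_cast
      apply mul_le_mul_of_nonneg_left _ (by positivity)
      linarith
    have h2j : (1 : ℝ) ≤ 2 ^ j := one_le_pow₀ (by norm_num)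
    have hbase : (((2 * Dj + 1 : ℕ) : ℝ)) / (ll d n : ℝ) + 3 ≤ 16 * 2 ^ j * f / (2 * ll d n) := by
      rw [le_div_iff₀ (by positivity)]
      have h6 : ((((2 * Dj + 1 : ℕ) : ℝ)) / (ll d n : ℝ) + 3) * (2 * (ll d n : ℝ)) = 2 * ((2 * Dj + 1 : ℕ) : ℝ) + 6 * ll d n := by
        field_simp
        ring
      rw [h6]
      push_cast
      have h7 : f ≤ 2 ^ j * f := by nlinarith
      nlinarith
    have hbase0 : 0 ≤ (((2 * Dj + 1 : ℕ) : ℝ)) / (ll d n : ℝ) + 3 := by positivity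
    have hpow : ((((2 * Dj + 1 : ℕ) : ℝ)) / (ll d n : ℝ) + 3) ^ d ≤ (16 * 2 ^ j * f / (2 * ll d n)) ^ d :=
      pow_le_pow_left₀ hbase0 hbase d
    have hth : 0 < th d n := by
      unfold th
      positivity
    calc (PP d p).real (F j)
        ≤ ((((2 * Dj + 1 : ℕ) : ℝ)) / (ll d n : ℝ) + 3) ^ d * TT d (2 * ll d n) p (x - C1 / (ll d n : ℝ) ^ 2) := h2
      _ ≤ ((((2 * Dj + 1 : ℕ) : ℝ)) / (ll d n : ℝ) + 3) ^ d * (C * Real.exp (-c * J') * th d n) :=
          mul_le_mul_of_nonneg_left hTT (by positivity)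
      _ ≤ (16 * 2 ^ j * f / (2 * ll d n)) ^ d * (C * Real.exp (-c * J') * th d n) :=
          mul_le_mul_of_nonneg_right hpow (by positivity)
      _ = (16 * 2 ^ j) ^ d * (C * Real.exp (-c * J')) := by
          unfold th
          rw [← hf]
          have h8 : (16 * 2 ^ j * f / (2 * (ll d n : ℝ))) ^ d * (C * Real.exp (-c * J') * (2 * (ll d n : ℝ) / f) ^ d) =
              ((16 * 2 ^ j * f / (2 * (ll d n : ℝ))) * (2 * (ll d n : ℝ) / f)) ^ d * (C * Real.exp (-c * J')) := by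
            rw [mul_pow]
            ring
          rw [h8]
          congr 2
          field_simp
      _ = (16 ^ d * C * Real.exp c * E0) * (2 ^ d * E0) ^ j := by
          have h9 : Real.exp (-c * J') = Real.exp c * (E0 * E0 ^ j) := by
            rw [hE0, ← Real.exp_nat_mul, ← Real.exp_add, ← Real.exp_add, hJ']
            congr 1
            ring
          rw [h9, mul_pow, mul_pow, ← pow_mul, ← pow_mul, mul_comm j d]
          ring
  calc (PP d p).real {ω : Env d | ∃ D : ℕ, D ≤ 4 * n ∧ xs d p n + J * (1 + Real.log (1 + D / f)) * s < lam (opn ω (cub d D))}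
      ≤ (PP d p).real (⋃ j ∈ Finset.range (4 * n + 1), F j) := measureReal_mono hsub (measure_ne_top _ _)
    _ ≤ ∑ j ∈ Finset.range (4 * n + 1), (PP d p).real (F j) := measureReal_biUnion_finset_le _ _
    _ ≤ ∑ j ∈ Finset.range (4 * n + 1), (16 ^ d * C * Real.exp c * E0) * (2 ^ d * E0) ^ j :=
        Finset.sum_le_sum fun j _ => hEj j
    _ = (16 ^ d * C * Real.exp c * E0) * ∑ j ∈ Finset.range (4 * n + 1), (2 ^ d * E0) ^ j := by
        rw [Finset.mul_sum]
    _ ≤ (16 ^ d * C * Real.exp c * E0) * 2 :=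
        mul_le_mul_of_nonneg_left (YUB_geo _ (by positivity) hE1 _) (by positivity)
    _ ≤ ε := by linarith

end

end Pool.Agent.LBL
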