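import Pool.Agent.LBL.Wlk2
import Pool.Agent.LBL.Targets1

set_option autoImplicit false

/-!
# LBL-YUN: union bound for larger boxes
-/

open Finset MeasureTheory
open scoped Classical

namespace Pool.Agent.LBL

noncomputable section

theorem YUN_.lam_empty {d : ℕ} : lam (∅ : Finset (Fin d → ℤ)) = 0 := by
  unfold lam
  have : {t : ℝ | ∃ f : (Fin d → ℤ) → ℝ, Spp (∅ : Finset (Fin d → ℤ)) f ∧
      ∑ x ∈ (∅ : Finset (Fin d → ℤ)), f x ^ 2 = 1 ∧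
      t = ∑ x ∈ (∅ : Finset (Fin d → ℤ)), f x * P0 f x} = ∅ := by
    ext t
    simp
  rw [this, Real.sSup_empty]

/-- the grid indices which can matter -/
def YUN_.G {d : ℕ} (ℓ k : ℕ) (a : Fin d → ℤ) : Finset (Fin d → ℤ) :=
  Fintype.piFinset fun i => Finset.Icc (a i / (ℓ : ℤ) - 1) (a i / (ℓ : ℤ) + ((ℓ + k - 1 : ℤ) / (ℓ : ℤ)))

theorem YUN_.card_G {d : ℕ} (ℓ k : ℕ) (hl : 1 ≤ ℓ) (a : Fin d → ℤ) :
    ((YUN_.G ℓ k a).card : ℝ) ≤ ((k : ℝ) / ℓ + 3) ^ d := by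
  unfold YUN_.G
  rw [Fintype.card_piFinset]
  push_cast
  have hlr : (0 : ℝ) < (ℓ : ℝ) := by exact_mod_cast hl
  have hlz : (0 : ℤ) < (ℓ : ℤ) := by exact_mod_cast hl
  calc ∏ i : Fin d, (((Finset.Icc (a i / (ℓ : ℤ) - 1)
        (a i / (ℓ : ℤ) + ((ℓ + k - 1 : ℤ) / (ℓ : ℤ)))).card : ℕ) : ℝ)
      ≤ ∏ _i : Fin d, ((k : ℝ) / ℓ + 3) := by
        apply Finset.prod_le_prod
        · intro i _
          positivity
        · intro i _
          rw [Int.card_Icc]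
          have h0 : (0 : ℤ) ≤ (ℓ + k - 1 : ℤ) / (ℓ : ℤ) := by
            apply Int.ediv_nonneg _ hlz.le
            have : (0 : ℤ) ≤ (k : ℤ) := by positivity
            omega
          have h1 : a i / (ℓ : ℤ) + ((ℓ + k - 1 : ℤ) / (ℓ : ℤ)) + 1 - (a i / (ℓ : ℤ) - 1) =
              (ℓ + k - 1 : ℤ) / (ℓ : ℤ) + 2 := by ring
          rw [h1]
          have h2 : ((((ℓ + k - 1 : ℤ) / (ℓ : ℤ) + 2).toNat : ℕ) : ℝ) =
              (((ℓ + k - 1 : ℤ) / (ℓ : ℤ) + 2 : ℤ) : ℝ) := by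
            have h3 : ((((ℓ + k - 1 : ℤ) / (ℓ : ℤ) + 2).toNat : ℕ) : ℤ) =
                (ℓ + k - 1 : ℤ) / (ℓ : ℤ) + 2 := Int.toNat_of_nonneg (by omega)
            exact_mod_cast h3
          rw [h2]
          have h4 : (ℓ : ℤ) * ((ℓ + k - 1 : ℤ) / (ℓ : ℤ)) ≤ (ℓ + k - 1 : ℤ) := Int.mul_ediv_self_le hlz.ne'
          have h5 : (ℓ : ℝ) * (((ℓ + k - 1 : ℤ) / (ℓ : ℤ) : ℤ) : ℝ) ≤ (ℓ : ℝ) + k - 1 := by
            exact_mod_cast h4
          have h6 : (((ℓ + k - 1 : ℤ) / (ℓ : ℤ) : ℤ) : ℝ) ≤ (k : ℝ) / ℓ + 1 := by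
            have : (k : ℝ) / ℓ + 1 = (k + ℓ) / ℓ := by field_simp
            rw [this, le_div_iff₀ hlr]
            nlinarith
          push_cast
          push_cast at h6
          linarith
    _ = ((k : ℝ) / ℓ + 3) ^ d := by simp

theorem YUN_.mem_G {d : ℕ} (ℓ k : ℕ) (hl : 1 ≤ ℓ) (a κ z : Fin d → ℤ) (h1 : z ∈ boxF a k)
    (h2 : z ∈ boxF (fun i => (ℓ : ℤ) * κ i) (2 * ℓ)) : κ ∈ YUN_.G ℓ k a := by
  unfold YUN_.G
  rw [Fintype.mem_piFinset]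
  intro i
  unfold boxF at h1 h2
  rw [Fintype.mem_piFinset] at h1 h2
  have h1 := h1 i
  have h2 := h2 i
  rw [Finset.mem_Ico] at h1 h2
  push_cast at h2
  rw [Finset.mem_Icc]
  have hlz : (0 : ℤ) < (ℓ : ℤ) := by exact_mod_cast hl
  have e1 := Int.mul_ediv_add_emod (a i) (ℓ : ℤ)
  have e2 := Int.emod_nonneg (a i) hlz.ne'
  have e3 := Int.emod_lt_of_pos (a i) hlz
  constructor
  · have h3 : (ℓ : ℤ) * (a i / (ℓ : ℤ) - 2) < (ℓ : ℤ) * κ i := by nlinarith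
    have h4 := lt_of_mul_lt_mul_left h3 hlz.le
    omega
  · have h3 : (ℓ : ℤ) * (κ i - a i / (ℓ : ℤ)) ≤ ℓ + k - 1 := by nlinarith
    have h4 : κ i - a i / (ℓ : ℤ) ≤ (ℓ + k - 1 : ℤ) / (ℓ : ℤ) := by
      rw [Int.le_ediv_iff_mul_le hlz]
      linarith
    linarith

theorem p_YUN (h_YIG : T_YIG) (h_YBX : T_YBX) (h_PRB : T_PRB) (h_VAR : T_VAR) : T_YUN := by
  intro d hd
  obtain ⟨C1, hC1, hI⟩ := h_YIG d hd
  obtain ⟨C2, hC2, hB⟩ := h_YBX d hd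
  refine ⟨C1, hC1, ?_⟩
  intro p ℓ k _ a x hp hp1
  have := PP_prob d hp.le hp1.le
  have hl : 1 ≤ ℓ := by
    have := NeZero.ne (2 * ℓ)
    omega
  have hlr : (0 : ℝ) < (ℓ : ℝ) := by exact_mod_cast hl
  have hP := h_PRB (Tor d (2 * ℓ)) p hp hp1
  have hTT0 : 0 ≤ TT d (2 * ℓ) p (x - C1 / ℓ ^ 2) := (hP.2.1 _).1
  have hbase : (1 : ℝ) ≤ (k : ℝ) / ℓ + 3 := by
    have : 0 ≤ (k : ℝ) / ℓ := by positivity
    linarith
  by_cases hx : x ≤ 0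
  · have hT : TT d (2 * ℓ) p (x - C1 / ℓ ^ 2) = 1 := by
      unfold TT
      have h0 : (fun O : Finset (Tor d (2 * ℓ)) => x - C1 / ℓ ^ 2 ≤ lam O) = fun _ => True := by
        funext O
        have h1 := (h_VAR d (ZMod (2 * ℓ)) hd O).2.1
        have h2 : 0 < C1 / (ℓ : ℝ) ^ 2 := by positivity
        simp only [eq_iff_iff, iff_true]
        linarith
      rw [h0]
      exact hP.1
    rw [hT, mul_one]
    calc (PP d p).real {ω | x ≤ lam (opn ω (boxF a k))} ≤ 1 := measureReal_le_one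
      _ ≤ ((k : ℝ) / ℓ + 3) ^ d := one_le_pow₀ hbase
  · push Not at hx
    have hsub : {ω : Env d | x ≤ lam (opn ω (boxF a k))} ⊆
        ⋃ κ ∈ YUN_.G ℓ k a, {ω : Env d | x - C1 / ℓ ^ 2 ≤ lam (opn ω (boxF (fun i => (ℓ : ℤ) * κ i) (2 * ℓ)))} := by
      intro ω hω
      have hω' : x ≤ lam (opn ω (boxF a k)) := hω
      have hne : (opn ω (boxF a k)).Nonempty := by
        by_contra hcon
        rw [Finset.not_nonempty_iff_eq_empty] at hcon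
        rw [hcon, YUN_.lam_empty] at hω'
        linarith
      obtain ⟨κ, h1, h2⟩ := (hI ℓ (opn ω (boxF a k)) x hl hne hω').2
      obtain ⟨z, hz⟩ := h2
      rw [Finset.mem_inter] at hz
      have hz1 : z ∈ boxF a k := (Finset.mem_filter.1 hz.1).1
      rw [Set.mem_iUnion₂]
      refine ⟨κ, YUN_.mem_G ℓ k hl a κ z hz1 hz.2, ?_⟩
      show x - C1 / ℓ ^ 2 ≤ _
      refine h1.trans ((h_VAR d ℤ hd _).2.2.2.1 _ ?_)
      intro y hy
      rw [Finset.mem_inter] at hy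
      unfold opn at hy ⊢
      rw [Finset.mem_filter] at hy ⊢
      exact ⟨hy.2, hy.1.2⟩
    calc (PP d p).real {ω | x ≤ lam (opn ω (boxF a k))}
        ≤ (PP d p).real (⋃ κ ∈ YUN_.G ℓ k a,
          {ω : Env d | x - C1 / ℓ ^ 2 ≤ lam (opn ω (boxF (fun i => (ℓ : ℤ) * κ i) (2 * ℓ)))}) :=
          measureReal_mono hsub (measure_ne_top _ _)
      _ ≤ ∑ κ ∈ YUN_.G ℓ k a, (PP d p).real
          {ω : Env d | x - C1 / ℓ ^ 2 ≤ lam (opn ω (boxF (fun i => (ℓ : ℤ) * κ i) (2 * ℓ)))} :=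
          measureReal_biUnion_finset_le _ _
      _ ≤ ∑ _κ ∈ YUN_.G ℓ k a, TT d (2 * ℓ) p (x - C1 / ℓ ^ 2) := by
          apply Finset.sum_le_sum
          intro κ _
          exact (hB p ℓ _ _ hp hp1).1
      _ = (YUN_.G ℓ k a).card * TT d (2 * ℓ) p (x - C1 / ℓ ^ 2) := by
          rw [Finset.sum_const, nsmul_eq_mul]
      _ ≤ ((k : ℝ) / ℓ + 3) ^ d * TT d (2 * ℓ) p (x - C1 / ℓ ^ 2) :=
          mul_le_mul_of_nonneg_right (YUN_.card_G ℓ k hl a) hTT0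

end

end Pool.Agent.LBL
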