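import Pool.Agent.LBL.Wlk3
import Pool.Agent.LBL.Targets1

/-!
# LBL: upper bound of the distance, deterministic part (job LBL-YUP, helper66)
-/

set_option autoImplicit false

open Finset MeasureTheory Filter Topology
open scoped Classical

namespace Pool.Agent.LBL

noncomputable section

namespace YUP_

/-- logarithm against a linear function -/
theorem logb (J c1 : ℝ) (hJ : 0 < J) (hc1 : 0 < c1) :
    ∃ z1 : ℝ, 0 < z1 ∧ ∀ z : ℝ, z1 ≤ z → 4 * J * (1 + Real.log (1 + 2 * z)) ≤ c1 * z := by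
  set η : ℝ := c1 / (16 * J) with hη
  have hη0 : 0 < η := by positivity
  have hηl : 0 < η - Real.log η := by
    have := Real.log_le_sub_one_of_pos hη0
    linarith
  refine ⟨8 * J * (η - Real.log η) / c1, by positivity, ?_⟩
  intro z hz
  rw [div_le_iff₀ hc1] at hz
  have hz0 : 0 < z := by
    by_contra h
    push Not at h
    have h1 : z * c1 ≤ 0 := mul_nonpos_of_nonpos_of_nonneg h hc1.le
    have h2 : 0 < 8 * J * (η - Real.log η) := by positivity
    linarith
  have h1 : Real.log (η * (1 + 2 * z)) ≤ η * (1 + 2 * z) - 1 :=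
    Real.log_le_sub_one_of_pos (by positivity)
  rw [Real.log_mul hη0.ne' (by positivity)] at h1
  have h2 : 16 * J * η = c1 := by
    rw [hη]
    field_simp
  have h3 : 4 * J * (1 + Real.log (1 + 2 * z)) ≤ 4 * J * (η - Real.log η + 2 * η * z) := by
    apply mul_le_mul_of_nonneg_left _ (by positivity)
    linarith
  have h4 : 4 * J * (η - Real.log η + 2 * η * z) =
      4 * J * (η - Real.log η) + 16 * J * η * z / 2 := by ring
  rw [h4, h2] at h3
  linarith

theorem wk_mono {d : ℕ} (x : Fin d → ℤ) (n : ℕ) (E E' : (ℕ → Fin d → ℤ) → Prop)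
    (h : ∀ u, E u → E' u) : wk x n E ≤ wk x n E' := by
  unfold wk
  apply div_le_div_of_nonneg_right _ (by positivity)
  have h1 : (Finset.univ.filter fun s : Fin n → Fin d × Bool => E (trj x s)).card ≤
      (Finset.univ.filter fun s : Fin n → Fin d × Bool => E' (trj x s)).card := by
    apply Finset.card_le_card
    intro s hs
    rw [Finset.mem_filter] at hs ⊢
    exact ⟨hs.1, h _ hs.2⟩
  exact_mod_cast h1

/-- Euclidean norm and sup norm -/
theorem sqrt_le {d : ℕ} (x : Fin d → ℤ) :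
    Real.sqrt (∑ i, (x i : ℝ) ^ 2) ≤ Real.sqrt d * nrm x := by
  have h1 : ∀ i, (x i : ℝ) ^ 2 ≤ (nrm x : ℝ) ^ 2 := by
    intro i
    have h2 : (x i).natAbs ≤ nrm x :=
      Finset.le_sup (f := fun i => (x i).natAbs) (Finset.mem_univ i)
    have h3 : |(x i : ℝ)| ≤ (nrm x : ℝ) := by
      rw [← Int.cast_abs, Int.abs_eq_natAbs]
      exact_mod_cast h2
    calc (x i : ℝ) ^ 2 = |(x i : ℝ)| ^ 2 := (sq_abs _).symm
      _ ≤ (nrm x : ℝ) ^ 2 := pow_le_pow_left₀ (abs_nonneg _) h3 2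
  have h4 : ∑ i, (x i : ℝ) ^ 2 ≤ d * (nrm x : ℝ) ^ 2 := by
    calc ∑ i, (x i : ℝ) ^ 2 ≤ ∑ _i : Fin d, (nrm x : ℝ) ^ 2 := Finset.sum_le_sum fun i _ => h1 i
      _ = d * (nrm x : ℝ) ^ 2 := by
          rw [Finset.sum_const, Finset.card_univ, Fintype.card_fin, nsmul_eq_mul]
  calc Real.sqrt (∑ i, (x i : ℝ) ^ 2) ≤ Real.sqrt (d * (nrm x : ℝ) ^ 2) := Real.sqrt_le_sqrt h4
    _ = Real.sqrt d * nrm x := by
        rw [Real.sqrt_mul (by positivity), Real.sqrt_sq (by positivity)]

/-- one term -/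
theorem term (X b f c1 J D lm : ℝ) (n : ℕ) (s : ℝ) (hX : 1 / 2 ≤ X) (hb : 0 ≤ b)
    (hlm0 : 0 ≤ lm) (hlm : lm ≤ X + b) (hf : f = n * s)
    (hbs : b = J * (1 + Real.log (1 + 2 * D / f)) * s)
    (hD : 4 * J * (f * (1 + Real.log (1 + 2 * D / f))) ≤ c1 * D) :
    Real.exp (-c1 * D) * lm ^ n ≤ X ^ n * Real.exp (-(c1 * D / 2)) := by
  have h1 : X + b ≤ X * Real.exp (2 * b) := by
    have h2 := Real.add_one_le_exp (2 * b)
    have h3 : X * (2 * b + 1) ≤ X * Real.exp (2 * b) :=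
      mul_le_mul_of_nonneg_left h2 (by linarith)
    have h4 : b ≤ X * (2 * b) := by nlinarith
    linarith
  have h5 : lm ^ n ≤ X ^ n * Real.exp (n * (2 * b)) := by
    calc lm ^ n ≤ (X * Real.exp (2 * b)) ^ n := pow_le_pow_left₀ hlm0 (hlm.trans h1) n
      _ = X ^ n * Real.exp (n * (2 * b)) := by
          rw [mul_pow, Real.exp_nat_mul]
  have h6 : n * (2 * b) = 2 * J * (f * (1 + Real.log (1 + 2 * D / f))) := by
    rw [hbs]
    conv_rhs => rw [hf]
    rw [hf]
    ring
  calc Real.exp (-c1 * D) * lm ^ n ≤ Real.exp (-c1 * D) * (X ^ n * Real.exp (n * (2 * b))) :=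
        mul_le_mul_of_nonneg_left h5 (Real.exp_pos _).le
    _ = X ^ n * Real.exp (-c1 * D + n * (2 * b)) := by
        rw [Real.exp_add]
        ring
    _ ≤ X ^ n * Real.exp (-(c1 * D / 2)) := by
        apply mul_le_mul_of_nonneg_left _ (by positivity)
        apply Real.exp_le_exp.2
        rw [h6]
        linarith

end YUP_

open YUP_ in
theorem p_YUP (h_YML : T_YML) (h_YDS : T_YDS) (h_YXS : T_YXS) (h_YSC : T_YSC) (h_VAR : T_VAR) :
    T_YUP := by
  intro d p C0 J c1 hd hp0 hp1 hC0 hJ hc1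
  obtain ⟨a, A, C, -, -, -, hXS⟩ := h_YXS d p hd hp0 hp1
  obtain ⟨hsc1, -, hsc3, -, hsc5⟩ := h_YSC d hd
  obtain ⟨z1, hz1, hlog⟩ := logb J c1 hJ hc1
  have hd0 : (0 : ℝ) < d := by exact_mod_cast (by omega : 0 < d)
  have hs0 : 0 < Real.sqrt d := Real.sqrt_pos.2 hd0
  set M : ℝ := 2 + 2 * z1 + 4 * (C0 + 1) / c1 with hM
  have hM1 : 0 < 4 * (C0 + 1) / c1 := by positivity
  have hM0 : 0 < M := by linarith
  refine ⟨Real.sqrt d * M, by positivity, ?_⟩
  filter_upwards [hXS, hsc5 1 0, eventually_ge_atTop 200] with n hxs hn5 hn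
  intro ω B hwk hWW hUB hqc
  by_contra hcon
  push Not at hcon
  obtain ⟨-, -, -, hX2, hX1⟩ := hxs
  obtain ⟨hff, -, hrr, hf0⟩ := hsc3 n (by omega)
  set f : ℝ := fn d n with hf
  have hnR : (200 : ℝ) ≤ n := by exact_mod_cast hn
  have hsf : Real.sqrt n ≤ f := by
    have := hn5.1
    rwa [one_mul, pow_zero, mul_one] at this
  have hf1 : 1 ≤ f := by
    refine le_trans ?_ hsf
    rw [show (1 : ℝ) = Real.sqrt 1 by rw [Real.sqrt_one]]
    exact Real.sqrt_le_sqrt (by linarith)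
  set D' : ℝ := M * f with hD'
  set D0 : ℕ := ⌈f⌉₊ with hD0
  have hD0f : f ≤ D0 := Nat.le_ceil f
  have hD0f' : (D0 : ℝ) ≤ f + 1 := (Nat.ceil_lt_add_one hf0.le).le
  have hD01 : 1 ≤ D0 := by
    have : (1 : ℝ) ≤ D0 := le_trans hf1 hD0f
    exact_mod_cast this
  have hD0D' : (D0 : ℝ) ≤ D' := by
    have h1 : 2 * f ≤ M * f := mul_le_mul_of_nonneg_right (by linarith) hf0.le
    linarith
  -- reduction to a far away end point
  have h1 := h_YML d n ω B {n} (by omega) (by
    intro t ht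
    rw [Finset.mem_singleton] at ht
    rw [ht, Finset.card_singleton]
    norm_num
    linarith)
  have h2 : wk 0 n (fun u => alv ω n u ∧ ∀ t ∈ ({n} : Finset ℕ), u t ∈ B) ≤
      wk 0 n (fun u => alv ω n u ∧ D' ≤ nrm (u n)) := by
    apply wk_mono
    rintro u ⟨hu1, hu2⟩
    refine ⟨hu1, ?_⟩
    have h3 := hcon (u n) (hu2 n (Finset.mem_singleton_self n))
    have h4 := sqrt_le (u n)
    have h5 : Real.sqrt d * (M * f) < Real.sqrt d * nrm (u n) := by
      calc Real.sqrt d * (M * f) = Real.sqrt d * M * f := by ring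
        _ < Real.sqrt (∑ i, (u n i : ℝ) ^ 2) := h3
        _ ≤ _ := h4
    exact (lt_of_mul_lt_mul_left h5 hs0.le).le
  have hY := (h_YDS d n n D0 c1 ω 0 D' (by omega) hD01 le_rfl (by
    have h3 : nrm (0 : Fin d → ℤ) = 0 := by
      unfold nrm
      simp
    rw [h3]
    omega) (by
    intro D hD1 hD2
    apply hWW D _ hD2
    rw [one_mul]
    exact le_trans hD0f (by exact_mod_cast hD1))).2 hD0D'
  -- terms
  have hX0 : 0 < xs d p n := by linarith
  have hsn0 : 0 ≤ sn d n := by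
    unfold sn ss
    exact Real.rpow_nonneg hrr.le _
  have hterm : ∀ j ∈ (Finset.range (n + 2)).filter
      (fun j => 2 ^ j * D0 ≤ 2 * n ∧ D' < 2 * (2 ^ j * D0)),
      Real.exp (-c1 * (2 ^ j * D0)) * lam (opn ω (cub d (2 * (2 ^ j * D0)))) ^ n ≤
      xs d p n ^ n * Real.exp (-((C0 + 1) * f)) := by
    intro j hj
    rw [Finset.mem_filter] at hj
    obtain ⟨-, hj1, hj2⟩ := hj
    set D : ℝ := 2 ^ j * D0 with hD
    have hDf : M * f / 2 < D := by linarith
    have hD0' : 0 < D := lt_of_le_of_lt (by positivity) hDf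
    have hub := hUB (2 * (2 ^ j * D0)) (by omega)
    have hcast : ((2 * (2 ^ j * D0) : ℕ) : ℝ) = 2 * D := by
      rw [hD]
      push_cast
      ring
    rw [hcast] at hub
    have hlog0 : 0 ≤ Real.log (1 + 2 * D / f) := Real.log_nonneg (by
      have : 0 ≤ 2 * D / f := by positivity
      linarith)
    have hz : z1 ≤ D / f := by
      rw [le_div_iff₀ hf0]
      have h3 : 2 * z1 * f ≤ M * f := mul_le_mul_of_nonneg_right (by linarith) hf0.le
      linarith
    have hl := hlog (D / f) hz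
    have hl2 : 4 * J * (f * (1 + Real.log (1 + 2 * D / f))) ≤ c1 * D := by
      have h3 : 2 * (D / f) = 2 * D / f := by ring
      rw [h3] at hl
      have h4 := mul_le_mul_of_nonneg_right hl hf0.le
      have h5 : c1 * (D / f) * f = c1 * D := by
        field_simp
      rw [h5] at h4
      linarith
    have hlm0 : 0 ≤ lam (opn ω (cub d (2 * (2 ^ j * D0)))) :=
      (h_VAR d ℤ (by omega) _).2.1
    have ht := term (xs d p n) (J * (1 + Real.log (1 + 2 * D / f)) * sn d n) f c1 J D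
      (lam (opn ω (cub d (2 * (2 ^ j * D0))))) n (sn d n) hX2 (by positivity) hlm0 hub hff rfl hl2
    refine le_trans ht ?_
    apply mul_le_mul_of_nonneg_left _ (by positivity)
    apply Real.exp_le_exp.2
    have h6 : 4 * (C0 + 1) / c1 * f ≤ M * f := mul_le_mul_of_nonneg_right (by linarith) hf0.le
    have h7 : 4 * (C0 + 1) / c1 * f * c1 = 4 * (C0 + 1) * f := by
      field_simp
    have h8 : 4 * (C0 + 1) * f ≤ M * f * c1 := by
      rw [← h7]
      exact mul_le_mul_of_nonneg_right h6 hc1.le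
    have h9 : M * f / 2 * c1 ≤ D * c1 := mul_le_mul_of_nonneg_right hDf.le hc1.le
    linarith
  have hsum : wk 0 n (fun u => alv ω n u ∧ D' ≤ nrm (u n)) ≤
      (n + 2) * (xs d p n ^ n * Real.exp (-((C0 + 1) * f))) := by
    refine le_trans hY (le_trans (Finset.sum_le_card_nsmul _ _ _ hterm) ?_)
    rw [nsmul_eq_mul]
    apply mul_le_mul_of_nonneg_right _ (by positivity)
    have h3 := Finset.card_filter_le (Finset.range (n + 2))
      (fun j => 2 ^ j * D0 ≤ 2 * n ∧ D' < 2 * (2 ^ j * D0))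
    rw [Finset.card_range] at h3
    exact_mod_cast h3
  -- contradiction
  have hXn : 0 < xs d p n ^ n := by positivity
  have h10 : xs d p n ^ n * Real.exp (-C0 * f) ≤
      xs d p n ^ n * (2 * (n + 2) * Real.exp (-((C0 + 1) * f))) := by
    calc xs d p n ^ n * Real.exp (-C0 * f) ≤ wk 0 n (alv ω n) := hwk
      _ ≤ 2 * ((n + 2) * (xs d p n ^ n * Real.exp (-((C0 + 1) * f)))) := by linarith
      _ = _ := by ring
  have h11 := le_of_mul_le_mul_left h10 hXn
  have h12 : Real.exp (-((C0 + 1) * f)) = Real.exp (-C0 * f) * Real.exp (-f) := by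
    rw [← Real.exp_add]
    congr 1
    ring
  rw [h12] at h11
  have h13 : Real.exp f ≤ 2 * (n + 2) := by
    have h14 : 0 < Real.exp (-C0 * f) := Real.exp_pos _
    have h15 : Real.exp (-C0 * f) * 1 ≤ Real.exp (-C0 * f) * (2 * (n + 2) * Real.exp (-f)) := by
      linarith
    have h16 := le_of_mul_le_mul_left h15 h14
    have h17 := mul_le_mul_of_nonneg_right h16 (Real.exp_pos f).le
    have h18 : 2 * ((n : ℝ) + 2) * Real.exp (-f) * Real.exp f = 2 * (n + 2) := by
      rw [mul_assoc, ← Real.exp_add, neg_add_cancel, Real.exp_zero, mul_one]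
    rw [h18] at h17
    linarith
  have h19 : (n : ℝ) ^ 2 / 24 ≤ Real.exp f := by
    have h20 := Real.pow_div_factorial_le_exp (Real.sqrt n) (Real.sqrt_nonneg _) 4
    have h21 : Real.sqrt n ^ 4 = (n : ℝ) ^ 2 := by
      have h22 : Real.sqrt n ^ 4 = (Real.sqrt n ^ 2) ^ 2 := by ring
      rw [h22, Real.sq_sqrt (by positivity)]
    rw [h21] at h20
    have h23 : ((Nat.factorial 4 : ℕ) : ℝ) = 24 := by norm_num [Nat.factorial]
    rw [h23] at h20
    exact le_trans h20 (Real.exp_le_exp.2 hsf)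
  nlinarith

end

end Pool.Agent.LBL
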