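import Pool.Agent.LBL.Wlk1
import Pool.Agent.LBL.Targets1

set_option autoImplicit false

/-!
# LBL: target YVS (visited sites in killing blocks)
-/

open Finset
open scoped Classical

namespace Pool.Agent.LBL

noncomputable section

namespace YVS_

theorem nrm_blk {d : ℕ} (l : ℕ) (x : Fin d → ℤ) : nrm (blk l x) ≤ nrm x := by
  unfold nrm
  refine Finset.sup_le fun i hi => ?_
  refine le_trans ?_ (Finset.le_sup (f := fun i => (x i).natAbs) hi)
  unfold blk
  exact Int.natAbs_ediv_le_natAbs (x i) (l : ℤ)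

/-- cube around `z` -/
def cb {d : ℕ} (z : Fin d → ℤ) (w : ℕ) : Finset (Fin d → ℤ) :=
  Fintype.piFinset fun i => Finset.Icc (z i - w) (z i + w)

theorem card_cb {d : ℕ} (z : Fin d → ℤ) (w : ℕ) : (cb z w).card = (2 * w + 1) ^ d := by
  unfold cb
  rw [Fintype.card_piFinset]
  have h : ∀ i : Fin d, (Finset.Icc (z i - (w : ℤ)) (z i + w)).card = 2 * w + 1 := by
    intro i
    rw [Int.card_Icc]
    omega
  rw [Finset.prod_congr rfl fun i _ => h i]
  simp

theorem mem_cb {d : ℕ} {v z : Fin d → ℤ} {w : ℕ} (h : nrm (v - z) ≤ w) : v ∈ cb z w := by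
  unfold cb
  rw [Fintype.mem_piFinset]
  intro i
  have h1 : (v i - z i).natAbs ≤ w :=
    le_trans (Finset.le_sup (f := fun i => ((v - z) i).natAbs) (Finset.mem_univ i)) h
  rw [Finset.mem_Icc]
  omega

end YVS_

theorem p_YVS (h_YGE : T_YGE) : T_YVS := by
  intro d l k D m w ω u U N V hl hk hD hnb h0 hfar hU hBK hV
  obtain ⟨γ, hγ0, hinj, hγnb, hvis⟩ := h_YGE d l k D m u hl hk hD hnb h0 hfar
  have hn0 : nrm (γ 0) ≤ D := by
    rw [hγ0]
    have h1 := YVS_.nrm_blk l (u 0)
    omega
  have hcard := hBK γ hn0 hinj hγnb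
  choose! j hjm hj using hvis
  set K := (Finset.range k).filter fun i => kil ω l (γ i) with hK
  have hKmem : ∀ i ∈ K, i < k ∧ kil ω l (γ i) := by
    intro i hi
    rw [hK, Finset.mem_filter, Finset.mem_range] at hi
    exact hi
  set K1 := K.filter fun i => ∃ z ∈ N, nrm (u (j i) - z) ≤ w with hK1
  set K2 := K.filter fun i => ¬ ∃ z ∈ N, nrm (u (j i) - z) ≤ w with hK2
  have hsum : K1.card + K2.card = K.card := Finset.card_filter_add_card_filter_not _
  have hinj' : ∀ i ∈ K, ∀ i' ∈ K, u (j i) = u (j i') → i = i' := by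
    intro i hi i' hi' h
    have h1 := (hKmem i hi).1
    have h2 := (hKmem i' hi').1
    refine hinj i h1 i' h2 ?_
    rw [← hj i h1, ← hj i' h2, h]
  have hc1 : K1.card ≤ N.card * (2 * w + 1) ^ d := by
    have h1 : K1.card ≤ (N.biUnion fun z => YVS_.cb z w).card := by
      refine Finset.card_le_card_of_injOn (fun i => u (j i)) ?_ ?_
      · intro i hi
        rw [Finset.mem_coe, hK1, Finset.mem_filter] at hi
        obtain ⟨_, z, hz, hw⟩ := hi
        rw [Finset.mem_coe, Finset.mem_biUnion]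
        exact ⟨z, hz, YVS_.mem_cb hw⟩
      · intro i hi i' hi' h
        exact hinj' i (Finset.filter_subset _ _ hi) i' (Finset.filter_subset _ _ hi') h
    refine h1.trans (Finset.card_biUnion_le_card_mul _ _ _ fun z _ => ?_)
    rw [YVS_.card_cb]
  have hc2 : K2.card ≤ (V.filter fun v => ∃ j ≤ m, u j = v).card := by
    refine Finset.card_le_card_of_injOn (fun i => u (j i)) ?_ ?_
    · intro i hi
      rw [Finset.mem_coe, hK2, Finset.mem_filter] at hi
      obtain ⟨hiK, hfar'⟩ := hi
      push Not at hfar'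
      obtain ⟨hik, hkil⟩ := hKmem i hiK
      rw [Finset.mem_coe, Finset.mem_filter]
      refine ⟨hV _ (hU _ (hjm i hik)) ?_ hfar', j i, hjm i hik, rfl⟩
      rw [hj i hik]
      exact hkil
    · intro i hi i' hi' h
      exact hinj' i (Finset.filter_subset _ _ hi) i' (Finset.filter_subset _ _ hi') h
  have h1 : (K1.card : ℝ) ≤ N.card * (2 * w + 1) ^ d := by exact_mod_cast hc1
  have h2 : (K2.card : ℝ) ≤ ((V.filter fun v => ∃ j ≤ m, u j = v).card : ℝ) := by
    exact_mod_cast hc2
  have h3 : (K1.card : ℝ) + K2.card = K.card := by exact_mod_cast hsum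
  linarith

end

end Pool.Agent.LBL
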