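import Pool.Agent.LBL.Wlk1
import Pool.Agent.LBL.Targets1

set_option autoImplicit false
set_option linter.unusedSectionVars false

/-!
# LBL-YWD: the walk estimate, deterministic
-/

open Finset
open scoped Classical

namespace Pool.Agent.LBL

noncomputable section

namespace YWD_

variable {d : ℕ}

theorem mem_box {a : Fin d → ℤ} {k : ℕ} {x : Fin d → ℤ} :
    x ∈ boxF a k ↔ ∀ i, a i ≤ x i ∧ x i < a i + k := by
  unfold boxF
  rw [Fintype.mem_piFinset]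
  simp only [Finset.mem_Ico]

theorem mem_cub {k : ℕ} {x : Fin d → ℤ} : x ∈ cub d k ↔ ∀ i, -(k : ℤ) ≤ x i ∧ x i ≤ k := by
  unfold cub
  rw [Fintype.mem_piFinset]
  simp only [Finset.mem_Icc]

theorem box_sub (ℓ : ℕ) (hℓ : 1 ≤ ℓ) (a : Fin d → ℤ) :
    boxF a ℓ ⊆ boxF (fun i => (ℓ : ℤ) * (a i / (ℓ : ℤ))) (2 * ℓ) := by
  intro x hx
  rw [mem_box] at hx ⊢
  intro i
  have hp : (0 : ℤ) < ℓ := by exact_mod_cast hℓ
  have h1 := Int.emod_add_mul_ediv (a i) (ℓ : ℤ)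
  have h2 := Int.emod_nonneg (a i) hp.ne'
  have h3 := Int.emod_lt_of_pos (a i) hp
  have h4 := hx i
  push_cast
  constructor
  · linarith [h4.1]
  · linarith [h4.2]

theorem lam_empty : lam (∅ : Finset (Fin d → ℤ)) = 0 := by
  unfold lam
  have : {t : ℝ | ∃ f : (Fin d → ℤ) → ℝ, Spp ∅ f ∧ ∑ x ∈ (∅ : Finset (Fin d → ℤ)), f x ^ 2 = 1 ∧
      t = ∑ x ∈ (∅ : Finset (Fin d → ℤ)), f x * P0 f x} = ∅ := by
    ext t
    simp
  rw [this, Real.sSup_empty]

theorem far_empty (ℓ n D : ℕ) (hℓ : 2 ≤ ℓ) (hn : 1 ≤ n) (hD : D ≤ 2 * n) (k : Fin d → ℤ)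
    (hk : k ∉ cub d (4 * n)) (U : Finset (Fin d → ℤ)) (hU : U ⊆ cub d (2 * D)) :
    U ∩ boxF (fun i => (ℓ : ℤ) * k i) (2 * ℓ) = ∅ := by
  rw [Finset.eq_empty_iff_forall_notMem]
  intro x hx
  rw [Finset.mem_inter, mem_box] at hx
  have h1 := mem_cub.1 (hU hx.1)
  apply hk
  rw [mem_cub]
  intro i
  have h2 := h1 i
  have h3 := hx.2 i
  push_cast at h2 h3 ⊢
  have hℓ' : (2 : ℤ) ≤ ℓ := by exact_mod_cast hℓ
  have hn' : (1 : ℤ) ≤ n := by exact_mod_cast hn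
  have hD' : (D : ℤ) ≤ 2 * n := by exact_mod_cast hD
  constructor
  · by_contra hc
    have h4 : k i ≤ -(4 * (n : ℤ)) - 1 := by omega
    have h5 : (ℓ : ℤ) * (k i + 2) ≤ ℓ * (-(4 * (n : ℤ)) + 1) :=
      mul_le_mul_of_nonneg_left (by linarith) (by linarith)
    have h6 : (ℓ : ℤ) * (-(4 * (n : ℤ)) + 1) ≤ 2 * (-(4 * (n : ℤ)) + 1) := by nlinarith
    nlinarith
  · by_contra hc
    have h4 : 4 * (n : ℤ) + 1 ≤ k i := by omega
    have h5 : 2 * (4 * (n : ℤ) + 1) ≤ (ℓ : ℤ) * k i := by nlinarith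
    nlinarith

theorem card_box (a : Fin d → ℤ) (k : ℕ) : (boxF a k).card = k ^ d := by
  unfold boxF
  rw [Fintype.card_piFinset]
  simp

theorem card_cub (k : ℕ) : (cub d k).card = (2 * k + 1) ^ d := by
  unfold cub
  rw [Fintype.card_piFinset]
  simp only [Int.card_Icc, Finset.prod_const, Finset.card_univ, Fintype.card_fin]
  congr 1
  omega

/-- union of the islands -/
def NN (ω : Env d) (ℓ R : ℕ) (y : ℝ) : Finset (Fin d → ℤ) :=
  (isl ω ℓ R y).biUnion fun k => boxF (fun i => (ℓ : ℤ) * k i) (2 * ℓ)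

theorem card_NN (ω : Env d) (ℓ R : ℕ) (y : ℝ) :
    (NN ω ℓ R y).card ≤ (isl ω ℓ R y).card * (2 * ℓ) ^ d := by
  unfold NN
  refine Finset.card_biUnion_le.trans ?_
  rw [Finset.sum_congr rfl fun k _ => card_box (fun i => (ℓ : ℤ) * k i) (2 * ℓ)]
  rw [Finset.sum_const, smul_eq_mul]

/-- every small box is in an island or has a small eigenvalue -/
theorem dich (h_VAR : T_VAR) (hd : 1 ≤ d) (ω : Env d) (ℓ n D : ℕ) (y : ℝ) (hy : 0 ≤ y)
    (hℓ : 2 ≤ ℓ) (hn : 1 ≤ n) (hD : D ≤ 2 * n) (a : Fin d → ℤ) :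
    boxF a ℓ ⊆ NN ω ℓ (4 * n) y ∨ lam (opn ω (cub d (2 * D)) ∩ boxF a ℓ) ≤ y := by
  have hsub := box_sub ℓ (by omega) a
  by_cases hk : (fun i => a i / (ℓ : ℤ)) ∈ cub d (4 * n)
  · by_cases hy2 : y ≤ lam (opn ω (boxF (fun i => (ℓ : ℤ) * (a i / (ℓ : ℤ))) (2 * ℓ)))
    · left
      refine hsub.trans ?_
      unfold NN isl
      intro x hx
      rw [Finset.mem_biUnion]
      exact ⟨fun i => a i / (ℓ : ℤ), Finset.mem_filter.2 ⟨hk, hy2⟩, hx⟩
    · right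
      refine le_trans ?_ (not_le.1 hy2).le
      apply (h_VAR d ℤ hd _).2.2.2.1
      intro x hx
      rw [Finset.mem_inter] at hx
      unfold opn at hx ⊢
      rw [Finset.mem_filter] at hx ⊢
      exact ⟨hsub hx.2, hx.1.2⟩
  · right
    have h1 : opn ω (cub d (2 * D)) ∩ boxF a ℓ = ∅ := by
      rw [← Finset.subset_empty, ← far_empty ℓ n D hℓ hn hD _ hk (opn ω (cub d (2 * D)))
        (Finset.filter_subset _ _)]
      exact Finset.inter_subset_inter_left hsub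
    rw [h1, lam_empty]
    exact hy

/-- the sites of killing blocks far from the islands -/
def VV (ω : Env d) (l w : ℕ) (U N : Finset (Fin d → ℤ)) : Finset (Fin d → ℤ) :=
  U.filter fun v => kil ω l (blk l v) ∧ ∀ z ∈ N, w < nrm (v - z)

theorem le_nrm (x : Fin d → ℤ) (i : Fin d) : (x i).natAbs ≤ nrm x := by
  unfold nrm
  exact Finset.le_sup (f := fun i => (x i).natAbs) (Finset.mem_univ i)

/-- walk bound by Chebyshev -/
theorem walk (h_YCH : T_YCH) (h_YVS : T_YVS) (h_YRC : T_YRC) (hd : 1 ≤ d) (l k D m w M : ℕ)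
    (ω : Env d) (N : Finset (Fin d → ℤ)) (κ Λ : ℝ) (x : Fin d → ℤ) (hl : 1 ≤ l) (hk : 1 ≤ k)
    (hkD : 2 * l * k ≤ D) (hBK : BK ω l k D) (hκ0 : 0 < κ) (hκ1 : κ ≤ 1 / 2) (hΛ : 0 ≤ Λ)
    (hx : 2 * nrm x ≤ D)
    (hform : ∀ f : (Fin d → ℤ) → ℝ, Spp (opn ω (cub d (2 * D))) f →
      ∑ z ∈ opn ω (cub d (2 * D)), f z * P0 f z ≤ Λ * ∑ z ∈ opn ω (cub d (2 * D)),
        mw κ (VV ω l w (opn ω (cub d (2 * D))) N) z * f z ^ 2)
    (hM : (M : ℝ) ≤ (k : ℝ) / 2 - N.card * (2 * w + 1) ^ d) :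
    wk x m (fun u => alv ω m u ∧ (∃ j ≤ m, D ≤ nrm (u j)) ∧ ∀ j ≤ m, nrm (u j) < 2 * D) ≤
      4 * (1 - κ) ^ M * Real.sqrt (opn ω (cub d (2 * D))).card * Λ ^ m := by
  have hR := h_YRC d hd x m
  have hmono := hR.2.2.2.2.1
  obtain ⟨U, hUd⟩ : ∃ U, opn ω (cub d (2 * D)) = U := ⟨_, rfl⟩
  rw [hUd] at hform ⊢
  have hinU : ∀ u : ℕ → Fin d → ℤ, alv ω m u → (∀ j ≤ m, nrm (u j) < 2 * D) →
      ∀ j ≤ m, u j ∈ U := by
    intro u h1 h2 j hj
    rw [← hUd]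
    unfold opn
    rw [Finset.mem_filter, mem_cub]
    refine ⟨fun i => ?_, h1 j hj⟩
    have h3 := le_nrm (u j) i
    have h4 := h2 j hj
    have h5 : (u j i).natAbs ≤ 2 * D := by omega
    omega
  by_cases hxU : x ∈ U
  · refine le_trans (hmono _ _ ?_) (h_YCH d m M U (VV ω l w U N) κ Λ x hd hκ0 hκ1 hΛ hxU hform)
    rintro u hu0 hun ⟨h1, h2, h3⟩
    have h4 := hinU u h1 h3
    refine ⟨h4, ?_⟩
    have h5 := h_YVS d l k D m w ω u U N (VV ω l w U N) hl hk hkD hun (by rw [hu0]; exact hx) h2 h4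
      hBK (fun v hv hkv hz => by
        unfold VV
        rw [Finset.mem_filter]
        exact ⟨hv, hkv, hz⟩)
    have h6 := hM.trans h5
    exact_mod_cast h6
  · have h1 : wk x m (fun u => alv ω m u ∧ (∃ j ≤ m, D ≤ nrm (u j)) ∧
        ∀ j ≤ m, nrm (u j) < 2 * D) ≤ wk x m (fun _ => False) := by
      apply hmono
      rintro u hu0 - ⟨h1, -, h3⟩
      apply hxU
      rw [← hu0]
      exact hinU u h1 h3 0 (Nat.zero_le _)
    have h2 : wk x m (fun _ => False) = 0 := by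
      unfold wk
      simp
    rw [h2] at h1
    refine h1.trans ?_
    have : (0 : ℝ) ≤ 1 - κ := by linarith
    positivity

/-- powers of the perturbed eigenvalue -/
theorem pow_bd (a e : ℝ) (m n : ℕ) (ha : 1 / 2 ≤ a) (he : 0 ≤ e) (hmn : m ≤ n)
    (hne : 32 * (n : ℝ) * e ≤ 1) : (a + 8 * e) ^ m ≤ 2 * a ^ m := by
  have h1 : a + 8 * e ≤ a * (1 + 16 * e) := by nlinarith
  have ha0 : 0 < a := by linarith
  have h2 : (a + 8 * e) ^ m ≤ (a * (1 + 16 * e)) ^ m :=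
    pow_le_pow_left₀ (by positivity) h1 m
  have h3 : (1 + 16 * e) ^ m ≤ 2 := by
    have h4 : 1 + 16 * e ≤ Real.exp (16 * e) := by
      have := Real.add_one_le_exp (16 * e)
      linarith
    have h5 : (1 + 16 * e) ^ m ≤ Real.exp (16 * e) ^ m := pow_le_pow_left₀ (by positivity) h4 m
    rw [← Real.exp_nat_mul] at h5
    have hmn' : (m : ℝ) ≤ n := by exact_mod_cast hmn
    have h6 : (m : ℝ) * (16 * e) ≤ 1 / 2 := by nlinarith
    have h7 : Real.exp ((m : ℝ) * (16 * e)) ≤ Real.exp (1 / 2) := Real.exp_le_exp.2 h6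
    have h8 : Real.exp (1 / 2) ≤ 2 := by
      have h9 : Real.exp (1 / 2) ^ 2 = Real.exp 1 := by
        rw [← Real.exp_nat_mul]
        norm_num
      have h10 := Real.exp_one_lt_d9
      have h11 := Real.exp_pos (1 / 2)
      nlinarith
    linarith
  rw [mul_pow] at h2
  have h4 : 0 < a ^ m := pow_pos ha0 m
  nlinarith

theorem exp3 : (9 : ℝ) ≤ Real.exp 3 := by
  have h : Real.exp 3 = Real.exp 1 ^ 3 := by
    rw [← Real.exp_nat_mul]
    norm_num
  rw [h]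
  have h1 := Real.exp_one_gt_d9
  have h2 : (2.7 : ℝ) ≤ Real.exp 1 := by linarith
  calc (9 : ℝ) ≤ 2.7 ^ 3 := by norm_num
    _ ≤ Real.exp 1 ^ 3 := pow_le_pow_left₀ (by norm_num) h2 3

/-- final numerical estimate -/
theorem final (l d D n m M c : ℕ) (κ r a Λ : ℝ) (hl : 1 ≤ l) (hn : 1 ≤ n) (hκ0 : 0 < κ)
    (hκ1 : κ ≤ 1 / 2) (ha : 0 ≤ a) (hΛ0 : 0 ≤ Λ) (hΛ : Λ ^ m ≤ 2 * a ^ m) (hrn : r ^ d = Real.log n)
    (hc : c ≤ (9 * n) ^ d) (hM : (D : ℝ) / (32 * l) - 1 ≤ M)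
    (hD : 3 + κ + 3 * d + d * r ^ d ≤ κ * D / (64 * l)) :
    4 * (1 - κ) ^ M * Real.sqrt c * Λ ^ m ≤ Real.exp (-(κ / (64 * l)) * D) * a ^ m := by
  have hlp : (0 : ℝ) < l := by exact_mod_cast hl
  have hnp : (0 : ℝ) < n := by exact_mod_cast hn
  have h1 : (1 - κ) ^ M ≤ Real.exp (-κ * ((D : ℝ) / (32 * l) - 1)) := by
    have h2 : 1 - κ ≤ Real.exp (-κ) := by
      have := Real.add_one_le_exp (-κ)
      linarith
    have h3 : (1 - κ) ^ M ≤ Real.exp (-κ) ^ M := pow_le_pow_left₀ (by linarith) h2 M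
    rw [← Real.exp_nat_mul] at h3
    refine h3.trans (Real.exp_le_exp.2 ?_)
    nlinarith
  have h4 : Real.sqrt c ≤ Real.exp (3 * d + d * r ^ d) := by
    have h5 : (c : ℝ) ≤ ((9 * n) ^ d : ℕ) := by exact_mod_cast hc
    push_cast at h5
    have h6 : (1 : ℝ) ≤ (9 * (n : ℝ)) ^ d := by
      apply one_le_pow₀
      have : (1 : ℝ) ≤ n := by exact_mod_cast hn
      linarith
    have h7 : Real.sqrt c ≤ (9 * (n : ℝ)) ^ d := by
      rw [Real.sqrt_le_left (by positivity)]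
      nlinarith
    refine h7.trans ?_
    have h8 : 9 * (n : ℝ) ≤ Real.exp (3 + r ^ d) := by
      rw [Real.exp_add, hrn, Real.exp_log hnp]
      exact mul_le_mul_of_nonneg_right exp3 hnp.le
    have h9 := pow_le_pow_left₀ (by positivity) h8 d
    rw [← Real.exp_nat_mul] at h9
    refine h9.trans (le_of_eq ?_)
    congr 1
    ring
  have h10 : (0 : ℝ) ≤ (1 - κ) ^ M := pow_nonneg (by linarith) M
  have ham : 0 ≤ a ^ m := pow_nonneg ha m
  have hE1 := Real.exp_pos (-κ * ((D : ℝ) / (32 * l) - 1))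
  have hE2 := Real.exp_pos (3 * d + d * r ^ d)
  calc 4 * (1 - κ) ^ M * Real.sqrt c * Λ ^ m
      ≤ 4 * Real.exp (-κ * ((D : ℝ) / (32 * l) - 1)) * Real.exp (3 * d + d * r ^ d) *
        (2 * a ^ m) := by gcongr
    _ = 8 * (Real.exp (-κ * ((D : ℝ) / (32 * l) - 1)) * Real.exp (3 * d + d * r ^ d)) * a ^ m := by
        ring
    _ ≤ Real.exp 3 * (Real.exp (-κ * ((D : ℝ) / (32 * l) - 1)) * Real.exp (3 * d + d * r ^ d)) *
        a ^ m := by
        have := exp3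
        gcongr
        linarith
    _ ≤ Real.exp (-(κ / (64 * l)) * D) * a ^ m := by
        apply mul_le_mul_of_nonneg_right _ ham
        rw [← Real.exp_add, ← Real.exp_add]
        apply Real.exp_le_exp.2
        have e1 : κ * D / (64 * l) = (κ / (64 * l)) * D := by ring
        have e2 : κ * ((D : ℝ) / (32 * l)) = 2 * ((κ / (64 * l)) * D) := by
          field_simp
          ring
        rw [e1] at hD
        nlinarith

end YWD_

theorem p_YWD (h_YNI : T_YNI) (h_YCT : T_YCT) (h_YCH : T_YCH) (h_YVS : T_YVS) (h_YSC : T_YSC)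
    (h_VAR : T_VAR) (h_YRC : T_YRC) : T_YWD := by
  intro d l A η hd hl hA hη
  obtain ⟨κ, r1, hκ0, hκ1, hr1, hNI⟩ := h_YNI d l A η (by omega) hl hA hη
  have hlp : (0 : ℝ) < l := by exact_mod_cast hl
  have hl1 : (1 : ℝ) ≤ l := by exact_mod_cast hl
  refine ⟨κ / (64 * l), by positivity, ?_⟩
  intro δ hδ
  obtain ⟨hS1, hS2, hS3, -, hS5⟩ := h_YSC d hd
  obtain ⟨s, hs⟩ : ∃ s : ℝ, Real.sqrt (η / 2) = s := ⟨_, rfl⟩
  have hs0 : 0 < s := by rw [← hs]; exact Real.sqrt_pos.2 (by positivity)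
  obtain ⟨Cw, hCw⟩ : ∃ Cw : ℝ, 10 / s = Cw := ⟨_, rfl⟩
  have hCw0 : 0 < Cw := by rw [← hCw]; positivity
  obtain ⟨K1, hK1⟩ : ∃ K1 : ℝ, 2 ^ d * (2 * Cw + 3) ^ d = K1 := ⟨_, rfl⟩
  have hK10 : 0 < K1 := by rw [← hK1]; positivity
  obtain ⟨K2, hK2⟩ : ∃ K2 : ℕ, (d + 5) * d + (d + 1) * d = K2 := ⟨_, rfl⟩
  obtain ⟨CC, hCC⟩ : ∃ CC : ℝ, 32 * l * (K1 + 1) + (64 * l / κ) * (3 + κ + 4 * d) = CC := ⟨_, rfl⟩
  filter_upwards [hS1 (r1 + 2 * A + 4 * η + 2), hS2, Filter.eventually_ge_atTop 3,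
    hS5 (CC / δ) K2] with n hnR hn2 hn hnC
  intro x0 ω D hx1 hx2 hD1 hD2 hBK hisl hlam x hx m hm
  obtain ⟨-, hrlog, hrp, hfnp⟩ := hS3 n (by omega)
  obtain ⟨r, hr⟩ : ∃ r : ℝ, rr d n = r := ⟨_, rfl⟩
  obtain ⟨ℓ, hℓ⟩ : ∃ ℓ : ℕ, ll d n = ℓ := ⟨_, rfl⟩
  have hℓr : r ^ (d + 4) ≤ 2 * (ℓ : ℝ) := by
    rw [← hℓ, ← hr]
    unfold ll
    push_cast
    have h1 := Nat.le_ceil (rr d n ^ (d + 4))
    have h2 : 0 ≤ rr d n ^ (d + 4) := by positivity
    linarith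
  have hℓ2 : 2 ≤ ℓ := by
    rw [← hℓ]
    unfold ll
    have h1 : 0 < ⌈rr d n ^ (d + 4)⌉₊ := Nat.ceil_pos.2 (by positivity)
    omega
  have hℓle := hn2.2.2
  rw [hr, hℓ] at hℓle
  rw [hr] at hnR hx1 hx2 hrlog hrp hnC hisl hlam
  rw [hℓ] at hisl
  have hr1' : r1 ≤ r := by linarith
  have hr2 : 2 * A + 4 * η + 2 ≤ r := by linarith
  have hr1r : 1 ≤ r := by linarith
  have hrr : r ≤ r ^ 2 := le_self_pow₀ hr1r (by norm_num)
  have hr2p : 0 < r ^ 2 := by positivity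
  -- facts on `x0`
  have hxA : 1 - x0 ≤ A / r ^ 2 := by rw [le_div_iff₀ hr2p]; exact hx2
  have hAr : (2 * A + 4 * η) / r ^ 2 ≤ 1 := by
    rw [div_le_one hr2p]
    linarith
  have e1 : (2 * A + 4 * η) / r ^ 2 = 2 * (A / r ^ 2) + 2 * (2 * η / r ^ 2) := by ring
  have e2 : η / (2 * r ^ 2) = 2 * η / r ^ 2 / 4 := by
    field_simp
    norm_num
  have hηr : 0 < 2 * η / r ^ 2 := by positivity
  have hAr0 : 0 < A / r ^ 2 := by positivity
  have hy0 : 0 ≤ x0 - 2 * η / r ^ 2 := by linarith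
  obtain ⟨U, hU⟩ : ∃ U, opn ω (cub d (2 * D)) = U := ⟨_, rfl⟩
  have hlamU : 1 / 2 ≤ lam U := by
    rw [← hU]
    linarith
  obtain ⟨w, hw⟩ : ∃ w : ℕ, ⌈Cw * r ^ (d + 1)⌉₊ = w := ⟨_, rfl⟩
  have hw1 : Cw * r ^ (d + 1) ≤ w := by rw [← hw]; exact Nat.le_ceil _
  have hw2 : (w : ℝ) ≤ Cw * r ^ (d + 1) + 1 := by
    rw [← hw]
    exact (Nat.ceil_lt_add_one (by positivity)).le
  have hγ : Real.sqrt (η / (2 * r ^ 2)) = s / r := by
    have : η / (2 * r ^ 2) = (η / 2) / r ^ 2 := by ring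
    rw [this, Real.sqrt_div (by positivity), Real.sqrt_sq hrp.le, hs]
  have hγw : 10 * r ^ d ≤ s / r * w := by
    calc 10 * r ^ d = s / r * (Cw * r ^ (d + 1)) := by
          rw [← hCw, pow_succ]
          field_simp
      _ ≤ s / r * w := mul_le_mul_of_nonneg_left hw1 (by positivity)
  have hrd1 : 1 ≤ r ^ d := one_le_pow₀ hr1r
  obtain ⟨N, hN⟩ : ∃ N, YWD_.NN ω ℓ (4 * n) (x0 - 2 * η / r ^ 2) = N := ⟨_, rfl⟩
  obtain ⟨e, he⟩ : ∃ e : ℝ, Real.exp (-Real.sqrt (η / (2 * r ^ 2)) * w / 2) = e := ⟨_, rfl⟩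
  have he0 : 0 < e := by rw [← he]; exact Real.exp_pos _
  have hnp : (0 : ℝ) < n := by
    have : 0 < n := by omega
    exact_mod_cast this
  have hn3 : (3 : ℝ) ≤ n := by exact_mod_cast hn
  have he1 : 32 * (n : ℝ) * e ≤ 1 := by
    have h1 : e ≤ Real.exp (-(5 * Real.log n)) := by
      rw [← he]
      apply Real.exp_le_exp.2
      rw [hγ, ← hrlog]
      have : -(s / r) * w / 2 = -(s / r * w) / 2 := by ring
      rw [this]
      linarith
    have h2 : Real.exp (-(5 * Real.log n)) = 1 / (n : ℝ) ^ 5 := by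
      rw [Real.exp_neg, one_div]
      congr 1
      have : (5 : ℝ) * Real.log n = ((5 : ℕ) : ℝ) * Real.log n := by norm_num
      rw [this, Real.exp_nat_mul, Real.exp_log hnp]
    rw [h2] at h1
    calc 32 * (n : ℝ) * e ≤ 32 * (n : ℝ) * (1 / (n : ℝ) ^ 5) :=
          mul_le_mul_of_nonneg_left h1 (by positivity)
      _ = 32 / (n : ℝ) ^ 4 := by field_simp
      _ ≤ 1 := by
        rw [div_le_one (by positivity)]
        calc (32 : ℝ) ≤ 3 ^ 4 := by norm_num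
          _ ≤ (n : ℝ) ^ 4 := pow_le_pow_left₀ (by norm_num) hn3 4
  -- the form outside the islands
  have hf1 := hNI r x0 ℓ U N (YWD_.VV ω l w U N) hr1' hℓr hx1 hx2
    (by
      intro v hv
      unfold YWD_.VV at hv
      rw [Finset.mem_filter] at hv
      obtain ⟨y, hy1, hy2⟩ := hv.2.1
      refine ⟨y, hy1, ?_⟩
      rw [← hU]
      unfold opn
      rw [Finset.mem_filter]
      rintro ⟨-, h⟩
      rw [hy2] at h
      exact Bool.false_ne_true h)
    (by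
      intro a
      rw [← hN, ← hU]
      exact YWD_.dich h_VAR (by omega) ω ℓ n D _ hy0 hℓ2 (by omega) hD2 a)
  -- the form on `U`
  have hf2 := h_YCT d w U N (YWD_.VV ω l w U N) κ (x0 - η / r ^ 2) (η / (2 * r ^ 2)) (by omega)
    hκ0.le hκ1 (by positivity) (by rw [e2]; linarith) (by rw [hγ]; linarith)
    (by
      intro v hv z hz
      unfold YWD_.VV at hv
      rw [Finset.mem_filter] at hv
      exact hv.2.2 z hz)
    hf1
    (by
      rw [← hU]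
      have : η / r ^ 2 = 2 * (η / (2 * r ^ 2)) := by
        field_simp
      rw [this]
      linarith)
  rw [he] at hf2
  -- sizes
  obtain ⟨P, hP⟩ : ∃ P : ℝ, Real.sqrt n * r ^ K2 = P := ⟨_, rfl⟩
  have hsn : 1 ≤ Real.sqrt n := by
    rw [Real.one_le_sqrt]
    linarith
  have hP1 : 1 ≤ P := by
    rw [← hP]
    exact one_le_mul_of_one_le_of_one_le hsn (one_le_pow₀ hr1r)
  have hPr : r ^ d ≤ P := by
    have h1 : r ^ d ≤ r ^ K2 := by
      apply pow_le_pow_right₀ hr1r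
      rw [← hK2]
      exact le_trans (Nat.le_mul_of_pos_left d (by omega)) (Nat.le_add_right _ _)
    rw [← hP]
    calc r ^ d ≤ r ^ K2 := h1
      _ = 1 * r ^ K2 := (one_mul _).symm
      _ ≤ Real.sqrt n * r ^ K2 := mul_le_mul_of_nonneg_right hsn (by positivity)
  have hDP : CC * P ≤ D := by
    have h1 : CC / δ * Real.sqrt n * r ^ K2 ≤ fn d n := hnC.1
    have h2 : CC / δ * P ≤ fn d n := by
      rw [← hP]
      linarith
    have h3 : δ * (CC / δ * P) ≤ δ * fn d n := mul_le_mul_of_nonneg_left h2 hδ.le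
    have h4 : δ * (CC / δ * P) = CC * P := by
      field_simp
    linarith
  have hc1 : 0 < 32 * (l : ℝ) * (K1 + 1) := by positivity
  have hc2 : 0 < (64 * l / κ) * (3 + κ + 4 * (d : ℝ)) := by positivity
  have hD3 : 32 * l * (K1 + 1) * P ≤ D := by
    refine le_trans ?_ hDP
    rw [← hCC, add_mul]
    have := mul_pos hc2 (lt_of_lt_of_le one_pos hP1)
    linarith
  have hD4 : (64 * l / κ) * (3 + κ + 4 * d) * P ≤ D := by
    refine le_trans ?_ hDP
    rw [← hCC, add_mul]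
    have := mul_pos hc1 (lt_of_lt_of_le one_pos hP1)
    linarith
  have hNc : (N.card : ℝ) * (2 * w + 1) ^ d ≤ K1 * P := by
    have h1 : (N.card : ℝ) ≤ Real.sqrt n * (2 * ℓ) ^ d := by
      have h2 := YWD_.card_NN ω ℓ (4 * n) (x0 - 2 * η / r ^ 2)
      rw [hN] at h2
      have h3 := (Nat.cast_le (α := ℝ)).2 h2
      push_cast at h3
      refine h3.trans (mul_le_mul_of_nonneg_right hisl (by positivity))
    have h4 : (2 * (ℓ : ℝ)) ^ d ≤ 2 ^ d * (r ^ (d + 5)) ^ d := by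
      rw [← mul_pow]
      exact pow_le_pow_left₀ (by positivity) (by linarith) d
    have h5 : (2 * (w : ℝ) + 1) ^ d ≤ (2 * Cw + 3) ^ d * (r ^ (d + 1)) ^ d := by
      rw [← mul_pow]
      apply pow_le_pow_left₀ (by positivity)
      have h6 : 1 ≤ r ^ (d + 1) := one_le_pow₀ hr1r
      have h7 : (2 * Cw + 3) * r ^ (d + 1) = 2 * (Cw * r ^ (d + 1)) + 3 * r ^ (d + 1) := by ring
      linarith
    calc (N.card : ℝ) * (2 * w + 1) ^ d
        ≤ (Real.sqrt n * (2 ^ d * (r ^ (d + 5)) ^ d)) * ((2 * Cw + 3) ^ d * (r ^ (d + 1)) ^ d) := by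
          apply mul_le_mul _ h5 (by positivity) (by positivity)
          exact h1.trans (mul_le_mul_of_nonneg_left h4 (by positivity))
      _ = K1 * P := by
          have h8 : (r ^ (d + 5)) ^ d * (r ^ (d + 1)) ^ d = r ^ K2 := by
            rw [← pow_mul, ← pow_mul, ← pow_add, hK2]
          rw [← hK1, ← hP, ← h8]
          ring
  have hD5 : (N.card : ℝ) * (2 * w + 1) ^ d + 1 ≤ D / (32 * l) := by
    rw [le_div_iff₀ (by positivity)]
    have h1 : (N.card : ℝ) * (2 * w + 1) ^ d + 1 ≤ (K1 + 1) * P := by linarith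
    have h2 := mul_le_mul_of_nonneg_right h1 (show (0 : ℝ) ≤ 32 * l by positivity)
    linarith
  obtain ⟨k, hk⟩ : ∃ k : ℕ, D / (8 * l) = k := ⟨_, rfl⟩
  have hk1 : (D : ℝ) / (8 * l) - 1 ≤ k := by
    have h1 := Nat.lt_div_mul_add (a := D) (b := 8 * l) (by omega)
    rw [hk] at h1
    have h2 : (D : ℝ) ≤ k * (8 * l) + 8 * l := by exact_mod_cast h1.le
    have h3 : (D : ℝ) / (8 * l) ≤ k + 1 := by
      rw [div_le_iff₀ (by positivity)]
      linarith
    linarith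
  have hk2 : 2 * l * k ≤ D := by
    have h1 := Nat.div_mul_le_self D (8 * l)
    rw [hk] at h1
    have h2 : 2 * l * k ≤ k * (8 * l) := by
      rw [show 2 * l * k = (l * k) * 2 by ring, show k * (8 * l) = (l * k) * 8 by ring]
      omega
    exact h2.trans h1
  obtain ⟨M, hM⟩ : ∃ M : ℕ, D / (32 * l) = M := ⟨_, rfl⟩
  have hM1 : (M : ℝ) ≤ D / (32 * l) := by
    have h1 := Nat.div_mul_le_self D (32 * l)
    rw [hM] at h1
    rw [le_div_iff₀ (by positivity)]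
    exact_mod_cast h1
  have hM2 : (D : ℝ) / (32 * l) - 1 ≤ M := by
    have h1 := Nat.lt_div_mul_add (a := D) (b := 32 * l) (by omega)
    rw [hM] at h1
    have h2 : (D : ℝ) ≤ M * (32 * l) + 32 * l := by exact_mod_cast h1.le
    have h3 : (D : ℝ) / (32 * l) ≤ M + 1 := by
      rw [div_le_iff₀ (by positivity)]
      linarith
    linarith
  have e8 : (D : ℝ) / (8 * l) = 4 * (D / (32 * l)) := by
    field_simp
    ring
  have hNw0 : (0 : ℝ) ≤ (N.card : ℝ) * (2 * w + 1) ^ d := by positivity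
  have hk3 : 1 ≤ k := by
    have h1 : (1 : ℝ) ≤ k := by linarith
    exact_mod_cast h1
  rw [hk] at hBK
  have hmain := YWD_.walk h_YCH h_YVS h_YRC (by omega) l k D m w M ω N κ (lam U + 8 * e) x hl hk3
    hk2 hBK hκ0 hκ1 (by linarith) hx (by rw [hU]; exact hf2) (by linarith)
  rw [hU] at hmain ⊢
  refine hmain.trans ?_
  refine YWD_.final l d D n m M U.card κ r (lam U) (lam U + 8 * e) hl (by omega) hκ0 hκ1
    (by linarith) (by linarith) (YWD_.pow_bd (lam U) e m n hlamU he0.le hm he1) hrlog ?_ hM2 ?_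
  · calc U.card ≤ (cub d (2 * D)).card := by
          rw [← hU]
          exact Finset.card_le_card (Finset.filter_subset _ _)
      _ = (2 * (2 * D) + 1) ^ d := YWD_.card_cub _
      _ ≤ (9 * n) ^ d := Nat.pow_le_pow_left (by omega) d
  · have h1 : (3 + κ + 4 * d) * P ≤ κ * D / (64 * l) := by
      rw [le_div_iff₀ (by positivity)]
      have h2 := mul_le_mul_of_nonneg_left hD4 hκ0.le
      have h3 : κ * ((64 * l / κ) * (3 + κ + 4 * d) * P) = (3 + κ + 4 * d) * P * (64 * l) := by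
        field_simp
      linarith
    refine le_trans ?_ h1
    have hd0 : (0 : ℝ) ≤ d := Nat.cast_nonneg d
    have h4 : (3 + κ + 3 * d) * 1 ≤ (3 + κ + 3 * d) * P :=
      mul_le_mul_of_nonneg_left hP1 (by positivity)
    have h5 : d * r ^ d ≤ d * P := mul_le_mul_of_nonneg_left hPr hd0
    have h6 : (3 + κ + 4 * d) * P = (3 + κ + 3 * d) * P + d * P := by ring
    linarith

end

end Pool.Agent.LBL
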