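import Pool.Agent.LBL.Wlk2
import Pool.Agent.LBL.Targets1

set_option autoImplicit false

/-!
# LBL, part WLK: the walk estimate holds with high probability
-/

open Finset MeasureTheory Filter Topology
open scoped Classical

namespace Pool.Agent.LBL

noncomputable section

namespace YWP_

theorem opn_mono {d : ℕ} (ω : Env d) {k k' : ℕ} (h : k ≤ k') :
    opn ω (cub d k) ⊆ opn ω (cub d k') := by
  intro x hx
  unfold opn at hx ⊢
  rw [Finset.mem_filter] at hx ⊢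
  refine ⟨?_, hx.2⟩
  have h1 := hx.1
  unfold cub at h1 ⊢
  rw [Fintype.mem_piFinset] at h1 ⊢
  intro i
  have h2 := h1 i
  rw [Finset.mem_Icc] at h2 ⊢
  have h3 : (k : ℤ) ≤ k' := by exact_mod_cast h
  constructor <;> omega

theorem exists_l (d : ℕ) (p : ℝ) (hd : 2 ≤ d) (h0 : 0 < p) (h1 : p < 1) :
    ∃ l : ℕ, 1 ≤ l ∧ 4 * d * p ^ ((l : ℝ) ^ d / 2) ≤ Real.exp (-1) := by
  have h2 : Tendsto (fun l : ℕ => (l : ℝ) ^ d / 2) atTop atTop := by
    refine Tendsto.atTop_div_const (by norm_num) ?_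
    exact (tendsto_pow_atTop (by omega)).comp tendsto_natCast_atTop_atTop
  have h3 : Tendsto (fun l : ℕ => p ^ ((l : ℝ) ^ d / 2)) atTop (𝓝 0) :=
    (tendsto_rpow_atTop_of_base_lt_one p (by linarith) h1).comp h2
  have h4 : Tendsto (fun l : ℕ => 4 * d * p ^ ((l : ℝ) ^ d / 2)) atTop (𝓝 (4 * d * 0)) :=
    h3.const_mul _
  rw [mul_zero] at h4
  obtain ⟨l, hl, hl'⟩ := ((h4.eventually_le_const (Real.exp_pos (-1))).and
    (eventually_ge_atTop 1)).exists
  exact ⟨l, hl', hl⟩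

/-- the bounds of the block path estimate are summable -/
theorem summ (d l : ℕ) (hl : 1 ≤ l) (q : ℝ) (h0 : 0 ≤ q) (hq : q ≤ Real.exp (-1)) :
    Summable fun D : ℕ => (2 * (D : ℝ) + 1) ^ d * q ^ (D / (8 * l)) := by
  set r : ℝ := Real.exp (-(1 / (8 * l))) with hr
  have hlpos : (0 : ℝ) < 8 * l := by
    have : (0 : ℝ) < l := by exact_mod_cast hl
    positivity
  have hr1 : ‖r‖ < 1 := by
    rw [Real.norm_eq_abs, abs_of_pos (Real.exp_pos _), Real.exp_lt_one_iff]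
    have : 0 < 1 / (8 * (l : ℝ)) := by positivity
    linarith
  have h1 : Summable fun D : ℕ => (D : ℝ) ^ d * r ^ D := summable_pow_mul_geometric_of_norm_lt_one d hr1
  have h2 : Summable fun D : ℕ => r ^ D := summable_geometric_of_norm_lt_one hr1
  have h3 : Summable fun D : ℕ => Real.exp 1 * (3 ^ d * ((D : ℝ) ^ d * r ^ D) + r ^ D) :=
    ((h1.mul_left (3 ^ d)).add h2).mul_left _
  refine Summable.of_nonneg_of_le (fun D => by positivity) (fun D => ?_) h3
  have h4 : q ^ (D / (8 * l)) ≤ Real.exp 1 * r ^ D := by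
    calc q ^ (D / (8 * l)) ≤ Real.exp (-1) ^ (D / (8 * l)) := pow_le_pow_left₀ h0 hq _
      _ = Real.exp (-((D / (8 * l) : ℕ) : ℝ)) := by
        rw [← Real.exp_nat_mul]; ring_nf
      _ ≤ Real.exp (1 + D * (-(1 / (8 * l)))) := by
        apply Real.exp_le_exp.mpr
        have h5 : (D : ℝ) < ((D / (8 * l) : ℕ) + 1) * (8 * l) := by
          have h6 : D < (D / (8 * l) + 1) * (8 * l) := by
            have h8 : 0 < 8 * l := by omega
            have h9 := Nat.div_add_mod D (8 * l)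
            have h10 := Nat.mod_lt D h8
            nlinarith
          exact_mod_cast h6
        have h7 : (D : ℝ) / (8 * l) < (D / (8 * l) : ℕ) + 1 := by
          rw [div_lt_iff₀ hlpos]; exact h5
        have h8 : (D : ℝ) * (-(1 / (8 * l))) = -((D : ℝ) / (8 * l)) := by ring
        rw [h8]
        linarith
      _ = Real.exp 1 * r ^ D := by
        rw [Real.exp_add, hr, ← Real.exp_nat_mul]
  have h5 : (2 * (D : ℝ) + 1) ^ d ≤ 3 ^ d * (D : ℝ) ^ d + 1 := by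
    rcases Nat.eq_zero_or_pos D with h | h
    · subst h
      have : (0 : ℝ) ≤ 3 ^ d * ((0 : ℕ) : ℝ) ^ d := by positivity
      simp only [Nat.cast_zero, mul_zero, zero_add, one_pow]
      simpa using this
    · have h6 : (1 : ℝ) ≤ D := by exact_mod_cast h
      have h7 : (2 * (D : ℝ) + 1) ^ d ≤ (3 * D) ^ d :=
        pow_le_pow_left₀ (by positivity) (by linarith) d
      rw [mul_pow] at h7
      linarith
  calc (2 * (D : ℝ) + 1) ^ d * q ^ (D / (8 * l))
      ≤ (3 ^ d * (D : ℝ) ^ d + 1) * (Real.exp 1 * r ^ D) :=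
        mul_le_mul h5 h4 (by positivity) (by positivity)
    _ = Real.exp 1 * (3 ^ d * ((D : ℝ) ^ d * r ^ D) + r ^ D) := by ring

theorem sum_le {g : ℕ → ℝ} (hg : Summable g) (h0 : ∀ n, 0 ≤ g n) (a b : ℕ) :
    ∑ D ∈ Finset.Ico a b, g D ≤ ∑' k, g (k + a) := by
  rw [Finset.sum_Ico_eq_sum_range]
  have h1 : Summable fun k => g (k + a) := (summable_nat_add_iff a).mpr hg
  have h2 := h1.sum_le_tsum (Finset.range (b - a)) (fun i _ => h0 _)
  refine le_trans (le_of_eq ?_) h2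
  refine Finset.sum_congr rfl fun i _ => ?_
  rw [add_comm]

end YWP_

open YWP_

theorem p_YWP (h_YWD : T_YWD) (h_YXS : T_YXS) (h_YLS : T_YLS) (h_YLB : T_YLB) (h_YBP : T_YBP)
    (h_YSC : T_YSC) (h_VAR : T_VAR) : T_YWP := by
  intro d p hd hp0 hp1
  have hd1 : 1 ≤ d := by omega
  obtain ⟨a, A, C, ha, haA, hC, hXS⟩ := h_YXS d p hd hp0 hp1
  obtain ⟨η, hη, hLS⟩ := h_YLS d p hd hp0 hp1
  obtain ⟨l, hl, hlq⟩ := exists_l d p hd hp0 hp1
  obtain ⟨c1, hc1, hWD⟩ := h_YWD d l A η hd hl (lt_of_lt_of_le ha haA) hη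
  refine ⟨c1, hc1, fun δ hδ => ?_⟩
  have hprob := PP_prob d hp0.le hp1.le
  set q : ℝ := 4 * d * p ^ ((l : ℝ) ^ d / 2) with hq
  have hq0 : 0 ≤ q := by
    rw [hq]
    have := Real.rpow_nonneg hp0.le ((l : ℝ) ^ d / 2)
    positivity
  set g : ℕ → ℝ := fun D => (2 * (D : ℝ) + 1) ^ d * q ^ (D / (8 * l)) with hg
  have hgs : Summable g := summ d l hl q hq0 hlq
  have hg0 : ∀ n, 0 ≤ g n := fun n => by
    rw [hg]; positivity
  -- the three bounds
  have hfn : Tendsto (fun n : ℕ => ⌈δ * fn d n⌉₊) atTop atTop := by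
    rw [tendsto_atTop]
    intro b
    have h1 : ∀ᶠ n : ℕ in atTop, (b / δ) ≤ fn d n := by
      have h2 := (h_YSC d hd).2.2.2.2 1 0
      have h3 : Tendsto (fun n : ℕ => Real.sqrt (n : ℝ)) atTop atTop :=
        Real.tendsto_sqrt_atTop.comp tendsto_natCast_atTop_atTop
      filter_upwards [h2, h3.eventually_ge_atTop (b / δ)] with n h4 h5
      have h6 := h4.1
      rw [pow_zero, mul_one, one_mul] at h6
      exact h5.trans h6
    filter_upwards [h1] with n hn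
    have h2 : (b : ℝ) ≤ δ * fn d n := by
      rw [div_le_iff₀ hδ] at hn
      linarith
    have h3 : (b : ℝ) ≤ (⌈δ * fn d n⌉₊ : ℝ) := h2.trans (Nat.le_ceil _)
    exact_mod_cast h3
  have htail : Tendsto (fun n : ℕ => ∑' k, g (k + ⌈δ * fn d n⌉₊)) atTop (𝓝 0) :=
    (tendsto_sum_nat_add g).comp hfn
  have hA1 := hLS η hη le_rfl
  have hA2 := h_YLB d p δ η hd hp0 hp1 hδ hη
  have hsum := (hA1.add hA2).add htail
  rw [add_zero, add_zero] at hsum
  refine squeeze_zero' (Eventually.of_forall fun n => measureReal_nonneg) ?_ hsum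
  filter_upwards [hXS, hWD δ hδ] with n hn hW
  obtain ⟨hwin, -, -, -, hxs1⟩ := hn
  set A1 : Set (Env d) := {ω : Env d | Real.sqrt n < ((isl ω (ll d n) (4 * n) (xs d p n - 2 * η / rr d n ^ 2)).card : ℝ)} with hA1'
  set A2 : Set (Env d) := {ω : Env d | lam (opn ω (cub d ⌊δ * fn d n⌋₊)) < xs d p n - η / (2 * rr d n ^ 2)} with hA2'
  set B : ℕ → Set (Env d) := fun D => {ω : Env d | ¬ BK ω l (D / (8 * l)) D} with hB
  have hsub : {ω : Env d | ¬ ∀ D : ℕ, δ * fn d n ≤ D → D ≤ 2 * n → W1 n c1 D ω} ⊆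
      (A1 ∪ A2) ∪ ⋃ D ∈ Finset.Ico ⌈δ * fn d n⌉₊ (2 * n + 1), B D := by
    intro ω hω
    rw [Set.mem_ofPred_eq] at hω
    by_contra hc
    rw [Set.mem_union, Set.mem_union, not_or, not_or] at hc
    obtain ⟨⟨h1, h2⟩, h3⟩ := hc
    apply hω
    intro D hD1 hD2
    have h4 : ((isl ω (ll d n) (4 * n) (xs d p n - 2 * η / rr d n ^ 2)).card : ℝ) ≤ Real.sqrt n :=
      not_lt.mp h1
    have h5 : xs d p n - η / (2 * rr d n ^ 2) ≤ lam (opn ω (cub d ⌊δ * fn d n⌋₊)) := not_lt.mp h2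
    have h6 : BK ω l (D / (8 * l)) D := by
      by_contra h7
      apply h3
      refine Set.mem_biUnion (x := D) ?_ h7
      rw [Finset.coe_Ico, Set.mem_Ico]
      exact ⟨Nat.ceil_le.mpr hD1, by omega⟩
    have h7 : ⌊δ * fn d n⌋₊ ≤ 2 * D := by
      have h8 : ⌊δ * fn d n⌋₊ ≤ D := by
        have := Nat.floor_le_floor hD1
        rwa [Nat.floor_natCast] at this
      omega
    have h8 : lam (opn ω (cub d ⌊δ * fn d n⌋₊)) ≤ lam (opn ω (cub d (2 * D))) :=
      (h_VAR d ℤ hd1 _).2.2.2.1 _ (opn_mono ω h7)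
    refine hW (xs d p n) ω D ?_ hwin.2 hD1 hD2 h6 h4 (h5.trans h8)
    exact ha.le.trans hwin.1
  calc (PP d p).real {ω : Env d | ¬ ∀ D : ℕ, δ * fn d n ≤ D → D ≤ 2 * n → W1 n c1 D ω}
      ≤ (PP d p).real ((A1 ∪ A2) ∪ ⋃ D ∈ Finset.Ico ⌈δ * fn d n⌉₊ (2 * n + 1), B D) :=
        measureReal_mono hsub
    _ ≤ (PP d p).real (A1 ∪ A2) + (PP d p).real (⋃ D ∈ Finset.Ico ⌈δ * fn d n⌉₊ (2 * n + 1), B D) :=
        measureReal_union_le _ _
    _ ≤ ((PP d p).real A1 + (PP d p).real A2) +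
          ∑ D ∈ Finset.Ico ⌈δ * fn d n⌉₊ (2 * n + 1), (PP d p).real (B D) :=
        add_le_add (measureReal_union_le _ _) (measureReal_biUnion_finset_le _ _)
    _ ≤ ((PP d p).real A1 + (PP d p).real A2) +
          ∑ D ∈ Finset.Ico ⌈δ * fn d n⌉₊ (2 * n + 1), g D := by
        refine add_le_add_right (Finset.sum_le_sum fun D _ => ?_) _
        exact h_YBP d p l (D / (8 * l)) D hd1 hp0 hp1 hl
    _ ≤ ((PP d p).real A1 + (PP d p).real A2) + ∑' k, g (k + ⌈δ * fn d n⌉₊) :=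
        add_le_add_right (sum_le hgs hg0 _ _) _

end

end Pool.Agent.LBL
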