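import Pool.Agent.LBL.Wlk2
import Pool.Agent.LBL.Targets1
import Pool.Agent.LBL.P_YSC

set_option autoImplicit false

/-!
# LBL-YXS: the level x*
-/

open Finset MeasureTheory Filter Topology
open scoped Classical

namespace Pool.Agent.LBL

noncomputable section

namespace YXS_

theorem TT_anti (h_PRB : T_PRB) (d L : ℕ) [NeZero L] (p : ℝ) (hp : 0 < p) (hp1 : p < 1) {x x' : ℝ} (h : x ≤ x') :
    TT d L p x' ≤ TT d L p x := by
  unfold TT
  exact (h_PRB (Tor d L) p hp hp1).2.2.1 _ _ fun O hO => h.trans hO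

theorem TT_left (h_PRB : T_PRB) (d L : ℕ) [NeZero L] (p : ℝ) (hp : 0 < p) (hp1 : p < 1) (x : ℝ) :
    ∃ δ : ℝ, 0 < δ ∧ ∀ x', x - δ < x' → TT d L p x' ≤ TT d L p x := by
  by_cases hne : ((Finset.univ : Finset (Finset (Tor d L))).filter fun O => lam O < x).Nonempty
  · obtain ⟨O1, hO1, hmax⟩ := Finset.exists_max_image _ (fun O : Finset (Tor d L) => lam O) hne
    have h1 : lam O1 < x := (Finset.mem_filter.1 hO1).2
    refine ⟨x - lam O1, by linarith, fun x' hx' => ?_⟩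
    unfold TT
    refine (h_PRB (Tor d L) p hp hp1).2.2.1 _ _ fun O hO => ?_
    by_contra hcon
    push Not at hcon
    have h2 := hmax O (Finset.mem_filter.2 ⟨Finset.mem_univ _, hcon⟩)
    linarith
  · refine ⟨1, one_pos, fun x' _ => ?_⟩
    unfold TT
    refine (h_PRB (Tor d L) p hp hp1).2.2.1 _ _ fun O _ => ?_
    by_contra hcon
    push Not at hcon
    exact hne ⟨O, Finset.mem_filter.2 ⟨Finset.mem_univ _, hcon⟩⟩

/-- `n = exp (r^d)` -/
theorem n_eq (d : ℕ) (hd : 2 ≤ d) {n : ℕ} (hn : 2 ≤ n) : (n : ℝ) = Real.exp (rr d n ^ d) := by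
  rw [YSC_.rr_pow d hd hn, Real.exp_log]
  exact_mod_cast (by omega : 0 < n)

theorem th_lo (d : ℕ) (hd : 2 ≤ d) : ∀ᶠ n : ℕ in atTop, Real.exp (-(d * rr d n ^ d)) ≤ th d n := by
  obtain ⟨-, -, -, -, h5⟩ := p_YSC d hd
  filter_upwards [h5 1 0, eventually_ge_atTop 2] with n hn h2
  have hf : 0 < fn d n := ((p_YSC d hd).2.2.1 n h2).2.2.2
  have hn0 : (0 : ℝ) < n := by exact_mod_cast (by omega : 0 < n)
  have h3 : fn d n ≤ n := by linarith [hn.2]
  have hl : (1 : ℝ) ≤ 2 * (ll d n : ℝ) := by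
    have : 1 ≤ ll d n := by
      unfold ll
      omega
    have h' : (1 : ℝ) ≤ (ll d n : ℝ) := by exact_mod_cast this
    linarith
  have h4 : Real.exp (-(rr d n ^ d)) ≤ 2 * (ll d n : ℝ) / fn d n := by
    rw [Real.exp_neg, ← n_eq d hd h2, le_div_iff₀ hf, inv_mul_le_iff₀ hn0]
    nlinarith
  unfold th
  have h6 : Real.exp (-(d * rr d n ^ d)) = Real.exp (-(rr d n ^ d)) ^ d := by
    rw [← Real.exp_nat_mul]
    congr 1
    ring
  rw [h6]
  exact pow_le_pow_left₀ (Real.exp_nonneg _) h4 d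

theorem th_up (d : ℕ) (hd : 2 ≤ d) : ∀ᶠ n : ℕ in atTop, th d n ≤ Real.exp (-(rr d n ^ d)) := by
  obtain ⟨-, hR, -, -, h5⟩ := p_YSC d hd
  filter_upwards [h5 2 (d + 5), hR, eventually_ge_atTop 2] with n hn hr h2
  have hf : 0 < fn d n := ((p_YSC d hd).2.2.1 n h2).2.2.2
  have hn0 : (0 : ℝ) < n := by exact_mod_cast (by omega : 0 < n)
  have hs : 0 < Real.sqrt n := Real.sqrt_pos.2 hn0
  have h4 : 2 * (ll d n : ℝ) / fn d n ≤ Real.exp (-(rr d n ^ d / 2)) := by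
    rw [Real.exp_neg, Real.exp_half, ← n_eq d hd h2, div_le_iff₀ hf, inv_mul_eq_div, le_div_iff₀ hs]
    have h6 : (ll d n : ℝ) * Real.sqrt n ≤ rr d n ^ (d + 5) * Real.sqrt n :=
      mul_le_mul_of_nonneg_right hr.2.2 hs.le
    linarith [hn.1]
  have h7 : 0 ≤ 2 * (ll d n : ℝ) / fn d n := by positivity
  unfold th
  refine (pow_le_pow_left₀ h7 h4 d).trans ?_
  rw [← Real.exp_nat_mul, Real.exp_le_exp]
  have hd2 : (2 : ℝ) ≤ d := by exact_mod_cast hd
  have h8 : 0 ≤ rr d n ^ d := by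
    rw [YSC_.rr_pow d hd h2]
    exact (YSC_.log_pos h2).le
  nlinarith

/-- the supremum is attained and is a sharp level -/
theorem sup_facts (h_PRB : T_PRB) (d : ℕ) (p : ℝ) (hp : 0 < p) (hp1 : p < 1) (n : ℕ) (u v : ℝ) (huv : v ≤ 1)
    (h1 : th d n ≤ TT d (2 * ll d n) p v) (h2 : TT d (2 * ll d n) p u < th d n) :
    v ≤ xs d p n ∧ xs d p n ≤ u ∧ th d n ≤ TT d (2 * ll d n) p (xs d p n) ∧
    ∀ x, xs d p n < x → x ≤ 1 → TT d (2 * ll d n) p x < th d n := by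
  have hne : ({x : ℝ | x ≤ 1 ∧ th d n ≤ TT d (2 * ll d n) p x}).Nonempty := ⟨v, huv, h1⟩
  have hbd : BddAbove {x : ℝ | x ≤ 1 ∧ th d n ≤ TT d (2 * ll d n) p x} := ⟨1, fun x hx => hx.1⟩
  have hatt : th d n ≤ TT d (2 * ll d n) p (xs d p n) := by
    obtain ⟨δ, hδ, hleft⟩ := TT_left h_PRB d (2 * ll d n) p hp hp1 (xs d p n)
    obtain ⟨x, hx, hxl⟩ := exists_lt_of_lt_csSup hne (show xs d p n - δ < sSup _ from by
      have : sSup {x : ℝ | x ≤ 1 ∧ th d n ≤ TT d (2 * ll d n) p x} = xs d p n := rfl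
      rw [this]
      linarith)
    exact hx.2.trans (hleft x hxl)
  refine ⟨le_csSup hbd ⟨huv, h1⟩, ?_, hatt, fun x hx hx1 => ?_⟩
  · by_contra hcon
    push Not at hcon
    have h3 := TT_anti h_PRB d (2 * ll d n) p hp hp1 hcon.le
    linarith
  · by_contra hcon
    push Not at hcon
    have h4 : x ≤ xs d p n := le_csSup hbd ⟨hx1, hcon⟩
    linarith

end YXS_

open YXS_ in
theorem p_YXS (h_SIZ : T_SIZ) (h_R2Y : R2Y) (h_PRB : T_PRB) : T_YXS := by
  intro d p hd hp hp1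
  have hd0 : (0 : ℝ) < d := by exact_mod_cast (by omega : 0 < d)
  obtain ⟨c, C, hc, hC, hsiz⟩ := h_SIZ d (d + 6) p hd (by omega) hp hp1
  -- choice of `a`
  obtain ⟨a, ha0, ha⟩ : ∃ a : ℝ, 0 < a ∧ c * a ^ (-(d : ℝ) / 2) = 2 * d := by
    refine ⟨(2 * d / c) ^ (-(2 : ℝ) / d), by positivity, ?_⟩
    rw [← Real.rpow_mul (by positivity)]
    have h1 : -(2 : ℝ) / d * (-(d : ℝ) / 2) = 1 := by
      field_simp
    rw [h1, Real.rpow_one]
    field_simp
  -- choice of `A`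
  obtain ⟨ε, hε0, hε1, hεC⟩ : ∃ ε : ℝ, 0 < ε ∧ ε ≤ 1 ∧ C * ε ≤ 1 := by
    refine ⟨min 1 (1 / C), by positivity, min_le_left _ _, ?_⟩
    calc C * min 1 (1 / C) ≤ C * (1 / C) := by
          apply mul_le_mul_of_nonneg_left (min_le_right _ _) hC.le
      _ = 1 := by field_simp
  obtain ⟨A, hA0, haA, hA⟩ : ∃ A : ℝ, 0 < A ∧ a ≤ A ∧ A ^ (-(1 : ℝ) / 2) ≤ ε / 2 := by
    refine ⟨max a (4 / ε ^ 2), by positivity, le_max_left _ _, ?_⟩
    have h2 : (4 / ε ^ 2) ^ (-(1 : ℝ) / 2) = ε / 2 := by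
      have h3 : (4 / ε ^ 2 : ℝ) = (ε / 2) ^ (-2 : ℝ) := by
        rw [Real.rpow_neg (by positivity)]
        norm_num
        field_simp
        norm_num
      rw [h3, ← Real.rpow_mul (by positivity)]
      norm_num
    calc (max a (4 / ε ^ 2)) ^ (-(1 : ℝ) / 2) ≤ (4 / ε ^ 2) ^ (-(1 : ℝ) / 2) := by
          apply Real.rpow_le_rpow_of_nonpos (by positivity) (le_max_right _ _) (by norm_num)
      _ = ε / 2 := h2
  obtain ⟨r1, hr1, hs1⟩ := hsiz a ha0
  obtain ⟨r2, hr2, hs2⟩ := hsiz A hA0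
  obtain ⟨C2, c2, r3, hC2, hc2, hr3, hR⟩ := h_R2Y d (d + 6) p (a / 2) A hd (by omega) hp hp1 (by linarith) (by linarith)
  refine ⟨a, A, C2, ha0, haA, hC2, ?_⟩
  have hT := YSC_.rr_tendsto d hd
  obtain ⟨-, hRg, -, -, -⟩ := p_YSC d hd
  filter_upwards [hRg, th_lo d hd, th_up d hd, hT.eventually_ge_atTop r1, hT.eventually_ge_atTop r2,
    hT.eventually_ge_atTop r3, hT.eventually_ge_atTop (2 / ε), hT.eventually_ge_atTop (2 * A + 1),
    hT.eventually_ge_atTop (2 * c2 / a + 1), eventually_ge_atTop 2] with n hrg hlo hup h1 h2 h3 h4 h5 h6 hn2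
  have hr0 : 0 < rr d n := YSC_.rr_pos d hn2
  have hr1' : 1 ≤ rr d n := by linarith
  have hrd : 0 < rr d n ^ d := pow_pos hr0 d
  have hr2' : 0 < rr d n ^ 2 := pow_pos hr0 2
  have hsa := (hs1 (rr d n) (2 * ll d n) h1 hrg.1).1
  have hsA := (hs2 (rr d n) (2 * ll d n) h2 hrg.1).2
  -- upper level
  have hu : TT d (2 * ll d n) p (1 - a / rr d n ^ 2) < th d n := by
    refine lt_of_le_of_lt hsa (lt_of_lt_of_le ?_ hlo)
    rw [Real.exp_lt_exp]
    have h7 : -c * a ^ (-(d : ℝ) / 2) * rr d n ^ d = -(2 * d * rr d n ^ d) := by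
      rw [neg_mul, ha]
      ring
    rw [h7]
    nlinarith [mul_pos hd0 hrd]
  -- lower level
  have hv : th d n ≤ TT d (2 * ll d n) p (1 - A / rr d n ^ 2) := by
    refine le_trans hup (le_trans ?_ hsA)
    rw [Real.exp_le_exp]
    have h8 : 1 / rr d n ≤ ε / 2 := by
      rw [div_le_iff₀ hr0]
      have h9 : 2 / ε * ε = 2 := by field_simp
      nlinarith
    have h10 : 0 ≤ A ^ (-(1 : ℝ) / 2) + 1 / rr d n := by positivity
    have h11 : (A ^ (-(1 : ℝ) / 2) + 1 / rr d n) ^ d ≤ ε := by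
      calc (A ^ (-(1 : ℝ) / 2) + 1 / rr d n) ^ d ≤ ε ^ d := pow_le_pow_left₀ h10 (by linarith) d
        _ ≤ ε ^ 1 := pow_le_pow_of_le_one hε0.le hε1 (by omega)
        _ = ε := pow_one ε
    have h12 : C * (A ^ (-(1 : ℝ) / 2) + 1 / rr d n) ^ d ≤ 1 :=
      (mul_le_mul_of_nonneg_left h11 hC.le).trans hεC
    nlinarith
  have hv1 : 1 - A / rr d n ^ 2 ≤ 1 := by
    have : 0 ≤ A / rr d n ^ 2 := by positivity
    linarith
  obtain ⟨k1, k2, k3, k4⟩ := sup_facts h_PRB d p hp hp1 n _ _ hv1 hv hu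
  have hwin1 : a ≤ (1 - xs d p n) * rr d n ^ 2 := by
    have h13 : a / rr d n ^ 2 ≤ 1 - xs d p n := by linarith
    rwa [div_le_iff₀ hr2'] at h13
  have hwin2 : (1 - xs d p n) * rr d n ^ 2 ≤ A := by
    have h13 : 1 - xs d p n ≤ A / rr d n ^ 2 := by linarith
    rwa [le_div_iff₀ hr2'] at h13
  have hrsq : rr d n ≤ rr d n ^ 2 := by nlinarith
  refine ⟨⟨hwin1, hwin2⟩, k3, ?_, ?_, ?_⟩
  · -- no cliff
    have hs : 0 < ss d (rr d n) := Real.rpow_pos_of_pos hr0 _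
    have h14 : c2 * ss d (rr d n) * rr d n ^ 2 ≤ a / 2 := by
      rw [YSC_.ss_eq d _ hr0]
      have h15 : rr d n ^ (d + 2) = rr d n ^ d * rr d n ^ 2 := by ring
      have h16 : c2 * (rr d n ^ (d + 2))⁻¹ * rr d n ^ 2 = c2 / rr d n ^ d := by
        rw [h15]
        field_simp
      rw [h16, div_le_iff₀ hrd]
      have h17 : rr d n ≤ rr d n ^ d := by
        calc rr d n = rr d n ^ 1 := (pow_one _).symm
          _ ≤ rr d n ^ d := pow_le_pow_right₀ hr1' (by omega)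
      have h18 : 2 * c2 / a ≤ rr d n ^ d := by linarith
      rw [div_le_iff₀ ha0] at h18
      linarith
    have hw' : Win (a / 2) A (rr d n) (xs d p n + c2 * ss d (rr d n)) := by
      constructor
      · nlinarith
      · have h19 : 0 ≤ c2 * ss d (rr d n) * rr d n ^ 2 := by positivity
        nlinarith
    have h20 := hR (rr d n) (xs d p n + c2 * ss d (rr d n)) (2 * ll d n) h3 hrg.1 hw'
    rw [add_sub_cancel_right] at h20
    have h21 : xs d p n + c2 * ss d (rr d n) ≤ 1 := by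
      by_contra hcon
      push Not at hcon
      have h22 := hw'.1
      nlinarith
    have h23 := k4 _ (by linarith [mul_pos hc2 hs]) h21
    exact h20.trans (mul_le_mul_of_nonneg_left h23.le hC2.le)
  · have h24 : A / rr d n ^ 2 ≤ 1 / 2 := by
      rw [div_le_iff₀ hr2']
      linarith
    linarith
  · by_contra hcon
    push Not at hcon
    nlinarith

end

end Pool.Agent.LBL
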