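import Pool.Agent.LBL.Wlk1
import Pool.Agent.LBL.Targets1
import Pool.Agent.LBL.P_VAR
import Pool.Agent.LBL.P_TOP

/-!
# LBL: target YZT (`lam` increases from a box to the torus)
-/

set_option autoImplicit false

open Finset
open scoped Classical

namespace Pool.Agent.LBL

noncomputable section

namespace YZT_

variable {d L : ℕ} [NeZero L]

omit [NeZero L] in
theorem red_add (x y : Fin d → ℤ) : red L (x + y) = red L x + red L y := by
  funext i
  simp [red]

omit [NeZero L] in
theorem red_sub (x y : Fin d → ℤ) : red L (x - y) = red L x - red L y := by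
  funext i
  simp [red]

omit [NeZero L] in
theorem red_ev (i : Fin d) : red L (ev i) = ev i := by
  funext j
  unfold red ev
  by_cases h : j = i
  · subst h
    simp
  · simp [Pi.single_eq_of_ne h]

theorem red_rep (a : Fin d → ℤ) (y : Tor d L) : red L (rep a y) = y := by
  funext i
  unfold red rep
  push_cast
  rw [ZMod.natCast_zmod_val]
  ring

omit [NeZero L] in
theorem rep_red (a x : Fin d → ℤ) (hx : x ∈ boxF a L) : rep a (red L x) = x := by
  funext i
  unfold red rep
  unfold boxF at hx
  rw [Fintype.mem_piFinset] at hx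
  have hi := Finset.mem_Ico.1 (hx i)
  have h1 : ((x i : ZMod L) - (a i : ZMod L)) = (((x i - a i).toNat : ℕ) : ZMod L) := by
    have h2 : (((x i - a i).toNat : ℕ) : ZMod L) = (((x i - a i).toNat : ℤ) : ZMod L) := by
      push_cast
      rfl
    rw [h2, Int.toNat_of_nonneg (by omega)]
    push_cast
    ring
  rw [h1, ZMod.val_natCast, Nat.mod_eq_of_lt (by omega)]
  omega

end YZT_

open YZT_ in
theorem p_YZT : T_YZT := by
  intro d L _ a O hd hO
  rcases O.eq_empty_or_nonempty with h0 | h0
  · have h1 : lam (∅ : Finset (Fin d → ℤ)) ≤ 0 := by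
      unfold lam
      refine Real.sSup_le ?_ le_rfl
      rintro t ⟨f, -, h1, -⟩
      rw [Finset.sum_empty] at h1
      exact absurd h1 (by norm_num)
    rw [h0]
    exact h1.trans (VAR_.nonneg hd _)
  obtain ⟨φ, hφ⟩ := p_TOP p_VAR d ℤ O hd h0
  set g : Tor d L → ℝ := fun y => φ (rep a y) with hg
  have hgr : ∀ x ∈ O, g (red L x) = φ x := fun x hx => by
    rw [hg]
    simp only
    rw [rep_red a x (hO hx)]
  have hinj : ∀ x ∈ O, ∀ y ∈ O, red L x = red L y → x = y := fun x hx y hy h => by
    rw [← rep_red a x (hO hx), ← rep_red a y (hO hy), h]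
  have hsp : Spp (O.image (red L)) g := by
    intro y hy
    refine hφ.sp _ fun h => hy ?_
    exact Finset.mem_image.2 ⟨_, h, red_rep a y⟩
  have hge : ∀ x, φ x ≤ g (red L x) := by
    intro x
    by_cases hx : x ∈ O
    · rw [hgr x hx]
    · rw [hφ.sp x hx]
      exact hφ.nn _
  have hP : ∀ x, P0 φ x ≤ P0 g (red L x) := by
    intro x
    unfold P0
    refine div_le_div_of_nonneg_right (Finset.sum_le_sum fun i _ => ?_) (by positivity)
    have h1 := hge (x + ev i)
    have h2 := hge (x - ev i)
    rw [red_add, red_ev] at h1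
    rw [red_sub, red_ev] at h2
    linarith
  have hnm : ∑ y ∈ O.image (red L), g y ^ 2 = 1 := by
    rw [Finset.sum_image hinj, ← hφ.nm]
    exact Finset.sum_congr rfl fun x hx => by rw [hgr x hx]
  have h1 : lam O = ∑ x ∈ O, φ x * P0 φ x := by
    have h2 : ∑ x ∈ O, φ x * P0 φ x = ∑ x ∈ O, lam O * φ x ^ 2 :=
      Finset.sum_congr rfl fun x hx => by rw [hφ.eq x hx]; ring
    rw [h2, ← Finset.mul_sum, hφ.nm, mul_one]
  calc lam O = ∑ x ∈ O, φ x * P0 φ x := h1
    _ ≤ ∑ x ∈ O, g (red L x) * P0 g (red L x) := by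
        refine Finset.sum_le_sum fun x hx => ?_
        rw [hgr x hx]
        exact mul_le_mul_of_nonneg_left (hP x) (hφ.nn x)
    _ = ∑ y ∈ O.image (red L), g y * P0 g y := by rw [Finset.sum_image hinj]
    _ ≤ lam (O.image (red L)) := VAR_.le_lam hd _ g hsp hnm

end

end Pool.Agent.LBL
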