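import Pool.Agent.LBL.Targets2

set_option autoImplicit false

/-!
# LBL, part REG, targets 3: no cliff (R2)
-/

open Finset
open scoped Classical

namespace Pool.Agent.LBL

noncomputable section

section defs

variable {d L : ℕ} [NeZero L]

/-- gain of the layer `x i = h` -/
def gn (i : Fin d) (φ : Tor d L → ℝ) (h : ZMod L) : ℝ :=
  ∑ x ∈ Finset.univ.filter (fun x : Tor d L => x i = h), φ x * (2 * φ x - φ (x + ev i) - φ (x - ev i))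

/-- force at `y` in direction `i` -/
def fo (i : Fin d) (φ : Tor d L → ℝ) (y : Tor d L) : ℝ := P0 φ y * |φ (y + ev i) - φ (y - ev i)|

/-- total force in direction `i` -/
def fc (O : Finset (Tor d L)) (i : Fin d) (φ : Tor d L → ℝ) : ℝ := ∑ y ∈ Oᶜ, fo i φ y

/-- another closed point is near -/
def NI (M c3 s : ℝ) (O : Finset (Tor d L)) (a : ℝ) (y : Tor d L) : Prop :=
  ∃ y' : Tor d L, y' ∉ O ∧ y' ≠ y ∧ (td y y' : ℝ) ≤ max M (c3 * a ^ 2 / s)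

/-- isolated with a large force -/
def BF (r C5 D0 c4 : ℝ) (O : Finset (Tor d L)) (i : Fin d) (φ : Tor d L → ℝ) (y : Tor d L) : Prop :=
  ∃ (D : ℕ) (y0 : Tor d L), y0 ∉ O ∧ y0 ≠ y ∧ (D : ℝ) ≤ c4 * r ∧ (∀ x, td x y ≤ D → x ∈ insert y O) ∧
    D0 * kap d (td y y0) ≤ D ∧ C5 * (P0 φ y) ^ 2 * kap d (td y y0) / D ≤ fo i φ y

/-- typical configurations -/
def Typ (r x δ A1 C K : ℝ) (O : Finset (Tor d L)) : Prop :=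
  O ≠ Finset.univ ∧ Sec O (x - δ / r ^ 2) ∧ ∀ y, y ∉ O → insert y O ≠ Finset.univ ∧ Sec (insert y O) (x - δ / r ^ 2) ∧
    lam (insert y O) ≤ x + K * ss d r * Real.log r ∧
    ∀ U : Finset (Tor d L), U ⊆ insert y O → (1 - lam U) * r ^ 2 ≤ A1 → EF r C U (ph U)

/-- reflection of one coordinate -/
def axr (i : Fin d) (x : Fin d → ℤ) : Fin d → ℤ := Function.update x i (-x i)

/-- exchange of two coordinates -/
def swr (i k : Fin d) (x : Fin d → ℤ) : Fin d → ℤ := fun l => x (Equiv.swap i k l)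

end defs

/-! ## Force identity -/

/-- Hessian bound: `2 d (1-P0) f = ∑_k Δ_k f`, `Δ_k f = 2 f - f(.+ev k) - f(.-ev k)`, and `<Δ_k f, Δ_l f> = ∑ (D_k D_l f)^2 >= 0` with `D_k f = f(.+ev k) - f` (commuting shifts, summation
by parts). Keep the term `k = l = i`. -/
def T_HES : Prop := ∀ (d L : ℕ) [NeZero L] (i : Fin d) (f : Tor d L → ℝ),
  ∑ x, (f (x + ev i) - 2 * f x + f (x - ev i)) ^ 2 ≤ ∑ x, (2 * d * (f x - P0 f x)) ^ 2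

/-- Sum and upper bound of the gains. First: `∑_h gn = ∑_x φ x (2 φ x - φ(x+ev i) - φ(x - ev i)) = Ed i φ`. Second: on `O` replace `φ(x+ev i)+φ(x-ev i)` by `2 d lam φ x - ∑_{k≠i} (..)`:
`gn = 2 d (1-lam) |u_h|^2 - E_perp(u_h)` with `E_perp(u_h) = ∑_{k≠i} ∑_{x i = h} (φ(x+ev k) - φ x)^2 >= 0`. Also `∑_i Ed i φ = 2 d (1-lam)` so some `i` has `Ed i φ >= 2 (1-lam)`. -/
def T_GNS : Prop := ∀ (d L : ℕ) [NeZero L], 1 ≤ d → ∀ (O : Finset (Tor d L)) (φ : Tor d L → ℝ), Top O φ →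
  (∀ i, ∑ h, gn i φ h = Ed i φ) ∧
  (∀ i h, gn i φ h ≤ 2 * d * (1 - lam O) * ∑ x ∈ Finset.univ.filter (fun x : Tor d L => x i = h), φ x ^ 2) ∧
  ∃ i, 2 * (1 - lam O) ≤ Ed i φ

/-- Force identity. Layers `u_h` of `φ`, `a_h` of `a = P0 φ` off `O` (zero on `O`); `u_{h+1} + u_{h-1} = B u_h + 2 d a_h`, `B = 2 d lam - A_perp` symmetric, `|B| <= 4d`. `I_h = |u_h|^2 + |u_{h-1}|^2 - <u_h, B u_{h-1}>`
satisfies `I_{h+1} - I_h = 2 d <a_h, u_{h+1} - u_{h-1}>` and `gn_h = I_h - <δ_{h+1},δ_h> - 2 d <a_h,u_{h-1}>`, `δ_h = u_h - u_{h-1}` (see Blueprint section 4; `<a_h,u_h> = 0`). So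
`gn_h <= |I_h| + (1/2)|δ_{h+1} - δ_h|^2`, `|I_h| <= |I_g| + 2 d fc` for every `g`, some `g` has `|u_g|^2+|u_{g-1}|^2 <= 2/L` and then `|I_g| <= (2d+1) 2/L`; T_HES. -/
def T_FID : Prop := ∀ (d L : ℕ) [NeZero L], 2 ≤ d → 3 ≤ L → ∀ (O : Finset (Tor d L)) (φ : Tor d L → ℝ), Top O φ → ∀ (i : Fin d) (S : Finset (ZMod L)),
  ∑ h ∈ S, gn i φ h ≤ S.card * (2 * d * fc O i φ + 6 * d / L) + (1 / 2) * ∑ x, (2 * d * (φ x - P0 φ x)) ^ 2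

/-- Thin layers carry little mass. `t0 = hh r^{-3/2}`; `φ^2 <= 2 (φ-t0)_+^2 + 2 (φ∧t0)^2`, `∑ (φ∧t0)^2 <= t0 ∑ φ <= C r^{-3/2}`. For a thin layer the function `f(w) = (φ(w inserted with i-th coordinate h) - t0)_+` on
`Tor (d-1) L` has support of size `<= η r^{d-1} <= L^{d-1}/2`: T_FKT in dimension `d-1` gives `∑ f^2 <= C (η r^{d-1})^{2/(d-1)} En f`; the sum over `h` of `En f` is at most `En φ = 2 d (1-lam) <= 2 d C r^-2`.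
(Write `d = e+1`, `Fin.insertNth`.) -/
def T_THN : Prop := ∀ (d : ℕ) (C ε : ℝ), 2 ≤ d → 1 ≤ C → 0 < ε → ∃ η r0 : ℝ, 0 < η ∧ 1 < r0 ∧
  ∀ (r : ℝ) (L : ℕ) [NeZero L], r0 ≤ r → r ^ (d + 4) ≤ L → ∀ (O : Finset (Tor d L)) (φ : Tor d L → ℝ), EF r C O φ → ∀ i : Fin d,
  ∑ h ∈ Finset.univ.filter (fun h : ZMod L => ((Finset.univ.filter fun x : Tor d L => x i = h ∧ hh d r * r ^ (-(3 : ℝ) / 2) < φ x).card : ℝ) ≤ η * r ^ (d - 1)),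
    ∑ x ∈ Finset.univ.filter (fun x : Tor d L => x i = h), φ x ^ 2 ≤ ε

/-- Total force. `i` from T_GNS, `S` = layers that are not thin (T_THN with `ε = 1/(2d)`), `|S| <= C r/η` (EF.lev). `∑_S gn >= 2μ - 2dμ ε >= μ`, `μ = 1 - lam O >= a r^-2`; T_FID, `∑ (2d(φ-P0φ))^2 = 4 d^2 (μ^2 + ∑_{y∉O} (P0 φ y)^2)`
is at most `μ/2` for `r` large. -/
def T_FRC : Prop := ∀ (d : ℕ) (C a : ℝ), 2 ≤ d → 1 ≤ C → 0 < a → ∃ c r0 : ℝ, 0 < c ∧ 1 < r0 ∧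
  ∀ (r : ℝ) (L : ℕ) [NeZero L], r0 ≤ r → r ^ (d + 4) ≤ L → ∀ (O : Finset (Tor d L)) (φ : Tor d L → ℝ), EF r C O φ →
  a ≤ (1 - lam O) * r ^ 2 → ∑ y ∈ Oᶜ, (P0 φ y) ^ 2 ≤ r ^ (-(5 : ℝ) / 2) → ∃ i : Fin d, c * r ^ (-(3 : ℝ)) ≤ fc O i φ

/-! ## Gradient bounds -/

/-- Reflection principle. For `R = axr i` put `t(x) = x i`, for `R = swr i k` put `t(x) = x i - x k`. `w = u - u ∘ R` vanishes on `t = 0`; on the half box `{t >= 1, |x|_∞ <= D-1}`: `|(1-μ) w - P0 w| <= S/D^2`, and `|w| <= 2S` on `|x|_∞ <= D`.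
Barrier `b = 2S'(|x|_2^2/D^2 + (t/D)(4d - 2d t/D))` with `S' = C S`: `(P0 - 1)|x|^2 = 1`, `(P0-1) t^2 = 1/d` or `2/d`, so `(1-P0) b >= 2S'/D^2` and `((1-μ) - P0) b >= S'/D^2` if `μ D^2` is small; `b >= 2S'` when `|x|_∞ = D`, `t >= 0`; `b > 0` for `t >= 1`.
Comparison principle (minimum of `(b ∓ w)/b`): `|w| <= b`, and `b <= C S'/D` at the neighbours of `0` with `t = 1`. Two neighbours of `0` are joined by at most two such reflections. -/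
def T_GRA : Prop := ∀ d : ℕ, 2 ≤ d → ∃ C c : ℝ, 0 < C ∧ 0 < c ∧ ∀ (u : (Fin d → ℤ) → ℝ) (D : ℕ) (μ S : ℝ), 2 ≤ D → 0 ≤ μ → μ * D ^ 2 ≤ c → 0 ≤ S →
  (∀ x : Fin d → ℤ, (∀ i, |x i| ≤ D) → |u x| ≤ S) →
  (∀ x : Fin d → ℤ, (∀ i, |x i| ≤ D - 1) →
    (∀ i, |((1 - μ) * u x - P0 u x) - ((1 - μ) * u (axr i x) - P0 u (axr i x))| ≤ S / D ^ 2) ∧
    (∀ i k, |((1 - μ) * u x - P0 u x) - ((1 - μ) * u (swr i k x) - P0 u (swr i k x))| ≤ S / D ^ 2)) →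
  ∀ i k : Fin d, |u (ev i) - u (-ev i)| ≤ C * S / D ∧ |u (ev i) - u (ev k)| ≤ C * S / D ∧ |u (-ev i) - u (ev k)| ≤ C * S / D

/-- Gradient of the resolvent near an isolated point. Lift `u x = v y (y + x)` to `ℤ^d` (`2D+1 <= L`), `1-μ = l`. `|v y w| <= (g_y g_w)^{1/2} <= C kap` on the ball: T_RVB, T_GKB (`td w y0 <= 2 td y y0`; `kap(2δ) <= 2 kap δ`). The equation at `w`
(all `w` with `td w y <= D` are in `O`) minus the reflected one: the source `δ_y` cancels, `|φo y φo w| <= C^2 r^{-d} <= S/(2D^2)`. T_GRA. -/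
def T_GDF : Prop := ∀ (d : ℕ) (C B : ℝ), 2 ≤ d → 1 ≤ C → 0 < B → ∃ C3 c4 r0 : ℝ, 0 < C3 ∧ 0 < c4 ∧ 1 < r0 ∧
  ∀ (r : ℝ) (L : ℕ) [NeZero L], r0 ≤ r → r ≤ L → ∀ (O : Finset (Tor d L)) (φo : Tor d L → ℝ) (y1 l : ℝ) (v : Tor d L → Tor d L → ℝ) (y y0 : Tor d L) (D : ℕ),
  EF r C O φo → Sec O y1 → 1 / B ≤ (l - y1) * r ^ 2 → l ≤ 1 → (1 - l) * r ^ 2 ≤ 2 * C → Rsv O φo l v → y0 ∉ O → 2 ≤ D → (D : ℝ) ≤ c4 * r → (∀ x, td x y ≤ D → x ∈ O) →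
  ∀ i k : Fin d, |v y (y + ev i) - v y (y - ev i)| ≤ C3 * kap d (td y y0) / D ∧ |v y (y + ev i) - v y (y + ev k)| ≤ C3 * kap d (td y y0) / D ∧
    |v y (y - ev i) - v y (y + ev k)| ≤ C3 * kap d (td y y0) / D

/-- Variation of the diagonal: equation of `v y` at `y`: `l v y y = P0 (v y) y + 1 - φo y^2`, and `P0 (v y) y` is the mean of the `2d` neighbours, all within `2 C3 kap/D` of `v y y''`; same at `y''` (ball of radius `D-1 >= D/2`), `v y y'' = v y'' y`, `φo^2 <= C^2 r^{-d} <= kap/D`,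
`l >= 1/2`. `y'' = y ± ev k`. -/
def T_GDG : Prop := ∀ (d : ℕ) (C B : ℝ), 2 ≤ d → 1 ≤ C → 0 < B → ∃ C3 c4 r0 : ℝ, 0 < C3 ∧ 0 < c4 ∧ 1 < r0 ∧
  ∀ (r : ℝ) (L : ℕ) [NeZero L], r0 ≤ r → r ≤ L → ∀ (O : Finset (Tor d L)) (φo : Tor d L → ℝ) (y1 l : ℝ) (v : Tor d L → Tor d L → ℝ) (y y0 : Tor d L) (D : ℕ),
  EF r C O φo → Sec O y1 → 1 / B ≤ (l - y1) * r ^ 2 → l ≤ 1 → (1 - l) * r ^ 2 ≤ 2 * C → Rsv O φo l v → y0 ∉ O → 4 ≤ D → (D : ℝ) ≤ c4 * r → (∀ x, td x y ≤ D → x ∈ O) →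
  ∀ k : Fin d, |v y y - v (y + ev k) (y + ev k)| ≤ C3 * kap d (td y y0) / D ∧ |v y y - v (y - ev k) (y - ev k)| ≤ C3 * kap d (td y y0) / D

/-- Test function for the exchange. `O` contains `y''`, `l`, `v` resolvent at `l`, `g'' = v y'' y'' > 0`: `ψ = φo - (φo y''/g'') v y''` vanishes at `y''`; form `lam O + β^2 (l |v|^2 - g'')`, norm `1 + β^2 |v|^2`, `β = φo y''/g''`, `|v|^2 = ip (v y'') (v y'')`,
`β^2 |v|^2 <= φo y''^2/(g'' (l-y1)) <= 1`. -/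
def T_EXT : Prop := ∀ (d L : ℕ) [NeZero L], 1 ≤ d → 3 ≤ L → ∀ (O : Finset (Tor d L)) (φo : Tor d L → ℝ) (y1 l : ℝ) (v : Tor d L → Tor d L → ℝ) (z : Tor d L),
  Top O φo → Sec O y1 → y1 < l → Rsv O φo l v → z ∈ O → 0 < v z z → φo z ^ 2 ≤ v z z * (l - y1) → φo z ^ 2 / v z z ≤ lam O - l →
  l + (lam O - l - φo z ^ 2 / v z z) / 2 ≤ lam (O.erase z)

/-- Exchange of an isolated obstacle with a neighbour (Blueprint, section 4, type B). `O = insert y O'`, `l = lam O'`, `v` from T_RVE, `a = P0 φ y`, `α = ip φ φo`, `g = v y y`, `P = φo y`. T_ONE, T_RVO: `φ w = α φo w - a v y w`, `a g = α P`, `Δ g = P^2`, `α >= 1/2`,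
`g >= 1/2` (T_CLO). `|F| = |φo(y+ev i) - φo(y-ev i)|`: `a|F| >= f - a^2 C3 kap/D >= f/2`, `f = fo i φ y`. `y''` = neighbour minimizing `φo`: `P'' <= P - |F|/(2d)` (mean value `P0 φo y = lam φo y <= P`). T_GDG: `|g - g''| <= C3 kap/D <= 1/4`.
`P^2/g - P''^2/g'' >= a|F|/(2d) - 8 a^2 |g-g''| >= f/(8d)`; T_EXT (`O.erase y'' = insert y (O'.erase y'')`). Then `P'' >= P/(2d)` (T_FLX), `v''` at `l'' = lam (O.erase y'')`: `g''(l'') <= g''(l) <= 2 g` (T_RVB), `α'' >= 1/2`, T_RVO: `P0 φ'' y'' = α'' P''/g''(l'') >= a/(8d)`. -/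
def T_SHF : Prop := ∀ (d : ℕ) (C B : ℝ), 2 ≤ d → 1 ≤ C → 0 < B → ∃ C5 D0 c4 r0 : ℝ, 0 < C5 ∧ 4 ≤ D0 ∧ 0 < c4 ∧ 1 < r0 ∧
  ∀ (r : ℝ) (L : ℕ) [NeZero L], r0 ≤ r → r ≤ L → ∀ (O' : Finset (Tor d L)) (φ φo : Tor d L → ℝ) (y y0 : Tor d L) (y1 : ℝ) (D : ℕ) (i : Fin d),
  y ∉ O' → Top O' φ → EF r C (insert y O') φo → Sec (insert y O') y1 → 1 / B ≤ (lam O' - y1) * r ^ 2 → (1 - lam O') * r ^ 2 ≤ 2 * C →
  (lam (insert y O') - lam O') * r ^ 2 * kap d (td y y0) ≤ c4 → y0 ∉ insert y O' → D0 * kap d (td y y0) ≤ D → (D : ℝ) ≤ c4 * r →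
  (∀ x, td x y ≤ D → x ∈ insert y O') → C5 * (P0 φ y) ^ 2 * kap d (td y y0) / D ≤ fo i φ y → 0 < P0 φ y →
  ∃ (k : Fin d) (y'' : Tor d L), (y'' = y + ev k ∨ y'' = y - ev k) ∧ y'' ∈ O' ∧
    lam O' + fo i φ y / (64 * d) ≤ lam (insert y (O'.erase y'')) ∧
    ∀ φ'', Top (insert y (O'.erase y'')) φ'' → P0 φ y / (16 * d) ≤ P0 φ'' y''

/-! ## Typical configurations and sums -/

/-- Exponential moment from R1 (T_R1F): split according to `k = ⌊(lam O - x)/ss⌋`. -/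
def T_EXQ : Prop := ∀ (d K0 : ℕ) (p a A : ℝ), 2 ≤ d → 1 ≤ K0 → 0 < p → p < 1 → 0 < a → a ≤ A → ∃ b C r0 : ℝ, 0 < b ∧ 0 < C ∧ 1 < r0 ∧
  ∀ (r x : ℝ) (L : ℕ) [NeZero L], r0 ≤ r → Rg d K0 r L → Win a A r x →
  ∑ O : Finset (Tor d L), wt p O * (if x ≤ lam O then (1 + (lam O - x) / ss d r) * Real.exp (b * ((lam O - x) / ss d r)) else 0) ≤ C * TT d L p x

/-- Typical configurations. T_GOO (holes `<= C' r^d`, hence `<= 2 C' r^d` for `insert y O`, T_HMO, T_MMS) and T_GDE (with `A+1`, `2C'`, and T_TOP: `ph U` is a top function) give the last clause (`U` is nonempty since `lam ∅ = 0`); `insert y O ≠ univ` since `hol univ = univ`;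
T_GAP for `O` and, with T_OPN, for `insert y O`; `lam (insert y O) > x + K ss log r`: T_OPN and T_R1F, `L^d C e^{-c K log r}` small for `K` large. All compared with `TT x <= TT (x - s')`. -/
def T_TYP : Prop := ∀ (d K0 : ℕ) (p a A : ℝ), 2 ≤ d → 1 ≤ K0 → 0 < p → p < 1 → 0 < a → a ≤ A → ∃ δ C K r0 : ℝ, 0 < δ ∧ 1 ≤ C ∧ 1 ≤ K ∧ 1 < r0 ∧
  ∀ (r x s' : ℝ) (L : ℕ) [NeZero L], r0 ≤ r → Rg d K0 r L → Win a A r x → 0 ≤ s' → s' ≤ ss d r →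
  pr p (fun O : Finset (Tor d L) => x - s' ≤ lam O ∧ ¬ Typ r x δ (A + 1) C K O) ≤ TT d L p (x - s') / 2

/-- Facts for typical `O` with `x - ss <= lam O`: `φ = ph O`, `φo = ph (insert y O)`, `Δ = lam (insert y O) - lam O <= 2 K ss log r`; T_ONE: `(1-α^2)(δ/r^2) <= Δ`, so `α >= 1/2`; `a^2 <= 2Δ`; `φo y = Δ α/a >= a/4`; `∑ a^2 <= max a ∑ a <= r^{-5/2}` (T_FXM). -/
def T_TPF : Prop := ∀ (d K0 : ℕ) (a A δ C K : ℝ), 2 ≤ d → 1 ≤ K0 → 0 < a → a ≤ A → 0 < δ → 1 ≤ C → 1 ≤ K → ∃ r0 : ℝ, 1 < r0 ∧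
  ∀ (r x : ℝ) (L : ℕ) [NeZero L], r0 ≤ r → Rg d K0 r L → Win a A r x → ∀ O : Finset (Tor d L), Typ r x δ (A + 1) C K O → x - ss d r ≤ lam O →
  EF r C O (ph O) ∧ ∑ y ∈ Oᶜ, (P0 (ph O) y) ^ 2 ≤ r ^ (-(5 : ℝ) / 2) ∧
  ∀ y, y ∉ O → EF r C (insert y O) (ph (insert y O)) ∧ lam (insert y O) - lam O ≤ 2 * K * ss d r * Real.log r ∧ 1 / 2 ≤ ip (ph O) (ph (insert y O)) ∧
    (P0 (ph O) y) ^ 2 ≤ 2 * (lam (insert y O) - lam O) ∧ P0 (ph O) y / 4 ≤ ph (insert y O) y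

/-- Negligible forces. `a = P0 φ y`, `f = fo i φ y <= 2 d a^2` (T_FLX), `∑ a <= C1 r^{d-1} sq`, `ss r^{d-1} = r^-3`. (1) `a < ε sq`: `∑ f <= 2 d ε sq ∑ a`. (2) `a >= ε sq`, `f < ε^3 ss`: at most `C1 r^{d-1}/ε` points. (3) `a >= ε sq`, not NI, not BF: let `y0` be a nearest point `≠ y`
outside `O`, `δ = td y y0 > Mj := max M (c3 a^2/ss)`, `D = min (δ-1) ⌊c4 r⌋`; `kap δ / D <= C Mj^{-9/10}` (if `δ <= c4 r` then `D >= δ/2`; otherwise `kap <= C log r`, `D >= c4 r/2`, and `Mj <= C log r` by the bound on `a`), so `D0 kap <= D` for `M` large and not BF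
gives `f < C5 a^2 C Mj^{-9/10}`; `Mj^{9/10} >= M^{3/10} (c3 a^2/ss)^{6/10}`, hence `f <= C M^{-3/10} c3^{-6/10} ss (a/sq)^{8/10} <= C M^{-3/10} c3^{-6/10} ε^{-2/10} ss (a/sq)`; sum with `∑ a`. First choose `ε`, then `M`. -/
def T_NEG : Prop := ∀ (d K0 : ℕ) (C K c8 c3 C5 D0 c4 : ℝ), 2 ≤ d → 1 ≤ K0 → 1 ≤ C → 1 ≤ K → 0 < c8 → 0 < c3 → 0 < C5 → 0 < D0 → 0 < c4 → ∃ ε M r0 : ℝ, 0 < ε ∧ ε ≤ 1 ∧ 1 ≤ M ∧ 1 < r0 ∧
  ∀ (r : ℝ) (L : ℕ) [NeZero L], r0 ≤ r → Rg d K0 r L → ∀ (O : Finset (Tor d L)) (φ : Tor d L → ℝ) (i : Fin d), EF r C O φ →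
  (∀ y, y ∉ O → insert y O ≠ Finset.univ ∧ (P0 φ y) ^ 2 ≤ 4 * K * ss d r * Real.log r) →
  ∑ y ∈ Oᶜ.filter (fun y => ¬ (ε * sq d r ≤ P0 φ y ∧ ε ^ 3 * ss d r ≤ fo i φ y ∧ (NI M c3 (ss d r) O (P0 φ y) y ∨ BF r C5 D0 c4 O i φ y))), fo i φ y ≤ c8 / 2 * r ^ (-(3 : ℝ))

/-- Type A: open `y`. T_MTR with `F U z = 1{O = U.erase z typical, ..} fo i (ph O) z`. For `U` with a nonzero term: `a = P0 (ph O) z`, `lam U >= lam O + a^2/2 >= x + a^2/4`, so with `w = (lam U - x)/ss`: `a^2/ss <= 4w`, `fo <= 2 d a^2 <= 8 d ss w`. Number of `z`: `ph U z >= a/4 >= ε sq/4` (T_TPF);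
let `y*` be a closest point outside `U` to `z` for the graph distance, at graph distance `<= d Ms`, `Ms = max M (4 c3 w)`; along a geodesic (inside `U`, T_FLX) `P0 (ph U) y* >= (2d)^{-d Ms - 1} ε sq/4`; T_FXM for `EF r C U (ph U)` and `(2d+1)^{d Ms + 1}` points near each: at most
`C(ε) e^{C6 Ms} r^{d-1}` points `z`. `C6` depends only on `d`; choose `c3` with `4 c3 C6 <= b` (T_EXQ). -/
def T_TYA : Prop := ∀ (d K0 : ℕ) (p a A δ C K : ℝ), 2 ≤ d → 1 ≤ K0 → 0 < p → p < 1 → 0 < a → a ≤ A → 0 < δ → 1 ≤ C → 1 ≤ K → ∃ c3 : ℝ, 0 < c3 ∧ ∀ M ε : ℝ, 1 ≤ M → 0 < ε → ε ≤ 1 → ∃ C7 r0 : ℝ, 0 < C7 ∧ 1 < r0 ∧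
  ∀ (r x s' : ℝ) (L : ℕ) [NeZero L] (i : Fin d), r0 ≤ r → Rg d K0 r L → Win a A r x → 0 ≤ s' → s' ≤ ε ^ 2 * ss d r / 4 →
  ∑ O : Finset (Tor d L), wt p O * (if x - s' ≤ lam O ∧ Typ r x δ (A + 1) C K O then
    ∑ y ∈ Oᶜ.filter (fun y => ε * sq d r ≤ P0 (ph O) y ∧ NI M c3 (ss d r) O (P0 (ph O) y) y), fo i (ph O) y else 0) ≤ C7 * r ^ (-(3 : ℝ)) * TT d L p x

/-- Type B: exchange `y` with `y''` from T_SHF (`B = 2/δ`, `y1 = x - δ/r^2`; hypotheses by T_TPF). For fixed `(y,y'')` the exchange of the two points is a bijection preserving the weight (T_MTR) and maps `O` to `O'' = insert y (O.erase y'')`, `lam O'' >= x - s' + fo/(64 d) >= x + fo/(128 d)`, so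
`fo <= 128 d ss w`, `w = (lam O'' - x)/ss`. For given `O''`: `y'' ∉ O''`, `P0 (ph O'') y'' >= ε sq/(16 d)`: by T_FXM (`EF r C O'' (ph O'')` from the last clause of Typ, `O'' ⊆ insert y O`) at most `C r^{d-1}/ε` points `y''`, and `y = y'' ± ev k`: `2d` choices. T_EXQ. -/
def T_TYB : Prop := ∀ (d K0 : ℕ) (p a A δ C K : ℝ), 2 ≤ d → 1 ≤ K0 → 0 < p → p < 1 → 0 < a → a ≤ A → 0 < δ → 1 ≤ C → 1 ≤ K → ∃ C5 D0 c4 : ℝ, 0 < C5 ∧ 0 < D0 ∧ 0 < c4 ∧ ∀ ε : ℝ, 0 < ε → ε ≤ 1 → ∃ C7 r0 : ℝ, 0 < C7 ∧ 1 < r0 ∧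
  ∀ (r x s' : ℝ) (L : ℕ) [NeZero L] (i : Fin d), r0 ≤ r → Rg d K0 r L → Win a A r x → 0 ≤ s' → s' ≤ ε ^ 3 * ss d r / (128 * d) →
  ∑ O : Finset (Tor d L), wt p O * (if x - s' ≤ lam O ∧ Typ r x δ (A + 1) C K O then
    ∑ y ∈ Oᶜ.filter (fun y => ε * sq d r ≤ P0 (ph O) y ∧ ε ^ 3 * ss d r ≤ fo i (ph O) y ∧ BF r C5 D0 c4 O i (ph O) y), fo i (ph O) y else 0) ≤ C7 * r ^ (-(3 : ℝ)) * TT d L p x

/-- R2. Constants: T_TYP (`δ, C, K`), T_FRC (`c8`, with `a`), T_TYA (`c3`), T_TYB (`C5, D0, c4`), T_NEG (`ε, M`), then `C7`'s; `s' = c ss`, `c = ε^3/(128 d)` (also `<= ε^2/4`). If `O` is typical and `x - s' <= lam O < x` then (T_TPF, T_FRC: `a <= (1-x) r^2 <= (1 - lam O) r^2`) some `i` has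
`fc O i (ph O) >= c8 r^-3`, and T_NEG leaves `c8 r^-3/2` for the points of type A or B. Sum over `i` of T_TYA, T_TYB: `pr(typical, x-s' <= lam < x) * c8/2 <= 2 d C7 TT x`. T_TYP: `TT(x-s') <= TT x + that + TT(x-s')/2`. -/
def T_R2F : Prop := ∀ (d K0 : ℕ) (p a A : ℝ), 2 ≤ d → 1 ≤ K0 → 0 < p → p < 1 → 0 < a → a ≤ A → ∃ C c r0 : ℝ, 0 < C ∧ 0 < c ∧ 1 < r0 ∧
  ∀ (r x : ℝ) (L : ℕ) [NeZero L], r0 ≤ r → Rg d K0 r L → Win a A r x → TT d L p (x - c * ss d r) ≤ C * TT d L p x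

end

end Pool.Agent.LBL
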