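import Pool.Agent.LBL.Wlk3
import Pool.Agent.LBL.Targets3
import Pool.Agent.LBL.P_BLK
import Pool.Agent.LBL.P_CLO
import Pool.Agent.LBL.P_CNT
import Pool.Agent.LBL.P_DUP
import Pool.Agent.LBL.P_ENI
import Pool.Agent.LBL.P_ESC
import Pool.Agent.LBL.P_EXQ
import Pool.Agent.LBL.P_EXT
import Pool.Agent.LBL.P_FID
import Pool.Agent.LBL.P_FKT
import Pool.Agent.LBL.P_FLX
import Pool.Agent.LBL.P_FOR
import Pool.Agent.LBL.P_FRC
import Pool.Agent.LBL.P_FXM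
import Pool.Agent.LBL.P_GAP
import Pool.Agent.LBL.P_GDE
import Pool.Agent.LBL.P_GDF
import Pool.Agent.LBL.P_GDG
import Pool.Agent.LBL.P_GKB
import Pool.Agent.LBL.P_GNS
import Pool.Agent.LBL.P_GOO
import Pool.Agent.LBL.P_GPB
import Pool.Agent.LBL.P_GRA
import Pool.Agent.LBL.P_HES
import Pool.Agent.LBL.P_HKB
import Pool.Agent.LBL.P_HMO
import Pool.Agent.LBL.P_HOL
import Pool.Agent.LBL.P_LDP
import Pool.Agent.LBL.P_LEV
import Pool.Agent.LBL.P_LIN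
import Pool.Agent.LBL.P_LON
import Pool.Agent.LBL.P_LVN
import Pool.Agent.LBL.P_LWI
import Pool.Agent.LBL.P_MMS
import Pool.Agent.LBL.P_MTR
import Pool.Agent.LBL.P_NEG
import Pool.Agent.LBL.P_NOD
import Pool.Agent.LBL.P_NSH
import Pool.Agent.LBL.P_ONE
import Pool.Agent.LBL.P_OPN
import Pool.Agent.LBL.P_POI
import Pool.Agent.LBL.P_POT
import Pool.Agent.LBL.P_PRB
import Pool.Agent.LBL.P_R1F
import Pool.Agent.LBL.P_R1H
import Pool.Agent.LBL.P_R2F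
import Pool.Agent.LBL.P_REV
import Pool.Agent.LBL.P_RVB
import Pool.Agent.LBL.P_RVE
import Pool.Agent.LBL.P_RVO
import Pool.Agent.LBL.P_SHF
import Pool.Agent.LBL.P_SIZ
import Pool.Agent.LBL.P_SUP
import Pool.Agent.LBL.P_THN
import Pool.Agent.LBL.P_TOP
import Pool.Agent.LBL.P_TPF
import Pool.Agent.LBL.P_TRN
import Pool.Agent.LBL.P_TYA
import Pool.Agent.LBL.P_TYB
import Pool.Agent.LBL.P_TYP
import Pool.Agent.LBL.P_UNQ
import Pool.Agent.LBL.P_VAR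
import Pool.Agent.LBL.P_VCT
import Pool.Agent.LBL.P_VLO
import Pool.Agent.LBL.P_VUP
import Pool.Agent.LBL.P_WLB
import Pool.Agent.LBL.P_YAC
import Pool.Agent.LBL.P_YAI
import Pool.Agent.LBL.P_YBL
import Pool.Agent.LBL.P_YBP
import Pool.Agent.LBL.P_YBR
import Pool.Agent.LBL.P_YBU
import Pool.Agent.LBL.P_YBX
import Pool.Agent.LBL.P_YCD
import Pool.Agent.LBL.P_YCH
import Pool.Agent.LBL.P_YCN
import Pool.Agent.LBL.P_YCT
import Pool.Agent.LBL.P_YCU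
import Pool.Agent.LBL.P_YDS
import Pool.Agent.LBL.P_YEA
import Pool.Agent.LBL.P_YEN
import Pool.Agent.LBL.P_YFK
import Pool.Agent.LBL.P_YFN
import Pool.Agent.LBL.P_YGB
import Pool.Agent.LBL.P_YGE
import Pool.Agent.LBL.P_YGG
import Pool.Agent.LBL.P_YHP
import Pool.Agent.LBL.P_YID
import Pool.Agent.LBL.P_YIG
import Pool.Agent.LBL.P_YIM
import Pool.Agent.LBL.P_YIS
import Pool.Agent.LBL.P_YIT
import Pool.Agent.LBL.P_YLB
import Pool.Agent.LBL.P_YLO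
import Pool.Agent.LBL.P_YLS
import Pool.Agent.LBL.P_YMI
import Pool.Agent.LBL.P_YMK
import Pool.Agent.LBL.P_YML
import Pool.Agent.LBL.P_YMS
import Pool.Agent.LBL.P_YNI
import Pool.Agent.LBL.P_YOP
import Pool.Agent.LBL.P_YPL
import Pool.Agent.LBL.P_YQ1
import Pool.Agent.LBL.P_YQ2
import Pool.Agent.LBL.P_YRC
import Pool.Agent.LBL.P_YRD
import Pool.Agent.LBL.P_YRM
import Pool.Agent.LBL.P_YSB
import Pool.Agent.LBL.P_YSC
import Pool.Agent.LBL.P_YSH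
import Pool.Agent.LBL.P_YSM
import Pool.Agent.LBL.P_YSR
import Pool.Agent.LBL.P_YST
import Pool.Agent.LBL.P_YTB
import Pool.Agent.LBL.P_YTL
import Pool.Agent.LBL.P_YTP
import Pool.Agent.LBL.P_YTR
import Pool.Agent.LBL.P_YUB
import Pool.Agent.LBL.P_YUN
import Pool.Agent.LBL.P_YUP
import Pool.Agent.LBL.P_YVS
import Pool.Agent.LBL.P_YWD
import Pool.Agent.LBL.P_YWP
import Pool.Agent.LBL.P_YXS
import Pool.Agent.LBL.P_YZT

set_option autoImplicit false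

/-!
# LBL: assembly of the parts REG, WLK and FIN

Every target is proved without hypotheses; `q_YFN : T_LDI → T_MAIN`.
-/

namespace Pool.Agent.LBL

theorem q_YMS : T_YMS := p_YMS
theorem q_YRM : T_YRM := p_YRM q_YMS
theorem q_YCD : T_YCD := p_YCD q_YRM
theorem q_YBR : T_YBR := p_YBR
theorem q_HMO : T_HMO := p_HMO
theorem q_GPB : T_GPB := p_GPB
theorem q_YSC : T_YSC := p_YSC
theorem q_YHP : T_YHP := p_YHP q_YBR q_HMO q_GPB q_YSC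
theorem q_YZT : T_YZT := p_YZT
theorem q_VAR : T_VAR := p_VAR
theorem q_TOP : T_TOP := p_TOP q_VAR
theorem q_YIT : T_YIT := p_YIT q_TOP q_VAR
theorem q_YTB : T_YTB := p_YTB q_VAR q_TOP
theorem q_PRB : T_PRB := p_PRB
theorem q_YBX : T_YBX := p_YBX q_YZT q_YIT q_YTB q_YBR q_PRB q_VAR
theorem q_POI : T_POI := p_POI
theorem q_NSH : T_NSH := p_NSH q_POI
theorem q_HKB : T_HKB := p_HKB q_NSH
theorem q_SUP : T_SUP := p_SUP q_HKB
theorem q_HOL : T_HOL := p_HOL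
theorem q_MMS : T_MMS := p_MMS
theorem q_LON : T_LON := p_LON q_SUP q_HOL q_MMS q_VAR
theorem q_ENI : T_ENI := p_ENI
theorem q_FLX : T_FLX := p_FLX q_ENI q_VAR
theorem q_LVN : T_LVN := p_LVN q_FLX
theorem q_GDE : T_GDE := p_GDE q_SUP q_LON q_LVN q_FLX q_MMS
theorem q_TRN : T_TRN := p_TRN q_VAR
theorem q_LEV : T_LEV := p_LEV q_ENI q_TRN q_VAR
theorem q_CNT : T_CNT := p_CNT
theorem q_VUP : T_VUP := p_VUP q_VAR
theorem q_GOO : T_GOO := p_GOO q_VAR q_PRB q_VUP q_GPB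
theorem q_LDP : T_LDP := p_LDP q_VAR q_TOP q_PRB q_GDE q_LEV q_CNT q_VUP q_GOO
theorem q_FKT : T_FKT := p_FKT q_NSH q_ENI q_TOP
theorem q_VLO : T_VLO := p_VLO q_FKT
theorem q_SIZ : T_SIZ := p_SIZ q_LDP q_VLO q_VUP
theorem q_MTR : T_MTR := p_MTR
theorem q_OPN : T_OPN := p_OPN q_MTR
theorem q_NOD : T_NOD := p_NOD q_VAR
theorem q_DUP : T_DUP := p_DUP q_TOP q_VAR q_ENI q_FLX
theorem q_VCT : T_VCT := p_VCT q_VUP q_DUP
theorem q_GAP : T_GAP := p_GAP q_TOP q_NOD q_PRB q_HMO q_GDE q_LEV q_CNT q_VLO q_VUP q_VCT q_GOO q_LDP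
theorem q_BLK : T_BLK := p_BLK
theorem q_FXM : T_FXM := p_FXM q_FLX
theorem q_LWI : T_LWI := p_LWI
theorem q_LIN : T_LIN := p_LIN q_FLX q_BLK q_FXM q_LWI
theorem q_ONE : T_ONE := p_ONE q_VAR
theorem q_CLO : T_CLO := p_CLO q_VAR
theorem q_RVE : T_RVE := p_RVE q_ENI
theorem q_RVB : T_RVB := p_RVB
theorem q_RVO : T_RVO := p_RVO
theorem q_POT : T_POT := p_POT
theorem q_GKB : T_GKB := p_GKB q_ENI q_RVB q_POT
theorem q_WLB : T_WLB := p_WLB q_TOP q_ONE q_CLO q_RVE q_RVB q_RVO q_GKB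
theorem q_ESC : T_ESC := p_ESC
theorem q_FOR : T_FOR := p_FOR q_LIN q_WLB q_ESC q_VAR
theorem q_UNQ : T_UNQ := p_UNQ
theorem q_REV : T_REV := p_REV q_FLX q_UNQ q_ONE q_FXM
theorem q_R1H : T_R1H := p_R1H q_GAP q_GOO q_GDE q_FOR q_REV q_MTR q_CLO q_HMO q_TOP q_VAR
theorem q_R1F : T_R1F := p_R1F q_R1H
theorem q_TYP : T_TYP := p_TYP q_PRB q_OPN q_TOP q_HMO q_MMS q_GDE q_GOO q_GAP q_R1F
theorem q_TPF : T_TPF := p_TPF q_VAR q_ONE q_FXM q_FLX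
theorem q_GNS : T_GNS := p_GNS q_FLX
theorem q_HES : T_HES := p_HES
theorem q_FID : T_FID := p_FID q_HES
theorem q_THN : T_THN := p_THN q_FKT q_FLX
theorem q_FRC : T_FRC := p_FRC q_GNS q_FID q_THN
theorem q_EXQ : T_EXQ := p_EXQ q_R1F
theorem q_TYA : T_TYA := p_TYA q_MTR q_EXQ q_TPF q_FXM q_FLX
theorem q_GRA : T_GRA := p_GRA
theorem q_GDF : T_GDF := p_GDF q_GRA q_RVB q_GKB
theorem q_GDG : T_GDG := p_GDG q_GDF
theorem q_EXT : T_EXT := p_EXT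
theorem q_SHF : T_SHF := p_SHF q_ONE q_CLO q_RVE q_RVB q_RVO q_FLX q_VAR q_GDF q_GDG q_EXT
theorem q_TYB : T_TYB := p_TYB q_SHF q_TPF q_MTR q_FXM q_EXQ
theorem q_NEG : T_NEG := p_NEG q_FLX
theorem q_R2F : T_R2F := p_R2F q_TYP q_TPF q_FRC q_TYA q_TYB q_NEG
theorem q_YXS : T_YXS := p_YXS q_SIZ q_R2F q_PRB
theorem q_YID : T_YID := p_YID
theorem q_YGG : T_YGG := p_YGG q_YHP q_YBX q_YXS q_YID q_YSC q_YMS
theorem q_YCN : T_YCN := p_YCN q_TOP q_VAR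
theorem q_YTR : T_YTR := p_YTR
theorem q_YBU : T_YBU := p_YBU q_BLK q_FXM q_FLX
theorem q_YSB : T_YSB := p_YSB
theorem q_YIS : T_YIS := p_YIS q_TOP q_YCN q_YTR q_HMO q_GDE q_YBU q_YSB
theorem q_YSM : T_YSM := p_YSM
theorem q_YGB : T_YGB := p_YGB q_YIS q_YXS q_YSM q_YSC
theorem q_YCU : T_YCU := p_YCU q_YTR q_HOL q_MMS
theorem q_YEN : T_YEN := p_YEN
theorem q_YIM : T_YIM := p_YIM q_YEN
theorem q_YIG : T_YIG := p_YIG q_YIM q_VAR q_TOP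
theorem q_YUN : T_YUN := p_YUN q_YIG q_YBX q_PRB q_VAR
theorem q_YTL : T_YTL := p_YTL q_YXS q_R1F q_R2F q_YSC
theorem q_YAI : T_YAI := p_YAI q_YSM
theorem q_YEA : T_YEA := p_YEA q_YCU q_YSM q_YHP q_YUN q_YTL q_YSC q_YAI q_YMS q_VAR q_PRB
theorem q_YFK : T_YFK := p_YFK q_YBR q_YMS q_YID
theorem q_YAC : T_YAC := p_YAC q_YGG q_YGB q_YEA q_YRM q_YFK q_YAI q_YMS q_YSC
theorem q_YRC : T_YRC := p_YRC
theorem q_YPL : T_YPL := p_YPL q_YRC q_TOP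
theorem q_YSR : T_YSR := p_YSR q_YAC q_YPL q_YXS q_YSC
theorem q_YUB : T_YUB := p_YUB q_VAR q_PRB q_YUN q_YTL q_YSC
theorem q_YRD : T_YRD := p_YRD q_YEN
theorem q_YNI : T_YNI := p_YNI q_YIM q_YRD q_VAR
theorem q_YTP : T_YTP := p_YTP q_VAR
theorem q_YCT : T_YCT := p_YCT q_VAR q_YTP
theorem q_YOP : T_YOP := p_YOP q_YRC q_VAR
theorem q_YCH : T_YCH := p_YCH q_YOP
theorem q_YGE : T_YGE := p_YGE
theorem q_YVS : T_YVS := p_YVS q_YGE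
theorem q_YWD : T_YWD := p_YWD q_YNI q_YCT q_YCH q_YVS q_YSC q_VAR q_YRC
theorem q_YLS : T_YLS := p_YLS q_YBX q_YTL q_YSC q_YMS
theorem q_YLB : T_YLB := p_YLB q_YID q_YBX q_YTL q_YSC q_VAR q_YMS
theorem q_YBP : T_YBP := p_YBP q_YBR
theorem q_YWP : T_YWP := p_YWP q_YWD q_YXS q_YLS q_YLB q_YBP q_YSC q_VAR
theorem q_YSH : T_YSH := p_YSH q_PRB q_YUN q_YTL q_YSC
theorem q_YBL : T_YBL := p_YBL
theorem q_YML : T_YML := p_YML
theorem q_YDS : T_YDS := p_YDS q_YRC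
theorem q_YUP : T_YUP := p_YUP q_YML q_YDS q_YXS q_YSC q_VAR
theorem q_YMK : T_YMK := p_YMK
theorem q_YMI : T_YMI := p_YMI q_YMK q_YRC
theorem q_YST : T_YST := p_YST q_YOP q_YRC q_VAR
theorem q_YQ1 : T_YQ1 := p_YQ1 q_YDS q_YST q_YXS q_YSC q_VAR
theorem q_YQ2 : T_YQ2 := p_YQ2 q_YDS q_YST q_YXS q_YSC q_VAR
theorem q_YLO : T_YLO := p_YLO q_YML q_YMI q_YQ1 q_YQ2 q_YSC q_YXS
theorem q_YFN : T_YFN := p_YFN q_YCD q_YSR q_YUB q_YWP q_YSH q_YBL q_YUP q_YLO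

end Pool.Agent.LBL
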