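import Mathlib

set_option autoImplicit false

/-!
# LBL: MP_1c0486_pr, distance from the origin to the localization ball.  Definitions of part REG

Complete paper proof: `Pool/Agent/LBL/Blueprint.md` (ideas row 1795). Lattices are `Fin d → R` with `R = ℤ` or `R = ZMod L`.
`P0` is the transition operator of simple random walk, `lam O` the top eigenvalue of the walk killed outside the finite
set `O`, `Top O φ` says that `φ` is a normalized nonnegative eigenfunction, `Sec O y` says that the second eigenvalue is at most `y`.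
`pr p A` is the probability of `A` when every point of a finite set is open with probability `p`.
-/

open Finset
open scoped Classical

namespace Pool.Agent.LBL

noncomputable section

/-- unit vectors -/
def ev {d : ℕ} {R : Type} [Ring R] (i : Fin d) : Fin d → R := Pi.single i 1

/-- transition operator of simple random walk -/
def P0 {d : ℕ} {R : Type} [Ring R] (f : (Fin d → R) → ℝ) (x : Fin d → R) : ℝ :=
  (∑ i : Fin d, (f (x + ev i) + f (x - ev i))) / (2 * d)

/-- `f` vanishes outside `O` -/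
def Spp {X : Type} (O : Finset X) (f : X → ℝ) : Prop := ∀ x, x ∉ O → f x = 0

/-- top eigenvalue of the walk killed outside `O` (zero for the empty set) -/
def lam {d : ℕ} {R : Type} [Ring R] (O : Finset (Fin d → R)) : ℝ :=
  sSup {t : ℝ | ∃ f : (Fin d → R) → ℝ, Spp O f ∧ ∑ x ∈ O, f x ^ 2 = 1 ∧ t = ∑ x ∈ O, f x * P0 f x}

/-- normalized nonnegative top eigenfunction -/
structure Top {d : ℕ} {R : Type} [Ring R] (O : Finset (Fin d → R)) (φ : (Fin d → R) → ℝ) : Prop where
  nn : ∀ x, 0 ≤ φ x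
  sp : Spp O φ
  nm : ∑ x ∈ O, φ x ^ 2 = 1
  eq : ∀ x ∈ O, P0 φ x = lam O * φ x

/-- the second eigenvalue is at most `y` -/
def Sec {d : ℕ} {R : Type} [Ring R] (O : Finset (Fin d → R)) (y : ℝ) : Prop :=
  ∀ φ : (Fin d → R) → ℝ, Top O φ → ∀ f : (Fin d → R) → ℝ, Spp O f → ∑ x ∈ O, f x * φ x = 0 →
    ∑ x ∈ O, f x * P0 f x ≤ y * ∑ x ∈ O, f x ^ 2

/-- a chosen top eigenfunction -/
def ph {d : ℕ} {R : Type} [Ring R] (O : Finset (Fin d → R)) : (Fin d → R) → ℝ :=
  if h : ∃ φ : (Fin d → R) → ℝ, Top O φ then Classical.choose h else 0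

/-! ## The torus -/

/-- the torus -/
abbrev Tor (d L : ℕ) : Type := Fin d → ZMod L

section Torus

variable {d L : ℕ} [NeZero L]

/-- inner product on the torus -/
def ip (f g : Tor d L → ℝ) : ℝ := ∑ x, f x * g x

/-- energy in direction `i` -/
def Ed (i : Fin d) (f : Tor d L → ℝ) : ℝ := ∑ x, (f (x + ev i) - f x) ^ 2

/-- energy -/
def En (f : Tor d L → ℝ) : ℝ := ∑ i : Fin d, Ed i f

/-- lazy kernel -/
def Kz (f : Tor d L → ℝ) (x : Tor d L) : ℝ := (f x + P0 f x) / 2

/-- killed operator -/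
def Pk (O : Finset (Tor d L)) (f : Tor d L → ℝ) (x : Tor d L) : ℝ := if x ∈ O then P0 f x else 0

/-- probability to survive `t` steps -/
def srv (O : Finset (Tor d L)) (t : ℕ) : Tor d L → ℝ := (Pk O)^[t] (fun x => if x ∈ O then 1 else 0)

/-- erosion -/
def ero (O : Finset (Tor d L)) : Finset (Tor d L) := O.filter fun x => ∀ i : Fin d, x + ev i ∈ O ∧ x - ev i ∈ O

/-- points with an open ball of radius `m` (in the graph distance) -/
def hol (m : ℕ) (O : Finset (Tor d L)) : Finset (Tor d L) := ero^[m] O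

/-- sup distance on the torus -/
def td (x y : Tor d L) : ℕ := Finset.univ.sup fun i : Fin d => (x i - y i).valMinAbs.natAbs

/-- edge boundary; the edge `(x,i)` joins `x` and `x + ev i` -/
def bd (V : Finset (Tor d L)) : Finset (Tor d L × Fin d) :=
  Finset.univ.filter fun e => ¬ (e.1 ∈ V ↔ e.1 + ev e.2 ∈ V)

/-- smallest volume of a set with top eigenvalue at least `x` -/
def vol (d L : ℕ) [NeZero L] (x : ℝ) : ℕ := sInf {n : ℕ | ∃ V : Finset (Tor d L), V.card = n ∧ x ≤ lam V}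

end Torus

/-- weight of a configuration -/
def wt {X : Type} [Fintype X] (p : ℝ) (O : Finset X) : ℝ := p ^ O.card * (1 - p) ^ (Fintype.card X - O.card)

/-- probability of an event -/
def pr {X : Type} [Fintype X] (p : ℝ) (A : Finset X → Prop) : ℝ := ∑ O : Finset X, if A O then wt p O else 0

/-- tail of the top eigenvalue of the torus -/
def TT (d L : ℕ) [NeZero L] (p x : ℝ) : ℝ := pr p fun O : Finset (Tor d L) => x ≤ lam O

/-! ## Scales. `hh = r^(-d/2)`, `sq = r^(-d/2-1)`, `ss = sq^2 = r^(-d-2)` -/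

/-- bulk height -/
def hh (d : ℕ) (r : ℝ) : ℝ := r ^ (-(d : ℝ) / 2)

/-- boundary height -/
def sq (d : ℕ) (r : ℝ) : ℝ := r ^ (-(d : ℝ) / 2 - 1)

/-- spectral scale -/
def ss (d : ℕ) (r : ℝ) : ℝ := r ^ (-(d : ℝ) - 2)

/-- radius of the holes -/
def mm (d : ℕ) (p : ℝ) (K0 : ℕ) (r : ℝ) : ℕ :=
  d * ⌈(2 * K0 * d * Real.log r / (-Real.log p)) ^ ((1 : ℝ) / d)⌉₊

/-- admissible side lengths -/
def Rg (d K0 : ℕ) (r : ℝ) (L : ℕ) : Prop := r ^ (d + 4) ≤ (L : ℝ) ∧ (L : ℝ) ≤ r ^ K0

/-- the window -/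
def Win (a A r x : ℝ) : Prop := a ≤ (1 - x) * r ^ 2 ∧ (1 - x) * r ^ 2 ≤ A

/-- regularity of an eigenfunction -/
structure EF {d L : ℕ} [NeZero L] (r C : ℝ) (O : Finset (Tor d L)) (φ : Tor d L → ℝ) : Prop where
  top : Top O φ
  mu : (1 - lam O) * r ^ 2 ≤ C
  sup : ∀ x, φ x ≤ C * hh d r
  l1 : ∑ x, φ x ≤ C / hh d r
  lev : ((Finset.univ.filter fun x => hh d r * r ^ (-(3 : ℝ) / 2) < φ x).card : ℝ) ≤ C * r ^ d

/-- resolvent on the orthogonal complement of the top eigenfunction -/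
structure Rsv {d L : ℕ} [NeZero L] (O : Finset (Tor d L)) (φ : Tor d L → ℝ) (l : ℝ)
    (v : Tor d L → Tor d L → ℝ) : Prop where
  sym : ∀ z w, v z w = v w z
  sp : ∀ z, Spp O (v z)
  orth : ∀ z, ip (v z) φ = 0
  eq : ∀ z ∈ O, ∀ w ∈ O, l * v z w - P0 (v z) w = (if w = z then 1 else 0) - φ z * φ w

/-- logarithm in dimension two -/
def kap (d : ℕ) (D : ℝ) : ℝ := if d = 2 then 1 + Real.log (1 + D) else 1

/-- loss of the eigenvalue when `z` is closed, in units of `φ(z)^2` -/
def Wt {d L : ℕ} [NeZero L] (O : Finset (Tor d L)) (z : Tor d L) : ℝ :=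
  (lam O - lam (O.erase z)) / ph O z ^ 2

end

end Pool.Agent.LBL
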