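import Pool.Agent.LBL.Defs

set_option autoImplicit false

/-!
# LBL: environment, percolation, walk, localization ball.  Definitions of parts PERC, WLK and FIN

`Env d` is the set of environments on `ℤ^d` (`true` = open), `PP d p` the Bernoulli law, `Inf d` the event that
the origin lies in an infinite open cluster, `theta`, `pc` as usual. `wk x n E` is the probability that the first `n` steps of
simple random walk started at `x` have the property `E` (number of step sequences divided by `(2d)^n`).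
-/

open Finset MeasureTheory Filter Topology
open scoped Classical

namespace Pool.Agent.LBL

noncomputable section

/-! ## Environment and percolation -/

/-- an environment: `true` = open, `false` = obstacle -/
abbrev Env (d : ℕ) : Type := (Fin d → ℤ) → Bool

/-- law of one site, open with probability `p` -/
def bern (p : ℝ) : Measure Bool :=
  ENNReal.ofReal p • Measure.dirac true + ENNReal.ofReal (1 - p) • Measure.dirac false

/-- Bernoulli site percolation on `ℤ^d` -/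
def PP (d : ℕ) (p : ℝ) : Measure (Env d) := Measure.infinitePi fun _ : Fin d → ℤ => bern p

theorem bern_prob {p : ℝ} (h0 : 0 ≤ p) (h1 : p ≤ 1) : IsProbabilityMeasure (bern p) := by
  constructor
  unfold bern
  simp only [Measure.coe_add, Measure.coe_smul, Pi.add_apply, Pi.smul_apply, measure_univ,
    smul_eq_mul, mul_one]
  rw [← ENNReal.ofReal_add h0 (by linarith)]
  simp

theorem PP_prob (d : ℕ) {p : ℝ} (h0 : 0 ≤ p) (h1 : p ≤ 1) : IsProbabilityMeasure (PP d p) := by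
  have := bern_prob h0 h1
  unfold PP
  infer_instance

/-- nearest neighbours -/
def Nb {d : ℕ} (x y : Fin d → ℤ) : Prop := ∑ i, |x i - y i| = 1

/-- an open path with `k` steps from `x` to `y` -/
def Pth {d : ℕ} (ω : Env d) (k : ℕ) (x y : Fin d → ℤ) : Prop :=
  ∃ u : ℕ → Fin d → ℤ, u 0 = x ∧ u k = y ∧ (∀ j ≤ k, ω (u j) = true) ∧ ∀ j < k, Nb (u j) (u (j + 1))

/-- the origin lies in an infinite open cluster -/
def Inf (d : ℕ) : Set (Env d) := {ω | {y : Fin d → ℤ | ∃ k, Pth ω k 0 y}.Infinite}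

/-- percolation probability -/
def theta (d : ℕ) (p : ℝ) : ℝ := (PP d p).real (Inf d)

/-- critical threshold for Bernoulli site percolation on `ℤ^d` -/
def pc (d : ℕ) : ℝ := sSup {p : ℝ | 0 ≤ p ∧ p ≤ 1 ∧ theta d p = 0}

/-- sup norm -/
def nrm {d : ℕ} (x : Fin d → ℤ) : ℕ := Finset.univ.sup fun i => (x i).natAbs

/-- the cube of radius `k` around the origin -/
def cub (d k : ℕ) : Finset (Fin d → ℤ) := Fintype.piFinset fun _ => Finset.Icc (-(k : ℤ)) k

/-- the box `a + [0,k)^d` -/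
def boxF {d : ℕ} (a : Fin d → ℤ) (k : ℕ) : Finset (Fin d → ℤ) :=
  Fintype.piFinset fun i => Finset.Ico (a i) (a i + k)

/-- the open sites of `F` -/
def opn {d : ℕ} (ω : Env d) (F : Finset (Fin d → ℤ)) : Finset (Fin d → ℤ) := F.filter fun x => ω x = true

/-- an increasing event -/
def Incr {d : ℕ} (A : Set (Env d)) : Prop :=
  ∀ ω ω' : Env d, (∀ x, ω x = true → ω' x = true) → ω ∈ A → ω' ∈ A

/-- the event depends only on the sites of `F` -/
def DepOn {d : ℕ} (F : Finset (Fin d → ℤ)) (A : Set (Env d)) : Prop :=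
  ∀ ω ω' : Env d, (∀ x ∈ F, ω x = ω' x) → ω ∈ A → ω' ∈ A

/-- LINEAR DISTANCE (the only percolation input of parts WLK and FIN, written by helper91) -/
def LIN (d : ℕ) (p : ℝ) : Prop := ∀ ε : ℝ, 0 < ε → ∃ r0 C : ℕ, ∀ x : Fin d → ℤ,
  (PP d p).real {ω | ω ∈ Inf d ∧ ¬ ∃ (y : Fin d → ℤ) (k : ℕ), nrm (y - x) ≤ r0 ∧ k ≤ C * (nrm x + 1) ∧ Pth ω k 0 y} ≤ ε

/-- target of part PERC -/
def T_LDI : Prop := ∀ (d : ℕ) (p p1 : ℝ), 2 ≤ d → 0 < p1 → p1 < p → p < 1 → 0 < theta d p1 → LIN d p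

/-! ## Walk -/

/-- the unit step -/
def stp {d : ℕ} (e : Fin d × Bool) : Fin d → ℤ := if e.2 then ev e.1 else - ev e.1

/-- trajectory with step sequence `s` started at `x` -/
def trj {d n : ℕ} (x : Fin d → ℤ) (s : Fin n → Fin d × Bool) (k : ℕ) : Fin d → ℤ :=
  x + ∑ j : Fin n, if (j : ℕ) < k then stp (s j) else 0

/-- expectation of `G` for the first `n` steps of simple random walk started at `x` -/
def wx {d : ℕ} (x : Fin d → ℤ) (n : ℕ) (G : (ℕ → Fin d → ℤ) → ℝ) : ℝ :=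
  (∑ s : Fin n → Fin d × Bool, G (trj x s)) / (2 * d) ^ n

/-- probability of `E` for the first `n` steps of simple random walk started at `x` -/
def wk {d : ℕ} (x : Fin d → ℤ) (n : ℕ) (E : (ℕ → Fin d → ℤ) → Prop) : ℝ :=
  ((Finset.univ.filter fun s : Fin n → Fin d × Bool => E (trj x s)).card : ℝ) / (2 * d) ^ n

/-- no obstacle is visited until time `n` -/
def alv {d : ℕ} (ω : Env d) (n : ℕ) (u : ℕ → Fin d → ℤ) : Prop := ∀ k ≤ n, ω (u k) = true

/-- quenched conditional probability `P(S_t ∈ B | τ > n)` -/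
def qc {d : ℕ} (ω : Env d) (n t : ℕ) (B : Finset (Fin d → ℤ)) : ℝ :=
  wk 0 n (fun u => alv ω n u ∧ u t ∈ B) / wk 0 n (alv ω n)

/-! ## Localization balls -/

/-- the lattice points of a Euclidean ball -/
def IsBall {d : ℕ} (B : Finset (Fin d → ℤ)) : Prop :=
  ∃ (c : Fin d → ℝ) (R : ℝ), ∀ x, x ∈ B ↔ ∑ i, ((x i : ℝ) - c i) ^ 2 ≤ R ^ 2

/-- Admissible localization ball. The conditions on the shape and on the volume are required only for large `n` and almost
every environment (conditioned on the origin being in an infinite open cluster). -/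
structure AdmBall (d : ℕ) (p : ℝ) (B : ℕ → Env d → Finset (Fin d → ℤ)) : Prop where
  ball : ∀ᶠ n : ℕ in atTop, ∀ᵐ ω ∂(ProbabilityTheory.cond (PP d p) (Inf d)), IsBall (B n ω)
  meas : ∀ n F, MeasurableSet {ω | B n ω = F}
  card : ∃ e : ℕ → ℝ, Tendsto e atTop (𝓝 0) ∧ ∀ᶠ n : ℕ in atTop, ∀ᵐ ω ∂(ProbabilityTheory.cond (PP d p) (Inf d)),
    ((B n ω).card : ℝ) ≤ (1 + e n) * (d * (Real.log n / Real.log (1 / p)))
  loc : ∃ C : ℝ, ∀ t : ℕ → ℕ,
    (∀ᶠ n : ℕ in atTop, C * n * Real.log n ^ (-(2 : ℝ) / d) ≤ t n ∧ t n ≤ n) → ∀ δ : ℝ, 0 < δ →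
    Tendsto (fun n : ℕ => (ProbabilityTheory.cond (PP d p) (Inf d)).real {ω | qc ω n (t n) (B n ω) < 1 - δ}) atTop (𝓝 0)

/-- Euclidean distance from the origin -/
def dst {d : ℕ} (B : Finset (Fin d → ℤ)) : ℝ := sInf {z : ℝ | ∃ x ∈ B, z = Real.sqrt (∑ i, (x i : ℝ) ^ 2)}

/-- the answer: `f(n) = n (log n)^(-1-2/d)` -/
def fn (d n : ℕ) : ℝ := n * Real.log n ^ (-1 - (2 : ℝ) / d)

/-- the final theorem -/
def T_MAIN : Prop := ∀ (d : ℕ) (p : ℝ), 2 ≤ d → pc d < p → p < 1 → ∀ B : ℕ → Env d → Finset (Fin d → ℤ), AdmBall d p B →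
  ∀ ε : ℝ, 0 < ε → ∃ c C : ℝ, 0 < c ∧ c < C ∧ ∀ᶠ n : ℕ in atTop,
    1 - ε ≤ (ProbabilityTheory.cond (PP d p) (Inf d)).real {ω | c * fn d n ≤ dst (B n ω) ∧ dst (B n ω) ≤ C * fn d n}

end

end Pool.Agent.LBL
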