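import Pool.Agent.LBL.Targets1

set_option autoImplicit false

open Finset
open scoped Classical

namespace Pool.Agent.LBL

namespace FXM_

lemma hsq (d : ℕ) (r : ℝ) (hd : 2 ≤ d) (hr : 1 < r) :
    r ^ (d - 1) * sq d r = r ^ (-2 : ℝ) * (hh d r)⁻¹ := by
  have hr0 : 0 < r := by linarith
  have h1 : r ^ (d - 1) = r ^ ((d : ℝ) - 1) := by
    rw [← Real.rpow_natCast]
    congr 1
    push_cast [Nat.cast_sub (by omega : 1 ≤ d)]
    ring
  rw [h1, sq, hh, ← Real.rpow_neg hr0.le, ← Real.rpow_add hr0, ← Real.rpow_add hr0]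
  congr 1
  ring

end FXM_

theorem p_FXM (h_FLX : T_FLX) : T_FXM := by
  intro d C hd hC
  refine ⟨C ^ 2, by positivity, ?_⟩
  intro r L _ hr O φ hE
  have hr0 : 0 < r := by linarith
  obtain ⟨hflux, hP0, -⟩ := h_FLX d L (by omega) O φ hE.top
  have hhh : 0 < hh d r := Real.rpow_pos_of_pos hr0 _
  have hsqp : 0 < sq d r := Real.rpow_pos_of_pos hr0 _
  have hsum0 : 0 ≤ ∑ x, φ x := Finset.sum_nonneg fun x _ => hE.top.nn x
  have hl : 1 - lam O ≤ C / r ^ 2 := by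
    rw [le_div_iff₀ (by positivity)]
    exact hE.mu
  have h1 : ∑ y ∈ Oᶜ, P0 φ y ≤ C ^ 2 * r ^ (d - 1) * sq d r := by
    rw [hflux]
    calc (1 - lam O) * ∑ x, φ x ≤ C / r ^ 2 * ∑ x, φ x := mul_le_mul_of_nonneg_right hl hsum0
      _ ≤ C / r ^ 2 * (C / hh d r) := mul_le_mul_of_nonneg_left hE.l1 (by positivity)
      _ = C ^ 2 * (r ^ (-2 : ℝ) * (hh d r)⁻¹) := by
        rw [Real.rpow_neg hr0.le]
        have : r ^ (2 : ℝ) = r ^ 2 := by
          rw [← Real.rpow_natCast]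
          norm_num
        rw [this]
        field_simp
      _ = C ^ 2 * r ^ (d - 1) * sq d r := by
        rw [← FXM_.hsq d r hd hr]
        ring
  refine ⟨h1, ?_⟩
  intro j hj
  rw [le_div_iff₀ hj]
  have h2 : ((Oᶜ.filter fun y => j * sq d r ≤ P0 φ y).card : ℝ) * (j * sq d r) ≤
      ∑ y ∈ Oᶜ, P0 φ y := by
    calc ((Oᶜ.filter fun y => j * sq d r ≤ P0 φ y).card : ℝ) * (j * sq d r)
        = ∑ y ∈ Oᶜ.filter (fun y => j * sq d r ≤ P0 φ y), (j * sq d r) := by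
          rw [Finset.sum_const, nsmul_eq_mul]
      _ ≤ ∑ y ∈ Oᶜ.filter (fun y => j * sq d r ≤ P0 φ y), P0 φ y :=
          Finset.sum_le_sum fun y hy => (Finset.mem_filter.1 hy).2
      _ ≤ ∑ y ∈ Oᶜ, P0 φ y :=
          Finset.sum_le_sum_of_subset_of_nonneg (Finset.filter_subset _ _) fun y _ _ => hP0 y
  have h3 := h2.trans h1
  have h4 : (((Oᶜ.filter fun y => j * sq d r ≤ P0 φ y).card : ℝ) * j) * sq d r ≤
      (C ^ 2 * r ^ (d - 1)) * sq d r := by
    rw [mul_assoc]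
    exact h3
  exact le_of_mul_le_mul_right h4 hsqp

end Pool.Agent.LBL
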