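import Pool.Agent.LBL.Targets1

set_option autoImplicit false

/-!
# LBL, part REG: ITL, interlacing (helper14)
-/

open Finset
open scoped Classical

namespace Pool.Agent.LBL

noncomputable section

namespace ITL_

variable {d L : ℕ}

lemma P0_lin (a b : ℝ) (f g : Tor d L → ℝ) (x : Tor d L) :
    P0 (fun w => b * f w - a * g w) x = b * P0 f x - a * P0 g x := by
  unfold P0
  rw [← mul_div_assoc, ← mul_div_assoc, ← sub_div]
  congr 1
  rw [Finset.mul_sum, Finset.mul_sum, ← Finset.sum_sub_distrib]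
  refine Finset.sum_congr rfl fun i _ => ?_
  ring

lemma sum_er (O : Finset (Tor d L)) (z : Tor d L) (f g : Tor d L → ℝ)
    (hf : Spp (O.erase z) f) : ∑ x ∈ O.erase z, f x * g x = ∑ x ∈ O, f x * g x := by
  refine Finset.sum_subset (Finset.erase_subset z O) fun x _ hx => ?_
  rw [hf x hx, zero_mul]

lemma sum_er2 (O : Finset (Tor d L)) (z : Tor d L) (f : Tor d L → ℝ)
    (hf : Spp (O.erase z) f) : ∑ x ∈ O.erase z, f x ^ 2 = ∑ x ∈ O, f x ^ 2 := by
  refine Finset.sum_subset (Finset.erase_subset z O) fun x _ hx => ?_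
  rw [hf x hx]
  norm_num

end ITL_

/-- interlacing -/
theorem p_ITL (h_TOP : T_TOP) (h_VAR : T_VAR) : T_ITL := by
  intro d L _ hd O y z hS φ' hφ' f hf hfφ
  have hsub : O.erase z ⊆ O := Finset.erase_subset z O
  obtain ⟨hv1, _, _, _, _⟩ := h_VAR d (ZMod L) hd (O.erase z)
  obtain ⟨_, _, _, _, hsym⟩ := h_VAR d (ZMod L) hd O
  have hspf : Spp O f := fun x hx => hf x fun h => hx (hsub h)
  have hspφ : Spp O φ' := fun x hx => hφ'.sp x fun h => hx (hsub h)
  -- the quantities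
  have hne : O.Nonempty := by
    by_contra h
    rw [Finset.not_nonempty_iff_eq_empty] at h
    have h1 := hφ'.nm
    rw [h] at h1
    simp at h1
  obtain ⟨φ, hφ⟩ := h_TOP d (ZMod L) O hd hne
  have hup := hv1 f hf
  rw [ITL_.sum_er O z f _ hf, ITL_.sum_er2 O z f hf] at hup ⊢
  rw [ITL_.sum_er O z f _ hf] at hfφ
  have hn : ∑ x ∈ O, φ' x ^ 2 = 1 := by
    rw [← ITL_.sum_er2 O z φ' hφ'.sp]
    exact hφ'.nm
  have hQφ : ∑ x ∈ O, φ' x * P0 φ' x = lam (O.erase z) := by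
    rw [← ITL_.sum_er O z φ' _ hφ'.sp]
    have h1 : ∑ x ∈ O.erase z, φ' x * P0 φ' x =
        ∑ x ∈ O.erase z, lam (O.erase z) * φ' x ^ 2 :=
      Finset.sum_congr rfl fun x hx => by rw [hφ'.eq x hx]; ring
    rw [h1, ← Finset.mul_sum, hφ'.nm, mul_one]
  have hQfφ : ∑ x ∈ O, f x * P0 φ' x = 0 := by
    rw [← ITL_.sum_er O z f _ hf]
    have h1 : ∑ x ∈ O.erase z, f x * P0 φ' x =
        ∑ x ∈ O.erase z, lam (O.erase z) * (f x * φ' x) :=
      Finset.sum_congr rfl fun x hx => by rw [hφ'.eq x hx]; ring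
    rw [h1, ← Finset.mul_sum, ITL_.sum_er O z f _ hf, hfφ, mul_zero]
  have hQφf : ∑ x ∈ O, φ' x * P0 f x = 0 := by
    rw [← hsym f φ' hspf hspφ]
    exact hQfφ
  by_contra hc
  push Not at hc
  set Q := ∑ x ∈ O, f x * P0 f x with hQ
  set N := ∑ x ∈ O, f x ^ 2 with hN
  have hN0 : 0 ≤ N := Finset.sum_nonneg fun x _ => sq_nonneg _
  have hNpos : 0 < N := by
    rcases hN0.lt_or_eq with h | h
    · exact h
    · exfalso
      rw [← h, mul_zero] at hup hc
      linarith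
  have hlam : y < lam (O.erase z) := by
    by_contra h
    push Not at h
    have : lam (O.erase z) * N ≤ y * N := mul_le_mul_of_nonneg_right h hN0
    linarith
  obtain ⟨a, ha⟩ : ∃ a, a = ∑ x ∈ O, f x * φ x := ⟨_, rfl⟩
  obtain ⟨b, hb⟩ : ∃ b, b = ∑ x ∈ O, φ' x * φ x := ⟨_, rfl⟩
  by_cases hz : a = 0
  · have h1 := hS φ hφ f hspf (by rw [← ha]; exact hz)
    linarith
  · have h0 : ∑ x ∈ O, (b * f x - a * φ' x) * φ x = 0 := by
      have h1 : ∑ x ∈ O, (b * f x - a * φ' x) * φ x =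
          b * ∑ x ∈ O, f x * φ x - a * ∑ x ∈ O, φ' x * φ x := by
        rw [Finset.mul_sum, Finset.mul_sum, ← Finset.sum_sub_distrib]
        exact Finset.sum_congr rfl fun x _ => by ring
      rw [h1, ← ha, ← hb]
      ring
    have h1 := hS φ hφ (fun x => b * f x - a * φ' x)
      (fun x hx => by simp [hspf x hx, hspφ x hx]) h0
    have h2 : ∑ x ∈ O, (b * f x - a * φ' x) * P0 (fun w => b * f w - a * φ' w) x =
        b ^ 2 * Q + a ^ 2 * lam (O.erase z) := by
      have h3 : ∑ x ∈ O, (b * f x - a * φ' x) * P0 (fun w => b * f w - a * φ' w) x =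
          b ^ 2 * (∑ x ∈ O, f x * P0 f x) - a * b * (∑ x ∈ O, f x * P0 φ' x)
            - a * b * (∑ x ∈ O, φ' x * P0 f x) + a ^ 2 * ∑ x ∈ O, φ' x * P0 φ' x := by
        rw [Finset.mul_sum, Finset.mul_sum, Finset.mul_sum, Finset.mul_sum,
          ← Finset.sum_sub_distrib, ← Finset.sum_sub_distrib, ← Finset.sum_add_distrib]
        exact Finset.sum_congr rfl fun x _ => by rw [ITL_.P0_lin]; ring
      rw [h3, hQfφ, hQφf, hQφ, ← hQ]
      ring
    have h4 : ∑ x ∈ O, (b * f x - a * φ' x) ^ 2 = b ^ 2 * N + a ^ 2 := by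
      have h3 : ∑ x ∈ O, (b * f x - a * φ' x) ^ 2 =
          b ^ 2 * (∑ x ∈ O, f x ^ 2) - 2 * a * b * (∑ x ∈ O, f x * φ' x)
            + a ^ 2 * ∑ x ∈ O, φ' x ^ 2 := by
        rw [Finset.mul_sum, Finset.mul_sum, Finset.mul_sum,
          ← Finset.sum_sub_distrib, ← Finset.sum_add_distrib]
        exact Finset.sum_congr rfl fun x _ => by ring
      rw [h3, hfφ, hn, ← hN]
      ring
    rw [h2, h4] at h1
    have h5 : 0 < a ^ 2 := by positivity
    have h6 : y * a ^ 2 < lam (O.erase z) * a ^ 2 := mul_lt_mul_of_pos_right hlam h5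
    have h7 : b ^ 2 * (y * N) ≤ b ^ 2 * Q := mul_le_mul_of_nonneg_left hc.le (sq_nonneg b)
    nlinarith

end

end Pool.Agent.LBL
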