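import Pool.Agent.LBL.Targets2

set_option autoImplicit false

/-! Job LBL-LIN: lines through the level range. -/

open Finset
open scoped Classical

namespace Pool.Agent.LBL

namespace LIN_

variable {d L : ℕ} [NeZero L]

lemma upd_line (x : Tor d L) (i : Fin d) (t : ZMod L) :
    Function.update (x + Pi.single i t) i 0 = Function.update x i 0 := by
  funext k
  by_cases hk : k = i
  · subst hk; simp
  · simp [Function.update_of_ne hk, Pi.single_eq_of_ne hk]

/-- on a line which meets a level set with fewer than `L` points there is an exit point -/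
lemma exit_pt (φ : Tor d L → ℝ) (B : ℝ) (i : Fin d) (x : Tor d L) (hx : B ≤ φ x)
    (hc : (Finset.univ.filter fun y => B ≤ φ y).card < L) :
    ∃ z : Tor d L, Function.update z i 0 = Function.update x i 0 ∧ φ z < B ∧
      B ≤ φ (z - ev i) := by
  by_contra hcon
  push Not at hcon
  have h1 : ∀ k : ℕ, B ≤ φ (x + Pi.single i (k : ZMod L)) := by
    intro k
    induction k with
    | zero => simpa using hx
    | succ k ih =>
      by_contra hlt
      push Not at hlt
      have h2 := hcon (x + Pi.single i ((k + 1 : ℕ) : ZMod L)) (upd_line x i _) hlt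
      have h3 : x + Pi.single i ((k + 1 : ℕ) : ZMod L) - ev i =
          x + Pi.single i (k : ZMod L) := by
        unfold ev
        rw [Nat.cast_succ, Pi.single_add, ← add_assoc, add_sub_cancel_right]
      rw [h3] at h2
      linarith
  have h4 : (Finset.univ.image fun t : ZMod L => x + Pi.single i t) ⊆
      Finset.univ.filter fun y => B ≤ φ y := by
    intro y hy
    obtain ⟨t, -, rfl⟩ := Finset.mem_image.mp hy
    refine Finset.mem_filter.mpr ⟨Finset.mem_univ _, ?_⟩
    have h5 := h1 t.val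
    rwa [ZMod.natCast_zmod_val] at h5
  have h6 : (Finset.univ.image fun t : ZMod L => x + Pi.single i t).card = L := by
    rw [Finset.card_image_of_injective, Finset.card_univ, ZMod.card]
    intro a b hab
    have h7 : (Pi.single i a : Tor d L) = Pi.single i b := add_left_cancel hab
    exact Pi.single_injective i h7
  have h8 := Finset.card_le_card h4
  omega

lemma sq_eq (d : ℕ) (r : ℝ) (hr : 0 < r) : sq d r = hh d r / r := by
  unfold sq hh
  rw [Real.rpow_sub hr, Real.rpow_one]

end LIN_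

open LIN_ in
theorem p_LIN (h_FLX : T_FLX) (h_BLK : T_BLK) (h_FXM : T_FXM) (h_LWI : T_LWI) : T_LIN := by
  intro d C hd hC
  obtain ⟨c1, r1, hc1, hr1, hB⟩ := h_BLK d C hd hC
  obtain ⟨C1, hC1, hM⟩ := h_FXM d C hd hC
  have hd0 : (0 : ℝ) < d := by exact_mod_cast (by omega : 0 < d)
  have hd2 : (2 : ℝ) ≤ d := by exact_mod_cast hd
  have hc2 : 0 < min 1 c1 := lt_min one_pos hc1
  refine ⟨min 1 c1 / 2, max 1 (2 * C1 / min 1 c1), by positivity,
    lt_of_lt_of_le one_pos (le_max_left _ _), ?_⟩
  intro j hj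
  have hj1 : 1 ≤ j := (le_max_left _ _).trans hj
  have hj2 : 2 * C1 / min 1 c1 ≤ j := (le_max_right _ _).trans hj
  have hj0 : 0 < j := by linarith
  refine ⟨max r1 (max (C + 1) (2 * d * j / c1)), lt_of_lt_of_le hr1 (le_max_left _ _), ?_⟩
  intro r L _ hr hL O φ hE
  have hrr1 : r1 ≤ r := (le_max_left _ _).trans hr
  have hrC : C + 1 ≤ r := ((le_max_left _ _).trans (le_max_right _ _)).trans hr
  have hrj : 2 * d * j / c1 ≤ r := ((le_max_right _ _).trans (le_max_right _ _)).trans hr
  have hrg1 : 1 < r := by linarith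
  have hr0 : 0 < r := by linarith
  have hhh : 0 < hh d r := Real.rpow_pos_of_pos hr0 _
  have hsqe := sq_eq d r hr0
  have hsq0 : 0 < sq d r := Real.rpow_pos_of_pos hr0 _
  obtain ⟨-, -, hflx1, hflx2, -, -⟩ := h_FLX d L (by omega) O φ hE.top
  -- the level
  set B := 2 * d * j * sq d r with hBdef
  have hBle : B ≤ c1 * hh d r := by
    have h1 : 2 * d * j ≤ r * c1 := (div_le_iff₀ hc1).mp hrj
    rw [hBdef, hsqe, mul_div_assoc', div_le_iff₀ hr0]
    nlinarith
  have hBgt : hh d r * r ^ (-(3 : ℝ) / 2) < B := by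
    have h1 : r ^ (-(3 : ℝ) / 2) ≤ r ^ (-1 : ℝ) :=
      Real.rpow_le_rpow_of_exponent_le hrg1.le (by norm_num)
    have h2 : r ^ (-1 : ℝ) = r⁻¹ := Real.rpow_neg_one r
    rw [h2] at h1
    have h3 : B = hh d r * (2 * d * j * r⁻¹) := by
      rw [hBdef, hsqe]
      ring
    rw [h3]
    refine mul_lt_mul_of_pos_left (lt_of_le_of_lt h1 ?_) hhh
    have h4 : (1 : ℝ) < 2 * d * j := by nlinarith
    have h5 : 0 < r⁻¹ := inv_pos.mpr hr0
    nlinarith
  -- fewer than `L` points above the level
  have hcard : (Finset.univ.filter fun y => B ≤ φ y).card < L := by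
    have h1 : ((Finset.univ.filter fun y => B ≤ φ y).card : ℝ) ≤ C * r ^ d := by
      refine le_trans ?_ hE.lev
      exact_mod_cast Finset.card_le_card (Finset.monotone_filter_right _ fun y _ hy =>
        lt_of_lt_of_le hBgt hy)
    have h2 : C * r ^ d < r ^ (d + 4) := by
      rw [pow_add, mul_comm C]
      refine mul_lt_mul_of_pos_left ?_ (by positivity)
      have h3 : r ≤ r ^ 4 := le_self_pow₀ hrg1.le (by norm_num)
      linarith
    have h4 : ((Finset.univ.filter fun y => B ≤ φ y).card : ℝ) < L := by linarith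
    exact_mod_cast h4
  -- lines
  set S := Finset.univ.filter fun x => c1 * hh d r ≤ φ x with hS
  have hScard : c1 * r ^ d ≤ (S.card : ℝ) := hB r L hrr1 O φ hE
  obtain ⟨i, hi⟩ := h_LWI d L S hd
  set P := S.image fun x => Function.update x i 0 with hP
  have hPcard : min 1 c1 * r ^ (d - 1) ≤ (P.card : ℝ) := by
    have h1 : ((S.card : ℝ)) ^ (d - 1) ≤ (P.card : ℝ) ^ d := by exact_mod_cast hi
    have h2 : (c1 * r ^ d) ^ (d - 1) ≤ (S.card : ℝ) ^ (d - 1) :=
      pow_le_pow_left₀ (by positivity) hScard _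
    have h3 : (min 1 c1 * r ^ (d - 1)) ^ d ≤ (c1 * r ^ d) ^ (d - 1) := by
      rw [mul_pow, mul_pow, ← pow_mul, ← pow_mul, mul_comm (d - 1) d]
      refine mul_le_mul_of_nonneg_right ?_ (by positivity)
      calc min 1 c1 ^ d = min 1 c1 ^ (d - 1) * min 1 c1 := by
            rw [← pow_succ]; congr 1; omega
        _ ≤ c1 ^ (d - 1) * 1 := mul_le_mul
            (pow_le_pow_left₀ hc2.le (min_le_right _ _) _) (min_le_left _ _) hc2.le
            (by positivity)
        _ = c1 ^ (d - 1) := mul_one _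
    have h4 := (h3.trans h2).trans h1
    exact le_of_pow_le_pow_left₀ (by omega) (by positivity) h4
  have hex : ∀ p ∈ P, ∃ z : Tor d L, Function.update z i 0 = p ∧ φ z < B ∧
      B ≤ φ (z - ev i) := by
    intro p hp
    obtain ⟨x, hx, rfl⟩ := Finset.mem_image.mp hp
    exact exit_pt φ B i x (hBle.trans (Finset.mem_filter.mp hx).2) hcard
  choose! zf hz1 hz2 hz3 using hex
  have hinj : ∀ p ∈ P, ∀ q ∈ P, zf p = zf q → p = q := by
    intro p hp q hq hpq
    rw [← hz1 p hp, ← hz1 q hq, hpq]
  -- closed exit points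
  have hout : ((P.filter fun p => zf p ∉ O).card : ℝ) ≤ C1 * r ^ (d - 1) / j := by
    refine le_trans ?_ ((hM r L hrg1 O φ hE).2 j hj0)
    have h1 : ((P.filter fun p => zf p ∉ O).image zf).card = (P.filter fun p => zf p ∉ O).card :=
      Finset.card_image_of_injOn fun p hp q hq hpq =>
        hinj p (Finset.mem_filter.mp hp).1 q (Finset.mem_filter.mp hq).1 hpq
    rw [← h1]
    refine Nat.cast_le.mpr (Finset.card_le_card ?_)
    intro z hz
    obtain ⟨p, hp, rfl⟩ := Finset.mem_image.mp hz
    obtain ⟨hpP, hpO⟩ := Finset.mem_filter.mp hp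
    refine Finset.mem_filter.mpr ⟨Finset.mem_compl.mpr hpO, ?_⟩
    have h2 := (hflx1 (zf p) i).2
    have h3 := hz3 p hpP
    have h4 : 2 * d * (j * sq d r) ≤ 2 * d * P0 φ (zf p) := by
      calc 2 * d * (j * sq d r) = B := by rw [hBdef]; ring
        _ ≤ φ (zf p - ev i) := h3
        _ ≤ _ := h2
    exact le_of_mul_le_mul_left h4 (by positivity)
  refine ⟨i, (P.filter fun p => zf p ∈ O).image zf, ?_, ?_, ?_⟩
  · intro z hz
    obtain ⟨p, hp, rfl⟩ := Finset.mem_image.mp hz
    obtain ⟨hpP, hpO⟩ := Finset.mem_filter.mp hp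
    refine ⟨hpO, ?_, hz2 p hpP⟩
    have h2 := (hflx2 (zf p) hpO i).2
    have h4 : 2 * d * (j * sq d r) ≤ 2 * d * φ (zf p) := by
      calc 2 * d * (j * sq d r) = B := by rw [hBdef]; ring
        _ ≤ φ (zf p - ev i) := hz3 p hpP
        _ ≤ _ := h2
    exact le_of_mul_le_mul_left h4 (by positivity)
  · intro z hz z' hz' hzz
    obtain ⟨p, hp, rfl⟩ := Finset.mem_image.mp hz
    obtain ⟨q, hq, rfl⟩ := Finset.mem_image.mp hz'
    rw [hz1 p (Finset.mem_filter.mp hp).1, hz1 q (Finset.mem_filter.mp hq).1] at hzz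
    rw [hzz]
  · have h1 : ((P.filter fun p => zf p ∈ O).image zf).card = (P.filter fun p => zf p ∈ O).card :=
      Finset.card_image_of_injOn fun p hp q hq hpq =>
        hinj p (Finset.mem_filter.mp hp).1 q (Finset.mem_filter.mp hq).1 hpq
    rw [h1]
    have h2 : (P.filter fun p => zf p ∈ O).card + (P.filter fun p => zf p ∉ O).card = P.card :=
      Finset.card_filter_add_card_filter_not _
    have h3 : ((P.filter fun p => zf p ∈ O).card : ℝ) +
        ((P.filter fun p => zf p ∉ O).card : ℝ) = P.card := by exact_mod_cast h2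
    have h4 : C1 * r ^ (d - 1) / j ≤ min 1 c1 / 2 * r ^ (d - 1) := by
      rw [div_le_iff₀ hj0]
      have h5 : 2 * C1 ≤ j * min 1 c1 := (div_le_iff₀ hc2).mp hj2
      have h6 : (0 : ℝ) < r ^ (d - 1) := by positivity
      nlinarith
    linarith

end Pool.Agent.LBL
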