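import Pool.Agent.LBL.Targets3

set_option autoImplicit false
set_option linter.unusedSectionVars false

open Finset
open scoped Classical

namespace Pool.Agent.LBL

noncomputable section

section R2F

theorem R2F_core {X : Type} [Fintype X] {d : ℕ} (w : X → ℝ) (hw : ∀ O, 0 ≤ w O)
    (FA FB : Fin d → X → ℝ) (hA0 : ∀ i O, 0 ≤ FA i O) (hB0 : ∀ i O, 0 ≤ FB i O) (E : X → Prop)
    (κ a1 b1 : ℝ) (hE : ∀ O, E O → ∃ i, κ ≤ FA i O + FB i O)
    (hA : ∀ i, ∑ O, w O * FA i O ≤ a1) (hB : ∀ i, ∑ O, w O * FB i O ≤ b1) :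
    κ * ∑ O, (if E O then w O else 0) ≤ d * (a1 + b1) := by
  have h1 : ∀ O, κ * (if E O then w O else 0) ≤ ∑ i, (w O * FA i O + w O * FB i O) := by
    intro O
    have hn : ∀ i ∈ (Finset.univ : Finset (Fin d)), 0 ≤ w O * FA i O + w O * FB i O := by
      intro i _
      have := mul_nonneg (hw O) (hA0 i O)
      have := mul_nonneg (hw O) (hB0 i O)
      linarith
    by_cases h : E O
    · rw [if_pos h]
      obtain ⟨i, hi⟩ := hE O h
      have h2 := Finset.single_le_sum hn (Finset.mem_univ i)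
      have h3 := mul_le_mul_of_nonneg_left hi (hw O)
      calc κ * w O = w O * κ := mul_comm _ _
        _ ≤ w O * (FA i O + FB i O) := h3
        _ = w O * FA i O + w O * FB i O := by ring
        _ ≤ _ := h2
    · rw [if_neg h, mul_zero]
      exact Finset.sum_nonneg hn
  rw [Finset.mul_sum]
  refine (Finset.sum_le_sum fun O _ => h1 O).trans ?_
  rw [Finset.sum_comm]
  have h2 : ∀ i ∈ (Finset.univ : Finset (Fin d)), ∑ O, (w O * FA i O + w O * FB i O) ≤ a1 + b1 := by
    intro i _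
    rw [Finset.sum_add_distrib]
    exact add_le_add (hA i) (hB i)
  refine (Finset.sum_le_card_nsmul _ _ _ h2).trans ?_
  rw [Finset.card_univ, Fintype.card_fin, nsmul_eq_mul]

theorem R2F_wt {X : Type} [Fintype X] {p : ℝ} (h0 : 0 < p) (h1 : p < 1) (O : Finset X) :
    0 ≤ wt p O := by
  unfold wt
  exact mul_nonneg (pow_nonneg h0.le _) (pow_nonneg (by linarith) _)

theorem R2F_union {X : Type} [Fintype X] {p : ℝ} (h0 : 0 < p) (h1 : p < 1)
    (P Q1 Q2 Q3 : Finset X → Prop) (h : ∀ O, P O → Q1 O ∨ Q2 O ∨ Q3 O) :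
    pr p P ≤ pr p Q1 + pr p Q2 + pr p Q3 := by
  unfold pr
  rw [← Finset.sum_add_distrib, ← Finset.sum_add_distrib]
  refine Finset.sum_le_sum fun O _ => ?_
  have hw := R2F_wt h0 h1 O
  have g : ∀ Q : Finset X → Prop, 0 ≤ (if Q O then wt p O else 0) := by
    intro Q
    by_cases hq : Q O
    · rw [if_pos hq]
      exact hw
    · rw [if_neg hq]
  by_cases hP : P O
  · rw [if_pos hP]
    have g1 := g Q1
    have g2 := g Q2
    have g3 := g Q3
    rcases h O hP with h | h | h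
    · rw [if_pos h] at *
      linarith
    · rw [if_pos h] at *
      linarith
    · rw [if_pos h] at *
      linarith
  · rw [if_neg hP]
    have g1 := g Q1
    have g2 := g Q2
    have g3 := g Q3
    linarith

theorem R2F_fo {d L : ℕ} [NeZero L] {O : Finset (Tor d L)} {φ : Tor d L → ℝ} (h : Top O φ)
    (i : Fin d) (y : Tor d L) : 0 ≤ fo i φ y := by
  unfold fo
  refine mul_nonneg ?_ (abs_nonneg _)
  unfold P0
  refine div_nonneg (Finset.sum_nonneg fun k _ => ?_) (by positivity)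
  exact add_nonneg (h.nn _) (h.nn _)

end R2F

theorem p_R2F (hTYP : T_TYP) (hTPF : T_TPF) (hFRC : T_FRC) (hTYA : T_TYA) (hTYB : T_TYB)
    (hNEG : T_NEG) : T_R2F := by
  intro d K0 p a A hd hK hp0 hp1 ha haA
  obtain ⟨δ, C, K, r1, hδ, hC, hK1, hr1, H1⟩ := hTYP d K0 p a A hd hK hp0 hp1 ha haA
  obtain ⟨r2, hr2, H2⟩ := hTPF d K0 a A δ C K hd hK ha haA hδ hC hK1
  obtain ⟨c8, r3, hc8, hr3, H3⟩ := hFRC d C a hd hC ha
  obtain ⟨c3, hc3, H4⟩ := hTYA d K0 p a A δ C K hd hK hp0 hp1 ha haA hδ hC hK1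
  obtain ⟨C5, D0, c4, hC5, hD0, hc4, H5⟩ := hTYB d K0 p a A δ C K hd hK hp0 hp1 ha haA hδ hC hK1
  obtain ⟨ε, M, r4, hε, hε1, hM, hr4, H6⟩ := hNEG d K0 C K c8 c3 C5 D0 c4 hd hK hC hK1 hc8 hc3 hC5 hD0 hc4
  obtain ⟨C7, r5, hC7, hr5, H7⟩ := H4 M ε hM hε hε1
  obtain ⟨C7', r6, hC7', hr6, H8⟩ := H5 ε hε hε1
  have hd0 : (0 : ℝ) < d := by
    have : 0 < d := by omega
    exact_mod_cast this
  have hd2 : (2 : ℝ) ≤ d := by exact_mod_cast hd
  set c : ℝ := ε ^ 3 / (128 * d) with hcdef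
  have hc0 : 0 < c := by positivity
  have he3 : ε ^ 3 ≤ ε ^ 2 := by
    have : ε ^ 3 = ε ^ 2 * ε := by ring
    rw [this]
    exact mul_le_of_le_one_right (by positivity) hε1
  have he2 : ε ^ 2 ≤ 1 := pow_le_one₀ hε.le hε1
  have hcl : c ≤ ε ^ 2 / 4 := by
    rw [hcdef, div_le_div_iff₀ (by positivity) (by norm_num)]
    nlinarith [sq_nonneg ε, he3, hd2]
  have hc1 : c ≤ 1 := by linarith
  refine ⟨2 * (1 + 2 * d * (C7 + C7') / c8), c,
    max r1 (max r2 (max r3 (max r4 (max r5 r6)))), by positivity, hc0, ?_, ?_⟩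
  · exact lt_of_lt_of_le hr1 (le_max_left _ _)
  intro r x L _ hr hRg hWin
  have hr1' : r1 ≤ r := (le_max_left _ _).trans hr
  have hr' := (le_max_right _ _).trans hr
  have hr2' : r2 ≤ r := (le_max_left _ _).trans hr'
  have hr'' := (le_max_right _ _).trans hr'
  have hr3' : r3 ≤ r := (le_max_left _ _).trans hr''
  have hr''' := (le_max_right _ _).trans hr''
  have hr4' : r4 ≤ r := (le_max_left _ _).trans hr'''
  have hr4'' := (le_max_right _ _).trans hr'''
  have hr5' : r5 ≤ r := (le_max_left _ _).trans hr4''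
  have hr6' : r6 ≤ r := (le_max_right _ _).trans hr4''
  have hrpos : 0 < r := by linarith
  have hss : 0 < ss d r := by
    unfold ss
    exact Real.rpow_pos_of_pos hrpos _
  have hsq : 0 < sq d r := by
    unfold sq
    exact Real.rpow_pos_of_pos hrpos _
  have hs0 : 0 ≤ c * ss d r := by positivity
  have hs1 : c * ss d r ≤ ss d r := by
    calc c * ss d r ≤ 1 * ss d r := mul_le_mul_of_nonneg_right hc1 hss.le
      _ = ss d r := one_mul _
  have hs2 : c * ss d r ≤ ε ^ 2 * ss d r / 4 := by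
    calc c * ss d r ≤ ε ^ 2 / 4 * ss d r := mul_le_mul_of_nonneg_right hcl hss.le
      _ = ε ^ 2 * ss d r / 4 := by ring
  have hs3 : c * ss d r ≤ ε ^ 3 * ss d r / (128 * d) := by
    rw [hcdef]
    apply le_of_eq
    ring
  have hr3pos : 0 < r ^ (-(3 : ℝ)) := Real.rpow_pos_of_pos hrpos _
  have G1 := H1 r x (c * ss d r) L hr1' hRg hWin hs0 hs1
  have GA := fun i : Fin d => H7 r x (c * ss d r) L i hr5' hRg hWin hs0 hs2
  have GB := fun i : Fin d => H8 r x (c * ss d r) L i hr6' hRg hWin hs0 hs3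
  -- the middle event
  have key := R2F_core (fun O : Finset (Tor d L) => wt p O) (fun O => R2F_wt hp0 hp1 O)
    (fun i O => if x - c * ss d r ≤ lam O ∧ Typ r x δ (A + 1) C K O then
      ∑ y ∈ Oᶜ.filter (fun y => ε * sq d r ≤ P0 (ph O) y ∧ NI M c3 (ss d r) O (P0 (ph O) y) y),
        fo i (ph O) y else 0)
    (fun i O => if x - c * ss d r ≤ lam O ∧ Typ r x δ (A + 1) C K O then
      ∑ y ∈ Oᶜ.filter (fun y => ε * sq d r ≤ P0 (ph O) y ∧ ε ^ 3 * ss d r ≤ fo i (ph O) y ∧
        BF r C5 D0 c4 O i (ph O) y), fo i (ph O) y else 0)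
    (by
      intro i O
      by_cases h : x - c * ss d r ≤ lam O ∧ Typ r x δ (A + 1) C K O
      · simp only [if_pos h]
        have h2 := H2 r x L hr2' hRg hWin O h.2 (by linarith [h.1])
        exact Finset.sum_nonneg fun y _ => R2F_fo h2.1.top i y
      · simp only [if_neg h]
        exact le_rfl)
    (by
      intro i O
      by_cases h : x - c * ss d r ≤ lam O ∧ Typ r x δ (A + 1) C K O
      · simp only [if_pos h]
        have h2 := H2 r x L hr2' hRg hWin O h.2 (by linarith [h.1])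
        exact Finset.sum_nonneg fun y _ => R2F_fo h2.1.top i y
      · simp only [if_neg h]
        exact le_rfl)
    (fun O => Typ r x δ (A + 1) C K O ∧ x - c * ss d r ≤ lam O ∧ lam O < x)
    (c8 / 2 * r ^ (-(3 : ℝ))) (C7 * r ^ (-(3 : ℝ)) * TT d L p x)
    (C7' * r ^ (-(3 : ℝ)) * TT d L p x)
    (by
      intro O hO
      obtain ⟨hT, hx1, hx2⟩ := hO
      obtain ⟨hEF, hsum, hall⟩ := H2 r x L hr2' hRg hWin O hT (by linarith)
      have hwin : a ≤ (1 - lam O) * r ^ 2 := by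
        have h1 := hWin.1
        have h2 : (1 - x) * r ^ 2 ≤ (1 - lam O) * r ^ 2 :=
          mul_le_mul_of_nonneg_right (by linarith) (by positivity)
        linarith
      obtain ⟨i, hi⟩ := H3 r L hr3' hRg.1 O (ph O) hEF hwin hsum
      refine ⟨i, ?_⟩
      have hneg := H6 r L hr4' hRg O (ph O) i hEF (by
        intro y hy
        refine ⟨(hT.2.2 y hy).1, ?_⟩
        obtain ⟨_, h3, _, h4, _⟩ := hall y hy
        calc (P0 (ph O) y) ^ 2 ≤ 2 * (lam (insert y O) - lam O) := h4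
          _ ≤ 2 * (2 * K * ss d r * Real.log r) := by linarith
          _ = 4 * K * ss d r * Real.log r := by ring)
      have hcond : x - c * ss d r ≤ lam O ∧ Typ r x δ (A + 1) C K O := ⟨hx1, hT⟩
      simp only [if_pos hcond]
      have hfo : ∀ y, 0 ≤ fo i (ph O) y := fun y => R2F_fo hEF.top i y
      have hsplit : fc O i (ph O) ≤
          ∑ y ∈ Oᶜ.filter (fun y => ¬ (ε * sq d r ≤ P0 (ph O) y ∧ ε ^ 3 * ss d r ≤ fo i (ph O) y ∧
            (NI M c3 (ss d r) O (P0 (ph O) y) y ∨ BF r C5 D0 c4 O i (ph O) y))), fo i (ph O) y +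
          (∑ y ∈ Oᶜ.filter (fun y => ε * sq d r ≤ P0 (ph O) y ∧
              NI M c3 (ss d r) O (P0 (ph O) y) y), fo i (ph O) y +
            ∑ y ∈ Oᶜ.filter (fun y => ε * sq d r ≤ P0 (ph O) y ∧ ε ^ 3 * ss d r ≤ fo i (ph O) y ∧
              BF r C5 D0 c4 O i (ph O) y), fo i (ph O) y) := by
        unfold fc
        rw [Finset.sum_filter, Finset.sum_filter, Finset.sum_filter, ← Finset.sum_add_distrib,
          ← Finset.sum_add_distrib]
        refine Finset.sum_le_sum fun y _ => ?_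
        have hy := hfo y
        by_cases h1 : ε * sq d r ≤ P0 (ph O) y
        · by_cases h2 : ε ^ 3 * ss d r ≤ fo i (ph O) y
          · by_cases h3 : NI M c3 (ss d r) O (P0 (ph O) y) y
            · by_cases h4 : BF r C5 D0 c4 O i (ph O) y
              · simp [h1, h2, h3, h4, hy]
              · simp [h1, h2, h3, h4]
            · by_cases h4 : BF r C5 D0 c4 O i (ph O) y
              · simp [h1, h2, h3, h4]
              · simp [h1, h2, h3, h4]
          · by_cases h3 : NI M c3 (ss d r) O (P0 (ph O) y) y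
            · simp [h1, h2, h3, hy]
            · simp [h1, h2, h3]
        · simp [h1]
      linarith)
    GA GB
  have hpr : pr p (fun O : Finset (Tor d L) => Typ r x δ (A + 1) C K O ∧
      x - c * ss d r ≤ lam O ∧ lam O < x) ≤ 2 * d * (C7 + C7') / c8 * TT d L p x := by
    have h1 : c8 / 2 * r ^ (-(3 : ℝ)) * pr p (fun O : Finset (Tor d L) => Typ r x δ (A + 1) C K O ∧
        x - c * ss d r ≤ lam O ∧ lam O < x) ≤
        d * (C7 * r ^ (-(3 : ℝ)) * TT d L p x + C7' * r ^ (-(3 : ℝ)) * TT d L p x) := key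
    have h2 : (d : ℝ) * (C7 * r ^ (-(3 : ℝ)) * TT d L p x + C7' * r ^ (-(3 : ℝ)) * TT d L p x) =
        c8 / 2 * r ^ (-(3 : ℝ)) * (2 * d * (C7 + C7') / c8 * TT d L p x) := by
      field_simp
    rw [h2] at h1
    exact le_of_mul_le_mul_left h1 (by positivity)
  have hun := R2F_union hp0 hp1 (fun O : Finset (Tor d L) => x - c * ss d r ≤ lam O)
    (fun O : Finset (Tor d L) => x ≤ lam O)
    (fun O : Finset (Tor d L) => Typ r x δ (A + 1) C K O ∧ x - c * ss d r ≤ lam O ∧ lam O < x)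
    (fun O : Finset (Tor d L) => x - c * ss d r ≤ lam O ∧ ¬ Typ r x δ (A + 1) C K O)
    (by
      intro O hO
      by_cases h1 : x ≤ lam O
      · exact Or.inl h1
      · by_cases h2 : Typ r x δ (A + 1) C K O
        · exact Or.inr (Or.inl ⟨h2, hO, not_le.1 h1⟩)
        · exact Or.inr (Or.inr ⟨hO, h2⟩))
  have hTT : TT d L p (x - c * ss d r) ≤ TT d L p x + 2 * d * (C7 + C7') / c8 * TT d L p x +
      TT d L p (x - c * ss d r) / 2 := by
    calc TT d L p (x - c * ss d r) ≤ _ := hun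
      _ ≤ _ := add_le_add (add_le_add le_rfl hpr) G1
  have hfin : TT d L p (x - c * ss d r) ≤
      2 * (TT d L p x + 2 * d * (C7 + C7') / c8 * TT d L p x) := by linarith
  calc TT d L p (x - c * ss d r) ≤ _ := hfin
    _ = 2 * (1 + 2 * d * (C7 + C7') / c8) * TT d L p x := by ring

end

end Pool.Agent.LBL
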