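import Pool.Agent.LBL.Targets1

set_option autoImplicit false

/-!
# LBL-SLP: slope of the logarithm of the tail
-/

open Finset
open scoped Classical

namespace Pool.Agent.LBL

namespace SLP_

lemma rpow_bd {r : ℝ} (hr : 1 ≤ r) : r ^ (-(7 : ℝ) / 2) ≤ 1 / r ^ 3 := by
  have hr0 : 0 < r := by linarith
  have h1 : (1 : ℝ) / r ^ 3 = r ^ (-(3 : ℝ)) := by
    rw [Real.rpow_neg hr0.le, one_div]
    congr 1
    exact_mod_cast (Real.rpow_natCast r 3).symm
  rw [h1]
  exact Real.rpow_le_rpow_of_exponent_le hr (by norm_num)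

end SLP_

/-- LBL-SLP -/
theorem p_SLP (h_LDP : T_LDP) (h_VCT : T_VCT) : T_SLP := by
  intro d K0 p a A hd hK0 hp hp1 ha haA
  obtain ⟨C2, r2, hC2, hr2, hV⟩ := h_VCT d K0 a (A + 1) hd hK0 ha (by linarith)
  have hlog : 0 < -Real.log p := by
    have := Real.log_neg hp hp1
    linarith
  set ℓ : ℝ := -Real.log p with hℓ
  refine ⟨ℓ * C2, by positivity, ?_⟩
  intro ε hε
  obtain ⟨C1, r1, hC1, hr1, hL⟩ := h_LDP d K0 p a A (ε / 2) hd hK0 hp hp1 ha haA (by linarith)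
  set r3 : ℝ := ℓ * C2 * (C1 + 1) * 2 / ε with hr3
  refine ⟨max (max r1 r2) (max C1 r3), lt_of_lt_of_le hr1 ((le_max_left _ _).trans
    (le_max_left _ _)), ?_⟩
  intro r x u L _ hr hRg hWx hu hWu
  have hrr1 : r1 ≤ r := (le_max_left _ _).trans ((le_max_left _ _).trans hr)
  have hrr2 : r2 ≤ r := (le_max_right _ _).trans ((le_max_left _ _).trans hr)
  have hrC1 : C1 ≤ r := (le_max_left _ _).trans ((le_max_right _ _).trans hr)
  have hrr3 : r3 ≤ r := (le_max_right _ _).trans ((le_max_right _ _).trans hr)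
  have hr1' : 1 ≤ r := by linarith
  have hr0 : 0 < r := by linarith
  set δ : ℝ := C1 * r ^ (-(7 : ℝ) / 2) with hδ
  have hδ0 : 0 ≤ δ := by positivity
  have hδ1 : δ ≤ C1 * (1 / r ^ 3) := mul_le_mul_of_nonneg_left (SLP_.rpow_bd hr1') hC1.le
  have hδ2 : δ * r ^ 2 ≤ 1 := by
    calc δ * r ^ 2 ≤ C1 * (1 / r ^ 3) * r ^ 2 := by gcongr
      _ = C1 / r := by field_simp
      _ ≤ 1 := (div_le_one hr0).2 hrC1
  have hWy : Win a (A + 1) r (x - u - δ) := by
    obtain ⟨h1, h2⟩ := hWu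
    constructor
    · nlinarith [sq_nonneg r]
    · nlinarith [sq_nonneg r]
  have hWx' : Win a (A + 1) r (x - u - δ + (u + δ)) := by
    have : x - u - δ + (u + δ) = x := by ring
    rw [this]
    exact ⟨hWx.1, by linarith [hWx.2]⟩
  have hvol := hV r (x - u - δ) (u + δ) L hrr2 hRg hWy (by positivity) hWx'
  have hxx : x - u - δ + (u + δ) = x := by ring
  rw [hxx] at hvol
  have hup := (hL r (x - u) L hrr1 hRg hWu).2
  have hlo := (hL r x L hrr1 hRg hWx).1
  have hpow : ∀ n : ℕ, p ^ n = Real.exp (-(ℓ * n)) := by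
    intro n
    rw [hℓ, neg_mul, neg_neg, mul_comm, ← Real.log_pow, Real.exp_log (pow_pos hp _)]
  -- the error terms
  have hrd : r ^ (d - 1) ≤ r ^ d / r := by
    rw [le_div_iff₀ hr0, ← pow_succ]
    exact pow_le_pow_right₀ hr1' (by omega)
  have hrd2 : δ * r ^ (d + 2) ≤ C1 * (r ^ d / r) := by
    calc δ * r ^ (d + 2) ≤ C1 * (1 / r ^ 3) * r ^ (d + 2) := by gcongr
      _ = C1 * (r ^ d / r) := by
        rw [pow_add]
        field_simp
  have herr : ℓ * C2 * (δ * r ^ (d + 2) + r ^ (d - 1)) ≤ ε / 2 * r ^ d := by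
    have h1 : ℓ * C2 * (C1 + 1) ≤ ε / 2 * r := by
      have h2 : r3 * ε = ℓ * C2 * (C1 + 1) * 2 := by
        rw [hr3]
        field_simp
      nlinarith
    calc ℓ * C2 * (δ * r ^ (d + 2) + r ^ (d - 1))
        ≤ ℓ * C2 * (C1 * (r ^ d / r) + r ^ d / r) := by gcongr
      _ = ℓ * C2 * (C1 + 1) * (r ^ d / r) := by ring
      _ ≤ ε / 2 * r * (r ^ d / r) := by gcongr
      _ = ε / 2 * r ^ d := by field_simp
  calc TT d L p (x - u)
      ≤ Real.exp (ε / 2 * r ^ d) * p ^ vol d L (x - u - δ) := hup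
    _ ≤ Real.exp (ε / 2 * r ^ d) * (Real.exp (ℓ * C2 * u * r ^ (d + 2) + ε / 2 * r ^ d) *
          p ^ vol d L x) := by
        refine mul_le_mul_of_nonneg_left ?_ (Real.exp_pos _).le
        rw [hpow, hpow, ← Real.exp_add]
        apply Real.exp_le_exp.2
        have h1 := mul_le_mul_of_nonneg_left hvol hlog.le
        nlinarith
    _ = Real.exp (ℓ * C2 * u * r ^ (d + 2) + ε * r ^ d) * p ^ vol d L x := by
        rw [← mul_assoc, ← Real.exp_add]
        congr 2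
        ring
    _ ≤ Real.exp (ℓ * C2 * u * r ^ (d + 2) + ε * r ^ d) * TT d L p x :=
        mul_le_mul_of_nonneg_left hlo (Real.exp_pos _).le

end Pool.Agent.LBL
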