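import Pool.Agent.LBL.Wlk1
import Pool.Agent.LBL.Targets1
import Pool.Agent.LBL.P_LON

set_option autoImplicit false

/-!
# LBL, target YCU: few points with large survival probability
-/

open Finset
open scoped Classical

namespace Pool.Agent.LBL

noncomputable section

theorem YCU_srv_nonneg {d L : ℕ} [NeZero L] (O : Finset (Tor d L)) (t : ℕ) : ∀ x, 0 ≤ srv O t x := by
  induction t with
  | zero =>
    intro x
    unfold srv
    simp only [Function.iterate_zero, id_eq]
    split_ifs <;> norm_num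
  | succ t ih =>
    intro x
    unfold srv at ih ⊢
    rw [Function.iterate_succ_apply']
    unfold Pk at ih ⊢
    split_ifs
    · unfold P0
      apply div_nonneg _ (by positivity)
      apply Finset.sum_nonneg
      intro i _
      exact add_nonneg (ih _) (ih _)
    · exact le_refl _

theorem YCU_inj {d k L : ℕ} (a : Fin d → ℤ) (hk : k ≤ L) {x y : Fin d → ℤ} (hx : x ∈ boxF a k)
    (hy : y ∈ boxF a k) (h : red L x = red L y) : x = y := by
  unfold boxF at hx hy
  rw [Fintype.mem_piFinset] at hx hy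
  funext i
  have hxi := Finset.mem_Ico.mp (hx i)
  have hyi := Finset.mem_Ico.mp (hy i)
  have hi : ((x i : ℤ) : ZMod L) = ((y i : ℤ) : ZMod L) := congrFun h i
  rw [ZMod.intCast_eq_intCast_iff] at hi
  have hd := hi.dvd
  obtain ⟨c, hc⟩ := hd
  have hkL : (k : ℤ) ≤ L := by exact_mod_cast hk
  have h1 : y i - x i < L := by omega
  have h2 : -(L : ℤ) < y i - x i := by omega
  rw [hc] at h1 h2
  have hLpos : (0 : ℤ) < L := by
    have : (0 : ℤ) < k := by omega
    omega
  have hc1 : c < 1 := by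
    by_contra hcon
    push Not at hcon
    nlinarith
  have hc2 : -1 < c := by
    by_contra hcon
    push Not at hcon
    nlinarith
  have hc0 : c = 0 := by omega
  rw [hc0, mul_zero] at hc
  omega

theorem p_YCU (h_YTR : T_YTR) (h_HOL : T_HOL) (h_MMS : T_MMS) : T_YCU := by
  intro d K0 p C' c6 hd hK hp0 hp1 hC' hc6
  obtain ⟨r2, hr2, hmms⟩ := h_MMS d K0 p hd hK hp0 hp1 (1 / 2) (by norm_num)
  refine ⟨(2 * C' + 1) / c6, max (max r2 2) ((4 * ((K0 : ℝ) * d) + 2) ^ 2), by positivity,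
    lt_of_lt_of_le (by norm_num) ((le_max_right _ _).trans (le_max_left _ _)), ?_⟩
  intro r ℓ _ hr hRg a O hO hhole
  have hrr2 : r2 ≤ r := ((le_max_left _ _).trans (le_max_left _ _)).trans hr
  have hr2' : 2 ≤ r := ((le_max_right _ _).trans (le_max_left _ _)).trans hr
  have hrK : (4 * ((K0 : ℝ) * d) + 2) ^ 2 ≤ r := (le_max_right _ _).trans hr
  have hr1' : 1 ≤ r := by linarith
  obtain ⟨hm1, hm2, hm3⟩ := hmms r hrr2
  set m : ℕ := mm d p K0 r with hm
  have hsq : r ^ ((1 : ℝ) / 2) = Real.sqrt r := (Real.sqrt_eq_rpow r).symm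
  rw [hsq] at hm2 hm3
  have hsK : 4 * ((K0 : ℝ) * d) + 2 ≤ Real.sqrt r := by
    apply Real.le_sqrt_of_sq_le hrK
  have hcond := LON_cond d K0 m (8 * ℓ) r (by omega) hr1' hm1 hm2 hm3 hRg.2 hsK
  set O' : Finset (Tor d (8 * ℓ)) := O.image (red (8 * ℓ)) with hO'
  have hhol := h_HOL d (8 * ℓ) O' m ⌊r ^ 2⌋₊ (by omega) hm1 hcond
  -- the side is large
  have hl : 6 * ℓ + 4 ≤ 8 * ℓ := by
    have h1 : (64 : ℝ) ≤ r ^ (d + 4) := by
      calc (64 : ℝ) = 2 ^ 6 := by norm_num
        _ ≤ 2 ^ (d + 4) := pow_le_pow_right₀ (by norm_num) (by omega)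
        _ ≤ r ^ (d + 4) := pow_le_pow_left₀ (by norm_num) hr2' _
    have h2 : (64 : ℝ) ≤ ((8 * ℓ : ℕ) : ℝ) := h1.trans hRg.1
    have h3 : 64 ≤ 8 * ℓ := by exact_mod_cast h2
    omega
  obtain ⟨-, -, -, hsv⟩ := h_YTR d (6 * ℓ) (8 * ℓ) a O (by omega) hl hO
  set t : ℕ := ⌊r ^ 2⌋₊ with ht
  have hsum : ∑ x ∈ O, sv O t x ≤ ∑ y, srv O' t y := by
    calc ∑ x ∈ O, sv O t x = ∑ x ∈ O, srv O' t (red (8 * ℓ) x) :=
          Finset.sum_congr rfl fun x hx => hsv t x hx
      _ = ∑ y ∈ O', srv O' t y := by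
          rw [hO', Finset.sum_image]
          intro x hx y hy hxy
          exact YCU_inj a (by omega) (hO hx) (hO hy) hxy
      _ ≤ ∑ y, srv O' t y :=
          Finset.sum_le_sum_of_subset_of_nonneg (Finset.subset_univ _) fun y _ _ => YCU_srv_nonneg O' t y
  have hmarkov : c6 * ((O.filter fun x => c6 ≤ sv O t x).card : ℝ) ≤ ∑ x ∈ O, sv O t x := by
    calc c6 * ((O.filter fun x => c6 ≤ sv O t x).card : ℝ) = ∑ x ∈ O.filter fun x => c6 ≤ sv O t x, c6 := by
          rw [Finset.sum_const, nsmul_eq_mul]; ring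
      _ ≤ ∑ x ∈ O.filter fun x => c6 ≤ sv O t x, sv O t x :=
          Finset.sum_le_sum fun x hx => (Finset.mem_filter.mp hx).2
      _ ≤ ∑ x ∈ O, sv O t x := by
          apply Finset.sum_le_sum_of_subset_of_nonneg (Finset.filter_subset _ _)
          intro x hx _
          rw [hsv t x hx]
          exact YCU_srv_nonneg O' t _
  have hrd : (1 : ℝ) ≤ r ^ d := one_le_pow₀ hr1'
  have hfin : c6 * ((O.filter fun x => c6 ≤ sv O t x).card : ℝ) ≤ (2 * C' + 1) * r ^ d := by
    have h1 : 2 * ((hol m O').card : ℝ) + 1 ≤ 2 * (C' * r ^ d) + r ^ d := by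
      linarith [hhole]
    linarith
  rw [div_mul_eq_mul_div, le_div_iff₀ hc6]
  linarith

end

end Pool.Agent.LBL
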