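import Pool.Agent.LBL.Wlk3
import Pool.Agent.LBL.P_YCT

set_option autoImplicit false

/-!
# LBL: lower bound, deterministic (T_YLO)
-/

open Finset MeasureTheory Filter Topology
open scoped Classical

namespace Pool.Agent.LBL

noncomputable section

theorem YLO_mono {d : ℕ} (x : Fin d → ℤ) (n : ℕ) (E E' : (ℕ → Fin d → ℤ) → Prop) (h : ∀ u, E u → E' u) :
    wk x n E ≤ wk x n E' := by
  unfold wk
  apply div_le_div_of_nonneg_right _ (by positivity)
  have : (Finset.univ.filter fun s : Fin n → Fin d × Bool => E (trj x s)) ⊆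
      (Finset.univ.filter fun s : Fin n → Fin d × Bool => E' (trj x s)) := by
    intro s hs
    rw [Finset.mem_filter] at hs ⊢
    exact ⟨hs.1, h _ hs.2⟩
  exact_mod_cast Finset.card_le_card this

theorem YLO_nrm {d : ℕ} (hd : 1 ≤ d) (x : Fin d → ℤ) : (nrm x : ℝ) ≤ Real.sqrt (∑ i, (x i : ℝ) ^ 2) := by
  haveI : Nonempty (Fin d) := ⟨⟨0, by omega⟩⟩
  obtain ⟨i, -, hi⟩ := Finset.exists_mem_eq_sup (Finset.univ : Finset (Fin d)) Finset.univ_nonempty (fun i => (x i).natAbs)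
  have h : nrm x = (x i).natAbs := hi
  rw [h]
  apply Real.le_sqrt_of_sq_le
  have h1 : (((x i).natAbs : ℝ)) ^ 2 = (x i : ℝ) ^ 2 := by
    have h2 : (((x i).natAbs : ℤ)) ^ 2 = (x i) ^ 2 := Int.natAbs_sq (x i)
    have h3 : ((((x i).natAbs : ℤ)) : ℝ) ^ 2 = ((x i : ℤ) : ℝ) ^ 2 := by exact_mod_cast h2
    simpa using h3
  rw [h1]
  exact Finset.single_le_sum (f := fun i => (x i : ℝ) ^ 2) (fun j _ => sq_nonneg _) (Finset.mem_univ i)

/-- the multi-time bound -/
theorem YLO_times (h_YML : T_YML) (h_YMI : T_YMI) (d n K m : ℕ) (ω : Env d) (B : Finset (Fin d → ℤ)) (q : ℝ)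
    (hd : 1 ≤ d) (hK : 1 ≤ K) (hm : 1 ≤ m) (hKm : K * m ≤ n) (hq : 0 ≤ q)
    (hB : ∀ y ∈ B, wk y m (alv ω m) ≤ q)
    (hqc : ∀ i < K, 1 - 1 / (2 * (K : ℝ)) ≤ qc ω n (n - i * m) B) :
    wk 0 n (alv ω n) ≤ 2 * (wk 0 (n - (K - 1) * m) (alv ω (n - (K - 1) * m)) * q ^ (K - 1)) := by
  set T : Finset ℕ := (Finset.range K).image (fun i => n - i * m) with hT
  have hile : ∀ i < K, i * m ≤ n := fun i hi => (Nat.mul_le_mul_right m hi.le).trans hKm
  have hcard : T.card = K := by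
    rw [hT, Finset.card_image_of_injOn, Finset.card_range]
    intro i hi j hj hij
    have hi' := hile i (Finset.mem_range.mp hi)
    have hj' := hile j (Finset.mem_range.mp hj)
    have hij' : n - i * m = n - j * m := hij
    have : i * m = j * m := by omega
    exact Nat.eq_of_mul_eq_mul_right hm this
  have h1 := h_YML d n ω B T hd (by
    intro t ht
    rw [hT, Finset.mem_image] at ht
    obtain ⟨i, hi, rfl⟩ := ht
    rw [hcard]
    exact hqc i (Finset.mem_range.mp hi))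
  have hle : (K - 1) * m ≤ n := (Nat.mul_le_mul_right m (Nat.sub_le K 1)).trans hKm
  set t1 := n - (K - 1) * m with ht1
  have hn : t1 + (K - 1) * m = n := by omega
  have h2 := h_YMI d t1 m (K - 1) ω 0 B q hd hq hB
  rw [hn] at h2
  have h3 : wk 0 n (fun u => alv ω n u ∧ ∀ t ∈ T, u t ∈ B) ≤
      wk 0 n (fun u => alv ω n u ∧ ∀ i ≤ K - 1, u (t1 + i * m) ∈ B) := by
    apply YLO_mono
    rintro u ⟨hu1, hu2⟩
    refine ⟨hu1, ?_⟩
    intro i hi
    apply hu2
    rw [hT, Finset.mem_image]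
    obtain ⟨j, hj⟩ : ∃ j, K - 1 = i + j := ⟨K - 1 - i, by omega⟩
    refine ⟨j, Finset.mem_range.mpr (by omega), ?_⟩
    have : n = (t1 + i * m) + j * m := by
      rw [← hn, hj]
      ring
    show n - j * m = t1 + i * m
    omega
  calc wk 0 n (alv ω n) ≤ 2 * wk 0 n (fun u => alv ω n u ∧ ∀ t ∈ T, u t ∈ B) := h1
    _ ≤ 2 * wk 0 n (fun u => alv ω n u ∧ ∀ i ≤ K - 1, u (t1 + i * m) ∈ B) := by linarith
    _ ≤ 2 * (wk 0 t1 (alv ω t1) * q ^ (K - 1)) := by linarith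

theorem p_YLO (h_YML : T_YML) (h_YMI : T_YMI) (h_YQ1 : T_YQ1) (h_YQ2 : T_YQ2) (h_YSC : T_YSC) (h_YXS : T_YXS) : T_YLO := by
  intro d p C0 J c1 c7 A0 hd hp0 hp1 hC0 hJ hc1 hc7 hA0
  obtain ⟨C6, hC6, hQ1⟩ := h_YQ1 d p J c1 hd hp0 hp1 hJ hc1
  obtain ⟨C20, hC20, hQ2⟩ := h_YQ2 d p J c1 c7 hd hp0 hp1 hJ hc1 hc7
  obtain ⟨hscr, -, hsc3, -, hsc5⟩ := h_YSC d hd
  obtain ⟨_, _, _, _, _, _, hX⟩ := h_YXS d p hd hp0 hp1
  set S := C6 + C0 + 2 with hS
  have hS0 : 0 < S := by linarith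
  set C2 := max C20 (16 * S / c1) with hC2
  have hC2a : C20 ≤ C2 := le_max_left _ _
  have hC2b : S ≤ C2 * c1 / 16 := by
    have h1 : 16 * S / c1 ≤ C2 := le_max_right _ _
    rw [div_le_iff₀ hc1] at h1
    linarith
  have hC21 : 1 ≤ C2 := hC20.trans hC2a
  refine ⟨min (1 / 16) (Real.exp (-(16 * S / c7))), lt_min (by norm_num) (Real.exp_pos _), min_le_left _ _, ?_⟩
  intro c hc0 hcc
  have hc16 : c ≤ 1 / 16 := hcc.trans (min_le_left _ _)
  have hcexp : c ≤ Real.exp (-(16 * S / c7)) := hcc.trans (min_le_right _ _)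
  have hlog : 16 * S / c7 ≤ Real.log (1 / c) := by
    have h1 : Real.log c ≤ -(16 * S / c7) := by
      rw [← Real.log_exp (-(16 * S / c7))]
      exact Real.log_le_log hc0 hcexp
    rw [one_div, Real.log_inv]
    linarith
  have hlog2 : S ≤ c7 * Real.log (1 / c) / 16 := by
    rw [div_le_iff₀ hc7] at hlog
    linarith
  have hsc : 0 < Real.sqrt c := Real.sqrt_pos.mpr hc0
  have hscsq : Real.sqrt c * Real.sqrt c = c := Real.mul_self_sqrt hc0.le
  have hsc4 : Real.sqrt c ≤ 1 / 4 := by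
    rw [Real.sqrt_le_left (by norm_num)]
    linarith
  have hccs : c ≤ Real.sqrt c / 4 := by nlinarith
  set K := ⌈C2 / Real.sqrt c⌉₊ with hK
  have hK4 : 4 ≤ K := by
    have h1 : (4 : ℝ) ≤ C2 / Real.sqrt c := by
      rw [le_div_iff₀ hsc]
      linarith
    have h2 : (4 : ℝ) ≤ K := h1.trans (Nat.le_ceil _)
    exact_mod_cast h2
  refine ⟨K, by omega, ?_⟩
  have hQ2' := hQ2 C2 hC2a c hc0 hc16
  filter_upwards [hQ1, hQ2', hX, hscr 1, hsc5 (8 * A0 / Real.sqrt c) 1, hsc5 K 0, Filter.eventually_ge_atTop (2 * K)]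
    with n h1n h2n hXn hrn hf1n hfKn hnK
  intro ω B hBd hlow hW1 hWc hUB hlamc hqc x hxB
  by_contra hcon
  push Not at hcon
  have hn2 : 2 ≤ n := by omega
  obtain ⟨-, -, hr0, hf0⟩ := hsc3 n hn2
  set f := fn d n with hf
  set X := xs d p n with hXdef
  have hX2 : 1 / 2 ≤ X := hXn.2.2.2.1
  have hX0 : 0 < X := by linarith
  have hsqrt : 1 ≤ Real.sqrt n := by
    rw [Real.one_le_sqrt]
    exact_mod_cast (by omega : 1 ≤ n)
  have hfK : (K : ℝ) ≤ f := by
    have := hfKn.1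
    rw [pow_zero, mul_one] at this
    have hK0 : (0 : ℝ) ≤ K := by positivity
    nlinarith
  have hAr : A0 * (rr d n + 1) ≤ Real.sqrt c / 4 * f := by
    have h1 := hf1n.1
    rw [pow_one] at h1
    have h2 : 8 * A0 / Real.sqrt c * rr d n ≤ f := by
      have h3 : 8 * A0 / Real.sqrt c * rr d n ≤ 8 * A0 / Real.sqrt c * Real.sqrt n * rr d n := by
        apply mul_le_mul_of_nonneg_right _ hr0.le
        have : 0 ≤ 8 * A0 / Real.sqrt c := by positivity
        nlinarith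
      linarith
    have h4 := mul_le_mul_of_nonneg_left h2 (by positivity : 0 ≤ Real.sqrt c / 4)
    have h5 : Real.sqrt c / 4 * (8 * A0 / Real.sqrt c * rr d n) = 2 * A0 * rr d n := by
      field_simp
      ring
    rw [h5] at h4
    nlinarith
  have hBn : ∀ y ∈ B, 2 * (nrm y : ℝ) ≤ Real.sqrt c * f := by
    intro y hy
    have h1 : nrm y ≤ nrm x + nrm (y - x) := by
      have := YCT_nrm_add x (y - x)
      rwa [add_sub_cancel] at this
    have h2 : (nrm y : ℝ) ≤ nrm x + nrm (y - x) := by exact_mod_cast h1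
    have h3 := hBd y hy x hxB
    have h4 := YLO_nrm (by omega : 1 ≤ d) x
    have h5 : c * f ≤ Real.sqrt c / 4 * f := mul_le_mul_of_nonneg_right hccs hf0.le
    linarith
  set m := n / (2 * K) with hm
  have hm1 : 1 ≤ m := by
    rw [hm]
    exact (Nat.one_le_div_iff (by omega)).mpr hnK
  have hKm : K * m ≤ n := by
    have : (2 * K) * m ≤ n := Nat.mul_div_le n (2 * K)
    nlinarith
  set g := min (c7 * Real.log (1 / c) / 8) (C2 * c1 / 8) with hg
  have hg2 : 2 * S ≤ g := by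
    rw [hg]
    apply le_min <;> linarith
  set q := 2 * X ^ m * Real.exp (-(g / K) * f) with hq
  have hq0 : 0 ≤ q := by positivity
  have hBq : ∀ y ∈ B, wk y m (alv ω m) ≤ q := fun y hy => h2n ω hWc hUB hlamc y (hBn y hy)
  have hT := YLO_times h_YML h_YMI d n K m ω B q (by omega) (by omega) hm1 hKm hq0 hBq hqc
  set t1 := n - (K - 1) * m with ht1
  have hle : (K - 1) * m ≤ n := (Nat.mul_le_mul_right m (Nat.sub_le K 1)).trans hKm
  have hn : t1 + m * (K - 1) = n := by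
    rw [mul_comm m (K - 1)]
    omega
  have hq1 := h1n ω t1 (by omega) hW1 hUB
  have hqpow : q ^ (K - 1) = 2 ^ (K - 1) * X ^ (m * (K - 1)) * Real.exp (((K - 1 : ℕ) : ℝ) * (-(g / K) * f)) := by
    rw [hq, mul_pow, mul_pow, ← pow_mul, ← Real.exp_nat_mul]
  have hup : wk 0 n (alv ω n) ≤ 2 ^ K * X ^ n * Real.exp (-(C0 + 1) * f) := by
    have h1 : wk 0 t1 (alv ω t1) * q ^ (K - 1) ≤ (X ^ t1 * Real.exp (C6 * f)) * q ^ (K - 1) :=
      mul_le_mul_of_nonneg_right hq1 (by positivity)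
    have h2 : 2 * ((X ^ t1 * Real.exp (C6 * f)) * q ^ (K - 1)) =
        (2 * 2 ^ (K - 1)) * (X ^ t1 * X ^ (m * (K - 1))) * (Real.exp (C6 * f) * Real.exp (((K - 1 : ℕ) : ℝ) * (-(g / K) * f))) := by
      rw [hqpow]
      ring
    have h3 : (2 : ℝ) * 2 ^ (K - 1) = 2 ^ K := by
      rw [← pow_succ', Nat.sub_add_cancel (by omega : 1 ≤ K)]
    rw [← pow_add, hn, h3, ← Real.exp_add] at h2
    have h4 : Real.exp (C6 * f + ((K - 1 : ℕ) : ℝ) * (-(g / K) * f)) ≤ Real.exp (-(C0 + 1) * f) := by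
      apply Real.exp_le_exp.mpr
      have h5 : ((K - 1 : ℕ) : ℝ) = (K : ℝ) - 1 := by
        rw [Nat.cast_sub (by omega)]
        simp
      rw [h5]
      have hKr : (4 : ℝ) ≤ K := by exact_mod_cast hK4
      have h6 : g / 2 ≤ ((K : ℝ) - 1) * (g / K) := by
        have h7 : ((K : ℝ) - 1) * (g / K) = g * (((K : ℝ) - 1) / K) := by ring
        have h8 : (1 / 2 : ℝ) ≤ ((K : ℝ) - 1) / K := by
          rw [le_div_iff₀ (by linarith)]
          linarith
        rw [h7]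
        have := mul_le_mul_of_nonneg_left h8 (by linarith : 0 ≤ g)
        linarith
      have h9 : S * f ≤ ((K : ℝ) - 1) * (g / K) * f := by
        apply mul_le_mul_of_nonneg_right _ hf0.le
        linarith
      have h10 : C6 * f + ((K : ℝ) - 1) * (-(g / K) * f) = C6 * f - ((K : ℝ) - 1) * (g / K) * f := by ring
      rw [h10]
      have h11 : S * f = C6 * f + (C0 + 1) * f + f := by
        rw [hS]
        ring
      linarith
    calc wk 0 n (alv ω n) ≤ 2 * (wk 0 t1 (alv ω t1) * q ^ (K - 1)) := hT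
      _ ≤ 2 * ((X ^ t1 * Real.exp (C6 * f)) * q ^ (K - 1)) := by linarith
      _ = 2 ^ K * X ^ n * Real.exp (C6 * f + ((K - 1 : ℕ) : ℝ) * (-(g / K) * f)) := h2
      _ ≤ 2 ^ K * X ^ n * Real.exp (-(C0 + 1) * f) := mul_le_mul_of_nonneg_left h4 (by positivity)
  have hfin : X ^ n * Real.exp (-C0 * f) ≤ 2 ^ K * X ^ n * Real.exp (-(C0 + 1) * f) := hlow.trans hup
  have hXn0 : 0 < X ^ n := by positivity
  have h1 : Real.exp (-C0 * f) = Real.exp (-(C0 + 1) * f) * Real.exp f := by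
    rw [← Real.exp_add]
    congr 1
    ring
  rw [h1] at hfin
  have h2 : Real.exp f ≤ 2 ^ K := by
    have h3 : 0 < X ^ n * Real.exp (-(C0 + 1) * f) := by positivity
    have h4 : (X ^ n * Real.exp (-(C0 + 1) * f)) * Real.exp f ≤ (X ^ n * Real.exp (-(C0 + 1) * f)) * 2 ^ K := by
      calc (X ^ n * Real.exp (-(C0 + 1) * f)) * Real.exp f = X ^ n * (Real.exp (-(C0 + 1) * f) * Real.exp f) := by ring
        _ ≤ 2 ^ K * X ^ n * Real.exp (-(C0 + 1) * f) := hfin
        _ = (X ^ n * Real.exp (-(C0 + 1) * f)) * 2 ^ K := by ring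
    exact le_of_mul_le_mul_left h4 h3
  have h5 : (2 : ℝ) ^ K < Real.exp f := by
    have h6 : (2 : ℝ) < Real.exp 1 := by
      have := Real.exp_one_gt_d9
      linarith
    calc (2 : ℝ) ^ K < Real.exp 1 ^ K := pow_lt_pow_left₀ h6 (by norm_num) (by omega)
      _ = Real.exp K := by
        rw [← Real.exp_nat_mul, mul_one]
      _ ≤ Real.exp f := Real.exp_le_exp.mpr hfK
  linarith

end

end Pool.Agent.LBL
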