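import Pool.Agent.LBL.Targets1
import Pool.Agent.LBL.Wlk2

set_option autoImplicit false

/-!
# LBL: upper bound of the eigenvalue of a small cube (T_YSH)
-/

open Finset MeasureTheory Filter Topology
open scoped Classical

namespace Pool.Agent.LBL

noncomputable section

theorem YSH_cub (d D : ℕ) : cub d D = boxF (fun _ => -(D : ℤ)) (2 * D + 1) := by
  unfold cub boxF
  ext x
  simp only [Fintype.mem_piFinset, Finset.mem_Icc, Finset.mem_Ico]
  constructor
  · intro h i
    have := h i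
    constructor
    · exact this.1
    · push_cast
      omega
  · intro h i
    have := h i
    push_cast at this
    constructor
    · exact this.1
    · omega

theorem p_YSH (h_PRB : T_PRB) (h_YUN : T_YUN) (h_YTL : T_YTL) (h_YSC : T_YSC) : T_YSH := by
  intro d p hd hp0 hp1
  obtain ⟨C1, hC1, hU⟩ := h_YUN d (by omega)
  obtain ⟨C, ct, hC, hct, hT⟩ := h_YTL d p hd hp0 hp1
  obtain ⟨hsc1, hsc2, hsc3, hsc4, hsc5⟩ := h_YSC d hd
  have hd0 : (0 : ℝ) < d := by
    have : 0 < d := by omega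
    exact_mod_cast this
  have hd2 : (2 : ℝ) ≤ d := by exact_mod_cast hd
  have hCp : 0 < C := by linarith
  refine ⟨d / (4 * C), by positivity, ?_⟩
  intro ε hε
  set M : ℝ := 16 ^ d * C * Real.exp C with hM
  have hM0 : 0 < M := by positivity
  refine ⟨min 1 ((ε / M) ^ 2), by positivity, ?_⟩
  intro c hc hcc
  have hc1 : c ≤ 1 := hcc.trans (min_le_left _ _)
  have hc2 : c ≤ (ε / M) ^ 2 := hcc.trans (min_le_right _ _)
  have hsc : Real.sqrt c ≤ ε / M := by
    have h1 : Real.sqrt c ≤ Real.sqrt ((ε / M) ^ 2) := Real.sqrt_le_sqrt hc2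
    rwa [Real.sqrt_sq (by positivity)] at h1
  have hsc0 : 0 < Real.sqrt c := Real.sqrt_pos.mpr hc
  set Λ : ℝ := Real.log (1 / c) with hΛ
  have hΛ0 : 0 ≤ Λ := by
    rw [hΛ]
    apply Real.log_nonneg
    rw [le_div_iff₀ hc]
    linarith
  have hcΛ : Real.sqrt c = Real.exp (-(Λ / 2)) := by
    have h1 : c = Real.exp (-(Λ / 2)) ^ 2 := by
      rw [← Real.exp_nat_mul, hΛ]
      push_cast
      rw [one_div, Real.log_inv]
      have h2 : (2 : ℝ) * -(-Real.log c / 2) = Real.log c := by ring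
      rw [h2, Real.exp_log hc]
    rw [h1, Real.sqrt_sq (Real.exp_pos _).le]
  set J : ℝ := d / (4 * C) * Λ + 1 with hJ
  have hJ0 : 0 ≤ J := by
    have : 0 ≤ d / (4 * C) * Λ := by positivity
    linarith
  filter_upwards [hT, hsc1 (max 1 J), hsc2, hsc4 C1, hsc5 (1 / Real.sqrt c) (d + 5), Filter.eventually_ge_atTop 2] with n hTn h1n h2n h4n h5d hn2
  haveI := PP_prob d hp0.le hp1.le
  obtain ⟨hfe, hre, hr0, hf0⟩ := hsc3 n hn2
  set f := fn d n with hf
  have hr1 : 1 ≤ rr d n := (le_max_left _ _).trans h1n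
  have hrJ : J ≤ rr d n ^ d := by
    have h1 : J ≤ rr d n := (le_max_right _ _).trans h1n
    have h2 : rr d n ^ 1 ≤ rr d n ^ d := pow_le_pow_right₀ hr1 (by omega)
    rw [pow_one] at h2
    linarith
  have hsqrt : 1 ≤ Real.sqrt n := by
    rw [Real.one_le_sqrt]
    exact_mod_cast (by omega : 1 ≤ n)
  have hℓ1 : (1 : ℝ) ≤ ll d n := by
    have : 1 ≤ ll d n := by unfold ll; omega
    exact_mod_cast this
  have hℓ0 : (0 : ℝ) < ll d n := by linarith
  have hℓf : (ll d n : ℝ) ≤ Real.sqrt c * f := by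
    have h1 := h2n.2.2
    have h2 := h5d.1
    have h3 : rr d n ^ (d + 5) ≤ Real.sqrt n * rr d n ^ (d + 5) := by
      have : 0 ≤ rr d n ^ (d + 5) := by positivity
      nlinarith
    have h4 : Real.sqrt c * (1 / Real.sqrt c * Real.sqrt n * rr d n ^ (d + 5)) = Real.sqrt n * rr d n ^ (d + 5) := by
      field_simp
    have h5 := mul_le_mul_of_nonneg_left h2 hsc0.le
    rw [h4] at h5
    linarith
  set s := sn d n with hs
  have hs0 : 0 < s := by
    rw [hs]
    unfold sn ss
    exact Real.rpow_pos_of_pos hr0 _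
  set Dj := ⌈Real.sqrt c * f⌉₊ with hDj
  set x := xs d p n - d / (4 * C) * Λ * s with hx
  have h1 := hU p (ll d n) (2 * Dj + 1) (fun _ => -(Dj : ℤ)) x hp0 hp1
  have h2 : (PP d p).real {ω : Env d | x < lam (opn ω (cub d Dj))} ≤ ((((2 * Dj + 1 : ℕ) : ℝ)) / (ll d n : ℝ) + 3) ^ d * TT d (2 * ll d n) p (x - C1 / (ll d n : ℝ) ^ 2) := by
    rw [← YSH_cub] at h1
    refine le_trans (measureReal_mono ?_ (measure_ne_top _ _)) h1
    intro ω hω
    rw [Set.mem_ofPred_eq] at hω ⊢
    exact le_of_lt hω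
  have hss : C1 / (ll d n : ℝ) ^ 2 ≤ s := h4n
  have h3 : TT d (2 * ll d n) p (x - C1 / (ll d n : ℝ) ^ 2) ≤ TT d (2 * ll d n) p (xs d p n - J * s) := by
    unfold TT
    apply (h_PRB (Tor d (2 * ll d n)) p hp0 hp1).2.2.1
    intro O hO
    have h4 : xs d p n - J * s = x - s := by
      rw [hx, hJ]
      ring
    linarith
  have h4 := (hTn J hJ0).2.1 hrJ
  have hTT : TT d (2 * ll d n) p (x - C1 / (ll d n : ℝ) ^ 2) ≤ C * Real.exp (C * J) * th d n := h3.trans h4
  have hDr : (Dj : ℝ) ≤ Real.sqrt c * f + 1 := (Nat.ceil_lt_add_one (by positivity)).le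
  have hbase : (((2 * Dj + 1 : ℕ) : ℝ)) / (ll d n : ℝ) + 3 ≤ 16 * Real.sqrt c * f / (2 * ll d n) := by
    rw [le_div_iff₀ (by positivity)]
    have h6 : ((((2 * Dj + 1 : ℕ) : ℝ)) / (ll d n : ℝ) + 3) * (2 * (ll d n : ℝ)) = 2 * ((2 * Dj + 1 : ℕ) : ℝ) + 6 * ll d n := by
      field_simp
      ring
    rw [h6]
    push_cast
    nlinarith
  have hbase0 : 0 ≤ (((2 * Dj + 1 : ℕ) : ℝ)) / (ll d n : ℝ) + 3 := by positivity
  have hpow : ((((2 * Dj + 1 : ℕ) : ℝ)) / (ll d n : ℝ) + 3) ^ d ≤ (16 * Real.sqrt c * f / (2 * ll d n)) ^ d :=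
    pow_le_pow_left₀ hbase0 hbase d
  have hth : 0 < th d n := by
    unfold th
    positivity
  calc (PP d p).real {ω : Env d | x < lam (opn ω (cub d Dj))}
      ≤ ((((2 * Dj + 1 : ℕ) : ℝ)) / (ll d n : ℝ) + 3) ^ d * TT d (2 * ll d n) p (x - C1 / (ll d n : ℝ) ^ 2) := h2
    _ ≤ ((((2 * Dj + 1 : ℕ) : ℝ)) / (ll d n : ℝ) + 3) ^ d * (C * Real.exp (C * J) * th d n) :=
        mul_le_mul_of_nonneg_left hTT (by positivity)
    _ ≤ (16 * Real.sqrt c * f / (2 * ll d n)) ^ d * (C * Real.exp (C * J) * th d n) :=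
        mul_le_mul_of_nonneg_right hpow (by positivity)
    _ = (16 * Real.sqrt c) ^ d * (C * Real.exp (C * J)) := by
        unfold th
        rw [← hf]
        have h8 : (16 * Real.sqrt c * f / (2 * (ll d n : ℝ))) ^ d * (C * Real.exp (C * J) * (2 * (ll d n : ℝ) / f) ^ d) =
            ((16 * Real.sqrt c * f / (2 * (ll d n : ℝ))) * (2 * (ll d n : ℝ) / f)) ^ d * (C * Real.exp (C * J)) := by
          rw [mul_pow]
          ring
        rw [h8]
        congr 2
        field_simp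
    _ = M * Real.exp (-(d * Λ / 4)) := by
        have h9 : C * J = d * Λ / 4 + C := by
          rw [hJ]
          field_simp
        have h10 : Real.sqrt c ^ d = Real.exp (-(d * Λ / 2)) := by
          rw [hcΛ, ← Real.exp_nat_mul]
          congr 1
          ring
        rw [mul_pow, h10, h9, Real.exp_add, hM]
        have h11 : Real.exp (-(d * Λ / 4)) = Real.exp (-(d * Λ / 2)) * Real.exp (d * Λ / 4) := by
          rw [← Real.exp_add]
          congr 1
          ring
        rw [h11]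
        ring
    _ ≤ M * Real.sqrt c := by
        apply mul_le_mul_of_nonneg_left _ hM0.le
        rw [hcΛ]
        apply Real.exp_le_exp.mpr
        nlinarith
    _ ≤ M * (ε / M) := mul_le_mul_of_nonneg_left hsc hM0.le
    _ = ε := by field_simp

end

end Pool.Agent.LBL
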