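import Pool.Agent.LBL.Targets1

set_option autoImplicit false

/-!
# LBL, part REG, targets 2: one-site perturbation, pointwise bounds by the energy, upper regularity (R1)
-/

open Finset
open scoped Classical

namespace Pool.Agent.LBL

noncomputable section

/-! ## One site -/

/-- One closed site, exact identities. Write `l° = lam O`, `l = lam (O.erase z)`, `a = P0 φ z`, `α = ip φ φo`, `Δ = l° - l`. On `O`: `P0 φ = l φ + a δ_z`. Pairing with `φo`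
(T_ENI, T_VAR symmetry): `l° α = l α + a φo z`. Test function `φ + a δ_z` on `O`: form `l + 2a^2` (`P0 δ_z z = 0` as `L >= 3`), squared norm `1 + a^2`: `Δ (1+a^2) >= 2 a^2 - a^2 l >= a^2`.
Test function `φo - φo z δ_z` on `O.erase z`: form `l° - 2 l° (φo z)^2`, squared norm `1 - (φo z)^2`. Last: `φ = α φo + f`, `f ⟂ φo`, `l = α^2 l° + <f,P0 f> <= α^2 l° + y (1-α^2)`. -/
def T_ONE : Prop := ∀ (d L : ℕ) [NeZero L], 1 ≤ d → 3 ≤ L → ∀ (O : Finset (Tor d L)) (z : Tor d L) (φo φ : Tor d L → ℝ),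
  z ∈ O → Top O φo → Top (O.erase z) φ →
  0 ≤ ip φ φo ∧ ip φ φo ≤ 1 ∧ lam (O.erase z) ≤ lam O ∧
  (lam O - lam (O.erase z)) * ip φ φo = P0 φ z * φo z ∧
  P0 φ z ^ 2 ≤ (lam O - lam (O.erase z)) * (1 + P0 φ z ^ 2) ∧
  (∀ y, Sec O y → (1 - ip φ φo ^ 2) * (lam O - y) ≤ lam O - lam (O.erase z))

/-- Cost of closing a site: the test function `φo - φo z δ_z` of T_ONE (no top function of `O.erase z` needed). -/
def T_CLO : Prop := ∀ (d L : ℕ) [NeZero L], 1 ≤ d → 3 ≤ L → ∀ (O : Finset (Tor d L)) (z : Tor d L) (φo : Tor d L → ℝ),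
  Top O φo → φo z ^ 2 ≤ 1 / 2 → lam O - 2 * φo z ^ 2 ≤ lam (O.erase z)

/-- Existence of the resolvent: on `H = {f supported in O, f ⟂ φo}` (invariant under `1_O P0`) the symmetric operator `A = l - 1_O P0` satisfies `<f,A f> >= (l-y)|f|^2`, so it
is invertible; `v z = A^{-1}(δ_z - φo z φo)` for `z ∈ O`, `v z = 0` otherwise; `v z w = <v z, A v w>` is symmetric. -/
def T_RVE : Prop := ∀ (d L : ℕ) [NeZero L], 1 ≤ d → ∀ (O : Finset (Tor d L)) (φo : Tor d L → ℝ) (y l : ℝ), Top O φo → Sec O y → y < l →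
  ∃ v : Tor d L → Tor d L → ℝ, Rsv O φo l v

/-- Bounds: pair the equation of `v z` with `v w` (both orthogonal to `φo`): `l <v z, v w> - <P0 v z, v w> = v z w`. The form `l <f,f> - <f,P0 f>` is at least `(l-y)<f,f>` for
`f ⟂ φo` supported in `O`; Cauchy-Schwarz for this form. Monotone: `v z z = sup_f (2 f(z) - form_l(f))` over such `f`. (`z ∉ O`: `v z = 0`.) -/
def T_RVB : Prop := ∀ (d L : ℕ) [NeZero L], 1 ≤ d → ∀ (O : Finset (Tor d L)) (φo : Tor d L → ℝ) (y l : ℝ) (v : Tor d L → Tor d L → ℝ), Top O φo → Sec O y → y < l →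
  Rsv O φo l v →
  (∀ z, 0 ≤ v z z) ∧ (∀ z w, v z w ^ 2 ≤ v z z * v w w) ∧ (∀ z, (l - y) * ip (v z) (v z) ≤ v z z) ∧
  (∀ z, l * ip (v z) (v z) - ip (v z) (P0 (v z)) = v z z) ∧
  (∀ (l' : ℝ) (v' : Tor d L → Tor d L → ℝ), l ≤ l' → Rsv O φo l' v' → ∀ z, v' z z ≤ v z z)

/-- One closed site in terms of the resolvent at `l = lam (O.erase z)`: `φ = α φo + f`, `f ∈ H`, `(l - P0) f = -a δ_z - α (l - lam O) φo` on `O`, so `f = -a v z` (uniqueness: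
the form is positive on `H`). Value at `z` and T_ONE give the rest. -/
def T_RVO : Prop := ∀ (d L : ℕ) [NeZero L], 1 ≤ d → 3 ≤ L → ∀ (O : Finset (Tor d L)) (z : Tor d L) (φo φ : Tor d L → ℝ) (y : ℝ) (v : Tor d L → Tor d L → ℝ),
  z ∈ O → Top O φo → Sec O y → Top (O.erase z) φ → y < lam (O.erase z) → Rsv O φo (lam (O.erase z)) v →
  (∀ w, φ w = ip φ φo * φo w - P0 φ z * v z w) ∧ P0 φ z * v z z = ip φ φo * φo z ∧
  (0 < ip φ φo → (lam O - lam (O.erase z)) * v z z = φo z ^ 2)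

/-- Pointwise bound by the energy. `R = td z y0 + 1 <= L`. Lift to `ℤ^d`. For dyadic boxes `B_k = z + [0,2^k)^d`: `|avg_{B_k} v - avg_{B_{k+1}} v| <= C 2^{-k(d-1)} ∑_{e in B_{k+1}} |dv(e)|` (average of the
`2^d` translates; a translation by `2^k ev i` uses each edge of direction `i` at most `2^k` times). Summing: `|v z - avg_{B_K} v| <= C ∑_e |dv(e)| (1+|e-z|)^{1-d}`, same at `y0`, and the translation of the box of
side `R` from `z` to `y0` costs `C R^{1-d} ∑ |dv(e)|`. Cauchy-Schwarz with `∑_{|e-z| <= R} (1+|e-z|)^{2-2d} <= C kap d R`. Take `K` with `2^K >= R`, boxes may exceed the torus by periodicity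
(multiplicity `<= 2^d`), or use boxes of side `min(2^K, L)`. -/
def T_POT : Prop := ∀ d : ℕ, 2 ≤ d → ∃ C : ℝ, 0 < C ∧ ∀ (L : ℕ) [NeZero L] (v : Tor d L → ℝ) (z y0 : Tor d L), v y0 = 0 →
  v z ^ 2 ≤ C * kap d (td z y0) * En v

/-- `En (v z) = 2 d (g + (1-l) <v z, v z>) <= 2 d (1+B) g` with `g = v z z` (T_ENI, T_RVB), and `g^2 <= C kap En (v z)` (T_POT, `v z` vanishes at `y0`). -/
def T_GKB : Prop := ∀ d : ℕ, 2 ≤ d → ∃ C : ℝ, 0 < C ∧ ∀ (L : ℕ) [NeZero L] (O : Finset (Tor d L)) (φo : Tor d L → ℝ) (y l B : ℝ) (v : Tor d L → Tor d L → ℝ) (z y0 : Tor d L),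
  Top O φo → Sec O y → y < l → 0 ≤ B → 1 - l ≤ B * (l - y) → Rsv O φo l v → y0 ∉ O → v z z ≤ C * (1 + B) * kap d (td z y0)

/-- Escape in dimension two. Let `h` minimize `En` among functions with `h v0 = 1` and `h = 0` outside `B = {td x v0 <= D}`: `0 <= h <= 1`, `P0 h = h` on `B \ {v0}`. Minimum principle for
`φ - φ v0 * h` (superharmonic on `B \ {v0}`, nonnegative elsewhere): `φ >= φ v0 * h`. `(1/4) ∑_{w ~ v0} (1 - h w) = (1-P0)h v0 = En h / 4 <= En test / 4 <= C / log D` for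
`test x = max (1 - log(1+td x v0)/log(1+D)) 0` (difference at most `1/((k+1) log(1+D))` between distances `k` and `k+1`, at most `8(k+1)` such edges). -/
def T_ESC : Prop := ∃ C : ℝ, 0 < C ∧ ∀ (L : ℕ) [NeZero L] (D : ℕ) (φ : Tor 2 L → ℝ) (v0 : Tor 2 L), 2 ≤ D → 2 * D + 3 ≤ L → (∀ x, 0 ≤ φ x) →
  (∀ x, td x v0 ≤ D → P0 φ x ≤ φ x) →
  ∀ i, (1 - C / Real.log D) * φ v0 ≤ φ (v0 + ev i) ∧ (1 - C / Real.log D) * φ v0 ≤ φ (v0 - ev i)

/-! ## Upper regularity -/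

/-- Loomis-Whitney: `|S|^{d-1} <= Π_i |proj_i S|`, hence for some `i`. (Induction on `d` with Cauchy-Schwarz/Holder over the layers in the last direction; for a subset of a finite product `Π X_i`.) -/
def T_LWI : Prop := ∀ (d L : ℕ) [NeZero L] (S : Finset (Tor d L)), 2 ≤ d →
  ∃ i : Fin d, S.card ^ (d - 1) ≤ (S.image fun x => Function.update x i 0).card ^ d

/-- Lines, part 1. Many disjoint lines on which the level passes through the range `[2 j sq.. )`: for `j` large there is a direction `i` and a set `Z` of points of `O` on distinct lines of direction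
`i` with `j sq <= φ z < 2 d j sq` and `|Z| >= c r^{d-1}`, `c` independent of `j`. Proof: T_BLK and T_LWI: at least `c' r^{d-1}` lines of some direction `i` meet the bulk; on such a line start at a bulk point and
go in direction `+ ev i` to the first point `z` with `φ z < 2 d j sq` (exists since `#{φ >= 2dj sq} <= #{φ > hh r^{-3/2}} <= C r^d < L`); the previous point has `φ >= 2dj sq`; if `z ∉ O` then
`P0 φ z >= j sq` (T_FLX): at most `C1 r^{d-1}/j` lines (T_FXM); otherwise `φ z >= j sq` (T_FLX). -/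
def T_LIN : Prop := ∀ (d : ℕ) (C : ℝ), 2 ≤ d → 1 ≤ C → ∃ c j0 : ℝ, 0 < c ∧ 0 < j0 ∧ ∀ j : ℝ, j0 ≤ j → ∃ r0 : ℝ, 1 < r0 ∧
  ∀ (r : ℝ) (L : ℕ) [NeZero L], r0 ≤ r → r ^ (d + 4) ≤ L → ∀ (O : Finset (Tor d L)) (φ : Tor d L → ℝ), EF r C O φ →
  ∃ (i : Fin d) (Z : Finset (Tor d L)), (∀ z ∈ Z, z ∈ O ∧ j * sq d r ≤ φ z ∧ φ z < 2 * d * j * sq d r) ∧
    (∀ z ∈ Z, ∀ z' ∈ Z, Function.update z i 0 = Function.update z' i 0 → z = z') ∧ c * r ^ (d - 1) ≤ (Z.card : ℝ)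

/-- The weight is at least `c / kap`: for `z ∈ O` with `φ z <= 4 d j sq`, `y0 ∉ O`: T_CLO gives `lam (O.erase z) >= lam O - 32 d^2 j^2 sq^2`, which is `> y` with room `1/(2 B r^2)`; T_TOP, T_RVE, T_ONE (`ip^2 >= 1/4`),
T_RVO: weight `= 1/(v z z)`, T_GKB with `B' = 2 B (C+1)`. -/
def T_WLB : Prop := ∀ (d : ℕ) (C B : ℝ), 2 ≤ d → 1 ≤ C → 0 < B → ∃ c : ℝ, 0 < c ∧ ∀ j : ℝ, 0 < j → ∃ r0 : ℝ, 1 < r0 ∧
  ∀ (r : ℝ) (L : ℕ) [NeZero L], r0 ≤ r → r ≤ L → ∀ (O : Finset (Tor d L)) (φ : Tor d L → ℝ) (y : ℝ) (z y0 : Tor d L), EF r C O φ → Sec O y →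
  1 / B ≤ (lam O - y) * r ^ 2 → z ∈ O → 0 < φ z → φ z ≤ 4 * d * j * sq d r → y0 ∉ O →
  c / kap d (td z y0) ≤ (lam O - lam (O.erase z)) / φ z ^ 2

/-- Forward sum. T_LIN and T_WLB. If `d >= 3`, `kap = 1`. If `d = 2`: for `z ∈ Z` let `D` be the distance to a nearest `y0 ∉ O` (`O ≠ univ`; `D <= L/2`). If `D <= D0` use `z` alone. Otherwise the points
`z' = z + k ev i`, `0 <= k <= c5 log D`, are in `O` with `td z' y0 <= 2 D`, and T_ESC (balls of radius `D/4` around them are in `O`, where `P0 φ = lam φ <= φ`) gives `φ z / 2 <= φ z' <= 2 φ z`, so they are in the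
range; the sum of `c/(1+log(1+2D))` over them is at least `c'`. Points belonging to different `z` are on different lines. -/
def T_FOR : Prop := ∀ (d : ℕ) (C B : ℝ), 2 ≤ d → 1 ≤ C → 0 < B → ∃ c j0 : ℝ, 0 < c ∧ 0 < j0 ∧ ∀ j : ℝ, j0 ≤ j → ∃ r0 : ℝ, 1 < r0 ∧
  ∀ (r : ℝ) (L : ℕ) [NeZero L], r0 ≤ r → r ^ (d + 4) ≤ L → ∀ (O : Finset (Tor d L)) (φ : Tor d L → ℝ) (y : ℝ), EF r C O φ → O ≠ Finset.univ → Sec O y →
  1 / B ≤ (lam O - y) * r ^ 2 →
  c * r ^ (d - 1) ≤ ∑ z ∈ O.filter (fun z => j * sq d r / 2 ≤ φ z ∧ φ z ≤ 4 * d * j * sq d r), (lam O - lam (O.erase z)) / φ z ^ 2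

/-- Reverse sum. For such `y`: `O° = insert y O`, `O°.erase y = O`, `ph O° = φo` (T_UNQ), T_ONE: `(1 - α^2)/(B r^2) <= Δ <= 3/(4 B r^2)` so `α >= 1/2` and
`Wt O° y = Δ/φo(y)^2 = P0 φ y /(α φo(y)) <= 4 P0 φ y/(j sq)`; T_FXM. (`L >= 3`.) -/
def T_REV : Prop := ∀ (d : ℕ) (C B : ℝ), 2 ≤ d → 1 ≤ C → 0 < B → ∃ C2 : ℝ, 0 < C2 ∧
  ∀ (r j : ℝ) (L : ℕ) [NeZero L], 1 < r → 0 < j → 3 ≤ L → ∀ (O : Finset (Tor d L)) (φ : Tor d L → ℝ), EF r C O φ →
  ∑ y ∈ Oᶜ.filter (fun y => ∃ (φo : Tor d L → ℝ) (y1 : ℝ), Top (insert y O) φo ∧ j * sq d r / 2 ≤ φo y ∧ Sec (insert y O) y1 ∧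
      1 / B ≤ (lam (insert y O) - y1) * r ^ 2 ∧ (lam (insert y O) - lam O) * (B * r ^ 2) ≤ 3 / 4), Wt (insert y O) y ≤ C2 * r ^ (d - 1) / j

/-- One step of R1. `y1 = x - δ/r^2` (T_GAP), `B = 1/δ`, `C` from T_GDE (with `A`, and `C'` from T_GOO), `c, j0` from T_FOR, `C2` from T_REV, `j` large, `J0 = 32 d^2 j^2`. Put
`A° = {lam O >= x + J0 ss, Sec O y1, |hol O| <= C' r^d}` (then `O ≠ univ`, nonempty, `EF r C O (ph O)`) and `F O z = 1_{A°} 1_{range of ph O z} Wt O z` in T_MTR. Left side `>= pr A° * c r^{d-1}`. Right side: if `O° = insert y O ∈ A°`,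
`ph O° y` in the range, then `lam O >= lam O° - 32 d^2 j^2 ss >= x` (T_CLO), `O` is good (T_HMO), nonempty, `EF r C O (ph O)`, and T_REV applies: right side `<= (p/(1-p)) C2 r^{d-1}/j * TT x`. So
`pr A° <= TT x / 4` and `TT (x + J0 ss) <= pr A° + pr(not Sec) + pr(many holes) <= TT x / 2`. -/
def T_R1H : Prop := ∀ (d K0 : ℕ) (p a A : ℝ), 2 ≤ d → 1 ≤ K0 → 0 < p → p < 1 → 0 < a → a ≤ A → ∃ J0 r0 : ℝ, 0 < J0 ∧ 1 < r0 ∧
  ∀ (r x : ℝ) (L : ℕ) [NeZero L], r0 ≤ r → Rg d K0 r L → Win a A r x → TT d L p (x + J0 * ss d r) ≤ TT d L p x / 2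

/-- R1. Iterate T_R1H in the window with lower end `a/2`. If `x + J ss > 1 - (a/2)/r^2` stop at that point: the number of steps is at least `(a/(2 A J0)) J - 1` since `J <= A r^d` whenever `x + J ss <= 1`; for `x + J ss > 1`
the left side is zero. -/
def T_R1F : Prop := ∀ (d K0 : ℕ) (p a A : ℝ), 2 ≤ d → 1 ≤ K0 → 0 < p → p < 1 → 0 < a → a ≤ A → ∃ C c r0 : ℝ, 0 < C ∧ 0 < c ∧ 1 < r0 ∧
  ∀ (r x J : ℝ) (L : ℕ) [NeZero L], r0 ≤ r → Rg d K0 r L → Win a A r x → 0 ≤ J →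
  TT d L p (x + J * ss d r) ≤ C * Real.exp (-c * J) * TT d L p x

end

end Pool.Agent.LBL
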